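import Mathlib

namespace Pool.Agent.MP_9da1e3_co

open Finset Polynomial

lemma alt_sum_zero (m : ℕ) :
    ∑ k ∈ range (m + 2), ((m + 1).choose k : ℝ) * ((-1) ^ (m + 1 - k) * (1 + k) ^ m) = 0 := by
  have h := fwdDiff_iter_pow_eq_zero_of_lt (R := ℝ) (Nat.lt_succ_self m)
  have h2 := congrFun h 1
  rw [fwdDiff_iter_eq_sum_shift] at h2
  simp only [Pi.zero_apply] at h2
  rw [← h2]
  apply Finset.sum_congr rfl
  intro k _
  simp only [zsmul_eq_mul, nsmul_eq_mul, mul_one]
  push_cast
  ring

/-- Abel's identity at `x = 1`. -/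
lemma abel_poly (m : ℕ) :
    ∑ k ∈ range (m + 1), C ((m.choose k : ℝ) * (1 + k) ^ (k - 1)) * (X + C ((m : ℝ) - k)) ^ (m - k)
      = (X + C ((m : ℝ) + 1)) ^ m := by
  induction m with
  | zero => simp
  | succ m ih =>
    -- equality of the derivatives
    have hd : derivative (∑ k ∈ range (m + 1 + 1), C (((m + 1).choose k : ℝ) * (1 + k) ^ (k - 1)) *
          (X + C (((m + 1 : ℕ) : ℝ) - k)) ^ (m + 1 - k))
        = derivative ((X + C (((m + 1 : ℕ) : ℝ) + 1)) ^ (m + 1) : ℝ[X]) := by
      rw [derivative_sum, Finset.sum_range_succ]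
      have e0 : derivative (C (((m + 1).choose (m + 1) : ℝ) * (1 + ((m + 1 : ℕ) : ℝ)) ^ (m + 1 - 1)) *
          (X + C (((m + 1 : ℕ) : ℝ) - ((m + 1 : ℕ) : ℝ))) ^ (m + 1 - (m + 1)) : ℝ[X]) = 0 := by
        rw [Nat.sub_self, pow_zero, mul_one, derivative_C]
      rw [e0, add_zero]
      have e1 : ∀ k ∈ range (m + 1), derivative (C (((m + 1).choose k : ℝ) * (1 + k) ^ (k - 1)) *
          (X + C (((m + 1 : ℕ) : ℝ) - k)) ^ (m + 1 - k) : ℝ[X])
          = C ((m : ℝ) + 1) * ((C ((m.choose k : ℝ) * (1 + k) ^ (k - 1)) *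
            (X + C ((m : ℝ) - k)) ^ (m - k)).comp (X + C 1)) := by
        intro k hk
        have hkm : k ≤ m := by have := mem_range.mp hk; omega
        have hs : m + 1 - k = (m - k) + 1 := by omega
        rw [hs, derivative_C_mul, derivative_pow_succ, derivative_add, derivative_X, derivative_C,
          add_zero, mul_one, mul_comp, C_comp, pow_comp, add_comp, X_comp, C_comp]
        have hc : ((m + 1).choose k : ℝ) * (((m - k : ℕ) : ℝ) + 1) = ((m : ℝ) + 1) * m.choose k := by
          have h2 := Nat.choose_mul_succ_eq m k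
          have h3 : ((m.choose k * (m + 1) : ℕ) : ℝ) = (((m + 1).choose k * (m + 1 - k) : ℕ) : ℝ) := by
            rw [h2]
          rw [hs] at h3
          push_cast at h3 ⊢
          linarith
        have hx : (X + C (((m + 1 : ℕ) : ℝ) - k) : ℝ[X]) = X + C 1 + C ((m : ℝ) - k) := by
          rw [add_assoc, ← C_add]
          congr 2
          push_cast
          ring
        rw [hx]
        have : (C ((((m - k : ℕ) : ℕ) : ℝ) + 1) : ℝ[X]) = C (((m - k : ℕ) : ℝ) + 1) := rfl
        calc C (((m + 1).choose k : ℝ) * (1 + k) ^ (k - 1)) *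
              (C (((m - k : ℕ) : ℝ) + 1) * (X + C 1 + C ((m : ℝ) - k)) ^ (m - k))
            = C (((m + 1).choose k : ℝ) * (((m - k : ℕ) : ℝ) + 1) * (1 + k) ^ (k - 1)) *
              (X + C 1 + C ((m : ℝ) - k)) ^ (m - k) := by
              rw [← mul_assoc, ← C_mul]
              congr 2
              ring
          _ = _ := by
              rw [hc, ← mul_assoc, ← C_mul]
              congr 2
              ring
      rw [Finset.sum_congr rfl e1, ← Finset.mul_sum, ← Polynomial.sum_comp, ih,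
        derivative_pow_succ, derivative_add, derivative_X, derivative_C, add_zero, mul_one,
        pow_comp, add_comp, X_comp, C_comp]
      congr 1
      rw [add_assoc, ← C_add]
      congr 3
      push_cast
      ring
    have hdiff : derivative (∑ k ∈ range (m + 1 + 1), C (((m + 1).choose k : ℝ) * (1 + k) ^ (k - 1)) *
          (X + C (((m + 1 : ℕ) : ℝ) - k)) ^ (m + 1 - k)
        - (X + C (((m + 1 : ℕ) : ℝ) + 1)) ^ (m + 1) : ℝ[X]) = 0 := by
      rw [derivative_sub, hd, sub_self]
    have hconst := Polynomial.eq_C_of_natDegree_eq_zero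
      (Polynomial.derivative_eq_zero.mp hdiff)
    have hev := congrArg (Polynomial.eval (-((m : ℝ) + 2))) hconst
    have hz : Polynomial.eval (-((m : ℝ) + 2)) (∑ k ∈ range (m + 1 + 1),
          C (((m + 1).choose k : ℝ) * (1 + k) ^ (k - 1)) *
          (X + C (((m + 1 : ℕ) : ℝ) - k)) ^ (m + 1 - k)
        - (X + C (((m + 1 : ℕ) : ℝ) + 1)) ^ (m + 1) : ℝ[X]) = 0 := by
      rw [eval_sub, eval_finsetSum]
      have e2 : ∀ k ∈ range (m + 1 + 1), eval (-((m : ℝ) + 2))
          (C (((m + 1).choose k : ℝ) * (1 + k) ^ (k - 1)) *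
          (X + C (((m + 1 : ℕ) : ℝ) - k)) ^ (m + 1 - k))
          = ((m + 1).choose k : ℝ) * ((-1) ^ (m + 1 - k) * (1 + k) ^ m) := by
        intro k hk
        have hkm : k ≤ m + 1 := by have := mem_range.mp hk; omega
        rw [eval_mul, eval_C, eval_pow, eval_add, eval_X, eval_C]
        have hb : -((m : ℝ) + 2) + (((m + 1 : ℕ) : ℝ) - k) = (-1) * (1 + k) := by
          push_cast
          ring
        rw [hb, mul_pow]
        rcases Nat.eq_zero_or_pos k with rfl | hk0
        · simp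
        · have hp : ((1 : ℝ) + k) ^ (k - 1) * (1 + k) ^ (m + 1 - k) = (1 + k) ^ m := by
            rw [← pow_add]
            congr 1
            omega
          rw [← hp]
          ring
      rw [Finset.sum_congr rfl e2, alt_sum_zero]
      rw [eval_pow, eval_add, eval_X, eval_C]
      have : -((m : ℝ) + 2) + (((m + 1 : ℕ) : ℝ) + 1) = 0 := by push_cast; ring
      rw [this, zero_pow (by omega), sub_zero]
    rw [hz, eval_C] at hev
    rw [← hev, C_0] at hconst
    exact sub_eq_zero.mp hconst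

noncomputable def tt (k : ℕ) : ℝ := ((k : ℝ) + 1) ^ (k - 1) / (k.factorial : ℝ)

noncomputable def cc (k : ℕ) : ℝ := ((k : ℝ) + 1) ^ k / (k.factorial : ℝ)

lemma tt_pos (k : ℕ) : 0 < tt k := by unfold tt; positivity

lemma cc_pos (k : ℕ) : 0 < cc k := by unfold cc; positivity

lemma tt_zero : tt 0 = 1 := by simp [tt]

lemma cc_zero : cc 0 = 1 := by simp [cc]

lemma cc_eq (k : ℕ) : cc k = ((k : ℝ) + 1) * tt k := by
  unfold cc tt
  rcases Nat.eq_zero_or_pos k with rfl | hk
  · simp
  · obtain ⟨j, rfl⟩ : ∃ j, k = j + 1 := ⟨k - 1, by omega⟩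
    rw [Nat.add_sub_cancel, pow_succ]
    ring

lemma abel_tc (n : ℕ) : ∑ k ∈ range (n + 1), tt k * cc (n - k) = ((n : ℝ) + 1) * tt (n + 1) := by
  have h := congrArg (Polynomial.eval (1 : ℝ)) (abel_poly n)
  rw [eval_finsetSum, eval_pow, eval_add, eval_X, eval_C] at h
  have e : ∀ k ∈ range (n + 1), eval (1 : ℝ) (C ((n.choose k : ℝ) * (1 + k) ^ (k - 1)) *
      (X + C ((n : ℝ) - k)) ^ (n - k)) = (n.factorial : ℝ) * (tt k * cc (n - k)) := by
    intro k hk
    have hkn : k ≤ n := by have := mem_range.mp hk; omega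
    rw [eval_mul, eval_C, eval_pow, eval_add, eval_X, eval_C, Nat.cast_choose ℝ hkn]
    unfold tt cc
    rw [Nat.cast_sub hkn]
    have h1 : (k.factorial : ℝ) ≠ 0 := by positivity
    have h2 : ((n - k).factorial : ℝ) ≠ 0 := by positivity
    field_simp
    ring_nf
  rw [Finset.sum_congr rfl e, ← Finset.mul_sum] at h
  have hn : (n.factorial : ℝ) ≠ 0 := by positivity
  have h3 : ∑ k ∈ range (n + 1), tt k * cc (n - k) = (1 + ((n : ℝ) + 1)) ^ n / n.factorial := by
    rw [← h]
    field_simp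
  rw [h3]
  unfold tt
  rw [Nat.factorial_succ, Nat.add_sub_cancel]
  push_cast
  have : (1 : ℝ) + ((n : ℝ) + 1) = (n : ℝ) + 1 + 1 := by ring
  rw [this]
  have h4 : ((n : ℝ) + 1) ≠ 0 := by positivity
  field_simp

lemma abel_ct (n : ℕ) : ∑ k ∈ range (n + 1), cc k * tt (n - k) = ((n : ℝ) + 1) * tt (n + 1) := by
  rw [← abel_tc, ← Finset.sum_range_reflect]
  apply Finset.sum_congr rfl
  intro k hk
  have hkn : k ≤ n := by have := mem_range.mp hk; omega
  have h1 : n + 1 - 1 - k = n - k := by omega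
  have h2 : n - (n - k) = k := by omega
  rw [h1, h2]
  ring

end Pool.Agent.MP_9da1e3_co
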