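import Pool.Agent.Lib.MP_9da1e3_co.Right3

namespace Pool.Agent.MP_9da1e3_co

open Finset

lemma E_ge : (2.7 : ℝ) ≤ E := by
  have := Real.exp_one_gt_d9
  unfold E
  linarith

noncomputable def tn (k : ℕ) : ℝ := tt k / E ^ k

lemma tn_pos (k : ℕ) : 0 < tn k := div_pos (tt_pos k) (pow_pos E_pos k)

lemma tn_zero : tn 0 = 1 := by simp [tn, tt_zero]

lemma UE_le : U * E ≤ 1.1 := by
  have h1 := U_le
  have h2 := E_le
  have h3 := U_pos.le
  have h4 := E_pos.le
  have : U * E ≤ 0.3991 * 2.7183 := mul_le_mul h1 h2 h4 (by norm_num)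
  norm_num at this ⊢
  linarith

lemma succ_tn_le (k : ℕ) : ((k : ℝ) + 1) * tn k ≤ 1.1 / sq k := by
  have h := cc_le k
  rw [cc_eq] at h
  have hE : 0 < E ^ k := pow_pos E_pos k
  have hs := sq_pos k
  unfold tn
  rw [← mul_div_assoc, div_le_iff₀ hE]
  refine h.trans ?_
  rw [pow_succ, div_mul_eq_mul_div]
  apply div_le_div_of_nonneg_right _ hs.le
  have := UE_le
  nlinarith

lemma tn_le (k : ℕ) : tn k ≤ 1.1 / (((k : ℝ) + 1) * sq k) := by
  have h := succ_tn_le k
  have hs := sq_pos k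
  have h0 : (0 : ℝ) < (k : ℝ) + 1 := by positivity
  rw [le_div_iff₀ (by positivity)]
  rw [le_div_iff₀ hs] at h
  linarith

lemma le_tn (k : ℕ) : 1 / (((k : ℝ) + 1) * sq k) ≤ tn k := by
  have h := le_tt k
  have hE : 0 < E ^ k := pow_pos E_pos k
  have hs := sq_pos k
  unfold tn
  rw [le_div_iff₀ hE, div_mul_eq_mul_div, one_mul]
  exact h

noncomputable def ww (m : ℕ) : ℝ := cc m / E ^ (m + 1)

noncomputable def WW (y : ℕ) : ℝ := ∑ m ∈ range y, ww m

lemma ww_pos (m : ℕ) : 0 < ww m := div_pos (cc_pos m) (pow_pos E_pos _)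

lemma ww_le (m : ℕ) : ww m ≤ 1.1 / (E * sq m) := by
  have h := cc_le m
  have hE : 0 < E ^ m := pow_pos E_pos m
  have hE0 := E_pos
  have hs := sq_pos m
  unfold ww
  rw [pow_succ, div_le_div_iff₀ (by positivity) (by positivity)]
  rw [le_div_iff₀ hs, pow_succ] at h
  have := UE_le
  calc cc m * (E * sq m) = E * (cc m * sq m) := by ring
    _ ≤ E * (U * (E ^ m * E)) := mul_le_mul_of_nonneg_left h hE0.le
    _ = (U * E) * (E ^ m * E) := by ring
    _ ≤ 1.1 * (E ^ m * E) := mul_le_mul_of_nonneg_right this (by positivity)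

lemma le_ww (m : ℕ) : 1 / (E * sq m) ≤ ww m := by
  have h := le_cc m
  have hE : 0 < E ^ m := pow_pos E_pos m
  have hE0 := E_pos
  have hs := sq_pos m
  unfold ww
  rw [pow_succ, div_le_div_iff₀ (by positivity) (by positivity)]
  rw [div_le_iff₀ hs] at h
  nlinarith

lemma WW_nonneg (y : ℕ) : 0 ≤ WW y := Finset.sum_nonneg fun m _ => (ww_pos m).le

lemma WW_mono {a b : ℕ} (h : a ≤ b) : WW a ≤ WW b :=
  Finset.sum_le_sum_of_subset_of_nonneg (range_subset_range.mpr h) fun m _ _ => (ww_pos m).le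

lemma WW_le (y : ℕ) : WW y ≤ √(y : ℝ) := by
  unfold WW
  have hE := E_ge
  have h1 : ∑ m ∈ range y, ww m ≤ ∑ m ∈ range y, (1.1 / E) * (1 / sq m) := by
    apply Finset.sum_le_sum
    intro m _
    refine (ww_le m).trans (le_of_eq ?_)
    have := sq_pos m
    field_simp
  refine h1.trans ?_
  rw [← Finset.mul_sum]
  have h2 := sum_inv_sq y
  have h3 : 1.1 / E ≤ 1 / 2 := by
    rw [div_le_div_iff₀ (by linarith) (by norm_num)]
    linarith
  have h4 : 0 ≤ ∑ m ∈ range y, 1 / sq m :=
    Finset.sum_nonneg fun m _ => by have := sq_pos m; positivity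
  nlinarith [mul_le_mul h3 h2 h4 (by norm_num)]

lemma le_WW (y : ℕ) : √(y : ℝ) / E ≤ WW y := by
  have hE := E_pos
  induction y with
  | zero => simp [WW]
  | succ y ih =>
    unfold WW at ih ⊢
    rw [Finset.sum_range_succ]
    have h1 := le_ww y
    have h2 := sq_pos y
    have h3 : √((y + 1 : ℕ) : ℝ) = sq y := by unfold sq; push_cast; rfl
    rw [h3]
    have h4 := sq_sq y
    have h5 : √(y : ℝ) * √(y : ℝ) = y := Real.mul_self_sqrt (Nat.cast_nonneg y)
    have h6 : 0 ≤ √(y : ℝ) := Real.sqrt_nonneg _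
    have h7 : sq y - √(y : ℝ) ≤ 1 / sq y := by
      rw [le_div_iff₀ h2]
      have h8 : √(y : ℝ) ≤ sq y := by
        unfold sq
        apply Real.sqrt_le_sqrt
        linarith
      nlinarith
    have h8 : 1 / (E * sq y) = (1 / sq y) / E := by
      field_simp
    rw [h8] at h1
    have h9 : sq y / E - √(y : ℝ) / E ≤ (1 / sq y) / E := by
      rw [← sub_div]
      exact div_le_div_of_nonneg_right h7 hE.le
    linarith

lemma WW_eq (y : ℕ) : WW y = ∑ j ∈ range y, tn j / E * (1 + WW (y - 1 - j)) := by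
  have hE := E_pos
  induction y with
  | zero => simp [WW]
  | succ y ih =>
    rw [Finset.sum_range_succ]
    have e1 : ∀ j ∈ range y, tn j / E * (1 + WW (y + 1 - 1 - j)) =
        tn j / E * (1 + WW (y - 1 - j)) + tn j / E * ww (y - 1 - j) := by
      intro j hj
      have hj' := mem_range.mp hj
      have : y + 1 - 1 - j = (y - 1 - j) + 1 := by omega
      rw [this]
      have e2 : WW (y - 1 - j + 1) = WW (y - 1 - j) + ww (y - 1 - j) := by
        unfold WW
        rw [Finset.sum_range_succ]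
      rw [e2]
      ring
    rw [Finset.sum_congr rfl e1, Finset.sum_add_distrib, ← ih]
    have e3 : WW (y + 1) = WW y + ww y := by
      unfold WW
      rw [Finset.sum_range_succ]
    have e4 : y + 1 - 1 - y = 0 := by omega
    have e5 : WW 0 = 0 := by simp [WW]
    rw [e3, e4, e5]
    have e6 : ∑ j ∈ range y, tn j / E * ww (y - 1 - j) = ((y : ℝ) * tt y) / E ^ (y + 1) := by
      rcases Nat.eq_zero_or_pos y with rfl | hy
      · simp
      · obtain ⟨n, rfl⟩ : ∃ n, y = n + 1 := ⟨y - 1, by omega⟩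
        push_cast
        rw [← abel_tc, Finset.sum_div]
        apply Finset.sum_congr rfl
        intro j hj
        have hj' := mem_range.mp hj
        unfold tn ww
        have e7 : E ^ (n + 1 + 1) = E ^ j * E * E ^ (n - j + 1) := by
          rw [← pow_succ, ← pow_add]
          congr 1
          omega
        rw [e7]
        have := pow_pos hE j
        have := pow_pos hE (n - j + 1)
        field_simp
    rw [e6]
    unfold ww tn
    rw [cc_eq]
    have := pow_pos hE y
    rw [pow_succ]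
    field_simp
    ring

lemma ccE_anti (m : ℕ) : cc (m + 1) / E ^ (m + 1) ≤ cc m / E ^ m := by
  have hE := E_pos
  have hm : 0 < E ^ m := pow_pos hE m
  rw [pow_succ, div_le_div_iff₀ (by positivity) hm]
  have h : cc (m + 1) ≤ cc m * E := by
    unfold cc
    have h1 : ((((m + 1 : ℕ) : ℝ)) + 1) ^ (m + 1) / ((m + 1).factorial : ℝ)
        = (((m : ℝ) + 1) ^ m / (m.factorial : ℝ)) * (1 + 1 / ((m : ℝ) + 1)) ^ (m + 1) := by
      rw [Nat.factorial_succ]
      have h0 : ((m : ℝ) + 1) ≠ 0 := by positivity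
      have hf : (m.factorial : ℝ) ≠ 0 := by positivity
      have : (1 : ℝ) + 1 / ((m : ℝ) + 1) = ((m : ℝ) + 1 + 1) / ((m : ℝ) + 1) := by field_simp
      rw [this, div_pow]
      push_cast
      rw [pow_succ ((m : ℝ) + 1) m]
      field_simp
    rw [h1]
    apply mul_le_mul_of_nonneg_left _ (by positivity)
    have h2 : (1 + 1 / ((m : ℝ) + 1)) ≤ Real.exp (1 / ((m : ℝ) + 1)) := by
      have := Real.add_one_le_exp (1 / ((m : ℝ) + 1))
      linarith
    calc (1 + 1 / ((m : ℝ) + 1)) ^ (m + 1) ≤ Real.exp (1 / ((m : ℝ) + 1)) ^ (m + 1) :=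
          pow_le_pow_left₀ (by positivity) h2 _
      _ = E := by
          rw [← Real.exp_nat_mul]
          unfold E
          congr 1
          push_cast
          field_simp
  nlinarith

lemma ccE_le {a b : ℕ} (h : a ≤ b) : cc b / E ^ b ≤ cc a / E ^ a := by
  induction h with
  | refl => exact le_rfl
  | step _ ih => exact (ccE_anti _).trans ih

lemma sum_tn_le (m : ℕ) : ∑ j ∈ range m, tn j ≤ E := by
  have hE := E_pos
  rcases Nat.eq_zero_or_pos m with rfl | hm
  · simp [hE.le]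
  · obtain ⟨n, rfl⟩ : ∃ n, m = n + 1 := ⟨m - 1, by omega⟩
    have h1 := abel_tc n
    have h2 : ∑ k ∈ range (n + 1), tn k * (cc (n + 1) / E ^ (n + 1)) ≤
        ((n : ℝ) + 1) * tt (n + 1) / E ^ n := by
      rw [← h1, Finset.sum_div]
      apply Finset.sum_le_sum
      intro k hk
      have hk' : k ≤ n := by have := mem_range.mp hk; omega
      have h3 := ccE_le (show n - k ≤ n + 1 by omega)
      calc tn k * (cc (n + 1) / E ^ (n + 1)) ≤ tn k * (cc (n - k) / E ^ (n - k)) :=
            mul_le_mul_of_nonneg_left h3 (tn_pos k).le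
        _ = _ := by
            unfold tn
            have e : E ^ n = E ^ k * E ^ (n - k) := by
              rw [← pow_add]
              congr 1
              omega
            rw [e]
            have := pow_pos hE k
            have := pow_pos hE (n - k)
            field_simp
    rw [← Finset.sum_mul] at h2
    have h4 : ((n : ℝ) + 1) * tt (n + 1) / E ^ n ≤ E * (cc (n + 1) / E ^ (n + 1)) := by
      rw [cc_eq, pow_succ]
      have h5 := tt_pos (n + 1)
      have := pow_pos hE n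
      have e : E * ((((n + 1 : ℕ) : ℝ) + 1) * tt (n + 1) / (E ^ n * E)) =
          (((n + 1 : ℕ) : ℝ) + 1) * tt (n + 1) / E ^ n := by
        field_simp
      rw [e]
      apply div_le_div_of_nonneg_right _ this.le
      apply mul_le_mul_of_nonneg_right _ h5.le
      push_cast
      linarith
    have h6 : 0 < cc (n + 1) / E ^ (n + 1) := div_pos (cc_pos _) (pow_pos hE _)
    exact le_of_mul_le_mul_right (h2.trans h4) h6

lemma sum_succ_tn_le (m : ℕ) : ∑ j ∈ range m, ((j : ℝ) + 1) * tn j ≤ 2.2 * √(m : ℝ) := by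
  have h1 : ∑ j ∈ range m, ((j : ℝ) + 1) * tn j ≤ ∑ j ∈ range m, 1.1 * (1 / sq j) := by
    apply Finset.sum_le_sum
    intro j _
    refine (succ_tn_le j).trans (le_of_eq ?_)
    ring
  refine h1.trans ?_
  rw [← Finset.mul_sum]
  have := sum_inv_sq m
  linarith

/-- lower bound of the partial sums -/
lemma le_sum_tn (y : ℕ) : E * (1 - 1 / (1 + WW y)) ≤ ∑ j ∈ range y, tn j := by
  have hE := E_pos
  have h0 := WW_nonneg y
  have h1 : WW y ≤ (∑ j ∈ range y, tn j / E) * (1 + WW y) := by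
    nth_rw 1 [WW_eq y]
    rw [Finset.sum_mul]
    apply Finset.sum_le_sum
    intro j _
    apply mul_le_mul_of_nonneg_left _ (div_nonneg (tn_pos j).le hE.le)
    have := WW_mono (show y - 1 - j ≤ y by omega)
    linarith
  rw [← Finset.sum_div] at h1
  have h2 : 1 - 1 / (1 + WW y) = WW y / (1 + WW y) := by field_simp; ring
  rw [h2, mul_div_assoc', div_le_iff₀ (by linarith)]
  have h3 : WW y * E ≤ (∑ j ∈ range y, tn j) * (1 + WW y) := by
    calc WW y * E ≤ ((∑ j ∈ range y, tn j) / E * (1 + WW y)) * E :=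
          mul_le_mul_of_nonneg_right h1 hE.le
      _ = _ := by field_simp
  linarith

/-- tails -/
lemma tail_tn (h m : ℕ) (hh : 1 ≤ h) :
    ∑ j ∈ range m, (if h ≤ j then tn j else 0) ≤ 2.2 / √(h : ℝ) := by
  have key : ∀ m, h ≤ m → ∑ j ∈ range m, (if h ≤ j then tn j else 0) ≤
      2.2 / √(h : ℝ) - 2.2 / √(m : ℝ) := by
    intro m hm
    induction m, hm using Nat.le_induction with
    | base =>
      rw [sub_self]
      apply le_of_eq
      apply Finset.sum_eq_zero
      intro j hj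
      have := mem_range.mp hj
      rw [if_neg (by omega)]
    | succ m hm ih =>
      rw [Finset.sum_range_succ, if_pos hm]
      have hm0 : (0 : ℝ) < m := by exact_mod_cast (by omega : 0 < m)
      have h1 := tn_le m
      have h2 := sq_pos m
      have h3 : √((m + 1 : ℕ) : ℝ) = sq m := by unfold sq; push_cast; rfl
      rw [h3]
      have h4 := sq_sq m
      have h5 : √(m : ℝ) * √(m : ℝ) = m := Real.mul_self_sqrt hm0.le
      have h6 : 0 < √(m : ℝ) := Real.sqrt_pos.mpr hm0
      have h8 : √(m : ℝ) ≤ sq m := by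
        unfold sq
        apply Real.sqrt_le_sqrt
        linarith
      have h7 : 1.1 / (((m : ℝ) + 1) * sq m) ≤ 2.2 / √(m : ℝ) - 2.2 / sq m := by
        rw [div_sub_div _ _ h6.ne' h2.ne', div_le_div_iff₀ (by positivity) (by positivity), ← h4]
        have h9 : (sq m - √(m : ℝ)) * (sq m + √(m : ℝ)) = 1 := by
          nlinarith
        have h10 : 1 ≤ (sq m - √(m : ℝ)) * (2 * sq m) := by
          nlinarith [mul_nonneg (sub_nonneg.mpr h8) (sub_nonneg.mpr h8)]
        have h11 : √(m : ℝ) ≤ sq m := h8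
        have h12 : 1.1 * (√(m : ℝ) * sq m) ≤ 1.1 * (√(m : ℝ) * sq m) *
            ((sq m - √(m : ℝ)) * (2 * sq m)) := by
          apply le_mul_of_one_le_right (by positivity) h10
        have h13 : 0 ≤ sq m - √(m : ℝ) := by linarith
        have h14 : √(m : ℝ) * sq m * ((sq m - √(m : ℝ)) * (2 * sq m)) ≤
            sq m * sq m * ((sq m - √(m : ℝ)) * (2 * sq m)) := by
          apply mul_le_mul_of_nonneg_right _ (by positivity)
          exact mul_le_mul_of_nonneg_right h11 h2.le
        nlinarith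
      linarith
  rcases le_or_gt h m with hm | hm
  · have h1 := key m hm
    have h2 : 0 ≤ 2.2 / √(m : ℝ) := by positivity
    linarith
  · have : ∑ j ∈ range m, (if h ≤ j then tn j else 0) = 0 := by
      apply Finset.sum_eq_zero
      intro j hj
      have := mem_range.mp hj
      rw [if_neg (by omega)]
    rw [this]
    positivity

noncomputable def D2 (y N : ℝ) : ℝ := y * √y * √N

noncomputable def D3 (y N : ℝ) : ℝ := y * y * √y * √N

lemma D2_pos {y N : ℝ} (hy : 0 < y) (hN : 0 < N) : 0 < D2 y N := by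
  unfold D2
  have := Real.sqrt_pos.mpr hy
  have := Real.sqrt_pos.mpr hN
  positivity

lemma D3_pos {y N : ℝ} (hy : 0 < y) (hN : 0 < N) : 0 < D3 y N := by
  unfold D3
  have := Real.sqrt_pos.mpr hy
  have := Real.sqrt_pos.mpr hN
  positivity

lemma sqrt_shift {y N u : ℝ} (hy : 0 < y) (hN : y ≤ N) (hu0 : 0 ≤ u) (hu : u ≤ 1 / 2) :
    (1 - u) * (√y * √N) ≤ √(y - u * y) * √(N - u * y) := by
  rw [← Real.sqrt_mul hy.le, ← Real.sqrt_mul (by nlinarith)]
  apply Real.le_sqrt_of_sq_le
  rw [mul_pow, Real.sq_sqrt (by nlinarith)]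
  have h1 : y - u * y = (1 - u) * y := by ring
  rw [h1]
  have h2 : (1 - u) * N ≤ N - u * y := by nlinarith
  have h3 : 0 ≤ (1 - u) * y := by nlinarith
  calc (1 - u) ^ 2 * (y * N) = (1 - u) * y * ((1 - u) * N) := by ring
    _ ≤ (1 - u) * y * (N - u * y) := mul_le_mul_of_nonneg_left h2 h3

lemma D2_shift {y N s : ℝ} (hy : 0 < y) (hN : y ≤ N) (hs0 : 0 ≤ s) (hs : s ≤ y / 2) :
    1 / D2 (y - s) (N - s) ≤ 1 / D2 y N * (1 + 6 * (s / y)) := by
  obtain ⟨u, hu⟩ : ∃ u, u = s / y := ⟨_, rfl⟩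
  have hsu : s = u * y := by rw [hu]; field_simp
  have hu0 : 0 ≤ u := by rw [hu]; positivity
  have hu1 : u ≤ 1 / 2 := by rw [hu, div_le_iff₀ hy]; linarith
  rw [← hu, hsu]
  have h1 := sqrt_shift hy hN hu0 hu1
  have hD := D2_pos hy (lt_of_lt_of_le hy hN)
  have hD' : (1 - u) ^ 2 * D2 y N ≤ D2 (y - u * y) (N - u * y) := by
    unfold D2
    have e1 : (1 - u) ^ 2 * (y * √y * √N) = ((1 - u) * y) * ((1 - u) * (√y * √N)) := by ring
    have e2 : (y - u * y) * √(y - u * y) * √(N - u * y) =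
        ((1 - u) * y) * (√(y - u * y) * √(N - u * y)) := by ring
    rw [e1, e2]
    exact mul_le_mul_of_nonneg_left h1 (by nlinarith)
  have hp : 0 < (1 - u) ^ 2 * D2 y N := by
    apply mul_pos _ hD
    apply pow_pos
    linarith
  refine (one_div_le_one_div_of_le hp hD').trans ?_
  rw [div_mul_eq_mul_div, one_mul, div_le_div_iff₀ hp hD]
  have h2 : 1 ≤ (1 + 6 * u) * (1 - u) ^ 2 := by
    nlinarith [mul_nonneg hu0 (mul_nonneg (by linarith : (0 : ℝ) ≤ 1 - 2 * u)
      (by linarith : (0 : ℝ) ≤ 4 - 3 * u))]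
  nlinarith

lemma D3_shift {y N s : ℝ} (hy : 0 < y) (hN : y ≤ N) (hs0 : 0 ≤ s) (hs : s ≤ y / 2) :
    1 / D3 (y - s) (N - s) ≤ 1 / D3 y N * (1 + 14 * (s / y)) := by
  obtain ⟨u, hu⟩ : ∃ u, u = s / y := ⟨_, rfl⟩
  have hsu : s = u * y := by rw [hu]; field_simp
  have hu0 : 0 ≤ u := by rw [hu]; positivity
  have hu1 : u ≤ 1 / 2 := by rw [hu, div_le_iff₀ hy]; linarith
  rw [← hu, hsu]
  have h1 := sqrt_shift hy hN hu0 hu1
  have hD := D3_pos hy (lt_of_lt_of_le hy hN)
  have hD' : (1 - u) ^ 3 * D3 y N ≤ D3 (y - u * y) (N - u * y) := by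
    unfold D3
    have e1 : (1 - u) ^ 3 * (y * y * √y * √N) =
        ((1 - u) * y) * ((1 - u) * y) * ((1 - u) * (√y * √N)) := by ring
    have e2 : (y - u * y) * (y - u * y) * √(y - u * y) * √(N - u * y) =
        ((1 - u) * y) * ((1 - u) * y) * (√(y - u * y) * √(N - u * y)) := by ring
    rw [e1, e2]
    have : 0 ≤ (1 - u) * y := by nlinarith
    exact mul_le_mul_of_nonneg_left h1 (by positivity)
  have hp : 0 < (1 - u) ^ 3 * D3 y N := by
    apply mul_pos _ hD
    apply pow_pos
    linarith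
  refine (one_div_le_one_div_of_le hp hD').trans ?_
  rw [div_mul_eq_mul_div, one_mul, div_le_div_iff₀ hp hD]
  have h2 : 1 ≤ (1 + 14 * u) * (1 - u) ^ 3 := by
    have h3 : 0 ≤ 11 - 17 * u + 7 * u ^ 2 := by nlinarith
    nlinarith [mul_nonneg hu0 (mul_nonneg (by linarith : (0 : ℝ) ≤ 1 - 2 * u) h3)]
  nlinarith

end Pool.Agent.MP_9da1e3_co
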