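import Pool.Agent.Lib.MP_9da1e3_co.Big1

namespace Pool.Agent.MP_9da1e3_co

open Finset

noncomputable def Fn (L n : ℕ) : ℝ := f L n / E ^ n

lemma Fn_nonneg (L n : ℕ) : 0 ≤ Fn L n := div_nonneg (f_nonneg L n) (pow_pos E_pos n).le

lemma Fn_le_tn (L n : ℕ) : Fn L n ≤ tn n :=
  div_le_div_of_nonneg_right (f_le_tt L n) (pow_pos E_pos n).le

lemma Fn_eq_tn (L n : ℕ) (h : n ≤ L) : Fn L n = tn n := by
  unfold Fn tn
  rw [f_eq_tt L n h]

lemma Fn_rec (L n : ℕ) : E * (((n : ℝ) + 1) * Fn L (n + 1))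
    = ∑ k ∈ range (n + 1), ((min L (k + 1) : ℕ) : ℝ) * (Fn L k * Fn L (n - k)) := by
  have hE := E_pos
  unfold Fn
  have h := f_rec L n
  have e : E * (((n : ℝ) + 1) * (f L (n + 1) / E ^ (n + 1))) = (((n : ℝ) + 1) * f L (n + 1)) / E ^ n := by
    rw [pow_succ]
    have := pow_pos hE n
    field_simp
  rw [e, h, Finset.sum_div]
  apply Finset.sum_congr rfl
  intro k hk
  have hk' : k ≤ n := by have := mem_range.mp hk; omega
  have e2 : E ^ n = E ^ k * E ^ (n - k) := by
    rw [← pow_add]
    congr 1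
    omega
  rw [e2]
  have := pow_pos hE k
  have := pow_pos hE (n - k)
  field_simp

lemma sum_if_lt (g : ℕ → ℝ) (hg : ∀ j, 0 ≤ g j) (h m : ℕ) :
    ∑ j ∈ range m, (if j < h then g j else 0) ≤ ∑ j ∈ range h, g j := by
  rw [← Finset.sum_filter]
  apply Finset.sum_le_sum_of_subset_of_nonneg
  · intro j hj
    rw [mem_filter] at hj
    exact mem_range.mpr hj.2
  · intro j _ _
    exact hg j

lemma sum_rev (g : ℕ → ℝ) (n : ℕ) : ∑ k ∈ range (n + 1), g (n - k) = ∑ k ∈ range (n + 1), g k := by
  rw [← Finset.sum_range_reflect g (n + 1)]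
  apply Finset.sum_congr rfl
  intro k _
  rw [Nat.add_sub_cancel]

lemma tn_half (k : ℕ) (N : ℝ) (hN : 0 < N) (h : N ≤ 2 * ((k : ℝ) + 1)) :
    tn k ≤ 3.2 / (N * √N) := by
  refine (tn_le k).trans ?_
  have hs := sq_pos k
  have hss := sq_sq k
  have hr : 0 < √N := Real.sqrt_pos.mpr hN
  have hrr : √N * √N = N := Real.mul_self_sqrt hN.le
  have h1 : √N ≤ 1.42 * sq k := by
    apply Real.sqrt_le_iff.mpr
    constructor
    · positivity
    · nlinarith
  rw [div_le_div_iff₀ (by positivity) (by positivity)]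
  have h2 : N * √N ≤ (2 * ((k : ℝ) + 1)) * (1.42 * sq k) := mul_le_mul h h1 hr.le (by positivity)
  have h3 : 0 < ((k : ℝ) + 1) * sq k := by positivity
  nlinarith

lemma tn_le' (n : ℕ) (hn : 1 ≤ n) : tn n ≤ 1.1 / ((n : ℝ) * √(n : ℝ)) := by
  refine (tn_le n).trans ?_
  have h0 : (0 : ℝ) < n := by exact_mod_cast hn
  have hr : 0 < √(n : ℝ) := Real.sqrt_pos.mpr h0
  apply div_le_div_of_nonneg_left (by norm_num) (by positivity)
  apply mul_le_mul (by linarith) _ hr.le (by positivity)
  unfold sq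
  apply Real.sqrt_le_sqrt
  linarith

lemma F_large (L n : ℕ) (hL : 1 ≤ L) (hn : L < n + 1)
    (ih : ∀ k, L < k → k ≤ n → Fn L k ≤ 32 * (1 / D2 ((k : ℝ) - L) k))
    (hy : 16 * ((n : ℝ) + 1) < ((n : ℝ) + 1 - L) * √((n : ℝ) + 1 - L)) :
    Fn L (n + 1) ≤ 32 * (1 / D2 ((n : ℝ) + 1 - L) ((n : ℝ) + 1)) := by
  obtain ⟨N, hN⟩ : ∃ N : ℝ, N = (n : ℝ) + 1 := ⟨_, rfl⟩
  obtain ⟨y, hyd⟩ : ∃ y : ℝ, y = N - L := ⟨_, rfl⟩
  obtain ⟨h, hh⟩ : ∃ h : ℕ, h = (n + 1 - L) / 2 := ⟨_, rfl⟩
  rw [← hN, ← hyd] at hy ⊢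
  have hLr : (1 : ℝ) ≤ L := by exact_mod_cast hL
  have hyn : (((n + 1 - L : ℕ)) : ℝ) = y := by
    rw [Nat.cast_sub (by omega)]
    push_cast
    rw [hyd, hN]
  have hy1 : 1 ≤ y := by
    rw [← hyn]
    exact_mod_cast (by omega : 1 ≤ n + 1 - L)
  have hy0 : 0 < y := by linarith
  have hyN : y ≤ N := by rw [hyd]; linarith
  have hN0 : 0 < N := by linarith
  have hr : 0 < √y := Real.sqrt_pos.mpr hy0
  have hrr : √y * √y = y := Real.mul_self_sqrt hy0.le
  have hR : 0 < √N := Real.sqrt_pos.mpr hN0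
  have hRR : √N * √N = N := Real.mul_self_sqrt hN0.le
  have hr16 : 16 < √y := by
    have : 16 * y < y * √y := by linarith
    nlinarith
  have hy2 : 256 < y := by nlinarith
  have hh2 : (h : ℝ) ≤ y / 2 := by
    have h1 : 2 * h ≤ n + 1 - L := by omega
    have h2 : ((2 * h : ℕ) : ℝ) ≤ ((n + 1 - L : ℕ) : ℝ) := by exact_mod_cast h1
    rw [hyn] at h2
    push_cast at h2
    linarith
  have hh4 : y / 4 ≤ (h : ℝ) := by
    have h1 : n + 1 - L ≤ 2 * h + 1 := by omega
    have h2 : ((n + 1 - L : ℕ) : ℝ) ≤ ((2 * h + 1 : ℕ) : ℝ) := by exact_mod_cast h1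
    rw [hyn] at h2
    push_cast at h2
    linarith
  have hh0 : (0 : ℝ) < h := by linarith
  have hh1 : 1 ≤ h := by exact_mod_cast hh0
  have hsh : √(h : ℝ) ≤ √y := Real.sqrt_le_sqrt (by linarith)
  have hsh2 : √y / 2 ≤ √(h : ℝ) := by
    apply Real.le_sqrt_of_sq_le
    rw [div_pow, Real.sq_sqrt hy0.le]
    norm_num
    linarith
  have hsh0 : 0 < √(h : ℝ) := Real.sqrt_pos.mpr hh0
  obtain ⟨G, hG⟩ : ∃ G : ℝ, G = 1 / D2 y N := ⟨_, rfl⟩
  have hD := D2_pos hy0 hN0
  have hG0 : 0 < G := by rw [hG]; positivity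
  have hGy : G * (y * (√y * √N)) = 1 := by
    rw [hG]
    unfold D2 at hD ⊢
    field_simp
  rw [← hG]
  -- shifted bound
  have shift : ∀ k, k ≤ n → n + 1 ≤ k + h → Fn L k ≤ 32 * (G * (1 + 6 * ((N - k) / y))) := by
    intro k hk hkh
    have hkL : L < k := by omega
    refine (ih k hkL hk).trans ?_
    have hkr : (k : ℝ) ≤ n := by exact_mod_cast hk
    have hkh' : ((n + 1 : ℕ) : ℝ) ≤ ((k + h : ℕ) : ℝ) := by exact_mod_cast hkh
    push_cast at hkh'
    have hs := D2_shift hy0 hyN (show 0 ≤ N - k by rw [hN]; linarith)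
      (show N - k ≤ y / 2 by rw [hN]; linarith)
    have e1 : y - (N - k) = (k : ℝ) - L := by rw [hyd]; ring
    have e2 : N - (N - k) = k := by ring
    rw [e1, e2, ← hG] at hs
    linarith
  have hrec := Fn_rec L n
  rw [← hN] at hrec
  let a : ℕ → ℝ := fun j => if j < h then (L : ℝ) * (32 * (G * (1 + 6 * (((j : ℝ) + 1) / y)))) * tn j else 0
  let b : ℕ → ℝ := fun k => if k < h then 128 * G * (((k : ℝ) + 1) * tn k) else 0
  let c1 : ℕ → ℝ := fun j => 3.2 / √N * (if h ≤ j then tn j else 0)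
  let c2 : ℕ → ℝ := fun k => 3.2 / (N * √N) * (((k : ℝ) + 1) * tn k)
  have ha : ∀ j, 0 ≤ a j := by
    intro j
    simp only [a]
    split_ifs
    · have := tn_pos j
      positivity
    · exact le_rfl
  have hb : ∀ j, 0 ≤ b j := by
    intro j
    simp only [b]
    split_ifs
    · have := tn_pos j
      positivity
    · exact le_rfl
  have hc1 : ∀ j, 0 ≤ c1 j := by
    intro j
    simp only [c1]
    have := tn_pos j
    split_ifs
    · positivity
    · simp
  have hc2 : ∀ j, 0 ≤ c2 j := by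
    intro j
    simp only [c2]
    have := tn_pos j
    positivity
  have hterm : ∀ k ∈ range (n + 1), ((min L (k + 1) : ℕ) : ℝ) * (Fn L k * Fn L (n - k)) ≤
      a (n - k) + b k + c1 (n - k) + c2 k := by
    intro k hk
    have hk' : k ≤ n := by have := mem_range.mp hk; omega
    have hkr : (k : ℝ) ≤ n := by exact_mod_cast hk'
    have n1 := Fn_nonneg L k
    have n2 := Fn_nonneg L (n - k)
    have t1 := Fn_le_tn L k
    have t2 := Fn_le_tn L (n - k)
    have p1 := tn_pos k
    have p2 := tn_pos (n - k)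
    have m1 : ((min L (k + 1) : ℕ) : ℝ) ≤ L := by exact_mod_cast min_le_left _ _
    have m2 : ((min L (k + 1) : ℕ) : ℝ) ≤ (k : ℝ) + 1 := by
      have : min L (k + 1) ≤ k + 1 := min_le_right _ _
      exact_mod_cast this
    have m0 : (0 : ℝ) ≤ ((min L (k + 1) : ℕ) : ℝ) := Nat.cast_nonneg _
    have hcast : (((n - k : ℕ)) : ℝ) = (n : ℝ) - k := by rw [Nat.cast_sub hk']
    by_cases h1 : n - k < h
    · have hs := shift k hk' (by omega)
      have e : a (n - k) = (L : ℝ) * (32 * (G * (1 + 6 * ((N - k) / y)))) * tn (n - k) := by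
        simp only [a]
        rw [if_pos h1, hcast, hN]
        ring
      have hle : ((min L (k + 1) : ℕ) : ℝ) * (Fn L k * Fn L (n - k)) ≤ a (n - k) := by
        rw [e, mul_assoc (L : ℝ)]
        exact mul_le_mul m1 (mul_le_mul hs t2 n2 (n1.trans hs)) (mul_nonneg n1 n2) (by linarith)
      linarith [hb k, hc1 (n - k), hc2 k]
    · by_cases h2 : k < h
      · have hs := shift (n - k) (by omega) (by omega)
        have hle : ((min L (k + 1) : ℕ) : ℝ) * (Fn L k * Fn L (n - k)) ≤ b k := by
          have hq : (N - ((n - k : ℕ) : ℝ)) / y ≤ 1 / 2 := by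
            rw [div_le_iff₀ hy0, hcast, hN]
            have : ((k + 1 : ℕ) : ℝ) ≤ (h : ℝ) := by exact_mod_cast h2
            push_cast at this
            linarith
          have hs' : Fn L (n - k) ≤ 128 * G := by
            refine hs.trans ?_
            nlinarith
          simp only [b]
          rw [if_pos h2]
          calc ((min L (k + 1) : ℕ) : ℝ) * (Fn L k * Fn L (n - k))
              ≤ ((k : ℝ) + 1) * (tn k * (128 * G)) :=
                mul_le_mul m2 (mul_le_mul t1 hs' n2 p1.le) (mul_nonneg n1 n2) (by positivity)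
            _ = _ := by ring
        linarith [ha (n - k), hc1 (n - k), hc2 k]
      · by_cases h3 : n ≤ 2 * k
        · have h3r : (n : ℝ) ≤ 2 * k := by exact_mod_cast h3
          have ht := tn_half k N hN0 (by rw [hN]; linarith)
          have hle : ((min L (k + 1) : ℕ) : ℝ) * (Fn L k * Fn L (n - k)) ≤ c1 (n - k) := by
            simp only [c1]
            rw [if_pos (by omega)]
            have hLN : (L : ℝ) * (3.2 / (N * √N)) ≤ 3.2 / √N := by
              rw [mul_div_assoc', div_le_div_iff₀ (by positivity) hR]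
              have : (L : ℝ) ≤ N := by rw [hyd] at hy0; linarith
              nlinarith [mul_le_mul_of_nonneg_right this hR.le]
            calc ((min L (k + 1) : ℕ) : ℝ) * (Fn L k * Fn L (n - k))
                = (((min L (k + 1) : ℕ) : ℝ) * Fn L k) * Fn L (n - k) := by ring
              _ ≤ ((L : ℝ) * (3.2 / (N * √N))) * tn (n - k) := by
                  apply mul_le_mul _ t2 n2 (by positivity)
                  exact mul_le_mul m1 (t1.trans ht) n1 (by linarith)
              _ ≤ _ := mul_le_mul_of_nonneg_right hLN p2.le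
          linarith [ha (n - k), hb k, hc2 k]
        · have h3r : (2 * (k : ℝ)) ≤ n := by exact_mod_cast (by omega : 2 * k ≤ n)
          have ht := tn_half (n - k) N hN0 (by rw [hN, hcast]; linarith)
          have hle : ((min L (k + 1) : ℕ) : ℝ) * (Fn L k * Fn L (n - k)) ≤ c2 k := by
            simp only [c2]
            calc ((min L (k + 1) : ℕ) : ℝ) * (Fn L k * Fn L (n - k))
                = Fn L (n - k) * (((min L (k + 1) : ℕ) : ℝ) * Fn L k) := by ring
              _ ≤ (3.2 / (N * √N)) * (((k : ℝ) + 1) * tn k) := by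
                  apply mul_le_mul (t2.trans ht) _ (mul_nonneg m0 n1) (by positivity)
                  exact mul_le_mul m2 t1 n1 (by positivity)
          linarith [ha (n - k), hb k, hc1 (n - k)]
  have hsum := Finset.sum_le_sum hterm
  rw [← hrec, Finset.sum_add_distrib, Finset.sum_add_distrib, Finset.sum_add_distrib,
    sum_rev a, sum_rev c1] at hsum
  have hsa : ∑ j ∈ range (n + 1), a j ≤ 32 * G * (L * E + 13.2 * (L / √y)) := by
    refine (sum_if_lt (fun j => (L : ℝ) * (32 * (G * (1 + 6 * (((j : ℝ) + 1) / y)))) * tn j)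
      (fun j => by have := tn_pos j; positivity) h (n + 1)).trans ?_
    have e : ∑ j ∈ range h, (L : ℝ) * (32 * (G * (1 + 6 * (((j : ℝ) + 1) / y)))) * tn j =
        32 * G * (L * (∑ j ∈ range h, tn j) + L * (6 / y) * ∑ j ∈ range h, ((j : ℝ) + 1) * tn j) := by
      rw [Finset.mul_sum, Finset.mul_sum, ← Finset.sum_add_distrib, Finset.mul_sum]
      apply Finset.sum_congr rfl
      intro j _
      field_simp
    rw [e]
    apply mul_le_mul_of_nonneg_left _ (by positivity)
    have s1 := sum_tn_le h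
    have s2 := sum_succ_tn_le h
    have s3 : L * (6 / y) * ∑ j ∈ range h, ((j : ℝ) + 1) * tn j ≤ 13.2 * (L / √y) := by
      calc L * (6 / y) * ∑ j ∈ range h, ((j : ℝ) + 1) * tn j
          ≤ L * (6 / y) * (2.2 * √y) := by
            apply mul_le_mul_of_nonneg_left _ (by positivity)
            linarith
        _ = 13.2 * (L / √y) := by
            have : √y / y = 1 / √y := by
              rw [div_eq_div_iff hy0.ne' hr.ne']
              linarith
            calc L * (6 / y) * (2.2 * √y) = 13.2 * L * (√y / y) := by ring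
              _ = _ := by rw [this]; ring
    have s4 := mul_le_mul_of_nonneg_left s1 (by linarith : (0 : ℝ) ≤ L)
    linarith
  have hsb : ∑ j ∈ range (n + 1), b j ≤ 32 * G * (8.8 * √y) := by
    refine (sum_if_lt (fun k => 128 * G * (((k : ℝ) + 1) * tn k))
      (fun j => by have := tn_pos j; positivity) h (n + 1)).trans ?_
    rw [← Finset.mul_sum]
    have s2 := sum_succ_tn_le h
    have : 128 * G * ∑ j ∈ range h, ((j : ℝ) + 1) * tn j ≤ 128 * G * (2.2 * √y) := by
      apply mul_le_mul_of_nonneg_left _ (by positivity)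
      linarith
    linarith
  have hsc1 : ∑ j ∈ range (n + 1), c1 j ≤ 14.08 * (y * G) := by
    simp only [c1]
    rw [← Finset.mul_sum]
    have s := tail_tn h (n + 1) hh1
    have e : y * G = 1 / (√y * √N) := by
      rw [eq_div_iff (by positivity)]
      linarith
    rw [e]
    calc 3.2 / √N * ∑ j ∈ range (n + 1), (if h ≤ j then tn j else 0)
        ≤ 3.2 / √N * (2.2 / (√y / 2)) := by
          apply mul_le_mul_of_nonneg_left _ (by positivity)
          refine s.trans ?_
          apply div_le_div_of_nonneg_left (by norm_num) (by positivity) hsh2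
      _ = 14.08 * (1 / (√y * √N)) := by
          field_simp
          norm_num
  have hsc2 : ∑ j ∈ range (n + 1), c2 j ≤ 7.04 * (y * G) := by
    simp only [c2]
    rw [← Finset.mul_sum]
    have s := sum_succ_tn_le (n + 1)
    have e : y * G = 1 / (√y * √N) := by
      rw [eq_div_iff (by positivity)]
      linarith
    have e3 : √((n + 1 : ℕ) : ℝ) = √N := by push_cast; rw [hN]
    rw [e3] at s
    rw [e]
    have hryN : √y ≤ √N := Real.sqrt_le_sqrt hyN
    calc 3.2 / (N * √N) * ∑ j ∈ range (n + 1), ((j : ℝ) + 1) * tn j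
        ≤ 3.2 / (N * √N) * (2.2 * √N) := mul_le_mul_of_nonneg_left s (by positivity)
      _ = 7.04 * (1 / (√N * √N)) := by
          rw [hRR]
          field_simp
          norm_num
      _ ≤ 7.04 * (1 / (√y * √N)) := by
          apply mul_le_mul_of_nonneg_left _ (by norm_num)
          apply one_div_le_one_div_of_le (by positivity)
          exact mul_le_mul_of_nonneg_right hryN hR.le
  have hE := E_ge
  have hLy : L / √y ≤ y / 16 := by
    rw [div_le_div_iff₀ hr (by norm_num)]
    have : (L : ℝ) ≤ N := by rw [hyd] at hy0; linarith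
    linarith
  have hry : √y ≤ y / 16 := by nlinarith
  have hfin : E * (N * Fn L (n + 1)) ≤ E * (N * (32 * G)) := by
    refine hsum.trans ?_
    have e1 : E * (N * (32 * G)) = 32 * G * (L * E + y * E) := by rw [hyd]; ring
    rw [e1]
    have b1 : 32 * G * (L * E + 13.2 * (L / √y)) ≤ 32 * G * (L * E + 0.825 * y) := by
      apply mul_le_mul_of_nonneg_left _ (by positivity)
      linarith
    have b2 : 32 * G * (8.8 * √y) ≤ 32 * G * (0.55 * y) := by
      apply mul_le_mul_of_nonneg_left _ (by positivity)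
      linarith
    have b3 : 32 * G * (L * E + 2.7 * y) ≤ 32 * G * (L * E + y * E) := by
      apply mul_le_mul_of_nonneg_left _ (by positivity)
      nlinarith
    have b4 : 0 ≤ G * y := by positivity
    nlinarith
  have := le_of_mul_le_mul_left hfin (by linarith)
  exact le_of_mul_le_mul_left this hN0

theorem F_le (L : ℕ) (hL : 1 ≤ L) : ∀ n, L < n → Fn L n ≤ 32 * (1 / D2 ((n : ℝ) - L) n) := by
  intro n
  induction n using Nat.strong_induction_on with
  | _ n ih =>
    intro hn
    obtain ⟨m, rfl⟩ : ∃ m, n = m + 1 := ⟨n - 1, by omega⟩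
    by_cases hy : 16 * ((m : ℝ) + 1) < ((m : ℝ) + 1 - L) * √((m : ℝ) + 1 - L)
    · have h := F_large L m hL hn (fun k hk hkm => ih k (by omega) hk) hy
      push_cast
      exact h
    · push Not at hy
      refine (Fn_le_tn L (m + 1)).trans ((tn_le' (m + 1) (by omega)).trans ?_)
      push_cast
      have hy0 : (0 : ℝ) < (m : ℝ) + 1 - L := by
        have : ((L : ℕ) : ℝ) < ((m + 1 : ℕ) : ℝ) := by exact_mod_cast hn
        push_cast at this
        linarith
      have hN0 : (0 : ℝ) < (m : ℝ) + 1 := by positivity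
      have hr : 0 < √((m : ℝ) + 1 - L) := Real.sqrt_pos.mpr hy0
      have hR : 0 < √((m : ℝ) + 1) := Real.sqrt_pos.mpr hN0
      unfold D2
      rw [mul_one_div, div_le_div_iff₀ (by positivity) (by positivity)]
      have := mul_le_mul_of_nonneg_right hy hR.le
      nlinarith [mul_pos hN0 hR]

end Pool.Agent.MP_9da1e3_co
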