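import Pool.Agent.Lib.MP_9da1e3_co.Outcome
import Pool.Agent.Lib.MP_9da1e3_co.Big2

namespace Pool.Agent.MP_9da1e3_co

open Finset

lemma f_mono (L n : ℕ) : f L n ≤ f (L + 1) n := by
  rcases Nat.eq_zero_or_pos n with rfl | hn
  · rw [f_zero, f_zero]
  · unfold f
    apply div_le_div_of_nonneg_right _ (by positivity)
    have h := a_add (n := n) (by omega) L
    exact_mod_cast (by omega : Fr L n ≤ Fr (L + 1) n)

noncomputable def An (L n : ℕ) : ℝ := Fn (L + 1) n - Fn L n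

lemma An_nonneg (L n : ℕ) : 0 ≤ An L n := by
  unfold An Fn
  rw [← sub_div]
  apply div_nonneg _ (pow_pos E_pos n).le
  linarith [f_mono L n]

lemma An_zero (L n : ℕ) (h : n ≤ L) : An L n = 0 := by
  unfold An
  rw [Fn_eq_tn L n h, Fn_eq_tn (L + 1) n (by omega), sub_self]

lemma An_rec (L n : ℕ) : E * (((n : ℝ) + 1) * An L (n + 1))
    = ∑ k ∈ range (n + 1), ((min L (k + 1) : ℕ) : ℝ) * (An L k * Fn (L + 1) (n - k))
      + ∑ k ∈ range (n + 1), ((min L (k + 1) : ℕ) : ℝ) * (Fn L k * An L (n - k))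
      + ∑ k ∈ range (n + 1), (if L ≤ k then Fn (L + 1) k * Fn (L + 1) (n - k) else 0) := by
  have h1 := Fn_rec (L + 1) n
  have h0 := Fn_rec L n
  have e : E * (((n : ℝ) + 1) * An L (n + 1)) =
      E * (((n : ℝ) + 1) * Fn (L + 1) (n + 1)) - E * (((n : ℝ) + 1) * Fn L (n + 1)) := by
    unfold An
    ring
  rw [e, h1, h0, ← Finset.sum_sub_distrib, ← Finset.sum_add_distrib, ← Finset.sum_add_distrib]
  apply Finset.sum_congr rfl
  intro k _
  by_cases h : L ≤ k
  · rw [if_pos h]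
    have m1 : min (L + 1) (k + 1) = L + 1 := by omega
    have m0 : min L (k + 1) = L := by omega
    rw [m1, m0]
    unfold An
    push_cast
    ring
  · rw [if_neg h]
    have m1 : min (L + 1) (k + 1) = k + 1 := by omega
    have m0 : min L (k + 1) = k + 1 := by omega
    rw [m1, m0]
    unfold An
    push_cast
    ring

lemma An_small (L n : ℕ) (hn : L < n) (h2 : n ≤ 2 * L) :
    An L n ≤ 1.8 * √((n : ℝ) - L) / (((L : ℝ) + 1) ^ 2 * sq L) := by
  obtain ⟨i, rfl⟩ : ∃ i, n = L + 1 + i := ⟨n - L - 1, by omega⟩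
  have hE := E_pos
  have hU := U_pos
  have hs := sq_pos L
  have hsi := sq_pos i
  have hd := dd_le L i (by omega)
  have hm := mm_le L i
  have h0 : (0 : ℝ) < (L : ℝ) + 1 := by positivity
  have e1 : √(((L + 1 + i : ℕ) : ℝ) - L) = sq i := by
    unfold sq
    congr 1
    push_cast
    ring
  rw [e1]
  have hp : 0 < E ^ (L + 1 + i) := pow_pos hE _
  have h1 : An L (L + 1 + i) ≤ dd L i / E ^ (L + 1 + i) := by
    unfold An Fn dd
    rw [← sub_div]
    apply div_le_div_of_nonneg_right _ hp.le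
    have := f_mono (L + 1) (L + 1 + i)
    linarith
  refine h1.trans ?_
  rw [div_le_iff₀ hp]
  have h2' : dd L i ≤ 2 / ((L : ℝ) + 1) *
      (2 * U ^ 2 * E ^ (L + i + 2) / (((L : ℝ) + 1) * sq L) * sq i) :=
    hd.trans (mul_le_mul_of_nonneg_left hm (by positivity))
  refine h2'.trans ?_
  have e2 : E ^ (L + i + 2) = E * E ^ (L + 1 + i) := by
    rw [← pow_succ']
    congr 1
    ring
  rw [e2]
  have e3 : 2 / ((L : ℝ) + 1) * (2 * U ^ 2 * (E * E ^ (L + 1 + i)) / (((L : ℝ) + 1) * sq L) * sq i)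
      = (4 * U ^ 2 * E) * (sq i / (((L : ℝ) + 1) ^ 2 * sq L) * E ^ (L + 1 + i)) := by
    field_simp
    ring
  have e4 : 1.8 * sq i / (((L : ℝ) + 1) ^ 2 * sq L) * E ^ (L + 1 + i)
      = 1.8 * (sq i / (((L : ℝ) + 1) ^ 2 * sq L) * E ^ (L + 1 + i)) := by
    ring
  rw [e3, e4]
  apply mul_le_mul_of_nonneg_right _ (by positivity)
  have a1 := U_le
  have a2 := E_le
  have a3 : U ^ 2 ≤ 0.3991 ^ 2 := pow_le_pow_left₀ hU.le a1 2
  have a4 : U ^ 2 * E ≤ 0.3991 ^ 2 * 2.7183 := mul_le_mul a3 a2 hE.le (by positivity)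
  norm_num at a4 ⊢
  linarith

/-- lower bound of `Fn` just above the threshold -/
lemma Fn_ge (L n : ℕ) (hL : 1 ≤ L) (hn : L ≤ n) (h2 : n ≤ 2 * L)
    (hy : ((n : ℝ) - L) * √((n : ℝ) - L) ≤ ((L : ℝ) + 1) / 12) : tn n / 2 ≤ Fn L n := by
  have hs := sq_pos L
  have h0 : (0 : ℝ) < (L : ℝ) + 1 := by positivity
  have hLr : (1 : ℝ) ≤ L := by exact_mod_cast hL
  obtain ⟨m, rfl⟩ : ∃ m, n = L + m := ⟨n - L, by omega⟩
  have e1 : (((L + m : ℕ) : ℝ) - L) = m := by push_cast; ring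
  rw [e1] at hy
  have htel := Finset.sum_range_sub (fun i => Fn (L + i) (L + m)) m
  have hb : ∑ i ∈ range m, (Fn (L + (i + 1)) (L + m) - Fn (L + i) (L + m)) ≤
      ∑ _i ∈ range m, 1.8 * √(m : ℝ) / (((L : ℝ) + 1) ^ 2 * sq L) := by
    apply Finset.sum_le_sum
    intro i hi
    have hi' := mem_range.mp hi
    have h := An_small (L + i) (L + m) (by omega) (by omega)
    have e2 : L + (i + 1) = L + i + 1 := by ring
    rw [e2]
    refine h.trans ?_
    have h3 : √(((L + m : ℕ) : ℝ) - ((L + i : ℕ) : ℝ)) ≤ √(m : ℝ) := by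
      apply Real.sqrt_le_sqrt
      push_cast
      have : (0 : ℝ) ≤ i := Nat.cast_nonneg i
      linarith
    have h4 : sq L ≤ sq (L + i) := by
      unfold sq
      apply Real.sqrt_le_sqrt
      push_cast
      have : (0 : ℝ) ≤ i := Nat.cast_nonneg i
      linarith
    have h5 : ((L : ℝ) + 1) ^ 2 ≤ (((L + i : ℕ) : ℝ) + 1) ^ 2 := by
      apply pow_le_pow_left₀ h0.le
      push_cast
      have : (0 : ℝ) ≤ i := Nat.cast_nonneg i
      linarith
    apply div_le_div₀ (by positivity) (by linarith) (by positivity)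
    exact mul_le_mul h5 h4 hs.le (by positivity)
  rw [htel, Finset.sum_const, card_range, nsmul_eq_mul] at hb
  simp only [add_zero] at hb
  rw [Fn_eq_tn (L + m) (L + m) le_rfl] at hb
  have ht := le_tn (L + m)
  have hsm := sq_pos (L + m)
  have h6 : sq (L + m) ≤ 1.42 * sq L := by
    unfold sq
    apply Real.sqrt_le_iff.mpr
    constructor
    · positivity
    · rw [mul_pow, Real.sq_sqrt h0.le]
      have : ((L + m : ℕ) : ℝ) ≤ ((2 * L : ℕ) : ℝ) := by exact_mod_cast h2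
      push_cast at this ⊢
      nlinarith
  have h7 : ((L + m : ℕ) : ℝ) + 1 ≤ 2 * ((L : ℝ) + 1) := by
    have : ((L + m : ℕ) : ℝ) ≤ ((2 * L : ℕ) : ℝ) := by exact_mod_cast h2
    push_cast at this ⊢
    linarith
  have h8 : 1 / (2.84 * (((L : ℝ) + 1) * sq L)) ≤ tn (L + m) := by
    refine le_trans ?_ ht
    apply one_div_le_one_div_of_le (by positivity)
    calc (((L + m : ℕ) : ℝ) + 1) * sq (L + m) ≤ (2 * ((L : ℝ) + 1)) * (1.42 * sq L) :=
          mul_le_mul h7 h6 hsm.le (by positivity)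
      _ = _ := by ring
  have h9 : (m : ℝ) * (1.8 * √(m : ℝ) / (((L : ℝ) + 1) ^ 2 * sq L)) ≤
      1 / 2 * (1 / (2.84 * (((L : ℝ) + 1) * sq L))) := by
    have e3 : (m : ℝ) * (1.8 * √(m : ℝ) / (((L : ℝ) + 1) ^ 2 * sq L)) =
        (1.8 * ((m : ℝ) * √(m : ℝ)) / ((L : ℝ) + 1)) * (1 / (((L : ℝ) + 1) * sq L)) := by
      field_simp
    have e4 : 1 / 2 * (1 / (2.84 * (((L : ℝ) + 1) * sq L))) =
        (1 / 5.68) * (1 / (((L : ℝ) + 1) * sq L)) := by
      field_simp
      norm_num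
    rw [e3, e4]
    apply mul_le_mul_of_nonneg_right _ (by positivity)
    rw [div_le_div_iff₀ h0 (by norm_num)]
    nlinarith
  linarith

end Pool.Agent.MP_9da1e3_co
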