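import Pool.Agent.Lib.MP_9da1e3_co.Big3

namespace Pool.Agent.MP_9da1e3_co

open Finset

lemma sum_sqrt_le (X : ℝ) (hX : 0 ≤ X) (M : ℕ) :
    ∑ z ∈ range M, (if (z : ℝ) * √(z : ℝ) ≤ X then √(z : ℝ) else 0) ≤ X := by
  have key : ∀ M : ℕ, ∑ z ∈ range (M + 1), (if (z : ℝ) * √(z : ℝ) ≤ X then √(z : ℝ) else 0)
      ≤ (M : ℝ) * √(M : ℝ) ∧
      ∑ z ∈ range (M + 1), (if (z : ℝ) * √(z : ℝ) ≤ X then √(z : ℝ) else 0) ≤ X := by
    intro M
    induction M with
    | zero => simp [hX]
    | succ M ih =>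
      rw [Finset.sum_range_succ]
      have hr : 0 ≤ √((M + 1 : ℕ) : ℝ) := Real.sqrt_nonneg _
      have h1 : √(M : ℝ) ≤ √((M + 1 : ℕ) : ℝ) := by
        apply Real.sqrt_le_sqrt
        push_cast
        linarith
      have hM : (0 : ℝ) ≤ M := Nat.cast_nonneg M
      have h3 : ∑ z ∈ range (M + 1), (if (z : ℝ) * √(z : ℝ) ≤ X then √(z : ℝ) else 0) +
          √((M + 1 : ℕ) : ℝ) ≤ ((M + 1 : ℕ) : ℝ) * √((M + 1 : ℕ) : ℝ) := by
        have := ih.1
        push_cast at *
        nlinarith [mul_le_mul_of_nonneg_left h1 hM]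
      by_cases h : ((M + 1 : ℕ) : ℝ) * √((M + 1 : ℕ) : ℝ) ≤ X
      · rw [if_pos h]
        exact ⟨h3, h3.trans h⟩
      · rw [if_neg h, add_zero]
        refine ⟨?_, ih.2⟩
        linarith
  rcases Nat.eq_zero_or_pos M with rfl | hM
  · simpa using hX
  · obtain ⟨m, rfl⟩ : ∃ m, M = m + 1 := ⟨M - 1, by omega⟩
    exact (key m).2

lemma inv_step (M : ℝ) (hM : 1 ≤ M) :
    1 / (M * M * √M) ≤ 2 / (M * √M) - 2 / ((M + 1) * √(M + 1)) := by
  have h0 : 0 < M := by linarith
  have hr : 0 < √M := Real.sqrt_pos.mpr h0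
  have hs : 0 < √(M + 1) := Real.sqrt_pos.mpr (by linarith)
  have hrr : √M * √M = M := Real.mul_self_sqrt h0.le
  have hss : √(M + 1) * √(M + 1) = M + 1 := Real.mul_self_sqrt (by linarith)
  -- √(M+1) ≥ √M
  have h1 : √M ≤ √(M + 1) := Real.sqrt_le_sqrt (by linarith)
  rw [le_sub_iff_add_le]
  have e1 : 2 / ((M + 1) * √(M + 1)) ≤ (2 * M - 1) / (M * M * √M) := by
    rw [div_le_div_iff₀ (by positivity) (by positivity)]
    -- 2 M² √M ≤ (2M − 1)(M+1)√(M+1)
    have h2 : (2 * M * M) ≤ (2 * M - 1) * (M + 1) := by nlinarith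
    have h3 : 0 ≤ 2 * M * M := by positivity
    have h4 : 2 * M * M * √M ≤ (2 * M - 1) * (M + 1) * √(M + 1) :=
      mul_le_mul h2 h1 hr.le (h3.trans h2)
    linarith
  have e2 : 1 / (M * M * √M) + (2 * M - 1) / (M * M * √M) = 2 / (M * √M) := by
    field_simp
    ring
  linarith

lemma sum_inv_le (X : ℝ) (hX : 0 < X) (M : ℕ) :
    ∑ z ∈ range M, (if (z : ℝ) * √(z : ℝ) ≤ X then 0 else 1 / ((z : ℝ) * z * √(z : ℝ))) ≤ 2 / X := by
  have key : ∀ M : ℕ, (((M : ℝ) * √(M : ℝ) ≤ X) →
      ∑ z ∈ range M, (if (z : ℝ) * √(z : ℝ) ≤ X then 0 else 1 / ((z : ℝ) * z * √(z : ℝ))) ≤ 0) ∧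
      (X < (M : ℝ) * √(M : ℝ) →
      ∑ z ∈ range M, (if (z : ℝ) * √(z : ℝ) ≤ X then 0 else 1 / ((z : ℝ) * z * √(z : ℝ))) ≤
        2 / X - 2 / ((M : ℝ) * √(M : ℝ))) := by
    intro M
    induction M with
    | zero => simp [hX.le]
    | succ M ih =>
      rw [Finset.sum_range_succ]
      have hM : (0 : ℝ) ≤ M := Nat.cast_nonneg M
      have hr : 0 ≤ √(M : ℝ) := Real.sqrt_nonneg _
      have h1 : √(M : ℝ) ≤ √((M + 1 : ℕ) : ℝ) := by
        apply Real.sqrt_le_sqrt
        push_cast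
        linarith
      have h2 : (M : ℝ) * √(M : ℝ) ≤ ((M + 1 : ℕ) : ℝ) * √((M + 1 : ℕ) : ℝ) := by
        push_cast at *
        nlinarith [mul_le_mul_of_nonneg_left h1 hM]
      constructor
      · intro h
        rw [if_pos (h2.trans h), add_zero]
        exact ih.1 (h2.trans h)
      · intro h
        by_cases h3 : (M : ℝ) * √(M : ℝ) ≤ X
        · rw [if_pos h3, add_zero]
          have h4 := ih.1 h3
          have h5 : 2 / (((M + 1 : ℕ) : ℝ) * √((M + 1 : ℕ) : ℝ)) ≤ 2 / X :=
            div_le_div_of_nonneg_left (by norm_num) hX h.le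
          linarith
        · rw [if_neg h3]
          push Not at h3
          have h4 := ih.2 h3
          have hM1 : 1 ≤ M := by
            rcases Nat.eq_zero_or_pos M with rfl | hp
            · simp at h3
              linarith
            · exact hp
          have h5 := inv_step M (by exact_mod_cast hM1)
          push_cast
          linarith
  rcases le_or_gt ((M : ℝ) * √(M : ℝ)) X with h | h
  · exact ((key M).1 h).trans (by positivity)
  · have h1 := (key M).2 h
    have : 0 ≤ 2 / ((M : ℝ) * √(M : ℝ)) := by positivity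
    linarith

/-- total mass of `An L` up to `n` -/
lemma S_le (L n : ℕ) (hL : 36000000 ≤ L) (hn : L < n + 1)
    (ih : ∀ k, L < k → k ≤ n → An L k ≤ 40000000 * (1 / D3 ((k : ℝ) - L) k)) :
    ∑ k ∈ range (n + 1), An L k ≤ 24200 / ((L : ℝ) * √(L : ℝ)) := by
  have hLr : (36000000 : ℝ) ≤ L := by exact_mod_cast hL
  have hL0 : (0 : ℝ) < L := by linarith
  have hr : 0 < √(L : ℝ) := Real.sqrt_pos.mpr hL0
  have hrr : √(L : ℝ) * √(L : ℝ) = L := Real.mul_self_sqrt hL0.le
  have hr6 : 6000 ≤ √(L : ℝ) := by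
    apply Real.le_sqrt_of_sq_le
    have : (6000 : ℝ) ^ 2 = 36000000 := by norm_num
    linarith
  obtain ⟨X, hX⟩ : ∃ X : ℝ, X = 6000 * L := ⟨_, rfl⟩
  have hX0 : 0 < X := by rw [hX]; linarith
  have hn' : n + 1 = L + (n + 1 - L) := by omega
  rw [hn', Finset.sum_range_add]
  have h1 : ∑ k ∈ range L, An L k = 0 := by
    apply Finset.sum_eq_zero
    intro k hk
    exact An_zero L k (by have := mem_range.mp hk; omega)
  rw [h1, zero_add]
  have h2 : ∀ z ∈ range (n + 1 - L), An L (L + z) ≤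
      1.8 / ((L : ℝ) * L * √(L : ℝ)) * (if (z : ℝ) * √(z : ℝ) ≤ X then √(z : ℝ) else 0) +
      40000000 / √(L : ℝ) * (if (z : ℝ) * √(z : ℝ) ≤ X then 0 else 1 / ((z : ℝ) * z * √(z : ℝ))) := by
    intro z hz
    have hz' := mem_range.mp hz
    rcases Nat.eq_zero_or_pos z with rfl | hz0
    · rw [An_zero L (L + 0) (by omega)]
      simp [hX0.le]
    · have hzr : (1 : ℝ) ≤ z := by exact_mod_cast hz0
      have hzz : 0 < √(z : ℝ) := Real.sqrt_pos.mpr (by linarith)
      have hzz2 : √(z : ℝ) * √(z : ℝ) = z := Real.mul_self_sqrt (by linarith)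
      by_cases h : (z : ℝ) * √(z : ℝ) ≤ X
      · rw [if_pos h, if_pos h, mul_zero, add_zero]
        have hzL : z ≤ L := by
          by_contra hc
          push Not at hc
          have hcr : (L : ℝ) < z := by exact_mod_cast hc
          have h3 : √(L : ℝ) ≤ √(z : ℝ) := Real.sqrt_le_sqrt hcr.le
          have h4 : (L : ℝ) * 6000 < z * √(z : ℝ) := by
            calc (L : ℝ) * 6000 < z * 6000 := by linarith
              _ ≤ z * √(z : ℝ) := by
                apply mul_le_mul_of_nonneg_left _ (by linarith)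
                linarith
          rw [hX] at h
          linarith
        have h3 := An_small L (L + z) (by omega) (by omega)
        have e : (((L + z : ℕ) : ℝ) - L) = z := by push_cast; ring
        rw [e] at h3
        refine h3.trans ?_
        rw [div_mul_eq_mul_div]
        apply div_le_div_of_nonneg_left (by positivity) (by positivity)
        have h5 : √(L : ℝ) ≤ sq L := by
          unfold sq
          apply Real.sqrt_le_sqrt
          linarith
        apply mul_le_mul _ h5 hr.le (by positivity)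
        nlinarith
      · rw [if_neg h, if_neg h, mul_zero, zero_add]
        have h3 := ih (L + z) (by omega) (by omega)
        have e : (((L + z : ℕ) : ℝ) - L) = z := by push_cast; ring
        rw [e] at h3
        refine h3.trans ?_
        unfold D3
        rw [div_mul_div_comm, mul_one, mul_one_div]
        apply div_le_div_of_nonneg_left (by norm_num) (by positivity)
        have h5 : √(L : ℝ) ≤ √((L + z : ℕ) : ℝ) := by
          apply Real.sqrt_le_sqrt
          push_cast
          linarith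
        rw [mul_comm (√(L : ℝ))]
        exact mul_le_mul_of_nonneg_left h5 (by positivity)
  refine (Finset.sum_le_sum h2).trans ?_
  rw [Finset.sum_add_distrib, ← Finset.mul_sum, ← Finset.mul_sum]
  have h3 := sum_sqrt_le X hX0.le (n + 1 - L)
  have h4 := sum_inv_le X hX0 (n + 1 - L)
  have h5 := mul_le_mul_of_nonneg_left h3 (show 0 ≤ 1.8 / ((L : ℝ) * L * √(L : ℝ)) by positivity)
  have h6 := mul_le_mul_of_nonneg_left h4 (show 0 ≤ 40000000 / √(L : ℝ) by positivity)
  have e1 : 1.8 / ((L : ℝ) * L * √(L : ℝ)) * X = 10800 / ((L : ℝ) * √(L : ℝ)) := by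
    rw [hX]
    field_simp
    norm_num
  have e2 : 40000000 / √(L : ℝ) * (2 / X) ≤ 13400 / ((L : ℝ) * √(L : ℝ)) := by
    rw [hX, div_mul_div_comm, div_le_div_iff₀ (by positivity) (by positivity)]
    have : 0 < (L : ℝ) * √(L : ℝ) := by positivity
    nlinarith
  have e3 : 24200 / ((L : ℝ) * √(L : ℝ)) = 10800 / ((L : ℝ) * √(L : ℝ)) + 13400 / ((L : ℝ) * √(L : ℝ)) := by
    rw [← add_div]
    norm_num
  rw [e3]
  linarith

end Pool.Agent.MP_9da1e3_co
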