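import Pool.Agent.Lib.MP_9da1e3_co.Big4

namespace Pool.Agent.MP_9da1e3_co

open Finset

lemma Fn_mid (L L' j h : ℕ) (y N : ℝ) (hL : 36000000 ≤ L) (hL' : 1 ≤ L') (hL1 : L' ≤ L + 1)
    (hN : N = L + y) (hy : 10000 ≤ y) (hh4 : y / 4 ≤ (h : ℝ)) (hh2 : y ≤ 2 * ((h : ℝ) + 1))
    (hj : h ≤ j) :
    Fn L' j ≤ 1500 * √(L : ℝ) * (1 / (y * √y * √N)) := by
  have hLr : (36000000 : ℝ) ≤ L := by exact_mod_cast hL
  have hL0 : (0 : ℝ) < L := by linarith
  have hy0 : 0 < y := by linarith
  have hN0 : 0 < N := by rw [hN]; linarith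
  have hr : 0 < √y := Real.sqrt_pos.mpr hy0
  have hrr : √y * √y = y := Real.mul_self_sqrt hy0.le
  have hR : 0 < √N := Real.sqrt_pos.mpr hN0
  have hRR : √N * √N = N := Real.mul_self_sqrt hN0.le
  have hl : 0 < √(L : ℝ) := Real.sqrt_pos.mpr hL0
  have hll : √(L : ℝ) * √(L : ℝ) = L := Real.mul_self_sqrt hL0.le
  have hjr : (h : ℝ) ≤ j := by exact_mod_cast hj
  have hl1 : 1 ≤ √(L : ℝ) := by
    apply Real.le_sqrt_of_sq_le
    linarith
  rw [mul_one_div]
  by_cases hc : y ≤ 16 * L
  · have h1 := tn_half j y hy0 (by linarith)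
    refine (Fn_le_tn L' j).trans (h1.trans ?_)
    rw [div_le_div_iff₀ (by positivity) (by positivity)]
    have h2 : √N ≤ 5 * √(L : ℝ) := by
      apply Real.sqrt_le_iff.mpr
      constructor
      · positivity
      · nlinarith
    have h3 : 0 < y * √y := by positivity
    nlinarith [mul_le_mul_of_nonneg_left h2 h3.le]
  · push Not at hc
    have hLj : L' < j := by
      have h1 : (L' : ℝ) ≤ (L : ℝ) + 1 := by exact_mod_cast hL1
      have h2 : (L' : ℝ) < j := by linarith
      exact_mod_cast h2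
    have h1 : (L' : ℝ) ≤ (L : ℝ) + 1 := by exact_mod_cast hL1
    have h2 := F_le L' hL' j hLj
    refine h2.trans ?_
    rw [mul_one_div]
    have h3 : y / 8 ≤ (j : ℝ) - L' := by linarith
    have h4 : √y / 2.83 ≤ √((j : ℝ) - L') := by
      apply Real.le_sqrt_of_sq_le
      rw [div_pow, Real.sq_sqrt hy0.le, div_le_iff₀ (by norm_num)]
      linarith
    have h5 : √y / 2 ≤ √(j : ℝ) := by
      apply Real.le_sqrt_of_sq_le
      rw [div_pow, Real.sq_sqrt hy0.le]
      norm_num
      linarith
    have h6 : √N ≤ 1.035 * √y := by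
      apply Real.sqrt_le_iff.mpr
      constructor
      · positivity
      · rw [mul_pow, Real.sq_sqrt hy0.le]
        nlinarith
    have h7 : (y / 8) * (√y / 2.83) * (√y / 2) ≤ D2 ((j : ℝ) - L') j := by
      unfold D2
      apply mul_le_mul _ h5 (by positivity)
      · have : 0 ≤ (j : ℝ) - L' := by linarith
        positivity
      · exact mul_le_mul h3 h4 (by positivity) (by linarith)
    have h8 : 0 < (y / 8) * (√y / 2.83) * (√y / 2) := by positivity
    refine (div_le_div_of_nonneg_left (by norm_num) h8 h7).trans ?_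
    rw [div_le_div_iff₀ h8 (by positivity)]
    have h9 : 0 < y * √y := by positivity
    have h10 := mul_le_mul_of_nonneg_left h6 h9.le
    have h11 : 0 < y * √y * √y := by positivity
    have h12 : y * √y * √y ≤ √(L : ℝ) * (y * √y * √y) := le_mul_of_one_le_left h11.le hl1
    have h13 : 1500 * √(L : ℝ) * ((y / 8) * (√y / 2.83) * (√y / 2)) =
        (1500 / 45.28) * (√(L : ℝ) * (y * √y * √y)) := by ring
    have h14 : y * √y * (1.035 * √y) = 1.035 * (y * √y * √y) := by ring
    rw [h13]
    rw [h14] at h10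
    have h15 : (33.12 : ℝ) ≤ 1500 / 45.28 := by norm_num
    have h16 : 33.12 * (√(L : ℝ) * (y * √y * √y)) ≤ (1500 / 45.28) * (√(L : ℝ) * (y * √y * √y)) :=
      mul_le_mul_of_nonneg_right h15 (by positivity)
    linarith

lemma Fn_near (L k h : ℕ) (y N : ℝ) (hy : 10000 ≤ y) (hL0 : 0 ≤ (L : ℝ))
    (hN : N = L + y) (hh : (h : ℝ) ≤ y / 2) (hk : N - h ≤ (k : ℝ)) :
    Fn (L + 1) k ≤ 364 * (1 / (y * √y * √N)) := by
  have hy0 : 0 < y := by linarith
  have hN0 : 0 < N := by linarith
  have hr : 0 < √y := Real.sqrt_pos.mpr hy0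
  have hR : 0 < √N := Real.sqrt_pos.mpr hN0
  have h3 : y / 4 ≤ (k : ℝ) - ((L + 1 : ℕ) : ℝ) := by push_cast; linarith
  have hLk : L + 1 < k := by
    have : ((L + 1 : ℕ) : ℝ) < k := by linarith
    exact_mod_cast this
  have h2 := F_le (L + 1) (by omega) k hLk
  refine h2.trans ?_
  rw [mul_one_div, mul_one_div]
  have h4 : √y / 2 ≤ √((k : ℝ) - ((L + 1 : ℕ) : ℝ)) := by
    apply Real.le_sqrt_of_sq_le
    rw [div_pow, Real.sq_sqrt hy0.le]
    norm_num at h3 ⊢
    linarith
  have h5 : √N / 1.42 ≤ √(k : ℝ) := by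
    apply Real.le_sqrt_of_sq_le
    rw [div_pow, Real.sq_sqrt hN0.le, div_le_iff₀ (by norm_num)]
    linarith
  have h7 : (y / 4) * (√y / 2) * (√N / 1.42) ≤ D2 ((k : ℝ) - ((L + 1 : ℕ) : ℝ)) k := by
    unfold D2
    apply mul_le_mul _ h5 (by positivity)
    · have : 0 ≤ (k : ℝ) - ((L + 1 : ℕ) : ℝ) := by linarith
      positivity
    · exact mul_le_mul h3 h4 (by positivity) (by linarith)
  have h8 : 0 < (y / 4) * (√y / 2) * (√N / 1.42) := by positivity
  refine (div_le_div_of_nonneg_left (by norm_num) h8 h7).trans ?_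
  rw [div_le_div_iff₀ h8 (by positivity)]
  have h9 : 0 < y * √y * √N := by positivity
  have h13 : 364 * ((y / 4) * (√y / 2) * (√N / 1.42)) = (364 / 11.36) * (y * √y * √N) := by ring
  rw [h13]
  exact mul_le_mul_of_nonneg_right (by norm_num) h9.le

lemma A_large (L n : ℕ) (hL : 36000000 ≤ L) (hn : L < n + 1)
    (ih : ∀ k, L < k → k ≤ n → An L k ≤ 40000000 * (1 / D3 ((k : ℝ) - L) k))
    (hy : 100 * ((n : ℝ) + 1) < ((n : ℝ) + 1 - L) * √((n : ℝ) + 1 - L)) :
    An L (n + 1) ≤ 40000000 * (1 / D3 ((n : ℝ) + 1 - L) ((n : ℝ) + 1)) := by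
  have hS := S_le L n hL hn ih
  obtain ⟨N, hN⟩ : ∃ N : ℝ, N = (n : ℝ) + 1 := ⟨_, rfl⟩
  obtain ⟨y, hyd⟩ : ∃ y : ℝ, y = N - L := ⟨_, rfl⟩
  obtain ⟨h, hh⟩ : ∃ h : ℕ, h = (n + 1 - L) / 2 := ⟨_, rfl⟩
  rw [← hN, ← hyd] at hy ⊢
  have hLr : (36000000 : ℝ) ≤ L := by exact_mod_cast hL
  have hL0 : (0 : ℝ) < L := by linarith
  have hyn : (((n + 1 - L : ℕ)) : ℝ) = y := by
    rw [Nat.cast_sub (by omega)]
    push_cast
    rw [hyd, hN]
  have hy1 : 1 ≤ y := by
    rw [← hyn]
    exact_mod_cast (by omega : 1 ≤ n + 1 - L)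
  have hy0 : 0 < y := by linarith
  have hyN : y ≤ N := by rw [hyd]; linarith
  have hN0 : 0 < N := by linarith
  have hNL : N = L + y := by rw [hyd]; ring
  have hr : 0 < √y := Real.sqrt_pos.mpr hy0
  have hrr : √y * √y = y := Real.mul_self_sqrt hy0.le
  have hR : 0 < √N := Real.sqrt_pos.mpr hN0
  have hRR : √N * √N = N := Real.mul_self_sqrt hN0.le
  have hl : 0 < √(L : ℝ) := Real.sqrt_pos.mpr hL0
  have hll : √(L : ℝ) * √(L : ℝ) = L := Real.mul_self_sqrt hL0.le
  have hr16 : 100 < √y := by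
    have : 100 * y < y * √y := by linarith
    nlinarith
  have hy2 : 10000 < y := by nlinarith
  have hh2 : (h : ℝ) ≤ y / 2 := by
    have h1 : 2 * h ≤ n + 1 - L := by omega
    have h2 : ((2 * h : ℕ) : ℝ) ≤ ((n + 1 - L : ℕ) : ℝ) := by exact_mod_cast h1
    rw [hyn] at h2
    push_cast at h2
    linarith
  have hh3 : y ≤ 2 * (h : ℝ) + 1 := by
    have h1 : n + 1 - L ≤ 2 * h + 1 := by omega
    have h2 : ((n + 1 - L : ℕ) : ℝ) ≤ ((2 * h + 1 : ℕ) : ℝ) := by exact_mod_cast h1
    rw [hyn] at h2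
    push_cast at h2
    linarith
  have hh4 : y / 4 ≤ (h : ℝ) := by linarith
  have hh0 : (0 : ℝ) < h := by linarith
  have hh1 : 1 ≤ h := by exact_mod_cast hh0
  have hsh : √(h : ℝ) ≤ √y := Real.sqrt_le_sqrt (by linarith)
  obtain ⟨G, hG⟩ : ∃ G : ℝ, G = 1 / D3 y N := ⟨_, rfl⟩
  obtain ⟨Q, hQ⟩ : ∃ Q : ℝ, Q = 1 / (y * √y * √N) := ⟨_, rfl⟩
  have hD := D3_pos hy0 hN0
  have hG0 : 0 < G := by rw [hG]; positivity
  have hQ0 : 0 < Q := by rw [hQ]; positivity
  have hGQ : G * y = Q := by
    rw [hG, hQ]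
    unfold D3
    field_simp
  rw [← hG]
  have mid : ∀ L' j : ℕ, 1 ≤ L' → L' ≤ L + 1 → h ≤ j → Fn L' j ≤ 1500 * √(L : ℝ) * Q := by
    intro L' j a1 a2 a3
    rw [hQ]
    exact Fn_mid L L' j h y N hL a1 a2 hNL hy2.le hh4 (by linarith) a3
  -- shifted bound
  have shift : ∀ k, k ≤ n → n + 1 ≤ k + h → An L k ≤ 40000000 * (G * (1 + 14 * ((N - k) / y))) := by
    intro k hk hkh
    have hkL : L < k := by omega
    refine (ih k hkL hk).trans ?_
    have hkr : (k : ℝ) ≤ n := by exact_mod_cast hk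
    have hkh' : ((n + 1 : ℕ) : ℝ) ≤ ((k + h : ℕ) : ℝ) := by exact_mod_cast hkh
    push_cast at hkh'
    have hs := D3_shift hy0 hyN (show 0 ≤ N - k by rw [hN]; linarith)
      (show N - k ≤ y / 2 by rw [hN]; linarith)
    have e1 : y - (N - k) = (k : ℝ) - L := by rw [hyd]; ring
    have e2 : N - (N - k) = k := by ring
    rw [e1, e2, ← hG] at hs
    linarith
  have hrec := An_rec L n
  rw [← hN] at hrec
  let a : ℕ → ℝ := fun j => if j < h then
    (L : ℝ) * (40000000 * (G * (1 + 14 * (((j : ℝ) + 1) / y)))) * tn j else 0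
  let b : ℕ → ℝ := fun k => if k < h then 320000000 * G * (((k : ℝ) + 1) * tn k) else 0
  have ha : ∀ j, 0 ≤ a j := by
    intro j
    simp only [a]
    split_ifs
    · have := tn_pos j
      positivity
    · exact le_rfl
  have hb : ∀ j, 0 ≤ b j := by
    intro j
    simp only [b]
    split_ifs
    · have := tn_pos j
      positivity
    · exact le_rfl
  have hM0 : 0 ≤ L * (1500 * √(L : ℝ) * Q) := by positivity
  have hterm1 : ∀ k ∈ range (n + 1), ((min L (k + 1) : ℕ) : ℝ) * (An L k * Fn (L + 1) (n - k)) ≤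
      a (n - k) + L * (1500 * √(L : ℝ) * Q) * An L k := by
    intro k hk
    have hk' : k ≤ n := by have := mem_range.mp hk; omega
    have n1 := An_nonneg L k
    have n2 := Fn_nonneg (L + 1) (n - k)
    have t2 := Fn_le_tn (L + 1) (n - k)
    have p2 := tn_pos (n - k)
    have m1 : ((min L (k + 1) : ℕ) : ℝ) ≤ L := by exact_mod_cast min_le_left _ _
    have m0 : (0 : ℝ) ≤ ((min L (k + 1) : ℕ) : ℝ) := Nat.cast_nonneg _
    have hcast : (((n - k : ℕ)) : ℝ) = (n : ℝ) - k := by rw [Nat.cast_sub hk']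
    by_cases h1 : n - k < h
    · have hs := shift k hk' (by omega)
      have e : a (n - k) = (L : ℝ) * (40000000 * (G * (1 + 14 * ((N - k) / y)))) * tn (n - k) := by
        simp only [a]
        rw [if_pos h1, hcast, hN]
        ring
      have hle : ((min L (k + 1) : ℕ) : ℝ) * (An L k * Fn (L + 1) (n - k)) ≤ a (n - k) := by
        rw [e, mul_assoc (L : ℝ)]
        exact mul_le_mul m1 (mul_le_mul hs t2 n2 (n1.trans hs)) (mul_nonneg n1 n2) (by linarith)
      have : 0 ≤ L * (1500 * √(L : ℝ) * Q) * An L k := mul_nonneg hM0 n1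
      linarith
    · have hm := mid (L + 1) (n - k) (by omega) le_rfl (by omega)
      have hle : ((min L (k + 1) : ℕ) : ℝ) * (An L k * Fn (L + 1) (n - k)) ≤
          L * (1500 * √(L : ℝ) * Q) * An L k := by
        calc ((min L (k + 1) : ℕ) : ℝ) * (An L k * Fn (L + 1) (n - k))
            = (((min L (k + 1) : ℕ) : ℝ) * Fn (L + 1) (n - k)) * An L k := by ring
          _ ≤ _ := by
            apply mul_le_mul_of_nonneg_right _ n1
            exact mul_le_mul m1 hm n2 (by linarith)
      linarith [ha (n - k)]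
  have hterm2 : ∀ k ∈ range (n + 1), ((min L (k + 1) : ℕ) : ℝ) * (Fn L k * An L (n - k)) ≤
      b k + L * (1500 * √(L : ℝ) * Q) * An L (n - k) := by
    intro k hk
    have hk' : k ≤ n := by have := mem_range.mp hk; omega
    have n1 := Fn_nonneg L k
    have n2 := An_nonneg L (n - k)
    have t1 := Fn_le_tn L k
    have p1 := tn_pos k
    have m1 : ((min L (k + 1) : ℕ) : ℝ) ≤ L := by exact_mod_cast min_le_left _ _
    have m2 : ((min L (k + 1) : ℕ) : ℝ) ≤ (k : ℝ) + 1 := by
      have : min L (k + 1) ≤ k + 1 := min_le_right _ _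
      exact_mod_cast this
    have m0 : (0 : ℝ) ≤ ((min L (k + 1) : ℕ) : ℝ) := Nat.cast_nonneg _
    have hcast : (((n - k : ℕ)) : ℝ) = (n : ℝ) - k := by rw [Nat.cast_sub hk']
    by_cases h2 : k < h
    · have hs := shift (n - k) (by omega) (by omega)
      have hq : (N - ((n - k : ℕ) : ℝ)) / y ≤ 1 / 2 := by
        rw [div_le_iff₀ hy0, hcast, hN]
        have : ((k + 1 : ℕ) : ℝ) ≤ (h : ℝ) := by exact_mod_cast h2
        push_cast at this
        linarith
      have hs' : An L (n - k) ≤ 320000000 * G := by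
        refine hs.trans ?_
        nlinarith
      have hle : ((min L (k + 1) : ℕ) : ℝ) * (Fn L k * An L (n - k)) ≤ b k := by
        simp only [b]
        rw [if_pos h2]
        calc ((min L (k + 1) : ℕ) : ℝ) * (Fn L k * An L (n - k))
            ≤ ((k : ℝ) + 1) * (tn k * (320000000 * G)) :=
              mul_le_mul m2 (mul_le_mul t1 hs' n2 p1.le) (mul_nonneg n1 n2) (by positivity)
          _ = _ := by ring
      have : 0 ≤ L * (1500 * √(L : ℝ) * Q) * An L (n - k) := mul_nonneg hM0 n2
      linarith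
    · have hm := mid L k (by omega) (by omega) (by omega)
      have hle : ((min L (k + 1) : ℕ) : ℝ) * (Fn L k * An L (n - k)) ≤
          L * (1500 * √(L : ℝ) * Q) * An L (n - k) := by
        calc ((min L (k + 1) : ℕ) : ℝ) * (Fn L k * An L (n - k))
            = (((min L (k + 1) : ℕ) : ℝ) * Fn L k) * An L (n - k) := by ring
          _ ≤ _ := by
            apply mul_le_mul_of_nonneg_right _ n2
            exact mul_le_mul m1 hm n1 (by linarith)
      linarith [hb k]
  have hterm3 : ∀ k ∈ range (n + 1), (if L ≤ k then Fn (L + 1) k * Fn (L + 1) (n - k) else 0) ≤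
      364 * Q * tn (n - k) + 1500 * √(L : ℝ) * Q * (if L ≤ k then tn k else 0) := by
    intro k hk
    have hk' : k ≤ n := by have := mem_range.mp hk; omega
    have n1 := Fn_nonneg (L + 1) k
    have n2 := Fn_nonneg (L + 1) (n - k)
    have t1 := Fn_le_tn (L + 1) k
    have t2 := Fn_le_tn (L + 1) (n - k)
    have p1 := tn_pos k
    have p2 := tn_pos (n - k)
    by_cases hLk : L ≤ k
    · rw [if_pos hLk, if_pos hLk]
      by_cases h1 : n - k < h
      · have hkr : N - h ≤ (k : ℝ) := by
          have h3 : n + 1 ≤ k + h := by omega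
          have h4 : ((n + 1 : ℕ) : ℝ) ≤ ((k + h : ℕ) : ℝ) := by exact_mod_cast h3
          push_cast at h4
          rw [hN]
          linarith
        have hs := Fn_near L k h y N hy2.le hL0.le hNL hh2 hkr
        rw [← hQ] at hs
        have h5 : Fn (L + 1) k * Fn (L + 1) (n - k) ≤ 364 * Q * tn (n - k) :=
          mul_le_mul hs t2 n2 (by positivity)
        have h6 : 0 ≤ 1500 * √(L : ℝ) * Q * tn k := by positivity
        linarith
      · have hm := mid (L + 1) (n - k) (by omega) le_rfl (by omega)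
        have h5 : Fn (L + 1) k * Fn (L + 1) (n - k) ≤ 1500 * √(L : ℝ) * Q * tn k := by
          rw [mul_comm]
          exact mul_le_mul hm t1 n1 (by positivity)
        have h6 : 0 ≤ 364 * Q * tn (n - k) := by positivity
        linarith
    · rw [if_neg hLk, if_neg hLk]
      have h6 : 0 ≤ 364 * Q * tn (n - k) := by positivity
      linarith
  have hsum1 := Finset.sum_le_sum hterm1
  have hsum2 := Finset.sum_le_sum hterm2
  have hsum3 := Finset.sum_le_sum hterm3
  rw [Finset.sum_add_distrib, sum_rev a, ← Finset.mul_sum] at hsum1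
  rw [Finset.sum_add_distrib, ← Finset.mul_sum, sum_rev (An L)] at hsum2
  rw [Finset.sum_add_distrib, ← Finset.mul_sum, ← Finset.mul_sum, sum_rev tn] at hsum3
  have hsa : ∑ j ∈ range (n + 1), a j ≤ 40000000 * G * (L * E + 30.8 * (L / √y)) := by
    refine (sum_if_lt (fun j => (L : ℝ) * (40000000 * (G * (1 + 14 * (((j : ℝ) + 1) / y)))) * tn j)
      (fun j => by have := tn_pos j; positivity) h (n + 1)).trans ?_
    have e : ∑ j ∈ range h, (L : ℝ) * (40000000 * (G * (1 + 14 * (((j : ℝ) + 1) / y)))) * tn j =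
        40000000 * G * (L * (∑ j ∈ range h, tn j) +
          L * (14 / y) * ∑ j ∈ range h, ((j : ℝ) + 1) * tn j) := by
      rw [Finset.mul_sum, Finset.mul_sum, ← Finset.sum_add_distrib, Finset.mul_sum]
      apply Finset.sum_congr rfl
      intro j _
      field_simp
    rw [e]
    apply mul_le_mul_of_nonneg_left _ (by positivity)
    have s1 := sum_tn_le h
    have s2 := sum_succ_tn_le h
    have s3 : L * (14 / y) * ∑ j ∈ range h, ((j : ℝ) + 1) * tn j ≤ 30.8 * (L / √y) := by
      calc L * (14 / y) * ∑ j ∈ range h, ((j : ℝ) + 1) * tn j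
          ≤ L * (14 / y) * (2.2 * √y) := by
            apply mul_le_mul_of_nonneg_left _ (by positivity)
            linarith
        _ = 30.8 * (L / √y) := by
            have : √y / y = 1 / √y := by
              rw [div_eq_div_iff hy0.ne' hr.ne']
              linarith
            calc L * (14 / y) * (2.2 * √y) = 30.8 * L * (√y / y) := by ring
              _ = _ := by rw [this]; ring
    have s4 := mul_le_mul_of_nonneg_left s1 hL0.le
    linarith
  have hsb : ∑ j ∈ range (n + 1), b j ≤ 40000000 * G * (17.6 * √y) := by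
    refine (sum_if_lt (fun k => 320000000 * G * (((k : ℝ) + 1) * tn k))
      (fun j => by have := tn_pos j; positivity) h (n + 1)).trans ?_
    rw [← Finset.mul_sum]
    have s2 := sum_succ_tn_le h
    have : 320000000 * G * ∑ j ∈ range h, ((j : ℝ) + 1) * tn j ≤ 320000000 * G * (2.2 * √y) := by
      apply mul_le_mul_of_nonneg_left _ (by positivity)
      linarith
    linarith
  have hE := E_ge
  have hE' := E_le
  have hLy : L / √y ≤ y / 100 := by
    rw [div_le_div_iff₀ hr (by norm_num)]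
    have : (L : ℝ) ≤ N := by rw [hyd] at hy0; linarith
    linarith
  have hry : √y ≤ y / 100 := by nlinarith
  have hMS : L * (1500 * √(L : ℝ) * Q) * ∑ k ∈ range (n + 1), An L k ≤ 36300000 * Q := by
    refine (mul_le_mul_of_nonneg_left hS hM0).trans (le_of_eq ?_)
    field_simp
    norm_num
  have hT1 : 364 * Q * ∑ k ∈ range (n + 1), tn k ≤ 1000 * Q := by
    have s1 := sum_tn_le (n + 1)
    have : 364 * Q * ∑ k ∈ range (n + 1), tn k ≤ 364 * Q * E :=
      mul_le_mul_of_nonneg_left s1 (by positivity)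
    nlinarith
  have hT2 : 1500 * √(L : ℝ) * Q * ∑ k ∈ range (n + 1), (if L ≤ k then tn k else 0) ≤ 3300 * Q := by
    have s1 := tail_tn L (n + 1) (by omega)
    refine (mul_le_mul_of_nonneg_left s1 (by positivity)).trans (le_of_eq ?_)
    field_simp
    norm_num
  have hfin : E * (N * An L (n + 1)) ≤ E * (N * (40000000 * G)) := by
    have e1 : E * (N * (40000000 * G)) = 40000000 * G * (L * E) + 40000000 * (G * y) * E := by
      rw [hyd]
      ring
    rw [e1]
    have b1 : 40000000 * G * (L * E + 30.8 * (L / √y)) ≤ 40000000 * G * (L * E + 0.308 * y) := by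
      apply mul_le_mul_of_nonneg_left _ (by positivity)
      linarith
    have b2 : 40000000 * G * (17.6 * √y) ≤ 40000000 * G * (0.176 * y) := by
      apply mul_le_mul_of_nonneg_left _ (by positivity)
      linarith
    have b3 : 40000000 * G * (L * E + 0.308 * y) = 40000000 * G * (L * E) + 12320000 * Q := by
      rw [← hGQ]
      ring
    have b4 : 40000000 * G * (0.176 * y) = 7040000 * Q := by
      rw [← hGQ]
      ring
    have b5 : 108000000 * Q ≤ 40000000 * (G * y) * E := by
      rw [hGQ]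
      nlinarith
    linarith
  have := le_of_mul_le_mul_left hfin (by linarith)
  exact le_of_mul_le_mul_left this hN0

/-- the upper bound -/
theorem A_le (L : ℕ) (hL : 36000000 ≤ L) :
    ∀ n, L < n → An L n ≤ 40000000 * (1 / D3 ((n : ℝ) - L) n) := by
  intro n
  induction n using Nat.strong_induction_on with
  | _ n ih =>
    intro hn
    obtain ⟨m, rfl⟩ : ∃ m, n = m + 1 := ⟨n - 1, by omega⟩
    by_cases hy : 100 * ((m : ℝ) + 1) < ((m : ℝ) + 1 - L) * √((m : ℝ) + 1 - L)
    · have h := A_large L m hL hn (fun k hk hkm => ih k (by omega) hk) hy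
      push_cast
      exact h
    · push Not at hy
      have hLr : (36000000 : ℝ) ≤ L := by exact_mod_cast hL
      have hL0 : (0 : ℝ) < L := by linarith
      have hy0 : (0 : ℝ) < (m : ℝ) + 1 - L := by
        have : ((L : ℕ) : ℝ) < ((m + 1 : ℕ) : ℝ) := by exact_mod_cast hn
        push_cast at this
        linarith
      have hN0 : (0 : ℝ) < (m : ℝ) + 1 := by positivity
      obtain ⟨N, hN⟩ : ∃ N : ℝ, N = (m : ℝ) + 1 := ⟨_, rfl⟩
      obtain ⟨y, hyd⟩ : ∃ y : ℝ, y = N - L := ⟨_, rfl⟩
      rw [← hN, ← hyd] at hy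
      rw [← hN, ← hyd] at hy0
      rw [← hN] at hN0
      have hr : 0 < √y := Real.sqrt_pos.mpr hy0
      have hrr : √y * √y = y := Real.mul_self_sqrt hy0.le
      have hR : 0 < √N := Real.sqrt_pos.mpr hN0
      have hRR : √N * √N = N := Real.mul_self_sqrt hN0.le
      -- N ≤ 2 L
      have hN2 : N ≤ 2 * L := by
        by_contra hc
        push Not at hc
        have h1 : N / 2 < y := by rw [hyd]; linarith
        have h2 : √N / 1.5 ≤ √y := by
          apply Real.le_sqrt_of_sq_le
          rw [div_pow, Real.sq_sqrt hN0.le, div_le_iff₀ (by norm_num)]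
          linarith
        have h3 : (N / 2) * (√N / 1.5) ≤ y * √y :=
          mul_le_mul h1.le h2 (by positivity) hy0.le
        have h4 : √N ≤ 300 := by
          by_contra hc2
          push Not at hc2
          nlinarith
        nlinarith
      have hm2 : m + 1 ≤ 2 * L := by
        have : ((m + 1 : ℕ) : ℝ) ≤ ((2 * L : ℕ) : ℝ) := by
          push_cast
          rw [← hN]
          exact hN2
        exact_mod_cast this
      have h := An_small L (m + 1) hn hm2
      push_cast at h ⊢
      rw [← hN, ← hyd] at h ⊢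
      refine h.trans ?_
      unfold D3
      have hsq := sq_pos L
      rw [mul_one_div, div_le_div_iff₀ (by positivity) (by positivity)]
      have hs : √N ≤ 1.5 * sq L := by
        unfold sq
        apply Real.sqrt_le_iff.mpr
        constructor
        · positivity
        · rw [mul_pow, Real.sq_sqrt (show (0 : ℝ) ≤ (L : ℝ) + 1 by positivity)]
          linarith
      have hq : y * y * y ≤ 10000 * (N * N) := by
        have h1 : (y * √y) * (y * √y) ≤ (100 * N) * (100 * N) :=
          mul_le_mul hy hy (by positivity) (by positivity)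
        have h2 : (y * √y) * (y * √y) = y * y * y := by
          calc (y * √y) * (y * √y) = y * y * (√y * √y) := by ring
            _ = _ := by rw [hrr]
        linarith
      have hq2 : N * N ≤ 4 * ((L : ℝ) + 1) ^ 2 := by nlinarith
      calc 1.8 * √y * (y * y * √y * √N) = 1.8 * (y * y * (√y * √y)) * √N := by ring
        _ = 1.8 * (y * y * y) * √N := by rw [hrr]
        _ ≤ 1.8 * (10000 * (4 * ((L : ℝ) + 1) ^ 2)) * (1.5 * sq L) := by
            apply mul_le_mul _ hs hR.le (by positivity)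
            linarith
        _ ≤ 40000000 * (((L : ℝ) + 1) ^ 2 * sq L) := by
            have : 0 ≤ ((L : ℝ) + 1) ^ 2 * sq L := by positivity
            nlinarith

end Pool.Agent.MP_9da1e3_co
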