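import Pool.Agent.Lib.MP_9da1e3_co.Big5

namespace Pool.Agent.MP_9da1e3_co

open Finset

/-- lower bound for the first sum of the recursion -/
lemma first_ge (L m : ℕ) (hm : m ≤ L) :
    ∑ j ∈ range (m + 1), (L : ℝ) * (An L (L + (m - j)) * tn j) ≤
    ∑ k ∈ range (L + m + 1), ((min L (k + 1) : ℕ) : ℝ) * (An L k * Fn (L + 1) (L + m - k)) := by
  rw [← sum_rev (fun k => ((min L (k + 1) : ℕ) : ℝ) * (An L k * Fn (L + 1) (L + m - k))) (L + m)]
  have h1 : ∑ j ∈ range (m + 1), (L : ℝ) * (An L (L + (m - j)) * tn j) =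
      ∑ j ∈ range (m + 1), ((min L (L + m - j + 1) : ℕ) : ℝ) *
        (An L (L + m - j) * Fn (L + 1) (L + m - (L + m - j))) := by
    apply Finset.sum_congr rfl
    intro j hj
    have hj' : j ≤ m := by have := mem_range.mp hj; omega
    have e1 : min L (L + m - j + 1) = L := by omega
    have e2 : L + m - (L + m - j) = j := by omega
    have e3 : L + m - j = L + (m - j) := by omega
    rw [e1, e2, e3, Fn_eq_tn (L + 1) j (by omega)]
  rw [h1]
  apply Finset.sum_le_sum_of_subset_of_nonneg
  · intro j hj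
    have := mem_range.mp hj
    exact mem_range.mpr (by omega)
  · intro j _ _
    exact mul_nonneg (Nat.cast_nonneg _) (mul_nonneg (An_nonneg _ _) (Fn_nonneg _ _))

lemma third_ge (L m : ℕ) (hm : m ≤ L) :
    ∑ j ∈ range (m + 1), Fn (L + 1) (L + (m - j)) * tn j ≤
    ∑ k ∈ range (L + m + 1), (if L ≤ k then Fn (L + 1) k * Fn (L + 1) (L + m - k) else 0) := by
  rw [← sum_rev (fun k => (if L ≤ k then Fn (L + 1) k * Fn (L + 1) (L + m - k) else 0)) (L + m)]
  have h1 : ∑ j ∈ range (m + 1), Fn (L + 1) (L + (m - j)) * tn j =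
      ∑ j ∈ range (m + 1), (if L ≤ L + m - j then
        Fn (L + 1) (L + m - j) * Fn (L + 1) (L + m - (L + m - j)) else 0) := by
    apply Finset.sum_congr rfl
    intro j hj
    have hj' : j ≤ m := by have := mem_range.mp hj; omega
    have e2 : L + m - (L + m - j) = j := by omega
    have e3 : L + m - j = L + (m - j) := by omega
    rw [if_pos (by omega), e2, e3, Fn_eq_tn (L + 1) j (by omega)]
  rw [h1]
  apply Finset.sum_le_sum_of_subset_of_nonneg
  · intro j hj
    have := mem_range.mp hj
    exact mem_range.mpr (by omega)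
  · intro j _ _
    split_ifs
    · exact mul_nonneg (Fn_nonneg _ _) (Fn_nonneg _ _)
    · exact le_rfl

lemma second_nonneg (L n : ℕ) :
    0 ≤ ∑ k ∈ range (n + 1), ((min L (k + 1) : ℕ) : ℝ) * (Fn L k * An L (n - k)) :=
  Finset.sum_nonneg fun _ _ => mul_nonneg (Nat.cast_nonneg _) (mul_nonneg (Fn_nonneg _ _) (An_nonneg _ _))

lemma third_nonneg (L n : ℕ) :
    0 ≤ ∑ k ∈ range (n + 1), (if L ≤ k then Fn (L + 1) k * Fn (L + 1) (n - k) else 0) :=
  Finset.sum_nonneg fun _ _ => by
    split_ifs
    · exact mul_nonneg (Fn_nonneg _ _) (Fn_nonneg _ _)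
    · exact le_rfl

lemma mul_sqrt_mono {a b : ℝ} (ha : 0 ≤ a) (h : a ≤ b) : a * √a ≤ b * √b :=
  mul_le_mul h (Real.sqrt_le_sqrt h) (Real.sqrt_nonneg _) (ha.trans h)

/-- lower bound near the end -/
theorem A_ge_small (L : ℕ) (hL : 1 ≤ L) : ∀ y : ℕ, y ≤ L → (y : ℝ) * √(y : ℝ) ≤ L / 12 →
    WW y / (7 * (L * L * √(L : ℝ))) ≤ An L (L + y) := by
  intro y
  induction y using Nat.strong_induction_on with
  | _ y ih =>
    intro hyL hy
    rcases Nat.eq_zero_or_pos y with rfl | hy0
    · have : WW 0 = 0 := by simp [WW]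
      rw [this, zero_div]
      exact An_nonneg _ _
    · obtain ⟨m, rfl⟩ : ∃ m, y = m + 1 := ⟨y - 1, by omega⟩
      have hLr : (1 : ℝ) ≤ L := by exact_mod_cast hL
      have hL0 : (0 : ℝ) < L := by linarith
      have hl : 0 < √(L : ℝ) := Real.sqrt_pos.mpr hL0
      have hll : √(L : ℝ) * √(L : ℝ) = L := Real.mul_self_sqrt hL0.le
      have hE := E_ge
      have hE' := E_le
      obtain ⟨N, hN⟩ : ∃ N : ℝ, N = ((L + m : ℕ) : ℝ) + 1 := ⟨_, rfl⟩
      have hN0 : 0 < N := by rw [hN]; positivity
      have hR : 0 < √N := Real.sqrt_pos.mpr hN0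
      have hmL : ((m + 1 : ℕ) : ℝ) ≤ L := by exact_mod_cast hyL
      have hN2 : N ≤ 2 * L := by rw [hN]; push_cast at hmL ⊢; linarith
      have hRl : √N ≤ 1.4143 * √(L : ℝ) := by
        apply Real.sqrt_le_iff.mpr
        constructor
        · positivity
        · rw [mul_pow, Real.sq_sqrt hL0.le]
          nlinarith
      obtain ⟨κ, hκ⟩ : ∃ κ : ℝ, κ = 1 / (7 * (L * L * √(L : ℝ))) := ⟨_, rfl⟩
      have hκ0 : 0 < κ := by rw [hκ]; positivity
      obtain ⟨σ, hσ⟩ : ∃ σ : ℝ, σ = 1 / (2 * (N * √N)) := ⟨_, rfl⟩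
      have hσ0 : 0 < σ := by rw [hσ]; positivity
      have hrec := An_rec L (L + m)
      rw [← hN] at hrec
      have h1 := first_ge L m (by omega)
      have h2 := second_nonneg L (L + m)
      have h3 := third_ge L m (by omega)
      have h4 : κ * (L * ∑ j ∈ range (m + 1), WW (m - j) * tn j) ≤
          ∑ j ∈ range (m + 1), (L : ℝ) * (An L (L + (m - j)) * tn j) := by
        rw [Finset.mul_sum, Finset.mul_sum]
        apply Finset.sum_le_sum
        intro j hj
        have hj' : j ≤ m := by have := mem_range.mp hj; omega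
        have hs : (((m - j : ℕ)) : ℝ) * √((m - j : ℕ) : ℝ) ≤ L / 12 := by
          refine le_trans (mul_sqrt_mono (Nat.cast_nonneg _) ?_) hy
          exact_mod_cast (by omega : m - j ≤ m + 1)
        have h5 := ih (m - j) (by omega) (by omega) hs
        have h6 : WW (m - j) / (7 * (L * L * √(L : ℝ))) = κ * WW (m - j) := by rw [hκ]; ring
        rw [h6] at h5
        have ht := tn_pos j
        calc κ * (L * (WW (m - j) * tn j)) = L * ((κ * WW (m - j)) * tn j) := by ring
          _ ≤ L * (An L (L + (m - j)) * tn j) := by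
            apply mul_le_mul_of_nonneg_left _ hL0.le
            exact mul_le_mul_of_nonneg_right h5 ht.le
      have h5 : σ * ∑ j ∈ range (m + 1), tn j ≤
          ∑ j ∈ range (m + 1), Fn (L + 1) (L + (m - j)) * tn j := by
        rw [Finset.mul_sum]
        apply Finset.sum_le_sum
        intro j hj
        have hj' : j ≤ m := by have := mem_range.mp hj; omega
        apply mul_le_mul_of_nonneg_right _ (tn_pos j).le
        have hF : tn (L + (m - j)) / 2 ≤ Fn (L + 1) (L + (m - j)) := by
          rcases Nat.eq_or_lt_of_le hj' with he | hlt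
          · rw [he, Nat.sub_self, Nat.add_zero, Fn_eq_tn (L + 1) L (by omega)]
            have := tn_pos L
            linarith
          · apply Fn_ge (L + 1) (L + (m - j)) (by omega) (by omega) (by omega)
            have e1 : (((L + (m - j) : ℕ)) : ℝ) - ((L + 1 : ℕ) : ℝ) = ((m - j - 1 : ℕ) : ℝ) := by
              rw [← Nat.cast_sub (by omega)]
              congr 1
              omega
            rw [e1]
            have hs : (((m - j - 1 : ℕ)) : ℝ) * √((m - j - 1 : ℕ) : ℝ) ≤ L / 12 := by
              refine le_trans (mul_sqrt_mono (Nat.cast_nonneg _) ?_) hy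
              exact_mod_cast (by omega : m - j - 1 ≤ m + 1)
            push_cast
            linarith
        refine le_trans ?_ hF
        have hlt := le_tn (L + (m - j))
        have hle : (((L + (m - j) : ℕ)) : ℝ) + 1 ≤ N := by
          rw [hN]
          have : (((L + (m - j) : ℕ)) : ℝ) ≤ ((L + m : ℕ) : ℝ) := by
            exact_mod_cast (by omega : L + (m - j) ≤ L + m)
          linarith
        have hsq : sq (L + (m - j)) ≤ √N := Real.sqrt_le_sqrt hle
        have hsp := sq_pos (L + (m - j))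
        have h6 : 1 / (N * √N) ≤ tn (L + (m - j)) := by
          refine le_trans ?_ hlt
          apply one_div_le_one_div_of_le (by positivity)
          exact mul_le_mul hle hsq hsp.le hN0.le
        have h7 : σ = (1 / (N * √N)) / 2 := by
          rw [hσ]
          field_simp
        rw [h7]
        linarith
      have hW := WW_eq (m + 1)
      have hW2 : E * WW (m + 1) = ∑ j ∈ range (m + 1), tn j + ∑ j ∈ range (m + 1), WW (m - j) * tn j := by
        rw [hW, Finset.mul_sum, ← Finset.sum_add_distrib]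
        apply Finset.sum_congr rfl
        intro j _
        have e : m + 1 - 1 - j = m - j := by omega
        rw [e]
        have : E ≠ 0 := by linarith
        field_simp
      obtain ⟨T, hT⟩ : ∃ T : ℝ, T = ∑ j ∈ range (m + 1), tn j := ⟨_, rfl⟩
      obtain ⟨V, hV⟩ : ∃ V : ℝ, V = ∑ j ∈ range (m + 1), WW (m - j) * tn j := ⟨_, rfl⟩
      rw [← hT, ← hV] at hW2
      rw [← hV] at h4
      rw [← hT] at h5
      have hT1 : 1 ≤ T := by
        rw [hT, Finset.sum_range_succ', tn_zero]
        have : 0 ≤ ∑ j ∈ range m, tn (j + 1) := Finset.sum_nonneg fun j _ => (tn_pos _).le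
        linarith
      have hWle := WW_le (m + 1)
      have hW0 := WW_nonneg (m + 1)
      have hyr : (0 : ℝ) ≤ ((m + 1 : ℕ) : ℝ) := Nat.cast_nonneg _
      have h7 : ((m + 1 : ℕ) : ℝ) * WW (m + 1) ≤ L / 12 :=
        (mul_le_mul_of_nonneg_left hWle hyr).trans hy
      have h8 : κ * (1.2266 * L) ≤ σ := by
        rw [hκ, hσ, one_div_mul_eq_div, div_le_div_iff₀ (by positivity) (by positivity)]
        have h9 : N * √N ≤ (2 * L) * (1.4143 * √(L : ℝ)) :=
          mul_le_mul hN2 hRl hR.le (by positivity)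
        calc 1.2266 * (L : ℝ) * (2 * (N * √N)) ≤
              1.2266 * (L : ℝ) * (2 * ((2 * L) * (1.4143 * √(L : ℝ)))) := by
              apply mul_le_mul_of_nonneg_left _ (by positivity)
              linarith
          _ = (1.2266 * 2 * 2 * 1.4143) * (L * L * √(L : ℝ)) := by ring
          _ ≤ 1 * (7 * (L * L * √(L : ℝ))) := by
              have : 0 < (L : ℝ) * L * √(L : ℝ) := by positivity
              nlinarith
      have hNy : N = L + ((m + 1 : ℕ) : ℝ) := by rw [hN]; push_cast; ring
      have e0 : WW (m + 1) / (7 * (L * L * √(L : ℝ))) = κ * WW (m + 1) := by rw [hκ]; ring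
      have e1 : L + (m + 1) = L + m + 1 := by ring
      rw [e0, e1]
      have hfin : E * (N * (κ * WW (m + 1))) ≤ E * (N * An L (L + m + 1)) := by
        rw [hrec]
        have i1 : E * (N * (κ * WW (m + 1))) = κ * (L * V) + κ * (L * T) +
            κ * (E * (((m + 1 : ℕ) : ℝ) * WW (m + 1))) := by
          have : V = E * WW (m + 1) - T := by linarith
          rw [this, hNy]
          ring
        have i2 : κ * (E * (((m + 1 : ℕ) : ℝ) * WW (m + 1))) ≤ κ * (0.2266 * L * T) := by
          apply mul_le_mul_of_nonneg_left _ hκ0.le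
          have i3 : E * (((m + 1 : ℕ) : ℝ) * WW (m + 1)) ≤ 2.7183 * (L / 12) :=
            mul_le_mul hE' h7 (mul_nonneg hyr hW0) (by norm_num)
          have i4 : 0.2266 * (L : ℝ) * 1 ≤ 0.2266 * L * T :=
            mul_le_mul_of_nonneg_left hT1 (by positivity)
          linarith
        have i5 : κ * (L * T) + κ * (0.2266 * L * T) = κ * (1.2266 * L) * T := by ring
        have i6 : κ * (1.2266 * L) * T ≤ σ * T := mul_le_mul_of_nonneg_right h8 (by linarith)
        linarith
      have := le_of_mul_le_mul_left hfin (by linarith)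
      exact le_of_mul_le_mul_left this hN0

lemma A_ge_small' (L y : ℕ) (hL : 1 ≤ L) (hyL : y ≤ L) (hy : (y : ℝ) * √(y : ℝ) ≤ L / 12) :
    √(y : ℝ) / (19.1 * (L * L * √(L : ℝ))) ≤ An L (L + y) := by
  refine le_trans ?_ (A_ge_small L hL y hyL hy)
  have hLr : (1 : ℝ) ≤ L := by exact_mod_cast hL
  have hL0 : (0 : ℝ) < L := by linarith
  have hl : 0 < √(L : ℝ) := Real.sqrt_pos.mpr hL0
  have h := le_WW y
  have hE := E_pos
  have hE' := E_le
  have h1 : √(y : ℝ) ≤ E * WW y := by
    rw [div_le_iff₀ hE] at h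
    linarith
  have h2 := WW_nonneg y
  have h3 : √(y : ℝ) ≤ 2.7183 * WW y := h1.trans (mul_le_mul_of_nonneg_right hE' h2)
  rw [div_le_div_iff₀ (by positivity) (by positivity)]
  have h4 : 0 < (L : ℝ) * L * √(L : ℝ) := by positivity
  have h5 : √(y : ℝ) * 7 ≤ WW y * 19.1 := by linarith
  nlinarith

end Pool.Agent.MP_9da1e3_co
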