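import Pool.Agent.Lib.MP_9da1e3_co.Big6

namespace Pool.Agent.MP_9da1e3_co

open Finset

lemma sum_sqrt_ge (M : ℕ) : 2 / 3 * ((M : ℝ) * √(M : ℝ)) ≤ ∑ z ∈ range (M + 1), √(z : ℝ) := by
  induction M with
  | zero => simp
  | succ M ih =>
    rw [Finset.sum_range_succ]
    have hM : (0 : ℝ) ≤ M := Nat.cast_nonneg M
    obtain ⟨s, hs⟩ : ∃ s, s = √(M : ℝ) := ⟨_, rfl⟩
    obtain ⟨t, ht⟩ : ∃ t, t = √((M + 1 : ℕ) : ℝ) := ⟨_, rfl⟩
    have hs0 : 0 ≤ s := by rw [hs]; exact Real.sqrt_nonneg _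
    have ht0 : 0 < t := by rw [ht]; exact Real.sqrt_pos.mpr (by positivity)
    have hss : s * s = M := by rw [hs]; exact Real.mul_self_sqrt hM
    have htt : t * t = (M : ℝ) + 1 := by
      rw [ht, Real.mul_self_sqrt (by positivity)]
      push_cast
      ring
    have hst : s ≤ t := by
      rw [hs, ht]
      apply Real.sqrt_le_sqrt
      push_cast
      linarith
    rw [← ht]
    rw [← hs] at ih
    have h1 : (t - s) * (t + s) = 1 := by nlinarith
    have h2 : t * t * t - s * s * s ≤ 1.5 * t := by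
      have h3 : t * t * t - s * s * s = (t - s) * (t * t + t * s + s * s) := by ring
      rw [h3]
      have h4 : t * t + t * s + s * s ≤ 1.5 * t * (t + s) := by nlinarith
      calc (t - s) * (t * t + t * s + s * s) ≤ (t - s) * (1.5 * t * (t + s)) :=
            mul_le_mul_of_nonneg_left h4 (by linarith)
        _ = 1.5 * t * ((t - s) * (t + s)) := by ring
        _ = 1.5 * t := by rw [h1, mul_one]
    have h5 : ((M + 1 : ℕ) : ℝ) * t = t * t * t := by rw [htt]; push_cast; ring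
    have h6 : (M : ℝ) * s = s * s * s := by rw [hss]
    rw [h5]
    rw [h6] at ih
    linarith

/-- the threshold of the end regime -/
lemma exists_w (L : ℕ) (hL : 36000000 ≤ L) : ∃ w : ℕ, 10000 ≤ w ∧
    ((2 * w : ℕ) : ℝ) * √((2 * w : ℕ) : ℝ) ≤ L / 12 ∧
    (L : ℝ) / 12 < ((2 * w + 2 : ℕ) : ℝ) * √((2 * w + 2 : ℕ) : ℝ) := by
  have hLr : (36000000 : ℝ) ≤ L := by exact_mod_cast hL
  have hex : ∃ w : ℕ, (L : ℝ) / 12 < ((2 * w + 2 : ℕ) : ℝ) * √((2 * w + 2 : ℕ) : ℝ) := by
    refine ⟨L, ?_⟩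
    have h1 : (1 : ℝ) ≤ √((2 * L + 2 : ℕ) : ℝ) := by
      apply Real.le_sqrt_of_sq_le
      push_cast
      linarith
    have h2 : ((2 * L + 2 : ℕ) : ℝ) * 1 ≤ ((2 * L + 2 : ℕ) : ℝ) * √((2 * L + 2 : ℕ) : ℝ) :=
      mul_le_mul_of_nonneg_left h1 (Nat.cast_nonneg _)
    refine lt_of_lt_of_le ?_ h2
    push_cast
    linarith
  classical
  obtain ⟨w, hw⟩ : ∃ w, w = Nat.find hex := ⟨_, rfl⟩
  have hspec : (L : ℝ) / 12 < ((2 * w + 2 : ℕ) : ℝ) * √((2 * w + 2 : ℕ) : ℝ) := by
    rw [hw]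
    exact Nat.find_spec hex
  refine ⟨w, ?_, ?_, hspec⟩
  · by_contra hc
    push Not at hc
    have h1 : ((2 * w + 2 : ℕ) : ℝ) ≤ 20000 := by exact_mod_cast (by omega : 2 * w + 2 ≤ 20000)
    have h2 : √((2 * w + 2 : ℕ) : ℝ) ≤ 142 := by
      apply Real.sqrt_le_iff.mpr
      constructor
      · norm_num
      · linarith
    have h3 : ((2 * w + 2 : ℕ) : ℝ) * √((2 * w + 2 : ℕ) : ℝ) ≤ 20000 * 142 :=
      mul_le_mul h1 h2 (Real.sqrt_nonneg _) (by norm_num)
    linarith
  · rcases Nat.eq_zero_or_pos w with h0 | h0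
    · rw [h0]
      simp only [mul_zero, Nat.cast_zero, zero_mul]
      positivity
    · have hmin := Nat.find_min hex (m := w - 1) (by omega)
      push Not at hmin
      have e : 2 * (w - 1) + 2 = 2 * w := by omega
      rw [e] at hmin
      exact hmin

lemma D3_mono {y N y' N' : ℝ} (hy' : 0 < y') (hN' : 0 < N') (h1 : y' ≤ y) (h2 : N' ≤ N) :
    1 / D3 y N ≤ 1 / D3 y' N' := by
  apply one_div_le_one_div_of_le (D3_pos hy' hN')
  have hy0 : 0 < y := lt_of_lt_of_le hy' h1
  unfold D3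
  have hs := Real.sqrt_le_sqrt h1
  have ht := Real.sqrt_le_sqrt h2
  have h3 : y' * y' ≤ y * y := mul_le_mul h1 h1 hy'.le (hy'.le.trans h1)
  have h4 : y' * y' * √y' ≤ y * y * √y :=
    mul_le_mul h3 hs (Real.sqrt_nonneg _) (by nlinarith)
  exact mul_le_mul h4 ht (Real.sqrt_nonneg _) (by positivity)

lemma A_ge_step (L w m : ℕ) (hL : 36000000 ≤ L) (hw : 10000 ≤ w)
    (hw1 : ((2 * w : ℕ) : ℝ) * √((2 * w : ℕ) : ℝ) ≤ L / 12)
    (hw2 : (L : ℝ) / 12 < ((2 * w + 2 : ℕ) : ℝ) * √((2 * w + 2 : ℕ) : ℝ))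
    (hm : 2 * w ≤ m) (hmL : m + 1 ≤ L)
    (ih : ∀ z : ℕ, w ≤ z → z ≤ m → 1 / 200000 * (1 / D3 z ((L : ℝ) + z)) ≤ An L (L + z)) :
    1 / 200000 * (1 / D3 ((m : ℝ) + 1) ((L : ℝ) + (m + 1))) ≤ An L (L + m + 1) := by
  have hLr : (36000000 : ℝ) ≤ L := by exact_mod_cast hL
  have hL0 : (0 : ℝ) < L := by linarith
  have hl : 0 < √(L : ℝ) := Real.sqrt_pos.mpr hL0
  have hll : √(L : ℝ) * √(L : ℝ) = L := Real.mul_self_sqrt hL0.le
  have hE := E_ge
  have hE' := E_le
  obtain ⟨y, hy⟩ : ∃ y : ℝ, y = (m : ℝ) + 1 := ⟨_, rfl⟩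
  obtain ⟨N, hN⟩ : ∃ N : ℝ, N = (L : ℝ) + y := ⟨_, rfl⟩
  have hwr : (10000 : ℝ) ≤ w := by exact_mod_cast hw
  have hmr : 2 * (w : ℝ) ≤ m := by exact_mod_cast hm
  have hy1 : 20000 < y := by rw [hy]; linarith
  have hy0 : 0 < y := by linarith
  have hN0 : 0 < N := by linarith
  have hr : 0 < √y := Real.sqrt_pos.mpr hy0
  have hrr : √y * √y = y := Real.mul_self_sqrt hy0.le
  have hR : 0 < √N := Real.sqrt_pos.mpr hN0
  have hlR : √(L : ℝ) ≤ √N := Real.sqrt_le_sqrt (by linarith)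
  obtain ⟨G, hG⟩ : ∃ G : ℝ, G = 1 / D3 y N := ⟨_, rfl⟩
  have hD := D3_pos hy0 hN0
  have hG0 : 0 < G := by rw [hG]; positivity
  rw [← hy, ← hN, ← hG]
  have hrec := An_rec L (L + m)
  have hNe : (((L + m : ℕ)) : ℝ) + 1 = N := by rw [hN, hy]; push_cast; ring
  rw [hNe] at hrec
  have h1 := first_ge L m (by omega)
  have h2 := second_nonneg L (L + m)
  have h3 := third_nonneg L (L + m)
  -- lower bound of L
  have hLy : (L : ℝ) ≤ 12.02 * (y * √y) := by
    have h4 : ((2 * w + 2 : ℕ) : ℝ) ≤ y + 1 := by rw [hy]; push_cast; linarith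
    have h5 := mul_sqrt_mono (Nat.cast_nonneg _) h4
    have h6 : √(y + 1) ≤ 1.0003 * √y := by
      apply Real.sqrt_le_iff.mpr
      constructor
      · positivity
      · rw [mul_pow, Real.sq_sqrt hy0.le]
        linarith
    have h7 : (y + 1) * √(y + 1) ≤ (1.0001 * y) * (1.0003 * √y) :=
      mul_le_mul (by linarith) h6 (Real.sqrt_nonneg _) (by positivity)
    have h8 : 0 < y * √y := by positivity
    have h9 : (1.0001 * y) * (1.0003 * √y) = (1.0001 * 1.0003) * (y * √y) := by ring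
    rw [h9] at h7
    have h10 : (1.0001 * 1.0003 : ℝ) * (y * √y) ≤ 1.001 * (y * √y) :=
      mul_le_mul_of_nonneg_right (by norm_num) h8.le
    linarith
  -- main part and source part
  let p : ℕ → ℝ := fun j => if j < m + 1 - w then 1 / 200000 * (L * G) * tn j else 0
  let q : ℕ → ℝ := fun j => if j < m + 1 - w then 0 else
    1 / (19.1 * (L * √(L : ℝ)) * (y * √y)) * √((m - j : ℕ) : ℝ)
  have hterm : ∀ j ∈ range (m + 1), p j + q j ≤ (L : ℝ) * (An L (L + (m - j)) * tn j) := by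
    intro j hj
    have hj' : j ≤ m := by have := mem_range.mp hj; omega
    have ht := tn_pos j
    simp only [p, q]
    by_cases hc : j < m + 1 - w
    · rw [if_pos hc, if_pos hc, add_zero]
      have h4 := ih (m - j) (by omega) (by omega)
      have hz : (0 : ℝ) < ((m - j : ℕ) : ℝ) := by exact_mod_cast (by omega : 0 < m - j)
      have hzy : (((m - j : ℕ)) : ℝ) ≤ y := by
        rw [hy]
        have : ((m - j : ℕ) : ℝ) ≤ m := by exact_mod_cast (by omega : m - j ≤ m)
        linarith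
      have h5 : G ≤ 1 / D3 ((m - j : ℕ) : ℝ) ((L : ℝ) + ((m - j : ℕ) : ℝ)) := by
        rw [hG]
        exact D3_mono hz (by linarith) hzy (by linarith)
      have h6 : 1 / 200000 * G ≤ An L (L + (m - j)) := by linarith
      calc 1 / 200000 * (L * G) * tn j = L * ((1 / 200000 * G) * tn j) := by ring
        _ ≤ _ := by
          apply mul_le_mul_of_nonneg_left _ hL0.le
          exact mul_le_mul_of_nonneg_right h6 ht.le
    · rw [if_neg hc, if_neg hc, zero_add]
      have hs : (((m - j : ℕ)) : ℝ) * √((m - j : ℕ) : ℝ) ≤ L / 12 := by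
        refine le_trans (mul_sqrt_mono (Nat.cast_nonneg _) ?_) hw1
        exact_mod_cast (by omega : m - j ≤ 2 * w)
      have h4 := A_ge_small' L (m - j) (by omega) (by omega) hs
      have h5 := le_tn j
      have hjy : (j : ℝ) + 1 ≤ y := by
        rw [hy]
        have : (j : ℝ) ≤ m := by exact_mod_cast hj'
        linarith
      have hsj : sq j ≤ √y := Real.sqrt_le_sqrt hjy
      have hsp := sq_pos j
      have h6 : 1 / (y * √y) ≤ tn j := by
        refine le_trans ?_ h5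
        apply one_div_le_one_div_of_le (by positivity)
        exact mul_le_mul hjy hsj hsp.le hy0.le
      have hz := Real.sqrt_nonneg (((m - j : ℕ)) : ℝ)
      calc 1 / (19.1 * (L * √(L : ℝ)) * (y * √y)) * √((m - j : ℕ) : ℝ)
          = L * ((√((m - j : ℕ) : ℝ) / (19.1 * (L * L * √(L : ℝ)))) * (1 / (y * √y))) := by
            field_simp
        _ ≤ _ := by
          apply mul_le_mul_of_nonneg_left _ hL0.le
          exact mul_le_mul h4 h6 (by positivity) (An_nonneg _ _)
  have hsum := Finset.sum_le_sum hterm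
  rw [Finset.sum_add_distrib] at hsum
  -- main part
  obtain ⟨u, hu⟩ : ∃ u : ℕ, u = m + 1 - w := ⟨_, rfl⟩
  have hur : y / 2 ≤ (u : ℝ) := by
    rw [hu, Nat.cast_sub (by omega), hy]
    push_cast
    linarith
  have hp : ∑ j ∈ range (m + 1), p j = 1 / 200000 * (L * G) * ∑ j ∈ range u, tn j := by
    simp only [p]
    rw [← Finset.sum_filter, Finset.mul_sum]
    apply Finset.sum_congr _ (fun _ _ => rfl)
    ext j
    rw [mem_filter, mem_range, mem_range, hu]
    omega
  have hsu : E * (1 - 3.845 / √y) ≤ ∑ j ∈ range u, tn j := by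
    refine le_trans ?_ (le_sum_tn u)
    apply mul_le_mul_of_nonneg_left _ (by linarith)
    have h4 := le_WW u
    have h5 : √y / 1.4143 ≤ √(u : ℝ) := by
      apply Real.le_sqrt_of_sq_le
      rw [div_pow, Real.sq_sqrt hy0.le, div_le_iff₀ (by norm_num)]
      nlinarith
    have h6 : √y / 3.845 ≤ 1 + WW u := by
      have h7 : √(u : ℝ) ≤ E * WW u := by
        rw [div_le_iff₀ (by linarith)] at h4
        linarith
      have h8 := WW_nonneg u
      have h9 : √(u : ℝ) ≤ 2.7183 * WW u := h7.trans (mul_le_mul_of_nonneg_right hE' h8)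
      have h10 : √y / 3.845 ≤ (√y / 1.4143) / 2.7183 := by
        rw [div_div]
        apply div_le_div_of_nonneg_left hr.le (by norm_num) (by norm_num)
      have h11 : (√y / 1.4143) / 2.7183 ≤ WW u := by
        rw [div_le_iff₀ (by norm_num)]
        linarith
      linarith
    have h7 : 1 / (1 + WW u) ≤ 3.845 / √y := by
      have h8 := WW_nonneg u
      rw [div_le_div_iff₀ (by linarith) hr]
      rw [div_le_iff₀ (by norm_num)] at h6
      linarith
    linarith
  -- source part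
  have hq : (L : ℝ) / 60 * (1 / (19.1 * (L * √(L : ℝ)) * (y * √y))) ≤ ∑ j ∈ range (m + 1), q j := by
    have e1 : ∑ j ∈ range (m + 1), q j = ∑ z ∈ range (m + 1), q (m - z) := (sum_rev q m).symm
    rw [e1]
    have e2 : ∑ z ∈ range w, 1 / (19.1 * (L * √(L : ℝ)) * (y * √y)) * √(z : ℝ) ≤
        ∑ z ∈ range (m + 1), q (m - z) := by
      have e3 : ∑ z ∈ range w, 1 / (19.1 * (L * √(L : ℝ)) * (y * √y)) * √(z : ℝ) =
          ∑ z ∈ range w, q (m - z) := by
        apply Finset.sum_congr rfl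
        intro z hz
        have hz' := mem_range.mp hz
        simp only [q]
        have e4 : m - (m - z) = z := by omega
        rw [if_neg (by omega), e4]
      rw [e3]
      apply Finset.sum_le_sum_of_subset_of_nonneg
      · intro z hz
        have := mem_range.mp hz
        exact mem_range.mpr (by omega)
      · intro z _ _
        simp only [q]
        split_ifs
        · exact le_rfl
        · positivity
    refine le_trans ?_ e2
    rw [← Finset.mul_sum, mul_comm]
    apply mul_le_mul_of_nonneg_left _ (by positivity)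
    obtain ⟨v, hv⟩ : ∃ v, w = v + 1 := ⟨w - 1, by omega⟩
    have h4 := sum_sqrt_ge v
    rw [← hv] at h4
    refine le_trans ?_ h4
    have hvr : (9999 : ℝ) ≤ v := by exact_mod_cast (by omega : 9999 ≤ v)
    have hv0 : (0 : ℝ) < v := by linarith
    have hsv : 0 < √(v : ℝ) := Real.sqrt_pos.mpr hv0
    have h5 : ((2 * w + 2 : ℕ) : ℝ) ≤ 2.001 * v := by rw [hv]; push_cast; linarith
    have h6 := mul_sqrt_mono (Nat.cast_nonneg _) h5
    have h7 : √(2.001 * (v : ℝ)) ≤ 1.415 * √(v : ℝ) := by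
      apply Real.sqrt_le_iff.mpr
      constructor
      · positivity
      · rw [mul_pow, Real.sq_sqrt hv0.le]
        linarith
    have h8 : 2.001 * (v : ℝ) * √(2.001 * (v : ℝ)) ≤ 2.001 * (v : ℝ) * (1.415 * √(v : ℝ)) :=
      mul_le_mul_of_nonneg_left h7 (by positivity)
    have h9 : 2.001 * (v : ℝ) * (1.415 * √(v : ℝ)) = (2.001 * 1.415) * ((v : ℝ) * √(v : ℝ)) := by ring
    rw [h9] at h8
    have h10 : 0 < (v : ℝ) * √(v : ℝ) := by positivity
    nlinarith
  -- conclusion
  obtain ⟨Q, hQ⟩ : ∃ Q : ℝ, Q = 1 / (y * √y * √N) := ⟨_, rfl⟩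
  have hQ0 : 0 < Q := by rw [hQ]; positivity
  have hGQ : G * y = Q := by
    rw [hG, hQ]
    unfold D3
    field_simp
  have hq' : Q / 1147 ≤ (L : ℝ) / 60 * (1 / (19.1 * (L * √(L : ℝ)) * (y * √y))) := by
    have e1 : (L : ℝ) / 60 * (1 / (19.1 * (L * √(L : ℝ)) * (y * √y))) =
        1 / (1146 * (y * √y * √(L : ℝ))) := by
      field_simp
      norm_num
    rw [e1, hQ, div_div]
    apply one_div_le_one_div_of_le (by positivity)
    have h4 : y * √y * √(L : ℝ) ≤ y * √y * √N := mul_le_mul_of_nonneg_left hlR (by positivity)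
    nlinarith
  have hmain : 1 / 200000 * (L * G) * E - 1 / 200000 * 126 * Q ≤ ∑ j ∈ range (m + 1), p j := by
    rw [hp]
    have h4 : 1 / 200000 * (L * G) * (E * (1 - 3.845 / √y)) ≤
        1 / 200000 * (L * G) * ∑ j ∈ range u, tn j :=
      mul_le_mul_of_nonneg_left hsu (by positivity)
    refine le_trans ?_ h4
    have h5 : L / √y ≤ 12.02 * y := by
      rw [div_le_iff₀ hr]
      linarith
    have h6 : 1 / 200000 * (L * G) * (E * (1 - 3.845 / √y)) =
        1 / 200000 * (L * G) * E - 1 / 200000 * (3.845 * E) * (G * (L / √y)) := by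
      field_simp
    rw [h6]
    have h7 : G * (L / √y) ≤ 12.02 * Q := by
      rw [← hGQ]
      calc G * (L / √y) ≤ G * (12.02 * y) := mul_le_mul_of_nonneg_left h5 hG0.le
        _ = _ := by ring
    have h8 : 1 / 200000 * (3.845 * E) * (G * (L / √y)) ≤ 1 / 200000 * (3.845 * 2.7183) * (12.02 * Q) := by
      apply mul_le_mul _ h7 (by positivity) (by positivity)
      linarith
    have h9 : 1 / 200000 * (3.845 * 2.7183) * (12.02 * Q) ≤ 1 / 200000 * 126 * Q := by
      nlinarith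
    linarith
  have hfin : E * (N * (1 / 200000 * G)) ≤ E * (N * An L (L + m + 1)) := by
    rw [hrec]
    have i1 : E * (N * (1 / 200000 * G)) = 1 / 200000 * (L * G) * E + 1 / 200000 * E * Q := by
      rw [← hGQ, hN]
      ring
    rw [i1]
    have i2 : 1 / 200000 * E * Q ≤ 1 / 200000 * 2.7183 * Q := by
      apply mul_le_mul_of_nonneg_right _ hQ0.le
      linarith
    have i3 : 1 / 200000 * 126 * Q + 1 / 200000 * 2.7183 * Q ≤ Q / 1147 := by
      nlinarith
    linarith
  have := le_of_mul_le_mul_left hfin (by linarith)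
  exact le_of_mul_le_mul_left this hN0

/-- lower bound below the end regime -/
theorem A_ge (L w : ℕ) (hL : 36000000 ≤ L) (hw : 10000 ≤ w)
    (hw1 : ((2 * w : ℕ) : ℝ) * √((2 * w : ℕ) : ℝ) ≤ L / 12)
    (hw2 : (L : ℝ) / 12 < ((2 * w + 2 : ℕ) : ℝ) * √((2 * w + 2 : ℕ) : ℝ)) :
    ∀ y : ℕ, w ≤ y → y ≤ L → 1 / 200000 * (1 / D3 y ((L : ℝ) + y)) ≤ An L (L + y) := by
  intro y
  induction y using Nat.strong_induction_on with
  | _ y ih =>
    intro hwy hyL
    by_cases hc : y ≤ 2 * w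
    · have hLr : (36000000 : ℝ) ≤ L := by exact_mod_cast hL
      have hL0 : (0 : ℝ) < L := by linarith
      have hl : 0 < √(L : ℝ) := Real.sqrt_pos.mpr hL0
      have hs : (y : ℝ) * √(y : ℝ) ≤ L / 12 := by
        refine le_trans (mul_sqrt_mono (Nat.cast_nonneg _) ?_) hw1
        exact_mod_cast hc
      have h4 := A_ge_small' L y (by omega) (by omega) hs
      refine le_trans ?_ h4
      have hwr : (10000 : ℝ) ≤ w := by exact_mod_cast hw
      have hyr : (w : ℝ) ≤ y := by exact_mod_cast hwy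
      have hy0 : (0 : ℝ) < y := by linarith
      have hr : 0 < √(y : ℝ) := Real.sqrt_pos.mpr hy0
      have hrr : √(y : ℝ) * √(y : ℝ) = y := Real.mul_self_sqrt hy0.le
      have hR : 0 < √((L : ℝ) + y) := Real.sqrt_pos.mpr (by linarith)
      have hlR : √(L : ℝ) ≤ √((L : ℝ) + y) := Real.sqrt_le_sqrt (by linarith)
      have h5 : ((2 * w + 2 : ℕ) : ℝ) ≤ 2.0002 * y := by push_cast; linarith
      have h6 := mul_sqrt_mono (Nat.cast_nonneg _) h5
      have h7 : √(2.0002 * (y : ℝ)) ≤ 1.4143 * √(y : ℝ) := by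
        apply Real.sqrt_le_iff.mpr
        constructor
        · positivity
        · rw [mul_pow, Real.sq_sqrt hy0.le]
          nlinarith
      have h8 : 2.0002 * (y : ℝ) * √(2.0002 * (y : ℝ)) ≤ 2.0002 * (y : ℝ) * (1.4143 * √(y : ℝ)) :=
        mul_le_mul_of_nonneg_left h7 (by positivity)
      have h9 : (L : ℝ) ≤ 34 * (y * √(y : ℝ)) := by
        have : 0 < (y : ℝ) * √(y : ℝ) := by positivity
        nlinarith
      have h10 : (L : ℝ) * L ≤ 1156 * (y * y * y) := by
        calc (L : ℝ) * L ≤ (34 * (y * √(y : ℝ))) * (34 * (y * √(y : ℝ))) :=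
              mul_le_mul h9 h9 hL0.le (by positivity)
          _ = 1156 * (y * y * (√(y : ℝ) * √(y : ℝ))) := by ring
          _ = _ := by rw [hrr]
      unfold D3
      rw [mul_one_div, div_le_div_iff₀ (by positivity) (by positivity)]
      have h11 : (L : ℝ) * L * √(L : ℝ) ≤ 1156 * (y * y * y) * √((L : ℝ) + y) :=
        mul_le_mul h10 hlR hl.le (by positivity)
      have h12 : √(y : ℝ) * (y * y * √(y : ℝ) * √((L : ℝ) + y)) = (y * y * y) * √((L : ℝ) + y) := by
        calc √(y : ℝ) * (y * y * √(y : ℝ) * √((L : ℝ) + y)) =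
            y * y * (√(y : ℝ) * √(y : ℝ)) * √((L : ℝ) + y) := by ring
          _ = _ := by rw [hrr]
      rw [h12]
      have h13 : 0 < ((y : ℝ) * y * y) * √((L : ℝ) + y) := by positivity
      nlinarith
    · obtain ⟨m, rfl⟩ : ∃ m, y = m + 1 := ⟨y - 1, by omega⟩
      have h := A_ge_step L w m hL hw hw1 hw2 (by omega) hyL
        (fun z h1 h2 => ih z (by omega) h1 (by omega))
      have e : L + (m + 1) = L + m + 1 := by ring
      rw [e]
      push_cast
      exact h

end Pool.Agent.MP_9da1e3_co
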