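import Pool.Agent.Lib.MP_9da1e3_co.Count

namespace Pool.Agent.MP_9da1e3_co

open Finset

noncomputable def f (L n : ℕ) : ℝ := (Fr L n : ℝ) / (n.factorial : ℝ)

lemma f_zero (L : ℕ) : f L 0 = 1 := by simp [f, Fr_zero]

lemma f_nonneg (L n : ℕ) : 0 ≤ f L n := by unfold f; positivity

lemma f_rec (L n : ℕ) : ((n : ℝ) + 1) * f L (n + 1)
    = ∑ k ∈ range (n + 1), ((min L (k + 1) : ℕ) : ℝ) * (f L k * f L (n - k)) := by
  unfold f
  rw [Fr_succ, Nat.factorial_succ]
  have hn : (n.factorial : ℝ) ≠ 0 := by positivity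
  have hn1 : ((n : ℝ) + 1) ≠ 0 := by positivity
  push_cast
  rw [← mul_div_assoc, mul_div_mul_left _ _ hn1, Finset.sum_div]
  apply Finset.sum_congr rfl
  intro k hk
  have hkn : k ≤ n := by have := mem_range.mp hk; omega
  rw [Nat.cast_choose ℝ hkn]
  have h1 : (k.factorial : ℝ) ≠ 0 := by positivity
  have h2 : ((n - k).factorial : ℝ) ≠ 0 := by positivity
  field_simp

/-- the exponent -/
noncomputable def ee (L : ℕ) (m : ℕ) : ℝ := max 0 (((m : ℝ) - 2 * L + 1) / (2 * (L + 1)))

lemma ee_nonneg (L m : ℕ) : 0 ≤ ee L m := le_max_left _ _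

lemma ee_ge (L m : ℕ) : ((m : ℝ) - 2 * L + 1) / (2 * (L + 1)) ≤ ee L m := le_max_right _ _

noncomputable def ii (L k : ℕ) : ℝ := if L ≤ k then 1 else 0

lemma bracket (L : ℕ) (hL : 1 ≤ L) (k j : ℕ) :
    0 ≤ ((min L (k + 1) : ℕ) : ℝ) * (ii L k + (ee L k + ee L j - ee L (k + j + 1)))
      + ((min L (j + 1) : ℕ) : ℝ) * (ii L j + (ee L k + ee L j - ee L (k + j + 1))) := by
  have hLr : (1 : ℝ) ≤ L := by exact_mod_cast hL
  have hi : ∀ m, 0 ≤ ii L m := by
    intro m
    unfold ii
    split_ifs <;> norm_num
  by_cases hE : k + j + 2 ≤ 2 * L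
  · have h0 : ee L (k + j + 1) = 0 := by
      unfold ee
      apply max_eq_left
      apply div_nonpos_of_nonpos_of_nonneg _ (by positivity)
      have : ((k + j + 2 : ℕ) : ℝ) ≤ ((2 * L : ℕ) : ℝ) := by exact_mod_cast hE
      push_cast at this ⊢
      linarith
    rw [h0]
    have h1 := ee_nonneg L k
    have h2 := ee_nonneg L j
    have h3 := hi k
    have h4 := hi j
    have : 0 ≤ ii L k + (ee L k + ee L j - 0) := by linarith
    have : 0 ≤ ii L j + (ee L k + ee L j - 0) := by linarith
    positivity
  · have hE' : 2 * L ≤ k + j + 1 := by omega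
    have h0 : ee L (k + j + 1) = ((k : ℝ) + j + 2 - 2 * L) / (2 * (L + 1)) := by
      unfold ee
      rw [max_eq_right]
      · push_cast
        ring
      · apply div_nonneg _ (by positivity)
        have : ((2 * L : ℕ) : ℝ) ≤ ((k + j + 1 : ℕ) : ℝ) := by exact_mod_cast hE'
        push_cast at this ⊢
        linarith
    have hden : (0 : ℝ) < 2 * (L + 1) := by positivity
    have g1 := ee_nonneg L k
    have g2 := ee_nonneg L j
    have g3 := ee_ge L k
    have g4 := ee_ge L j
    rw [div_le_iff₀ hden] at g3 g4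
    have h0' : ee L (k + j + 1) * (2 * (L + 1)) = (k : ℝ) + j + 2 - 2 * L := by
      rw [h0]
      field_simp
    obtain ⟨s, hs⟩ : ∃ s, s = ee L k + ee L j - ee L (k + j + 1) := ⟨_, rfl⟩
    rw [← hs]
    have hs' : s * (2 * (L + 1)) = ee L k * (2 * (L + 1)) + ee L j * (2 * (L + 1))
        - ((k : ℝ) + j + 2 - 2 * L) := by
      rw [hs, ← h0']
      ring
    by_cases hk : L ≤ k
    · by_cases hj : L ≤ j
      · have hik : ii L k = 1 := by unfold ii; rw [if_pos hk]
        have hij : ii L j = 1 := by unfold ii; rw [if_pos hj]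
        have hs1 : 0 ≤ 1 + s := by
          have : 0 ≤ (1 + s) * (2 * (L + 1)) := by
            have hkr : (L : ℝ) ≤ k := by exact_mod_cast hk
            have hjr : (L : ℝ) ≤ j := by exact_mod_cast hj
            rcases le_or_gt (k : ℝ) (2 * L - 1) with h | h
            · nlinarith [mul_nonneg g1 hden.le]
            · nlinarith [mul_nonneg g1 hden.le]
          exact nonneg_of_mul_nonneg_left this hden
        rw [hik, hij]
        positivity
      · have hik : ii L k = 1 := by unfold ii; rw [if_pos hk]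
        have hij : ii L j = 0 := by unfold ii; rw [if_neg hj]
        have hmk : min L (k + 1) = L := by omega
        have hmj : min L (j + 1) = j + 1 := by omega
        rw [hik, hij, hmk, hmj]
        have hjr : ((j : ℝ) + 1) ≤ L := by exact_mod_cast (by omega : j + 1 ≤ L)
        have hs2 : -((j : ℝ) + 1) ≤ s * (2 * (L + 1)) := by
          nlinarith [mul_nonneg g2 hden.le]
        have hs3 : -((j : ℝ) + 1) / (2 * (L + 1)) ≤ s := by
          rw [div_le_iff₀ hden]
          exact hs2
        push_cast
        have hj0 : (0 : ℝ) ≤ j := Nat.cast_nonneg j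
        have key : (L + ((j : ℝ) + 1)) * (-((j : ℝ) + 1) / (2 * (L + 1))) + L ≥ 0 := by
          rw [mul_div_assoc', ge_iff_le, ← sub_nonneg]
          have : (L + ((j : ℝ) + 1)) * -((j : ℝ) + 1) / (2 * (L + 1)) + L - 0
              = (2 * L * (L + 1) - (L + (j + 1)) * (j + 1)) / (2 * (L + 1)) := by
            field_simp
            ring
          rw [this]
          apply div_nonneg _ hden.le
          nlinarith
        nlinarith [mul_le_mul_of_nonneg_left hs3 (by positivity : (0 : ℝ) ≤ L + ((j : ℝ) + 1))]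
    · have hjL : L ≤ j := by omega
      have hik : ii L k = 0 := by unfold ii; rw [if_neg hk]
      have hij : ii L j = 1 := by unfold ii; rw [if_pos hjL]
      have hmk : min L (k + 1) = k + 1 := by omega
      have hmj : min L (j + 1) = L := by omega
      rw [hik, hij, hmk, hmj]
      have hkr : ((k : ℝ) + 1) ≤ L := by exact_mod_cast (by omega : k + 1 ≤ L)
      have hs2 : -((k : ℝ) + 1) ≤ s * (2 * (L + 1)) := by
        nlinarith [mul_nonneg g1 hden.le]
      have hs3 : -((k : ℝ) + 1) / (2 * (L + 1)) ≤ s := by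
        rw [div_le_iff₀ hden]
        exact hs2
      push_cast
      have hk0 : (0 : ℝ) ≤ k := Nat.cast_nonneg k
      have key : (L + ((k : ℝ) + 1)) * (-((k : ℝ) + 1) / (2 * (L + 1))) + L ≥ 0 := by
        rw [mul_div_assoc', ge_iff_le, ← sub_nonneg]
        have : (L + ((k : ℝ) + 1)) * -((k : ℝ) + 1) / (2 * (L + 1)) + L - 0
            = (2 * L * (L + 1) - (L + (k + 1)) * (k + 1)) / (2 * (L + 1)) := by
          field_simp
          ring
        rw [this]
        apply div_nonneg _ hden.le
        nlinarith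
      nlinarith [mul_le_mul_of_nonneg_left hs3 (by positivity : (0 : ℝ) ≤ L + ((k : ℝ) + 1))]

lemma tangent {c : ℝ} (hc : 0 < c) (x e : ℝ) : c ^ e * (1 + (x - e) * Real.log c) ≤ c ^ x := by
  have h1 : c ^ x = c ^ e * c ^ (x - e) := by
    rw [← Real.rpow_add hc]
    congr 1
    ring
  rw [h1]
  apply mul_le_mul_of_nonneg_left _ (Real.rpow_nonneg hc.le _)
  rw [Real.rpow_def_of_pos hc]
  have := Real.add_one_le_exp (Real.log c * (x - e))
  linarith

lemma ratio (L : ℕ) (hL : 1 ≤ L) : ∀ n, (1 + 1 / (L : ℝ)) ^ ee L n * f L n ≤ f (L + 1) n := by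
  have hLr : (1 : ℝ) ≤ L := by exact_mod_cast hL
  have hL0 : (0 : ℝ) < L := by linarith
  obtain ⟨c, hcdef⟩ : ∃ c : ℝ, c = 1 + 1 / (L : ℝ) := ⟨_, rfl⟩
  rw [← hcdef]
  have hc1 : 1 < c := by rw [hcdef]; have : 0 < 1 / (L : ℝ) := by positivity
                         linarith
  have hc0 : 0 < c := by linarith
  have hlog : 0 ≤ Real.log c := Real.log_nonneg hc1.le
  intro n
  induction n using Nat.strong_induction_on with
  | _ n ih =>
    rcases Nat.eq_zero_or_pos n with rfl | hn
    · rw [f_zero, f_zero]
      have : ee L 0 = 0 := by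
        unfold ee
        apply max_eq_left
        apply div_nonpos_of_nonpos_of_nonneg _ (by positivity)
        push_cast
        linarith
      rw [this]
      simp
    · obtain ⟨m, rfl⟩ : ∃ m, n = m + 1 := ⟨n - 1, by omega⟩
      have hm : (0 : ℝ) < (m : ℝ) + 1 := by positivity
      refine le_of_mul_le_mul_left ?_ hm
      rw [f_rec (L + 1) m]
      have step : ∀ k ∈ range (m + 1),
          c ^ ee L (m + 1) * (((min L (k + 1) : ℕ) : ℝ) * (f L k * f L (m - k)))
            + (c ^ ee L (m + 1) * Real.log c) * (((min L (k + 1) : ℕ) : ℝ) * (f L k * f L (m - k)) *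
              (ii L k + (ee L k + ee L (m - k) - ee L (m + 1))))
          ≤ ((min (L + 1) (k + 1) : ℕ) : ℝ) * (f (L + 1) k * f (L + 1) (m - k)) := by
        intro k hk
        have hkm : k ≤ m := by have := mem_range.mp hk; omega
        have i1 := ih k (by omega)
        have i2 := ih (m - k) (by omega)
        have n1 := f_nonneg L k
        have n2 := f_nonneg L (m - k)
        have p1 : 0 ≤ c ^ ee L k * f L k := mul_nonneg (Real.rpow_nonneg hc0.le _) n1
        have p2 : 0 ≤ c ^ ee L (m - k) * f L (m - k) := mul_nonneg (Real.rpow_nonneg hc0.le _) n2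
        have hprod := mul_le_mul i1 i2 p2 (le_trans p1 i1)
        have hw : ((min (L + 1) (k + 1) : ℕ) : ℝ) = ((min L (k + 1) : ℕ) : ℝ) * c ^ ii L k := by
          unfold ii
          split_ifs with h
          · have a1 : min (L + 1) (k + 1) = L + 1 := by omega
            have a2 : min L (k + 1) = L := by omega
            rw [a1, a2, Real.rpow_one, hcdef]
            push_cast
            field_simp
          · have a1 : min (L + 1) (k + 1) = k + 1 := by omega
            have a2 : min L (k + 1) = k + 1 := by omega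
            rw [a1, a2, Real.rpow_zero, mul_one]
        have hwn : (0 : ℝ) ≤ ((min L (k + 1) : ℕ) : ℝ) := Nat.cast_nonneg _
        have ht := tangent hc0 (ii L k + (ee L k + ee L (m - k))) (ee L (m + 1))
        have hpow : c ^ (ii L k + (ee L k + ee L (m - k)))
            = c ^ ii L k * (c ^ ee L k * c ^ ee L (m - k)) := by
          rw [Real.rpow_add hc0, Real.rpow_add hc0]
        calc c ^ ee L (m + 1) * (((min L (k + 1) : ℕ) : ℝ) * (f L k * f L (m - k)))
            + (c ^ ee L (m + 1) * Real.log c) * (((min L (k + 1) : ℕ) : ℝ) * (f L k * f L (m - k)) *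
              (ii L k + (ee L k + ee L (m - k) - ee L (m + 1))))
            = (((min L (k + 1) : ℕ) : ℝ) * (f L k * f L (m - k))) * (c ^ ee L (m + 1) *
              (1 + (ii L k + (ee L k + ee L (m - k)) - ee L (m + 1)) * Real.log c)) := by ring
          _ ≤ (((min L (k + 1) : ℕ) : ℝ) * (f L k * f L (m - k))) *
              c ^ (ii L k + (ee L k + ee L (m - k))) :=
              mul_le_mul_of_nonneg_left ht (mul_nonneg hwn (mul_nonneg n1 n2))
          _ = ((min (L + 1) (k + 1) : ℕ) : ℝ) *
              ((c ^ ee L k * f L k) * (c ^ ee L (m - k) * f L (m - k))) := by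
              rw [hpow, hw]
              ring
          _ ≤ _ := mul_le_mul_of_nonneg_left hprod (Nat.cast_nonneg _)
      refine le_trans ?_ (Finset.sum_le_sum step)
      rw [Finset.sum_add_distrib, ← Finset.mul_sum, ← Finset.mul_sum, ← f_rec]
      have hS : 0 ≤ ∑ k ∈ range (m + 1), ((min L (k + 1) : ℕ) : ℝ) * (f L k * f L (m - k)) *
              (ii L k + (ee L k + ee L (m - k) - ee L (m + 1))) := by
        have hr := Finset.sum_range_reflect (fun k => ((min L (k + 1) : ℕ) : ℝ) *
          (f L k * f L (m - k)) * (ii L k + (ee L k + ee L (m - k) - ee L (m + 1)))) (m + 1)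
        have h2 : 0 ≤ 2 * ∑ k ∈ range (m + 1), ((min L (k + 1) : ℕ) : ℝ) *
            (f L k * f L (m - k)) * (ii L k + (ee L k + ee L (m - k) - ee L (m + 1))) := by
          rw [two_mul]
          nth_rw 1 [← hr]
          rw [← Finset.sum_add_distrib]
          apply Finset.sum_nonneg
          intro k hk
          have hkm : k ≤ m := by have := mem_range.mp hk; omega
          have a1 : m + 1 - 1 - k = m - k := by omega
          have a2 : m - (m - k) = k := by omega
          simp only [a1, a2]
          have hb := bracket L hL k (m - k)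
          have a3 : k + (m - k) + 1 = m + 1 := by omega
          rw [a3] at hb
          have := mul_nonneg (mul_nonneg (f_nonneg L k) (f_nonneg L (m - k))) hb
          refine le_trans this (le_of_eq ?_)
          ring
        linarith
      have hq : 0 ≤ c ^ ee L (m + 1) * Real.log c := mul_nonneg (Real.rpow_nonneg hc0.le _) hlog
      have := mul_nonneg hq hS
      have e1 : ((m : ℝ) + 1) * (c ^ ee L (m + 1) * f L (m + 1))
          = c ^ ee L (m + 1) * (((m : ℝ) + 1) * f L (m + 1)) := by ring
      rw [e1]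
      linarith

lemma double (L n : ℕ) (hL : 1 ≤ L) (hn : 2 * (L + 1) ^ 2 ≤ n) : 2 * Fr L n ≤ Fr (L + 1) n := by
  have hLr : (1 : ℝ) ≤ L := by exact_mod_cast hL
  have hL0 : (0 : ℝ) < L := by linarith
  have h := ratio L hL n
  have he : (L : ℝ) ≤ ee L n := by
    refine le_trans ?_ (ee_ge L n)
    rw [le_div_iff₀ (by positivity)]
    have : ((2 * (L + 1) ^ 2 : ℕ) : ℝ) ≤ (n : ℝ) := by exact_mod_cast hn
    push_cast at this
    nlinarith
  have h2 : (2 : ℝ) ≤ (1 + 1 / (L : ℝ)) ^ ee L n := by
    have hc : (1 : ℝ) ≤ 1 + 1 / (L : ℝ) := by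
      have : 0 < 1 / (L : ℝ) := by positivity
      linarith
    refine le_trans ?_ (Real.rpow_le_rpow_of_exponent_le hc he)
    rw [Real.rpow_natCast]
    have := one_add_mul_le_pow (a := 1 / (L : ℝ)) (by have : 0 < 1 / (L : ℝ) := by positivity
                                                      linarith) L
    have e : 1 + (L : ℝ) * (1 / (L : ℝ)) = 2 := by
      rw [mul_one_div_cancel hL0.ne']
      norm_num
    linarith
  have h3 : 2 * f L n ≤ f (L + 1) n :=
    le_trans (mul_le_mul_of_nonneg_right h2 (f_nonneg L n)) h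
  unfold f at h3
  have hn0 : (0 : ℝ) < (n.factorial : ℝ) := by positivity
  rw [← mul_div_assoc, div_le_div_iff_of_pos_right hn0] at h3
  exact_mod_cast h3

end Pool.Agent.MP_9da1e3_co
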