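import Pool.Agent.Lib.MP_9da1e3_co.Big7
import Pool.Agent.Lib.MP_9da1e3_co.Left

namespace Pool.Agent.MP_9da1e3_co

open Finset

noncomputable def RR (n l : ℕ) : ℝ := An l n / tn n

lemma a_eq (n l : ℕ) (hn : 1 ≤ n) : (a n l : ℝ) = RR n l * ((n : ℝ) + 1) ^ (n - 1) := by
  have h := a_add hn l
  have hr : (Fr (l + 1) n : ℝ) = Fr l n + a n l := by exact_mod_cast h
  have hE := pow_pos E_pos n
  have hf : (0 : ℝ) < (n.factorial : ℝ) := by positivity
  have hp : (0 : ℝ) < ((n : ℝ) + 1) ^ (n - 1) := by positivity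
  unfold RR An Fn tn tt f
  rw [hr]
  field_simp
  ring

lemma RR_nonneg (n l : ℕ) : 0 ≤ RR n l := div_nonneg (An_nonneg _ _) (tn_pos n).le

lemma RR_le_one (n l : ℕ) : RR n l ≤ 1 := by
  unfold RR
  rw [div_le_one (tn_pos n)]
  have h1 := Fn_le_tn (l + 1) n
  have h2 := Fn_nonneg l n
  unfold An
  linarith

lemma RR_le (n l : ℕ) (X : ℝ) (h : An l n ≤ X) : RR n l ≤ X * (((n : ℝ) + 1) * sq n) := by
  have h1 := le_tn n
  have hs := sq_pos n
  have ht := tn_pos n
  have hX : 0 ≤ X := (An_nonneg l n).trans h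
  unfold RR
  rw [div_le_iff₀ ht]
  have h2 : 1 ≤ ((n : ℝ) + 1) * sq n * tn n := by
    rw [div_le_iff₀ (by positivity)] at h1
    linarith
  calc An l n ≤ X := h
    _ = X * 1 := by ring
    _ ≤ X * (((n : ℝ) + 1) * sq n * tn n) := mul_le_mul_of_nonneg_left h2 hX
    _ = _ := by ring

lemma le_RR (n l : ℕ) (X : ℝ) (hX : 0 ≤ X) (h : X ≤ An l n) :
    X * (((n : ℝ) + 1) * sq n) / 1.1 ≤ RR n l := by
  have h1 := tn_le n
  have hs := sq_pos n
  have ht := tn_pos n
  unfold RR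
  rw [le_div_iff₀ ht]
  have h2 : ((n : ℝ) + 1) * sq n * tn n ≤ 1.1 := by
    rw [le_div_iff₀ (by positivity)] at h1
    linarith
  have h3 : X * (((n : ℝ) + 1) * sq n) / 1.1 * tn n = X * (((n : ℝ) + 1) * sq n * tn n) / 1.1 := by
    ring
  rw [h3, div_le_iff₀ (by norm_num)]
  calc X * (((n : ℝ) + 1) * sq n * tn n) ≤ X * 1.1 := mul_le_mul_of_nonneg_left h2 hX
    _ ≤ _ := mul_le_mul_of_nonneg_right h (by norm_num)

/-- the two candidates for the order of magnitude -/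
noncomputable def p1 (n l : ℕ) : ℝ := √((n : ℝ) - l) / n

noncomputable def p2 (n l : ℕ) : ℝ := n / (((n : ℝ) - l) ^ 2 * √((n : ℝ) - l))

lemma up_large (n l : ℕ) (hl : 36000000 ≤ l) (hn : l < n) : RR n l ≤ 120000000 * p2 n l := by
  have h := RR_le n l _ (A_le l hl n hn)
  refine h.trans ?_
  have hlr : (36000000 : ℝ) ≤ l := by exact_mod_cast hl
  have hnr : (l : ℝ) + 1 ≤ n := by exact_mod_cast hn
  obtain ⟨y, hy⟩ : ∃ y : ℝ, y = (n : ℝ) - l := ⟨_, rfl⟩
  have hy0 : 0 < y := by rw [hy]; linarith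
  have hn0 : (0 : ℝ) < n := by linarith
  have hr : 0 < √y := Real.sqrt_pos.mpr hy0
  have hR : 0 < √(n : ℝ) := Real.sqrt_pos.mpr hn0
  unfold p2 D3
  rw [← hy]
  have h1 : sq n ≤ 1.42 * √(n : ℝ) := by
    unfold sq
    apply Real.sqrt_le_iff.mpr
    constructor
    · positivity
    · rw [mul_pow, Real.sq_sqrt hn0.le]
      linarith
  have h2 : (n : ℝ) + 1 ≤ 2 * n := by linarith
  have hs := sq_pos n
  have h3 : ((n : ℝ) + 1) * sq n ≤ 2 * n * (1.42 * √(n : ℝ)) := mul_le_mul h2 h1 hs.le (by positivity)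
  calc 40000000 * (1 / (y * y * √y * √(n : ℝ))) * (((n : ℝ) + 1) * sq n)
      ≤ 40000000 * (1 / (y * y * √y * √(n : ℝ))) * (2 * n * (1.42 * √(n : ℝ))) :=
        mul_le_mul_of_nonneg_left h3 (by positivity)
    _ = 113600000 * (n / (y ^ 2 * √y)) := by
        field_simp
        norm_num
    _ ≤ 120000000 * (n / (y ^ 2 * √y)) := mul_le_mul_of_nonneg_right (by norm_num) (by positivity)

lemma p2_pos (n l : ℕ) (hn : l < n) : 0 < p2 n l := by
  have hnr : (l : ℝ) + 1 ≤ n := by exact_mod_cast hn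
  have hl0 : (0 : ℝ) ≤ l := Nat.cast_nonneg l
  have hy0 : 0 < (n : ℝ) - l := by linarith
  have hr : 0 < √((n : ℝ) - l) := Real.sqrt_pos.mpr hy0
  have hn0 : (0 : ℝ) < n := by linarith
  unfold p2
  positivity

lemma p1_pos (n l : ℕ) (hn : l < n) : 0 < p1 n l := by
  have hnr : (l : ℝ) + 1 ≤ n := by exact_mod_cast hn
  have hl0 : (0 : ℝ) ≤ l := Nat.cast_nonneg l
  have hy0 : 0 < (n : ℝ) - l := by linarith
  have hr : 0 < √((n : ℝ) - l) := Real.sqrt_pos.mpr hy0
  have hn0 : (0 : ℝ) < n := by linarith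
  unfold p1
  positivity

lemma p1_le_one (n l : ℕ) (hn : l < n) : p1 n l ≤ 1 := by
  have hnr : (l : ℝ) + 1 ≤ n := by exact_mod_cast hn
  have hl0 : (0 : ℝ) ≤ l := Nat.cast_nonneg l
  have hn0 : (1 : ℝ) ≤ n := by linarith
  unfold p1
  rw [div_le_one (by linarith)]
  apply Real.sqrt_le_iff.mpr
  constructor
  · linarith
  · nlinarith

lemma p2_ge (n l : ℕ) (hn : l < n) : 1 ≤ p2 n l * (n : ℝ) ^ 2 := by
  have hnr : (l : ℝ) + 1 ≤ n := by exact_mod_cast hn
  have hl0 : (0 : ℝ) ≤ l := Nat.cast_nonneg l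
  obtain ⟨y, hy⟩ : ∃ y : ℝ, y = (n : ℝ) - l := ⟨_, rfl⟩
  have hy0 : 0 < y := by rw [hy]; linarith
  have hyn : y ≤ n := by rw [hy]; linarith
  have hn1 : (1 : ℝ) ≤ n := by linarith
  have hr : 0 < √y := Real.sqrt_pos.mpr hy0
  unfold p2
  rw [← hy, div_mul_eq_mul_div, le_div_iff₀ (by positivity), one_mul]
  have h1 : √y ≤ n := by
    apply Real.sqrt_le_iff.mpr
    constructor
    · linarith
    · nlinarith
  have h2 : y ^ 2 ≤ (n : ℝ) ^ 2 := pow_le_pow_left₀ hy0.le hyn 2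
  calc y ^ 2 * √y ≤ (n : ℝ) ^ 2 * n := mul_le_mul h2 h1 hr.le (by positivity)
    _ = n * (n : ℝ) ^ 2 := by ring

lemma a_mono_left (n l : ℕ) (h : 2 * (l + 2) ^ 2 ≤ n) : a n l ≤ a n (l + 1) := by
  have hn : 1 ≤ n := by
    have : 0 < 2 * (l + 2) ^ 2 := by positivity
    omega
  have h1 : 2 * Fr (l + 1) n ≤ Fr (l + 2) n := double (l + 1) n (by omega) h
  have h2 := a_add hn l
  have h3 : Fr (l + 2) n = Fr (l + 1) n + a n (l + 1) := a_add hn (l + 1)
  omega

lemma a_mono_to (n l K : ℕ) (hlK : l ≤ K) (h : 2 * (K + 2) ^ 2 ≤ n) : a n l ≤ a n K := by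
  induction K, hlK using Nat.le_induction with
  | base => exact le_rfl
  | succ K hK ih =>
    have h1 : 2 * (K + 2) ^ 2 ≤ n := by
      refine le_trans ?_ h
      apply Nat.mul_le_mul_left
      exact Nat.pow_le_pow_left (by omega) 2
    exact (ih h1).trans (a_mono_left n K h1)

lemma RR_mono_of_a (n l k : ℕ) (hn : 1 ≤ n) (h : a n l ≤ a n k) : RR n l ≤ RR n k := by
  have h1 : (a n l : ℝ) ≤ a n k := by exact_mod_cast h
  rw [a_eq n l hn, a_eq n k hn] at h1
  exact le_of_mul_le_mul_right h1 (by positivity)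

lemma up_all : ∃ C : ℝ, 1 ≤ C ∧ ∀ n l : ℕ, l < n → RR n l ≤ C * p2 n l := by
  obtain ⟨K, hK⟩ : ∃ K : ℕ, K = 36000000 := ⟨_, rfl⟩
  obtain ⟨M, hM⟩ : ∃ M : ℕ, M = 2 * (K + 2) ^ 2 := ⟨_, rfl⟩
  have hM2 : 2 * K ≤ M := by rw [hM]; nlinarith
  have hM0 : (0 : ℝ) ≤ (M : ℝ) ^ 2 := by positivity
  refine ⟨(M : ℝ) ^ 2 + 720000000, by linarith, ?_⟩
  intro n l hn
  have hp := p2_pos n l hn
  by_cases hl : K ≤ l
  · have h := up_large n l (by omega) hn
    nlinarith [mul_nonneg hM0 hp.le]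
  · push Not at hl
    by_cases hnM : n < M
    · have h1 := RR_le_one n l
      have h2 := p2_ge n l hn
      have h3 : (n : ℝ) ^ 2 ≤ (M : ℝ) ^ 2 := by
        apply pow_le_pow_left₀ (Nat.cast_nonneg n)
        exact_mod_cast hnM.le
      have h4 : p2 n l * (n : ℝ) ^ 2 ≤ p2 n l * (M : ℝ) ^ 2 := mul_le_mul_of_nonneg_left h3 hp.le
      nlinarith
    · push Not at hnM
      have hKn : K < n := by omega
      have h1 := a_mono_to n l K hl.le (by omega)
      have h2 := RR_mono_of_a n l K (by omega) h1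
      have h3 := up_large n K (by omega) hKn
      have h4 : p2 n K ≤ 5.68 * p2 n l := by
        have hlr : (0 : ℝ) ≤ l := Nat.cast_nonneg l
        have hnr : (l : ℝ) + 1 ≤ n := by exact_mod_cast hn
        have hn2 : 2 * (K : ℝ) ≤ n := by exact_mod_cast (by omega : 2 * K ≤ n)
        obtain ⟨y, hy⟩ : ∃ y : ℝ, y = (n : ℝ) - l := ⟨_, rfl⟩
        obtain ⟨z, hz⟩ : ∃ z : ℝ, z = (n : ℝ) - K := ⟨_, rfl⟩
        have hy0 : 0 < y := by rw [hy]; linarith
        have hyz : y / 2 ≤ z := by rw [hy, hz]; linarith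
        have hz0 : 0 < z := by linarith
        have hn0 : (0 : ℝ) < n := by linarith
        have hr : 0 < √y := Real.sqrt_pos.mpr hy0
        have hrz : 0 < √z := Real.sqrt_pos.mpr hz0
        unfold p2
        rw [← hy, ← hz, mul_div_assoc', div_le_div_iff₀ (by positivity) (by positivity)]
        have h5 : √y / 1.42 ≤ √z := by
          apply Real.le_sqrt_of_sq_le
          rw [div_pow, Real.sq_sqrt hy0.le, div_le_iff₀ (by norm_num)]
          linarith
        have h6 : (y / 2) ^ 2 ≤ z ^ 2 := pow_le_pow_left₀ (by positivity) hyz 2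
        have h7 : (y / 2) ^ 2 * (√y / 1.42) ≤ z ^ 2 * √z :=
          mul_le_mul h6 h5 (by positivity) (by positivity)
        have h8 : (y / 2) ^ 2 * (√y / 1.42) = y ^ 2 * √y / 5.68 := by ring
        rw [h8, div_le_iff₀ (by norm_num)] at h7
        nlinarith
      have : 0 ≤ (M : ℝ) ^ 2 * p2 n l := mul_nonneg hM0 hp.le
      nlinarith

lemma up_p1 (n l : ℕ) (hn : l < n) (h2 : n ≤ 2 * l) : RR n l ≤ 11 * p1 n l := by
  have h := RR_le n l _ (An_small l n hn h2)
  refine h.trans ?_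
  have hnr : (l : ℝ) + 1 ≤ n := by exact_mod_cast hn
  have hl0 : (0 : ℝ) ≤ l := Nat.cast_nonneg l
  have hn2 : (n : ℝ) ≤ 2 * l := by exact_mod_cast h2
  have hn0 : (0 : ℝ) < n := by linarith
  have hs := sq_pos n
  have hsl := sq_pos l
  have hr := Real.sqrt_nonneg ((n : ℝ) - l)
  have h1 : sq n ≤ 1.42 * sq l := by
    unfold sq
    apply Real.sqrt_le_iff.mpr
    constructor
    · positivity
    · rw [mul_pow, Real.sq_sqrt (by linarith)]
      linarith
  have h3 : (n : ℝ) + 1 ≤ 2 * (l + 1) := by linarith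
  unfold p1
  obtain ⟨s, hsd⟩ : ∃ s : ℝ, s = √((n : ℝ) - l) := ⟨_, rfl⟩
  rw [← hsd] at hr ⊢
  calc 1.8 * s / (((l : ℝ) + 1) ^ 2 * sq l) * (((n : ℝ) + 1) * sq n)
      ≤ 1.8 * s / (((l : ℝ) + 1) ^ 2 * sq l) * ((2 * (l + 1)) * (1.42 * sq l)) := by
        apply mul_le_mul_of_nonneg_left _ (by positivity)
        exact mul_le_mul h3 h1 hs.le (by positivity)
    _ = 5.112 * (s / ((l : ℝ) + 1)) := by
        field_simp
        norm_num
        ring
    _ ≤ 5.112 * (s / (n / 2)) := by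
        apply mul_le_mul_of_nonneg_left _ (by norm_num)
        apply div_le_div_of_nonneg_left hr (by positivity)
        linarith
    _ = 10.224 * (s / n) := by
        field_simp
        norm_num
        ring
    _ ≤ 11 * (s / n) := mul_le_mul_of_nonneg_right (by norm_num) (by positivity)

lemma Fn_pos (L : ℕ) (hL : 1 ≤ L) : ∀ n, 0 < Fn L n := by
  intro n
  have h0 : Fn L 0 = 1 := by rw [Fn_eq_tn L 0 (by omega), tn_zero]
  induction n with
  | zero => rw [h0]; norm_num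
  | succ n ih =>
    have hE := E_pos
    have hrec := Fn_rec L n
    have h1 : ((min L (n + 1) : ℕ) : ℝ) * (Fn L n * Fn L (n - n)) ≤
        ∑ k ∈ range (n + 1), ((min L (k + 1) : ℕ) : ℝ) * (Fn L k * Fn L (n - k)) :=
      Finset.single_le_sum (f := fun k => ((min L (k + 1) : ℕ) : ℝ) * (Fn L k * Fn L (n - k)))
        (fun k _ => mul_nonneg (Nat.cast_nonneg _) (mul_nonneg (Fn_nonneg _ _) (Fn_nonneg _ _)))
        (mem_range.mpr (by omega))
    rw [Nat.sub_self, h0, mul_one, ← hrec] at h1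
    have h2 : (0 : ℝ) < ((min L (n + 1) : ℕ) : ℝ) := by
      exact_mod_cast (by omega : 0 < min L (n + 1))
    have h3 : 0 < E * (((n : ℝ) + 1) * Fn L (n + 1)) := lt_of_lt_of_le (mul_pos h2 ih) h1
    have h4 : 0 < ((n : ℝ) + 1) * Fn L (n + 1) := (pos_iff_pos_of_mul_pos h3).mp hE
    exact (pos_iff_pos_of_mul_pos h4).mp (by positivity)

lemma An_pos (l n : ℕ) (hn : l < n) : 0 < An l n := by
  obtain ⟨m, rfl⟩ : ∃ m, n = m + 1 := ⟨n - 1, by omega⟩
  have hE := E_pos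
  have h0 : Fn (l + 1) 0 = 1 := by rw [Fn_eq_tn (l + 1) 0 (by omega), tn_zero]
  have hrec := An_rec l m
  have h2 := second_nonneg l m
  have h3 : 0 ≤ ∑ k ∈ range (m + 1), ((min l (k + 1) : ℕ) : ℝ) * (An l k * Fn (l + 1) (m - k)) :=
    Finset.sum_nonneg fun _ _ => mul_nonneg (Nat.cast_nonneg _) (mul_nonneg (An_nonneg _ _) (Fn_nonneg _ _))
  have h1 : (if l ≤ m then Fn (l + 1) m * Fn (l + 1) (m - m) else 0) ≤
      ∑ k ∈ range (m + 1), (if l ≤ k then Fn (l + 1) k * Fn (l + 1) (m - k) else 0) :=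
    Finset.single_le_sum (f := fun k => (if l ≤ k then Fn (l + 1) k * Fn (l + 1) (m - k) else 0))
      (fun k _ => by
        split_ifs
        · exact mul_nonneg (Fn_nonneg _ _) (Fn_nonneg _ _)
        · exact le_rfl)
      (mem_range.mpr (by omega))
  rw [if_pos (by omega), Nat.sub_self, h0, mul_one] at h1
  have h4 := Fn_pos (l + 1) (by omega) m
  have h5 : 0 < E * (((m : ℝ) + 1) * An l (m + 1)) := by rw [hrec]; linarith
  have h6 : 0 < ((m : ℝ) + 1) * An l (m + 1) := (pos_iff_pos_of_mul_pos h5).mp hE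
  exact (pos_iff_pos_of_mul_pos h6).mp (by positivity)

lemma RR_pos (n l : ℕ) (hn : l < n) : 0 < RR n l := div_pos (An_pos l n hn) (tn_pos n)

lemma exists_lower {ι : Type} (s : Finset ι) (g : ι → ℝ) (hg : ∀ x ∈ s, 0 < g x) :
    ∃ c : ℝ, 0 < c ∧ ∀ x ∈ s, c ≤ g x := by
  rcases s.eq_empty_or_nonempty with rfl | hne
  · exact ⟨1, by norm_num, by simp⟩
  · obtain ⟨x, hx, hmin⟩ := Finset.exists_min_image s g hne
    exact ⟨g x, hg x hx, hmin⟩

lemma low_fin (M : ℕ) : ∃ c : ℝ, 0 < c ∧ ∀ n l : ℕ, n < M → l < n → c ≤ RR n l := by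
  obtain ⟨c, hc, h⟩ := exists_lower (((range M) ×ˢ (range M)).filter (fun p => p.2 < p.1))
    (fun p => RR p.1 p.2) (fun p hp => RR_pos p.1 p.2 (mem_filter.mp hp).2)
  refine ⟨c, hc, fun n l hn hl => h (n, l) ?_⟩
  rw [mem_filter, mem_product, mem_range, mem_range]
  exact ⟨⟨hn, by simp only; omega⟩, hl⟩

lemma low_large (n l : ℕ) (hl : 36000000 ≤ l) (hn : l < n) (h2 : n ≤ 2 * l) :
    1 / 220000 * min (p1 n l) (p2 n l) ≤ RR n l := by
  obtain ⟨w, hw, hw1, hw2⟩ := exists_w l hl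
  obtain ⟨z, hz⟩ : ∃ z : ℕ, n = l + z := ⟨n - l, by omega⟩
  have hzr : (n : ℝ) - l = z := by rw [hz]; push_cast; ring
  have hlr : (36000000 : ℝ) ≤ l := by exact_mod_cast hl
  have hl0 : (0 : ℝ) < l := by linarith
  have hln : (l : ℝ) ≤ n := by exact_mod_cast hn.le
  have hn0 : (0 : ℝ) < n := by linarith
  have hz0 : (0 : ℝ) < z := by exact_mod_cast (by omega : 0 < z)
  have hrl : 0 < √(l : ℝ) := Real.sqrt_pos.mpr hl0
  have hrn : 0 < √(n : ℝ) := Real.sqrt_pos.mpr hn0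
  have hrz : 0 < √(z : ℝ) := Real.sqrt_pos.mpr hz0
  have hln' : √(l : ℝ) ≤ √(n : ℝ) := Real.sqrt_le_sqrt hln
  have hs : √(n : ℝ) ≤ sq n := by
    unfold sq
    apply Real.sqrt_le_sqrt
    linarith
  have hnn : (n : ℝ) * √(n : ℝ) ≤ ((n : ℝ) + 1) * sq n :=
    mul_le_mul (by linarith) hs hrn.le (by positivity)
  have hp1 := p1_pos n l hn
  have hp2 := p2_pos n l hn
  by_cases hc : z ≤ 2 * w
  · have hsm : (z : ℝ) * √(z : ℝ) ≤ l / 12 := by
      refine le_trans (mul_sqrt_mono (Nat.cast_nonneg _) ?_) hw1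
      exact_mod_cast hc
    have h4 := A_ge_small' l z (by omega) (by omega) hsm
    rw [← hz] at h4
    have h5 : √(z : ℝ) / (19.1 * (n * n * √(n : ℝ))) ≤ √(z : ℝ) / (19.1 * (l * l * √(l : ℝ))) := by
      apply div_le_div_of_nonneg_left hrz.le (by positivity)
      apply mul_le_mul_of_nonneg_left _ (by norm_num)
      apply mul_le_mul _ hln' hrl.le (by positivity)
      exact mul_le_mul hln hln hl0.le hn0.le
    have h6 := le_RR n l _ (by positivity) (h5.trans h4)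
    have h7 : √(z : ℝ) / (19.1 * (n * n * √(n : ℝ))) * ((n : ℝ) * √(n : ℝ)) / 1.1 ≤
        √(z : ℝ) / (19.1 * (n * n * √(n : ℝ))) * (((n : ℝ) + 1) * sq n) / 1.1 := by
      apply div_le_div_of_nonneg_right _ (by norm_num)
      exact mul_le_mul_of_nonneg_left hnn (by positivity)
    have h8 : √(z : ℝ) / (19.1 * (n * n * √(n : ℝ))) * ((n : ℝ) * √(n : ℝ)) / 1.1 =
        1 / 21.01 * p1 n l := by
      unfold p1
      rw [hzr]
      field_simp
      norm_num
    have h9 : min (p1 n l) (p2 n l) ≤ p1 n l := min_le_left _ _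
    have h10 : 1 / 220000 * min (p1 n l) (p2 n l) ≤ 1 / 220000 * p1 n l :=
      mul_le_mul_of_nonneg_left h9 (by norm_num)
    have h11 : 1 / 220000 * p1 n l ≤ 1 / 21.01 * p1 n l :=
      mul_le_mul_of_nonneg_right (by norm_num) hp1.le
    linarith
  · push Not at hc
    have h4 := A_ge l w hl hw hw1 hw2 z (by omega) (by omega)
    have hlz : (l : ℝ) + z = n := by rw [hz]; push_cast; ring
    rw [← hz, hlz] at h4
    have hD := D3_pos hz0 hn0
    have h6 := le_RR n l _ (by positivity) h4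
    have h7 : 1 / 200000 * (1 / D3 z n) * ((n : ℝ) * √(n : ℝ)) / 1.1 ≤
        1 / 200000 * (1 / D3 z n) * (((n : ℝ) + 1) * sq n) / 1.1 := by
      apply div_le_div_of_nonneg_right _ (by norm_num)
      exact mul_le_mul_of_nonneg_left hnn (by positivity)
    have h8 : 1 / 200000 * (1 / D3 z n) * ((n : ℝ) * √(n : ℝ)) / 1.1 = 1 / 220000 * p2 n l := by
      unfold p2 D3
      rw [hzr]
      field_simp
      norm_num
    have h9 : min (p1 n l) (p2 n l) ≤ p2 n l := min_le_right _ _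
    have h10 : 1 / 220000 * min (p1 n l) (p2 n l) ≤ 1 / 220000 * p2 n l :=
      mul_le_mul_of_nonneg_left h9 (by norm_num)
    linarith

lemma low_all : ∃ c : ℝ, 0 < c ∧ c ≤ 1 ∧ ∀ n l : ℕ, l < n → n ≤ 2 * l →
    c * min (p1 n l) (p2 n l) ≤ RR n l := by
  obtain ⟨c, hc, h⟩ := low_fin 72000000
  refine ⟨min c (1 / 220000), lt_min hc (by norm_num), (min_le_right _ _).trans (by norm_num), ?_⟩
  intro n l hn h2
  have hp1 := p1_pos n l hn
  have hp2 := p2_pos n l hn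
  have hm : 0 < min (p1 n l) (p2 n l) := lt_min hp1 hp2
  by_cases hl : 36000000 ≤ l
  · refine le_trans ?_ (low_large n l hl hn h2)
    exact mul_le_mul_of_nonneg_right (min_le_right _ _) hm.le
  · have h3 := h n l (by omega) hn
    have h4 := p1_le_one n l hn
    have h5 : min (p1 n l) (p2 n l) ≤ 1 := (min_le_left _ _).trans h4
    calc min c (1 / 220000) * min (p1 n l) (p2 n l) ≤ c * 1 :=
          mul_le_mul (min_le_left _ _) h5 hm.le hc.le
      _ = c := mul_one c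
      _ ≤ _ := h3

end Pool.Agent.MP_9da1e3_co
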