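import Pool.Agent.Lib.MP_9da1e3_co.Big8

namespace Pool.Agent.MP_9da1e3_co

open Finset

/-- the value of the sequence at a good index -/
lemma reference (n : ℕ) (hn : 27 ≤ n) : ∃ t : ℝ, 3 ≤ t ∧ t ^ 3 = n ∧ ∃ k : ℕ, k < n ∧ n ≤ 2 * k ∧
    0.7 / t ^ 2 ≤ min (p1 n k) (p2 n k) := by
  obtain ⟨t, ht⟩ : ∃ t : ℝ, t = (n : ℝ) ^ (1 / 3 : ℝ) := ⟨_, rfl⟩
  have hn0 : (0 : ℝ) ≤ n := Nat.cast_nonneg n
  have hnr : (27 : ℝ) ≤ n := by exact_mod_cast hn
  have ht3 : t ^ 3 = n := by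
    rw [ht, ← Real.rpow_natCast, ← Real.rpow_mul hn0]
    norm_num
  have ht0 : 0 ≤ t := by rw [ht]; positivity
  have ht1 : 3 ≤ t := by
    by_contra hc
    push Not at hc
    have : t ^ 3 < 3 ^ 3 := pow_lt_pow_left₀ hc ht0 (by norm_num)
    rw [ht3] at this
    norm_num at this
    have h27 : (27 : ℝ) ≤ n := hnr
    linarith
  refine ⟨t, ht1, ht3, ?_⟩
  obtain ⟨y, hy⟩ : ∃ y : ℕ, y = ⌈t ^ 2⌉₊ := ⟨_, rfl⟩
  have hy1 : t ^ 2 ≤ (y : ℝ) := by rw [hy]; exact Nat.le_ceil _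
  have hy2 : (y : ℝ) < t ^ 2 + 1 := by rw [hy]; exact Nat.ceil_lt_add_one (by positivity)
  have hy3 : (y : ℝ) ≤ 10 / 9 * t ^ 2 := by nlinarith
  have hy4 : 2 * (y : ℝ) ≤ n := by
    rw [← ht3]
    nlinarith [mul_nonneg (sq_nonneg t) (sub_nonneg.mpr ht1)]
  have hyn : 2 * y ≤ n := by exact_mod_cast hy4
  have hy0 : 0 < y := by
    have : (0 : ℝ) < y := by nlinarith
    exact_mod_cast this
  refine ⟨n - y, by omega, by omega, ?_⟩
  have e : (n : ℝ) - ((n - y : ℕ) : ℝ) = y := by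
    rw [Nat.cast_sub (by omega)]
    ring
  have hyr : (0 : ℝ) < y := by exact_mod_cast hy0
  have hs0 : 0 < √(y : ℝ) := Real.sqrt_pos.mpr hyr
  have htp : 0 < t := by linarith
  have hs1 : t ≤ √(y : ℝ) := Real.le_sqrt_of_sq_le hy1
  have hs2 : √(y : ℝ) ≤ 1.06 * t := by
    apply Real.sqrt_le_iff.mpr
    constructor
    · positivity
    · nlinarith
  apply le_min
  · unfold p1
    rw [e, ← ht3, div_le_div_iff₀ (by positivity) (by positivity)]
    have h1 : t * t ^ 2 ≤ √(y : ℝ) * t ^ 2 := mul_le_mul_of_nonneg_right hs1 (by positivity)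
    have h2 : 0 < t ^ 3 := by positivity
    nlinarith
  · unfold p2
    rw [e, ← ht3, div_le_div_iff₀ (by positivity) (by positivity)]
    have h1 : (y : ℝ) ^ 2 ≤ (10 / 9 * t ^ 2) ^ 2 := pow_le_pow_left₀ hyr.le hy3 2
    have h2 : (y : ℝ) ^ 2 * √(y : ℝ) ≤ (10 / 9 * t ^ 2) ^ 2 * (1.06 * t) :=
      mul_le_mul h1 hs2 hs0.le (by positivity)
    have h3 : 0 < t ^ 5 := by positivity
    nlinarith

theorem mode {c C : ℝ} (hc : 0 < c) (hc1 : c ≤ 1) (hC : 1 ≤ C)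
    (up2 : ∀ n l : ℕ, l < n → RR n l ≤ C * p2 n l)
    (up1 : ∀ n l : ℕ, l < n → n ≤ 2 * l → RR n l ≤ C * p1 n l)
    (low : ∀ n l : ℕ, l < n → n ≤ 2 * l → c * min (p1 n l) (p2 n l) ≤ RR n l) :
    ∃ d : ℝ, 0 < d ∧ ∀ n l : ℕ, l < n → (∀ k < n, a n k ≤ a n l) →
      d * (n : ℝ) ^ 2 ≤ ((n : ℝ) - l) ^ 3 ∧ d * ((n : ℝ) - l) ^ 3 ≤ (n : ℝ) ^ 2 := by
  obtain ⟨b, hb⟩ : ∃ b : ℝ, b = 0.7 * c / C := ⟨_, rfl⟩
  have hC0 : 0 < C := by linarith
  have hb0 : 0 < b := by rw [hb]; positivity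
  have hb1 : b ≤ 1 := by
    rw [hb, div_le_one hC0]
    linarith
  have hbC : b * C = 0.7 * c := by rw [hb]; field_simp
  refine ⟨min (b ^ 6) (1 / 729), lt_min (by positivity) (by norm_num), ?_⟩
  intro n l hl hmax
  have hd1 : min (b ^ 6) (1 / 729) ≤ b ^ 6 := min_le_left _ _
  have hd2 : min (b ^ 6) (1 / 729) ≤ 1 / 729 := min_le_right _ _
  obtain ⟨d, hd⟩ : ∃ d : ℝ, d = min (b ^ 6) (1 / 729) := ⟨_, rfl⟩
  rw [← hd] at hd1 hd2 ⊢
  have hl0 : (0 : ℝ) ≤ l := Nat.cast_nonneg l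
  have hnl : (l : ℝ) + 1 ≤ n := by exact_mod_cast hl
  obtain ⟨y, hy⟩ : ∃ y : ℝ, y = (n : ℝ) - l := ⟨_, rfl⟩
  have hy1 : 1 ≤ y := by rw [hy]; linarith
  have hyn : y ≤ n := by rw [hy]; linarith
  have hn1 : (1 : ℝ) ≤ n := by linarith
  rw [← hy]
  by_cases hn : n < 27
  · have hn2 : (n : ℝ) ≤ 27 := by exact_mod_cast hn.le
    constructor
    · have h1 : (1 : ℝ) ≤ y ^ 3 := one_le_pow₀ hy1
      have h2 : (n : ℝ) ^ 2 ≤ 27 ^ 2 := pow_le_pow_left₀ (by linarith) hn2 2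
      nlinarith [mul_le_mul_of_nonneg_right hd2 (sq_nonneg (n : ℝ))]
    · have h1 : y ^ 3 ≤ (n : ℝ) ^ 3 := pow_le_pow_left₀ (by linarith) hyn 3
      have h2 : (n : ℝ) ^ 3 = n * (n : ℝ) ^ 2 := by ring
      have h3 : (n : ℝ) * (n : ℝ) ^ 2 ≤ 27 * (n : ℝ) ^ 2 :=
        mul_le_mul_of_nonneg_right hn2 (by positivity)
      have h4 : d * y ^ 3 ≤ 1 / 729 * y ^ 3 := mul_le_mul_of_nonneg_right hd2 (by positivity)
      have h5 : 0 ≤ (n : ℝ) ^ 2 := by positivity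
      linarith
  · push Not at hn
    obtain ⟨t, ht1, ht3, k, hk, hk2, hmin⟩ := reference n hn
    have ht0 : 0 < t := by linarith
    have h1 : RR n k ≤ RR n l := RR_mono_of_a n k l (by omega) (hmax k hk)
    have h2 := low n k hk hk2
    have h3 : c * (0.7 / t ^ 2) ≤ RR n l := by
      have := mul_le_mul_of_nonneg_left hmin hc.le
      linarith
    have h4 : c * (0.7 / t ^ 2) = b * C / t ^ 2 := by rw [hbC]; ring
    rw [h4] at h3
    obtain ⟨s, hs⟩ : ∃ s : ℝ, s = √y := ⟨_, rfl⟩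
    have hs0 : 0 < s := by rw [hs]; exact Real.sqrt_pos.mpr (by linarith)
    have hss : s ^ 2 = y := by rw [hs]; exact Real.sq_sqrt (by linarith)
    have hs6 : y ^ 3 = s ^ 6 := by rw [← hss]; ring
    have ht6 : (n : ℝ) ^ 2 = t ^ 6 := by rw [← ht3]; ring
    constructor
    · by_cases hc2 : n ≤ 2 * l
      · have h5 := up1 n l hl hc2
        unfold p1 at h5
        rw [← hy, ← hs, ← ht3] at h5
        have h6 : b * C / t ^ 2 ≤ C * (s / t ^ 3) := h3.trans h5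
        have h7 : b * t ≤ s := by
          rw [mul_div_assoc', div_le_div_iff₀ (by positivity) (by positivity)] at h6
          have h8 : (C * t ^ 2) * (b * t) ≤ (C * t ^ 2) * s := by
            calc (C * t ^ 2) * (b * t) = b * C * t ^ 3 := by ring
              _ ≤ C * s * t ^ 2 := h6
              _ = _ := by ring
          exact le_of_mul_le_mul_left h8 (by positivity)
        have h8 : (b * t) ^ 6 ≤ s ^ 6 := pow_le_pow_left₀ (by positivity) h7 6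
        rw [mul_pow] at h8
        rw [hs6, ht6]
        have h9 : d * t ^ 6 ≤ b ^ 6 * t ^ 6 := mul_le_mul_of_nonneg_right hd1 (by positivity)
        linarith
      · push Not at hc2
        have h5 : 2 * (l : ℝ) ≤ n := by exact_mod_cast hc2.le
        have h6 : (n : ℝ) / 2 ≤ y := by rw [hy]; linarith
        have h7 : ((n : ℝ) / 2) ^ 3 ≤ y ^ 3 := pow_le_pow_left₀ (by positivity) h6 3
        have h8 : (n : ℝ) ^ 2 ≤ (n : ℝ) ^ 3 := pow_le_pow_right₀ hn1 (by norm_num)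
        have h9 : ((n : ℝ) / 2) ^ 3 = (n : ℝ) ^ 3 / 8 := by ring
        have h10 : d * (n : ℝ) ^ 2 ≤ 1 / 729 * (n : ℝ) ^ 2 :=
          mul_le_mul_of_nonneg_right hd2 (by positivity)
        have h11 : 0 ≤ (n : ℝ) ^ 2 := by positivity
        linarith
    · have h5 := up2 n l hl
      unfold p2 at h5
      rw [← hy, ← hs, ← ht3, ← hss] at h5
      have h6 : b * C / t ^ 2 ≤ C * (t ^ 3 / ((s ^ 2) ^ 2 * s)) := h3.trans h5
      have h7 : b * s ^ 5 ≤ t ^ 5 := by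
        rw [mul_div_assoc', div_le_div_iff₀ (by positivity) (by positivity)] at h6
        have h8 : C * (b * s ^ 5) ≤ C * t ^ 5 := by
          calc C * (b * s ^ 5) = b * C * ((s ^ 2) ^ 2 * s) := by ring
            _ ≤ C * t ^ 3 * t ^ 2 := h6
            _ = _ := by ring
        exact le_of_mul_le_mul_left h8 hC0
      have h8 : (b * s) ^ 5 ≤ t ^ 5 := by
        rw [mul_pow]
        have : b ^ 5 ≤ b := by
          calc b ^ 5 = b * b ^ 4 := by ring
            _ ≤ b * 1 := mul_le_mul_of_nonneg_left (pow_le_one₀ hb0.le hb1) hb0.le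
            _ = b := mul_one b
        have h9 : b ^ 5 * s ^ 5 ≤ b * s ^ 5 := mul_le_mul_of_nonneg_right this (by positivity)
        linarith
      have h9 : b * s ≤ t := le_of_pow_le_pow_left₀ (by norm_num) ht0.le h8
      have h10 : (b * s) ^ 6 ≤ t ^ 6 := pow_le_pow_left₀ (by positivity) h9 6
      rw [mul_pow] at h10
      rw [hs6, ht6]
      have h11 : d * s ^ 6 ≤ b ^ 6 * s ^ 6 := mul_le_mul_of_nonneg_right hd1 (by positivity)
      linarith

lemma p1_anti (n j k : ℕ) (h : j ≤ k) (_hk : k < n) : p1 n k ≤ p1 n j := by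
  unfold p1
  apply div_le_div_of_nonneg_right _ (Nat.cast_nonneg n)
  apply Real.sqrt_le_sqrt
  have : (j : ℝ) ≤ k := by exact_mod_cast h
  linarith

lemma p2_mono (n i j : ℕ) (h : i ≤ j) (hj : j < n) : p2 n i ≤ p2 n j := by
  have hij : (i : ℝ) ≤ j := by exact_mod_cast h
  have hjn : (j : ℝ) + 1 ≤ n := by exact_mod_cast hj
  have hy0 : 0 < (n : ℝ) - j := by linarith
  have hr : 0 < √((n : ℝ) - j) := Real.sqrt_pos.mpr hy0
  unfold p2
  apply div_le_div_of_nonneg_left (Nat.cast_nonneg n) (by positivity)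
  apply mul_le_mul _ _ hr.le (by positivity)
  · exact pow_le_pow_left₀ hy0.le (by linarith) 2
  · exact Real.sqrt_le_sqrt (by linarith)

theorem weak_unimodal {c C : ℝ} (hc : 0 < c) (hC : 1 ≤ C)
    (up2 : ∀ n l : ℕ, l < n → RR n l ≤ C * p2 n l)
    (up1 : ∀ n l : ℕ, l < n → n ≤ 2 * l → RR n l ≤ C * p1 n l)
    (low : ∀ n l : ℕ, l < n → n ≤ 2 * l → c * min (p1 n l) (p2 n l) ≤ RR n l)
    (n i j k : ℕ) (hij : i ≤ j) (hjk : j ≤ k) (hk : k < n) (hj : n ≤ 2 * j) :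
    c / C * min (RR n i) (RR n k) ≤ RR n j := by
  have hC0 : 0 < C := by linarith
  have h1 : RR n i ≤ C * p2 n j :=
    (up2 n i (by omega)).trans (mul_le_mul_of_nonneg_left (p2_mono n i j hij (by omega)) hC0.le)
  have h2 : RR n k ≤ C * p1 n j :=
    (up1 n k hk (by omega)).trans (mul_le_mul_of_nonneg_left (p1_anti n j k hjk hk) hC0.le)
  have h3 := low n j (by omega) hj
  refine le_trans ?_ h3
  rw [div_mul_eq_mul_div, div_le_iff₀ hC0, mul_assoc]
  apply mul_le_mul_of_nonneg_left _ hc.le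
  rw [min_mul_of_nonneg _ _ hC0.le]
  apply le_min
  · exact (min_le_right _ _).trans (by linarith)
  · exact (min_le_left _ _).trans (by linarith)

end Pool.Agent.MP_9da1e3_co
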