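import Pool.Agent.Lib.MP_9da1e3_co.Up4

/-!
# Sharp bounds for the numbers `ww m` and their sums
-/

namespace Pool.Agent.MP_9da1e3_co

open Finset Filter Topology

/-- Robbins, upper bound -/
lemma log_st_le (k : ℕ) :
    Real.log (Stirling.stirlingSeq (k + 1)) ≤ Real.log (√Real.pi) + 1 / (12 * ((k : ℝ) + 1)) := by
  have hmono : Monotone (fun k : ℕ => Real.log (Stirling.stirlingSeq (k + 1)) -
      1 / (12 * ((k : ℝ) + 1))) := by
    apply monotone_nat_of_le_succ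
    intro n
    have h := Stirling.log_stirlingSeq_sdiff_le (n + 1)
    have h1 : (1 : ℝ) / (12 * ((n + 1 : ℕ) : ℝ) * (((n + 1 : ℕ) : ℝ) + 1)) =
        1 / (12 * ((n : ℝ) + 1)) - 1 / (12 * (((n + 1 : ℕ) : ℝ) + 1)) := by
      have h2 : (n : ℝ) + 1 ≠ 0 := by positivity
      have h3 : (n : ℝ) + 1 + 1 ≠ 0 := by positivity
      push_cast
      field_simp
      ring
    rw [h1] at h
    linarith
  have hlim : Tendsto (fun k : ℕ => Real.log (Stirling.stirlingSeq (k + 1)) -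
      1 / (12 * ((k : ℝ) + 1))) atTop (𝓝 (Real.log (√Real.pi) - 0)) := by
    apply Tendsto.sub
    · apply Tendsto.log _ (by have := Real.pi_pos; positivity)
      exact (tendsto_add_atTop_iff_nat 1).mpr Stirling.tendsto_stirlingSeq_sqrt_pi
    · have := (tendsto_one_div_add_atTop_nhds_zero_nat (𝕜 := ℝ)).const_mul (1 / 12 : ℝ)
      rw [mul_zero] at this
      refine this.congr fun n => ?_
      have h2 : (n : ℝ) + 1 ≠ 0 := by positivity
      field_simp
  have := hmono.ge_of_tendsto hlim k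
  simp only [sub_zero] at this
  linarith

/-- Robbins, lower bound -/
lemma le_log_st (k : ℕ) :
    Real.log (√Real.pi) + 1 / (12 * ((k : ℝ) + 1) + 1) ≤
      Real.log (Stirling.stirlingSeq (k + 1)) := by
  have hmono : Antitone (fun k : ℕ => Real.log (Stirling.stirlingSeq (k + 1)) -
      1 / (12 * ((k : ℝ) + 1) + 1)) := by
    apply antitone_nat_of_succ_le
    intro n
    have h := le_hasSum (Stirling.log_stirlingSeq_sdiff_hasSum n) 0
      (fun j _ => by positivity)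
    have h1 : (1 : ℝ) / (12 * ((n : ℝ) + 1) + 1) - 1 / (12 * (((n + 1 : ℕ) : ℝ) + 1) + 1) ≤
        1 / (2 * (((0 + 1 : ℕ) : ℝ)) + 1) * ((1 / (2 * ((n + 1 : ℕ) : ℝ) + 1)) ^ 2) ^ (0 + 1) := by
      push_cast
      have hn : (0 : ℝ) ≤ n := Nat.cast_nonneg n
      rw [div_sub_div _ _ (by positivity) (by positivity), div_pow, one_pow, pow_one,
        div_mul_div_comm, div_le_div_iff₀ (by positivity) (by positivity)]
      nlinarith [mul_nonneg hn hn]
    have h2 : Real.log (Stirling.stirlingSeq (n + 1 + 1)) =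
        Real.log (Stirling.stirlingSeq (n + 2)) := rfl
    rw [h2]
    linarith
  have hlim : Tendsto (fun k : ℕ => Real.log (Stirling.stirlingSeq (k + 1)) -
      1 / (12 * ((k : ℝ) + 1) + 1)) atTop (𝓝 (Real.log (√Real.pi) - 0)) := by
    apply Tendsto.sub
    · apply Tendsto.log _ (by have := Real.pi_pos; positivity)
      exact (tendsto_add_atTop_iff_nat 1).mpr Stirling.tendsto_stirlingSeq_sqrt_pi
    · have h1 := (tendsto_one_div_add_atTop_nhds_zero_nat (𝕜 := ℝ))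
      refine squeeze_zero (fun n => by positivity) (fun n => ?_) h1
      have hn : (0 : ℝ) ≤ n := Nat.cast_nonneg n
      apply one_div_le_one_div_of_le (by positivity)
      linarith
  have := hmono.le_of_tendsto hlim k
  simp only [sub_zero] at this
  linarith

lemma ww_st (m : ℕ) : ww m * (√2 * sq m * Stirling.stirlingSeq (m + 1)) = 1 := by
  have h := cc_stirling m
  have hE := pow_pos E_pos (m + 1)
  unfold ww
  rw [div_mul_eq_mul_div, h, div_self hE.ne']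

lemma st_pos (m : ℕ) : 0 < Stirling.stirlingSeq (m + 1) := Stirling.stirlingSeq'_pos m

lemma ww_eq_st (m : ℕ) : ww m = U / sq m * (√Real.pi / Stirling.stirlingSeq (m + 1)) := by
  have h := ww_st m
  have h1 := st_pos m
  have h2 := sq_pos m
  have hpi := Real.pi_pos
  have h3 : (0 : ℝ) < √2 := by positivity
  have h4 : 0 < √Real.pi := Real.sqrt_pos.mpr hpi
  have hU : U = 1 / (√2 * √Real.pi) := by
    unfold U
    rw [Real.sqrt_mul (by norm_num)]
  rw [hU]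
  have h5 : ww m = 1 / (√2 * sq m * Stirling.stirlingSeq (m + 1)) := by
    rw [eq_div_iff (by positivity)]
    exact h
  rw [h5]
  field_simp

/-- `ww m = U / √(m+1) * e^(-θ)`, `1/(12(m+1)+1) ≤ θ ≤ 1/(12(m+1))` -/
lemma ww_le_exp (m : ℕ) : ww m ≤ U / sq m * Real.exp (-(1 / (12 * ((m : ℝ) + 1) + 1))) := by
  rw [ww_eq_st]
  have h1 := st_pos m
  have hpi := Real.pi_pos
  have h4 : 0 < √Real.pi := Real.sqrt_pos.mpr hpi
  have h2 : 0 ≤ U / sq m := (div_pos U_pos (sq_pos m)).le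
  apply mul_le_mul_of_nonneg_left _ h2
  rw [← Real.exp_log (div_pos h4 h1), Real.log_div h4.ne' h1.ne']
  apply Real.exp_le_exp.mpr
  have := le_log_st m
  linarith

lemma exp_le_ww (m : ℕ) : U / sq m * Real.exp (-(1 / (12 * ((m : ℝ) + 1)))) ≤ ww m := by
  rw [ww_eq_st]
  have h1 := st_pos m
  have hpi := Real.pi_pos
  have h4 : 0 < √Real.pi := Real.sqrt_pos.mpr hpi
  have h2 : 0 ≤ U / sq m := (div_pos U_pos (sq_pos m)).le
  apply mul_le_mul_of_nonneg_left _ h2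
  rw [← Real.exp_log (div_pos h4 h1), Real.log_div h4.ne' h1.ne']
  apply Real.exp_le_exp.mpr
  have := log_st_le m
  linarith

/-- squares: `ww m ^ 2 * (m + 1 + 2 (m+1)/(12 (m+1) + 1)) ≤ U ^ 2` -/
lemma ww_sq_le (m : ℕ) :
    ww m ^ 2 * (((m : ℝ) + 1) * (12 * ((m : ℝ) + 1) + 3) / (12 * ((m : ℝ) + 1) + 1)) ≤ U ^ 2 := by
  have h := ww_le_exp m
  have hw := ww_pos m
  have hs := sq_pos m
  have hss := sq_sq m
  have hm : (0 : ℝ) ≤ m := Nat.cast_nonneg m
  have h1 : ww m * sq m ≤ U * Real.exp (-(1 / (12 * ((m : ℝ) + 1) + 1))) := by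
    rw [div_mul_eq_mul_div, le_div_iff₀ hs] at h
    exact h
  have h2 : (ww m * sq m) ^ 2 ≤ (U * Real.exp (-(1 / (12 * ((m : ℝ) + 1) + 1)))) ^ 2 :=
    pow_le_pow_left₀ (by positivity) h1 2
  rw [mul_pow, mul_pow, ← Real.exp_nat_mul] at h2
  have h3 : sq m ^ 2 = (m : ℝ) + 1 := by rw [pow_two, hss]
  rw [h3] at h2
  have h4 : Real.exp ((2 : ℕ) * -(1 / (12 * ((m : ℝ) + 1) + 1))) ≤
      (12 * ((m : ℝ) + 1) + 1) / (12 * ((m : ℝ) + 1) + 3) := by
    have h5 := Real.add_one_le_exp (2 / (12 * ((m : ℝ) + 1) + 1))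
    have h6 : (2 : ℕ) * -(1 / (12 * ((m : ℝ) + 1) + 1)) = -(2 / (12 * ((m : ℝ) + 1) + 1)) := by
      push_cast
      ring
    rw [h6, Real.exp_neg, inv_eq_one_div, div_le_div_iff₀ (Real.exp_pos _) (by positivity)]
    have h7 : 2 / (12 * ((m : ℝ) + 1) + 1) + 1 =
        (12 * ((m : ℝ) + 1) + 3) / (12 * ((m : ℝ) + 1) + 1) := by
      field_simp
      ring
    rw [h7, div_le_iff₀ (by positivity)] at h5
    linarith
  have h8 : ww m ^ 2 * ((m : ℝ) + 1) ≤
      U ^ 2 * ((12 * ((m : ℝ) + 1) + 1) / (12 * ((m : ℝ) + 1) + 3)) :=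
    h2.trans (mul_le_mul_of_nonneg_left h4 (by positivity))
  rw [mul_div_assoc', le_div_iff₀ (by positivity)] at h8
  rw [mul_div_assoc', div_le_iff₀ (by positivity)]
  linarith

/-- squares, lower bound: `U ^ 2 * (m + 5/6) ≤ ww m ^ 2 * (m + 1) ^ 2` -/
lemma le_ww_sq (m : ℕ) : U ^ 2 * ((m : ℝ) + 5 / 6) ≤ ww m ^ 2 * ((m : ℝ) + 1) ^ 2 := by
  have h := exp_le_ww m
  have hw := ww_pos m
  have hs := sq_pos m
  have hss := sq_sq m
  have hU := U_pos
  have hm : (0 : ℝ) ≤ m := Nat.cast_nonneg m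
  have h1 : U * Real.exp (-(1 / (12 * ((m : ℝ) + 1)))) ≤ ww m * sq m := by
    rw [div_mul_eq_mul_div, div_le_iff₀ hs] at h
    exact h
  have h2 : (U * Real.exp (-(1 / (12 * ((m : ℝ) + 1))))) ^ 2 ≤ (ww m * sq m) ^ 2 :=
    pow_le_pow_left₀ (by positivity) h1 2
  rw [mul_pow, mul_pow, ← Real.exp_nat_mul] at h2
  have h3 : sq m ^ 2 = (m : ℝ) + 1 := by rw [pow_two, hss]
  rw [h3] at h2
  have h4 : 1 - 1 / (6 * ((m : ℝ) + 1)) ≤ Real.exp ((2 : ℕ) * -(1 / (12 * ((m : ℝ) + 1)))) := by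
    have h5 := Real.add_one_le_exp (-(1 / (6 * ((m : ℝ) + 1))))
    have h6 : (2 : ℕ) * -(1 / (12 * ((m : ℝ) + 1))) = -(1 / (6 * ((m : ℝ) + 1))) := by
      push_cast
      field_simp
      norm_num
    rw [h6]
    linarith
  have h8 : U ^ 2 * (1 - 1 / (6 * ((m : ℝ) + 1))) ≤ ww m ^ 2 * ((m : ℝ) + 1) :=
    (mul_le_mul_of_nonneg_left h4 (by positivity)).trans h2
  have h9 : (1 - 1 / (6 * ((m : ℝ) + 1))) * ((m : ℝ) + 1) = (m : ℝ) + 5 / 6 := by
    field_simp
    ring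
  calc U ^ 2 * ((m : ℝ) + 5 / 6) = U ^ 2 * (1 - 1 / (6 * ((m : ℝ) + 1))) * ((m : ℝ) + 1) := by
        rw [mul_assoc, h9]
    _ ≤ ww m ^ 2 * ((m : ℝ) + 1) * ((m : ℝ) + 1) :=
        mul_le_mul_of_nonneg_right h8 (by positivity)
    _ = _ := by ring

end Pool.Agent.MP_9da1e3_co
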