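import Pool.Agent.Lib.MP_9da1e3_co.C9a

/-!
# Sharp bounds for the sums `WW y = ∑ m < y, ww m`
-/

namespace Pool.Agent.MP_9da1e3_co

open Finset

/-- one step, upper bound -/
lemma ww_le_step (m : ℕ) : ww m ≤ 2 * U * (√((m : ℝ) + 5 / 3) - √((m : ℝ) + 2 / 3)) := by
  have h := ww_sq_le m
  have hw := ww_pos m
  have hU := U_pos
  have hm : (0 : ℝ) ≤ m := Nat.cast_nonneg m
  obtain ⟨R, hR⟩ : ∃ R : ℝ, R = ((m : ℝ) + 1) * (12 * ((m : ℝ) + 1) + 3) / (12 * ((m : ℝ) + 1) + 1) :=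
    ⟨_, rfl⟩
  rw [← hR] at h
  obtain ⟨a, ha⟩ : ∃ a, a = √((m : ℝ) + 5 / 3) := ⟨_, rfl⟩
  obtain ⟨b, hb⟩ : ∃ b, b = √((m : ℝ) + 2 / 3) := ⟨_, rfl⟩
  rw [← ha, ← hb]
  have ha0 : 0 < a := by rw [ha]; positivity
  have hb0 : 0 < b := by rw [hb]; positivity
  have haa : a * a = (m : ℝ) + 5 / 3 := by rw [ha]; exact Real.mul_self_sqrt (by positivity)
  have hbb : b * b = (m : ℝ) + 2 / 3 := by rw [hb]; exact Real.mul_self_sqrt (by positivity)
  have hRx : (m : ℝ) + 7 / 6 - R = 1 / (6 * (12 * ((m : ℝ) + 1) + 1)) := by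
    rw [hR]
    field_simp
    ring
  have hR0 : 0 < R := by rw [hR]; positivity
  have h1 : R * ((m : ℝ) + 7 / 6 - R) ≤ 1 / 16 := by
    rw [hRx, hR, div_mul_div_comm, div_le_div_iff₀ (by positivity) (by norm_num)]
    nlinarith [mul_nonneg hm hm]
  have hRge : (m : ℝ) + 1 ≤ R := by
    rw [hR, le_div_iff₀ (by positivity)]
    nlinarith
  -- `a * b ≤ 2 R - x`
  have hab : a * b ≤ 2 * R - ((m : ℝ) + 7 / 6) := by
    apply abs_le_of_sq_le_sq' _ (by linarith) |>.2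
    have e1 : (a * b) ^ 2 = ((m : ℝ) + 7 / 6) ^ 2 - 1 / 4 := by
      calc (a * b) ^ 2 = (a * a) * (b * b) := by ring
        _ = _ := by rw [haa, hbb]; ring
    rw [e1]
    nlinarith
  have h2 : (a + b) ^ 2 ≤ 4 * R := by nlinarith
  have h3 : (ww m * (a + b)) ^ 2 ≤ (2 * U) ^ 2 := by
    calc (ww m * (a + b)) ^ 2 = ww m ^ 2 * (a + b) ^ 2 := by ring
      _ ≤ ww m ^ 2 * (4 * R) := mul_le_mul_of_nonneg_left h2 (by positivity)
      _ = 4 * (ww m ^ 2 * R) := by ring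
      _ ≤ 4 * U ^ 2 := by linarith
      _ = _ := by ring
  have h4 : ww m * (a + b) ≤ 2 * U := by
    exact (abs_le_of_sq_le_sq' h3 (by linarith)).2
  have h5 : (a - b) * (a + b) = 1 := by nlinarith
  have h6 : ww m * (a + b) ≤ (2 * U * (a - b)) * (a + b) := by
    rw [mul_assoc, h5, mul_one]
    exact h4
  exact le_of_mul_le_mul_right h6 (by linarith)

/-- one step, lower bound -/
lemma step_le_ww (m : ℕ) (c : ℝ) (hc : 2 / 3 + 1 / (11 * ((m : ℝ) + 1)) ≤ c) :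
    2 * U * (√((m : ℝ) + 1 + c) - √((m : ℝ) + c)) ≤ ww m := by
  have h := le_ww_sq m
  have hw := ww_pos m
  have hU := U_pos
  have hm : (0 : ℝ) ≤ m := Nat.cast_nonneg m
  have hd0 : 0 < 1 / (11 * ((m : ℝ) + 1)) := by positivity
  have hc0 : 0 < c := by linarith
  obtain ⟨R, hR⟩ : ∃ R : ℝ, R = ((m : ℝ) + 1) ^ 2 / ((m : ℝ) + 5 / 6) := ⟨_, rfl⟩
  have hR0 : 0 < R := by rw [hR]; positivity
  have hwR : U ^ 2 ≤ ww m ^ 2 * R := by
    rw [hR, mul_div_assoc', le_div_iff₀ (by positivity)]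
    exact h
  obtain ⟨a, ha⟩ : ∃ a, a = √((m : ℝ) + 1 + c) := ⟨_, rfl⟩
  obtain ⟨b, hb⟩ : ∃ b, b = √((m : ℝ) + c) := ⟨_, rfl⟩
  rw [← ha, ← hb]
  have ha0 : 0 < a := by rw [ha]; positivity
  have hb0 : 0 < b := by rw [hb]; positivity
  have haa : a * a = (m : ℝ) + 1 + c := by rw [ha]; exact Real.mul_self_sqrt (by positivity)
  have hbb : b * b = (m : ℝ) + c := by rw [hb]; exact Real.mul_self_sqrt (by positivity)
  have h1 : 1 / 16 ≤ R * ((m : ℝ) + 1 / 2 + c - R) := by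
    have e2 : 0 < 6 * ((m : ℝ) + 1) - 1 := by linarith
    have e4 : R = 6 * ((m : ℝ) + 1) ^ 2 / (6 * ((m : ℝ) + 1) - 1) := by
      rw [hR, div_eq_div_iff (by positivity) e2.ne']
      ring
    have e1 : 2 / 3 + 1 / (11 * ((m : ℝ) + 1)) + (m : ℝ) + 1 / 2 - R =
        (25 * ((m : ℝ) + 1) - 6) / (66 * ((m : ℝ) + 1) * (6 * ((m : ℝ) + 1) - 1)) := by
      obtain ⟨n, hn⟩ : ∃ n : ℝ, n = (m : ℝ) + 1 := ⟨_, rfl⟩
      have hmn : (m : ℝ) = n - 1 := by linarith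
      have hn1 : 1 ≤ n := by linarith
      rw [e4, hmn]
      have e5 : n - 1 + 1 = n := by ring
      rw [e5]
      have e6 : 0 < 6 * n - 1 := by linarith
      have e7 : 0 < n := by linarith
      obtain ⟨q, hq⟩ : ∃ q, q = 6 * n ^ 2 / (6 * n - 1) := ⟨_, rfl⟩
      have hq1 : q * (6 * n - 1) = 6 * n ^ 2 := by
        rw [hq, div_mul_cancel₀ _ e6.ne']
      obtain ⟨r, hr⟩ : ∃ r, r = 1 / (11 * n) := ⟨_, rfl⟩
      have hr1 : r * (11 * n) = 1 := by
        rw [hr, div_mul_cancel₀ _ (by positivity)]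
      rw [← hq, ← hr, eq_div_iff (by positivity)]
      linear_combination (6 * (6 * n - 1)) * hr1 - (66 * n) * hq1
    have e3 : R * ((25 * ((m : ℝ) + 1) - 6) / (66 * ((m : ℝ) + 1) * (6 * ((m : ℝ) + 1) - 1))) ≤
        R * ((m : ℝ) + 1 / 2 + c - R) := by
      rw [← e1]
      apply mul_le_mul_of_nonneg_left _ hR0.le
      linarith
    refine le_trans ?_ e3
    rw [e4, div_mul_div_comm, div_le_div_iff₀ (by norm_num) (by positivity)]
    nlinarith [mul_nonneg hm hm, mul_nonneg hm (mul_nonneg hm hm)]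
  have hab : 2 * R - ((m : ℝ) + 1 / 2 + c) ≤ a * b := by
    rcases le_or_gt (2 * R - ((m : ℝ) + 1 / 2 + c)) 0 with h0 | h0
    · exact h0.trans (by positivity)
    · apply (abs_le_of_sq_le_sq' _ (by positivity)).2
      have e1 : (a * b) ^ 2 = ((m : ℝ) + 1 / 2 + c) ^ 2 - 1 / 4 := by
        calc (a * b) ^ 2 = (a * a) * (b * b) := by ring
          _ = _ := by rw [haa, hbb]; ring
      rw [e1]
      nlinarith
  have h2 : 4 * R ≤ (a + b) ^ 2 := by nlinarith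
  have h3 : (2 * U) ^ 2 ≤ (ww m * (a + b)) ^ 2 := by
    calc (2 * U) ^ 2 = 4 * U ^ 2 := by ring
      _ ≤ 4 * (ww m ^ 2 * R) := by linarith
      _ = ww m ^ 2 * (4 * R) := by ring
      _ ≤ ww m ^ 2 * (a + b) ^ 2 := mul_le_mul_of_nonneg_left h2 (by positivity)
      _ = _ := by ring
  have h4 : 2 * U ≤ ww m * (a + b) := (abs_le_of_sq_le_sq' h3 (by positivity)).2
  have h5 : (a - b) * (a + b) = 1 := by nlinarith
  have h6 : (2 * U * (a - b)) * (a + b) ≤ ww m * (a + b) := by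
    rw [mul_assoc, h5, mul_one]
    exact h4
  exact le_of_mul_le_mul_right h6 (by linarith)

lemma WW_succ (y : ℕ) : WW (y + 1) = WW y + ww y := by
  unfold WW
  rw [Finset.sum_range_succ]

/-- `WW y - 2 U √(y + 2/3)` is nonincreasing -/
lemma WW_sub_le {a b : ℕ} (h : a ≤ b) :
    WW b - WW a ≤ 2 * U * (√((b : ℝ) + 2 / 3) - √((a : ℝ) + 2 / 3)) := by
  induction b, h using Nat.le_induction with
  | base => simp
  | succ b _ ih =>
    have h1 := ww_le_step b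
    have e : (((b + 1 : ℕ) : ℝ)) + 2 / 3 = (b : ℝ) + 5 / 3 := by push_cast; ring
    rw [WW_succ, e]
    linarith

/-- `WW y ≤ 2 U (√(y + 2/3) - √(2/3))` -/
lemma WW_le_sqrt (y : ℕ) : WW y ≤ 2 * U * (√((y : ℝ) + 2 / 3) - √(2 / 3)) := by
  have h := WW_sub_le (Nat.zero_le y)
  have e : WW 0 = 0 := by simp [WW]
  rw [e] at h
  simpa using h

/-- lower bound -/
lemma le_WW_sub {a b : ℕ} (h : a ≤ b) (c : ℝ) (hc : 2 / 3 + 1 / (11 * ((a : ℝ) + 1)) ≤ c) :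
    2 * U * (√((b : ℝ) + c) - √((a : ℝ) + c)) ≤ WW b - WW a := by
  induction b, h using Nat.le_induction with
  | base => simp
  | succ b hb ih =>
    have hb' : (a : ℝ) ≤ b := by exact_mod_cast hb
    have h1 := step_le_ww b c (by
      refine le_trans ?_ hc
      have : 1 / (11 * ((b : ℝ) + 1)) ≤ 1 / (11 * ((a : ℝ) + 1)) :=
        one_div_le_one_div_of_le (by positivity) (by linarith)
      linarith)
    have e : (((b + 1 : ℕ) : ℝ)) + c = (b : ℝ) + 1 + c := by push_cast; ring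
    rw [WW_succ, e]
    linarith

end Pool.Agent.MP_9da1e3_co
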