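import Mathlib

namespace Pool.Agent.MP_9da1e3_co

open Finset

def runc (L : ℕ) (w : List ℕ) (p : ℕ) : ℕ :=
  ((range (p + 1)).filter
    (fun x => p - x < L ∧ ∀ s, x ≤ s → s < p → w.getD s 0 < w.getD p 0)).card

def W (L : ℕ) (w : List ℕ) : ℕ := ∏ p ∈ range w.length, runc L w p

lemma card_refl (m L : ℕ) : ((range (m + 1)).filter (fun x => m - x < L)).card = min L (m + 1) := by
  have h : ((range (m + 1)).filter (fun x => m - x < L)).card = (range (min L (m + 1))).card := by
    refine Finset.card_nbij' (fun x => m - x) (fun y => m - y) ?_ ?_ ?_ ?_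
    · intro x hx
      simp only [coe_filter, mem_range, Set.mem_ofPred_eq, coe_range, Set.mem_Iio] at hx ⊢
      omega
    · intro x hx
      simp only [coe_filter, mem_range, Set.mem_ofPred_eq, coe_range, Set.mem_Iio] at hx ⊢
      omega
    · intro x hx
      simp only [coe_filter, mem_range, Set.mem_ofPred_eq] at hx
      simp only
      omega
    · intro x hx
      simp only [coe_range, Set.mem_Iio] at hx
      simp only
      omega
  rw [h, card_range]

lemma getD_lt {u : List ℕ} {M : ℕ} (hu : ∀ x ∈ u, x < M) {s : ℕ} (hs : s < u.length) :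
    u.getD s 0 < M := by
  rw [List.getD_eq_getElem _ _ hs]
  exact hu _ (List.getElem_mem hs)

lemma W_split (L : ℕ) (u v : List ℕ) (M : ℕ) (hu : ∀ x ∈ u, x < M) (hv : ∀ x ∈ v, x < M) :
    W L (u ++ M :: v) = W L u * min L (u.length + 1) * W L v := by
  have e1 : ∀ p, p < u.length → runc L (u ++ M :: v) p = runc L u p := by
    intro p hp
    unfold runc
    congr 1
    apply Finset.filter_congr
    intro x hx
    have : ∀ s, s < p → (u ++ M :: v).getD s 0 = u.getD s 0 := fun s hs =>
      List.getD_append _ _ _ _ (by omega)
    rw [List.getD_append _ _ _ _ hp]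
    constructor
    · rintro ⟨h1, h2⟩
      exact ⟨h1, fun s hs1 hs2 => by rw [← this s hs2]; exact h2 s hs1 hs2⟩
    · rintro ⟨h1, h2⟩
      exact ⟨h1, fun s hs1 hs2 => by rw [this s hs2]; exact h2 s hs1 hs2⟩
  have gM : (u ++ M :: v).getD u.length 0 = M := by
    rw [List.getD_append_right _ _ _ _ le_rfl]
    simp
  have gv : ∀ q, (u ++ M :: v).getD (u.length + (q + 1)) 0 = v.getD q 0 := by
    intro q
    rw [List.getD_append_right _ _ _ _ (by omega)]
    have : u.length + (q + 1) - u.length = q + 1 := by omega
    rw [this]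
    simp
  have e2 : runc L (u ++ M :: v) u.length = min L (u.length + 1) := by
    unfold runc
    rw [← card_refl]
    congr 1
    apply Finset.filter_congr
    intro x hx
    constructor
    · rintro ⟨h1, h2⟩
      exact h1
    · intro h1
      refine ⟨h1, fun s hs1 hs2 => ?_⟩
      rw [gM, List.getD_append _ _ _ _ hs2]
      exact getD_lt hu hs2
  have e3 : ∀ q, q < v.length → runc L (u ++ M :: v) (u.length + (q + 1)) = runc L v q := by
    intro q hq
    unfold runc
    refine Finset.card_nbij' (fun x => x - (u.length + 1)) (fun y => y + (u.length + 1)) ?_ ?_ ?_ ?_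
    · intro x hx
      simp only [coe_filter, mem_range, Set.mem_ofPred_eq] at hx ⊢
      obtain ⟨h0, h1, h2⟩ := hx
      have hxu : u.length + 1 ≤ x := by
        by_contra hc
        have := h2 u.length (by omega) (by omega)
        rw [gM, gv q] at this
        have h3 := getD_lt hv hq
        omega
      refine ⟨by omega, by omega, fun s hs1 hs2 => ?_⟩
      have := h2 (u.length + (s + 1)) (by omega) (by omega)
      rwa [gv s, gv q] at this
    · intro y hy
      simp only [coe_filter, mem_range, Set.mem_ofPred_eq] at hy ⊢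
      obtain ⟨h0, h1, h2⟩ := hy
      refine ⟨by omega, by omega, fun s hs1 hs2 => ?_⟩
      obtain ⟨r, rfl⟩ : ∃ r, s = u.length + (r + 1) := ⟨s - (u.length + 1), by omega⟩
      rw [gv r, gv q]
      exact h2 r (by omega) (by omega)
    · intro x hx
      simp only [coe_filter, mem_range, Set.mem_ofPred_eq] at hx
      obtain ⟨h0, h1, h2⟩ := hx
      have hxu : u.length + 1 ≤ x := by
        by_contra hc
        have := h2 u.length (by omega) (by omega)
        rw [gM, gv q] at this
        have h3 := getD_lt hv hq
        omega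
      simp only
      omega
    · intro y hy
      simp only
      omega
  unfold W
  have hl : (u ++ M :: v).length = u.length + (v.length + 1) := by simp
  rw [hl, Finset.prod_range_add, Finset.prod_range_succ' _ v.length]
  rw [Finset.prod_congr rfl (fun p hp => e1 p (mem_range.mp hp)),
    Finset.prod_congr rfl (fun q hq => e3 q (mem_range.mp hq)), Nat.add_zero, e2]
  ring

def lsts (S : Finset ℕ) : Finset (List ℕ) := (Multiset.lists S.val).toFinset

lemma mem_lists {S : Finset ℕ} {w : List ℕ} :
    w ∈ lsts S ↔ S.val = (w : Multiset ℕ) := by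
  unfold lsts
  rw [Multiset.mem_toFinset, Multiset.mem_lists_iff]
  rfl

lemma lists_nodup {S : Finset ℕ} {w : List ℕ} (h : S.val = (w : Multiset ℕ)) : w.Nodup := by
  have := S.nodup
  rw [h] at this
  exact Multiset.coe_nodup.mp this

lemma lists_mem {S : Finset ℕ} {w : List ℕ} (h : S.val = (w : Multiset ℕ)) (x : ℕ) :
    x ∈ w ↔ x ∈ S := by
  rw [← Finset.mem_val, h, Multiset.mem_coe]

lemma lists_length {S : Finset ℕ} {w : List ℕ} (h : S.val = (w : Multiset ℕ)) :
    w.length = S.card := by
  rw [Finset.card_def, h, Multiset.coe_card]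

lemma lists_of {S : Finset ℕ} {w : List ℕ} (h1 : w.Nodup) (h2 : ∀ x, x ∈ w ↔ x ∈ S) :
    S.val = (w : Multiset ℕ) := by
  apply Multiset.Nodup.ext S.nodup (Multiset.coe_nodup.mpr h1) |>.mpr
  intro a
  rw [Finset.mem_val, Multiset.mem_coe, h2]

def R (L : ℕ) (S : Finset ℕ) : ℕ := ∑ w ∈ lsts S, W L w

lemma R_rec (L : ℕ) (S : Finset ℕ) (M : ℕ) (hM : ∀ x ∈ S, x < M) :
    R L (insert M S) = ∑ T ∈ S.powerset, R L T * min L (T.card + 1) * R L (S \ T) := by
  have hMS : M ∉ S := fun h => lt_irrefl _ (hM M h)
  have : ∀ T ∈ S.powerset, R L T * min L (T.card + 1) * R L (S \ T)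
      = ∑ uv ∈ lsts T ×ˢ lsts (S \ T), W L (uv.1 ++ M :: uv.2) := by
    intro T hT
    rw [Finset.mem_powerset] at hT
    unfold R
    rw [Finset.sum_product, Finset.sum_mul, Finset.sum_mul]
    apply Finset.sum_congr rfl
    intro u hu
    rw [Finset.mul_sum]
    apply Finset.sum_congr rfl
    intro v hv
    rw [mem_lists] at hu hv
    rw [W_split L u v M (fun x hx => hM x (hT ((lists_mem hu x).mp hx)))
      (fun x hx => hM x (Finset.mem_sdiff.mp ((lists_mem hv x).mp hx)).1), lists_length hu]
  rw [Finset.sum_congr rfl this, Finset.sum_sigma']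
  unfold R
  symm
  apply Finset.sum_bij (fun (x : (_ : Finset ℕ) × (List ℕ × List ℕ)) _ => x.2.1 ++ M :: x.2.2)
  · rintro ⟨T, u, v⟩ hx
    simp only [Finset.mem_sigma, Finset.mem_product, Finset.mem_powerset, mem_lists] at hx ⊢
    obtain ⟨hT, hu, hv⟩ := hx
    apply lists_of
    · rw [List.nodup_append]
      refine ⟨lists_nodup hu, ?_, ?_⟩
      · rw [List.nodup_cons]
        refine ⟨fun h => hMS (Finset.mem_sdiff.mp ((lists_mem hv M).mp h)).1, lists_nodup hv⟩
      · intro a ha b hb
        rcases List.mem_cons.mp hb with rfl | hb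
        · rintro rfl
          exact hMS (hT ((lists_mem hu _).mp ha))
        · rintro rfl
          exact (Finset.mem_sdiff.mp ((lists_mem hv _).mp hb)).2 ((lists_mem hu _).mp ha)
    · intro x
      rw [List.mem_append, List.mem_cons, lists_mem hu, lists_mem hv, Finset.mem_insert,
        Finset.mem_sdiff]
      constructor
      · rintro (h | h | h)
        · exact Or.inr (hT h)
        · exact Or.inl h
        · exact Or.inr h.1
      · rintro (h | h)
        · exact Or.inr (Or.inl h)
        · by_cases hxT : x ∈ T
          · exact Or.inl hxT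
          · exact Or.inr (Or.inr ⟨h, hxT⟩)
  · rintro ⟨T, u, v⟩ hx ⟨T', u', v'⟩ hx' heq
    simp only [Finset.mem_sigma, Finset.mem_product, Finset.mem_powerset, mem_lists] at hx hx' heq
    obtain ⟨hT, hu, hv⟩ := hx
    obtain ⟨hT', hu', hv'⟩ := hx'
    have hMu : M ∉ u := fun h => hMS (hT ((lists_mem hu _).mp h))
    have hMu' : M ∉ u' := fun h => hMS (hT' ((lists_mem hu' _).mp h))
    have key : u = u' ∧ v = v' := by
      have h1 : ∀ (a b : List ℕ), M ∉ a → (a ++ M :: b).takeWhile (fun x => decide (x ≠ M)) = a := by
        intro a b ha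
        rw [List.takeWhile_append_of_pos]
        · simp
        · intro x hx
          simp only [ne_eq, decide_eq_true_eq]
          rintro rfl
          exact ha hx
      have h2 := h1 u v hMu
      rw [heq, h1 u' v' hMu'] at h2
      subst h2
      have := List.append_cancel_left heq
      exact ⟨rfl, (List.cons_injective this)⟩
    obtain ⟨rfl, rfl⟩ := key
    have : T = T' := by
      apply Finset.val_injective
      rw [hu, hu']
    subst this
    rfl
  · intro w hw
    rw [mem_lists] at hw
    have hMw : M ∈ w := (lists_mem hw M).mpr (Finset.mem_insert_self _ _)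
    obtain ⟨u, v, rfl⟩ := List.append_of_mem hMw
    have hnd := lists_nodup hw
    rw [List.nodup_append] at hnd
    obtain ⟨n1, n2, n3⟩ := hnd
    rw [List.nodup_cons] at n2
    refine ⟨⟨u.toFinset, u, v⟩, ?_, rfl⟩
    have memu : ∀ x ∈ u, x ∈ S := by
      intro x hx
      have := (lists_mem hw x).mp (List.mem_append_left _ hx)
      rcases Finset.mem_insert.mp this with rfl | h
      · exact absurd rfl (n3 _ hx _ (List.mem_cons_self))
      · exact h
    simp only [Finset.mem_sigma, Finset.mem_product, Finset.mem_powerset, mem_lists]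
    refine ⟨?_, ?_, ?_⟩
    · intro x hx
      exact memu x (List.mem_toFinset.mp hx)
    · exact lists_of n1 (fun x => List.mem_toFinset.symm)
    · apply lists_of n2.2
      intro x
      rw [Finset.mem_sdiff, List.mem_toFinset]
      constructor
      · intro hx
        refine ⟨?_, fun hxu => n3 _ hxu _ (List.mem_cons_of_mem _ hx) rfl⟩
        have := (lists_mem hw x).mp (List.mem_append_right _ (List.mem_cons_of_mem _ hx))
        rcases Finset.mem_insert.mp this with rfl | h
        · exact absurd hx n2.1
        · exact h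
      · rintro ⟨hxS, hxu⟩
        have := (lists_mem hw x).mpr (Finset.mem_insert_of_mem hxS)
        rcases List.mem_append.mp this with h | h
        · exact absurd h hxu
        · rcases List.mem_cons.mp h with rfl | h
          · exact absurd hxS hMS
          · exact h
  · intro x hx
    rfl

/-- The recursion of the position of the last car. -/
def Fr (L : ℕ) : ℕ → ℕ
  | 0 => 1
  | n + 1 => ∑ k : Fin (n + 1), n.choose k * (min L (k + 1) * (Fr L k * Fr L (n - k)))
decreasing_by all_goals (have := k.isLt; omega)

lemma Fr_zero (L : ℕ) : Fr L 0 = 1 := by rw [Fr]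

lemma Fr_succ (L n : ℕ) :
    Fr L (n + 1) = ∑ k ∈ range (n + 1), n.choose k * (min L (k + 1) * (Fr L k * Fr L (n - k))) := by
  rw [Fr, Finset.sum_range]

lemma R_eq (L : ℕ) : ∀ (m : ℕ) (S : Finset ℕ), S.card = m → R L S = Fr L m := by
  intro m
  induction m using Nat.strong_induction_on with
  | _ m ih =>
    intro S hS
    rcases Nat.eq_zero_or_pos m with rfl | hm
    · rw [Finset.card_eq_zero] at hS
      subst hS
      rw [Fr_zero]
      unfold R
      have : lsts (∅ : Finset ℕ) = {([] : List ℕ)} := by
        ext w
        rw [mem_lists, Finset.mem_singleton]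
        constructor
        · intro h
          have := lists_length h
          simpa using this
        · rintro rfl
          rfl
      rw [this, Finset.sum_singleton]
      simp [W]
    · obtain ⟨n, rfl⟩ : ∃ n, m = n + 1 := ⟨m - 1, by omega⟩
      have hne : S.Nonempty := by
        rw [← Finset.card_pos]; omega
      obtain ⟨M, hM⟩ : ∃ M, M = S.max' hne := ⟨_, rfl⟩
      have hMS : M ∈ S := by rw [hM]; exact Finset.max'_mem _ _
      have hlt : ∀ x ∈ S.erase M, x < M := by
        intro x hx
        have h1 := Finset.mem_erase.mp hx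
        have h2 : x ≤ M := by rw [hM]; exact Finset.le_max' _ _ h1.2
        exact lt_of_le_of_ne h2 h1.1
      have hc : (S.erase M).card = n := by
        rw [Finset.card_erase_of_mem hMS, hS]; rfl
      rw [← Finset.insert_erase hMS, R_rec L _ M hlt, Fr_succ]
      have : ∀ T ∈ (S.erase M).powerset, R L T * min L (T.card + 1) * R L (S.erase M \ T)
          = (fun k => Fr L k * min L (k + 1) * Fr L (n - k)) T.card := by
        intro T hT
        rw [Finset.mem_powerset] at hT
        have hTc : T.card ≤ n := by rw [← hc]; exact Finset.card_le_card hT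
        simp only
        rw [ih T.card (by omega) T rfl, ih (n - T.card) (by omega) (S.erase M \ T)
          (by rw [Finset.card_sdiff_of_subset hT, hc])]
      rw [Finset.sum_congr rfl this, Finset.sum_powerset_apply_card
        (fun k => Fr L k * min L (k + 1) * Fr L (n - k)), hc]
      apply Finset.sum_congr rfl
      intro k hk
      simp only [smul_eq_mul]
      ring

end Pool.Agent.MP_9da1e3_co
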