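import Pool.Agent.Lib.MP_9da1e3_co.Big1

/-! Sharp constants for `tn`. -/

namespace Pool.Agent.MP_9da1e3_co

open Finset

/-- The constant `E / √(2π) = 1.08443..`. -/
noncomputable def cA : ℝ := U * E

/-- `(k+1)^(3/2) tn k`. -/
noncomputable def aa (k : ℕ) : ℝ := ((k : ℝ) + 1) * tn k * sq k

lemma cA_pos : 0 < cA := mul_pos U_pos E_pos

lemma aa_eq (k : ℕ) : aa k = E / (√2 * Stirling.stirlingSeq (k + 1)) := by
  have h := cc_stirling k
  have hs : 0 < Stirling.stirlingSeq (k + 1) := Stirling.stirlingSeq'_pos k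
  have hE := E_pos
  have hEk : 0 < E ^ k := pow_pos hE k
  have h2 : (0 : ℝ) < √2 := by positivity
  rw [eq_div_iff (by positivity)]
  have h3 : aa k = cc k * sq k / E ^ k := by
    unfold aa tn
    rw [cc_eq]
    ring
  rw [h3, div_mul_eq_mul_div, div_eq_iff hEk.ne', ← pow_succ', ← h]
  ring

lemma aa_pos (k : ℕ) : 0 < aa k := by
  have := tn_pos k
  have := sq_pos k
  unfold aa
  positivity

lemma aa_mono : Monotone aa := by
  intro a b hab
  rw [aa_eq, aa_eq]
  have h1 : Stirling.stirlingSeq (b + 1) ≤ Stirling.stirlingSeq (a + 1) :=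
    Stirling.stirlingSeq'_antitone hab
  have h2 : 0 < Stirling.stirlingSeq (b + 1) := Stirling.stirlingSeq'_pos b
  have hE := E_pos
  have h3 : (0 : ℝ) < √2 := by positivity
  exact div_le_div_of_nonneg_left hE.le (by positivity) (mul_le_mul_of_nonneg_left h1 h3.le)

lemma sqrt_two_pi_mul_U : √2 * √Real.pi * U = 1 := by
  unfold U
  have hpi := Real.pi_pos
  rw [← Real.sqrt_mul (by norm_num)]
  have : 0 < √(2 * Real.pi) := Real.sqrt_pos.mpr (by positivity)
  field_simp

lemma cA_eq : cA = E / (√2 * √Real.pi) := by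
  have h2 : (0 : ℝ) < √2 := by positivity
  have hpi : 0 < √Real.pi := Real.sqrt_pos.mpr Real.pi_pos
  rw [eq_div_iff (by positivity), cA]
  calc U * E * (√2 * √Real.pi) = (√2 * √Real.pi * U) * E := by ring
    _ = E := by rw [sqrt_two_pi_mul_U, one_mul]

lemma aa_le (k : ℕ) : aa k ≤ cA := by
  rw [aa_eq, cA_eq]
  have h1 := Stirling.sqrt_pi_le_stirlingSeq (n := k + 1) (by omega)
  have hE := E_pos
  have h3 : (0 : ℝ) < √2 := by positivity
  have hpi : 0 < √Real.pi := Real.sqrt_pos.mpr Real.pi_pos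
  exact div_le_div_of_nonneg_left hE.le (by positivity) (mul_le_mul_of_nonneg_left h1 h3.le)

lemma tn_le_cA (k : ℕ) : tn k ≤ cA / (((k : ℝ) + 1) * sq k) := by
  have h := aa_le k
  have hs := sq_pos k
  rw [le_div_iff₀ (by positivity)]
  unfold aa at h
  linarith

/-- Robbins' bound for one step. -/
lemma log_stirling_step (m : ℕ) :
    Real.log (Stirling.stirlingSeq (m + 1)) - Real.log (Stirling.stirlingSeq (m + 2)) ≤
      1 / (12 * ((m : ℝ) + 1)) - 1 / (12 * ((m : ℝ) + 2)) := by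
  have h := Stirling.log_stirlingSeq_sdiff_hasSum m
  set r : ℝ := (1 / (2 * ((m + 1 : ℕ) : ℝ) + 1)) ^ 2 with hr
  have hm : (0 : ℝ) ≤ m := Nat.cast_nonneg m
  have hr0 : 0 < r := by rw [hr]; positivity
  have hr1 : r < 1 := by
    rw [hr, div_pow, one_pow, div_lt_one (by positivity)]
    push_cast
    nlinarith
  have hg : HasSum (fun k : ℕ => (1 / 3 : ℝ) * r ^ (k + 1)) (1 / 3 * (r / (1 - r))) := by
    have h1 := (hasSum_geometric_of_lt_one hr0.le hr1).mul_left (1 / 3 * r)
    have h2 : (fun k : ℕ => (1 / 3 : ℝ) * r ^ (k + 1)) = fun k : ℕ => 1 / 3 * r * r ^ k := by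
      funext k; ring
    rw [h2]
    have h3 : (1 / 3 : ℝ) * (r / (1 - r)) = 1 / 3 * r * (1 - r)⁻¹ := by
      rw [div_eq_mul_inv]; ring
    rw [h3]
    exact h1
  have hle := hasSum_le (fun k => ?_) h hg
  · refine hle.trans (le_of_eq ?_)
    have h4 : r / (1 - r) = 1 / (4 * ((m : ℝ) + 1) * ((m : ℝ) + 2)) := by
      rw [div_eq_div_iff (by linarith) (by positivity), hr]
      push_cast
      field_simp
      ring
    rw [h4]
    field_simp
    ring
  · have h1 : (1 : ℝ) / (2 * ((k + 1 : ℕ) : ℝ) + 1) ≤ 1 / 3 := by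
      apply one_div_le_one_div_of_le (by norm_num)
      push_cast
      have : (0 : ℝ) ≤ k := Nat.cast_nonneg k
      linarith
    exact mul_le_mul_of_nonneg_right h1 (by positivity)

lemma log_stirling_ge (m : ℕ) :
    Real.log (Stirling.stirlingSeq (m + 1)) ≤ Real.log √Real.pi + 1 / (12 * ((m : ℝ) + 1)) := by
  have hanti : Antitone fun k : ℕ => -(Real.log (Stirling.stirlingSeq (k + 1)) -
      1 / (12 * ((k : ℝ) + 1))) := by
    refine antitone_nat_of_succ_le fun k => ?_
    have h := log_stirling_step k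
    push_cast
    have e : (k : ℝ) + 1 + 1 = (k : ℝ) + 2 := by ring
    rw [e]
    linarith
  have hlim : Filter.Tendsto (fun k : ℕ => -(Real.log (Stirling.stirlingSeq (k + 1)) -
      1 / (12 * ((k : ℝ) + 1)))) Filter.atTop (nhds (-(Real.log √Real.pi - 0))) := by
    have hpi : √Real.pi ≠ 0 := (Real.sqrt_pos.mpr Real.pi_pos).ne'
    have h1 : Filter.Tendsto (fun k : ℕ => Real.log (Stirling.stirlingSeq (k + 1))) Filter.atTop
        (nhds (Real.log √Real.pi)) :=
      ((Filter.tendsto_add_atTop_iff_nat 1).mpr Stirling.tendsto_stirlingSeq_sqrt_pi).log hpi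
    have h2 : Filter.Tendsto (fun k : ℕ => 1 / (12 * ((k : ℝ) + 1))) Filter.atTop (nhds 0) := by
      have h3 := (tendsto_one_div_add_atTop_nhds_zero_nat (𝕜 := ℝ)).const_mul (1 / 12)
      rw [mul_zero] at h3
      refine h3.congr fun k => ?_
      have : (0 : ℝ) < (k : ℝ) + 1 := by positivity
      field_simp
    exact (h1.sub h2).neg
  have h := hanti.le_of_tendsto hlim m
  linarith

lemma le_aa_exp (k : ℕ) : cA * Real.exp (-(1 / (12 * ((k : ℝ) + 1)))) ≤ aa k := by
  have h := log_stirling_ge k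
  have hs : 0 < Stirling.stirlingSeq (k + 1) := Stirling.stirlingSeq'_pos k
  have hpi : 0 < √Real.pi := Real.sqrt_pos.mpr Real.pi_pos
  have h1 : Stirling.stirlingSeq (k + 1) ≤ √Real.pi * Real.exp (1 / (12 * ((k : ℝ) + 1))) := by
    calc Stirling.stirlingSeq (k + 1) = Real.exp (Real.log (Stirling.stirlingSeq (k + 1))) :=
          (Real.exp_log hs).symm
      _ ≤ Real.exp (Real.log √Real.pi + 1 / (12 * ((k : ℝ) + 1))) := Real.exp_le_exp.mpr h
      _ = _ := by rw [Real.exp_add, Real.exp_log hpi]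
  rw [aa_eq, cA_eq, Real.exp_neg, ← div_eq_mul_inv, div_div]
  have hE := E_pos
  have h3 : (0 : ℝ) < √2 := by positivity
  apply div_le_div_of_nonneg_left hE.le (by positivity)
  rw [mul_assoc]
  exact mul_le_mul_of_nonneg_left h1 h3.le

lemma le_aa (k : ℕ) : cA * (1 - 1 / (12 * ((k : ℝ) + 1))) ≤ aa k := by
  refine le_trans (mul_le_mul_of_nonneg_left ?_ cA_pos.le) (le_aa_exp k)
  have := Real.add_one_le_exp (-(1 / (12 * ((k : ℝ) + 1))))
  linarith

lemma le_tn_cA (k : ℕ) : cA * (1 - 1 / (12 * ((k : ℝ) + 1))) / (((k : ℝ) + 1) * sq k) ≤ tn k := by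
  have h := le_aa k
  have hs := sq_pos k
  rw [div_le_iff₀ (by positivity)]
  unfold aa at h
  linarith

lemma cA_lt : cA < 1.08444 := by
  have hE : E < 2.7182818286 := Real.exp_one_lt_d9
  have hpi := Real.pi_gt_d6
  have h1 : (2.506628 : ℝ) < √(2 * Real.pi) := by
    apply Real.lt_sqrt_of_sq_lt
    have : (2.506628 : ℝ) ^ 2 < 2 * 3.141592 := by norm_num
    linarith
  unfold cA U
  rw [div_mul_eq_mul_div, one_mul, div_lt_iff₀ (by linarith)]
  nlinarith

lemma lt_cA : 1.08443 < cA := by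
  have hE : 2.7182818283 < E := Real.exp_one_gt_d9
  have hpi := Real.pi_lt_d6
  have h1 : √(2 * Real.pi) < (2.50663 : ℝ) := by
    rw [Real.sqrt_lt' (by norm_num)]
    have : 2 * 3.141593 < (2.50663 : ℝ) ^ 2 := by norm_num
    linarith
  have h0 : 0 < √(2 * Real.pi) := Real.sqrt_pos.mpr (by have := Real.pi_pos; positivity)
  unfold cA U
  rw [div_mul_eq_mul_div, one_mul, lt_div_iff₀ h0]
  nlinarith

lemma le_aa_one {k : ℕ} (hk : 1 ≤ k) : 1.04 ≤ aa k := by
  refine le_trans ?_ (aa_mono hk)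
  have hE : E < 2.7182818286 := Real.exp_one_lt_d9
  have hE0 := E_pos
  unfold aa tn tt sq
  norm_num
  have h2 : (1.414213 : ℝ) < √2 := by
    apply Real.lt_sqrt_of_sq_lt
    norm_num
  rw [← div_eq_mul_inv, div_mul_eq_mul_div, div_le_div_iff₀ (by norm_num) hE0]
  nlinarith

lemma le_aa_twenty {k : ℕ} (hk : 20 ≤ k) : 1.08 ≤ aa k := by
  refine le_trans ?_ (aa_mono hk)
  have h := le_aa 20
  have h1 := lt_cA
  refine le_trans ?_ h
  norm_num
  nlinarith

/-- The step of the upper telescoping. -/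
lemma inv_pow_le {n : ℕ} (hn : 1 ≤ n) :
    1 / (((n : ℝ) + 1) * sq n) ≤ 2 * (1 / √(n : ℝ) - 1 / sq n) := by
  have hn0 : (0 : ℝ) < n := by exact_mod_cast hn
  have h2 := sq_pos n
  have h4 := sq_sq n
  have h5 : √(n : ℝ) * √(n : ℝ) = n := Real.mul_self_sqrt hn0.le
  have h6 : 0 < √(n : ℝ) := Real.sqrt_pos.mpr hn0
  have h8 : √(n : ℝ) ≤ sq n := by
    unfold sq
    apply Real.sqrt_le_sqrt
    linarith
  rw [div_sub_div _ _ h6.ne' h2.ne', mul_div_assoc', div_le_div_iff₀ (by positivity) (by positivity),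
    ← h4]
  have h9 : (sq n - √(n : ℝ)) * (sq n + √(n : ℝ)) = 1 := by nlinarith
  have h10 : 1 ≤ (sq n - √(n : ℝ)) * (2 * sq n) := by
    have : 0 ≤ sq n - √(n : ℝ) := by linarith
    nlinarith
  have h11 : √(n : ℝ) * sq n ≤ (sq n - √(n : ℝ)) * (2 * sq n) * (sq n * sq n) := by
    have h12 : √(n : ℝ) * sq n ≤ sq n * sq n := mul_le_mul_of_nonneg_right h8 h2.le
    have h13 : 0 < sq n * sq n := by positivity
    nlinarith
  nlinarith

/-- The step of the lower telescoping. -/
lemma le_inv_pow (n : ℕ) : 2 * (1 / sq n - 1 / sq (n + 1)) ≤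
    (1 - 1 / (12 * ((n : ℝ) + 1))) / (((n : ℝ) + 1) * sq n) := by
  set x : ℝ := (n : ℝ) + 1 with hx
  have hx1 : 1 ≤ x := by
    have : (0 : ℝ) ≤ n := Nat.cast_nonneg n
    linarith
  set p := sq n with hp
  set q := sq (n + 1) with hq
  have hp0 : 0 < p := sq_pos n
  have hq0 : 0 < q := sq_pos (n + 1)
  have hpp : p * p = x := sq_sq n
  have hqq : q * q = x + 1 := by
    have := sq_sq (n + 1)
    rw [← hq] at this
    push_cast at this
    linarith
  have hpq : x + 1 / 3 ≤ p * q := by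
    apply le_of_sq_le_sq _ (by positivity)
    have : (p * q) ^ 2 = x * (x + 1) := by
      calc (p * q) ^ 2 = (p * p) * (q * q) := by ring
        _ = _ := by rw [hpp, hqq]
    rw [this]
    nlinarith
  have hd : (q - p) * (q + p) = 1 := by nlinarith
  have key : 24 * x ^ 2 * (q - p) ≤ (12 * x - 1) * q := by
    have h1 : 24 * x ^ 2 ≤ (12 * x - 1) * (q * (q + p)) := by
      have h2 : 2 * x + 4 / 3 ≤ q * (q + p) := by nlinarith
      have h3 : 24 * x ^ 2 ≤ (12 * x - 1) * (2 * x + 4 / 3) := by nlinarith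
      exact h3.trans (mul_le_mul_of_nonneg_left h2 (by linarith))
    have h4 : 0 ≤ q - p := by nlinarith
    calc 24 * x ^ 2 * (q - p) ≤ (12 * x - 1) * (q * (q + p)) * (q - p) :=
          mul_le_mul_of_nonneg_right h1 h4
      _ = (12 * x - 1) * q * ((q - p) * (q + p)) := by ring
      _ = _ := by rw [hd, mul_one]
  have e1 : 2 * (1 / p - 1 / q) = 2 * (q - p) / (p * q) := by field_simp
  have e2 : (1 - 1 / (12 * x)) / (x * p) = (12 * x - 1) / (12 * x * (x * p)) := by
    have : x ≠ 0 := by positivity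
    field_simp
  rw [e1, e2, div_le_div_iff₀ (by positivity) (by positivity)]
  have h5 : 2 * (q - p) * (12 * x * (x * p)) = (24 * x ^ 2 * (q - p)) * p := by ring
  have h6 : (12 * x - 1) * (p * q) = ((12 * x - 1) * q) * p := by ring
  rw [h5, h6]
  exact mul_le_mul_of_nonneg_right key hp0.le

lemma sq_cast (m : ℕ) : √((m + 1 : ℕ) : ℝ) = sq m := by unfold sq; push_cast; rfl

lemma sum_Ico_tn_le {a b : ℕ} (ha : 1 ≤ a) (hab : a ≤ b) :
    ∑ j ∈ Ico a b, tn j ≤ 2 * cA * (1 / √(a : ℝ) - 1 / √(b : ℝ)) := by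
  induction b, hab using Nat.le_induction with
  | base => simp
  | succ b hb ih =>
    rw [Finset.sum_Ico_succ_top hb, sq_cast]
    have h1 := tn_le_cA b
    have h2 := inv_pow_le (ha.trans hb)
    have h3 : cA / (((b : ℝ) + 1) * sq b) = cA * (1 / (((b : ℝ) + 1) * sq b)) := by ring
    rw [h3] at h1
    have h4 := mul_le_mul_of_nonneg_left h2 cA_pos.le
    linarith

lemma le_sum_Ico_tn {a b : ℕ} (hab : a ≤ b) :
    2 * cA * (1 / sq a - 1 / sq b) ≤ ∑ j ∈ Ico a b, tn j := by
  induction b, hab using Nat.le_induction with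
  | base => simp
  | succ b hb ih =>
    rw [Finset.sum_Ico_succ_top hb]
    have h1 := le_tn_cA b
    have h2 := le_inv_pow b
    have h3 : cA * (1 - 1 / (12 * ((b : ℝ) + 1))) / (((b : ℝ) + 1) * sq b) =
        cA * ((1 - 1 / (12 * ((b : ℝ) + 1))) / (((b : ℝ) + 1) * sq b)) := by ring
    rw [h3] at h1
    have h4 := mul_le_mul_of_nonneg_left h2 cA_pos.le
    linarith

lemma tendsto_sum_tn : Filter.Tendsto (fun m => ∑ j ∈ range m, tn j) Filter.atTop (nhds E) := by
  have hE := E_pos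
  have hW : Filter.Tendsto WW Filter.atTop Filter.atTop := by
    refine Filter.tendsto_atTop_mono le_WW ?_
    have h1 : Filter.Tendsto (fun y : ℕ => √(y : ℝ)) Filter.atTop Filter.atTop :=
      Real.tendsto_sqrt_atTop.comp tendsto_natCast_atTop_atTop
    exact h1.atTop_div_const hE
  have h1 : Filter.Tendsto (fun y => E * (1 - 1 / (1 + WW y))) Filter.atTop (nhds E) := by
    have h2 : Filter.Tendsto (fun y => 1 + WW y) Filter.atTop Filter.atTop :=
      Filter.tendsto_atTop_add_const_left _ _ hW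
    have h3 : Filter.Tendsto (fun y => 1 / (1 + WW y)) Filter.atTop (nhds 0) := by
      simp only [one_div]
      exact h2.inv_tendsto_atTop
    have h4 := (h3.const_sub 1).const_mul E
    simpa using h4
  exact tendsto_of_tendsto_of_tendsto_of_le_of_le h1 tendsto_const_nhds
    (fun y => le_sum_tn y) (fun y => sum_tn_le y)

lemma hasSum_tn : HasSum tn E :=
  (hasSum_iff_tendsto_nat_of_nonneg (fun k => (tn_pos k).le) E).mpr tendsto_sum_tn

/-- Upper bound of the tail. -/
theorem E_sub_sum_le {m : ℕ} (hm : 1 ≤ m) : E - ∑ j ∈ range m, tn j ≤ 2 * cA / √(m : ℝ) := by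
  have h1 : Filter.Tendsto (fun N => ∑ j ∈ range N, tn j - ∑ j ∈ range m, tn j) Filter.atTop
      (nhds (E - ∑ j ∈ range m, tn j)) := tendsto_sum_tn.sub_const _
  refine le_of_tendsto h1 (Filter.eventually_atTop.mpr ⟨m, fun N hN => ?_⟩)
  have h2 := sum_Ico_tn_le hm hN
  rw [Finset.sum_Ico_eq_sub _ hN] at h2
  refine h2.trans ?_
  have h3 : 0 ≤ 2 * cA * (1 / √(N : ℝ)) := by have := cA_pos; positivity
  have h4 : 2 * cA / √(m : ℝ) = 2 * cA * (1 / √(m : ℝ)) := by ring
  rw [h4]
  linarith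

/-- Lower bound of the tail. -/
theorem le_E_sub_sum (m : ℕ) : 2 * cA / sq m ≤ E - ∑ j ∈ range m, tn j := by
  have h1 : Filter.Tendsto (fun N => ∑ j ∈ range N, tn j - ∑ j ∈ range m, tn j) Filter.atTop
      (nhds (E - ∑ j ∈ range m, tn j)) := tendsto_sum_tn.sub_const _
  have h2 : Filter.Tendsto (fun N : ℕ => 2 * cA * (1 / sq m - 1 / sq N)) Filter.atTop
      (nhds (2 * cA * (1 / sq m - 0))) := by
    have h3 : Filter.Tendsto (fun N : ℕ => 1 / sq N) Filter.atTop (nhds 0) := by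
      have h4 : Filter.Tendsto sq Filter.atTop Filter.atTop := by
        have h5 : Filter.Tendsto (fun y : ℕ => (y : ℝ) + 1) Filter.atTop Filter.atTop :=
          Filter.tendsto_atTop_add_const_right _ _ tendsto_natCast_atTop_atTop
        exact Real.tendsto_sqrt_atTop.comp h5
      simp only [one_div]
      exact h4.inv_tendsto_atTop
    exact (h3.const_sub _).const_mul _
  have h4 : 2 * cA / sq m = 2 * cA * (1 / sq m - 0) := by ring
  rw [h4]
  refine le_of_tendsto_of_tendsto h2 h1 (Filter.eventually_atTop.mpr ⟨m, fun N hN => ?_⟩)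
  have h5 := le_sum_Ico_tn hN
  rw [Finset.sum_Ico_eq_sub _ hN] at h5
  exact h5

lemma two_cA_lt : 2 * cA < 2.16888 := by have := cA_lt; linarith

lemma lt_two_cA : 2.16886 < 2 * cA := by have := lt_cA; linarith

/-- `tn` in terms of `aa`. -/
lemma tn_eq_aa (k : ℕ) : tn k = aa k / (((k : ℝ) + 1) * sq k) := by
  have hs := sq_pos k
  unfold aa
  field_simp

/-- Ratio of two values of `tn`. -/
lemma tn_ratio_ge {a b : ℕ} (hab : a ≤ b) :
    tn a * ((((a : ℝ) + 1) * sq a) / (((b : ℝ) + 1) * sq b)) ≤ tn b := by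
  have h := aa_mono hab
  have ha := sq_pos a
  have hb := sq_pos b
  rw [tn_eq_aa a, tn_eq_aa b, div_mul_div_comm, div_le_div_iff₀ (by positivity) (by positivity)]
  have h2 : 0 < (((a : ℝ) + 1) * sq a) * (((b : ℝ) + 1) * sq b) := by positivity
  nlinarith

end Pool.Agent.MP_9da1e3_co
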