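import Pool.Agent.Lib.MP_9da1e3_co.Ct1

/-! Sharp constants for `ww` and the tails of `tn`. -/

namespace Pool.Agent.MP_9da1e3_co

open Finset

lemma ww_eq_tn (k : ℕ) : ww k = ((k : ℝ) + 1) * (tn k / E) := by
  have hE := E_pos
  have : 0 < E ^ k := pow_pos hE k
  unfold ww tn
  rw [cc_eq, pow_succ]
  field_simp

lemma tn_div_E (k : ℕ) : tn k / E = ww k / ((k : ℝ) + 1) := by
  rw [ww_eq_tn]
  field_simp

lemma ww_mul_sq (k : ℕ) : ww k * sq k = aa k / E := by
  rw [ww_eq_tn]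
  unfold aa
  ring

lemma U_lt : U < 0.398943 := by
  have h := cA_lt
  have hE : 2.7182818283 < E := Real.exp_one_gt_d9
  unfold cA at h
  have hpi := Real.pi_gt_d6
  have h1 : (2.506628 : ℝ) < √(2 * Real.pi) := by
    apply Real.lt_sqrt_of_sq_lt
    have : (2.506628 : ℝ) ^ 2 < 2 * 3.141592 := by norm_num
    linarith
  unfold U
  rw [div_lt_iff₀ (by linarith)]
  nlinarith

lemma lt_U : 0.39894 < U := by
  have hpi := Real.pi_lt_d6
  have h1 : √(2 * Real.pi) < (2.506629 : ℝ) := by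
    rw [Real.sqrt_lt' (by norm_num)]
    have : 2 * 3.141593 < (2.506629 : ℝ) ^ 2 := by norm_num
    linarith
  have h0 : 0 < √(2 * Real.pi) := Real.sqrt_pos.mpr (by have := Real.pi_pos; positivity)
  unfold U
  rw [lt_div_iff₀ h0]
  nlinarith

lemma ww_mul_sq_le_U (k : ℕ) : ww k * sq k ≤ U := by
  rw [ww_mul_sq, div_le_iff₀ E_pos]
  exact aa_le k

lemma U_le_ww_mul_sq (k : ℕ) : U * (1 - 1 / (12 * ((k : ℝ) + 1))) ≤ ww k * sq k := by
  rw [ww_mul_sq, le_div_iff₀ E_pos]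
  have h := le_aa k
  unfold cA at h
  linarith

lemma ww_mul_sq_le_num (k : ℕ) : ww k * sq k ≤ 0.39895 := by
  have := ww_mul_sq_le_U k
  have := U_lt
  linarith

lemma num_le_ww_mul_sq (k : ℕ) : 0.3989 * (1 - 1 / (11 * ((k : ℝ) + 1))) ≤ ww k * sq k := by
  refine le_trans ?_ (U_le_ww_mul_sq k)
  have hU := lt_U
  have hk : (0 : ℝ) ≤ k := Nat.cast_nonneg k
  have h1 : 1 / (12 * ((k : ℝ) + 1)) ≤ 1 / (11 * ((k : ℝ) + 1)) := by
    apply one_div_le_one_div_of_le (by positivity)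
    nlinarith
  have h2 : 1 / (11 * ((k : ℝ) + 1)) ≤ 1 := by
    rw [div_le_one (by positivity)]
    nlinarith
  have h3 : 0 ≤ 1 - 1 / (11 * ((k : ℝ) + 1)) := by linarith
  calc 0.3989 * (1 - 1 / (11 * ((k : ℝ) + 1))) ≤ U * (1 - 1 / (11 * ((k : ℝ) + 1))) :=
        mul_le_mul_of_nonneg_right (by linarith) h3
    _ ≤ _ := mul_le_mul_of_nonneg_left (by linarith) U_pos.le

lemma ww_le_U (k : ℕ) : ww k ≤ U / sq k := by
  rw [le_div_iff₀ (sq_pos k)]
  exact ww_mul_sq_le_U k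

/-- `(1 + 1/(k+1))^(k+1)`. -/
noncomputable def rk (k : ℕ) : ℝ := (1 + 1 / ((k : ℝ) + 1)) ^ (k + 1)

lemma ww_succ (k : ℕ) : E * ww (k + 1) = rk k * ww k := by
  have hE := E_pos
  have h1 : (0 : ℝ) < (k : ℝ) + 1 := by positivity
  have h2 : (0 : ℝ) < (k.factorial : ℝ) := by positivity
  have h3 : 0 < E ^ (k + 1) := pow_pos hE _
  have h4 : (1 + 1 / ((k : ℝ) + 1)) ^ (k + 1) = ((k : ℝ) + 2) ^ (k + 1) / ((k : ℝ) + 1) ^ (k + 1) := by
    rw [← div_pow]
    congr 1
    field_simp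
    ring
  unfold ww cc rk
  rw [h4, Nat.factorial_succ]
  push_cast
  have h5 : (k : ℝ) + 1 + 1 = (k : ℝ) + 2 := by ring
  rw [h5, pow_succ E (k + 1), pow_succ ((k : ℝ) + 1) k]
  field_simp

lemma rk_eq_exp (k : ℕ) : rk k = Real.exp (((k : ℝ) + 1) * Real.log (1 + ((k : ℝ) + 1)⁻¹)) := by
  have h1 : (0 : ℝ) < 1 + ((k : ℝ) + 1)⁻¹ := by positivity
  unfold rk
  rw [mul_comm, Real.exp_mul, Real.exp_log h1, one_div]
  have : ((k : ℝ) + 1) = ((k + 1 : ℕ) : ℝ) := by push_cast; rfl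
  rw [this, Real.rpow_natCast]

lemma rk_le (k : ℕ) : rk k * (2 + 1 / ((k : ℝ) + 2)) ≤ 2 * E := by
  have hj : (0 : ℝ) < (k : ℝ) + 1 := by positivity
  set j : ℝ := (k : ℝ) + 1 with hjd
  set z : ℝ := 1 / (2 * j + 1) with hz
  have hz0 : 0 < z := by rw [hz]; positivity
  have hz1 : z < 1 := by
    rw [hz, div_lt_one (by positivity)]
    linarith
  have h := Real.hasSum_log_one_add_inv hj
  have hzz : z ^ 2 < 1 := by nlinarith
  have hg : HasSum (fun n : ℕ => 2 * z * (z ^ 2) ^ n) (2 * z * (1 - z ^ 2)⁻¹) :=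
    (hasSum_geometric_of_lt_one (by positivity) hzz).mul_left _
  have hle : Real.log (1 + j⁻¹) ≤ 2 * z * (1 - z ^ 2)⁻¹ := by
    refine hasSum_le (fun n => ?_) h hg
    have h1 : (1 : ℝ) / (2 * n + 1) ≤ 1 := by
      rw [div_le_one (by positivity)]
      have : (0 : ℝ) ≤ n := Nat.cast_nonneg n
      linarith
    have h2 : 2 * z * (z ^ 2) ^ n = 2 * 1 * z ^ (2 * n + 1) := by
      rw [← pow_mul, pow_succ]; ring
    rw [h2]
    have h3 : 0 ≤ z ^ (2 * n + 1) := by positivity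
    nlinarith
  have e1 : j * (2 * z * (1 - z ^ 2)⁻¹) = 1 - 1 / (2 * (j + 1)) := by
    have h4 : 1 - z ^ 2 ≠ 0 := by linarith
    have h5 : (1 - z ^ 2) = 4 * j * (j + 1) / (2 * j + 1) ^ 2 := by
      rw [hz]; field_simp; ring
    rw [h5, hz]
    field_simp
    ring
  have h2 : rk k ≤ Real.exp (1 - 1 / (2 * (j + 1))) := by
    rw [rk_eq_exp, ← e1]
    exact Real.exp_le_exp.mpr (mul_le_mul_of_nonneg_left hle hj.le)
  have h3 : 1 + 1 / (2 * (j + 1)) ≤ Real.exp (1 / (2 * (j + 1))) := by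
    have := Real.add_one_le_exp (1 / (2 * (j + 1)))
    linarith
  have e2 : 2 + 1 / ((k : ℝ) + 2) = 2 * (1 + 1 / (2 * (j + 1))) := by
    rw [hjd]
    have : (k : ℝ) + 1 + 1 = (k : ℝ) + 2 := by ring
    rw [this]
    field_simp
  have h4 : 0 < 1 + 1 / (2 * (j + 1)) := by positivity
  calc rk k * (2 + 1 / ((k : ℝ) + 2)) = 2 * (rk k * (1 + 1 / (2 * (j + 1)))) := by rw [e2]; ring
    _ ≤ 2 * (Real.exp (1 - 1 / (2 * (j + 1))) * Real.exp (1 / (2 * (j + 1)))) := by
        apply mul_le_mul_of_nonneg_left _ (by norm_num)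
        exact mul_le_mul h2 h3 h4.le (Real.exp_pos _).le
    _ = 2 * E := by
        rw [← Real.exp_add]
        unfold E
        congr 2
        ring

lemma exp_cubic_le {p : ℝ} (h0 : p ≤ 0) (h1 : -1 ≤ p) :
    1 + p + p ^ 2 / 2 + 2 / 9 * p ^ 3 ≤ Real.exp p := by
  have h := Real.exp_bound (x := p) (by rw [abs_le]; constructor <;> linarith) (n := 3) (by norm_num)
  have h2 := (abs_le.mp h).1
  rw [abs_of_nonpos h0] at h2
  simp only [Finset.sum_range_succ, Finset.sum_range_zero, Nat.factorial] at h2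
  norm_num at h2
  nlinarith

lemma le_rk (k : ℕ) : E * (2 - 7 / (18 * ((k : ℝ) + 1))) ≤ rk k * (2 + 11 / (18 * ((k : ℝ) + 2))) := by
  have hj : (0 : ℝ) < (k : ℝ) + 1 := by positivity
  have hj1 : (1 : ℝ) ≤ (k : ℝ) + 1 := by
    have : (0 : ℝ) ≤ k := Nat.cast_nonneg k
    linarith
  have ej : (k : ℝ) + 2 = ((k : ℝ) + 1) + 1 := by ring
  rw [ej, rk_eq_exp]
  set j : ℝ := (k : ℝ) + 1 with hjd
  set z : ℝ := 1 / (2 * j + 1) with hz
  have hz0 : 0 < z := by rw [hz]; positivity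
  have hz1 : z ≤ 1 / 3 := by
    rw [hz]
    apply one_div_le_one_div_of_le (by norm_num)
    linarith
  have hjz : j = (1 - z) / (2 * z) := by
    rw [hz]
    field_simp
    ring
  have h := Real.hasSum_log_one_add_inv hj
  have hle : 2 * z + 2 / 3 * z ^ 3 ≤ Real.log (1 + j⁻¹) := by
    have h1 := sum_le_hasSum (range 2) (fun n _ => by positivity) h
    simp only [Finset.sum_range_succ, Finset.sum_range_zero] at h1
    rw [← hz] at h1
    norm_num at h1
    linarith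
  have hp : 1 + (-z + z ^ 2 / 3 - z ^ 3 / 3) ≤ j * Real.log (1 + j⁻¹) := by
    refine le_trans (le_of_eq ?_) (mul_le_mul_of_nonneg_left hle hj.le)
    rw [hjz]
    field_simp
    ring
  set p : ℝ := -z + z ^ 2 / 3 - z ^ 3 / 3 with hpd
  have hQ : 1 + p + p ^ 2 / 2 + 2 / 9 * p ^ 3 ≤ Real.exp p := by
    have hp0 : p ≤ 0 := by
      rw [hpd]
      nlinarith [sq_nonneg z, mul_pos hz0 hz0, pow_pos hz0 3]
    have hp1 : -1 ≤ p := by
      rw [hpd]
      nlinarith [sq_nonneg z, mul_pos hz0 hz0, pow_pos hz0 3, pow_le_pow_left₀ hz0.le hz1 3]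
    exact exp_cubic_le hp0 hp1
  have hexp : E * (1 + p + p ^ 2 / 2 + 2 / 9 * p ^ 3) ≤ Real.exp (j * Real.log (1 + j⁻¹)) := by
    calc E * (1 + p + p ^ 2 / 2 + 2 / 9 * p ^ 3) ≤ E * Real.exp p :=
          mul_le_mul_of_nonneg_left hQ E_pos.le
      _ = Real.exp (1 + p) := by rw [Real.exp_add]; rfl
      _ ≤ _ := Real.exp_le_exp.mpr hp
  have h11 : 0 < 2 + 11 / (18 * (j + 1)) := by positivity
  refine le_trans ?_ (mul_le_mul_of_nonneg_right hexp h11.le)
  rw [mul_assoc]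
  apply mul_le_mul_of_nonneg_left _ E_pos.le
  have e1 : 2 - 7 / (18 * j) = (18 - 25 * z) / (9 * (1 - z)) := by
    have : (1 - z) ≠ 0 := by linarith
    rw [hjz]
    field_simp
    ring
  have e2 : 2 + 11 / (18 * (j + 1)) = (18 + 29 * z) / (9 * (1 + z)) := by
    have h1 : j + 1 = (1 + z) / (2 * z) := by
      rw [hjz]
      field_simp
      ring
    rw [h1]
    field_simp
    ring
  clear_value z
  rw [e1, e2, mul_div_assoc', div_le_div_iff₀ (by nlinarith) (by positivity)]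
  have key : (1 - z) * (18 + 29 * z) * (1 + p + p ^ 2 / 2 + 2 / 9 * p ^ 3) - (18 - 25 * z) * (1 + z) =
      z ^ 3 * ((133 / 6 - 413 / 18 * z) + z ^ 2 * (151 / 6 - 331 / 18 * z) +
        z ^ 4 * (6011 / 486 - 3299 / 486 * z) + z ^ 6 * (242 / 81 - 196 / 243 * z) +
        58 / 243 * z ^ 8) := by
    rw [hpd]
    ring
  have hR : 0 ≤ z ^ 3 * ((133 / 6 - 413 / 18 * z) + z ^ 2 * (151 / 6 - 331 / 18 * z) +
        z ^ 4 * (6011 / 486 - 3299 / 486 * z) + z ^ 6 * (242 / 81 - 196 / 243 * z) +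
        58 / 243 * z ^ 8) := by
    have a1 : 0 ≤ 133 / 6 - 413 / 18 * z := by linarith
    have a2 : 0 ≤ 151 / 6 - 331 / 18 * z := by linarith
    have a3 : 0 ≤ 6011 / 486 - 3299 / 486 * z := by linarith
    have a4 : 0 ≤ 242 / 81 - 196 / 243 * z := by linarith
    positivity
  nlinarith

/-- Step of the telescoping, upper bound of the tail. -/
lemma tn_step_le_ct (k : ℕ) : tn (k + 1) / E ≤ 2 * ww k - 2 * ww (k + 1) := by
  have hE := E_pos
  have h1 := rk_le k
  have h2 := ww_succ k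
  have h3 := ww_pos k
  have h4 : tn (k + 1) / E = ww (k + 1) / ((k : ℝ) + 2) := by
    rw [tn_div_E]
    push_cast
    congr 1
    ring
  rw [h4]
  have h5 : E * (ww (k + 1) / ((k : ℝ) + 2) + 2 * ww (k + 1)) ≤ E * (2 * ww k) := by
    calc E * (ww (k + 1) / ((k : ℝ) + 2) + 2 * ww (k + 1)) =
          (E * ww (k + 1)) * (2 + 1 / ((k : ℝ) + 2)) := by ring
      _ = (rk k * (2 + 1 / ((k : ℝ) + 2))) * ww k := by rw [h2]; ring
      _ ≤ (2 * E) * ww k := mul_le_mul_of_nonneg_right h1 h3.le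
      _ = _ := by ring
  have := le_of_mul_le_mul_left h5 hE
  linarith

/-- Step of the telescoping, lower bound of the tail. -/
lemma le_tn_step (k : ℕ) : (2 * ww k - 7 / 18 * (tn k / E)) -
    (2 * ww (k + 1) - 7 / 18 * (tn (k + 1) / E)) ≤ tn (k + 1) / E := by
  have hE := E_pos
  have h1 := le_rk k
  have h2 := ww_succ k
  have h3 := ww_pos k
  have h4 : tn (k + 1) / E = ww (k + 1) / ((k : ℝ) + 2) := by
    rw [tn_div_E]
    push_cast
    congr 1
    ring
  rw [h4, tn_div_E k]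
  have h5 : E * (2 * ww k - 7 / 18 * (ww k / ((k : ℝ) + 1))) ≤
      E * (2 * ww (k + 1) + 11 / 18 * (ww (k + 1) / ((k : ℝ) + 2))) := by
    calc E * (2 * ww k - 7 / 18 * (ww k / ((k : ℝ) + 1))) =
          (E * (2 - 7 / (18 * ((k : ℝ) + 1)))) * ww k := by field_simp
      _ ≤ (rk k * (2 + 11 / (18 * ((k : ℝ) + 2)))) * ww k :=
          mul_le_mul_of_nonneg_right h1 h3.le
      _ = (E * ww (k + 1)) * (2 + 11 / (18 * ((k : ℝ) + 2))) := by rw [h2]; ring
      _ = _ := by field_simp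
  have := le_of_mul_le_mul_left h5 hE
  linarith

lemma tendsto_ww : Filter.Tendsto ww Filter.atTop (nhds 0) := by
  have h4 : Filter.Tendsto sq Filter.atTop Filter.atTop := by
    have h5 : Filter.Tendsto (fun y : ℕ => (y : ℝ) + 1) Filter.atTop Filter.atTop :=
      Filter.tendsto_atTop_add_const_right _ _ tendsto_natCast_atTop_atTop
    exact Real.tendsto_sqrt_atTop.comp h5
  have h1 : Filter.Tendsto (fun k => U / sq k) Filter.atTop (nhds 0) := by
    have := h4.inv_tendsto_atTop.const_mul U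
    rw [mul_zero] at this
    simp only [div_eq_mul_inv]
    exact this
  exact squeeze_zero (fun k => (ww_pos k).le) ww_le_U h1

lemma tendsto_tn : Filter.Tendsto (fun k => tn k / E) Filter.atTop (nhds 0) := by
  refine squeeze_zero (fun k => (div_pos (tn_pos k) E_pos).le) (fun k => ?_) tendsto_ww
  rw [tn_div_E]
  apply div_le_self (ww_pos k).le
  have : (0 : ℝ) ≤ k := Nat.cast_nonneg k
  linarith

lemma tendsto_tail (k : ℕ) : Filter.Tendsto
    (fun N => (∑ i ∈ range (N + 1), tn i) / E - (∑ i ∈ range (k + 1), tn i) / E) Filter.atTop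
    (nhds (1 - (∑ i ∈ range (k + 1), tn i) / E)) := by
  have h1 := ((Filter.tendsto_add_atTop_iff_nat 1).mpr tendsto_sum_tn).div_const E
  rw [div_self E_pos.ne'] at h1
  exact h1.sub_const _

/-- The tail is at most `2 ww k`. -/
theorem one_sub_sum_le (k : ℕ) : 1 - (∑ i ∈ range (k + 1), tn i) / E ≤ 2 * ww k := by
  refine le_of_tendsto (tendsto_tail k) (Filter.eventually_atTop.mpr ⟨k, fun N hN => ?_⟩)
  have key : ∀ N, k ≤ N → (∑ i ∈ range (N + 1), tn i) / E - (∑ i ∈ range (k + 1), tn i) / E ≤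
      2 * ww k - 2 * ww N := by
    intro N hN
    induction N, hN using Nat.le_induction with
    | base => simp
    | succ N hN ih =>
      rw [Finset.sum_range_succ _ (N + 1), add_div]
      have := tn_step_le_ct N
      linarith
  have := key N hN
  have := ww_pos N
  linarith

/-- The tail is at least `2 ww k - (7/18) tn k / E`. -/
theorem le_one_sub_sum (k : ℕ) : 2 * ww k - 7 / 18 * (tn k / E) ≤
    1 - (∑ i ∈ range (k + 1), tn i) / E := by
  have h0 : Filter.Tendsto (fun N => (2 * ww k - 7 / 18 * (tn k / E)) -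
      (2 * ww N - 7 / 18 * (tn N / E))) Filter.atTop
      (nhds ((2 * ww k - 7 / 18 * (tn k / E)) - (2 * 0 - 7 / 18 * 0))) :=
    ((tendsto_ww.const_mul 2).sub (tendsto_tn.const_mul (7 / 18))).const_sub _
  have e : (2 * ww k - 7 / 18 * (tn k / E)) =
      ((2 * ww k - 7 / 18 * (tn k / E)) - (2 * 0 - 7 / 18 * 0)) := by ring
  rw [e]
  refine le_of_tendsto_of_tendsto h0 (tendsto_tail k)
    (Filter.eventually_atTop.mpr ⟨k, fun N hN => ?_⟩)
  have key : ∀ N, k ≤ N → (2 * ww k - 7 / 18 * (tn k / E)) - (2 * ww N - 7 / 18 * (tn N / E)) ≤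
      (∑ i ∈ range (N + 1), tn i) / E - (∑ i ∈ range (k + 1), tn i) / E := by
    intro N hN
    induction N, hN using Nat.le_induction with
    | base => simp
    | succ N hN ih =>
      rw [Finset.sum_range_succ _ (N + 1), add_div]
      have := le_tn_step N
      linarith
  exact key N hN

end Pool.Agent.MP_9da1e3_co
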