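import Mathlib

/-!
Parking functions and their maximal displacement (definitions used in the statement).
Cars `0, …, n-1` arrive in this order on a street with the spots `0, …, n-1`.
-/

namespace Pool.Agent.MP_9da1e3_co

/-- `IsOutcome α P`: with the preferences `α` every car parks, car `i` in the spot `P i`: this is a
spot `≥ α i` which is not taken by an earlier car, and all spots from `α i` on before it are taken by
earlier cars. -/
def IsOutcome {n : ℕ} (α P : Fin n → Fin n) : Prop :=
  ∀ i, α i ≤ P i ∧ (∀ j, j < i → P j ≠ P i) ∧
    ∀ s, α i ≤ s → s < P i → ∃ j, j < i ∧ P j = s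

/-- `a n l`: the number of parking functions `α` of length `n` whose maximal displacement
`max (P i - α i)` is `l`. -/
noncomputable def a (n l : ℕ) : ℕ :=
  Nat.card {α : Fin n → Fin n //
    ∃ P, IsOutcome α P ∧ Finset.univ.sup (fun i => (P i : ℕ) - (α i : ℕ)) = l}

end Pool.Agent.MP_9da1e3_co
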