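import Pool.Agent.Lib.MP_9da1e3_co.KV1

namespace Pool.Agent.MP_9da1e3_co

open Finset

lemma sum_ww_WW (m : ℕ) : ∑ j ∈ range (m + 1), ww j * WW (m - j) ≤ ((m : ℝ) + 1) * WW (m + 1) := by
  have h1 : ∑ j ∈ range (m + 1), ww j * WW (m - j) ≤ ∑ j ∈ range (m + 1), ww j * WW m := by
    apply Finset.sum_le_sum
    intro j _
    exact mul_le_mul_of_nonneg_left (WW_mono (by omega)) (ww_pos j).le
  rw [← Finset.sum_mul] at h1
  have h2 : WW m ≤ (m : ℝ) + 1 := by
    refine (WW_le m).trans ?_
    rw [Real.sqrt_le_left (by positivity)]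
    have : (0 : ℝ) ≤ m := Nat.cast_nonneg m
    nlinarith
  have h3 : ∑ j ∈ range (m + 1), ww j = WW (m + 1) := rfl
  rw [h3] at h1
  have h4 := WW_nonneg (m + 1)
  nlinarith

/-- the exact supersolution -/
theorem gg_le_WW_all (L : ℕ) (hL : 1 ≤ L) : ∀ m, m ≤ L → gg L m ≤ tn L / L * WW m := by
  have hLr : (0 : ℝ) < L := by exact_mod_cast hL
  have hE := E_pos
  have htL := tn_pos L
  obtain ⟨κ, hκ⟩ : ∃ κ : ℝ, κ = tn L / L := ⟨_, rfl⟩
  have hκ0 : 0 < κ := by rw [hκ]; positivity
  have hκL : κ * L = tn L := by rw [hκ]; field_simp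
  intro m
  induction m using Nat.strong_induction_on with
  | _ m ih =>
    intro hm
    rw [← hκ]
    rcases Nat.eq_zero_or_pos m with rfl | hpos
    · rw [gg_zero]
      simp [WW]
    obtain ⟨p, rfl⟩ : ∃ p, m = p + 1 := ⟨m - 1, by omega⟩
    have r := gg_rec L p hm
    have h1 : ∑ j ∈ range (p + 1), ((L : ℝ) + j + 1) * (tn j * gg L (p - j)) ≤
        ∑ j ∈ range (p + 1), ((L : ℝ) + j + 1) * (tn j * (κ * WW (p - j))) := by
      apply Finset.sum_le_sum
      intro j hj
      have hj' := mem_range.mp hj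
      have := ih (p - j) (by omega) (by omega)
      rw [← hκ] at this
      have ht := tn_pos j
      apply mul_le_mul_of_nonneg_left _ (by positivity)
      exact mul_le_mul_of_nonneg_left this ht.le
    have h2 : SS L p ≤ tn L * ∑ j ∈ range (p + 1), tn j := by
      unfold SS
      rw [Finset.mul_sum]
      apply Finset.sum_le_sum
      intro j hj
      have : HH L (p - j) ≤ tn L := by
        unfold HH
        exact (Fn_le_tn _ _).trans (tn_le_of_le (by omega))
      have ht := tn_pos j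
      nlinarith
    have h3 : ∑ j ∈ range (p + 1), ((L : ℝ) + j + 1) * (tn j * (κ * WW (p - j))) =
        κ * L * ∑ j ∈ range (p + 1), tn j * WW (p - j) + κ * E * ∑ j ∈ range (p + 1), ww j * WW (p - j) := by
      rw [Finset.mul_sum, Finset.mul_sum, ← Finset.sum_add_distrib]
      apply Finset.sum_congr rfl
      intro j _
      have := E_ww_kv j
      linear_combination (-(κ * WW (p - j))) * this
    have h4 : E * WW (p + 1) = ∑ j ∈ range (p + 1), tn j + ∑ j ∈ range (p + 1), tn j * WW (p - j) := by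
      rw [WW_eq (p + 1), Finset.mul_sum, ← Finset.sum_add_distrib]
      apply Finset.sum_congr rfl
      intro j _
      have e : p + 1 - 1 - j = p - j := by omega
      rw [e]
      field_simp
    have h5 := sum_ww_WW p
    have h6 : E * (((L : ℝ) + (p + 1)) * gg L (p + 1)) ≤ E * (((L : ℝ) + (p + 1)) * (κ * WW (p + 1))) := by
      have h7 : κ * E * ∑ j ∈ range (p + 1), ww j * WW (p - j) ≤ κ * E * (((p : ℝ) + 1) * WW (p + 1)) :=
        mul_le_mul_of_nonneg_left h5 (by positivity)
      rw [hκL] at h3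
      have h8 : E * (((L : ℝ) + (p + 1)) * (κ * WW (p + 1))) =
          tn L * (E * WW (p + 1)) + κ * E * (((p : ℝ) + 1) * WW (p + 1)) := by
        rw [← hκL]; ring
      rw [h8, h4]
      linarith
    have h9 : ((L : ℝ) + (p + 1)) * gg L (p + 1) ≤ ((L : ℝ) + (p + 1)) * (κ * WW (p + 1)) :=
      le_of_mul_le_mul_left h6 hE
    exact le_of_mul_le_mul_left h9 (by positivity)

end Pool.Agent.MP_9da1e3_co
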