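import Pool.Agent.Lib.MP_9da1e3_co.Up3

namespace Pool.Agent.MP_9da1e3_co

open Finset

noncomputable def qq (p : ℕ) : ℝ := (1 + 1 / (p : ℝ)) ^ p / E

lemma cE_succ_eq (m : ℕ) : cE (m + 1) = cE m * qq (m + 1) := by
  rw [cE_eq, cE_eq]
  have hE := E_pos
  have hm : 0 < E ^ m := pow_pos hE m
  have h1 : cc (m + 1) = cc m * (1 + 1 / ((m : ℝ) + 1)) ^ (m + 1) := by
    unfold cc
    rw [Nat.factorial_succ]
    have h0 : ((m : ℝ) + 1) ≠ 0 := by positivity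
    have hf : (m.factorial : ℝ) ≠ 0 := by positivity
    have : (1 : ℝ) + 1 / ((m : ℝ) + 1) = ((m : ℝ) + 1 + 1) / ((m : ℝ) + 1) := by field_simp
    rw [this, div_pow]
    push_cast
    rw [pow_succ ((m : ℝ) + 1) m]
    field_simp
  have e : (((m + 1 : ℕ)) : ℝ) = (m : ℝ) + 1 := by push_cast; ring
  unfold qq
  rw [e, h1, pow_succ E m, div_mul_div_comm]

lemma qq_eq (p : ℕ) (hp : 1 ≤ p) : qq p = Real.exp ((p : ℝ) * Real.log (1 + 1 / (p : ℝ)) - 1) := by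
  have hpr : (0 : ℝ) < p := by exact_mod_cast hp
  have h1 : (0 : ℝ) < 1 + 1 / (p : ℝ) := by positivity
  unfold qq
  rw [Real.exp_sub, mul_comm, Real.exp_mul, Real.exp_log h1, Real.rpow_natCast]
  rfl

lemma log_bounds (p : ℕ) (hp : 100 ≤ p) :
    -(0.5102 / (p : ℝ)) ≤ (p : ℝ) * Real.log (1 + 1 / (p : ℝ)) - 1 ∧
    (p : ℝ) * Real.log (1 + 1 / (p : ℝ)) - 1 ≤ -(0.4898 / (p : ℝ)) := by
  have hpr : (100 : ℝ) ≤ p := by exact_mod_cast hp
  have hp0 : (0 : ℝ) < p := by linarith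
  obtain ⟨u, hu⟩ : ∃ u : ℝ, u = 1 / (p : ℝ) := ⟨_, rfl⟩
  have hu0 : 0 < u := by rw [hu]; positivity
  have hu1 : u ≤ 1 / 100 := by rw [hu]; exact one_div_le_one_div_of_le (by norm_num) hpr
  have hpu : (p : ℝ) * u = 1 := by rw [hu]; field_simp
  have habs : |(-u)| < 1 := by rw [abs_neg, abs_of_pos hu0]; linarith
  have h := Real.abs_log_sub_add_sum_range_le habs 2
  rw [abs_neg, abs_of_pos hu0, Finset.sum_range_succ, Finset.sum_range_one, sub_neg_eq_add] at h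
  norm_num at h
  rw [abs_le] at h
  obtain ⟨h1, h2⟩ := h
  have h3 : u ^ 3 / (1 - u) ≤ 0.0102 * u ^ 2 := by
    rw [div_le_iff₀ (by linarith)]
    have : u ^ 3 = u ^ 2 * u := by ring
    rw [this]
    have h4 : 0 < u ^ 2 := by positivity
    nlinarith
  have e1 : (0.5102 : ℝ) / (p : ℝ) = 0.5102 * u := by rw [hu]; ring
  have e2 : (0.4898 : ℝ) / (p : ℝ) = 0.4898 * u := by rw [hu]; ring
  rw [e1, e2, ← hu]
  obtain ⟨ℓ, hℓ⟩ : ∃ ℓ : ℝ, ℓ = Real.log (1 + u) := ⟨_, rfl⟩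
  rw [← hℓ] at h1 h2 ⊢
  constructor
  · have h5 : u - u ^ 2 / 2 - 0.0102 * u ^ 2 ≤ ℓ := by
      norm_num at h1 h2 h3 ⊢
      linarith
    have h6 := mul_le_mul_of_nonneg_left h5 hp0.le
    have e3 : (p : ℝ) * (u - u ^ 2 / 2 - 0.0102 * u ^ 2) = (p * u) - 0.5102 * u * (p * u) := by ring
    rw [e3, hpu] at h6
    linarith
  · have h5 : ℓ ≤ u - u ^ 2 / 2 + 0.0102 * u ^ 2 := by
      norm_num at h1 h2 h3 ⊢
      linarith
    have h6 := mul_le_mul_of_nonneg_left h5 hp0.le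
    have e3 : (p : ℝ) * (u - u ^ 2 / 2 + 0.0102 * u ^ 2) = (p * u) - 0.4898 * u * (p * u) := by ring
    rw [e3, hpu] at h6
    linarith

lemma cE_up (k : ℕ) (hk : 100 ≤ k) : cE (k + 1) ≤ cE k * (1 - 0.45 / ((k : ℝ) + 2)) := by
  rw [cE_succ_eq]
  apply mul_le_mul_of_nonneg_left _ (cE_pos k).le
  rw [qq_eq (k + 1) (by omega)]
  obtain ⟨_, h2⟩ := log_bounds (k + 1) (by omega)
  have hk0 : (100 : ℝ) ≤ k := by exact_mod_cast hk
  obtain ⟨p, hp⟩ : ∃ p : ℝ, p = ((k + 1 : ℕ) : ℝ) := ⟨_, rfl⟩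
  have hpk : p = (k : ℝ) + 1 := by rw [hp]; push_cast; ring
  rw [← hp] at h2 ⊢
  have hp0 : 0 < p := by rw [hpk]; linarith
  refine (Real.exp_le_exp.mpr h2).trans ?_
  rw [Real.exp_neg]
  have h3 := Real.add_one_le_exp (0.4898 / p)
  have h4 : (Real.exp (0.4898 / p))⁻¹ ≤ 1 / (0.4898 / p + 1) := by
    rw [← one_div]
    exact one_div_le_one_div_of_le (by positivity) h3
  refine h4.trans ?_
  have h5 : (k : ℝ) + 2 = p + 1 := by rw [hpk]; ring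
  rw [h5]
  have h6 : 1 / (0.4898 / p + 1) = p / (p + 0.4898) := by
    field_simp
    ring
  have h7 : 1 - 0.45 / (p + 1) = (p + 0.55) / (p + 1) := by
    field_simp
    ring
  rw [h6, h7, div_le_div_iff₀ (by positivity) (by positivity)]
  nlinarith

lemma cE_low (k : ℕ) (hk : 100 ≤ k) : cE k * (1 - 0.55 / ((k : ℝ) + 2)) ≤ cE (k + 1) := by
  rw [cE_succ_eq]
  apply mul_le_mul_of_nonneg_left _ (cE_pos k).le
  rw [qq_eq (k + 1) (by omega)]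
  obtain ⟨h1, _⟩ := log_bounds (k + 1) (by omega)
  have hk0 : (100 : ℝ) ≤ k := by exact_mod_cast hk
  obtain ⟨p, hp⟩ : ∃ p : ℝ, p = ((k + 1 : ℕ) : ℝ) := ⟨_, rfl⟩
  have hpk : p = (k : ℝ) + 1 := by rw [hp]; push_cast; ring
  rw [← hp] at h1 ⊢
  have hp0 : 0 < p := by rw [hpk]; linarith
  refine le_trans ?_ (Real.exp_le_exp.mpr h1)
  refine le_trans ?_ (Real.add_one_le_exp _)
  have h5 : (k : ℝ) + 2 = p + 1 := by rw [hpk]; ring
  rw [h5]
  have h6 : 0.5102 / p ≤ 0.55 / (p + 1) := by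
    rw [div_le_div_iff₀ hp0 (by positivity)]
    linarith
  linarith

lemma tn_sharp (k : ℕ) (hk : 100 ≤ k) : 1.44 * (tn k / ((k : ℝ) + 2)) ≤ tn k - tn (k + 1) := by
  have h := cE_up k hk
  unfold cE at h
  push_cast at h
  have hk0 : (100 : ℝ) ≤ k := by exact_mod_cast hk
  have ht := tn_pos k
  obtain ⟨p, hp⟩ : ∃ p : ℝ, p = (k : ℝ) + 2 := ⟨_, rfl⟩
  have hp0 : 102 ≤ p := by rw [hp]; linarith
  have e1 : (k : ℝ) + 1 = p - 1 := by rw [hp]; ring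
  have e2 : (k : ℝ) + 1 + 1 = p := by rw [hp]; ring
  rw [e2, e1, ← hp] at h
  rw [← hp]
  have h2 : tn (k + 1) ≤ (p - 1) * tn k * (1 - 0.45 / p) / p := by
    rw [le_div_iff₀ (by linarith)]
    linarith
  have h3 : (p - 1) * tn k * (1 - 0.45 / p) / p = tn k * ((p - 1) * (p - 0.45) / p ^ 2) := by
    field_simp
  rw [h3] at h2
  have h4 : (p - 1) * (p - 0.45) / p ^ 2 ≤ 1 - 1.44 / p := by
    have e : 1 - 1.44 / p = (p - 1.44) / p := by field_simp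
    rw [e, div_le_div_iff₀ (by positivity) (by linarith)]
    nlinarith
  have h5 := mul_le_mul_of_nonneg_left h4 ht.le
  have h6 : tn k * (1 - 1.44 / p) = tn k - 1.44 * (tn k / p) := by ring
  rw [h6] at h5
  linarith

lemma tn_sq_mono (k : ℕ) : ((k : ℝ) + 1) ^ 2 * tn k ≤ ((k : ℝ) + 2) ^ 2 * tn (k + 1) := by
  have h := cE_ge k
  unfold cE at h
  push_cast at h
  have h0 : (0 : ℝ) < (k : ℝ) + 2 := by positivity
  have e : ((k : ℝ) + 1) * tn k * (1 - 1 / ((k : ℝ) + 2)) = ((k : ℝ) + 1) ^ 2 * tn k / ((k : ℝ) + 2) := by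
    field_simp
    ring
  rw [e, div_le_iff₀ h0] at h
  have e2 : ((k : ℝ) + 1 + 1) * tn (k + 1) * ((k : ℝ) + 2) = ((k : ℝ) + 2) ^ 2 * tn (k + 1) := by ring
  rw [e2] at h
  exact h

lemma tn_le_sq {a b : ℕ} (h : a ≤ b) : ((a : ℝ) + 1) ^ 2 * tn a ≤ ((b : ℝ) + 1) ^ 2 * tn b := by
  induction h with
  | refl => exact le_rfl
  | step _ ih =>
    refine ih.trans ?_
    have := tn_sq_mono ‹ℕ›
    rename_i m _
    have h1 := tn_sq_mono m
    have e : (((m.succ : ℕ) : ℝ) + 1) = (m : ℝ) + 2 := by push_cast; ring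
    rw [e]
    exact h1

end Pool.Agent.MP_9da1e3_co
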