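import Pool.Agent.Lib.MP_9da1e3_co.KV2
import Pool.Agent.Lib.MP_9da1e3_co.KV3
import Pool.Agent.Lib.MP_9da1e3_co.Sh1

namespace Pool.Agent.MP_9da1e3_co

open Finset

lemma gl_log_inv_ge (p : ℕ) (hp : 1 ≤ p) : 2 * (1 / (2 * (p : ℝ) + 1)) ≤ Real.log (1 + 1 / (p : ℝ)) := by
  have hpr : (0 : ℝ) < p := by exact_mod_cast hp
  have h := Real.hasSum_log_one_add_inv hpr
  have h2 := sum_le_hasSum (range 1) (fun i _ => by positivity) h
  simp only [Finset.sum_range_one] at h2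
  rw [one_div (p : ℝ)]
  refine le_trans (le_of_eq ?_) h2
  norm_num

lemma gl_log_inv_le (p : ℕ) (hp : 1 ≤ p) : Real.log (1 + 1 / (p : ℝ)) ≤
    2 * (1 / (2 * (p : ℝ) + 1)) +
      2 / 3 * (1 / (2 * (p : ℝ) + 1)) ^ 3 / (1 - (1 / (2 * (p : ℝ) + 1)) ^ 2) := by
  have hpr : (1 : ℝ) ≤ p := by exact_mod_cast hp
  have hp0 : (0 : ℝ) < p := by linarith
  obtain ⟨x, hx⟩ : ∃ x : ℝ, x = 1 / (2 * (p : ℝ) + 1) := ⟨_, rfl⟩
  have hx0 : 0 < x := by rw [hx]; positivity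
  have hx1 : x ≤ 1 / 3 := by rw [hx]; exact one_div_le_one_div_of_le (by norm_num) (by linarith)
  have h := Real.hasSum_log_one_add_inv hp0
  rw [← hx] at h ⊢
  rw [one_div (p : ℝ)]
  have hx2 : x ^ 2 < 1 := by nlinarith
  have hs : Summable (fun i : ℕ => 2 / 3 * x ^ 3 * (x ^ 2) ^ i) :=
    (summable_geometric_of_lt_one (by positivity) hx2).mul_left _
  have hle : ∀ i : ℕ, (2 : ℝ) * (1 / (2 * ((i + 1 : ℕ) : ℝ) + 1)) * x ^ (2 * (i + 1) + 1) ≤
      2 / 3 * x ^ 3 * (x ^ 2) ^ i := by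
    intro i
    have e : x ^ (2 * (i + 1) + 1) = x ^ 3 * (x ^ 2) ^ i := by rw [← pow_mul, ← pow_add]; congr 1; ring
    rw [e]
    have hi : (1 : ℝ) / (2 * ((i + 1 : ℕ) : ℝ) + 1) ≤ 1 / 3 := by
      apply one_div_le_one_div_of_le (by norm_num)
      push_cast
      have : (0 : ℝ) ≤ i := Nat.cast_nonneg i
      linarith
    have hpos : 0 ≤ x ^ 3 * (x ^ 2) ^ i := by positivity
    nlinarith
  have hsum' : Summable (fun i : ℕ => (2 : ℝ) * (1 / (2 * ((i + 1 : ℕ) : ℝ) + 1)) * x ^ (2 * (i + 1) + 1)) :=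
    Summable.of_nonneg_of_le (fun i => by positivity) hle hs
  have h3 := hsum'.tsum_le_tsum hle hs
  rw [tsum_mul_left, tsum_geometric_of_lt_one (by positivity) hx2] at h3
  have h4 := h.tsum_eq
  have h5 := h.summable.sum_add_tsum_nat_add 1
  rw [h4] at h5
  rw [← h5, Finset.sum_range_one]
  have e2 : (2 : ℝ) * (1 / (2 * ((0 : ℕ) : ℝ) + 1)) * x ^ (2 * 0 + 1) = 2 * x := by norm_num
  rw [e2]
  have e3 : 2 / 3 * x ^ 3 / (1 - x ^ 2) = 2 / 3 * x ^ 3 * (1 - x ^ 2)⁻¹ := by rw [div_eq_mul_inv]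
  rw [e3]
  linarith

lemma gl_qq_lower (p : ℕ) (hp : 1 ≤ p) : (4 * (p : ℝ) + 1) / (4 * p + 3) ≤ qq p := by
  have hpr : (1 : ℝ) ≤ p := by exact_mod_cast hp
  have hp0 : (0 : ℝ) < p := by linarith
  rw [qq_eq p hp]
  have h1 := gl_log_inv_ge p hp
  obtain ⟨x, hx⟩ : ∃ x : ℝ, x = 1 / (2 * (p : ℝ) + 1) := ⟨_, rfl⟩
  have hx0 : 0 < x := by rw [hx]; positivity
  have hx1 : x ≤ 1 / 3 := by rw [hx]; exact one_div_le_one_div_of_le (by norm_num) (by linarith)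
  rw [← hx] at h1
  have hpx : 2 * (p : ℝ) * x = 1 - x := by rw [hx]; field_simp; ring
  have h2 : -x ≤ (p : ℝ) * Real.log (1 + 1 / (p : ℝ)) - 1 := by nlinarith
  have h3 : Real.exp x ≤ (2 + x) / (2 - x) := by
    have h4 := Real.exp_bound' hx0.le (by linarith : x ≤ 1) (n := 3) (by norm_num)
    simp only [Finset.sum_range_succ, Finset.sum_range_zero, Nat.factorial] at h4
    norm_num at h4
    refine h4.trans ?_
    rw [le_div_iff₀ (by linarith)]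
    nlinarith [pow_pos hx0 3, pow_pos hx0 4]
  have e : (4 * (p : ℝ) + 1) / (4 * p + 3) = (2 - x) / (2 + x) := by
    rw [hx]; field_simp; ring
  rw [e]
  refine le_trans ?_ (Real.exp_le_exp.mpr h2)
  rw [Real.exp_neg, ← one_div, div_le_div_iff₀ (by linarith) (Real.exp_pos _)]
  rw [le_div_iff₀ (by linarith)] at h3
  linarith

lemma gl_qq_upper (p : ℕ) (hp : 1 ≤ p) : qq p ≤ (2 * (p : ℝ) + 1) / (2 * p + 2) := by
  have hpr : (1 : ℝ) ≤ p := by exact_mod_cast hp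
  have hp0 : (0 : ℝ) < p := by linarith
  rw [qq_eq p hp]
  have h1 := gl_log_inv_le p hp
  obtain ⟨x, hx⟩ : ∃ x : ℝ, x = 1 / (2 * (p : ℝ) + 1) := ⟨_, rfl⟩
  have hx0 : 0 < x := by rw [hx]; positivity
  have hx1 : x ≤ 1 / 3 := by rw [hx]; exact one_div_le_one_div_of_le (by norm_num) (by linarith)
  rw [← hx] at h1
  have hpx : 2 * (p : ℝ) * x = 1 - x := by rw [hx]; field_simp; ring
  have h2 : (p : ℝ) * Real.log (1 + 1 / (p : ℝ)) - 1 ≤ -(x - x ^ 2 / (3 * (1 + x))) := by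
    have h3 := mul_le_mul_of_nonneg_left h1 hp0.le
    have h4 : (p : ℝ) * (2 * x + 2 / 3 * x ^ 3 / (1 - x ^ 2)) = 1 - x + x ^ 2 / (3 * (1 + x)) := by
      have hp2 : (p : ℝ) = (1 - x) / (2 * x) := by field_simp; linarith
      have hx3 : (1 : ℝ) - x ^ 2 = (1 - x) * (1 + x) := by ring
      have h5 : (1 : ℝ) - x ≠ 0 := by linarith
      have h6 : (1 : ℝ) + x ≠ 0 := by linarith
      rw [hx3, hp2]
      field_simp
    linarith
  have h3 : 1 + x ≤ Real.exp (x - x ^ 2 / (3 * (1 + x))) := by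
    obtain ⟨u, hu⟩ : ∃ u : ℝ, u = x - x ^ 2 / (3 * (1 + x)) := ⟨_, rfl⟩
    have hu1 : u = x * (3 + 2 * x) / (3 * (1 + x)) := by rw [hu]; field_simp; ring
    have hu0 : 0 ≤ u := by rw [hu1]; positivity
    have h4 := Real.quadratic_le_exp_of_nonneg hu0
    rw [← hu]
    refine le_trans ?_ h4
    have h5 : x - u ≤ u ^ 2 / 2 := by
      have e1 : x - u = x ^ 2 / (3 * (1 + x)) := by rw [hu]; ring
      rw [e1, hu1, div_pow, div_div, div_le_div_iff₀ (by positivity) (by positivity)]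
      nlinarith [pow_pos hx0 2, pow_pos hx0 3, pow_pos hx0 4, pow_pos hx0 5]
    linarith
  have e : (2 * (p : ℝ) + 1) / (2 * p + 2) = 1 / (1 + x) := by
    rw [hx]; field_simp; ring
  rw [e]
  refine (Real.exp_le_exp.mpr h2).trans ?_
  rw [Real.exp_neg, ← one_div]
  exact one_div_le_one_div_of_le (by linarith) h3

end Pool.Agent.MP_9da1e3_co
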