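import Pool.Agent.Lib.MP_9da1e3_co.GL1

namespace Pool.Agent.MP_9da1e3_co

open Finset

lemma gl_inv_E_bounds : (0.36787 : ℝ) ≤ 1 / E ∧ 1 / E ≤ 0.36789 := by
  have h1 : (2.7182818283 : ℝ) < E := Real.exp_one_gt_d9
  have h2 : E < 2.7182818286 := Real.exp_one_lt_d9
  constructor
  · rw [le_div_iff₀ (by linarith)]; linarith
  · rw [div_le_iff₀ (by linarith)]; linarith

noncomputable def gl_Fk (k : ℕ) : ℝ :=
  ((k : ℝ) + 2) * tn (k + 2) + 5 / 4 * (tn (k + 2) + tn (k + 1) / E)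

lemma gl_tn_cE (k : ℕ) : tn k = cE k / ((k : ℝ) + 1) := by
  unfold cE
  have : (0 : ℝ) < (k : ℝ) + 1 := by positivity
  field_simp

lemma gl_Fk_step (k : ℕ) : gl_Fk k - gl_Fk (k + 1) ≤ 1 / 2 * tn (k + 1) := by
  have hC := cE_pos (k + 1)
  obtain ⟨b0, b1⟩ := gl_inv_E_bounds
  obtain ⟨b, hb⟩ : ∃ b : ℝ, b = 1 / E := ⟨_, rfl⟩
  rw [← hb] at b0 b1
  obtain ⟨n, hn⟩ : ∃ n : ℝ, n = (k : ℝ) + 2 := ⟨_, rfl⟩
  have hn2 : 2 ≤ n := by rw [hn]; have : (0 : ℝ) ≤ k := Nat.cast_nonneg k; linarith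
  obtain ⟨q1, hq1⟩ : ∃ q : ℝ, q = qq (k + 2) := ⟨_, rfl⟩
  obtain ⟨q2, hq2⟩ : ∃ q : ℝ, q = qq (k + 3) := ⟨_, rfl⟩
  have u1 : q1 ≤ (2 * n + 1) / (2 * n + 2) := by
    have := gl_qq_upper (k + 2) (by omega)
    rw [hq1, hn]
    push_cast at this
    exact this
  have l2 : (4 * n + 5) / (4 * n + 7) ≤ q2 := by
    have := gl_qq_lower (k + 3) (by omega)
    rw [hq2, hn]
    push_cast at this
    refine le_trans (le_of_eq ?_) this
    congr 1 <;> ring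
  have p1 : 0 < q1 := by
    have := gl_qq_lower (k + 2) (by omega)
    rw [hq1]
    refine lt_of_lt_of_le ?_ this
    positivity
  obtain ⟨C, hCe⟩ : ∃ C : ℝ, C = cE (k + 1) := ⟨_, rfl⟩
  rw [← hCe] at hC
  have t1 : tn (k + 1) = C / n := by
    rw [gl_tn_cE, hCe, hn]; push_cast; ring_nf
  have c2 : cE (k + 2) = C * q1 := by rw [cE_succ_eq (k + 1), hCe, hq1]
  have c3 : cE (k + 3) = C * q1 * q2 := by rw [cE_succ_eq (k + 2), c2, hq2]
  have t2 : tn (k + 2) = C * q1 / (n + 1) := by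
    rw [gl_tn_cE, c2, hn]; push_cast; ring_nf
  have t3 : tn (k + 3) = C * q1 * q2 / (n + 2) := by
    rw [gl_tn_cE, c3, hn]; push_cast; congr 1; ring
  have e1 : gl_Fk k = n * (C * q1 / (n + 1)) + 5 / 4 * (C * q1 / (n + 1) + C / n * b) := by
    unfold gl_Fk
    rw [t1, t2, hn, hb]; ring
  have e2 : gl_Fk (k + 1) = (n + 1) * (C * q1 * q2 / (n + 2)) +
      5 / 4 * (C * q1 * q2 / (n + 2) + C * q1 / (n + 1) * b) := by
    unfold gl_Fk
    rw [show k + 1 + 2 = k + 3 by ring, show k + 1 + 1 = k + 2 by ring, t3, t2, hn, hb]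
    push_cast
    ring
  have key : q1 * ((n + 5 / 4 - 5 / 4 * b) / (n + 1) - (n + 9 / 4) * q2 / (n + 2)) +
      5 / 4 * b / n ≤ 1 / (2 * n) := by
    have k1 : (n + 5 / 4 - 5 / 4 * b) / (n + 1) - (n + 9 / 4) * q2 / (n + 2) ≤
        (n + 5 / 4 - 5 / 4 * b) / (n + 1) - (n + 9 / 4) * ((4 * n + 5) / (4 * n + 7)) / (n + 2) := by
      have : (n + 9 / 4) * ((4 * n + 5) / (4 * n + 7)) / (n + 2) ≤ (n + 9 / 4) * q2 / (n + 2) := by
        apply div_le_div_of_nonneg_right _ (by linarith)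
        exact mul_le_mul_of_nonneg_left l2 (by linarith)
      linarith
    obtain ⟨B, hB⟩ : ∃ B : ℝ, B = (n + 5 / 4 - 5 / 4 * b) / (n + 1) -
      (n + 9 / 4) * ((4 * n + 5) / (4 * n + 7)) / (n + 2) := ⟨_, rfl⟩
    rw [← hB] at k1
    have hB0 : 0 ≤ B := by
      rw [hB, sub_nonneg, mul_div_assoc', div_div, div_le_div_iff₀ (by positivity) (by positivity)]
      have ha : 0 ≤ (5 / 4 - 5 / 4 * b) - 0.79 := by linarith
      have hp : 0 ≤ 4 * n ^ 2 + 15 * n + 14 := by positivity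
      nlinarith [mul_nonneg ha hp]
    have k2 : q1 * ((n + 5 / 4 - 5 / 4 * b) / (n + 1) - (n + 9 / 4) * q2 / (n + 2)) ≤
        (2 * n + 1) / (2 * n + 2) * B :=
      (mul_le_mul_of_nonneg_left k1 p1.le).trans (mul_le_mul_of_nonneg_right u1 hB0)
    have k3 : (2 * n + 1) / (2 * n + 2) * B + 5 / 4 * b / n ≤ 1 / (2 * n) := by
      rw [hB]
      have hB' : (n + 5 / 4 - 5 / 4 * b) / (n + 1) - (n + 9 / 4) * ((4 * n + 5) / (4 * n + 7)) / (n + 2) =
          ((n + 5 / 4 - 5 / 4 * b) * ((4 * n + 7) * (n + 2)) - (n + 9 / 4) * (4 * n + 5) * (n + 1)) /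
            ((n + 1) * ((4 * n + 7) * (n + 2))) := by
        field_simp
      rw [hB', div_mul_div_comm, div_add_div _ _ (by positivity) (by positivity),
        div_le_div_iff₀ (by positivity) (by positivity)]
      obtain ⟨x, hx⟩ : ∃ x : ℝ, x = n - 2 := ⟨_, rfl⟩
      have hx0 : 0 ≤ x := by rw [hx]; linarith
      have hnx : n = x + 2 := by rw [hx]; ring
      rw [hnx]
      have hb1 : b ≤ 0.36789 := b1
      nlinarith [mul_nonneg hx0 hx0, pow_nonneg hx0 3, pow_nonneg hx0 4, pow_nonneg hx0 5]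
    linarith
  have e3 : gl_Fk k - gl_Fk (k + 1) = C * (q1 * ((n + 5 / 4 - 5 / 4 * b) / (n + 1) - (n + 9 / 4) * q2 / (n + 2)) +
      5 / 4 * b / n) := by
    rw [e1, e2]
    field_simp
    ring
  rw [e3, t1]
  have := mul_le_mul_of_nonneg_left key hC.le
  refine this.trans (le_of_eq ?_)
  field_simp

end Pool.Agent.MP_9da1e3_co
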