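import Pool.Agent.Lib.MP_9da1e3_co.GL2

namespace Pool.Agent.MP_9da1e3_co

open Finset

lemma gl_Fk_nonneg (k : ℕ) : 0 ≤ gl_Fk k := by
  unfold gl_Fk
  have h1 := tn_pos (k + 1)
  have h2 := tn_pos (k + 2)
  have hE := E_pos
  positivity

lemma gl_Fk_le_cE (k : ℕ) : gl_Fk k ≤ 7 / 2 * cE k := by
  have h1 := tn_pos (k + 1)
  have h2 := tn_pos (k + 2)
  have hE : (1 : ℝ) ≤ E := by have := E_ge; linarith
  have c1 : cE (k + 2) ≤ cE k := cE_le_of_le (by omega)
  have c2 : cE (k + 1) ≤ cE k := cE_le_of_le (by omega)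
  have hk : (0 : ℝ) ≤ k := Nat.cast_nonneg k
  have e1 : cE (k + 2) = ((k : ℝ) + 3) * tn (k + 2) := by unfold cE; push_cast; ring
  have e2 : cE (k + 1) = ((k : ℝ) + 2) * tn (k + 1) := by unfold cE; push_cast; ring
  have h3 : tn (k + 1) / E ≤ tn (k + 1) := div_le_self h1.le hE
  unfold gl_Fk
  nlinarith

lemma gl_Fk_tendsto : Filter.Tendsto gl_Fk Filter.atTop (nhds 0) := by
  have h : Filter.Tendsto (fun k : ℕ => 7 / 2 * (1.1 / √((k : ℝ) + 1))) Filter.atTop (nhds 0) := by
    have h1 : Filter.Tendsto (fun k : ℕ => √((k : ℝ) + 1)) Filter.atTop Filter.atTop :=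
      Real.tendsto_sqrt_atTop.comp (Filter.tendsto_atTop_add_const_right _ _ tendsto_natCast_atTop_atTop)
    have h2 := (tendsto_const_nhds (x := (1.1 : ℝ))).div_atTop h1
    have h3 := h2.const_mul (7 / 2 : ℝ)
    rw [mul_zero] at h3
    exact h3
  refine squeeze_zero gl_Fk_nonneg (fun k => ?_) h
  refine (gl_Fk_le_cE k).trans ?_
  apply mul_le_mul_of_nonneg_left _ (by norm_num)
  exact cE_le k

lemma gl_Fk_le_tail (k : ℕ) : gl_Fk k ≤ 1 / 2 * (E - ∑ j ∈ range (k + 1), tn j) := by
  have h : ∀ N : ℕ, gl_Fk k ≤ gl_Fk (k + N) + 1 / 2 * ∑ j ∈ range N, tn (k + 1 + j) := by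
    intro N
    induction N with
    | zero => simp
    | succ N ih =>
      have := gl_Fk_step (k + N)
      rw [Finset.sum_range_succ]
      have e : k + (N + 1) = k + N + 1 := by ring
      have e2 : k + 1 + N = k + N + 1 := by ring
      rw [e, e2]
      linarith
  have h2 : ∀ N : ℕ, gl_Fk k ≤ gl_Fk (k + N) + 1 / 2 * (E - ∑ j ∈ range (k + 1), tn j) := by
    intro N
    refine (h N).trans ?_
    have h3 := sum_tn_le (k + 1 + N)
    rw [Finset.sum_range_add] at h3
    linarith
  have hl : Filter.Tendsto (fun N => gl_Fk (k + N) + 1 / 2 * (E - ∑ j ∈ range (k + 1), tn j)) Filter.atTop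
      (nhds (0 + 1 / 2 * (E - ∑ j ∈ range (k + 1), tn j))) := by
    apply Filter.Tendsto.add_const
    have := gl_Fk_tendsto.comp (Filter.tendsto_add_atTop_nat k)
    refine this.congr fun N => ?_
    simp only [Function.comp]
    rw [add_comm]
  have := ge_of_tendsto' hl h2
  linarith

lemma gl_w2_rec (k : ℕ) : E * w2 (k + 1) = ((k : ℝ) + 2) * tn (k + 2) +
    ∑ j ∈ range (k + 1), tn j * w2 (k - j) := by
  have h1 : PowerSeries.C E * (pW * pW) = pT * pW + PowerSeries.X * (pT * (pW * pW)) := by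
    have := pW_rec
    calc PowerSeries.C E * (pW * pW) = (PowerSeries.C E * pW) * pW := by ring
      _ = _ := by rw [this]; ring
  have h2 := congrArg (PowerSeries.coeff (k + 1)) h1
  rw [PowerSeries.coeff_C_mul, map_add, PowerSeries.coeff_succ_X_mul, coeff_mul_range pW pW,
    coeff_mul_range pT pW, coeff_mul_range pT (pW * pW)] at h2
  simp only [coeff_mul_range pW pW] at h2
  simp only [pT, pW, PowerSeries.coeff_mk] at h2
  have h3 := sum_tn_ww (k + 2)
  have e : ∀ j, k + 2 - 1 - j = k + 1 - j := fun j => by omega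
  simp only [e] at h3
  have e2 : k + 1 + 1 = k + 2 := by ring
  rw [e2, h3] at h2
  unfold w2
  rw [e2, h2]
  push_cast
  ring

/-- sharp upper bound of the convolution square -/
theorem w2_le_gl (k : ℕ) : w2 k ≤ 1 / 2 - 5 / 4 * ww (k + 1) := by
  have hE := E_pos
  obtain ⟨b0, b1⟩ := gl_inv_E_bounds
  induction k using Nat.strong_induction_on with
  | _ k ih =>
    rcases Nat.eq_zero_or_pos k with rfl | hk
    · have e0 : ww 0 = 1 / E := by
        unfold ww cc
        simp
      have e1 : ww 1 = 2 * (1 / E) ^ 2 := by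
        unfold ww cc
        norm_num
        field_simp
      unfold w2
      rw [zero_add, Finset.sum_range_one, Nat.sub_zero, e0, e1]
      nlinarith
    · obtain ⟨p, rfl⟩ : ∃ p, k = p + 1 := ⟨k - 1, by omega⟩
      have h1 := gl_w2_rec p
      have h2 := ww_rec (p + 1)
      have h3 := gl_Fk_le_tail p
      have h4 : ∑ j ∈ range (p + 1), tn j * w2 (p - j) ≤
          ∑ j ∈ range (p + 1), tn j * (1 / 2 - 5 / 4 * ww (p - j + 1)) := by
        apply Finset.sum_le_sum
        intro j hj
        exact mul_le_mul_of_nonneg_left (ih (p - j) (by omega)) (tn_pos j).le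
      have h5 : ∑ j ∈ range (p + 1), tn j * (1 / 2 - 5 / 4 * ww (p - j + 1)) =
          1 / 2 * ∑ j ∈ range (p + 1), tn j - 5 / 4 * ∑ j ∈ range (p + 1), tn j * ww (p + 1 - j) := by
        rw [Finset.mul_sum, Finset.mul_sum, ← Finset.sum_sub_distrib]
        apply Finset.sum_congr rfl
        intro j hj
        have hj' := mem_range.mp hj
        have e : p - j + 1 = p + 1 - j := by omega
        rw [e]
        ring
      rw [Finset.sum_range_succ, Nat.sub_self] at h2
      have e0 : ww 0 = 1 / E := by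
        unfold ww cc
        simp
      rw [e0] at h2
      unfold gl_Fk at h3
      have e3 : p + 1 + 1 = p + 2 := by ring
      rw [e3] at h2 ⊢
      have h6 : E * w2 (p + 1) ≤ E * (1 / 2 - 5 / 4 * ww (p + 2)) := by
        have e4 : tn (p + 1) * (1 / E) = tn (p + 1) / E := by ring
        rw [e4] at h2
        have e5 : E * (1 / 2 - 5 / 4 * ww (p + 2)) = 1 / 2 * E - 5 / 4 * (E * ww (p + 2)) := by ring
        rw [e5, h2, h1]
        linarith
      exact le_of_mul_le_mul_left h6 hE

end Pool.Agent.MP_9da1e3_co
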