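import Pool.Agent.Lib.MP_9da1e3_co.GL3

namespace Pool.Agent.MP_9da1e3_co

open Finset

/-- `Σ_{k ≤ m} W_k` -/
noncomputable def gl_S1 (m : ℕ) : ℝ := ∑ k ∈ range (m + 1), WW k

/-- `Σ_{k < m} (w * w)_k = Σ_i w_{m-i} W_i` -/
noncomputable def gl_U2 (m : ℕ) : ℝ := ∑ k ∈ range m, w2 k

lemma gl_WW_succ (y : ℕ) : WW (y + 1) = WW y + ww y := by
  unfold WW
  rw [Finset.sum_range_succ]

lemma gl_WW_zero : WW 0 = 0 := by simp [WW]

lemma gl_ww_zero' : ww 0 = 1 / E := by
  unfold ww cc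
  simp

lemma gl_w2_nonneg (k : ℕ) : 0 ≤ w2 k := by
  unfold w2
  exact Finset.sum_nonneg fun _ _ => mul_nonneg (ww_pos _).le (ww_pos _).le

lemma gl_U2_nonneg (m : ℕ) : 0 ≤ gl_U2 m := Finset.sum_nonneg fun _ _ => gl_w2_nonneg _

/-- shift of a convolution with `w` -/
lemma gl_conv_shift (a : ℕ → ℝ) (m : ℕ) : ∑ i ∈ range (m + 1 + 1), ww (m + 1 - i) * a i =
    ∑ i ∈ range (m + 1), ww (m - i) * a (i + 1) + ww (m + 1) * a 0 := by
  rw [Finset.sum_range_succ']
  congr 1
  apply Finset.sum_congr rfl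
  intro i _
  rw [Nat.add_sub_add_right]

lemma gl_conv_id (m : ℕ) : ∑ i ∈ range (m + 1), ww (m - i) * (i : ℝ) = gl_S1 m := by
  induction m with
  | zero => simp [gl_S1, gl_WW_zero]
  | succ m ih =>
    rw [gl_conv_shift (fun i => (i : ℝ)) m]
    have e : ∑ i ∈ range (m + 1), ww (m - i) * (((i + 1 : ℕ)) : ℝ) =
        ∑ i ∈ range (m + 1), ww (m - i) * (i : ℝ) + ∑ i ∈ range (m + 1), ww (m - i) := by
      rw [← Finset.sum_add_distrib]
      apply Finset.sum_congr rfl
      intro i _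
      push_cast
      ring
    have e2 : ∑ i ∈ range (m + 1), ww (m - i) = WW (m + 1) := by
      unfold WW
      rw [← Finset.sum_range_reflect]
      apply Finset.sum_congr rfl
      intro i hi
      have hi' := mem_range.mp hi
      congr 1
      omega
    rw [e, ih, e2]
    unfold gl_S1
    rw [Finset.sum_range_succ (fun k => WW k) (m + 1)]
    simp

lemma gl_conv_WW (m : ℕ) : ∑ i ∈ range (m + 1), ww (m - i) * WW i = gl_U2 m := by
  induction m with
  | zero => simp [gl_U2, gl_WW_zero]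
  | succ m ih =>
    rw [gl_conv_shift WW m, gl_WW_zero, mul_zero, add_zero]
    have e : ∑ i ∈ range (m + 1), ww (m - i) * WW (i + 1) =
        ∑ i ∈ range (m + 1), ww (m - i) * WW i + ∑ i ∈ range (m + 1), ww (m - i) * ww i := by
      rw [← Finset.sum_add_distrib]
      apply Finset.sum_congr rfl
      intro i _
      rw [gl_WW_succ]
      ring
    have e2 : ∑ i ∈ range (m + 1), ww (m - i) * ww i = w2 m := by
      unfold w2
      apply Finset.sum_congr rfl
      intro i _
      ring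
    rw [e, ih, e2]
    unfold gl_U2
    rw [Finset.sum_range_succ]

/-- `Σ_{y < i} W_y` -/
noncomputable def gl_VV (i : ℕ) : ℝ := ∑ y ∈ range i, WW y

lemma gl_VV_succ (i : ℕ) : gl_VV (i + 1) = gl_VV i + WW i := by
  unfold gl_VV
  rw [Finset.sum_range_succ]

lemma gl_conv_VV (m : ℕ) : ∑ i ∈ range (m + 1), ww (m - i) * gl_VV i = ∑ n ∈ range m, gl_U2 n := by
  induction m with
  | zero => simp [gl_VV]
  | succ m ih =>
    rw [gl_conv_shift gl_VV m]
    have e0 : gl_VV 0 = 0 := by simp [gl_VV]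
    rw [e0, mul_zero, add_zero]
    have e : ∑ i ∈ range (m + 1), ww (m - i) * gl_VV (i + 1) =
        ∑ i ∈ range (m + 1), ww (m - i) * gl_VV i + ∑ i ∈ range (m + 1), ww (m - i) * WW i := by
      rw [← Finset.sum_add_distrib]
      apply Finset.sum_congr rfl
      intro i _
      rw [gl_VV_succ]
      ring
    rw [e, ih, gl_conv_WW, Finset.sum_range_succ]

lemma gl_U2_le (m : ℕ) : gl_U2 m ≤ (m : ℝ) / 2 - 5 / 4 * WW (m + 1) + 5 / 4 * (1 / E) := by
  induction m with
  | zero =>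
    have e : WW (0 + 1) = 1 / E := by rw [gl_WW_succ, gl_WW_zero, zero_add, gl_ww_zero']
    rw [e]
    simp [gl_U2]
  | succ m ih =>
    have h := w2_le_gl m
    unfold gl_U2 at ih ⊢
    rw [Finset.sum_range_succ, gl_WW_succ (m + 1)]
    push_cast
    linarith

lemma gl_sum_U2_le (m : ℕ) : ∑ n ∈ range m, gl_U2 n ≤
    (m : ℝ) * (m - 1) / 4 - 5 / 4 * gl_S1 m + 5 / 4 * (1 / E) * m := by
  induction m with
  | zero => simp [gl_S1, gl_WW_zero]
  | succ m ih =>
    have h := gl_U2_le m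
    rw [Finset.sum_range_succ]
    have e : gl_S1 (m + 1) = gl_S1 m + WW (m + 1) := by
      unfold gl_S1
      rw [Finset.sum_range_succ (fun k => WW k) (m + 1)]
    rw [e]
    push_cast
    linarith

/-- `(r+1) w_r ≤ W_r / 2 + 1/E` -/
lemma gl_ww_le_half (r : ℕ) : ((r : ℝ) + 1) * ww r ≤ 1 / 2 * WW r + 1 / E := by
  induction r with
  | zero => rw [gl_WW_zero, gl_ww_zero']; simp
  | succ r ih =>
    have hw := ww_pos r
    have h1 : ww (r + 1) = ww r * qq (r + 1) := by
      have a1 := cE_succ_eq r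
      have hE := E_pos
      have a2 : ∀ k, ww k = cE k / E := by
        intro k
        rw [cE_eq]
        unfold ww
        rw [pow_succ]
        field_simp
      rw [a2, a2, a1]
      ring
    have h2 := gl_qq_upper (r + 1) (by omega)
    push_cast at h2
    have h3 : ((r : ℝ) + 2) * ww (r + 1) ≤ ((r : ℝ) + 3 / 2) * ww r := by
      rw [h1]
      have h4 : ((r : ℝ) + 2) * ((2 * ((r : ℝ) + 1) + 1) / (2 * ((r : ℝ) + 1) + 2)) = (r : ℝ) + 3 / 2 := by
        field_simp
        ring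
      have h5 : ((r : ℝ) + 2) * (ww r * qq (r + 1)) = ww r * (((r : ℝ) + 2) * qq (r + 1)) := by ring
      have h6 : ((r : ℝ) + 2) * qq (r + 1) ≤ (r : ℝ) + 3 / 2 := by
        rw [← h4]
        exact mul_le_mul_of_nonneg_left h2 (by positivity)
      rw [h5, mul_comm ((r : ℝ) + 3 / 2)]
      exact mul_le_mul_of_nonneg_left h6 hw.le
    rw [gl_WW_succ]
    push_cast
    linarith

lemma gl_r_WW_le (r : ℕ) : (r : ℝ) * WW r ≤ 3 / 2 * gl_VV r + (r : ℝ) * (1 / E) := by
  induction r with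
  | zero => simp [gl_VV]
  | succ r ih =>
    have h := gl_ww_le_half r
    rw [gl_VV_succ, gl_WW_succ]
    push_cast
    nlinarith

lemma gl_tn_add_ge (L z : ℕ) (hL : 1 ≤ L) : tn L * (1 - 3 / 2 * (z : ℝ) / L) ≤ tn (L + z) := by
  have hL0 : (0 : ℝ) < L := by exact_mod_cast hL
  have htL := tn_pos L
  induction z with
  | zero => simp
  | succ z ih =>
    have ht := tn_pos (L + z)
    have hle : tn (L + z) ≤ tn L := tn_le_of_le (by omega)
    have h1 : tn (L + z) * (1 - 3 / 2 / L) ≤ tn (L + z + 1) := by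
      have h2 := gl_qq_lower (L + z + 1) (by omega)
      have e1 : tn (L + z + 1) = cE (L + z) * qq (L + z + 1) / ((L : ℝ) + z + 2) := by
        rw [gl_tn_cE, cE_succ_eq]; push_cast; congr 1; ring
      have e2 : cE (L + z) = ((L : ℝ) + z + 1) * tn (L + z) := by unfold cE; push_cast; ring
      rw [e1, e2]
      push_cast at h2
      obtain ⟨x, hx⟩ : ∃ x : ℝ, x = (L : ℝ) + z := ⟨_, rfl⟩
      have hxL : (L : ℝ) ≤ x := by rw [hx]; have : (0 : ℝ) ≤ z := Nat.cast_nonneg z; linarith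
      have hx0 : 0 < x := by linarith
      rw [← hx] at h2 ⊢
      have h3 : 1 - 3 / 2 / x ≤ (x + 1) * ((4 * (x + 1) + 1) / (4 * (x + 1) + 3)) / (x + 2) := by
        rw [le_div_iff₀ (by positivity), mul_div_assoc', le_div_iff₀ (by positivity)]
        have : (1 - 3 / 2 / x) * (x + 2) * (4 * (x + 1) + 3) =
          (x + 2) * (4 * (x + 1) + 3) - 3 / 2 * (x + 2) * (4 * (x + 1) + 3) / x := by
          field_simp
        rw [this, sub_le_iff_le_add]
        have h4 : 6 * x + 22 ≤ 3 / 2 * (x + 2) * (4 * (x + 1) + 3) / x := by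
          rw [le_div_iff₀ hx0]
          nlinarith
        nlinarith
      have h4 : 1 - 3 / 2 / (L : ℝ) ≤ 1 - 3 / 2 / x := by
        have : 3 / 2 / x ≤ 3 / 2 / (L : ℝ) := div_le_div_of_nonneg_left (by norm_num) hL0 hxL
        linarith
      have h5 : (x + 1) * ((4 * (x + 1) + 1) / (4 * (x + 1) + 3)) / (x + 2) ≤
          (x + 1) * qq (L + z + 1) / (x + 2) := by
        apply div_le_div_of_nonneg_right _ (by linarith)
        exact mul_le_mul_of_nonneg_left h2 (by linarith)
      calc tn (L + z) * (1 - 3 / 2 / L) ≤ tn (L + z) * ((x + 1) * qq (L + z + 1) / (x + 2)) :=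
            mul_le_mul_of_nonneg_left (h4.trans (h3.trans h5)) ht.le
        _ = _ := by ring
    rw [← add_assoc]
    refine le_trans ?_ h1
    have e : tn L * (1 - 3 / 2 * (((z + 1 : ℕ)) : ℝ) / L) = tn L * (1 - 3 / 2 * (z : ℝ) / L) - tn L * (3 / 2 / L) := by
      push_cast
      field_simp
      ring
    have h6 : tn (L + z) * (3 / 2 / L) ≤ tn L * (3 / 2 / L) :=
      mul_le_mul_of_nonneg_right hle (by positivity)
    rw [e]
    linarith

lemma gl_HH_lower : ∀ z L : ℕ, 1 ≤ L → z ≤ L → tn (L + z) - tn L / L * gl_VV z ≤ HH L z := by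
  intro z
  induction z with
  | zero =>
    intro L hL _
    have : gl_VV 0 = 0 := by simp [gl_VV]
    rw [HH_zero, this]
    simp
  | succ z ih =>
    intro L hL hz
    have hd := HH_diff L z
    have h1 := ih (L + 1) (by omega) (by omega)
    have h2 := gg_le_WW_all (L + 1) (by omega) z (by omega)
    have hL0 : (0 : ℝ) < L := by exact_mod_cast hL
    have h3 : tn (L + 1) / (((L + 1 : ℕ)) : ℝ) ≤ tn L / L := by
      apply div_le_div₀ (tn_pos L).le (tn_le_of_le (by omega)) hL0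
      push_cast
      linarith
    have e : L + 1 + z = L + (z + 1) := by ring
    rw [e] at h1
    have hV : 0 ≤ gl_VV z := Finset.sum_nonneg fun _ _ => WW_nonneg _
    have hW := WW_nonneg z
    have h4 := mul_le_mul_of_nonneg_right h3 hV
    have h5 := mul_le_mul_of_nonneg_right h3 hW
    rw [gl_VV_succ]
    nlinarith

/-- sharp explicit lower bound of `g` -/
theorem gg_lower_gl (L m : ℕ) (hm : m + 1 ≤ L) :
    tn L * (WW (m + 1) - (5 / 8 * (m : ℝ) ^ 2 + 0.53 * m - 5 / 4 * gl_S1 m) / L) ≤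
      ((L : ℝ) + (m + 1)) * gg L (m + 1) := by
  have hL : 1 ≤ L := by omega
  have hL0 : (0 : ℝ) < L := by exact_mod_cast hL
  have htL := tn_pos L
  obtain ⟨b0, b1⟩ := gl_inv_E_bounds
  obtain ⟨κ, hκ⟩ : ∃ κ : ℝ, κ = tn L / L := ⟨_, rfl⟩
  have hκ0 : 0 < κ := by rw [hκ]; positivity
  have hκL : κ * L = tn L := by rw [hκ]; field_simp
  rw [gg_volterra L m hm]
  have h1 : ∑ i ∈ range (m + 1), ww (m - i) * (tn L - 3 / 2 * κ * i - κ * gl_VV i) ≤
      ∑ i ∈ range (m + 1), ww (m - i) * HH L i := by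
    apply Finset.sum_le_sum
    intro i hi
    have hi' := mem_range.mp hi
    apply mul_le_mul_of_nonneg_left _ (ww_pos _).le
    have a1 := gl_HH_lower i L hL (by omega)
    have a2 := gl_tn_add_ge L i hL
    have a3 : tn L * (1 - 3 / 2 * (i : ℝ) / L) = tn L - 3 / 2 * κ * i := by
      rw [hκ]; field_simp
    rw [← hκ] at a1
    rw [a3] at a2
    linarith
  have h2 : ∑ i ∈ range (m + 1), ww (m - i) * (tn L - 3 / 2 * κ * i - κ * gl_VV i) =
      tn L * WW (m + 1) - 3 / 2 * κ * gl_S1 m - κ * ∑ n ∈ range m, gl_U2 n := by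
    have e2 : ∑ i ∈ range (m + 1), ww (m - i) = WW (m + 1) := by
      unfold WW
      rw [← Finset.sum_range_reflect]
      apply Finset.sum_congr rfl
      intro i hi
      have hi' := mem_range.mp hi
      congr 1
      omega
    rw [← gl_conv_id, ← gl_conv_VV, ← e2, Finset.mul_sum, Finset.mul_sum, Finset.mul_sum,
      ← Finset.sum_sub_distrib, ← Finset.sum_sub_distrib]
    apply Finset.sum_congr rfl
    intro i _
    ring
  have h3 : ∑ r ∈ range (m + 1), kap m r * gg L r ≤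
      κ * (3 / 2 * ∑ n ∈ range m, gl_U2 n + 1 / E * gl_S1 m - gl_U2 m) := by
    have a1 : ∑ r ∈ range (m + 1), kap m r * gg L r ≤
        ∑ r ∈ range (m + 1), κ * (3 / 2 * (ww (m - r) * gl_VV r) + 1 / E * (ww (m - r) * (r : ℝ)) -
          ww (m - r) * WW r) := by
      apply Finset.sum_le_sum
      intro r hr
      have hr' := mem_range.mp hr
      have hg := gg_le_WW_all L hL r (by omega)
      rw [← hκ] at hg
      have hg0 := gg_nonneg L r
      have hw := ww_pos (m - r)
      have hW := gl_r_WW_le r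
      rcases Nat.eq_zero_or_pos r with rfl | hr0
      · rw [gg_zero]
        simp [gl_VV, gl_WW_zero]
      · have hr1 : (1 : ℝ) ≤ r := by exact_mod_cast hr0
        have a2 : kap m r * gg L r ≤ (((r : ℝ) - 1) * ww (m - r)) * gg L r := by
          apply mul_le_mul_of_nonneg_right _ hg0
          unfold kap
          split_ifs
          · have := gl_w2_nonneg (m - r - 1)
            linarith
          · linarith
        have a3 : (((r : ℝ) - 1) * ww (m - r)) * gg L r ≤ (((r : ℝ) - 1) * ww (m - r)) * (κ * WW r) :=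
          mul_le_mul_of_nonneg_left hg (mul_nonneg (by linarith) hw.le)
        have a4 : κ * ww (m - r) * ((r : ℝ) * WW r) ≤ κ * ww (m - r) * (3 / 2 * gl_VV r + (r : ℝ) * (1 / E)) :=
          mul_le_mul_of_nonneg_left hW (by positivity)
        refine a2.trans (a3.trans ?_)
        nlinarith
    refine a1.trans (le_of_eq ?_)
    rw [← Finset.mul_sum, Finset.sum_sub_distrib, Finset.sum_add_distrib, ← Finset.mul_sum,
      ← Finset.mul_sum, gl_conv_VV, gl_conv_id, gl_conv_WW]
  have h4 := gl_sum_U2_le m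
  have h5 := gl_U2_nonneg m
  have hS : 0 ≤ gl_S1 m := Finset.sum_nonneg fun _ _ => WW_nonneg _
  have hm0 : (0 : ℝ) ≤ m := Nat.cast_nonneg m
  have h6 : tn L * (WW (m + 1) - (5 / 8 * (m : ℝ) ^ 2 + 0.53 * m - 5 / 4 * gl_S1 m) / L) =
      tn L * WW (m + 1) - κ * (5 / 8 * (m : ℝ) ^ 2 + 0.53 * m - 5 / 4 * gl_S1 m) := by
    rw [hκ]; field_simp
  rw [h6]
  have h7 : 3 / 2 * gl_S1 m + ∑ n ∈ range m, gl_U2 n + (3 / 2 * ∑ n ∈ range m, gl_U2 n + 1 / E * gl_S1 m - gl_U2 m) ≤
      5 / 8 * (m : ℝ) ^ 2 + 0.53 * m - 5 / 4 * gl_S1 m := by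
    have h8 : 1 / E * gl_S1 m ≤ 0.36789 * gl_S1 m := mul_le_mul_of_nonneg_right b1 hS
    have h9 : 1 / E * m ≤ 0.36789 * m := mul_le_mul_of_nonneg_right b1 hm0
    nlinarith
  have h10 := mul_le_mul_of_nonneg_left h7 hκ0.le
  linarith

end Pool.Agent.MP_9da1e3_co
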