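import Pool.Agent.Lib.MP_9da1e3_co.Up4

namespace Pool.Agent.MP_9da1e3_co

open Finset

/-! The window recursions with the kernel `(L + d + 1) t_d` resolved (Volterra form). -/

/-- the coefficients of `1 / (E - x T)` -/
noncomputable def vk : ℕ → ℝ
  | 0 => 1 / E
  | k + 1 => ww k / E

noncomputable def w2 (m : ℕ) : ℝ := ∑ j ∈ range (m + 1), ww j * ww (m - j)

noncomputable def kap (m r : ℕ) : ℝ :=
  ((r : ℝ) - 1) * ww (m - r) - (if r < m then w2 (m - r - 1) else 0)

lemma vk_zero : E * vk 0 = 1 := by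
  have := E_pos
  unfold vk
  field_simp

lemma vk_succ (k : ℕ) : E * vk (k + 1) = ww k := by
  have := E_pos
  unfold vk
  field_simp

lemma E_ww_kv (k : ℕ) : E * ww k = ((k : ℝ) + 1) * tn k := by
  have hE := E_pos
  have : 0 < E ^ k := pow_pos hE k
  unfold ww tn
  rw [cc_eq, pow_succ]
  field_simp

lemma E_ww_zero : E * ww 0 = tn 0 := by rw [E_ww_kv]; simp

/-- Abel's identity -/
lemma ww_rec (m : ℕ) : E * ww (m + 1) = tn (m + 1) + ∑ j ∈ range (m + 1), tn j * ww (m - j) := by
  have hE := E_pos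
  have hp : 0 < E ^ (m + 1) := pow_pos hE _
  have h := abel_tc m
  have e1 : ∑ j ∈ range (m + 1), tn j * ww (m - j)
      = (∑ k ∈ range (m + 1), tt k * cc (m - k)) / E ^ (m + 1) := by
    rw [Finset.sum_div]
    apply Finset.sum_congr rfl
    intro k hk
    have hk' : k ≤ m := by have := mem_range.mp hk; omega
    unfold tn ww
    have e : E ^ (m + 1) = E ^ k * E ^ (m - k + 1) := by
      rw [← pow_add]; congr 1; omega
    rw [e, div_mul_div_comm]
  rw [E_ww_kv, e1, h]
  unfold tn
  push_cast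
  field_simp
  ring

noncomputable def pT : PowerSeries ℝ := PowerSeries.mk tn
noncomputable def pW : PowerSeries ℝ := PowerSeries.mk ww
noncomputable def pV : PowerSeries ℝ := PowerSeries.mk vk

lemma coeff_mul_range (a b : PowerSeries ℝ) (m : ℕ) : PowerSeries.coeff m (a * b)
    = ∑ j ∈ range (m + 1), PowerSeries.coeff j a * PowerSeries.coeff (m - j) b := by
  rw [PowerSeries.coeff_mul]
  exact Finset.Nat.sum_antidiagonal_eq_sum_range_succ
    (fun i j => PowerSeries.coeff i a * PowerSeries.coeff j b) m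

lemma pV_E : PowerSeries.C E * pV = 1 + PowerSeries.X * pW := by
  ext m
  rw [PowerSeries.coeff_C_mul, map_add, PowerSeries.coeff_one]
  rcases m with _ | k
  · simp [pV, vk_zero]
  · rw [PowerSeries.coeff_succ_X_mul]
    simp [pV, pW, vk_succ]

lemma pW_rec : PowerSeries.C E * pW = pT + PowerSeries.X * (pT * pW) := by
  ext m
  rw [PowerSeries.coeff_C_mul, map_add]
  rcases m with _ | k
  · simp [pT, pW, E_ww_zero]
  · rw [PowerSeries.coeff_succ_X_mul, coeff_mul_range]
    simp only [pT, pW, PowerSeries.coeff_mk]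
    exact ww_rec k

lemma CE_ne : (PowerSeries.C E : PowerSeries ℝ) ≠ 0 := by
  intro h
  have := congrArg (PowerSeries.coeff 0) h
  simp at this
  exact (ne_of_gt E_pos) this

lemma pV_pT : pV * pT = pW := by
  have h1 := pV_E
  have h2 := pW_rec
  apply mul_left_cancel₀ CE_ne
  calc PowerSeries.C E * (pV * pT) = (PowerSeries.C E * pV) * pT := by ring
    _ = pT + PowerSeries.X * (pT * pW) := by rw [h1]; ring
    _ = PowerSeries.C E * pW := h2.symm

lemma pV_inv : pV * (PowerSeries.C E - PowerSeries.X * pT) = 1 := by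
  have h1 := pV_E
  have h2 := pV_pT
  calc pV * (PowerSeries.C E - PowerSeries.X * pT)
      = PowerSeries.C E * pV - PowerSeries.X * (pV * pT) := by ring
    _ = 1 := by rw [h1, h2]; ring

/-- General solution of the window recursion. -/
lemma volterra (L M : ℕ) (c σ : ℕ → ℝ) (h0 : c 0 = 0)
    (h : ∀ m, m < M → E * (((L : ℝ) + (m + 1)) * c (m + 1)) =
      ∑ r ∈ range (m + 1), AA L m r * c r + σ m) (m : ℕ) (hm : m < M) :
    ((L : ℝ) + (m + 1)) * c (m + 1) =
      ∑ j ∈ range (m + 1), vk j * σ (m - j) - ∑ r ∈ range (m + 1), kap m r * c r := by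
  obtain ⟨σ', hσ'⟩ : ∃ σ' : ℕ → ℝ, ∀ m, σ' m = E * (((L : ℝ) + (m + 1)) * c (m + 1)) -
      ∑ r ∈ range (m + 1), AA L m r * c r := ⟨_, fun _ => rfl⟩
  have hs : ∀ m, m < M → σ' m = σ m := by
    intro m hm
    rw [hσ', h m hm]
    ring
  obtain ⟨P, hP⟩ : ∃ P : PowerSeries ℝ, P = PowerSeries.mk (fun i => ((L : ℝ) + (i + 1)) * c (i + 1)) :=
    ⟨_, rfl⟩
  obtain ⟨C', hC⟩ : ∃ C' : PowerSeries ℝ, C' = PowerSeries.mk c := ⟨_, rfl⟩
  obtain ⟨S, hS⟩ : ∃ S : PowerSeries ℝ, S = PowerSeries.mk σ' := ⟨_, rfl⟩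
  have eq1 : PowerSeries.C E * P = (PowerSeries.C (L : ℝ) * pT + PowerSeries.C E * pW) * C' + S := by
    ext m
    rw [PowerSeries.coeff_C_mul, map_add, mul_comm (PowerSeries.C (L : ℝ) * pT + PowerSeries.C E * pW) C',
      coeff_mul_range]
    simp only [hP, hC, hS, PowerSeries.coeff_mk, map_add, PowerSeries.coeff_C_mul, pT, pW]
    rw [hσ' m]
    have : ∑ r ∈ range (m + 1), AA L m r * c r
        = ∑ j ∈ range (m + 1), c j * ((L : ℝ) * tn (m - j) + E * ww (m - j)) := by
      apply Finset.sum_congr rfl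
      intro r hr
      unfold AA
      rw [E_ww_kv]
      ring
    rw [this]
    ring
  have eq2 : P = (PowerSeries.C (L : ℝ) * pW + pW + PowerSeries.X * (pW * pW)) * C'
      - PowerSeries.X * (pW * P) + pV * S := by
    have h1 : pV * (PowerSeries.C E * P) = P + PowerSeries.X * (pW * P) := by
      calc pV * (PowerSeries.C E * P) = (PowerSeries.C E * pV) * P := by ring
        _ = P + PowerSeries.X * (pW * P) := by rw [pV_E]; ring
    have h2 : pV * ((PowerSeries.C (L : ℝ) * pT + PowerSeries.C E * pW) * C' + S)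
        = (PowerSeries.C (L : ℝ) * pW + pW + PowerSeries.X * (pW * pW)) * C' + pV * S := by
      calc pV * ((PowerSeries.C (L : ℝ) * pT + PowerSeries.C E * pW) * C' + S)
          = (PowerSeries.C (L : ℝ) * (pV * pT) + (PowerSeries.C E * pV) * pW) * C' + pV * S := by ring
        _ = _ := by rw [pV_pT, pV_E]; ring
    rw [eq1, h2] at h1
    linear_combination -h1
  have eq3 := congrArg (PowerSeries.coeff m) eq2
  rw [map_add, map_sub, mul_comm (PowerSeries.C (L : ℝ) * pW + pW + PowerSeries.X * (pW * pW)) C',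
    coeff_mul_range C', coeff_mul_range pV] at eq3
  have eX : PowerSeries.coeff m (PowerSeries.X * (pW * P))
      = ∑ r ∈ range (m + 1), ((L : ℝ) + r) * ww (m - r) * c r := by
    rw [Finset.sum_range_succ']
    simp only [h0, mul_zero, add_zero]
    rcases m with _ | k
    · simp
    · rw [PowerSeries.coeff_succ_X_mul, mul_comm pW P, coeff_mul_range]
      apply Finset.sum_congr rfl
      intro i hi
      simp only [hP, pW, PowerSeries.coeff_mk]
      have : k + 1 - (i + 1) = k - i := by omega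
      rw [this]
      push_cast
      ring
  have eK : ∀ r ∈ range (m + 1), PowerSeries.coeff r C' *
      PowerSeries.coeff (m - r) (PowerSeries.C (L : ℝ) * pW + pW + PowerSeries.X * (pW * pW))
      = ((L : ℝ) * ww (m - r) + ww (m - r) + (if r < m then w2 (m - r - 1) else 0)) * c r := by
    intro r hr
    have hr' : r ≤ m := by have := mem_range.mp hr; omega
    rw [map_add, map_add, PowerSeries.coeff_C_mul]
    simp only [hC, pW, PowerSeries.coeff_mk]
    rcases Nat.lt_or_ge r m with h | h
    · obtain ⟨k, hk⟩ : ∃ k, m - r = k + 1 := ⟨m - r - 1, by omega⟩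
      rw [if_pos h, hk, PowerSeries.coeff_succ_X_mul, coeff_mul_range, Nat.add_sub_cancel]
      simp only [PowerSeries.coeff_mk]
      unfold w2
      ring
    · have : m - r = 0 := by omega
      rw [if_neg (by omega), this]
      simp
      ring
  rw [Finset.sum_congr rfl eK, eX] at eq3
  have eS : ∑ j ∈ range (m + 1), PowerSeries.coeff j pV * PowerSeries.coeff (m - j) S
      = ∑ j ∈ range (m + 1), vk j * σ (m - j) := by
    apply Finset.sum_congr rfl
    intro j _
    simp only [pV, hS, PowerSeries.coeff_mk]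
    rw [hs (m - j) (by omega)]
  rw [eS] at eq3
  simp only [hP, PowerSeries.coeff_mk] at eq3
  rw [eq3]
  have : ∑ r ∈ range (m + 1), kap m r * c r =
      ∑ r ∈ range (m + 1), ((L : ℝ) + r) * ww (m - r) * c r -
      ∑ r ∈ range (m + 1), ((L : ℝ) * ww (m - r) + ww (m - r) + (if r < m then w2 (m - r - 1) else 0)) * c r := by
    rw [← Finset.sum_sub_distrib]
    apply Finset.sum_congr rfl
    intro r _
    unfold kap
    ring
  rw [this]
  ring

end Pool.Agent.MP_9da1e3_co
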