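import Pool.Agent.Lib.MP_9da1e3_co.KV1

namespace Pool.Agent.MP_9da1e3_co

open Finset

lemma sum_AA_kv (L m : ℕ) (g : ℕ → ℝ) : ∑ j ∈ range (m + 1), ((L : ℝ) + j + 1) * (tn j * g (m - j)) =
    ∑ r ∈ range (m + 1), AA L m r * g r := by
  rw [← sum_rev (fun j => ((L : ℝ) + (j : ℝ) + 1) * (tn j * g (m - j))) m]
  apply Finset.sum_congr rfl
  intro r hr
  have hr' := mem_range.mp hr
  have e : m - (m - r) = r := by omega
  rw [e]
  unfold AA
  ring

lemma bb_eq_kv (L m : ℕ) (h : m + 1 ≤ L) : E * (((L : ℝ) + (m + 1)) * bb L (m + 1)) =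
    ∑ r ∈ range (m + 1), AA L m r * bb L r +
      2 * ∑ i ∈ range m, tn (m - 1 - i) * gg (L + 1) i - tn m * tn L := by
  have r1 := gg_rec L m h
  rw [← sum_AA_kv]
  rcases Nat.eq_zero_or_pos m with rfl | hm
  · rw [bb_succ, gg_zero]
    simp only [zero_add, Finset.sum_range_one, Nat.sub_zero, gg_zero, bb_zero, mul_zero,
      Finset.sum_range_zero] at r1 ⊢
    have hS : SS L 0 = tn 0 * tn L := by
      unfold SS
      simp only [zero_add, Finset.sum_range_one, Nat.sub_zero, HH_zero]
    rw [hS] at r1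
    rw [zero_sub]
    linarith
  · obtain ⟨p, rfl⟩ : ∃ p, m = p + 1 := ⟨m - 1, by omega⟩
    have r2 := gg_rec (L + 1) p (by omega)
    rw [bb_succ]
    have eS : SS (L + 1) p - SS L (p + 1) = ∑ j ∈ range (p + 1), tn j * gg (L + 1) (p - j) -
        tn (p + 1) * tn L := by
      unfold SS
      rw [Finset.sum_range_succ (fun j => tn j * HH L (p + 1 - j)) (p + 1), Nat.sub_self, HH_zero]
      have e1 : ∑ j ∈ range (p + 1), tn j * HH (L + 1) (p - j) =
          ∑ j ∈ range (p + 1), tn j * HH L (p + 1 - j) +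
          ∑ j ∈ range (p + 1), tn j * gg (L + 1) (p - j) := by
        rw [← Finset.sum_add_distrib]
        apply Finset.sum_congr rfl
        intro j hj
        have hj' := mem_range.mp hj
        rw [HH_diff L (p - j)]
        have e2 : p - j + 1 = p + 1 - j := by omega
        rw [e2]
        ring
      rw [e1]
      ring
    have eB : ∑ j ∈ range (p + 1 + 1), ((L : ℝ) + j + 1) * (tn j * bb L (p + 1 - j)) =
        ∑ j ∈ range (p + 1), ((L : ℝ) + j + 1) * (tn j * gg (L + 1) (p - j)) -
        ∑ j ∈ range (p + 1 + 1), ((L : ℝ) + j + 1) * (tn j * gg L (p + 1 - j)) := by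
      rw [Finset.sum_range_succ _ (p + 1), Finset.sum_range_succ (fun j => ((L : ℝ) + j + 1) *
        (tn j * gg L (p + 1 - j))) (p + 1), Nat.sub_self, bb_zero, gg_zero, mul_zero, mul_zero,
        add_zero, add_zero, ← Finset.sum_sub_distrib]
      apply Finset.sum_congr rfl
      intro j hj
      have hj' := mem_range.mp hj
      have e2 : p + 1 - j = (p - j) + 1 := by omega
      rw [e2, bb_succ]
      ring
    have eG : ∑ j ∈ range (p + 1), (((L + 1 : ℕ) : ℝ) + j + 1) * (tn j * gg (L + 1) (p - j)) =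
        ∑ j ∈ range (p + 1), ((L : ℝ) + j + 1) * (tn j * gg (L + 1) (p - j)) +
        ∑ j ∈ range (p + 1), tn j * gg (L + 1) (p - j) := by
      rw [← Finset.sum_add_distrib]
      apply Finset.sum_congr rfl
      intro j _
      push_cast
      ring
    rw [eG] at r2
    have eR : ∑ i ∈ range (p + 1), tn (p + 1 - 1 - i) * gg (L + 1) i =
        ∑ j ∈ range (p + 1), tn j * gg (L + 1) (p - j) := by
      rw [← sum_rev (fun j => tn j * gg (L + 1) (p - j)) p]
      apply Finset.sum_congr rfl
      intro i hi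
      have hi' := mem_range.mp hi
      have e2 : p - (p - i) = i := by omega
      rw [e2, Nat.add_sub_cancel]
    have e3 : E * (((L : ℝ) + (((p + 1 : ℕ) : ℝ) + 1)) * (gg (L + 1) (p + 1) - gg L (p + 1 + 1))) =
        E * ((((L + 1 : ℕ) : ℝ) + (p + 1)) * gg (L + 1) (p + 1)) -
        E * (((L : ℝ) + (((p + 1 : ℕ) : ℝ) + 1)) * gg L (p + 1 + 1)) := by
      push_cast
      ring
    rw [e3, r1, r2, eB, eR]
    linarith

lemma conv_vt (a : ℕ → ℝ) (m : ℕ) :
    ∑ j ∈ range (m + 1), vk j * (∑ i ∈ range (m - j + 1), tn i * a (m - j - i))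
      = ∑ i ∈ range (m + 1), ww (m - i) * a i := by
  have h : pV * (pT * PowerSeries.mk a) = PowerSeries.mk a * pW := by
    rw [← mul_assoc, pV_pT, mul_comm]
  have h2 := congrArg (PowerSeries.coeff m) h
  rw [coeff_mul_range, coeff_mul_range] at h2
  calc _ = ∑ j ∈ range (m + 1), PowerSeries.coeff j pV *
        PowerSeries.coeff (m - j) (pT * PowerSeries.mk a) := by
        apply Finset.sum_congr rfl
        intro j _
        rw [coeff_mul_range]
        simp only [pV, pT, PowerSeries.coeff_mk]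
    _ = _ := by
        rw [h2]
        apply Finset.sum_congr rfl
        intro j _
        simp only [pW, PowerSeries.coeff_mk]
        ring

/-- the recursion of `gg` in Volterra form -/
theorem gg_volterra (L m : ℕ) (h : m + 1 ≤ L) : ((L : ℝ) + (m + 1)) * gg L (m + 1) =
    ∑ i ∈ range (m + 1), ww (m - i) * HH L i - ∑ r ∈ range (m + 1), kap m r * gg L r := by
  have hv := volterra L L (gg L) (SS L) (gg_zero L) (by
    intro m hm
    rw [gg_rec L m (by omega)]
    congr 1
    rw [← Finset.sum_range_reflect]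
    apply Finset.sum_congr rfl
    intro r hr
    have hr' : r ≤ m := by have := mem_range.mp hr; omega
    unfold AA
    have e : m + 1 - 1 - r = m - r := by omega
    have e2 : m - (m - r) = r := by omega
    rw [e, e2]
    ring) m (by omega)
  rw [hv]
  congr 1
  unfold SS
  exact conv_vt (HH L) m

/-- the recursion of `bb` in Volterra form -/
theorem bb_volterra (L m : ℕ) (h : m + 1 ≤ L) : ((L : ℝ) + (m + 1)) * bb L (m + 1) =
    2 * ∑ i ∈ range m, ww (m - 1 - i) * gg (L + 1) i - tn L * ww m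
      - ∑ r ∈ range (m + 1), kap m r * bb L r := by
  have hv := volterra L L (bb L) (fun m => 2 * ∑ i ∈ range m, tn (m - 1 - i) * gg (L + 1) i
    - tn m * tn L) (bb_zero L) (by
    intro m hm
    rw [bb_eq_kv L m (by omega)]
    ring) m (by omega)
  rw [hv]
  congr 1
  obtain ⟨a, ha⟩ : ∃ a : ℕ → ℝ, ∀ k, a k = (match k with | 0 => 0 | k + 1 => 2 * gg (L + 1) k)
      - (if k = 0 then tn L else 0) := ⟨_, fun _ => rfl⟩
  have hc := conv_vt a m
  have e1 : ∀ k, (2 * ∑ i ∈ range k, tn (k - 1 - i) * gg (L + 1) i - tn k * tn L)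
      = ∑ i ∈ range (k + 1), tn i * a (k - i) := by
    intro k
    rw [← Finset.sum_range_reflect (fun i => tn i * a (k - i)), Finset.sum_range_succ']
    have : ∑ i ∈ range k, tn (k + 1 - 1 - (i + 1)) * a (k - (k + 1 - 1 - (i + 1)))
        = 2 * ∑ i ∈ range k, tn (k - 1 - i) * gg (L + 1) i := by
      rw [Finset.mul_sum]
      apply Finset.sum_congr rfl
      intro i hi
      have hi' := mem_range.mp hi
      have e1 : k + 1 - 1 - (i + 1) = k - 1 - i := by omega
      have e2 : k - (k - 1 - i) = i + 1 := by omega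
      rw [e1, e2, ha]
      simp
      ring
    rw [this]
    have e3 : k - (k + 1 - 1 - 0) = 0 := by omega
    have e4 : k + 1 - 1 - 0 = k := by omega
    rw [e3, e4, ha]
    simp
    ring
  have e5 : ∑ i ∈ range (m + 1), ww (m - i) * a i
      = 2 * ∑ i ∈ range m, ww (m - 1 - i) * gg (L + 1) i - tn L * ww m := by
    rw [Finset.sum_range_succ', Finset.mul_sum]
    have : ∑ i ∈ range m, ww (m - (i + 1)) * a (i + 1)
        = ∑ i ∈ range m, 2 * (ww (m - 1 - i) * gg (L + 1) i) := by
      apply Finset.sum_congr rfl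
      intro i _
      have e1 : m - (i + 1) = m - 1 - i := by omega
      rw [e1, ha]
      simp
      ring
    rw [this, ha]
    simp
    ring
  rw [← e5, ← hc]
  apply Finset.sum_congr rfl
  intro j _
  rw [e1 (m - j)]

end Pool.Agent.MP_9da1e3_co
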