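import Pool.Agent.Lib.MP_9da1e3_co.KV1

namespace Pool.Agent.MP_9da1e3_co

open Finset

noncomputable def qk (p : ℕ) : ℝ := (1 + 1 / (p : ℝ)) ^ p / E

lemma qk_le (p : ℕ) (hp : 1 ≤ p) : qk p ≤ 1 := by
  have hE := E_pos
  have hpr : (0 : ℝ) < p := by exact_mod_cast hp
  unfold qk
  rw [div_le_one hE]
  have h1 : 1 + 1 / (p : ℝ) ≤ Real.exp (1 / p) := by
    have := Real.add_one_le_exp (1 / (p : ℝ))
    linarith
  calc (1 + 1 / (p : ℝ)) ^ p ≤ (Real.exp (1 / p)) ^ p := pow_le_pow_left₀ (by positivity) h1 p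
    _ = E := by
        rw [← Real.exp_nat_mul]
        unfold E
        congr 1
        field_simp

lemma le_qk (p : ℕ) (hp : 1 ≤ p) : 1 - 1 / (2 * (p : ℝ)) ≤ qk p := by
  have hE := E_pos
  have hpr : (0 : ℝ) < p := by exact_mod_cast hp
  have hx : (0 : ℝ) ≤ 1 / (p : ℝ) := by positivity
  have h1 := Real.le_log_one_add_of_nonneg hx
  have hpos : (0 : ℝ) < 1 + 1 / (p : ℝ) := by positivity
  have h2 : (1 + 1 / (p : ℝ)) ^ p = Real.exp ((p : ℝ) * Real.log (1 + 1 / p)) := by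
    rw [mul_comm, Real.exp_mul, Real.exp_log hpos, Real.rpow_natCast]
  have h3 : 1 - 1 / (2 * (p : ℝ)) ≤ (p : ℝ) * Real.log (1 + 1 / p) := by
    have h4 : (p : ℝ) * (2 * (1 / (p : ℝ)) / (1 / p + 2)) ≤ (p : ℝ) * Real.log (1 + 1 / p) :=
      mul_le_mul_of_nonneg_left h1 hpr.le
    refine le_trans ?_ h4
    have e : (p : ℝ) * (2 * (1 / (p : ℝ)) / (1 / p + 2)) = 2 * p / (2 * p + 1) := by
      field_simp
      ring
    rw [e, le_div_iff₀ (by positivity)]
    have : (1 - 1 / (2 * (p : ℝ))) * (2 * p + 1) = 2 * p - 1 / (2 * p) := by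
      field_simp
      ring
    rw [this]
    have : 0 < 1 / (2 * (p : ℝ)) := by positivity
    linarith
  unfold qk
  rw [le_div_iff₀ hE, h2]
  have h5 : (1 - 1 / (2 * (p : ℝ))) * E ≤ Real.exp (-(1 / (2 * (p : ℝ)))) * E := by
    apply mul_le_mul_of_nonneg_right _ hE.le
    have := Real.add_one_le_exp (-(1 / (2 * (p : ℝ))))
    linarith
  refine h5.trans ?_
  unfold E
  rw [← Real.exp_add]
  apply Real.exp_le_exp.mpr
  linarith

lemma tn_succ_qk (m : ℕ) : tn (m + 1) = tn m * (qk (m + 1) * (((m : ℝ) + 1) / ((m : ℝ) + 2))) := by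
  have hE := E_pos
  have hm1 : (0 : ℝ) < (m : ℝ) + 1 := by positivity
  have hm2 : (0 : ℝ) < (m : ℝ) + 2 := by positivity
  unfold tn tt qk
  have e0 : (1 + 1 / ((m + 1 : ℕ) : ℝ)) = ((m : ℝ) + 2) / ((m : ℝ) + 1) := by
    push_cast
    field_simp
    ring
  rw [e0, div_pow, Nat.factorial_succ]
  have e1 : m + 1 - 1 = m := rfl
  rw [e1]
  have hf : (0 : ℝ) < (m.factorial : ℝ) := by exact_mod_cast Nat.factorial_pos m
  have hp : 0 < E ^ m := pow_pos hE m
  have e2 : ((m : ℝ) + 1) ^ (m - 1) * ((m : ℝ) + 1) * ((m : ℝ) + 1) = ((m : ℝ) + 1) ^ (m + 1) ∨ m = 0 := by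
    rcases Nat.eq_zero_or_pos m with h | h
    · right; exact h
    · left
      obtain ⟨k, rfl⟩ : ∃ k, m = k + 1 := ⟨m - 1, by omega⟩
      simp only [Nat.add_sub_cancel]
      ring
  rcases e2 with e2 | rfl
  · push_cast
    have e3 : (m : ℝ) + 1 + 1 = (m : ℝ) + 2 := by ring
    rw [e3, ← e2, pow_succ, pow_succ ((m : ℝ) + 2)]
    have : (0 : ℝ) < ((m : ℝ) + 1) ^ (m - 1) := by positivity
    field_simp
  · simp
    field_simp

/-- the telescoping bound -/
lemma tn_tel (m : ℕ) : 2 * (((m : ℝ) + 1) * tn (m + 1)) - 2 * (((m : ℝ) + 2) * tn (m + 2)) ≤ tn m := by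
  have h1 := tn_succ_qk m
  have h2 := tn_succ_qk (m + 1)
  have ht := tn_pos m
  have hq1 := qk_le (m + 1) (by omega)
  have hq2 := le_qk (m + 2) (by omega)
  have hq0 : 0 ≤ qk (m + 1) := by
    have := le_qk (m + 1) (by omega)
    have h3 : 1 / (2 * ((m + 1 : ℕ) : ℝ)) ≤ 1 := by
      rw [div_le_one (by positivity)]
      push_cast
      have : (0 : ℝ) ≤ m := Nat.cast_nonneg m
      linarith
    linarith
  obtain ⟨N, hN⟩ : ∃ N : ℝ, N = (m : ℝ) + 1 := ⟨_, rfl⟩
  have hm0 : (0 : ℝ) ≤ m := Nat.cast_nonneg m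
  have hN1 : 1 ≤ N := by rw [hN]; linarith
  have c2 : ((m + 2 : ℕ) : ℝ) = N + 1 := by rw [hN]; push_cast; ring
  have c1 : ((m + 1 : ℕ) : ℝ) = N := by rw [hN]; push_cast; ring
  rw [c2] at hq2
  have d1 : (m : ℝ) + 2 = N + 1 := by rw [hN]; ring
  rw [← hN, d1] at h1
  have d2 : ((m + 1 : ℕ) : ℝ) + 1 = N + 1 := by rw [c1]
  have d3 : ((m + 1 : ℕ) : ℝ) + 2 = N + 2 := by rw [c1]
  have e2 : m + 1 + 1 = m + 2 := rfl
  rw [e2, d2, d3] at h2
  rw [← hN, d1, h2, h1]
  obtain ⟨a, ha⟩ : ∃ a, a = qk (m + 1) := ⟨_, rfl⟩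
  obtain ⟨b, hb⟩ : ∃ b, b = qk (m + 2) := ⟨_, rfl⟩
  rw [← ha, ← hb]
  rw [← ha] at hq1 hq0
  rw [← hb] at hq2
  have key : 2 * (N * (a * (N / (N + 1)))) - 2 * ((N + 1) * (a * (N / (N + 1)) * (b * ((N + 1) / (N + 2))))) ≤ 1 := by
    have hb' : (2 * N + 1) / (2 * (N + 1)) ≤ b := by
      refine le_trans (le_of_eq ?_) hq2
      field_simp
      ring
    have s1 : (a * N) * ((2 * N + 1) / (2 * (N + 1)) * ((N + 1) / (N + 2))) ≤ (a * N) * (b * ((N + 1) / (N + 2))) := by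
      apply mul_le_mul_of_nonneg_left _ (by positivity)
      exact mul_le_mul_of_nonneg_right hb' (by positivity)
    have s2 : 2 * (N * (a * (N / (N + 1)))) - 2 * ((N + 1) * (a * (N / (N + 1)) * (b * ((N + 1) / (N + 2)))))
        = 2 * (a * N) * (N / (N + 1)) - 2 * ((a * N) * (b * ((N + 1) / (N + 2)))) := by
      field_simp
    rw [s2]
    have s3 : 2 * (a * N) * (N / (N + 1)) - 2 * ((a * N) * ((2 * N + 1) / (2 * (N + 1)) * ((N + 1) / (N + 2))))
        = a * (N * (N - 1) / ((N + 1) * (N + 2))) := by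
      field_simp
      ring
    have s4 : a * (N * (N - 1) / ((N + 1) * (N + 2))) ≤ 1 := by
      have : N * (N - 1) / ((N + 1) * (N + 2)) ≤ 1 := by
        rw [div_le_one (by positivity)]
        nlinarith
      have h0 : 0 ≤ N * (N - 1) / ((N + 1) * (N + 2)) := by
        apply div_nonneg _ (by positivity)
        nlinarith
      nlinarith
    linarith
  have := mul_le_mul_of_nonneg_left key ht.le
  calc _ = tn m * (2 * (N * (a * (N / (N + 1)))) - 2 * ((N + 1) * (a * (N / (N + 1)) * (b * ((N + 1) / (N + 2)))))) := by ring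
    _ ≤ tn m * 1 := this
    _ = tn m := mul_one _

lemma tail_ge_kv (m : ℕ) : 2 * (((m : ℝ) + 1) * tn (m + 1)) ≤ E - ∑ j ∈ range m, tn j := by
  have h1 : ∀ k : ℕ, 2 * (((m : ℝ) + 1) * tn (m + 1)) - 2 * ((((m + k : ℕ) : ℝ) + 1) * tn (m + k + 1))
      ≤ ∑ j ∈ range (m + k), tn j - ∑ j ∈ range m, tn j := by
    intro k
    induction k with
    | zero => simp
    | succ k ih =>
      have h2 := tn_tel (m + k)
      rw [show m + (k + 1) = m + k + 1 by ring, Finset.sum_range_succ]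
      push_cast at ih h2 ⊢
      have e : (m : ℝ) + k + 1 + 1 = (m : ℝ) + k + 2 := by ring
      rw [e]
      have e2 : m + k + 1 + 1 = m + k + 2 := rfl
      rw [e2]
      linarith
  apply le_of_forall_pos_le_add
  intro ε hε
  obtain ⟨k, hk⟩ := exists_nat_gt ((2.2 / ε) ^ 2)
  have h2 := h1 k
  have h3 := sum_tn_le (m + k)
  have h4 := succ_tn_le (m + k + 1)
  have h5 : (2.2 / ε) < sq (m + k + 1) := by
    unfold sq
    rw [Real.lt_sqrt (by positivity)]
    push_cast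
    have : (0 : ℝ) ≤ m := Nat.cast_nonneg m
    linarith
  have hs := sq_pos (m + k + 1)
  have h6 : 1.1 / sq (m + k + 1) ≤ ε / 2 := by
    rw [div_le_iff₀ hs]
    have := (div_lt_iff₀ hε).mp h5
    linarith
  have ht := tn_pos (m + k + 1)
  have h7 : (((m + k : ℕ) : ℝ) + 1) * tn (m + k + 1) ≤ (((m + k + 1 : ℕ) : ℝ) + 1) * tn (m + k + 1) := by
    apply mul_le_mul_of_nonneg_right _ ht.le
    push_cast
    linarith
  linarith

lemma w2_rec (m : ℕ) : E * w2 m = ∑ j ∈ range m, tn j * w2 (m - 1 - j) + ((m : ℝ) + 1) * tn (m + 1) := by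
  have h1 := pW_rec
  have h2 : PowerSeries.C E * (pW * pW) = PowerSeries.X * (pT * (pW * pW)) + pT * pW := by
    calc PowerSeries.C E * (pW * pW) = (PowerSeries.C E * pW) * pW := by ring
      _ = _ := by rw [h1]; ring
  have h3 := congrArg (PowerSeries.coeff m) h2
  have hc : ∀ k, PowerSeries.coeff k (pW * pW) = w2 k := by
    intro k
    rw [coeff_mul_range]
    simp only [pW, PowerSeries.coeff_mk]
    rfl
  rw [PowerSeries.coeff_C_mul, map_add, hc] at h3
  have hTW : PowerSeries.coeff m (pT * pW) = ((m : ℝ) + 1) * tn (m + 1) := by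
    rw [coeff_mul_range]
    simp only [pT, pW, PowerSeries.coeff_mk]
    have h4 := ww_rec m
    have h5 := E_ww_kv (m + 1)
    push_cast at h5
    linarith
  rw [hTW] at h3
  rw [h3]
  congr 1
  rcases m with _ | k
  · simp
  · rw [PowerSeries.coeff_succ_X_mul, coeff_mul_range]
    apply Finset.sum_congr rfl
    intro j _
    rw [hc]
    simp only [pT, PowerSeries.coeff_mk, Nat.add_sub_cancel]

theorem w2_le_half : ∀ m : ℕ, w2 m ≤ 1 / 2 := by
  intro m
  induction m using Nat.strong_induction_on with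
  | _ m ih =>
    have hE := E_pos
    have h1 := w2_rec m
    have h2 := tail_ge_kv m
    have h3 : ∑ j ∈ range m, tn j * w2 (m - 1 - j) ≤ ∑ j ∈ range m, tn j * (1 / 2) := by
      apply Finset.sum_le_sum
      intro j hj
      have := mem_range.mp hj
      exact mul_le_mul_of_nonneg_left (ih _ (by omega)) (tn_pos j).le
    rw [← Finset.sum_mul] at h3
    have h4 : E * w2 m ≤ E * (1 / 2) := by linarith
    exact le_of_mul_le_mul_left h4 hE

end Pool.Agent.MP_9da1e3_co
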