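import Pool.Agent.Lib.MP_9da1e3_co.KV2
import Pool.Agent.Lib.MP_9da1e3_co.KV4

namespace Pool.Agent.MP_9da1e3_co

open Finset

lemma w2_nonneg (m : ℕ) : 0 ≤ w2 m :=
  Finset.sum_nonneg fun _ _ => mul_nonneg (ww_pos _).le (ww_pos _).le

/-- the negative part of the kernel, weighted -/
noncomputable def epsM (M : ℕ) : ℝ := ∑ r ∈ range (M - 1), max 0 (-kap (M - 1) (r + 1)) * ww r

lemma epsM_nonneg (M : ℕ) : 0 ≤ epsM M :=
  Finset.sum_nonneg fun _ _ => mul_nonneg (le_max_left _ _) (ww_pos _).le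

lemma neg_kap_le (m r : ℕ) : -kap m (r + 1) ≤ 1 / 2 - (r : ℝ) * ww (m - (r + 1)) := by
  unfold kap
  push_cast
  split_ifs with h
  · have := w2_le_half (m - (r + 1) - 1)
    linarith
  · linarith

lemma epsM_le (M r0 : ℕ) (h : E * √(M : ℝ) ≤ 2 * (r0 : ℝ)) : epsM M ≤ WW r0 / 2 := by
  have hE := E_pos
  unfold epsM
  have h1 : ∀ r ∈ range (M - 1), max 0 (-kap (M - 1) (r + 1)) * ww r ≤ if r < r0 then ww r / 2 else 0 := by
    intro r hr
    have hr' := mem_range.mp hr
    have hw := ww_pos r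
    have hk := neg_kap_le (M - 1) r
    have hw1 := ww_pos (M - 1 - (r + 1))
    have hr0 : (0 : ℝ) ≤ r := Nat.cast_nonneg r
    split_ifs with hlt
    · have : max 0 (-kap (M - 1) (r + 1)) ≤ 1 / 2 := by
        apply max_le (by norm_num)
        nlinarith [mul_nonneg hr0 hw1.le]
      nlinarith
    · have hge : (r0 : ℝ) ≤ r := by exact_mod_cast (by omega : r0 ≤ r)
      have h2 := le_ww (M - 1 - (r + 1))
      have h3 : sq (M - 1 - (r + 1)) ≤ √(M : ℝ) := by
        unfold sq
        apply Real.sqrt_le_sqrt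
        have : M - 1 - (r + 1) + 1 ≤ M := by omega
        exact_mod_cast this
      have hs := sq_pos (M - 1 - (r + 1))
      have h4 : 1 / 2 ≤ (r : ℝ) * ww (M - 1 - (r + 1)) := by
        have h5 : (r : ℝ) * (1 / (E * sq (M - 1 - (r + 1)))) ≤ (r : ℝ) * ww (M - 1 - (r + 1)) :=
          mul_le_mul_of_nonneg_left h2 hr0
        refine le_trans ?_ h5
        rw [mul_one_div, le_div_iff₀ (by positivity)]
        have : E * sq (M - 1 - (r + 1)) ≤ E * √(M : ℝ) := mul_le_mul_of_nonneg_left h3 hE.le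
        linarith
      have : max 0 (-kap (M - 1) (r + 1)) = 0 := by
        apply max_eq_left
        linarith
      rw [this, zero_mul]
  refine (Finset.sum_le_sum h1).trans ?_
  rw [← Finset.sum_filter]
  have h2 : ∑ r ∈ (range (M - 1)).filter (fun r => r < r0), ww r / 2 ≤ ∑ r ∈ range r0, ww r / 2 := by
    apply Finset.sum_le_sum_of_subset_of_nonneg
    · intro r hr
      exact mem_range.mpr (mem_filter.mp hr).2
    · intro r _ _
      exact (div_pos (ww_pos r) two_pos).le
  refine h2.trans (le_of_eq ?_)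
  rw [← Finset.sum_div]
  rfl

lemma epsM_le' (M : ℕ) : epsM M ≤ WW (M - 1) / 2 := by
  unfold epsM WW
  rw [Finset.sum_div]
  apply Finset.sum_le_sum
  intro r hr
  have hw := ww_pos r
  have hk := neg_kap_le (M - 1) r
  have hw1 := ww_pos (M - 1 - (r + 1))
  have hr0 : (0 : ℝ) ≤ r := Nat.cast_nonneg r
  have : max 0 (-kap (M - 1) (r + 1)) ≤ 1 / 2 := by
    apply max_le (by norm_num)
    nlinarith [mul_nonneg hr0 hw1.le]
  nlinarith

/-- Row (T): the dual test. -/
theorem bb_test (L M : ℕ) (hM2 : 2 ≤ M) (hML : M ≤ L) (hneg : ∀ r, 1 ≤ r → r ≤ M → bb L r < 0) :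
    2 * ∑ i ∈ range (M - 1), ww (M - 2 - i) * gg (L + 1) i ≤ tn L * (ww (M - 1) + epsM M / L) := by
  have hL0 : (0 : ℝ) < L := by exact_mod_cast (by omega : 0 < L)
  have ht := tn_pos L
  obtain ⟨m, rfl⟩ : ∃ m, M = m + 1 := ⟨M - 1, by omega⟩
  have hv := bb_volterra L m hML
  have hb := hneg (m + 1) (by omega) le_rfl
  simp only [Nat.add_sub_cancel] at *
  have e1 : ∀ i, m + 1 - 2 - i = m - 1 - i := by intro i; omega
  simp only [e1]
  have hlhs : ((L : ℝ) + (m + 1)) * bb L (m + 1) ≤ 0 :=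
    mul_nonpos_of_nonneg_of_nonpos (by positivity) hb.le
  have hsum : ∑ r ∈ range (m + 1), kap m r * bb L r ≤ tn L / L * epsM (m + 1) := by
    rw [Finset.sum_range_succ', bb_zero, mul_zero, add_zero]
    unfold epsM
    rw [Nat.add_sub_cancel, Finset.mul_sum]
    apply Finset.sum_le_sum
    intro r hr
    have hr' := mem_range.mp hr
    have h1 := bb_ge_ww L (by omega) r (by omega)
    have h2 := hneg (r + 1) (by omega) (by omega)
    have hw := ww_pos r
    have hc : 0 < tn L / L := by positivity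
    rcases le_or_gt 0 (kap m (r + 1)) with hk | hk
    · have h3 : kap m (r + 1) * bb L (r + 1) ≤ 0 := mul_nonpos_of_nonneg_of_nonpos hk h2.le
      have h4 : 0 ≤ tn L / L * (max 0 (-kap m (r + 1)) * ww r) :=
        mul_nonneg hc.le (mul_nonneg (le_max_left _ _) hw.le)
      linarith
    · rw [max_eq_right (by linarith)]
      have : kap m (r + 1) * bb L (r + 1) = (-kap m (r + 1)) * (-bb L (r + 1)) := by ring
      rw [this]
      have h5 : (-kap m (r + 1)) * (-bb L (r + 1)) ≤ (-kap m (r + 1)) * (tn L / L * ww r) := by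
        apply mul_le_mul_of_nonneg_left _ (by linarith)
        linarith
      linarith
  have e2 : tn L * (ww m + epsM (m + 1) / L) = tn L * ww m + tn L / L * epsM (m + 1) := by
    field_simp
  rw [e2]
  linarith

end Pool.Agent.MP_9da1e3_co
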