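/-!
Kernel evaluation: packed sub- and supersolutions of the recursion of `f L n = Fr L n / n!`.
All functions use only accelerated operations on `Nat` (this file imports nothing, so that the
certificate files are light).
-/

namespace Pool.Agent.MP_9da1e3_co

/-- low part of `P`: the lowest `m` bits -/
@[inline] def lowb (P m : Nat) : Nat := Nat.land P (Nat.sub (Nat.pow 2 m) 1)

/-- pack: the sum of `g (n + i) (dg w C i) * 2 ^ (X * i)` over `i < 2 ^ d` -/
def pk (w X : Nat) (g : Nat → Nat → Nat) (d : Nat) : Nat → Nat → Nat :=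
  Nat.rec (motive := fun _ => Nat → Nat → Nat) (fun n C => g n (lowb C w))
    (fun d ih n C => Nat.add (ih n (lowb C (Nat.mul w (Nat.pow 2 d))))
      (Nat.shiftLeft (ih (Nat.add n (Nat.pow 2 d)) (Nat.shiftRight C (Nat.mul w (Nat.pow 2 d))))
        (Nat.mul X (Nat.pow 2 d)))) d

/-- check `Q` on the digits of two numbers -/
def al2 (w1 w2 : Nat) (Q : Nat → Nat → Nat → Bool) (d : Nat) : Nat → Nat → Nat → Bool :=
  Nat.rec (motive := fun _ => Nat → Nat → Nat → Bool)
    (fun n A B => Q n (lowb A w1) (lowb B w2))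
    (fun d ih n A B => cond
      (ih n (lowb A (Nat.mul w1 (Nat.pow 2 d))) (lowb B (Nat.mul w2 (Nat.pow 2 d))))
      (ih (Nat.add n (Nat.pow 2 d)) (Nat.shiftRight A (Nat.mul w1 (Nat.pow 2 d)))
        (Nat.shiftRight B (Nat.mul w2 (Nat.pow 2 d)))) false) d

/-- check `Q` on the digits of three numbers -/
def al3 (w1 w2 w3 : Nat) (Q : Nat → Nat → Nat → Nat → Bool) (d : Nat) :
    Nat → Nat → Nat → Nat → Bool :=
  Nat.rec (motive := fun _ => Nat → Nat → Nat → Nat → Bool)
    (fun n A B C => Q n (lowb A w1) (lowb B w2) (lowb C w3))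
    (fun d ih n A B C => cond
      (ih n (lowb A (Nat.mul w1 (Nat.pow 2 d))) (lowb B (Nat.mul w2 (Nat.pow 2 d)))
        (lowb C (Nat.mul w3 (Nat.pow 2 d))))
      (ih (Nat.add n (Nat.pow 2 d)) (Nat.shiftRight A (Nat.mul w1 (Nat.pow 2 d)))
        (Nat.shiftRight B (Nat.mul w2 (Nat.pow 2 d)))
        (Nat.shiftRight C (Nat.mul w3 (Nat.pow 2 d)))) false) d

/-- lower value from the certificate digit `x` at place `n` -/
def loN (n x : Nat) : Nat :=
  Nat.sub (Nat.sub x (Nat.shiftRight (Nat.mul x (Nat.add (Nat.mul 2 n) 1)) 44)) 1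

/-- upper value from the certificate digit `x` at place `n` -/
def hiN (n x : Nat) : Nat :=
  Nat.add (Nat.add x (Nat.shiftRight (Nat.mul x (Nat.add (Nat.mul 2 n) 1)) 43)) 1

def wt (L n : Nat) : Nat := cond (Nat.ble L (Nat.add n 1)) L (Nat.add n 1)

/-- the test at the place `n`: `r` = digit of the product, `x` = certificate at `n + 1` -/
def QE (Sc N n r x : Nat) : Bool :=
  cond (Nat.ble N n) true
    (cond (Nat.ble (Nat.mul 17592186044415 (Nat.mul (Nat.mul 87 (Nat.add n 1)) (Nat.mul Sc x)))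
        (Nat.mul 17592186044416 (Nat.mul 32 r)))
      (Nat.ble (Nat.mul 17592186044416 (Nat.mul 32 r))
        (Nat.mul 17592186044417 (Nat.mul (Nat.mul 87 (Nat.add n 1)) (Nat.mul Sc x)))) false)

def gwt (L n x : Nat) : Nat := Nat.mul (wt L n) x
def gid (_n x : Nat) : Nat := x

/-- `w`: slot of the certificate, `X`: slot of the products, `Sc`: scale -/
def ckE (w X Sc L N d C : Nat) : Bool :=
  cond (cond (Nat.ble (Nat.add N 1) (Nat.pow 2 d)) (Nat.beq (lowb C w) Sc) false)
    (al2 X w (QE Sc N) d 0 (Nat.mul (pk w X (gwt L) d 0 C) (pk w X gid d 0 C))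
      (Nat.shiftRight C w)) false

def QS (L N nu n x1 x2 x3 : Nat) : Bool :=
  cond (Nat.ble n L) true (cond (Nat.ble (Nat.add N 1) n) true (cond (Nat.ble nu n)
    (Nat.ble (Nat.add (Nat.mul 2 (hiN n x2)) 1) (Nat.add (loN n x1) (loN n x3)))
    (Nat.ble (Nat.add (Nat.add (hiN n x1) (hiN n x3)) 1) (Nat.mul 2 (loN n x2)))))

def ckS (w L N nu d C1 C2 C3 : Nat) : Bool :=
  cond (Nat.ble (Nat.add N 1) (Nat.pow 2 d)) (al3 w w w (QS L N nu) d 0 C1 C2 C3) false

end Pool.Agent.MP_9da1e3_co
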