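import Pool.Agent.Lib.MP_9da1e3_co.Left
import Pool.Agent.Lib.MP_9da1e3_co.Kc0

/-!
Kernel evaluation: packed sub- and supersolutions of the recursion of `f L n = Fr L n / n!`.
All kernel functions use only accelerated operations on `Nat`.
-/

namespace Pool.Agent.MP_9da1e3_co

open Finset

/-- the `i`-th digit of `P` in base `2 ^ w` -/
def dg (w P i : ℕ) : ℕ := P / 2 ^ (w * i) % 2 ^ w

lemma dg_mod (w P i m : ℕ) (h : w * i + w ≤ m) : dg w (P % 2 ^ m) i = dg w P i := by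
  unfold dg
  apply Nat.eq_of_testBit_eq
  intro j
  simp only [Nat.testBit_mod_two_pow, Nat.testBit_div_two_pow]
  by_cases hj : j < w
  · simp only [hj, decide_true, Bool.true_and]
    have : j + w * i < m := by omega
    simp [this]
  · simp [hj]

lemma dg_div (w P i k : ℕ) : dg w (P / 2 ^ (w * k)) i = dg w P (k + i) := by
  unfold dg
  rw [Nat.div_div_eq_div_mul, ← pow_add, ← Nat.mul_add]

lemma dg_lt (w P i : ℕ) : dg w P i < 2 ^ w := Nat.mod_lt _ (by positivity)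

lemma lowb_eq (P m : ℕ) : lowb P m = P % 2 ^ m := by
  unfold lowb
  exact Nat.and_two_pow_sub_one_eq_mod P m

lemma pk_zero (w X : ℕ) (g : ℕ → ℕ → ℕ) (n C : ℕ) : pk w X g 0 n C = g n (C % 2 ^ w) := by
  show g n (lowb C w) = _
  rw [lowb_eq]

lemma pk_succ (w X : ℕ) (g : ℕ → ℕ → ℕ) (d n C : ℕ) : pk w X g (d + 1) n C =
    pk w X g d n (C % 2 ^ (w * 2 ^ d)) +
      pk w X g d (n + 2 ^ d) (C / 2 ^ (w * 2 ^ d)) * 2 ^ (X * 2 ^ d) := by
  show pk w X g d n (lowb C (w * 2 ^ d)) +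
      (pk w X g d (n + 2 ^ d) (C >>> (w * 2 ^ d))) <<< (X * 2 ^ d) = _
  rw [lowb_eq, Nat.shiftRight_eq_div_pow, Nat.shiftLeft_eq]

lemma pk_eq (w X : ℕ) (g : ℕ → ℕ → ℕ) (d : ℕ) : ∀ n C, pk w X g d n C =
    ∑ i ∈ range (2 ^ d), g (n + i) (dg w C i) * 2 ^ (X * i) := by
  induction d with
  | zero =>
    intro n C
    rw [pk_zero]
    simp [dg]
  | succ d ih =>
    intro n C
    rw [pk_succ, ih, ih, pow_succ, mul_two, Finset.sum_range_add, Finset.sum_mul]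
    congr 1
    · apply Finset.sum_congr rfl
      intro i hi
      have hi' := mem_range.mp hi
      rw [dg_mod]
      have : i + 1 ≤ 2 ^ d := hi'
      calc w * i + w = w * (i + 1) := by ring
        _ ≤ w * 2 ^ d := Nat.mul_le_mul_left _ this
    · apply Finset.sum_congr rfl
      intro i _
      rw [dg_div, Nat.add_assoc, mul_assoc, ← pow_add]
      congr 2
      ring

lemma al2_zero (w1 w2 : ℕ) (Q : ℕ → ℕ → ℕ → Bool) (n A B : ℕ) :
    al2 w1 w2 Q 0 n A B = Q n (A % 2 ^ w1) (B % 2 ^ w2) := by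
  show Q n (lowb A w1) (lowb B w2) = _
  rw [lowb_eq, lowb_eq]

lemma al2_succ (w1 w2 : ℕ) (Q : ℕ → ℕ → ℕ → Bool) (d n A B : ℕ) :
    al2 w1 w2 Q (d + 1) n A B = cond
      (al2 w1 w2 Q d n (A % 2 ^ (w1 * 2 ^ d)) (B % 2 ^ (w2 * 2 ^ d)))
      (al2 w1 w2 Q d (n + 2 ^ d) (A / 2 ^ (w1 * 2 ^ d)) (B / 2 ^ (w2 * 2 ^ d))) false := by
  show cond (al2 w1 w2 Q d n (lowb A (w1 * 2 ^ d)) (lowb B (w2 * 2 ^ d)))
      (al2 w1 w2 Q d (n + 2 ^ d) (A >>> (w1 * 2 ^ d)) (B >>> (w2 * 2 ^ d))) false = _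
  rw [lowb_eq, lowb_eq, Nat.shiftRight_eq_div_pow, Nat.shiftRight_eq_div_pow]

lemma al2_spec (w1 w2 : ℕ) (Q : ℕ → ℕ → ℕ → Bool) (d : ℕ) : ∀ n A B,
    al2 w1 w2 Q d n A B = true →
      ∀ i, i < 2 ^ d → Q (n + i) (dg w1 A i) (dg w2 B i) = true := by
  induction d with
  | zero =>
    intro n A B h i hi
    have hi0 : i = 0 := by simpa using hi
    subst hi0
    rw [al2_zero] at h
    simpa [dg] using h
  | succ d ih =>
    intro n A B h i hi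
    rw [al2_succ, Bool.cond_false_right, Bool.and_eq_true] at h
    obtain ⟨h1, h2⟩ := h
    by_cases hi1 : i < 2 ^ d
    · have := ih _ _ _ h1 i hi1
      have hw : ∀ w : ℕ, w * i + w ≤ w * 2 ^ d := by
        intro w
        calc w * i + w = w * (i + 1) := by ring
          _ ≤ w * 2 ^ d := Nat.mul_le_mul_left _ hi1
      rwa [dg_mod _ _ _ _ (hw w1), dg_mod _ _ _ _ (hw w2)] at this
    · obtain ⟨j, rfl⟩ : ∃ j, i = 2 ^ d + j := ⟨i - 2 ^ d, by omega⟩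
      have hj : j < 2 ^ d := by
        rw [pow_succ] at hi
        omega
      have := ih _ _ _ h2 j hj
      rwa [dg_div, dg_div, Nat.add_assoc] at this

lemma al3_zero (w1 w2 w3 : ℕ) (Q : ℕ → ℕ → ℕ → ℕ → Bool) (n A B C : ℕ) :
    al3 w1 w2 w3 Q 0 n A B C = Q n (A % 2 ^ w1) (B % 2 ^ w2) (C % 2 ^ w3) := by
  show Q n (lowb A w1) (lowb B w2) (lowb C w3) = _
  rw [lowb_eq, lowb_eq, lowb_eq]

lemma al3_succ (w1 w2 w3 : ℕ) (Q : ℕ → ℕ → ℕ → ℕ → Bool) (d n A B C : ℕ) :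
    al3 w1 w2 w3 Q (d + 1) n A B C = cond
      (al3 w1 w2 w3 Q d n (A % 2 ^ (w1 * 2 ^ d)) (B % 2 ^ (w2 * 2 ^ d)) (C % 2 ^ (w3 * 2 ^ d)))
      (al3 w1 w2 w3 Q d (n + 2 ^ d) (A / 2 ^ (w1 * 2 ^ d)) (B / 2 ^ (w2 * 2 ^ d))
        (C / 2 ^ (w3 * 2 ^ d))) false := by
  show cond (al3 w1 w2 w3 Q d n (lowb A (w1 * 2 ^ d)) (lowb B (w2 * 2 ^ d)) (lowb C (w3 * 2 ^ d)))
      (al3 w1 w2 w3 Q d (n + 2 ^ d) (A >>> (w1 * 2 ^ d)) (B >>> (w2 * 2 ^ d))
        (C >>> (w3 * 2 ^ d))) false = _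
  rw [lowb_eq, lowb_eq, lowb_eq, Nat.shiftRight_eq_div_pow, Nat.shiftRight_eq_div_pow,
    Nat.shiftRight_eq_div_pow]

lemma al3_spec (w1 w2 w3 : ℕ) (Q : ℕ → ℕ → ℕ → ℕ → Bool) (d : ℕ) : ∀ n A B C,
    al3 w1 w2 w3 Q d n A B C = true →
      ∀ i, i < 2 ^ d → Q (n + i) (dg w1 A i) (dg w2 B i) (dg w3 C i) = true := by
  induction d with
  | zero =>
    intro n A B C h i hi
    have hi0 : i = 0 := by simpa using hi
    subst hi0
    rw [al3_zero] at h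
    simpa [dg] using h
  | succ d ih =>
    intro n A B C h i hi
    rw [al3_succ, Bool.cond_false_right, Bool.and_eq_true] at h
    obtain ⟨h1, h2⟩ := h
    by_cases hi1 : i < 2 ^ d
    · have := ih _ _ _ _ h1 i hi1
      have hw : ∀ w : ℕ, w * i + w ≤ w * 2 ^ d := by
        intro w
        calc w * i + w = w * (i + 1) := by ring
          _ ≤ w * 2 ^ d := Nat.mul_le_mul_left _ hi1
      rwa [dg_mod _ _ _ _ (hw w1), dg_mod _ _ _ _ (hw w2), dg_mod _ _ _ _ (hw w3)] at this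
    · obtain ⟨j, rfl⟩ : ∃ j, i = 2 ^ d + j := ⟨i - 2 ^ d, by omega⟩
      have hj : j < 2 ^ d := by
        rw [pow_succ] at hi
        omega
      have := ih _ _ _ _ h2 j hj
      rwa [dg_div, dg_div, dg_div, Nat.add_assoc] at this

end Pool.Agent.MP_9da1e3_co
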