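import Pool.Agent.Lib.MP_9da1e3_co.Kc1

/-!
Kernel evaluation, part 2: digits of a product of packed numbers, sub- and supersolutions,
the checkers and their soundness.
-/

namespace Pool.Agent.MP_9da1e3_co

open Finset

lemma digit_of_sum (X : ℕ) (K : ℕ) : ∀ (e : ℕ → ℕ), (∀ n, e n < X) →
    (∀ n, K ≤ n → e n = 0) → ∀ n, (∑ i ∈ range K, e i * X ^ i) / X ^ n % X = e n := by
  induction K with
  | zero =>
    intro e he h0 n
    simp [h0 n (Nat.zero_le n)]
  | succ K ih =>
    intro e he h0 n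
    have hX : 0 < X := lt_of_le_of_lt (Nat.zero_le _) (he 0)
    have hs : ∑ i ∈ range (K + 1), e i * X ^ i = e 0 + X * ∑ i ∈ range K, e (i + 1) * X ^ i := by
      rw [Finset.sum_range_succ', Finset.mul_sum, add_comm]
      congr 1
      · simp
      · apply Finset.sum_congr rfl
        intro i _
        ring
    rw [hs]
    cases n with
    | zero =>
      simp only [pow_zero, Nat.div_one, Nat.add_mul_mod_self_left]
      exact Nat.mod_eq_of_lt (he 0)
    | succ m =>
      rw [pow_succ', ← Nat.div_div_eq_div_mul, Nat.add_mul_div_left _ _ hX,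
        Nat.div_eq_of_lt (he 0), Nat.zero_add]
      exact ih (fun i => e (i + 1)) (fun i => he (i + 1)) (fun i hi => h0 (i + 1) (by omega)) m

open Polynomial in
lemma conv_digit (w M : ℕ) (a b : ℕ → ℕ) (A B : ℕ) (ha : ∀ i, i < M → a i ≤ A)
    (hb : ∀ i, i < M → b i ≤ B) (hX : M * (A * B) < 2 ^ w) (n : ℕ) (hn : n < M) :
    dg w ((∑ i ∈ range M, a i * 2 ^ (w * i)) * (∑ i ∈ range M, b i * 2 ^ (w * i))) n =
      ∑ k ∈ range (n + 1), a k * b (n - k) := by
  set p : ℕ[X] := ∑ i ∈ range M, C (a i) * X ^ i with hp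
  set q : ℕ[X] := ∑ i ∈ range M, C (b i) * X ^ i with hq
  have cp : ∀ k, p.coeff k = if k < M then a k else 0 := by
    intro k
    rw [hp, finsetSum_coeff]
    simp only [coeff_C_mul, coeff_X_pow, mul_ite, mul_one, mul_zero]
    rw [Finset.sum_ite_eq (range M) k a]
    simp
  have cq : ∀ k, q.coeff k = if k < M then b k else 0 := by
    intro k
    rw [hq, finsetSum_coeff]
    simp only [coeff_C_mul, coeff_X_pow, mul_ite, mul_one, mul_zero]
    rw [Finset.sum_ite_eq (range M) k b]
    simp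
  have ep : p.eval (2 ^ w) = ∑ i ∈ range M, a i * 2 ^ (w * i) := by
    rw [hp, eval_finsetSum]
    apply Finset.sum_congr rfl
    intro i _
    simp [pow_mul]
  have eq' : q.eval (2 ^ w) = ∑ i ∈ range M, b i * 2 ^ (w * i) := by
    rw [hq, eval_finsetSum]
    apply Finset.sum_congr rfl
    intro i _
    simp [pow_mul]
  have cpq : ∀ n, (p * q).coeff n = ∑ k ∈ range (n + 1), p.coeff k * q.coeff (n - k) := by
    intro n
    rw [coeff_mul, Finset.Nat.sum_antidiagonal_eq_sum_range_succ_mk]
  have hbd : ∀ n, (p * q).coeff n < 2 ^ w := by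
    intro n
    refine lt_of_le_of_lt ?_ hX
    rw [cpq]
    calc ∑ k ∈ range (n + 1), p.coeff k * q.coeff (n - k)
        ≤ ∑ k ∈ range (n + 1), (if k < M then A * B else 0) := by
          apply Finset.sum_le_sum
          intro k _
          rw [cp, cq]
          by_cases hk : k < M
          · simp only [hk, if_true]
            by_cases hk2 : n - k < M
            · simp only [hk2, if_true]
              exact Nat.mul_le_mul (ha k hk) (hb _ hk2)
            · simp [hk2]
          · simp [hk]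
      _ = ((range (n + 1)).filter (fun k => k < M)).card * (A * B) := by
          rw [← Finset.sum_filter, Finset.sum_const, smul_eq_mul]
      _ ≤ M * (A * B) := by
          apply Nat.mul_le_mul_right
          calc ((range (n + 1)).filter (fun k => k < M)).card ≤ (range M).card := by
                apply Finset.card_le_card
                intro k hk
                rw [Finset.mem_filter] at hk
                exact mem_range.mpr hk.2
            _ = M := card_range M
  have key := digit_of_sum (2 ^ w) ((p * q).natDegree + 1) (fun n => (p * q).coeff n) hbd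
    (fun n hn => coeff_eq_zero_of_natDegree_lt (by omega)) n
  rw [← eval_eq_sum_range, eval_mul, ep, eq', ← pow_mul] at key
  unfold dg
  rw [key, cpq]
  apply Finset.sum_congr rfl
  intro k hk
  have hk' := mem_range.mp hk
  rw [cp, cq, if_pos (by omega), if_pos (by omega)]

/-- the normalised values -/
noncomputable def gk (L n : ℕ) : ℝ := (32 / 87 : ℝ) ^ n * f L n

lemma gk_zero (L : ℕ) : gk L 0 = 1 := by simp [gk, f_zero]

lemma gk_nonneg (L n : ℕ) : 0 ≤ gk L n := mul_nonneg (by positivity) (f_nonneg _ _)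

lemma gk_rec (L n : ℕ) : 87 * ((n : ℝ) + 1) * gk L (n + 1) =
    32 * ∑ k ∈ range (n + 1), ((min L (k + 1) : ℕ) : ℝ) * (gk L k * gk L (n - k)) := by
  have h := f_rec L n
  have e : ∑ k ∈ range (n + 1), ((min L (k + 1) : ℕ) : ℝ) * (gk L k * gk L (n - k)) =
      (32 / 87 : ℝ) ^ n * ∑ k ∈ range (n + 1), ((min L (k + 1) : ℕ) : ℝ) * (f L k * f L (n - k)) := by
    rw [Finset.mul_sum]
    apply Finset.sum_congr rfl
    intro k hk
    have hk' := mem_range.mp hk
    have : (32 / 87 : ℝ) ^ n = (32 / 87) ^ k * (32 / 87) ^ (n - k) := by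
      rw [← pow_add]
      congr 1
      omega
    unfold gk
    rw [this]
    ring
  rw [e, ← h]
  unfold gk
  rw [pow_succ]
  ring

lemma sub_solR (L N : ℕ) (S : ℝ) (hS : 0 < S) (c : ℕ → ℝ) (hc : ∀ n, 0 ≤ c n) (h0 : c 0 ≤ S)
    (h : ∀ n, n < N → 87 * ((n : ℝ) + 1) * S * c (n + 1) ≤
      32 * ∑ k ∈ range (n + 1), ((min L (k + 1) : ℕ) : ℝ) * (c k * c (n - k))) :
    ∀ n, n ≤ N → c n ≤ S * gk L n := by
  intro n
  induction n using Nat.strong_induction_on with
  | _ n ih =>
    intro hn
    cases n with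
    | zero =>
      rw [gk_zero, mul_one]
      exact h0
    | succ n =>
      have h2 := h n (by omega)
      have h3 : ∑ k ∈ range (n + 1), ((min L (k + 1) : ℕ) : ℝ) * (c k * c (n - k)) ≤
          ∑ k ∈ range (n + 1), (S * S) * (((min L (k + 1) : ℕ) : ℝ) *
            (gk L k * gk L (n - k))) := by
        apply Finset.sum_le_sum
        intro k hk
        have hk' := mem_range.mp hk
        have i1 := ih k (by omega) (by omega)
        have i2 := ih (n - k) (by omega) (by omega)
        have hm : (0 : ℝ) ≤ ((min L (k + 1) : ℕ) : ℝ) := Nat.cast_nonneg _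
        have g1 : 0 ≤ S * gk L k := mul_nonneg hS.le (gk_nonneg _ _)
        calc ((min L (k + 1) : ℕ) : ℝ) * (c k * c (n - k))
            ≤ ((min L (k + 1) : ℕ) : ℝ) * ((S * gk L k) * (S * gk L (n - k))) :=
              mul_le_mul_of_nonneg_left (mul_le_mul i1 i2 (hc _) g1) hm
          _ = _ := by ring
      rw [← Finset.mul_sum] at h3
      have h4 := gk_rec L n
      have h5 : 87 * ((n : ℝ) + 1) * S * c (n + 1) ≤ 87 * ((n : ℝ) + 1) * S * (S * gk L (n + 1)) := by
        calc 87 * ((n : ℝ) + 1) * S * c (n + 1)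
            ≤ 32 * ((S * S) * ∑ k ∈ range (n + 1), (((min L (k + 1) : ℕ) : ℝ) *
            (gk L k * gk L (n - k)))) := h2.trans (by linarith)
          _ = (S * S) * (87 * ((n : ℝ) + 1) * gk L (n + 1)) := by rw [h4]; ring
          _ = _ := by ring
      exact le_of_mul_le_mul_left h5 (by positivity)

lemma super_solR (L N : ℕ) (S : ℝ) (hS : 0 < S) (c : ℕ → ℝ) (hc : ∀ n, 0 ≤ c n) (h0 : S ≤ c 0)
    (h : ∀ n, n < N → 32 * ∑ k ∈ range (n + 1), ((min L (k + 1) : ℕ) : ℝ) * (c k * c (n - k)) ≤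
      87 * ((n : ℝ) + 1) * S * c (n + 1)) :
    ∀ n, n ≤ N → S * gk L n ≤ c n := by
  intro n
  induction n using Nat.strong_induction_on with
  | _ n ih =>
    intro hn
    cases n with
    | zero =>
      rw [gk_zero, mul_one]
      exact h0
    | succ n =>
      have h2 := h n (by omega)
      have h3 : ∑ k ∈ range (n + 1), (S * S) * (((min L (k + 1) : ℕ) : ℝ) *
            (gk L k * gk L (n - k))) ≤
          ∑ k ∈ range (n + 1), ((min L (k + 1) : ℕ) : ℝ) * (c k * c (n - k)) := by
        apply Finset.sum_le_sum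
        intro k hk
        have hk' := mem_range.mp hk
        have i1 := ih k (by omega) (by omega)
        have i2 := ih (n - k) (by omega) (by omega)
        have hm : (0 : ℝ) ≤ ((min L (k + 1) : ℕ) : ℝ) := Nat.cast_nonneg _
        have g1 : 0 ≤ S * gk L (n - k) := mul_nonneg hS.le (gk_nonneg _ _)
        calc (S * S) * (((min L (k + 1) : ℕ) : ℝ) * (gk L k * gk L (n - k)))
            = ((min L (k + 1) : ℕ) : ℝ) * ((S * gk L k) * (S * gk L (n - k))) := by ring
          _ ≤ ((min L (k + 1) : ℕ) : ℝ) * (c k * c (n - k)) :=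
              mul_le_mul_of_nonneg_left (mul_le_mul i1 i2 g1 (hc _)) hm
      rw [← Finset.mul_sum] at h3
      have h4 := gk_rec L n
      have h5 : 87 * ((n : ℝ) + 1) * S * (S * gk L (n + 1)) ≤ 87 * ((n : ℝ) + 1) * S * c (n + 1) := by
        calc 87 * ((n : ℝ) + 1) * S * (S * gk L (n + 1))
            = (S * S) * (87 * ((n : ℝ) + 1) * gk L (n + 1)) := by ring
          _ = 32 * ((S * S) * ∑ k ∈ range (n + 1), (((min L (k + 1) : ℕ) : ℝ) *
            (gk L k * gk L (n - k)))) := by rw [h4]; ring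
          _ ≤ 87 * ((n : ℝ) + 1) * S * c (n + 1) := le_trans (by linarith) h2
      exact le_of_mul_le_mul_left h5 (by positivity)

/-- an approximate solution with relative residuals `≤ t` gives two-sided bounds -/
lemma approx_sol (L N : ℕ) (S t : ℝ) (hS : 0 < S) (ht : 0 ≤ t) (ht1 : t ≤ 1) (c : ℕ → ℝ)
    (hc : ∀ n, 0 ≤ c n) (h0 : c 0 = S)
    (h1 : ∀ n, n < N → (1 - t) * (87 * ((n : ℝ) + 1) * S * c (n + 1)) ≤
      32 * ∑ k ∈ range (n + 1), ((min L (k + 1) : ℕ) : ℝ) * (c k * c (n - k)))
    (h2 : ∀ n, n < N → 32 * ∑ k ∈ range (n + 1), ((min L (k + 1) : ℕ) : ℝ) * (c k * c (n - k)) ≤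
      (1 + t) * (87 * ((n : ℝ) + 1) * S * c (n + 1))) :
    ∀ n, n ≤ N → c n * (1 - t) ^ (2 * n + 1) ≤ S * gk L n ∧
      S * gk L n ≤ c n * (1 + t) ^ (2 * n + 1) := by
  have hq : 0 ≤ 1 - t := by linarith
  have hp : 0 ≤ 1 + t := by linarith
  have hs : ∀ (q : ℝ) (n : ℕ), ∑ k ∈ range (n + 1), ((min L (k + 1) : ℕ) : ℝ) *
      ((c k * q ^ (2 * k + 1)) * (c (n - k) * q ^ (2 * (n - k) + 1))) =
      q ^ (2 * n + 2) * ∑ k ∈ range (n + 1), ((min L (k + 1) : ℕ) : ℝ) * (c k * c (n - k)) := by
    intro q n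
    rw [Finset.mul_sum]
    apply Finset.sum_congr rfl
    intro k hk
    have hk' := mem_range.mp hk
    have : q ^ (2 * n + 2) = q ^ (2 * k + 1) * q ^ (2 * (n - k) + 1) := by
      rw [← pow_add]
      congr 1
      omega
    rw [this]
    ring
  intro n hn
  constructor
  · refine sub_solR L N S hS (fun k => c k * (1 - t) ^ (2 * k + 1))
      (fun k => mul_nonneg (hc k) (pow_nonneg hq _)) ?_ ?_ n hn
    · simp only [h0]
      have : (1 - t) ^ (2 * 0 + 1) ≤ 1 := pow_le_one₀ hq (by linarith)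
      nlinarith
    · intro m hm
      rw [hs]
      have e : (1 - t) ^ (2 * (m + 1) + 1) = (1 - t) ^ (2 * m + 2) * (1 - t) := by
        rw [← pow_succ]
        congr 1
      rw [e]
      have := mul_le_mul_of_nonneg_left (h1 m hm) (pow_nonneg hq (2 * m + 2))
      linarith
  · refine super_solR L N S hS (fun k => c k * (1 + t) ^ (2 * k + 1))
      (fun k => mul_nonneg (hc k) (pow_nonneg hp _)) ?_ ?_ n hn
    · simp only [h0]
      have : 1 ≤ (1 + t) ^ (2 * 0 + 1) := one_le_pow₀ (by linarith)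
      nlinarith
    · intro m hm
      rw [hs]
      have e : (1 + t) ^ (2 * (m + 1) + 1) = (1 + t) ^ (2 * m + 2) * (1 + t) := by
        rw [← pow_succ]
        congr 1
      rw [e]
      have := mul_le_mul_of_nonneg_left (h2 m hm) (pow_nonneg hp (2 * m + 2))
      linarith

lemma pow_up (t : ℝ) (ht : 0 ≤ t) : ∀ m : ℕ, 2 * (m : ℝ) * t ≤ 1 → (1 + t) ^ m ≤ 1 + 2 * m * t := by
  intro m
  induction m with
  | zero => intro _; simp
  | succ m ih =>
    intro h
    push_cast at h ⊢
    have hm : 2 * (m : ℝ) * t ≤ 1 := by nlinarith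
    have h1 := ih hm
    rw [pow_succ]
    have h2 : (1 + t) ^ m * (1 + t) ≤ (1 + 2 * m * t) * (1 + t) :=
      mul_le_mul_of_nonneg_right h1 (by linarith)
    nlinarith

lemma pow_dn (t : ℝ) (ht1 : t ≤ 1) (m : ℕ) : 1 - m * t ≤ (1 - t) ^ m := by
  have := one_add_mul_le_pow (a := -t) (by linarith) m
  have e : 1 + (m : ℝ) * -t = 1 - m * t := by ring
  have e2 : (1 + -t) = 1 - t := by ring
  rw [e, e2] at this
  exact this

end Pool.Agent.MP_9da1e3_co
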