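import Pool.Agent.Lib.MP_9da1e3_co.Kc2

/-!
Kernel evaluation, part 3: the checkers and their soundness.
-/

namespace Pool.Agent.MP_9da1e3_co

open Finset

lemma wt_eq (L n : ℕ) : wt L n = min L (n + 1) := by
  unfold wt
  show cond (Nat.ble L (n + 1)) L (n + 1) = _
  by_cases h : L ≤ n + 1
  · rw [Nat.ble_eq_true_of_le h, cond_true, min_eq_left h]
  · have : Nat.ble L (n + 1) = false := by
      rw [← Bool.not_eq_true, Nat.ble_eq]
      exact h
    rw [this, cond_false, min_eq_right (by omega)]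

lemma loN_eq (n x : ℕ) : loN n x = x - x * (2 * n + 1) / 2 ^ 44 - 1 := by
  show x - (x * (2 * n + 1)) >>> 44 - 1 = _
  rw [Nat.shiftRight_eq_div_pow]

lemma hiN_eq (n x : ℕ) : hiN n x = x + x * (2 * n + 1) / 2 ^ 43 + 1 := by
  show x + (x * (2 * n + 1)) >>> 43 + 1 = _
  rw [Nat.shiftRight_eq_div_pow]

/-- the tolerance -/
noncomputable def tol : ℝ := 1 / 2 ^ 44

lemma loN_le_real (n x : ℕ) : ((loN n x : ℕ) : ℝ) ≤ max 0 (x * (1 - ((2 * n + 1 : ℕ) : ℝ) * tol)) := by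
  rw [loN_eq]
  by_cases h : x * (2 * n + 1) / 2 ^ 44 + 1 ≤ x
  · refine le_trans ?_ (le_max_right _ _)
    have h1 : x * (2 * n + 1) < 2 ^ 44 * (x * (2 * n + 1) / 2 ^ 44 + 1) :=
      Nat.lt_mul_div_succ _ (by norm_num)
    have h2 : ((x * (2 * n + 1) : ℕ) : ℝ) < ((2 ^ 44 * (x * (2 * n + 1) / 2 ^ 44 + 1) : ℕ) : ℝ) := by
      exact_mod_cast h1
    have h3 : ((x - x * (2 * n + 1) / 2 ^ 44 - 1 : ℕ) : ℝ) =
        (x : ℝ) - ((x * (2 * n + 1) / 2 ^ 44 + 1 : ℕ) : ℝ) := by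
      rw [Nat.sub_sub, Nat.cast_sub h]
    rw [h3]
    set q : ℕ := x * (2 * n + 1) / 2 ^ 44 + 1 with hq
    rw [Nat.cast_mul, Nat.cast_mul] at h2
    push_cast at h2 ⊢
    unfold tol
    nlinarith
  · have : x - x * (2 * n + 1) / 2 ^ 44 - 1 = 0 := by omega
    rw [this, Nat.cast_zero]
    exact le_max_left _ _

lemma hiN_ge_real (n x : ℕ) : (x : ℝ) * (1 + 2 * ((2 * n + 1 : ℕ) : ℝ) * tol) ≤ ((hiN n x : ℕ) : ℝ) := by
  rw [hiN_eq]
  have h1 : x * (2 * n + 1) < 2 ^ 43 * (x * (2 * n + 1) / 2 ^ 43 + 1) :=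
    Nat.lt_mul_div_succ _ (by norm_num)
  have h2 : ((x * (2 * n + 1) : ℕ) : ℝ) < ((2 ^ 43 * (x * (2 * n + 1) / 2 ^ 43 + 1) : ℕ) : ℝ) := by
    exact_mod_cast h1
  have h3 : ((x + x * (2 * n + 1) / 2 ^ 43 + 1 : ℕ) : ℝ) =
      (x : ℝ) + ((x * (2 * n + 1) / 2 ^ 43 + 1 : ℕ) : ℝ) := by
    push_cast
    ring
  rw [h3]
  set q : ℕ := x * (2 * n + 1) / 2 ^ 43 + 1 with hq
  rw [Nat.cast_mul, Nat.cast_mul] at h2
  push_cast at h2 ⊢
  unfold tol
  nlinarith

lemma ckE_sound {w X Sc L N d C : ℕ} (hwX : 2 * w + 28 < X) (Sc_pos : 0 < Sc)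
    (hL : L ≤ 65536) (hd : d ≤ 12) (h : ckE w X Sc L N d C = true) :
    ∀ n, n ≤ N → ((loN n (dg w C n) : ℕ) : ℝ) ≤ Sc * gk L n ∧
      Sc * gk L n ≤ ((hiN n (dg w C n) : ℕ) : ℝ) := by
  unfold ckE at h
  rw [Bool.cond_false_right, Bool.and_eq_true, Bool.cond_false_right, Bool.and_eq_true] at h
  obtain ⟨⟨h1, h2⟩, h4⟩ := h
  have h1' : N + 1 ≤ 2 ^ d := Nat.le_of_ble_eq_true h1
  have d0 : dg w C 0 = lowb C w := by
    rw [lowb_eq]
    simp [dg]
  have h2' : dg w C 0 = Sc := by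
    rw [d0]
    exact Nat.eq_of_beq_eq_true h2
  have h5 := al2_spec _ _ _ _ _ _ _ h4
  have hM : 2 ^ d ≤ 2 ^ 12 := Nat.pow_le_pow_right (by norm_num) hd
  have bw : ∀ i, wt L i ≤ 65536 := by
    intro i
    rw [wt_eq]
    exact (min_le_left _ _).trans hL
  have bX : 2 ^ d * ((65536 * 2 ^ w) * 2 ^ w) < 2 ^ X := by
    calc 2 ^ d * ((65536 * 2 ^ w) * 2 ^ w) ≤
          2 ^ 12 * ((65536 * 2 ^ w) * 2 ^ w) := Nat.mul_le_mul_right _ hM
      _ = 2 ^ (2 * w + 28) := by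
          have : (65536 : ℕ) = 2 ^ 16 := by norm_num
          rw [this, ← pow_add, ← pow_add, ← pow_add]
          congr 1
          ring
      _ < 2 ^ X := Nat.pow_lt_pow_right (by norm_num) hwX
  have dl : ∀ i, i < 2 ^ d → dg X (Nat.mul (pk w X (gwt L) d 0 C) (pk w X gid d 0 C)) i
      = ∑ k ∈ range (i + 1), (wt L k * dg w C k) * dg w C (i - k) := by
    intro i hi
    have e1 : pk w X (gwt L) d 0 C =
        ∑ k ∈ range (2 ^ d), (wt L k * dg w C k) * 2 ^ (X * k) := by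
      rw [pk_eq]
      apply Finset.sum_congr rfl
      intro k _
      rw [Nat.zero_add]
      rfl
    have e2 : pk w X gid d 0 C =
        ∑ k ∈ range (2 ^ d), (dg w C k) * 2 ^ (X * k) := by
      rw [pk_eq]
      apply Finset.sum_congr rfl
      intro k _
      rw [Nat.zero_add]
      rfl
    show dg X (pk w X (gwt L) d 0 C * pk w X gid d 0 C) i = _
    rw [e1, e2]
    exact conv_digit X (2 ^ d) (fun k => wt L k * dg w C k)
      (fun k => dg w C k) (65536 * 2 ^ w) (2 ^ w)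
      (fun k _ => Nat.mul_le_mul (bw k) (dg_lt _ _ _).le)
      (fun k _ => (dg_lt _ _ _).le) bX i hi
  have key : ∀ n, n < N →
      17592186044415 * (87 * (n + 1) * (Sc * dg w C (n + 1))) ≤
        17592186044416 * (32 * ∑ k ∈ range (n + 1), (min L (k + 1) * dg w C k) *
          dg w C (n - k)) ∧
      17592186044416 * (32 * ∑ k ∈ range (n + 1), (min L (k + 1) * dg w C k) *
          dg w C (n - k)) ≤
        17592186044417 * (87 * (n + 1) * (Sc * dg w C (n + 1))) := by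
    intro n hn
    have hn2 : n < 2 ^ d := by omega
    have h6 := h5 n hn2
    rw [dl n hn2, Nat.zero_add] at h6
    have e3 : dg w (Nat.shiftRight C w) n = dg w C (n + 1) := by
      have : Nat.shiftRight C w = C / 2 ^ (w * 1) := by
        show C >>> w = _
        rw [Nat.shiftRight_eq_div_pow, Nat.mul_one]
      rw [this, dg_div, Nat.add_comm 1 n]
    rw [e3] at h6
    unfold QE at h6
    have e4 : Nat.ble N n = false := by
      rw [← Bool.not_eq_true, Nat.ble_eq]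
      omega
    rw [e4, cond_false, Bool.cond_false_right, Bool.and_eq_true] at h6
    obtain ⟨h7, h8⟩ := h6
    have h7' : 17592186044415 * ((87 * (n + 1)) * (Sc * dg w C (n + 1))) ≤ _ * (32 * _) :=
      Nat.le_of_ble_eq_true h7
    have h8' : _ * (32 * _) ≤ 17592186044417 * ((87 * (n + 1)) * (Sc * dg w C (n + 1))) :=
      Nat.le_of_ble_eq_true h8
    simp only [wt_eq] at h7' h8'
    exact ⟨h7', h8'⟩
  have ht0 : (0 : ℝ) ≤ tol := by unfold tol; positivity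
  have ht1 : tol ≤ 1 := by unfold tol; norm_num
  have hS : (0 : ℝ) < Sc := by exact_mod_cast Sc_pos
  have hconv : ∀ n, ((∑ k ∈ range (n + 1), (min L (k + 1) * dg w C k) * dg w C (n - k) : ℕ) : ℝ) =
      ∑ k ∈ range (n + 1), ((min L (k + 1) : ℕ) : ℝ) *
        (((dg w C k : ℕ) : ℝ) * ((dg w C (n - k) : ℕ) : ℝ)) := by
    intro n
    push_cast
    apply Finset.sum_congr rfl
    intro k _
    ring
  have main := approx_sol L N Sc tol hS ht0 ht1 (fun k => ((dg w C k : ℕ) : ℝ))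
    (fun k => Nat.cast_nonneg _) (by rw [h2'])
    (by
      intro n hn
      have h7 := (key n hn).1
      have h8 : (17592186044415 : ℝ) * (87 * ((n : ℝ) + 1) * (Sc * ((dg w C (n + 1) : ℕ) : ℝ))) ≤
          17592186044416 * (32 * ((∑ k ∈ range (n + 1), (min L (k + 1) * dg w C k) *
            dg w C (n - k) : ℕ) : ℝ)) := by exact_mod_cast h7
      rw [hconv] at h8
      have e : (1 - tol) = 17592186044415 / 17592186044416 := by unfold tol; norm_num
      rw [e, div_mul_eq_mul_div, div_le_iff₀ (by norm_num)]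
      linarith)
    (by
      intro n hn
      have h7 := (key n hn).2
      have h8 : (17592186044416 : ℝ) * (32 * ((∑ k ∈ range (n + 1), (min L (k + 1) * dg w C k) *
            dg w C (n - k) : ℕ) : ℝ)) ≤
          17592186044417 * (87 * ((n : ℝ) + 1) * (Sc * ((dg w C (n + 1) : ℕ) : ℝ))) := by
        exact_mod_cast h7
      rw [hconv] at h8
      have e : (1 + tol) = 17592186044417 / 17592186044416 := by unfold tol; norm_num
      rw [e, div_mul_eq_mul_div, le_div_iff₀ (by norm_num)]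
      linarith)
  intro n hn
  obtain ⟨m1, m2⟩ := main n hn
  have hnn : (n : ℝ) ≤ 2 ^ 12 := by
    have : n ≤ 2 ^ 12 := by omega
    exact_mod_cast this
  have hx : (0 : ℝ) ≤ ((dg w C n : ℕ) : ℝ) := Nat.cast_nonneg _
  constructor
  · refine (loN_le_real n _).trans (max_le (mul_nonneg hS.le (gk_nonneg _ _)) ?_)
    refine le_trans ?_ m1
    exact mul_le_mul_of_nonneg_left (pow_dn tol ht1 (2 * n + 1)) hx
  · refine le_trans m2 (le_trans ?_ (hiN_ge_real n _))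
    refine mul_le_mul_of_nonneg_left (pow_up tol ht0 (2 * n + 1) ?_) hx
    push_cast
    unfold tol
    rw [mul_one_div, div_le_one (by positivity)]
    linarith [hnn, show (2 : ℝ) * (2 * 2 ^ 12 + 1) ≤ 2 ^ 44 by norm_num]

/-- the sign statement for one `L` -/
def SignP (L N nu : ℕ) : Prop := ∀ n, L < n → n ≤ N →
  (n < nu → Fr (L + 2) n + Fr L n < 2 * Fr (L + 1) n) ∧
  (nu ≤ n → 2 * Fr (L + 1) n < Fr (L + 2) n + Fr L n)

lemma Fr_gk (L n : ℕ) : (Fr L n : ℝ) = gk L n * ((n.factorial : ℝ) * (87 / 32) ^ n) := by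
  unfold gk f
  have h : (n.factorial : ℝ) ≠ 0 := by positivity
  have h2 : (32 / 87 : ℝ) ^ n * (87 / 32) ^ n = 1 := by
    rw [← mul_pow]
    norm_num
  field_simp
  calc (Fr L n : ℝ) = Fr L n * ((32 / 87 : ℝ) ^ n * (87 / 32) ^ n) := by rw [h2, mul_one]
    _ = _ := by ring

lemma ckS_sound {w X Sc L N nu d C1 C2 C3 N1 N2 N3 d1 d2 d3 : ℕ} (hwX : 2 * w + 28 < X)
    (Sc_pos : 0 < Sc) (hL : L + 2 ≤ 65536)
    (h1 : ckE w X Sc L N1 d1 C1 = true) (h2 : ckE w X Sc (L + 1) N2 d2 C2 = true)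
    (h3 : ckE w X Sc (L + 2) N3 d3 C3 = true) (hd1 : d1 ≤ 12) (hd2 : d2 ≤ 12) (hd3 : d3 ≤ 12)
    (hN1 : N ≤ N1) (hN2 : N ≤ N2) (hN3 : N ≤ N3) (h : ckS w L N nu d C1 C2 C3 = true) :
    SignP L N nu := by
  unfold ckS at h
  rw [Bool.cond_false_right, Bool.and_eq_true] at h
  obtain ⟨h4, h5⟩ := h
  have h4' : N + 1 ≤ 2 ^ d := Nat.le_of_ble_eq_true h4
  intro n hn1 hn2
  have h6 := al3_spec _ _ _ _ _ _ _ _ _ h5 n (by omega)
  rw [Nat.zero_add] at h6
  obtain ⟨a1, b1⟩ := ckE_sound hwX Sc_pos (by omega) hd1 h1 n (by omega)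
  obtain ⟨a2, b2⟩ := ckE_sound hwX Sc_pos (by omega) hd2 h2 n (by omega)
  obtain ⟨a3, b3⟩ := ckE_sound hwX Sc_pos (by omega) hd3 h3 n (by omega)
  have e4 : Nat.ble n L = false := by
    rw [← Bool.not_eq_true, Nat.ble_eq]
    omega
  have e5 : Nat.ble (Nat.add N 1) n = false := by
    rw [← Bool.not_eq_true, Nat.ble_eq]
    show ¬ N + 1 ≤ n
    omega
  unfold QS at h6
  rw [e4, cond_false, e5, cond_false] at h6
  have hk : (0 : ℝ) < (n.factorial : ℝ) * (87 / 32) ^ n := by positivity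
  have hS : (0 : ℝ) < Sc := by exact_mod_cast Sc_pos
  constructor
  · intro hnu
    have e6 : Nat.ble nu n = false := by
      rw [← Bool.not_eq_true, Nat.ble_eq]
      omega
    rw [e6, cond_false] at h6
    have h7 : hiN n (dg w C1 n) + hiN n (dg w C3 n) + 1 ≤ 2 * loN n (dg w C2 n) :=
      Nat.le_of_ble_eq_true h6
    have h8 : ((hiN n (dg w C1 n) : ℕ) : ℝ) + ((hiN n (dg w C3 n) : ℕ) : ℝ) + 1 ≤
        2 * ((loN n (dg w C2 n) : ℕ) : ℝ) := by exact_mod_cast h7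
    have h9 : Sc * (gk (L + 2) n + gk L n) < Sc * (2 * gk (L + 1) n) := by linarith
    have h10 := lt_of_mul_lt_mul_left h9 hS.le
    have h11 : ((Fr (L + 2) n + Fr L n : ℕ) : ℝ) < ((2 * Fr (L + 1) n : ℕ) : ℝ) := by
      push_cast
      rw [Fr_gk, Fr_gk L n, Fr_gk (L + 1) n]
      nlinarith [mul_lt_mul_of_pos_right h10 hk]
    exact_mod_cast h11
  · intro hnu
    rw [Nat.ble_eq_true_of_le hnu, cond_true] at h6
    have h7 : 2 * hiN n (dg w C2 n) + 1 ≤ loN n (dg w C1 n) + loN n (dg w C3 n) :=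
      Nat.le_of_ble_eq_true h6
    have h8 : 2 * ((hiN n (dg w C2 n) : ℕ) : ℝ) + 1 ≤
        ((loN n (dg w C1 n) : ℕ) : ℝ) + ((loN n (dg w C3 n) : ℕ) : ℝ) := by exact_mod_cast h7
    have h9 : Sc * (2 * gk (L + 1) n) < Sc * (gk (L + 2) n + gk L n) := by linarith
    have h10 := lt_of_mul_lt_mul_left h9 hS.le
    have h11 : ((2 * Fr (L + 1) n : ℕ) : ℝ) < ((Fr (L + 2) n + Fr L n : ℕ) : ℝ) := by
      push_cast
      rw [Fr_gk (L + 2), Fr_gk L n, Fr_gk (L + 1) n]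
      nlinarith [mul_lt_mul_of_pos_right h10 hk]
    exact_mod_cast h11

end Pool.Agent.MP_9da1e3_co
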