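import Pool.Agent.Lib.MP_9da1e3_co.Kc3
import Pool.Agent.Lib.MP_9da1e3_co.KcT

/-!
Kernel evaluation, part 4: from the checks to the sign statement.
-/

namespace Pool.Agent.MP_9da1e3_co

def sideB (L N N1 N2 N3 d1 d2 d3 : ℕ) : Bool :=
  decide (N = NNk L) && (decide (L + 2 ≤ 65536) && (decide (d1 ≤ 12) && (decide (d2 ≤ 12) &&
    (decide (d3 ≤ 12) && (decide (N ≤ N1) && (decide (N ≤ N2) && decide (N ≤ N3)))))))

theorem sgnL {L N nu d C1 C2 C3 N1 N2 N3 d1 d2 d3 : ℕ}
    (hc : sideB L N N1 N2 N3 d1 d2 d3 = true)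
    (h1 : ckE 72 192 2361183241434822606848 L N1 d1 C1 = true)
    (h2 : ckE 72 192 2361183241434822606848 (L + 1) N2 d2 C2 = true)
    (h3 : ckE 72 192 2361183241434822606848 (L + 2) N3 d3 C3 = true)
    (h : ckS 72 L N nu d C1 C2 C3 = true) : SignP L (NNk L) nu := by
  unfold sideB at hc
  simp only [Bool.and_eq_true, decide_eq_true_eq] at hc
  obtain ⟨c0, c1, c2, c3, c4, c5, c6, c7⟩ := hc
  rw [← c0]
  exact ckS_sound (by norm_num) (by norm_num) c1 h1 h2 h3 c2 c3 c4 c5 c6 c7 h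

theorem sgnH {L N nu d C1 C2 C3 N1 N2 N3 d1 d2 d3 : ℕ}
    (hc : sideB L N N1 N2 N3 d1 d2 d3 = true)
    (h1 : ckE 200 448 1532495540865888858358347027150309183618739122183602176 L N1 d1 C1 = true)
    (h2 : ckE 200 448 1532495540865888858358347027150309183618739122183602176 (L + 1) N2 d2 C2 =
      true)
    (h3 : ckE 200 448 1532495540865888858358347027150309183618739122183602176 (L + 2) N3 d3 C3 =
      true)
    (h : ckS 200 L N nu d C1 C2 C3 = true) : SignP L (NNk L) nu := by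
  unfold sideB at hc
  simp only [Bool.and_eq_true, decide_eq_true_eq] at hc
  obtain ⟨c0, c1, c2, c3, c4, c5, c6, c7⟩ := hc
  rw [← c0]
  exact ckS_sound (by norm_num) (by norm_num) c1 h1 h2 h3 c2 c3 c4 c5 c6 c7 h

end Pool.Agent.MP_9da1e3_co
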