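import Pool.Agent.Lib.MP_9da1e3_co.KcE100
import Pool.Agent.Lib.MP_9da1e3_co.KcE110

set_option maxRecDepth 100000

namespace Pool.Agent.MP_9da1e3_co

theorem qL100 : ckS 72 100 340 (nuT 100) 9 (cert 100 CL100) (cert 101 CL101)
    (cert 102 CL102) = true := by decide +kernel

theorem qL101 : ckS 72 101 343 (nuT 101) 9 (cert 101 CL101) (cert 102 CL102)
    (cert 103 CL103) = true := by decide +kernel

theorem qL102 : ckS 72 102 346 (nuT 102) 9 (cert 102 CL102) (cert 103 CL103)
    (cert 104 CL104) = true := by decide +kernel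

theorem qL103 : ckS 72 103 349 (nuT 103) 9 (cert 103 CL103) (cert 104 CL104)
    (cert 105 CL105) = true := by decide +kernel

theorem qL104 : ckS 72 104 352 (nuT 104) 9 (cert 104 CL104) (cert 105 CL105)
    (cert 106 CL106) = true := by decide +kernel

theorem qL105 : ckS 72 105 355 (nuT 105) 9 (cert 105 CL105) (cert 106 CL106)
    (cert 107 CL107) = true := by decide +kernel

theorem qL106 : ckS 72 106 358 (nuT 106) 9 (cert 106 CL106) (cert 107 CL107)
    (cert 108 CL108) = true := by decide +kernel

theorem qL107 : ckS 72 107 361 (nuT 107) 9 (cert 107 CL107) (cert 108 CL108)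
    (cert 109 CL109) = true := by decide +kernel

theorem qL108 : ckS 72 108 364 (nuT 108) 9 (cert 108 CL108) (cert 109 CL109)
    (cert 110 CL110) = true := by decide +kernel

theorem qL109 : ckS 72 109 367 (nuT 109) 9 (cert 109 CL109) (cert 110 CL110)
    (cert 111 CL111) = true := by decide +kernel

end Pool.Agent.MP_9da1e3_co
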