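import Pool.Agent.Lib.MP_9da1e3_co.KcE110
import Pool.Agent.Lib.MP_9da1e3_co.KcE120

set_option maxRecDepth 100000

namespace Pool.Agent.MP_9da1e3_co

theorem qL110 : ckS 72 110 370 (nuT 110) 9 (cert 110 CL110) (cert 111 CL111)
    (cert 112 CL112) = true := by decide +kernel

theorem qL111 : ckS 72 111 373 (nuT 111) 9 (cert 111 CL111) (cert 112 CL112)
    (cert 113 CL113) = true := by decide +kernel

theorem qL112 : ckS 72 112 376 (nuT 112) 9 (cert 112 CL112) (cert 113 CL113)
    (cert 114 CL114) = true := by decide +kernel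

theorem qL113 : ckS 72 113 379 (nuT 113) 9 (cert 113 CL113) (cert 114 CL114)
    (cert 115 CL115) = true := by decide +kernel

theorem qL114 : ckS 72 114 382 (nuT 114) 9 (cert 114 CL114) (cert 115 CL115)
    (cert 116 CL116) = true := by decide +kernel

theorem qL115 : ckS 72 115 385 (nuT 115) 9 (cert 115 CL115) (cert 116 CL116)
    (cert 117 CL117) = true := by decide +kernel

theorem qL116 : ckS 72 116 388 (nuT 116) 9 (cert 116 CL116) (cert 117 CL117)
    (cert 118 CL118) = true := by decide +kernel

theorem qL117 : ckS 72 117 391 (nuT 117) 9 (cert 117 CL117) (cert 118 CL118)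
    (cert 119 CL119) = true := by decide +kernel

theorem qL118 : ckS 72 118 394 (nuT 118) 9 (cert 118 CL118) (cert 119 CL119)
    (cert 120 CL120) = true := by decide +kernel

theorem qL119 : ckS 72 119 397 (nuT 119) 9 (cert 119 CL119) (cert 120 CL120)
    (cert 121 CL121) = true := by decide +kernel

end Pool.Agent.MP_9da1e3_co
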