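import Pool.Agent.Lib.MP_9da1e3_co.KcE120
import Pool.Agent.Lib.MP_9da1e3_co.KcE130

set_option maxRecDepth 100000

namespace Pool.Agent.MP_9da1e3_co

theorem qL120 : ckS 72 120 400 (nuT 120) 9 (cert 120 CL120) (cert 121 CL121)
    (cert 122 CL122) = true := by decide +kernel

theorem qL121 : ckS 72 121 403 (nuT 121) 9 (cert 121 CL121) (cert 122 CL122)
    (cert 123 CL123) = true := by decide +kernel

theorem qL122 : ckS 72 122 406 (nuT 122) 9 (cert 122 CL122) (cert 123 CL123)
    (cert 124 CL124) = true := by decide +kernel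

theorem qL123 : ckS 72 123 409 (nuT 123) 9 (cert 123 CL123) (cert 124 CL124)
    (cert 125 CL125) = true := by decide +kernel

theorem qL124 : ckS 72 124 412 (nuT 124) 9 (cert 124 CL124) (cert 125 CL125)
    (cert 126 CL126) = true := by decide +kernel

theorem qL125 : ckS 72 125 415 (nuT 125) 9 (cert 125 CL125) (cert 126 CL126)
    (cert 127 CL127) = true := by decide +kernel

theorem qL126 : ckS 72 126 418 (nuT 126) 9 (cert 126 CL126) (cert 127 CL127)
    (cert 128 CL128) = true := by decide +kernel

theorem qL127 : ckS 72 127 421 (nuT 127) 9 (cert 127 CL127) (cert 128 CL128)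
    (cert 129 CL129) = true := by decide +kernel

theorem qL128 : ckS 72 128 424 (nuT 128) 9 (cert 128 CL128) (cert 129 CL129)
    (cert 130 CL130) = true := by decide +kernel

theorem qL129 : ckS 72 129 427 (nuT 129) 9 (cert 129 CL129) (cert 130 CL130)
    (cert 131 CL131) = true := by decide +kernel

end Pool.Agent.MP_9da1e3_co
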