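import Pool.Agent.Lib.MP_9da1e3_co.KcE130
import Pool.Agent.Lib.MP_9da1e3_co.KcE140

set_option maxRecDepth 100000

namespace Pool.Agent.MP_9da1e3_co

theorem qL130 : ckS 72 130 430 (nuT 130) 9 (cert 130 CL130) (cert 131 CL131)
    (cert 132 CL132) = true := by decide +kernel

theorem qL131 : ckS 72 131 433 (nuT 131) 9 (cert 131 CL131) (cert 132 CL132)
    (cert 133 CL133) = true := by decide +kernel

theorem qL132 : ckS 72 132 436 (nuT 132) 9 (cert 132 CL132) (cert 133 CL133)
    (cert 134 CL134) = true := by decide +kernel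

theorem qL133 : ckS 72 133 439 (nuT 133) 9 (cert 133 CL133) (cert 134 CL134)
    (cert 135 CL135) = true := by decide +kernel

theorem qL134 : ckS 72 134 442 (nuT 134) 9 (cert 134 CL134) (cert 135 CL135)
    (cert 136 CL136) = true := by decide +kernel

theorem qL135 : ckS 72 135 445 (nuT 135) 9 (cert 135 CL135) (cert 136 CL136)
    (cert 137 CL137) = true := by decide +kernel

theorem qL136 : ckS 72 136 448 (nuT 136) 9 (cert 136 CL136) (cert 137 CL137)
    (cert 138 CL138) = true := by decide +kernel

theorem qL137 : ckS 72 137 451 (nuT 137) 9 (cert 137 CL137) (cert 138 CL138)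
    (cert 139 CL139) = true := by decide +kernel

theorem qL138 : ckS 72 138 454 (nuT 138) 9 (cert 138 CL138) (cert 139 CL139)
    (cert 140 CL140) = true := by decide +kernel

theorem qL139 : ckS 72 139 457 (nuT 139) 9 (cert 139 CL139) (cert 140 CL140)
    (cert 141 CL141) = true := by decide +kernel

end Pool.Agent.MP_9da1e3_co
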