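import Pool.Agent.Lib.MP_9da1e3_co.KcE140
import Pool.Agent.Lib.MP_9da1e3_co.KcE150

set_option maxRecDepth 100000

namespace Pool.Agent.MP_9da1e3_co

theorem qL140 : ckS 72 140 460 (nuT 140) 9 (cert 140 CL140) (cert 141 CL141)
    (cert 142 CL142) = true := by decide +kernel

theorem qL141 : ckS 72 141 463 (nuT 141) 9 (cert 141 CL141) (cert 142 CL142)
    (cert 143 CL143) = true := by decide +kernel

theorem qL142 : ckS 72 142 466 (nuT 142) 9 (cert 142 CL142) (cert 143 CL143)
    (cert 144 CL144) = true := by decide +kernel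

theorem qL143 : ckS 72 143 469 (nuT 143) 9 (cert 143 CL143) (cert 144 CL144)
    (cert 145 CL145) = true := by decide +kernel

theorem qL144 : ckS 72 144 472 (nuT 144) 9 (cert 144 CL144) (cert 145 CL145)
    (cert 146 CL146) = true := by decide +kernel

theorem qL145 : ckS 72 145 475 (nuT 145) 9 (cert 145 CL145) (cert 146 CL146)
    (cert 147 CL147) = true := by decide +kernel

theorem qL146 : ckS 72 146 478 (nuT 146) 9 (cert 146 CL146) (cert 147 CL147)
    (cert 148 CL148) = true := by decide +kernel

theorem qL147 : ckS 72 147 481 (nuT 147) 9 (cert 147 CL147) (cert 148 CL148)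
    (cert 149 CL149) = true := by decide +kernel

theorem qL148 : ckS 72 148 484 (nuT 148) 9 (cert 148 CL148) (cert 149 CL149)
    (cert 150 CL150) = true := by decide +kernel

theorem qL149 : ckS 72 149 487 (nuT 149) 9 (cert 149 CL149) (cert 150 CL150)
    (cert 151 CL151) = true := by decide +kernel

end Pool.Agent.MP_9da1e3_co
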