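import Pool.Agent.Lib.MP_9da1e3_co.KcE150
import Pool.Agent.Lib.MP_9da1e3_co.KcE160

set_option maxRecDepth 100000

namespace Pool.Agent.MP_9da1e3_co

theorem qL150 : ckS 72 150 490 (nuT 150) 9 (cert 150 CL150) (cert 151 CL151)
    (cert 152 CL152) = true := by decide +kernel

theorem qL151 : ckS 72 151 493 (nuT 151) 9 (cert 151 CL151) (cert 152 CL152)
    (cert 153 CL153) = true := by decide +kernel

theorem qL152 : ckS 72 152 496 (nuT 152) 9 (cert 152 CL152) (cert 153 CL153)
    (cert 154 CL154) = true := by decide +kernel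

theorem qL153 : ckS 72 153 499 (nuT 153) 9 (cert 153 CL153) (cert 154 CL154)
    (cert 155 CL155) = true := by decide +kernel

theorem qL154 : ckS 72 154 502 (nuT 154) 9 (cert 154 CL154) (cert 155 CL155)
    (cert 156 CL156) = true := by decide +kernel

theorem qL155 : ckS 72 155 505 (nuT 155) 9 (cert 155 CL155) (cert 156 CL156)
    (cert 157 CL157) = true := by decide +kernel

theorem qL156 : ckS 72 156 508 (nuT 156) 9 (cert 156 CL156) (cert 157 CL157)
    (cert 158 CL158) = true := by decide +kernel

theorem qL157 : ckS 72 157 511 (nuT 157) 9 (cert 157 CL157) (cert 158 CL158)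
    (cert 159 CL159) = true := by decide +kernel

theorem qL158 : ckS 72 158 514 (nuT 158) 10 (cert 158 CL158) (cert 159 CL159)
    (cert 160 CL160) = true := by decide +kernel

theorem qL159 : ckS 72 159 517 (nuT 159) 10 (cert 159 CL159) (cert 160 CL160)
    (cert 161 CL161) = true := by decide +kernel

end Pool.Agent.MP_9da1e3_co
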