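import Pool.Agent.Lib.MP_9da1e3_co.KcE160
import Pool.Agent.Lib.MP_9da1e3_co.KcE170

set_option maxRecDepth 100000

namespace Pool.Agent.MP_9da1e3_co

theorem qL160 : ckS 72 160 520 (nuT 160) 10 (cert 160 CL160) (cert 161 CL161)
    (cert 162 CL162) = true := by decide +kernel

theorem qL161 : ckS 72 161 523 (nuT 161) 10 (cert 161 CL161) (cert 162 CL162)
    (cert 163 CL163) = true := by decide +kernel

theorem qL162 : ckS 72 162 526 (nuT 162) 10 (cert 162 CL162) (cert 163 CL163)
    (cert 164 CL164) = true := by decide +kernel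

theorem qL163 : ckS 72 163 529 (nuT 163) 10 (cert 163 CL163) (cert 164 CL164)
    (cert 165 CL165) = true := by decide +kernel

theorem qL164 : ckS 72 164 532 (nuT 164) 10 (cert 164 CL164) (cert 165 CL165)
    (cert 166 CL166) = true := by decide +kernel

theorem qL165 : ckS 72 165 535 (nuT 165) 10 (cert 165 CL165) (cert 166 CL166)
    (cert 167 CL167) = true := by decide +kernel

theorem qL166 : ckS 72 166 538 (nuT 166) 10 (cert 166 CL166) (cert 167 CL167)
    (cert 168 CL168) = true := by decide +kernel

theorem qL167 : ckS 72 167 541 (nuT 167) 10 (cert 167 CL167) (cert 168 CL168)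
    (cert 169 CL169) = true := by decide +kernel

theorem qL168 : ckS 72 168 544 (nuT 168) 10 (cert 168 CL168) (cert 169 CL169)
    (cert 170 CL170) = true := by decide +kernel

theorem qL169 : ckS 72 169 547 (nuT 169) 10 (cert 169 CL169) (cert 170 CL170)
    (cert 171 CL171) = true := by decide +kernel

end Pool.Agent.MP_9da1e3_co
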