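import Pool.Agent.Lib.MP_9da1e3_co.KcE170
import Pool.Agent.Lib.MP_9da1e3_co.KcE180

set_option maxRecDepth 100000

namespace Pool.Agent.MP_9da1e3_co

theorem qL170 : ckS 72 170 550 (nuT 170) 10 (cert 170 CL170) (cert 171 CL171)
    (cert 172 CL172) = true := by decide +kernel

theorem qL171 : ckS 72 171 553 (nuT 171) 10 (cert 171 CL171) (cert 172 CL172)
    (cert 173 CL173) = true := by decide +kernel

theorem qL172 : ckS 72 172 556 (nuT 172) 10 (cert 172 CL172) (cert 173 CL173)
    (cert 174 CL174) = true := by decide +kernel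

theorem qL173 : ckS 72 173 559 (nuT 173) 10 (cert 173 CL173) (cert 174 CL174)
    (cert 175 CL175) = true := by decide +kernel

theorem qL174 : ckS 72 174 562 (nuT 174) 10 (cert 174 CL174) (cert 175 CL175)
    (cert 176 CL176) = true := by decide +kernel

theorem qL175 : ckS 72 175 565 (nuT 175) 10 (cert 175 CL175) (cert 176 CL176)
    (cert 177 CL177) = true := by decide +kernel

theorem qL176 : ckS 72 176 568 (nuT 176) 10 (cert 176 CL176) (cert 177 CL177)
    (cert 178 CL178) = true := by decide +kernel

theorem qL177 : ckS 72 177 571 (nuT 177) 10 (cert 177 CL177) (cert 178 CL178)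
    (cert 179 CL179) = true := by decide +kernel

theorem qL178 : ckS 72 178 574 (nuT 178) 10 (cert 178 CL178) (cert 179 CL179)
    (cert 180 CL180) = true := by decide +kernel

theorem qL179 : ckS 72 179 577 (nuT 179) 10 (cert 179 CL179) (cert 180 CL180)
    (cert 181 CL181) = true := by decide +kernel

end Pool.Agent.MP_9da1e3_co
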