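import Pool.Agent.Lib.MP_9da1e3_co.KcE180
import Pool.Agent.Lib.MP_9da1e3_co.KcE190

set_option maxRecDepth 100000

namespace Pool.Agent.MP_9da1e3_co

theorem qL180 : ckS 72 180 580 (nuT 180) 10 (cert 180 CL180) (cert 181 CL181)
    (cert 182 CL182) = true := by decide +kernel

theorem qL181 : ckS 72 181 583 (nuT 181) 10 (cert 181 CL181) (cert 182 CL182)
    (cert 183 CL183) = true := by decide +kernel

theorem qL182 : ckS 72 182 586 (nuT 182) 10 (cert 182 CL182) (cert 183 CL183)
    (cert 184 CL184) = true := by decide +kernel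

theorem qL183 : ckS 72 183 589 (nuT 183) 10 (cert 183 CL183) (cert 184 CL184)
    (cert 185 CL185) = true := by decide +kernel

theorem qL184 : ckS 72 184 592 (nuT 184) 10 (cert 184 CL184) (cert 185 CL185)
    (cert 186 CL186) = true := by decide +kernel

theorem qL185 : ckS 72 185 595 (nuT 185) 10 (cert 185 CL185) (cert 186 CL186)
    (cert 187 CL187) = true := by decide +kernel

theorem qL186 : ckS 72 186 598 (nuT 186) 10 (cert 186 CL186) (cert 187 CL187)
    (cert 188 CL188) = true := by decide +kernel

theorem qL187 : ckS 72 187 601 (nuT 187) 10 (cert 187 CL187) (cert 188 CL188)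
    (cert 189 CL189) = true := by decide +kernel

theorem qL188 : ckS 72 188 604 (nuT 188) 10 (cert 188 CL188) (cert 189 CL189)
    (cert 190 CL190) = true := by decide +kernel

theorem qL189 : ckS 72 189 607 (nuT 189) 10 (cert 189 CL189) (cert 190 CL190)
    (cert 191 CL191) = true := by decide +kernel

end Pool.Agent.MP_9da1e3_co
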