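import Pool.Agent.Lib.MP_9da1e3_co.KcE190
import Pool.Agent.Lib.MP_9da1e3_co.KcE200

set_option maxRecDepth 100000

namespace Pool.Agent.MP_9da1e3_co

theorem qL190 : ckS 72 190 610 (nuT 190) 10 (cert 190 CL190) (cert 191 CL191)
    (cert 192 CL192) = true := by decide +kernel

theorem qL191 : ckS 72 191 613 (nuT 191) 10 (cert 191 CL191) (cert 192 CL192)
    (cert 193 CL193) = true := by decide +kernel

theorem qL192 : ckS 72 192 616 (nuT 192) 10 (cert 192 CL192) (cert 193 CL193)
    (cert 194 CL194) = true := by decide +kernel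

theorem qL193 : ckS 72 193 619 (nuT 193) 10 (cert 193 CL193) (cert 194 CL194)
    (cert 195 CL195) = true := by decide +kernel

theorem qL194 : ckS 72 194 622 (nuT 194) 10 (cert 194 CL194) (cert 195 CL195)
    (cert 196 CL196) = true := by decide +kernel

theorem qL195 : ckS 72 195 625 (nuT 195) 10 (cert 195 CL195) (cert 196 CL196)
    (cert 197 CL197) = true := by decide +kernel

theorem qL196 : ckS 72 196 628 (nuT 196) 10 (cert 196 CL196) (cert 197 CL197)
    (cert 198 CL198) = true := by decide +kernel

theorem qL197 : ckS 72 197 631 (nuT 197) 10 (cert 197 CL197) (cert 198 CL198)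
    (cert 199 CL199) = true := by decide +kernel

theorem qL198 : ckS 72 198 634 (nuT 198) 10 (cert 198 CL198) (cert 199 CL199)
    (cert 200 CL200) = true := by decide +kernel

theorem qL199 : ckS 72 199 637 (nuT 199) 10 (cert 199 CL199) (cert 200 CL200)
    (cert 201 CL201) = true := by decide +kernel

end Pool.Agent.MP_9da1e3_co
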