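import Pool.Agent.Lib.MP_9da1e3_co.Kc4
import Pool.Agent.Lib.MP_9da1e3_co.KcS100
import Pool.Agent.Lib.MP_9da1e3_co.KcS110
import Pool.Agent.Lib.MP_9da1e3_co.KcS120
import Pool.Agent.Lib.MP_9da1e3_co.KcS130
import Pool.Agent.Lib.MP_9da1e3_co.KcS140
import Pool.Agent.Lib.MP_9da1e3_co.KcS150
import Pool.Agent.Lib.MP_9da1e3_co.KcS160
import Pool.Agent.Lib.MP_9da1e3_co.KcS170
import Pool.Agent.Lib.MP_9da1e3_co.KcS180
import Pool.Agent.Lib.MP_9da1e3_co.KcS190

namespace Pool.Agent.MP_9da1e3_co

theorem sL100 : SignP 100 (NNk 100) (nuT 100) :=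
  sgnL (by decide) eL100 eL101 eL102 qL100

theorem sL101 : SignP 101 (NNk 101) (nuT 101) :=
  sgnL (by decide) eL101 eL102 eL103 qL101

theorem sL102 : SignP 102 (NNk 102) (nuT 102) :=
  sgnL (by decide) eL102 eL103 eL104 qL102

theorem sL103 : SignP 103 (NNk 103) (nuT 103) :=
  sgnL (by decide) eL103 eL104 eL105 qL103

theorem sL104 : SignP 104 (NNk 104) (nuT 104) :=
  sgnL (by decide) eL104 eL105 eL106 qL104

theorem sL105 : SignP 105 (NNk 105) (nuT 105) :=
  sgnL (by decide) eL105 eL106 eL107 qL105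

theorem sL106 : SignP 106 (NNk 106) (nuT 106) :=
  sgnL (by decide) eL106 eL107 eL108 qL106

theorem sL107 : SignP 107 (NNk 107) (nuT 107) :=
  sgnL (by decide) eL107 eL108 eL109 qL107

theorem sL108 : SignP 108 (NNk 108) (nuT 108) :=
  sgnL (by decide) eL108 eL109 eL110 qL108

theorem sL109 : SignP 109 (NNk 109) (nuT 109) :=
  sgnL (by decide) eL109 eL110 eL111 qL109

theorem sL110 : SignP 110 (NNk 110) (nuT 110) :=
  sgnL (by decide) eL110 eL111 eL112 qL110

theorem sL111 : SignP 111 (NNk 111) (nuT 111) :=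
  sgnL (by decide) eL111 eL112 eL113 qL111

theorem sL112 : SignP 112 (NNk 112) (nuT 112) :=
  sgnL (by decide) eL112 eL113 eL114 qL112

theorem sL113 : SignP 113 (NNk 113) (nuT 113) :=
  sgnL (by decide) eL113 eL114 eL115 qL113

theorem sL114 : SignP 114 (NNk 114) (nuT 114) :=
  sgnL (by decide) eL114 eL115 eL116 qL114

theorem sL115 : SignP 115 (NNk 115) (nuT 115) :=
  sgnL (by decide) eL115 eL116 eL117 qL115

theorem sL116 : SignP 116 (NNk 116) (nuT 116) :=
  sgnL (by decide) eL116 eL117 eL118 qL116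

theorem sL117 : SignP 117 (NNk 117) (nuT 117) :=
  sgnL (by decide) eL117 eL118 eL119 qL117

theorem sL118 : SignP 118 (NNk 118) (nuT 118) :=
  sgnL (by decide) eL118 eL119 eL120 qL118

theorem sL119 : SignP 119 (NNk 119) (nuT 119) :=
  sgnL (by decide) eL119 eL120 eL121 qL119

theorem sL120 : SignP 120 (NNk 120) (nuT 120) :=
  sgnL (by decide) eL120 eL121 eL122 qL120

theorem sL121 : SignP 121 (NNk 121) (nuT 121) :=
  sgnL (by decide) eL121 eL122 eL123 qL121

theorem sL122 : SignP 122 (NNk 122) (nuT 122) :=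
  sgnL (by decide) eL122 eL123 eL124 qL122

theorem sL123 : SignP 123 (NNk 123) (nuT 123) :=
  sgnL (by decide) eL123 eL124 eL125 qL123

theorem sL124 : SignP 124 (NNk 124) (nuT 124) :=
  sgnL (by decide) eL124 eL125 eL126 qL124

theorem sL125 : SignP 125 (NNk 125) (nuT 125) :=
  sgnL (by decide) eL125 eL126 eL127 qL125

theorem sL126 : SignP 126 (NNk 126) (nuT 126) :=
  sgnL (by decide) eL126 eL127 eL128 qL126

theorem sL127 : SignP 127 (NNk 127) (nuT 127) :=
  sgnL (by decide) eL127 eL128 eL129 qL127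

theorem sL128 : SignP 128 (NNk 128) (nuT 128) :=
  sgnL (by decide) eL128 eL129 eL130 qL128

theorem sL129 : SignP 129 (NNk 129) (nuT 129) :=
  sgnL (by decide) eL129 eL130 eL131 qL129

theorem sL130 : SignP 130 (NNk 130) (nuT 130) :=
  sgnL (by decide) eL130 eL131 eL132 qL130

theorem sL131 : SignP 131 (NNk 131) (nuT 131) :=
  sgnL (by decide) eL131 eL132 eL133 qL131

theorem sL132 : SignP 132 (NNk 132) (nuT 132) :=
  sgnL (by decide) eL132 eL133 eL134 qL132

theorem sL133 : SignP 133 (NNk 133) (nuT 133) :=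
  sgnL (by decide) eL133 eL134 eL135 qL133

theorem sL134 : SignP 134 (NNk 134) (nuT 134) :=
  sgnL (by decide) eL134 eL135 eL136 qL134

theorem sL135 : SignP 135 (NNk 135) (nuT 135) :=
  sgnL (by decide) eL135 eL136 eL137 qL135

theorem sL136 : SignP 136 (NNk 136) (nuT 136) :=
  sgnL (by decide) eL136 eL137 eL138 qL136

theorem sL137 : SignP 137 (NNk 137) (nuT 137) :=
  sgnL (by decide) eL137 eL138 eL139 qL137

theorem sL138 : SignP 138 (NNk 138) (nuT 138) :=
  sgnL (by decide) eL138 eL139 eL140 qL138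

theorem sL139 : SignP 139 (NNk 139) (nuT 139) :=
  sgnL (by decide) eL139 eL140 eL141 qL139

theorem sL140 : SignP 140 (NNk 140) (nuT 140) :=
  sgnL (by decide) eL140 eL141 eL142 qL140

theorem sL141 : SignP 141 (NNk 141) (nuT 141) :=
  sgnL (by decide) eL141 eL142 eL143 qL141

theorem sL142 : SignP 142 (NNk 142) (nuT 142) :=
  sgnL (by decide) eL142 eL143 eL144 qL142

theorem sL143 : SignP 143 (NNk 143) (nuT 143) :=
  sgnL (by decide) eL143 eL144 eL145 qL143

theorem sL144 : SignP 144 (NNk 144) (nuT 144) :=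
  sgnL (by decide) eL144 eL145 eL146 qL144

theorem sL145 : SignP 145 (NNk 145) (nuT 145) :=
  sgnL (by decide) eL145 eL146 eL147 qL145

theorem sL146 : SignP 146 (NNk 146) (nuT 146) :=
  sgnL (by decide) eL146 eL147 eL148 qL146

theorem sL147 : SignP 147 (NNk 147) (nuT 147) :=
  sgnL (by decide) eL147 eL148 eL149 qL147

theorem sL148 : SignP 148 (NNk 148) (nuT 148) :=
  sgnL (by decide) eL148 eL149 eL150 qL148

theorem sL149 : SignP 149 (NNk 149) (nuT 149) :=
  sgnL (by decide) eL149 eL150 eL151 qL149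

theorem sL150 : SignP 150 (NNk 150) (nuT 150) :=
  sgnL (by decide) eL150 eL151 eL152 qL150

theorem sL151 : SignP 151 (NNk 151) (nuT 151) :=
  sgnL (by decide) eL151 eL152 eL153 qL151

theorem sL152 : SignP 152 (NNk 152) (nuT 152) :=
  sgnL (by decide) eL152 eL153 eL154 qL152

theorem sL153 : SignP 153 (NNk 153) (nuT 153) :=
  sgnL (by decide) eL153 eL154 eL155 qL153

theorem sL154 : SignP 154 (NNk 154) (nuT 154) :=
  sgnL (by decide) eL154 eL155 eL156 qL154

theorem sL155 : SignP 155 (NNk 155) (nuT 155) :=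
  sgnL (by decide) eL155 eL156 eL157 qL155

theorem sL156 : SignP 156 (NNk 156) (nuT 156) :=
  sgnL (by decide) eL156 eL157 eL158 qL156

theorem sL157 : SignP 157 (NNk 157) (nuT 157) :=
  sgnL (by decide) eL157 eL158 eL159 qL157

theorem sL158 : SignP 158 (NNk 158) (nuT 158) :=
  sgnL (by decide) eL158 eL159 eL160 qL158

theorem sL159 : SignP 159 (NNk 159) (nuT 159) :=
  sgnL (by decide) eL159 eL160 eL161 qL159

theorem sL160 : SignP 160 (NNk 160) (nuT 160) :=
  sgnL (by decide) eL160 eL161 eL162 qL160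

theorem sL161 : SignP 161 (NNk 161) (nuT 161) :=
  sgnL (by decide) eL161 eL162 eL163 qL161

theorem sL162 : SignP 162 (NNk 162) (nuT 162) :=
  sgnL (by decide) eL162 eL163 eL164 qL162

theorem sL163 : SignP 163 (NNk 163) (nuT 163) :=
  sgnL (by decide) eL163 eL164 eL165 qL163

theorem sL164 : SignP 164 (NNk 164) (nuT 164) :=
  sgnL (by decide) eL164 eL165 eL166 qL164

theorem sL165 : SignP 165 (NNk 165) (nuT 165) :=
  sgnL (by decide) eL165 eL166 eL167 qL165

theorem sL166 : SignP 166 (NNk 166) (nuT 166) :=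
  sgnL (by decide) eL166 eL167 eL168 qL166

theorem sL167 : SignP 167 (NNk 167) (nuT 167) :=
  sgnL (by decide) eL167 eL168 eL169 qL167

theorem sL168 : SignP 168 (NNk 168) (nuT 168) :=
  sgnL (by decide) eL168 eL169 eL170 qL168

theorem sL169 : SignP 169 (NNk 169) (nuT 169) :=
  sgnL (by decide) eL169 eL170 eL171 qL169

theorem sL170 : SignP 170 (NNk 170) (nuT 170) :=
  sgnL (by decide) eL170 eL171 eL172 qL170

theorem sL171 : SignP 171 (NNk 171) (nuT 171) :=
  sgnL (by decide) eL171 eL172 eL173 qL171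

theorem sL172 : SignP 172 (NNk 172) (nuT 172) :=
  sgnL (by decide) eL172 eL173 eL174 qL172

theorem sL173 : SignP 173 (NNk 173) (nuT 173) :=
  sgnL (by decide) eL173 eL174 eL175 qL173

theorem sL174 : SignP 174 (NNk 174) (nuT 174) :=
  sgnL (by decide) eL174 eL175 eL176 qL174

theorem sL175 : SignP 175 (NNk 175) (nuT 175) :=
  sgnL (by decide) eL175 eL176 eL177 qL175

theorem sL176 : SignP 176 (NNk 176) (nuT 176) :=
  sgnL (by decide) eL176 eL177 eL178 qL176

theorem sL177 : SignP 177 (NNk 177) (nuT 177) :=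
  sgnL (by decide) eL177 eL178 eL179 qL177

theorem sL178 : SignP 178 (NNk 178) (nuT 178) :=
  sgnL (by decide) eL178 eL179 eL180 qL178

theorem sL179 : SignP 179 (NNk 179) (nuT 179) :=
  sgnL (by decide) eL179 eL180 eL181 qL179

theorem sL180 : SignP 180 (NNk 180) (nuT 180) :=
  sgnL (by decide) eL180 eL181 eL182 qL180

theorem sL181 : SignP 181 (NNk 181) (nuT 181) :=
  sgnL (by decide) eL181 eL182 eL183 qL181

theorem sL182 : SignP 182 (NNk 182) (nuT 182) :=
  sgnL (by decide) eL182 eL183 eL184 qL182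

theorem sL183 : SignP 183 (NNk 183) (nuT 183) :=
  sgnL (by decide) eL183 eL184 eL185 qL183

theorem sL184 : SignP 184 (NNk 184) (nuT 184) :=
  sgnL (by decide) eL184 eL185 eL186 qL184

theorem sL185 : SignP 185 (NNk 185) (nuT 185) :=
  sgnL (by decide) eL185 eL186 eL187 qL185

theorem sL186 : SignP 186 (NNk 186) (nuT 186) :=
  sgnL (by decide) eL186 eL187 eL188 qL186

theorem sL187 : SignP 187 (NNk 187) (nuT 187) :=
  sgnL (by decide) eL187 eL188 eL189 qL187

theorem sL188 : SignP 188 (NNk 188) (nuT 188) :=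
  sgnL (by decide) eL188 eL189 eL190 qL188

theorem sL189 : SignP 189 (NNk 189) (nuT 189) :=
  sgnL (by decide) eL189 eL190 eL191 qL189

theorem sL190 : SignP 190 (NNk 190) (nuT 190) :=
  sgnL (by decide) eL190 eL191 eL192 qL190

theorem sL191 : SignP 191 (NNk 191) (nuT 191) :=
  sgnL (by decide) eL191 eL192 eL193 qL191

theorem sL192 : SignP 192 (NNk 192) (nuT 192) :=
  sgnL (by decide) eL192 eL193 eL194 qL192

theorem sL193 : SignP 193 (NNk 193) (nuT 193) :=
  sgnL (by decide) eL193 eL194 eL195 qL193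

theorem sL194 : SignP 194 (NNk 194) (nuT 194) :=
  sgnL (by decide) eL194 eL195 eL196 qL194

theorem sL195 : SignP 195 (NNk 195) (nuT 195) :=
  sgnL (by decide) eL195 eL196 eL197 qL195

theorem sL196 : SignP 196 (NNk 196) (nuT 196) :=
  sgnL (by decide) eL196 eL197 eL198 qL196

theorem sL197 : SignP 197 (NNk 197) (nuT 197) :=
  sgnL (by decide) eL197 eL198 eL199 qL197

theorem sL198 : SignP 198 (NNk 198) (nuT 198) :=
  sgnL (by decide) eL198 eL199 eL200 qL198

theorem sL199 : SignP 199 (NNk 199) (nuT 199) :=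
  sgnL (by decide) eL199 eL200 eL201 qL199

theorem sB100 : ∀ L, 100 ≤ L → L < 110 → SignP L (NNk L) (nuT L) := by
  intro L h1 h2
  interval_cases L
  · exact sL100
  · exact sL101
  · exact sL102
  · exact sL103
  · exact sL104
  · exact sL105
  · exact sL106
  · exact sL107
  · exact sL108
  · exact sL109

theorem sB110 : ∀ L, 110 ≤ L → L < 120 → SignP L (NNk L) (nuT L) := by
  intro L h1 h2
  interval_cases L
  · exact sL110
  · exact sL111
  · exact sL112
  · exact sL113
  · exact sL114
  · exact sL115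
  · exact sL116
  · exact sL117
  · exact sL118
  · exact sL119

theorem sB120 : ∀ L, 120 ≤ L → L < 130 → SignP L (NNk L) (nuT L) := by
  intro L h1 h2
  interval_cases L
  · exact sL120
  · exact sL121
  · exact sL122
  · exact sL123
  · exact sL124
  · exact sL125
  · exact sL126
  · exact sL127
  · exact sL128
  · exact sL129

theorem sB130 : ∀ L, 130 ≤ L → L < 140 → SignP L (NNk L) (nuT L) := by
  intro L h1 h2
  interval_cases L
  · exact sL130
  · exact sL131
  · exact sL132
  · exact sL133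
  · exact sL134
  · exact sL135
  · exact sL136
  · exact sL137
  · exact sL138
  · exact sL139

theorem sB140 : ∀ L, 140 ≤ L → L < 150 → SignP L (NNk L) (nuT L) := by
  intro L h1 h2
  interval_cases L
  · exact sL140
  · exact sL141
  · exact sL142
  · exact sL143
  · exact sL144
  · exact sL145
  · exact sL146
  · exact sL147
  · exact sL148
  · exact sL149

theorem sB150 : ∀ L, 150 ≤ L → L < 160 → SignP L (NNk L) (nuT L) := by
  intro L h1 h2
  interval_cases L
  · exact sL150
  · exact sL151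
  · exact sL152
  · exact sL153
  · exact sL154
  · exact sL155
  · exact sL156
  · exact sL157
  · exact sL158
  · exact sL159

theorem sB160 : ∀ L, 160 ≤ L → L < 170 → SignP L (NNk L) (nuT L) := by
  intro L h1 h2
  interval_cases L
  · exact sL160
  · exact sL161
  · exact sL162
  · exact sL163
  · exact sL164
  · exact sL165
  · exact sL166
  · exact sL167
  · exact sL168
  · exact sL169

theorem sB170 : ∀ L, 170 ≤ L → L < 180 → SignP L (NNk L) (nuT L) := by
  intro L h1 h2
  interval_cases L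
  · exact sL170
  · exact sL171
  · exact sL172
  · exact sL173
  · exact sL174
  · exact sL175
  · exact sL176
  · exact sL177
  · exact sL178
  · exact sL179

theorem sB180 : ∀ L, 180 ≤ L → L < 190 → SignP L (NNk L) (nuT L) := by
  intro L h1 h2
  interval_cases L
  · exact sL180
  · exact sL181
  · exact sL182
  · exact sL183
  · exact sL184
  · exact sL185
  · exact sL186
  · exact sL187
  · exact sL188
  · exact sL189

theorem sB190 : ∀ L, 190 ≤ L → L < 200 → SignP L (NNk L) (nuT L) := by
  intro L h1 h2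
  interval_cases L
  · exact sL190
  · exact sL191
  · exact sL192
  · exact sL193
  · exact sL194
  · exact sL195
  · exact sL196
  · exact sL197
  · exact sL198
  · exact sL199

theorem sG100 : ∀ L, 100 ≤ L → L < 200 → SignP L (NNk L) (nuT L) := by
  intro L h1 h2
  by_cases h100 : L < 110
  · exact sB100 L (by omega) h100
  by_cases h110 : L < 120
  · exact sB110 L (by omega) h110
  by_cases h120 : L < 130
  · exact sB120 L (by omega) h120
  by_cases h130 : L < 140
  · exact sB130 L (by omega) h130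
  by_cases h140 : L < 150
  · exact sB140 L (by omega) h140
  by_cases h150 : L < 160
  · exact sB150 L (by omega) h150
  by_cases h160 : L < 170
  · exact sB160 L (by omega) h160
  by_cases h170 : L < 180
  · exact sB170 L (by omega) h170
  by_cases h180 : L < 190
  · exact sB180 L (by omega) h180
  by_cases h190 : L < 200
  · exact sB190 L (by omega) h190
  omega

end Pool.Agent.MP_9da1e3_co
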