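import Pool.Agent.Lib.MP_9da1e3_co.KcE200
import Pool.Agent.Lib.MP_9da1e3_co.KcE210

set_option maxRecDepth 100000

namespace Pool.Agent.MP_9da1e3_co

theorem qL200 : ckS 72 200 640 (nuT 200) 10 (cert 200 CL200) (cert 201 CL201)
    (cert 202 CL202) = true := by decide +kernel

theorem qL201 : ckS 72 201 643 (nuT 201) 10 (cert 201 CL201) (cert 202 CL202)
    (cert 203 CL203) = true := by decide +kernel

theorem qL202 : ckS 72 202 646 (nuT 202) 10 (cert 202 CL202) (cert 203 CL203)
    (cert 204 CL204) = true := by decide +kernel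

theorem qL203 : ckS 72 203 649 (nuT 203) 10 (cert 203 CL203) (cert 204 CL204)
    (cert 205 CL205) = true := by decide +kernel

theorem qL204 : ckS 72 204 652 (nuT 204) 10 (cert 204 CL204) (cert 205 CL205)
    (cert 206 CL206) = true := by decide +kernel

theorem qL205 : ckS 72 205 655 (nuT 205) 10 (cert 205 CL205) (cert 206 CL206)
    (cert 207 CL207) = true := by decide +kernel

theorem qL206 : ckS 72 206 658 (nuT 206) 10 (cert 206 CL206) (cert 207 CL207)
    (cert 208 CL208) = true := by decide +kernel

theorem qL207 : ckS 72 207 661 (nuT 207) 10 (cert 207 CL207) (cert 208 CL208)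
    (cert 209 CL209) = true := by decide +kernel

theorem qL208 : ckS 72 208 664 (nuT 208) 10 (cert 208 CL208) (cert 209 CL209)
    (cert 210 CL210) = true := by decide +kernel

theorem qL209 : ckS 72 209 667 (nuT 209) 10 (cert 209 CL209) (cert 210 CL210)
    (cert 211 CL211) = true := by decide +kernel

end Pool.Agent.MP_9da1e3_co
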