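import Pool.Agent.Lib.MP_9da1e3_co.KcE210
import Pool.Agent.Lib.MP_9da1e3_co.KcE220

set_option maxRecDepth 100000

namespace Pool.Agent.MP_9da1e3_co

theorem qL210 : ckS 72 210 670 (nuT 210) 10 (cert 210 CL210) (cert 211 CL211)
    (cert 212 CL212) = true := by decide +kernel

theorem qL211 : ckS 72 211 673 (nuT 211) 10 (cert 211 CL211) (cert 212 CL212)
    (cert 213 CL213) = true := by decide +kernel

theorem qL212 : ckS 72 212 676 (nuT 212) 10 (cert 212 CL212) (cert 213 CL213)
    (cert 214 CL214) = true := by decide +kernel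

theorem qL213 : ckS 72 213 679 (nuT 213) 10 (cert 213 CL213) (cert 214 CL214)
    (cert 215 CL215) = true := by decide +kernel

theorem qL214 : ckS 72 214 682 (nuT 214) 10 (cert 214 CL214) (cert 215 CL215)
    (cert 216 CL216) = true := by decide +kernel

theorem qL215 : ckS 72 215 685 (nuT 215) 10 (cert 215 CL215) (cert 216 CL216)
    (cert 217 CL217) = true := by decide +kernel

theorem qL216 : ckS 72 216 688 (nuT 216) 10 (cert 216 CL216) (cert 217 CL217)
    (cert 218 CL218) = true := by decide +kernel

theorem qL217 : ckS 72 217 691 (nuT 217) 10 (cert 217 CL217) (cert 218 CL218)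
    (cert 219 CL219) = true := by decide +kernel

theorem qL218 : ckS 72 218 694 (nuT 218) 10 (cert 218 CL218) (cert 219 CL219)
    (cert 220 CL220) = true := by decide +kernel

theorem qL219 : ckS 72 219 697 (nuT 219) 10 (cert 219 CL219) (cert 220 CL220)
    (cert 221 CL221) = true := by decide +kernel

end Pool.Agent.MP_9da1e3_co
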