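import Pool.Agent.Lib.MP_9da1e3_co.KcE220
import Pool.Agent.Lib.MP_9da1e3_co.KcE230

set_option maxRecDepth 100000

namespace Pool.Agent.MP_9da1e3_co

theorem qL220 : ckS 72 220 700 (nuT 220) 10 (cert 220 CL220) (cert 221 CL221)
    (cert 222 CL222) = true := by decide +kernel

theorem qL221 : ckS 72 221 703 (nuT 221) 10 (cert 221 CL221) (cert 222 CL222)
    (cert 223 CL223) = true := by decide +kernel

theorem qL222 : ckS 72 222 706 (nuT 222) 10 (cert 222 CL222) (cert 223 CL223)
    (cert 224 CL224) = true := by decide +kernel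

theorem qL223 : ckS 72 223 709 (nuT 223) 10 (cert 223 CL223) (cert 224 CL224)
    (cert 225 CL225) = true := by decide +kernel

theorem qL224 : ckS 72 224 712 (nuT 224) 10 (cert 224 CL224) (cert 225 CL225)
    (cert 226 CL226) = true := by decide +kernel

theorem qL225 : ckS 72 225 715 (nuT 225) 10 (cert 225 CL225) (cert 226 CL226)
    (cert 227 CL227) = true := by decide +kernel

theorem qL226 : ckS 72 226 718 (nuT 226) 10 (cert 226 CL226) (cert 227 CL227)
    (cert 228 CL228) = true := by decide +kernel

theorem qL227 : ckS 72 227 721 (nuT 227) 10 (cert 227 CL227) (cert 228 CL228)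
    (cert 229 CL229) = true := by decide +kernel

theorem qL228 : ckS 72 228 724 (nuT 228) 10 (cert 228 CL228) (cert 229 CL229)
    (cert 230 CL230) = true := by decide +kernel

theorem qL229 : ckS 72 229 727 (nuT 229) 10 (cert 229 CL229) (cert 230 CL230)
    (cert 231 CL231) = true := by decide +kernel

end Pool.Agent.MP_9da1e3_co
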