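import Pool.Agent.Lib.MP_9da1e3_co.KcE230
import Pool.Agent.Lib.MP_9da1e3_co.KcE240

set_option maxRecDepth 100000

namespace Pool.Agent.MP_9da1e3_co

theorem qL230 : ckS 72 230 730 (nuT 230) 10 (cert 230 CL230) (cert 231 CL231)
    (cert 232 CL232) = true := by decide +kernel

theorem qL231 : ckS 72 231 733 (nuT 231) 10 (cert 231 CL231) (cert 232 CL232)
    (cert 233 CL233) = true := by decide +kernel

theorem qL232 : ckS 72 232 736 (nuT 232) 10 (cert 232 CL232) (cert 233 CL233)
    (cert 234 CL234) = true := by decide +kernel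

theorem qL233 : ckS 72 233 739 (nuT 233) 10 (cert 233 CL233) (cert 234 CL234)
    (cert 235 CL235) = true := by decide +kernel

theorem qL234 : ckS 72 234 742 (nuT 234) 10 (cert 234 CL234) (cert 235 CL235)
    (cert 236 CL236) = true := by decide +kernel

theorem qL235 : ckS 72 235 745 (nuT 235) 10 (cert 235 CL235) (cert 236 CL236)
    (cert 237 CL237) = true := by decide +kernel

theorem qL236 : ckS 72 236 748 (nuT 236) 10 (cert 236 CL236) (cert 237 CL237)
    (cert 238 CL238) = true := by decide +kernel

theorem qL237 : ckS 72 237 751 (nuT 237) 10 (cert 237 CL237) (cert 238 CL238)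
    (cert 239 CL239) = true := by decide +kernel

theorem qL238 : ckS 72 238 754 (nuT 238) 10 (cert 238 CL238) (cert 239 CL239)
    (cert 240 CL240) = true := by decide +kernel

theorem qL239 : ckS 72 239 757 (nuT 239) 10 (cert 239 CL239) (cert 240 CL240)
    (cert 241 CL241) = true := by decide +kernel

end Pool.Agent.MP_9da1e3_co
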