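import Pool.Agent.Lib.MP_9da1e3_co.KcE240
import Pool.Agent.Lib.MP_9da1e3_co.KcE250

set_option maxRecDepth 100000

namespace Pool.Agent.MP_9da1e3_co

theorem qL240 : ckS 72 240 760 (nuT 240) 10 (cert 240 CL240) (cert 241 CL241)
    (cert 242 CL242) = true := by decide +kernel

theorem qL241 : ckS 72 241 763 (nuT 241) 10 (cert 241 CL241) (cert 242 CL242)
    (cert 243 CL243) = true := by decide +kernel

theorem qL242 : ckS 72 242 766 (nuT 242) 10 (cert 242 CL242) (cert 243 CL243)
    (cert 244 CL244) = true := by decide +kernel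

theorem qL243 : ckS 72 243 769 (nuT 243) 10 (cert 243 CL243) (cert 244 CL244)
    (cert 245 CL245) = true := by decide +kernel

theorem qL244 : ckS 72 244 772 (nuT 244) 10 (cert 244 CL244) (cert 245 CL245)
    (cert 246 CL246) = true := by decide +kernel

theorem qL245 : ckS 72 245 775 (nuT 245) 10 (cert 245 CL245) (cert 246 CL246)
    (cert 247 CL247) = true := by decide +kernel

theorem qL246 : ckS 72 246 778 (nuT 246) 10 (cert 246 CL246) (cert 247 CL247)
    (cert 248 CL248) = true := by decide +kernel

theorem qL247 : ckS 72 247 781 (nuT 247) 10 (cert 247 CL247) (cert 248 CL248)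
    (cert 249 CL249) = true := by decide +kernel

theorem qL248 : ckS 72 248 784 (nuT 248) 10 (cert 248 CL248) (cert 249 CL249)
    (cert 250 CL250) = true := by decide +kernel

theorem qL249 : ckS 72 249 787 (nuT 249) 10 (cert 249 CL249) (cert 250 CL250)
    (cert 251 CL251) = true := by decide +kernel

end Pool.Agent.MP_9da1e3_co
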