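import Pool.Agent.Lib.MP_9da1e3_co.KcE250
import Pool.Agent.Lib.MP_9da1e3_co.KcE260

set_option maxRecDepth 100000

namespace Pool.Agent.MP_9da1e3_co

theorem qL250 : ckS 72 250 790 (nuT 250) 10 (cert 250 CL250) (cert 251 CL251)
    (cert 252 CL252) = true := by decide +kernel

theorem qL251 : ckS 72 251 793 (nuT 251) 10 (cert 251 CL251) (cert 252 CL252)
    (cert 253 CL253) = true := by decide +kernel

theorem qL252 : ckS 72 252 796 (nuT 252) 10 (cert 252 CL252) (cert 253 CL253)
    (cert 254 CL254) = true := by decide +kernel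

theorem qL253 : ckS 72 253 799 (nuT 253) 10 (cert 253 CL253) (cert 254 CL254)
    (cert 255 CL255) = true := by decide +kernel

theorem qL254 : ckS 72 254 802 (nuT 254) 10 (cert 254 CL254) (cert 255 CL255)
    (cert 256 CL256) = true := by decide +kernel

theorem qL255 : ckS 72 255 805 (nuT 255) 10 (cert 255 CL255) (cert 256 CL256)
    (cert 257 CL257) = true := by decide +kernel

theorem qL256 : ckS 72 256 808 (nuT 256) 10 (cert 256 CL256) (cert 257 CL257)
    (cert 258 CL258) = true := by decide +kernel

theorem qL257 : ckS 72 257 811 (nuT 257) 10 (cert 257 CL257) (cert 258 CL258)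
    (cert 259 CL259) = true := by decide +kernel

theorem qL258 : ckS 72 258 814 (nuT 258) 10 (cert 258 CL258) (cert 259 CL259)
    (cert 260 CL260) = true := by decide +kernel

theorem qL259 : ckS 72 259 817 (nuT 259) 10 (cert 259 CL259) (cert 260 CL260)
    (cert 261 CL261) = true := by decide +kernel

end Pool.Agent.MP_9da1e3_co
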