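import Pool.Agent.Lib.MP_9da1e3_co.KcE260
import Pool.Agent.Lib.MP_9da1e3_co.KcE270

set_option maxRecDepth 100000

namespace Pool.Agent.MP_9da1e3_co

theorem qL260 : ckS 72 260 820 (nuT 260) 10 (cert 260 CL260) (cert 261 CL261)
    (cert 262 CL262) = true := by decide +kernel

theorem qL261 : ckS 72 261 823 (nuT 261) 10 (cert 261 CL261) (cert 262 CL262)
    (cert 263 CL263) = true := by decide +kernel

theorem qL262 : ckS 72 262 826 (nuT 262) 10 (cert 262 CL262) (cert 263 CL263)
    (cert 264 CL264) = true := by decide +kernel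

theorem qL263 : ckS 72 263 829 (nuT 263) 10 (cert 263 CL263) (cert 264 CL264)
    (cert 265 CL265) = true := by decide +kernel

theorem qL264 : ckS 72 264 832 (nuT 264) 10 (cert 264 CL264) (cert 265 CL265)
    (cert 266 CL266) = true := by decide +kernel

theorem qL265 : ckS 72 265 835 (nuT 265) 10 (cert 265 CL265) (cert 266 CL266)
    (cert 267 CL267) = true := by decide +kernel

theorem qL266 : ckS 72 266 838 (nuT 266) 10 (cert 266 CL266) (cert 267 CL267)
    (cert 268 CL268) = true := by decide +kernel

theorem qL267 : ckS 72 267 841 (nuT 267) 10 (cert 267 CL267) (cert 268 CL268)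
    (cert 269 CL269) = true := by decide +kernel

theorem qL268 : ckS 72 268 844 (nuT 268) 10 (cert 268 CL268) (cert 269 CL269)
    (cert 270 CL270) = true := by decide +kernel

theorem qL269 : ckS 72 269 847 (nuT 269) 10 (cert 269 CL269) (cert 270 CL270)
    (cert 271 CL271) = true := by decide +kernel

end Pool.Agent.MP_9da1e3_co
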