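import Pool.Agent.Lib.MP_9da1e3_co.KcE270
import Pool.Agent.Lib.MP_9da1e3_co.KcE280

set_option maxRecDepth 100000

namespace Pool.Agent.MP_9da1e3_co

theorem qL270 : ckS 72 270 850 (nuT 270) 10 (cert 270 CL270) (cert 271 CL271)
    (cert 272 CL272) = true := by decide +kernel

theorem qL271 : ckS 72 271 853 (nuT 271) 10 (cert 271 CL271) (cert 272 CL272)
    (cert 273 CL273) = true := by decide +kernel

theorem qL272 : ckS 72 272 856 (nuT 272) 10 (cert 272 CL272) (cert 273 CL273)
    (cert 274 CL274) = true := by decide +kernel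

theorem qL273 : ckS 72 273 859 (nuT 273) 10 (cert 273 CL273) (cert 274 CL274)
    (cert 275 CL275) = true := by decide +kernel

theorem qL274 : ckS 72 274 862 (nuT 274) 10 (cert 274 CL274) (cert 275 CL275)
    (cert 276 CL276) = true := by decide +kernel

theorem qL275 : ckS 72 275 865 (nuT 275) 10 (cert 275 CL275) (cert 276 CL276)
    (cert 277 CL277) = true := by decide +kernel

theorem qL276 : ckS 72 276 868 (nuT 276) 10 (cert 276 CL276) (cert 277 CL277)
    (cert 278 CL278) = true := by decide +kernel

theorem qL277 : ckS 72 277 871 (nuT 277) 10 (cert 277 CL277) (cert 278 CL278)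
    (cert 279 CL279) = true := by decide +kernel

theorem qL278 : ckS 72 278 874 (nuT 278) 10 (cert 278 CL278) (cert 279 CL279)
    (cert 280 CL280) = true := by decide +kernel

theorem qL279 : ckS 72 279 877 (nuT 279) 10 (cert 279 CL279) (cert 280 CL280)
    (cert 281 CL281) = true := by decide +kernel

end Pool.Agent.MP_9da1e3_co
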