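import Pool.Agent.Lib.MP_9da1e3_co.KcE280
import Pool.Agent.Lib.MP_9da1e3_co.KcE290

set_option maxRecDepth 100000

namespace Pool.Agent.MP_9da1e3_co

theorem qL280 : ckS 72 280 880 (nuT 280) 10 (cert 280 CL280) (cert 281 CL281)
    (cert 282 CL282) = true := by decide +kernel

theorem qL281 : ckS 72 281 883 (nuT 281) 10 (cert 281 CL281) (cert 282 CL282)
    (cert 283 CL283) = true := by decide +kernel

theorem qL282 : ckS 72 282 886 (nuT 282) 10 (cert 282 CL282) (cert 283 CL283)
    (cert 284 CL284) = true := by decide +kernel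

theorem qL283 : ckS 72 283 889 (nuT 283) 10 (cert 283 CL283) (cert 284 CL284)
    (cert 285 CL285) = true := by decide +kernel

theorem qL284 : ckS 72 284 892 (nuT 284) 10 (cert 284 CL284) (cert 285 CL285)
    (cert 286 CL286) = true := by decide +kernel

theorem qL285 : ckS 72 285 895 (nuT 285) 10 (cert 285 CL285) (cert 286 CL286)
    (cert 287 CL287) = true := by decide +kernel

theorem qL286 : ckS 72 286 898 (nuT 286) 10 (cert 286 CL286) (cert 287 CL287)
    (cert 288 CL288) = true := by decide +kernel

theorem qL287 : ckS 72 287 901 (nuT 287) 10 (cert 287 CL287) (cert 288 CL288)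
    (cert 289 CL289) = true := by decide +kernel

theorem qL288 : ckS 72 288 904 (nuT 288) 10 (cert 288 CL288) (cert 289 CL289)
    (cert 290 CL290) = true := by decide +kernel

theorem qL289 : ckS 72 289 907 (nuT 289) 10 (cert 289 CL289) (cert 290 CL290)
    (cert 291 CL291) = true := by decide +kernel

end Pool.Agent.MP_9da1e3_co
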