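import Pool.Agent.Lib.MP_9da1e3_co.KcE290
import Pool.Agent.Lib.MP_9da1e3_co.KcE300

set_option maxRecDepth 100000

namespace Pool.Agent.MP_9da1e3_co

theorem qL290 : ckS 72 290 910 (nuT 290) 10 (cert 290 CL290) (cert 291 CL291)
    (cert 292 CL292) = true := by decide +kernel

theorem qL291 : ckS 72 291 913 (nuT 291) 10 (cert 291 CL291) (cert 292 CL292)
    (cert 293 CL293) = true := by decide +kernel

theorem qL292 : ckS 72 292 916 (nuT 292) 10 (cert 292 CL292) (cert 293 CL293)
    (cert 294 CL294) = true := by decide +kernel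

theorem qL293 : ckS 72 293 919 (nuT 293) 10 (cert 293 CL293) (cert 294 CL294)
    (cert 295 CL295) = true := by decide +kernel

theorem qL294 : ckS 72 294 922 (nuT 294) 10 (cert 294 CL294) (cert 295 CL295)
    (cert 296 CL296) = true := by decide +kernel

theorem qL295 : ckS 72 295 925 (nuT 295) 10 (cert 295 CL295) (cert 296 CL296)
    (cert 297 CL297) = true := by decide +kernel

theorem qL296 : ckS 72 296 928 (nuT 296) 10 (cert 296 CL296) (cert 297 CL297)
    (cert 298 CL298) = true := by decide +kernel

theorem qL297 : ckS 72 297 931 (nuT 297) 10 (cert 297 CL297) (cert 298 CL298)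
    (cert 299 CL299) = true := by decide +kernel

theorem qL298 : ckS 72 298 934 (nuT 298) 10 (cert 298 CL298) (cert 299 CL299)
    (cert 300 CL300) = true := by decide +kernel

theorem qL299 : ckS 72 299 937 (nuT 299) 10 (cert 299 CL299) (cert 300 CL300)
    (cert 301 CL301) = true := by decide +kernel

end Pool.Agent.MP_9da1e3_co
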