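import Pool.Agent.Lib.MP_9da1e3_co.Kc4
import Pool.Agent.Lib.MP_9da1e3_co.KcS200
import Pool.Agent.Lib.MP_9da1e3_co.KcS210
import Pool.Agent.Lib.MP_9da1e3_co.KcS220
import Pool.Agent.Lib.MP_9da1e3_co.KcS230
import Pool.Agent.Lib.MP_9da1e3_co.KcS240
import Pool.Agent.Lib.MP_9da1e3_co.KcS250
import Pool.Agent.Lib.MP_9da1e3_co.KcS260
import Pool.Agent.Lib.MP_9da1e3_co.KcS270
import Pool.Agent.Lib.MP_9da1e3_co.KcS280
import Pool.Agent.Lib.MP_9da1e3_co.KcS290

namespace Pool.Agent.MP_9da1e3_co

theorem sL200 : SignP 200 (NNk 200) (nuT 200) :=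
  sgnL (by decide) eL200 eL201 eL202 qL200

theorem sL201 : SignP 201 (NNk 201) (nuT 201) :=
  sgnL (by decide) eL201 eL202 eL203 qL201

theorem sL202 : SignP 202 (NNk 202) (nuT 202) :=
  sgnL (by decide) eL202 eL203 eL204 qL202

theorem sL203 : SignP 203 (NNk 203) (nuT 203) :=
  sgnL (by decide) eL203 eL204 eL205 qL203

theorem sL204 : SignP 204 (NNk 204) (nuT 204) :=
  sgnL (by decide) eL204 eL205 eL206 qL204

theorem sL205 : SignP 205 (NNk 205) (nuT 205) :=
  sgnL (by decide) eL205 eL206 eL207 qL205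

theorem sL206 : SignP 206 (NNk 206) (nuT 206) :=
  sgnL (by decide) eL206 eL207 eL208 qL206

theorem sL207 : SignP 207 (NNk 207) (nuT 207) :=
  sgnL (by decide) eL207 eL208 eL209 qL207

theorem sL208 : SignP 208 (NNk 208) (nuT 208) :=
  sgnL (by decide) eL208 eL209 eL210 qL208

theorem sL209 : SignP 209 (NNk 209) (nuT 209) :=
  sgnL (by decide) eL209 eL210 eL211 qL209

theorem sL210 : SignP 210 (NNk 210) (nuT 210) :=
  sgnL (by decide) eL210 eL211 eL212 qL210

theorem sL211 : SignP 211 (NNk 211) (nuT 211) :=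
  sgnL (by decide) eL211 eL212 eL213 qL211

theorem sL212 : SignP 212 (NNk 212) (nuT 212) :=
  sgnL (by decide) eL212 eL213 eL214 qL212

theorem sL213 : SignP 213 (NNk 213) (nuT 213) :=
  sgnL (by decide) eL213 eL214 eL215 qL213

theorem sL214 : SignP 214 (NNk 214) (nuT 214) :=
  sgnL (by decide) eL214 eL215 eL216 qL214

theorem sL215 : SignP 215 (NNk 215) (nuT 215) :=
  sgnL (by decide) eL215 eL216 eL217 qL215

theorem sL216 : SignP 216 (NNk 216) (nuT 216) :=
  sgnL (by decide) eL216 eL217 eL218 qL216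

theorem sL217 : SignP 217 (NNk 217) (nuT 217) :=
  sgnL (by decide) eL217 eL218 eL219 qL217

theorem sL218 : SignP 218 (NNk 218) (nuT 218) :=
  sgnL (by decide) eL218 eL219 eL220 qL218

theorem sL219 : SignP 219 (NNk 219) (nuT 219) :=
  sgnL (by decide) eL219 eL220 eL221 qL219

theorem sL220 : SignP 220 (NNk 220) (nuT 220) :=
  sgnL (by decide) eL220 eL221 eL222 qL220

theorem sL221 : SignP 221 (NNk 221) (nuT 221) :=
  sgnL (by decide) eL221 eL222 eL223 qL221

theorem sL222 : SignP 222 (NNk 222) (nuT 222) :=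
  sgnL (by decide) eL222 eL223 eL224 qL222

theorem sL223 : SignP 223 (NNk 223) (nuT 223) :=
  sgnL (by decide) eL223 eL224 eL225 qL223

theorem sL224 : SignP 224 (NNk 224) (nuT 224) :=
  sgnL (by decide) eL224 eL225 eL226 qL224

theorem sL225 : SignP 225 (NNk 225) (nuT 225) :=
  sgnL (by decide) eL225 eL226 eL227 qL225

theorem sL226 : SignP 226 (NNk 226) (nuT 226) :=
  sgnL (by decide) eL226 eL227 eL228 qL226

theorem sL227 : SignP 227 (NNk 227) (nuT 227) :=
  sgnL (by decide) eL227 eL228 eL229 qL227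

theorem sL228 : SignP 228 (NNk 228) (nuT 228) :=
  sgnL (by decide) eL228 eL229 eL230 qL228

theorem sL229 : SignP 229 (NNk 229) (nuT 229) :=
  sgnL (by decide) eL229 eL230 eL231 qL229

theorem sL230 : SignP 230 (NNk 230) (nuT 230) :=
  sgnL (by decide) eL230 eL231 eL232 qL230

theorem sL231 : SignP 231 (NNk 231) (nuT 231) :=
  sgnL (by decide) eL231 eL232 eL233 qL231

theorem sL232 : SignP 232 (NNk 232) (nuT 232) :=
  sgnL (by decide) eL232 eL233 eL234 qL232

theorem sL233 : SignP 233 (NNk 233) (nuT 233) :=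
  sgnL (by decide) eL233 eL234 eL235 qL233

theorem sL234 : SignP 234 (NNk 234) (nuT 234) :=
  sgnL (by decide) eL234 eL235 eL236 qL234

theorem sL235 : SignP 235 (NNk 235) (nuT 235) :=
  sgnL (by decide) eL235 eL236 eL237 qL235

theorem sL236 : SignP 236 (NNk 236) (nuT 236) :=
  sgnL (by decide) eL236 eL237 eL238 qL236

theorem sL237 : SignP 237 (NNk 237) (nuT 237) :=
  sgnL (by decide) eL237 eL238 eL239 qL237

theorem sL238 : SignP 238 (NNk 238) (nuT 238) :=
  sgnL (by decide) eL238 eL239 eL240 qL238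

theorem sL239 : SignP 239 (NNk 239) (nuT 239) :=
  sgnL (by decide) eL239 eL240 eL241 qL239

theorem sL240 : SignP 240 (NNk 240) (nuT 240) :=
  sgnL (by decide) eL240 eL241 eL242 qL240

theorem sL241 : SignP 241 (NNk 241) (nuT 241) :=
  sgnL (by decide) eL241 eL242 eL243 qL241

theorem sL242 : SignP 242 (NNk 242) (nuT 242) :=
  sgnL (by decide) eL242 eL243 eL244 qL242

theorem sL243 : SignP 243 (NNk 243) (nuT 243) :=
  sgnL (by decide) eL243 eL244 eL245 qL243

theorem sL244 : SignP 244 (NNk 244) (nuT 244) :=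
  sgnL (by decide) eL244 eL245 eL246 qL244

theorem sL245 : SignP 245 (NNk 245) (nuT 245) :=
  sgnL (by decide) eL245 eL246 eL247 qL245

theorem sL246 : SignP 246 (NNk 246) (nuT 246) :=
  sgnL (by decide) eL246 eL247 eL248 qL246

theorem sL247 : SignP 247 (NNk 247) (nuT 247) :=
  sgnL (by decide) eL247 eL248 eL249 qL247

theorem sL248 : SignP 248 (NNk 248) (nuT 248) :=
  sgnL (by decide) eL248 eL249 eL250 qL248

theorem sL249 : SignP 249 (NNk 249) (nuT 249) :=
  sgnL (by decide) eL249 eL250 eL251 qL249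

theorem sL250 : SignP 250 (NNk 250) (nuT 250) :=
  sgnL (by decide) eL250 eL251 eL252 qL250

theorem sL251 : SignP 251 (NNk 251) (nuT 251) :=
  sgnL (by decide) eL251 eL252 eL253 qL251

theorem sL252 : SignP 252 (NNk 252) (nuT 252) :=
  sgnL (by decide) eL252 eL253 eL254 qL252

theorem sL253 : SignP 253 (NNk 253) (nuT 253) :=
  sgnL (by decide) eL253 eL254 eL255 qL253

theorem sL254 : SignP 254 (NNk 254) (nuT 254) :=
  sgnL (by decide) eL254 eL255 eL256 qL254

theorem sL255 : SignP 255 (NNk 255) (nuT 255) :=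
  sgnL (by decide) eL255 eL256 eL257 qL255

theorem sL256 : SignP 256 (NNk 256) (nuT 256) :=
  sgnL (by decide) eL256 eL257 eL258 qL256

theorem sL257 : SignP 257 (NNk 257) (nuT 257) :=
  sgnL (by decide) eL257 eL258 eL259 qL257

theorem sL258 : SignP 258 (NNk 258) (nuT 258) :=
  sgnL (by decide) eL258 eL259 eL260 qL258

theorem sL259 : SignP 259 (NNk 259) (nuT 259) :=
  sgnL (by decide) eL259 eL260 eL261 qL259

theorem sL260 : SignP 260 (NNk 260) (nuT 260) :=
  sgnL (by decide) eL260 eL261 eL262 qL260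

theorem sL261 : SignP 261 (NNk 261) (nuT 261) :=
  sgnL (by decide) eL261 eL262 eL263 qL261

theorem sL262 : SignP 262 (NNk 262) (nuT 262) :=
  sgnL (by decide) eL262 eL263 eL264 qL262

theorem sL263 : SignP 263 (NNk 263) (nuT 263) :=
  sgnL (by decide) eL263 eL264 eL265 qL263

theorem sL264 : SignP 264 (NNk 264) (nuT 264) :=
  sgnL (by decide) eL264 eL265 eL266 qL264

theorem sL265 : SignP 265 (NNk 265) (nuT 265) :=
  sgnL (by decide) eL265 eL266 eL267 qL265

theorem sL266 : SignP 266 (NNk 266) (nuT 266) :=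
  sgnL (by decide) eL266 eL267 eL268 qL266

theorem sL267 : SignP 267 (NNk 267) (nuT 267) :=
  sgnL (by decide) eL267 eL268 eL269 qL267

theorem sL268 : SignP 268 (NNk 268) (nuT 268) :=
  sgnL (by decide) eL268 eL269 eL270 qL268

theorem sL269 : SignP 269 (NNk 269) (nuT 269) :=
  sgnL (by decide) eL269 eL270 eL271 qL269

theorem sL270 : SignP 270 (NNk 270) (nuT 270) :=
  sgnL (by decide) eL270 eL271 eL272 qL270

theorem sL271 : SignP 271 (NNk 271) (nuT 271) :=
  sgnL (by decide) eL271 eL272 eL273 qL271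

theorem sL272 : SignP 272 (NNk 272) (nuT 272) :=
  sgnL (by decide) eL272 eL273 eL274 qL272

theorem sL273 : SignP 273 (NNk 273) (nuT 273) :=
  sgnL (by decide) eL273 eL274 eL275 qL273

theorem sL274 : SignP 274 (NNk 274) (nuT 274) :=
  sgnL (by decide) eL274 eL275 eL276 qL274

theorem sL275 : SignP 275 (NNk 275) (nuT 275) :=
  sgnL (by decide) eL275 eL276 eL277 qL275

theorem sL276 : SignP 276 (NNk 276) (nuT 276) :=
  sgnL (by decide) eL276 eL277 eL278 qL276

theorem sL277 : SignP 277 (NNk 277) (nuT 277) :=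
  sgnL (by decide) eL277 eL278 eL279 qL277

theorem sL278 : SignP 278 (NNk 278) (nuT 278) :=
  sgnL (by decide) eL278 eL279 eL280 qL278

theorem sL279 : SignP 279 (NNk 279) (nuT 279) :=
  sgnL (by decide) eL279 eL280 eL281 qL279

theorem sL280 : SignP 280 (NNk 280) (nuT 280) :=
  sgnL (by decide) eL280 eL281 eL282 qL280

theorem sL281 : SignP 281 (NNk 281) (nuT 281) :=
  sgnL (by decide) eL281 eL282 eL283 qL281

theorem sL282 : SignP 282 (NNk 282) (nuT 282) :=
  sgnL (by decide) eL282 eL283 eL284 qL282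

theorem sL283 : SignP 283 (NNk 283) (nuT 283) :=
  sgnL (by decide) eL283 eL284 eL285 qL283

theorem sL284 : SignP 284 (NNk 284) (nuT 284) :=
  sgnL (by decide) eL284 eL285 eL286 qL284

theorem sL285 : SignP 285 (NNk 285) (nuT 285) :=
  sgnL (by decide) eL285 eL286 eL287 qL285

theorem sL286 : SignP 286 (NNk 286) (nuT 286) :=
  sgnL (by decide) eL286 eL287 eL288 qL286

theorem sL287 : SignP 287 (NNk 287) (nuT 287) :=
  sgnL (by decide) eL287 eL288 eL289 qL287

theorem sL288 : SignP 288 (NNk 288) (nuT 288) :=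
  sgnL (by decide) eL288 eL289 eL290 qL288

theorem sL289 : SignP 289 (NNk 289) (nuT 289) :=
  sgnL (by decide) eL289 eL290 eL291 qL289

theorem sL290 : SignP 290 (NNk 290) (nuT 290) :=
  sgnL (by decide) eL290 eL291 eL292 qL290

theorem sL291 : SignP 291 (NNk 291) (nuT 291) :=
  sgnL (by decide) eL291 eL292 eL293 qL291

theorem sL292 : SignP 292 (NNk 292) (nuT 292) :=
  sgnL (by decide) eL292 eL293 eL294 qL292

theorem sL293 : SignP 293 (NNk 293) (nuT 293) :=
  sgnL (by decide) eL293 eL294 eL295 qL293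

theorem sL294 : SignP 294 (NNk 294) (nuT 294) :=
  sgnL (by decide) eL294 eL295 eL296 qL294

theorem sL295 : SignP 295 (NNk 295) (nuT 295) :=
  sgnL (by decide) eL295 eL296 eL297 qL295

theorem sL296 : SignP 296 (NNk 296) (nuT 296) :=
  sgnL (by decide) eL296 eL297 eL298 qL296

theorem sL297 : SignP 297 (NNk 297) (nuT 297) :=
  sgnL (by decide) eL297 eL298 eL299 qL297

theorem sL298 : SignP 298 (NNk 298) (nuT 298) :=
  sgnL (by decide) eL298 eL299 eL300 qL298

theorem sL299 : SignP 299 (NNk 299) (nuT 299) :=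
  sgnL (by decide) eL299 eL300 eL301 qL299

theorem sB200 : ∀ L, 200 ≤ L → L < 210 → SignP L (NNk L) (nuT L) := by
  intro L h1 h2
  interval_cases L
  · exact sL200
  · exact sL201
  · exact sL202
  · exact sL203
  · exact sL204
  · exact sL205
  · exact sL206
  · exact sL207
  · exact sL208
  · exact sL209

theorem sB210 : ∀ L, 210 ≤ L → L < 220 → SignP L (NNk L) (nuT L) := by
  intro L h1 h2
  interval_cases L
  · exact sL210
  · exact sL211
  · exact sL212
  · exact sL213
  · exact sL214
  · exact sL215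
  · exact sL216
  · exact sL217
  · exact sL218
  · exact sL219

theorem sB220 : ∀ L, 220 ≤ L → L < 230 → SignP L (NNk L) (nuT L) := by
  intro L h1 h2
  interval_cases L
  · exact sL220
  · exact sL221
  · exact sL222
  · exact sL223
  · exact sL224
  · exact sL225
  · exact sL226
  · exact sL227
  · exact sL228
  · exact sL229

theorem sB230 : ∀ L, 230 ≤ L → L < 240 → SignP L (NNk L) (nuT L) := by
  intro L h1 h2
  interval_cases L
  · exact sL230
  · exact sL231
  · exact sL232
  · exact sL233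
  · exact sL234
  · exact sL235
  · exact sL236
  · exact sL237
  · exact sL238
  · exact sL239

theorem sB240 : ∀ L, 240 ≤ L → L < 250 → SignP L (NNk L) (nuT L) := by
  intro L h1 h2
  interval_cases L
  · exact sL240
  · exact sL241
  · exact sL242
  · exact sL243
  · exact sL244
  · exact sL245
  · exact sL246
  · exact sL247
  · exact sL248
  · exact sL249

theorem sB250 : ∀ L, 250 ≤ L → L < 260 → SignP L (NNk L) (nuT L) := by
  intro L h1 h2
  interval_cases L
  · exact sL250
  · exact sL251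
  · exact sL252
  · exact sL253
  · exact sL254
  · exact sL255
  · exact sL256
  · exact sL257
  · exact sL258
  · exact sL259

theorem sB260 : ∀ L, 260 ≤ L → L < 270 → SignP L (NNk L) (nuT L) := by
  intro L h1 h2
  interval_cases L
  · exact sL260
  · exact sL261
  · exact sL262
  · exact sL263
  · exact sL264
  · exact sL265
  · exact sL266
  · exact sL267
  · exact sL268
  · exact sL269

theorem sB270 : ∀ L, 270 ≤ L → L < 280 → SignP L (NNk L) (nuT L) := by
  intro L h1 h2
  interval_cases L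
  · exact sL270
  · exact sL271
  · exact sL272
  · exact sL273
  · exact sL274
  · exact sL275
  · exact sL276
  · exact sL277
  · exact sL278
  · exact sL279

theorem sB280 : ∀ L, 280 ≤ L → L < 290 → SignP L (NNk L) (nuT L) := by
  intro L h1 h2
  interval_cases L
  · exact sL280
  · exact sL281
  · exact sL282
  · exact sL283
  · exact sL284
  · exact sL285
  · exact sL286
  · exact sL287
  · exact sL288
  · exact sL289

theorem sB290 : ∀ L, 290 ≤ L → L < 300 → SignP L (NNk L) (nuT L) := by
  intro L h1 h2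
  interval_cases L
  · exact sL290
  · exact sL291
  · exact sL292
  · exact sL293
  · exact sL294
  · exact sL295
  · exact sL296
  · exact sL297
  · exact sL298
  · exact sL299

theorem sG200 : ∀ L, 200 ≤ L → L < 300 → SignP L (NNk L) (nuT L) := by
  intro L h1 h2
  by_cases h200 : L < 210
  · exact sB200 L (by omega) h200
  by_cases h210 : L < 220
  · exact sB210 L (by omega) h210
  by_cases h220 : L < 230
  · exact sB220 L (by omega) h220
  by_cases h230 : L < 240
  · exact sB230 L (by omega) h230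
  by_cases h240 : L < 250
  · exact sB240 L (by omega) h240
  by_cases h250 : L < 260
  · exact sB250 L (by omega) h250
  by_cases h260 : L < 270
  · exact sB260 L (by omega) h260
  by_cases h270 : L < 280
  · exact sB270 L (by omega) h270
  by_cases h280 : L < 290
  · exact sB280 L (by omega) h280
  by_cases h290 : L < 300
  · exact sB290 L (by omega) h290
  omega

end Pool.Agent.MP_9da1e3_co
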