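import Pool.Agent.Lib.MP_9da1e3_co.KcE300
import Pool.Agent.Lib.MP_9da1e3_co.KcE310

set_option maxRecDepth 100000

namespace Pool.Agent.MP_9da1e3_co

theorem qL300 : ckS 72 300 780 (nuT 300) 10 (cert 300 CL300) (cert 301 CL301)
    (cert 302 CL302) = true := by decide +kernel

theorem qL301 : ckS 72 301 782 (nuT 301) 10 (cert 301 CL301) (cert 302 CL302)
    (cert 303 CL303) = true := by decide +kernel

theorem qL302 : ckS 72 302 785 (nuT 302) 10 (cert 302 CL302) (cert 303 CL303)
    (cert 304 CL304) = true := by decide +kernel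

theorem qL303 : ckS 72 303 787 (nuT 303) 10 (cert 303 CL303) (cert 304 CL304)
    (cert 305 CL305) = true := by decide +kernel

theorem qL304 : ckS 72 304 790 (nuT 304) 10 (cert 304 CL304) (cert 305 CL305)
    (cert 306 CL306) = true := by decide +kernel

theorem qL305 : ckS 72 305 792 (nuT 305) 10 (cert 305 CL305) (cert 306 CL306)
    (cert 307 CL307) = true := by decide +kernel

theorem qL306 : ckS 72 306 795 (nuT 306) 10 (cert 306 CL306) (cert 307 CL307)
    (cert 308 CL308) = true := by decide +kernel

theorem qL307 : ckS 72 307 797 (nuT 307) 10 (cert 307 CL307) (cert 308 CL308)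
    (cert 309 CL309) = true := by decide +kernel

theorem qL308 : ckS 72 308 800 (nuT 308) 10 (cert 308 CL308) (cert 309 CL309)
    (cert 310 CL310) = true := by decide +kernel

theorem qL309 : ckS 72 309 802 (nuT 309) 10 (cert 309 CL309) (cert 310 CL310)
    (cert 311 CL311) = true := by decide +kernel

end Pool.Agent.MP_9da1e3_co
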