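import Pool.Agent.Lib.MP_9da1e3_co.KcE310
import Pool.Agent.Lib.MP_9da1e3_co.KcE320

set_option maxRecDepth 100000

namespace Pool.Agent.MP_9da1e3_co

theorem qL310 : ckS 72 310 805 (nuT 310) 10 (cert 310 CL310) (cert 311 CL311)
    (cert 312 CL312) = true := by decide +kernel

theorem qL311 : ckS 72 311 807 (nuT 311) 10 (cert 311 CL311) (cert 312 CL312)
    (cert 313 CL313) = true := by decide +kernel

theorem qL312 : ckS 72 312 810 (nuT 312) 10 (cert 312 CL312) (cert 313 CL313)
    (cert 314 CL314) = true := by decide +kernel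

theorem qL313 : ckS 72 313 812 (nuT 313) 10 (cert 313 CL313) (cert 314 CL314)
    (cert 315 CL315) = true := by decide +kernel

theorem qL314 : ckS 72 314 815 (nuT 314) 10 (cert 314 CL314) (cert 315 CL315)
    (cert 316 CL316) = true := by decide +kernel

theorem qL315 : ckS 72 315 817 (nuT 315) 10 (cert 315 CL315) (cert 316 CL316)
    (cert 317 CL317) = true := by decide +kernel

theorem qL316 : ckS 72 316 820 (nuT 316) 10 (cert 316 CL316) (cert 317 CL317)
    (cert 318 CL318) = true := by decide +kernel

theorem qL317 : ckS 72 317 822 (nuT 317) 10 (cert 317 CL317) (cert 318 CL318)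
    (cert 319 CL319) = true := by decide +kernel

theorem qL318 : ckS 72 318 825 (nuT 318) 10 (cert 318 CL318) (cert 319 CL319)
    (cert 320 CL320) = true := by decide +kernel

theorem qL319 : ckS 72 319 827 (nuT 319) 10 (cert 319 CL319) (cert 320 CL320)
    (cert 321 CL321) = true := by decide +kernel

end Pool.Agent.MP_9da1e3_co
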