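import Pool.Agent.Lib.MP_9da1e3_co.KcE320
import Pool.Agent.Lib.MP_9da1e3_co.KcE330

set_option maxRecDepth 100000

namespace Pool.Agent.MP_9da1e3_co

theorem qL320 : ckS 72 320 830 (nuT 320) 10 (cert 320 CL320) (cert 321 CL321)
    (cert 322 CL322) = true := by decide +kernel

theorem qL321 : ckS 72 321 832 (nuT 321) 10 (cert 321 CL321) (cert 322 CL322)
    (cert 323 CL323) = true := by decide +kernel

theorem qL322 : ckS 72 322 835 (nuT 322) 10 (cert 322 CL322) (cert 323 CL323)
    (cert 324 CL324) = true := by decide +kernel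

theorem qL323 : ckS 72 323 837 (nuT 323) 10 (cert 323 CL323) (cert 324 CL324)
    (cert 325 CL325) = true := by decide +kernel

theorem qL324 : ckS 72 324 840 (nuT 324) 10 (cert 324 CL324) (cert 325 CL325)
    (cert 326 CL326) = true := by decide +kernel

theorem qL325 : ckS 72 325 842 (nuT 325) 10 (cert 325 CL325) (cert 326 CL326)
    (cert 327 CL327) = true := by decide +kernel

theorem qL326 : ckS 72 326 845 (nuT 326) 10 (cert 326 CL326) (cert 327 CL327)
    (cert 328 CL328) = true := by decide +kernel

theorem qL327 : ckS 72 327 847 (nuT 327) 10 (cert 327 CL327) (cert 328 CL328)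
    (cert 329 CL329) = true := by decide +kernel

theorem qL328 : ckS 72 328 850 (nuT 328) 10 (cert 328 CL328) (cert 329 CL329)
    (cert 330 CL330) = true := by decide +kernel

theorem qL329 : ckS 72 329 852 (nuT 329) 10 (cert 329 CL329) (cert 330 CL330)
    (cert 331 CL331) = true := by decide +kernel

end Pool.Agent.MP_9da1e3_co
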