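import Pool.Agent.Lib.MP_9da1e3_co.KcE330
import Pool.Agent.Lib.MP_9da1e3_co.KcE340

set_option maxRecDepth 100000

namespace Pool.Agent.MP_9da1e3_co

theorem qL330 : ckS 72 330 855 (nuT 330) 10 (cert 330 CL330) (cert 331 CL331)
    (cert 332 CL332) = true := by decide +kernel

theorem qL331 : ckS 72 331 857 (nuT 331) 10 (cert 331 CL331) (cert 332 CL332)
    (cert 333 CL333) = true := by decide +kernel

theorem qL332 : ckS 72 332 860 (nuT 332) 10 (cert 332 CL332) (cert 333 CL333)
    (cert 334 CL334) = true := by decide +kernel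

theorem qL333 : ckS 72 333 862 (nuT 333) 10 (cert 333 CL333) (cert 334 CL334)
    (cert 335 CL335) = true := by decide +kernel

theorem qL334 : ckS 72 334 865 (nuT 334) 10 (cert 334 CL334) (cert 335 CL335)
    (cert 336 CL336) = true := by decide +kernel

theorem qL335 : ckS 72 335 867 (nuT 335) 10 (cert 335 CL335) (cert 336 CL336)
    (cert 337 CL337) = true := by decide +kernel

theorem qL336 : ckS 72 336 870 (nuT 336) 10 (cert 336 CL336) (cert 337 CL337)
    (cert 338 CL338) = true := by decide +kernel

theorem qL337 : ckS 72 337 872 (nuT 337) 10 (cert 337 CL337) (cert 338 CL338)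
    (cert 339 CL339) = true := by decide +kernel

theorem qL338 : ckS 72 338 875 (nuT 338) 10 (cert 338 CL338) (cert 339 CL339)
    (cert 340 CL340) = true := by decide +kernel

theorem qL339 : ckS 72 339 877 (nuT 339) 10 (cert 339 CL339) (cert 340 CL340)
    (cert 341 CL341) = true := by decide +kernel

end Pool.Agent.MP_9da1e3_co
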