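import Pool.Agent.Lib.MP_9da1e3_co.KcE340
import Pool.Agent.Lib.MP_9da1e3_co.KcE350

set_option maxRecDepth 100000

namespace Pool.Agent.MP_9da1e3_co

theorem qL340 : ckS 72 340 880 (nuT 340) 10 (cert 340 CL340) (cert 341 CL341)
    (cert 342 CL342) = true := by decide +kernel

theorem qL341 : ckS 72 341 882 (nuT 341) 10 (cert 341 CL341) (cert 342 CL342)
    (cert 343 CL343) = true := by decide +kernel

theorem qL342 : ckS 72 342 885 (nuT 342) 10 (cert 342 CL342) (cert 343 CL343)
    (cert 344 CL344) = true := by decide +kernel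

theorem qL343 : ckS 72 343 887 (nuT 343) 10 (cert 343 CL343) (cert 344 CL344)
    (cert 345 CL345) = true := by decide +kernel

theorem qL344 : ckS 72 344 890 (nuT 344) 10 (cert 344 CL344) (cert 345 CL345)
    (cert 346 CL346) = true := by decide +kernel

theorem qL345 : ckS 72 345 892 (nuT 345) 10 (cert 345 CL345) (cert 346 CL346)
    (cert 347 CL347) = true := by decide +kernel

theorem qL346 : ckS 72 346 895 (nuT 346) 10 (cert 346 CL346) (cert 347 CL347)
    (cert 348 CL348) = true := by decide +kernel

theorem qL347 : ckS 72 347 897 (nuT 347) 10 (cert 347 CL347) (cert 348 CL348)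
    (cert 349 CL349) = true := by decide +kernel

theorem qL348 : ckS 72 348 900 (nuT 348) 10 (cert 348 CL348) (cert 349 CL349)
    (cert 350 CL350) = true := by decide +kernel

theorem qL349 : ckS 72 349 902 (nuT 349) 10 (cert 349 CL349) (cert 350 CL350)
    (cert 351 CL351) = true := by decide +kernel

end Pool.Agent.MP_9da1e3_co
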