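import Pool.Agent.Lib.MP_9da1e3_co.KcE350
import Pool.Agent.Lib.MP_9da1e3_co.KcE360

set_option maxRecDepth 100000

namespace Pool.Agent.MP_9da1e3_co

theorem qL350 : ckS 72 350 905 (nuT 350) 10 (cert 350 CL350) (cert 351 CL351)
    (cert 352 CL352) = true := by decide +kernel

theorem qL351 : ckS 72 351 907 (nuT 351) 10 (cert 351 CL351) (cert 352 CL352)
    (cert 353 CL353) = true := by decide +kernel

theorem qL352 : ckS 72 352 910 (nuT 352) 10 (cert 352 CL352) (cert 353 CL353)
    (cert 354 CL354) = true := by decide +kernel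

theorem qL353 : ckS 72 353 912 (nuT 353) 10 (cert 353 CL353) (cert 354 CL354)
    (cert 355 CL355) = true := by decide +kernel

theorem qL354 : ckS 72 354 915 (nuT 354) 10 (cert 354 CL354) (cert 355 CL355)
    (cert 356 CL356) = true := by decide +kernel

theorem qL355 : ckS 72 355 917 (nuT 355) 10 (cert 355 CL355) (cert 356 CL356)
    (cert 357 CL357) = true := by decide +kernel

theorem qL356 : ckS 72 356 920 (nuT 356) 10 (cert 356 CL356) (cert 357 CL357)
    (cert 358 CL358) = true := by decide +kernel

theorem qL357 : ckS 72 357 922 (nuT 357) 10 (cert 357 CL357) (cert 358 CL358)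
    (cert 359 CL359) = true := by decide +kernel

theorem qL358 : ckS 72 358 925 (nuT 358) 10 (cert 358 CL358) (cert 359 CL359)
    (cert 360 CL360) = true := by decide +kernel

theorem qL359 : ckS 72 359 927 (nuT 359) 10 (cert 359 CL359) (cert 360 CL360)
    (cert 361 CL361) = true := by decide +kernel

end Pool.Agent.MP_9da1e3_co
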