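import Pool.Agent.Lib.MP_9da1e3_co.KcE360
import Pool.Agent.Lib.MP_9da1e3_co.KcE370

set_option maxRecDepth 100000

namespace Pool.Agent.MP_9da1e3_co

theorem qL360 : ckS 72 360 930 (nuT 360) 10 (cert 360 CL360) (cert 361 CL361)
    (cert 362 CL362) = true := by decide +kernel

theorem qL361 : ckS 72 361 932 (nuT 361) 10 (cert 361 CL361) (cert 362 CL362)
    (cert 363 CL363) = true := by decide +kernel

theorem qL362 : ckS 72 362 935 (nuT 362) 10 (cert 362 CL362) (cert 363 CL363)
    (cert 364 CL364) = true := by decide +kernel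

theorem qL363 : ckS 72 363 937 (nuT 363) 10 (cert 363 CL363) (cert 364 CL364)
    (cert 365 CL365) = true := by decide +kernel

theorem qL364 : ckS 72 364 940 (nuT 364) 10 (cert 364 CL364) (cert 365 CL365)
    (cert 366 CL366) = true := by decide +kernel

theorem qL365 : ckS 72 365 942 (nuT 365) 10 (cert 365 CL365) (cert 366 CL366)
    (cert 367 CL367) = true := by decide +kernel

theorem qL366 : ckS 72 366 945 (nuT 366) 10 (cert 366 CL366) (cert 367 CL367)
    (cert 368 CL368) = true := by decide +kernel

theorem qL367 : ckS 72 367 947 (nuT 367) 10 (cert 367 CL367) (cert 368 CL368)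
    (cert 369 CL369) = true := by decide +kernel

theorem qL368 : ckS 72 368 950 (nuT 368) 10 (cert 368 CL368) (cert 369 CL369)
    (cert 370 CL370) = true := by decide +kernel

theorem qL369 : ckS 72 369 952 (nuT 369) 10 (cert 369 CL369) (cert 370 CL370)
    (cert 371 CL371) = true := by decide +kernel

end Pool.Agent.MP_9da1e3_co
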