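import Pool.Agent.Lib.MP_9da1e3_co.KcE370
import Pool.Agent.Lib.MP_9da1e3_co.KcE380

set_option maxRecDepth 100000

namespace Pool.Agent.MP_9da1e3_co

theorem qL370 : ckS 72 370 955 (nuT 370) 10 (cert 370 CL370) (cert 371 CL371)
    (cert 372 CL372) = true := by decide +kernel

theorem qL371 : ckS 72 371 957 (nuT 371) 10 (cert 371 CL371) (cert 372 CL372)
    (cert 373 CL373) = true := by decide +kernel

theorem qL372 : ckS 72 372 960 (nuT 372) 10 (cert 372 CL372) (cert 373 CL373)
    (cert 374 CL374) = true := by decide +kernel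

theorem qL373 : ckS 72 373 962 (nuT 373) 10 (cert 373 CL373) (cert 374 CL374)
    (cert 375 CL375) = true := by decide +kernel

theorem qL374 : ckS 72 374 965 (nuT 374) 10 (cert 374 CL374) (cert 375 CL375)
    (cert 376 CL376) = true := by decide +kernel

theorem qL375 : ckS 72 375 967 (nuT 375) 10 (cert 375 CL375) (cert 376 CL376)
    (cert 377 CL377) = true := by decide +kernel

theorem qL376 : ckS 72 376 970 (nuT 376) 10 (cert 376 CL376) (cert 377 CL377)
    (cert 378 CL378) = true := by decide +kernel

theorem qL377 : ckS 72 377 972 (nuT 377) 10 (cert 377 CL377) (cert 378 CL378)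
    (cert 379 CL379) = true := by decide +kernel

theorem qL378 : ckS 72 378 975 (nuT 378) 10 (cert 378 CL378) (cert 379 CL379)
    (cert 380 CL380) = true := by decide +kernel

theorem qL379 : ckS 72 379 977 (nuT 379) 10 (cert 379 CL379) (cert 380 CL380)
    (cert 381 CL381) = true := by decide +kernel

end Pool.Agent.MP_9da1e3_co
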