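import Pool.Agent.Lib.MP_9da1e3_co.KcE380
import Pool.Agent.Lib.MP_9da1e3_co.KcE390

set_option maxRecDepth 100000

namespace Pool.Agent.MP_9da1e3_co

theorem qL380 : ckS 72 380 980 (nuT 380) 10 (cert 380 CL380) (cert 381 CL381)
    (cert 382 CL382) = true := by decide +kernel

theorem qL381 : ckS 72 381 982 (nuT 381) 10 (cert 381 CL381) (cert 382 CL382)
    (cert 383 CL383) = true := by decide +kernel

theorem qL382 : ckS 72 382 985 (nuT 382) 10 (cert 382 CL382) (cert 383 CL383)
    (cert 384 CL384) = true := by decide +kernel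

theorem qL383 : ckS 72 383 987 (nuT 383) 10 (cert 383 CL383) (cert 384 CL384)
    (cert 385 CL385) = true := by decide +kernel

theorem qL384 : ckS 72 384 990 (nuT 384) 10 (cert 384 CL384) (cert 385 CL385)
    (cert 386 CL386) = true := by decide +kernel

theorem qL385 : ckS 72 385 992 (nuT 385) 10 (cert 385 CL385) (cert 386 CL386)
    (cert 387 CL387) = true := by decide +kernel

theorem qL386 : ckS 72 386 995 (nuT 386) 10 (cert 386 CL386) (cert 387 CL387)
    (cert 388 CL388) = true := by decide +kernel

theorem qL387 : ckS 72 387 997 (nuT 387) 10 (cert 387 CL387) (cert 388 CL388)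
    (cert 389 CL389) = true := by decide +kernel

theorem qL388 : ckS 72 388 1000 (nuT 388) 10 (cert 388 CL388) (cert 389 CL389)
    (cert 390 CL390) = true := by decide +kernel

theorem qL389 : ckS 72 389 1002 (nuT 389) 10 (cert 389 CL389) (cert 390 CL390)
    (cert 391 CL391) = true := by decide +kernel

end Pool.Agent.MP_9da1e3_co
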