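import Pool.Agent.Lib.MP_9da1e3_co.KcE390
import Pool.Agent.Lib.MP_9da1e3_co.KcE400

set_option maxRecDepth 100000

namespace Pool.Agent.MP_9da1e3_co

theorem qL390 : ckS 72 390 1005 (nuT 390) 10 (cert 390 CL390) (cert 391 CL391)
    (cert 392 CL392) = true := by decide +kernel

theorem qL391 : ckS 72 391 1007 (nuT 391) 10 (cert 391 CL391) (cert 392 CL392)
    (cert 393 CL393) = true := by decide +kernel

theorem qL392 : ckS 72 392 1010 (nuT 392) 10 (cert 392 CL392) (cert 393 CL393)
    (cert 394 CL394) = true := by decide +kernel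

theorem qL393 : ckS 72 393 1012 (nuT 393) 10 (cert 393 CL393) (cert 394 CL394)
    (cert 395 CL395) = true := by decide +kernel

theorem qL394 : ckS 72 394 1015 (nuT 394) 10 (cert 394 CL394) (cert 395 CL395)
    (cert 396 CL396) = true := by decide +kernel

theorem qL395 : ckS 72 395 1017 (nuT 395) 10 (cert 395 CL395) (cert 396 CL396)
    (cert 397 CL397) = true := by decide +kernel

theorem qL396 : ckS 72 396 1020 (nuT 396) 10 (cert 396 CL396) (cert 397 CL397)
    (cert 398 CL398) = true := by decide +kernel

theorem qL397 : ckS 72 397 1022 (nuT 397) 10 (cert 397 CL397) (cert 398 CL398)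
    (cert 399 CL399) = true := by decide +kernel

theorem qL398 : ckS 72 398 1025 (nuT 398) 11 (cert 398 CL398) (cert 399 CL399)
    (cert 400 CL400) = true := by decide +kernel

theorem qL399 : ckS 72 399 1027 (nuT 399) 11 (cert 399 CL399) (cert 400 CL400)
    (cert 401 CL401) = true := by decide +kernel

end Pool.Agent.MP_9da1e3_co
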