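import Pool.Agent.Lib.MP_9da1e3_co.Kc4
import Pool.Agent.Lib.MP_9da1e3_co.KcS300
import Pool.Agent.Lib.MP_9da1e3_co.KcS310
import Pool.Agent.Lib.MP_9da1e3_co.KcS320
import Pool.Agent.Lib.MP_9da1e3_co.KcS330
import Pool.Agent.Lib.MP_9da1e3_co.KcS340
import Pool.Agent.Lib.MP_9da1e3_co.KcS350
import Pool.Agent.Lib.MP_9da1e3_co.KcS360
import Pool.Agent.Lib.MP_9da1e3_co.KcS370
import Pool.Agent.Lib.MP_9da1e3_co.KcS380
import Pool.Agent.Lib.MP_9da1e3_co.KcS390

namespace Pool.Agent.MP_9da1e3_co

theorem sL300 : SignP 300 (NNk 300) (nuT 300) :=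
  sgnL (by decide) eL300 eL301 eL302 qL300

theorem sL301 : SignP 301 (NNk 301) (nuT 301) :=
  sgnL (by decide) eL301 eL302 eL303 qL301

theorem sL302 : SignP 302 (NNk 302) (nuT 302) :=
  sgnL (by decide) eL302 eL303 eL304 qL302

theorem sL303 : SignP 303 (NNk 303) (nuT 303) :=
  sgnL (by decide) eL303 eL304 eL305 qL303

theorem sL304 : SignP 304 (NNk 304) (nuT 304) :=
  sgnL (by decide) eL304 eL305 eL306 qL304

theorem sL305 : SignP 305 (NNk 305) (nuT 305) :=
  sgnL (by decide) eL305 eL306 eL307 qL305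

theorem sL306 : SignP 306 (NNk 306) (nuT 306) :=
  sgnL (by decide) eL306 eL307 eL308 qL306

theorem sL307 : SignP 307 (NNk 307) (nuT 307) :=
  sgnL (by decide) eL307 eL308 eL309 qL307

theorem sL308 : SignP 308 (NNk 308) (nuT 308) :=
  sgnL (by decide) eL308 eL309 eL310 qL308

theorem sL309 : SignP 309 (NNk 309) (nuT 309) :=
  sgnL (by decide) eL309 eL310 eL311 qL309

theorem sL310 : SignP 310 (NNk 310) (nuT 310) :=
  sgnL (by decide) eL310 eL311 eL312 qL310

theorem sL311 : SignP 311 (NNk 311) (nuT 311) :=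
  sgnL (by decide) eL311 eL312 eL313 qL311

theorem sL312 : SignP 312 (NNk 312) (nuT 312) :=
  sgnL (by decide) eL312 eL313 eL314 qL312

theorem sL313 : SignP 313 (NNk 313) (nuT 313) :=
  sgnL (by decide) eL313 eL314 eL315 qL313

theorem sL314 : SignP 314 (NNk 314) (nuT 314) :=
  sgnL (by decide) eL314 eL315 eL316 qL314

theorem sL315 : SignP 315 (NNk 315) (nuT 315) :=
  sgnL (by decide) eL315 eL316 eL317 qL315

theorem sL316 : SignP 316 (NNk 316) (nuT 316) :=
  sgnL (by decide) eL316 eL317 eL318 qL316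

theorem sL317 : SignP 317 (NNk 317) (nuT 317) :=
  sgnL (by decide) eL317 eL318 eL319 qL317

theorem sL318 : SignP 318 (NNk 318) (nuT 318) :=
  sgnL (by decide) eL318 eL319 eL320 qL318

theorem sL319 : SignP 319 (NNk 319) (nuT 319) :=
  sgnL (by decide) eL319 eL320 eL321 qL319

theorem sL320 : SignP 320 (NNk 320) (nuT 320) :=
  sgnL (by decide) eL320 eL321 eL322 qL320

theorem sL321 : SignP 321 (NNk 321) (nuT 321) :=
  sgnL (by decide) eL321 eL322 eL323 qL321

theorem sL322 : SignP 322 (NNk 322) (nuT 322) :=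
  sgnL (by decide) eL322 eL323 eL324 qL322

theorem sL323 : SignP 323 (NNk 323) (nuT 323) :=
  sgnL (by decide) eL323 eL324 eL325 qL323

theorem sL324 : SignP 324 (NNk 324) (nuT 324) :=
  sgnL (by decide) eL324 eL325 eL326 qL324

theorem sL325 : SignP 325 (NNk 325) (nuT 325) :=
  sgnL (by decide) eL325 eL326 eL327 qL325

theorem sL326 : SignP 326 (NNk 326) (nuT 326) :=
  sgnL (by decide) eL326 eL327 eL328 qL326

theorem sL327 : SignP 327 (NNk 327) (nuT 327) :=
  sgnL (by decide) eL327 eL328 eL329 qL327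

theorem sL328 : SignP 328 (NNk 328) (nuT 328) :=
  sgnL (by decide) eL328 eL329 eL330 qL328

theorem sL329 : SignP 329 (NNk 329) (nuT 329) :=
  sgnL (by decide) eL329 eL330 eL331 qL329

theorem sL330 : SignP 330 (NNk 330) (nuT 330) :=
  sgnL (by decide) eL330 eL331 eL332 qL330

theorem sL331 : SignP 331 (NNk 331) (nuT 331) :=
  sgnL (by decide) eL331 eL332 eL333 qL331

theorem sL332 : SignP 332 (NNk 332) (nuT 332) :=
  sgnL (by decide) eL332 eL333 eL334 qL332

theorem sL333 : SignP 333 (NNk 333) (nuT 333) :=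
  sgnL (by decide) eL333 eL334 eL335 qL333

theorem sL334 : SignP 334 (NNk 334) (nuT 334) :=
  sgnL (by decide) eL334 eL335 eL336 qL334

theorem sL335 : SignP 335 (NNk 335) (nuT 335) :=
  sgnL (by decide) eL335 eL336 eL337 qL335

theorem sL336 : SignP 336 (NNk 336) (nuT 336) :=
  sgnL (by decide) eL336 eL337 eL338 qL336

theorem sL337 : SignP 337 (NNk 337) (nuT 337) :=
  sgnL (by decide) eL337 eL338 eL339 qL337

theorem sL338 : SignP 338 (NNk 338) (nuT 338) :=
  sgnL (by decide) eL338 eL339 eL340 qL338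

theorem sL339 : SignP 339 (NNk 339) (nuT 339) :=
  sgnL (by decide) eL339 eL340 eL341 qL339

theorem sL340 : SignP 340 (NNk 340) (nuT 340) :=
  sgnL (by decide) eL340 eL341 eL342 qL340

theorem sL341 : SignP 341 (NNk 341) (nuT 341) :=
  sgnL (by decide) eL341 eL342 eL343 qL341

theorem sL342 : SignP 342 (NNk 342) (nuT 342) :=
  sgnL (by decide) eL342 eL343 eL344 qL342

theorem sL343 : SignP 343 (NNk 343) (nuT 343) :=
  sgnL (by decide) eL343 eL344 eL345 qL343

theorem sL344 : SignP 344 (NNk 344) (nuT 344) :=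
  sgnL (by decide) eL344 eL345 eL346 qL344

theorem sL345 : SignP 345 (NNk 345) (nuT 345) :=
  sgnL (by decide) eL345 eL346 eL347 qL345

theorem sL346 : SignP 346 (NNk 346) (nuT 346) :=
  sgnL (by decide) eL346 eL347 eL348 qL346

theorem sL347 : SignP 347 (NNk 347) (nuT 347) :=
  sgnL (by decide) eL347 eL348 eL349 qL347

theorem sL348 : SignP 348 (NNk 348) (nuT 348) :=
  sgnL (by decide) eL348 eL349 eL350 qL348

theorem sL349 : SignP 349 (NNk 349) (nuT 349) :=
  sgnL (by decide) eL349 eL350 eL351 qL349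

theorem sL350 : SignP 350 (NNk 350) (nuT 350) :=
  sgnL (by decide) eL350 eL351 eL352 qL350

theorem sL351 : SignP 351 (NNk 351) (nuT 351) :=
  sgnL (by decide) eL351 eL352 eL353 qL351

theorem sL352 : SignP 352 (NNk 352) (nuT 352) :=
  sgnL (by decide) eL352 eL353 eL354 qL352

theorem sL353 : SignP 353 (NNk 353) (nuT 353) :=
  sgnL (by decide) eL353 eL354 eL355 qL353

theorem sL354 : SignP 354 (NNk 354) (nuT 354) :=
  sgnL (by decide) eL354 eL355 eL356 qL354

theorem sL355 : SignP 355 (NNk 355) (nuT 355) :=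
  sgnL (by decide) eL355 eL356 eL357 qL355

theorem sL356 : SignP 356 (NNk 356) (nuT 356) :=
  sgnL (by decide) eL356 eL357 eL358 qL356

theorem sL357 : SignP 357 (NNk 357) (nuT 357) :=
  sgnL (by decide) eL357 eL358 eL359 qL357

theorem sL358 : SignP 358 (NNk 358) (nuT 358) :=
  sgnL (by decide) eL358 eL359 eL360 qL358

theorem sL359 : SignP 359 (NNk 359) (nuT 359) :=
  sgnL (by decide) eL359 eL360 eL361 qL359

theorem sL360 : SignP 360 (NNk 360) (nuT 360) :=
  sgnL (by decide) eL360 eL361 eL362 qL360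

theorem sL361 : SignP 361 (NNk 361) (nuT 361) :=
  sgnL (by decide) eL361 eL362 eL363 qL361

theorem sL362 : SignP 362 (NNk 362) (nuT 362) :=
  sgnL (by decide) eL362 eL363 eL364 qL362

theorem sL363 : SignP 363 (NNk 363) (nuT 363) :=
  sgnL (by decide) eL363 eL364 eL365 qL363

theorem sL364 : SignP 364 (NNk 364) (nuT 364) :=
  sgnL (by decide) eL364 eL365 eL366 qL364

theorem sL365 : SignP 365 (NNk 365) (nuT 365) :=
  sgnL (by decide) eL365 eL366 eL367 qL365

theorem sL366 : SignP 366 (NNk 366) (nuT 366) :=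
  sgnL (by decide) eL366 eL367 eL368 qL366

theorem sL367 : SignP 367 (NNk 367) (nuT 367) :=
  sgnL (by decide) eL367 eL368 eL369 qL367

theorem sL368 : SignP 368 (NNk 368) (nuT 368) :=
  sgnL (by decide) eL368 eL369 eL370 qL368

theorem sL369 : SignP 369 (NNk 369) (nuT 369) :=
  sgnL (by decide) eL369 eL370 eL371 qL369

theorem sL370 : SignP 370 (NNk 370) (nuT 370) :=
  sgnL (by decide) eL370 eL371 eL372 qL370

theorem sL371 : SignP 371 (NNk 371) (nuT 371) :=
  sgnL (by decide) eL371 eL372 eL373 qL371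

theorem sL372 : SignP 372 (NNk 372) (nuT 372) :=
  sgnL (by decide) eL372 eL373 eL374 qL372

theorem sL373 : SignP 373 (NNk 373) (nuT 373) :=
  sgnL (by decide) eL373 eL374 eL375 qL373

theorem sL374 : SignP 374 (NNk 374) (nuT 374) :=
  sgnL (by decide) eL374 eL375 eL376 qL374

theorem sL375 : SignP 375 (NNk 375) (nuT 375) :=
  sgnL (by decide) eL375 eL376 eL377 qL375

theorem sL376 : SignP 376 (NNk 376) (nuT 376) :=
  sgnL (by decide) eL376 eL377 eL378 qL376

theorem sL377 : SignP 377 (NNk 377) (nuT 377) :=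
  sgnL (by decide) eL377 eL378 eL379 qL377

theorem sL378 : SignP 378 (NNk 378) (nuT 378) :=
  sgnL (by decide) eL378 eL379 eL380 qL378

theorem sL379 : SignP 379 (NNk 379) (nuT 379) :=
  sgnL (by decide) eL379 eL380 eL381 qL379

theorem sL380 : SignP 380 (NNk 380) (nuT 380) :=
  sgnL (by decide) eL380 eL381 eL382 qL380

theorem sL381 : SignP 381 (NNk 381) (nuT 381) :=
  sgnL (by decide) eL381 eL382 eL383 qL381

theorem sL382 : SignP 382 (NNk 382) (nuT 382) :=
  sgnL (by decide) eL382 eL383 eL384 qL382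

theorem sL383 : SignP 383 (NNk 383) (nuT 383) :=
  sgnL (by decide) eL383 eL384 eL385 qL383

theorem sL384 : SignP 384 (NNk 384) (nuT 384) :=
  sgnL (by decide) eL384 eL385 eL386 qL384

theorem sL385 : SignP 385 (NNk 385) (nuT 385) :=
  sgnL (by decide) eL385 eL386 eL387 qL385

theorem sL386 : SignP 386 (NNk 386) (nuT 386) :=
  sgnL (by decide) eL386 eL387 eL388 qL386

theorem sL387 : SignP 387 (NNk 387) (nuT 387) :=
  sgnL (by decide) eL387 eL388 eL389 qL387

theorem sL388 : SignP 388 (NNk 388) (nuT 388) :=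
  sgnL (by decide) eL388 eL389 eL390 qL388

theorem sL389 : SignP 389 (NNk 389) (nuT 389) :=
  sgnL (by decide) eL389 eL390 eL391 qL389

theorem sL390 : SignP 390 (NNk 390) (nuT 390) :=
  sgnL (by decide) eL390 eL391 eL392 qL390

theorem sL391 : SignP 391 (NNk 391) (nuT 391) :=
  sgnL (by decide) eL391 eL392 eL393 qL391

theorem sL392 : SignP 392 (NNk 392) (nuT 392) :=
  sgnL (by decide) eL392 eL393 eL394 qL392

theorem sL393 : SignP 393 (NNk 393) (nuT 393) :=
  sgnL (by decide) eL393 eL394 eL395 qL393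

theorem sL394 : SignP 394 (NNk 394) (nuT 394) :=
  sgnL (by decide) eL394 eL395 eL396 qL394

theorem sL395 : SignP 395 (NNk 395) (nuT 395) :=
  sgnL (by decide) eL395 eL396 eL397 qL395

theorem sL396 : SignP 396 (NNk 396) (nuT 396) :=
  sgnL (by decide) eL396 eL397 eL398 qL396

theorem sL397 : SignP 397 (NNk 397) (nuT 397) :=
  sgnL (by decide) eL397 eL398 eL399 qL397

theorem sL398 : SignP 398 (NNk 398) (nuT 398) :=
  sgnL (by decide) eL398 eL399 eL400 qL398

theorem sL399 : SignP 399 (NNk 399) (nuT 399) :=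
  sgnL (by decide) eL399 eL400 eL401 qL399

theorem sB300 : ∀ L, 300 ≤ L → L < 310 → SignP L (NNk L) (nuT L) := by
  intro L h1 h2
  interval_cases L
  · exact sL300
  · exact sL301
  · exact sL302
  · exact sL303
  · exact sL304
  · exact sL305
  · exact sL306
  · exact sL307
  · exact sL308
  · exact sL309

theorem sB310 : ∀ L, 310 ≤ L → L < 320 → SignP L (NNk L) (nuT L) := by
  intro L h1 h2
  interval_cases L
  · exact sL310
  · exact sL311
  · exact sL312
  · exact sL313
  · exact sL314
  · exact sL315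
  · exact sL316
  · exact sL317
  · exact sL318
  · exact sL319

theorem sB320 : ∀ L, 320 ≤ L → L < 330 → SignP L (NNk L) (nuT L) := by
  intro L h1 h2
  interval_cases L
  · exact sL320
  · exact sL321
  · exact sL322
  · exact sL323
  · exact sL324
  · exact sL325
  · exact sL326
  · exact sL327
  · exact sL328
  · exact sL329

theorem sB330 : ∀ L, 330 ≤ L → L < 340 → SignP L (NNk L) (nuT L) := by
  intro L h1 h2
  interval_cases L
  · exact sL330
  · exact sL331
  · exact sL332
  · exact sL333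
  · exact sL334
  · exact sL335
  · exact sL336
  · exact sL337
  · exact sL338
  · exact sL339

theorem sB340 : ∀ L, 340 ≤ L → L < 350 → SignP L (NNk L) (nuT L) := by
  intro L h1 h2
  interval_cases L
  · exact sL340
  · exact sL341
  · exact sL342
  · exact sL343
  · exact sL344
  · exact sL345
  · exact sL346
  · exact sL347
  · exact sL348
  · exact sL349

theorem sB350 : ∀ L, 350 ≤ L → L < 360 → SignP L (NNk L) (nuT L) := by
  intro L h1 h2
  interval_cases L
  · exact sL350
  · exact sL351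
  · exact sL352
  · exact sL353
  · exact sL354
  · exact sL355
  · exact sL356
  · exact sL357
  · exact sL358
  · exact sL359

theorem sB360 : ∀ L, 360 ≤ L → L < 370 → SignP L (NNk L) (nuT L) := by
  intro L h1 h2
  interval_cases L
  · exact sL360
  · exact sL361
  · exact sL362
  · exact sL363
  · exact sL364
  · exact sL365
  · exact sL366
  · exact sL367
  · exact sL368
  · exact sL369

theorem sB370 : ∀ L, 370 ≤ L → L < 380 → SignP L (NNk L) (nuT L) := by
  intro L h1 h2
  interval_cases L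
  · exact sL370
  · exact sL371
  · exact sL372
  · exact sL373
  · exact sL374
  · exact sL375
  · exact sL376
  · exact sL377
  · exact sL378
  · exact sL379

theorem sB380 : ∀ L, 380 ≤ L → L < 390 → SignP L (NNk L) (nuT L) := by
  intro L h1 h2
  interval_cases L
  · exact sL380
  · exact sL381
  · exact sL382
  · exact sL383
  · exact sL384
  · exact sL385
  · exact sL386
  · exact sL387
  · exact sL388
  · exact sL389

theorem sB390 : ∀ L, 390 ≤ L → L < 400 → SignP L (NNk L) (nuT L) := by
  intro L h1 h2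
  interval_cases L
  · exact sL390
  · exact sL391
  · exact sL392
  · exact sL393
  · exact sL394
  · exact sL395
  · exact sL396
  · exact sL397
  · exact sL398
  · exact sL399

theorem sG300 : ∀ L, 300 ≤ L → L < 400 → SignP L (NNk L) (nuT L) := by
  intro L h1 h2
  by_cases h300 : L < 310
  · exact sB300 L (by omega) h300
  by_cases h310 : L < 320
  · exact sB310 L (by omega) h310
  by_cases h320 : L < 330
  · exact sB320 L (by omega) h320
  by_cases h330 : L < 340
  · exact sB330 L (by omega) h330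
  by_cases h340 : L < 350
  · exact sB340 L (by omega) h340
  by_cases h350 : L < 360
  · exact sB350 L (by omega) h350
  by_cases h360 : L < 370
  · exact sB360 L (by omega) h360
  by_cases h370 : L < 380
  · exact sB370 L (by omega) h370
  by_cases h380 : L < 390
  · exact sB380 L (by omega) h380
  by_cases h390 : L < 400
  · exact sB390 L (by omega) h390
  omega

end Pool.Agent.MP_9da1e3_co
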