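import Pool.Agent.Lib.MP_9da1e3_co.KcE400
import Pool.Agent.Lib.MP_9da1e3_co.KcE410

set_option maxRecDepth 100000

namespace Pool.Agent.MP_9da1e3_co

theorem qL400 : ckS 72 400 1030 (nuT 400) 11 (cert 400 CL400) (cert 401 CL401)
    (cert 402 CL402) = true := by decide +kernel

theorem qL401 : ckS 72 401 1032 (nuT 401) 11 (cert 401 CL401) (cert 402 CL402)
    (cert 403 CL403) = true := by decide +kernel

theorem qL402 : ckS 72 402 1035 (nuT 402) 11 (cert 402 CL402) (cert 403 CL403)
    (cert 404 CL404) = true := by decide +kernel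

theorem qL403 : ckS 72 403 1037 (nuT 403) 11 (cert 403 CL403) (cert 404 CL404)
    (cert 405 CL405) = true := by decide +kernel

theorem qL404 : ckS 72 404 1040 (nuT 404) 11 (cert 404 CL404) (cert 405 CL405)
    (cert 406 CL406) = true := by decide +kernel

theorem qL405 : ckS 72 405 1042 (nuT 405) 11 (cert 405 CL405) (cert 406 CL406)
    (cert 407 CL407) = true := by decide +kernel

theorem qL406 : ckS 72 406 1045 (nuT 406) 11 (cert 406 CL406) (cert 407 CL407)
    (cert 408 CL408) = true := by decide +kernel

theorem qL407 : ckS 72 407 1047 (nuT 407) 11 (cert 407 CL407) (cert 408 CL408)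
    (cert 409 CL409) = true := by decide +kernel

theorem qL408 : ckS 72 408 1050 (nuT 408) 11 (cert 408 CL408) (cert 409 CL409)
    (cert 410 CL410) = true := by decide +kernel

theorem qL409 : ckS 72 409 1052 (nuT 409) 11 (cert 409 CL409) (cert 410 CL410)
    (cert 411 CL411) = true := by decide +kernel

end Pool.Agent.MP_9da1e3_co
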