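import Pool.Agent.Lib.MP_9da1e3_co.KcE410
import Pool.Agent.Lib.MP_9da1e3_co.KcE420

set_option maxRecDepth 100000

namespace Pool.Agent.MP_9da1e3_co

theorem qL410 : ckS 72 410 1055 (nuT 410) 11 (cert 410 CL410) (cert 411 CL411)
    (cert 412 CL412) = true := by decide +kernel

theorem qL411 : ckS 72 411 1057 (nuT 411) 11 (cert 411 CL411) (cert 412 CL412)
    (cert 413 CL413) = true := by decide +kernel

theorem qL412 : ckS 72 412 1060 (nuT 412) 11 (cert 412 CL412) (cert 413 CL413)
    (cert 414 CL414) = true := by decide +kernel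

theorem qL413 : ckS 72 413 1062 (nuT 413) 11 (cert 413 CL413) (cert 414 CL414)
    (cert 415 CL415) = true := by decide +kernel

theorem qL414 : ckS 72 414 1065 (nuT 414) 11 (cert 414 CL414) (cert 415 CL415)
    (cert 416 CL416) = true := by decide +kernel

theorem qL415 : ckS 72 415 1067 (nuT 415) 11 (cert 415 CL415) (cert 416 CL416)
    (cert 417 CL417) = true := by decide +kernel

theorem qL416 : ckS 72 416 1070 (nuT 416) 11 (cert 416 CL416) (cert 417 CL417)
    (cert 418 CL418) = true := by decide +kernel

theorem qL417 : ckS 72 417 1072 (nuT 417) 11 (cert 417 CL417) (cert 418 CL418)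
    (cert 419 CL419) = true := by decide +kernel

theorem qL418 : ckS 72 418 1075 (nuT 418) 11 (cert 418 CL418) (cert 419 CL419)
    (cert 420 CL420) = true := by decide +kernel

theorem qL419 : ckS 72 419 1077 (nuT 419) 11 (cert 419 CL419) (cert 420 CL420)
    (cert 421 CL421) = true := by decide +kernel

end Pool.Agent.MP_9da1e3_co
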