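import Pool.Agent.Lib.MP_9da1e3_co.KcE420
import Pool.Agent.Lib.MP_9da1e3_co.KcE430

set_option maxRecDepth 100000

namespace Pool.Agent.MP_9da1e3_co

theorem qL420 : ckS 72 420 1080 (nuT 420) 11 (cert 420 CL420) (cert 421 CL421)
    (cert 422 CL422) = true := by decide +kernel

theorem qL421 : ckS 72 421 1082 (nuT 421) 11 (cert 421 CL421) (cert 422 CL422)
    (cert 423 CL423) = true := by decide +kernel

theorem qL422 : ckS 72 422 1085 (nuT 422) 11 (cert 422 CL422) (cert 423 CL423)
    (cert 424 CL424) = true := by decide +kernel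

theorem qL423 : ckS 72 423 1087 (nuT 423) 11 (cert 423 CL423) (cert 424 CL424)
    (cert 425 CL425) = true := by decide +kernel

theorem qL424 : ckS 72 424 1090 (nuT 424) 11 (cert 424 CL424) (cert 425 CL425)
    (cert 426 CL426) = true := by decide +kernel

theorem qL425 : ckS 72 425 1092 (nuT 425) 11 (cert 425 CL425) (cert 426 CL426)
    (cert 427 CL427) = true := by decide +kernel

theorem qL426 : ckS 72 426 1095 (nuT 426) 11 (cert 426 CL426) (cert 427 CL427)
    (cert 428 CL428) = true := by decide +kernel

theorem qL427 : ckS 72 427 1097 (nuT 427) 11 (cert 427 CL427) (cert 428 CL428)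
    (cert 429 CL429) = true := by decide +kernel

theorem qL428 : ckS 72 428 1100 (nuT 428) 11 (cert 428 CL428) (cert 429 CL429)
    (cert 430 CL430) = true := by decide +kernel

theorem qL429 : ckS 72 429 1102 (nuT 429) 11 (cert 429 CL429) (cert 430 CL430)
    (cert 431 CL431) = true := by decide +kernel

end Pool.Agent.MP_9da1e3_co
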