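import Pool.Agent.Lib.MP_9da1e3_co.KcE430
import Pool.Agent.Lib.MP_9da1e3_co.KcE440

set_option maxRecDepth 100000

namespace Pool.Agent.MP_9da1e3_co

theorem qL430 : ckS 72 430 1105 (nuT 430) 11 (cert 430 CL430) (cert 431 CL431)
    (cert 432 CL432) = true := by decide +kernel

theorem qL431 : ckS 72 431 1107 (nuT 431) 11 (cert 431 CL431) (cert 432 CL432)
    (cert 433 CL433) = true := by decide +kernel

theorem qL432 : ckS 72 432 1110 (nuT 432) 11 (cert 432 CL432) (cert 433 CL433)
    (cert 434 CL434) = true := by decide +kernel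

theorem qL433 : ckS 72 433 1112 (nuT 433) 11 (cert 433 CL433) (cert 434 CL434)
    (cert 435 CL435) = true := by decide +kernel

theorem qL434 : ckS 72 434 1115 (nuT 434) 11 (cert 434 CL434) (cert 435 CL435)
    (cert 436 CL436) = true := by decide +kernel

theorem qL435 : ckS 72 435 1117 (nuT 435) 11 (cert 435 CL435) (cert 436 CL436)
    (cert 437 CL437) = true := by decide +kernel

theorem qL436 : ckS 72 436 1120 (nuT 436) 11 (cert 436 CL436) (cert 437 CL437)
    (cert 438 CL438) = true := by decide +kernel

theorem qL437 : ckS 72 437 1122 (nuT 437) 11 (cert 437 CL437) (cert 438 CL438)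
    (cert 439 CL439) = true := by decide +kernel

theorem qL438 : ckS 72 438 1125 (nuT 438) 11 (cert 438 CL438) (cert 439 CL439)
    (cert 440 CL440) = true := by decide +kernel

theorem qL439 : ckS 72 439 1127 (nuT 439) 11 (cert 439 CL439) (cert 440 CL440)
    (cert 441 CL441) = true := by decide +kernel

end Pool.Agent.MP_9da1e3_co
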