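import Pool.Agent.Lib.MP_9da1e3_co.KcE440
import Pool.Agent.Lib.MP_9da1e3_co.KcE450

set_option maxRecDepth 100000

namespace Pool.Agent.MP_9da1e3_co

theorem qL440 : ckS 72 440 1130 (nuT 440) 11 (cert 440 CL440) (cert 441 CL441)
    (cert 442 CL442) = true := by decide +kernel

theorem qL441 : ckS 72 441 1132 (nuT 441) 11 (cert 441 CL441) (cert 442 CL442)
    (cert 443 CL443) = true := by decide +kernel

theorem qL442 : ckS 72 442 1135 (nuT 442) 11 (cert 442 CL442) (cert 443 CL443)
    (cert 444 CL444) = true := by decide +kernel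

theorem qL443 : ckS 72 443 1137 (nuT 443) 11 (cert 443 CL443) (cert 444 CL444)
    (cert 445 CL445) = true := by decide +kernel

theorem qL444 : ckS 72 444 1140 (nuT 444) 11 (cert 444 CL444) (cert 445 CL445)
    (cert 446 CL446) = true := by decide +kernel

theorem qL445 : ckS 72 445 1142 (nuT 445) 11 (cert 445 CL445) (cert 446 CL446)
    (cert 447 CL447) = true := by decide +kernel

theorem qL446 : ckS 72 446 1145 (nuT 446) 11 (cert 446 CL446) (cert 447 CL447)
    (cert 448 CL448) = true := by decide +kernel

theorem qL447 : ckS 72 447 1147 (nuT 447) 11 (cert 447 CL447) (cert 448 CL448)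
    (cert 449 CL449) = true := by decide +kernel

theorem qL448 : ckS 72 448 1150 (nuT 448) 11 (cert 448 CL448) (cert 449 CL449)
    (cert 450 CL450) = true := by decide +kernel

theorem qL449 : ckS 72 449 1152 (nuT 449) 11 (cert 449 CL449) (cert 450 CL450)
    (cert 451 CL451) = true := by decide +kernel

end Pool.Agent.MP_9da1e3_co
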