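import Pool.Agent.Lib.MP_9da1e3_co.KcE450
import Pool.Agent.Lib.MP_9da1e3_co.KcE460

set_option maxRecDepth 100000

namespace Pool.Agent.MP_9da1e3_co

theorem qL450 : ckS 72 450 1155 (nuT 450) 11 (cert 450 CL450) (cert 451 CL451)
    (cert 452 CL452) = true := by decide +kernel

theorem qL451 : ckS 72 451 1157 (nuT 451) 11 (cert 451 CL451) (cert 452 CL452)
    (cert 453 CL453) = true := by decide +kernel

theorem qL452 : ckS 72 452 1160 (nuT 452) 11 (cert 452 CL452) (cert 453 CL453)
    (cert 454 CL454) = true := by decide +kernel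

theorem qL453 : ckS 72 453 1162 (nuT 453) 11 (cert 453 CL453) (cert 454 CL454)
    (cert 455 CL455) = true := by decide +kernel

theorem qL454 : ckS 72 454 1165 (nuT 454) 11 (cert 454 CL454) (cert 455 CL455)
    (cert 456 CL456) = true := by decide +kernel

theorem qL455 : ckS 72 455 1167 (nuT 455) 11 (cert 455 CL455) (cert 456 CL456)
    (cert 457 CL457) = true := by decide +kernel

theorem qL456 : ckS 72 456 1170 (nuT 456) 11 (cert 456 CL456) (cert 457 CL457)
    (cert 458 CL458) = true := by decide +kernel

theorem qL457 : ckS 72 457 1172 (nuT 457) 11 (cert 457 CL457) (cert 458 CL458)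
    (cert 459 CL459) = true := by decide +kernel

theorem qL458 : ckS 72 458 1175 (nuT 458) 11 (cert 458 CL458) (cert 459 CL459)
    (cert 460 CL460) = true := by decide +kernel

theorem qL459 : ckS 72 459 1177 (nuT 459) 11 (cert 459 CL459) (cert 460 CL460)
    (cert 461 CL461) = true := by decide +kernel

end Pool.Agent.MP_9da1e3_co
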