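import Pool.Agent.Lib.MP_9da1e3_co.KcE460
import Pool.Agent.Lib.MP_9da1e3_co.KcE470

set_option maxRecDepth 100000

namespace Pool.Agent.MP_9da1e3_co

theorem qL460 : ckS 72 460 1180 (nuT 460) 11 (cert 460 CL460) (cert 461 CL461)
    (cert 462 CL462) = true := by decide +kernel

theorem qL461 : ckS 72 461 1182 (nuT 461) 11 (cert 461 CL461) (cert 462 CL462)
    (cert 463 CL463) = true := by decide +kernel

theorem qL462 : ckS 72 462 1185 (nuT 462) 11 (cert 462 CL462) (cert 463 CL463)
    (cert 464 CL464) = true := by decide +kernel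

theorem qL463 : ckS 72 463 1187 (nuT 463) 11 (cert 463 CL463) (cert 464 CL464)
    (cert 465 CL465) = true := by decide +kernel

theorem qL464 : ckS 72 464 1190 (nuT 464) 11 (cert 464 CL464) (cert 465 CL465)
    (cert 466 CL466) = true := by decide +kernel

theorem qL465 : ckS 72 465 1192 (nuT 465) 11 (cert 465 CL465) (cert 466 CL466)
    (cert 467 CL467) = true := by decide +kernel

theorem qL466 : ckS 72 466 1195 (nuT 466) 11 (cert 466 CL466) (cert 467 CL467)
    (cert 468 CL468) = true := by decide +kernel

theorem qL467 : ckS 72 467 1197 (nuT 467) 11 (cert 467 CL467) (cert 468 CL468)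
    (cert 469 CL469) = true := by decide +kernel

theorem qL468 : ckS 72 468 1200 (nuT 468) 11 (cert 468 CL468) (cert 469 CL469)
    (cert 470 CL470) = true := by decide +kernel

theorem qL469 : ckS 72 469 1202 (nuT 469) 11 (cert 469 CL469) (cert 470 CL470)
    (cert 471 CL471) = true := by decide +kernel

end Pool.Agent.MP_9da1e3_co
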