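import Pool.Agent.Lib.MP_9da1e3_co.KcE470
import Pool.Agent.Lib.MP_9da1e3_co.KcE480

set_option maxRecDepth 100000

namespace Pool.Agent.MP_9da1e3_co

theorem qL470 : ckS 72 470 1205 (nuT 470) 11 (cert 470 CL470) (cert 471 CL471)
    (cert 472 CL472) = true := by decide +kernel

theorem qL471 : ckS 72 471 1207 (nuT 471) 11 (cert 471 CL471) (cert 472 CL472)
    (cert 473 CL473) = true := by decide +kernel

theorem qL472 : ckS 72 472 1210 (nuT 472) 11 (cert 472 CL472) (cert 473 CL473)
    (cert 474 CL474) = true := by decide +kernel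

theorem qL473 : ckS 72 473 1212 (nuT 473) 11 (cert 473 CL473) (cert 474 CL474)
    (cert 475 CL475) = true := by decide +kernel

theorem qL474 : ckS 72 474 1215 (nuT 474) 11 (cert 474 CL474) (cert 475 CL475)
    (cert 476 CL476) = true := by decide +kernel

theorem qL475 : ckS 72 475 1217 (nuT 475) 11 (cert 475 CL475) (cert 476 CL476)
    (cert 477 CL477) = true := by decide +kernel

theorem qL476 : ckS 72 476 1220 (nuT 476) 11 (cert 476 CL476) (cert 477 CL477)
    (cert 478 CL478) = true := by decide +kernel

theorem qL477 : ckS 72 477 1222 (nuT 477) 11 (cert 477 CL477) (cert 478 CL478)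
    (cert 479 CL479) = true := by decide +kernel

theorem qL478 : ckS 72 478 1225 (nuT 478) 11 (cert 478 CL478) (cert 479 CL479)
    (cert 480 CL480) = true := by decide +kernel

theorem qL479 : ckS 72 479 1227 (nuT 479) 11 (cert 479 CL479) (cert 480 CL480)
    (cert 481 CL481) = true := by decide +kernel

end Pool.Agent.MP_9da1e3_co
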