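import Pool.Agent.Lib.MP_9da1e3_co.KcE480
import Pool.Agent.Lib.MP_9da1e3_co.KcE490

set_option maxRecDepth 100000

namespace Pool.Agent.MP_9da1e3_co

theorem qL480 : ckS 72 480 1230 (nuT 480) 11 (cert 480 CL480) (cert 481 CL481)
    (cert 482 CL482) = true := by decide +kernel

theorem qL481 : ckS 72 481 1232 (nuT 481) 11 (cert 481 CL481) (cert 482 CL482)
    (cert 483 CL483) = true := by decide +kernel

theorem qL482 : ckS 72 482 1235 (nuT 482) 11 (cert 482 CL482) (cert 483 CL483)
    (cert 484 CL484) = true := by decide +kernel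

theorem qL483 : ckS 72 483 1237 (nuT 483) 11 (cert 483 CL483) (cert 484 CL484)
    (cert 485 CL485) = true := by decide +kernel

theorem qL484 : ckS 72 484 1240 (nuT 484) 11 (cert 484 CL484) (cert 485 CL485)
    (cert 486 CL486) = true := by decide +kernel

theorem qL485 : ckS 72 485 1242 (nuT 485) 11 (cert 485 CL485) (cert 486 CL486)
    (cert 487 CL487) = true := by decide +kernel

theorem qL486 : ckS 72 486 1245 (nuT 486) 11 (cert 486 CL486) (cert 487 CL487)
    (cert 488 CL488) = true := by decide +kernel

theorem qL487 : ckS 72 487 1247 (nuT 487) 11 (cert 487 CL487) (cert 488 CL488)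
    (cert 489 CL489) = true := by decide +kernel

theorem qL488 : ckS 72 488 1250 (nuT 488) 11 (cert 488 CL488) (cert 489 CL489)
    (cert 490 CL490) = true := by decide +kernel

theorem qL489 : ckS 72 489 1252 (nuT 489) 11 (cert 489 CL489) (cert 490 CL490)
    (cert 491 CL491) = true := by decide +kernel

end Pool.Agent.MP_9da1e3_co
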