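import Pool.Agent.Lib.MP_9da1e3_co.KcE490
import Pool.Agent.Lib.MP_9da1e3_co.KcE500

set_option maxRecDepth 100000

namespace Pool.Agent.MP_9da1e3_co

theorem qL490 : ckS 72 490 1255 (nuT 490) 11 (cert 490 CL490) (cert 491 CL491)
    (cert 492 CL492) = true := by decide +kernel

theorem qL491 : ckS 72 491 1257 (nuT 491) 11 (cert 491 CL491) (cert 492 CL492)
    (cert 493 CL493) = true := by decide +kernel

theorem qL492 : ckS 72 492 1260 (nuT 492) 11 (cert 492 CL492) (cert 493 CL493)
    (cert 494 CL494) = true := by decide +kernel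

theorem qL493 : ckS 72 493 1262 (nuT 493) 11 (cert 493 CL493) (cert 494 CL494)
    (cert 495 CL495) = true := by decide +kernel

theorem qL494 : ckS 72 494 1265 (nuT 494) 11 (cert 494 CL494) (cert 495 CL495)
    (cert 496 CL496) = true := by decide +kernel

theorem qL495 : ckS 72 495 1267 (nuT 495) 11 (cert 495 CL495) (cert 496 CL496)
    (cert 497 CL497) = true := by decide +kernel

theorem qL496 : ckS 72 496 1270 (nuT 496) 11 (cert 496 CL496) (cert 497 CL497)
    (cert 498 CL498) = true := by decide +kernel

theorem qL497 : ckS 72 497 1272 (nuT 497) 11 (cert 497 CL497) (cert 498 CL498)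
    (cert 499 CL499) = true := by decide +kernel

theorem qL498 : ckS 72 498 1275 (nuT 498) 11 (cert 498 CL498) (cert 499 CL499)
    (cert 500 CL500) = true := by decide +kernel

theorem qL499 : ckS 72 499 1277 (nuT 499) 11 (cert 499 CL499) (cert 500 CL500)
    (cert 501 CL501) = true := by decide +kernel

end Pool.Agent.MP_9da1e3_co
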