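import Pool.Agent.Lib.MP_9da1e3_co.Kc4
import Pool.Agent.Lib.MP_9da1e3_co.KcS400
import Pool.Agent.Lib.MP_9da1e3_co.KcS410
import Pool.Agent.Lib.MP_9da1e3_co.KcS420
import Pool.Agent.Lib.MP_9da1e3_co.KcS430
import Pool.Agent.Lib.MP_9da1e3_co.KcS440
import Pool.Agent.Lib.MP_9da1e3_co.KcS450
import Pool.Agent.Lib.MP_9da1e3_co.KcS460
import Pool.Agent.Lib.MP_9da1e3_co.KcS470
import Pool.Agent.Lib.MP_9da1e3_co.KcS480
import Pool.Agent.Lib.MP_9da1e3_co.KcS490

namespace Pool.Agent.MP_9da1e3_co

theorem sL400 : SignP 400 (NNk 400) (nuT 400) :=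
  sgnL (by decide) eL400 eL401 eL402 qL400

theorem sL401 : SignP 401 (NNk 401) (nuT 401) :=
  sgnL (by decide) eL401 eL402 eL403 qL401

theorem sL402 : SignP 402 (NNk 402) (nuT 402) :=
  sgnL (by decide) eL402 eL403 eL404 qL402

theorem sL403 : SignP 403 (NNk 403) (nuT 403) :=
  sgnL (by decide) eL403 eL404 eL405 qL403

theorem sL404 : SignP 404 (NNk 404) (nuT 404) :=
  sgnL (by decide) eL404 eL405 eL406 qL404

theorem sL405 : SignP 405 (NNk 405) (nuT 405) :=
  sgnL (by decide) eL405 eL406 eL407 qL405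

theorem sL406 : SignP 406 (NNk 406) (nuT 406) :=
  sgnL (by decide) eL406 eL407 eL408 qL406

theorem sL407 : SignP 407 (NNk 407) (nuT 407) :=
  sgnL (by decide) eL407 eL408 eL409 qL407

theorem sL408 : SignP 408 (NNk 408) (nuT 408) :=
  sgnL (by decide) eL408 eL409 eL410 qL408

theorem sL409 : SignP 409 (NNk 409) (nuT 409) :=
  sgnL (by decide) eL409 eL410 eL411 qL409

theorem sL410 : SignP 410 (NNk 410) (nuT 410) :=
  sgnL (by decide) eL410 eL411 eL412 qL410

theorem sL411 : SignP 411 (NNk 411) (nuT 411) :=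
  sgnL (by decide) eL411 eL412 eL413 qL411

theorem sL412 : SignP 412 (NNk 412) (nuT 412) :=
  sgnL (by decide) eL412 eL413 eL414 qL412

theorem sL413 : SignP 413 (NNk 413) (nuT 413) :=
  sgnL (by decide) eL413 eL414 eL415 qL413

theorem sL414 : SignP 414 (NNk 414) (nuT 414) :=
  sgnL (by decide) eL414 eL415 eL416 qL414

theorem sL415 : SignP 415 (NNk 415) (nuT 415) :=
  sgnL (by decide) eL415 eL416 eL417 qL415

theorem sL416 : SignP 416 (NNk 416) (nuT 416) :=
  sgnL (by decide) eL416 eL417 eL418 qL416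

theorem sL417 : SignP 417 (NNk 417) (nuT 417) :=
  sgnL (by decide) eL417 eL418 eL419 qL417

theorem sL418 : SignP 418 (NNk 418) (nuT 418) :=
  sgnL (by decide) eL418 eL419 eL420 qL418

theorem sL419 : SignP 419 (NNk 419) (nuT 419) :=
  sgnL (by decide) eL419 eL420 eL421 qL419

theorem sL420 : SignP 420 (NNk 420) (nuT 420) :=
  sgnL (by decide) eL420 eL421 eL422 qL420

theorem sL421 : SignP 421 (NNk 421) (nuT 421) :=
  sgnL (by decide) eL421 eL422 eL423 qL421

theorem sL422 : SignP 422 (NNk 422) (nuT 422) :=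
  sgnL (by decide) eL422 eL423 eL424 qL422

theorem sL423 : SignP 423 (NNk 423) (nuT 423) :=
  sgnL (by decide) eL423 eL424 eL425 qL423

theorem sL424 : SignP 424 (NNk 424) (nuT 424) :=
  sgnL (by decide) eL424 eL425 eL426 qL424

theorem sL425 : SignP 425 (NNk 425) (nuT 425) :=
  sgnL (by decide) eL425 eL426 eL427 qL425

theorem sL426 : SignP 426 (NNk 426) (nuT 426) :=
  sgnL (by decide) eL426 eL427 eL428 qL426

theorem sL427 : SignP 427 (NNk 427) (nuT 427) :=
  sgnL (by decide) eL427 eL428 eL429 qL427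

theorem sL428 : SignP 428 (NNk 428) (nuT 428) :=
  sgnL (by decide) eL428 eL429 eL430 qL428

theorem sL429 : SignP 429 (NNk 429) (nuT 429) :=
  sgnL (by decide) eL429 eL430 eL431 qL429

theorem sL430 : SignP 430 (NNk 430) (nuT 430) :=
  sgnL (by decide) eL430 eL431 eL432 qL430

theorem sL431 : SignP 431 (NNk 431) (nuT 431) :=
  sgnL (by decide) eL431 eL432 eL433 qL431

theorem sL432 : SignP 432 (NNk 432) (nuT 432) :=
  sgnL (by decide) eL432 eL433 eL434 qL432

theorem sL433 : SignP 433 (NNk 433) (nuT 433) :=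
  sgnL (by decide) eL433 eL434 eL435 qL433

theorem sL434 : SignP 434 (NNk 434) (nuT 434) :=
  sgnL (by decide) eL434 eL435 eL436 qL434

theorem sL435 : SignP 435 (NNk 435) (nuT 435) :=
  sgnL (by decide) eL435 eL436 eL437 qL435

theorem sL436 : SignP 436 (NNk 436) (nuT 436) :=
  sgnL (by decide) eL436 eL437 eL438 qL436

theorem sL437 : SignP 437 (NNk 437) (nuT 437) :=
  sgnL (by decide) eL437 eL438 eL439 qL437

theorem sL438 : SignP 438 (NNk 438) (nuT 438) :=
  sgnL (by decide) eL438 eL439 eL440 qL438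

theorem sL439 : SignP 439 (NNk 439) (nuT 439) :=
  sgnL (by decide) eL439 eL440 eL441 qL439

theorem sL440 : SignP 440 (NNk 440) (nuT 440) :=
  sgnL (by decide) eL440 eL441 eL442 qL440

theorem sL441 : SignP 441 (NNk 441) (nuT 441) :=
  sgnL (by decide) eL441 eL442 eL443 qL441

theorem sL442 : SignP 442 (NNk 442) (nuT 442) :=
  sgnL (by decide) eL442 eL443 eL444 qL442

theorem sL443 : SignP 443 (NNk 443) (nuT 443) :=
  sgnL (by decide) eL443 eL444 eL445 qL443

theorem sL444 : SignP 444 (NNk 444) (nuT 444) :=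
  sgnL (by decide) eL444 eL445 eL446 qL444

theorem sL445 : SignP 445 (NNk 445) (nuT 445) :=
  sgnL (by decide) eL445 eL446 eL447 qL445

theorem sL446 : SignP 446 (NNk 446) (nuT 446) :=
  sgnL (by decide) eL446 eL447 eL448 qL446

theorem sL447 : SignP 447 (NNk 447) (nuT 447) :=
  sgnL (by decide) eL447 eL448 eL449 qL447

theorem sL448 : SignP 448 (NNk 448) (nuT 448) :=
  sgnL (by decide) eL448 eL449 eL450 qL448

theorem sL449 : SignP 449 (NNk 449) (nuT 449) :=
  sgnL (by decide) eL449 eL450 eL451 qL449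

theorem sL450 : SignP 450 (NNk 450) (nuT 450) :=
  sgnL (by decide) eL450 eL451 eL452 qL450

theorem sL451 : SignP 451 (NNk 451) (nuT 451) :=
  sgnL (by decide) eL451 eL452 eL453 qL451

theorem sL452 : SignP 452 (NNk 452) (nuT 452) :=
  sgnL (by decide) eL452 eL453 eL454 qL452

theorem sL453 : SignP 453 (NNk 453) (nuT 453) :=
  sgnL (by decide) eL453 eL454 eL455 qL453

theorem sL454 : SignP 454 (NNk 454) (nuT 454) :=
  sgnL (by decide) eL454 eL455 eL456 qL454

theorem sL455 : SignP 455 (NNk 455) (nuT 455) :=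
  sgnL (by decide) eL455 eL456 eL457 qL455

theorem sL456 : SignP 456 (NNk 456) (nuT 456) :=
  sgnL (by decide) eL456 eL457 eL458 qL456

theorem sL457 : SignP 457 (NNk 457) (nuT 457) :=
  sgnL (by decide) eL457 eL458 eL459 qL457

theorem sL458 : SignP 458 (NNk 458) (nuT 458) :=
  sgnL (by decide) eL458 eL459 eL460 qL458

theorem sL459 : SignP 459 (NNk 459) (nuT 459) :=
  sgnL (by decide) eL459 eL460 eL461 qL459

theorem sL460 : SignP 460 (NNk 460) (nuT 460) :=
  sgnL (by decide) eL460 eL461 eL462 qL460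

theorem sL461 : SignP 461 (NNk 461) (nuT 461) :=
  sgnL (by decide) eL461 eL462 eL463 qL461

theorem sL462 : SignP 462 (NNk 462) (nuT 462) :=
  sgnL (by decide) eL462 eL463 eL464 qL462

theorem sL463 : SignP 463 (NNk 463) (nuT 463) :=
  sgnL (by decide) eL463 eL464 eL465 qL463

theorem sL464 : SignP 464 (NNk 464) (nuT 464) :=
  sgnL (by decide) eL464 eL465 eL466 qL464

theorem sL465 : SignP 465 (NNk 465) (nuT 465) :=
  sgnL (by decide) eL465 eL466 eL467 qL465

theorem sL466 : SignP 466 (NNk 466) (nuT 466) :=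
  sgnL (by decide) eL466 eL467 eL468 qL466

theorem sL467 : SignP 467 (NNk 467) (nuT 467) :=
  sgnL (by decide) eL467 eL468 eL469 qL467

theorem sL468 : SignP 468 (NNk 468) (nuT 468) :=
  sgnL (by decide) eL468 eL469 eL470 qL468

theorem sL469 : SignP 469 (NNk 469) (nuT 469) :=
  sgnL (by decide) eL469 eL470 eL471 qL469

theorem sL470 : SignP 470 (NNk 470) (nuT 470) :=
  sgnL (by decide) eL470 eL471 eL472 qL470

theorem sL471 : SignP 471 (NNk 471) (nuT 471) :=
  sgnL (by decide) eL471 eL472 eL473 qL471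

theorem sL472 : SignP 472 (NNk 472) (nuT 472) :=
  sgnL (by decide) eL472 eL473 eL474 qL472

theorem sL473 : SignP 473 (NNk 473) (nuT 473) :=
  sgnL (by decide) eL473 eL474 eL475 qL473

theorem sL474 : SignP 474 (NNk 474) (nuT 474) :=
  sgnL (by decide) eL474 eL475 eL476 qL474

theorem sL475 : SignP 475 (NNk 475) (nuT 475) :=
  sgnL (by decide) eL475 eL476 eL477 qL475

theorem sL476 : SignP 476 (NNk 476) (nuT 476) :=
  sgnL (by decide) eL476 eL477 eL478 qL476

theorem sL477 : SignP 477 (NNk 477) (nuT 477) :=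
  sgnL (by decide) eL477 eL478 eL479 qL477

theorem sL478 : SignP 478 (NNk 478) (nuT 478) :=
  sgnL (by decide) eL478 eL479 eL480 qL478

theorem sL479 : SignP 479 (NNk 479) (nuT 479) :=
  sgnL (by decide) eL479 eL480 eL481 qL479

theorem sL480 : SignP 480 (NNk 480) (nuT 480) :=
  sgnL (by decide) eL480 eL481 eL482 qL480

theorem sL481 : SignP 481 (NNk 481) (nuT 481) :=
  sgnL (by decide) eL481 eL482 eL483 qL481

theorem sL482 : SignP 482 (NNk 482) (nuT 482) :=
  sgnL (by decide) eL482 eL483 eL484 qL482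

theorem sL483 : SignP 483 (NNk 483) (nuT 483) :=
  sgnL (by decide) eL483 eL484 eL485 qL483

theorem sL484 : SignP 484 (NNk 484) (nuT 484) :=
  sgnL (by decide) eL484 eL485 eL486 qL484

theorem sL485 : SignP 485 (NNk 485) (nuT 485) :=
  sgnL (by decide) eL485 eL486 eL487 qL485

theorem sL486 : SignP 486 (NNk 486) (nuT 486) :=
  sgnL (by decide) eL486 eL487 eL488 qL486

theorem sL487 : SignP 487 (NNk 487) (nuT 487) :=
  sgnL (by decide) eL487 eL488 eL489 qL487

theorem sL488 : SignP 488 (NNk 488) (nuT 488) :=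
  sgnL (by decide) eL488 eL489 eL490 qL488

theorem sL489 : SignP 489 (NNk 489) (nuT 489) :=
  sgnL (by decide) eL489 eL490 eL491 qL489

theorem sL490 : SignP 490 (NNk 490) (nuT 490) :=
  sgnL (by decide) eL490 eL491 eL492 qL490

theorem sL491 : SignP 491 (NNk 491) (nuT 491) :=
  sgnL (by decide) eL491 eL492 eL493 qL491

theorem sL492 : SignP 492 (NNk 492) (nuT 492) :=
  sgnL (by decide) eL492 eL493 eL494 qL492

theorem sL493 : SignP 493 (NNk 493) (nuT 493) :=
  sgnL (by decide) eL493 eL494 eL495 qL493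

theorem sL494 : SignP 494 (NNk 494) (nuT 494) :=
  sgnL (by decide) eL494 eL495 eL496 qL494

theorem sL495 : SignP 495 (NNk 495) (nuT 495) :=
  sgnL (by decide) eL495 eL496 eL497 qL495

theorem sL496 : SignP 496 (NNk 496) (nuT 496) :=
  sgnL (by decide) eL496 eL497 eL498 qL496

theorem sL497 : SignP 497 (NNk 497) (nuT 497) :=
  sgnL (by decide) eL497 eL498 eL499 qL497

theorem sL498 : SignP 498 (NNk 498) (nuT 498) :=
  sgnL (by decide) eL498 eL499 eL500 qL498

theorem sL499 : SignP 499 (NNk 499) (nuT 499) :=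
  sgnL (by decide) eL499 eL500 eL501 qL499

theorem sB400 : ∀ L, 400 ≤ L → L < 410 → SignP L (NNk L) (nuT L) := by
  intro L h1 h2
  interval_cases L
  · exact sL400
  · exact sL401
  · exact sL402
  · exact sL403
  · exact sL404
  · exact sL405
  · exact sL406
  · exact sL407
  · exact sL408
  · exact sL409

theorem sB410 : ∀ L, 410 ≤ L → L < 420 → SignP L (NNk L) (nuT L) := by
  intro L h1 h2
  interval_cases L
  · exact sL410
  · exact sL411
  · exact sL412
  · exact sL413
  · exact sL414
  · exact sL415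
  · exact sL416
  · exact sL417
  · exact sL418
  · exact sL419

theorem sB420 : ∀ L, 420 ≤ L → L < 430 → SignP L (NNk L) (nuT L) := by
  intro L h1 h2
  interval_cases L
  · exact sL420
  · exact sL421
  · exact sL422
  · exact sL423
  · exact sL424
  · exact sL425
  · exact sL426
  · exact sL427
  · exact sL428
  · exact sL429

theorem sB430 : ∀ L, 430 ≤ L → L < 440 → SignP L (NNk L) (nuT L) := by
  intro L h1 h2
  interval_cases L
  · exact sL430
  · exact sL431
  · exact sL432
  · exact sL433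
  · exact sL434
  · exact sL435
  · exact sL436
  · exact sL437
  · exact sL438
  · exact sL439

theorem sB440 : ∀ L, 440 ≤ L → L < 450 → SignP L (NNk L) (nuT L) := by
  intro L h1 h2
  interval_cases L
  · exact sL440
  · exact sL441
  · exact sL442
  · exact sL443
  · exact sL444
  · exact sL445
  · exact sL446
  · exact sL447
  · exact sL448
  · exact sL449

theorem sB450 : ∀ L, 450 ≤ L → L < 460 → SignP L (NNk L) (nuT L) := by
  intro L h1 h2
  interval_cases L
  · exact sL450
  · exact sL451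
  · exact sL452
  · exact sL453
  · exact sL454
  · exact sL455
  · exact sL456
  · exact sL457
  · exact sL458
  · exact sL459

theorem sB460 : ∀ L, 460 ≤ L → L < 470 → SignP L (NNk L) (nuT L) := by
  intro L h1 h2
  interval_cases L
  · exact sL460
  · exact sL461
  · exact sL462
  · exact sL463
  · exact sL464
  · exact sL465
  · exact sL466
  · exact sL467
  · exact sL468
  · exact sL469

theorem sB470 : ∀ L, 470 ≤ L → L < 480 → SignP L (NNk L) (nuT L) := by
  intro L h1 h2
  interval_cases L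
  · exact sL470
  · exact sL471
  · exact sL472
  · exact sL473
  · exact sL474
  · exact sL475
  · exact sL476
  · exact sL477
  · exact sL478
  · exact sL479

theorem sB480 : ∀ L, 480 ≤ L → L < 490 → SignP L (NNk L) (nuT L) := by
  intro L h1 h2
  interval_cases L
  · exact sL480
  · exact sL481
  · exact sL482
  · exact sL483
  · exact sL484
  · exact sL485
  · exact sL486
  · exact sL487
  · exact sL488
  · exact sL489

theorem sB490 : ∀ L, 490 ≤ L → L < 500 → SignP L (NNk L) (nuT L) := by
  intro L h1 h2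
  interval_cases L
  · exact sL490
  · exact sL491
  · exact sL492
  · exact sL493
  · exact sL494
  · exact sL495
  · exact sL496
  · exact sL497
  · exact sL498
  · exact sL499

theorem sG400 : ∀ L, 400 ≤ L → L < 500 → SignP L (NNk L) (nuT L) := by
  intro L h1 h2
  by_cases h400 : L < 410
  · exact sB400 L (by omega) h400
  by_cases h410 : L < 420
  · exact sB410 L (by omega) h410
  by_cases h420 : L < 430
  · exact sB420 L (by omega) h420
  by_cases h430 : L < 440
  · exact sB430 L (by omega) h430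
  by_cases h440 : L < 450
  · exact sB440 L (by omega) h440
  by_cases h450 : L < 460
  · exact sB450 L (by omega) h450
  by_cases h460 : L < 470
  · exact sB460 L (by omega) h460
  by_cases h470 : L < 480
  · exact sB470 L (by omega) h470
  by_cases h480 : L < 490
  · exact sB480 L (by omega) h480
  by_cases h490 : L < 500
  · exact sB490 L (by omega) h490
  omega

end Pool.Agent.MP_9da1e3_co
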