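import Pool.Agent.Lib.MP_9da1e3_co.KcE500
import Pool.Agent.Lib.MP_9da1e3_co.KcE510

set_option maxRecDepth 100000

namespace Pool.Agent.MP_9da1e3_co

theorem qL500 : ckS 72 500 1280 (nuT 500) 11 (cert 500 CL500) (cert 501 CL501)
    (cert 502 CL502) = true := by decide +kernel

theorem qL501 : ckS 72 501 1282 (nuT 501) 11 (cert 501 CL501) (cert 502 CL502)
    (cert 503 CL503) = true := by decide +kernel

theorem qL502 : ckS 72 502 1285 (nuT 502) 11 (cert 502 CL502) (cert 503 CL503)
    (cert 504 CL504) = true := by decide +kernel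

theorem qL503 : ckS 72 503 1287 (nuT 503) 11 (cert 503 CL503) (cert 504 CL504)
    (cert 505 CL505) = true := by decide +kernel

theorem qL504 : ckS 72 504 1290 (nuT 504) 11 (cert 504 CL504) (cert 505 CL505)
    (cert 506 CL506) = true := by decide +kernel

theorem qL505 : ckS 72 505 1292 (nuT 505) 11 (cert 505 CL505) (cert 506 CL506)
    (cert 507 CL507) = true := by decide +kernel

theorem qL506 : ckS 72 506 1295 (nuT 506) 11 (cert 506 CL506) (cert 507 CL507)
    (cert 508 CL508) = true := by decide +kernel

theorem qL507 : ckS 72 507 1297 (nuT 507) 11 (cert 507 CL507) (cert 508 CL508)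
    (cert 509 CL509) = true := by decide +kernel

theorem qL508 : ckS 72 508 1300 (nuT 508) 11 (cert 508 CL508) (cert 509 CL509)
    (cert 510 CL510) = true := by decide +kernel

theorem qL509 : ckS 72 509 1302 (nuT 509) 11 (cert 509 CL509) (cert 510 CL510)
    (cert 511 CL511) = true := by decide +kernel

end Pool.Agent.MP_9da1e3_co
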