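import Pool.Agent.Lib.MP_9da1e3_co.KcE510
import Pool.Agent.Lib.MP_9da1e3_co.KcE520

set_option maxRecDepth 100000

namespace Pool.Agent.MP_9da1e3_co

theorem qL510 : ckS 72 510 1305 (nuT 510) 11 (cert 510 CL510) (cert 511 CL511)
    (cert 512 CL512) = true := by decide +kernel

theorem qL511 : ckS 72 511 1307 (nuT 511) 11 (cert 511 CL511) (cert 512 CL512)
    (cert 513 CL513) = true := by decide +kernel

theorem qL512 : ckS 72 512 1310 (nuT 512) 11 (cert 512 CL512) (cert 513 CL513)
    (cert 514 CL514) = true := by decide +kernel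

theorem qL513 : ckS 72 513 1312 (nuT 513) 11 (cert 513 CL513) (cert 514 CL514)
    (cert 515 CL515) = true := by decide +kernel

theorem qL514 : ckS 72 514 1315 (nuT 514) 11 (cert 514 CL514) (cert 515 CL515)
    (cert 516 CL516) = true := by decide +kernel

theorem qL515 : ckS 72 515 1317 (nuT 515) 11 (cert 515 CL515) (cert 516 CL516)
    (cert 517 CL517) = true := by decide +kernel

theorem qL516 : ckS 72 516 1320 (nuT 516) 11 (cert 516 CL516) (cert 517 CL517)
    (cert 518 CL518) = true := by decide +kernel

theorem qL517 : ckS 72 517 1322 (nuT 517) 11 (cert 517 CL517) (cert 518 CL518)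
    (cert 519 CL519) = true := by decide +kernel

theorem qL518 : ckS 72 518 1325 (nuT 518) 11 (cert 518 CL518) (cert 519 CL519)
    (cert 520 CL520) = true := by decide +kernel

theorem qL519 : ckS 72 519 1327 (nuT 519) 11 (cert 519 CL519) (cert 520 CL520)
    (cert 521 CL521) = true := by decide +kernel

end Pool.Agent.MP_9da1e3_co
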