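import Pool.Agent.Lib.MP_9da1e3_co.KcE520
import Pool.Agent.Lib.MP_9da1e3_co.KcE530

set_option maxRecDepth 100000

namespace Pool.Agent.MP_9da1e3_co

theorem qL520 : ckS 72 520 1330 (nuT 520) 11 (cert 520 CL520) (cert 521 CL521)
    (cert 522 CL522) = true := by decide +kernel

theorem qL521 : ckS 72 521 1332 (nuT 521) 11 (cert 521 CL521) (cert 522 CL522)
    (cert 523 CL523) = true := by decide +kernel

theorem qL522 : ckS 72 522 1335 (nuT 522) 11 (cert 522 CL522) (cert 523 CL523)
    (cert 524 CL524) = true := by decide +kernel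

theorem qL523 : ckS 72 523 1337 (nuT 523) 11 (cert 523 CL523) (cert 524 CL524)
    (cert 525 CL525) = true := by decide +kernel

theorem qL524 : ckS 72 524 1340 (nuT 524) 11 (cert 524 CL524) (cert 525 CL525)
    (cert 526 CL526) = true := by decide +kernel

theorem qL525 : ckS 72 525 1342 (nuT 525) 11 (cert 525 CL525) (cert 526 CL526)
    (cert 527 CL527) = true := by decide +kernel

theorem qL526 : ckS 72 526 1345 (nuT 526) 11 (cert 526 CL526) (cert 527 CL527)
    (cert 528 CL528) = true := by decide +kernel

theorem qL527 : ckS 72 527 1347 (nuT 527) 11 (cert 527 CL527) (cert 528 CL528)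
    (cert 529 CL529) = true := by decide +kernel

theorem qL528 : ckS 72 528 1350 (nuT 528) 11 (cert 528 CL528) (cert 529 CL529)
    (cert 530 CL530) = true := by decide +kernel

theorem qL529 : ckS 72 529 1352 (nuT 529) 11 (cert 529 CL529) (cert 530 CL530)
    (cert 531 CL531) = true := by decide +kernel

end Pool.Agent.MP_9da1e3_co
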