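import Pool.Agent.Lib.MP_9da1e3_co.KcE530
import Pool.Agent.Lib.MP_9da1e3_co.KcE540

set_option maxRecDepth 100000

namespace Pool.Agent.MP_9da1e3_co

theorem qL530 : ckS 72 530 1355 (nuT 530) 11 (cert 530 CL530) (cert 531 CL531)
    (cert 532 CL532) = true := by decide +kernel

theorem qL531 : ckS 72 531 1357 (nuT 531) 11 (cert 531 CL531) (cert 532 CL532)
    (cert 533 CL533) = true := by decide +kernel

theorem qL532 : ckS 72 532 1360 (nuT 532) 11 (cert 532 CL532) (cert 533 CL533)
    (cert 534 CL534) = true := by decide +kernel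

theorem qL533 : ckS 72 533 1362 (nuT 533) 11 (cert 533 CL533) (cert 534 CL534)
    (cert 535 CL535) = true := by decide +kernel

theorem qL534 : ckS 72 534 1365 (nuT 534) 11 (cert 534 CL534) (cert 535 CL535)
    (cert 536 CL536) = true := by decide +kernel

theorem qL535 : ckS 72 535 1367 (nuT 535) 11 (cert 535 CL535) (cert 536 CL536)
    (cert 537 CL537) = true := by decide +kernel

theorem qL536 : ckS 72 536 1370 (nuT 536) 11 (cert 536 CL536) (cert 537 CL537)
    (cert 538 CL538) = true := by decide +kernel

theorem qL537 : ckS 72 537 1372 (nuT 537) 11 (cert 537 CL537) (cert 538 CL538)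
    (cert 539 CL539) = true := by decide +kernel

theorem qL538 : ckS 72 538 1375 (nuT 538) 11 (cert 538 CL538) (cert 539 CL539)
    (cert 540 CL540) = true := by decide +kernel

theorem qL539 : ckS 72 539 1377 (nuT 539) 11 (cert 539 CL539) (cert 540 CL540)
    (cert 541 CL541) = true := by decide +kernel

end Pool.Agent.MP_9da1e3_co
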