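import Pool.Agent.Lib.MP_9da1e3_co.KcE540
import Pool.Agent.Lib.MP_9da1e3_co.KcE550

set_option maxRecDepth 100000

namespace Pool.Agent.MP_9da1e3_co

theorem qL540 : ckS 72 540 1380 (nuT 540) 11 (cert 540 CL540) (cert 541 CL541)
    (cert 542 CL542) = true := by decide +kernel

theorem qL541 : ckS 72 541 1382 (nuT 541) 11 (cert 541 CL541) (cert 542 CL542)
    (cert 543 CL543) = true := by decide +kernel

theorem qL542 : ckS 72 542 1385 (nuT 542) 11 (cert 542 CL542) (cert 543 CL543)
    (cert 544 CL544) = true := by decide +kernel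

theorem qL543 : ckS 72 543 1387 (nuT 543) 11 (cert 543 CL543) (cert 544 CL544)
    (cert 545 CL545) = true := by decide +kernel

theorem qL544 : ckS 72 544 1390 (nuT 544) 11 (cert 544 CL544) (cert 545 CL545)
    (cert 546 CL546) = true := by decide +kernel

theorem qL545 : ckS 72 545 1392 (nuT 545) 11 (cert 545 CL545) (cert 546 CL546)
    (cert 547 CL547) = true := by decide +kernel

theorem qL546 : ckS 72 546 1395 (nuT 546) 11 (cert 546 CL546) (cert 547 CL547)
    (cert 548 CL548) = true := by decide +kernel

theorem qL547 : ckS 72 547 1397 (nuT 547) 11 (cert 547 CL547) (cert 548 CL548)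
    (cert 549 CL549) = true := by decide +kernel

theorem qL548 : ckS 72 548 1400 (nuT 548) 11 (cert 548 CL548) (cert 549 CL549)
    (cert 550 CL550) = true := by decide +kernel

theorem qL549 : ckS 72 549 1402 (nuT 549) 11 (cert 549 CL549) (cert 550 CL550)
    (cert 551 CL551) = true := by decide +kernel

end Pool.Agent.MP_9da1e3_co
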