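import Pool.Agent.Lib.MP_9da1e3_co.KcE550
import Pool.Agent.Lib.MP_9da1e3_co.KcE560

set_option maxRecDepth 100000

namespace Pool.Agent.MP_9da1e3_co

theorem qL550 : ckS 72 550 1405 (nuT 550) 11 (cert 550 CL550) (cert 551 CL551)
    (cert 552 CL552) = true := by decide +kernel

theorem qL551 : ckS 72 551 1407 (nuT 551) 11 (cert 551 CL551) (cert 552 CL552)
    (cert 553 CL553) = true := by decide +kernel

theorem qL552 : ckS 72 552 1410 (nuT 552) 11 (cert 552 CL552) (cert 553 CL553)
    (cert 554 CL554) = true := by decide +kernel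

theorem qL553 : ckS 72 553 1412 (nuT 553) 11 (cert 553 CL553) (cert 554 CL554)
    (cert 555 CL555) = true := by decide +kernel

theorem qL554 : ckS 72 554 1415 (nuT 554) 11 (cert 554 CL554) (cert 555 CL555)
    (cert 556 CL556) = true := by decide +kernel

theorem qL555 : ckS 72 555 1417 (nuT 555) 11 (cert 555 CL555) (cert 556 CL556)
    (cert 557 CL557) = true := by decide +kernel

theorem qL556 : ckS 72 556 1420 (nuT 556) 11 (cert 556 CL556) (cert 557 CL557)
    (cert 558 CL558) = true := by decide +kernel

theorem qL557 : ckS 72 557 1422 (nuT 557) 11 (cert 557 CL557) (cert 558 CL558)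
    (cert 559 CL559) = true := by decide +kernel

theorem qL558 : ckS 72 558 1425 (nuT 558) 11 (cert 558 CL558) (cert 559 CL559)
    (cert 560 CL560) = true := by decide +kernel

theorem qL559 : ckS 72 559 1427 (nuT 559) 11 (cert 559 CL559) (cert 560 CL560)
    (cert 561 CL561) = true := by decide +kernel

end Pool.Agent.MP_9da1e3_co
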