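import Pool.Agent.Lib.MP_9da1e3_co.KcE560
import Pool.Agent.Lib.MP_9da1e3_co.KcE570

set_option maxRecDepth 100000

namespace Pool.Agent.MP_9da1e3_co

theorem qL560 : ckS 72 560 1430 (nuT 560) 11 (cert 560 CL560) (cert 561 CL561)
    (cert 562 CL562) = true := by decide +kernel

theorem qL561 : ckS 72 561 1432 (nuT 561) 11 (cert 561 CL561) (cert 562 CL562)
    (cert 563 CL563) = true := by decide +kernel

theorem qL562 : ckS 72 562 1435 (nuT 562) 11 (cert 562 CL562) (cert 563 CL563)
    (cert 564 CL564) = true := by decide +kernel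

theorem qL563 : ckS 72 563 1437 (nuT 563) 11 (cert 563 CL563) (cert 564 CL564)
    (cert 565 CL565) = true := by decide +kernel

theorem qL564 : ckS 72 564 1440 (nuT 564) 11 (cert 564 CL564) (cert 565 CL565)
    (cert 566 CL566) = true := by decide +kernel

theorem qL565 : ckS 72 565 1442 (nuT 565) 11 (cert 565 CL565) (cert 566 CL566)
    (cert 567 CL567) = true := by decide +kernel

theorem qL566 : ckS 72 566 1445 (nuT 566) 11 (cert 566 CL566) (cert 567 CL567)
    (cert 568 CL568) = true := by decide +kernel

theorem qL567 : ckS 72 567 1447 (nuT 567) 11 (cert 567 CL567) (cert 568 CL568)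
    (cert 569 CL569) = true := by decide +kernel

theorem qL568 : ckS 72 568 1450 (nuT 568) 11 (cert 568 CL568) (cert 569 CL569)
    (cert 570 CL570) = true := by decide +kernel

theorem qL569 : ckS 72 569 1452 (nuT 569) 11 (cert 569 CL569) (cert 570 CL570)
    (cert 571 CL571) = true := by decide +kernel

end Pool.Agent.MP_9da1e3_co
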