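import Pool.Agent.Lib.MP_9da1e3_co.KcE570
import Pool.Agent.Lib.MP_9da1e3_co.KcE580

set_option maxRecDepth 100000

namespace Pool.Agent.MP_9da1e3_co

theorem qL570 : ckS 72 570 1455 (nuT 570) 11 (cert 570 CL570) (cert 571 CL571)
    (cert 572 CL572) = true := by decide +kernel

theorem qL571 : ckS 72 571 1457 (nuT 571) 11 (cert 571 CL571) (cert 572 CL572)
    (cert 573 CL573) = true := by decide +kernel

theorem qL572 : ckS 72 572 1460 (nuT 572) 11 (cert 572 CL572) (cert 573 CL573)
    (cert 574 CL574) = true := by decide +kernel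

theorem qL573 : ckS 72 573 1462 (nuT 573) 11 (cert 573 CL573) (cert 574 CL574)
    (cert 575 CL575) = true := by decide +kernel

theorem qL574 : ckS 72 574 1465 (nuT 574) 11 (cert 574 CL574) (cert 575 CL575)
    (cert 576 CL576) = true := by decide +kernel

theorem qL575 : ckS 72 575 1467 (nuT 575) 11 (cert 575 CL575) (cert 576 CL576)
    (cert 577 CL577) = true := by decide +kernel

theorem qL576 : ckS 72 576 1470 (nuT 576) 11 (cert 576 CL576) (cert 577 CL577)
    (cert 578 CL578) = true := by decide +kernel

theorem qL577 : ckS 72 577 1472 (nuT 577) 11 (cert 577 CL577) (cert 578 CL578)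
    (cert 579 CL579) = true := by decide +kernel

theorem qL578 : ckS 72 578 1475 (nuT 578) 11 (cert 578 CL578) (cert 579 CL579)
    (cert 580 CL580) = true := by decide +kernel

theorem qL579 : ckS 72 579 1477 (nuT 579) 11 (cert 579 CL579) (cert 580 CL580)
    (cert 581 CL581) = true := by decide +kernel

end Pool.Agent.MP_9da1e3_co
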