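import Pool.Agent.Lib.MP_9da1e3_co.KcE580
import Pool.Agent.Lib.MP_9da1e3_co.KcE590

set_option maxRecDepth 100000

namespace Pool.Agent.MP_9da1e3_co

theorem qL580 : ckS 72 580 1480 (nuT 580) 11 (cert 580 CL580) (cert 581 CL581)
    (cert 582 CL582) = true := by decide +kernel

theorem qL581 : ckS 72 581 1482 (nuT 581) 11 (cert 581 CL581) (cert 582 CL582)
    (cert 583 CL583) = true := by decide +kernel

theorem qL582 : ckS 72 582 1485 (nuT 582) 11 (cert 582 CL582) (cert 583 CL583)
    (cert 584 CL584) = true := by decide +kernel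

theorem qL583 : ckS 72 583 1487 (nuT 583) 11 (cert 583 CL583) (cert 584 CL584)
    (cert 585 CL585) = true := by decide +kernel

theorem qL584 : ckS 72 584 1490 (nuT 584) 11 (cert 584 CL584) (cert 585 CL585)
    (cert 586 CL586) = true := by decide +kernel

theorem qL585 : ckS 72 585 1492 (nuT 585) 11 (cert 585 CL585) (cert 586 CL586)
    (cert 587 CL587) = true := by decide +kernel

theorem qL586 : ckS 72 586 1495 (nuT 586) 11 (cert 586 CL586) (cert 587 CL587)
    (cert 588 CL588) = true := by decide +kernel

theorem qL587 : ckS 72 587 1497 (nuT 587) 11 (cert 587 CL587) (cert 588 CL588)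
    (cert 589 CL589) = true := by decide +kernel

theorem qL588 : ckS 72 588 1500 (nuT 588) 11 (cert 588 CL588) (cert 589 CL589)
    (cert 590 CL590) = true := by decide +kernel

theorem qL589 : ckS 72 589 1502 (nuT 589) 11 (cert 589 CL589) (cert 590 CL590)
    (cert 591 CL591) = true := by decide +kernel

end Pool.Agent.MP_9da1e3_co
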