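import Pool.Agent.Lib.MP_9da1e3_co.KcE590
import Pool.Agent.Lib.MP_9da1e3_co.KcE600

set_option maxRecDepth 100000

namespace Pool.Agent.MP_9da1e3_co

theorem qL590 : ckS 72 590 1505 (nuT 590) 11 (cert 590 CL590) (cert 591 CL591)
    (cert 592 CL592) = true := by decide +kernel

theorem qL591 : ckS 72 591 1507 (nuT 591) 11 (cert 591 CL591) (cert 592 CL592)
    (cert 593 CL593) = true := by decide +kernel

theorem qL592 : ckS 72 592 1510 (nuT 592) 11 (cert 592 CL592) (cert 593 CL593)
    (cert 594 CL594) = true := by decide +kernel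

theorem qL593 : ckS 72 593 1512 (nuT 593) 11 (cert 593 CL593) (cert 594 CL594)
    (cert 595 CL595) = true := by decide +kernel

theorem qL594 : ckS 72 594 1515 (nuT 594) 11 (cert 594 CL594) (cert 595 CL595)
    (cert 596 CL596) = true := by decide +kernel

theorem qL595 : ckS 72 595 1517 (nuT 595) 11 (cert 595 CL595) (cert 596 CL596)
    (cert 597 CL597) = true := by decide +kernel

theorem qL596 : ckS 72 596 1520 (nuT 596) 11 (cert 596 CL596) (cert 597 CL597)
    (cert 598 CL598) = true := by decide +kernel

theorem qL597 : ckS 72 597 1522 (nuT 597) 11 (cert 597 CL597) (cert 598 CL598)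
    (cert 599 CL599) = true := by decide +kernel

theorem qL598 : ckS 72 598 1525 (nuT 598) 11 (cert 598 CL598) (cert 599 CL599)
    (cert 600 CL600) = true := by decide +kernel

theorem qL599 : ckS 72 599 1527 (nuT 599) 11 (cert 599 CL599) (cert 600 CL600)
    (cert 601 CL601) = true := by decide +kernel

end Pool.Agent.MP_9da1e3_co
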