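import Pool.Agent.Lib.MP_9da1e3_co.Kc4
import Pool.Agent.Lib.MP_9da1e3_co.KcS500
import Pool.Agent.Lib.MP_9da1e3_co.KcS510
import Pool.Agent.Lib.MP_9da1e3_co.KcS520
import Pool.Agent.Lib.MP_9da1e3_co.KcS530
import Pool.Agent.Lib.MP_9da1e3_co.KcS540
import Pool.Agent.Lib.MP_9da1e3_co.KcS550
import Pool.Agent.Lib.MP_9da1e3_co.KcS560
import Pool.Agent.Lib.MP_9da1e3_co.KcS570
import Pool.Agent.Lib.MP_9da1e3_co.KcS580
import Pool.Agent.Lib.MP_9da1e3_co.KcS590

namespace Pool.Agent.MP_9da1e3_co

theorem sL500 : SignP 500 (NNk 500) (nuT 500) :=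
  sgnL (by decide) eL500 eL501 eL502 qL500

theorem sL501 : SignP 501 (NNk 501) (nuT 501) :=
  sgnL (by decide) eL501 eL502 eL503 qL501

theorem sL502 : SignP 502 (NNk 502) (nuT 502) :=
  sgnL (by decide) eL502 eL503 eL504 qL502

theorem sL503 : SignP 503 (NNk 503) (nuT 503) :=
  sgnL (by decide) eL503 eL504 eL505 qL503

theorem sL504 : SignP 504 (NNk 504) (nuT 504) :=
  sgnL (by decide) eL504 eL505 eL506 qL504

theorem sL505 : SignP 505 (NNk 505) (nuT 505) :=
  sgnL (by decide) eL505 eL506 eL507 qL505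

theorem sL506 : SignP 506 (NNk 506) (nuT 506) :=
  sgnL (by decide) eL506 eL507 eL508 qL506

theorem sL507 : SignP 507 (NNk 507) (nuT 507) :=
  sgnL (by decide) eL507 eL508 eL509 qL507

theorem sL508 : SignP 508 (NNk 508) (nuT 508) :=
  sgnL (by decide) eL508 eL509 eL510 qL508

theorem sL509 : SignP 509 (NNk 509) (nuT 509) :=
  sgnL (by decide) eL509 eL510 eL511 qL509

theorem sL510 : SignP 510 (NNk 510) (nuT 510) :=
  sgnL (by decide) eL510 eL511 eL512 qL510

theorem sL511 : SignP 511 (NNk 511) (nuT 511) :=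
  sgnL (by decide) eL511 eL512 eL513 qL511

theorem sL512 : SignP 512 (NNk 512) (nuT 512) :=
  sgnL (by decide) eL512 eL513 eL514 qL512

theorem sL513 : SignP 513 (NNk 513) (nuT 513) :=
  sgnL (by decide) eL513 eL514 eL515 qL513

theorem sL514 : SignP 514 (NNk 514) (nuT 514) :=
  sgnL (by decide) eL514 eL515 eL516 qL514

theorem sL515 : SignP 515 (NNk 515) (nuT 515) :=
  sgnL (by decide) eL515 eL516 eL517 qL515

theorem sL516 : SignP 516 (NNk 516) (nuT 516) :=
  sgnL (by decide) eL516 eL517 eL518 qL516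

theorem sL517 : SignP 517 (NNk 517) (nuT 517) :=
  sgnL (by decide) eL517 eL518 eL519 qL517

theorem sL518 : SignP 518 (NNk 518) (nuT 518) :=
  sgnL (by decide) eL518 eL519 eL520 qL518

theorem sL519 : SignP 519 (NNk 519) (nuT 519) :=
  sgnL (by decide) eL519 eL520 eL521 qL519

theorem sL520 : SignP 520 (NNk 520) (nuT 520) :=
  sgnL (by decide) eL520 eL521 eL522 qL520

theorem sL521 : SignP 521 (NNk 521) (nuT 521) :=
  sgnL (by decide) eL521 eL522 eL523 qL521

theorem sL522 : SignP 522 (NNk 522) (nuT 522) :=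
  sgnL (by decide) eL522 eL523 eL524 qL522

theorem sL523 : SignP 523 (NNk 523) (nuT 523) :=
  sgnL (by decide) eL523 eL524 eL525 qL523

theorem sL524 : SignP 524 (NNk 524) (nuT 524) :=
  sgnL (by decide) eL524 eL525 eL526 qL524

theorem sL525 : SignP 525 (NNk 525) (nuT 525) :=
  sgnL (by decide) eL525 eL526 eL527 qL525

theorem sL526 : SignP 526 (NNk 526) (nuT 526) :=
  sgnL (by decide) eL526 eL527 eL528 qL526

theorem sL527 : SignP 527 (NNk 527) (nuT 527) :=
  sgnL (by decide) eL527 eL528 eL529 qL527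

theorem sL528 : SignP 528 (NNk 528) (nuT 528) :=
  sgnL (by decide) eL528 eL529 eL530 qL528

theorem sL529 : SignP 529 (NNk 529) (nuT 529) :=
  sgnL (by decide) eL529 eL530 eL531 qL529

theorem sL530 : SignP 530 (NNk 530) (nuT 530) :=
  sgnL (by decide) eL530 eL531 eL532 qL530

theorem sL531 : SignP 531 (NNk 531) (nuT 531) :=
  sgnL (by decide) eL531 eL532 eL533 qL531

theorem sL532 : SignP 532 (NNk 532) (nuT 532) :=
  sgnL (by decide) eL532 eL533 eL534 qL532

theorem sL533 : SignP 533 (NNk 533) (nuT 533) :=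
  sgnL (by decide) eL533 eL534 eL535 qL533

theorem sL534 : SignP 534 (NNk 534) (nuT 534) :=
  sgnL (by decide) eL534 eL535 eL536 qL534

theorem sL535 : SignP 535 (NNk 535) (nuT 535) :=
  sgnL (by decide) eL535 eL536 eL537 qL535

theorem sL536 : SignP 536 (NNk 536) (nuT 536) :=
  sgnL (by decide) eL536 eL537 eL538 qL536

theorem sL537 : SignP 537 (NNk 537) (nuT 537) :=
  sgnL (by decide) eL537 eL538 eL539 qL537

theorem sL538 : SignP 538 (NNk 538) (nuT 538) :=
  sgnL (by decide) eL538 eL539 eL540 qL538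

theorem sL539 : SignP 539 (NNk 539) (nuT 539) :=
  sgnL (by decide) eL539 eL540 eL541 qL539

theorem sL540 : SignP 540 (NNk 540) (nuT 540) :=
  sgnL (by decide) eL540 eL541 eL542 qL540

theorem sL541 : SignP 541 (NNk 541) (nuT 541) :=
  sgnL (by decide) eL541 eL542 eL543 qL541

theorem sL542 : SignP 542 (NNk 542) (nuT 542) :=
  sgnL (by decide) eL542 eL543 eL544 qL542

theorem sL543 : SignP 543 (NNk 543) (nuT 543) :=
  sgnL (by decide) eL543 eL544 eL545 qL543

theorem sL544 : SignP 544 (NNk 544) (nuT 544) :=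
  sgnL (by decide) eL544 eL545 eL546 qL544

theorem sL545 : SignP 545 (NNk 545) (nuT 545) :=
  sgnL (by decide) eL545 eL546 eL547 qL545

theorem sL546 : SignP 546 (NNk 546) (nuT 546) :=
  sgnL (by decide) eL546 eL547 eL548 qL546

theorem sL547 : SignP 547 (NNk 547) (nuT 547) :=
  sgnL (by decide) eL547 eL548 eL549 qL547

theorem sL548 : SignP 548 (NNk 548) (nuT 548) :=
  sgnL (by decide) eL548 eL549 eL550 qL548

theorem sL549 : SignP 549 (NNk 549) (nuT 549) :=
  sgnL (by decide) eL549 eL550 eL551 qL549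

theorem sL550 : SignP 550 (NNk 550) (nuT 550) :=
  sgnL (by decide) eL550 eL551 eL552 qL550

theorem sL551 : SignP 551 (NNk 551) (nuT 551) :=
  sgnL (by decide) eL551 eL552 eL553 qL551

theorem sL552 : SignP 552 (NNk 552) (nuT 552) :=
  sgnL (by decide) eL552 eL553 eL554 qL552

theorem sL553 : SignP 553 (NNk 553) (nuT 553) :=
  sgnL (by decide) eL553 eL554 eL555 qL553

theorem sL554 : SignP 554 (NNk 554) (nuT 554) :=
  sgnL (by decide) eL554 eL555 eL556 qL554

theorem sL555 : SignP 555 (NNk 555) (nuT 555) :=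
  sgnL (by decide) eL555 eL556 eL557 qL555

theorem sL556 : SignP 556 (NNk 556) (nuT 556) :=
  sgnL (by decide) eL556 eL557 eL558 qL556

theorem sL557 : SignP 557 (NNk 557) (nuT 557) :=
  sgnL (by decide) eL557 eL558 eL559 qL557

theorem sL558 : SignP 558 (NNk 558) (nuT 558) :=
  sgnL (by decide) eL558 eL559 eL560 qL558

theorem sL559 : SignP 559 (NNk 559) (nuT 559) :=
  sgnL (by decide) eL559 eL560 eL561 qL559

theorem sL560 : SignP 560 (NNk 560) (nuT 560) :=
  sgnL (by decide) eL560 eL561 eL562 qL560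

theorem sL561 : SignP 561 (NNk 561) (nuT 561) :=
  sgnL (by decide) eL561 eL562 eL563 qL561

theorem sL562 : SignP 562 (NNk 562) (nuT 562) :=
  sgnL (by decide) eL562 eL563 eL564 qL562

theorem sL563 : SignP 563 (NNk 563) (nuT 563) :=
  sgnL (by decide) eL563 eL564 eL565 qL563

theorem sL564 : SignP 564 (NNk 564) (nuT 564) :=
  sgnL (by decide) eL564 eL565 eL566 qL564

theorem sL565 : SignP 565 (NNk 565) (nuT 565) :=
  sgnL (by decide) eL565 eL566 eL567 qL565

theorem sL566 : SignP 566 (NNk 566) (nuT 566) :=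
  sgnL (by decide) eL566 eL567 eL568 qL566

theorem sL567 : SignP 567 (NNk 567) (nuT 567) :=
  sgnL (by decide) eL567 eL568 eL569 qL567

theorem sL568 : SignP 568 (NNk 568) (nuT 568) :=
  sgnL (by decide) eL568 eL569 eL570 qL568

theorem sL569 : SignP 569 (NNk 569) (nuT 569) :=
  sgnL (by decide) eL569 eL570 eL571 qL569

theorem sL570 : SignP 570 (NNk 570) (nuT 570) :=
  sgnL (by decide) eL570 eL571 eL572 qL570

theorem sL571 : SignP 571 (NNk 571) (nuT 571) :=
  sgnL (by decide) eL571 eL572 eL573 qL571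

theorem sL572 : SignP 572 (NNk 572) (nuT 572) :=
  sgnL (by decide) eL572 eL573 eL574 qL572

theorem sL573 : SignP 573 (NNk 573) (nuT 573) :=
  sgnL (by decide) eL573 eL574 eL575 qL573

theorem sL574 : SignP 574 (NNk 574) (nuT 574) :=
  sgnL (by decide) eL574 eL575 eL576 qL574

theorem sL575 : SignP 575 (NNk 575) (nuT 575) :=
  sgnL (by decide) eL575 eL576 eL577 qL575

theorem sL576 : SignP 576 (NNk 576) (nuT 576) :=
  sgnL (by decide) eL576 eL577 eL578 qL576

theorem sL577 : SignP 577 (NNk 577) (nuT 577) :=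
  sgnL (by decide) eL577 eL578 eL579 qL577

theorem sL578 : SignP 578 (NNk 578) (nuT 578) :=
  sgnL (by decide) eL578 eL579 eL580 qL578

theorem sL579 : SignP 579 (NNk 579) (nuT 579) :=
  sgnL (by decide) eL579 eL580 eL581 qL579

theorem sL580 : SignP 580 (NNk 580) (nuT 580) :=
  sgnL (by decide) eL580 eL581 eL582 qL580

theorem sL581 : SignP 581 (NNk 581) (nuT 581) :=
  sgnL (by decide) eL581 eL582 eL583 qL581

theorem sL582 : SignP 582 (NNk 582) (nuT 582) :=
  sgnL (by decide) eL582 eL583 eL584 qL582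

theorem sL583 : SignP 583 (NNk 583) (nuT 583) :=
  sgnL (by decide) eL583 eL584 eL585 qL583

theorem sL584 : SignP 584 (NNk 584) (nuT 584) :=
  sgnL (by decide) eL584 eL585 eL586 qL584

theorem sL585 : SignP 585 (NNk 585) (nuT 585) :=
  sgnL (by decide) eL585 eL586 eL587 qL585

theorem sL586 : SignP 586 (NNk 586) (nuT 586) :=
  sgnL (by decide) eL586 eL587 eL588 qL586

theorem sL587 : SignP 587 (NNk 587) (nuT 587) :=
  sgnL (by decide) eL587 eL588 eL589 qL587

theorem sL588 : SignP 588 (NNk 588) (nuT 588) :=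
  sgnL (by decide) eL588 eL589 eL590 qL588

theorem sL589 : SignP 589 (NNk 589) (nuT 589) :=
  sgnL (by decide) eL589 eL590 eL591 qL589

theorem sL590 : SignP 590 (NNk 590) (nuT 590) :=
  sgnL (by decide) eL590 eL591 eL592 qL590

theorem sL591 : SignP 591 (NNk 591) (nuT 591) :=
  sgnL (by decide) eL591 eL592 eL593 qL591

theorem sL592 : SignP 592 (NNk 592) (nuT 592) :=
  sgnL (by decide) eL592 eL593 eL594 qL592

theorem sL593 : SignP 593 (NNk 593) (nuT 593) :=
  sgnL (by decide) eL593 eL594 eL595 qL593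

theorem sL594 : SignP 594 (NNk 594) (nuT 594) :=
  sgnL (by decide) eL594 eL595 eL596 qL594

theorem sL595 : SignP 595 (NNk 595) (nuT 595) :=
  sgnL (by decide) eL595 eL596 eL597 qL595

theorem sL596 : SignP 596 (NNk 596) (nuT 596) :=
  sgnL (by decide) eL596 eL597 eL598 qL596

theorem sL597 : SignP 597 (NNk 597) (nuT 597) :=
  sgnL (by decide) eL597 eL598 eL599 qL597

theorem sL598 : SignP 598 (NNk 598) (nuT 598) :=
  sgnL (by decide) eL598 eL599 eL600 qL598

theorem sL599 : SignP 599 (NNk 599) (nuT 599) :=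
  sgnL (by decide) eL599 eL600 eL601 qL599

theorem sB500 : ∀ L, 500 ≤ L → L < 510 → SignP L (NNk L) (nuT L) := by
  intro L h1 h2
  interval_cases L
  · exact sL500
  · exact sL501
  · exact sL502
  · exact sL503
  · exact sL504
  · exact sL505
  · exact sL506
  · exact sL507
  · exact sL508
  · exact sL509

theorem sB510 : ∀ L, 510 ≤ L → L < 520 → SignP L (NNk L) (nuT L) := by
  intro L h1 h2
  interval_cases L
  · exact sL510
  · exact sL511
  · exact sL512
  · exact sL513
  · exact sL514
  · exact sL515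
  · exact sL516
  · exact sL517
  · exact sL518
  · exact sL519

theorem sB520 : ∀ L, 520 ≤ L → L < 530 → SignP L (NNk L) (nuT L) := by
  intro L h1 h2
  interval_cases L
  · exact sL520
  · exact sL521
  · exact sL522
  · exact sL523
  · exact sL524
  · exact sL525
  · exact sL526
  · exact sL527
  · exact sL528
  · exact sL529

theorem sB530 : ∀ L, 530 ≤ L → L < 540 → SignP L (NNk L) (nuT L) := by
  intro L h1 h2
  interval_cases L
  · exact sL530
  · exact sL531
  · exact sL532
  · exact sL533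
  · exact sL534
  · exact sL535
  · exact sL536
  · exact sL537
  · exact sL538
  · exact sL539

theorem sB540 : ∀ L, 540 ≤ L → L < 550 → SignP L (NNk L) (nuT L) := by
  intro L h1 h2
  interval_cases L
  · exact sL540
  · exact sL541
  · exact sL542
  · exact sL543
  · exact sL544
  · exact sL545
  · exact sL546
  · exact sL547
  · exact sL548
  · exact sL549

theorem sB550 : ∀ L, 550 ≤ L → L < 560 → SignP L (NNk L) (nuT L) := by
  intro L h1 h2
  interval_cases L
  · exact sL550
  · exact sL551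
  · exact sL552
  · exact sL553
  · exact sL554
  · exact sL555
  · exact sL556
  · exact sL557
  · exact sL558
  · exact sL559

theorem sB560 : ∀ L, 560 ≤ L → L < 570 → SignP L (NNk L) (nuT L) := by
  intro L h1 h2
  interval_cases L
  · exact sL560
  · exact sL561
  · exact sL562
  · exact sL563
  · exact sL564
  · exact sL565
  · exact sL566
  · exact sL567
  · exact sL568
  · exact sL569

theorem sB570 : ∀ L, 570 ≤ L → L < 580 → SignP L (NNk L) (nuT L) := by
  intro L h1 h2
  interval_cases L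
  · exact sL570
  · exact sL571
  · exact sL572
  · exact sL573
  · exact sL574
  · exact sL575
  · exact sL576
  · exact sL577
  · exact sL578
  · exact sL579

theorem sB580 : ∀ L, 580 ≤ L → L < 590 → SignP L (NNk L) (nuT L) := by
  intro L h1 h2
  interval_cases L
  · exact sL580
  · exact sL581
  · exact sL582
  · exact sL583
  · exact sL584
  · exact sL585
  · exact sL586
  · exact sL587
  · exact sL588
  · exact sL589

theorem sB590 : ∀ L, 590 ≤ L → L < 600 → SignP L (NNk L) (nuT L) := by
  intro L h1 h2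
  interval_cases L
  · exact sL590
  · exact sL591
  · exact sL592
  · exact sL593
  · exact sL594
  · exact sL595
  · exact sL596
  · exact sL597
  · exact sL598
  · exact sL599

theorem sG500 : ∀ L, 500 ≤ L → L < 600 → SignP L (NNk L) (nuT L) := by
  intro L h1 h2
  by_cases h500 : L < 510
  · exact sB500 L (by omega) h500
  by_cases h510 : L < 520
  · exact sB510 L (by omega) h510
  by_cases h520 : L < 530
  · exact sB520 L (by omega) h520
  by_cases h530 : L < 540
  · exact sB530 L (by omega) h530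
  by_cases h540 : L < 550
  · exact sB540 L (by omega) h540
  by_cases h550 : L < 560
  · exact sB550 L (by omega) h550
  by_cases h560 : L < 570
  · exact sB560 L (by omega) h560
  by_cases h570 : L < 580
  · exact sB570 L (by omega) h570
  by_cases h580 : L < 590
  · exact sB580 L (by omega) h580
  by_cases h590 : L < 600
  · exact sB590 L (by omega) h590
  omega

end Pool.Agent.MP_9da1e3_co
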