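import Pool.Agent.Lib.MP_9da1e3_co.KcE600
import Pool.Agent.Lib.MP_9da1e3_co.KcE610

set_option maxRecDepth 100000

namespace Pool.Agent.MP_9da1e3_co

theorem qL600 : ckS 72 600 1530 (nuT 600) 11 (cert 600 CL600) (cert 601 CL601)
    (cert 602 CL602) = true := by decide +kernel

theorem qL601 : ckS 72 601 1532 (nuT 601) 11 (cert 601 CL601) (cert 602 CL602)
    (cert 603 CL603) = true := by decide +kernel

theorem qL602 : ckS 72 602 1535 (nuT 602) 11 (cert 602 CL602) (cert 603 CL603)
    (cert 604 CL604) = true := by decide +kernel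

theorem qL603 : ckS 72 603 1537 (nuT 603) 11 (cert 603 CL603) (cert 604 CL604)
    (cert 605 CL605) = true := by decide +kernel

theorem qL604 : ckS 72 604 1540 (nuT 604) 11 (cert 604 CL604) (cert 605 CL605)
    (cert 606 CL606) = true := by decide +kernel

theorem qL605 : ckS 72 605 1542 (nuT 605) 11 (cert 605 CL605) (cert 606 CL606)
    (cert 607 CL607) = true := by decide +kernel

theorem qL606 : ckS 72 606 1545 (nuT 606) 11 (cert 606 CL606) (cert 607 CL607)
    (cert 608 CL608) = true := by decide +kernel

theorem qL607 : ckS 72 607 1547 (nuT 607) 11 (cert 607 CL607) (cert 608 CL608)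
    (cert 609 CL609) = true := by decide +kernel

theorem qL608 : ckS 72 608 1550 (nuT 608) 11 (cert 608 CL608) (cert 609 CL609)
    (cert 610 CL610) = true := by decide +kernel

theorem qL609 : ckS 72 609 1552 (nuT 609) 11 (cert 609 CL609) (cert 610 CL610)
    (cert 611 CL611) = true := by decide +kernel

end Pool.Agent.MP_9da1e3_co
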