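import Pool.Agent.Lib.MP_9da1e3_co.KcE610
import Pool.Agent.Lib.MP_9da1e3_co.KcE620

set_option maxRecDepth 100000

namespace Pool.Agent.MP_9da1e3_co

theorem qL610 : ckS 72 610 1555 (nuT 610) 11 (cert 610 CL610) (cert 611 CL611)
    (cert 612 CL612) = true := by decide +kernel

theorem qL611 : ckS 72 611 1557 (nuT 611) 11 (cert 611 CL611) (cert 612 CL612)
    (cert 613 CL613) = true := by decide +kernel

theorem qL612 : ckS 72 612 1560 (nuT 612) 11 (cert 612 CL612) (cert 613 CL613)
    (cert 614 CL614) = true := by decide +kernel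

theorem qL613 : ckS 72 613 1562 (nuT 613) 11 (cert 613 CL613) (cert 614 CL614)
    (cert 615 CL615) = true := by decide +kernel

theorem qL614 : ckS 72 614 1565 (nuT 614) 11 (cert 614 CL614) (cert 615 CL615)
    (cert 616 CL616) = true := by decide +kernel

theorem qL615 : ckS 72 615 1567 (nuT 615) 11 (cert 615 CL615) (cert 616 CL616)
    (cert 617 CL617) = true := by decide +kernel

theorem qL616 : ckS 72 616 1570 (nuT 616) 11 (cert 616 CL616) (cert 617 CL617)
    (cert 618 CL618) = true := by decide +kernel

theorem qL617 : ckS 72 617 1572 (nuT 617) 11 (cert 617 CL617) (cert 618 CL618)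
    (cert 619 CL619) = true := by decide +kernel

theorem qL618 : ckS 72 618 1575 (nuT 618) 11 (cert 618 CL618) (cert 619 CL619)
    (cert 620 CL620) = true := by decide +kernel

theorem qL619 : ckS 72 619 1577 (nuT 619) 11 (cert 619 CL619) (cert 620 CL620)
    (cert 621 CL621) = true := by decide +kernel

end Pool.Agent.MP_9da1e3_co
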