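import Pool.Agent.Lib.MP_9da1e3_co.KcE620
import Pool.Agent.Lib.MP_9da1e3_co.KcE630

set_option maxRecDepth 100000

namespace Pool.Agent.MP_9da1e3_co

theorem qL620 : ckS 72 620 1580 (nuT 620) 11 (cert 620 CL620) (cert 621 CL621)
    (cert 622 CL622) = true := by decide +kernel

theorem qL621 : ckS 72 621 1582 (nuT 621) 11 (cert 621 CL621) (cert 622 CL622)
    (cert 623 CL623) = true := by decide +kernel

theorem qL622 : ckS 72 622 1585 (nuT 622) 11 (cert 622 CL622) (cert 623 CL623)
    (cert 624 CL624) = true := by decide +kernel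

theorem qL623 : ckS 72 623 1587 (nuT 623) 11 (cert 623 CL623) (cert 624 CL624)
    (cert 625 CL625) = true := by decide +kernel

theorem qL624 : ckS 72 624 1590 (nuT 624) 11 (cert 624 CL624) (cert 625 CL625)
    (cert 626 CL626) = true := by decide +kernel

theorem qL625 : ckS 72 625 1592 (nuT 625) 11 (cert 625 CL625) (cert 626 CL626)
    (cert 627 CL627) = true := by decide +kernel

theorem qL626 : ckS 72 626 1595 (nuT 626) 11 (cert 626 CL626) (cert 627 CL627)
    (cert 628 CL628) = true := by decide +kernel

theorem qL627 : ckS 72 627 1597 (nuT 627) 11 (cert 627 CL627) (cert 628 CL628)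
    (cert 629 CL629) = true := by decide +kernel

theorem qL628 : ckS 72 628 1600 (nuT 628) 11 (cert 628 CL628) (cert 629 CL629)
    (cert 630 CL630) = true := by decide +kernel

theorem qL629 : ckS 72 629 1602 (nuT 629) 11 (cert 629 CL629) (cert 630 CL630)
    (cert 631 CL631) = true := by decide +kernel

end Pool.Agent.MP_9da1e3_co
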