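import Pool.Agent.Lib.MP_9da1e3_co.KcE630
import Pool.Agent.Lib.MP_9da1e3_co.KcE640

set_option maxRecDepth 100000

namespace Pool.Agent.MP_9da1e3_co

theorem qL630 : ckS 72 630 1605 (nuT 630) 11 (cert 630 CL630) (cert 631 CL631)
    (cert 632 CL632) = true := by decide +kernel

theorem qL631 : ckS 72 631 1607 (nuT 631) 11 (cert 631 CL631) (cert 632 CL632)
    (cert 633 CL633) = true := by decide +kernel

theorem qL632 : ckS 72 632 1610 (nuT 632) 11 (cert 632 CL632) (cert 633 CL633)
    (cert 634 CL634) = true := by decide +kernel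

theorem qL633 : ckS 72 633 1612 (nuT 633) 11 (cert 633 CL633) (cert 634 CL634)
    (cert 635 CL635) = true := by decide +kernel

theorem qL634 : ckS 72 634 1615 (nuT 634) 11 (cert 634 CL634) (cert 635 CL635)
    (cert 636 CL636) = true := by decide +kernel

theorem qL635 : ckS 72 635 1617 (nuT 635) 11 (cert 635 CL635) (cert 636 CL636)
    (cert 637 CL637) = true := by decide +kernel

theorem qL636 : ckS 72 636 1620 (nuT 636) 11 (cert 636 CL636) (cert 637 CL637)
    (cert 638 CL638) = true := by decide +kernel

theorem qL637 : ckS 72 637 1622 (nuT 637) 11 (cert 637 CL637) (cert 638 CL638)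
    (cert 639 CL639) = true := by decide +kernel

theorem qL638 : ckS 72 638 1625 (nuT 638) 11 (cert 638 CL638) (cert 639 CL639)
    (cert 640 CL640) = true := by decide +kernel

theorem qL639 : ckS 72 639 1627 (nuT 639) 11 (cert 639 CL639) (cert 640 CL640)
    (cert 641 CL641) = true := by decide +kernel

end Pool.Agent.MP_9da1e3_co
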