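import Pool.Agent.Lib.MP_9da1e3_co.KcE640
import Pool.Agent.Lib.MP_9da1e3_co.KcE650

set_option maxRecDepth 100000

namespace Pool.Agent.MP_9da1e3_co

theorem qL640 : ckS 72 640 1630 (nuT 640) 11 (cert 640 CL640) (cert 641 CL641)
    (cert 642 CL642) = true := by decide +kernel

theorem qL641 : ckS 72 641 1632 (nuT 641) 11 (cert 641 CL641) (cert 642 CL642)
    (cert 643 CL643) = true := by decide +kernel

theorem qL642 : ckS 72 642 1635 (nuT 642) 11 (cert 642 CL642) (cert 643 CL643)
    (cert 644 CL644) = true := by decide +kernel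

theorem qL643 : ckS 72 643 1637 (nuT 643) 11 (cert 643 CL643) (cert 644 CL644)
    (cert 645 CL645) = true := by decide +kernel

theorem qL644 : ckS 72 644 1640 (nuT 644) 11 (cert 644 CL644) (cert 645 CL645)
    (cert 646 CL646) = true := by decide +kernel

theorem qL645 : ckS 72 645 1642 (nuT 645) 11 (cert 645 CL645) (cert 646 CL646)
    (cert 647 CL647) = true := by decide +kernel

theorem qL646 : ckS 72 646 1645 (nuT 646) 11 (cert 646 CL646) (cert 647 CL647)
    (cert 648 CL648) = true := by decide +kernel

theorem qL647 : ckS 72 647 1647 (nuT 647) 11 (cert 647 CL647) (cert 648 CL648)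
    (cert 649 CL649) = true := by decide +kernel

theorem qL648 : ckS 72 648 1650 (nuT 648) 11 (cert 648 CL648) (cert 649 CL649)
    (cert 650 CL650) = true := by decide +kernel

theorem qL649 : ckS 72 649 1652 (nuT 649) 11 (cert 649 CL649) (cert 650 CL650)
    (cert 651 CL651) = true := by decide +kernel

end Pool.Agent.MP_9da1e3_co
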