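import Pool.Agent.Lib.MP_9da1e3_co.KcE650
import Pool.Agent.Lib.MP_9da1e3_co.KcE660

set_option maxRecDepth 100000

namespace Pool.Agent.MP_9da1e3_co

theorem qL650 : ckS 72 650 1655 (nuT 650) 11 (cert 650 CL650) (cert 651 CL651)
    (cert 652 CL652) = true := by decide +kernel

theorem qL651 : ckS 72 651 1657 (nuT 651) 11 (cert 651 CL651) (cert 652 CL652)
    (cert 653 CL653) = true := by decide +kernel

theorem qL652 : ckS 72 652 1660 (nuT 652) 11 (cert 652 CL652) (cert 653 CL653)
    (cert 654 CL654) = true := by decide +kernel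

theorem qL653 : ckS 72 653 1662 (nuT 653) 11 (cert 653 CL653) (cert 654 CL654)
    (cert 655 CL655) = true := by decide +kernel

theorem qL654 : ckS 72 654 1665 (nuT 654) 11 (cert 654 CL654) (cert 655 CL655)
    (cert 656 CL656) = true := by decide +kernel

theorem qL655 : ckS 72 655 1667 (nuT 655) 11 (cert 655 CL655) (cert 656 CL656)
    (cert 657 CL657) = true := by decide +kernel

theorem qL656 : ckS 72 656 1670 (nuT 656) 11 (cert 656 CL656) (cert 657 CL657)
    (cert 658 CL658) = true := by decide +kernel

theorem qL657 : ckS 72 657 1672 (nuT 657) 11 (cert 657 CL657) (cert 658 CL658)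
    (cert 659 CL659) = true := by decide +kernel

theorem qL658 : ckS 72 658 1675 (nuT 658) 11 (cert 658 CL658) (cert 659 CL659)
    (cert 660 CL660) = true := by decide +kernel

theorem qL659 : ckS 72 659 1677 (nuT 659) 11 (cert 659 CL659) (cert 660 CL660)
    (cert 661 CL661) = true := by decide +kernel

end Pool.Agent.MP_9da1e3_co
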