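import Pool.Agent.Lib.MP_9da1e3_co.KcE660
import Pool.Agent.Lib.MP_9da1e3_co.KcE670

set_option maxRecDepth 100000

namespace Pool.Agent.MP_9da1e3_co

theorem qL660 : ckS 72 660 1680 (nuT 660) 11 (cert 660 CL660) (cert 661 CL661)
    (cert 662 CL662) = true := by decide +kernel

theorem qL661 : ckS 72 661 1682 (nuT 661) 11 (cert 661 CL661) (cert 662 CL662)
    (cert 663 CL663) = true := by decide +kernel

theorem qL662 : ckS 72 662 1685 (nuT 662) 11 (cert 662 CL662) (cert 663 CL663)
    (cert 664 CL664) = true := by decide +kernel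

theorem qL663 : ckS 72 663 1687 (nuT 663) 11 (cert 663 CL663) (cert 664 CL664)
    (cert 665 CL665) = true := by decide +kernel

theorem qL664 : ckS 72 664 1690 (nuT 664) 11 (cert 664 CL664) (cert 665 CL665)
    (cert 666 CL666) = true := by decide +kernel

theorem qL665 : ckS 72 665 1692 (nuT 665) 11 (cert 665 CL665) (cert 666 CL666)
    (cert 667 CL667) = true := by decide +kernel

theorem qL666 : ckS 72 666 1695 (nuT 666) 11 (cert 666 CL666) (cert 667 CL667)
    (cert 668 CL668) = true := by decide +kernel

theorem qL667 : ckS 72 667 1697 (nuT 667) 11 (cert 667 CL667) (cert 668 CL668)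
    (cert 669 CL669) = true := by decide +kernel

theorem qL668 : ckS 72 668 1700 (nuT 668) 11 (cert 668 CL668) (cert 669 CL669)
    (cert 670 CL670) = true := by decide +kernel

theorem qL669 : ckS 72 669 1702 (nuT 669) 11 (cert 669 CL669) (cert 670 CL670)
    (cert 671 CL671) = true := by decide +kernel

end Pool.Agent.MP_9da1e3_co
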