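import Pool.Agent.Lib.MP_9da1e3_co.KcE670
import Pool.Agent.Lib.MP_9da1e3_co.KcE680

set_option maxRecDepth 100000

namespace Pool.Agent.MP_9da1e3_co

theorem qL670 : ckS 72 670 1705 (nuT 670) 11 (cert 670 CL670) (cert 671 CL671)
    (cert 672 CL672) = true := by decide +kernel

theorem qL671 : ckS 72 671 1707 (nuT 671) 11 (cert 671 CL671) (cert 672 CL672)
    (cert 673 CL673) = true := by decide +kernel

theorem qL672 : ckS 72 672 1710 (nuT 672) 11 (cert 672 CL672) (cert 673 CL673)
    (cert 674 CL674) = true := by decide +kernel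

theorem qL673 : ckS 72 673 1712 (nuT 673) 11 (cert 673 CL673) (cert 674 CL674)
    (cert 675 CL675) = true := by decide +kernel

theorem qL674 : ckS 72 674 1715 (nuT 674) 11 (cert 674 CL674) (cert 675 CL675)
    (cert 676 CL676) = true := by decide +kernel

theorem qL675 : ckS 72 675 1717 (nuT 675) 11 (cert 675 CL675) (cert 676 CL676)
    (cert 677 CL677) = true := by decide +kernel

theorem qL676 : ckS 72 676 1720 (nuT 676) 11 (cert 676 CL676) (cert 677 CL677)
    (cert 678 CL678) = true := by decide +kernel

theorem qL677 : ckS 72 677 1722 (nuT 677) 11 (cert 677 CL677) (cert 678 CL678)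
    (cert 679 CL679) = true := by decide +kernel

theorem qL678 : ckS 72 678 1725 (nuT 678) 11 (cert 678 CL678) (cert 679 CL679)
    (cert 680 CL680) = true := by decide +kernel

theorem qL679 : ckS 72 679 1727 (nuT 679) 11 (cert 679 CL679) (cert 680 CL680)
    (cert 681 CL681) = true := by decide +kernel

end Pool.Agent.MP_9da1e3_co
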