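import Pool.Agent.Lib.MP_9da1e3_co.KcE680
import Pool.Agent.Lib.MP_9da1e3_co.KcE690

set_option maxRecDepth 100000

namespace Pool.Agent.MP_9da1e3_co

theorem qL680 : ckS 72 680 1730 (nuT 680) 11 (cert 680 CL680) (cert 681 CL681)
    (cert 682 CL682) = true := by decide +kernel

theorem qL681 : ckS 72 681 1732 (nuT 681) 11 (cert 681 CL681) (cert 682 CL682)
    (cert 683 CL683) = true := by decide +kernel

theorem qL682 : ckS 72 682 1735 (nuT 682) 11 (cert 682 CL682) (cert 683 CL683)
    (cert 684 CL684) = true := by decide +kernel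

theorem qL683 : ckS 72 683 1737 (nuT 683) 11 (cert 683 CL683) (cert 684 CL684)
    (cert 685 CL685) = true := by decide +kernel

theorem qL684 : ckS 72 684 1740 (nuT 684) 11 (cert 684 CL684) (cert 685 CL685)
    (cert 686 CL686) = true := by decide +kernel

theorem qL685 : ckS 72 685 1742 (nuT 685) 11 (cert 685 CL685) (cert 686 CL686)
    (cert 687 CL687) = true := by decide +kernel

theorem qL686 : ckS 72 686 1745 (nuT 686) 11 (cert 686 CL686) (cert 687 CL687)
    (cert 688 CL688) = true := by decide +kernel

theorem qL687 : ckS 72 687 1747 (nuT 687) 11 (cert 687 CL687) (cert 688 CL688)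
    (cert 689 CL689) = true := by decide +kernel

theorem qL688 : ckS 72 688 1750 (nuT 688) 11 (cert 688 CL688) (cert 689 CL689)
    (cert 690 CL690) = true := by decide +kernel

theorem qL689 : ckS 72 689 1752 (nuT 689) 11 (cert 689 CL689) (cert 690 CL690)
    (cert 691 CL691) = true := by decide +kernel

end Pool.Agent.MP_9da1e3_co
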