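import Pool.Agent.Lib.MP_9da1e3_co.KcE690
import Pool.Agent.Lib.MP_9da1e3_co.KcE700

set_option maxRecDepth 100000

namespace Pool.Agent.MP_9da1e3_co

theorem qL690 : ckS 72 690 1755 (nuT 690) 11 (cert 690 CL690) (cert 691 CL691)
    (cert 692 CL692) = true := by decide +kernel

theorem qL691 : ckS 72 691 1757 (nuT 691) 11 (cert 691 CL691) (cert 692 CL692)
    (cert 693 CL693) = true := by decide +kernel

theorem qL692 : ckS 72 692 1760 (nuT 692) 11 (cert 692 CL692) (cert 693 CL693)
    (cert 694 CL694) = true := by decide +kernel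

theorem qL693 : ckS 72 693 1762 (nuT 693) 11 (cert 693 CL693) (cert 694 CL694)
    (cert 695 CL695) = true := by decide +kernel

theorem qL694 : ckS 72 694 1765 (nuT 694) 11 (cert 694 CL694) (cert 695 CL695)
    (cert 696 CL696) = true := by decide +kernel

theorem qL695 : ckS 72 695 1767 (nuT 695) 11 (cert 695 CL695) (cert 696 CL696)
    (cert 697 CL697) = true := by decide +kernel

theorem qL696 : ckS 72 696 1770 (nuT 696) 11 (cert 696 CL696) (cert 697 CL697)
    (cert 698 CL698) = true := by decide +kernel

theorem qL697 : ckS 72 697 1772 (nuT 697) 11 (cert 697 CL697) (cert 698 CL698)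
    (cert 699 CL699) = true := by decide +kernel

theorem qL698 : ckS 72 698 1775 (nuT 698) 11 (cert 698 CL698) (cert 699 CL699)
    (cert 700 CL700) = true := by decide +kernel

theorem qL699 : ckS 72 699 1777 (nuT 699) 11 (cert 699 CL699) (cert 700 CL700)
    (cert 701 CL701) = true := by decide +kernel

end Pool.Agent.MP_9da1e3_co
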