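import Pool.Agent.Lib.MP_9da1e3_co.Kc4
import Pool.Agent.Lib.MP_9da1e3_co.KcS600
import Pool.Agent.Lib.MP_9da1e3_co.KcS610
import Pool.Agent.Lib.MP_9da1e3_co.KcS620
import Pool.Agent.Lib.MP_9da1e3_co.KcS630
import Pool.Agent.Lib.MP_9da1e3_co.KcS640
import Pool.Agent.Lib.MP_9da1e3_co.KcS650
import Pool.Agent.Lib.MP_9da1e3_co.KcS660
import Pool.Agent.Lib.MP_9da1e3_co.KcS670
import Pool.Agent.Lib.MP_9da1e3_co.KcS680
import Pool.Agent.Lib.MP_9da1e3_co.KcS690

namespace Pool.Agent.MP_9da1e3_co

theorem sL600 : SignP 600 (NNk 600) (nuT 600) :=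
  sgnL (by decide) eL600 eL601 eL602 qL600

theorem sL601 : SignP 601 (NNk 601) (nuT 601) :=
  sgnL (by decide) eL601 eL602 eL603 qL601

theorem sL602 : SignP 602 (NNk 602) (nuT 602) :=
  sgnL (by decide) eL602 eL603 eL604 qL602

theorem sL603 : SignP 603 (NNk 603) (nuT 603) :=
  sgnL (by decide) eL603 eL604 eL605 qL603

theorem sL604 : SignP 604 (NNk 604) (nuT 604) :=
  sgnL (by decide) eL604 eL605 eL606 qL604

theorem sL605 : SignP 605 (NNk 605) (nuT 605) :=
  sgnL (by decide) eL605 eL606 eL607 qL605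

theorem sL606 : SignP 606 (NNk 606) (nuT 606) :=
  sgnL (by decide) eL606 eL607 eL608 qL606

theorem sL607 : SignP 607 (NNk 607) (nuT 607) :=
  sgnL (by decide) eL607 eL608 eL609 qL607

theorem sL608 : SignP 608 (NNk 608) (nuT 608) :=
  sgnL (by decide) eL608 eL609 eL610 qL608

theorem sL609 : SignP 609 (NNk 609) (nuT 609) :=
  sgnL (by decide) eL609 eL610 eL611 qL609

theorem sL610 : SignP 610 (NNk 610) (nuT 610) :=
  sgnL (by decide) eL610 eL611 eL612 qL610

theorem sL611 : SignP 611 (NNk 611) (nuT 611) :=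
  sgnL (by decide) eL611 eL612 eL613 qL611

theorem sL612 : SignP 612 (NNk 612) (nuT 612) :=
  sgnL (by decide) eL612 eL613 eL614 qL612

theorem sL613 : SignP 613 (NNk 613) (nuT 613) :=
  sgnL (by decide) eL613 eL614 eL615 qL613

theorem sL614 : SignP 614 (NNk 614) (nuT 614) :=
  sgnL (by decide) eL614 eL615 eL616 qL614

theorem sL615 : SignP 615 (NNk 615) (nuT 615) :=
  sgnL (by decide) eL615 eL616 eL617 qL615

theorem sL616 : SignP 616 (NNk 616) (nuT 616) :=
  sgnL (by decide) eL616 eL617 eL618 qL616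

theorem sL617 : SignP 617 (NNk 617) (nuT 617) :=
  sgnL (by decide) eL617 eL618 eL619 qL617

theorem sL618 : SignP 618 (NNk 618) (nuT 618) :=
  sgnL (by decide) eL618 eL619 eL620 qL618

theorem sL619 : SignP 619 (NNk 619) (nuT 619) :=
  sgnL (by decide) eL619 eL620 eL621 qL619

theorem sL620 : SignP 620 (NNk 620) (nuT 620) :=
  sgnL (by decide) eL620 eL621 eL622 qL620

theorem sL621 : SignP 621 (NNk 621) (nuT 621) :=
  sgnL (by decide) eL621 eL622 eL623 qL621

theorem sL622 : SignP 622 (NNk 622) (nuT 622) :=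
  sgnL (by decide) eL622 eL623 eL624 qL622

theorem sL623 : SignP 623 (NNk 623) (nuT 623) :=
  sgnL (by decide) eL623 eL624 eL625 qL623

theorem sL624 : SignP 624 (NNk 624) (nuT 624) :=
  sgnL (by decide) eL624 eL625 eL626 qL624

theorem sL625 : SignP 625 (NNk 625) (nuT 625) :=
  sgnL (by decide) eL625 eL626 eL627 qL625

theorem sL626 : SignP 626 (NNk 626) (nuT 626) :=
  sgnL (by decide) eL626 eL627 eL628 qL626

theorem sL627 : SignP 627 (NNk 627) (nuT 627) :=
  sgnL (by decide) eL627 eL628 eL629 qL627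

theorem sL628 : SignP 628 (NNk 628) (nuT 628) :=
  sgnL (by decide) eL628 eL629 eL630 qL628

theorem sL629 : SignP 629 (NNk 629) (nuT 629) :=
  sgnL (by decide) eL629 eL630 eL631 qL629

theorem sL630 : SignP 630 (NNk 630) (nuT 630) :=
  sgnL (by decide) eL630 eL631 eL632 qL630

theorem sL631 : SignP 631 (NNk 631) (nuT 631) :=
  sgnL (by decide) eL631 eL632 eL633 qL631

theorem sL632 : SignP 632 (NNk 632) (nuT 632) :=
  sgnL (by decide) eL632 eL633 eL634 qL632

theorem sL633 : SignP 633 (NNk 633) (nuT 633) :=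
  sgnL (by decide) eL633 eL634 eL635 qL633

theorem sL634 : SignP 634 (NNk 634) (nuT 634) :=
  sgnL (by decide) eL634 eL635 eL636 qL634

theorem sL635 : SignP 635 (NNk 635) (nuT 635) :=
  sgnL (by decide) eL635 eL636 eL637 qL635

theorem sL636 : SignP 636 (NNk 636) (nuT 636) :=
  sgnL (by decide) eL636 eL637 eL638 qL636

theorem sL637 : SignP 637 (NNk 637) (nuT 637) :=
  sgnL (by decide) eL637 eL638 eL639 qL637

theorem sL638 : SignP 638 (NNk 638) (nuT 638) :=
  sgnL (by decide) eL638 eL639 eL640 qL638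

theorem sL639 : SignP 639 (NNk 639) (nuT 639) :=
  sgnL (by decide) eL639 eL640 eL641 qL639

theorem sL640 : SignP 640 (NNk 640) (nuT 640) :=
  sgnL (by decide) eL640 eL641 eL642 qL640

theorem sL641 : SignP 641 (NNk 641) (nuT 641) :=
  sgnL (by decide) eL641 eL642 eL643 qL641

theorem sL642 : SignP 642 (NNk 642) (nuT 642) :=
  sgnL (by decide) eL642 eL643 eL644 qL642

theorem sL643 : SignP 643 (NNk 643) (nuT 643) :=
  sgnL (by decide) eL643 eL644 eL645 qL643

theorem sL644 : SignP 644 (NNk 644) (nuT 644) :=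
  sgnL (by decide) eL644 eL645 eL646 qL644

theorem sL645 : SignP 645 (NNk 645) (nuT 645) :=
  sgnL (by decide) eL645 eL646 eL647 qL645

theorem sL646 : SignP 646 (NNk 646) (nuT 646) :=
  sgnL (by decide) eL646 eL647 eL648 qL646

theorem sL647 : SignP 647 (NNk 647) (nuT 647) :=
  sgnL (by decide) eL647 eL648 eL649 qL647

theorem sL648 : SignP 648 (NNk 648) (nuT 648) :=
  sgnL (by decide) eL648 eL649 eL650 qL648

theorem sL649 : SignP 649 (NNk 649) (nuT 649) :=
  sgnL (by decide) eL649 eL650 eL651 qL649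

theorem sL650 : SignP 650 (NNk 650) (nuT 650) :=
  sgnL (by decide) eL650 eL651 eL652 qL650

theorem sL651 : SignP 651 (NNk 651) (nuT 651) :=
  sgnL (by decide) eL651 eL652 eL653 qL651

theorem sL652 : SignP 652 (NNk 652) (nuT 652) :=
  sgnL (by decide) eL652 eL653 eL654 qL652

theorem sL653 : SignP 653 (NNk 653) (nuT 653) :=
  sgnL (by decide) eL653 eL654 eL655 qL653

theorem sL654 : SignP 654 (NNk 654) (nuT 654) :=
  sgnL (by decide) eL654 eL655 eL656 qL654

theorem sL655 : SignP 655 (NNk 655) (nuT 655) :=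
  sgnL (by decide) eL655 eL656 eL657 qL655

theorem sL656 : SignP 656 (NNk 656) (nuT 656) :=
  sgnL (by decide) eL656 eL657 eL658 qL656

theorem sL657 : SignP 657 (NNk 657) (nuT 657) :=
  sgnL (by decide) eL657 eL658 eL659 qL657

theorem sL658 : SignP 658 (NNk 658) (nuT 658) :=
  sgnL (by decide) eL658 eL659 eL660 qL658

theorem sL659 : SignP 659 (NNk 659) (nuT 659) :=
  sgnL (by decide) eL659 eL660 eL661 qL659

theorem sL660 : SignP 660 (NNk 660) (nuT 660) :=
  sgnL (by decide) eL660 eL661 eL662 qL660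

theorem sL661 : SignP 661 (NNk 661) (nuT 661) :=
  sgnL (by decide) eL661 eL662 eL663 qL661

theorem sL662 : SignP 662 (NNk 662) (nuT 662) :=
  sgnL (by decide) eL662 eL663 eL664 qL662

theorem sL663 : SignP 663 (NNk 663) (nuT 663) :=
  sgnL (by decide) eL663 eL664 eL665 qL663

theorem sL664 : SignP 664 (NNk 664) (nuT 664) :=
  sgnL (by decide) eL664 eL665 eL666 qL664

theorem sL665 : SignP 665 (NNk 665) (nuT 665) :=
  sgnL (by decide) eL665 eL666 eL667 qL665

theorem sL666 : SignP 666 (NNk 666) (nuT 666) :=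
  sgnL (by decide) eL666 eL667 eL668 qL666

theorem sL667 : SignP 667 (NNk 667) (nuT 667) :=
  sgnL (by decide) eL667 eL668 eL669 qL667

theorem sL668 : SignP 668 (NNk 668) (nuT 668) :=
  sgnL (by decide) eL668 eL669 eL670 qL668

theorem sL669 : SignP 669 (NNk 669) (nuT 669) :=
  sgnL (by decide) eL669 eL670 eL671 qL669

theorem sL670 : SignP 670 (NNk 670) (nuT 670) :=
  sgnL (by decide) eL670 eL671 eL672 qL670

theorem sL671 : SignP 671 (NNk 671) (nuT 671) :=
  sgnL (by decide) eL671 eL672 eL673 qL671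

theorem sL672 : SignP 672 (NNk 672) (nuT 672) :=
  sgnL (by decide) eL672 eL673 eL674 qL672

theorem sL673 : SignP 673 (NNk 673) (nuT 673) :=
  sgnL (by decide) eL673 eL674 eL675 qL673

theorem sL674 : SignP 674 (NNk 674) (nuT 674) :=
  sgnL (by decide) eL674 eL675 eL676 qL674

theorem sL675 : SignP 675 (NNk 675) (nuT 675) :=
  sgnL (by decide) eL675 eL676 eL677 qL675

theorem sL676 : SignP 676 (NNk 676) (nuT 676) :=
  sgnL (by decide) eL676 eL677 eL678 qL676

theorem sL677 : SignP 677 (NNk 677) (nuT 677) :=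
  sgnL (by decide) eL677 eL678 eL679 qL677

theorem sL678 : SignP 678 (NNk 678) (nuT 678) :=
  sgnL (by decide) eL678 eL679 eL680 qL678

theorem sL679 : SignP 679 (NNk 679) (nuT 679) :=
  sgnL (by decide) eL679 eL680 eL681 qL679

theorem sL680 : SignP 680 (NNk 680) (nuT 680) :=
  sgnL (by decide) eL680 eL681 eL682 qL680

theorem sL681 : SignP 681 (NNk 681) (nuT 681) :=
  sgnL (by decide) eL681 eL682 eL683 qL681

theorem sL682 : SignP 682 (NNk 682) (nuT 682) :=
  sgnL (by decide) eL682 eL683 eL684 qL682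

theorem sL683 : SignP 683 (NNk 683) (nuT 683) :=
  sgnL (by decide) eL683 eL684 eL685 qL683

theorem sL684 : SignP 684 (NNk 684) (nuT 684) :=
  sgnL (by decide) eL684 eL685 eL686 qL684

theorem sL685 : SignP 685 (NNk 685) (nuT 685) :=
  sgnL (by decide) eL685 eL686 eL687 qL685

theorem sL686 : SignP 686 (NNk 686) (nuT 686) :=
  sgnL (by decide) eL686 eL687 eL688 qL686

theorem sL687 : SignP 687 (NNk 687) (nuT 687) :=
  sgnL (by decide) eL687 eL688 eL689 qL687

theorem sL688 : SignP 688 (NNk 688) (nuT 688) :=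
  sgnL (by decide) eL688 eL689 eL690 qL688

theorem sL689 : SignP 689 (NNk 689) (nuT 689) :=
  sgnL (by decide) eL689 eL690 eL691 qL689

theorem sL690 : SignP 690 (NNk 690) (nuT 690) :=
  sgnL (by decide) eL690 eL691 eL692 qL690

theorem sL691 : SignP 691 (NNk 691) (nuT 691) :=
  sgnL (by decide) eL691 eL692 eL693 qL691

theorem sL692 : SignP 692 (NNk 692) (nuT 692) :=
  sgnL (by decide) eL692 eL693 eL694 qL692

theorem sL693 : SignP 693 (NNk 693) (nuT 693) :=
  sgnL (by decide) eL693 eL694 eL695 qL693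

theorem sL694 : SignP 694 (NNk 694) (nuT 694) :=
  sgnL (by decide) eL694 eL695 eL696 qL694

theorem sL695 : SignP 695 (NNk 695) (nuT 695) :=
  sgnL (by decide) eL695 eL696 eL697 qL695

theorem sL696 : SignP 696 (NNk 696) (nuT 696) :=
  sgnL (by decide) eL696 eL697 eL698 qL696

theorem sL697 : SignP 697 (NNk 697) (nuT 697) :=
  sgnL (by decide) eL697 eL698 eL699 qL697

theorem sL698 : SignP 698 (NNk 698) (nuT 698) :=
  sgnL (by decide) eL698 eL699 eL700 qL698

theorem sL699 : SignP 699 (NNk 699) (nuT 699) :=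
  sgnL (by decide) eL699 eL700 eL701 qL699

theorem sB600 : ∀ L, 600 ≤ L → L < 610 → SignP L (NNk L) (nuT L) := by
  intro L h1 h2
  interval_cases L
  · exact sL600
  · exact sL601
  · exact sL602
  · exact sL603
  · exact sL604
  · exact sL605
  · exact sL606
  · exact sL607
  · exact sL608
  · exact sL609

theorem sB610 : ∀ L, 610 ≤ L → L < 620 → SignP L (NNk L) (nuT L) := by
  intro L h1 h2
  interval_cases L
  · exact sL610
  · exact sL611
  · exact sL612
  · exact sL613
  · exact sL614
  · exact sL615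
  · exact sL616
  · exact sL617
  · exact sL618
  · exact sL619

theorem sB620 : ∀ L, 620 ≤ L → L < 630 → SignP L (NNk L) (nuT L) := by
  intro L h1 h2
  interval_cases L
  · exact sL620
  · exact sL621
  · exact sL622
  · exact sL623
  · exact sL624
  · exact sL625
  · exact sL626
  · exact sL627
  · exact sL628
  · exact sL629

theorem sB630 : ∀ L, 630 ≤ L → L < 640 → SignP L (NNk L) (nuT L) := by
  intro L h1 h2
  interval_cases L
  · exact sL630
  · exact sL631
  · exact sL632
  · exact sL633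
  · exact sL634
  · exact sL635
  · exact sL636
  · exact sL637
  · exact sL638
  · exact sL639

theorem sB640 : ∀ L, 640 ≤ L → L < 650 → SignP L (NNk L) (nuT L) := by
  intro L h1 h2
  interval_cases L
  · exact sL640
  · exact sL641
  · exact sL642
  · exact sL643
  · exact sL644
  · exact sL645
  · exact sL646
  · exact sL647
  · exact sL648
  · exact sL649

theorem sB650 : ∀ L, 650 ≤ L → L < 660 → SignP L (NNk L) (nuT L) := by
  intro L h1 h2
  interval_cases L
  · exact sL650
  · exact sL651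
  · exact sL652
  · exact sL653
  · exact sL654
  · exact sL655
  · exact sL656
  · exact sL657
  · exact sL658
  · exact sL659

theorem sB660 : ∀ L, 660 ≤ L → L < 670 → SignP L (NNk L) (nuT L) := by
  intro L h1 h2
  interval_cases L
  · exact sL660
  · exact sL661
  · exact sL662
  · exact sL663
  · exact sL664
  · exact sL665
  · exact sL666
  · exact sL667
  · exact sL668
  · exact sL669

theorem sB670 : ∀ L, 670 ≤ L → L < 680 → SignP L (NNk L) (nuT L) := by
  intro L h1 h2
  interval_cases L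
  · exact sL670
  · exact sL671
  · exact sL672
  · exact sL673
  · exact sL674
  · exact sL675
  · exact sL676
  · exact sL677
  · exact sL678
  · exact sL679

theorem sB680 : ∀ L, 680 ≤ L → L < 690 → SignP L (NNk L) (nuT L) := by
  intro L h1 h2
  interval_cases L
  · exact sL680
  · exact sL681
  · exact sL682
  · exact sL683
  · exact sL684
  · exact sL685
  · exact sL686
  · exact sL687
  · exact sL688
  · exact sL689

theorem sB690 : ∀ L, 690 ≤ L → L < 700 → SignP L (NNk L) (nuT L) := by
  intro L h1 h2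
  interval_cases L
  · exact sL690
  · exact sL691
  · exact sL692
  · exact sL693
  · exact sL694
  · exact sL695
  · exact sL696
  · exact sL697
  · exact sL698
  · exact sL699

theorem sG600 : ∀ L, 600 ≤ L → L < 700 → SignP L (NNk L) (nuT L) := by
  intro L h1 h2
  by_cases h600 : L < 610
  · exact sB600 L (by omega) h600
  by_cases h610 : L < 620
  · exact sB610 L (by omega) h610
  by_cases h620 : L < 630
  · exact sB620 L (by omega) h620
  by_cases h630 : L < 640
  · exact sB630 L (by omega) h630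
  by_cases h640 : L < 650
  · exact sB640 L (by omega) h640
  by_cases h650 : L < 660
  · exact sB650 L (by omega) h650
  by_cases h660 : L < 670
  · exact sB660 L (by omega) h660
  by_cases h670 : L < 680
  · exact sB670 L (by omega) h670
  by_cases h680 : L < 690
  · exact sB680 L (by omega) h680
  by_cases h690 : L < 700
  · exact sB690 L (by omega) h690
  omega

end Pool.Agent.MP_9da1e3_co
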