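import Pool.Agent.Lib.MP_9da1e3_co.KcE700
import Pool.Agent.Lib.MP_9da1e3_co.KcE710

set_option maxRecDepth 100000

namespace Pool.Agent.MP_9da1e3_co

theorem qL700 : ckS 72 700 1780 (nuT 700) 11 (cert 700 CL700) (cert 701 CL701)
    (cert 702 CL702) = true := by decide +kernel

theorem qL701 : ckS 72 701 1782 (nuT 701) 11 (cert 701 CL701) (cert 702 CL702)
    (cert 703 CL703) = true := by decide +kernel

theorem qL702 : ckS 72 702 1785 (nuT 702) 11 (cert 702 CL702) (cert 703 CL703)
    (cert 704 CL704) = true := by decide +kernel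

theorem qL703 : ckS 72 703 1787 (nuT 703) 11 (cert 703 CL703) (cert 704 CL704)
    (cert 705 CL705) = true := by decide +kernel

theorem qL704 : ckS 72 704 1790 (nuT 704) 11 (cert 704 CL704) (cert 705 CL705)
    (cert 706 CL706) = true := by decide +kernel

theorem qL705 : ckS 72 705 1792 (nuT 705) 11 (cert 705 CL705) (cert 706 CL706)
    (cert 707 CL707) = true := by decide +kernel

theorem qL706 : ckS 72 706 1795 (nuT 706) 11 (cert 706 CL706) (cert 707 CL707)
    (cert 708 CL708) = true := by decide +kernel

theorem qL707 : ckS 72 707 1797 (nuT 707) 11 (cert 707 CL707) (cert 708 CL708)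
    (cert 709 CL709) = true := by decide +kernel

theorem qL708 : ckS 72 708 1800 (nuT 708) 11 (cert 708 CL708) (cert 709 CL709)
    (cert 710 CL710) = true := by decide +kernel

theorem qL709 : ckS 72 709 1802 (nuT 709) 11 (cert 709 CL709) (cert 710 CL710)
    (cert 711 CL711) = true := by decide +kernel

end Pool.Agent.MP_9da1e3_co
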