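import Pool.Agent.Lib.MP_9da1e3_co.KcE710
import Pool.Agent.Lib.MP_9da1e3_co.KcE720

set_option maxRecDepth 100000

namespace Pool.Agent.MP_9da1e3_co

theorem qL710 : ckS 72 710 1805 (nuT 710) 11 (cert 710 CL710) (cert 711 CL711)
    (cert 712 CL712) = true := by decide +kernel

theorem qL711 : ckS 72 711 1807 (nuT 711) 11 (cert 711 CL711) (cert 712 CL712)
    (cert 713 CL713) = true := by decide +kernel

theorem qL712 : ckS 72 712 1810 (nuT 712) 11 (cert 712 CL712) (cert 713 CL713)
    (cert 714 CL714) = true := by decide +kernel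

theorem qL713 : ckS 72 713 1812 (nuT 713) 11 (cert 713 CL713) (cert 714 CL714)
    (cert 715 CL715) = true := by decide +kernel

theorem qL714 : ckS 72 714 1815 (nuT 714) 11 (cert 714 CL714) (cert 715 CL715)
    (cert 716 CL716) = true := by decide +kernel

theorem qL715 : ckS 72 715 1817 (nuT 715) 11 (cert 715 CL715) (cert 716 CL716)
    (cert 717 CL717) = true := by decide +kernel

theorem qL716 : ckS 72 716 1820 (nuT 716) 11 (cert 716 CL716) (cert 717 CL717)
    (cert 718 CL718) = true := by decide +kernel

theorem qL717 : ckS 72 717 1822 (nuT 717) 11 (cert 717 CL717) (cert 718 CL718)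
    (cert 719 CL719) = true := by decide +kernel

theorem qL718 : ckS 72 718 1825 (nuT 718) 11 (cert 718 CL718) (cert 719 CL719)
    (cert 720 CL720) = true := by decide +kernel

theorem qL719 : ckS 72 719 1827 (nuT 719) 11 (cert 719 CL719) (cert 720 CL720)
    (cert 721 CL721) = true := by decide +kernel

end Pool.Agent.MP_9da1e3_co
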