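import Pool.Agent.Lib.MP_9da1e3_co.KcE720
import Pool.Agent.Lib.MP_9da1e3_co.KcE730

set_option maxRecDepth 100000

namespace Pool.Agent.MP_9da1e3_co

theorem qL720 : ckS 72 720 1830 (nuT 720) 11 (cert 720 CL720) (cert 721 CL721)
    (cert 722 CL722) = true := by decide +kernel

theorem qL721 : ckS 72 721 1832 (nuT 721) 11 (cert 721 CL721) (cert 722 CL722)
    (cert 723 CL723) = true := by decide +kernel

theorem qL722 : ckS 72 722 1835 (nuT 722) 11 (cert 722 CL722) (cert 723 CL723)
    (cert 724 CL724) = true := by decide +kernel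

theorem qL723 : ckS 72 723 1837 (nuT 723) 11 (cert 723 CL723) (cert 724 CL724)
    (cert 725 CL725) = true := by decide +kernel

theorem qL724 : ckS 72 724 1840 (nuT 724) 11 (cert 724 CL724) (cert 725 CL725)
    (cert 726 CL726) = true := by decide +kernel

theorem qL725 : ckS 72 725 1842 (nuT 725) 11 (cert 725 CL725) (cert 726 CL726)
    (cert 727 CL727) = true := by decide +kernel

theorem qL726 : ckS 72 726 1845 (nuT 726) 11 (cert 726 CL726) (cert 727 CL727)
    (cert 728 CL728) = true := by decide +kernel

theorem qL727 : ckS 72 727 1847 (nuT 727) 11 (cert 727 CL727) (cert 728 CL728)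
    (cert 729 CL729) = true := by decide +kernel

theorem qL728 : ckS 72 728 1850 (nuT 728) 11 (cert 728 CL728) (cert 729 CL729)
    (cert 730 CL730) = true := by decide +kernel

theorem qL729 : ckS 72 729 1852 (nuT 729) 11 (cert 729 CL729) (cert 730 CL730)
    (cert 731 CL731) = true := by decide +kernel

end Pool.Agent.MP_9da1e3_co
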