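import Pool.Agent.Lib.MP_9da1e3_co.KcE730
import Pool.Agent.Lib.MP_9da1e3_co.KcE740

set_option maxRecDepth 100000

namespace Pool.Agent.MP_9da1e3_co

theorem qL730 : ckS 72 730 1855 (nuT 730) 11 (cert 730 CL730) (cert 731 CL731)
    (cert 732 CL732) = true := by decide +kernel

theorem qL731 : ckS 72 731 1857 (nuT 731) 11 (cert 731 CL731) (cert 732 CL732)
    (cert 733 CL733) = true := by decide +kernel

theorem qL732 : ckS 72 732 1860 (nuT 732) 11 (cert 732 CL732) (cert 733 CL733)
    (cert 734 CL734) = true := by decide +kernel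

theorem qL733 : ckS 72 733 1862 (nuT 733) 11 (cert 733 CL733) (cert 734 CL734)
    (cert 735 CL735) = true := by decide +kernel

theorem qL734 : ckS 72 734 1865 (nuT 734) 11 (cert 734 CL734) (cert 735 CL735)
    (cert 736 CL736) = true := by decide +kernel

theorem qL735 : ckS 72 735 1867 (nuT 735) 11 (cert 735 CL735) (cert 736 CL736)
    (cert 737 CL737) = true := by decide +kernel

theorem qL736 : ckS 72 736 1870 (nuT 736) 11 (cert 736 CL736) (cert 737 CL737)
    (cert 738 CL738) = true := by decide +kernel

theorem qL737 : ckS 72 737 1872 (nuT 737) 11 (cert 737 CL737) (cert 738 CL738)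
    (cert 739 CL739) = true := by decide +kernel

theorem qL738 : ckS 72 738 1875 (nuT 738) 11 (cert 738 CL738) (cert 739 CL739)
    (cert 740 CL740) = true := by decide +kernel

theorem qL739 : ckS 72 739 1877 (nuT 739) 11 (cert 739 CL739) (cert 740 CL740)
    (cert 741 CL741) = true := by decide +kernel

end Pool.Agent.MP_9da1e3_co
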