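import Pool.Agent.Lib.MP_9da1e3_co.KcE740
import Pool.Agent.Lib.MP_9da1e3_co.KcE750

set_option maxRecDepth 100000

namespace Pool.Agent.MP_9da1e3_co

theorem qL740 : ckS 72 740 1880 (nuT 740) 11 (cert 740 CL740) (cert 741 CL741)
    (cert 742 CL742) = true := by decide +kernel

theorem qL741 : ckS 72 741 1882 (nuT 741) 11 (cert 741 CL741) (cert 742 CL742)
    (cert 743 CL743) = true := by decide +kernel

theorem qL742 : ckS 72 742 1885 (nuT 742) 11 (cert 742 CL742) (cert 743 CL743)
    (cert 744 CL744) = true := by decide +kernel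

theorem qL743 : ckS 72 743 1887 (nuT 743) 11 (cert 743 CL743) (cert 744 CL744)
    (cert 745 CL745) = true := by decide +kernel

theorem qL744 : ckS 72 744 1890 (nuT 744) 11 (cert 744 CL744) (cert 745 CL745)
    (cert 746 CL746) = true := by decide +kernel

theorem qL745 : ckS 72 745 1892 (nuT 745) 11 (cert 745 CL745) (cert 746 CL746)
    (cert 747 CL747) = true := by decide +kernel

theorem qL746 : ckS 72 746 1895 (nuT 746) 11 (cert 746 CL746) (cert 747 CL747)
    (cert 748 CL748) = true := by decide +kernel

theorem qL747 : ckS 72 747 1897 (nuT 747) 11 (cert 747 CL747) (cert 748 CL748)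
    (cert 749 CL749) = true := by decide +kernel

theorem qL748 : ckS 72 748 1900 (nuT 748) 11 (cert 748 CL748) (cert 749 CL749)
    (cert 750 CL750) = true := by decide +kernel

theorem qL749 : ckS 72 749 1902 (nuT 749) 11 (cert 749 CL749) (cert 750 CL750)
    (cert 751 CL751) = true := by decide +kernel

end Pool.Agent.MP_9da1e3_co
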