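import Pool.Agent.Lib.MP_9da1e3_co.KcE750
import Pool.Agent.Lib.MP_9da1e3_co.KcE760

set_option maxRecDepth 100000

namespace Pool.Agent.MP_9da1e3_co

theorem qL750 : ckS 72 750 1905 (nuT 750) 11 (cert 750 CL750) (cert 751 CL751)
    (cert 752 CL752) = true := by decide +kernel

theorem qL751 : ckS 72 751 1907 (nuT 751) 11 (cert 751 CL751) (cert 752 CL752)
    (cert 753 CL753) = true := by decide +kernel

theorem qL752 : ckS 72 752 1910 (nuT 752) 11 (cert 752 CL752) (cert 753 CL753)
    (cert 754 CL754) = true := by decide +kernel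

theorem qL753 : ckS 72 753 1912 (nuT 753) 11 (cert 753 CL753) (cert 754 CL754)
    (cert 755 CL755) = true := by decide +kernel

theorem qL754 : ckS 72 754 1915 (nuT 754) 11 (cert 754 CL754) (cert 755 CL755)
    (cert 756 CL756) = true := by decide +kernel

theorem qL755 : ckS 72 755 1917 (nuT 755) 11 (cert 755 CL755) (cert 756 CL756)
    (cert 757 CL757) = true := by decide +kernel

theorem qL756 : ckS 72 756 1920 (nuT 756) 11 (cert 756 CL756) (cert 757 CL757)
    (cert 758 CL758) = true := by decide +kernel

theorem qL757 : ckS 72 757 1922 (nuT 757) 11 (cert 757 CL757) (cert 758 CL758)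
    (cert 759 CL759) = true := by decide +kernel

theorem qL758 : ckS 72 758 1925 (nuT 758) 11 (cert 758 CL758) (cert 759 CL759)
    (cert 760 CL760) = true := by decide +kernel

theorem qL759 : ckS 72 759 1927 (nuT 759) 11 (cert 759 CL759) (cert 760 CL760)
    (cert 761 CL761) = true := by decide +kernel

end Pool.Agent.MP_9da1e3_co
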