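import Pool.Agent.Lib.MP_9da1e3_co.KcE760
import Pool.Agent.Lib.MP_9da1e3_co.KcE770

set_option maxRecDepth 100000

namespace Pool.Agent.MP_9da1e3_co

theorem qL760 : ckS 72 760 1930 (nuT 760) 11 (cert 760 CL760) (cert 761 CL761)
    (cert 762 CL762) = true := by decide +kernel

theorem qL761 : ckS 72 761 1932 (nuT 761) 11 (cert 761 CL761) (cert 762 CL762)
    (cert 763 CL763) = true := by decide +kernel

theorem qL762 : ckS 72 762 1935 (nuT 762) 11 (cert 762 CL762) (cert 763 CL763)
    (cert 764 CL764) = true := by decide +kernel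

theorem qL763 : ckS 72 763 1937 (nuT 763) 11 (cert 763 CL763) (cert 764 CL764)
    (cert 765 CL765) = true := by decide +kernel

theorem qL764 : ckS 72 764 1940 (nuT 764) 11 (cert 764 CL764) (cert 765 CL765)
    (cert 766 CL766) = true := by decide +kernel

theorem qL765 : ckS 72 765 1942 (nuT 765) 11 (cert 765 CL765) (cert 766 CL766)
    (cert 767 CL767) = true := by decide +kernel

theorem qL766 : ckS 72 766 1945 (nuT 766) 11 (cert 766 CL766) (cert 767 CL767)
    (cert 768 CL768) = true := by decide +kernel

theorem qL767 : ckS 72 767 1947 (nuT 767) 11 (cert 767 CL767) (cert 768 CL768)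
    (cert 769 CL769) = true := by decide +kernel

theorem qL768 : ckS 72 768 1950 (nuT 768) 11 (cert 768 CL768) (cert 769 CL769)
    (cert 770 CL770) = true := by decide +kernel

theorem qL769 : ckS 72 769 1952 (nuT 769) 11 (cert 769 CL769) (cert 770 CL770)
    (cert 771 CL771) = true := by decide +kernel

end Pool.Agent.MP_9da1e3_co
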