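import Pool.Agent.Lib.MP_9da1e3_co.KcE770
import Pool.Agent.Lib.MP_9da1e3_co.KcE780

set_option maxRecDepth 100000

namespace Pool.Agent.MP_9da1e3_co

theorem qL770 : ckS 72 770 1955 (nuT 770) 11 (cert 770 CL770) (cert 771 CL771)
    (cert 772 CL772) = true := by decide +kernel

theorem qL771 : ckS 72 771 1957 (nuT 771) 11 (cert 771 CL771) (cert 772 CL772)
    (cert 773 CL773) = true := by decide +kernel

theorem qL772 : ckS 72 772 1960 (nuT 772) 11 (cert 772 CL772) (cert 773 CL773)
    (cert 774 CL774) = true := by decide +kernel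

theorem qL773 : ckS 72 773 1962 (nuT 773) 11 (cert 773 CL773) (cert 774 CL774)
    (cert 775 CL775) = true := by decide +kernel

theorem qL774 : ckS 72 774 1965 (nuT 774) 11 (cert 774 CL774) (cert 775 CL775)
    (cert 776 CL776) = true := by decide +kernel

theorem qL775 : ckS 72 775 1967 (nuT 775) 11 (cert 775 CL775) (cert 776 CL776)
    (cert 777 CL777) = true := by decide +kernel

theorem qL776 : ckS 72 776 1970 (nuT 776) 11 (cert 776 CL776) (cert 777 CL777)
    (cert 778 CL778) = true := by decide +kernel

theorem qL777 : ckS 72 777 1972 (nuT 777) 11 (cert 777 CL777) (cert 778 CL778)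
    (cert 779 CL779) = true := by decide +kernel

theorem qL778 : ckS 72 778 1975 (nuT 778) 11 (cert 778 CL778) (cert 779 CL779)
    (cert 780 CL780) = true := by decide +kernel

theorem qL779 : ckS 72 779 1977 (nuT 779) 11 (cert 779 CL779) (cert 780 CL780)
    (cert 781 CL781) = true := by decide +kernel

end Pool.Agent.MP_9da1e3_co
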