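import Pool.Agent.Lib.MP_9da1e3_co.KcE780
import Pool.Agent.Lib.MP_9da1e3_co.KcE790

set_option maxRecDepth 100000

namespace Pool.Agent.MP_9da1e3_co

theorem qL780 : ckS 72 780 1980 (nuT 780) 11 (cert 780 CL780) (cert 781 CL781)
    (cert 782 CL782) = true := by decide +kernel

theorem qL781 : ckS 72 781 1982 (nuT 781) 11 (cert 781 CL781) (cert 782 CL782)
    (cert 783 CL783) = true := by decide +kernel

theorem qL782 : ckS 72 782 1985 (nuT 782) 11 (cert 782 CL782) (cert 783 CL783)
    (cert 784 CL784) = true := by decide +kernel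

theorem qL783 : ckS 72 783 1987 (nuT 783) 11 (cert 783 CL783) (cert 784 CL784)
    (cert 785 CL785) = true := by decide +kernel

theorem qL784 : ckS 72 784 1990 (nuT 784) 11 (cert 784 CL784) (cert 785 CL785)
    (cert 786 CL786) = true := by decide +kernel

theorem qL785 : ckS 72 785 1992 (nuT 785) 11 (cert 785 CL785) (cert 786 CL786)
    (cert 787 CL787) = true := by decide +kernel

theorem qL786 : ckS 72 786 1995 (nuT 786) 11 (cert 786 CL786) (cert 787 CL787)
    (cert 788 CL788) = true := by decide +kernel

theorem qL787 : ckS 72 787 1997 (nuT 787) 11 (cert 787 CL787) (cert 788 CL788)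
    (cert 789 CL789) = true := by decide +kernel

theorem qL788 : ckS 72 788 2000 (nuT 788) 11 (cert 788 CL788) (cert 789 CL789)
    (cert 790 CL790) = true := by decide +kernel

theorem qL789 : ckS 72 789 2002 (nuT 789) 11 (cert 789 CL789) (cert 790 CL790)
    (cert 791 CL791) = true := by decide +kernel

end Pool.Agent.MP_9da1e3_co
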