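import Pool.Agent.Lib.MP_9da1e3_co.KcE790
import Pool.Agent.Lib.MP_9da1e3_co.KcE800

set_option maxRecDepth 100000

namespace Pool.Agent.MP_9da1e3_co

theorem qL790 : ckS 72 790 2005 (nuT 790) 11 (cert 790 CL790) (cert 791 CL791)
    (cert 792 CL792) = true := by decide +kernel

theorem qL791 : ckS 72 791 2007 (nuT 791) 11 (cert 791 CL791) (cert 792 CL792)
    (cert 793 CL793) = true := by decide +kernel

theorem qL792 : ckS 72 792 2010 (nuT 792) 11 (cert 792 CL792) (cert 793 CL793)
    (cert 794 CL794) = true := by decide +kernel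

theorem qL793 : ckS 72 793 2012 (nuT 793) 11 (cert 793 CL793) (cert 794 CL794)
    (cert 795 CL795) = true := by decide +kernel

theorem qL794 : ckS 72 794 2015 (nuT 794) 11 (cert 794 CL794) (cert 795 CL795)
    (cert 796 CL796) = true := by decide +kernel

theorem qL795 : ckS 72 795 2017 (nuT 795) 11 (cert 795 CL795) (cert 796 CL796)
    (cert 797 CL797) = true := by decide +kernel

theorem qL796 : ckS 72 796 2020 (nuT 796) 11 (cert 796 CL796) (cert 797 CL797)
    (cert 798 CL798) = true := by decide +kernel

theorem qL797 : ckS 72 797 2022 (nuT 797) 11 (cert 797 CL797) (cert 798 CL798)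
    (cert 799 CL799) = true := by decide +kernel

theorem qL798 : ckS 72 798 2025 (nuT 798) 11 (cert 798 CL798) (cert 799 CL799)
    (cert 800 CL800) = true := by decide +kernel

theorem qL799 : ckS 72 799 2027 (nuT 799) 11 (cert 799 CL799) (cert 800 CL800)
    (cert 801 CL801) = true := by decide +kernel

end Pool.Agent.MP_9da1e3_co
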