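import Pool.Agent.Lib.MP_9da1e3_co.Kc4
import Pool.Agent.Lib.MP_9da1e3_co.KcS700
import Pool.Agent.Lib.MP_9da1e3_co.KcS710
import Pool.Agent.Lib.MP_9da1e3_co.KcS720
import Pool.Agent.Lib.MP_9da1e3_co.KcS730
import Pool.Agent.Lib.MP_9da1e3_co.KcS740
import Pool.Agent.Lib.MP_9da1e3_co.KcS750
import Pool.Agent.Lib.MP_9da1e3_co.KcS760
import Pool.Agent.Lib.MP_9da1e3_co.KcS770
import Pool.Agent.Lib.MP_9da1e3_co.KcS780
import Pool.Agent.Lib.MP_9da1e3_co.KcS790

namespace Pool.Agent.MP_9da1e3_co

theorem sL700 : SignP 700 (NNk 700) (nuT 700) :=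
  sgnL (by decide) eL700 eL701 eL702 qL700

theorem sL701 : SignP 701 (NNk 701) (nuT 701) :=
  sgnL (by decide) eL701 eL702 eL703 qL701

theorem sL702 : SignP 702 (NNk 702) (nuT 702) :=
  sgnL (by decide) eL702 eL703 eL704 qL702

theorem sL703 : SignP 703 (NNk 703) (nuT 703) :=
  sgnL (by decide) eL703 eL704 eL705 qL703

theorem sL704 : SignP 704 (NNk 704) (nuT 704) :=
  sgnL (by decide) eL704 eL705 eL706 qL704

theorem sL705 : SignP 705 (NNk 705) (nuT 705) :=
  sgnL (by decide) eL705 eL706 eL707 qL705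

theorem sL706 : SignP 706 (NNk 706) (nuT 706) :=
  sgnL (by decide) eL706 eL707 eL708 qL706

theorem sL707 : SignP 707 (NNk 707) (nuT 707) :=
  sgnL (by decide) eL707 eL708 eL709 qL707

theorem sL708 : SignP 708 (NNk 708) (nuT 708) :=
  sgnL (by decide) eL708 eL709 eL710 qL708

theorem sL709 : SignP 709 (NNk 709) (nuT 709) :=
  sgnL (by decide) eL709 eL710 eL711 qL709

theorem sL710 : SignP 710 (NNk 710) (nuT 710) :=
  sgnL (by decide) eL710 eL711 eL712 qL710

theorem sL711 : SignP 711 (NNk 711) (nuT 711) :=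
  sgnL (by decide) eL711 eL712 eL713 qL711

theorem sL712 : SignP 712 (NNk 712) (nuT 712) :=
  sgnL (by decide) eL712 eL713 eL714 qL712

theorem sL713 : SignP 713 (NNk 713) (nuT 713) :=
  sgnL (by decide) eL713 eL714 eL715 qL713

theorem sL714 : SignP 714 (NNk 714) (nuT 714) :=
  sgnL (by decide) eL714 eL715 eL716 qL714

theorem sL715 : SignP 715 (NNk 715) (nuT 715) :=
  sgnL (by decide) eL715 eL716 eL717 qL715

theorem sL716 : SignP 716 (NNk 716) (nuT 716) :=
  sgnL (by decide) eL716 eL717 eL718 qL716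

theorem sL717 : SignP 717 (NNk 717) (nuT 717) :=
  sgnL (by decide) eL717 eL718 eL719 qL717

theorem sL718 : SignP 718 (NNk 718) (nuT 718) :=
  sgnL (by decide) eL718 eL719 eL720 qL718

theorem sL719 : SignP 719 (NNk 719) (nuT 719) :=
  sgnL (by decide) eL719 eL720 eL721 qL719

theorem sL720 : SignP 720 (NNk 720) (nuT 720) :=
  sgnL (by decide) eL720 eL721 eL722 qL720

theorem sL721 : SignP 721 (NNk 721) (nuT 721) :=
  sgnL (by decide) eL721 eL722 eL723 qL721

theorem sL722 : SignP 722 (NNk 722) (nuT 722) :=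
  sgnL (by decide) eL722 eL723 eL724 qL722

theorem sL723 : SignP 723 (NNk 723) (nuT 723) :=
  sgnL (by decide) eL723 eL724 eL725 qL723

theorem sL724 : SignP 724 (NNk 724) (nuT 724) :=
  sgnL (by decide) eL724 eL725 eL726 qL724

theorem sL725 : SignP 725 (NNk 725) (nuT 725) :=
  sgnL (by decide) eL725 eL726 eL727 qL725

theorem sL726 : SignP 726 (NNk 726) (nuT 726) :=
  sgnL (by decide) eL726 eL727 eL728 qL726

theorem sL727 : SignP 727 (NNk 727) (nuT 727) :=
  sgnL (by decide) eL727 eL728 eL729 qL727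

theorem sL728 : SignP 728 (NNk 728) (nuT 728) :=
  sgnL (by decide) eL728 eL729 eL730 qL728

theorem sL729 : SignP 729 (NNk 729) (nuT 729) :=
  sgnL (by decide) eL729 eL730 eL731 qL729

theorem sL730 : SignP 730 (NNk 730) (nuT 730) :=
  sgnL (by decide) eL730 eL731 eL732 qL730

theorem sL731 : SignP 731 (NNk 731) (nuT 731) :=
  sgnL (by decide) eL731 eL732 eL733 qL731

theorem sL732 : SignP 732 (NNk 732) (nuT 732) :=
  sgnL (by decide) eL732 eL733 eL734 qL732

theorem sL733 : SignP 733 (NNk 733) (nuT 733) :=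
  sgnL (by decide) eL733 eL734 eL735 qL733

theorem sL734 : SignP 734 (NNk 734) (nuT 734) :=
  sgnL (by decide) eL734 eL735 eL736 qL734

theorem sL735 : SignP 735 (NNk 735) (nuT 735) :=
  sgnL (by decide) eL735 eL736 eL737 qL735

theorem sL736 : SignP 736 (NNk 736) (nuT 736) :=
  sgnL (by decide) eL736 eL737 eL738 qL736

theorem sL737 : SignP 737 (NNk 737) (nuT 737) :=
  sgnL (by decide) eL737 eL738 eL739 qL737

theorem sL738 : SignP 738 (NNk 738) (nuT 738) :=
  sgnL (by decide) eL738 eL739 eL740 qL738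

theorem sL739 : SignP 739 (NNk 739) (nuT 739) :=
  sgnL (by decide) eL739 eL740 eL741 qL739

theorem sL740 : SignP 740 (NNk 740) (nuT 740) :=
  sgnL (by decide) eL740 eL741 eL742 qL740

theorem sL741 : SignP 741 (NNk 741) (nuT 741) :=
  sgnL (by decide) eL741 eL742 eL743 qL741

theorem sL742 : SignP 742 (NNk 742) (nuT 742) :=
  sgnL (by decide) eL742 eL743 eL744 qL742

theorem sL743 : SignP 743 (NNk 743) (nuT 743) :=
  sgnL (by decide) eL743 eL744 eL745 qL743

theorem sL744 : SignP 744 (NNk 744) (nuT 744) :=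
  sgnL (by decide) eL744 eL745 eL746 qL744

theorem sL745 : SignP 745 (NNk 745) (nuT 745) :=
  sgnL (by decide) eL745 eL746 eL747 qL745

theorem sL746 : SignP 746 (NNk 746) (nuT 746) :=
  sgnL (by decide) eL746 eL747 eL748 qL746

theorem sL747 : SignP 747 (NNk 747) (nuT 747) :=
  sgnL (by decide) eL747 eL748 eL749 qL747

theorem sL748 : SignP 748 (NNk 748) (nuT 748) :=
  sgnL (by decide) eL748 eL749 eL750 qL748

theorem sL749 : SignP 749 (NNk 749) (nuT 749) :=
  sgnL (by decide) eL749 eL750 eL751 qL749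

theorem sL750 : SignP 750 (NNk 750) (nuT 750) :=
  sgnL (by decide) eL750 eL751 eL752 qL750

theorem sL751 : SignP 751 (NNk 751) (nuT 751) :=
  sgnL (by decide) eL751 eL752 eL753 qL751

theorem sL752 : SignP 752 (NNk 752) (nuT 752) :=
  sgnL (by decide) eL752 eL753 eL754 qL752

theorem sL753 : SignP 753 (NNk 753) (nuT 753) :=
  sgnL (by decide) eL753 eL754 eL755 qL753

theorem sL754 : SignP 754 (NNk 754) (nuT 754) :=
  sgnL (by decide) eL754 eL755 eL756 qL754

theorem sL755 : SignP 755 (NNk 755) (nuT 755) :=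
  sgnL (by decide) eL755 eL756 eL757 qL755

theorem sL756 : SignP 756 (NNk 756) (nuT 756) :=
  sgnL (by decide) eL756 eL757 eL758 qL756

theorem sL757 : SignP 757 (NNk 757) (nuT 757) :=
  sgnL (by decide) eL757 eL758 eL759 qL757

theorem sL758 : SignP 758 (NNk 758) (nuT 758) :=
  sgnL (by decide) eL758 eL759 eL760 qL758

theorem sL759 : SignP 759 (NNk 759) (nuT 759) :=
  sgnL (by decide) eL759 eL760 eL761 qL759

theorem sL760 : SignP 760 (NNk 760) (nuT 760) :=
  sgnL (by decide) eL760 eL761 eL762 qL760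

theorem sL761 : SignP 761 (NNk 761) (nuT 761) :=
  sgnL (by decide) eL761 eL762 eL763 qL761

theorem sL762 : SignP 762 (NNk 762) (nuT 762) :=
  sgnL (by decide) eL762 eL763 eL764 qL762

theorem sL763 : SignP 763 (NNk 763) (nuT 763) :=
  sgnL (by decide) eL763 eL764 eL765 qL763

theorem sL764 : SignP 764 (NNk 764) (nuT 764) :=
  sgnL (by decide) eL764 eL765 eL766 qL764

theorem sL765 : SignP 765 (NNk 765) (nuT 765) :=
  sgnL (by decide) eL765 eL766 eL767 qL765

theorem sL766 : SignP 766 (NNk 766) (nuT 766) :=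
  sgnL (by decide) eL766 eL767 eL768 qL766

theorem sL767 : SignP 767 (NNk 767) (nuT 767) :=
  sgnL (by decide) eL767 eL768 eL769 qL767

theorem sL768 : SignP 768 (NNk 768) (nuT 768) :=
  sgnL (by decide) eL768 eL769 eL770 qL768

theorem sL769 : SignP 769 (NNk 769) (nuT 769) :=
  sgnL (by decide) eL769 eL770 eL771 qL769

theorem sL770 : SignP 770 (NNk 770) (nuT 770) :=
  sgnL (by decide) eL770 eL771 eL772 qL770

theorem sL771 : SignP 771 (NNk 771) (nuT 771) :=
  sgnL (by decide) eL771 eL772 eL773 qL771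

theorem sL772 : SignP 772 (NNk 772) (nuT 772) :=
  sgnL (by decide) eL772 eL773 eL774 qL772

theorem sL773 : SignP 773 (NNk 773) (nuT 773) :=
  sgnL (by decide) eL773 eL774 eL775 qL773

theorem sL774 : SignP 774 (NNk 774) (nuT 774) :=
  sgnL (by decide) eL774 eL775 eL776 qL774

theorem sL775 : SignP 775 (NNk 775) (nuT 775) :=
  sgnL (by decide) eL775 eL776 eL777 qL775

theorem sL776 : SignP 776 (NNk 776) (nuT 776) :=
  sgnL (by decide) eL776 eL777 eL778 qL776

theorem sL777 : SignP 777 (NNk 777) (nuT 777) :=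
  sgnL (by decide) eL777 eL778 eL779 qL777

theorem sL778 : SignP 778 (NNk 778) (nuT 778) :=
  sgnL (by decide) eL778 eL779 eL780 qL778

theorem sL779 : SignP 779 (NNk 779) (nuT 779) :=
  sgnL (by decide) eL779 eL780 eL781 qL779

theorem sL780 : SignP 780 (NNk 780) (nuT 780) :=
  sgnL (by decide) eL780 eL781 eL782 qL780

theorem sL781 : SignP 781 (NNk 781) (nuT 781) :=
  sgnL (by decide) eL781 eL782 eL783 qL781

theorem sL782 : SignP 782 (NNk 782) (nuT 782) :=
  sgnL (by decide) eL782 eL783 eL784 qL782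

theorem sL783 : SignP 783 (NNk 783) (nuT 783) :=
  sgnL (by decide) eL783 eL784 eL785 qL783

theorem sL784 : SignP 784 (NNk 784) (nuT 784) :=
  sgnL (by decide) eL784 eL785 eL786 qL784

theorem sL785 : SignP 785 (NNk 785) (nuT 785) :=
  sgnL (by decide) eL785 eL786 eL787 qL785

theorem sL786 : SignP 786 (NNk 786) (nuT 786) :=
  sgnL (by decide) eL786 eL787 eL788 qL786

theorem sL787 : SignP 787 (NNk 787) (nuT 787) :=
  sgnL (by decide) eL787 eL788 eL789 qL787

theorem sL788 : SignP 788 (NNk 788) (nuT 788) :=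
  sgnL (by decide) eL788 eL789 eL790 qL788

theorem sL789 : SignP 789 (NNk 789) (nuT 789) :=
  sgnL (by decide) eL789 eL790 eL791 qL789

theorem sL790 : SignP 790 (NNk 790) (nuT 790) :=
  sgnL (by decide) eL790 eL791 eL792 qL790

theorem sL791 : SignP 791 (NNk 791) (nuT 791) :=
  sgnL (by decide) eL791 eL792 eL793 qL791

theorem sL792 : SignP 792 (NNk 792) (nuT 792) :=
  sgnL (by decide) eL792 eL793 eL794 qL792

theorem sL793 : SignP 793 (NNk 793) (nuT 793) :=
  sgnL (by decide) eL793 eL794 eL795 qL793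

theorem sL794 : SignP 794 (NNk 794) (nuT 794) :=
  sgnL (by decide) eL794 eL795 eL796 qL794

theorem sL795 : SignP 795 (NNk 795) (nuT 795) :=
  sgnL (by decide) eL795 eL796 eL797 qL795

theorem sL796 : SignP 796 (NNk 796) (nuT 796) :=
  sgnL (by decide) eL796 eL797 eL798 qL796

theorem sL797 : SignP 797 (NNk 797) (nuT 797) :=
  sgnL (by decide) eL797 eL798 eL799 qL797

theorem sL798 : SignP 798 (NNk 798) (nuT 798) :=
  sgnL (by decide) eL798 eL799 eL800 qL798

theorem sL799 : SignP 799 (NNk 799) (nuT 799) :=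
  sgnL (by decide) eL799 eL800 eL801 qL799

theorem sB700 : ∀ L, 700 ≤ L → L < 710 → SignP L (NNk L) (nuT L) := by
  intro L h1 h2
  interval_cases L
  · exact sL700
  · exact sL701
  · exact sL702
  · exact sL703
  · exact sL704
  · exact sL705
  · exact sL706
  · exact sL707
  · exact sL708
  · exact sL709

theorem sB710 : ∀ L, 710 ≤ L → L < 720 → SignP L (NNk L) (nuT L) := by
  intro L h1 h2
  interval_cases L
  · exact sL710
  · exact sL711
  · exact sL712
  · exact sL713
  · exact sL714
  · exact sL715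
  · exact sL716
  · exact sL717
  · exact sL718
  · exact sL719

theorem sB720 : ∀ L, 720 ≤ L → L < 730 → SignP L (NNk L) (nuT L) := by
  intro L h1 h2
  interval_cases L
  · exact sL720
  · exact sL721
  · exact sL722
  · exact sL723
  · exact sL724
  · exact sL725
  · exact sL726
  · exact sL727
  · exact sL728
  · exact sL729

theorem sB730 : ∀ L, 730 ≤ L → L < 740 → SignP L (NNk L) (nuT L) := by
  intro L h1 h2
  interval_cases L
  · exact sL730
  · exact sL731
  · exact sL732
  · exact sL733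
  · exact sL734
  · exact sL735
  · exact sL736
  · exact sL737
  · exact sL738
  · exact sL739

theorem sB740 : ∀ L, 740 ≤ L → L < 750 → SignP L (NNk L) (nuT L) := by
  intro L h1 h2
  interval_cases L
  · exact sL740
  · exact sL741
  · exact sL742
  · exact sL743
  · exact sL744
  · exact sL745
  · exact sL746
  · exact sL747
  · exact sL748
  · exact sL749

theorem sB750 : ∀ L, 750 ≤ L → L < 760 → SignP L (NNk L) (nuT L) := by
  intro L h1 h2
  interval_cases L
  · exact sL750
  · exact sL751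
  · exact sL752
  · exact sL753
  · exact sL754
  · exact sL755
  · exact sL756
  · exact sL757
  · exact sL758
  · exact sL759

theorem sB760 : ∀ L, 760 ≤ L → L < 770 → SignP L (NNk L) (nuT L) := by
  intro L h1 h2
  interval_cases L
  · exact sL760
  · exact sL761
  · exact sL762
  · exact sL763
  · exact sL764
  · exact sL765
  · exact sL766
  · exact sL767
  · exact sL768
  · exact sL769

theorem sB770 : ∀ L, 770 ≤ L → L < 780 → SignP L (NNk L) (nuT L) := by
  intro L h1 h2
  interval_cases L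
  · exact sL770
  · exact sL771
  · exact sL772
  · exact sL773
  · exact sL774
  · exact sL775
  · exact sL776
  · exact sL777
  · exact sL778
  · exact sL779

theorem sB780 : ∀ L, 780 ≤ L → L < 790 → SignP L (NNk L) (nuT L) := by
  intro L h1 h2
  interval_cases L
  · exact sL780
  · exact sL781
  · exact sL782
  · exact sL783
  · exact sL784
  · exact sL785
  · exact sL786
  · exact sL787
  · exact sL788
  · exact sL789

theorem sB790 : ∀ L, 790 ≤ L → L < 800 → SignP L (NNk L) (nuT L) := by
  intro L h1 h2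
  interval_cases L
  · exact sL790
  · exact sL791
  · exact sL792
  · exact sL793
  · exact sL794
  · exact sL795
  · exact sL796
  · exact sL797
  · exact sL798
  · exact sL799

theorem sG700 : ∀ L, 700 ≤ L → L < 800 → SignP L (NNk L) (nuT L) := by
  intro L h1 h2
  by_cases h700 : L < 710
  · exact sB700 L (by omega) h700
  by_cases h710 : L < 720
  · exact sB710 L (by omega) h710
  by_cases h720 : L < 730
  · exact sB720 L (by omega) h720
  by_cases h730 : L < 740
  · exact sB730 L (by omega) h730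
  by_cases h740 : L < 750
  · exact sB740 L (by omega) h740
  by_cases h750 : L < 760
  · exact sB750 L (by omega) h750
  by_cases h760 : L < 770
  · exact sB760 L (by omega) h760
  by_cases h770 : L < 780
  · exact sB770 L (by omega) h770
  by_cases h780 : L < 790
  · exact sB780 L (by omega) h780
  by_cases h790 : L < 800
  · exact sB790 L (by omega) h790
  omega

end Pool.Agent.MP_9da1e3_co
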