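import Pool.Agent.Lib.MP_9da1e3_co.KcE800
import Pool.Agent.Lib.MP_9da1e3_co.KcE810

set_option maxRecDepth 100000

namespace Pool.Agent.MP_9da1e3_co

theorem qL800 : ckS 72 800 2030 (nuT 800) 11 (cert 800 CL800) (cert 801 CL801)
    (cert 802 CL802) = true := by decide +kernel

theorem qL801 : ckS 72 801 2032 (nuT 801) 11 (cert 801 CL801) (cert 802 CL802)
    (cert 803 CL803) = true := by decide +kernel

theorem qL802 : ckS 72 802 2035 (nuT 802) 11 (cert 802 CL802) (cert 803 CL803)
    (cert 804 CL804) = true := by decide +kernel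

theorem qL803 : ckS 72 803 2037 (nuT 803) 11 (cert 803 CL803) (cert 804 CL804)
    (cert 805 CL805) = true := by decide +kernel

theorem qL804 : ckS 72 804 2040 (nuT 804) 11 (cert 804 CL804) (cert 805 CL805)
    (cert 806 CL806) = true := by decide +kernel

theorem qL805 : ckS 72 805 2042 (nuT 805) 11 (cert 805 CL805) (cert 806 CL806)
    (cert 807 CL807) = true := by decide +kernel

theorem qL806 : ckS 72 806 2045 (nuT 806) 11 (cert 806 CL806) (cert 807 CL807)
    (cert 808 CL808) = true := by decide +kernel

theorem qL807 : ckS 72 807 2047 (nuT 807) 11 (cert 807 CL807) (cert 808 CL808)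
    (cert 809 CL809) = true := by decide +kernel

theorem qL808 : ckS 72 808 2050 (nuT 808) 12 (cert 808 CL808) (cert 809 CL809)
    (cert 810 CL810) = true := by decide +kernel

theorem qL809 : ckS 72 809 2052 (nuT 809) 12 (cert 809 CL809) (cert 810 CL810)
    (cert 811 CL811) = true := by decide +kernel

end Pool.Agent.MP_9da1e3_co
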