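import Pool.Agent.Lib.MP_9da1e3_co.KcE810
import Pool.Agent.Lib.MP_9da1e3_co.KcE820

set_option maxRecDepth 100000

namespace Pool.Agent.MP_9da1e3_co

theorem qL810 : ckS 72 810 2055 (nuT 810) 12 (cert 810 CL810) (cert 811 CL811)
    (cert 812 CL812) = true := by decide +kernel

theorem qL811 : ckS 72 811 2057 (nuT 811) 12 (cert 811 CL811) (cert 812 CL812)
    (cert 813 CL813) = true := by decide +kernel

theorem qL812 : ckS 72 812 2060 (nuT 812) 12 (cert 812 CL812) (cert 813 CL813)
    (cert 814 CL814) = true := by decide +kernel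

theorem qL813 : ckS 72 813 2062 (nuT 813) 12 (cert 813 CL813) (cert 814 CL814)
    (cert 815 CL815) = true := by decide +kernel

theorem qL814 : ckS 72 814 2065 (nuT 814) 12 (cert 814 CL814) (cert 815 CL815)
    (cert 816 CL816) = true := by decide +kernel

theorem qL815 : ckS 72 815 2067 (nuT 815) 12 (cert 815 CL815) (cert 816 CL816)
    (cert 817 CL817) = true := by decide +kernel

theorem qL816 : ckS 72 816 2070 (nuT 816) 12 (cert 816 CL816) (cert 817 CL817)
    (cert 818 CL818) = true := by decide +kernel

theorem qL817 : ckS 72 817 2072 (nuT 817) 12 (cert 817 CL817) (cert 818 CL818)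
    (cert 819 CL819) = true := by decide +kernel

theorem qL818 : ckS 72 818 2075 (nuT 818) 12 (cert 818 CL818) (cert 819 CL819)
    (cert 820 CL820) = true := by decide +kernel

theorem qL819 : ckS 72 819 2077 (nuT 819) 12 (cert 819 CL819) (cert 820 CL820)
    (cert 821 CL821) = true := by decide +kernel

end Pool.Agent.MP_9da1e3_co
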