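import Pool.Agent.Lib.MP_9da1e3_co.KcE820
import Pool.Agent.Lib.MP_9da1e3_co.KcE830

set_option maxRecDepth 100000

namespace Pool.Agent.MP_9da1e3_co

theorem qL820 : ckS 72 820 2080 (nuT 820) 12 (cert 820 CL820) (cert 821 CL821)
    (cert 822 CL822) = true := by decide +kernel

theorem qL821 : ckS 72 821 2082 (nuT 821) 12 (cert 821 CL821) (cert 822 CL822)
    (cert 823 CL823) = true := by decide +kernel

theorem qL822 : ckS 72 822 2085 (nuT 822) 12 (cert 822 CL822) (cert 823 CL823)
    (cert 824 CL824) = true := by decide +kernel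

theorem qL823 : ckS 72 823 2087 (nuT 823) 12 (cert 823 CL823) (cert 824 CL824)
    (cert 825 CL825) = true := by decide +kernel

theorem qL824 : ckS 72 824 2090 (nuT 824) 12 (cert 824 CL824) (cert 825 CL825)
    (cert 826 CL826) = true := by decide +kernel

theorem qL825 : ckS 72 825 2092 (nuT 825) 12 (cert 825 CL825) (cert 826 CL826)
    (cert 827 CL827) = true := by decide +kernel

theorem qL826 : ckS 72 826 2095 (nuT 826) 12 (cert 826 CL826) (cert 827 CL827)
    (cert 828 CL828) = true := by decide +kernel

theorem qL827 : ckS 72 827 2097 (nuT 827) 12 (cert 827 CL827) (cert 828 CL828)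
    (cert 829 CL829) = true := by decide +kernel

theorem qL828 : ckS 72 828 2100 (nuT 828) 12 (cert 828 CL828) (cert 829 CL829)
    (cert 830 CL830) = true := by decide +kernel

theorem qL829 : ckS 72 829 2102 (nuT 829) 12 (cert 829 CL829) (cert 830 CL830)
    (cert 831 CL831) = true := by decide +kernel

end Pool.Agent.MP_9da1e3_co
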