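import Pool.Agent.Lib.MP_9da1e3_co.KcE830
import Pool.Agent.Lib.MP_9da1e3_co.KcE840

set_option maxRecDepth 100000

namespace Pool.Agent.MP_9da1e3_co

theorem qL830 : ckS 72 830 2105 (nuT 830) 12 (cert 830 CL830) (cert 831 CL831)
    (cert 832 CL832) = true := by decide +kernel

theorem qL831 : ckS 72 831 2107 (nuT 831) 12 (cert 831 CL831) (cert 832 CL832)
    (cert 833 CL833) = true := by decide +kernel

theorem qL832 : ckS 72 832 2110 (nuT 832) 12 (cert 832 CL832) (cert 833 CL833)
    (cert 834 CL834) = true := by decide +kernel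

theorem qL833 : ckS 72 833 2112 (nuT 833) 12 (cert 833 CL833) (cert 834 CL834)
    (cert 835 CL835) = true := by decide +kernel

theorem qL834 : ckS 72 834 2115 (nuT 834) 12 (cert 834 CL834) (cert 835 CL835)
    (cert 836 CL836) = true := by decide +kernel

theorem qL835 : ckS 72 835 2117 (nuT 835) 12 (cert 835 CL835) (cert 836 CL836)
    (cert 837 CL837) = true := by decide +kernel

theorem qL836 : ckS 72 836 2120 (nuT 836) 12 (cert 836 CL836) (cert 837 CL837)
    (cert 838 CL838) = true := by decide +kernel

theorem qL837 : ckS 72 837 2122 (nuT 837) 12 (cert 837 CL837) (cert 838 CL838)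
    (cert 839 CL839) = true := by decide +kernel

theorem qL838 : ckS 72 838 2125 (nuT 838) 12 (cert 838 CL838) (cert 839 CL839)
    (cert 840 CL840) = true := by decide +kernel

theorem qL839 : ckS 72 839 2127 (nuT 839) 12 (cert 839 CL839) (cert 840 CL840)
    (cert 841 CL841) = true := by decide +kernel

end Pool.Agent.MP_9da1e3_co
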