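import Pool.Agent.Lib.MP_9da1e3_co.KcE840
import Pool.Agent.Lib.MP_9da1e3_co.KcE850

set_option maxRecDepth 100000

namespace Pool.Agent.MP_9da1e3_co

theorem qL840 : ckS 72 840 2130 (nuT 840) 12 (cert 840 CL840) (cert 841 CL841)
    (cert 842 CL842) = true := by decide +kernel

theorem qL841 : ckS 72 841 2132 (nuT 841) 12 (cert 841 CL841) (cert 842 CL842)
    (cert 843 CL843) = true := by decide +kernel

theorem qL842 : ckS 72 842 2135 (nuT 842) 12 (cert 842 CL842) (cert 843 CL843)
    (cert 844 CL844) = true := by decide +kernel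

theorem qL843 : ckS 72 843 2137 (nuT 843) 12 (cert 843 CL843) (cert 844 CL844)
    (cert 845 CL845) = true := by decide +kernel

theorem qL844 : ckS 72 844 2140 (nuT 844) 12 (cert 844 CL844) (cert 845 CL845)
    (cert 846 CL846) = true := by decide +kernel

theorem qL845 : ckS 72 845 2142 (nuT 845) 12 (cert 845 CL845) (cert 846 CL846)
    (cert 847 CL847) = true := by decide +kernel

theorem qL846 : ckS 72 846 2145 (nuT 846) 12 (cert 846 CL846) (cert 847 CL847)
    (cert 848 CL848) = true := by decide +kernel

theorem qL847 : ckS 72 847 2147 (nuT 847) 12 (cert 847 CL847) (cert 848 CL848)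
    (cert 849 CL849) = true := by decide +kernel

theorem qL848 : ckS 72 848 2150 (nuT 848) 12 (cert 848 CL848) (cert 849 CL849)
    (cert 850 CL850) = true := by decide +kernel

theorem qL849 : ckS 72 849 2152 (nuT 849) 12 (cert 849 CL849) (cert 850 CL850)
    (cert 851 CL851) = true := by decide +kernel

end Pool.Agent.MP_9da1e3_co
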