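import Pool.Agent.Lib.MP_9da1e3_co.KcE850
import Pool.Agent.Lib.MP_9da1e3_co.KcE860

set_option maxRecDepth 100000

namespace Pool.Agent.MP_9da1e3_co

theorem qL850 : ckS 72 850 2155 (nuT 850) 12 (cert 850 CL850) (cert 851 CL851)
    (cert 852 CL852) = true := by decide +kernel

theorem qL851 : ckS 72 851 2157 (nuT 851) 12 (cert 851 CL851) (cert 852 CL852)
    (cert 853 CL853) = true := by decide +kernel

theorem qL852 : ckS 72 852 2160 (nuT 852) 12 (cert 852 CL852) (cert 853 CL853)
    (cert 854 CL854) = true := by decide +kernel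

theorem qL853 : ckS 72 853 2162 (nuT 853) 12 (cert 853 CL853) (cert 854 CL854)
    (cert 855 CL855) = true := by decide +kernel

theorem qL854 : ckS 72 854 2165 (nuT 854) 12 (cert 854 CL854) (cert 855 CL855)
    (cert 856 CL856) = true := by decide +kernel

theorem qL855 : ckS 72 855 2167 (nuT 855) 12 (cert 855 CL855) (cert 856 CL856)
    (cert 857 CL857) = true := by decide +kernel

theorem qL856 : ckS 72 856 2170 (nuT 856) 12 (cert 856 CL856) (cert 857 CL857)
    (cert 858 CL858) = true := by decide +kernel

theorem qL857 : ckS 72 857 2172 (nuT 857) 12 (cert 857 CL857) (cert 858 CL858)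
    (cert 859 CL859) = true := by decide +kernel

theorem qL858 : ckS 72 858 2175 (nuT 858) 12 (cert 858 CL858) (cert 859 CL859)
    (cert 860 CL860) = true := by decide +kernel

theorem qL859 : ckS 72 859 2177 (nuT 859) 12 (cert 859 CL859) (cert 860 CL860)
    (cert 861 CL861) = true := by decide +kernel

end Pool.Agent.MP_9da1e3_co
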