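import Pool.Agent.Lib.MP_9da1e3_co.KcE860
import Pool.Agent.Lib.MP_9da1e3_co.KcE870

set_option maxRecDepth 100000

namespace Pool.Agent.MP_9da1e3_co

theorem qL860 : ckS 72 860 2180 (nuT 860) 12 (cert 860 CL860) (cert 861 CL861)
    (cert 862 CL862) = true := by decide +kernel

theorem qL861 : ckS 72 861 2182 (nuT 861) 12 (cert 861 CL861) (cert 862 CL862)
    (cert 863 CL863) = true := by decide +kernel

theorem qL862 : ckS 72 862 2185 (nuT 862) 12 (cert 862 CL862) (cert 863 CL863)
    (cert 864 CL864) = true := by decide +kernel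

theorem qL863 : ckS 72 863 2187 (nuT 863) 12 (cert 863 CL863) (cert 864 CL864)
    (cert 865 CL865) = true := by decide +kernel

theorem qL864 : ckS 72 864 2190 (nuT 864) 12 (cert 864 CL864) (cert 865 CL865)
    (cert 866 CL866) = true := by decide +kernel

theorem qL865 : ckS 72 865 2192 (nuT 865) 12 (cert 865 CL865) (cert 866 CL866)
    (cert 867 CL867) = true := by decide +kernel

theorem qL866 : ckS 72 866 2195 (nuT 866) 12 (cert 866 CL866) (cert 867 CL867)
    (cert 868 CL868) = true := by decide +kernel

theorem qL867 : ckS 72 867 2197 (nuT 867) 12 (cert 867 CL867) (cert 868 CL868)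
    (cert 869 CL869) = true := by decide +kernel

theorem qL868 : ckS 72 868 2200 (nuT 868) 12 (cert 868 CL868) (cert 869 CL869)
    (cert 870 CL870) = true := by decide +kernel

theorem qL869 : ckS 72 869 2202 (nuT 869) 12 (cert 869 CL869) (cert 870 CL870)
    (cert 871 CL871) = true := by decide +kernel

end Pool.Agent.MP_9da1e3_co
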