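import Pool.Agent.Lib.MP_9da1e3_co.KcE870
import Pool.Agent.Lib.MP_9da1e3_co.KcE880

set_option maxRecDepth 100000

namespace Pool.Agent.MP_9da1e3_co

theorem qL870 : ckS 72 870 2205 (nuT 870) 12 (cert 870 CL870) (cert 871 CL871)
    (cert 872 CL872) = true := by decide +kernel

theorem qL871 : ckS 72 871 2207 (nuT 871) 12 (cert 871 CL871) (cert 872 CL872)
    (cert 873 CL873) = true := by decide +kernel

theorem qL872 : ckS 72 872 2210 (nuT 872) 12 (cert 872 CL872) (cert 873 CL873)
    (cert 874 CL874) = true := by decide +kernel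

theorem qL873 : ckS 72 873 2212 (nuT 873) 12 (cert 873 CL873) (cert 874 CL874)
    (cert 875 CL875) = true := by decide +kernel

theorem qL874 : ckS 72 874 2215 (nuT 874) 12 (cert 874 CL874) (cert 875 CL875)
    (cert 876 CL876) = true := by decide +kernel

theorem qL875 : ckS 72 875 2217 (nuT 875) 12 (cert 875 CL875) (cert 876 CL876)
    (cert 877 CL877) = true := by decide +kernel

theorem qL876 : ckS 72 876 2220 (nuT 876) 12 (cert 876 CL876) (cert 877 CL877)
    (cert 878 CL878) = true := by decide +kernel

theorem qL877 : ckS 72 877 2222 (nuT 877) 12 (cert 877 CL877) (cert 878 CL878)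
    (cert 879 CL879) = true := by decide +kernel

theorem qL878 : ckS 72 878 2225 (nuT 878) 12 (cert 878 CL878) (cert 879 CL879)
    (cert 880 CL880) = true := by decide +kernel

theorem qL879 : ckS 72 879 2227 (nuT 879) 12 (cert 879 CL879) (cert 880 CL880)
    (cert 881 CL881) = true := by decide +kernel

end Pool.Agent.MP_9da1e3_co
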