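import Pool.Agent.Lib.MP_9da1e3_co.KcE880
import Pool.Agent.Lib.MP_9da1e3_co.KcE890

set_option maxRecDepth 100000

namespace Pool.Agent.MP_9da1e3_co

theorem qL880 : ckS 72 880 2230 (nuT 880) 12 (cert 880 CL880) (cert 881 CL881)
    (cert 882 CL882) = true := by decide +kernel

theorem qL881 : ckS 72 881 2232 (nuT 881) 12 (cert 881 CL881) (cert 882 CL882)
    (cert 883 CL883) = true := by decide +kernel

theorem qL882 : ckS 72 882 2235 (nuT 882) 12 (cert 882 CL882) (cert 883 CL883)
    (cert 884 CL884) = true := by decide +kernel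

theorem qL883 : ckS 72 883 2237 (nuT 883) 12 (cert 883 CL883) (cert 884 CL884)
    (cert 885 CL885) = true := by decide +kernel

theorem qL884 : ckS 72 884 2240 (nuT 884) 12 (cert 884 CL884) (cert 885 CL885)
    (cert 886 CL886) = true := by decide +kernel

theorem qL885 : ckS 72 885 2242 (nuT 885) 12 (cert 885 CL885) (cert 886 CL886)
    (cert 887 CL887) = true := by decide +kernel

theorem qL886 : ckS 72 886 2245 (nuT 886) 12 (cert 886 CL886) (cert 887 CL887)
    (cert 888 CL888) = true := by decide +kernel

theorem qL887 : ckS 72 887 2247 (nuT 887) 12 (cert 887 CL887) (cert 888 CL888)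
    (cert 889 CL889) = true := by decide +kernel

theorem qL888 : ckS 72 888 2250 (nuT 888) 12 (cert 888 CL888) (cert 889 CL889)
    (cert 890 CL890) = true := by decide +kernel

theorem qL889 : ckS 72 889 2252 (nuT 889) 12 (cert 889 CL889) (cert 890 CL890)
    (cert 891 CL891) = true := by decide +kernel

end Pool.Agent.MP_9da1e3_co
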