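import Pool.Agent.Lib.MP_9da1e3_co.KcE890
import Pool.Agent.Lib.MP_9da1e3_co.KcE900

set_option maxRecDepth 100000

namespace Pool.Agent.MP_9da1e3_co

theorem qL890 : ckS 72 890 2255 (nuT 890) 12 (cert 890 CL890) (cert 891 CL891)
    (cert 892 CL892) = true := by decide +kernel

theorem qL891 : ckS 72 891 2257 (nuT 891) 12 (cert 891 CL891) (cert 892 CL892)
    (cert 893 CL893) = true := by decide +kernel

theorem qL892 : ckS 72 892 2260 (nuT 892) 12 (cert 892 CL892) (cert 893 CL893)
    (cert 894 CL894) = true := by decide +kernel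

theorem qL893 : ckS 72 893 2262 (nuT 893) 12 (cert 893 CL893) (cert 894 CL894)
    (cert 895 CL895) = true := by decide +kernel

theorem qL894 : ckS 72 894 2265 (nuT 894) 12 (cert 894 CL894) (cert 895 CL895)
    (cert 896 CL896) = true := by decide +kernel

theorem qL895 : ckS 72 895 2267 (nuT 895) 12 (cert 895 CL895) (cert 896 CL896)
    (cert 897 CL897) = true := by decide +kernel

theorem qL896 : ckS 72 896 2270 (nuT 896) 12 (cert 896 CL896) (cert 897 CL897)
    (cert 898 CL898) = true := by decide +kernel

theorem qL897 : ckS 72 897 2272 (nuT 897) 12 (cert 897 CL897) (cert 898 CL898)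
    (cert 899 CL899) = true := by decide +kernel

theorem qL898 : ckS 72 898 2275 (nuT 898) 12 (cert 898 CL898) (cert 899 CL899)
    (cert 900 CL900) = true := by decide +kernel

theorem qL899 : ckS 72 899 2277 (nuT 899) 12 (cert 899 CL899) (cert 900 CL900)
    (cert 901 CL901) = true := by decide +kernel

end Pool.Agent.MP_9da1e3_co
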