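import Pool.Agent.Lib.MP_9da1e3_co.Kc4
import Pool.Agent.Lib.MP_9da1e3_co.KcS800
import Pool.Agent.Lib.MP_9da1e3_co.KcS810
import Pool.Agent.Lib.MP_9da1e3_co.KcS820
import Pool.Agent.Lib.MP_9da1e3_co.KcS830
import Pool.Agent.Lib.MP_9da1e3_co.KcS840
import Pool.Agent.Lib.MP_9da1e3_co.KcS850
import Pool.Agent.Lib.MP_9da1e3_co.KcS860
import Pool.Agent.Lib.MP_9da1e3_co.KcS870
import Pool.Agent.Lib.MP_9da1e3_co.KcS880
import Pool.Agent.Lib.MP_9da1e3_co.KcS890

namespace Pool.Agent.MP_9da1e3_co

theorem sL800 : SignP 800 (NNk 800) (nuT 800) :=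
  sgnL (by decide) eL800 eL801 eL802 qL800

theorem sL801 : SignP 801 (NNk 801) (nuT 801) :=
  sgnL (by decide) eL801 eL802 eL803 qL801

theorem sL802 : SignP 802 (NNk 802) (nuT 802) :=
  sgnL (by decide) eL802 eL803 eL804 qL802

theorem sL803 : SignP 803 (NNk 803) (nuT 803) :=
  sgnL (by decide) eL803 eL804 eL805 qL803

theorem sL804 : SignP 804 (NNk 804) (nuT 804) :=
  sgnL (by decide) eL804 eL805 eL806 qL804

theorem sL805 : SignP 805 (NNk 805) (nuT 805) :=
  sgnL (by decide) eL805 eL806 eL807 qL805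

theorem sL806 : SignP 806 (NNk 806) (nuT 806) :=
  sgnL (by decide) eL806 eL807 eL808 qL806

theorem sL807 : SignP 807 (NNk 807) (nuT 807) :=
  sgnL (by decide) eL807 eL808 eL809 qL807

theorem sL808 : SignP 808 (NNk 808) (nuT 808) :=
  sgnL (by decide) eL808 eL809 eL810 qL808

theorem sL809 : SignP 809 (NNk 809) (nuT 809) :=
  sgnL (by decide) eL809 eL810 eL811 qL809

theorem sL810 : SignP 810 (NNk 810) (nuT 810) :=
  sgnL (by decide) eL810 eL811 eL812 qL810

theorem sL811 : SignP 811 (NNk 811) (nuT 811) :=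
  sgnL (by decide) eL811 eL812 eL813 qL811

theorem sL812 : SignP 812 (NNk 812) (nuT 812) :=
  sgnL (by decide) eL812 eL813 eL814 qL812

theorem sL813 : SignP 813 (NNk 813) (nuT 813) :=
  sgnL (by decide) eL813 eL814 eL815 qL813

theorem sL814 : SignP 814 (NNk 814) (nuT 814) :=
  sgnL (by decide) eL814 eL815 eL816 qL814

theorem sL815 : SignP 815 (NNk 815) (nuT 815) :=
  sgnL (by decide) eL815 eL816 eL817 qL815

theorem sL816 : SignP 816 (NNk 816) (nuT 816) :=
  sgnL (by decide) eL816 eL817 eL818 qL816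

theorem sL817 : SignP 817 (NNk 817) (nuT 817) :=
  sgnL (by decide) eL817 eL818 eL819 qL817

theorem sL818 : SignP 818 (NNk 818) (nuT 818) :=
  sgnL (by decide) eL818 eL819 eL820 qL818

theorem sL819 : SignP 819 (NNk 819) (nuT 819) :=
  sgnL (by decide) eL819 eL820 eL821 qL819

theorem sL820 : SignP 820 (NNk 820) (nuT 820) :=
  sgnL (by decide) eL820 eL821 eL822 qL820

theorem sL821 : SignP 821 (NNk 821) (nuT 821) :=
  sgnL (by decide) eL821 eL822 eL823 qL821

theorem sL822 : SignP 822 (NNk 822) (nuT 822) :=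
  sgnL (by decide) eL822 eL823 eL824 qL822

theorem sL823 : SignP 823 (NNk 823) (nuT 823) :=
  sgnL (by decide) eL823 eL824 eL825 qL823

theorem sL824 : SignP 824 (NNk 824) (nuT 824) :=
  sgnL (by decide) eL824 eL825 eL826 qL824

theorem sL825 : SignP 825 (NNk 825) (nuT 825) :=
  sgnL (by decide) eL825 eL826 eL827 qL825

theorem sL826 : SignP 826 (NNk 826) (nuT 826) :=
  sgnL (by decide) eL826 eL827 eL828 qL826

theorem sL827 : SignP 827 (NNk 827) (nuT 827) :=
  sgnL (by decide) eL827 eL828 eL829 qL827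

theorem sL828 : SignP 828 (NNk 828) (nuT 828) :=
  sgnL (by decide) eL828 eL829 eL830 qL828

theorem sL829 : SignP 829 (NNk 829) (nuT 829) :=
  sgnL (by decide) eL829 eL830 eL831 qL829

theorem sL830 : SignP 830 (NNk 830) (nuT 830) :=
  sgnL (by decide) eL830 eL831 eL832 qL830

theorem sL831 : SignP 831 (NNk 831) (nuT 831) :=
  sgnL (by decide) eL831 eL832 eL833 qL831

theorem sL832 : SignP 832 (NNk 832) (nuT 832) :=
  sgnL (by decide) eL832 eL833 eL834 qL832

theorem sL833 : SignP 833 (NNk 833) (nuT 833) :=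
  sgnL (by decide) eL833 eL834 eL835 qL833

theorem sL834 : SignP 834 (NNk 834) (nuT 834) :=
  sgnL (by decide) eL834 eL835 eL836 qL834

theorem sL835 : SignP 835 (NNk 835) (nuT 835) :=
  sgnL (by decide) eL835 eL836 eL837 qL835

theorem sL836 : SignP 836 (NNk 836) (nuT 836) :=
  sgnL (by decide) eL836 eL837 eL838 qL836

theorem sL837 : SignP 837 (NNk 837) (nuT 837) :=
  sgnL (by decide) eL837 eL838 eL839 qL837

theorem sL838 : SignP 838 (NNk 838) (nuT 838) :=
  sgnL (by decide) eL838 eL839 eL840 qL838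

theorem sL839 : SignP 839 (NNk 839) (nuT 839) :=
  sgnL (by decide) eL839 eL840 eL841 qL839

theorem sL840 : SignP 840 (NNk 840) (nuT 840) :=
  sgnL (by decide) eL840 eL841 eL842 qL840

theorem sL841 : SignP 841 (NNk 841) (nuT 841) :=
  sgnL (by decide) eL841 eL842 eL843 qL841

theorem sL842 : SignP 842 (NNk 842) (nuT 842) :=
  sgnL (by decide) eL842 eL843 eL844 qL842

theorem sL843 : SignP 843 (NNk 843) (nuT 843) :=
  sgnL (by decide) eL843 eL844 eL845 qL843

theorem sL844 : SignP 844 (NNk 844) (nuT 844) :=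
  sgnL (by decide) eL844 eL845 eL846 qL844

theorem sL845 : SignP 845 (NNk 845) (nuT 845) :=
  sgnL (by decide) eL845 eL846 eL847 qL845

theorem sL846 : SignP 846 (NNk 846) (nuT 846) :=
  sgnL (by decide) eL846 eL847 eL848 qL846

theorem sL847 : SignP 847 (NNk 847) (nuT 847) :=
  sgnL (by decide) eL847 eL848 eL849 qL847

theorem sL848 : SignP 848 (NNk 848) (nuT 848) :=
  sgnL (by decide) eL848 eL849 eL850 qL848

theorem sL849 : SignP 849 (NNk 849) (nuT 849) :=
  sgnL (by decide) eL849 eL850 eL851 qL849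

theorem sL850 : SignP 850 (NNk 850) (nuT 850) :=
  sgnL (by decide) eL850 eL851 eL852 qL850

theorem sL851 : SignP 851 (NNk 851) (nuT 851) :=
  sgnL (by decide) eL851 eL852 eL853 qL851

theorem sL852 : SignP 852 (NNk 852) (nuT 852) :=
  sgnL (by decide) eL852 eL853 eL854 qL852

theorem sL853 : SignP 853 (NNk 853) (nuT 853) :=
  sgnL (by decide) eL853 eL854 eL855 qL853

theorem sL854 : SignP 854 (NNk 854) (nuT 854) :=
  sgnL (by decide) eL854 eL855 eL856 qL854

theorem sL855 : SignP 855 (NNk 855) (nuT 855) :=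
  sgnL (by decide) eL855 eL856 eL857 qL855

theorem sL856 : SignP 856 (NNk 856) (nuT 856) :=
  sgnL (by decide) eL856 eL857 eL858 qL856

theorem sL857 : SignP 857 (NNk 857) (nuT 857) :=
  sgnL (by decide) eL857 eL858 eL859 qL857

theorem sL858 : SignP 858 (NNk 858) (nuT 858) :=
  sgnL (by decide) eL858 eL859 eL860 qL858

theorem sL859 : SignP 859 (NNk 859) (nuT 859) :=
  sgnL (by decide) eL859 eL860 eL861 qL859

theorem sL860 : SignP 860 (NNk 860) (nuT 860) :=
  sgnL (by decide) eL860 eL861 eL862 qL860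

theorem sL861 : SignP 861 (NNk 861) (nuT 861) :=
  sgnL (by decide) eL861 eL862 eL863 qL861

theorem sL862 : SignP 862 (NNk 862) (nuT 862) :=
  sgnL (by decide) eL862 eL863 eL864 qL862

theorem sL863 : SignP 863 (NNk 863) (nuT 863) :=
  sgnL (by decide) eL863 eL864 eL865 qL863

theorem sL864 : SignP 864 (NNk 864) (nuT 864) :=
  sgnL (by decide) eL864 eL865 eL866 qL864

theorem sL865 : SignP 865 (NNk 865) (nuT 865) :=
  sgnL (by decide) eL865 eL866 eL867 qL865

theorem sL866 : SignP 866 (NNk 866) (nuT 866) :=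
  sgnL (by decide) eL866 eL867 eL868 qL866

theorem sL867 : SignP 867 (NNk 867) (nuT 867) :=
  sgnL (by decide) eL867 eL868 eL869 qL867

theorem sL868 : SignP 868 (NNk 868) (nuT 868) :=
  sgnL (by decide) eL868 eL869 eL870 qL868

theorem sL869 : SignP 869 (NNk 869) (nuT 869) :=
  sgnL (by decide) eL869 eL870 eL871 qL869

theorem sL870 : SignP 870 (NNk 870) (nuT 870) :=
  sgnL (by decide) eL870 eL871 eL872 qL870

theorem sL871 : SignP 871 (NNk 871) (nuT 871) :=
  sgnL (by decide) eL871 eL872 eL873 qL871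

theorem sL872 : SignP 872 (NNk 872) (nuT 872) :=
  sgnL (by decide) eL872 eL873 eL874 qL872

theorem sL873 : SignP 873 (NNk 873) (nuT 873) :=
  sgnL (by decide) eL873 eL874 eL875 qL873

theorem sL874 : SignP 874 (NNk 874) (nuT 874) :=
  sgnL (by decide) eL874 eL875 eL876 qL874

theorem sL875 : SignP 875 (NNk 875) (nuT 875) :=
  sgnL (by decide) eL875 eL876 eL877 qL875

theorem sL876 : SignP 876 (NNk 876) (nuT 876) :=
  sgnL (by decide) eL876 eL877 eL878 qL876

theorem sL877 : SignP 877 (NNk 877) (nuT 877) :=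
  sgnL (by decide) eL877 eL878 eL879 qL877

theorem sL878 : SignP 878 (NNk 878) (nuT 878) :=
  sgnL (by decide) eL878 eL879 eL880 qL878

theorem sL879 : SignP 879 (NNk 879) (nuT 879) :=
  sgnL (by decide) eL879 eL880 eL881 qL879

theorem sL880 : SignP 880 (NNk 880) (nuT 880) :=
  sgnL (by decide) eL880 eL881 eL882 qL880

theorem sL881 : SignP 881 (NNk 881) (nuT 881) :=
  sgnL (by decide) eL881 eL882 eL883 qL881

theorem sL882 : SignP 882 (NNk 882) (nuT 882) :=
  sgnL (by decide) eL882 eL883 eL884 qL882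

theorem sL883 : SignP 883 (NNk 883) (nuT 883) :=
  sgnL (by decide) eL883 eL884 eL885 qL883

theorem sL884 : SignP 884 (NNk 884) (nuT 884) :=
  sgnL (by decide) eL884 eL885 eL886 qL884

theorem sL885 : SignP 885 (NNk 885) (nuT 885) :=
  sgnL (by decide) eL885 eL886 eL887 qL885

theorem sL886 : SignP 886 (NNk 886) (nuT 886) :=
  sgnL (by decide) eL886 eL887 eL888 qL886

theorem sL887 : SignP 887 (NNk 887) (nuT 887) :=
  sgnL (by decide) eL887 eL888 eL889 qL887

theorem sL888 : SignP 888 (NNk 888) (nuT 888) :=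
  sgnL (by decide) eL888 eL889 eL890 qL888

theorem sL889 : SignP 889 (NNk 889) (nuT 889) :=
  sgnL (by decide) eL889 eL890 eL891 qL889

theorem sL890 : SignP 890 (NNk 890) (nuT 890) :=
  sgnL (by decide) eL890 eL891 eL892 qL890

theorem sL891 : SignP 891 (NNk 891) (nuT 891) :=
  sgnL (by decide) eL891 eL892 eL893 qL891

theorem sL892 : SignP 892 (NNk 892) (nuT 892) :=
  sgnL (by decide) eL892 eL893 eL894 qL892

theorem sL893 : SignP 893 (NNk 893) (nuT 893) :=
  sgnL (by decide) eL893 eL894 eL895 qL893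

theorem sL894 : SignP 894 (NNk 894) (nuT 894) :=
  sgnL (by decide) eL894 eL895 eL896 qL894

theorem sL895 : SignP 895 (NNk 895) (nuT 895) :=
  sgnL (by decide) eL895 eL896 eL897 qL895

theorem sL896 : SignP 896 (NNk 896) (nuT 896) :=
  sgnL (by decide) eL896 eL897 eL898 qL896

theorem sL897 : SignP 897 (NNk 897) (nuT 897) :=
  sgnL (by decide) eL897 eL898 eL899 qL897

theorem sL898 : SignP 898 (NNk 898) (nuT 898) :=
  sgnL (by decide) eL898 eL899 eL900 qL898

theorem sL899 : SignP 899 (NNk 899) (nuT 899) :=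
  sgnL (by decide) eL899 eL900 eL901 qL899

theorem sB800 : ∀ L, 800 ≤ L → L < 810 → SignP L (NNk L) (nuT L) := by
  intro L h1 h2
  interval_cases L
  · exact sL800
  · exact sL801
  · exact sL802
  · exact sL803
  · exact sL804
  · exact sL805
  · exact sL806
  · exact sL807
  · exact sL808
  · exact sL809

theorem sB810 : ∀ L, 810 ≤ L → L < 820 → SignP L (NNk L) (nuT L) := by
  intro L h1 h2
  interval_cases L
  · exact sL810
  · exact sL811
  · exact sL812
  · exact sL813
  · exact sL814
  · exact sL815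
  · exact sL816
  · exact sL817
  · exact sL818
  · exact sL819

theorem sB820 : ∀ L, 820 ≤ L → L < 830 → SignP L (NNk L) (nuT L) := by
  intro L h1 h2
  interval_cases L
  · exact sL820
  · exact sL821
  · exact sL822
  · exact sL823
  · exact sL824
  · exact sL825
  · exact sL826
  · exact sL827
  · exact sL828
  · exact sL829

theorem sB830 : ∀ L, 830 ≤ L → L < 840 → SignP L (NNk L) (nuT L) := by
  intro L h1 h2
  interval_cases L
  · exact sL830
  · exact sL831
  · exact sL832
  · exact sL833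
  · exact sL834
  · exact sL835
  · exact sL836
  · exact sL837
  · exact sL838
  · exact sL839

theorem sB840 : ∀ L, 840 ≤ L → L < 850 → SignP L (NNk L) (nuT L) := by
  intro L h1 h2
  interval_cases L
  · exact sL840
  · exact sL841
  · exact sL842
  · exact sL843
  · exact sL844
  · exact sL845
  · exact sL846
  · exact sL847
  · exact sL848
  · exact sL849

theorem sB850 : ∀ L, 850 ≤ L → L < 860 → SignP L (NNk L) (nuT L) := by
  intro L h1 h2
  interval_cases L
  · exact sL850
  · exact sL851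
  · exact sL852
  · exact sL853
  · exact sL854
  · exact sL855
  · exact sL856
  · exact sL857
  · exact sL858
  · exact sL859

theorem sB860 : ∀ L, 860 ≤ L → L < 870 → SignP L (NNk L) (nuT L) := by
  intro L h1 h2
  interval_cases L
  · exact sL860
  · exact sL861
  · exact sL862
  · exact sL863
  · exact sL864
  · exact sL865
  · exact sL866
  · exact sL867
  · exact sL868
  · exact sL869

theorem sB870 : ∀ L, 870 ≤ L → L < 880 → SignP L (NNk L) (nuT L) := by
  intro L h1 h2
  interval_cases L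
  · exact sL870
  · exact sL871
  · exact sL872
  · exact sL873
  · exact sL874
  · exact sL875
  · exact sL876
  · exact sL877
  · exact sL878
  · exact sL879

theorem sB880 : ∀ L, 880 ≤ L → L < 890 → SignP L (NNk L) (nuT L) := by
  intro L h1 h2
  interval_cases L
  · exact sL880
  · exact sL881
  · exact sL882
  · exact sL883
  · exact sL884
  · exact sL885
  · exact sL886
  · exact sL887
  · exact sL888
  · exact sL889

theorem sB890 : ∀ L, 890 ≤ L → L < 900 → SignP L (NNk L) (nuT L) := by
  intro L h1 h2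
  interval_cases L
  · exact sL890
  · exact sL891
  · exact sL892
  · exact sL893
  · exact sL894
  · exact sL895
  · exact sL896
  · exact sL897
  · exact sL898
  · exact sL899

theorem sG800 : ∀ L, 800 ≤ L → L < 900 → SignP L (NNk L) (nuT L) := by
  intro L h1 h2
  by_cases h800 : L < 810
  · exact sB800 L (by omega) h800
  by_cases h810 : L < 820
  · exact sB810 L (by omega) h810
  by_cases h820 : L < 830
  · exact sB820 L (by omega) h820
  by_cases h830 : L < 840
  · exact sB830 L (by omega) h830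
  by_cases h840 : L < 850
  · exact sB840 L (by omega) h840
  by_cases h850 : L < 860
  · exact sB850 L (by omega) h850
  by_cases h860 : L < 870
  · exact sB860 L (by omega) h860
  by_cases h870 : L < 880
  · exact sB870 L (by omega) h870
  by_cases h880 : L < 890
  · exact sB880 L (by omega) h880
  by_cases h890 : L < 900
  · exact sB890 L (by omega) h890
  omega

end Pool.Agent.MP_9da1e3_co
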