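import Pool.Agent.Lib.MP_9da1e3_co.KcE900
import Pool.Agent.Lib.MP_9da1e3_co.KcE910

set_option maxRecDepth 100000

namespace Pool.Agent.MP_9da1e3_co

theorem qL900 : ckS 72 900 2280 (nuT 900) 12 (cert 900 CL900) (cert 901 CL901)
    (cert 902 CL902) = true := by decide +kernel

theorem qL901 : ckS 72 901 2282 (nuT 901) 12 (cert 901 CL901) (cert 902 CL902)
    (cert 903 CL903) = true := by decide +kernel

theorem qL902 : ckS 72 902 2285 (nuT 902) 12 (cert 902 CL902) (cert 903 CL903)
    (cert 904 CL904) = true := by decide +kernel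

theorem qL903 : ckS 72 903 2287 (nuT 903) 12 (cert 903 CL903) (cert 904 CL904)
    (cert 905 CL905) = true := by decide +kernel

theorem qL904 : ckS 72 904 2290 (nuT 904) 12 (cert 904 CL904) (cert 905 CL905)
    (cert 906 CL906) = true := by decide +kernel

theorem qL905 : ckS 72 905 2292 (nuT 905) 12 (cert 905 CL905) (cert 906 CL906)
    (cert 907 CL907) = true := by decide +kernel

theorem qL906 : ckS 72 906 2295 (nuT 906) 12 (cert 906 CL906) (cert 907 CL907)
    (cert 908 CL908) = true := by decide +kernel

theorem qL907 : ckS 72 907 2297 (nuT 907) 12 (cert 907 CL907) (cert 908 CL908)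
    (cert 909 CL909) = true := by decide +kernel

theorem qL908 : ckS 72 908 2300 (nuT 908) 12 (cert 908 CL908) (cert 909 CL909)
    (cert 910 CL910) = true := by decide +kernel

theorem qL909 : ckS 72 909 2302 (nuT 909) 12 (cert 909 CL909) (cert 910 CL910)
    (cert 911 CL911) = true := by decide +kernel

end Pool.Agent.MP_9da1e3_co
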