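import Pool.Agent.Lib.MP_9da1e3_co.KcE910
import Pool.Agent.Lib.MP_9da1e3_co.KcE920

set_option maxRecDepth 100000

namespace Pool.Agent.MP_9da1e3_co

theorem qL910 : ckS 72 910 2305 (nuT 910) 12 (cert 910 CL910) (cert 911 CL911)
    (cert 912 CL912) = true := by decide +kernel

theorem qL911 : ckS 72 911 2307 (nuT 911) 12 (cert 911 CL911) (cert 912 CL912)
    (cert 913 CL913) = true := by decide +kernel

theorem qL912 : ckS 72 912 2310 (nuT 912) 12 (cert 912 CL912) (cert 913 CL913)
    (cert 914 CL914) = true := by decide +kernel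

theorem qL913 : ckS 72 913 2312 (nuT 913) 12 (cert 913 CL913) (cert 914 CL914)
    (cert 915 CL915) = true := by decide +kernel

theorem qL914 : ckS 72 914 2315 (nuT 914) 12 (cert 914 CL914) (cert 915 CL915)
    (cert 916 CL916) = true := by decide +kernel

theorem qL915 : ckS 72 915 2317 (nuT 915) 12 (cert 915 CL915) (cert 916 CL916)
    (cert 917 CL917) = true := by decide +kernel

theorem qL916 : ckS 72 916 2320 (nuT 916) 12 (cert 916 CL916) (cert 917 CL917)
    (cert 918 CL918) = true := by decide +kernel

theorem qL917 : ckS 72 917 2322 (nuT 917) 12 (cert 917 CL917) (cert 918 CL918)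
    (cert 919 CL919) = true := by decide +kernel

theorem qL918 : ckS 72 918 2325 (nuT 918) 12 (cert 918 CL918) (cert 919 CL919)
    (cert 920 CL920) = true := by decide +kernel

theorem qL919 : ckS 72 919 2327 (nuT 919) 12 (cert 919 CL919) (cert 920 CL920)
    (cert 921 CL921) = true := by decide +kernel

end Pool.Agent.MP_9da1e3_co
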