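import Pool.Agent.Lib.MP_9da1e3_co.KcE920
import Pool.Agent.Lib.MP_9da1e3_co.KcE930

set_option maxRecDepth 100000

namespace Pool.Agent.MP_9da1e3_co

theorem qL920 : ckS 72 920 2330 (nuT 920) 12 (cert 920 CL920) (cert 921 CL921)
    (cert 922 CL922) = true := by decide +kernel

theorem qL921 : ckS 72 921 2332 (nuT 921) 12 (cert 921 CL921) (cert 922 CL922)
    (cert 923 CL923) = true := by decide +kernel

theorem qL922 : ckS 72 922 2335 (nuT 922) 12 (cert 922 CL922) (cert 923 CL923)
    (cert 924 CL924) = true := by decide +kernel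

theorem qL923 : ckS 72 923 2337 (nuT 923) 12 (cert 923 CL923) (cert 924 CL924)
    (cert 925 CL925) = true := by decide +kernel

theorem qL924 : ckS 72 924 2340 (nuT 924) 12 (cert 924 CL924) (cert 925 CL925)
    (cert 926 CL926) = true := by decide +kernel

theorem qL925 : ckS 72 925 2342 (nuT 925) 12 (cert 925 CL925) (cert 926 CL926)
    (cert 927 CL927) = true := by decide +kernel

theorem qL926 : ckS 72 926 2345 (nuT 926) 12 (cert 926 CL926) (cert 927 CL927)
    (cert 928 CL928) = true := by decide +kernel

theorem qL927 : ckS 72 927 2347 (nuT 927) 12 (cert 927 CL927) (cert 928 CL928)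
    (cert 929 CL929) = true := by decide +kernel

theorem qL928 : ckS 72 928 2350 (nuT 928) 12 (cert 928 CL928) (cert 929 CL929)
    (cert 930 CL930) = true := by decide +kernel

theorem qL929 : ckS 72 929 2352 (nuT 929) 12 (cert 929 CL929) (cert 930 CL930)
    (cert 931 CL931) = true := by decide +kernel

end Pool.Agent.MP_9da1e3_co
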