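import Pool.Agent.Lib.MP_9da1e3_co.KcE930
import Pool.Agent.Lib.MP_9da1e3_co.KcE940

set_option maxRecDepth 100000

namespace Pool.Agent.MP_9da1e3_co

theorem qL930 : ckS 72 930 2355 (nuT 930) 12 (cert 930 CL930) (cert 931 CL931)
    (cert 932 CL932) = true := by decide +kernel

theorem qL931 : ckS 72 931 2357 (nuT 931) 12 (cert 931 CL931) (cert 932 CL932)
    (cert 933 CL933) = true := by decide +kernel

theorem qL932 : ckS 72 932 2360 (nuT 932) 12 (cert 932 CL932) (cert 933 CL933)
    (cert 934 CL934) = true := by decide +kernel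

theorem qL933 : ckS 72 933 2362 (nuT 933) 12 (cert 933 CL933) (cert 934 CL934)
    (cert 935 CL935) = true := by decide +kernel

theorem qL934 : ckS 72 934 2365 (nuT 934) 12 (cert 934 CL934) (cert 935 CL935)
    (cert 936 CL936) = true := by decide +kernel

theorem qL935 : ckS 72 935 2367 (nuT 935) 12 (cert 935 CL935) (cert 936 CL936)
    (cert 937 CL937) = true := by decide +kernel

theorem qL936 : ckS 72 936 2370 (nuT 936) 12 (cert 936 CL936) (cert 937 CL937)
    (cert 938 CL938) = true := by decide +kernel

theorem qL937 : ckS 72 937 2372 (nuT 937) 12 (cert 937 CL937) (cert 938 CL938)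
    (cert 939 CL939) = true := by decide +kernel

theorem qL938 : ckS 72 938 2375 (nuT 938) 12 (cert 938 CL938) (cert 939 CL939)
    (cert 940 CL940) = true := by decide +kernel

theorem qL939 : ckS 72 939 2377 (nuT 939) 12 (cert 939 CL939) (cert 940 CL940)
    (cert 941 CL941) = true := by decide +kernel

end Pool.Agent.MP_9da1e3_co
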