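import Pool.Agent.Lib.MP_9da1e3_co.KcE940
import Pool.Agent.Lib.MP_9da1e3_co.KcE950

set_option maxRecDepth 100000

namespace Pool.Agent.MP_9da1e3_co

theorem qL940 : ckS 72 940 2380 (nuT 940) 12 (cert 940 CL940) (cert 941 CL941)
    (cert 942 CL942) = true := by decide +kernel

theorem qL941 : ckS 72 941 2382 (nuT 941) 12 (cert 941 CL941) (cert 942 CL942)
    (cert 943 CL943) = true := by decide +kernel

theorem qL942 : ckS 72 942 2385 (nuT 942) 12 (cert 942 CL942) (cert 943 CL943)
    (cert 944 CL944) = true := by decide +kernel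

theorem qL943 : ckS 72 943 2387 (nuT 943) 12 (cert 943 CL943) (cert 944 CL944)
    (cert 945 CL945) = true := by decide +kernel

theorem qL944 : ckS 72 944 2390 (nuT 944) 12 (cert 944 CL944) (cert 945 CL945)
    (cert 946 CL946) = true := by decide +kernel

theorem qL945 : ckS 72 945 2392 (nuT 945) 12 (cert 945 CL945) (cert 946 CL946)
    (cert 947 CL947) = true := by decide +kernel

theorem qL946 : ckS 72 946 2395 (nuT 946) 12 (cert 946 CL946) (cert 947 CL947)
    (cert 948 CL948) = true := by decide +kernel

theorem qL947 : ckS 72 947 2397 (nuT 947) 12 (cert 947 CL947) (cert 948 CL948)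
    (cert 949 CL949) = true := by decide +kernel

theorem qL948 : ckS 72 948 2400 (nuT 948) 12 (cert 948 CL948) (cert 949 CL949)
    (cert 950 CL950) = true := by decide +kernel

theorem qL949 : ckS 72 949 2402 (nuT 949) 12 (cert 949 CL949) (cert 950 CL950)
    (cert 951 CL951) = true := by decide +kernel

end Pool.Agent.MP_9da1e3_co
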