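import Pool.Agent.Lib.MP_9da1e3_co.KcE950
import Pool.Agent.Lib.MP_9da1e3_co.KcE960

set_option maxRecDepth 100000

namespace Pool.Agent.MP_9da1e3_co

theorem qL950 : ckS 72 950 2405 (nuT 950) 12 (cert 950 CL950) (cert 951 CL951)
    (cert 952 CL952) = true := by decide +kernel

theorem qL951 : ckS 72 951 2407 (nuT 951) 12 (cert 951 CL951) (cert 952 CL952)
    (cert 953 CL953) = true := by decide +kernel

theorem qL952 : ckS 72 952 2410 (nuT 952) 12 (cert 952 CL952) (cert 953 CL953)
    (cert 954 CL954) = true := by decide +kernel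

theorem qL953 : ckS 72 953 2412 (nuT 953) 12 (cert 953 CL953) (cert 954 CL954)
    (cert 955 CL955) = true := by decide +kernel

theorem qL954 : ckS 72 954 2415 (nuT 954) 12 (cert 954 CL954) (cert 955 CL955)
    (cert 956 CL956) = true := by decide +kernel

theorem qL955 : ckS 72 955 2417 (nuT 955) 12 (cert 955 CL955) (cert 956 CL956)
    (cert 957 CL957) = true := by decide +kernel

theorem qL956 : ckS 72 956 2420 (nuT 956) 12 (cert 956 CL956) (cert 957 CL957)
    (cert 958 CL958) = true := by decide +kernel

theorem qL957 : ckS 72 957 2422 (nuT 957) 12 (cert 957 CL957) (cert 958 CL958)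
    (cert 959 CL959) = true := by decide +kernel

theorem qL958 : ckS 72 958 2425 (nuT 958) 12 (cert 958 CL958) (cert 959 CL959)
    (cert 960 CL960) = true := by decide +kernel

theorem qL959 : ckS 72 959 2427 (nuT 959) 12 (cert 959 CL959) (cert 960 CL960)
    (cert 961 CL961) = true := by decide +kernel

end Pool.Agent.MP_9da1e3_co
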