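import Pool.Agent.Lib.MP_9da1e3_co.KcE960
import Pool.Agent.Lib.MP_9da1e3_co.KcE970

set_option maxRecDepth 100000

namespace Pool.Agent.MP_9da1e3_co

theorem qL960 : ckS 72 960 2430 (nuT 960) 12 (cert 960 CL960) (cert 961 CL961)
    (cert 962 CL962) = true := by decide +kernel

theorem qL961 : ckS 72 961 2432 (nuT 961) 12 (cert 961 CL961) (cert 962 CL962)
    (cert 963 CL963) = true := by decide +kernel

theorem qL962 : ckS 72 962 2435 (nuT 962) 12 (cert 962 CL962) (cert 963 CL963)
    (cert 964 CL964) = true := by decide +kernel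

theorem qL963 : ckS 72 963 2437 (nuT 963) 12 (cert 963 CL963) (cert 964 CL964)
    (cert 965 CL965) = true := by decide +kernel

theorem qL964 : ckS 72 964 2440 (nuT 964) 12 (cert 964 CL964) (cert 965 CL965)
    (cert 966 CL966) = true := by decide +kernel

theorem qL965 : ckS 72 965 2442 (nuT 965) 12 (cert 965 CL965) (cert 966 CL966)
    (cert 967 CL967) = true := by decide +kernel

theorem qL966 : ckS 72 966 2445 (nuT 966) 12 (cert 966 CL966) (cert 967 CL967)
    (cert 968 CL968) = true := by decide +kernel

theorem qL967 : ckS 72 967 2447 (nuT 967) 12 (cert 967 CL967) (cert 968 CL968)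
    (cert 969 CL969) = true := by decide +kernel

theorem qL968 : ckS 72 968 2450 (nuT 968) 12 (cert 968 CL968) (cert 969 CL969)
    (cert 970 CL970) = true := by decide +kernel

theorem qL969 : ckS 72 969 2452 (nuT 969) 12 (cert 969 CL969) (cert 970 CL970)
    (cert 971 CL971) = true := by decide +kernel

end Pool.Agent.MP_9da1e3_co
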