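import Pool.Agent.Lib.MP_9da1e3_co.KcE970
import Pool.Agent.Lib.MP_9da1e3_co.KcE980

set_option maxRecDepth 100000

namespace Pool.Agent.MP_9da1e3_co

theorem qL970 : ckS 72 970 2455 (nuT 970) 12 (cert 970 CL970) (cert 971 CL971)
    (cert 972 CL972) = true := by decide +kernel

theorem qL971 : ckS 72 971 2457 (nuT 971) 12 (cert 971 CL971) (cert 972 CL972)
    (cert 973 CL973) = true := by decide +kernel

theorem qL972 : ckS 72 972 2460 (nuT 972) 12 (cert 972 CL972) (cert 973 CL973)
    (cert 974 CL974) = true := by decide +kernel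

theorem qL973 : ckS 72 973 2462 (nuT 973) 12 (cert 973 CL973) (cert 974 CL974)
    (cert 975 CL975) = true := by decide +kernel

theorem qL974 : ckS 72 974 2465 (nuT 974) 12 (cert 974 CL974) (cert 975 CL975)
    (cert 976 CL976) = true := by decide +kernel

theorem qL975 : ckS 72 975 2467 (nuT 975) 12 (cert 975 CL975) (cert 976 CL976)
    (cert 977 CL977) = true := by decide +kernel

theorem qL976 : ckS 72 976 2470 (nuT 976) 12 (cert 976 CL976) (cert 977 CL977)
    (cert 978 CL978) = true := by decide +kernel

theorem qL977 : ckS 72 977 2472 (nuT 977) 12 (cert 977 CL977) (cert 978 CL978)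
    (cert 979 CL979) = true := by decide +kernel

theorem qL978 : ckS 72 978 2475 (nuT 978) 12 (cert 978 CL978) (cert 979 CL979)
    (cert 980 CL980) = true := by decide +kernel

theorem qL979 : ckS 72 979 2477 (nuT 979) 12 (cert 979 CL979) (cert 980 CL980)
    (cert 981 CL981) = true := by decide +kernel

end Pool.Agent.MP_9da1e3_co
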