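import Pool.Agent.Lib.MP_9da1e3_co.KcE980
import Pool.Agent.Lib.MP_9da1e3_co.KcE990

set_option maxRecDepth 100000

namespace Pool.Agent.MP_9da1e3_co

theorem qL980 : ckS 72 980 2480 (nuT 980) 12 (cert 980 CL980) (cert 981 CL981)
    (cert 982 CL982) = true := by decide +kernel

theorem qL981 : ckS 72 981 2482 (nuT 981) 12 (cert 981 CL981) (cert 982 CL982)
    (cert 983 CL983) = true := by decide +kernel

theorem qL982 : ckS 72 982 2485 (nuT 982) 12 (cert 982 CL982) (cert 983 CL983)
    (cert 984 CL984) = true := by decide +kernel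

theorem qL983 : ckS 72 983 2487 (nuT 983) 12 (cert 983 CL983) (cert 984 CL984)
    (cert 985 CL985) = true := by decide +kernel

theorem qL984 : ckS 72 984 2490 (nuT 984) 12 (cert 984 CL984) (cert 985 CL985)
    (cert 986 CL986) = true := by decide +kernel

theorem qL985 : ckS 72 985 2492 (nuT 985) 12 (cert 985 CL985) (cert 986 CL986)
    (cert 987 CL987) = true := by decide +kernel

theorem qL986 : ckS 72 986 2495 (nuT 986) 12 (cert 986 CL986) (cert 987 CL987)
    (cert 988 CL988) = true := by decide +kernel

theorem qL987 : ckS 72 987 2497 (nuT 987) 12 (cert 987 CL987) (cert 988 CL988)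
    (cert 989 CL989) = true := by decide +kernel

theorem qL988 : ckS 72 988 2500 (nuT 988) 12 (cert 988 CL988) (cert 989 CL989)
    (cert 990 CL990) = true := by decide +kernel

theorem qL989 : ckS 72 989 2502 (nuT 989) 12 (cert 989 CL989) (cert 990 CL990)
    (cert 991 CL991) = true := by decide +kernel

end Pool.Agent.MP_9da1e3_co
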