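import Pool.Agent.Lib.MP_9da1e3_co.KcE990
import Pool.Agent.Lib.MP_9da1e3_co.KcE1000

set_option maxRecDepth 100000

namespace Pool.Agent.MP_9da1e3_co

theorem qL990 : ckS 72 990 2505 (nuT 990) 12 (cert 990 CL990) (cert 991 CL991)
    (cert 992 CL992) = true := by decide +kernel

theorem qL991 : ckS 72 991 2507 (nuT 991) 12 (cert 991 CL991) (cert 992 CL992)
    (cert 993 CL993) = true := by decide +kernel

theorem qL992 : ckS 72 992 2510 (nuT 992) 12 (cert 992 CL992) (cert 993 CL993)
    (cert 994 CL994) = true := by decide +kernel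

theorem qL993 : ckS 72 993 2512 (nuT 993) 12 (cert 993 CL993) (cert 994 CL994)
    (cert 995 CL995) = true := by decide +kernel

theorem qL994 : ckS 72 994 2515 (nuT 994) 12 (cert 994 CL994) (cert 995 CL995)
    (cert 996 CL996) = true := by decide +kernel

theorem qL995 : ckS 72 995 2517 (nuT 995) 12 (cert 995 CL995) (cert 996 CL996)
    (cert 997 CL997) = true := by decide +kernel

theorem qL996 : ckS 72 996 2520 (nuT 996) 12 (cert 996 CL996) (cert 997 CL997)
    (cert 998 CL998) = true := by decide +kernel

theorem qL997 : ckS 72 997 2522 (nuT 997) 12 (cert 997 CL997) (cert 998 CL998)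
    (cert 999 CL999) = true := by decide +kernel

theorem qL998 : ckS 72 998 2525 (nuT 998) 12 (cert 998 CL998) (cert 999 CL999)
    (cert 1000 CL1000) = true := by decide +kernel

theorem qL999 : ckS 72 999 2527 (nuT 999) 12 (cert 999 CL999) (cert 1000 CL1000)
    (cert 1001 CL1001) = true := by decide +kernel

end Pool.Agent.MP_9da1e3_co
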