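import Pool.Agent.Lib.MP_9da1e3_co.Kc4
import Pool.Agent.Lib.MP_9da1e3_co.KcS900
import Pool.Agent.Lib.MP_9da1e3_co.KcS910
import Pool.Agent.Lib.MP_9da1e3_co.KcS920
import Pool.Agent.Lib.MP_9da1e3_co.KcS930
import Pool.Agent.Lib.MP_9da1e3_co.KcS940
import Pool.Agent.Lib.MP_9da1e3_co.KcS950
import Pool.Agent.Lib.MP_9da1e3_co.KcS960
import Pool.Agent.Lib.MP_9da1e3_co.KcS970
import Pool.Agent.Lib.MP_9da1e3_co.KcS980
import Pool.Agent.Lib.MP_9da1e3_co.KcS990

namespace Pool.Agent.MP_9da1e3_co

theorem sL900 : SignP 900 (NNk 900) (nuT 900) :=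
  sgnL (by decide) eL900 eL901 eL902 qL900

theorem sL901 : SignP 901 (NNk 901) (nuT 901) :=
  sgnL (by decide) eL901 eL902 eL903 qL901

theorem sL902 : SignP 902 (NNk 902) (nuT 902) :=
  sgnL (by decide) eL902 eL903 eL904 qL902

theorem sL903 : SignP 903 (NNk 903) (nuT 903) :=
  sgnL (by decide) eL903 eL904 eL905 qL903

theorem sL904 : SignP 904 (NNk 904) (nuT 904) :=
  sgnL (by decide) eL904 eL905 eL906 qL904

theorem sL905 : SignP 905 (NNk 905) (nuT 905) :=
  sgnL (by decide) eL905 eL906 eL907 qL905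

theorem sL906 : SignP 906 (NNk 906) (nuT 906) :=
  sgnL (by decide) eL906 eL907 eL908 qL906

theorem sL907 : SignP 907 (NNk 907) (nuT 907) :=
  sgnL (by decide) eL907 eL908 eL909 qL907

theorem sL908 : SignP 908 (NNk 908) (nuT 908) :=
  sgnL (by decide) eL908 eL909 eL910 qL908

theorem sL909 : SignP 909 (NNk 909) (nuT 909) :=
  sgnL (by decide) eL909 eL910 eL911 qL909

theorem sL910 : SignP 910 (NNk 910) (nuT 910) :=
  sgnL (by decide) eL910 eL911 eL912 qL910

theorem sL911 : SignP 911 (NNk 911) (nuT 911) :=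
  sgnL (by decide) eL911 eL912 eL913 qL911

theorem sL912 : SignP 912 (NNk 912) (nuT 912) :=
  sgnL (by decide) eL912 eL913 eL914 qL912

theorem sL913 : SignP 913 (NNk 913) (nuT 913) :=
  sgnL (by decide) eL913 eL914 eL915 qL913

theorem sL914 : SignP 914 (NNk 914) (nuT 914) :=
  sgnL (by decide) eL914 eL915 eL916 qL914

theorem sL915 : SignP 915 (NNk 915) (nuT 915) :=
  sgnL (by decide) eL915 eL916 eL917 qL915

theorem sL916 : SignP 916 (NNk 916) (nuT 916) :=
  sgnL (by decide) eL916 eL917 eL918 qL916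

theorem sL917 : SignP 917 (NNk 917) (nuT 917) :=
  sgnL (by decide) eL917 eL918 eL919 qL917

theorem sL918 : SignP 918 (NNk 918) (nuT 918) :=
  sgnL (by decide) eL918 eL919 eL920 qL918

theorem sL919 : SignP 919 (NNk 919) (nuT 919) :=
  sgnL (by decide) eL919 eL920 eL921 qL919

theorem sL920 : SignP 920 (NNk 920) (nuT 920) :=
  sgnL (by decide) eL920 eL921 eL922 qL920

theorem sL921 : SignP 921 (NNk 921) (nuT 921) :=
  sgnL (by decide) eL921 eL922 eL923 qL921

theorem sL922 : SignP 922 (NNk 922) (nuT 922) :=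
  sgnL (by decide) eL922 eL923 eL924 qL922

theorem sL923 : SignP 923 (NNk 923) (nuT 923) :=
  sgnL (by decide) eL923 eL924 eL925 qL923

theorem sL924 : SignP 924 (NNk 924) (nuT 924) :=
  sgnL (by decide) eL924 eL925 eL926 qL924

theorem sL925 : SignP 925 (NNk 925) (nuT 925) :=
  sgnL (by decide) eL925 eL926 eL927 qL925

theorem sL926 : SignP 926 (NNk 926) (nuT 926) :=
  sgnL (by decide) eL926 eL927 eL928 qL926

theorem sL927 : SignP 927 (NNk 927) (nuT 927) :=
  sgnL (by decide) eL927 eL928 eL929 qL927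

theorem sL928 : SignP 928 (NNk 928) (nuT 928) :=
  sgnL (by decide) eL928 eL929 eL930 qL928

theorem sL929 : SignP 929 (NNk 929) (nuT 929) :=
  sgnL (by decide) eL929 eL930 eL931 qL929

theorem sL930 : SignP 930 (NNk 930) (nuT 930) :=
  sgnL (by decide) eL930 eL931 eL932 qL930

theorem sL931 : SignP 931 (NNk 931) (nuT 931) :=
  sgnL (by decide) eL931 eL932 eL933 qL931

theorem sL932 : SignP 932 (NNk 932) (nuT 932) :=
  sgnL (by decide) eL932 eL933 eL934 qL932

theorem sL933 : SignP 933 (NNk 933) (nuT 933) :=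
  sgnL (by decide) eL933 eL934 eL935 qL933

theorem sL934 : SignP 934 (NNk 934) (nuT 934) :=
  sgnL (by decide) eL934 eL935 eL936 qL934

theorem sL935 : SignP 935 (NNk 935) (nuT 935) :=
  sgnL (by decide) eL935 eL936 eL937 qL935

theorem sL936 : SignP 936 (NNk 936) (nuT 936) :=
  sgnL (by decide) eL936 eL937 eL938 qL936

theorem sL937 : SignP 937 (NNk 937) (nuT 937) :=
  sgnL (by decide) eL937 eL938 eL939 qL937

theorem sL938 : SignP 938 (NNk 938) (nuT 938) :=
  sgnL (by decide) eL938 eL939 eL940 qL938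

theorem sL939 : SignP 939 (NNk 939) (nuT 939) :=
  sgnL (by decide) eL939 eL940 eL941 qL939

theorem sL940 : SignP 940 (NNk 940) (nuT 940) :=
  sgnL (by decide) eL940 eL941 eL942 qL940

theorem sL941 : SignP 941 (NNk 941) (nuT 941) :=
  sgnL (by decide) eL941 eL942 eL943 qL941

theorem sL942 : SignP 942 (NNk 942) (nuT 942) :=
  sgnL (by decide) eL942 eL943 eL944 qL942

theorem sL943 : SignP 943 (NNk 943) (nuT 943) :=
  sgnL (by decide) eL943 eL944 eL945 qL943

theorem sL944 : SignP 944 (NNk 944) (nuT 944) :=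
  sgnL (by decide) eL944 eL945 eL946 qL944

theorem sL945 : SignP 945 (NNk 945) (nuT 945) :=
  sgnL (by decide) eL945 eL946 eL947 qL945

theorem sL946 : SignP 946 (NNk 946) (nuT 946) :=
  sgnL (by decide) eL946 eL947 eL948 qL946

theorem sL947 : SignP 947 (NNk 947) (nuT 947) :=
  sgnL (by decide) eL947 eL948 eL949 qL947

theorem sL948 : SignP 948 (NNk 948) (nuT 948) :=
  sgnL (by decide) eL948 eL949 eL950 qL948

theorem sL949 : SignP 949 (NNk 949) (nuT 949) :=
  sgnL (by decide) eL949 eL950 eL951 qL949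

theorem sL950 : SignP 950 (NNk 950) (nuT 950) :=
  sgnL (by decide) eL950 eL951 eL952 qL950

theorem sL951 : SignP 951 (NNk 951) (nuT 951) :=
  sgnL (by decide) eL951 eL952 eL953 qL951

theorem sL952 : SignP 952 (NNk 952) (nuT 952) :=
  sgnL (by decide) eL952 eL953 eL954 qL952

theorem sL953 : SignP 953 (NNk 953) (nuT 953) :=
  sgnL (by decide) eL953 eL954 eL955 qL953

theorem sL954 : SignP 954 (NNk 954) (nuT 954) :=
  sgnL (by decide) eL954 eL955 eL956 qL954

theorem sL955 : SignP 955 (NNk 955) (nuT 955) :=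
  sgnL (by decide) eL955 eL956 eL957 qL955

theorem sL956 : SignP 956 (NNk 956) (nuT 956) :=
  sgnL (by decide) eL956 eL957 eL958 qL956

theorem sL957 : SignP 957 (NNk 957) (nuT 957) :=
  sgnL (by decide) eL957 eL958 eL959 qL957

theorem sL958 : SignP 958 (NNk 958) (nuT 958) :=
  sgnL (by decide) eL958 eL959 eL960 qL958

theorem sL959 : SignP 959 (NNk 959) (nuT 959) :=
  sgnL (by decide) eL959 eL960 eL961 qL959

theorem sL960 : SignP 960 (NNk 960) (nuT 960) :=
  sgnL (by decide) eL960 eL961 eL962 qL960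

theorem sL961 : SignP 961 (NNk 961) (nuT 961) :=
  sgnL (by decide) eL961 eL962 eL963 qL961

theorem sL962 : SignP 962 (NNk 962) (nuT 962) :=
  sgnL (by decide) eL962 eL963 eL964 qL962

theorem sL963 : SignP 963 (NNk 963) (nuT 963) :=
  sgnL (by decide) eL963 eL964 eL965 qL963

theorem sL964 : SignP 964 (NNk 964) (nuT 964) :=
  sgnL (by decide) eL964 eL965 eL966 qL964

theorem sL965 : SignP 965 (NNk 965) (nuT 965) :=
  sgnL (by decide) eL965 eL966 eL967 qL965

theorem sL966 : SignP 966 (NNk 966) (nuT 966) :=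
  sgnL (by decide) eL966 eL967 eL968 qL966

theorem sL967 : SignP 967 (NNk 967) (nuT 967) :=
  sgnL (by decide) eL967 eL968 eL969 qL967

theorem sL968 : SignP 968 (NNk 968) (nuT 968) :=
  sgnL (by decide) eL968 eL969 eL970 qL968

theorem sL969 : SignP 969 (NNk 969) (nuT 969) :=
  sgnL (by decide) eL969 eL970 eL971 qL969

theorem sL970 : SignP 970 (NNk 970) (nuT 970) :=
  sgnL (by decide) eL970 eL971 eL972 qL970

theorem sL971 : SignP 971 (NNk 971) (nuT 971) :=
  sgnL (by decide) eL971 eL972 eL973 qL971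

theorem sL972 : SignP 972 (NNk 972) (nuT 972) :=
  sgnL (by decide) eL972 eL973 eL974 qL972

theorem sL973 : SignP 973 (NNk 973) (nuT 973) :=
  sgnL (by decide) eL973 eL974 eL975 qL973

theorem sL974 : SignP 974 (NNk 974) (nuT 974) :=
  sgnL (by decide) eL974 eL975 eL976 qL974

theorem sL975 : SignP 975 (NNk 975) (nuT 975) :=
  sgnL (by decide) eL975 eL976 eL977 qL975

theorem sL976 : SignP 976 (NNk 976) (nuT 976) :=
  sgnL (by decide) eL976 eL977 eL978 qL976

theorem sL977 : SignP 977 (NNk 977) (nuT 977) :=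
  sgnL (by decide) eL977 eL978 eL979 qL977

theorem sL978 : SignP 978 (NNk 978) (nuT 978) :=
  sgnL (by decide) eL978 eL979 eL980 qL978

theorem sL979 : SignP 979 (NNk 979) (nuT 979) :=
  sgnL (by decide) eL979 eL980 eL981 qL979

theorem sL980 : SignP 980 (NNk 980) (nuT 980) :=
  sgnL (by decide) eL980 eL981 eL982 qL980

theorem sL981 : SignP 981 (NNk 981) (nuT 981) :=
  sgnL (by decide) eL981 eL982 eL983 qL981

theorem sL982 : SignP 982 (NNk 982) (nuT 982) :=
  sgnL (by decide) eL982 eL983 eL984 qL982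

theorem sL983 : SignP 983 (NNk 983) (nuT 983) :=
  sgnL (by decide) eL983 eL984 eL985 qL983

theorem sL984 : SignP 984 (NNk 984) (nuT 984) :=
  sgnL (by decide) eL984 eL985 eL986 qL984

theorem sL985 : SignP 985 (NNk 985) (nuT 985) :=
  sgnL (by decide) eL985 eL986 eL987 qL985

theorem sL986 : SignP 986 (NNk 986) (nuT 986) :=
  sgnL (by decide) eL986 eL987 eL988 qL986

theorem sL987 : SignP 987 (NNk 987) (nuT 987) :=
  sgnL (by decide) eL987 eL988 eL989 qL987

theorem sL988 : SignP 988 (NNk 988) (nuT 988) :=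
  sgnL (by decide) eL988 eL989 eL990 qL988

theorem sL989 : SignP 989 (NNk 989) (nuT 989) :=
  sgnL (by decide) eL989 eL990 eL991 qL989

theorem sL990 : SignP 990 (NNk 990) (nuT 990) :=
  sgnL (by decide) eL990 eL991 eL992 qL990

theorem sL991 : SignP 991 (NNk 991) (nuT 991) :=
  sgnL (by decide) eL991 eL992 eL993 qL991

theorem sL992 : SignP 992 (NNk 992) (nuT 992) :=
  sgnL (by decide) eL992 eL993 eL994 qL992

theorem sL993 : SignP 993 (NNk 993) (nuT 993) :=
  sgnL (by decide) eL993 eL994 eL995 qL993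

theorem sL994 : SignP 994 (NNk 994) (nuT 994) :=
  sgnL (by decide) eL994 eL995 eL996 qL994

theorem sL995 : SignP 995 (NNk 995) (nuT 995) :=
  sgnL (by decide) eL995 eL996 eL997 qL995

theorem sL996 : SignP 996 (NNk 996) (nuT 996) :=
  sgnL (by decide) eL996 eL997 eL998 qL996

theorem sL997 : SignP 997 (NNk 997) (nuT 997) :=
  sgnL (by decide) eL997 eL998 eL999 qL997

theorem sL998 : SignP 998 (NNk 998) (nuT 998) :=
  sgnL (by decide) eL998 eL999 eL1000 qL998

theorem sL999 : SignP 999 (NNk 999) (nuT 999) :=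
  sgnL (by decide) eL999 eL1000 eL1001 qL999

theorem sB900 : ∀ L, 900 ≤ L → L < 910 → SignP L (NNk L) (nuT L) := by
  intro L h1 h2
  interval_cases L
  · exact sL900
  · exact sL901
  · exact sL902
  · exact sL903
  · exact sL904
  · exact sL905
  · exact sL906
  · exact sL907
  · exact sL908
  · exact sL909

theorem sB910 : ∀ L, 910 ≤ L → L < 920 → SignP L (NNk L) (nuT L) := by
  intro L h1 h2
  interval_cases L
  · exact sL910
  · exact sL911
  · exact sL912
  · exact sL913
  · exact sL914
  · exact sL915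
  · exact sL916
  · exact sL917
  · exact sL918
  · exact sL919

theorem sB920 : ∀ L, 920 ≤ L → L < 930 → SignP L (NNk L) (nuT L) := by
  intro L h1 h2
  interval_cases L
  · exact sL920
  · exact sL921
  · exact sL922
  · exact sL923
  · exact sL924
  · exact sL925
  · exact sL926
  · exact sL927
  · exact sL928
  · exact sL929

theorem sB930 : ∀ L, 930 ≤ L → L < 940 → SignP L (NNk L) (nuT L) := by
  intro L h1 h2
  interval_cases L
  · exact sL930
  · exact sL931
  · exact sL932
  · exact sL933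
  · exact sL934
  · exact sL935
  · exact sL936
  · exact sL937
  · exact sL938
  · exact sL939

theorem sB940 : ∀ L, 940 ≤ L → L < 950 → SignP L (NNk L) (nuT L) := by
  intro L h1 h2
  interval_cases L
  · exact sL940
  · exact sL941
  · exact sL942
  · exact sL943
  · exact sL944
  · exact sL945
  · exact sL946
  · exact sL947
  · exact sL948
  · exact sL949

theorem sB950 : ∀ L, 950 ≤ L → L < 960 → SignP L (NNk L) (nuT L) := by
  intro L h1 h2
  interval_cases L
  · exact sL950
  · exact sL951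
  · exact sL952
  · exact sL953
  · exact sL954
  · exact sL955
  · exact sL956
  · exact sL957
  · exact sL958
  · exact sL959

theorem sB960 : ∀ L, 960 ≤ L → L < 970 → SignP L (NNk L) (nuT L) := by
  intro L h1 h2
  interval_cases L
  · exact sL960
  · exact sL961
  · exact sL962
  · exact sL963
  · exact sL964
  · exact sL965
  · exact sL966
  · exact sL967
  · exact sL968
  · exact sL969

theorem sB970 : ∀ L, 970 ≤ L → L < 980 → SignP L (NNk L) (nuT L) := by
  intro L h1 h2
  interval_cases L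
  · exact sL970
  · exact sL971
  · exact sL972
  · exact sL973
  · exact sL974
  · exact sL975
  · exact sL976
  · exact sL977
  · exact sL978
  · exact sL979

theorem sB980 : ∀ L, 980 ≤ L → L < 990 → SignP L (NNk L) (nuT L) := by
  intro L h1 h2
  interval_cases L
  · exact sL980
  · exact sL981
  · exact sL982
  · exact sL983
  · exact sL984
  · exact sL985
  · exact sL986
  · exact sL987
  · exact sL988
  · exact sL989

theorem sB990 : ∀ L, 990 ≤ L → L < 1000 → SignP L (NNk L) (nuT L) := by
  intro L h1 h2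
  interval_cases L
  · exact sL990
  · exact sL991
  · exact sL992
  · exact sL993
  · exact sL994
  · exact sL995
  · exact sL996
  · exact sL997
  · exact sL998
  · exact sL999

theorem sG900 : ∀ L, 900 ≤ L → L < 1000 → SignP L (NNk L) (nuT L) := by
  intro L h1 h2
  by_cases h900 : L < 910
  · exact sB900 L (by omega) h900
  by_cases h910 : L < 920
  · exact sB910 L (by omega) h910
  by_cases h920 : L < 930
  · exact sB920 L (by omega) h920
  by_cases h930 : L < 940
  · exact sB930 L (by omega) h930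
  by_cases h940 : L < 950
  · exact sB940 L (by omega) h940
  by_cases h950 : L < 960
  · exact sB950 L (by omega) h950
  by_cases h960 : L < 970
  · exact sB960 L (by omega) h960
  by_cases h970 : L < 980
  · exact sB970 L (by omega) h970
  by_cases h980 : L < 990
  · exact sB980 L (by omega) h980
  by_cases h990 : L < 1000
  · exact sB990 L (by omega) h990
  omega

end Pool.Agent.MP_9da1e3_co
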