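import Pool.Agent.Lib.MP_9da1e3_co.KcG0
import Pool.Agent.Lib.MP_9da1e3_co.KcG100
import Pool.Agent.Lib.MP_9da1e3_co.KcG200
import Pool.Agent.Lib.MP_9da1e3_co.KcG300
import Pool.Agent.Lib.MP_9da1e3_co.KcG400
import Pool.Agent.Lib.MP_9da1e3_co.KcG500
import Pool.Agent.Lib.MP_9da1e3_co.KcG600
import Pool.Agent.Lib.MP_9da1e3_co.KcG700
import Pool.Agent.Lib.MP_9da1e3_co.KcG800
import Pool.Agent.Lib.MP_9da1e3_co.KcG900

namespace Pool.Agent.MP_9da1e3_co

theorem kc_sign : ∀ L, L < 1000 → SignP L (NNk L) (nuT L) := by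
  intro L h
  by_cases h0 : L < 100
  · exact sG0 L (by omega) h0
  by_cases h100 : L < 200
  · exact sG100 L (by omega) h100
  by_cases h200 : L < 300
  · exact sG200 L (by omega) h200
  by_cases h300 : L < 400
  · exact sG300 L (by omega) h300
  by_cases h400 : L < 500
  · exact sG400 L (by omega) h400
  by_cases h500 : L < 600
  · exact sG500 L (by omega) h500
  by_cases h600 : L < 700
  · exact sG600 L (by omega) h600
  by_cases h700 : L < 800
  · exact sG700 L (by omega) h700
  by_cases h800 : L < 900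
  · exact sG800 L (by omega) h800
  by_cases h900 : L < 1000
  · exact sG900 L (by omega) h900
  omega

end Pool.Agent.MP_9da1e3_co
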