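import Pool.Agent.Lib.MP_9da1e3_co.KcE40
import Pool.Agent.Lib.MP_9da1e3_co.KcE50

set_option maxRecDepth 100000

namespace Pool.Agent.MP_9da1e3_co

theorem qL40 : ckS 72 40 160 (nuT 40) 8 (cert 40 CL40) (cert 41 CL41)
    (cert 42 CL42) = true := by decide +kernel

theorem qL41 : ckS 72 41 163 (nuT 41) 8 (cert 41 CL41) (cert 42 CL42)
    (cert 43 CL43) = true := by decide +kernel

theorem qL42 : ckS 72 42 166 (nuT 42) 8 (cert 42 CL42) (cert 43 CL43)
    (cert 44 CL44) = true := by decide +kernel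

theorem qL43 : ckS 72 43 169 (nuT 43) 8 (cert 43 CL43) (cert 44 CL44)
    (cert 45 CL45) = true := by decide +kernel

theorem qL44 : ckS 72 44 172 (nuT 44) 8 (cert 44 CL44) (cert 45 CL45)
    (cert 46 CL46) = true := by decide +kernel

theorem qL45 : ckS 72 45 175 (nuT 45) 8 (cert 45 CL45) (cert 46 CL46)
    (cert 47 CL47) = true := by decide +kernel

theorem qL46 : ckS 72 46 178 (nuT 46) 8 (cert 46 CL46) (cert 47 CL47)
    (cert 48 CL48) = true := by decide +kernel

theorem qL47 : ckS 72 47 181 (nuT 47) 8 (cert 47 CL47) (cert 48 CL48)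
    (cert 49 CL49) = true := by decide +kernel

theorem qL48 : ckS 72 48 184 (nuT 48) 8 (cert 48 CL48) (cert 49 CL49)
    (cert 50 CL50) = true := by decide +kernel

theorem qL49 : ckS 72 49 187 (nuT 49) 8 (cert 49 CL49) (cert 50 CL50)
    (cert 51 CL51) = true := by decide +kernel

end Pool.Agent.MP_9da1e3_co
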