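import Pool.Agent.Lib.MP_9da1e3_co.KcE50
import Pool.Agent.Lib.MP_9da1e3_co.KcE60

set_option maxRecDepth 100000

namespace Pool.Agent.MP_9da1e3_co

theorem qL50 : ckS 72 50 190 (nuT 50) 8 (cert 50 CL50) (cert 51 CL51)
    (cert 52 CL52) = true := by decide +kernel

theorem qL51 : ckS 72 51 193 (nuT 51) 8 (cert 51 CL51) (cert 52 CL52)
    (cert 53 CL53) = true := by decide +kernel

theorem qL52 : ckS 72 52 196 (nuT 52) 8 (cert 52 CL52) (cert 53 CL53)
    (cert 54 CL54) = true := by decide +kernel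

theorem qL53 : ckS 72 53 199 (nuT 53) 8 (cert 53 CL53) (cert 54 CL54)
    (cert 55 CL55) = true := by decide +kernel

theorem qL54 : ckS 72 54 202 (nuT 54) 8 (cert 54 CL54) (cert 55 CL55)
    (cert 56 CL56) = true := by decide +kernel

theorem qL55 : ckS 72 55 205 (nuT 55) 8 (cert 55 CL55) (cert 56 CL56)
    (cert 57 CL57) = true := by decide +kernel

theorem qL56 : ckS 72 56 208 (nuT 56) 8 (cert 56 CL56) (cert 57 CL57)
    (cert 58 CL58) = true := by decide +kernel

theorem qL57 : ckS 72 57 211 (nuT 57) 8 (cert 57 CL57) (cert 58 CL58)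
    (cert 59 CL59) = true := by decide +kernel

theorem qL58 : ckS 72 58 214 (nuT 58) 8 (cert 58 CL58) (cert 59 CL59)
    (cert 60 CL60) = true := by decide +kernel

theorem qL59 : ckS 72 59 217 (nuT 59) 8 (cert 59 CL59) (cert 60 CL60)
    (cert 61 CL61) = true := by decide +kernel

end Pool.Agent.MP_9da1e3_co
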