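import Pool.Agent.Lib.MP_9da1e3_co.KcE60
import Pool.Agent.Lib.MP_9da1e3_co.KcE70

set_option maxRecDepth 100000

namespace Pool.Agent.MP_9da1e3_co

theorem qL60 : ckS 72 60 220 (nuT 60) 8 (cert 60 CL60) (cert 61 CL61)
    (cert 62 CL62) = true := by decide +kernel

theorem qL61 : ckS 72 61 223 (nuT 61) 8 (cert 61 CL61) (cert 62 CL62)
    (cert 63 CL63) = true := by decide +kernel

theorem qL62 : ckS 72 62 226 (nuT 62) 8 (cert 62 CL62) (cert 63 CL63)
    (cert 64 CL64) = true := by decide +kernel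

theorem qL63 : ckS 72 63 229 (nuT 63) 8 (cert 63 CL63) (cert 64 CL64)
    (cert 65 CL65) = true := by decide +kernel

theorem qL64 : ckS 72 64 232 (nuT 64) 8 (cert 64 CL64) (cert 65 CL65)
    (cert 66 CL66) = true := by decide +kernel

theorem qL65 : ckS 72 65 235 (nuT 65) 8 (cert 65 CL65) (cert 66 CL66)
    (cert 67 CL67) = true := by decide +kernel

theorem qL66 : ckS 72 66 238 (nuT 66) 8 (cert 66 CL66) (cert 67 CL67)
    (cert 68 CL68) = true := by decide +kernel

theorem qL67 : ckS 72 67 241 (nuT 67) 8 (cert 67 CL67) (cert 68 CL68)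
    (cert 69 CL69) = true := by decide +kernel

theorem qL68 : ckS 72 68 244 (nuT 68) 8 (cert 68 CL68) (cert 69 CL69)
    (cert 70 CL70) = true := by decide +kernel

theorem qL69 : ckS 72 69 247 (nuT 69) 8 (cert 69 CL69) (cert 70 CL70)
    (cert 71 CL71) = true := by decide +kernel

end Pool.Agent.MP_9da1e3_co
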