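import Pool.Agent.Lib.MP_9da1e3_co.KcE70
import Pool.Agent.Lib.MP_9da1e3_co.KcE80

set_option maxRecDepth 100000

namespace Pool.Agent.MP_9da1e3_co

theorem qL70 : ckS 72 70 250 (nuT 70) 8 (cert 70 CL70) (cert 71 CL71)
    (cert 72 CL72) = true := by decide +kernel

theorem qL71 : ckS 72 71 253 (nuT 71) 8 (cert 71 CL71) (cert 72 CL72)
    (cert 73 CL73) = true := by decide +kernel

theorem qL72 : ckS 72 72 256 (nuT 72) 9 (cert 72 CL72) (cert 73 CL73)
    (cert 74 CL74) = true := by decide +kernel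

theorem qL73 : ckS 72 73 259 (nuT 73) 9 (cert 73 CL73) (cert 74 CL74)
    (cert 75 CL75) = true := by decide +kernel

theorem qL74 : ckS 72 74 262 (nuT 74) 9 (cert 74 CL74) (cert 75 CL75)
    (cert 76 CL76) = true := by decide +kernel

theorem qL75 : ckS 72 75 265 (nuT 75) 9 (cert 75 CL75) (cert 76 CL76)
    (cert 77 CL77) = true := by decide +kernel

theorem qL76 : ckS 72 76 268 (nuT 76) 9 (cert 76 CL76) (cert 77 CL77)
    (cert 78 CL78) = true := by decide +kernel

theorem qL77 : ckS 72 77 271 (nuT 77) 9 (cert 77 CL77) (cert 78 CL78)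
    (cert 79 CL79) = true := by decide +kernel

theorem qL78 : ckS 72 78 274 (nuT 78) 9 (cert 78 CL78) (cert 79 CL79)
    (cert 80 CL80) = true := by decide +kernel

theorem qL79 : ckS 72 79 277 (nuT 79) 9 (cert 79 CL79) (cert 80 CL80)
    (cert 81 CL81) = true := by decide +kernel

end Pool.Agent.MP_9da1e3_co
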