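import Pool.Agent.Lib.MP_9da1e3_co.KcE80
import Pool.Agent.Lib.MP_9da1e3_co.KcE90

set_option maxRecDepth 100000

namespace Pool.Agent.MP_9da1e3_co

theorem qL80 : ckS 72 80 280 (nuT 80) 9 (cert 80 CL80) (cert 81 CL81)
    (cert 82 CL82) = true := by decide +kernel

theorem qL81 : ckS 72 81 283 (nuT 81) 9 (cert 81 CL81) (cert 82 CL82)
    (cert 83 CL83) = true := by decide +kernel

theorem qL82 : ckS 72 82 286 (nuT 82) 9 (cert 82 CL82) (cert 83 CL83)
    (cert 84 CL84) = true := by decide +kernel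

theorem qL83 : ckS 72 83 289 (nuT 83) 9 (cert 83 CL83) (cert 84 CL84)
    (cert 85 CL85) = true := by decide +kernel

theorem qL84 : ckS 72 84 292 (nuT 84) 9 (cert 84 CL84) (cert 85 CL85)
    (cert 86 CL86) = true := by decide +kernel

theorem qL85 : ckS 72 85 295 (nuT 85) 9 (cert 85 CL85) (cert 86 CL86)
    (cert 87 CL87) = true := by decide +kernel

theorem qL86 : ckS 72 86 298 (nuT 86) 9 (cert 86 CL86) (cert 87 CL87)
    (cert 88 CL88) = true := by decide +kernel

theorem qL87 : ckS 72 87 301 (nuT 87) 9 (cert 87 CL87) (cert 88 CL88)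
    (cert 89 CL89) = true := by decide +kernel

theorem qL88 : ckS 72 88 304 (nuT 88) 9 (cert 88 CL88) (cert 89 CL89)
    (cert 90 CL90) = true := by decide +kernel

theorem qL89 : ckS 72 89 307 (nuT 89) 9 (cert 89 CL89) (cert 90 CL90)
    (cert 91 CL91) = true := by decide +kernel

end Pool.Agent.MP_9da1e3_co
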