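import Pool.Agent.Lib.MP_9da1e3_co.KcE90
import Pool.Agent.Lib.MP_9da1e3_co.KcE100

set_option maxRecDepth 100000

namespace Pool.Agent.MP_9da1e3_co

theorem qL90 : ckS 72 90 310 (nuT 90) 9 (cert 90 CL90) (cert 91 CL91)
    (cert 92 CL92) = true := by decide +kernel

theorem qL91 : ckS 72 91 313 (nuT 91) 9 (cert 91 CL91) (cert 92 CL92)
    (cert 93 CL93) = true := by decide +kernel

theorem qL92 : ckS 72 92 316 (nuT 92) 9 (cert 92 CL92) (cert 93 CL93)
    (cert 94 CL94) = true := by decide +kernel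

theorem qL93 : ckS 72 93 319 (nuT 93) 9 (cert 93 CL93) (cert 94 CL94)
    (cert 95 CL95) = true := by decide +kernel

theorem qL94 : ckS 72 94 322 (nuT 94) 9 (cert 94 CL94) (cert 95 CL95)
    (cert 96 CL96) = true := by decide +kernel

theorem qL95 : ckS 72 95 325 (nuT 95) 9 (cert 95 CL95) (cert 96 CL96)
    (cert 97 CL97) = true := by decide +kernel

theorem qL96 : ckS 72 96 328 (nuT 96) 9 (cert 96 CL96) (cert 97 CL97)
    (cert 98 CL98) = true := by decide +kernel

theorem qL97 : ckS 72 97 331 (nuT 97) 9 (cert 97 CL97) (cert 98 CL98)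
    (cert 99 CL99) = true := by decide +kernel

theorem qL98 : ckS 72 98 334 (nuT 98) 9 (cert 98 CL98) (cert 99 CL99)
    (cert 100 CL100) = true := by decide +kernel

theorem qL99 : ckS 72 99 337 (nuT 99) 9 (cert 99 CL99) (cert 100 CL100)
    (cert 101 CL101) = true := by decide +kernel

end Pool.Agent.MP_9da1e3_co
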