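import Pool.Agent.Lib.MP_9da1e3_co.Kc4
import Pool.Agent.Lib.MP_9da1e3_co.KcH
import Pool.Agent.Lib.MP_9da1e3_co.KcS40
import Pool.Agent.Lib.MP_9da1e3_co.KcS50
import Pool.Agent.Lib.MP_9da1e3_co.KcS60
import Pool.Agent.Lib.MP_9da1e3_co.KcS70
import Pool.Agent.Lib.MP_9da1e3_co.KcS80
import Pool.Agent.Lib.MP_9da1e3_co.KcS90

namespace Pool.Agent.MP_9da1e3_co

theorem sL0 : SignP 0 (NNk 0) (nuT 0) :=
  sgnH (by decide) eH0 eH1 eH2 qL0

theorem sL1 : SignP 1 (NNk 1) (nuT 1) :=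
  sgnH (by decide) eH1 eH2 eH3 qL1

theorem sL2 : SignP 2 (NNk 2) (nuT 2) :=
  sgnH (by decide) eH2 eH3 eH4 qL2

theorem sL3 : SignP 3 (NNk 3) (nuT 3) :=
  sgnH (by decide) eH3 eH4 eH5 qL3

theorem sL4 : SignP 4 (NNk 4) (nuT 4) :=
  sgnH (by decide) eH4 eH5 eH6 qL4

theorem sL5 : SignP 5 (NNk 5) (nuT 5) :=
  sgnH (by decide) eH5 eH6 eH7 qL5

theorem sL6 : SignP 6 (NNk 6) (nuT 6) :=
  sgnH (by decide) eH6 eH7 eH8 qL6

theorem sL7 : SignP 7 (NNk 7) (nuT 7) :=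
  sgnH (by decide) eH7 eH8 eH9 qL7

theorem sL8 : SignP 8 (NNk 8) (nuT 8) :=
  sgnH (by decide) eH8 eH9 eH10 qL8

theorem sL9 : SignP 9 (NNk 9) (nuT 9) :=
  sgnH (by decide) eH9 eH10 eH11 qL9

theorem sL10 : SignP 10 (NNk 10) (nuT 10) :=
  sgnH (by decide) eH10 eH11 eH12 qL10

theorem sL11 : SignP 11 (NNk 11) (nuT 11) :=
  sgnH (by decide) eH11 eH12 eH13 qL11

theorem sL12 : SignP 12 (NNk 12) (nuT 12) :=
  sgnH (by decide) eH12 eH13 eH14 qL12

theorem sL13 : SignP 13 (NNk 13) (nuT 13) :=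
  sgnH (by decide) eH13 eH14 eH15 qL13

theorem sL14 : SignP 14 (NNk 14) (nuT 14) :=
  sgnH (by decide) eH14 eH15 eH16 qL14

theorem sL15 : SignP 15 (NNk 15) (nuT 15) :=
  sgnH (by decide) eH15 eH16 eH17 qL15

theorem sL16 : SignP 16 (NNk 16) (nuT 16) :=
  sgnH (by decide) eH16 eH17 eH18 qL16

theorem sL17 : SignP 17 (NNk 17) (nuT 17) :=
  sgnH (by decide) eH17 eH18 eH19 qL17

theorem sL18 : SignP 18 (NNk 18) (nuT 18) :=
  sgnH (by decide) eH18 eH19 eH20 qL18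

theorem sL19 : SignP 19 (NNk 19) (nuT 19) :=
  sgnH (by decide) eH19 eH20 eH21 qL19

theorem sL20 : SignP 20 (NNk 20) (nuT 20) :=
  sgnH (by decide) eH20 eH21 eH22 qL20

theorem sL21 : SignP 21 (NNk 21) (nuT 21) :=
  sgnH (by decide) eH21 eH22 eH23 qL21

theorem sL22 : SignP 22 (NNk 22) (nuT 22) :=
  sgnH (by decide) eH22 eH23 eH24 qL22

theorem sL23 : SignP 23 (NNk 23) (nuT 23) :=
  sgnH (by decide) eH23 eH24 eH25 qL23

theorem sL24 : SignP 24 (NNk 24) (nuT 24) :=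
  sgnH (by decide) eH24 eH25 eH26 qL24

theorem sL25 : SignP 25 (NNk 25) (nuT 25) :=
  sgnH (by decide) eH25 eH26 eH27 qL25

theorem sL26 : SignP 26 (NNk 26) (nuT 26) :=
  sgnH (by decide) eH26 eH27 eH28 qL26

theorem sL27 : SignP 27 (NNk 27) (nuT 27) :=
  sgnH (by decide) eH27 eH28 eH29 qL27

theorem sL28 : SignP 28 (NNk 28) (nuT 28) :=
  sgnH (by decide) eH28 eH29 eH30 qL28

theorem sL29 : SignP 29 (NNk 29) (nuT 29) :=
  sgnH (by decide) eH29 eH30 eH31 qL29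

theorem sL30 : SignP 30 (NNk 30) (nuT 30) :=
  sgnH (by decide) eH30 eH31 eH32 qL30

theorem sL31 : SignP 31 (NNk 31) (nuT 31) :=
  sgnH (by decide) eH31 eH32 eH33 qL31

theorem sL32 : SignP 32 (NNk 32) (nuT 32) :=
  sgnH (by decide) eH32 eH33 eH34 qL32

theorem sL33 : SignP 33 (NNk 33) (nuT 33) :=
  sgnH (by decide) eH33 eH34 eH35 qL33

theorem sL34 : SignP 34 (NNk 34) (nuT 34) :=
  sgnH (by decide) eH34 eH35 eH36 qL34

theorem sL35 : SignP 35 (NNk 35) (nuT 35) :=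
  sgnH (by decide) eH35 eH36 eH37 qL35

theorem sL36 : SignP 36 (NNk 36) (nuT 36) :=
  sgnH (by decide) eH36 eH37 eH38 qL36

theorem sL37 : SignP 37 (NNk 37) (nuT 37) :=
  sgnH (by decide) eH37 eH38 eH39 qL37

theorem sL38 : SignP 38 (NNk 38) (nuT 38) :=
  sgnH (by decide) eH38 eH39 eH40 qL38

theorem sL39 : SignP 39 (NNk 39) (nuT 39) :=
  sgnH (by decide) eH39 eH40 eH41 qL39

theorem sL40 : SignP 40 (NNk 40) (nuT 40) :=
  sgnL (by decide) eL40 eL41 eL42 qL40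

theorem sL41 : SignP 41 (NNk 41) (nuT 41) :=
  sgnL (by decide) eL41 eL42 eL43 qL41

theorem sL42 : SignP 42 (NNk 42) (nuT 42) :=
  sgnL (by decide) eL42 eL43 eL44 qL42

theorem sL43 : SignP 43 (NNk 43) (nuT 43) :=
  sgnL (by decide) eL43 eL44 eL45 qL43

theorem sL44 : SignP 44 (NNk 44) (nuT 44) :=
  sgnL (by decide) eL44 eL45 eL46 qL44

theorem sL45 : SignP 45 (NNk 45) (nuT 45) :=
  sgnL (by decide) eL45 eL46 eL47 qL45

theorem sL46 : SignP 46 (NNk 46) (nuT 46) :=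
  sgnL (by decide) eL46 eL47 eL48 qL46

theorem sL47 : SignP 47 (NNk 47) (nuT 47) :=
  sgnL (by decide) eL47 eL48 eL49 qL47

theorem sL48 : SignP 48 (NNk 48) (nuT 48) :=
  sgnL (by decide) eL48 eL49 eL50 qL48

theorem sL49 : SignP 49 (NNk 49) (nuT 49) :=
  sgnL (by decide) eL49 eL50 eL51 qL49

theorem sL50 : SignP 50 (NNk 50) (nuT 50) :=
  sgnL (by decide) eL50 eL51 eL52 qL50

theorem sL51 : SignP 51 (NNk 51) (nuT 51) :=
  sgnL (by decide) eL51 eL52 eL53 qL51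

theorem sL52 : SignP 52 (NNk 52) (nuT 52) :=
  sgnL (by decide) eL52 eL53 eL54 qL52

theorem sL53 : SignP 53 (NNk 53) (nuT 53) :=
  sgnL (by decide) eL53 eL54 eL55 qL53

theorem sL54 : SignP 54 (NNk 54) (nuT 54) :=
  sgnL (by decide) eL54 eL55 eL56 qL54

theorem sL55 : SignP 55 (NNk 55) (nuT 55) :=
  sgnL (by decide) eL55 eL56 eL57 qL55

theorem sL56 : SignP 56 (NNk 56) (nuT 56) :=
  sgnL (by decide) eL56 eL57 eL58 qL56

theorem sL57 : SignP 57 (NNk 57) (nuT 57) :=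
  sgnL (by decide) eL57 eL58 eL59 qL57

theorem sL58 : SignP 58 (NNk 58) (nuT 58) :=
  sgnL (by decide) eL58 eL59 eL60 qL58

theorem sL59 : SignP 59 (NNk 59) (nuT 59) :=
  sgnL (by decide) eL59 eL60 eL61 qL59

theorem sL60 : SignP 60 (NNk 60) (nuT 60) :=
  sgnL (by decide) eL60 eL61 eL62 qL60

theorem sL61 : SignP 61 (NNk 61) (nuT 61) :=
  sgnL (by decide) eL61 eL62 eL63 qL61

theorem sL62 : SignP 62 (NNk 62) (nuT 62) :=
  sgnL (by decide) eL62 eL63 eL64 qL62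

theorem sL63 : SignP 63 (NNk 63) (nuT 63) :=
  sgnL (by decide) eL63 eL64 eL65 qL63

theorem sL64 : SignP 64 (NNk 64) (nuT 64) :=
  sgnL (by decide) eL64 eL65 eL66 qL64

theorem sL65 : SignP 65 (NNk 65) (nuT 65) :=
  sgnL (by decide) eL65 eL66 eL67 qL65

theorem sL66 : SignP 66 (NNk 66) (nuT 66) :=
  sgnL (by decide) eL66 eL67 eL68 qL66

theorem sL67 : SignP 67 (NNk 67) (nuT 67) :=
  sgnL (by decide) eL67 eL68 eL69 qL67

theorem sL68 : SignP 68 (NNk 68) (nuT 68) :=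
  sgnL (by decide) eL68 eL69 eL70 qL68

theorem sL69 : SignP 69 (NNk 69) (nuT 69) :=
  sgnL (by decide) eL69 eL70 eL71 qL69

theorem sL70 : SignP 70 (NNk 70) (nuT 70) :=
  sgnL (by decide) eL70 eL71 eL72 qL70

theorem sL71 : SignP 71 (NNk 71) (nuT 71) :=
  sgnL (by decide) eL71 eL72 eL73 qL71

theorem sL72 : SignP 72 (NNk 72) (nuT 72) :=
  sgnL (by decide) eL72 eL73 eL74 qL72

theorem sL73 : SignP 73 (NNk 73) (nuT 73) :=
  sgnL (by decide) eL73 eL74 eL75 qL73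

theorem sL74 : SignP 74 (NNk 74) (nuT 74) :=
  sgnL (by decide) eL74 eL75 eL76 qL74

theorem sL75 : SignP 75 (NNk 75) (nuT 75) :=
  sgnL (by decide) eL75 eL76 eL77 qL75

theorem sL76 : SignP 76 (NNk 76) (nuT 76) :=
  sgnL (by decide) eL76 eL77 eL78 qL76

theorem sL77 : SignP 77 (NNk 77) (nuT 77) :=
  sgnL (by decide) eL77 eL78 eL79 qL77

theorem sL78 : SignP 78 (NNk 78) (nuT 78) :=
  sgnL (by decide) eL78 eL79 eL80 qL78

theorem sL79 : SignP 79 (NNk 79) (nuT 79) :=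
  sgnL (by decide) eL79 eL80 eL81 qL79

theorem sL80 : SignP 80 (NNk 80) (nuT 80) :=
  sgnL (by decide) eL80 eL81 eL82 qL80

theorem sL81 : SignP 81 (NNk 81) (nuT 81) :=
  sgnL (by decide) eL81 eL82 eL83 qL81

theorem sL82 : SignP 82 (NNk 82) (nuT 82) :=
  sgnL (by decide) eL82 eL83 eL84 qL82

theorem sL83 : SignP 83 (NNk 83) (nuT 83) :=
  sgnL (by decide) eL83 eL84 eL85 qL83

theorem sL84 : SignP 84 (NNk 84) (nuT 84) :=
  sgnL (by decide) eL84 eL85 eL86 qL84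

theorem sL85 : SignP 85 (NNk 85) (nuT 85) :=
  sgnL (by decide) eL85 eL86 eL87 qL85

theorem sL86 : SignP 86 (NNk 86) (nuT 86) :=
  sgnL (by decide) eL86 eL87 eL88 qL86

theorem sL87 : SignP 87 (NNk 87) (nuT 87) :=
  sgnL (by decide) eL87 eL88 eL89 qL87

theorem sL88 : SignP 88 (NNk 88) (nuT 88) :=
  sgnL (by decide) eL88 eL89 eL90 qL88

theorem sL89 : SignP 89 (NNk 89) (nuT 89) :=
  sgnL (by decide) eL89 eL90 eL91 qL89

theorem sL90 : SignP 90 (NNk 90) (nuT 90) :=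
  sgnL (by decide) eL90 eL91 eL92 qL90

theorem sL91 : SignP 91 (NNk 91) (nuT 91) :=
  sgnL (by decide) eL91 eL92 eL93 qL91

theorem sL92 : SignP 92 (NNk 92) (nuT 92) :=
  sgnL (by decide) eL92 eL93 eL94 qL92

theorem sL93 : SignP 93 (NNk 93) (nuT 93) :=
  sgnL (by decide) eL93 eL94 eL95 qL93

theorem sL94 : SignP 94 (NNk 94) (nuT 94) :=
  sgnL (by decide) eL94 eL95 eL96 qL94

theorem sL95 : SignP 95 (NNk 95) (nuT 95) :=
  sgnL (by decide) eL95 eL96 eL97 qL95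

theorem sL96 : SignP 96 (NNk 96) (nuT 96) :=
  sgnL (by decide) eL96 eL97 eL98 qL96

theorem sL97 : SignP 97 (NNk 97) (nuT 97) :=
  sgnL (by decide) eL97 eL98 eL99 qL97

theorem sL98 : SignP 98 (NNk 98) (nuT 98) :=
  sgnL (by decide) eL98 eL99 eL100 qL98

theorem sL99 : SignP 99 (NNk 99) (nuT 99) :=
  sgnL (by decide) eL99 eL100 eL101 qL99

theorem sB0 : ∀ L, 0 ≤ L → L < 10 → SignP L (NNk L) (nuT L) := by
  intro L h1 h2
  interval_cases L
  · exact sL0
  · exact sL1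
  · exact sL2
  · exact sL3
  · exact sL4
  · exact sL5
  · exact sL6
  · exact sL7
  · exact sL8
  · exact sL9

theorem sB10 : ∀ L, 10 ≤ L → L < 20 → SignP L (NNk L) (nuT L) := by
  intro L h1 h2
  interval_cases L
  · exact sL10
  · exact sL11
  · exact sL12
  · exact sL13
  · exact sL14
  · exact sL15
  · exact sL16
  · exact sL17
  · exact sL18
  · exact sL19

theorem sB20 : ∀ L, 20 ≤ L → L < 30 → SignP L (NNk L) (nuT L) := by
  intro L h1 h2
  interval_cases L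
  · exact sL20
  · exact sL21
  · exact sL22
  · exact sL23
  · exact sL24
  · exact sL25
  · exact sL26
  · exact sL27
  · exact sL28
  · exact sL29

theorem sB30 : ∀ L, 30 ≤ L → L < 40 → SignP L (NNk L) (nuT L) := by
  intro L h1 h2
  interval_cases L
  · exact sL30
  · exact sL31
  · exact sL32
  · exact sL33
  · exact sL34
  · exact sL35
  · exact sL36
  · exact sL37
  · exact sL38
  · exact sL39

theorem sB40 : ∀ L, 40 ≤ L → L < 50 → SignP L (NNk L) (nuT L) := by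
  intro L h1 h2
  interval_cases L
  · exact sL40
  · exact sL41
  · exact sL42
  · exact sL43
  · exact sL44
  · exact sL45
  · exact sL46
  · exact sL47
  · exact sL48
  · exact sL49

theorem sB50 : ∀ L, 50 ≤ L → L < 60 → SignP L (NNk L) (nuT L) := by
  intro L h1 h2
  interval_cases L
  · exact sL50
  · exact sL51
  · exact sL52
  · exact sL53
  · exact sL54
  · exact sL55
  · exact sL56
  · exact sL57
  · exact sL58
  · exact sL59

theorem sB60 : ∀ L, 60 ≤ L → L < 70 → SignP L (NNk L) (nuT L) := by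
  intro L h1 h2
  interval_cases L
  · exact sL60
  · exact sL61
  · exact sL62
  · exact sL63
  · exact sL64
  · exact sL65
  · exact sL66
  · exact sL67
  · exact sL68
  · exact sL69

theorem sB70 : ∀ L, 70 ≤ L → L < 80 → SignP L (NNk L) (nuT L) := by
  intro L h1 h2
  interval_cases L
  · exact sL70
  · exact sL71
  · exact sL72
  · exact sL73
  · exact sL74
  · exact sL75
  · exact sL76
  · exact sL77
  · exact sL78
  · exact sL79

theorem sB80 : ∀ L, 80 ≤ L → L < 90 → SignP L (NNk L) (nuT L) := by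
  intro L h1 h2
  interval_cases L
  · exact sL80
  · exact sL81
  · exact sL82
  · exact sL83
  · exact sL84
  · exact sL85
  · exact sL86
  · exact sL87
  · exact sL88
  · exact sL89

theorem sB90 : ∀ L, 90 ≤ L → L < 100 → SignP L (NNk L) (nuT L) := by
  intro L h1 h2
  interval_cases L
  · exact sL90
  · exact sL91
  · exact sL92
  · exact sL93
  · exact sL94
  · exact sL95
  · exact sL96
  · exact sL97
  · exact sL98
  · exact sL99

theorem sG0 : ∀ L, 0 ≤ L → L < 100 → SignP L (NNk L) (nuT L) := by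
  intro L h1 h2
  by_cases h0 : L < 10
  · exact sB0 L (by omega) h0
  by_cases h10 : L < 20
  · exact sB10 L (by omega) h10
  by_cases h20 : L < 30
  · exact sB20 L (by omega) h20
  by_cases h30 : L < 40
  · exact sB30 L (by omega) h30
  by_cases h40 : L < 50
  · exact sB40 L (by omega) h40
  by_cases h50 : L < 60
  · exact sB50 L (by omega) h50
  by_cases h60 : L < 70
  · exact sB60 L (by omega) h60
  by_cases h70 : L < 80
  · exact sB70 L (by omega) h70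
  by_cases h80 : L < 90
  · exact sB80 L (by omega) h80
  by_cases h90 : L < 100
  · exact sB90 L (by omega) h90
  omega

end Pool.Agent.MP_9da1e3_co
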