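import Pool.Agent.Lib.MP_9da1e3_co.Kc4
import Pool.Agent.Lib.MP_9da1e3_co.KcX

namespace Pool.Agent.MP_9da1e3_co

/-- the sign change for `L = 1000` -/
theorem kc_sign_1000 : SignP 1000 (NNk 1000) 1077 :=
  sgnL (by decide) eL1000 eL1001 eL1002 qL1000

end Pool.Agent.MP_9da1e3_co
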