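import Pool.Agent.Lib.MP_9da1e3_co.Kc0

/-! Kernel check of the data of the far theorem: definitions (no Mathlib). -/

namespace Pool.Agent.MP_9da1e3_co

/-- the sum of `g (n + i) (dg w C i)` over `i < 2 ^ d` -/
def sm (w : Nat) (g : Nat → Nat → Nat) (d : Nat) : Nat → Nat → Nat :=
  Nat.rec (motive := fun _ => Nat → Nat → Nat) (fun n C => g n (lowb C w))
    (fun d ih n C => Nat.add (ih n (lowb C (Nat.mul w (Nat.pow 2 d))))
      (ih (Nat.add n (Nat.pow 2 d)) (Nat.shiftRight C (Nat.mul w (Nat.pow 2 d))))) d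

/-- indicator of `a ≤ n < b` times a value -/
def ind (a b : Nat) (g : Nat → Nat → Nat) (n x : Nat) : Nat :=
  cond (Nat.ble a n) (cond (Nat.ble b n) 0 (g n x)) 0

/-- the sum of `g n (digit n)` over `a ≤ n < b` -/
def smI (w a b : Nat) (g : Nat → Nat → Nat) (d C : Nat) : Nat := sm w (ind a b g) d 0 C

/-- the pointwise test at `n`, `M ≤ n ≤ N` -/
def QK (L M N kp kq n x1 x2 x3 : Nat) : Bool :=
  cond (Nat.ble M n) (cond (Nat.ble n N)
    (cond (Nat.ble (Nat.add (Nat.mul kp (hiN n x2)) (Nat.mul (Nat.mul 1024 L) (hiN n x1)))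
        (Nat.mul (Nat.mul 1024 L) (loN n x2)))
      (Nat.ble (Nat.add (Nat.mul kq (hiN n x3)) (Nat.mul (Nat.mul 1024 L) (hiN n x2)))
        (Nat.mul (Nat.mul 1024 L) (loN n x3))) false) true) true

/-- `W`: upper bound of `- ∑ B` (scaled) -/
def kW (w L N d C1 C2 C3 : Nat) : Nat :=
  Nat.sub (Nat.mul 2 (smI w (Nat.add L 1) (Nat.add N 1) hiN d C2))
    (Nat.add (smI w (Nat.add L 1) (Nat.add N 1) loN d C1)
      (smI w (Nat.add L 1) (Nat.add N 1) loN d C3))

/-- lower bound of `∑ (g - g')` over `a ≤ n < b` (scaled) -/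
def kG (w a b d C C' : Nat) : Nat := Nat.sub (smI w a b loN d C) (smI w a b hiN d C')

def ckI (L kp kq W G G1 T : Nat) : Bool :=
  cond (Nat.ble (Nat.mul 1024 (Nat.add (Nat.mul (Nat.add L 1) W) T))
      (Nat.add (Nat.mul 1024 (Nat.add G G1)) (Nat.mul kp (Nat.add (Nat.mul 2 G) G1))))
    (Nat.ble (Nat.mul 1024 (Nat.mul (Nat.add L 1) W))
      (Nat.add (Nat.mul 1024 (Nat.add G G1)) (Nat.mul kq G))) false

/-- the whole check; `M` cuts, `kp / 1024`, `kq / 1024` are the two kappas -/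
def ckF (w L N nu M kp kq d C1 C2 C3 : Nat) : Bool :=
  cond (Nat.ble (Nat.add N 1) (Nat.pow 2 d))
    (cond (Nat.ble (Nat.mul 2 M) (Nat.add N 1))
      (cond (Nat.ble (Nat.add nu 1) M)
        (cond (Nat.ble (Nat.add L 1) nu)
          (cond (Nat.ble kp (Nat.mul 1024 L))
            (cond (Nat.ble kq (Nat.mul 1024 L))
              (cond (al3 w w w (QK L M N kp kq) d 0 C1 C2 C3)
                (ckI L kp kq (kW w L N d C1 C2 C3) (kG w nu M d C2 C1) (kG w nu M d C3 C2)
                  (hiN L (lowb (Nat.shiftRight C2 (Nat.mul w L)) w))) false) false) false) false)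
        false) false) false

end Pool.Agent.MP_9da1e3_co
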