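import Pool.Agent.Lib.MP_9da1e3_co.Lf8

namespace Pool.Agent.MP_9da1e3_co

open Finset

/-- the terms of `E (n+1) (L A_L(n+1) - κ F_(L+1)(n+1))` -/
noncomputable def TTp (L n : ℕ) (κ : ℝ) (k : ℕ) : ℝ :=
  (L : ℝ) * (An L k * KK L (n - k)) +
    (L : ℝ) * (if L ≤ k then Fn (L + 1) k * Fn (L + 1) (n - k) else 0) -
    κ * (((min (L + 1) (k + 1) : ℕ) : ℝ) * (Fn (L + 1) k * Fn (L + 1) (n - k)))

lemma TTp_sum (L n : ℕ) (κ : ℝ) : E * (((n : ℝ) + 1) * ((L : ℝ) * An L (n + 1) - κ * Fn (L + 1) (n + 1)))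
    = ∑ k ∈ range (n + 1), TTp L n κ k := by
  have h1 := A_rec2 L n
  have h2 := Fn_rec (L + 1) n
  have e : E * (((n : ℝ) + 1) * ((L : ℝ) * An L (n + 1) - κ * Fn (L + 1) (n + 1))) =
      (L : ℝ) * (E * (((n : ℝ) + 1) * An L (n + 1))) -
        κ * (E * (((n : ℝ) + 1) * Fn (L + 1) (n + 1))) := by ring
  rw [e, h1, h2, mul_add, Finset.mul_sum, Finset.mul_sum, Finset.mul_sum,
    ← Finset.sum_add_distrib, ← Finset.sum_sub_distrib]
  rfl

lemma pair_alg (L κ a b fm fi : ℝ) (hL : 0 ≤ L) (hκ : κ ≤ L) (hfi : 0 ≤ fi)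
    (hfm : 0 ≤ fm) (hb : 0 ≤ b) (hbi : b ≤ fi) (ha : κ * fm ≤ L * a) :
    0 ≤ L * (a * (L * fi + L * (fi - b))) + L * (fm * fi) - κ * ((L + 1) * (fm * fi)) +
      (L * (b * (L * fm + L * (fm - a))) + L * (fi * fm) - κ * ((L + 1) * (fi * fm))) := by
  have h1 : 0 ≤ (L * a - κ * fm) * (fi - b) := mul_nonneg (by linarith) (by linarith)
  have h2 : 0 ≤ (L - κ) * (b * fm) := mul_nonneg (by linarith) (mul_nonneg hb hfm)
  have h3 : 0 ≤ (L - κ) * (fi * fm) := mul_nonneg (by linarith) (mul_nonneg hfi hfm)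
  have h4 := mul_nonneg hL h1
  have h5 := mul_nonneg hL h2
  nlinarith

/-- one pair -/
lemma TTp_pair (L n i m : ℕ) (κ : ℝ) (hn : i + m = n) (hm : L ≤ m) (hκ : κ ≤ L)
    (h : κ * Fn (L + 1) m ≤ (L : ℝ) * An L m) : 0 ≤ TTp L n κ m + TTp L n κ i := by
  have e1 : n - m = i := by omega
  have e2 : n - i = m := by omega
  have hfi := Fn_nonneg (L + 1) i
  have hfm := Fn_nonneg (L + 1) m
  have hai := An_nonneg L i
  have ham := An_nonneg L m
  have hL0 : (0 : ℝ) ≤ L := Nat.cast_nonneg L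
  have kf : ∀ x, Fn L x = Fn (L + 1) x - An L x := by
    intro x
    unfold An
    ring
  unfold TTp KK
  rw [e1, e2, if_pos hm]
  have m1 : min (L + 1) (m + 1) = L + 1 := by omega
  have m2 : min L (m + 1) = L := by omega
  rw [m1, m2]
  rcases Nat.lt_trichotomy i L with hi | hi | hi
  · have m3 : min L (i + 1) = i + 1 := by omega
    have m4 : min (L + 1) (i + 1) = i + 1 := by omega
    rw [m3, m4, if_neg (by omega), An_zero L i (by omega), kf i, An_zero L i (by omega)]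
    push_cast
    have h1 : κ * Fn (L + 1) m * (((L : ℝ) + (i + 1)) * Fn (L + 1) i) ≤
        (L : ℝ) * An L m * (((L : ℝ) + (i + 1)) * Fn (L + 1) i) :=
      mul_le_mul_of_nonneg_right h (by positivity)
    have h2 : 0 ≤ ((L : ℝ) - κ) * (Fn (L + 1) m * Fn (L + 1) i) :=
      mul_nonneg (by linarith) (mul_nonneg hfm hfi)
    nlinarith
  · have m3 : min L (i + 1) = L := by omega
    have m4 : min (L + 1) (i + 1) = L + 1 := by omega
    rw [m3, m4, if_pos (by omega), An_zero L i (by omega), kf i, An_zero L i (by omega)]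
    push_cast
    have h1 : κ * Fn (L + 1) m * (((L : ℝ) + L) * Fn (L + 1) i) ≤
        (L : ℝ) * An L m * (((L : ℝ) + L) * Fn (L + 1) i) :=
      mul_le_mul_of_nonneg_right h (by positivity)
    have h2 : 0 ≤ ((L : ℝ) - κ) * (Fn (L + 1) m * Fn (L + 1) i) :=
      mul_nonneg (by linarith) (mul_nonneg hfm hfi)
    nlinarith
  · have m3 : min L (i + 1) = L := by omega
    have m4 : min (L + 1) (i + 1) = L + 1 := by omega
    have hb : An L i ≤ Fn (L + 1) i := by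
      have := Fn_nonneg L i
      have := kf i
      linarith
    rw [m3, m4, if_pos (by omega), kf i, kf m]
    push_cast
    exact pair_alg (L : ℝ) κ (An L m) (An L i) (Fn (L + 1) m) (Fn (L + 1) i) hL0 hκ hfi hfm hai
      hb h

/-- the inequality `κ F_(L+1) ≤ L A_L` propagates -/
lemma kappa_step (L J n : ℕ) (κ : ℝ) (hJ : L ≤ J) (hκ0 : 0 ≤ κ) (hκ : κ ≤ L) (hn : 2 * J ≤ n + 1)
    (h : ∀ j, J ≤ j → j ≤ n → κ * Fn (L + 1) j ≤ (L : ℝ) * An L j) :
    κ * Fn (L + 1) (n + 1) ≤ (L : ℝ) * An L (n + 1) := by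
  have hs : 0 ≤ ∑ k ∈ range (n + 1), TTp L n κ k := by
    have h2 : 0 ≤ ∑ k ∈ range (n + 1), (TTp L n κ k + TTp L n κ (n - k)) := by
      apply Finset.sum_nonneg
      intro k hk
      have hk' := mem_range.mp hk
      rcases le_or_gt J k with h1 | h1
      · exact TTp_pair L n (n - k) k κ (by omega) (by omega) hκ (h k h1 (by omega))
      · have := TTp_pair L n k (n - k) κ (by omega) (by omega) hκ (h (n - k) (by omega) (by omega))
        linarith
    rw [Finset.sum_add_distrib, sum_rev (TTp L n κ) n] at h2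
    linarith
  rw [← TTp_sum] at hs
  have hE := E_pos
  have hn0 : (0 : ℝ) < (n : ℝ) + 1 := by positivity
  have h3 : 0 ≤ (L : ℝ) * An L (n + 1) - κ * Fn (L + 1) (n + 1) := by
    by_contra hc
    push Not at hc
    have := mul_neg_of_pos_of_neg hE (mul_neg_of_pos_of_neg hn0 hc)
    linarith
  linarith

theorem kappa_all (L J : ℕ) (κ : ℝ) (hJ : L ≤ J) (hJ0 : 1 ≤ J) (hκ0 : 0 ≤ κ) (hκ : κ ≤ L)
    (h : ∀ j, J ≤ j → j < 2 * J → κ * Fn (L + 1) j ≤ (L : ℝ) * An L j) :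
    ∀ j, J ≤ j → κ * Fn (L + 1) j ≤ (L : ℝ) * An L j := by
  intro j
  induction j using Nat.strong_induction_on with
  | _ j ih =>
    intro hj
    rcases lt_or_ge j (2 * J) with h1 | h1
    · exact h j hj h1
    · rcases j with _ | n
      · exact h 0 hj (by omega)
      · exact kappa_step L J n κ hJ hκ0 hκ (by omega) (fun j' h2 h3 => ih j' (by omega) h2)

lemma two_blocks (φ : ℕ → ℝ) (hφ : ∀ j, 0 ≤ φ j) (n ν M : ℕ) (hn : 2 * M ≤ n + 1) :
    ∑ j ∈ Ico ν M, (φ j + φ (n - j)) ≤ ∑ j ∈ range (n + 1), φ j := by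
  rw [Finset.sum_add_distrib, Finset.sum_Ico_reflect φ ν (show M ≤ n + 1 by omega),
    ← Finset.sum_union]
  · apply Finset.sum_le_sum_of_subset_of_nonneg
    · intro j hj
      rw [mem_union, mem_Ico, mem_Ico] at hj
      rw [mem_range]
      omega
    · intro j _ _
      exact hφ j
  · rw [Finset.disjoint_left]
    intro j h1 h2
    rw [mem_Ico] at h1 h2
    omega

lemma one_block (φ : ℕ → ℝ) (hφ : ∀ j, 0 ≤ φ j) (n ν M : ℕ) (hn : M ≤ n + 1) :
    ∑ j ∈ Ico ν M, φ j ≤ ∑ j ∈ range (n + 1), φ j := by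
  apply Finset.sum_le_sum_of_subset_of_nonneg
  · intro j hj
    rw [mem_Ico] at hj
    rw [mem_range]
    omega
  · intro j _ _
    exact hφ j

lemma one_block' (φ : ℕ → ℝ) (hφ : ∀ j, 0 ≤ φ j) (n ν M : ℕ) (hn : M ≤ n + 1) :
    ∑ j ∈ Ico ν M, φ (n - j) ≤ ∑ j ∈ range (n + 1), φ j := by
  rw [Finset.sum_Ico_reflect φ ν (show M ≤ n + 1 by omega)]
  apply Finset.sum_le_sum_of_subset_of_nonneg
  · intro j hj
    rw [mem_Ico] at hj
    rw [mem_range]
    omega
  · intro j _ _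
    exact hφ j

/-- lower bound of the sources, abstract form -/
lemma src_abs (L ν M n : ℕ) (κ κ' G G1 : ℝ) (F1 F2 A0 A1 : ℕ → ℝ) (hLM : L < M)
    (hn : 2 * M ≤ n + 1) (hF1 : ∀ x, 0 ≤ F1 x) (hF2 : ∀ x, 0 ≤ F2 x) (hA0 : ∀ x, 0 ≤ A0 x)
    (hA1 : ∀ x, 0 ≤ A1 x) (hF1a : ∀ a b, a ≤ b → F1 b ≤ F1 a) (hF2a : ∀ a b, a ≤ b → F2 b ≤ F2 a)
    (hk : ∀ j, M ≤ j → κ * F1 j ≤ (L : ℝ) * A0 j) (hk' : ∀ j, M ≤ j → κ' * F2 j ≤ (L : ℝ) * A1 j)
    (hκ0 : 0 ≤ κ) (hκ0' : 0 ≤ κ')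
    (hG : G ≤ ∑ j ∈ Ico ν M, A0 j) (hG1 : G1 ≤ ∑ j ∈ Ico ν M, A1 j) :
    F1 (n - ν) * (G + G1 + κ * (2 * G + G1)) + F2 (n - ν) * (G + G1 + κ' * G) ≤
    ∑ j ∈ range (n + 1), A0 j * (F2 (n - j) + (L : ℝ) * A1 (n - j) +
      (if L ≤ n - j then F1 (n - j) else 0) + (L : ℝ) * A0 (n - j)) +
    ∑ k ∈ range (n + 1), A1 k * F2 (n - k) +
    ∑ k ∈ range (n + 1), (if L + 1 ≤ k then F1 k * A1 (n - k) else 0) := by
  have hL0 : (0 : ℝ) ≤ L := Nat.cast_nonneg L
  have b1 := two_blocks (fun j => A0 j * (F2 (n - j) + (L : ℝ) * A1 (n - j) +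
      (if L ≤ n - j then F1 (n - j) else 0) + (L : ℝ) * A0 (n - j))) (by
    intro j
    have h1 := hA0 j
    have h2 := hF2 (n - j)
    have h3 := hA1 (n - j)
    have h4 := hA0 (n - j)
    have h5 : 0 ≤ (if L ≤ n - j then F1 (n - j) else 0) := by
      split_ifs
      · exact hF1 _
      · exact le_rfl
    show 0 ≤ A0 j * _
    exact mul_nonneg h1 (by
      have := mul_nonneg hL0 h3
      have := mul_nonneg hL0 h4
      linarith)) n ν M hn
  have b2 := one_block (fun k => A1 k * F2 (n - k)) (by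
    intro k
    exact mul_nonneg (hA1 _) (hF2 _)) n ν M (by omega)
  have b3 := one_block' (fun k => (if L + 1 ≤ k then F1 k * A1 (n - k) else 0)) (by
    intro k
    show 0 ≤ (if L + 1 ≤ k then F1 k * A1 (n - k) else 0)
    split_ifs
    · exact mul_nonneg (hF1 _) (hA1 _)
    · exact le_rfl) n ν M (by omega)
  have f1 := hF1 (n - ν)
  have f2 := hF2 (n - ν)
  have key : F1 (n - ν) * (∑ j ∈ Ico ν M, A0 j + ∑ j ∈ Ico ν M, A1 j +
      κ * (2 * ∑ j ∈ Ico ν M, A0 j + ∑ j ∈ Ico ν M, A1 j)) +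
      F2 (n - ν) * (∑ j ∈ Ico ν M, A0 j + ∑ j ∈ Ico ν M, A1 j +
        κ' * ∑ j ∈ Ico ν M, A0 j) ≤
      ∑ j ∈ Ico ν M, ((A0 j * (F2 (n - j) + (L : ℝ) * A1 (n - j) +
      (if L ≤ n - j then F1 (n - j) else 0) + (L : ℝ) * A0 (n - j)) +
        A0 (n - j) * (F2 (n - (n - j)) + (L : ℝ) * A1 (n - (n - j)) +
      (if L ≤ n - (n - j) then F1 (n - (n - j)) else 0) + (L : ℝ) * A0 (n - (n - j)))) +
        A1 j * F2 (n - j) +
        (if L + 1 ≤ n - j then F1 (n - j) * A1 (n - (n - j)) else 0)) := by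
    have e : F1 (n - ν) * (∑ j ∈ Ico ν M, A0 j + ∑ j ∈ Ico ν M, A1 j +
      κ * (2 * ∑ j ∈ Ico ν M, A0 j + ∑ j ∈ Ico ν M, A1 j)) +
      F2 (n - ν) * (∑ j ∈ Ico ν M, A0 j + ∑ j ∈ Ico ν M, A1 j +
        κ' * ∑ j ∈ Ico ν M, A0 j) = ∑ j ∈ Ico ν M, (F1 (n - ν) * (A0 j + A1 j +
          κ * (2 * A0 j + A1 j)) + F2 (n - ν) * (A0 j + A1 j +
          κ' * A0 j)) := by
      simp only [Finset.sum_add_distrib, mul_add, Finset.mul_sum]
    rw [e]
    apply Finset.sum_le_sum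
    intro j hj
    rw [mem_Ico] at hj
    have q : n - (n - j) = j := by omega
    rw [q, if_pos (show L ≤ n - j by omega), if_pos (show L + 1 ≤ n - j by omega)]
    have a0 := hA0 j
    have a1 := hA1 j
    have k0 := hk (n - j) (by omega)
    have k1 := hk' (n - j) (by omega)
    have g1 := hF1a _ _ (show n - j ≤ n - ν by omega)
    have g2 := hF2a _ _ (show n - j ≤ n - ν by omega)
    have am := hA0 (n - j)
    have h5 : 0 ≤ (if L ≤ j then F1 j else 0) := by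
      split_ifs
      · exact hF1 _
      · exact le_rfl
    have h6 := mul_nonneg am h5
    have h7 := mul_nonneg am (hF2 j)
    have w1 : F1 (n - ν) * (κ * (2 * A0 j + A1 j)) ≤
        ((L : ℝ) * A0 (n - j)) * (2 * A0 j + A1 j) := by
      have : κ * F1 (n - ν) ≤ κ * F1 (n - j) := mul_le_mul_of_nonneg_left g1 hκ0
      have h := mul_le_mul_of_nonneg_right (this.trans k0) (show 0 ≤ 2 * A0 j + A1 j by linarith)
      linarith
    have w2 : F2 (n - ν) * (κ' * A0 j) ≤ ((L : ℝ) * A1 (n - j)) * A0 j := by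
      have : κ' * F2 (n - ν) ≤ κ' * F2 (n - j) := mul_le_mul_of_nonneg_left g2 hκ0'
      have h := mul_le_mul_of_nonneg_right (this.trans k1) a0
      linarith
    have w3 := mul_le_mul_of_nonneg_right g1 (show 0 ≤ A0 j + A1 j by linarith)
    have w4 := mul_le_mul_of_nonneg_right g2 (show 0 ≤ A0 j + A1 j by linarith)
    nlinarith
  have mono : F1 (n - ν) * (G + G1 + κ * (2 * G + G1)) +
      F2 (n - ν) * (G + G1 + κ' * G) ≤
      F1 (n - ν) * (∑ j ∈ Ico ν M, A0 j + ∑ j ∈ Ico ν M, A1 j +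
      κ * (2 * ∑ j ∈ Ico ν M, A0 j + ∑ j ∈ Ico ν M, A1 j)) +
      F2 (n - ν) * (∑ j ∈ Ico ν M, A0 j + ∑ j ∈ Ico ν M, A1 j +
        κ' * ∑ j ∈ Ico ν M, A0 j) := by
    have c1 : G + G1 + κ * (2 * G + G1) ≤ ∑ j ∈ Ico ν M, A0 j + ∑ j ∈ Ico ν M, A1 j +
      κ * (2 * ∑ j ∈ Ico ν M, A0 j + ∑ j ∈ Ico ν M, A1 j) := by
      have := mul_le_mul_of_nonneg_left (show 2 * G + G1 ≤ 2 * ∑ j ∈ Ico ν M, A0 j +
        ∑ j ∈ Ico ν M, A1 j by linarith) hκ0
      linarith
    have c2 : G + G1 + κ' * G ≤ ∑ j ∈ Ico ν M, A0 j + ∑ j ∈ Ico ν M, A1 j +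
        κ' * ∑ j ∈ Ico ν M, A0 j := by
      have := mul_le_mul_of_nonneg_left hG hκ0'
      linarith
    exact add_le_add (mul_le_mul_of_nonneg_left c1 f1) (mul_le_mul_of_nonneg_left c2 f2)
  have split : ∑ j ∈ Ico ν M, ((A0 j * (F2 (n - j) + (L : ℝ) * A1 (n - j) +
      (if L ≤ n - j then F1 (n - j) else 0) + (L : ℝ) * A0 (n - j)) +
        A0 (n - j) * (F2 (n - (n - j)) + (L : ℝ) * A1 (n - (n - j)) +
      (if L ≤ n - (n - j) then F1 (n - (n - j)) else 0) + (L : ℝ) * A0 (n - (n - j)))) +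
        A1 j * F2 (n - j) +
        (if L + 1 ≤ n - j then F1 (n - j) * A1 (n - (n - j)) else 0)) =
      ∑ j ∈ Ico ν M, (A0 j * (F2 (n - j) + (L : ℝ) * A1 (n - j) +
      (if L ≤ n - j then F1 (n - j) else 0) + (L : ℝ) * A0 (n - j)) +
        A0 (n - j) * (F2 (n - (n - j)) + (L : ℝ) * A1 (n - (n - j)) +
      (if L ≤ n - (n - j) then F1 (n - (n - j)) else 0) + (L : ℝ) * A0 (n - (n - j)))) +
      ∑ j ∈ Ico ν M, A1 j * F2 (n - j) +
      ∑ j ∈ Ico ν M, (if L + 1 ≤ n - j then F1 (n - j) * A1 (n - (n - j)) else 0) := by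
    rw [Finset.sum_add_distrib, Finset.sum_add_distrib]
  rw [split] at key
  beta_reduce at b1 b2 b3
  linarith

/-- abstract far theorem -/
theorem far_abs (L ν M : ℕ) (c κ κ' W G G1 T : ℝ) (F1 F2 A0 A1 K : ℕ → ℝ) (hc : 0 < c)
    (hLν : L < ν) (hνM : ν ≤ M)
    (hF1 : ∀ x, 0 ≤ F1 x) (hF2 : ∀ x, 0 ≤ F2 x) (hA0 : ∀ x, 0 ≤ A0 x)
    (hA1 : ∀ x, 0 ≤ A1 x) (hF1a : ∀ a b, a ≤ b → F1 b ≤ F1 a) (hF2a : ∀ a b, a ≤ b → F2 b ≤ F2 a)
    (hK0 : ∀ x, 0 ≤ K x) (hKa : ∀ a b, a ≤ b → K b ≤ K a)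
    (hKe : ∀ x, L ≤ x → K x = ((L : ℝ) + 1) * (F2 x + F1 x)) (hT : 0 ≤ T)
    (hrec : ∀ n, L ≤ n → c * (((n : ℝ) + 1) * (A1 (n + 1) - A0 (n + 1))) =
      ∑ j ∈ range (n + 1), (A1 j - A0 j) * K (n - j) +
      ∑ j ∈ range (n + 1), A0 j * (F2 (n - j) + (L : ℝ) * A1 (n - j) +
        (if L ≤ n - j then F1 (n - j) else 0) + (L : ℝ) * A0 (n - j)) +
      ∑ k ∈ range (n + 1), A1 k * F2 (n - k) +
      ∑ k ∈ range (n + 1), (if L + 1 ≤ k then F1 k * A1 (n - k) else 0) - T * F1 (n - L))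
    (hneg : ∀ n, n < ν → A1 n - A0 n ≤ 0)
    (hpos : ∀ n, ν ≤ n → n < 2 * M → 0 ≤ A1 n - A0 n)
    (hκ0 : 0 ≤ κ) (hκ0' : 0 ≤ κ')
    (hk : ∀ j, M ≤ j → κ * F1 j ≤ (L : ℝ) * A0 j) (hk' : ∀ j, M ≤ j → κ' * F2 j ≤ (L : ℝ) * A1 j)
    (hW : -W ≤ ∑ j ∈ range (2 * M), (A1 j - A0 j))
    (hG : G ≤ ∑ j ∈ Ico ν M, A0 j) (hG1 : G1 ≤ ∑ j ∈ Ico ν M, A1 j)
    (h1 : ((L : ℝ) + 1) * W + T ≤ G + G1 + κ * (2 * G + G1))
    (h2 : ((L : ℝ) + 1) * W ≤ G + G1 + κ' * G) :
    ∀ n, ν ≤ n → 0 ≤ A1 n - A0 n := by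
  intro n
  induction n using Nat.strong_induction_on with
  | _ n ih =>
    intro hn
    rcases lt_or_ge n (2 * M) with h3 | h3
    · exact hpos n hn h3
    · obtain ⟨m, rfl⟩ : ∃ m, n = m + 1 := ⟨n - 1, by omega⟩
      have hr := hrec m (by omega)
      have hsrc := src_abs L ν M m κ κ' G G1 F1 F2 A0 A1 (by omega) (by omega) hF1 hF2 hA0 hA1
        hF1a hF2a hk hk' hκ0 hκ0' hG hG1
      have hK := hK0 (m - ν)
      have s1 : K (m - ν) * ∑ j ∈ range (m + 1), (A1 j - A0 j) ≤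
          ∑ j ∈ range (m + 1), (A1 j - A0 j) * K (m - j) := by
        rw [Finset.mul_sum]
        apply Finset.sum_le_sum
        intro j hj
        have hj' := mem_range.mp hj
        rcases lt_or_ge j ν with h4 | h4
        · have hb := hneg j h4
          have hk1 := hKa _ _ (show m - ν ≤ m - j by omega)
          have := mul_le_mul_of_nonpos_left hk1 hb
          linarith
        · have hb : 0 ≤ A1 j - A0 j := ih j (by omega) h4
          have hk1 := hKa _ _ (show m - j ≤ m - ν by omega)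
          have := mul_le_mul_of_nonneg_left hk1 hb
          linarith
      have s2 : -W ≤ ∑ j ∈ range (m + 1), (A1 j - A0 j) := by
        refine hW.trans ?_
        rw [← Finset.sum_range_add_sum_Ico (fun j => A1 j - A0 j) h3]
        have : 0 ≤ ∑ j ∈ Ico (2 * M) (m + 1), (A1 j - A0 j) := by
          apply Finset.sum_nonneg
          intro j hj
          rw [mem_Ico] at hj
          exact ih j (by omega) (by omega)
        linarith
      have s3 := mul_le_mul_of_nonneg_left s2 hK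
      have e1 := hKe (m - ν) (by omega)
      have f1 := hF1 (m - ν)
      have f2 := hF2 (m - ν)
      have s4 := mul_le_mul_of_nonneg_left (hF1a _ _ (show m - ν ≤ m - L by omega)) hT
      have t1 := mul_le_mul_of_nonneg_left h1 f1
      have t2 := mul_le_mul_of_nonneg_left h2 f2
      rw [e1] at s1 s3
      have fin : 0 ≤ c * (((m : ℝ) + 1) * (A1 (m + 1) - A0 (m + 1))) := by
        rw [hr]
        nlinarith
      have hn0 : (0 : ℝ) < (m : ℝ) + 1 := by positivity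
      by_contra hcon
      push Not at hcon
      have := mul_neg_of_pos_of_neg hc (mul_neg_of_pos_of_neg hn0 hcon)
      linarith

/-- `Fr L n / (n! c^n)` -/
noncomputable def gc (c : ℝ) (L n : ℕ) : ℝ := f L n / c ^ n

lemma gc_eq (c : ℝ) (hc : 0 < c) (L n : ℕ) : gc c L n = Fn L n * (E / c) ^ n := by
  have hE := E_pos
  unfold gc Fn
  rw [div_pow]
  field_simp

lemma gc_E (L n : ℕ) : gc E L n = Fn L n := rfl

lemma Bn_sign (L n : ℕ) : 0 ≤ Bn L n ↔ 2 * Fr (L + 1) n ≤ Fr (L + 2) n + Fr L n := by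
  have hE := E_pos
  unfold Bn An Fn f
  have h1 : (0 : ℝ) < (n.factorial : ℝ) := by positivity
  have h2 : (0 : ℝ) < E ^ n := by positivity
  have e : (Fr (L + 1 + 1) n : ℝ) / (n.factorial : ℝ) / E ^ n - (Fr (L + 1) n : ℝ) / (n.factorial : ℝ) / E ^ n -
      ((Fr (L + 1) n : ℝ) / (n.factorial : ℝ) / E ^ n - (Fr L n : ℝ) / (n.factorial : ℝ) / E ^ n) =
      ((Fr (L + 2) n : ℝ) + Fr L n - 2 * Fr (L + 1) n) / ((n.factorial : ℝ) * E ^ n) := by
    show (Fr (L + 2) n : ℝ) / (n.factorial : ℝ) / E ^ n - _ - _ = _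
    field_simp
    ring
  rw [e, le_div_iff₀ (by positivity), zero_mul, sub_nonneg]
  constructor
  · intro h
    exact_mod_cast h
  · intro h
    exact_mod_cast h

lemma Bn_sign' (L n : ℕ) : Bn L n ≤ 0 ↔ Fr (L + 2) n + Fr L n ≤ 2 * Fr (L + 1) n := by
  have hE := E_pos
  unfold Bn An Fn f
  have h1 : (0 : ℝ) < (n.factorial : ℝ) := by positivity
  have h2 : (0 : ℝ) < E ^ n := by positivity
  have e : (Fr (L + 1 + 1) n : ℝ) / (n.factorial : ℝ) / E ^ n - (Fr (L + 1) n : ℝ) / (n.factorial : ℝ) / E ^ n -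
      ((Fr (L + 1) n : ℝ) / (n.factorial : ℝ) / E ^ n - (Fr L n : ℝ) / (n.factorial : ℝ) / E ^ n) =
      ((Fr (L + 2) n : ℝ) + Fr L n - 2 * Fr (L + 1) n) / ((n.factorial : ℝ) * E ^ n) := by
    show (Fr (L + 2) n : ℝ) / (n.factorial : ℝ) / E ^ n - _ - _ = _
    field_simp
    ring
  rw [e, div_le_iff₀ (by positivity), zero_mul, sub_nonpos]
  constructor
  · intro h
    exact_mod_cast h
  · intro h
    exact_mod_cast h

/-- Positivity of the second difference for all `n ≥ ν` from data at `n < 2 M`, in any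
normalization `c ≥ e`. -/
theorem far_kap (L ν M : ℕ) (c κ κ' W G G1 : ℝ) (hc : E ≤ c) (hL : 1 ≤ L) (hLν : L < ν)
    (hνM : ν ≤ M)
    (hneg : ∀ n, L < n → n < ν → Fr (L + 2) n + Fr L n ≤ 2 * Fr (L + 1) n)
    (hpos : ∀ n, ν ≤ n → n < 2 * M → 2 * Fr (L + 1) n ≤ Fr (L + 2) n + Fr L n)
    (hκ0 : 0 ≤ κ) (hκ : κ ≤ L) (hκ0' : 0 ≤ κ') (hκ' : κ' ≤ L)
    (hk : ∀ j, M ≤ j → j < 2 * M → κ * gc c (L + 1) j ≤ (L : ℝ) * (gc c (L + 1) j - gc c L j))
    (hk' : ∀ j, M ≤ j → j < 2 * M →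
      κ' * gc c (L + 2) j ≤ (L : ℝ) * (gc c (L + 2) j - gc c (L + 1) j))
    (hW : -W ≤ ∑ j ∈ range (2 * M), (gc c (L + 2) j + gc c L j - 2 * gc c (L + 1) j))
    (hG : G ≤ ∑ j ∈ Ico ν M, (gc c (L + 1) j - gc c L j))
    (hG1 : G1 ≤ ∑ j ∈ Ico ν M, (gc c (L + 2) j - gc c (L + 1) j))
    (h1 : ((L : ℝ) + 1) * W + gc c (L + 1) L ≤ G + G1 + κ * (2 * G + G1))
    (h2 : ((L : ℝ) + 1) * W ≤ G + G1 + κ' * G) :
    ∀ n, ν ≤ n → 2 * Fr (L + 1) n ≤ Fr (L + 2) n + Fr L n := by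
  have hE := E_pos
  have hc0 : 0 < c := lt_of_lt_of_le hE hc
  have hLr : (1 : ℝ) ≤ L := by exact_mod_cast hL
  have hL0 : (0 : ℝ) < L := by linarith
  obtain ⟨r, hr⟩ : ∃ r : ℝ, r = E / c := ⟨_, rfl⟩
  have hr0 : 0 < r := by rw [hr]; positivity
  have hr1 : r ≤ 1 := by
    rw [hr, div_le_one hc0]
    exact hc
  have hg : ∀ L' n, gc c L' n = Fn L' n * r ^ n := by
    intro L' n
    rw [hr]
    exact gc_eq c hc0 L' n
  have hA : ∀ L' n, gc c (L' + 1) n - gc c L' n = An L' n * r ^ n := by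
    intro L' n
    rw [hg, hg]
    unfold An
    ring
  have hp : ∀ n : ℕ, 0 < r ^ n := fun n => pow_pos hr0 n
  have kall := kappa_all L M κ (by omega) (by omega) hκ0 hκ (by
    intro j h3 h4
    have h5 := hk j h3 h4
    rw [hA, hg] at h5
    have h6 : κ * Fn (L + 1) j * r ^ j ≤ (L : ℝ) * An L j * r ^ j := by linarith
    exact le_of_mul_le_mul_right h6 (hp j))
  have kall' : ∀ j, M ≤ j → κ' * Fn (L + 2) j ≤ (L : ℝ) * An (L + 1) j := by
    have hx := kappa_all (L + 1) M (κ' * (((L : ℝ) + 1) / L)) (by omega) (by omega) (by positivity)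
      (by
        push_cast
        have : κ' * (((L : ℝ) + 1) / L) = (κ' / L) * ((L : ℝ) + 1) := by
          field_simp
        rw [this]
        have h3 : κ' / L ≤ 1 := by
          rw [div_le_one hL0]
          exact hκ'
        have := mul_le_mul_of_nonneg_right h3 (show (0 : ℝ) ≤ (L : ℝ) + 1 by positivity)
        linarith)
      (by
        intro j hj1 hj2
        have h0 := hk' j hj1 hj2
        rw [show L + 2 = L + 1 + 1 from rfl, hA, hg] at h0
        have h00 : κ' * Fn (L + 1 + 1) j * r ^ j ≤ (L : ℝ) * An (L + 1) j * r ^ j := by linarith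
        have h000 := le_of_mul_le_mul_right h00 (hp j)
        have h3 := mul_le_mul_of_nonneg_left h000
          (show (0 : ℝ) ≤ ((L : ℝ) + 1) / L by positivity)
        have e1 : ((L : ℝ) + 1) / L * ((L : ℝ) * An (L + 1) j) = ((L : ℝ) + 1) * An (L + 1) j := by
          field_simp
        rw [e1] at h3
        push_cast
        linarith)
    intro j hj
    have h3 := mul_le_mul_of_nonneg_left (hx j hj) (show (0 : ℝ) ≤ (L : ℝ) / ((L : ℝ) + 1) by positivity)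
    have hcc : (L : ℝ) + 1 ≠ 0 := by positivity
    have e1 : (L : ℝ) / ((L : ℝ) + 1) * (κ' * (((L : ℝ) + 1) / L) * Fn (L + 1 + 1) j) =
        κ' * Fn (L + 2) j := by
      show (L : ℝ) / ((L : ℝ) + 1) * (κ' * (((L : ℝ) + 1) / L) * Fn (L + 2) j) = _
      field_simp
    have e2 : (L : ℝ) / ((L : ℝ) + 1) * (((L + 1 : ℕ) : ℝ) * An (L + 1) j) = (L : ℝ) * An (L + 1) j := by
      push_cast
      field_simp
    rw [e1, e2] at h3
    exact h3
  have anti : ∀ (u : ℕ → ℝ), (∀ x, 0 ≤ u x) → (∀ a b, a ≤ b → u b ≤ u a) →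
      ∀ a b, a ≤ b → u b * r ^ b ≤ u a * r ^ a := by
    intro u hu0 hua a b hab
    have h3 : r ^ b ≤ r ^ a := pow_le_pow_of_le_one hr0.le hr1 hab
    exact mul_le_mul (hua a b hab) h3 (hp b).le (hu0 a)
  have main := far_abs L ν M c κ κ' W G G1 (gc c (L + 1) L) (fun n => Fn (L + 1) n * r ^ n)
    (fun n => Fn (L + 2) n * r ^ n) (fun n => An L n * r ^ n) (fun n => An (L + 1) n * r ^ n)
    (fun n => KK (L + 1) n * r ^ n) hc0 hLν hνM
    (fun x => mul_nonneg (Fn_nonneg _ _) (hp x).le) (fun x => mul_nonneg (Fn_nonneg _ _) (hp x).le)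
    (fun x => mul_nonneg (An_nonneg _ _) (hp x).le) (fun x => mul_nonneg (An_nonneg _ _) (hp x).le)
    (anti (Fn (L + 1)) (Fn_nonneg _) (fun a b hab => Fn_le_of_le _ hab))
    (anti (Fn (L + 2)) (Fn_nonneg _) (fun a b hab => Fn_le_of_le _ hab))
    (fun x => mul_nonneg (KK_nonneg _ _) (hp x).le)
    (anti (KK (L + 1)) (KK_nonneg _) (fun a b hab => KK_anti _ hab))
    (by
      intro x hx
      show KK (L + 1) x * r ^ x = _
      rw [KK_eq_far L x hx]
      ring)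
    (by
      rw [hg]
      exact mul_nonneg (Fn_nonneg _ _) (hp L).le)
    (by
      intro n hn
      have hB := B_rec L n hn
      have hsplit : ∀ j, j ≤ n → r ^ n = r ^ j * r ^ (n - j) := by
        intro j hj
        rw [← pow_add]
        congr 1
        omega
      have t0 : c * (((n : ℝ) + 1) * (An (L + 1) (n + 1) * r ^ (n + 1) - An L (n + 1) * r ^ (n + 1))) =
          E * (((n : ℝ) + 1) * Bn L (n + 1)) * r ^ n := by
        have e : c * r = E := by
          rw [hr]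
          field_simp
        unfold Bn
        rw [pow_succ, ← e]
        ring
      have t1 : (∑ j ∈ range (n + 1), Bn L j * KK (L + 1) (n - j)) * r ^ n =
          ∑ j ∈ range (n + 1), (An (L + 1) j * r ^ j - An L j * r ^ j) *
            (KK (L + 1) (n - j) * r ^ (n - j)) := by
        rw [Finset.sum_mul]
        apply Finset.sum_congr rfl
        intro j hj
        have hj' := mem_range.mp hj
        rw [hsplit j (by omega)]
        unfold Bn
        ring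
      have t2 : (∑ j ∈ range (n + 1), An L j * (Fn (L + 2) (n - j) + (L : ℝ) * An (L + 1) (n - j) +
          (if L ≤ n - j then Fn (L + 1) (n - j) else 0) + (L : ℝ) * An L (n - j))) * r ^ n =
          ∑ j ∈ range (n + 1), An L j * r ^ j * (Fn (L + 2) (n - j) * r ^ (n - j) +
          (L : ℝ) * (An (L + 1) (n - j) * r ^ (n - j)) +
          (if L ≤ n - j then Fn (L + 1) (n - j) * r ^ (n - j) else 0) +
          (L : ℝ) * (An L (n - j) * r ^ (n - j))) := by
        rw [Finset.sum_mul]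
        apply Finset.sum_congr rfl
        intro j hj
        have hj' := mem_range.mp hj
        rw [hsplit j (by omega)]
        split_ifs <;> ring
      have t3 : (∑ k ∈ range (n + 1), An (L + 1) k * Fn (L + 2) (n - k)) * r ^ n =
          ∑ k ∈ range (n + 1), An (L + 1) k * r ^ k * (Fn (L + 2) (n - k) * r ^ (n - k)) := by
        rw [Finset.sum_mul]
        apply Finset.sum_congr rfl
        intro j hj
        have hj' := mem_range.mp hj
        rw [hsplit j (by omega)]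
        ring
      have t4 : (∑ k ∈ range (n + 1), (if L + 1 ≤ k then Fn (L + 1) k * An (L + 1) (n - k) else 0)) *
          r ^ n = ∑ k ∈ range (n + 1), (if L + 1 ≤ k then Fn (L + 1) k * r ^ k *
            (An (L + 1) (n - k) * r ^ (n - k)) else 0) := by
        rw [Finset.sum_mul]
        apply Finset.sum_congr rfl
        intro j hj
        have hj' := mem_range.mp hj
        rw [hsplit j (by omega)]
        split_ifs <;> ring
      have t5 : tn L * Fn (L + 1) (n - L) * r ^ n =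
          gc c (L + 1) L * (Fn (L + 1) (n - L) * r ^ (n - L)) := by
        rw [hg, Fn_eq_tn (L + 1) L (by omega), hsplit L hn]
        ring
      rw [t0, ← t1, ← t2, ← t3, ← t4, ← t5, hB]
      ring)
    (by
      intro n hn
      have e : An (L + 1) n * r ^ n - An L n * r ^ n = Bn L n * r ^ n := by
        unfold Bn
        ring
      rw [e]
      apply mul_nonpos_of_nonpos_of_nonneg _ (hp n).le
      rcases Nat.lt_or_ge L n with h5 | h5
      · exact (Bn_sign' L n).mpr (hneg n h5 hn)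
      · rw [Bn_zero L n h5])
    (by
      intro n hn hn2
      have e : An (L + 1) n * r ^ n - An L n * r ^ n = Bn L n * r ^ n := by
        unfold Bn
        ring
      rw [e]
      exact mul_nonneg ((Bn_sign L n).mpr (hpos n hn hn2)) (hp n).le)
    hκ0 hκ0'
    (by
      intro j hj
      have := mul_le_mul_of_nonneg_right (kall j hj) (hp j).le
      linarith)
    (by
      intro j hj
      have := mul_le_mul_of_nonneg_right (kall' j hj) (hp j).le
      linarith)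
    (by
      refine hW.trans (le_of_eq ?_)
      apply Finset.sum_congr rfl
      intro j _
      have e1 := hA (L + 1) j
      have e0 := hA L j
      have e2 : gc c (L + 1 + 1) j = gc c (L + 2) j := rfl
      rw [← e1, ← e0, e2]
      ring)
    (by
      refine hG.trans (le_of_eq ?_)
      apply Finset.sum_congr rfl
      intro j _
      exact hA L j)
    (by
      refine hG1.trans (le_of_eq ?_)
      apply Finset.sum_congr rfl
      intro j _
      exact hA (L + 1) j)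
    h1 h2
  intro n hn
  have h3 := main n hn
  have e : An (L + 1) n * r ^ n - An L n * r ^ n = Bn L n * r ^ n := by
    unfold Bn
    ring
  beta_reduce at h3
  rw [e] at h3
  rw [← Bn_sign]
  by_contra hcon
  push Not at hcon
  have := mul_neg_of_neg_of_pos hcon (hp n)
  linarith

/-- the same in the normalization `c = e` -/
theorem far_kapE (L ν M : ℕ) (κ κ' W G G1 : ℝ) (hL : 1 ≤ L) (hLν : L < ν) (hνM : ν ≤ M)
    (hneg : ∀ n, L < n → n < ν → Bn L n ≤ 0)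
    (hpos : ∀ n, ν ≤ n → n < 2 * M → 0 ≤ Bn L n)
    (hκ0 : 0 ≤ κ) (hκ : κ ≤ L) (hκ0' : 0 ≤ κ') (hκ' : κ' ≤ L)
    (hk : ∀ j, M ≤ j → j < 2 * M → κ * Fn (L + 1) j ≤ (L : ℝ) * An L j)
    (hk' : ∀ j, M ≤ j → j < 2 * M → κ' * Fn (L + 2) j ≤ (L : ℝ) * An (L + 1) j)
    (hW : -W ≤ ∑ j ∈ range (2 * M), Bn L j)
    (hG : G ≤ ∑ j ∈ Ico ν M, An L j) (hG1 : G1 ≤ ∑ j ∈ Ico ν M, An (L + 1) j)
    (h1 : ((L : ℝ) + 1) * W + tn L ≤ G + G1 + κ * (2 * G + G1))
    (h2 : ((L : ℝ) + 1) * W ≤ G + G1 + κ' * G) :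
    ∀ n, ν ≤ n → 0 ≤ Bn L n := by
  intro n hn
  rw [Bn_sign]
  refine far_kap L ν M E κ κ' W G G1 le_rfl hL hLν hνM (fun n h3 h4 => (Bn_sign' L n).mp (hneg n h3 h4))
    (fun n h3 h4 => (Bn_sign L n).mp (hpos n h3 h4)) hκ0 hκ hκ0' hκ' hk hk' ?_ hG hG1 ?_ h2 n hn
  · refine hW.trans (le_of_eq ?_)
    apply Finset.sum_congr rfl
    intro j _
    unfold Bn An
    show Fn (L + 2) j - Fn (L + 1) j - (Fn (L + 1) j - Fn L j) = Fn (L + 2) j + Fn L j - 2 * Fn (L + 1) j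
    ring
  · have e : gc E (L + 1) L = tn L := by
      rw [gc_E]
      exact Fn_eq_tn (L + 1) L (by omega)
    rw [e]
    exact h1

end Pool.Agent.MP_9da1e3_co
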