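import Pool.Agent.Lib.MP_9da1e3_co.Ks2
import Pool.Agent.Lib.MP_9da1e3_co.Kc4
import Pool.Agent.Lib.MP_9da1e3_co.P7
import Pool.Agent.Lib.MP_9da1e3_co.Left

/-! From the kernel checks to positivity for all `n ≥ nuT L`. -/

namespace Pool.Agent.MP_9da1e3_co

open Finset

lemma gk_eq_gc (L n : ℕ) : gk L n = gc (87 / 32) L n := by
  unfold gk gc
  rw [show (32 / 87 : ℝ) = (87 / 32 : ℝ)⁻¹ by norm_num, inv_pow, mul_comm, ← div_eq_mul_inv]

lemma gk_mono1 (L n : ℕ) : gk L n ≤ gk (L + 1) n :=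
  mul_le_mul_of_nonneg_left (f_mono L n) (by positivity)

lemma gk_second_zero (L n : ℕ) (h : n ≤ L) : gk (L + 2) n + gk L n - 2 * gk (L + 1) n = 0 := by
  unfold gk
  rw [f_eq_tt (L + 2) n (by omega), f_eq_tt (L + 1) n (by omega), f_eq_tt L n h]
  ring

lemma E_le_c : E ≤ 87 / 32 := by
  unfold E
  have := Real.exp_one_lt_d9
  linarith

/-- the far statement at the level `L` -/
def FarP (L nu : ℕ) : Prop := ∀ n, nu ≤ n → 2 * Fr (L + 1) n ≤ Fr (L + 2) n + Fr L n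

def sideF (w X Sc L N M N1 N2 N3 d1 d2 d3 : ℕ) : Bool :=
  decide (2 * w + 28 < X) && (decide (0 < Sc) && (decide (L + 2 ≤ 65536) && (decide (1 ≤ L) &&
    (decide (N + 1 = 2 * M) && (decide (N ≤ NNk L) && (decide (d1 ≤ 12) && (decide (d2 ≤ 12) &&
    (decide (d3 ≤ 12) && (decide (N ≤ N1) && (decide (N ≤ N2) && decide (N ≤ N3)))))))))))

theorem farK {w X Sc L N M kp kq d C1 C2 C3 N1 N2 N3 d1 d2 d3 nu : ℕ}
    (hc : sideF w X Sc L N M N1 N2 N3 d1 d2 d3 = true)
    (h1 : ckE w X Sc L N1 d1 C1 = true)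
    (h2 : ckE w X Sc (L + 1) N2 d2 C2 = true)
    (h3 : ckE w X Sc (L + 2) N3 d3 C3 = true)
    (h : ckF w L N nu M kp kq d C1 C2 C3 = true) (hs : SignP L (NNk L) nu) : FarP L nu := by
  unfold sideF at hc
  simp only [Bool.and_eq_true, decide_eq_true_eq] at hc
  obtain ⟨c0, c1, c2, c3, c4, c5, c6, c7, c8, c9, c10, c11⟩ := hc
  have H1 := ckE_sound c0 c1 (by omega) c6 h1
  have H2 := ckE_sound c0 c1 (by omega) c7 h2
  have H3 := ckE_sound c0 c1 c2 c8 h3
  obtain ⟨W, G, G1, D⟩ := ckF_sound c1 c9 c10 c11 H1 H2 H3 (gk_mono1 L) (gk_mono1 (L + 1)) h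
  have e : ∀ L n, gc (87 / 32) L n = gk L n := fun L n => (gk_eq_gc L n).symm
  have hnu := D.hnu
  have hLn := D.hL
  refine far_kap L nu M (87 / 32) ((kp : ℝ) / 1024) ((kq : ℝ) / 1024) W G G1 E_le_c c3
    (by omega) (by omega) ?_ ?_ D.kap0 D.kapL D.kaq0 D.kaqL ?_ ?_ ?_ ?_ ?_ ?_ ?_
  · intro n n1 n2
    exact ((hs n n1 (by omega)).1 n2).le
  · intro n n1 n2
    exact ((hs n (by omega) (by omega)).2 n1).le
  · intro j j1 j2
    rw [e, e]
    exact D.hkap j j1 (by omega)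
  · intro j j1 j2
    rw [e, e]
    exact D.hkaq j j1 (by omega)
  · have hW := D.hW
    rw [c4] at hW
    refine hW.trans (le_of_eq ?_)
    simp only [e]
    rw [← Finset.sum_range_add_sum_Ico _ (show L + 1 ≤ 2 * M by omega)]
    have z : ∑ j ∈ range (L + 1), (gk (L + 2) j + gk L j - 2 * gk (L + 1) j) = 0 := by
      apply Finset.sum_eq_zero
      intro j hj
      exact gk_second_zero L j (by have := mem_range.mp hj; omega)
    rw [z, zero_add]
  · simp only [e]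
    exact D.hG
  · simp only [e]
    exact D.hG1
  · rw [e]
    exact D.h1
  · exact D.h2

/-- small levels: beyond `2 (L + 2) ^ 2` the values at least double -/
theorem farS {L nu : ℕ} (hN : 2 * (L + 2) ^ 2 ≤ NNk L + 1) (hs : SignP L (NNk L) nu)
    (hL : L < nu) : FarP L nu := by
  intro n hn
  rcases Nat.lt_or_ge n (2 * (L + 2) ^ 2) with h | h
  · exact ((hs n (by omega) (by omega)).2 hn).le
  · have := double (L + 1) n (by omega) h
    have e : L + 1 + 1 = L + 2 := rfl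
    rw [e] at this
    omega

end Pool.Agent.MP_9da1e3_co
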