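import Pool.Agent.Lib.MP_9da1e3_co.KcE100
import Pool.Agent.Lib.MP_9da1e3_co.KcE110
import Pool.Agent.Lib.MP_9da1e3_co.Kd0

set_option maxRecDepth 100000

namespace Pool.Agent.MP_9da1e3_co

theorem d100 : ckF 72 100 339 (nuT 100) 170 3624 3584 9 (cert 100 CL100) (cert 101 CL101) (cert 102 CL102) = true := by decide +kernel

theorem d101 : ckF 72 101 343 (nuT 101) 172 3635 3595 9 (cert 101 CL101) (cert 102 CL102) (cert 103 CL103) = true := by decide +kernel

theorem d102 : ckF 72 102 345 (nuT 102) 173 3638 3598 9 (cert 102 CL102) (cert 103 CL103) (cert 104 CL104) = true := by decide +kernel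

theorem d103 : ckF 72 103 349 (nuT 103) 175 3649 3609 9 (cert 103 CL103) (cert 104 CL104) (cert 105 CL105) = true := by decide +kernel

theorem d104 : ckF 72 104 351 (nuT 104) 176 3652 3613 9 (cert 104 CL104) (cert 105 CL105) (cert 106 CL106) = true := by decide +kernel

theorem d105 : ckF 72 105 355 (nuT 105) 178 3662 3624 9 (cert 105 CL105) (cert 106 CL106) (cert 107 CL107) = true := by decide +kernel

theorem d106 : ckF 72 106 357 (nuT 106) 179 3665 3628 9 (cert 106 CL106) (cert 107 CL107) (cert 108 CL108) = true := by decide +kernel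

theorem d107 : ckF 72 107 361 (nuT 107) 181 3676 3638 9 (cert 107 CL107) (cert 108 CL108) (cert 109 CL109) = true := by decide +kernel

theorem d108 : ckF 72 108 363 (nuT 108) 182 3679 3642 9 (cert 108 CL108) (cert 109 CL109) (cert 110 CL110) = true := by decide +kernel

theorem d109 : ckF 72 109 367 (nuT 109) 184 3689 3652 9 (cert 109 CL109) (cert 110 CL110) (cert 111 CL111) = true := by decide +kernel

end Pool.Agent.MP_9da1e3_co
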