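import Pool.Agent.Lib.MP_9da1e3_co.KcE110
import Pool.Agent.Lib.MP_9da1e3_co.KcE120
import Pool.Agent.Lib.MP_9da1e3_co.Kd0

set_option maxRecDepth 100000

namespace Pool.Agent.MP_9da1e3_co

theorem d110 : ckF 72 110 369 (nuT 110) 185 3692 3656 9 (cert 110 CL110) (cert 111 CL111) (cert 112 CL112) = true := by decide +kernel

theorem d111 : ckF 72 111 373 (nuT 111) 187 3702 3666 9 (cert 111 CL111) (cert 112 CL112) (cert 113 CL113) = true := by decide +kernel

theorem d112 : ckF 72 112 375 (nuT 112) 188 3705 3670 9 (cert 112 CL112) (cert 113 CL113) (cert 114 CL114) = true := by decide +kernel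

theorem d113 : ckF 72 113 379 (nuT 113) 190 3715 3680 9 (cert 113 CL113) (cert 114 CL114) (cert 115 CL115) = true := by decide +kernel

theorem d114 : ckF 72 114 381 (nuT 114) 191 3718 3683 9 (cert 114 CL114) (cert 115 CL115) (cert 116 CL116) = true := by decide +kernel

theorem d115 : ckF 72 115 385 (nuT 115) 193 3727 3693 9 (cert 115 CL115) (cert 116 CL116) (cert 117 CL117) = true := by decide +kernel

theorem d116 : ckF 72 116 387 (nuT 116) 194 3731 3697 9 (cert 116 CL116) (cert 117 CL117) (cert 118 CL118) = true := by decide +kernel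

theorem d117 : ckF 72 117 391 (nuT 117) 196 3740 3706 9 (cert 117 CL117) (cert 118 CL118) (cert 119 CL119) = true := by decide +kernel

theorem d118 : ckF 72 118 393 (nuT 118) 197 3743 3710 9 (cert 118 CL118) (cert 119 CL119) (cert 120 CL120) = true := by decide +kernel

theorem d119 : ckF 72 119 397 (nuT 119) 199 3752 3719 9 (cert 119 CL119) (cert 120 CL120) (cert 121 CL121) = true := by decide +kernel

end Pool.Agent.MP_9da1e3_co
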