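import Pool.Agent.Lib.MP_9da1e3_co.KcE120
import Pool.Agent.Lib.MP_9da1e3_co.KcE130
import Pool.Agent.Lib.MP_9da1e3_co.Kd0

set_option maxRecDepth 100000

namespace Pool.Agent.MP_9da1e3_co

theorem d120 : ckF 72 120 399 (nuT 120) 200 3756 3723 9 (cert 120 CL120) (cert 121 CL121) (cert 122 CL122) = true := by decide +kernel

theorem d121 : ckF 72 121 403 (nuT 121) 202 3765 3732 9 (cert 121 CL121) (cert 122 CL122) (cert 123 CL123) = true := by decide +kernel

theorem d122 : ckF 72 122 405 (nuT 122) 203 3768 3736 9 (cert 122 CL122) (cert 123 CL123) (cert 124 CL124) = true := by decide +kernel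

theorem d123 : ckF 72 123 409 (nuT 123) 205 3777 3745 9 (cert 123 CL123) (cert 124 CL124) (cert 125 CL125) = true := by decide +kernel

theorem d124 : ckF 72 124 411 (nuT 124) 206 3780 3749 9 (cert 124 CL124) (cert 125 CL125) (cert 126 CL126) = true := by decide +kernel

theorem d125 : ckF 72 125 415 (nuT 125) 208 3789 3758 9 (cert 125 CL125) (cert 126 CL126) (cert 127 CL127) = true := by decide +kernel

theorem d126 : ckF 72 126 417 (nuT 126) 209 3792 3762 9 (cert 126 CL126) (cert 127 CL127) (cert 128 CL128) = true := by decide +kernel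

theorem d127 : ckF 72 127 421 (nuT 127) 211 3800 3770 9 (cert 127 CL127) (cert 128 CL128) (cert 129 CL129) = true := by decide +kernel

theorem d128 : ckF 72 128 423 (nuT 128) 212 3804 3774 9 (cert 128 CL128) (cert 129 CL129) (cert 130 CL130) = true := by decide +kernel

theorem d129 : ckF 72 129 427 (nuT 129) 214 3812 3782 9 (cert 129 CL129) (cert 130 CL130) (cert 131 CL131) = true := by decide +kernel

end Pool.Agent.MP_9da1e3_co
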