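import Pool.Agent.Lib.MP_9da1e3_co.KcE130
import Pool.Agent.Lib.MP_9da1e3_co.KcE140
import Pool.Agent.Lib.MP_9da1e3_co.Kd0

set_option maxRecDepth 100000

namespace Pool.Agent.MP_9da1e3_co

theorem d130 : ckF 72 130 429 (nuT 130) 215 3816 3786 9 (cert 130 CL130) (cert 131 CL131) (cert 132 CL132) = true := by decide +kernel

theorem d131 : ckF 72 131 433 (nuT 131) 217 3824 3794 9 (cert 131 CL131) (cert 132 CL132) (cert 133 CL133) = true := by decide +kernel

theorem d132 : ckF 72 132 435 (nuT 132) 218 3827 3799 9 (cert 132 CL132) (cert 133 CL133) (cert 134 CL134) = true := by decide +kernel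

theorem d133 : ckF 72 133 439 (nuT 133) 220 3835 3806 9 (cert 133 CL133) (cert 134 CL134) (cert 135 CL135) = true := by decide +kernel

theorem d134 : ckF 72 134 441 (nuT 134) 221 3839 3811 9 (cert 134 CL134) (cert 135 CL135) (cert 136 CL136) = true := by decide +kernel

theorem d135 : ckF 72 135 445 (nuT 135) 223 3846 3818 9 (cert 135 CL135) (cert 136 CL136) (cert 137 CL137) = true := by decide +kernel

theorem d136 : ckF 72 136 447 (nuT 136) 224 3850 3822 9 (cert 136 CL136) (cert 137 CL137) (cert 138 CL138) = true := by decide +kernel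

theorem d137 : ckF 72 137 451 (nuT 137) 226 3857 3830 9 (cert 137 CL137) (cert 138 CL138) (cert 139 CL139) = true := by decide +kernel

theorem d138 : ckF 72 138 453 (nuT 138) 227 3861 3834 9 (cert 138 CL138) (cert 139 CL139) (cert 140 CL140) = true := by decide +kernel

theorem d139 : ckF 72 139 457 (nuT 139) 229 3868 3841 9 (cert 139 CL139) (cert 140 CL140) (cert 141 CL141) = true := by decide +kernel

end Pool.Agent.MP_9da1e3_co
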