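import Pool.Agent.Lib.MP_9da1e3_co.KcE140
import Pool.Agent.Lib.MP_9da1e3_co.KcE150
import Pool.Agent.Lib.MP_9da1e3_co.Kd0

set_option maxRecDepth 100000

namespace Pool.Agent.MP_9da1e3_co

theorem d140 : ckF 72 140 459 (nuT 140) 230 3872 3845 9 (cert 140 CL140) (cert 141 CL141) (cert 142 CL142) = true := by decide +kernel

theorem d141 : ckF 72 141 463 (nuT 141) 232 3879 3853 9 (cert 141 CL141) (cert 142 CL142) (cert 143 CL143) = true := by decide +kernel

theorem d142 : ckF 72 142 465 (nuT 142) 233 3883 3857 9 (cert 142 CL142) (cert 143 CL143) (cert 144 CL144) = true := by decide +kernel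

theorem d143 : ckF 72 143 469 (nuT 143) 235 3890 3864 9 (cert 143 CL143) (cert 144 CL144) (cert 145 CL145) = true := by decide +kernel

theorem d144 : ckF 72 144 471 (nuT 144) 236 3894 3868 9 (cert 144 CL144) (cert 145 CL145) (cert 146 CL146) = true := by decide +kernel

theorem d145 : ckF 72 145 475 (nuT 145) 238 3900 3875 9 (cert 145 CL145) (cert 146 CL146) (cert 147 CL147) = true := by decide +kernel

theorem d146 : ckF 72 146 477 (nuT 146) 239 3904 3879 9 (cert 146 CL146) (cert 147 CL147) (cert 148 CL148) = true := by decide +kernel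

theorem d147 : ckF 72 147 481 (nuT 147) 241 3911 3886 9 (cert 147 CL147) (cert 148 CL148) (cert 149 CL149) = true := by decide +kernel

theorem d148 : ckF 72 148 483 (nuT 148) 242 3915 3890 9 (cert 148 CL148) (cert 149 CL149) (cert 150 CL150) = true := by decide +kernel

theorem d149 : ckF 72 149 487 (nuT 149) 244 3921 3897 9 (cert 149 CL149) (cert 150 CL150) (cert 151 CL151) = true := by decide +kernel

end Pool.Agent.MP_9da1e3_co
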