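import Pool.Agent.Lib.MP_9da1e3_co.KcE150
import Pool.Agent.Lib.MP_9da1e3_co.KcE160
import Pool.Agent.Lib.MP_9da1e3_co.Kd0

set_option maxRecDepth 100000

namespace Pool.Agent.MP_9da1e3_co

theorem d150 : ckF 72 150 489 (nuT 150) 245 3925 3901 9 (cert 150 CL150) (cert 151 CL151) (cert 152 CL152) = true := by decide +kernel

theorem d151 : ckF 72 151 493 (nuT 151) 247 3932 3907 9 (cert 151 CL151) (cert 152 CL152) (cert 153 CL153) = true := by decide +kernel

theorem d152 : ckF 72 152 495 (nuT 152) 248 3935 3911 9 (cert 152 CL152) (cert 153 CL153) (cert 154 CL154) = true := by decide +kernel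

theorem d153 : ckF 72 153 499 (nuT 153) 250 3942 3918 9 (cert 153 CL153) (cert 154 CL154) (cert 155 CL155) = true := by decide +kernel

theorem d154 : ckF 72 154 501 (nuT 154) 251 3946 3922 9 (cert 154 CL154) (cert 155 CL155) (cert 156 CL156) = true := by decide +kernel

theorem d155 : ckF 72 155 505 (nuT 155) 253 3952 3928 9 (cert 155 CL155) (cert 156 CL156) (cert 157 CL157) = true := by decide +kernel

theorem d156 : ckF 72 156 507 (nuT 156) 254 3956 3932 9 (cert 156 CL156) (cert 157 CL157) (cert 158 CL158) = true := by decide +kernel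

theorem d157 : ckF 72 157 511 (nuT 157) 256 3962 3938 9 (cert 157 CL157) (cert 158 CL158) (cert 159 CL159) = true := by decide +kernel

theorem d158 : ckF 72 158 513 (nuT 158) 257 3965 3943 10 (cert 158 CL158) (cert 159 CL159) (cert 160 CL160) = true := by decide +kernel

theorem d159 : ckF 72 159 517 (nuT 159) 259 3971 3949 10 (cert 159 CL159) (cert 160 CL160) (cert 161 CL161) = true := by decide +kernel

end Pool.Agent.MP_9da1e3_co
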