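import Pool.Agent.Lib.MP_9da1e3_co.KcE160
import Pool.Agent.Lib.MP_9da1e3_co.KcE170
import Pool.Agent.Lib.MP_9da1e3_co.Kd0

set_option maxRecDepth 100000

namespace Pool.Agent.MP_9da1e3_co

theorem d160 : ckF 72 160 519 (nuT 160) 260 3975 3953 10 (cert 160 CL160) (cert 161 CL161) (cert 162 CL162) = true := by decide +kernel

theorem d161 : ckF 72 161 523 (nuT 161) 262 3981 3959 10 (cert 161 CL161) (cert 162 CL162) (cert 163 CL163) = true := by decide +kernel

theorem d162 : ckF 72 162 525 (nuT 162) 263 3985 3963 10 (cert 162 CL162) (cert 163 CL163) (cert 164 CL164) = true := by decide +kernel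

theorem d163 : ckF 72 163 529 (nuT 163) 265 3991 3969 10 (cert 163 CL163) (cert 164 CL164) (cert 165 CL165) = true := by decide +kernel

theorem d164 : ckF 72 164 531 (nuT 164) 266 3994 3973 10 (cert 164 CL164) (cert 165 CL165) (cert 166 CL166) = true := by decide +kernel

theorem d165 : ckF 72 165 535 (nuT 165) 268 4000 3978 10 (cert 165 CL165) (cert 166 CL166) (cert 167 CL167) = true := by decide +kernel

theorem d166 : ckF 72 166 537 (nuT 166) 269 4004 3983 10 (cert 166 CL166) (cert 167 CL167) (cert 168 CL168) = true := by decide +kernel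

theorem d167 : ckF 72 167 541 (nuT 167) 271 4009 3988 10 (cert 167 CL167) (cert 168 CL168) (cert 169 CL169) = true := by decide +kernel

theorem d168 : ckF 72 168 543 (nuT 168) 272 4013 3992 10 (cert 168 CL168) (cert 169 CL169) (cert 170 CL170) = true := by decide +kernel

theorem d169 : ckF 72 169 547 (nuT 169) 274 4019 3998 10 (cert 169 CL169) (cert 170 CL170) (cert 171 CL171) = true := by decide +kernel

end Pool.Agent.MP_9da1e3_co
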