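import Pool.Agent.Lib.MP_9da1e3_co.KcE170
import Pool.Agent.Lib.MP_9da1e3_co.KcE180
import Pool.Agent.Lib.MP_9da1e3_co.Kd0

set_option maxRecDepth 100000

namespace Pool.Agent.MP_9da1e3_co

theorem d170 : ckF 72 170 549 (nuT 170) 275 4023 4002 10 (cert 170 CL170) (cert 171 CL171) (cert 172 CL172) = true := by decide +kernel

theorem d171 : ckF 72 171 553 (nuT 171) 277 4028 4007 10 (cert 171 CL171) (cert 172 CL172) (cert 173 CL173) = true := by decide +kernel

theorem d172 : ckF 72 172 555 (nuT 172) 278 4032 4011 10 (cert 172 CL172) (cert 173 CL173) (cert 174 CL174) = true := by decide +kernel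

theorem d173 : ckF 72 173 559 (nuT 173) 280 4037 4017 10 (cert 173 CL173) (cert 174 CL174) (cert 175 CL175) = true := by decide +kernel

theorem d174 : ckF 72 174 561 (nuT 174) 281 4041 4021 10 (cert 174 CL174) (cert 175 CL175) (cert 176 CL176) = true := by decide +kernel

theorem d175 : ckF 72 175 565 (nuT 175) 283 4046 4026 10 (cert 175 CL175) (cert 176 CL176) (cert 177 CL177) = true := by decide +kernel

theorem d176 : ckF 72 176 567 (nuT 176) 284 4050 4030 10 (cert 176 CL176) (cert 177 CL177) (cert 178 CL178) = true := by decide +kernel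

theorem d177 : ckF 72 177 571 (nuT 177) 286 4055 4035 10 (cert 177 CL177) (cert 178 CL178) (cert 179 CL179) = true := by decide +kernel

theorem d178 : ckF 72 178 573 (nuT 178) 287 4059 4039 10 (cert 178 CL178) (cert 179 CL179) (cert 180 CL180) = true := by decide +kernel

theorem d179 : ckF 72 179 577 (nuT 179) 289 4063 4044 10 (cert 179 CL179) (cert 180 CL180) (cert 181 CL181) = true := by decide +kernel

end Pool.Agent.MP_9da1e3_co
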