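import Pool.Agent.Lib.MP_9da1e3_co.KcE180
import Pool.Agent.Lib.MP_9da1e3_co.KcE190
import Pool.Agent.Lib.MP_9da1e3_co.Kd0

set_option maxRecDepth 100000

namespace Pool.Agent.MP_9da1e3_co

theorem d180 : ckF 72 180 579 (nuT 180) 290 4067 4048 10 (cert 180 CL180) (cert 181 CL181) (cert 182 CL182) = true := by decide +kernel

theorem d181 : ckF 72 181 583 (nuT 181) 292 4072 4053 10 (cert 181 CL181) (cert 182 CL182) (cert 183 CL183) = true := by decide +kernel

theorem d182 : ckF 72 182 585 (nuT 182) 293 4076 4057 10 (cert 182 CL182) (cert 183 CL183) (cert 184 CL184) = true := by decide +kernel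

theorem d183 : ckF 72 183 589 (nuT 183) 295 4081 4062 10 (cert 183 CL183) (cert 184 CL184) (cert 185 CL185) = true := by decide +kernel

theorem d184 : ckF 72 184 591 (nuT 184) 296 4085 4066 10 (cert 184 CL184) (cert 185 CL185) (cert 186 CL186) = true := by decide +kernel

theorem d185 : ckF 72 185 595 (nuT 185) 298 4089 4071 10 (cert 185 CL185) (cert 186 CL186) (cert 187 CL187) = true := by decide +kernel

theorem d186 : ckF 72 186 597 (nuT 186) 299 4093 4075 10 (cert 186 CL186) (cert 187 CL187) (cert 188 CL188) = true := by decide +kernel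

theorem d187 : ckF 72 187 601 (nuT 187) 301 4097 4079 10 (cert 187 CL187) (cert 188 CL188) (cert 189 CL189) = true := by decide +kernel

theorem d188 : ckF 72 188 603 (nuT 188) 302 4101 4083 10 (cert 188 CL188) (cert 189 CL189) (cert 190 CL190) = true := by decide +kernel

theorem d189 : ckF 72 189 607 (nuT 189) 304 4106 4088 10 (cert 189 CL189) (cert 190 CL190) (cert 191 CL191) = true := by decide +kernel

end Pool.Agent.MP_9da1e3_co
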