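import Pool.Agent.Lib.MP_9da1e3_co.KcE190
import Pool.Agent.Lib.MP_9da1e3_co.KcE200
import Pool.Agent.Lib.MP_9da1e3_co.Kd0

set_option maxRecDepth 100000

namespace Pool.Agent.MP_9da1e3_co

theorem d190 : ckF 72 190 609 (nuT 190) 305 4110 4092 10 (cert 190 CL190) (cert 191 CL191) (cert 192 CL192) = true := by decide +kernel

theorem d191 : ckF 72 191 613 (nuT 191) 307 4114 4096 10 (cert 191 CL191) (cert 192 CL192) (cert 193 CL193) = true := by decide +kernel

theorem d192 : ckF 72 192 615 (nuT 192) 308 4118 4100 10 (cert 192 CL192) (cert 193 CL193) (cert 194 CL194) = true := by decide +kernel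

theorem d193 : ckF 72 193 619 (nuT 193) 310 4122 4105 10 (cert 193 CL193) (cert 194 CL194) (cert 195 CL195) = true := by decide +kernel

theorem d194 : ckF 72 194 621 (nuT 194) 311 4126 4109 10 (cert 194 CL194) (cert 195 CL195) (cert 196 CL196) = true := by decide +kernel

theorem d195 : ckF 72 195 625 (nuT 195) 313 4130 4113 10 (cert 195 CL195) (cert 196 CL196) (cert 197 CL197) = true := by decide +kernel

theorem d196 : ckF 72 196 627 (nuT 196) 314 4134 4117 10 (cert 196 CL196) (cert 197 CL197) (cert 198 CL198) = true := by decide +kernel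

theorem d197 : ckF 72 197 631 (nuT 197) 316 4138 4121 10 (cert 197 CL197) (cert 198 CL198) (cert 199 CL199) = true := by decide +kernel

theorem d198 : ckF 72 198 633 (nuT 198) 317 4142 4125 10 (cert 198 CL198) (cert 199 CL199) (cert 200 CL200) = true := by decide +kernel

theorem d199 : ckF 72 199 637 (nuT 199) 319 4146 4129 10 (cert 199 CL199) (cert 200 CL200) (cert 201 CL201) = true := by decide +kernel

end Pool.Agent.MP_9da1e3_co
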