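import Pool.Agent.Lib.MP_9da1e3_co.KcE200
import Pool.Agent.Lib.MP_9da1e3_co.KcE210
import Pool.Agent.Lib.MP_9da1e3_co.Kd0

set_option maxRecDepth 100000

namespace Pool.Agent.MP_9da1e3_co

theorem d200 : ckF 72 200 639 (nuT 200) 320 4150 4133 10 (cert 200 CL200) (cert 201 CL201) (cert 202 CL202) = true := by decide +kernel

theorem d201 : ckF 72 201 643 (nuT 201) 322 4154 4137 10 (cert 201 CL201) (cert 202 CL202) (cert 203 CL203) = true := by decide +kernel

theorem d202 : ckF 72 202 645 (nuT 202) 323 4158 4141 10 (cert 202 CL202) (cert 203 CL203) (cert 204 CL204) = true := by decide +kernel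

theorem d203 : ckF 72 203 649 (nuT 203) 325 4162 4145 10 (cert 203 CL203) (cert 204 CL204) (cert 205 CL205) = true := by decide +kernel

theorem d204 : ckF 72 204 651 (nuT 204) 326 4165 4149 10 (cert 204 CL204) (cert 205 CL205) (cert 206 CL206) = true := by decide +kernel

theorem d205 : ckF 72 205 655 (nuT 205) 328 4169 4153 10 (cert 205 CL205) (cert 206 CL206) (cert 207 CL207) = true := by decide +kernel

theorem d206 : ckF 72 206 657 (nuT 206) 329 4173 4157 10 (cert 206 CL206) (cert 207 CL207) (cert 208 CL208) = true := by decide +kernel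

theorem d207 : ckF 72 207 661 (nuT 207) 331 4177 4160 10 (cert 207 CL207) (cert 208 CL208) (cert 209 CL209) = true := by decide +kernel

theorem d208 : ckF 72 208 663 (nuT 208) 332 4180 4164 10 (cert 208 CL208) (cert 209 CL209) (cert 210 CL210) = true := by decide +kernel

theorem d209 : ckF 72 209 667 (nuT 209) 334 4184 4168 10 (cert 209 CL209) (cert 210 CL210) (cert 211 CL211) = true := by decide +kernel

end Pool.Agent.MP_9da1e3_co
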