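import Pool.Agent.Lib.MP_9da1e3_co.KcE210
import Pool.Agent.Lib.MP_9da1e3_co.KcE220
import Pool.Agent.Lib.MP_9da1e3_co.Kd0

set_option maxRecDepth 100000

namespace Pool.Agent.MP_9da1e3_co

theorem d210 : ckF 72 210 669 (nuT 210) 335 4188 4172 10 (cert 210 CL210) (cert 211 CL211) (cert 212 CL212) = true := by decide +kernel

theorem d211 : ckF 72 211 673 (nuT 211) 337 4191 4175 10 (cert 211 CL211) (cert 212 CL212) (cert 213 CL213) = true := by decide +kernel

theorem d212 : ckF 72 212 675 (nuT 212) 338 4195 4179 10 (cert 212 CL212) (cert 213 CL213) (cert 214 CL214) = true := by decide +kernel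

theorem d213 : ckF 72 213 679 (nuT 213) 340 4199 4183 10 (cert 213 CL213) (cert 214 CL214) (cert 215 CL215) = true := by decide +kernel

theorem d214 : ckF 72 214 681 (nuT 214) 341 4202 4186 10 (cert 214 CL214) (cert 215 CL215) (cert 216 CL216) = true := by decide +kernel

theorem d215 : ckF 72 215 685 (nuT 215) 343 4206 4190 10 (cert 215 CL215) (cert 216 CL216) (cert 217 CL217) = true := by decide +kernel

theorem d216 : ckF 72 216 687 (nuT 216) 344 4209 4193 10 (cert 216 CL216) (cert 217 CL217) (cert 218 CL218) = true := by decide +kernel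

theorem d217 : ckF 72 217 691 (nuT 217) 346 4213 4197 10 (cert 217 CL217) (cert 218 CL218) (cert 219 CL219) = true := by decide +kernel

theorem d218 : ckF 72 218 693 (nuT 218) 347 4216 4200 10 (cert 218 CL218) (cert 219 CL219) (cert 220 CL220) = true := by decide +kernel

theorem d219 : ckF 72 219 697 (nuT 219) 349 4220 4204 10 (cert 219 CL219) (cert 220 CL220) (cert 221 CL221) = true := by decide +kernel

end Pool.Agent.MP_9da1e3_co
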