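import Pool.Agent.Lib.MP_9da1e3_co.KcE220
import Pool.Agent.Lib.MP_9da1e3_co.KcE230
import Pool.Agent.Lib.MP_9da1e3_co.Kd0

set_option maxRecDepth 100000

namespace Pool.Agent.MP_9da1e3_co

theorem d220 : ckF 72 220 699 (nuT 220) 350 4223 4207 10 (cert 220 CL220) (cert 221 CL221) (cert 222 CL222) = true := by decide +kernel

theorem d221 : ckF 72 221 703 (nuT 221) 352 4226 4211 10 (cert 221 CL221) (cert 222 CL222) (cert 223 CL223) = true := by decide +kernel

theorem d222 : ckF 72 222 705 (nuT 222) 353 4230 4214 10 (cert 222 CL222) (cert 223 CL223) (cert 224 CL224) = true := by decide +kernel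

theorem d223 : ckF 72 223 709 (nuT 223) 355 4233 4218 10 (cert 223 CL223) (cert 224 CL224) (cert 225 CL225) = true := by decide +kernel

theorem d224 : ckF 72 224 711 (nuT 224) 356 4236 4221 10 (cert 224 CL224) (cert 225 CL225) (cert 226 CL226) = true := by decide +kernel

theorem d225 : ckF 72 225 715 (nuT 225) 358 4240 4224 10 (cert 225 CL225) (cert 226 CL226) (cert 227 CL227) = true := by decide +kernel

theorem d226 : ckF 72 226 717 (nuT 226) 359 4243 4228 10 (cert 226 CL226) (cert 227 CL227) (cert 228 CL228) = true := by decide +kernel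

theorem d227 : ckF 72 227 721 (nuT 227) 361 4246 4231 10 (cert 227 CL227) (cert 228 CL228) (cert 229 CL229) = true := by decide +kernel

theorem d228 : ckF 72 228 723 (nuT 228) 362 4250 4234 10 (cert 228 CL228) (cert 229 CL229) (cert 230 CL230) = true := by decide +kernel

theorem d229 : ckF 72 229 727 (nuT 229) 364 4253 4237 10 (cert 229 CL229) (cert 230 CL230) (cert 231 CL231) = true := by decide +kernel

end Pool.Agent.MP_9da1e3_co
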