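import Pool.Agent.Lib.MP_9da1e3_co.KcE230
import Pool.Agent.Lib.MP_9da1e3_co.KcE240
import Pool.Agent.Lib.MP_9da1e3_co.Kd0

set_option maxRecDepth 100000

namespace Pool.Agent.MP_9da1e3_co

theorem d230 : ckF 72 230 729 (nuT 230) 365 4256 4241 10 (cert 230 CL230) (cert 231 CL231) (cert 232 CL232) = true := by decide +kernel

theorem d231 : ckF 72 231 733 (nuT 231) 367 4259 4244 10 (cert 231 CL231) (cert 232 CL232) (cert 233 CL233) = true := by decide +kernel

theorem d232 : ckF 72 232 735 (nuT 232) 368 4262 4247 10 (cert 232 CL232) (cert 233 CL233) (cert 234 CL234) = true := by decide +kernel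

theorem d233 : ckF 72 233 739 (nuT 233) 370 4265 4250 10 (cert 233 CL233) (cert 234 CL234) (cert 235 CL235) = true := by decide +kernel

theorem d234 : ckF 72 234 741 (nuT 234) 371 4269 4254 10 (cert 234 CL234) (cert 235 CL235) (cert 236 CL236) = true := by decide +kernel

theorem d235 : ckF 72 235 745 (nuT 235) 373 4272 4257 10 (cert 235 CL235) (cert 236 CL236) (cert 237 CL237) = true := by decide +kernel

theorem d236 : ckF 72 236 747 (nuT 236) 374 4275 4260 10 (cert 236 CL236) (cert 237 CL237) (cert 238 CL238) = true := by decide +kernel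

theorem d237 : ckF 72 237 751 (nuT 237) 376 4278 4263 10 (cert 237 CL237) (cert 238 CL238) (cert 239 CL239) = true := by decide +kernel

theorem d238 : ckF 72 238 753 (nuT 238) 377 4281 4266 10 (cert 238 CL238) (cert 239 CL239) (cert 240 CL240) = true := by decide +kernel

theorem d239 : ckF 72 239 757 (nuT 239) 379 4284 4269 10 (cert 239 CL239) (cert 240 CL240) (cert 241 CL241) = true := by decide +kernel

end Pool.Agent.MP_9da1e3_co
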