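import Pool.Agent.Lib.MP_9da1e3_co.KcE240
import Pool.Agent.Lib.MP_9da1e3_co.KcE250
import Pool.Agent.Lib.MP_9da1e3_co.Kd0

set_option maxRecDepth 100000

namespace Pool.Agent.MP_9da1e3_co

theorem d240 : ckF 72 240 759 (nuT 240) 380 4287 4272 10 (cert 240 CL240) (cert 241 CL241) (cert 242 CL242) = true := by decide +kernel

theorem d241 : ckF 72 241 763 (nuT 241) 382 4290 4275 10 (cert 241 CL241) (cert 242 CL242) (cert 243 CL243) = true := by decide +kernel

theorem d242 : ckF 72 242 765 (nuT 242) 383 4293 4278 10 (cert 242 CL242) (cert 243 CL243) (cert 244 CL244) = true := by decide +kernel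

theorem d243 : ckF 72 243 769 (nuT 243) 385 4296 4281 10 (cert 243 CL243) (cert 244 CL244) (cert 245 CL245) = true := by decide +kernel

theorem d244 : ckF 72 244 771 (nuT 244) 386 4299 4284 10 (cert 244 CL244) (cert 245 CL245) (cert 246 CL246) = true := by decide +kernel

theorem d245 : ckF 72 245 775 (nuT 245) 388 4302 4287 10 (cert 245 CL245) (cert 246 CL246) (cert 247 CL247) = true := by decide +kernel

theorem d246 : ckF 72 246 777 (nuT 246) 389 4305 4290 10 (cert 246 CL246) (cert 247 CL247) (cert 248 CL248) = true := by decide +kernel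

theorem d247 : ckF 72 247 781 (nuT 247) 391 4308 4293 10 (cert 247 CL247) (cert 248 CL248) (cert 249 CL249) = true := by decide +kernel

theorem d248 : ckF 72 248 783 (nuT 248) 392 4310 4296 10 (cert 248 CL248) (cert 249 CL249) (cert 250 CL250) = true := by decide +kernel

theorem d249 : ckF 72 249 787 (nuT 249) 394 4313 4299 10 (cert 249 CL249) (cert 250 CL250) (cert 251 CL251) = true := by decide +kernel

end Pool.Agent.MP_9da1e3_co
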