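import Pool.Agent.Lib.MP_9da1e3_co.KcE250
import Pool.Agent.Lib.MP_9da1e3_co.KcE260
import Pool.Agent.Lib.MP_9da1e3_co.Kd0

set_option maxRecDepth 100000

namespace Pool.Agent.MP_9da1e3_co

theorem d250 : ckF 72 250 789 (nuT 250) 395 4316 4302 10 (cert 250 CL250) (cert 251 CL251) (cert 252 CL252) = true := by decide +kernel

theorem d251 : ckF 72 251 793 (nuT 251) 397 4319 4305 10 (cert 251 CL251) (cert 252 CL252) (cert 253 CL253) = true := by decide +kernel

theorem d252 : ckF 72 252 795 (nuT 252) 398 4322 4308 10 (cert 252 CL252) (cert 253 CL253) (cert 254 CL254) = true := by decide +kernel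

theorem d253 : ckF 72 253 799 (nuT 253) 400 4325 4310 10 (cert 253 CL253) (cert 254 CL254) (cert 255 CL255) = true := by decide +kernel

theorem d254 : ckF 72 254 801 (nuT 254) 401 4327 4313 10 (cert 254 CL254) (cert 255 CL255) (cert 256 CL256) = true := by decide +kernel

theorem d255 : ckF 72 255 805 (nuT 255) 403 4330 4316 10 (cert 255 CL255) (cert 256 CL256) (cert 257 CL257) = true := by decide +kernel

theorem d256 : ckF 72 256 807 (nuT 256) 404 4333 4319 10 (cert 256 CL256) (cert 257 CL257) (cert 258 CL258) = true := by decide +kernel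

theorem d257 : ckF 72 257 811 (nuT 257) 406 4336 4322 10 (cert 257 CL257) (cert 258 CL258) (cert 259 CL259) = true := by decide +kernel

theorem d258 : ckF 72 258 813 (nuT 258) 407 4338 4324 10 (cert 258 CL258) (cert 259 CL259) (cert 260 CL260) = true := by decide +kernel

theorem d259 : ckF 72 259 817 (nuT 259) 409 4341 4327 10 (cert 259 CL259) (cert 260 CL260) (cert 261 CL261) = true := by decide +kernel

end Pool.Agent.MP_9da1e3_co
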