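import Pool.Agent.Lib.MP_9da1e3_co.KcE260
import Pool.Agent.Lib.MP_9da1e3_co.KcE270
import Pool.Agent.Lib.MP_9da1e3_co.Kd0

set_option maxRecDepth 100000

namespace Pool.Agent.MP_9da1e3_co

theorem d260 : ckF 72 260 819 (nuT 260) 410 4344 4330 10 (cert 260 CL260) (cert 261 CL261) (cert 262 CL262) = true := by decide +kernel

theorem d261 : ckF 72 261 823 (nuT 261) 412 4347 4333 10 (cert 261 CL261) (cert 262 CL262) (cert 263 CL263) = true := by decide +kernel

theorem d262 : ckF 72 262 825 (nuT 262) 413 4349 4335 10 (cert 262 CL262) (cert 263 CL263) (cert 264 CL264) = true := by decide +kernel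

theorem d263 : ckF 72 263 829 (nuT 263) 415 4352 4338 10 (cert 263 CL263) (cert 264 CL264) (cert 265 CL265) = true := by decide +kernel

theorem d264 : ckF 72 264 831 (nuT 264) 416 4354 4341 10 (cert 264 CL264) (cert 265 CL265) (cert 266 CL266) = true := by decide +kernel

theorem d265 : ckF 72 265 835 (nuT 265) 418 4357 4343 10 (cert 265 CL265) (cert 266 CL266) (cert 267 CL267) = true := by decide +kernel

theorem d266 : ckF 72 266 837 (nuT 266) 419 4360 4346 10 (cert 266 CL266) (cert 267 CL267) (cert 268 CL268) = true := by decide +kernel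

theorem d267 : ckF 72 267 841 (nuT 267) 421 4362 4349 10 (cert 267 CL267) (cert 268 CL268) (cert 269 CL269) = true := by decide +kernel

theorem d268 : ckF 72 268 843 (nuT 268) 422 4365 4351 10 (cert 268 CL268) (cert 269 CL269) (cert 270 CL270) = true := by decide +kernel

theorem d269 : ckF 72 269 847 (nuT 269) 424 4367 4354 10 (cert 269 CL269) (cert 270 CL270) (cert 271 CL271) = true := by decide +kernel

end Pool.Agent.MP_9da1e3_co
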