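import Pool.Agent.Lib.MP_9da1e3_co.KcE270
import Pool.Agent.Lib.MP_9da1e3_co.KcE280
import Pool.Agent.Lib.MP_9da1e3_co.Kd0

set_option maxRecDepth 100000

namespace Pool.Agent.MP_9da1e3_co

theorem d270 : ckF 72 270 849 (nuT 270) 425 4370 4356 10 (cert 270 CL270) (cert 271 CL271) (cert 272 CL272) = true := by decide +kernel

theorem d271 : ckF 72 271 853 (nuT 271) 427 4373 4359 10 (cert 271 CL271) (cert 272 CL272) (cert 273 CL273) = true := by decide +kernel

theorem d272 : ckF 72 272 855 (nuT 272) 428 4375 4362 10 (cert 272 CL272) (cert 273 CL273) (cert 274 CL274) = true := by decide +kernel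

theorem d273 : ckF 72 273 859 (nuT 273) 430 4378 4364 10 (cert 273 CL273) (cert 274 CL274) (cert 275 CL275) = true := by decide +kernel

theorem d274 : ckF 72 274 861 (nuT 274) 431 4380 4367 10 (cert 274 CL274) (cert 275 CL275) (cert 276 CL276) = true := by decide +kernel

theorem d275 : ckF 72 275 865 (nuT 275) 433 4383 4369 10 (cert 275 CL275) (cert 276 CL276) (cert 277 CL277) = true := by decide +kernel

theorem d276 : ckF 72 276 867 (nuT 276) 434 4385 4372 10 (cert 276 CL276) (cert 277 CL277) (cert 278 CL278) = true := by decide +kernel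

theorem d277 : ckF 72 277 871 (nuT 277) 436 4388 4374 10 (cert 277 CL277) (cert 278 CL278) (cert 279 CL279) = true := by decide +kernel

theorem d278 : ckF 72 278 873 (nuT 278) 437 4390 4377 10 (cert 278 CL278) (cert 279 CL279) (cert 280 CL280) = true := by decide +kernel

theorem d279 : ckF 72 279 877 (nuT 279) 439 4393 4379 10 (cert 279 CL279) (cert 280 CL280) (cert 281 CL281) = true := by decide +kernel

end Pool.Agent.MP_9da1e3_co
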