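import Pool.Agent.Lib.MP_9da1e3_co.KcE280
import Pool.Agent.Lib.MP_9da1e3_co.KcE290
import Pool.Agent.Lib.MP_9da1e3_co.Kd0

set_option maxRecDepth 100000

namespace Pool.Agent.MP_9da1e3_co

theorem d280 : ckF 72 280 879 (nuT 280) 440 4395 4382 10 (cert 280 CL280) (cert 281 CL281) (cert 282 CL282) = true := by decide +kernel

theorem d281 : ckF 72 281 883 (nuT 281) 442 4397 4384 10 (cert 281 CL281) (cert 282 CL282) (cert 283 CL283) = true := by decide +kernel

theorem d282 : ckF 72 282 885 (nuT 282) 443 4400 4387 10 (cert 282 CL282) (cert 283 CL283) (cert 284 CL284) = true := by decide +kernel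

theorem d283 : ckF 72 283 889 (nuT 283) 445 4402 4389 10 (cert 283 CL283) (cert 284 CL284) (cert 285 CL285) = true := by decide +kernel

theorem d284 : ckF 72 284 891 (nuT 284) 446 4405 4391 10 (cert 284 CL284) (cert 285 CL285) (cert 286 CL286) = true := by decide +kernel

theorem d285 : ckF 72 285 895 (nuT 285) 448 4407 4394 10 (cert 285 CL285) (cert 286 CL286) (cert 287 CL287) = true := by decide +kernel

theorem d286 : ckF 72 286 897 (nuT 286) 449 4409 4396 10 (cert 286 CL286) (cert 287 CL287) (cert 288 CL288) = true := by decide +kernel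

theorem d287 : ckF 72 287 901 (nuT 287) 451 4412 4399 10 (cert 287 CL287) (cert 288 CL288) (cert 289 CL289) = true := by decide +kernel

theorem d288 : ckF 72 288 903 (nuT 288) 452 4414 4401 10 (cert 288 CL288) (cert 289 CL289) (cert 290 CL290) = true := by decide +kernel

theorem d289 : ckF 72 289 907 (nuT 289) 454 4416 4403 10 (cert 289 CL289) (cert 290 CL290) (cert 291 CL291) = true := by decide +kernel

end Pool.Agent.MP_9da1e3_co
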