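import Pool.Agent.Lib.MP_9da1e3_co.KcE290
import Pool.Agent.Lib.MP_9da1e3_co.KcE300
import Pool.Agent.Lib.MP_9da1e3_co.Kd0

set_option maxRecDepth 100000

namespace Pool.Agent.MP_9da1e3_co

theorem d290 : ckF 72 290 909 (nuT 290) 455 4419 4406 10 (cert 290 CL290) (cert 291 CL291) (cert 292 CL292) = true := by decide +kernel

theorem d291 : ckF 72 291 913 (nuT 291) 457 4421 4408 10 (cert 291 CL291) (cert 292 CL292) (cert 293 CL293) = true := by decide +kernel

theorem d292 : ckF 72 292 915 (nuT 292) 458 4423 4410 10 (cert 292 CL292) (cert 293 CL293) (cert 294 CL294) = true := by decide +kernel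

theorem d293 : ckF 72 293 919 (nuT 293) 460 4426 4413 10 (cert 293 CL293) (cert 294 CL294) (cert 295 CL295) = true := by decide +kernel

theorem d294 : ckF 72 294 921 (nuT 294) 461 4428 4415 10 (cert 294 CL294) (cert 295 CL295) (cert 296 CL296) = true := by decide +kernel

theorem d295 : ckF 72 295 925 (nuT 295) 463 4430 4417 10 (cert 295 CL295) (cert 296 CL296) (cert 297 CL297) = true := by decide +kernel

theorem d296 : ckF 72 296 927 (nuT 296) 464 4432 4420 10 (cert 296 CL296) (cert 297 CL297) (cert 298 CL298) = true := by decide +kernel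

theorem d297 : ckF 72 297 931 (nuT 297) 466 4435 4422 10 (cert 297 CL297) (cert 298 CL298) (cert 299 CL299) = true := by decide +kernel

theorem d298 : ckF 72 298 933 (nuT 298) 467 4437 4424 10 (cert 298 CL298) (cert 299 CL299) (cert 300 CL300) = true := by decide +kernel

theorem d299 : ckF 72 299 937 (nuT 299) 469 4439 4427 10 (cert 299 CL299) (cert 300 CL300) (cert 301 CL301) = true := by decide +kernel

end Pool.Agent.MP_9da1e3_co
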