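import Pool.Agent.Lib.MP_9da1e3_co.KcE300
import Pool.Agent.Lib.MP_9da1e3_co.KcE310
import Pool.Agent.Lib.MP_9da1e3_co.Kd0

set_option maxRecDepth 100000

namespace Pool.Agent.MP_9da1e3_co

theorem d300 : ckF 72 300 779 (nuT 300) 390 4441 4429 10 (cert 300 CL300) (cert 301 CL301) (cert 302 CL302) = true := by decide +kernel

theorem d301 : ckF 72 301 781 (nuT 301) 391 4444 4431 10 (cert 301 CL301) (cert 302 CL302) (cert 303 CL303) = true := by decide +kernel

theorem d302 : ckF 72 302 785 (nuT 302) 393 4446 4433 10 (cert 302 CL302) (cert 303 CL303) (cert 304 CL304) = true := by decide +kernel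

theorem d303 : ckF 72 303 787 (nuT 303) 394 4448 4435 10 (cert 303 CL303) (cert 304 CL304) (cert 305 CL305) = true := by decide +kernel

theorem d304 : ckF 72 304 789 (nuT 304) 395 4450 4438 10 (cert 304 CL304) (cert 305 CL305) (cert 306 CL306) = true := by decide +kernel

theorem d305 : ckF 72 305 791 (nuT 305) 396 4452 4440 10 (cert 305 CL305) (cert 306 CL306) (cert 307 CL307) = true := by decide +kernel

theorem d306 : ckF 72 306 795 (nuT 306) 398 4454 4442 10 (cert 306 CL306) (cert 307 CL307) (cert 308 CL308) = true := by decide +kernel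

theorem d307 : ckF 72 307 797 (nuT 307) 399 4457 4444 10 (cert 307 CL307) (cert 308 CL308) (cert 309 CL309) = true := by decide +kernel

theorem d308 : ckF 72 308 799 (nuT 308) 400 4459 4446 10 (cert 308 CL308) (cert 309 CL309) (cert 310 CL310) = true := by decide +kernel

theorem d309 : ckF 72 309 801 (nuT 309) 401 4461 4449 10 (cert 309 CL309) (cert 310 CL310) (cert 311 CL311) = true := by decide +kernel

end Pool.Agent.MP_9da1e3_co
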