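import Pool.Agent.Lib.MP_9da1e3_co.KcE310
import Pool.Agent.Lib.MP_9da1e3_co.KcE320
import Pool.Agent.Lib.MP_9da1e3_co.Kd0

set_option maxRecDepth 100000

namespace Pool.Agent.MP_9da1e3_co

theorem d310 : ckF 72 310 805 (nuT 310) 403 4463 4451 10 (cert 310 CL310) (cert 311 CL311) (cert 312 CL312) = true := by decide +kernel

theorem d311 : ckF 72 311 807 (nuT 311) 404 4465 4453 10 (cert 311 CL311) (cert 312 CL312) (cert 313 CL313) = true := by decide +kernel

theorem d312 : ckF 72 312 809 (nuT 312) 405 4467 4455 10 (cert 312 CL312) (cert 313 CL313) (cert 314 CL314) = true := by decide +kernel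

theorem d313 : ckF 72 313 811 (nuT 313) 406 4469 4457 10 (cert 313 CL313) (cert 314 CL314) (cert 315 CL315) = true := by decide +kernel

theorem d314 : ckF 72 314 815 (nuT 314) 408 4471 4459 10 (cert 314 CL314) (cert 315 CL315) (cert 316 CL316) = true := by decide +kernel

theorem d315 : ckF 72 315 817 (nuT 315) 409 4473 4461 10 (cert 315 CL315) (cert 316 CL316) (cert 317 CL317) = true := by decide +kernel

theorem d316 : ckF 72 316 819 (nuT 316) 410 4475 4463 10 (cert 316 CL316) (cert 317 CL317) (cert 318 CL318) = true := by decide +kernel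

theorem d317 : ckF 72 317 821 (nuT 317) 411 4478 4466 10 (cert 317 CL317) (cert 318 CL318) (cert 319 CL319) = true := by decide +kernel

theorem d318 : ckF 72 318 825 (nuT 318) 413 4480 4468 10 (cert 318 CL318) (cert 319 CL319) (cert 320 CL320) = true := by decide +kernel

theorem d319 : ckF 72 319 827 (nuT 319) 414 4482 4470 10 (cert 319 CL319) (cert 320 CL320) (cert 321 CL321) = true := by decide +kernel

end Pool.Agent.MP_9da1e3_co
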