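import Pool.Agent.Lib.MP_9da1e3_co.KcE320
import Pool.Agent.Lib.MP_9da1e3_co.KcE330
import Pool.Agent.Lib.MP_9da1e3_co.Kd0

set_option maxRecDepth 100000

namespace Pool.Agent.MP_9da1e3_co

theorem d320 : ckF 72 320 829 (nuT 320) 415 4484 4472 10 (cert 320 CL320) (cert 321 CL321) (cert 322 CL322) = true := by decide +kernel

theorem d321 : ckF 72 321 831 (nuT 321) 416 4486 4474 10 (cert 321 CL321) (cert 322 CL322) (cert 323 CL323) = true := by decide +kernel

theorem d322 : ckF 72 322 835 (nuT 322) 418 4488 4476 10 (cert 322 CL322) (cert 323 CL323) (cert 324 CL324) = true := by decide +kernel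

theorem d323 : ckF 72 323 837 (nuT 323) 419 4490 4478 10 (cert 323 CL323) (cert 324 CL324) (cert 325 CL325) = true := by decide +kernel

theorem d324 : ckF 72 324 839 (nuT 324) 420 4492 4480 10 (cert 324 CL324) (cert 325 CL325) (cert 326 CL326) = true := by decide +kernel

theorem d325 : ckF 72 325 841 (nuT 325) 421 4494 4482 10 (cert 325 CL325) (cert 326 CL326) (cert 327 CL327) = true := by decide +kernel

theorem d326 : ckF 72 326 845 (nuT 326) 423 4496 4484 10 (cert 326 CL326) (cert 327 CL327) (cert 328 CL328) = true := by decide +kernel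

theorem d327 : ckF 72 327 847 (nuT 327) 424 4498 4486 10 (cert 327 CL327) (cert 328 CL328) (cert 329 CL329) = true := by decide +kernel

theorem d328 : ckF 72 328 849 (nuT 328) 425 4500 4488 10 (cert 328 CL328) (cert 329 CL329) (cert 330 CL330) = true := by decide +kernel

theorem d329 : ckF 72 329 851 (nuT 329) 426 4502 4490 10 (cert 329 CL329) (cert 330 CL330) (cert 331 CL331) = true := by decide +kernel

end Pool.Agent.MP_9da1e3_co
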