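import Pool.Agent.Lib.MP_9da1e3_co.KcE330
import Pool.Agent.Lib.MP_9da1e3_co.KcE340
import Pool.Agent.Lib.MP_9da1e3_co.Kd0

set_option maxRecDepth 100000

namespace Pool.Agent.MP_9da1e3_co

theorem d330 : ckF 72 330 855 (nuT 330) 428 4504 4492 10 (cert 330 CL330) (cert 331 CL331) (cert 332 CL332) = true := by decide +kernel

theorem d331 : ckF 72 331 857 (nuT 331) 429 4505 4494 10 (cert 331 CL331) (cert 332 CL332) (cert 333 CL333) = true := by decide +kernel

theorem d332 : ckF 72 332 859 (nuT 332) 430 4507 4496 10 (cert 332 CL332) (cert 333 CL333) (cert 334 CL334) = true := by decide +kernel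

theorem d333 : ckF 72 333 861 (nuT 333) 431 4509 4498 10 (cert 333 CL333) (cert 334 CL334) (cert 335 CL335) = true := by decide +kernel

theorem d334 : ckF 72 334 865 (nuT 334) 433 4511 4500 10 (cert 334 CL334) (cert 335 CL335) (cert 336 CL336) = true := by decide +kernel

theorem d335 : ckF 72 335 867 (nuT 335) 434 4513 4502 10 (cert 335 CL335) (cert 336 CL336) (cert 337 CL337) = true := by decide +kernel

theorem d336 : ckF 72 336 869 (nuT 336) 435 4515 4504 10 (cert 336 CL336) (cert 337 CL337) (cert 338 CL338) = true := by decide +kernel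

theorem d337 : ckF 72 337 871 (nuT 337) 436 4517 4505 10 (cert 337 CL337) (cert 338 CL338) (cert 339 CL339) = true := by decide +kernel

theorem d338 : ckF 72 338 875 (nuT 338) 438 4519 4507 10 (cert 338 CL338) (cert 339 CL339) (cert 340 CL340) = true := by decide +kernel

theorem d339 : ckF 72 339 877 (nuT 339) 439 4521 4509 10 (cert 339 CL339) (cert 340 CL340) (cert 341 CL341) = true := by decide +kernel

end Pool.Agent.MP_9da1e3_co
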