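import Pool.Agent.Lib.MP_9da1e3_co.KcE340
import Pool.Agent.Lib.MP_9da1e3_co.KcE350
import Pool.Agent.Lib.MP_9da1e3_co.Kd0

set_option maxRecDepth 100000

namespace Pool.Agent.MP_9da1e3_co

theorem d340 : ckF 72 340 879 (nuT 340) 440 4523 4511 10 (cert 340 CL340) (cert 341 CL341) (cert 342 CL342) = true := by decide +kernel

theorem d341 : ckF 72 341 881 (nuT 341) 441 4524 4513 10 (cert 341 CL341) (cert 342 CL342) (cert 343 CL343) = true := by decide +kernel

theorem d342 : ckF 72 342 885 (nuT 342) 443 4526 4515 10 (cert 342 CL342) (cert 343 CL343) (cert 344 CL344) = true := by decide +kernel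

theorem d343 : ckF 72 343 887 (nuT 343) 444 4528 4517 10 (cert 343 CL343) (cert 344 CL344) (cert 345 CL345) = true := by decide +kernel

theorem d344 : ckF 72 344 889 (nuT 344) 445 4530 4519 10 (cert 344 CL344) (cert 345 CL345) (cert 346 CL346) = true := by decide +kernel

theorem d345 : ckF 72 345 891 (nuT 345) 446 4532 4521 10 (cert 345 CL345) (cert 346 CL346) (cert 347 CL347) = true := by decide +kernel

theorem d346 : ckF 72 346 895 (nuT 346) 448 4534 4522 10 (cert 346 CL346) (cert 347 CL347) (cert 348 CL348) = true := by decide +kernel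

theorem d347 : ckF 72 347 897 (nuT 347) 449 4536 4524 10 (cert 347 CL347) (cert 348 CL348) (cert 349 CL349) = true := by decide +kernel

theorem d348 : ckF 72 348 899 (nuT 348) 450 4537 4526 10 (cert 348 CL348) (cert 349 CL349) (cert 350 CL350) = true := by decide +kernel

theorem d349 : ckF 72 349 901 (nuT 349) 451 4539 4528 10 (cert 349 CL349) (cert 350 CL350) (cert 351 CL351) = true := by decide +kernel

end Pool.Agent.MP_9da1e3_co
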