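import Pool.Agent.Lib.MP_9da1e3_co.KcE350
import Pool.Agent.Lib.MP_9da1e3_co.KcE360
import Pool.Agent.Lib.MP_9da1e3_co.Kd0

set_option maxRecDepth 100000

namespace Pool.Agent.MP_9da1e3_co

theorem d350 : ckF 72 350 905 (nuT 350) 453 4541 4530 10 (cert 350 CL350) (cert 351 CL351) (cert 352 CL352) = true := by decide +kernel

theorem d351 : ckF 72 351 907 (nuT 351) 454 4543 4532 10 (cert 351 CL351) (cert 352 CL352) (cert 353 CL353) = true := by decide +kernel

theorem d352 : ckF 72 352 909 (nuT 352) 455 4545 4533 10 (cert 352 CL352) (cert 353 CL353) (cert 354 CL354) = true := by decide +kernel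

theorem d353 : ckF 72 353 911 (nuT 353) 456 4546 4535 10 (cert 353 CL353) (cert 354 CL354) (cert 355 CL355) = true := by decide +kernel

theorem d354 : ckF 72 354 915 (nuT 354) 458 4548 4537 10 (cert 354 CL354) (cert 355 CL355) (cert 356 CL356) = true := by decide +kernel

theorem d355 : ckF 72 355 917 (nuT 355) 459 4550 4539 10 (cert 355 CL355) (cert 356 CL356) (cert 357 CL357) = true := by decide +kernel

theorem d356 : ckF 72 356 919 (nuT 356) 460 4552 4541 10 (cert 356 CL356) (cert 357 CL357) (cert 358 CL358) = true := by decide +kernel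

theorem d357 : ckF 72 357 921 (nuT 357) 461 4553 4542 10 (cert 357 CL357) (cert 358 CL358) (cert 359 CL359) = true := by decide +kernel

theorem d358 : ckF 72 358 925 (nuT 358) 463 4555 4544 10 (cert 358 CL358) (cert 359 CL359) (cert 360 CL360) = true := by decide +kernel

theorem d359 : ckF 72 359 927 (nuT 359) 464 4557 4546 10 (cert 359 CL359) (cert 360 CL360) (cert 361 CL361) = true := by decide +kernel

end Pool.Agent.MP_9da1e3_co
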