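import Pool.Agent.Lib.MP_9da1e3_co.KcE360
import Pool.Agent.Lib.MP_9da1e3_co.KcE370
import Pool.Agent.Lib.MP_9da1e3_co.Kd0

set_option maxRecDepth 100000

namespace Pool.Agent.MP_9da1e3_co

theorem d360 : ckF 72 360 929 (nuT 360) 465 4559 4548 10 (cert 360 CL360) (cert 361 CL361) (cert 362 CL362) = true := by decide +kernel

theorem d361 : ckF 72 361 931 (nuT 361) 466 4560 4549 10 (cert 361 CL361) (cert 362 CL362) (cert 363 CL363) = true := by decide +kernel

theorem d362 : ckF 72 362 935 (nuT 362) 468 4562 4551 10 (cert 362 CL362) (cert 363 CL363) (cert 364 CL364) = true := by decide +kernel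

theorem d363 : ckF 72 363 937 (nuT 363) 469 4564 4553 10 (cert 363 CL363) (cert 364 CL364) (cert 365 CL365) = true := by decide +kernel

theorem d364 : ckF 72 364 939 (nuT 364) 470 4565 4555 10 (cert 364 CL364) (cert 365 CL365) (cert 366 CL366) = true := by decide +kernel

theorem d365 : ckF 72 365 941 (nuT 365) 471 4567 4556 10 (cert 365 CL365) (cert 366 CL366) (cert 367 CL367) = true := by decide +kernel

theorem d366 : ckF 72 366 945 (nuT 366) 473 4569 4558 10 (cert 366 CL366) (cert 367 CL367) (cert 368 CL368) = true := by decide +kernel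

theorem d367 : ckF 72 367 947 (nuT 367) 474 4571 4560 10 (cert 367 CL367) (cert 368 CL368) (cert 369 CL369) = true := by decide +kernel

theorem d368 : ckF 72 368 949 (nuT 368) 475 4572 4562 10 (cert 368 CL368) (cert 369 CL369) (cert 370 CL370) = true := by decide +kernel

theorem d369 : ckF 72 369 951 (nuT 369) 476 4574 4563 10 (cert 369 CL369) (cert 370 CL370) (cert 371 CL371) = true := by decide +kernel

end Pool.Agent.MP_9da1e3_co
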