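import Pool.Agent.Lib.MP_9da1e3_co.KcE370
import Pool.Agent.Lib.MP_9da1e3_co.KcE380
import Pool.Agent.Lib.MP_9da1e3_co.Kd0

set_option maxRecDepth 100000

namespace Pool.Agent.MP_9da1e3_co

theorem d370 : ckF 72 370 955 (nuT 370) 478 4576 4565 10 (cert 370 CL370) (cert 371 CL371) (cert 372 CL372) = true := by decide +kernel

theorem d371 : ckF 72 371 957 (nuT 371) 479 4577 4567 10 (cert 371 CL371) (cert 372 CL372) (cert 373 CL373) = true := by decide +kernel

theorem d372 : ckF 72 372 959 (nuT 372) 480 4579 4568 10 (cert 372 CL372) (cert 373 CL373) (cert 374 CL374) = true := by decide +kernel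

theorem d373 : ckF 72 373 961 (nuT 373) 481 4581 4570 10 (cert 373 CL373) (cert 374 CL374) (cert 375 CL375) = true := by decide +kernel

theorem d374 : ckF 72 374 965 (nuT 374) 483 4582 4572 10 (cert 374 CL374) (cert 375 CL375) (cert 376 CL376) = true := by decide +kernel

theorem d375 : ckF 72 375 967 (nuT 375) 484 4584 4573 10 (cert 375 CL375) (cert 376 CL376) (cert 377 CL377) = true := by decide +kernel

theorem d376 : ckF 72 376 969 (nuT 376) 485 4586 4575 10 (cert 376 CL376) (cert 377 CL377) (cert 378 CL378) = true := by decide +kernel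

theorem d377 : ckF 72 377 971 (nuT 377) 486 4587 4577 10 (cert 377 CL377) (cert 378 CL378) (cert 379 CL379) = true := by decide +kernel

theorem d378 : ckF 72 378 975 (nuT 378) 488 4589 4578 10 (cert 378 CL378) (cert 379 CL379) (cert 380 CL380) = true := by decide +kernel

theorem d379 : ckF 72 379 977 (nuT 379) 489 4590 4580 10 (cert 379 CL379) (cert 380 CL380) (cert 381 CL381) = true := by decide +kernel

end Pool.Agent.MP_9da1e3_co
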