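import Pool.Agent.Lib.MP_9da1e3_co.KcE380
import Pool.Agent.Lib.MP_9da1e3_co.KcE390
import Pool.Agent.Lib.MP_9da1e3_co.Kd0

set_option maxRecDepth 100000

namespace Pool.Agent.MP_9da1e3_co

theorem d380 : ckF 72 380 979 (nuT 380) 490 4592 4582 10 (cert 380 CL380) (cert 381 CL381) (cert 382 CL382) = true := by decide +kernel

theorem d381 : ckF 72 381 981 (nuT 381) 491 4594 4583 10 (cert 381 CL381) (cert 382 CL382) (cert 383 CL383) = true := by decide +kernel

theorem d382 : ckF 72 382 985 (nuT 382) 493 4595 4585 10 (cert 382 CL382) (cert 383 CL383) (cert 384 CL384) = true := by decide +kernel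

theorem d383 : ckF 72 383 987 (nuT 383) 494 4597 4586 10 (cert 383 CL383) (cert 384 CL384) (cert 385 CL385) = true := by decide +kernel

theorem d384 : ckF 72 384 989 (nuT 384) 495 4598 4588 10 (cert 384 CL384) (cert 385 CL385) (cert 386 CL386) = true := by decide +kernel

theorem d385 : ckF 72 385 991 (nuT 385) 496 4600 4590 10 (cert 385 CL385) (cert 386 CL386) (cert 387 CL387) = true := by decide +kernel

theorem d386 : ckF 72 386 995 (nuT 386) 498 4602 4591 10 (cert 386 CL386) (cert 387 CL387) (cert 388 CL388) = true := by decide +kernel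

theorem d387 : ckF 72 387 997 (nuT 387) 499 4603 4593 10 (cert 387 CL387) (cert 388 CL388) (cert 389 CL389) = true := by decide +kernel

theorem d388 : ckF 72 388 999 (nuT 388) 500 4605 4594 10 (cert 388 CL388) (cert 389 CL389) (cert 390 CL390) = true := by decide +kernel

theorem d389 : ckF 72 389 1001 (nuT 389) 501 4606 4596 10 (cert 389 CL389) (cert 390 CL390) (cert 391 CL391) = true := by decide +kernel

end Pool.Agent.MP_9da1e3_co
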