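import Pool.Agent.Lib.MP_9da1e3_co.KcE390
import Pool.Agent.Lib.MP_9da1e3_co.KcE400
import Pool.Agent.Lib.MP_9da1e3_co.Kd0

set_option maxRecDepth 100000

namespace Pool.Agent.MP_9da1e3_co

theorem d390 : ckF 72 390 1005 (nuT 390) 503 4608 4598 10 (cert 390 CL390) (cert 391 CL391) (cert 392 CL392) = true := by decide +kernel

theorem d391 : ckF 72 391 1007 (nuT 391) 504 4609 4599 10 (cert 391 CL391) (cert 392 CL392) (cert 393 CL393) = true := by decide +kernel

theorem d392 : ckF 72 392 1009 (nuT 392) 505 4611 4601 10 (cert 392 CL392) (cert 393 CL393) (cert 394 CL394) = true := by decide +kernel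

theorem d393 : ckF 72 393 1011 (nuT 393) 506 4613 4602 10 (cert 393 CL393) (cert 394 CL394) (cert 395 CL395) = true := by decide +kernel

theorem d394 : ckF 72 394 1015 (nuT 394) 508 4614 4604 10 (cert 394 CL394) (cert 395 CL395) (cert 396 CL396) = true := by decide +kernel

theorem d395 : ckF 72 395 1017 (nuT 395) 509 4616 4605 10 (cert 395 CL395) (cert 396 CL396) (cert 397 CL397) = true := by decide +kernel

theorem d396 : ckF 72 396 1019 (nuT 396) 510 4617 4607 10 (cert 396 CL396) (cert 397 CL397) (cert 398 CL398) = true := by decide +kernel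

theorem d397 : ckF 72 397 1021 (nuT 397) 511 4619 4609 10 (cert 397 CL397) (cert 398 CL398) (cert 399 CL399) = true := by decide +kernel

theorem d398 : ckF 72 398 1025 (nuT 398) 513 4620 4610 11 (cert 398 CL398) (cert 399 CL399) (cert 400 CL400) = true := by decide +kernel

theorem d399 : ckF 72 399 1027 (nuT 399) 514 4622 4612 11 (cert 399 CL399) (cert 400 CL400) (cert 401 CL401) = true := by decide +kernel

end Pool.Agent.MP_9da1e3_co
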