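import Pool.Agent.Lib.MP_9da1e3_co.KcE40
import Pool.Agent.Lib.MP_9da1e3_co.KcE50
import Pool.Agent.Lib.MP_9da1e3_co.Kd0

set_option maxRecDepth 100000

namespace Pool.Agent.MP_9da1e3_co

theorem d40 : ckF 72 40 159 (nuT 40) 80 3166 3040 8 (cert 40 CL40) (cert 41 CL41) (cert 42 CL42) = true := by decide +kernel

theorem d41 : ckF 72 41 163 (nuT 41) 82 3190 3066 8 (cert 41 CL41) (cert 42 CL42) (cert 43 CL43) = true := by decide +kernel

theorem d42 : ckF 72 42 165 (nuT 42) 83 3177 3058 8 (cert 42 CL42) (cert 43 CL43) (cert 44 CL44) = true := by decide +kernel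

theorem d43 : ckF 72 43 169 (nuT 43) 85 3201 3084 8 (cert 43 CL43) (cert 44 CL44) (cert 45 CL45) = true := by decide +kernel

theorem d44 : ckF 72 44 171 (nuT 44) 86 3189 3078 8 (cert 44 CL44) (cert 45 CL45) (cert 46 CL46) = true := by decide +kernel

theorem d45 : ckF 72 45 175 (nuT 45) 88 3212 3102 8 (cert 45 CL45) (cert 46 CL46) (cert 47 CL47) = true := by decide +kernel

theorem d46 : ckF 72 46 177 (nuT 46) 89 3203 3097 8 (cert 46 CL46) (cert 47 CL47) (cert 48 CL48) = true := by decide +kernel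

theorem d47 : ckF 72 47 181 (nuT 47) 91 3225 3121 8 (cert 47 CL47) (cert 48 CL48) (cert 49 CL49) = true := by decide +kernel

theorem d48 : ckF 72 48 183 (nuT 48) 92 3217 3117 8 (cert 48 CL48) (cert 49 CL49) (cert 50 CL50) = true := by decide +kernel

theorem d49 : ckF 72 49 187 (nuT 49) 94 3239 3140 8 (cert 49 CL49) (cert 50 CL50) (cert 51 CL51) = true := by decide +kernel

end Pool.Agent.MP_9da1e3_co
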