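import Pool.Agent.Lib.MP_9da1e3_co.KcE400
import Pool.Agent.Lib.MP_9da1e3_co.KcE410
import Pool.Agent.Lib.MP_9da1e3_co.Kd0

set_option maxRecDepth 100000

namespace Pool.Agent.MP_9da1e3_co

theorem d400 : ckF 72 400 1029 (nuT 400) 515 4623 4613 11 (cert 400 CL400) (cert 401 CL401) (cert 402 CL402) = true := by decide +kernel

theorem d401 : ckF 72 401 1031 (nuT 401) 516 4625 4615 11 (cert 401 CL401) (cert 402 CL402) (cert 403 CL403) = true := by decide +kernel

theorem d402 : ckF 72 402 1035 (nuT 402) 518 4626 4616 11 (cert 402 CL402) (cert 403 CL403) (cert 404 CL404) = true := by decide +kernel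

theorem d403 : ckF 72 403 1037 (nuT 403) 519 4628 4618 11 (cert 403 CL403) (cert 404 CL404) (cert 405 CL405) = true := by decide +kernel

theorem d404 : ckF 72 404 1039 (nuT 404) 520 4629 4619 11 (cert 404 CL404) (cert 405 CL405) (cert 406 CL406) = true := by decide +kernel

theorem d405 : ckF 72 405 1041 (nuT 405) 521 4631 4621 11 (cert 405 CL405) (cert 406 CL406) (cert 407 CL407) = true := by decide +kernel

theorem d406 : ckF 72 406 1045 (nuT 406) 523 4632 4622 11 (cert 406 CL406) (cert 407 CL407) (cert 408 CL408) = true := by decide +kernel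

theorem d407 : ckF 72 407 1047 (nuT 407) 524 4634 4624 11 (cert 407 CL407) (cert 408 CL408) (cert 409 CL409) = true := by decide +kernel

theorem d408 : ckF 72 408 1049 (nuT 408) 525 4635 4625 11 (cert 408 CL408) (cert 409 CL409) (cert 410 CL410) = true := by decide +kernel

theorem d409 : ckF 72 409 1051 (nuT 409) 526 4637 4627 11 (cert 409 CL409) (cert 410 CL410) (cert 411 CL411) = true := by decide +kernel

end Pool.Agent.MP_9da1e3_co
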