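import Pool.Agent.Lib.MP_9da1e3_co.KcE410
import Pool.Agent.Lib.MP_9da1e3_co.KcE420
import Pool.Agent.Lib.MP_9da1e3_co.Kd0

set_option maxRecDepth 100000

namespace Pool.Agent.MP_9da1e3_co

theorem d410 : ckF 72 410 1055 (nuT 410) 528 4638 4628 11 (cert 410 CL410) (cert 411 CL411) (cert 412 CL412) = true := by decide +kernel

theorem d411 : ckF 72 411 1057 (nuT 411) 529 4639 4630 11 (cert 411 CL411) (cert 412 CL412) (cert 413 CL413) = true := by decide +kernel

theorem d412 : ckF 72 412 1059 (nuT 412) 530 4641 4631 11 (cert 412 CL412) (cert 413 CL413) (cert 414 CL414) = true := by decide +kernel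

theorem d413 : ckF 72 413 1061 (nuT 413) 531 4642 4633 11 (cert 413 CL413) (cert 414 CL414) (cert 415 CL415) = true := by decide +kernel

theorem d414 : ckF 72 414 1065 (nuT 414) 533 4644 4634 11 (cert 414 CL414) (cert 415 CL415) (cert 416 CL416) = true := by decide +kernel

theorem d415 : ckF 72 415 1067 (nuT 415) 534 4645 4636 11 (cert 415 CL415) (cert 416 CL416) (cert 417 CL417) = true := by decide +kernel

theorem d416 : ckF 72 416 1069 (nuT 416) 535 4647 4637 11 (cert 416 CL416) (cert 417 CL417) (cert 418 CL418) = true := by decide +kernel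

theorem d417 : ckF 72 417 1071 (nuT 417) 536 4648 4638 11 (cert 417 CL417) (cert 418 CL418) (cert 419 CL419) = true := by decide +kernel

theorem d418 : ckF 72 418 1075 (nuT 418) 538 4650 4640 11 (cert 418 CL418) (cert 419 CL419) (cert 420 CL420) = true := by decide +kernel

theorem d419 : ckF 72 419 1077 (nuT 419) 539 4651 4641 11 (cert 419 CL419) (cert 420 CL420) (cert 421 CL421) = true := by decide +kernel

end Pool.Agent.MP_9da1e3_co
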