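import Pool.Agent.Lib.MP_9da1e3_co.KcE420
import Pool.Agent.Lib.MP_9da1e3_co.KcE430
import Pool.Agent.Lib.MP_9da1e3_co.Kd0

set_option maxRecDepth 100000

namespace Pool.Agent.MP_9da1e3_co

theorem d420 : ckF 72 420 1079 (nuT 420) 540 4652 4643 11 (cert 420 CL420) (cert 421 CL421) (cert 422 CL422) = true := by decide +kernel

theorem d421 : ckF 72 421 1081 (nuT 421) 541 4654 4644 11 (cert 421 CL421) (cert 422 CL422) (cert 423 CL423) = true := by decide +kernel

theorem d422 : ckF 72 422 1085 (nuT 422) 543 4655 4646 11 (cert 422 CL422) (cert 423 CL423) (cert 424 CL424) = true := by decide +kernel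

theorem d423 : ckF 72 423 1087 (nuT 423) 544 4657 4647 11 (cert 423 CL423) (cert 424 CL424) (cert 425 CL425) = true := by decide +kernel

theorem d424 : ckF 72 424 1089 (nuT 424) 545 4658 4648 11 (cert 424 CL424) (cert 425 CL425) (cert 426 CL426) = true := by decide +kernel

theorem d425 : ckF 72 425 1091 (nuT 425) 546 4659 4650 11 (cert 425 CL425) (cert 426 CL426) (cert 427 CL427) = true := by decide +kernel

theorem d426 : ckF 72 426 1095 (nuT 426) 548 4661 4651 11 (cert 426 CL426) (cert 427 CL427) (cert 428 CL428) = true := by decide +kernel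

theorem d427 : ckF 72 427 1097 (nuT 427) 549 4662 4653 11 (cert 427 CL427) (cert 428 CL428) (cert 429 CL429) = true := by decide +kernel

theorem d428 : ckF 72 428 1099 (nuT 428) 550 4664 4654 11 (cert 428 CL428) (cert 429 CL429) (cert 430 CL430) = true := by decide +kernel

theorem d429 : ckF 72 429 1101 (nuT 429) 551 4665 4655 11 (cert 429 CL429) (cert 430 CL430) (cert 431 CL431) = true := by decide +kernel

end Pool.Agent.MP_9da1e3_co
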