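import Pool.Agent.Lib.MP_9da1e3_co.KcE430
import Pool.Agent.Lib.MP_9da1e3_co.KcE440
import Pool.Agent.Lib.MP_9da1e3_co.Kd0

set_option maxRecDepth 100000

namespace Pool.Agent.MP_9da1e3_co

theorem d430 : ckF 72 430 1105 (nuT 430) 553 4666 4657 11 (cert 430 CL430) (cert 431 CL431) (cert 432 CL432) = true := by decide +kernel

theorem d431 : ckF 72 431 1107 (nuT 431) 554 4668 4658 11 (cert 431 CL431) (cert 432 CL432) (cert 433 CL433) = true := by decide +kernel

theorem d432 : ckF 72 432 1109 (nuT 432) 555 4669 4660 11 (cert 432 CL432) (cert 433 CL433) (cert 434 CL434) = true := by decide +kernel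

theorem d433 : ckF 72 433 1111 (nuT 433) 556 4670 4661 11 (cert 433 CL433) (cert 434 CL434) (cert 435 CL435) = true := by decide +kernel

theorem d434 : ckF 72 434 1115 (nuT 434) 558 4672 4662 11 (cert 434 CL434) (cert 435 CL435) (cert 436 CL436) = true := by decide +kernel

theorem d435 : ckF 72 435 1117 (nuT 435) 559 4673 4664 11 (cert 435 CL435) (cert 436 CL436) (cert 437 CL437) = true := by decide +kernel

theorem d436 : ckF 72 436 1119 (nuT 436) 560 4674 4665 11 (cert 436 CL436) (cert 437 CL437) (cert 438 CL438) = true := by decide +kernel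

theorem d437 : ckF 72 437 1121 (nuT 437) 561 4676 4666 11 (cert 437 CL437) (cert 438 CL438) (cert 439 CL439) = true := by decide +kernel

theorem d438 : ckF 72 438 1125 (nuT 438) 563 4677 4668 11 (cert 438 CL438) (cert 439 CL439) (cert 440 CL440) = true := by decide +kernel

theorem d439 : ckF 72 439 1127 (nuT 439) 564 4678 4669 11 (cert 439 CL439) (cert 440 CL440) (cert 441 CL441) = true := by decide +kernel

end Pool.Agent.MP_9da1e3_co
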