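import Pool.Agent.Lib.MP_9da1e3_co.KcE440
import Pool.Agent.Lib.MP_9da1e3_co.KcE450
import Pool.Agent.Lib.MP_9da1e3_co.Kd0

set_option maxRecDepth 100000

namespace Pool.Agent.MP_9da1e3_co

theorem d440 : ckF 72 440 1129 (nuT 440) 565 4680 4670 11 (cert 440 CL440) (cert 441 CL441) (cert 442 CL442) = true := by decide +kernel

theorem d441 : ckF 72 441 1131 (nuT 441) 566 4681 4672 11 (cert 441 CL441) (cert 442 CL442) (cert 443 CL443) = true := by decide +kernel

theorem d442 : ckF 72 442 1135 (nuT 442) 568 4682 4673 11 (cert 442 CL442) (cert 443 CL443) (cert 444 CL444) = true := by decide +kernel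

theorem d443 : ckF 72 443 1137 (nuT 443) 569 4684 4674 11 (cert 443 CL443) (cert 444 CL444) (cert 445 CL445) = true := by decide +kernel

theorem d444 : ckF 72 444 1139 (nuT 444) 570 4685 4676 11 (cert 444 CL444) (cert 445 CL445) (cert 446 CL446) = true := by decide +kernel

theorem d445 : ckF 72 445 1141 (nuT 445) 571 4686 4677 11 (cert 445 CL445) (cert 446 CL446) (cert 447 CL447) = true := by decide +kernel

theorem d446 : ckF 72 446 1145 (nuT 446) 573 4688 4678 11 (cert 446 CL446) (cert 447 CL447) (cert 448 CL448) = true := by decide +kernel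

theorem d447 : ckF 72 447 1147 (nuT 447) 574 4689 4680 11 (cert 447 CL447) (cert 448 CL448) (cert 449 CL449) = true := by decide +kernel

theorem d448 : ckF 72 448 1149 (nuT 448) 575 4690 4681 11 (cert 448 CL448) (cert 449 CL449) (cert 450 CL450) = true := by decide +kernel

theorem d449 : ckF 72 449 1151 (nuT 449) 576 4692 4682 11 (cert 449 CL449) (cert 450 CL450) (cert 451 CL451) = true := by decide +kernel

end Pool.Agent.MP_9da1e3_co
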