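import Pool.Agent.Lib.MP_9da1e3_co.KcE450
import Pool.Agent.Lib.MP_9da1e3_co.KcE460
import Pool.Agent.Lib.MP_9da1e3_co.Kd0

set_option maxRecDepth 100000

namespace Pool.Agent.MP_9da1e3_co

theorem d450 : ckF 72 450 1155 (nuT 450) 578 4693 4684 11 (cert 450 CL450) (cert 451 CL451) (cert 452 CL452) = true := by decide +kernel

theorem d451 : ckF 72 451 1157 (nuT 451) 579 4694 4685 11 (cert 451 CL451) (cert 452 CL452) (cert 453 CL453) = true := by decide +kernel

theorem d452 : ckF 72 452 1159 (nuT 452) 580 4695 4686 11 (cert 452 CL452) (cert 453 CL453) (cert 454 CL454) = true := by decide +kernel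

theorem d453 : ckF 72 453 1161 (nuT 453) 581 4697 4688 11 (cert 453 CL453) (cert 454 CL454) (cert 455 CL455) = true := by decide +kernel

theorem d454 : ckF 72 454 1165 (nuT 454) 583 4698 4689 11 (cert 454 CL454) (cert 455 CL455) (cert 456 CL456) = true := by decide +kernel

theorem d455 : ckF 72 455 1167 (nuT 455) 584 4699 4690 11 (cert 455 CL455) (cert 456 CL456) (cert 457 CL457) = true := by decide +kernel

theorem d456 : ckF 72 456 1169 (nuT 456) 585 4701 4691 11 (cert 456 CL456) (cert 457 CL457) (cert 458 CL458) = true := by decide +kernel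

theorem d457 : ckF 72 457 1171 (nuT 457) 586 4702 4693 11 (cert 457 CL457) (cert 458 CL458) (cert 459 CL459) = true := by decide +kernel

theorem d458 : ckF 72 458 1175 (nuT 458) 588 4703 4694 11 (cert 458 CL458) (cert 459 CL459) (cert 460 CL460) = true := by decide +kernel

theorem d459 : ckF 72 459 1177 (nuT 459) 589 4704 4695 11 (cert 459 CL459) (cert 460 CL460) (cert 461 CL461) = true := by decide +kernel

end Pool.Agent.MP_9da1e3_co
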