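import Pool.Agent.Lib.MP_9da1e3_co.KcE460
import Pool.Agent.Lib.MP_9da1e3_co.KcE470
import Pool.Agent.Lib.MP_9da1e3_co.Kd0

set_option maxRecDepth 100000

namespace Pool.Agent.MP_9da1e3_co

theorem d460 : ckF 72 460 1179 (nuT 460) 590 4706 4697 11 (cert 460 CL460) (cert 461 CL461) (cert 462 CL462) = true := by decide +kernel

theorem d461 : ckF 72 461 1181 (nuT 461) 591 4707 4698 11 (cert 461 CL461) (cert 462 CL462) (cert 463 CL463) = true := by decide +kernel

theorem d462 : ckF 72 462 1185 (nuT 462) 593 4708 4699 11 (cert 462 CL462) (cert 463 CL463) (cert 464 CL464) = true := by decide +kernel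

theorem d463 : ckF 72 463 1187 (nuT 463) 594 4709 4700 11 (cert 463 CL463) (cert 464 CL464) (cert 465 CL465) = true := by decide +kernel

theorem d464 : ckF 72 464 1189 (nuT 464) 595 4711 4702 11 (cert 464 CL464) (cert 465 CL465) (cert 466 CL466) = true := by decide +kernel

theorem d465 : ckF 72 465 1191 (nuT 465) 596 4712 4703 11 (cert 465 CL465) (cert 466 CL466) (cert 467 CL467) = true := by decide +kernel

theorem d466 : ckF 72 466 1195 (nuT 466) 598 4713 4704 11 (cert 466 CL466) (cert 467 CL467) (cert 468 CL468) = true := by decide +kernel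

theorem d467 : ckF 72 467 1197 (nuT 467) 599 4714 4705 11 (cert 467 CL467) (cert 468 CL468) (cert 469 CL469) = true := by decide +kernel

theorem d468 : ckF 72 468 1199 (nuT 468) 600 4715 4707 11 (cert 468 CL468) (cert 469 CL469) (cert 470 CL470) = true := by decide +kernel

theorem d469 : ckF 72 469 1201 (nuT 469) 601 4717 4708 11 (cert 469 CL469) (cert 470 CL470) (cert 471 CL471) = true := by decide +kernel

end Pool.Agent.MP_9da1e3_co
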