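import Pool.Agent.Lib.MP_9da1e3_co.KcE470
import Pool.Agent.Lib.MP_9da1e3_co.KcE480
import Pool.Agent.Lib.MP_9da1e3_co.Kd0

set_option maxRecDepth 100000

namespace Pool.Agent.MP_9da1e3_co

theorem d470 : ckF 72 470 1205 (nuT 470) 603 4718 4709 11 (cert 470 CL470) (cert 471 CL471) (cert 472 CL472) = true := by decide +kernel

theorem d471 : ckF 72 471 1207 (nuT 471) 604 4719 4710 11 (cert 471 CL471) (cert 472 CL472) (cert 473 CL473) = true := by decide +kernel

theorem d472 : ckF 72 472 1209 (nuT 472) 605 4720 4712 11 (cert 472 CL472) (cert 473 CL473) (cert 474 CL474) = true := by decide +kernel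

theorem d473 : ckF 72 473 1211 (nuT 473) 606 4722 4713 11 (cert 473 CL473) (cert 474 CL474) (cert 475 CL475) = true := by decide +kernel

theorem d474 : ckF 72 474 1215 (nuT 474) 608 4723 4714 11 (cert 474 CL474) (cert 475 CL475) (cert 476 CL476) = true := by decide +kernel

theorem d475 : ckF 72 475 1217 (nuT 475) 609 4724 4715 11 (cert 475 CL475) (cert 476 CL476) (cert 477 CL477) = true := by decide +kernel

theorem d476 : ckF 72 476 1219 (nuT 476) 610 4725 4716 11 (cert 476 CL476) (cert 477 CL477) (cert 478 CL478) = true := by decide +kernel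

theorem d477 : ckF 72 477 1221 (nuT 477) 611 4726 4718 11 (cert 477 CL477) (cert 478 CL478) (cert 479 CL479) = true := by decide +kernel

theorem d478 : ckF 72 478 1225 (nuT 478) 613 4728 4719 11 (cert 478 CL478) (cert 479 CL479) (cert 480 CL480) = true := by decide +kernel

theorem d479 : ckF 72 479 1227 (nuT 479) 614 4729 4720 11 (cert 479 CL479) (cert 480 CL480) (cert 481 CL481) = true := by decide +kernel

end Pool.Agent.MP_9da1e3_co
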