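import Pool.Agent.Lib.MP_9da1e3_co.KcE480
import Pool.Agent.Lib.MP_9da1e3_co.KcE490
import Pool.Agent.Lib.MP_9da1e3_co.Kd0

set_option maxRecDepth 100000

namespace Pool.Agent.MP_9da1e3_co

theorem d480 : ckF 72 480 1229 (nuT 480) 615 4730 4721 11 (cert 480 CL480) (cert 481 CL481) (cert 482 CL482) = true := by decide +kernel

theorem d481 : ckF 72 481 1231 (nuT 481) 616 4731 4722 11 (cert 481 CL481) (cert 482 CL482) (cert 483 CL483) = true := by decide +kernel

theorem d482 : ckF 72 482 1235 (nuT 482) 618 4732 4724 11 (cert 482 CL482) (cert 483 CL483) (cert 484 CL484) = true := by decide +kernel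

theorem d483 : ckF 72 483 1237 (nuT 483) 619 4733 4725 11 (cert 483 CL483) (cert 484 CL484) (cert 485 CL485) = true := by decide +kernel

theorem d484 : ckF 72 484 1239 (nuT 484) 620 4735 4726 11 (cert 484 CL484) (cert 485 CL485) (cert 486 CL486) = true := by decide +kernel

theorem d485 : ckF 72 485 1241 (nuT 485) 621 4736 4727 11 (cert 485 CL485) (cert 486 CL486) (cert 487 CL487) = true := by decide +kernel

theorem d486 : ckF 72 486 1245 (nuT 486) 623 4737 4728 11 (cert 486 CL486) (cert 487 CL487) (cert 488 CL488) = true := by decide +kernel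

theorem d487 : ckF 72 487 1247 (nuT 487) 624 4738 4730 11 (cert 487 CL487) (cert 488 CL488) (cert 489 CL489) = true := by decide +kernel

theorem d488 : ckF 72 488 1249 (nuT 488) 625 4739 4731 11 (cert 488 CL488) (cert 489 CL489) (cert 490 CL490) = true := by decide +kernel

theorem d489 : ckF 72 489 1251 (nuT 489) 626 4740 4732 11 (cert 489 CL489) (cert 490 CL490) (cert 491 CL491) = true := by decide +kernel

end Pool.Agent.MP_9da1e3_co
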