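import Pool.Agent.Lib.MP_9da1e3_co.KcE490
import Pool.Agent.Lib.MP_9da1e3_co.KcE500
import Pool.Agent.Lib.MP_9da1e3_co.Kd0

set_option maxRecDepth 100000

namespace Pool.Agent.MP_9da1e3_co

theorem d490 : ckF 72 490 1255 (nuT 490) 628 4742 4733 11 (cert 490 CL490) (cert 491 CL491) (cert 492 CL492) = true := by decide +kernel

theorem d491 : ckF 72 491 1257 (nuT 491) 629 4743 4734 11 (cert 491 CL491) (cert 492 CL492) (cert 493 CL493) = true := by decide +kernel

theorem d492 : ckF 72 492 1259 (nuT 492) 630 4744 4735 11 (cert 492 CL492) (cert 493 CL493) (cert 494 CL494) = true := by decide +kernel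

theorem d493 : ckF 72 493 1261 (nuT 493) 631 4745 4737 11 (cert 493 CL493) (cert 494 CL494) (cert 495 CL495) = true := by decide +kernel

theorem d494 : ckF 72 494 1265 (nuT 494) 633 4746 4738 11 (cert 494 CL494) (cert 495 CL495) (cert 496 CL496) = true := by decide +kernel

theorem d495 : ckF 72 495 1267 (nuT 495) 634 4747 4739 11 (cert 495 CL495) (cert 496 CL496) (cert 497 CL497) = true := by decide +kernel

theorem d496 : ckF 72 496 1269 (nuT 496) 635 4748 4740 11 (cert 496 CL496) (cert 497 CL497) (cert 498 CL498) = true := by decide +kernel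

theorem d497 : ckF 72 497 1271 (nuT 497) 636 4750 4741 11 (cert 497 CL497) (cert 498 CL498) (cert 499 CL499) = true := by decide +kernel

theorem d498 : ckF 72 498 1275 (nuT 498) 638 4751 4742 11 (cert 498 CL498) (cert 499 CL499) (cert 500 CL500) = true := by decide +kernel

theorem d499 : ckF 72 499 1277 (nuT 499) 639 4752 4743 11 (cert 499 CL499) (cert 500 CL500) (cert 501 CL501) = true := by decide +kernel

end Pool.Agent.MP_9da1e3_co
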