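import Pool.Agent.Lib.MP_9da1e3_co.KcH
import Pool.Agent.Lib.MP_9da1e3_co.Kd0

set_option maxRecDepth 100000

namespace Pool.Agent.MP_9da1e3_co

theorem d5 : ckF 200 5 71 (nuT 5) 36 3786 3230 7 CH5 CH6 CH7 = true := by decide +kernel

theorem d6 : ckF 200 6 71 (nuT 6) 36 3876 3295 7 CH6 CH7 CH8 = true := by decide +kernel

theorem d7 : ckF 200 7 71 (nuT 7) 36 3844 3276 7 CH7 CH8 CH9 = true := by decide +kernel

theorem d8 : ckF 200 8 71 (nuT 8) 36 3745 3209 7 CH8 CH9 CH10 = true := by decide +kernel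

theorem d9 : ckF 200 9 71 (nuT 9) 36 3610 3114 7 CH9 CH10 CH11 = true := by decide +kernel

theorem d10 : ckF 200 10 71 (nuT 10) 36 3460 3004 7 CH10 CH11 CH12 = true := by decide +kernel

theorem d11 : ckF 200 11 73 (nuT 11) 37 3398 2973 7 CH11 CH12 CH13 = true := by decide +kernel

theorem d12 : ckF 200 12 75 (nuT 12) 38 3335 2938 7 CH12 CH13 CH14 = true := by decide +kernel

theorem d13 : ckF 200 13 79 (nuT 13) 40 3363 2984 7 CH13 CH14 CH15 = true := by decide +kernel

theorem d14 : ckF 200 14 81 (nuT 14) 41 3302 2944 7 CH14 CH15 CH16 = true := by decide +kernel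

theorem d15 : ckF 200 15 85 (nuT 15) 43 3329 2986 7 CH15 CH16 CH17 = true := by decide +kernel

theorem d16 : ckF 200 16 87 (nuT 16) 44 3270 2945 7 CH16 CH17 CH18 = true := by decide +kernel

theorem d17 : ckF 200 17 91 (nuT 17) 46 3297 2984 7 CH17 CH18 CH19 = true := by decide +kernel

theorem d18 : ckF 200 18 93 (nuT 18) 47 3241 2944 7 CH18 CH19 CH20 = true := by decide +kernel

theorem d19 : ckF 200 19 97 (nuT 19) 49 3268 2981 7 CH19 CH20 CH21 = true := by decide +kernel

theorem d20 : ckF 200 20 99 (nuT 20) 50 3216 2943 7 CH20 CH21 CH22 = true := by decide +kernel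

theorem d21 : ckF 200 21 103 (nuT 21) 52 3243 2978 7 CH21 CH22 CH23 = true := by decide +kernel

theorem d22 : ckF 200 22 105 (nuT 22) 53 3195 2943 7 CH22 CH23 CH24 = true := by decide +kernel

theorem d23 : ckF 200 23 109 (nuT 23) 55 3222 2977 7 CH23 CH24 CH25 = true := by decide +kernel

theorem d24 : ckF 200 24 111 (nuT 24) 56 3177 2944 7 CH24 CH25 CH26 = true := by decide +kernel

theorem d25 : ckF 200 25 115 (nuT 25) 58 3204 2978 7 CH25 CH26 CH27 = true := by decide +kernel

theorem d26 : ckF 200 26 117 (nuT 26) 59 3163 2949 7 CH26 CH27 CH28 = true := by decide +kernel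

theorem d27 : ckF 200 27 121 (nuT 27) 61 3191 2981 7 CH27 CH28 CH29 = true := by decide +kernel

theorem d28 : ckF 200 28 123 (nuT 28) 62 3154 2955 7 CH28 CH29 CH30 = true := by decide +kernel

theorem d29 : ckF 200 29 127 (nuT 29) 64 3181 2987 7 CH29 CH30 CH31 = true := by decide +kernel

theorem d30 : ckF 200 30 129 (nuT 30) 65 3148 2964 8 CH30 CH31 CH32 = true := by decide +kernel

theorem d31 : ckF 200 31 133 (nuT 31) 67 3175 2995 8 CH31 CH32 CH33 = true := by decide +kernel

theorem d32 : ckF 200 32 135 (nuT 32) 68 3145 2976 8 CH32 CH33 CH34 = true := by decide +kernel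

theorem d33 : ckF 200 33 139 (nuT 33) 70 3172 3006 8 CH33 CH34 CH35 = true := by decide +kernel

theorem d34 : ckF 200 34 141 (nuT 34) 71 3146 2989 8 CH34 CH35 CH36 = true := by decide +kernel

theorem d35 : ckF 200 35 145 (nuT 35) 73 3173 3018 8 CH35 CH36 CH37 = true := by decide +kernel

theorem d36 : ckF 200 36 147 (nuT 36) 74 3150 3005 8 CH36 CH37 CH38 = true := by decide +kernel

theorem d37 : ckF 200 37 151 (nuT 37) 76 3176 3033 8 CH37 CH38 CH39 = true := by decide +kernel

theorem d38 : ckF 200 38 153 (nuT 38) 77 3157 3022 8 CH38 CH39 CH40 = true := by decide +kernel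

theorem d39 : ckF 200 39 157 (nuT 39) 79 3182 3049 8 CH39 CH40 CH41 = true := by decide +kernel

end Pool.Agent.MP_9da1e3_co
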