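import Pool.Agent.Lib.MP_9da1e3_co.KcE50
import Pool.Agent.Lib.MP_9da1e3_co.KcE60
import Pool.Agent.Lib.MP_9da1e3_co.Kd0

set_option maxRecDepth 100000

namespace Pool.Agent.MP_9da1e3_co

theorem d50 : ckF 72 50 189 (nuT 50) 95 3232 3137 8 (cert 50 CL50) (cert 51 CL51) (cert 52 CL52) = true := by decide +kernel

theorem d51 : ckF 72 51 193 (nuT 51) 97 3253 3160 8 (cert 51 CL51) (cert 52 CL52) (cert 53 CL53) = true := by decide +kernel

theorem d52 : ckF 72 52 195 (nuT 52) 98 3247 3157 8 (cert 52 CL52) (cert 53 CL53) (cert 54 CL54) = true := by decide +kernel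

theorem d53 : ckF 72 53 199 (nuT 53) 100 3268 3179 8 (cert 53 CL53) (cert 54 CL54) (cert 55 CL55) = true := by decide +kernel

theorem d54 : ckF 72 54 201 (nuT 54) 101 3263 3177 8 (cert 54 CL54) (cert 55 CL55) (cert 56 CL56) = true := by decide +kernel

theorem d55 : ckF 72 55 205 (nuT 55) 103 3283 3198 8 (cert 55 CL55) (cert 56 CL56) (cert 57 CL57) = true := by decide +kernel

theorem d56 : ckF 72 56 207 (nuT 56) 104 3279 3197 8 (cert 56 CL56) (cert 57 CL57) (cert 58 CL58) = true := by decide +kernel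

theorem d57 : ckF 72 57 211 (nuT 57) 106 3299 3218 8 (cert 57 CL57) (cert 58 CL58) (cert 59 CL59) = true := by decide +kernel

theorem d58 : ckF 72 58 213 (nuT 58) 107 3296 3217 8 (cert 58 CL58) (cert 59 CL59) (cert 60 CL60) = true := by decide +kernel

theorem d59 : ckF 72 59 217 (nuT 59) 109 3315 3237 8 (cert 59 CL59) (cert 60 CL60) (cert 61 CL61) = true := by decide +kernel

end Pool.Agent.MP_9da1e3_co
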