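import Pool.Agent.Lib.MP_9da1e3_co.KcE500
import Pool.Agent.Lib.MP_9da1e3_co.KcE510
import Pool.Agent.Lib.MP_9da1e3_co.Kd0

set_option maxRecDepth 100000

namespace Pool.Agent.MP_9da1e3_co

theorem d500 : ckF 72 500 1279 (nuT 500) 640 4753 4745 11 (cert 500 CL500) (cert 501 CL501) (cert 502 CL502) = true := by decide +kernel

theorem d501 : ckF 72 501 1281 (nuT 501) 641 4754 4746 11 (cert 501 CL501) (cert 502 CL502) (cert 503 CL503) = true := by decide +kernel

theorem d502 : ckF 72 502 1285 (nuT 502) 643 4755 4747 11 (cert 502 CL502) (cert 503 CL503) (cert 504 CL504) = true := by decide +kernel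

theorem d503 : ckF 72 503 1287 (nuT 503) 644 4756 4748 11 (cert 503 CL503) (cert 504 CL504) (cert 505 CL505) = true := by decide +kernel

theorem d504 : ckF 72 504 1289 (nuT 504) 645 4757 4749 11 (cert 504 CL504) (cert 505 CL505) (cert 506 CL506) = true := by decide +kernel

theorem d505 : ckF 72 505 1291 (nuT 505) 646 4759 4750 11 (cert 505 CL505) (cert 506 CL506) (cert 507 CL507) = true := by decide +kernel

theorem d506 : ckF 72 506 1295 (nuT 506) 648 4760 4751 11 (cert 506 CL506) (cert 507 CL507) (cert 508 CL508) = true := by decide +kernel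

theorem d507 : ckF 72 507 1297 (nuT 507) 649 4761 4752 11 (cert 507 CL507) (cert 508 CL508) (cert 509 CL509) = true := by decide +kernel

theorem d508 : ckF 72 508 1299 (nuT 508) 650 4762 4754 11 (cert 508 CL508) (cert 509 CL509) (cert 510 CL510) = true := by decide +kernel

theorem d509 : ckF 72 509 1301 (nuT 509) 651 4763 4755 11 (cert 509 CL509) (cert 510 CL510) (cert 511 CL511) = true := by decide +kernel

end Pool.Agent.MP_9da1e3_co
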