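import Pool.Agent.Lib.MP_9da1e3_co.KcE510
import Pool.Agent.Lib.MP_9da1e3_co.KcE520
import Pool.Agent.Lib.MP_9da1e3_co.Kd0

set_option maxRecDepth 100000

namespace Pool.Agent.MP_9da1e3_co

theorem d510 : ckF 72 510 1305 (nuT 510) 653 4764 4756 11 (cert 510 CL510) (cert 511 CL511) (cert 512 CL512) = true := by decide +kernel

theorem d511 : ckF 72 511 1307 (nuT 511) 654 4765 4757 11 (cert 511 CL511) (cert 512 CL512) (cert 513 CL513) = true := by decide +kernel

theorem d512 : ckF 72 512 1309 (nuT 512) 655 4766 4758 11 (cert 512 CL512) (cert 513 CL513) (cert 514 CL514) = true := by decide +kernel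

theorem d513 : ckF 72 513 1311 (nuT 513) 656 4767 4759 11 (cert 513 CL513) (cert 514 CL514) (cert 515 CL515) = true := by decide +kernel

theorem d514 : ckF 72 514 1315 (nuT 514) 658 4768 4760 11 (cert 514 CL514) (cert 515 CL515) (cert 516 CL516) = true := by decide +kernel

theorem d515 : ckF 72 515 1317 (nuT 515) 659 4769 4761 11 (cert 515 CL515) (cert 516 CL516) (cert 517 CL517) = true := by decide +kernel

theorem d516 : ckF 72 516 1319 (nuT 516) 660 4771 4762 11 (cert 516 CL516) (cert 517 CL517) (cert 518 CL518) = true := by decide +kernel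

theorem d517 : ckF 72 517 1321 (nuT 517) 661 4772 4763 11 (cert 517 CL517) (cert 518 CL518) (cert 519 CL519) = true := by decide +kernel

theorem d518 : ckF 72 518 1325 (nuT 518) 663 4773 4765 11 (cert 518 CL518) (cert 519 CL519) (cert 520 CL520) = true := by decide +kernel

theorem d519 : ckF 72 519 1327 (nuT 519) 664 4774 4766 11 (cert 519 CL519) (cert 520 CL520) (cert 521 CL521) = true := by decide +kernel

end Pool.Agent.MP_9da1e3_co
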