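import Pool.Agent.Lib.MP_9da1e3_co.KcE520
import Pool.Agent.Lib.MP_9da1e3_co.KcE530
import Pool.Agent.Lib.MP_9da1e3_co.Kd0

set_option maxRecDepth 100000

namespace Pool.Agent.MP_9da1e3_co

theorem d520 : ckF 72 520 1329 (nuT 520) 665 4775 4767 11 (cert 520 CL520) (cert 521 CL521) (cert 522 CL522) = true := by decide +kernel

theorem d521 : ckF 72 521 1331 (nuT 521) 666 4776 4768 11 (cert 521 CL521) (cert 522 CL522) (cert 523 CL523) = true := by decide +kernel

theorem d522 : ckF 72 522 1335 (nuT 522) 668 4777 4769 11 (cert 522 CL522) (cert 523 CL523) (cert 524 CL524) = true := by decide +kernel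

theorem d523 : ckF 72 523 1337 (nuT 523) 669 4778 4770 11 (cert 523 CL523) (cert 524 CL524) (cert 525 CL525) = true := by decide +kernel

theorem d524 : ckF 72 524 1339 (nuT 524) 670 4779 4771 11 (cert 524 CL524) (cert 525 CL525) (cert 526 CL526) = true := by decide +kernel

theorem d525 : ckF 72 525 1341 (nuT 525) 671 4780 4772 11 (cert 525 CL525) (cert 526 CL526) (cert 527 CL527) = true := by decide +kernel

theorem d526 : ckF 72 526 1345 (nuT 526) 673 4781 4773 11 (cert 526 CL526) (cert 527 CL527) (cert 528 CL528) = true := by decide +kernel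

theorem d527 : ckF 72 527 1347 (nuT 527) 674 4782 4774 11 (cert 527 CL527) (cert 528 CL528) (cert 529 CL529) = true := by decide +kernel

theorem d528 : ckF 72 528 1349 (nuT 528) 675 4783 4775 11 (cert 528 CL528) (cert 529 CL529) (cert 530 CL530) = true := by decide +kernel

theorem d529 : ckF 72 529 1351 (nuT 529) 676 4784 4776 11 (cert 529 CL529) (cert 530 CL530) (cert 531 CL531) = true := by decide +kernel

end Pool.Agent.MP_9da1e3_co
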