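import Pool.Agent.Lib.MP_9da1e3_co.KcE530
import Pool.Agent.Lib.MP_9da1e3_co.KcE540
import Pool.Agent.Lib.MP_9da1e3_co.Kd0

set_option maxRecDepth 100000

namespace Pool.Agent.MP_9da1e3_co

theorem d530 : ckF 72 530 1355 (nuT 530) 678 4785 4777 11 (cert 530 CL530) (cert 531 CL531) (cert 532 CL532) = true := by decide +kernel

theorem d531 : ckF 72 531 1357 (nuT 531) 679 4786 4778 11 (cert 531 CL531) (cert 532 CL532) (cert 533 CL533) = true := by decide +kernel

theorem d532 : ckF 72 532 1359 (nuT 532) 680 4787 4779 11 (cert 532 CL532) (cert 533 CL533) (cert 534 CL534) = true := by decide +kernel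

theorem d533 : ckF 72 533 1361 (nuT 533) 681 4788 4781 11 (cert 533 CL533) (cert 534 CL534) (cert 535 CL535) = true := by decide +kernel

theorem d534 : ckF 72 534 1365 (nuT 534) 683 4790 4782 11 (cert 534 CL534) (cert 535 CL535) (cert 536 CL536) = true := by decide +kernel

theorem d535 : ckF 72 535 1367 (nuT 535) 684 4791 4783 11 (cert 535 CL535) (cert 536 CL536) (cert 537 CL537) = true := by decide +kernel

theorem d536 : ckF 72 536 1369 (nuT 536) 685 4792 4784 11 (cert 536 CL536) (cert 537 CL537) (cert 538 CL538) = true := by decide +kernel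

theorem d537 : ckF 72 537 1371 (nuT 537) 686 4793 4785 11 (cert 537 CL537) (cert 538 CL538) (cert 539 CL539) = true := by decide +kernel

theorem d538 : ckF 72 538 1375 (nuT 538) 688 4794 4786 11 (cert 538 CL538) (cert 539 CL539) (cert 540 CL540) = true := by decide +kernel

theorem d539 : ckF 72 539 1377 (nuT 539) 689 4795 4787 11 (cert 539 CL539) (cert 540 CL540) (cert 541 CL541) = true := by decide +kernel

end Pool.Agent.MP_9da1e3_co
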