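import Pool.Agent.Lib.MP_9da1e3_co.KcE540
import Pool.Agent.Lib.MP_9da1e3_co.KcE550
import Pool.Agent.Lib.MP_9da1e3_co.Kd0

set_option maxRecDepth 100000

namespace Pool.Agent.MP_9da1e3_co

theorem d540 : ckF 72 540 1379 (nuT 540) 690 4796 4788 11 (cert 540 CL540) (cert 541 CL541) (cert 542 CL542) = true := by decide +kernel

theorem d541 : ckF 72 541 1381 (nuT 541) 691 4797 4789 11 (cert 541 CL541) (cert 542 CL542) (cert 543 CL543) = true := by decide +kernel

theorem d542 : ckF 72 542 1385 (nuT 542) 693 4798 4790 11 (cert 542 CL542) (cert 543 CL543) (cert 544 CL544) = true := by decide +kernel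

theorem d543 : ckF 72 543 1387 (nuT 543) 694 4799 4791 11 (cert 543 CL543) (cert 544 CL544) (cert 545 CL545) = true := by decide +kernel

theorem d544 : ckF 72 544 1389 (nuT 544) 695 4800 4792 11 (cert 544 CL544) (cert 545 CL545) (cert 546 CL546) = true := by decide +kernel

theorem d545 : ckF 72 545 1391 (nuT 545) 696 4801 4793 11 (cert 545 CL545) (cert 546 CL546) (cert 547 CL547) = true := by decide +kernel

theorem d546 : ckF 72 546 1395 (nuT 546) 698 4802 4794 11 (cert 546 CL546) (cert 547 CL547) (cert 548 CL548) = true := by decide +kernel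

theorem d547 : ckF 72 547 1397 (nuT 547) 699 4803 4795 11 (cert 547 CL547) (cert 548 CL548) (cert 549 CL549) = true := by decide +kernel

theorem d548 : ckF 72 548 1399 (nuT 548) 700 4804 4796 11 (cert 548 CL548) (cert 549 CL549) (cert 550 CL550) = true := by decide +kernel

theorem d549 : ckF 72 549 1401 (nuT 549) 701 4805 4797 11 (cert 549 CL549) (cert 550 CL550) (cert 551 CL551) = true := by decide +kernel

end Pool.Agent.MP_9da1e3_co
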