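import Pool.Agent.Lib.MP_9da1e3_co.KcE550
import Pool.Agent.Lib.MP_9da1e3_co.KcE560
import Pool.Agent.Lib.MP_9da1e3_co.Kd0

set_option maxRecDepth 100000

namespace Pool.Agent.MP_9da1e3_co

theorem d550 : ckF 72 550 1405 (nuT 550) 703 4806 4798 11 (cert 550 CL550) (cert 551 CL551) (cert 552 CL552) = true := by decide +kernel

theorem d551 : ckF 72 551 1407 (nuT 551) 704 4807 4799 11 (cert 551 CL551) (cert 552 CL552) (cert 553 CL553) = true := by decide +kernel

theorem d552 : ckF 72 552 1409 (nuT 552) 705 4808 4800 11 (cert 552 CL552) (cert 553 CL553) (cert 554 CL554) = true := by decide +kernel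

theorem d553 : ckF 72 553 1411 (nuT 553) 706 4809 4801 11 (cert 553 CL553) (cert 554 CL554) (cert 555 CL555) = true := by decide +kernel

theorem d554 : ckF 72 554 1415 (nuT 554) 708 4810 4802 11 (cert 554 CL554) (cert 555 CL555) (cert 556 CL556) = true := by decide +kernel

theorem d555 : ckF 72 555 1417 (nuT 555) 709 4811 4803 11 (cert 555 CL555) (cert 556 CL556) (cert 557 CL557) = true := by decide +kernel

theorem d556 : ckF 72 556 1419 (nuT 556) 710 4812 4804 11 (cert 556 CL556) (cert 557 CL557) (cert 558 CL558) = true := by decide +kernel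

theorem d557 : ckF 72 557 1421 (nuT 557) 711 4813 4805 11 (cert 557 CL557) (cert 558 CL558) (cert 559 CL559) = true := by decide +kernel

theorem d558 : ckF 72 558 1425 (nuT 558) 713 4814 4806 11 (cert 558 CL558) (cert 559 CL559) (cert 560 CL560) = true := by decide +kernel

theorem d559 : ckF 72 559 1427 (nuT 559) 714 4814 4807 11 (cert 559 CL559) (cert 560 CL560) (cert 561 CL561) = true := by decide +kernel

end Pool.Agent.MP_9da1e3_co
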