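import Pool.Agent.Lib.MP_9da1e3_co.KcE560
import Pool.Agent.Lib.MP_9da1e3_co.KcE570
import Pool.Agent.Lib.MP_9da1e3_co.Kd0

set_option maxRecDepth 100000

namespace Pool.Agent.MP_9da1e3_co

theorem d560 : ckF 72 560 1429 (nuT 560) 715 4815 4808 11 (cert 560 CL560) (cert 561 CL561) (cert 562 CL562) = true := by decide +kernel

theorem d561 : ckF 72 561 1431 (nuT 561) 716 4816 4809 11 (cert 561 CL561) (cert 562 CL562) (cert 563 CL563) = true := by decide +kernel

theorem d562 : ckF 72 562 1435 (nuT 562) 718 4817 4810 11 (cert 562 CL562) (cert 563 CL563) (cert 564 CL564) = true := by decide +kernel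

theorem d563 : ckF 72 563 1437 (nuT 563) 719 4818 4811 11 (cert 563 CL563) (cert 564 CL564) (cert 565 CL565) = true := by decide +kernel

theorem d564 : ckF 72 564 1439 (nuT 564) 720 4819 4812 11 (cert 564 CL564) (cert 565 CL565) (cert 566 CL566) = true := by decide +kernel

theorem d565 : ckF 72 565 1441 (nuT 565) 721 4820 4813 11 (cert 565 CL565) (cert 566 CL566) (cert 567 CL567) = true := by decide +kernel

theorem d566 : ckF 72 566 1445 (nuT 566) 723 4821 4814 11 (cert 566 CL566) (cert 567 CL567) (cert 568 CL568) = true := by decide +kernel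

theorem d567 : ckF 72 567 1447 (nuT 567) 724 4822 4815 11 (cert 567 CL567) (cert 568 CL568) (cert 569 CL569) = true := by decide +kernel

theorem d568 : ckF 72 568 1449 (nuT 568) 725 4823 4816 11 (cert 568 CL568) (cert 569 CL569) (cert 570 CL570) = true := by decide +kernel

theorem d569 : ckF 72 569 1451 (nuT 569) 726 4824 4817 11 (cert 569 CL569) (cert 570 CL570) (cert 571 CL571) = true := by decide +kernel

end Pool.Agent.MP_9da1e3_co
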