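import Pool.Agent.Lib.MP_9da1e3_co.KcE570
import Pool.Agent.Lib.MP_9da1e3_co.KcE580
import Pool.Agent.Lib.MP_9da1e3_co.Kd0

set_option maxRecDepth 100000

namespace Pool.Agent.MP_9da1e3_co

theorem d570 : ckF 72 570 1455 (nuT 570) 728 4825 4818 11 (cert 570 CL570) (cert 571 CL571) (cert 572 CL572) = true := by decide +kernel

theorem d571 : ckF 72 571 1457 (nuT 571) 729 4826 4818 11 (cert 571 CL571) (cert 572 CL572) (cert 573 CL573) = true := by decide +kernel

theorem d572 : ckF 72 572 1459 (nuT 572) 730 4827 4819 11 (cert 572 CL572) (cert 573 CL573) (cert 574 CL574) = true := by decide +kernel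

theorem d573 : ckF 72 573 1461 (nuT 573) 731 4828 4820 11 (cert 573 CL573) (cert 574 CL574) (cert 575 CL575) = true := by decide +kernel

theorem d574 : ckF 72 574 1465 (nuT 574) 733 4829 4821 11 (cert 574 CL574) (cert 575 CL575) (cert 576 CL576) = true := by decide +kernel

theorem d575 : ckF 72 575 1467 (nuT 575) 734 4830 4822 11 (cert 575 CL575) (cert 576 CL576) (cert 577 CL577) = true := by decide +kernel

theorem d576 : ckF 72 576 1469 (nuT 576) 735 4831 4823 11 (cert 576 CL576) (cert 577 CL577) (cert 578 CL578) = true := by decide +kernel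

theorem d577 : ckF 72 577 1471 (nuT 577) 736 4832 4824 11 (cert 577 CL577) (cert 578 CL578) (cert 579 CL579) = true := by decide +kernel

theorem d578 : ckF 72 578 1475 (nuT 578) 738 4833 4825 11 (cert 578 CL578) (cert 579 CL579) (cert 580 CL580) = true := by decide +kernel

theorem d579 : ckF 72 579 1477 (nuT 579) 739 4833 4826 11 (cert 579 CL579) (cert 580 CL580) (cert 581 CL581) = true := by decide +kernel

end Pool.Agent.MP_9da1e3_co
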