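import Pool.Agent.Lib.MP_9da1e3_co.KcE580
import Pool.Agent.Lib.MP_9da1e3_co.KcE590
import Pool.Agent.Lib.MP_9da1e3_co.Kd0

set_option maxRecDepth 100000

namespace Pool.Agent.MP_9da1e3_co

theorem d580 : ckF 72 580 1479 (nuT 580) 740 4834 4827 11 (cert 580 CL580) (cert 581 CL581) (cert 582 CL582) = true := by decide +kernel

theorem d581 : ckF 72 581 1481 (nuT 581) 741 4835 4828 11 (cert 581 CL581) (cert 582 CL582) (cert 583 CL583) = true := by decide +kernel

theorem d582 : ckF 72 582 1485 (nuT 582) 743 4836 4829 11 (cert 582 CL582) (cert 583 CL583) (cert 584 CL584) = true := by decide +kernel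

theorem d583 : ckF 72 583 1487 (nuT 583) 744 4837 4830 11 (cert 583 CL583) (cert 584 CL584) (cert 585 CL585) = true := by decide +kernel

theorem d584 : ckF 72 584 1489 (nuT 584) 745 4838 4831 11 (cert 584 CL584) (cert 585 CL585) (cert 586 CL586) = true := by decide +kernel

theorem d585 : ckF 72 585 1491 (nuT 585) 746 4839 4832 11 (cert 585 CL585) (cert 586 CL586) (cert 587 CL587) = true := by decide +kernel

theorem d586 : ckF 72 586 1495 (nuT 586) 748 4840 4833 11 (cert 586 CL586) (cert 587 CL587) (cert 588 CL588) = true := by decide +kernel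

theorem d587 : ckF 72 587 1497 (nuT 587) 749 4841 4833 11 (cert 587 CL587) (cert 588 CL588) (cert 589 CL589) = true := by decide +kernel

theorem d588 : ckF 72 588 1499 (nuT 588) 750 4842 4834 11 (cert 588 CL588) (cert 589 CL589) (cert 590 CL590) = true := by decide +kernel

theorem d589 : ckF 72 589 1501 (nuT 589) 751 4843 4835 11 (cert 589 CL589) (cert 590 CL590) (cert 591 CL591) = true := by decide +kernel

end Pool.Agent.MP_9da1e3_co
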