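import Pool.Agent.Lib.MP_9da1e3_co.KcE590
import Pool.Agent.Lib.MP_9da1e3_co.KcE600
import Pool.Agent.Lib.MP_9da1e3_co.Kd0

set_option maxRecDepth 100000

namespace Pool.Agent.MP_9da1e3_co

theorem d590 : ckF 72 590 1505 (nuT 590) 753 4843 4836 11 (cert 590 CL590) (cert 591 CL591) (cert 592 CL592) = true := by decide +kernel

theorem d591 : ckF 72 591 1507 (nuT 591) 754 4844 4837 11 (cert 591 CL591) (cert 592 CL592) (cert 593 CL593) = true := by decide +kernel

theorem d592 : ckF 72 592 1509 (nuT 592) 755 4845 4838 11 (cert 592 CL592) (cert 593 CL593) (cert 594 CL594) = true := by decide +kernel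

theorem d593 : ckF 72 593 1511 (nuT 593) 756 4846 4839 11 (cert 593 CL593) (cert 594 CL594) (cert 595 CL595) = true := by decide +kernel

theorem d594 : ckF 72 594 1515 (nuT 594) 758 4847 4840 11 (cert 594 CL594) (cert 595 CL595) (cert 596 CL596) = true := by decide +kernel

theorem d595 : ckF 72 595 1517 (nuT 595) 759 4848 4841 11 (cert 595 CL595) (cert 596 CL596) (cert 597 CL597) = true := by decide +kernel

theorem d596 : ckF 72 596 1519 (nuT 596) 760 4849 4842 11 (cert 596 CL596) (cert 597 CL597) (cert 598 CL598) = true := by decide +kernel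

theorem d597 : ckF 72 597 1521 (nuT 597) 761 4850 4843 11 (cert 597 CL597) (cert 598 CL598) (cert 599 CL599) = true := by decide +kernel

theorem d598 : ckF 72 598 1525 (nuT 598) 763 4851 4843 11 (cert 598 CL598) (cert 599 CL599) (cert 600 CL600) = true := by decide +kernel

theorem d599 : ckF 72 599 1527 (nuT 599) 764 4852 4844 11 (cert 599 CL599) (cert 600 CL600) (cert 601 CL601) = true := by decide +kernel

end Pool.Agent.MP_9da1e3_co
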