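import Pool.Agent.Lib.MP_9da1e3_co.KcE60
import Pool.Agent.Lib.MP_9da1e3_co.KcE70
import Pool.Agent.Lib.MP_9da1e3_co.Kd0

set_option maxRecDepth 100000

namespace Pool.Agent.MP_9da1e3_co

theorem d60 : ckF 72 60 219 (nuT 60) 110 3312 3237 8 (cert 60 CL60) (cert 61 CL61) (cert 62 CL62) = true := by decide +kernel

theorem d61 : ckF 72 61 223 (nuT 61) 112 3331 3256 8 (cert 61 CL61) (cert 62 CL62) (cert 63 CL63) = true := by decide +kernel

theorem d62 : ckF 72 62 225 (nuT 62) 113 3329 3257 8 (cert 62 CL62) (cert 63 CL63) (cert 64 CL64) = true := by decide +kernel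

theorem d63 : ckF 72 63 229 (nuT 63) 115 3347 3275 8 (cert 63 CL63) (cert 64 CL64) (cert 65 CL65) = true := by decide +kernel

theorem d64 : ckF 72 64 231 (nuT 64) 116 3345 3276 8 (cert 64 CL64) (cert 65 CL65) (cert 66 CL66) = true := by decide +kernel

theorem d65 : ckF 72 65 235 (nuT 65) 118 3363 3294 8 (cert 65 CL65) (cert 66 CL66) (cert 67 CL67) = true := by decide +kernel

theorem d66 : ckF 72 66 237 (nuT 66) 119 3362 3295 8 (cert 66 CL66) (cert 67 CL67) (cert 68 CL68) = true := by decide +kernel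

theorem d67 : ckF 72 67 241 (nuT 67) 121 3379 3312 8 (cert 67 CL67) (cert 68 CL68) (cert 69 CL69) = true := by decide +kernel

theorem d68 : ckF 72 68 243 (nuT 68) 122 3378 3314 8 (cert 68 CL68) (cert 69 CL69) (cert 70 CL70) = true := by decide +kernel

theorem d69 : ckF 72 69 247 (nuT 69) 124 3395 3331 8 (cert 69 CL69) (cert 70 CL70) (cert 71 CL71) = true := by decide +kernel

end Pool.Agent.MP_9da1e3_co
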