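import Pool.Agent.Lib.MP_9da1e3_co.KcE600
import Pool.Agent.Lib.MP_9da1e3_co.KcE610
import Pool.Agent.Lib.MP_9da1e3_co.Kd0

set_option maxRecDepth 100000

namespace Pool.Agent.MP_9da1e3_co

theorem d600 : ckF 72 600 1529 (nuT 600) 765 4852 4845 11 (cert 600 CL600) (cert 601 CL601) (cert 602 CL602) = true := by decide +kernel

theorem d601 : ckF 72 601 1531 (nuT 601) 766 4853 4846 11 (cert 601 CL601) (cert 602 CL602) (cert 603 CL603) = true := by decide +kernel

theorem d602 : ckF 72 602 1535 (nuT 602) 768 4854 4847 11 (cert 602 CL602) (cert 603 CL603) (cert 604 CL604) = true := by decide +kernel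

theorem d603 : ckF 72 603 1537 (nuT 603) 769 4855 4848 11 (cert 603 CL603) (cert 604 CL604) (cert 605 CL605) = true := by decide +kernel

theorem d604 : ckF 72 604 1539 (nuT 604) 770 4856 4849 11 (cert 604 CL604) (cert 605 CL605) (cert 606 CL606) = true := by decide +kernel

theorem d605 : ckF 72 605 1541 (nuT 605) 771 4857 4850 11 (cert 605 CL605) (cert 606 CL606) (cert 607 CL607) = true := by decide +kernel

theorem d606 : ckF 72 606 1545 (nuT 606) 773 4858 4851 11 (cert 606 CL606) (cert 607 CL607) (cert 608 CL608) = true := by decide +kernel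

theorem d607 : ckF 72 607 1547 (nuT 607) 774 4859 4851 11 (cert 607 CL607) (cert 608 CL608) (cert 609 CL609) = true := by decide +kernel

theorem d608 : ckF 72 608 1549 (nuT 608) 775 4859 4852 11 (cert 608 CL608) (cert 609 CL609) (cert 610 CL610) = true := by decide +kernel

theorem d609 : ckF 72 609 1551 (nuT 609) 776 4860 4853 11 (cert 609 CL609) (cert 610 CL610) (cert 611 CL611) = true := by decide +kernel

end Pool.Agent.MP_9da1e3_co
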