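import Pool.Agent.Lib.MP_9da1e3_co.KcE610
import Pool.Agent.Lib.MP_9da1e3_co.KcE620
import Pool.Agent.Lib.MP_9da1e3_co.Kd0

set_option maxRecDepth 100000

namespace Pool.Agent.MP_9da1e3_co

theorem d610 : ckF 72 610 1555 (nuT 610) 778 4861 4854 11 (cert 610 CL610) (cert 611 CL611) (cert 612 CL612) = true := by decide +kernel

theorem d611 : ckF 72 611 1557 (nuT 611) 779 4862 4855 11 (cert 611 CL611) (cert 612 CL612) (cert 613 CL613) = true := by decide +kernel

theorem d612 : ckF 72 612 1559 (nuT 612) 780 4863 4856 11 (cert 612 CL612) (cert 613 CL613) (cert 614 CL614) = true := by decide +kernel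

theorem d613 : ckF 72 613 1561 (nuT 613) 781 4864 4857 11 (cert 613 CL613) (cert 614 CL614) (cert 615 CL615) = true := by decide +kernel

theorem d614 : ckF 72 614 1565 (nuT 614) 783 4865 4858 11 (cert 614 CL614) (cert 615 CL615) (cert 616 CL616) = true := by decide +kernel

theorem d615 : ckF 72 615 1567 (nuT 615) 784 4865 4858 11 (cert 615 CL615) (cert 616 CL616) (cert 617 CL617) = true := by decide +kernel

theorem d616 : ckF 72 616 1569 (nuT 616) 785 4866 4859 11 (cert 616 CL616) (cert 617 CL617) (cert 618 CL618) = true := by decide +kernel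

theorem d617 : ckF 72 617 1571 (nuT 617) 786 4867 4860 11 (cert 617 CL617) (cert 618 CL618) (cert 619 CL619) = true := by decide +kernel

theorem d618 : ckF 72 618 1575 (nuT 618) 788 4868 4861 11 (cert 618 CL618) (cert 619 CL619) (cert 620 CL620) = true := by decide +kernel

theorem d619 : ckF 72 619 1577 (nuT 619) 789 4869 4862 11 (cert 619 CL619) (cert 620 CL620) (cert 621 CL621) = true := by decide +kernel

end Pool.Agent.MP_9da1e3_co
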