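import Pool.Agent.Lib.MP_9da1e3_co.KcE620
import Pool.Agent.Lib.MP_9da1e3_co.KcE630
import Pool.Agent.Lib.MP_9da1e3_co.Kd0

set_option maxRecDepth 100000

namespace Pool.Agent.MP_9da1e3_co

theorem d620 : ckF 72 620 1579 (nuT 620) 790 4870 4863 11 (cert 620 CL620) (cert 621 CL621) (cert 622 CL622) = true := by decide +kernel

theorem d621 : ckF 72 621 1581 (nuT 621) 791 4871 4864 11 (cert 621 CL621) (cert 622 CL622) (cert 623 CL623) = true := by decide +kernel

theorem d622 : ckF 72 622 1585 (nuT 622) 793 4871 4864 11 (cert 622 CL622) (cert 623 CL623) (cert 624 CL624) = true := by decide +kernel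

theorem d623 : ckF 72 623 1587 (nuT 623) 794 4872 4865 11 (cert 623 CL623) (cert 624 CL624) (cert 625 CL625) = true := by decide +kernel

theorem d624 : ckF 72 624 1589 (nuT 624) 795 4873 4866 11 (cert 624 CL624) (cert 625 CL625) (cert 626 CL626) = true := by decide +kernel

theorem d625 : ckF 72 625 1591 (nuT 625) 796 4874 4867 11 (cert 625 CL625) (cert 626 CL626) (cert 627 CL627) = true := by decide +kernel

theorem d626 : ckF 72 626 1595 (nuT 626) 798 4875 4868 11 (cert 626 CL626) (cert 627 CL627) (cert 628 CL628) = true := by decide +kernel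

theorem d627 : ckF 72 627 1597 (nuT 627) 799 4876 4869 11 (cert 627 CL627) (cert 628 CL628) (cert 629 CL629) = true := by decide +kernel

theorem d628 : ckF 72 628 1599 (nuT 628) 800 4876 4870 11 (cert 628 CL628) (cert 629 CL629) (cert 630 CL630) = true := by decide +kernel

theorem d629 : ckF 72 629 1601 (nuT 629) 801 4877 4870 11 (cert 629 CL629) (cert 630 CL630) (cert 631 CL631) = true := by decide +kernel

end Pool.Agent.MP_9da1e3_co
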