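import Pool.Agent.Lib.MP_9da1e3_co.KcE630
import Pool.Agent.Lib.MP_9da1e3_co.KcE640
import Pool.Agent.Lib.MP_9da1e3_co.Kd0

set_option maxRecDepth 100000

namespace Pool.Agent.MP_9da1e3_co

theorem d630 : ckF 72 630 1605 (nuT 630) 803 4878 4871 11 (cert 630 CL630) (cert 631 CL631) (cert 632 CL632) = true := by decide +kernel

theorem d631 : ckF 72 631 1607 (nuT 631) 804 4879 4872 11 (cert 631 CL631) (cert 632 CL632) (cert 633 CL633) = true := by decide +kernel

theorem d632 : ckF 72 632 1609 (nuT 632) 805 4880 4873 11 (cert 632 CL632) (cert 633 CL633) (cert 634 CL634) = true := by decide +kernel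

theorem d633 : ckF 72 633 1611 (nuT 633) 806 4881 4874 11 (cert 633 CL633) (cert 634 CL634) (cert 635 CL635) = true := by decide +kernel

theorem d634 : ckF 72 634 1615 (nuT 634) 808 4881 4875 11 (cert 634 CL634) (cert 635 CL635) (cert 636 CL636) = true := by decide +kernel

theorem d635 : ckF 72 635 1617 (nuT 635) 809 4882 4875 11 (cert 635 CL635) (cert 636 CL636) (cert 637 CL637) = true := by decide +kernel

theorem d636 : ckF 72 636 1619 (nuT 636) 810 4883 4876 11 (cert 636 CL636) (cert 637 CL637) (cert 638 CL638) = true := by decide +kernel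

theorem d637 : ckF 72 637 1621 (nuT 637) 811 4884 4877 11 (cert 637 CL637) (cert 638 CL638) (cert 639 CL639) = true := by decide +kernel

theorem d638 : ckF 72 638 1625 (nuT 638) 813 4885 4878 11 (cert 638 CL638) (cert 639 CL639) (cert 640 CL640) = true := by decide +kernel

theorem d639 : ckF 72 639 1627 (nuT 639) 814 4885 4879 11 (cert 639 CL639) (cert 640 CL640) (cert 641 CL641) = true := by decide +kernel

end Pool.Agent.MP_9da1e3_co
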