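import Pool.Agent.Lib.MP_9da1e3_co.KcE640
import Pool.Agent.Lib.MP_9da1e3_co.KcE650
import Pool.Agent.Lib.MP_9da1e3_co.Kd0

set_option maxRecDepth 100000

namespace Pool.Agent.MP_9da1e3_co

theorem d640 : ckF 72 640 1629 (nuT 640) 815 4886 4879 11 (cert 640 CL640) (cert 641 CL641) (cert 642 CL642) = true := by decide +kernel

theorem d641 : ckF 72 641 1631 (nuT 641) 816 4887 4880 11 (cert 641 CL641) (cert 642 CL642) (cert 643 CL643) = true := by decide +kernel

theorem d642 : ckF 72 642 1635 (nuT 642) 818 4888 4881 11 (cert 642 CL642) (cert 643 CL643) (cert 644 CL644) = true := by decide +kernel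

theorem d643 : ckF 72 643 1637 (nuT 643) 819 4889 4882 11 (cert 643 CL643) (cert 644 CL644) (cert 645 CL645) = true := by decide +kernel

theorem d644 : ckF 72 644 1639 (nuT 644) 820 4890 4883 11 (cert 644 CL644) (cert 645 CL645) (cert 646 CL646) = true := by decide +kernel

theorem d645 : ckF 72 645 1641 (nuT 645) 821 4890 4884 11 (cert 645 CL645) (cert 646 CL646) (cert 647 CL647) = true := by decide +kernel

theorem d646 : ckF 72 646 1645 (nuT 646) 823 4891 4884 11 (cert 646 CL646) (cert 647 CL647) (cert 648 CL648) = true := by decide +kernel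

theorem d647 : ckF 72 647 1647 (nuT 647) 824 4892 4885 11 (cert 647 CL647) (cert 648 CL648) (cert 649 CL649) = true := by decide +kernel

theorem d648 : ckF 72 648 1649 (nuT 648) 825 4893 4886 11 (cert 648 CL648) (cert 649 CL649) (cert 650 CL650) = true := by decide +kernel

theorem d649 : ckF 72 649 1651 (nuT 649) 826 4894 4887 11 (cert 649 CL649) (cert 650 CL650) (cert 651 CL651) = true := by decide +kernel

end Pool.Agent.MP_9da1e3_co
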