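import Pool.Agent.Lib.MP_9da1e3_co.KcE650
import Pool.Agent.Lib.MP_9da1e3_co.KcE660
import Pool.Agent.Lib.MP_9da1e3_co.Kd0

set_option maxRecDepth 100000

namespace Pool.Agent.MP_9da1e3_co

theorem d650 : ckF 72 650 1655 (nuT 650) 828 4894 4888 11 (cert 650 CL650) (cert 651 CL651) (cert 652 CL652) = true := by decide +kernel

theorem d651 : ckF 72 651 1657 (nuT 651) 829 4895 4888 11 (cert 651 CL651) (cert 652 CL652) (cert 653 CL653) = true := by decide +kernel

theorem d652 : ckF 72 652 1659 (nuT 652) 830 4896 4889 11 (cert 652 CL652) (cert 653 CL653) (cert 654 CL654) = true := by decide +kernel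

theorem d653 : ckF 72 653 1661 (nuT 653) 831 4897 4890 11 (cert 653 CL653) (cert 654 CL654) (cert 655 CL655) = true := by decide +kernel

theorem d654 : ckF 72 654 1665 (nuT 654) 833 4897 4891 11 (cert 654 CL654) (cert 655 CL655) (cert 656 CL656) = true := by decide +kernel

theorem d655 : ckF 72 655 1667 (nuT 655) 834 4898 4892 11 (cert 655 CL655) (cert 656 CL656) (cert 657 CL657) = true := by decide +kernel

theorem d656 : ckF 72 656 1669 (nuT 656) 835 4899 4892 11 (cert 656 CL656) (cert 657 CL657) (cert 658 CL658) = true := by decide +kernel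

theorem d657 : ckF 72 657 1671 (nuT 657) 836 4900 4893 11 (cert 657 CL657) (cert 658 CL658) (cert 659 CL659) = true := by decide +kernel

theorem d658 : ckF 72 658 1675 (nuT 658) 838 4901 4894 11 (cert 658 CL658) (cert 659 CL659) (cert 660 CL660) = true := by decide +kernel

theorem d659 : ckF 72 659 1677 (nuT 659) 839 4901 4895 11 (cert 659 CL659) (cert 660 CL660) (cert 661 CL661) = true := by decide +kernel

end Pool.Agent.MP_9da1e3_co
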