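import Pool.Agent.Lib.MP_9da1e3_co.KcE660
import Pool.Agent.Lib.MP_9da1e3_co.KcE670
import Pool.Agent.Lib.MP_9da1e3_co.Kd0

set_option maxRecDepth 100000

namespace Pool.Agent.MP_9da1e3_co

theorem d660 : ckF 72 660 1679 (nuT 660) 840 4902 4896 11 (cert 660 CL660) (cert 661 CL661) (cert 662 CL662) = true := by decide +kernel

theorem d661 : ckF 72 661 1681 (nuT 661) 841 4903 4896 11 (cert 661 CL661) (cert 662 CL662) (cert 663 CL663) = true := by decide +kernel

theorem d662 : ckF 72 662 1685 (nuT 662) 843 4904 4897 11 (cert 662 CL662) (cert 663 CL663) (cert 664 CL664) = true := by decide +kernel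

theorem d663 : ckF 72 663 1687 (nuT 663) 844 4905 4898 11 (cert 663 CL663) (cert 664 CL664) (cert 665 CL665) = true := by decide +kernel

theorem d664 : ckF 72 664 1689 (nuT 664) 845 4905 4899 11 (cert 664 CL664) (cert 665 CL665) (cert 666 CL666) = true := by decide +kernel

theorem d665 : ckF 72 665 1691 (nuT 665) 846 4906 4899 11 (cert 665 CL665) (cert 666 CL666) (cert 667 CL667) = true := by decide +kernel

theorem d666 : ckF 72 666 1695 (nuT 666) 848 4907 4900 11 (cert 666 CL666) (cert 667 CL667) (cert 668 CL668) = true := by decide +kernel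

theorem d667 : ckF 72 667 1697 (nuT 667) 849 4908 4901 11 (cert 667 CL667) (cert 668 CL668) (cert 669 CL669) = true := by decide +kernel

theorem d668 : ckF 72 668 1699 (nuT 668) 850 4908 4902 11 (cert 668 CL668) (cert 669 CL669) (cert 670 CL670) = true := by decide +kernel

theorem d669 : ckF 72 669 1701 (nuT 669) 851 4909 4903 11 (cert 669 CL669) (cert 670 CL670) (cert 671 CL671) = true := by decide +kernel

end Pool.Agent.MP_9da1e3_co
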