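import Pool.Agent.Lib.MP_9da1e3_co.KcE670
import Pool.Agent.Lib.MP_9da1e3_co.KcE680
import Pool.Agent.Lib.MP_9da1e3_co.Kd0

set_option maxRecDepth 100000

namespace Pool.Agent.MP_9da1e3_co

theorem d670 : ckF 72 670 1705 (nuT 670) 853 4910 4903 11 (cert 670 CL670) (cert 671 CL671) (cert 672 CL672) = true := by decide +kernel

theorem d671 : ckF 72 671 1707 (nuT 671) 854 4911 4904 11 (cert 671 CL671) (cert 672 CL672) (cert 673 CL673) = true := by decide +kernel

theorem d672 : ckF 72 672 1709 (nuT 672) 855 4911 4905 11 (cert 672 CL672) (cert 673 CL673) (cert 674 CL674) = true := by decide +kernel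

theorem d673 : ckF 72 673 1711 (nuT 673) 856 4912 4906 11 (cert 673 CL673) (cert 674 CL674) (cert 675 CL675) = true := by decide +kernel

theorem d674 : ckF 72 674 1715 (nuT 674) 858 4913 4906 11 (cert 674 CL674) (cert 675 CL675) (cert 676 CL676) = true := by decide +kernel

theorem d675 : ckF 72 675 1717 (nuT 675) 859 4914 4907 11 (cert 675 CL675) (cert 676 CL676) (cert 677 CL677) = true := by decide +kernel

theorem d676 : ckF 72 676 1719 (nuT 676) 860 4914 4908 11 (cert 676 CL676) (cert 677 CL677) (cert 678 CL678) = true := by decide +kernel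

theorem d677 : ckF 72 677 1721 (nuT 677) 861 4915 4909 11 (cert 677 CL677) (cert 678 CL678) (cert 679 CL679) = true := by decide +kernel

theorem d678 : ckF 72 678 1725 (nuT 678) 863 4916 4910 11 (cert 678 CL678) (cert 679 CL679) (cert 680 CL680) = true := by decide +kernel

theorem d679 : ckF 72 679 1727 (nuT 679) 864 4917 4910 11 (cert 679 CL679) (cert 680 CL680) (cert 681 CL681) = true := by decide +kernel

end Pool.Agent.MP_9da1e3_co
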