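import Pool.Agent.Lib.MP_9da1e3_co.KcE680
import Pool.Agent.Lib.MP_9da1e3_co.KcE690
import Pool.Agent.Lib.MP_9da1e3_co.Kd0

set_option maxRecDepth 100000

namespace Pool.Agent.MP_9da1e3_co

theorem d680 : ckF 72 680 1729 (nuT 680) 865 4917 4911 11 (cert 680 CL680) (cert 681 CL681) (cert 682 CL682) = true := by decide +kernel

theorem d681 : ckF 72 681 1731 (nuT 681) 866 4918 4912 11 (cert 681 CL681) (cert 682 CL682) (cert 683 CL683) = true := by decide +kernel

theorem d682 : ckF 72 682 1735 (nuT 682) 868 4919 4913 11 (cert 682 CL682) (cert 683 CL683) (cert 684 CL684) = true := by decide +kernel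

theorem d683 : ckF 72 683 1737 (nuT 683) 869 4920 4913 11 (cert 683 CL683) (cert 684 CL684) (cert 685 CL685) = true := by decide +kernel

theorem d684 : ckF 72 684 1739 (nuT 684) 870 4920 4914 11 (cert 684 CL684) (cert 685 CL685) (cert 686 CL686) = true := by decide +kernel

theorem d685 : ckF 72 685 1741 (nuT 685) 871 4921 4915 11 (cert 685 CL685) (cert 686 CL686) (cert 687 CL687) = true := by decide +kernel

theorem d686 : ckF 72 686 1745 (nuT 686) 873 4922 4916 11 (cert 686 CL686) (cert 687 CL687) (cert 688 CL688) = true := by decide +kernel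

theorem d687 : ckF 72 687 1747 (nuT 687) 874 4923 4916 11 (cert 687 CL687) (cert 688 CL688) (cert 689 CL689) = true := by decide +kernel

theorem d688 : ckF 72 688 1749 (nuT 688) 875 4923 4917 11 (cert 688 CL688) (cert 689 CL689) (cert 690 CL690) = true := by decide +kernel

theorem d689 : ckF 72 689 1751 (nuT 689) 876 4924 4918 11 (cert 689 CL689) (cert 690 CL690) (cert 691 CL691) = true := by decide +kernel

end Pool.Agent.MP_9da1e3_co
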