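import Pool.Agent.Lib.MP_9da1e3_co.KcE690
import Pool.Agent.Lib.MP_9da1e3_co.KcE700
import Pool.Agent.Lib.MP_9da1e3_co.Kd0

set_option maxRecDepth 100000

namespace Pool.Agent.MP_9da1e3_co

theorem d690 : ckF 72 690 1755 (nuT 690) 878 4925 4919 11 (cert 690 CL690) (cert 691 CL691) (cert 692 CL692) = true := by decide +kernel

theorem d691 : ckF 72 691 1757 (nuT 691) 879 4926 4919 11 (cert 691 CL691) (cert 692 CL692) (cert 693 CL693) = true := by decide +kernel

theorem d692 : ckF 72 692 1759 (nuT 692) 880 4926 4920 11 (cert 692 CL692) (cert 693 CL693) (cert 694 CL694) = true := by decide +kernel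

theorem d693 : ckF 72 693 1761 (nuT 693) 881 4927 4921 11 (cert 693 CL693) (cert 694 CL694) (cert 695 CL695) = true := by decide +kernel

theorem d694 : ckF 72 694 1765 (nuT 694) 883 4928 4922 11 (cert 694 CL694) (cert 695 CL695) (cert 696 CL696) = true := by decide +kernel

theorem d695 : ckF 72 695 1767 (nuT 695) 884 4929 4922 11 (cert 695 CL695) (cert 696 CL696) (cert 697 CL697) = true := by decide +kernel

theorem d696 : ckF 72 696 1769 (nuT 696) 885 4929 4923 11 (cert 696 CL696) (cert 697 CL697) (cert 698 CL698) = true := by decide +kernel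

theorem d697 : ckF 72 697 1771 (nuT 697) 886 4930 4924 11 (cert 697 CL697) (cert 698 CL698) (cert 699 CL699) = true := by decide +kernel

theorem d698 : ckF 72 698 1775 (nuT 698) 888 4931 4924 11 (cert 698 CL698) (cert 699 CL699) (cert 700 CL700) = true := by decide +kernel

theorem d699 : ckF 72 699 1777 (nuT 699) 889 4931 4925 11 (cert 699 CL699) (cert 700 CL700) (cert 701 CL701) = true := by decide +kernel

end Pool.Agent.MP_9da1e3_co
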