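import Pool.Agent.Lib.MP_9da1e3_co.KcE70
import Pool.Agent.Lib.MP_9da1e3_co.KcE80
import Pool.Agent.Lib.MP_9da1e3_co.Kd0

set_option maxRecDepth 100000

namespace Pool.Agent.MP_9da1e3_co

theorem d70 : ckF 72 70 249 (nuT 70) 125 3395 3332 8 (cert 70 CL70) (cert 71 CL71) (cert 72 CL72) = true := by decide +kernel

theorem d71 : ckF 72 71 253 (nuT 71) 127 3411 3349 8 (cert 71 CL71) (cert 72 CL72) (cert 73 CL73) = true := by decide +kernel

theorem d72 : ckF 72 72 255 (nuT 72) 128 3411 3351 8 (cert 72 CL72) (cert 73 CL73) (cert 74 CL74) = true := by decide +kernel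

theorem d73 : ckF 72 73 259 (nuT 73) 130 3427 3367 9 (cert 73 CL73) (cert 74 CL74) (cert 75 CL75) = true := by decide +kernel

theorem d74 : ckF 72 74 261 (nuT 74) 131 3427 3369 9 (cert 74 CL74) (cert 75 CL75) (cert 76 CL76) = true := by decide +kernel

theorem d75 : ckF 72 75 265 (nuT 75) 133 3443 3385 9 (cert 75 CL75) (cert 76 CL76) (cert 77 CL77) = true := by decide +kernel

theorem d76 : ckF 72 76 267 (nuT 76) 134 3444 3387 9 (cert 76 CL76) (cert 77 CL77) (cert 78 CL78) = true := by decide +kernel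

theorem d77 : ckF 72 77 271 (nuT 77) 136 3458 3402 9 (cert 77 CL77) (cert 78 CL78) (cert 79 CL79) = true := by decide +kernel

theorem d78 : ckF 72 78 273 (nuT 78) 137 3459 3405 9 (cert 78 CL78) (cert 79 CL79) (cert 80 CL80) = true := by decide +kernel

theorem d79 : ckF 72 79 277 (nuT 79) 139 3474 3419 9 (cert 79 CL79) (cert 80 CL80) (cert 81 CL81) = true := by decide +kernel

end Pool.Agent.MP_9da1e3_co
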