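import Pool.Agent.Lib.MP_9da1e3_co.KcE700
import Pool.Agent.Lib.MP_9da1e3_co.KcE710
import Pool.Agent.Lib.MP_9da1e3_co.Kd0

set_option maxRecDepth 100000

namespace Pool.Agent.MP_9da1e3_co

theorem d700 : ckF 72 700 1779 (nuT 700) 890 4932 4926 11 (cert 700 CL700) (cert 701 CL701) (cert 702 CL702) = true := by decide +kernel

theorem d701 : ckF 72 701 1781 (nuT 701) 891 4933 4927 11 (cert 701 CL701) (cert 702 CL702) (cert 703 CL703) = true := by decide +kernel

theorem d702 : ckF 72 702 1785 (nuT 702) 893 4934 4927 11 (cert 702 CL702) (cert 703 CL703) (cert 704 CL704) = true := by decide +kernel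

theorem d703 : ckF 72 703 1787 (nuT 703) 894 4934 4928 11 (cert 703 CL703) (cert 704 CL704) (cert 705 CL705) = true := by decide +kernel

theorem d704 : ckF 72 704 1789 (nuT 704) 895 4935 4929 11 (cert 704 CL704) (cert 705 CL705) (cert 706 CL706) = true := by decide +kernel

theorem d705 : ckF 72 705 1791 (nuT 705) 896 4936 4930 11 (cert 705 CL705) (cert 706 CL706) (cert 707 CL707) = true := by decide +kernel

theorem d706 : ckF 72 706 1795 (nuT 706) 898 4937 4930 11 (cert 706 CL706) (cert 707 CL707) (cert 708 CL708) = true := by decide +kernel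

theorem d707 : ckF 72 707 1797 (nuT 707) 899 4937 4931 11 (cert 707 CL707) (cert 708 CL708) (cert 709 CL709) = true := by decide +kernel

theorem d708 : ckF 72 708 1799 (nuT 708) 900 4938 4932 11 (cert 708 CL708) (cert 709 CL709) (cert 710 CL710) = true := by decide +kernel

theorem d709 : ckF 72 709 1801 (nuT 709) 901 4939 4932 11 (cert 709 CL709) (cert 710 CL710) (cert 711 CL711) = true := by decide +kernel

end Pool.Agent.MP_9da1e3_co
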