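import Pool.Agent.Lib.MP_9da1e3_co.KcE710
import Pool.Agent.Lib.MP_9da1e3_co.KcE720
import Pool.Agent.Lib.MP_9da1e3_co.Kd0

set_option maxRecDepth 100000

namespace Pool.Agent.MP_9da1e3_co

theorem d710 : ckF 72 710 1805 (nuT 710) 903 4939 4933 11 (cert 710 CL710) (cert 711 CL711) (cert 712 CL712) = true := by decide +kernel

theorem d711 : ckF 72 711 1807 (nuT 711) 904 4940 4934 11 (cert 711 CL711) (cert 712 CL712) (cert 713 CL713) = true := by decide +kernel

theorem d712 : ckF 72 712 1809 (nuT 712) 905 4941 4935 11 (cert 712 CL712) (cert 713 CL713) (cert 714 CL714) = true := by decide +kernel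

theorem d713 : ckF 72 713 1811 (nuT 713) 906 4941 4935 11 (cert 713 CL713) (cert 714 CL714) (cert 715 CL715) = true := by decide +kernel

theorem d714 : ckF 72 714 1815 (nuT 714) 908 4942 4936 11 (cert 714 CL714) (cert 715 CL715) (cert 716 CL716) = true := by decide +kernel

theorem d715 : ckF 72 715 1817 (nuT 715) 909 4943 4937 11 (cert 715 CL715) (cert 716 CL716) (cert 717 CL717) = true := by decide +kernel

theorem d716 : ckF 72 716 1819 (nuT 716) 910 4944 4937 11 (cert 716 CL716) (cert 717 CL717) (cert 718 CL718) = true := by decide +kernel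

theorem d717 : ckF 72 717 1821 (nuT 717) 911 4944 4938 11 (cert 717 CL717) (cert 718 CL718) (cert 719 CL719) = true := by decide +kernel

theorem d718 : ckF 72 718 1825 (nuT 718) 913 4945 4939 11 (cert 718 CL718) (cert 719 CL719) (cert 720 CL720) = true := by decide +kernel

theorem d719 : ckF 72 719 1827 (nuT 719) 914 4946 4940 11 (cert 719 CL719) (cert 720 CL720) (cert 721 CL721) = true := by decide +kernel

end Pool.Agent.MP_9da1e3_co
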