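import Pool.Agent.Lib.MP_9da1e3_co.KcE720
import Pool.Agent.Lib.MP_9da1e3_co.KcE730
import Pool.Agent.Lib.MP_9da1e3_co.Kd0

set_option maxRecDepth 100000

namespace Pool.Agent.MP_9da1e3_co

theorem d720 : ckF 72 720 1829 (nuT 720) 915 4946 4940 11 (cert 720 CL720) (cert 721 CL721) (cert 722 CL722) = true := by decide +kernel

theorem d721 : ckF 72 721 1831 (nuT 721) 916 4947 4941 11 (cert 721 CL721) (cert 722 CL722) (cert 723 CL723) = true := by decide +kernel

theorem d722 : ckF 72 722 1835 (nuT 722) 918 4948 4942 11 (cert 722 CL722) (cert 723 CL723) (cert 724 CL724) = true := by decide +kernel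

theorem d723 : ckF 72 723 1837 (nuT 723) 919 4948 4942 11 (cert 723 CL723) (cert 724 CL724) (cert 725 CL725) = true := by decide +kernel

theorem d724 : ckF 72 724 1839 (nuT 724) 920 4949 4943 11 (cert 724 CL724) (cert 725 CL725) (cert 726 CL726) = true := by decide +kernel

theorem d725 : ckF 72 725 1841 (nuT 725) 921 4950 4944 11 (cert 725 CL725) (cert 726 CL726) (cert 727 CL727) = true := by decide +kernel

theorem d726 : ckF 72 726 1845 (nuT 726) 923 4951 4944 11 (cert 726 CL726) (cert 727 CL727) (cert 728 CL728) = true := by decide +kernel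

theorem d727 : ckF 72 727 1847 (nuT 727) 924 4951 4945 11 (cert 727 CL727) (cert 728 CL728) (cert 729 CL729) = true := by decide +kernel

theorem d728 : ckF 72 728 1849 (nuT 728) 925 4952 4946 11 (cert 728 CL728) (cert 729 CL729) (cert 730 CL730) = true := by decide +kernel

theorem d729 : ckF 72 729 1851 (nuT 729) 926 4953 4947 11 (cert 729 CL729) (cert 730 CL730) (cert 731 CL731) = true := by decide +kernel

end Pool.Agent.MP_9da1e3_co
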