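import Pool.Agent.Lib.MP_9da1e3_co.KcE730
import Pool.Agent.Lib.MP_9da1e3_co.KcE740
import Pool.Agent.Lib.MP_9da1e3_co.Kd0

set_option maxRecDepth 100000

namespace Pool.Agent.MP_9da1e3_co

theorem d730 : ckF 72 730 1855 (nuT 730) 928 4953 4947 11 (cert 730 CL730) (cert 731 CL731) (cert 732 CL732) = true := by decide +kernel

theorem d731 : ckF 72 731 1857 (nuT 731) 929 4954 4948 11 (cert 731 CL731) (cert 732 CL732) (cert 733 CL733) = true := by decide +kernel

theorem d732 : ckF 72 732 1859 (nuT 732) 930 4955 4949 11 (cert 732 CL732) (cert 733 CL733) (cert 734 CL734) = true := by decide +kernel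

theorem d733 : ckF 72 733 1861 (nuT 733) 931 4955 4949 11 (cert 733 CL733) (cert 734 CL734) (cert 735 CL735) = true := by decide +kernel

theorem d734 : ckF 72 734 1865 (nuT 734) 933 4956 4950 11 (cert 734 CL734) (cert 735 CL735) (cert 736 CL736) = true := by decide +kernel

theorem d735 : ckF 72 735 1867 (nuT 735) 934 4957 4951 11 (cert 735 CL735) (cert 736 CL736) (cert 737 CL737) = true := by decide +kernel

theorem d736 : ckF 72 736 1869 (nuT 736) 935 4957 4951 11 (cert 736 CL736) (cert 737 CL737) (cert 738 CL738) = true := by decide +kernel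

theorem d737 : ckF 72 737 1871 (nuT 737) 936 4958 4952 11 (cert 737 CL737) (cert 738 CL738) (cert 739 CL739) = true := by decide +kernel

theorem d738 : ckF 72 738 1875 (nuT 738) 938 4959 4953 11 (cert 738 CL738) (cert 739 CL739) (cert 740 CL740) = true := by decide +kernel

theorem d739 : ckF 72 739 1877 (nuT 739) 939 4959 4953 11 (cert 739 CL739) (cert 740 CL740) (cert 741 CL741) = true := by decide +kernel

end Pool.Agent.MP_9da1e3_co
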