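import Pool.Agent.Lib.MP_9da1e3_co.KcE740
import Pool.Agent.Lib.MP_9da1e3_co.KcE750
import Pool.Agent.Lib.MP_9da1e3_co.Kd0

set_option maxRecDepth 100000

namespace Pool.Agent.MP_9da1e3_co

theorem d740 : ckF 72 740 1879 (nuT 740) 940 4960 4954 11 (cert 740 CL740) (cert 741 CL741) (cert 742 CL742) = true := by decide +kernel

theorem d741 : ckF 72 741 1881 (nuT 741) 941 4961 4955 11 (cert 741 CL741) (cert 742 CL742) (cert 743 CL743) = true := by decide +kernel

theorem d742 : ckF 72 742 1885 (nuT 742) 943 4961 4955 11 (cert 742 CL742) (cert 743 CL743) (cert 744 CL744) = true := by decide +kernel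

theorem d743 : ckF 72 743 1887 (nuT 743) 944 4962 4956 11 (cert 743 CL743) (cert 744 CL744) (cert 745 CL745) = true := by decide +kernel

theorem d744 : ckF 72 744 1889 (nuT 744) 945 4963 4957 11 (cert 744 CL744) (cert 745 CL745) (cert 746 CL746) = true := by decide +kernel

theorem d745 : ckF 72 745 1891 (nuT 745) 946 4963 4957 11 (cert 745 CL745) (cert 746 CL746) (cert 747 CL747) = true := by decide +kernel

theorem d746 : ckF 72 746 1895 (nuT 746) 948 4964 4958 11 (cert 746 CL746) (cert 747 CL747) (cert 748 CL748) = true := by decide +kernel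

theorem d747 : ckF 72 747 1897 (nuT 747) 949 4965 4959 11 (cert 747 CL747) (cert 748 CL748) (cert 749 CL749) = true := by decide +kernel

theorem d748 : ckF 72 748 1899 (nuT 748) 950 4965 4959 11 (cert 748 CL748) (cert 749 CL749) (cert 750 CL750) = true := by decide +kernel

theorem d749 : ckF 72 749 1901 (nuT 749) 951 4966 4960 11 (cert 749 CL749) (cert 750 CL750) (cert 751 CL751) = true := by decide +kernel

end Pool.Agent.MP_9da1e3_co
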