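import Pool.Agent.Lib.MP_9da1e3_co.KcE750
import Pool.Agent.Lib.MP_9da1e3_co.KcE760
import Pool.Agent.Lib.MP_9da1e3_co.Kd0

set_option maxRecDepth 100000

namespace Pool.Agent.MP_9da1e3_co

theorem d750 : ckF 72 750 1905 (nuT 750) 953 4967 4961 11 (cert 750 CL750) (cert 751 CL751) (cert 752 CL752) = true := by decide +kernel

theorem d751 : ckF 72 751 1907 (nuT 751) 954 4967 4961 11 (cert 751 CL751) (cert 752 CL752) (cert 753 CL753) = true := by decide +kernel

theorem d752 : ckF 72 752 1909 (nuT 752) 955 4968 4962 11 (cert 752 CL752) (cert 753 CL753) (cert 754 CL754) = true := by decide +kernel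

theorem d753 : ckF 72 753 1911 (nuT 753) 956 4969 4963 11 (cert 753 CL753) (cert 754 CL754) (cert 755 CL755) = true := by decide +kernel

theorem d754 : ckF 72 754 1915 (nuT 754) 958 4969 4963 11 (cert 754 CL754) (cert 755 CL755) (cert 756 CL756) = true := by decide +kernel

theorem d755 : ckF 72 755 1917 (nuT 755) 959 4970 4964 11 (cert 755 CL755) (cert 756 CL756) (cert 757 CL757) = true := by decide +kernel

theorem d756 : ckF 72 756 1919 (nuT 756) 960 4971 4965 11 (cert 756 CL756) (cert 757 CL757) (cert 758 CL758) = true := by decide +kernel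

theorem d757 : ckF 72 757 1921 (nuT 757) 961 4971 4965 11 (cert 757 CL757) (cert 758 CL758) (cert 759 CL759) = true := by decide +kernel

theorem d758 : ckF 72 758 1925 (nuT 758) 963 4972 4966 11 (cert 758 CL758) (cert 759 CL759) (cert 760 CL760) = true := by decide +kernel

theorem d759 : ckF 72 759 1927 (nuT 759) 964 4973 4967 11 (cert 759 CL759) (cert 760 CL760) (cert 761 CL761) = true := by decide +kernel

end Pool.Agent.MP_9da1e3_co
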