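import Pool.Agent.Lib.MP_9da1e3_co.KcE760
import Pool.Agent.Lib.MP_9da1e3_co.KcE770
import Pool.Agent.Lib.MP_9da1e3_co.Kd0

set_option maxRecDepth 100000

namespace Pool.Agent.MP_9da1e3_co

theorem d760 : ckF 72 760 1929 (nuT 760) 965 4973 4967 11 (cert 760 CL760) (cert 761 CL761) (cert 762 CL762) = true := by decide +kernel

theorem d761 : ckF 72 761 1931 (nuT 761) 966 4974 4968 11 (cert 761 CL761) (cert 762 CL762) (cert 763 CL763) = true := by decide +kernel

theorem d762 : ckF 72 762 1935 (nuT 762) 968 4975 4969 11 (cert 762 CL762) (cert 763 CL763) (cert 764 CL764) = true := by decide +kernel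

theorem d763 : ckF 72 763 1937 (nuT 763) 969 4975 4969 11 (cert 763 CL763) (cert 764 CL764) (cert 765 CL765) = true := by decide +kernel

theorem d764 : ckF 72 764 1939 (nuT 764) 970 4976 4970 11 (cert 764 CL764) (cert 765 CL765) (cert 766 CL766) = true := by decide +kernel

theorem d765 : ckF 72 765 1941 (nuT 765) 971 4976 4971 11 (cert 765 CL765) (cert 766 CL766) (cert 767 CL767) = true := by decide +kernel

theorem d766 : ckF 72 766 1945 (nuT 766) 973 4977 4971 11 (cert 766 CL766) (cert 767 CL767) (cert 768 CL768) = true := by decide +kernel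

theorem d767 : ckF 72 767 1947 (nuT 767) 974 4978 4972 11 (cert 767 CL767) (cert 768 CL768) (cert 769 CL769) = true := by decide +kernel

theorem d768 : ckF 72 768 1949 (nuT 768) 975 4978 4973 11 (cert 768 CL768) (cert 769 CL769) (cert 770 CL770) = true := by decide +kernel

theorem d769 : ckF 72 769 1951 (nuT 769) 976 4979 4973 11 (cert 769 CL769) (cert 770 CL770) (cert 771 CL771) = true := by decide +kernel

end Pool.Agent.MP_9da1e3_co
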