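import Pool.Agent.Lib.MP_9da1e3_co.KcE770
import Pool.Agent.Lib.MP_9da1e3_co.KcE780
import Pool.Agent.Lib.MP_9da1e3_co.Kd0

set_option maxRecDepth 100000

namespace Pool.Agent.MP_9da1e3_co

theorem d770 : ckF 72 770 1955 (nuT 770) 978 4980 4974 11 (cert 770 CL770) (cert 771 CL771) (cert 772 CL772) = true := by decide +kernel

theorem d771 : ckF 72 771 1957 (nuT 771) 979 4980 4975 11 (cert 771 CL771) (cert 772 CL772) (cert 773 CL773) = true := by decide +kernel

theorem d772 : ckF 72 772 1959 (nuT 772) 980 4981 4975 11 (cert 772 CL772) (cert 773 CL773) (cert 774 CL774) = true := by decide +kernel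

theorem d773 : ckF 72 773 1961 (nuT 773) 981 4982 4976 11 (cert 773 CL773) (cert 774 CL774) (cert 775 CL775) = true := by decide +kernel

theorem d774 : ckF 72 774 1965 (nuT 774) 983 4982 4976 11 (cert 774 CL774) (cert 775 CL775) (cert 776 CL776) = true := by decide +kernel

theorem d775 : ckF 72 775 1967 (nuT 775) 984 4983 4977 11 (cert 775 CL775) (cert 776 CL776) (cert 777 CL777) = true := by decide +kernel

theorem d776 : ckF 72 776 1969 (nuT 776) 985 4984 4978 11 (cert 776 CL776) (cert 777 CL777) (cert 778 CL778) = true := by decide +kernel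

theorem d777 : ckF 72 777 1971 (nuT 777) 986 4984 4978 11 (cert 777 CL777) (cert 778 CL778) (cert 779 CL779) = true := by decide +kernel

theorem d778 : ckF 72 778 1975 (nuT 778) 988 4985 4979 11 (cert 778 CL778) (cert 779 CL779) (cert 780 CL780) = true := by decide +kernel

theorem d779 : ckF 72 779 1977 (nuT 779) 989 4985 4980 11 (cert 779 CL779) (cert 780 CL780) (cert 781 CL781) = true := by decide +kernel

end Pool.Agent.MP_9da1e3_co
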