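import Pool.Agent.Lib.MP_9da1e3_co.KcE780
import Pool.Agent.Lib.MP_9da1e3_co.KcE790
import Pool.Agent.Lib.MP_9da1e3_co.Kd0

set_option maxRecDepth 100000

namespace Pool.Agent.MP_9da1e3_co

theorem d780 : ckF 72 780 1979 (nuT 780) 990 4986 4980 11 (cert 780 CL780) (cert 781 CL781) (cert 782 CL782) = true := by decide +kernel

theorem d781 : ckF 72 781 1981 (nuT 781) 991 4987 4981 11 (cert 781 CL781) (cert 782 CL782) (cert 783 CL783) = true := by decide +kernel

theorem d782 : ckF 72 782 1985 (nuT 782) 993 4987 4982 11 (cert 782 CL782) (cert 783 CL783) (cert 784 CL784) = true := by decide +kernel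

theorem d783 : ckF 72 783 1987 (nuT 783) 994 4988 4982 11 (cert 783 CL783) (cert 784 CL784) (cert 785 CL785) = true := by decide +kernel

theorem d784 : ckF 72 784 1989 (nuT 784) 995 4989 4983 11 (cert 784 CL784) (cert 785 CL785) (cert 786 CL786) = true := by decide +kernel

theorem d785 : ckF 72 785 1991 (nuT 785) 996 4989 4983 11 (cert 785 CL785) (cert 786 CL786) (cert 787 CL787) = true := by decide +kernel

theorem d786 : ckF 72 786 1995 (nuT 786) 998 4990 4984 11 (cert 786 CL786) (cert 787 CL787) (cert 788 CL788) = true := by decide +kernel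

theorem d787 : ckF 72 787 1997 (nuT 787) 999 4990 4985 11 (cert 787 CL787) (cert 788 CL788) (cert 789 CL789) = true := by decide +kernel

theorem d788 : ckF 72 788 1999 (nuT 788) 1000 4991 4985 11 (cert 788 CL788) (cert 789 CL789) (cert 790 CL790) = true := by decide +kernel

theorem d789 : ckF 72 789 2001 (nuT 789) 1001 4992 4986 11 (cert 789 CL789) (cert 790 CL790) (cert 791 CL791) = true := by decide +kernel

end Pool.Agent.MP_9da1e3_co
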