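import Pool.Agent.Lib.MP_9da1e3_co.KcE790
import Pool.Agent.Lib.MP_9da1e3_co.KcE800
import Pool.Agent.Lib.MP_9da1e3_co.Kd0

set_option maxRecDepth 100000

namespace Pool.Agent.MP_9da1e3_co

theorem d790 : ckF 72 790 2005 (nuT 790) 1003 4992 4987 11 (cert 790 CL790) (cert 791 CL791) (cert 792 CL792) = true := by decide +kernel

theorem d791 : ckF 72 791 2007 (nuT 791) 1004 4993 4987 11 (cert 791 CL791) (cert 792 CL792) (cert 793 CL793) = true := by decide +kernel

theorem d792 : ckF 72 792 2009 (nuT 792) 1005 4993 4988 11 (cert 792 CL792) (cert 793 CL793) (cert 794 CL794) = true := by decide +kernel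

theorem d793 : ckF 72 793 2011 (nuT 793) 1006 4994 4988 11 (cert 793 CL793) (cert 794 CL794) (cert 795 CL795) = true := by decide +kernel

theorem d794 : ckF 72 794 2015 (nuT 794) 1008 4995 4989 11 (cert 794 CL794) (cert 795 CL795) (cert 796 CL796) = true := by decide +kernel

theorem d795 : ckF 72 795 2017 (nuT 795) 1009 4995 4990 11 (cert 795 CL795) (cert 796 CL796) (cert 797 CL797) = true := by decide +kernel

theorem d796 : ckF 72 796 2019 (nuT 796) 1010 4996 4990 11 (cert 796 CL796) (cert 797 CL797) (cert 798 CL798) = true := by decide +kernel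

theorem d797 : ckF 72 797 2021 (nuT 797) 1011 4997 4991 11 (cert 797 CL797) (cert 798 CL798) (cert 799 CL799) = true := by decide +kernel

theorem d798 : ckF 72 798 2025 (nuT 798) 1013 4997 4991 11 (cert 798 CL798) (cert 799 CL799) (cert 800 CL800) = true := by decide +kernel

theorem d799 : ckF 72 799 2027 (nuT 799) 1014 4998 4992 11 (cert 799 CL799) (cert 800 CL800) (cert 801 CL801) = true := by decide +kernel

end Pool.Agent.MP_9da1e3_co
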