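import Pool.Agent.Lib.MP_9da1e3_co.KcE80
import Pool.Agent.Lib.MP_9da1e3_co.KcE90
import Pool.Agent.Lib.MP_9da1e3_co.Kd0

set_option maxRecDepth 100000

namespace Pool.Agent.MP_9da1e3_co

theorem d80 : ckF 72 80 279 (nuT 80) 140 3475 3422 9 (cert 80 CL80) (cert 81 CL81) (cert 82 CL82) = true := by decide +kernel

theorem d81 : ckF 72 81 283 (nuT 81) 142 3489 3437 9 (cert 81 CL81) (cert 82 CL82) (cert 83 CL83) = true := by decide +kernel

theorem d82 : ckF 72 82 285 (nuT 82) 143 3491 3439 9 (cert 82 CL82) (cert 83 CL83) (cert 84 CL84) = true := by decide +kernel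

theorem d83 : ckF 72 83 289 (nuT 83) 145 3505 3453 9 (cert 83 CL83) (cert 84 CL84) (cert 85 CL85) = true := by decide +kernel

theorem d84 : ckF 72 84 291 (nuT 84) 146 3506 3456 9 (cert 84 CL84) (cert 85 CL85) (cert 86 CL86) = true := by decide +kernel

theorem d85 : ckF 72 85 295 (nuT 85) 148 3520 3470 9 (cert 85 CL85) (cert 86 CL86) (cert 87 CL87) = true := by decide +kernel

theorem d86 : ckF 72 86 297 (nuT 86) 149 3522 3473 9 (cert 86 CL86) (cert 87 CL87) (cert 88 CL88) = true := by decide +kernel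

theorem d87 : ckF 72 87 301 (nuT 87) 151 3535 3486 9 (cert 87 CL87) (cert 88 CL88) (cert 89 CL89) = true := by decide +kernel

theorem d88 : ckF 72 88 303 (nuT 88) 152 3537 3489 9 (cert 88 CL88) (cert 89 CL89) (cert 90 CL90) = true := by decide +kernel

theorem d89 : ckF 72 89 307 (nuT 89) 154 3550 3502 9 (cert 89 CL89) (cert 90 CL90) (cert 91 CL91) = true := by decide +kernel

end Pool.Agent.MP_9da1e3_co
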