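import Pool.Agent.Lib.MP_9da1e3_co.KcE800
import Pool.Agent.Lib.MP_9da1e3_co.KcE810
import Pool.Agent.Lib.MP_9da1e3_co.Kd0

set_option maxRecDepth 100000

namespace Pool.Agent.MP_9da1e3_co

theorem d800 : ckF 72 800 2029 (nuT 800) 1015 4998 4993 11 (cert 800 CL800) (cert 801 CL801) (cert 802 CL802) = true := by decide +kernel

theorem d801 : ckF 72 801 2031 (nuT 801) 1016 4999 4993 11 (cert 801 CL801) (cert 802 CL802) (cert 803 CL803) = true := by decide +kernel

theorem d802 : ckF 72 802 2035 (nuT 802) 1018 5000 4994 11 (cert 802 CL802) (cert 803 CL803) (cert 804 CL804) = true := by decide +kernel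

theorem d803 : ckF 72 803 2037 (nuT 803) 1019 5000 4995 11 (cert 803 CL803) (cert 804 CL804) (cert 805 CL805) = true := by decide +kernel

theorem d804 : ckF 72 804 2039 (nuT 804) 1020 5001 4995 11 (cert 804 CL804) (cert 805 CL805) (cert 806 CL806) = true := by decide +kernel

theorem d805 : ckF 72 805 2041 (nuT 805) 1021 5001 4996 11 (cert 805 CL805) (cert 806 CL806) (cert 807 CL807) = true := by decide +kernel

theorem d806 : ckF 72 806 2045 (nuT 806) 1023 5002 4996 11 (cert 806 CL806) (cert 807 CL807) (cert 808 CL808) = true := by decide +kernel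

theorem d807 : ckF 72 807 2047 (nuT 807) 1024 5003 4997 11 (cert 807 CL807) (cert 808 CL808) (cert 809 CL809) = true := by decide +kernel

theorem d808 : ckF 72 808 2049 (nuT 808) 1025 5003 4998 12 (cert 808 CL808) (cert 809 CL809) (cert 810 CL810) = true := by decide +kernel

theorem d809 : ckF 72 809 2051 (nuT 809) 1026 5004 4998 12 (cert 809 CL809) (cert 810 CL810) (cert 811 CL811) = true := by decide +kernel

end Pool.Agent.MP_9da1e3_co
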