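import Pool.Agent.Lib.MP_9da1e3_co.KcE810
import Pool.Agent.Lib.MP_9da1e3_co.KcE820
import Pool.Agent.Lib.MP_9da1e3_co.Kd0

set_option maxRecDepth 100000

namespace Pool.Agent.MP_9da1e3_co

theorem d810 : ckF 72 810 2055 (nuT 810) 1028 5004 4999 12 (cert 810 CL810) (cert 811 CL811) (cert 812 CL812) = true := by decide +kernel

theorem d811 : ckF 72 811 2057 (nuT 811) 1029 5005 4999 12 (cert 811 CL811) (cert 812 CL812) (cert 813 CL813) = true := by decide +kernel

theorem d812 : ckF 72 812 2059 (nuT 812) 1030 5006 5000 12 (cert 812 CL812) (cert 813 CL813) (cert 814 CL814) = true := by decide +kernel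

theorem d813 : ckF 72 813 2061 (nuT 813) 1031 5006 5001 12 (cert 813 CL813) (cert 814 CL814) (cert 815 CL815) = true := by decide +kernel

theorem d814 : ckF 72 814 2065 (nuT 814) 1033 5007 5001 12 (cert 814 CL814) (cert 815 CL815) (cert 816 CL816) = true := by decide +kernel

theorem d815 : ckF 72 815 2067 (nuT 815) 1034 5007 5002 12 (cert 815 CL815) (cert 816 CL816) (cert 817 CL817) = true := by decide +kernel

theorem d816 : ckF 72 816 2069 (nuT 816) 1035 5008 5002 12 (cert 816 CL816) (cert 817 CL817) (cert 818 CL818) = true := by decide +kernel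

theorem d817 : ckF 72 817 2071 (nuT 817) 1036 5009 5003 12 (cert 817 CL817) (cert 818 CL818) (cert 819 CL819) = true := by decide +kernel

theorem d818 : ckF 72 818 2075 (nuT 818) 1038 5009 5004 12 (cert 818 CL818) (cert 819 CL819) (cert 820 CL820) = true := by decide +kernel

theorem d819 : ckF 72 819 2077 (nuT 819) 1039 5010 5004 12 (cert 819 CL819) (cert 820 CL820) (cert 821 CL821) = true := by decide +kernel

end Pool.Agent.MP_9da1e3_co
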