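import Pool.Agent.Lib.MP_9da1e3_co.KcE820
import Pool.Agent.Lib.MP_9da1e3_co.KcE830
import Pool.Agent.Lib.MP_9da1e3_co.Kd0

set_option maxRecDepth 100000

namespace Pool.Agent.MP_9da1e3_co

theorem d820 : ckF 72 820 2079 (nuT 820) 1040 5010 5005 12 (cert 820 CL820) (cert 821 CL821) (cert 822 CL822) = true := by decide +kernel

theorem d821 : ckF 72 821 2081 (nuT 821) 1041 5011 5005 12 (cert 821 CL821) (cert 822 CL822) (cert 823 CL823) = true := by decide +kernel

theorem d822 : ckF 72 822 2085 (nuT 822) 1043 5011 5006 12 (cert 822 CL822) (cert 823 CL823) (cert 824 CL824) = true := by decide +kernel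

theorem d823 : ckF 72 823 2087 (nuT 823) 1044 5012 5007 12 (cert 823 CL823) (cert 824 CL824) (cert 825 CL825) = true := by decide +kernel

theorem d824 : ckF 72 824 2089 (nuT 824) 1045 5013 5007 12 (cert 824 CL824) (cert 825 CL825) (cert 826 CL826) = true := by decide +kernel

theorem d825 : ckF 72 825 2091 (nuT 825) 1046 5013 5008 12 (cert 825 CL825) (cert 826 CL826) (cert 827 CL827) = true := by decide +kernel

theorem d826 : ckF 72 826 2095 (nuT 826) 1048 5014 5008 12 (cert 826 CL826) (cert 827 CL827) (cert 828 CL828) = true := by decide +kernel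

theorem d827 : ckF 72 827 2097 (nuT 827) 1049 5014 5009 12 (cert 827 CL827) (cert 828 CL828) (cert 829 CL829) = true := by decide +kernel

theorem d828 : ckF 72 828 2099 (nuT 828) 1050 5015 5009 12 (cert 828 CL828) (cert 829 CL829) (cert 830 CL830) = true := by decide +kernel

theorem d829 : ckF 72 829 2101 (nuT 829) 1051 5016 5010 12 (cert 829 CL829) (cert 830 CL830) (cert 831 CL831) = true := by decide +kernel

end Pool.Agent.MP_9da1e3_co
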