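import Pool.Agent.Lib.MP_9da1e3_co.KcE830
import Pool.Agent.Lib.MP_9da1e3_co.KcE840
import Pool.Agent.Lib.MP_9da1e3_co.Kd0

set_option maxRecDepth 100000

namespace Pool.Agent.MP_9da1e3_co

theorem d830 : ckF 72 830 2105 (nuT 830) 1053 5016 5011 12 (cert 830 CL830) (cert 831 CL831) (cert 832 CL832) = true := by decide +kernel

theorem d831 : ckF 72 831 2107 (nuT 831) 1054 5017 5011 12 (cert 831 CL831) (cert 832 CL832) (cert 833 CL833) = true := by decide +kernel

theorem d832 : ckF 72 832 2109 (nuT 832) 1055 5017 5012 12 (cert 832 CL832) (cert 833 CL833) (cert 834 CL834) = true := by decide +kernel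

theorem d833 : ckF 72 833 2111 (nuT 833) 1056 5018 5012 12 (cert 833 CL833) (cert 834 CL834) (cert 835 CL835) = true := by decide +kernel

theorem d834 : ckF 72 834 2115 (nuT 834) 1058 5018 5013 12 (cert 834 CL834) (cert 835 CL835) (cert 836 CL836) = true := by decide +kernel

theorem d835 : ckF 72 835 2117 (nuT 835) 1059 5019 5014 12 (cert 835 CL835) (cert 836 CL836) (cert 837 CL837) = true := by decide +kernel

theorem d836 : ckF 72 836 2119 (nuT 836) 1060 5020 5014 12 (cert 836 CL836) (cert 837 CL837) (cert 838 CL838) = true := by decide +kernel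

theorem d837 : ckF 72 837 2121 (nuT 837) 1061 5020 5015 12 (cert 837 CL837) (cert 838 CL838) (cert 839 CL839) = true := by decide +kernel

theorem d838 : ckF 72 838 2125 (nuT 838) 1063 5021 5015 12 (cert 838 CL838) (cert 839 CL839) (cert 840 CL840) = true := by decide +kernel

theorem d839 : ckF 72 839 2127 (nuT 839) 1064 5021 5016 12 (cert 839 CL839) (cert 840 CL840) (cert 841 CL841) = true := by decide +kernel

end Pool.Agent.MP_9da1e3_co
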