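import Pool.Agent.Lib.MP_9da1e3_co.KcE840
import Pool.Agent.Lib.MP_9da1e3_co.KcE850
import Pool.Agent.Lib.MP_9da1e3_co.Kd0

set_option maxRecDepth 100000

namespace Pool.Agent.MP_9da1e3_co

theorem d840 : ckF 72 840 2129 (nuT 840) 1065 5022 5016 12 (cert 840 CL840) (cert 841 CL841) (cert 842 CL842) = true := by decide +kernel

theorem d841 : ckF 72 841 2131 (nuT 841) 1066 5022 5017 12 (cert 841 CL841) (cert 842 CL842) (cert 843 CL843) = true := by decide +kernel

theorem d842 : ckF 72 842 2135 (nuT 842) 1068 5023 5018 12 (cert 842 CL842) (cert 843 CL843) (cert 844 CL844) = true := by decide +kernel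

theorem d843 : ckF 72 843 2137 (nuT 843) 1069 5024 5018 12 (cert 843 CL843) (cert 844 CL844) (cert 845 CL845) = true := by decide +kernel

theorem d844 : ckF 72 844 2139 (nuT 844) 1070 5024 5019 12 (cert 844 CL844) (cert 845 CL845) (cert 846 CL846) = true := by decide +kernel

theorem d845 : ckF 72 845 2141 (nuT 845) 1071 5025 5019 12 (cert 845 CL845) (cert 846 CL846) (cert 847 CL847) = true := by decide +kernel

theorem d846 : ckF 72 846 2145 (nuT 846) 1073 5025 5020 12 (cert 846 CL846) (cert 847 CL847) (cert 848 CL848) = true := by decide +kernel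

theorem d847 : ckF 72 847 2147 (nuT 847) 1074 5026 5020 12 (cert 847 CL847) (cert 848 CL848) (cert 849 CL849) = true := by decide +kernel

theorem d848 : ckF 72 848 2149 (nuT 848) 1075 5026 5021 12 (cert 848 CL848) (cert 849 CL849) (cert 850 CL850) = true := by decide +kernel

theorem d849 : ckF 72 849 2151 (nuT 849) 1076 5027 5022 12 (cert 849 CL849) (cert 850 CL850) (cert 851 CL851) = true := by decide +kernel

end Pool.Agent.MP_9da1e3_co
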