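import Pool.Agent.Lib.MP_9da1e3_co.KcE850
import Pool.Agent.Lib.MP_9da1e3_co.KcE860
import Pool.Agent.Lib.MP_9da1e3_co.Kd0

set_option maxRecDepth 100000

namespace Pool.Agent.MP_9da1e3_co

theorem d850 : ckF 72 850 2155 (nuT 850) 1078 5027 5022 12 (cert 850 CL850) (cert 851 CL851) (cert 852 CL852) = true := by decide +kernel

theorem d851 : ckF 72 851 2157 (nuT 851) 1079 5028 5023 12 (cert 851 CL851) (cert 852 CL852) (cert 853 CL853) = true := by decide +kernel

theorem d852 : ckF 72 852 2159 (nuT 852) 1080 5029 5023 12 (cert 852 CL852) (cert 853 CL853) (cert 854 CL854) = true := by decide +kernel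

theorem d853 : ckF 72 853 2161 (nuT 853) 1081 5029 5024 12 (cert 853 CL853) (cert 854 CL854) (cert 855 CL855) = true := by decide +kernel

theorem d854 : ckF 72 854 2165 (nuT 854) 1083 5030 5024 12 (cert 854 CL854) (cert 855 CL855) (cert 856 CL856) = true := by decide +kernel

theorem d855 : ckF 72 855 2167 (nuT 855) 1084 5030 5025 12 (cert 855 CL855) (cert 856 CL856) (cert 857 CL857) = true := by decide +kernel

theorem d856 : ckF 72 856 2169 (nuT 856) 1085 5031 5026 12 (cert 856 CL856) (cert 857 CL857) (cert 858 CL858) = true := by decide +kernel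

theorem d857 : ckF 72 857 2171 (nuT 857) 1086 5031 5026 12 (cert 857 CL857) (cert 858 CL858) (cert 859 CL859) = true := by decide +kernel

theorem d858 : ckF 72 858 2175 (nuT 858) 1088 5032 5027 12 (cert 858 CL858) (cert 859 CL859) (cert 860 CL860) = true := by decide +kernel

theorem d859 : ckF 72 859 2177 (nuT 859) 1089 5032 5027 12 (cert 859 CL859) (cert 860 CL860) (cert 861 CL861) = true := by decide +kernel

end Pool.Agent.MP_9da1e3_co
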