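import Pool.Agent.Lib.MP_9da1e3_co.KcE860
import Pool.Agent.Lib.MP_9da1e3_co.KcE870
import Pool.Agent.Lib.MP_9da1e3_co.Kd0

set_option maxRecDepth 100000

namespace Pool.Agent.MP_9da1e3_co

theorem d860 : ckF 72 860 2179 (nuT 860) 1090 5033 5028 12 (cert 860 CL860) (cert 861 CL861) (cert 862 CL862) = true := by decide +kernel

theorem d861 : ckF 72 861 2181 (nuT 861) 1091 5034 5028 12 (cert 861 CL861) (cert 862 CL862) (cert 863 CL863) = true := by decide +kernel

theorem d862 : ckF 72 862 2185 (nuT 862) 1093 5034 5029 12 (cert 862 CL862) (cert 863 CL863) (cert 864 CL864) = true := by decide +kernel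

theorem d863 : ckF 72 863 2187 (nuT 863) 1094 5035 5029 12 (cert 863 CL863) (cert 864 CL864) (cert 865 CL865) = true := by decide +kernel

theorem d864 : ckF 72 864 2189 (nuT 864) 1095 5035 5030 12 (cert 864 CL864) (cert 865 CL865) (cert 866 CL866) = true := by decide +kernel

theorem d865 : ckF 72 865 2191 (nuT 865) 1096 5036 5031 12 (cert 865 CL865) (cert 866 CL866) (cert 867 CL867) = true := by decide +kernel

theorem d866 : ckF 72 866 2195 (nuT 866) 1098 5036 5031 12 (cert 866 CL866) (cert 867 CL867) (cert 868 CL868) = true := by decide +kernel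

theorem d867 : ckF 72 867 2197 (nuT 867) 1099 5037 5032 12 (cert 867 CL867) (cert 868 CL868) (cert 869 CL869) = true := by decide +kernel

theorem d868 : ckF 72 868 2199 (nuT 868) 1100 5037 5032 12 (cert 868 CL868) (cert 869 CL869) (cert 870 CL870) = true := by decide +kernel

theorem d869 : ckF 72 869 2201 (nuT 869) 1101 5038 5033 12 (cert 869 CL869) (cert 870 CL870) (cert 871 CL871) = true := by decide +kernel

end Pool.Agent.MP_9da1e3_co
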