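import Pool.Agent.Lib.MP_9da1e3_co.KcE870
import Pool.Agent.Lib.MP_9da1e3_co.KcE880
import Pool.Agent.Lib.MP_9da1e3_co.Kd0

set_option maxRecDepth 100000

namespace Pool.Agent.MP_9da1e3_co

theorem d870 : ckF 72 870 2205 (nuT 870) 1103 5039 5033 12 (cert 870 CL870) (cert 871 CL871) (cert 872 CL872) = true := by decide +kernel

theorem d871 : ckF 72 871 2207 (nuT 871) 1104 5039 5034 12 (cert 871 CL871) (cert 872 CL872) (cert 873 CL873) = true := by decide +kernel

theorem d872 : ckF 72 872 2209 (nuT 872) 1105 5040 5034 12 (cert 872 CL872) (cert 873 CL873) (cert 874 CL874) = true := by decide +kernel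

theorem d873 : ckF 72 873 2211 (nuT 873) 1106 5040 5035 12 (cert 873 CL873) (cert 874 CL874) (cert 875 CL875) = true := by decide +kernel

theorem d874 : ckF 72 874 2215 (nuT 874) 1108 5041 5035 12 (cert 874 CL874) (cert 875 CL875) (cert 876 CL876) = true := by decide +kernel

theorem d875 : ckF 72 875 2217 (nuT 875) 1109 5041 5036 12 (cert 875 CL875) (cert 876 CL876) (cert 877 CL877) = true := by decide +kernel

theorem d876 : ckF 72 876 2219 (nuT 876) 1110 5042 5037 12 (cert 876 CL876) (cert 877 CL877) (cert 878 CL878) = true := by decide +kernel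

theorem d877 : ckF 72 877 2221 (nuT 877) 1111 5042 5037 12 (cert 877 CL877) (cert 878 CL878) (cert 879 CL879) = true := by decide +kernel

theorem d878 : ckF 72 878 2225 (nuT 878) 1113 5043 5038 12 (cert 878 CL878) (cert 879 CL879) (cert 880 CL880) = true := by decide +kernel

theorem d879 : ckF 72 879 2227 (nuT 879) 1114 5043 5038 12 (cert 879 CL879) (cert 880 CL880) (cert 881 CL881) = true := by decide +kernel

end Pool.Agent.MP_9da1e3_co
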