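import Pool.Agent.Lib.MP_9da1e3_co.KcE880
import Pool.Agent.Lib.MP_9da1e3_co.KcE890
import Pool.Agent.Lib.MP_9da1e3_co.Kd0

set_option maxRecDepth 100000

namespace Pool.Agent.MP_9da1e3_co

theorem d880 : ckF 72 880 2229 (nuT 880) 1115 5044 5039 12 (cert 880 CL880) (cert 881 CL881) (cert 882 CL882) = true := by decide +kernel

theorem d881 : ckF 72 881 2231 (nuT 881) 1116 5044 5039 12 (cert 881 CL881) (cert 882 CL882) (cert 883 CL883) = true := by decide +kernel

theorem d882 : ckF 72 882 2235 (nuT 882) 1118 5045 5040 12 (cert 882 CL882) (cert 883 CL883) (cert 884 CL884) = true := by decide +kernel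

theorem d883 : ckF 72 883 2237 (nuT 883) 1119 5046 5040 12 (cert 883 CL883) (cert 884 CL884) (cert 885 CL885) = true := by decide +kernel

theorem d884 : ckF 72 884 2239 (nuT 884) 1120 5046 5041 12 (cert 884 CL884) (cert 885 CL885) (cert 886 CL886) = true := by decide +kernel

theorem d885 : ckF 72 885 2241 (nuT 885) 1121 5047 5041 12 (cert 885 CL885) (cert 886 CL886) (cert 887 CL887) = true := by decide +kernel

theorem d886 : ckF 72 886 2245 (nuT 886) 1123 5047 5042 12 (cert 886 CL886) (cert 887 CL887) (cert 888 CL888) = true := by decide +kernel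

theorem d887 : ckF 72 887 2247 (nuT 887) 1124 5048 5042 12 (cert 887 CL887) (cert 888 CL888) (cert 889 CL889) = true := by decide +kernel

theorem d888 : ckF 72 888 2249 (nuT 888) 1125 5048 5043 12 (cert 888 CL888) (cert 889 CL889) (cert 890 CL890) = true := by decide +kernel

theorem d889 : ckF 72 889 2251 (nuT 889) 1126 5049 5044 12 (cert 889 CL889) (cert 890 CL890) (cert 891 CL891) = true := by decide +kernel

end Pool.Agent.MP_9da1e3_co
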