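import Pool.Agent.Lib.MP_9da1e3_co.KcE890
import Pool.Agent.Lib.MP_9da1e3_co.KcE900
import Pool.Agent.Lib.MP_9da1e3_co.Kd0

set_option maxRecDepth 100000

namespace Pool.Agent.MP_9da1e3_co

theorem d890 : ckF 72 890 2255 (nuT 890) 1128 5049 5044 12 (cert 890 CL890) (cert 891 CL891) (cert 892 CL892) = true := by decide +kernel

theorem d891 : ckF 72 891 2257 (nuT 891) 1129 5050 5045 12 (cert 891 CL891) (cert 892 CL892) (cert 893 CL893) = true := by decide +kernel

theorem d892 : ckF 72 892 2259 (nuT 892) 1130 5050 5045 12 (cert 892 CL892) (cert 893 CL893) (cert 894 CL894) = true := by decide +kernel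

theorem d893 : ckF 72 893 2261 (nuT 893) 1131 5051 5046 12 (cert 893 CL893) (cert 894 CL894) (cert 895 CL895) = true := by decide +kernel

theorem d894 : ckF 72 894 2265 (nuT 894) 1133 5051 5046 12 (cert 894 CL894) (cert 895 CL895) (cert 896 CL896) = true := by decide +kernel

theorem d895 : ckF 72 895 2267 (nuT 895) 1134 5052 5047 12 (cert 895 CL895) (cert 896 CL896) (cert 897 CL897) = true := by decide +kernel

theorem d896 : ckF 72 896 2269 (nuT 896) 1135 5052 5047 12 (cert 896 CL896) (cert 897 CL897) (cert 898 CL898) = true := by decide +kernel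

theorem d897 : ckF 72 897 2271 (nuT 897) 1136 5053 5048 12 (cert 897 CL897) (cert 898 CL898) (cert 899 CL899) = true := by decide +kernel

theorem d898 : ckF 72 898 2275 (nuT 898) 1138 5053 5048 12 (cert 898 CL898) (cert 899 CL899) (cert 900 CL900) = true := by decide +kernel

theorem d899 : ckF 72 899 2277 (nuT 899) 1139 5054 5049 12 (cert 899 CL899) (cert 900 CL900) (cert 901 CL901) = true := by decide +kernel

end Pool.Agent.MP_9da1e3_co
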