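import Pool.Agent.Lib.MP_9da1e3_co.KcE100
import Pool.Agent.Lib.MP_9da1e3_co.KcE90
import Pool.Agent.Lib.MP_9da1e3_co.Kd0

set_option maxRecDepth 100000

namespace Pool.Agent.MP_9da1e3_co

theorem d90 : ckF 72 90 309 (nuT 90) 155 3552 3506 9 (cert 90 CL90) (cert 91 CL91) (cert 92 CL92) = true := by decide +kernel

theorem d91 : ckF 72 91 313 (nuT 91) 157 3564 3518 9 (cert 91 CL91) (cert 92 CL92) (cert 93 CL93) = true := by decide +kernel

theorem d92 : ckF 72 92 315 (nuT 92) 158 3567 3522 9 (cert 92 CL92) (cert 93 CL93) (cert 94 CL94) = true := by decide +kernel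

theorem d93 : ckF 72 93 319 (nuT 93) 160 3579 3534 9 (cert 93 CL93) (cert 94 CL94) (cert 95 CL95) = true := by decide +kernel

theorem d94 : ckF 72 94 321 (nuT 94) 161 3581 3538 9 (cert 94 CL94) (cert 95 CL95) (cert 96 CL96) = true := by decide +kernel

theorem d95 : ckF 72 95 325 (nuT 95) 163 3593 3550 9 (cert 95 CL95) (cert 96 CL96) (cert 97 CL97) = true := by decide +kernel

theorem d96 : ckF 72 96 327 (nuT 96) 164 3596 3553 9 (cert 96 CL96) (cert 97 CL97) (cert 98 CL98) = true := by decide +kernel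

theorem d97 : ckF 72 97 331 (nuT 97) 166 3607 3565 9 (cert 97 CL97) (cert 98 CL98) (cert 99 CL99) = true := by decide +kernel

theorem d98 : ckF 72 98 333 (nuT 98) 167 3610 3568 9 (cert 98 CL98) (cert 99 CL99) (cert 100 CL100) = true := by decide +kernel

theorem d99 : ckF 72 99 337 (nuT 99) 169 3621 3580 9 (cert 99 CL99) (cert 100 CL100) (cert 101 CL101) = true := by decide +kernel

end Pool.Agent.MP_9da1e3_co
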