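import Pool.Agent.Lib.MP_9da1e3_co.KcE900
import Pool.Agent.Lib.MP_9da1e3_co.KcE910
import Pool.Agent.Lib.MP_9da1e3_co.Kd0

set_option maxRecDepth 100000

namespace Pool.Agent.MP_9da1e3_co

theorem d900 : ckF 72 900 2279 (nuT 900) 1140 5054 5049 12 (cert 900 CL900) (cert 901 CL901) (cert 902 CL902) = true := by decide +kernel

theorem d901 : ckF 72 901 2281 (nuT 901) 1141 5055 5050 12 (cert 901 CL901) (cert 902 CL902) (cert 903 CL903) = true := by decide +kernel

theorem d902 : ckF 72 902 2285 (nuT 902) 1143 5056 5050 12 (cert 902 CL902) (cert 903 CL903) (cert 904 CL904) = true := by decide +kernel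

theorem d903 : ckF 72 903 2287 (nuT 903) 1144 5056 5051 12 (cert 903 CL903) (cert 904 CL904) (cert 905 CL905) = true := by decide +kernel

theorem d904 : ckF 72 904 2289 (nuT 904) 1145 5057 5051 12 (cert 904 CL904) (cert 905 CL905) (cert 906 CL906) = true := by decide +kernel

theorem d905 : ckF 72 905 2291 (nuT 905) 1146 5057 5052 12 (cert 905 CL905) (cert 906 CL906) (cert 907 CL907) = true := by decide +kernel

theorem d906 : ckF 72 906 2295 (nuT 906) 1148 5058 5053 12 (cert 906 CL906) (cert 907 CL907) (cert 908 CL908) = true := by decide +kernel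

theorem d907 : ckF 72 907 2297 (nuT 907) 1149 5058 5053 12 (cert 907 CL907) (cert 908 CL908) (cert 909 CL909) = true := by decide +kernel

theorem d908 : ckF 72 908 2299 (nuT 908) 1150 5059 5054 12 (cert 908 CL908) (cert 909 CL909) (cert 910 CL910) = true := by decide +kernel

theorem d909 : ckF 72 909 2301 (nuT 909) 1151 5059 5054 12 (cert 909 CL909) (cert 910 CL910) (cert 911 CL911) = true := by decide +kernel

end Pool.Agent.MP_9da1e3_co
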