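import Pool.Agent.Lib.MP_9da1e3_co.KcE910
import Pool.Agent.Lib.MP_9da1e3_co.KcE920
import Pool.Agent.Lib.MP_9da1e3_co.Kd0

set_option maxRecDepth 100000

namespace Pool.Agent.MP_9da1e3_co

theorem d910 : ckF 72 910 2305 (nuT 910) 1153 5060 5055 12 (cert 910 CL910) (cert 911 CL911) (cert 912 CL912) = true := by decide +kernel

theorem d911 : ckF 72 911 2307 (nuT 911) 1154 5060 5055 12 (cert 911 CL911) (cert 912 CL912) (cert 913 CL913) = true := by decide +kernel

theorem d912 : ckF 72 912 2309 (nuT 912) 1155 5061 5056 12 (cert 912 CL912) (cert 913 CL913) (cert 914 CL914) = true := by decide +kernel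

theorem d913 : ckF 72 913 2311 (nuT 913) 1156 5061 5056 12 (cert 913 CL913) (cert 914 CL914) (cert 915 CL915) = true := by decide +kernel

theorem d914 : ckF 72 914 2315 (nuT 914) 1158 5062 5057 12 (cert 914 CL914) (cert 915 CL915) (cert 916 CL916) = true := by decide +kernel

theorem d915 : ckF 72 915 2317 (nuT 915) 1159 5062 5057 12 (cert 915 CL915) (cert 916 CL916) (cert 917 CL917) = true := by decide +kernel

theorem d916 : ckF 72 916 2319 (nuT 916) 1160 5063 5058 12 (cert 916 CL916) (cert 917 CL917) (cert 918 CL918) = true := by decide +kernel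

theorem d917 : ckF 72 917 2321 (nuT 917) 1161 5063 5058 12 (cert 917 CL917) (cert 918 CL918) (cert 919 CL919) = true := by decide +kernel

theorem d918 : ckF 72 918 2325 (nuT 918) 1163 5064 5059 12 (cert 918 CL918) (cert 919 CL919) (cert 920 CL920) = true := by decide +kernel

theorem d919 : ckF 72 919 2327 (nuT 919) 1164 5064 5059 12 (cert 919 CL919) (cert 920 CL920) (cert 921 CL921) = true := by decide +kernel

end Pool.Agent.MP_9da1e3_co
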