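import Pool.Agent.Lib.MP_9da1e3_co.KcE920
import Pool.Agent.Lib.MP_9da1e3_co.KcE930
import Pool.Agent.Lib.MP_9da1e3_co.Kd0

set_option maxRecDepth 100000

namespace Pool.Agent.MP_9da1e3_co

theorem d920 : ckF 72 920 2329 (nuT 920) 1165 5065 5060 12 (cert 920 CL920) (cert 921 CL921) (cert 922 CL922) = true := by decide +kernel

theorem d921 : ckF 72 921 2331 (nuT 921) 1166 5065 5060 12 (cert 921 CL921) (cert 922 CL922) (cert 923 CL923) = true := by decide +kernel

theorem d922 : ckF 72 922 2335 (nuT 922) 1168 5066 5061 12 (cert 922 CL922) (cert 923 CL923) (cert 924 CL924) = true := by decide +kernel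

theorem d923 : ckF 72 923 2337 (nuT 923) 1169 5066 5061 12 (cert 923 CL923) (cert 924 CL924) (cert 925 CL925) = true := by decide +kernel

theorem d924 : ckF 72 924 2339 (nuT 924) 1170 5067 5062 12 (cert 924 CL924) (cert 925 CL925) (cert 926 CL926) = true := by decide +kernel

theorem d925 : ckF 72 925 2341 (nuT 925) 1171 5067 5062 12 (cert 925 CL925) (cert 926 CL926) (cert 927 CL927) = true := by decide +kernel

theorem d926 : ckF 72 926 2345 (nuT 926) 1173 5068 5063 12 (cert 926 CL926) (cert 927 CL927) (cert 928 CL928) = true := by decide +kernel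

theorem d927 : ckF 72 927 2347 (nuT 927) 1174 5068 5063 12 (cert 927 CL927) (cert 928 CL928) (cert 929 CL929) = true := by decide +kernel

theorem d928 : ckF 72 928 2349 (nuT 928) 1175 5069 5064 12 (cert 928 CL928) (cert 929 CL929) (cert 930 CL930) = true := by decide +kernel

theorem d929 : ckF 72 929 2351 (nuT 929) 1176 5069 5064 12 (cert 929 CL929) (cert 930 CL930) (cert 931 CL931) = true := by decide +kernel

end Pool.Agent.MP_9da1e3_co
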