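import Pool.Agent.Lib.MP_9da1e3_co.KcE930
import Pool.Agent.Lib.MP_9da1e3_co.KcE940
import Pool.Agent.Lib.MP_9da1e3_co.Kd0

set_option maxRecDepth 100000

namespace Pool.Agent.MP_9da1e3_co

theorem d930 : ckF 72 930 2355 (nuT 930) 1178 5070 5065 12 (cert 930 CL930) (cert 931 CL931) (cert 932 CL932) = true := by decide +kernel

theorem d931 : ckF 72 931 2357 (nuT 931) 1179 5070 5065 12 (cert 931 CL931) (cert 932 CL932) (cert 933 CL933) = true := by decide +kernel

theorem d932 : ckF 72 932 2359 (nuT 932) 1180 5071 5066 12 (cert 932 CL932) (cert 933 CL933) (cert 934 CL934) = true := by decide +kernel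

theorem d933 : ckF 72 933 2361 (nuT 933) 1181 5071 5066 12 (cert 933 CL933) (cert 934 CL934) (cert 935 CL935) = true := by decide +kernel

theorem d934 : ckF 72 934 2365 (nuT 934) 1183 5072 5067 12 (cert 934 CL934) (cert 935 CL935) (cert 936 CL936) = true := by decide +kernel

theorem d935 : ckF 72 935 2367 (nuT 935) 1184 5072 5067 12 (cert 935 CL935) (cert 936 CL936) (cert 937 CL937) = true := by decide +kernel

theorem d936 : ckF 72 936 2369 (nuT 936) 1185 5073 5068 12 (cert 936 CL936) (cert 937 CL937) (cert 938 CL938) = true := by decide +kernel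

theorem d937 : ckF 72 937 2371 (nuT 937) 1186 5073 5068 12 (cert 937 CL937) (cert 938 CL938) (cert 939 CL939) = true := by decide +kernel

theorem d938 : ckF 72 938 2375 (nuT 938) 1188 5074 5069 12 (cert 938 CL938) (cert 939 CL939) (cert 940 CL940) = true := by decide +kernel

theorem d939 : ckF 72 939 2377 (nuT 939) 1189 5074 5069 12 (cert 939 CL939) (cert 940 CL940) (cert 941 CL941) = true := by decide +kernel

end Pool.Agent.MP_9da1e3_co
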