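import Pool.Agent.Lib.MP_9da1e3_co.KcE940
import Pool.Agent.Lib.MP_9da1e3_co.KcE950
import Pool.Agent.Lib.MP_9da1e3_co.Kd0

set_option maxRecDepth 100000

namespace Pool.Agent.MP_9da1e3_co

theorem d940 : ckF 72 940 2379 (nuT 940) 1190 5075 5070 12 (cert 940 CL940) (cert 941 CL941) (cert 942 CL942) = true := by decide +kernel

theorem d941 : ckF 72 941 2381 (nuT 941) 1191 5075 5070 12 (cert 941 CL941) (cert 942 CL942) (cert 943 CL943) = true := by decide +kernel

theorem d942 : ckF 72 942 2385 (nuT 942) 1193 5076 5071 12 (cert 942 CL942) (cert 943 CL943) (cert 944 CL944) = true := by decide +kernel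

theorem d943 : ckF 72 943 2387 (nuT 943) 1194 5076 5071 12 (cert 943 CL943) (cert 944 CL944) (cert 945 CL945) = true := by decide +kernel

theorem d944 : ckF 72 944 2389 (nuT 944) 1195 5077 5072 12 (cert 944 CL944) (cert 945 CL945) (cert 946 CL946) = true := by decide +kernel

theorem d945 : ckF 72 945 2391 (nuT 945) 1196 5077 5072 12 (cert 945 CL945) (cert 946 CL946) (cert 947 CL947) = true := by decide +kernel

theorem d946 : ckF 72 946 2395 (nuT 946) 1198 5078 5073 12 (cert 946 CL946) (cert 947 CL947) (cert 948 CL948) = true := by decide +kernel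

theorem d947 : ckF 72 947 2397 (nuT 947) 1199 5078 5073 12 (cert 947 CL947) (cert 948 CL948) (cert 949 CL949) = true := by decide +kernel

theorem d948 : ckF 72 948 2399 (nuT 948) 1200 5079 5074 12 (cert 948 CL948) (cert 949 CL949) (cert 950 CL950) = true := by decide +kernel

theorem d949 : ckF 72 949 2401 (nuT 949) 1201 5079 5074 12 (cert 949 CL949) (cert 950 CL950) (cert 951 CL951) = true := by decide +kernel

end Pool.Agent.MP_9da1e3_co
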