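import Pool.Agent.Lib.MP_9da1e3_co.KcE950
import Pool.Agent.Lib.MP_9da1e3_co.KcE960
import Pool.Agent.Lib.MP_9da1e3_co.Kd0

set_option maxRecDepth 100000

namespace Pool.Agent.MP_9da1e3_co

theorem d950 : ckF 72 950 2405 (nuT 950) 1203 5080 5075 12 (cert 950 CL950) (cert 951 CL951) (cert 952 CL952) = true := by decide +kernel

theorem d951 : ckF 72 951 2407 (nuT 951) 1204 5080 5075 12 (cert 951 CL951) (cert 952 CL952) (cert 953 CL953) = true := by decide +kernel

theorem d952 : ckF 72 952 2409 (nuT 952) 1205 5081 5076 12 (cert 952 CL952) (cert 953 CL953) (cert 954 CL954) = true := by decide +kernel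

theorem d953 : ckF 72 953 2411 (nuT 953) 1206 5081 5076 12 (cert 953 CL953) (cert 954 CL954) (cert 955 CL955) = true := by decide +kernel

theorem d954 : ckF 72 954 2415 (nuT 954) 1208 5082 5077 12 (cert 954 CL954) (cert 955 CL955) (cert 956 CL956) = true := by decide +kernel

theorem d955 : ckF 72 955 2417 (nuT 955) 1209 5082 5077 12 (cert 955 CL955) (cert 956 CL956) (cert 957 CL957) = true := by decide +kernel

theorem d956 : ckF 72 956 2419 (nuT 956) 1210 5082 5078 12 (cert 956 CL956) (cert 957 CL957) (cert 958 CL958) = true := by decide +kernel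

theorem d957 : ckF 72 957 2421 (nuT 957) 1211 5083 5078 12 (cert 957 CL957) (cert 958 CL958) (cert 959 CL959) = true := by decide +kernel

theorem d958 : ckF 72 958 2425 (nuT 958) 1213 5083 5079 12 (cert 958 CL958) (cert 959 CL959) (cert 960 CL960) = true := by decide +kernel

theorem d959 : ckF 72 959 2427 (nuT 959) 1214 5084 5079 12 (cert 959 CL959) (cert 960 CL960) (cert 961 CL961) = true := by decide +kernel

end Pool.Agent.MP_9da1e3_co
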