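import Pool.Agent.Lib.MP_9da1e3_co.KcE960
import Pool.Agent.Lib.MP_9da1e3_co.KcE970
import Pool.Agent.Lib.MP_9da1e3_co.Kd0

set_option maxRecDepth 100000

namespace Pool.Agent.MP_9da1e3_co

theorem d960 : ckF 72 960 2429 (nuT 960) 1215 5084 5080 12 (cert 960 CL960) (cert 961 CL961) (cert 962 CL962) = true := by decide +kernel

theorem d961 : ckF 72 961 2431 (nuT 961) 1216 5085 5080 12 (cert 961 CL961) (cert 962 CL962) (cert 963 CL963) = true := by decide +kernel

theorem d962 : ckF 72 962 2435 (nuT 962) 1218 5085 5081 12 (cert 962 CL962) (cert 963 CL963) (cert 964 CL964) = true := by decide +kernel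

theorem d963 : ckF 72 963 2437 (nuT 963) 1219 5086 5081 12 (cert 963 CL963) (cert 964 CL964) (cert 965 CL965) = true := by decide +kernel

theorem d964 : ckF 72 964 2439 (nuT 964) 1220 5086 5081 12 (cert 964 CL964) (cert 965 CL965) (cert 966 CL966) = true := by decide +kernel

theorem d965 : ckF 72 965 2441 (nuT 965) 1221 5087 5082 12 (cert 965 CL965) (cert 966 CL966) (cert 967 CL967) = true := by decide +kernel

theorem d966 : ckF 72 966 2445 (nuT 966) 1223 5087 5082 12 (cert 966 CL966) (cert 967 CL967) (cert 968 CL968) = true := by decide +kernel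

theorem d967 : ckF 72 967 2447 (nuT 967) 1224 5088 5083 12 (cert 967 CL967) (cert 968 CL968) (cert 969 CL969) = true := by decide +kernel

theorem d968 : ckF 72 968 2449 (nuT 968) 1225 5088 5083 12 (cert 968 CL968) (cert 969 CL969) (cert 970 CL970) = true := by decide +kernel

theorem d969 : ckF 72 969 2451 (nuT 969) 1226 5089 5084 12 (cert 969 CL969) (cert 970 CL970) (cert 971 CL971) = true := by decide +kernel

end Pool.Agent.MP_9da1e3_co
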