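import Pool.Agent.Lib.MP_9da1e3_co.KcE970
import Pool.Agent.Lib.MP_9da1e3_co.KcE980
import Pool.Agent.Lib.MP_9da1e3_co.Kd0

set_option maxRecDepth 100000

namespace Pool.Agent.MP_9da1e3_co

theorem d970 : ckF 72 970 2455 (nuT 970) 1228 5089 5084 12 (cert 970 CL970) (cert 971 CL971) (cert 972 CL972) = true := by decide +kernel

theorem d971 : ckF 72 971 2457 (nuT 971) 1229 5090 5085 12 (cert 971 CL971) (cert 972 CL972) (cert 973 CL973) = true := by decide +kernel

theorem d972 : ckF 72 972 2459 (nuT 972) 1230 5090 5085 12 (cert 972 CL972) (cert 973 CL973) (cert 974 CL974) = true := by decide +kernel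

theorem d973 : ckF 72 973 2461 (nuT 973) 1231 5091 5086 12 (cert 973 CL973) (cert 974 CL974) (cert 975 CL975) = true := by decide +kernel

theorem d974 : ckF 72 974 2465 (nuT 974) 1233 5091 5086 12 (cert 974 CL974) (cert 975 CL975) (cert 976 CL976) = true := by decide +kernel

theorem d975 : ckF 72 975 2467 (nuT 975) 1234 5091 5087 12 (cert 975 CL975) (cert 976 CL976) (cert 977 CL977) = true := by decide +kernel

theorem d976 : ckF 72 976 2469 (nuT 976) 1235 5092 5087 12 (cert 976 CL976) (cert 977 CL977) (cert 978 CL978) = true := by decide +kernel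

theorem d977 : ckF 72 977 2471 (nuT 977) 1236 5092 5088 12 (cert 977 CL977) (cert 978 CL978) (cert 979 CL979) = true := by decide +kernel

theorem d978 : ckF 72 978 2475 (nuT 978) 1238 5093 5088 12 (cert 978 CL978) (cert 979 CL979) (cert 980 CL980) = true := by decide +kernel

theorem d979 : ckF 72 979 2477 (nuT 979) 1239 5093 5089 12 (cert 979 CL979) (cert 980 CL980) (cert 981 CL981) = true := by decide +kernel

end Pool.Agent.MP_9da1e3_co
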