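import Pool.Agent.Lib.MP_9da1e3_co.KcE980
import Pool.Agent.Lib.MP_9da1e3_co.KcE990
import Pool.Agent.Lib.MP_9da1e3_co.Kd0

set_option maxRecDepth 100000

namespace Pool.Agent.MP_9da1e3_co

theorem d980 : ckF 72 980 2479 (nuT 980) 1240 5094 5089 12 (cert 980 CL980) (cert 981 CL981) (cert 982 CL982) = true := by decide +kernel

theorem d981 : ckF 72 981 2481 (nuT 981) 1241 5094 5090 12 (cert 981 CL981) (cert 982 CL982) (cert 983 CL983) = true := by decide +kernel

theorem d982 : ckF 72 982 2485 (nuT 982) 1243 5095 5090 12 (cert 982 CL982) (cert 983 CL983) (cert 984 CL984) = true := by decide +kernel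

theorem d983 : ckF 72 983 2487 (nuT 983) 1244 5095 5090 12 (cert 983 CL983) (cert 984 CL984) (cert 985 CL985) = true := by decide +kernel

theorem d984 : ckF 72 984 2489 (nuT 984) 1245 5096 5091 12 (cert 984 CL984) (cert 985 CL985) (cert 986 CL986) = true := by decide +kernel

theorem d985 : ckF 72 985 2491 (nuT 985) 1246 5096 5091 12 (cert 985 CL985) (cert 986 CL986) (cert 987 CL987) = true := by decide +kernel

theorem d986 : ckF 72 986 2495 (nuT 986) 1248 5097 5092 12 (cert 986 CL986) (cert 987 CL987) (cert 988 CL988) = true := by decide +kernel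

theorem d987 : ckF 72 987 2497 (nuT 987) 1249 5097 5092 12 (cert 987 CL987) (cert 988 CL988) (cert 989 CL989) = true := by decide +kernel

theorem d988 : ckF 72 988 2499 (nuT 988) 1250 5098 5093 12 (cert 988 CL988) (cert 989 CL989) (cert 990 CL990) = true := by decide +kernel

theorem d989 : ckF 72 989 2501 (nuT 989) 1251 5098 5093 12 (cert 989 CL989) (cert 990 CL990) (cert 991 CL991) = true := by decide +kernel

end Pool.Agent.MP_9da1e3_co
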