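import Pool.Agent.Lib.MP_9da1e3_co.KcE1000
import Pool.Agent.Lib.MP_9da1e3_co.KcE990
import Pool.Agent.Lib.MP_9da1e3_co.Kd0

set_option maxRecDepth 100000

namespace Pool.Agent.MP_9da1e3_co

theorem d990 : ckF 72 990 2505 (nuT 990) 1253 5098 5094 12 (cert 990 CL990) (cert 991 CL991) (cert 992 CL992) = true := by decide +kernel

theorem d991 : ckF 72 991 2507 (nuT 991) 1254 5099 5094 12 (cert 991 CL991) (cert 992 CL992) (cert 993 CL993) = true := by decide +kernel

theorem d992 : ckF 72 992 2509 (nuT 992) 1255 5099 5095 12 (cert 992 CL992) (cert 993 CL993) (cert 994 CL994) = true := by decide +kernel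

theorem d993 : ckF 72 993 2511 (nuT 993) 1256 5100 5095 12 (cert 993 CL993) (cert 994 CL994) (cert 995 CL995) = true := by decide +kernel

theorem d994 : ckF 72 994 2515 (nuT 994) 1258 5100 5096 12 (cert 994 CL994) (cert 995 CL995) (cert 996 CL996) = true := by decide +kernel

theorem d995 : ckF 72 995 2517 (nuT 995) 1259 5101 5096 12 (cert 995 CL995) (cert 996 CL996) (cert 997 CL997) = true := by decide +kernel

theorem d996 : ckF 72 996 2519 (nuT 996) 1260 5101 5097 12 (cert 996 CL996) (cert 997 CL997) (cert 998 CL998) = true := by decide +kernel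

theorem d997 : ckF 72 997 2521 (nuT 997) 1261 5102 5097 12 (cert 997 CL997) (cert 998 CL998) (cert 999 CL999) = true := by decide +kernel

theorem d998 : ckF 72 998 2525 (nuT 998) 1263 5102 5097 12 (cert 998 CL998) (cert 999 CL999) (cert 1000 CL1000) = true := by decide +kernel

theorem d999 : ckF 72 999 2527 (nuT 999) 1264 5103 5098 12 (cert 999 CL999) (cert 1000 CL1000) (cert 1001 CL1001) = true := by decide +kernel

end Pool.Agent.MP_9da1e3_co
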