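import Pool.Agent.Lib.MP_9da1e3_co.Kd1
import Pool.Agent.Lib.MP_9da1e3_co.KcG0
import Pool.Agent.Lib.MP_9da1e3_co.KdD5
import Pool.Agent.Lib.MP_9da1e3_co.KdD40
import Pool.Agent.Lib.MP_9da1e3_co.KdD50
import Pool.Agent.Lib.MP_9da1e3_co.KdD60
import Pool.Agent.Lib.MP_9da1e3_co.KdD70
import Pool.Agent.Lib.MP_9da1e3_co.KdD80
import Pool.Agent.Lib.MP_9da1e3_co.KdD90

set_option maxRecDepth 100000

namespace Pool.Agent.MP_9da1e3_co

theorem fL0 : FarP 0 (nuT 0) :=
  farS (by decide) sL0 (by decide)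

theorem fL1 : FarP 1 (nuT 1) :=
  farS (by decide) sL1 (by decide)

theorem fL2 : FarP 2 (nuT 2) :=
  farS (by decide) sL2 (by decide)

theorem fL3 : FarP 3 (nuT 3) :=
  farS (by decide) sL3 (by decide)

theorem fL4 : FarP 4 (nuT 4) :=
  farS (by decide) sL4 (by decide)

theorem fL5 : FarP 5 (nuT 5) :=
  farK (by decide) eH5 eH6 eH7 d5 sL5

theorem fL6 : FarP 6 (nuT 6) :=
  farK (by decide) eH6 eH7 eH8 d6 sL6

theorem fL7 : FarP 7 (nuT 7) :=
  farK (by decide) eH7 eH8 eH9 d7 sL7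

theorem fL8 : FarP 8 (nuT 8) :=
  farK (by decide) eH8 eH9 eH10 d8 sL8

theorem fL9 : FarP 9 (nuT 9) :=
  farK (by decide) eH9 eH10 eH11 d9 sL9

theorem fL10 : FarP 10 (nuT 10) :=
  farK (by decide) eH10 eH11 eH12 d10 sL10

theorem fL11 : FarP 11 (nuT 11) :=
  farK (by decide) eH11 eH12 eH13 d11 sL11

theorem fL12 : FarP 12 (nuT 12) :=
  farK (by decide) eH12 eH13 eH14 d12 sL12

theorem fL13 : FarP 13 (nuT 13) :=
  farK (by decide) eH13 eH14 eH15 d13 sL13

theorem fL14 : FarP 14 (nuT 14) :=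
  farK (by decide) eH14 eH15 eH16 d14 sL14

theorem fL15 : FarP 15 (nuT 15) :=
  farK (by decide) eH15 eH16 eH17 d15 sL15

theorem fL16 : FarP 16 (nuT 16) :=
  farK (by decide) eH16 eH17 eH18 d16 sL16

theorem fL17 : FarP 17 (nuT 17) :=
  farK (by decide) eH17 eH18 eH19 d17 sL17

theorem fL18 : FarP 18 (nuT 18) :=
  farK (by decide) eH18 eH19 eH20 d18 sL18

theorem fL19 : FarP 19 (nuT 19) :=
  farK (by decide) eH19 eH20 eH21 d19 sL19

theorem fL20 : FarP 20 (nuT 20) :=
  farK (by decide) eH20 eH21 eH22 d20 sL20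

theorem fL21 : FarP 21 (nuT 21) :=
  farK (by decide) eH21 eH22 eH23 d21 sL21

theorem fL22 : FarP 22 (nuT 22) :=
  farK (by decide) eH22 eH23 eH24 d22 sL22

theorem fL23 : FarP 23 (nuT 23) :=
  farK (by decide) eH23 eH24 eH25 d23 sL23

theorem fL24 : FarP 24 (nuT 24) :=
  farK (by decide) eH24 eH25 eH26 d24 sL24

theorem fL25 : FarP 25 (nuT 25) :=
  farK (by decide) eH25 eH26 eH27 d25 sL25

theorem fL26 : FarP 26 (nuT 26) :=
  farK (by decide) eH26 eH27 eH28 d26 sL26

theorem fL27 : FarP 27 (nuT 27) :=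
  farK (by decide) eH27 eH28 eH29 d27 sL27

theorem fL28 : FarP 28 (nuT 28) :=
  farK (by decide) eH28 eH29 eH30 d28 sL28

theorem fL29 : FarP 29 (nuT 29) :=
  farK (by decide) eH29 eH30 eH31 d29 sL29

theorem fL30 : FarP 30 (nuT 30) :=
  farK (by decide) eH30 eH31 eH32 d30 sL30

theorem fL31 : FarP 31 (nuT 31) :=
  farK (by decide) eH31 eH32 eH33 d31 sL31

theorem fL32 : FarP 32 (nuT 32) :=
  farK (by decide) eH32 eH33 eH34 d32 sL32

theorem fL33 : FarP 33 (nuT 33) :=
  farK (by decide) eH33 eH34 eH35 d33 sL33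

theorem fL34 : FarP 34 (nuT 34) :=
  farK (by decide) eH34 eH35 eH36 d34 sL34

theorem fL35 : FarP 35 (nuT 35) :=
  farK (by decide) eH35 eH36 eH37 d35 sL35

theorem fL36 : FarP 36 (nuT 36) :=
  farK (by decide) eH36 eH37 eH38 d36 sL36

theorem fL37 : FarP 37 (nuT 37) :=
  farK (by decide) eH37 eH38 eH39 d37 sL37

theorem fL38 : FarP 38 (nuT 38) :=
  farK (by decide) eH38 eH39 eH40 d38 sL38

theorem fL39 : FarP 39 (nuT 39) :=
  farK (by decide) eH39 eH40 eH41 d39 sL39

theorem fL40 : FarP 40 (nuT 40) :=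
  farK (by decide) eL40 eL41 eL42 d40 sL40

theorem fL41 : FarP 41 (nuT 41) :=
  farK (by decide) eL41 eL42 eL43 d41 sL41

theorem fL42 : FarP 42 (nuT 42) :=
  farK (by decide) eL42 eL43 eL44 d42 sL42

theorem fL43 : FarP 43 (nuT 43) :=
  farK (by decide) eL43 eL44 eL45 d43 sL43

theorem fL44 : FarP 44 (nuT 44) :=
  farK (by decide) eL44 eL45 eL46 d44 sL44

theorem fL45 : FarP 45 (nuT 45) :=
  farK (by decide) eL45 eL46 eL47 d45 sL45

theorem fL46 : FarP 46 (nuT 46) :=
  farK (by decide) eL46 eL47 eL48 d46 sL46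

theorem fL47 : FarP 47 (nuT 47) :=
  farK (by decide) eL47 eL48 eL49 d47 sL47

theorem fL48 : FarP 48 (nuT 48) :=
  farK (by decide) eL48 eL49 eL50 d48 sL48

theorem fL49 : FarP 49 (nuT 49) :=
  farK (by decide) eL49 eL50 eL51 d49 sL49

theorem fL50 : FarP 50 (nuT 50) :=
  farK (by decide) eL50 eL51 eL52 d50 sL50

theorem fL51 : FarP 51 (nuT 51) :=
  farK (by decide) eL51 eL52 eL53 d51 sL51

theorem fL52 : FarP 52 (nuT 52) :=
  farK (by decide) eL52 eL53 eL54 d52 sL52

theorem fL53 : FarP 53 (nuT 53) :=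
  farK (by decide) eL53 eL54 eL55 d53 sL53

theorem fL54 : FarP 54 (nuT 54) :=
  farK (by decide) eL54 eL55 eL56 d54 sL54

theorem fL55 : FarP 55 (nuT 55) :=
  farK (by decide) eL55 eL56 eL57 d55 sL55

theorem fL56 : FarP 56 (nuT 56) :=
  farK (by decide) eL56 eL57 eL58 d56 sL56

theorem fL57 : FarP 57 (nuT 57) :=
  farK (by decide) eL57 eL58 eL59 d57 sL57

theorem fL58 : FarP 58 (nuT 58) :=
  farK (by decide) eL58 eL59 eL60 d58 sL58

theorem fL59 : FarP 59 (nuT 59) :=
  farK (by decide) eL59 eL60 eL61 d59 sL59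

theorem fL60 : FarP 60 (nuT 60) :=
  farK (by decide) eL60 eL61 eL62 d60 sL60

theorem fL61 : FarP 61 (nuT 61) :=
  farK (by decide) eL61 eL62 eL63 d61 sL61

theorem fL62 : FarP 62 (nuT 62) :=
  farK (by decide) eL62 eL63 eL64 d62 sL62

theorem fL63 : FarP 63 (nuT 63) :=
  farK (by decide) eL63 eL64 eL65 d63 sL63

theorem fL64 : FarP 64 (nuT 64) :=
  farK (by decide) eL64 eL65 eL66 d64 sL64

theorem fL65 : FarP 65 (nuT 65) :=
  farK (by decide) eL65 eL66 eL67 d65 sL65

theorem fL66 : FarP 66 (nuT 66) :=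
  farK (by decide) eL66 eL67 eL68 d66 sL66

theorem fL67 : FarP 67 (nuT 67) :=
  farK (by decide) eL67 eL68 eL69 d67 sL67

theorem fL68 : FarP 68 (nuT 68) :=
  farK (by decide) eL68 eL69 eL70 d68 sL68

theorem fL69 : FarP 69 (nuT 69) :=
  farK (by decide) eL69 eL70 eL71 d69 sL69

theorem fL70 : FarP 70 (nuT 70) :=
  farK (by decide) eL70 eL71 eL72 d70 sL70

theorem fL71 : FarP 71 (nuT 71) :=
  farK (by decide) eL71 eL72 eL73 d71 sL71

theorem fL72 : FarP 72 (nuT 72) :=
  farK (by decide) eL72 eL73 eL74 d72 sL72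

theorem fL73 : FarP 73 (nuT 73) :=
  farK (by decide) eL73 eL74 eL75 d73 sL73

theorem fL74 : FarP 74 (nuT 74) :=
  farK (by decide) eL74 eL75 eL76 d74 sL74

theorem fL75 : FarP 75 (nuT 75) :=
  farK (by decide) eL75 eL76 eL77 d75 sL75

theorem fL76 : FarP 76 (nuT 76) :=
  farK (by decide) eL76 eL77 eL78 d76 sL76

theorem fL77 : FarP 77 (nuT 77) :=
  farK (by decide) eL77 eL78 eL79 d77 sL77

theorem fL78 : FarP 78 (nuT 78) :=
  farK (by decide) eL78 eL79 eL80 d78 sL78

theorem fL79 : FarP 79 (nuT 79) :=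
  farK (by decide) eL79 eL80 eL81 d79 sL79

theorem fL80 : FarP 80 (nuT 80) :=
  farK (by decide) eL80 eL81 eL82 d80 sL80

theorem fL81 : FarP 81 (nuT 81) :=
  farK (by decide) eL81 eL82 eL83 d81 sL81

theorem fL82 : FarP 82 (nuT 82) :=
  farK (by decide) eL82 eL83 eL84 d82 sL82

theorem fL83 : FarP 83 (nuT 83) :=
  farK (by decide) eL83 eL84 eL85 d83 sL83

theorem fL84 : FarP 84 (nuT 84) :=
  farK (by decide) eL84 eL85 eL86 d84 sL84

theorem fL85 : FarP 85 (nuT 85) :=
  farK (by decide) eL85 eL86 eL87 d85 sL85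

theorem fL86 : FarP 86 (nuT 86) :=
  farK (by decide) eL86 eL87 eL88 d86 sL86

theorem fL87 : FarP 87 (nuT 87) :=
  farK (by decide) eL87 eL88 eL89 d87 sL87

theorem fL88 : FarP 88 (nuT 88) :=
  farK (by decide) eL88 eL89 eL90 d88 sL88

theorem fL89 : FarP 89 (nuT 89) :=
  farK (by decide) eL89 eL90 eL91 d89 sL89

theorem fL90 : FarP 90 (nuT 90) :=
  farK (by decide) eL90 eL91 eL92 d90 sL90

theorem fL91 : FarP 91 (nuT 91) :=
  farK (by decide) eL91 eL92 eL93 d91 sL91

theorem fL92 : FarP 92 (nuT 92) :=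
  farK (by decide) eL92 eL93 eL94 d92 sL92

theorem fL93 : FarP 93 (nuT 93) :=
  farK (by decide) eL93 eL94 eL95 d93 sL93

theorem fL94 : FarP 94 (nuT 94) :=
  farK (by decide) eL94 eL95 eL96 d94 sL94

theorem fL95 : FarP 95 (nuT 95) :=
  farK (by decide) eL95 eL96 eL97 d95 sL95

theorem fL96 : FarP 96 (nuT 96) :=
  farK (by decide) eL96 eL97 eL98 d96 sL96

theorem fL97 : FarP 97 (nuT 97) :=
  farK (by decide) eL97 eL98 eL99 d97 sL97

theorem fL98 : FarP 98 (nuT 98) :=
  farK (by decide) eL98 eL99 eL100 d98 sL98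

theorem fL99 : FarP 99 (nuT 99) :=
  farK (by decide) eL99 eL100 eL101 d99 sL99

theorem fG0 : ∀ L, 0 ≤ L → L < 100 → FarP L (nuT L) := by
  intro L h1 h2
  interval_cases L
  · exact fL0
  · exact fL1
  · exact fL2
  · exact fL3
  · exact fL4
  · exact fL5
  · exact fL6
  · exact fL7
  · exact fL8
  · exact fL9
  · exact fL10
  · exact fL11
  · exact fL12
  · exact fL13
  · exact fL14
  · exact fL15
  · exact fL16
  · exact fL17
  · exact fL18
  · exact fL19
  · exact fL20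
  · exact fL21
  · exact fL22
  · exact fL23
  · exact fL24
  · exact fL25
  · exact fL26
  · exact fL27
  · exact fL28
  · exact fL29
  · exact fL30
  · exact fL31
  · exact fL32
  · exact fL33
  · exact fL34
  · exact fL35
  · exact fL36
  · exact fL37
  · exact fL38
  · exact fL39
  · exact fL40
  · exact fL41
  · exact fL42
  · exact fL43
  · exact fL44
  · exact fL45
  · exact fL46
  · exact fL47
  · exact fL48
  · exact fL49
  · exact fL50
  · exact fL51
  · exact fL52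
  · exact fL53
  · exact fL54
  · exact fL55
  · exact fL56
  · exact fL57
  · exact fL58
  · exact fL59
  · exact fL60
  · exact fL61
  · exact fL62
  · exact fL63
  · exact fL64
  · exact fL65
  · exact fL66
  · exact fL67
  · exact fL68
  · exact fL69
  · exact fL70
  · exact fL71
  · exact fL72
  · exact fL73
  · exact fL74
  · exact fL75
  · exact fL76
  · exact fL77
  · exact fL78
  · exact fL79
  · exact fL80
  · exact fL81
  · exact fL82
  · exact fL83
  · exact fL84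
  · exact fL85
  · exact fL86
  · exact fL87
  · exact fL88
  · exact fL89
  · exact fL90
  · exact fL91
  · exact fL92
  · exact fL93
  · exact fL94
  · exact fL95
  · exact fL96
  · exact fL97
  · exact fL98
  · exact fL99

end Pool.Agent.MP_9da1e3_co
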