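import Pool.Agent.Lib.MP_9da1e3_co.Kd1
import Pool.Agent.Lib.MP_9da1e3_co.KcG100
import Pool.Agent.Lib.MP_9da1e3_co.KdD100
import Pool.Agent.Lib.MP_9da1e3_co.KdD110
import Pool.Agent.Lib.MP_9da1e3_co.KdD120
import Pool.Agent.Lib.MP_9da1e3_co.KdD130
import Pool.Agent.Lib.MP_9da1e3_co.KdD140
import Pool.Agent.Lib.MP_9da1e3_co.KdD150
import Pool.Agent.Lib.MP_9da1e3_co.KdD160
import Pool.Agent.Lib.MP_9da1e3_co.KdD170
import Pool.Agent.Lib.MP_9da1e3_co.KdD180
import Pool.Agent.Lib.MP_9da1e3_co.KdD190

set_option maxRecDepth 100000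

namespace Pool.Agent.MP_9da1e3_co

theorem fL100 : FarP 100 (nuT 100) :=
  farK (by decide) eL100 eL101 eL102 d100 sL100

theorem fL101 : FarP 101 (nuT 101) :=
  farK (by decide) eL101 eL102 eL103 d101 sL101

theorem fL102 : FarP 102 (nuT 102) :=
  farK (by decide) eL102 eL103 eL104 d102 sL102

theorem fL103 : FarP 103 (nuT 103) :=
  farK (by decide) eL103 eL104 eL105 d103 sL103

theorem fL104 : FarP 104 (nuT 104) :=
  farK (by decide) eL104 eL105 eL106 d104 sL104

theorem fL105 : FarP 105 (nuT 105) :=
  farK (by decide) eL105 eL106 eL107 d105 sL105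

theorem fL106 : FarP 106 (nuT 106) :=
  farK (by decide) eL106 eL107 eL108 d106 sL106

theorem fL107 : FarP 107 (nuT 107) :=
  farK (by decide) eL107 eL108 eL109 d107 sL107

theorem fL108 : FarP 108 (nuT 108) :=
  farK (by decide) eL108 eL109 eL110 d108 sL108

theorem fL109 : FarP 109 (nuT 109) :=
  farK (by decide) eL109 eL110 eL111 d109 sL109

theorem fL110 : FarP 110 (nuT 110) :=
  farK (by decide) eL110 eL111 eL112 d110 sL110

theorem fL111 : FarP 111 (nuT 111) :=
  farK (by decide) eL111 eL112 eL113 d111 sL111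

theorem fL112 : FarP 112 (nuT 112) :=
  farK (by decide) eL112 eL113 eL114 d112 sL112

theorem fL113 : FarP 113 (nuT 113) :=
  farK (by decide) eL113 eL114 eL115 d113 sL113

theorem fL114 : FarP 114 (nuT 114) :=
  farK (by decide) eL114 eL115 eL116 d114 sL114

theorem fL115 : FarP 115 (nuT 115) :=
  farK (by decide) eL115 eL116 eL117 d115 sL115

theorem fL116 : FarP 116 (nuT 116) :=
  farK (by decide) eL116 eL117 eL118 d116 sL116

theorem fL117 : FarP 117 (nuT 117) :=
  farK (by decide) eL117 eL118 eL119 d117 sL117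

theorem fL118 : FarP 118 (nuT 118) :=
  farK (by decide) eL118 eL119 eL120 d118 sL118

theorem fL119 : FarP 119 (nuT 119) :=
  farK (by decide) eL119 eL120 eL121 d119 sL119

theorem fL120 : FarP 120 (nuT 120) :=
  farK (by decide) eL120 eL121 eL122 d120 sL120

theorem fL121 : FarP 121 (nuT 121) :=
  farK (by decide) eL121 eL122 eL123 d121 sL121

theorem fL122 : FarP 122 (nuT 122) :=
  farK (by decide) eL122 eL123 eL124 d122 sL122

theorem fL123 : FarP 123 (nuT 123) :=
  farK (by decide) eL123 eL124 eL125 d123 sL123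

theorem fL124 : FarP 124 (nuT 124) :=
  farK (by decide) eL124 eL125 eL126 d124 sL124

theorem fL125 : FarP 125 (nuT 125) :=
  farK (by decide) eL125 eL126 eL127 d125 sL125

theorem fL126 : FarP 126 (nuT 126) :=
  farK (by decide) eL126 eL127 eL128 d126 sL126

theorem fL127 : FarP 127 (nuT 127) :=
  farK (by decide) eL127 eL128 eL129 d127 sL127

theorem fL128 : FarP 128 (nuT 128) :=
  farK (by decide) eL128 eL129 eL130 d128 sL128

theorem fL129 : FarP 129 (nuT 129) :=
  farK (by decide) eL129 eL130 eL131 d129 sL129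

theorem fL130 : FarP 130 (nuT 130) :=
  farK (by decide) eL130 eL131 eL132 d130 sL130

theorem fL131 : FarP 131 (nuT 131) :=
  farK (by decide) eL131 eL132 eL133 d131 sL131

theorem fL132 : FarP 132 (nuT 132) :=
  farK (by decide) eL132 eL133 eL134 d132 sL132

theorem fL133 : FarP 133 (nuT 133) :=
  farK (by decide) eL133 eL134 eL135 d133 sL133

theorem fL134 : FarP 134 (nuT 134) :=
  farK (by decide) eL134 eL135 eL136 d134 sL134

theorem fL135 : FarP 135 (nuT 135) :=
  farK (by decide) eL135 eL136 eL137 d135 sL135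

theorem fL136 : FarP 136 (nuT 136) :=
  farK (by decide) eL136 eL137 eL138 d136 sL136

theorem fL137 : FarP 137 (nuT 137) :=
  farK (by decide) eL137 eL138 eL139 d137 sL137

theorem fL138 : FarP 138 (nuT 138) :=
  farK (by decide) eL138 eL139 eL140 d138 sL138

theorem fL139 : FarP 139 (nuT 139) :=
  farK (by decide) eL139 eL140 eL141 d139 sL139

theorem fL140 : FarP 140 (nuT 140) :=
  farK (by decide) eL140 eL141 eL142 d140 sL140

theorem fL141 : FarP 141 (nuT 141) :=
  farK (by decide) eL141 eL142 eL143 d141 sL141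

theorem fL142 : FarP 142 (nuT 142) :=
  farK (by decide) eL142 eL143 eL144 d142 sL142

theorem fL143 : FarP 143 (nuT 143) :=
  farK (by decide) eL143 eL144 eL145 d143 sL143

theorem fL144 : FarP 144 (nuT 144) :=
  farK (by decide) eL144 eL145 eL146 d144 sL144

theorem fL145 : FarP 145 (nuT 145) :=
  farK (by decide) eL145 eL146 eL147 d145 sL145

theorem fL146 : FarP 146 (nuT 146) :=
  farK (by decide) eL146 eL147 eL148 d146 sL146

theorem fL147 : FarP 147 (nuT 147) :=
  farK (by decide) eL147 eL148 eL149 d147 sL147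

theorem fL148 : FarP 148 (nuT 148) :=
  farK (by decide) eL148 eL149 eL150 d148 sL148

theorem fL149 : FarP 149 (nuT 149) :=
  farK (by decide) eL149 eL150 eL151 d149 sL149

theorem fL150 : FarP 150 (nuT 150) :=
  farK (by decide) eL150 eL151 eL152 d150 sL150

theorem fL151 : FarP 151 (nuT 151) :=
  farK (by decide) eL151 eL152 eL153 d151 sL151

theorem fL152 : FarP 152 (nuT 152) :=
  farK (by decide) eL152 eL153 eL154 d152 sL152

theorem fL153 : FarP 153 (nuT 153) :=
  farK (by decide) eL153 eL154 eL155 d153 sL153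

theorem fL154 : FarP 154 (nuT 154) :=
  farK (by decide) eL154 eL155 eL156 d154 sL154

theorem fL155 : FarP 155 (nuT 155) :=
  farK (by decide) eL155 eL156 eL157 d155 sL155

theorem fL156 : FarP 156 (nuT 156) :=
  farK (by decide) eL156 eL157 eL158 d156 sL156

theorem fL157 : FarP 157 (nuT 157) :=
  farK (by decide) eL157 eL158 eL159 d157 sL157

theorem fL158 : FarP 158 (nuT 158) :=
  farK (by decide) eL158 eL159 eL160 d158 sL158

theorem fL159 : FarP 159 (nuT 159) :=
  farK (by decide) eL159 eL160 eL161 d159 sL159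

theorem fL160 : FarP 160 (nuT 160) :=
  farK (by decide) eL160 eL161 eL162 d160 sL160

theorem fL161 : FarP 161 (nuT 161) :=
  farK (by decide) eL161 eL162 eL163 d161 sL161

theorem fL162 : FarP 162 (nuT 162) :=
  farK (by decide) eL162 eL163 eL164 d162 sL162

theorem fL163 : FarP 163 (nuT 163) :=
  farK (by decide) eL163 eL164 eL165 d163 sL163

theorem fL164 : FarP 164 (nuT 164) :=
  farK (by decide) eL164 eL165 eL166 d164 sL164

theorem fL165 : FarP 165 (nuT 165) :=
  farK (by decide) eL165 eL166 eL167 d165 sL165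

theorem fL166 : FarP 166 (nuT 166) :=
  farK (by decide) eL166 eL167 eL168 d166 sL166

theorem fL167 : FarP 167 (nuT 167) :=
  farK (by decide) eL167 eL168 eL169 d167 sL167

theorem fL168 : FarP 168 (nuT 168) :=
  farK (by decide) eL168 eL169 eL170 d168 sL168

theorem fL169 : FarP 169 (nuT 169) :=
  farK (by decide) eL169 eL170 eL171 d169 sL169

theorem fL170 : FarP 170 (nuT 170) :=
  farK (by decide) eL170 eL171 eL172 d170 sL170

theorem fL171 : FarP 171 (nuT 171) :=
  farK (by decide) eL171 eL172 eL173 d171 sL171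

theorem fL172 : FarP 172 (nuT 172) :=
  farK (by decide) eL172 eL173 eL174 d172 sL172

theorem fL173 : FarP 173 (nuT 173) :=
  farK (by decide) eL173 eL174 eL175 d173 sL173

theorem fL174 : FarP 174 (nuT 174) :=
  farK (by decide) eL174 eL175 eL176 d174 sL174

theorem fL175 : FarP 175 (nuT 175) :=
  farK (by decide) eL175 eL176 eL177 d175 sL175

theorem fL176 : FarP 176 (nuT 176) :=
  farK (by decide) eL176 eL177 eL178 d176 sL176

theorem fL177 : FarP 177 (nuT 177) :=
  farK (by decide) eL177 eL178 eL179 d177 sL177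

theorem fL178 : FarP 178 (nuT 178) :=
  farK (by decide) eL178 eL179 eL180 d178 sL178

theorem fL179 : FarP 179 (nuT 179) :=
  farK (by decide) eL179 eL180 eL181 d179 sL179

theorem fL180 : FarP 180 (nuT 180) :=
  farK (by decide) eL180 eL181 eL182 d180 sL180

theorem fL181 : FarP 181 (nuT 181) :=
  farK (by decide) eL181 eL182 eL183 d181 sL181

theorem fL182 : FarP 182 (nuT 182) :=
  farK (by decide) eL182 eL183 eL184 d182 sL182

theorem fL183 : FarP 183 (nuT 183) :=
  farK (by decide) eL183 eL184 eL185 d183 sL183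

theorem fL184 : FarP 184 (nuT 184) :=
  farK (by decide) eL184 eL185 eL186 d184 sL184

theorem fL185 : FarP 185 (nuT 185) :=
  farK (by decide) eL185 eL186 eL187 d185 sL185

theorem fL186 : FarP 186 (nuT 186) :=
  farK (by decide) eL186 eL187 eL188 d186 sL186

theorem fL187 : FarP 187 (nuT 187) :=
  farK (by decide) eL187 eL188 eL189 d187 sL187

theorem fL188 : FarP 188 (nuT 188) :=
  farK (by decide) eL188 eL189 eL190 d188 sL188

theorem fL189 : FarP 189 (nuT 189) :=
  farK (by decide) eL189 eL190 eL191 d189 sL189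

theorem fL190 : FarP 190 (nuT 190) :=
  farK (by decide) eL190 eL191 eL192 d190 sL190

theorem fL191 : FarP 191 (nuT 191) :=
  farK (by decide) eL191 eL192 eL193 d191 sL191

theorem fL192 : FarP 192 (nuT 192) :=
  farK (by decide) eL192 eL193 eL194 d192 sL192

theorem fL193 : FarP 193 (nuT 193) :=
  farK (by decide) eL193 eL194 eL195 d193 sL193

theorem fL194 : FarP 194 (nuT 194) :=
  farK (by decide) eL194 eL195 eL196 d194 sL194

theorem fL195 : FarP 195 (nuT 195) :=
  farK (by decide) eL195 eL196 eL197 d195 sL195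

theorem fL196 : FarP 196 (nuT 196) :=
  farK (by decide) eL196 eL197 eL198 d196 sL196

theorem fL197 : FarP 197 (nuT 197) :=
  farK (by decide) eL197 eL198 eL199 d197 sL197

theorem fL198 : FarP 198 (nuT 198) :=
  farK (by decide) eL198 eL199 eL200 d198 sL198

theorem fL199 : FarP 199 (nuT 199) :=
  farK (by decide) eL199 eL200 eL201 d199 sL199

theorem fG100 : ∀ L, 100 ≤ L → L < 200 → FarP L (nuT L) := by
  intro L h1 h2
  interval_cases L
  · exact fL100
  · exact fL101
  · exact fL102
  · exact fL103
  · exact fL104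
  · exact fL105
  · exact fL106
  · exact fL107
  · exact fL108
  · exact fL109
  · exact fL110
  · exact fL111
  · exact fL112
  · exact fL113
  · exact fL114
  · exact fL115
  · exact fL116
  · exact fL117
  · exact fL118
  · exact fL119
  · exact fL120
  · exact fL121
  · exact fL122
  · exact fL123
  · exact fL124
  · exact fL125
  · exact fL126
  · exact fL127
  · exact fL128
  · exact fL129
  · exact fL130
  · exact fL131
  · exact fL132
  · exact fL133
  · exact fL134
  · exact fL135
  · exact fL136
  · exact fL137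
  · exact fL138
  · exact fL139
  · exact fL140
  · exact fL141
  · exact fL142
  · exact fL143
  · exact fL144
  · exact fL145
  · exact fL146
  · exact fL147
  · exact fL148
  · exact fL149
  · exact fL150
  · exact fL151
  · exact fL152
  · exact fL153
  · exact fL154
  · exact fL155
  · exact fL156
  · exact fL157
  · exact fL158
  · exact fL159
  · exact fL160
  · exact fL161
  · exact fL162
  · exact fL163
  · exact fL164
  · exact fL165
  · exact fL166
  · exact fL167
  · exact fL168
  · exact fL169
  · exact fL170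
  · exact fL171
  · exact fL172
  · exact fL173
  · exact fL174
  · exact fL175
  · exact fL176
  · exact fL177
  · exact fL178
  · exact fL179
  · exact fL180
  · exact fL181
  · exact fL182
  · exact fL183
  · exact fL184
  · exact fL185
  · exact fL186
  · exact fL187
  · exact fL188
  · exact fL189
  · exact fL190
  · exact fL191
  · exact fL192
  · exact fL193
  · exact fL194
  · exact fL195
  · exact fL196
  · exact fL197
  · exact fL198
  · exact fL199

end Pool.Agent.MP_9da1e3_co
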