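import Pool.Agent.Lib.MP_9da1e3_co.Kd1
import Pool.Agent.Lib.MP_9da1e3_co.KcG200
import Pool.Agent.Lib.MP_9da1e3_co.KdD200
import Pool.Agent.Lib.MP_9da1e3_co.KdD210
import Pool.Agent.Lib.MP_9da1e3_co.KdD220
import Pool.Agent.Lib.MP_9da1e3_co.KdD230
import Pool.Agent.Lib.MP_9da1e3_co.KdD240
import Pool.Agent.Lib.MP_9da1e3_co.KdD250
import Pool.Agent.Lib.MP_9da1e3_co.KdD260
import Pool.Agent.Lib.MP_9da1e3_co.KdD270
import Pool.Agent.Lib.MP_9da1e3_co.KdD280
import Pool.Agent.Lib.MP_9da1e3_co.KdD290

set_option maxRecDepth 100000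

namespace Pool.Agent.MP_9da1e3_co

theorem fL200 : FarP 200 (nuT 200) :=
  farK (by decide) eL200 eL201 eL202 d200 sL200

theorem fL201 : FarP 201 (nuT 201) :=
  farK (by decide) eL201 eL202 eL203 d201 sL201

theorem fL202 : FarP 202 (nuT 202) :=
  farK (by decide) eL202 eL203 eL204 d202 sL202

theorem fL203 : FarP 203 (nuT 203) :=
  farK (by decide) eL203 eL204 eL205 d203 sL203

theorem fL204 : FarP 204 (nuT 204) :=
  farK (by decide) eL204 eL205 eL206 d204 sL204

theorem fL205 : FarP 205 (nuT 205) :=
  farK (by decide) eL205 eL206 eL207 d205 sL205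

theorem fL206 : FarP 206 (nuT 206) :=
  farK (by decide) eL206 eL207 eL208 d206 sL206

theorem fL207 : FarP 207 (nuT 207) :=
  farK (by decide) eL207 eL208 eL209 d207 sL207

theorem fL208 : FarP 208 (nuT 208) :=
  farK (by decide) eL208 eL209 eL210 d208 sL208

theorem fL209 : FarP 209 (nuT 209) :=
  farK (by decide) eL209 eL210 eL211 d209 sL209

theorem fL210 : FarP 210 (nuT 210) :=
  farK (by decide) eL210 eL211 eL212 d210 sL210

theorem fL211 : FarP 211 (nuT 211) :=
  farK (by decide) eL211 eL212 eL213 d211 sL211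

theorem fL212 : FarP 212 (nuT 212) :=
  farK (by decide) eL212 eL213 eL214 d212 sL212

theorem fL213 : FarP 213 (nuT 213) :=
  farK (by decide) eL213 eL214 eL215 d213 sL213

theorem fL214 : FarP 214 (nuT 214) :=
  farK (by decide) eL214 eL215 eL216 d214 sL214

theorem fL215 : FarP 215 (nuT 215) :=
  farK (by decide) eL215 eL216 eL217 d215 sL215

theorem fL216 : FarP 216 (nuT 216) :=
  farK (by decide) eL216 eL217 eL218 d216 sL216

theorem fL217 : FarP 217 (nuT 217) :=
  farK (by decide) eL217 eL218 eL219 d217 sL217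

theorem fL218 : FarP 218 (nuT 218) :=
  farK (by decide) eL218 eL219 eL220 d218 sL218

theorem fL219 : FarP 219 (nuT 219) :=
  farK (by decide) eL219 eL220 eL221 d219 sL219

theorem fL220 : FarP 220 (nuT 220) :=
  farK (by decide) eL220 eL221 eL222 d220 sL220

theorem fL221 : FarP 221 (nuT 221) :=
  farK (by decide) eL221 eL222 eL223 d221 sL221

theorem fL222 : FarP 222 (nuT 222) :=
  farK (by decide) eL222 eL223 eL224 d222 sL222

theorem fL223 : FarP 223 (nuT 223) :=
  farK (by decide) eL223 eL224 eL225 d223 sL223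

theorem fL224 : FarP 224 (nuT 224) :=
  farK (by decide) eL224 eL225 eL226 d224 sL224

theorem fL225 : FarP 225 (nuT 225) :=
  farK (by decide) eL225 eL226 eL227 d225 sL225

theorem fL226 : FarP 226 (nuT 226) :=
  farK (by decide) eL226 eL227 eL228 d226 sL226

theorem fL227 : FarP 227 (nuT 227) :=
  farK (by decide) eL227 eL228 eL229 d227 sL227

theorem fL228 : FarP 228 (nuT 228) :=
  farK (by decide) eL228 eL229 eL230 d228 sL228

theorem fL229 : FarP 229 (nuT 229) :=
  farK (by decide) eL229 eL230 eL231 d229 sL229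

theorem fL230 : FarP 230 (nuT 230) :=
  farK (by decide) eL230 eL231 eL232 d230 sL230

theorem fL231 : FarP 231 (nuT 231) :=
  farK (by decide) eL231 eL232 eL233 d231 sL231

theorem fL232 : FarP 232 (nuT 232) :=
  farK (by decide) eL232 eL233 eL234 d232 sL232

theorem fL233 : FarP 233 (nuT 233) :=
  farK (by decide) eL233 eL234 eL235 d233 sL233

theorem fL234 : FarP 234 (nuT 234) :=
  farK (by decide) eL234 eL235 eL236 d234 sL234

theorem fL235 : FarP 235 (nuT 235) :=
  farK (by decide) eL235 eL236 eL237 d235 sL235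

theorem fL236 : FarP 236 (nuT 236) :=
  farK (by decide) eL236 eL237 eL238 d236 sL236

theorem fL237 : FarP 237 (nuT 237) :=
  farK (by decide) eL237 eL238 eL239 d237 sL237

theorem fL238 : FarP 238 (nuT 238) :=
  farK (by decide) eL238 eL239 eL240 d238 sL238

theorem fL239 : FarP 239 (nuT 239) :=
  farK (by decide) eL239 eL240 eL241 d239 sL239

theorem fL240 : FarP 240 (nuT 240) :=
  farK (by decide) eL240 eL241 eL242 d240 sL240

theorem fL241 : FarP 241 (nuT 241) :=
  farK (by decide) eL241 eL242 eL243 d241 sL241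

theorem fL242 : FarP 242 (nuT 242) :=
  farK (by decide) eL242 eL243 eL244 d242 sL242

theorem fL243 : FarP 243 (nuT 243) :=
  farK (by decide) eL243 eL244 eL245 d243 sL243

theorem fL244 : FarP 244 (nuT 244) :=
  farK (by decide) eL244 eL245 eL246 d244 sL244

theorem fL245 : FarP 245 (nuT 245) :=
  farK (by decide) eL245 eL246 eL247 d245 sL245

theorem fL246 : FarP 246 (nuT 246) :=
  farK (by decide) eL246 eL247 eL248 d246 sL246

theorem fL247 : FarP 247 (nuT 247) :=
  farK (by decide) eL247 eL248 eL249 d247 sL247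

theorem fL248 : FarP 248 (nuT 248) :=
  farK (by decide) eL248 eL249 eL250 d248 sL248

theorem fL249 : FarP 249 (nuT 249) :=
  farK (by decide) eL249 eL250 eL251 d249 sL249

theorem fL250 : FarP 250 (nuT 250) :=
  farK (by decide) eL250 eL251 eL252 d250 sL250

theorem fL251 : FarP 251 (nuT 251) :=
  farK (by decide) eL251 eL252 eL253 d251 sL251

theorem fL252 : FarP 252 (nuT 252) :=
  farK (by decide) eL252 eL253 eL254 d252 sL252

theorem fL253 : FarP 253 (nuT 253) :=
  farK (by decide) eL253 eL254 eL255 d253 sL253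

theorem fL254 : FarP 254 (nuT 254) :=
  farK (by decide) eL254 eL255 eL256 d254 sL254

theorem fL255 : FarP 255 (nuT 255) :=
  farK (by decide) eL255 eL256 eL257 d255 sL255

theorem fL256 : FarP 256 (nuT 256) :=
  farK (by decide) eL256 eL257 eL258 d256 sL256

theorem fL257 : FarP 257 (nuT 257) :=
  farK (by decide) eL257 eL258 eL259 d257 sL257

theorem fL258 : FarP 258 (nuT 258) :=
  farK (by decide) eL258 eL259 eL260 d258 sL258

theorem fL259 : FarP 259 (nuT 259) :=
  farK (by decide) eL259 eL260 eL261 d259 sL259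

theorem fL260 : FarP 260 (nuT 260) :=
  farK (by decide) eL260 eL261 eL262 d260 sL260

theorem fL261 : FarP 261 (nuT 261) :=
  farK (by decide) eL261 eL262 eL263 d261 sL261

theorem fL262 : FarP 262 (nuT 262) :=
  farK (by decide) eL262 eL263 eL264 d262 sL262

theorem fL263 : FarP 263 (nuT 263) :=
  farK (by decide) eL263 eL264 eL265 d263 sL263

theorem fL264 : FarP 264 (nuT 264) :=
  farK (by decide) eL264 eL265 eL266 d264 sL264

theorem fL265 : FarP 265 (nuT 265) :=
  farK (by decide) eL265 eL266 eL267 d265 sL265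

theorem fL266 : FarP 266 (nuT 266) :=
  farK (by decide) eL266 eL267 eL268 d266 sL266

theorem fL267 : FarP 267 (nuT 267) :=
  farK (by decide) eL267 eL268 eL269 d267 sL267

theorem fL268 : FarP 268 (nuT 268) :=
  farK (by decide) eL268 eL269 eL270 d268 sL268

theorem fL269 : FarP 269 (nuT 269) :=
  farK (by decide) eL269 eL270 eL271 d269 sL269

theorem fL270 : FarP 270 (nuT 270) :=
  farK (by decide) eL270 eL271 eL272 d270 sL270

theorem fL271 : FarP 271 (nuT 271) :=
  farK (by decide) eL271 eL272 eL273 d271 sL271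

theorem fL272 : FarP 272 (nuT 272) :=
  farK (by decide) eL272 eL273 eL274 d272 sL272

theorem fL273 : FarP 273 (nuT 273) :=
  farK (by decide) eL273 eL274 eL275 d273 sL273

theorem fL274 : FarP 274 (nuT 274) :=
  farK (by decide) eL274 eL275 eL276 d274 sL274

theorem fL275 : FarP 275 (nuT 275) :=
  farK (by decide) eL275 eL276 eL277 d275 sL275

theorem fL276 : FarP 276 (nuT 276) :=
  farK (by decide) eL276 eL277 eL278 d276 sL276

theorem fL277 : FarP 277 (nuT 277) :=
  farK (by decide) eL277 eL278 eL279 d277 sL277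

theorem fL278 : FarP 278 (nuT 278) :=
  farK (by decide) eL278 eL279 eL280 d278 sL278

theorem fL279 : FarP 279 (nuT 279) :=
  farK (by decide) eL279 eL280 eL281 d279 sL279

theorem fL280 : FarP 280 (nuT 280) :=
  farK (by decide) eL280 eL281 eL282 d280 sL280

theorem fL281 : FarP 281 (nuT 281) :=
  farK (by decide) eL281 eL282 eL283 d281 sL281

theorem fL282 : FarP 282 (nuT 282) :=
  farK (by decide) eL282 eL283 eL284 d282 sL282

theorem fL283 : FarP 283 (nuT 283) :=
  farK (by decide) eL283 eL284 eL285 d283 sL283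

theorem fL284 : FarP 284 (nuT 284) :=
  farK (by decide) eL284 eL285 eL286 d284 sL284

theorem fL285 : FarP 285 (nuT 285) :=
  farK (by decide) eL285 eL286 eL287 d285 sL285

theorem fL286 : FarP 286 (nuT 286) :=
  farK (by decide) eL286 eL287 eL288 d286 sL286

theorem fL287 : FarP 287 (nuT 287) :=
  farK (by decide) eL287 eL288 eL289 d287 sL287

theorem fL288 : FarP 288 (nuT 288) :=
  farK (by decide) eL288 eL289 eL290 d288 sL288

theorem fL289 : FarP 289 (nuT 289) :=
  farK (by decide) eL289 eL290 eL291 d289 sL289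

theorem fL290 : FarP 290 (nuT 290) :=
  farK (by decide) eL290 eL291 eL292 d290 sL290

theorem fL291 : FarP 291 (nuT 291) :=
  farK (by decide) eL291 eL292 eL293 d291 sL291

theorem fL292 : FarP 292 (nuT 292) :=
  farK (by decide) eL292 eL293 eL294 d292 sL292

theorem fL293 : FarP 293 (nuT 293) :=
  farK (by decide) eL293 eL294 eL295 d293 sL293

theorem fL294 : FarP 294 (nuT 294) :=
  farK (by decide) eL294 eL295 eL296 d294 sL294

theorem fL295 : FarP 295 (nuT 295) :=
  farK (by decide) eL295 eL296 eL297 d295 sL295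

theorem fL296 : FarP 296 (nuT 296) :=
  farK (by decide) eL296 eL297 eL298 d296 sL296

theorem fL297 : FarP 297 (nuT 297) :=
  farK (by decide) eL297 eL298 eL299 d297 sL297

theorem fL298 : FarP 298 (nuT 298) :=
  farK (by decide) eL298 eL299 eL300 d298 sL298

theorem fL299 : FarP 299 (nuT 299) :=
  farK (by decide) eL299 eL300 eL301 d299 sL299

theorem fG200 : ∀ L, 200 ≤ L → L < 300 → FarP L (nuT L) := by
  intro L h1 h2
  interval_cases L
  · exact fL200
  · exact fL201
  · exact fL202
  · exact fL203
  · exact fL204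
  · exact fL205
  · exact fL206
  · exact fL207
  · exact fL208
  · exact fL209
  · exact fL210
  · exact fL211
  · exact fL212
  · exact fL213
  · exact fL214
  · exact fL215
  · exact fL216
  · exact fL217
  · exact fL218
  · exact fL219
  · exact fL220
  · exact fL221
  · exact fL222
  · exact fL223
  · exact fL224
  · exact fL225
  · exact fL226
  · exact fL227
  · exact fL228
  · exact fL229
  · exact fL230
  · exact fL231
  · exact fL232
  · exact fL233
  · exact fL234
  · exact fL235
  · exact fL236
  · exact fL237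
  · exact fL238
  · exact fL239
  · exact fL240
  · exact fL241
  · exact fL242
  · exact fL243
  · exact fL244
  · exact fL245
  · exact fL246
  · exact fL247
  · exact fL248
  · exact fL249
  · exact fL250
  · exact fL251
  · exact fL252
  · exact fL253
  · exact fL254
  · exact fL255
  · exact fL256
  · exact fL257
  · exact fL258
  · exact fL259
  · exact fL260
  · exact fL261
  · exact fL262
  · exact fL263
  · exact fL264
  · exact fL265
  · exact fL266
  · exact fL267
  · exact fL268
  · exact fL269
  · exact fL270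
  · exact fL271
  · exact fL272
  · exact fL273
  · exact fL274
  · exact fL275
  · exact fL276
  · exact fL277
  · exact fL278
  · exact fL279
  · exact fL280
  · exact fL281
  · exact fL282
  · exact fL283
  · exact fL284
  · exact fL285
  · exact fL286
  · exact fL287
  · exact fL288
  · exact fL289
  · exact fL290
  · exact fL291
  · exact fL292
  · exact fL293
  · exact fL294
  · exact fL295
  · exact fL296
  · exact fL297
  · exact fL298
  · exact fL299

end Pool.Agent.MP_9da1e3_co
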