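import Pool.Agent.Lib.MP_9da1e3_co.Kd1
import Pool.Agent.Lib.MP_9da1e3_co.KcG300
import Pool.Agent.Lib.MP_9da1e3_co.KdD300
import Pool.Agent.Lib.MP_9da1e3_co.KdD310
import Pool.Agent.Lib.MP_9da1e3_co.KdD320
import Pool.Agent.Lib.MP_9da1e3_co.KdD330
import Pool.Agent.Lib.MP_9da1e3_co.KdD340
import Pool.Agent.Lib.MP_9da1e3_co.KdD350
import Pool.Agent.Lib.MP_9da1e3_co.KdD360
import Pool.Agent.Lib.MP_9da1e3_co.KdD370
import Pool.Agent.Lib.MP_9da1e3_co.KdD380
import Pool.Agent.Lib.MP_9da1e3_co.KdD390

set_option maxRecDepth 100000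

namespace Pool.Agent.MP_9da1e3_co

theorem fL300 : FarP 300 (nuT 300) :=
  farK (by decide) eL300 eL301 eL302 d300 sL300

theorem fL301 : FarP 301 (nuT 301) :=
  farK (by decide) eL301 eL302 eL303 d301 sL301

theorem fL302 : FarP 302 (nuT 302) :=
  farK (by decide) eL302 eL303 eL304 d302 sL302

theorem fL303 : FarP 303 (nuT 303) :=
  farK (by decide) eL303 eL304 eL305 d303 sL303

theorem fL304 : FarP 304 (nuT 304) :=
  farK (by decide) eL304 eL305 eL306 d304 sL304

theorem fL305 : FarP 305 (nuT 305) :=
  farK (by decide) eL305 eL306 eL307 d305 sL305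

theorem fL306 : FarP 306 (nuT 306) :=
  farK (by decide) eL306 eL307 eL308 d306 sL306

theorem fL307 : FarP 307 (nuT 307) :=
  farK (by decide) eL307 eL308 eL309 d307 sL307

theorem fL308 : FarP 308 (nuT 308) :=
  farK (by decide) eL308 eL309 eL310 d308 sL308

theorem fL309 : FarP 309 (nuT 309) :=
  farK (by decide) eL309 eL310 eL311 d309 sL309

theorem fL310 : FarP 310 (nuT 310) :=
  farK (by decide) eL310 eL311 eL312 d310 sL310

theorem fL311 : FarP 311 (nuT 311) :=
  farK (by decide) eL311 eL312 eL313 d311 sL311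

theorem fL312 : FarP 312 (nuT 312) :=
  farK (by decide) eL312 eL313 eL314 d312 sL312

theorem fL313 : FarP 313 (nuT 313) :=
  farK (by decide) eL313 eL314 eL315 d313 sL313

theorem fL314 : FarP 314 (nuT 314) :=
  farK (by decide) eL314 eL315 eL316 d314 sL314

theorem fL315 : FarP 315 (nuT 315) :=
  farK (by decide) eL315 eL316 eL317 d315 sL315

theorem fL316 : FarP 316 (nuT 316) :=
  farK (by decide) eL316 eL317 eL318 d316 sL316

theorem fL317 : FarP 317 (nuT 317) :=
  farK (by decide) eL317 eL318 eL319 d317 sL317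

theorem fL318 : FarP 318 (nuT 318) :=
  farK (by decide) eL318 eL319 eL320 d318 sL318

theorem fL319 : FarP 319 (nuT 319) :=
  farK (by decide) eL319 eL320 eL321 d319 sL319

theorem fL320 : FarP 320 (nuT 320) :=
  farK (by decide) eL320 eL321 eL322 d320 sL320

theorem fL321 : FarP 321 (nuT 321) :=
  farK (by decide) eL321 eL322 eL323 d321 sL321

theorem fL322 : FarP 322 (nuT 322) :=
  farK (by decide) eL322 eL323 eL324 d322 sL322

theorem fL323 : FarP 323 (nuT 323) :=
  farK (by decide) eL323 eL324 eL325 d323 sL323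

theorem fL324 : FarP 324 (nuT 324) :=
  farK (by decide) eL324 eL325 eL326 d324 sL324

theorem fL325 : FarP 325 (nuT 325) :=
  farK (by decide) eL325 eL326 eL327 d325 sL325

theorem fL326 : FarP 326 (nuT 326) :=
  farK (by decide) eL326 eL327 eL328 d326 sL326

theorem fL327 : FarP 327 (nuT 327) :=
  farK (by decide) eL327 eL328 eL329 d327 sL327

theorem fL328 : FarP 328 (nuT 328) :=
  farK (by decide) eL328 eL329 eL330 d328 sL328

theorem fL329 : FarP 329 (nuT 329) :=
  farK (by decide) eL329 eL330 eL331 d329 sL329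

theorem fL330 : FarP 330 (nuT 330) :=
  farK (by decide) eL330 eL331 eL332 d330 sL330

theorem fL331 : FarP 331 (nuT 331) :=
  farK (by decide) eL331 eL332 eL333 d331 sL331

theorem fL332 : FarP 332 (nuT 332) :=
  farK (by decide) eL332 eL333 eL334 d332 sL332

theorem fL333 : FarP 333 (nuT 333) :=
  farK (by decide) eL333 eL334 eL335 d333 sL333

theorem fL334 : FarP 334 (nuT 334) :=
  farK (by decide) eL334 eL335 eL336 d334 sL334

theorem fL335 : FarP 335 (nuT 335) :=
  farK (by decide) eL335 eL336 eL337 d335 sL335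

theorem fL336 : FarP 336 (nuT 336) :=
  farK (by decide) eL336 eL337 eL338 d336 sL336

theorem fL337 : FarP 337 (nuT 337) :=
  farK (by decide) eL337 eL338 eL339 d337 sL337

theorem fL338 : FarP 338 (nuT 338) :=
  farK (by decide) eL338 eL339 eL340 d338 sL338

theorem fL339 : FarP 339 (nuT 339) :=
  farK (by decide) eL339 eL340 eL341 d339 sL339

theorem fL340 : FarP 340 (nuT 340) :=
  farK (by decide) eL340 eL341 eL342 d340 sL340

theorem fL341 : FarP 341 (nuT 341) :=
  farK (by decide) eL341 eL342 eL343 d341 sL341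

theorem fL342 : FarP 342 (nuT 342) :=
  farK (by decide) eL342 eL343 eL344 d342 sL342

theorem fL343 : FarP 343 (nuT 343) :=
  farK (by decide) eL343 eL344 eL345 d343 sL343

theorem fL344 : FarP 344 (nuT 344) :=
  farK (by decide) eL344 eL345 eL346 d344 sL344

theorem fL345 : FarP 345 (nuT 345) :=
  farK (by decide) eL345 eL346 eL347 d345 sL345

theorem fL346 : FarP 346 (nuT 346) :=
  farK (by decide) eL346 eL347 eL348 d346 sL346

theorem fL347 : FarP 347 (nuT 347) :=
  farK (by decide) eL347 eL348 eL349 d347 sL347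

theorem fL348 : FarP 348 (nuT 348) :=
  farK (by decide) eL348 eL349 eL350 d348 sL348

theorem fL349 : FarP 349 (nuT 349) :=
  farK (by decide) eL349 eL350 eL351 d349 sL349

theorem fL350 : FarP 350 (nuT 350) :=
  farK (by decide) eL350 eL351 eL352 d350 sL350

theorem fL351 : FarP 351 (nuT 351) :=
  farK (by decide) eL351 eL352 eL353 d351 sL351

theorem fL352 : FarP 352 (nuT 352) :=
  farK (by decide) eL352 eL353 eL354 d352 sL352

theorem fL353 : FarP 353 (nuT 353) :=
  farK (by decide) eL353 eL354 eL355 d353 sL353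

theorem fL354 : FarP 354 (nuT 354) :=
  farK (by decide) eL354 eL355 eL356 d354 sL354

theorem fL355 : FarP 355 (nuT 355) :=
  farK (by decide) eL355 eL356 eL357 d355 sL355

theorem fL356 : FarP 356 (nuT 356) :=
  farK (by decide) eL356 eL357 eL358 d356 sL356

theorem fL357 : FarP 357 (nuT 357) :=
  farK (by decide) eL357 eL358 eL359 d357 sL357

theorem fL358 : FarP 358 (nuT 358) :=
  farK (by decide) eL358 eL359 eL360 d358 sL358

theorem fL359 : FarP 359 (nuT 359) :=
  farK (by decide) eL359 eL360 eL361 d359 sL359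

theorem fL360 : FarP 360 (nuT 360) :=
  farK (by decide) eL360 eL361 eL362 d360 sL360

theorem fL361 : FarP 361 (nuT 361) :=
  farK (by decide) eL361 eL362 eL363 d361 sL361

theorem fL362 : FarP 362 (nuT 362) :=
  farK (by decide) eL362 eL363 eL364 d362 sL362

theorem fL363 : FarP 363 (nuT 363) :=
  farK (by decide) eL363 eL364 eL365 d363 sL363

theorem fL364 : FarP 364 (nuT 364) :=
  farK (by decide) eL364 eL365 eL366 d364 sL364

theorem fL365 : FarP 365 (nuT 365) :=
  farK (by decide) eL365 eL366 eL367 d365 sL365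

theorem fL366 : FarP 366 (nuT 366) :=
  farK (by decide) eL366 eL367 eL368 d366 sL366

theorem fL367 : FarP 367 (nuT 367) :=
  farK (by decide) eL367 eL368 eL369 d367 sL367

theorem fL368 : FarP 368 (nuT 368) :=
  farK (by decide) eL368 eL369 eL370 d368 sL368

theorem fL369 : FarP 369 (nuT 369) :=
  farK (by decide) eL369 eL370 eL371 d369 sL369

theorem fL370 : FarP 370 (nuT 370) :=
  farK (by decide) eL370 eL371 eL372 d370 sL370

theorem fL371 : FarP 371 (nuT 371) :=
  farK (by decide) eL371 eL372 eL373 d371 sL371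

theorem fL372 : FarP 372 (nuT 372) :=
  farK (by decide) eL372 eL373 eL374 d372 sL372

theorem fL373 : FarP 373 (nuT 373) :=
  farK (by decide) eL373 eL374 eL375 d373 sL373

theorem fL374 : FarP 374 (nuT 374) :=
  farK (by decide) eL374 eL375 eL376 d374 sL374

theorem fL375 : FarP 375 (nuT 375) :=
  farK (by decide) eL375 eL376 eL377 d375 sL375

theorem fL376 : FarP 376 (nuT 376) :=
  farK (by decide) eL376 eL377 eL378 d376 sL376

theorem fL377 : FarP 377 (nuT 377) :=
  farK (by decide) eL377 eL378 eL379 d377 sL377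

theorem fL378 : FarP 378 (nuT 378) :=
  farK (by decide) eL378 eL379 eL380 d378 sL378

theorem fL379 : FarP 379 (nuT 379) :=
  farK (by decide) eL379 eL380 eL381 d379 sL379

theorem fL380 : FarP 380 (nuT 380) :=
  farK (by decide) eL380 eL381 eL382 d380 sL380

theorem fL381 : FarP 381 (nuT 381) :=
  farK (by decide) eL381 eL382 eL383 d381 sL381

theorem fL382 : FarP 382 (nuT 382) :=
  farK (by decide) eL382 eL383 eL384 d382 sL382

theorem fL383 : FarP 383 (nuT 383) :=
  farK (by decide) eL383 eL384 eL385 d383 sL383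

theorem fL384 : FarP 384 (nuT 384) :=
  farK (by decide) eL384 eL385 eL386 d384 sL384

theorem fL385 : FarP 385 (nuT 385) :=
  farK (by decide) eL385 eL386 eL387 d385 sL385

theorem fL386 : FarP 386 (nuT 386) :=
  farK (by decide) eL386 eL387 eL388 d386 sL386

theorem fL387 : FarP 387 (nuT 387) :=
  farK (by decide) eL387 eL388 eL389 d387 sL387

theorem fL388 : FarP 388 (nuT 388) :=
  farK (by decide) eL388 eL389 eL390 d388 sL388

theorem fL389 : FarP 389 (nuT 389) :=
  farK (by decide) eL389 eL390 eL391 d389 sL389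

theorem fL390 : FarP 390 (nuT 390) :=
  farK (by decide) eL390 eL391 eL392 d390 sL390

theorem fL391 : FarP 391 (nuT 391) :=
  farK (by decide) eL391 eL392 eL393 d391 sL391

theorem fL392 : FarP 392 (nuT 392) :=
  farK (by decide) eL392 eL393 eL394 d392 sL392

theorem fL393 : FarP 393 (nuT 393) :=
  farK (by decide) eL393 eL394 eL395 d393 sL393

theorem fL394 : FarP 394 (nuT 394) :=
  farK (by decide) eL394 eL395 eL396 d394 sL394

theorem fL395 : FarP 395 (nuT 395) :=
  farK (by decide) eL395 eL396 eL397 d395 sL395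

theorem fL396 : FarP 396 (nuT 396) :=
  farK (by decide) eL396 eL397 eL398 d396 sL396

theorem fL397 : FarP 397 (nuT 397) :=
  farK (by decide) eL397 eL398 eL399 d397 sL397

theorem fL398 : FarP 398 (nuT 398) :=
  farK (by decide) eL398 eL399 eL400 d398 sL398

theorem fL399 : FarP 399 (nuT 399) :=
  farK (by decide) eL399 eL400 eL401 d399 sL399

theorem fG300 : ∀ L, 300 ≤ L → L < 400 → FarP L (nuT L) := by
  intro L h1 h2
  interval_cases L
  · exact fL300
  · exact fL301
  · exact fL302
  · exact fL303
  · exact fL304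
  · exact fL305
  · exact fL306
  · exact fL307
  · exact fL308
  · exact fL309
  · exact fL310
  · exact fL311
  · exact fL312
  · exact fL313
  · exact fL314
  · exact fL315
  · exact fL316
  · exact fL317
  · exact fL318
  · exact fL319
  · exact fL320
  · exact fL321
  · exact fL322
  · exact fL323
  · exact fL324
  · exact fL325
  · exact fL326
  · exact fL327
  · exact fL328
  · exact fL329
  · exact fL330
  · exact fL331
  · exact fL332
  · exact fL333
  · exact fL334
  · exact fL335
  · exact fL336
  · exact fL337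
  · exact fL338
  · exact fL339
  · exact fL340
  · exact fL341
  · exact fL342
  · exact fL343
  · exact fL344
  · exact fL345
  · exact fL346
  · exact fL347
  · exact fL348
  · exact fL349
  · exact fL350
  · exact fL351
  · exact fL352
  · exact fL353
  · exact fL354
  · exact fL355
  · exact fL356
  · exact fL357
  · exact fL358
  · exact fL359
  · exact fL360
  · exact fL361
  · exact fL362
  · exact fL363
  · exact fL364
  · exact fL365
  · exact fL366
  · exact fL367
  · exact fL368
  · exact fL369
  · exact fL370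
  · exact fL371
  · exact fL372
  · exact fL373
  · exact fL374
  · exact fL375
  · exact fL376
  · exact fL377
  · exact fL378
  · exact fL379
  · exact fL380
  · exact fL381
  · exact fL382
  · exact fL383
  · exact fL384
  · exact fL385
  · exact fL386
  · exact fL387
  · exact fL388
  · exact fL389
  · exact fL390
  · exact fL391
  · exact fL392
  · exact fL393
  · exact fL394
  · exact fL395
  · exact fL396
  · exact fL397
  · exact fL398
  · exact fL399

end Pool.Agent.MP_9da1e3_co
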