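import Pool.Agent.Lib.MP_9da1e3_co.Kd1
import Pool.Agent.Lib.MP_9da1e3_co.KcG400
import Pool.Agent.Lib.MP_9da1e3_co.KdD400
import Pool.Agent.Lib.MP_9da1e3_co.KdD410
import Pool.Agent.Lib.MP_9da1e3_co.KdD420
import Pool.Agent.Lib.MP_9da1e3_co.KdD430
import Pool.Agent.Lib.MP_9da1e3_co.KdD440
import Pool.Agent.Lib.MP_9da1e3_co.KdD450
import Pool.Agent.Lib.MP_9da1e3_co.KdD460
import Pool.Agent.Lib.MP_9da1e3_co.KdD470
import Pool.Agent.Lib.MP_9da1e3_co.KdD480
import Pool.Agent.Lib.MP_9da1e3_co.KdD490

set_option maxRecDepth 100000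

namespace Pool.Agent.MP_9da1e3_co

theorem fL400 : FarP 400 (nuT 400) :=
  farK (by decide) eL400 eL401 eL402 d400 sL400

theorem fL401 : FarP 401 (nuT 401) :=
  farK (by decide) eL401 eL402 eL403 d401 sL401

theorem fL402 : FarP 402 (nuT 402) :=
  farK (by decide) eL402 eL403 eL404 d402 sL402

theorem fL403 : FarP 403 (nuT 403) :=
  farK (by decide) eL403 eL404 eL405 d403 sL403

theorem fL404 : FarP 404 (nuT 404) :=
  farK (by decide) eL404 eL405 eL406 d404 sL404

theorem fL405 : FarP 405 (nuT 405) :=
  farK (by decide) eL405 eL406 eL407 d405 sL405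

theorem fL406 : FarP 406 (nuT 406) :=
  farK (by decide) eL406 eL407 eL408 d406 sL406

theorem fL407 : FarP 407 (nuT 407) :=
  farK (by decide) eL407 eL408 eL409 d407 sL407

theorem fL408 : FarP 408 (nuT 408) :=
  farK (by decide) eL408 eL409 eL410 d408 sL408

theorem fL409 : FarP 409 (nuT 409) :=
  farK (by decide) eL409 eL410 eL411 d409 sL409

theorem fL410 : FarP 410 (nuT 410) :=
  farK (by decide) eL410 eL411 eL412 d410 sL410

theorem fL411 : FarP 411 (nuT 411) :=
  farK (by decide) eL411 eL412 eL413 d411 sL411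

theorem fL412 : FarP 412 (nuT 412) :=
  farK (by decide) eL412 eL413 eL414 d412 sL412

theorem fL413 : FarP 413 (nuT 413) :=
  farK (by decide) eL413 eL414 eL415 d413 sL413

theorem fL414 : FarP 414 (nuT 414) :=
  farK (by decide) eL414 eL415 eL416 d414 sL414

theorem fL415 : FarP 415 (nuT 415) :=
  farK (by decide) eL415 eL416 eL417 d415 sL415

theorem fL416 : FarP 416 (nuT 416) :=
  farK (by decide) eL416 eL417 eL418 d416 sL416

theorem fL417 : FarP 417 (nuT 417) :=
  farK (by decide) eL417 eL418 eL419 d417 sL417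

theorem fL418 : FarP 418 (nuT 418) :=
  farK (by decide) eL418 eL419 eL420 d418 sL418

theorem fL419 : FarP 419 (nuT 419) :=
  farK (by decide) eL419 eL420 eL421 d419 sL419

theorem fL420 : FarP 420 (nuT 420) :=
  farK (by decide) eL420 eL421 eL422 d420 sL420

theorem fL421 : FarP 421 (nuT 421) :=
  farK (by decide) eL421 eL422 eL423 d421 sL421

theorem fL422 : FarP 422 (nuT 422) :=
  farK (by decide) eL422 eL423 eL424 d422 sL422

theorem fL423 : FarP 423 (nuT 423) :=
  farK (by decide) eL423 eL424 eL425 d423 sL423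

theorem fL424 : FarP 424 (nuT 424) :=
  farK (by decide) eL424 eL425 eL426 d424 sL424

theorem fL425 : FarP 425 (nuT 425) :=
  farK (by decide) eL425 eL426 eL427 d425 sL425

theorem fL426 : FarP 426 (nuT 426) :=
  farK (by decide) eL426 eL427 eL428 d426 sL426

theorem fL427 : FarP 427 (nuT 427) :=
  farK (by decide) eL427 eL428 eL429 d427 sL427

theorem fL428 : FarP 428 (nuT 428) :=
  farK (by decide) eL428 eL429 eL430 d428 sL428

theorem fL429 : FarP 429 (nuT 429) :=
  farK (by decide) eL429 eL430 eL431 d429 sL429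

theorem fL430 : FarP 430 (nuT 430) :=
  farK (by decide) eL430 eL431 eL432 d430 sL430

theorem fL431 : FarP 431 (nuT 431) :=
  farK (by decide) eL431 eL432 eL433 d431 sL431

theorem fL432 : FarP 432 (nuT 432) :=
  farK (by decide) eL432 eL433 eL434 d432 sL432

theorem fL433 : FarP 433 (nuT 433) :=
  farK (by decide) eL433 eL434 eL435 d433 sL433

theorem fL434 : FarP 434 (nuT 434) :=
  farK (by decide) eL434 eL435 eL436 d434 sL434

theorem fL435 : FarP 435 (nuT 435) :=
  farK (by decide) eL435 eL436 eL437 d435 sL435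

theorem fL436 : FarP 436 (nuT 436) :=
  farK (by decide) eL436 eL437 eL438 d436 sL436

theorem fL437 : FarP 437 (nuT 437) :=
  farK (by decide) eL437 eL438 eL439 d437 sL437

theorem fL438 : FarP 438 (nuT 438) :=
  farK (by decide) eL438 eL439 eL440 d438 sL438

theorem fL439 : FarP 439 (nuT 439) :=
  farK (by decide) eL439 eL440 eL441 d439 sL439

theorem fL440 : FarP 440 (nuT 440) :=
  farK (by decide) eL440 eL441 eL442 d440 sL440

theorem fL441 : FarP 441 (nuT 441) :=
  farK (by decide) eL441 eL442 eL443 d441 sL441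

theorem fL442 : FarP 442 (nuT 442) :=
  farK (by decide) eL442 eL443 eL444 d442 sL442

theorem fL443 : FarP 443 (nuT 443) :=
  farK (by decide) eL443 eL444 eL445 d443 sL443

theorem fL444 : FarP 444 (nuT 444) :=
  farK (by decide) eL444 eL445 eL446 d444 sL444

theorem fL445 : FarP 445 (nuT 445) :=
  farK (by decide) eL445 eL446 eL447 d445 sL445

theorem fL446 : FarP 446 (nuT 446) :=
  farK (by decide) eL446 eL447 eL448 d446 sL446

theorem fL447 : FarP 447 (nuT 447) :=
  farK (by decide) eL447 eL448 eL449 d447 sL447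

theorem fL448 : FarP 448 (nuT 448) :=
  farK (by decide) eL448 eL449 eL450 d448 sL448

theorem fL449 : FarP 449 (nuT 449) :=
  farK (by decide) eL449 eL450 eL451 d449 sL449

theorem fL450 : FarP 450 (nuT 450) :=
  farK (by decide) eL450 eL451 eL452 d450 sL450

theorem fL451 : FarP 451 (nuT 451) :=
  farK (by decide) eL451 eL452 eL453 d451 sL451

theorem fL452 : FarP 452 (nuT 452) :=
  farK (by decide) eL452 eL453 eL454 d452 sL452

theorem fL453 : FarP 453 (nuT 453) :=
  farK (by decide) eL453 eL454 eL455 d453 sL453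

theorem fL454 : FarP 454 (nuT 454) :=
  farK (by decide) eL454 eL455 eL456 d454 sL454

theorem fL455 : FarP 455 (nuT 455) :=
  farK (by decide) eL455 eL456 eL457 d455 sL455

theorem fL456 : FarP 456 (nuT 456) :=
  farK (by decide) eL456 eL457 eL458 d456 sL456

theorem fL457 : FarP 457 (nuT 457) :=
  farK (by decide) eL457 eL458 eL459 d457 sL457

theorem fL458 : FarP 458 (nuT 458) :=
  farK (by decide) eL458 eL459 eL460 d458 sL458

theorem fL459 : FarP 459 (nuT 459) :=
  farK (by decide) eL459 eL460 eL461 d459 sL459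

theorem fL460 : FarP 460 (nuT 460) :=
  farK (by decide) eL460 eL461 eL462 d460 sL460

theorem fL461 : FarP 461 (nuT 461) :=
  farK (by decide) eL461 eL462 eL463 d461 sL461

theorem fL462 : FarP 462 (nuT 462) :=
  farK (by decide) eL462 eL463 eL464 d462 sL462

theorem fL463 : FarP 463 (nuT 463) :=
  farK (by decide) eL463 eL464 eL465 d463 sL463

theorem fL464 : FarP 464 (nuT 464) :=
  farK (by decide) eL464 eL465 eL466 d464 sL464

theorem fL465 : FarP 465 (nuT 465) :=
  farK (by decide) eL465 eL466 eL467 d465 sL465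

theorem fL466 : FarP 466 (nuT 466) :=
  farK (by decide) eL466 eL467 eL468 d466 sL466

theorem fL467 : FarP 467 (nuT 467) :=
  farK (by decide) eL467 eL468 eL469 d467 sL467

theorem fL468 : FarP 468 (nuT 468) :=
  farK (by decide) eL468 eL469 eL470 d468 sL468

theorem fL469 : FarP 469 (nuT 469) :=
  farK (by decide) eL469 eL470 eL471 d469 sL469

theorem fL470 : FarP 470 (nuT 470) :=
  farK (by decide) eL470 eL471 eL472 d470 sL470

theorem fL471 : FarP 471 (nuT 471) :=
  farK (by decide) eL471 eL472 eL473 d471 sL471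

theorem fL472 : FarP 472 (nuT 472) :=
  farK (by decide) eL472 eL473 eL474 d472 sL472

theorem fL473 : FarP 473 (nuT 473) :=
  farK (by decide) eL473 eL474 eL475 d473 sL473

theorem fL474 : FarP 474 (nuT 474) :=
  farK (by decide) eL474 eL475 eL476 d474 sL474

theorem fL475 : FarP 475 (nuT 475) :=
  farK (by decide) eL475 eL476 eL477 d475 sL475

theorem fL476 : FarP 476 (nuT 476) :=
  farK (by decide) eL476 eL477 eL478 d476 sL476

theorem fL477 : FarP 477 (nuT 477) :=
  farK (by decide) eL477 eL478 eL479 d477 sL477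

theorem fL478 : FarP 478 (nuT 478) :=
  farK (by decide) eL478 eL479 eL480 d478 sL478

theorem fL479 : FarP 479 (nuT 479) :=
  farK (by decide) eL479 eL480 eL481 d479 sL479

theorem fL480 : FarP 480 (nuT 480) :=
  farK (by decide) eL480 eL481 eL482 d480 sL480

theorem fL481 : FarP 481 (nuT 481) :=
  farK (by decide) eL481 eL482 eL483 d481 sL481

theorem fL482 : FarP 482 (nuT 482) :=
  farK (by decide) eL482 eL483 eL484 d482 sL482

theorem fL483 : FarP 483 (nuT 483) :=
  farK (by decide) eL483 eL484 eL485 d483 sL483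

theorem fL484 : FarP 484 (nuT 484) :=
  farK (by decide) eL484 eL485 eL486 d484 sL484

theorem fL485 : FarP 485 (nuT 485) :=
  farK (by decide) eL485 eL486 eL487 d485 sL485

theorem fL486 : FarP 486 (nuT 486) :=
  farK (by decide) eL486 eL487 eL488 d486 sL486

theorem fL487 : FarP 487 (nuT 487) :=
  farK (by decide) eL487 eL488 eL489 d487 sL487

theorem fL488 : FarP 488 (nuT 488) :=
  farK (by decide) eL488 eL489 eL490 d488 sL488

theorem fL489 : FarP 489 (nuT 489) :=
  farK (by decide) eL489 eL490 eL491 d489 sL489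

theorem fL490 : FarP 490 (nuT 490) :=
  farK (by decide) eL490 eL491 eL492 d490 sL490

theorem fL491 : FarP 491 (nuT 491) :=
  farK (by decide) eL491 eL492 eL493 d491 sL491

theorem fL492 : FarP 492 (nuT 492) :=
  farK (by decide) eL492 eL493 eL494 d492 sL492

theorem fL493 : FarP 493 (nuT 493) :=
  farK (by decide) eL493 eL494 eL495 d493 sL493

theorem fL494 : FarP 494 (nuT 494) :=
  farK (by decide) eL494 eL495 eL496 d494 sL494

theorem fL495 : FarP 495 (nuT 495) :=
  farK (by decide) eL495 eL496 eL497 d495 sL495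

theorem fL496 : FarP 496 (nuT 496) :=
  farK (by decide) eL496 eL497 eL498 d496 sL496

theorem fL497 : FarP 497 (nuT 497) :=
  farK (by decide) eL497 eL498 eL499 d497 sL497

theorem fL498 : FarP 498 (nuT 498) :=
  farK (by decide) eL498 eL499 eL500 d498 sL498

theorem fL499 : FarP 499 (nuT 499) :=
  farK (by decide) eL499 eL500 eL501 d499 sL499

theorem fG400 : ∀ L, 400 ≤ L → L < 500 → FarP L (nuT L) := by
  intro L h1 h2
  interval_cases L
  · exact fL400
  · exact fL401
  · exact fL402
  · exact fL403
  · exact fL404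
  · exact fL405
  · exact fL406
  · exact fL407
  · exact fL408
  · exact fL409
  · exact fL410
  · exact fL411
  · exact fL412
  · exact fL413
  · exact fL414
  · exact fL415
  · exact fL416
  · exact fL417
  · exact fL418
  · exact fL419
  · exact fL420
  · exact fL421
  · exact fL422
  · exact fL423
  · exact fL424
  · exact fL425
  · exact fL426
  · exact fL427
  · exact fL428
  · exact fL429
  · exact fL430
  · exact fL431
  · exact fL432
  · exact fL433
  · exact fL434
  · exact fL435
  · exact fL436
  · exact fL437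
  · exact fL438
  · exact fL439
  · exact fL440
  · exact fL441
  · exact fL442
  · exact fL443
  · exact fL444
  · exact fL445
  · exact fL446
  · exact fL447
  · exact fL448
  · exact fL449
  · exact fL450
  · exact fL451
  · exact fL452
  · exact fL453
  · exact fL454
  · exact fL455
  · exact fL456
  · exact fL457
  · exact fL458
  · exact fL459
  · exact fL460
  · exact fL461
  · exact fL462
  · exact fL463
  · exact fL464
  · exact fL465
  · exact fL466
  · exact fL467
  · exact fL468
  · exact fL469
  · exact fL470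
  · exact fL471
  · exact fL472
  · exact fL473
  · exact fL474
  · exact fL475
  · exact fL476
  · exact fL477
  · exact fL478
  · exact fL479
  · exact fL480
  · exact fL481
  · exact fL482
  · exact fL483
  · exact fL484
  · exact fL485
  · exact fL486
  · exact fL487
  · exact fL488
  · exact fL489
  · exact fL490
  · exact fL491
  · exact fL492
  · exact fL493
  · exact fL494
  · exact fL495
  · exact fL496
  · exact fL497
  · exact fL498
  · exact fL499

end Pool.Agent.MP_9da1e3_co
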