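import Pool.Agent.Lib.MP_9da1e3_co.Kd1
import Pool.Agent.Lib.MP_9da1e3_co.KcG500
import Pool.Agent.Lib.MP_9da1e3_co.KdD500
import Pool.Agent.Lib.MP_9da1e3_co.KdD510
import Pool.Agent.Lib.MP_9da1e3_co.KdD520
import Pool.Agent.Lib.MP_9da1e3_co.KdD530
import Pool.Agent.Lib.MP_9da1e3_co.KdD540
import Pool.Agent.Lib.MP_9da1e3_co.KdD550
import Pool.Agent.Lib.MP_9da1e3_co.KdD560
import Pool.Agent.Lib.MP_9da1e3_co.KdD570
import Pool.Agent.Lib.MP_9da1e3_co.KdD580
import Pool.Agent.Lib.MP_9da1e3_co.KdD590

set_option maxRecDepth 100000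

namespace Pool.Agent.MP_9da1e3_co

theorem fL500 : FarP 500 (nuT 500) :=
  farK (by decide) eL500 eL501 eL502 d500 sL500

theorem fL501 : FarP 501 (nuT 501) :=
  farK (by decide) eL501 eL502 eL503 d501 sL501

theorem fL502 : FarP 502 (nuT 502) :=
  farK (by decide) eL502 eL503 eL504 d502 sL502

theorem fL503 : FarP 503 (nuT 503) :=
  farK (by decide) eL503 eL504 eL505 d503 sL503

theorem fL504 : FarP 504 (nuT 504) :=
  farK (by decide) eL504 eL505 eL506 d504 sL504

theorem fL505 : FarP 505 (nuT 505) :=
  farK (by decide) eL505 eL506 eL507 d505 sL505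

theorem fL506 : FarP 506 (nuT 506) :=
  farK (by decide) eL506 eL507 eL508 d506 sL506

theorem fL507 : FarP 507 (nuT 507) :=
  farK (by decide) eL507 eL508 eL509 d507 sL507

theorem fL508 : FarP 508 (nuT 508) :=
  farK (by decide) eL508 eL509 eL510 d508 sL508

theorem fL509 : FarP 509 (nuT 509) :=
  farK (by decide) eL509 eL510 eL511 d509 sL509

theorem fL510 : FarP 510 (nuT 510) :=
  farK (by decide) eL510 eL511 eL512 d510 sL510

theorem fL511 : FarP 511 (nuT 511) :=
  farK (by decide) eL511 eL512 eL513 d511 sL511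

theorem fL512 : FarP 512 (nuT 512) :=
  farK (by decide) eL512 eL513 eL514 d512 sL512

theorem fL513 : FarP 513 (nuT 513) :=
  farK (by decide) eL513 eL514 eL515 d513 sL513

theorem fL514 : FarP 514 (nuT 514) :=
  farK (by decide) eL514 eL515 eL516 d514 sL514

theorem fL515 : FarP 515 (nuT 515) :=
  farK (by decide) eL515 eL516 eL517 d515 sL515

theorem fL516 : FarP 516 (nuT 516) :=
  farK (by decide) eL516 eL517 eL518 d516 sL516

theorem fL517 : FarP 517 (nuT 517) :=
  farK (by decide) eL517 eL518 eL519 d517 sL517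

theorem fL518 : FarP 518 (nuT 518) :=
  farK (by decide) eL518 eL519 eL520 d518 sL518

theorem fL519 : FarP 519 (nuT 519) :=
  farK (by decide) eL519 eL520 eL521 d519 sL519

theorem fL520 : FarP 520 (nuT 520) :=
  farK (by decide) eL520 eL521 eL522 d520 sL520

theorem fL521 : FarP 521 (nuT 521) :=
  farK (by decide) eL521 eL522 eL523 d521 sL521

theorem fL522 : FarP 522 (nuT 522) :=
  farK (by decide) eL522 eL523 eL524 d522 sL522

theorem fL523 : FarP 523 (nuT 523) :=
  farK (by decide) eL523 eL524 eL525 d523 sL523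

theorem fL524 : FarP 524 (nuT 524) :=
  farK (by decide) eL524 eL525 eL526 d524 sL524

theorem fL525 : FarP 525 (nuT 525) :=
  farK (by decide) eL525 eL526 eL527 d525 sL525

theorem fL526 : FarP 526 (nuT 526) :=
  farK (by decide) eL526 eL527 eL528 d526 sL526

theorem fL527 : FarP 527 (nuT 527) :=
  farK (by decide) eL527 eL528 eL529 d527 sL527

theorem fL528 : FarP 528 (nuT 528) :=
  farK (by decide) eL528 eL529 eL530 d528 sL528

theorem fL529 : FarP 529 (nuT 529) :=
  farK (by decide) eL529 eL530 eL531 d529 sL529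

theorem fL530 : FarP 530 (nuT 530) :=
  farK (by decide) eL530 eL531 eL532 d530 sL530

theorem fL531 : FarP 531 (nuT 531) :=
  farK (by decide) eL531 eL532 eL533 d531 sL531

theorem fL532 : FarP 532 (nuT 532) :=
  farK (by decide) eL532 eL533 eL534 d532 sL532

theorem fL533 : FarP 533 (nuT 533) :=
  farK (by decide) eL533 eL534 eL535 d533 sL533

theorem fL534 : FarP 534 (nuT 534) :=
  farK (by decide) eL534 eL535 eL536 d534 sL534

theorem fL535 : FarP 535 (nuT 535) :=
  farK (by decide) eL535 eL536 eL537 d535 sL535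

theorem fL536 : FarP 536 (nuT 536) :=
  farK (by decide) eL536 eL537 eL538 d536 sL536

theorem fL537 : FarP 537 (nuT 537) :=
  farK (by decide) eL537 eL538 eL539 d537 sL537

theorem fL538 : FarP 538 (nuT 538) :=
  farK (by decide) eL538 eL539 eL540 d538 sL538

theorem fL539 : FarP 539 (nuT 539) :=
  farK (by decide) eL539 eL540 eL541 d539 sL539

theorem fL540 : FarP 540 (nuT 540) :=
  farK (by decide) eL540 eL541 eL542 d540 sL540

theorem fL541 : FarP 541 (nuT 541) :=
  farK (by decide) eL541 eL542 eL543 d541 sL541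

theorem fL542 : FarP 542 (nuT 542) :=
  farK (by decide) eL542 eL543 eL544 d542 sL542

theorem fL543 : FarP 543 (nuT 543) :=
  farK (by decide) eL543 eL544 eL545 d543 sL543

theorem fL544 : FarP 544 (nuT 544) :=
  farK (by decide) eL544 eL545 eL546 d544 sL544

theorem fL545 : FarP 545 (nuT 545) :=
  farK (by decide) eL545 eL546 eL547 d545 sL545

theorem fL546 : FarP 546 (nuT 546) :=
  farK (by decide) eL546 eL547 eL548 d546 sL546

theorem fL547 : FarP 547 (nuT 547) :=
  farK (by decide) eL547 eL548 eL549 d547 sL547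

theorem fL548 : FarP 548 (nuT 548) :=
  farK (by decide) eL548 eL549 eL550 d548 sL548

theorem fL549 : FarP 549 (nuT 549) :=
  farK (by decide) eL549 eL550 eL551 d549 sL549

theorem fL550 : FarP 550 (nuT 550) :=
  farK (by decide) eL550 eL551 eL552 d550 sL550

theorem fL551 : FarP 551 (nuT 551) :=
  farK (by decide) eL551 eL552 eL553 d551 sL551

theorem fL552 : FarP 552 (nuT 552) :=
  farK (by decide) eL552 eL553 eL554 d552 sL552

theorem fL553 : FarP 553 (nuT 553) :=
  farK (by decide) eL553 eL554 eL555 d553 sL553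

theorem fL554 : FarP 554 (nuT 554) :=
  farK (by decide) eL554 eL555 eL556 d554 sL554

theorem fL555 : FarP 555 (nuT 555) :=
  farK (by decide) eL555 eL556 eL557 d555 sL555

theorem fL556 : FarP 556 (nuT 556) :=
  farK (by decide) eL556 eL557 eL558 d556 sL556

theorem fL557 : FarP 557 (nuT 557) :=
  farK (by decide) eL557 eL558 eL559 d557 sL557

theorem fL558 : FarP 558 (nuT 558) :=
  farK (by decide) eL558 eL559 eL560 d558 sL558

theorem fL559 : FarP 559 (nuT 559) :=
  farK (by decide) eL559 eL560 eL561 d559 sL559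

theorem fL560 : FarP 560 (nuT 560) :=
  farK (by decide) eL560 eL561 eL562 d560 sL560

theorem fL561 : FarP 561 (nuT 561) :=
  farK (by decide) eL561 eL562 eL563 d561 sL561

theorem fL562 : FarP 562 (nuT 562) :=
  farK (by decide) eL562 eL563 eL564 d562 sL562

theorem fL563 : FarP 563 (nuT 563) :=
  farK (by decide) eL563 eL564 eL565 d563 sL563

theorem fL564 : FarP 564 (nuT 564) :=
  farK (by decide) eL564 eL565 eL566 d564 sL564

theorem fL565 : FarP 565 (nuT 565) :=
  farK (by decide) eL565 eL566 eL567 d565 sL565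

theorem fL566 : FarP 566 (nuT 566) :=
  farK (by decide) eL566 eL567 eL568 d566 sL566

theorem fL567 : FarP 567 (nuT 567) :=
  farK (by decide) eL567 eL568 eL569 d567 sL567

theorem fL568 : FarP 568 (nuT 568) :=
  farK (by decide) eL568 eL569 eL570 d568 sL568

theorem fL569 : FarP 569 (nuT 569) :=
  farK (by decide) eL569 eL570 eL571 d569 sL569

theorem fL570 : FarP 570 (nuT 570) :=
  farK (by decide) eL570 eL571 eL572 d570 sL570

theorem fL571 : FarP 571 (nuT 571) :=
  farK (by decide) eL571 eL572 eL573 d571 sL571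

theorem fL572 : FarP 572 (nuT 572) :=
  farK (by decide) eL572 eL573 eL574 d572 sL572

theorem fL573 : FarP 573 (nuT 573) :=
  farK (by decide) eL573 eL574 eL575 d573 sL573

theorem fL574 : FarP 574 (nuT 574) :=
  farK (by decide) eL574 eL575 eL576 d574 sL574

theorem fL575 : FarP 575 (nuT 575) :=
  farK (by decide) eL575 eL576 eL577 d575 sL575

theorem fL576 : FarP 576 (nuT 576) :=
  farK (by decide) eL576 eL577 eL578 d576 sL576

theorem fL577 : FarP 577 (nuT 577) :=
  farK (by decide) eL577 eL578 eL579 d577 sL577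

theorem fL578 : FarP 578 (nuT 578) :=
  farK (by decide) eL578 eL579 eL580 d578 sL578

theorem fL579 : FarP 579 (nuT 579) :=
  farK (by decide) eL579 eL580 eL581 d579 sL579

theorem fL580 : FarP 580 (nuT 580) :=
  farK (by decide) eL580 eL581 eL582 d580 sL580

theorem fL581 : FarP 581 (nuT 581) :=
  farK (by decide) eL581 eL582 eL583 d581 sL581

theorem fL582 : FarP 582 (nuT 582) :=
  farK (by decide) eL582 eL583 eL584 d582 sL582

theorem fL583 : FarP 583 (nuT 583) :=
  farK (by decide) eL583 eL584 eL585 d583 sL583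

theorem fL584 : FarP 584 (nuT 584) :=
  farK (by decide) eL584 eL585 eL586 d584 sL584

theorem fL585 : FarP 585 (nuT 585) :=
  farK (by decide) eL585 eL586 eL587 d585 sL585

theorem fL586 : FarP 586 (nuT 586) :=
  farK (by decide) eL586 eL587 eL588 d586 sL586

theorem fL587 : FarP 587 (nuT 587) :=
  farK (by decide) eL587 eL588 eL589 d587 sL587

theorem fL588 : FarP 588 (nuT 588) :=
  farK (by decide) eL588 eL589 eL590 d588 sL588

theorem fL589 : FarP 589 (nuT 589) :=
  farK (by decide) eL589 eL590 eL591 d589 sL589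

theorem fL590 : FarP 590 (nuT 590) :=
  farK (by decide) eL590 eL591 eL592 d590 sL590

theorem fL591 : FarP 591 (nuT 591) :=
  farK (by decide) eL591 eL592 eL593 d591 sL591

theorem fL592 : FarP 592 (nuT 592) :=
  farK (by decide) eL592 eL593 eL594 d592 sL592

theorem fL593 : FarP 593 (nuT 593) :=
  farK (by decide) eL593 eL594 eL595 d593 sL593

theorem fL594 : FarP 594 (nuT 594) :=
  farK (by decide) eL594 eL595 eL596 d594 sL594

theorem fL595 : FarP 595 (nuT 595) :=
  farK (by decide) eL595 eL596 eL597 d595 sL595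

theorem fL596 : FarP 596 (nuT 596) :=
  farK (by decide) eL596 eL597 eL598 d596 sL596

theorem fL597 : FarP 597 (nuT 597) :=
  farK (by decide) eL597 eL598 eL599 d597 sL597

theorem fL598 : FarP 598 (nuT 598) :=
  farK (by decide) eL598 eL599 eL600 d598 sL598

theorem fL599 : FarP 599 (nuT 599) :=
  farK (by decide) eL599 eL600 eL601 d599 sL599

theorem fG500 : ∀ L, 500 ≤ L → L < 600 → FarP L (nuT L) := by
  intro L h1 h2
  interval_cases L
  · exact fL500
  · exact fL501
  · exact fL502
  · exact fL503
  · exact fL504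
  · exact fL505
  · exact fL506
  · exact fL507
  · exact fL508
  · exact fL509
  · exact fL510
  · exact fL511
  · exact fL512
  · exact fL513
  · exact fL514
  · exact fL515
  · exact fL516
  · exact fL517
  · exact fL518
  · exact fL519
  · exact fL520
  · exact fL521
  · exact fL522
  · exact fL523
  · exact fL524
  · exact fL525
  · exact fL526
  · exact fL527
  · exact fL528
  · exact fL529
  · exact fL530
  · exact fL531
  · exact fL532
  · exact fL533
  · exact fL534
  · exact fL535
  · exact fL536
  · exact fL537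
  · exact fL538
  · exact fL539
  · exact fL540
  · exact fL541
  · exact fL542
  · exact fL543
  · exact fL544
  · exact fL545
  · exact fL546
  · exact fL547
  · exact fL548
  · exact fL549
  · exact fL550
  · exact fL551
  · exact fL552
  · exact fL553
  · exact fL554
  · exact fL555
  · exact fL556
  · exact fL557
  · exact fL558
  · exact fL559
  · exact fL560
  · exact fL561
  · exact fL562
  · exact fL563
  · exact fL564
  · exact fL565
  · exact fL566
  · exact fL567
  · exact fL568
  · exact fL569
  · exact fL570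
  · exact fL571
  · exact fL572
  · exact fL573
  · exact fL574
  · exact fL575
  · exact fL576
  · exact fL577
  · exact fL578
  · exact fL579
  · exact fL580
  · exact fL581
  · exact fL582
  · exact fL583
  · exact fL584
  · exact fL585
  · exact fL586
  · exact fL587
  · exact fL588
  · exact fL589
  · exact fL590
  · exact fL591
  · exact fL592
  · exact fL593
  · exact fL594
  · exact fL595
  · exact fL596
  · exact fL597
  · exact fL598
  · exact fL599

end Pool.Agent.MP_9da1e3_co
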