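import Pool.Agent.Lib.MP_9da1e3_co.Kd1
import Pool.Agent.Lib.MP_9da1e3_co.KcG600
import Pool.Agent.Lib.MP_9da1e3_co.KdD600
import Pool.Agent.Lib.MP_9da1e3_co.KdD610
import Pool.Agent.Lib.MP_9da1e3_co.KdD620
import Pool.Agent.Lib.MP_9da1e3_co.KdD630
import Pool.Agent.Lib.MP_9da1e3_co.KdD640
import Pool.Agent.Lib.MP_9da1e3_co.KdD650
import Pool.Agent.Lib.MP_9da1e3_co.KdD660
import Pool.Agent.Lib.MP_9da1e3_co.KdD670
import Pool.Agent.Lib.MP_9da1e3_co.KdD680
import Pool.Agent.Lib.MP_9da1e3_co.KdD690

set_option maxRecDepth 100000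

namespace Pool.Agent.MP_9da1e3_co

theorem fL600 : FarP 600 (nuT 600) :=
  farK (by decide) eL600 eL601 eL602 d600 sL600

theorem fL601 : FarP 601 (nuT 601) :=
  farK (by decide) eL601 eL602 eL603 d601 sL601

theorem fL602 : FarP 602 (nuT 602) :=
  farK (by decide) eL602 eL603 eL604 d602 sL602

theorem fL603 : FarP 603 (nuT 603) :=
  farK (by decide) eL603 eL604 eL605 d603 sL603

theorem fL604 : FarP 604 (nuT 604) :=
  farK (by decide) eL604 eL605 eL606 d604 sL604

theorem fL605 : FarP 605 (nuT 605) :=
  farK (by decide) eL605 eL606 eL607 d605 sL605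

theorem fL606 : FarP 606 (nuT 606) :=
  farK (by decide) eL606 eL607 eL608 d606 sL606

theorem fL607 : FarP 607 (nuT 607) :=
  farK (by decide) eL607 eL608 eL609 d607 sL607

theorem fL608 : FarP 608 (nuT 608) :=
  farK (by decide) eL608 eL609 eL610 d608 sL608

theorem fL609 : FarP 609 (nuT 609) :=
  farK (by decide) eL609 eL610 eL611 d609 sL609

theorem fL610 : FarP 610 (nuT 610) :=
  farK (by decide) eL610 eL611 eL612 d610 sL610

theorem fL611 : FarP 611 (nuT 611) :=
  farK (by decide) eL611 eL612 eL613 d611 sL611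

theorem fL612 : FarP 612 (nuT 612) :=
  farK (by decide) eL612 eL613 eL614 d612 sL612

theorem fL613 : FarP 613 (nuT 613) :=
  farK (by decide) eL613 eL614 eL615 d613 sL613

theorem fL614 : FarP 614 (nuT 614) :=
  farK (by decide) eL614 eL615 eL616 d614 sL614

theorem fL615 : FarP 615 (nuT 615) :=
  farK (by decide) eL615 eL616 eL617 d615 sL615

theorem fL616 : FarP 616 (nuT 616) :=
  farK (by decide) eL616 eL617 eL618 d616 sL616

theorem fL617 : FarP 617 (nuT 617) :=
  farK (by decide) eL617 eL618 eL619 d617 sL617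

theorem fL618 : FarP 618 (nuT 618) :=
  farK (by decide) eL618 eL619 eL620 d618 sL618

theorem fL619 : FarP 619 (nuT 619) :=
  farK (by decide) eL619 eL620 eL621 d619 sL619

theorem fL620 : FarP 620 (nuT 620) :=
  farK (by decide) eL620 eL621 eL622 d620 sL620

theorem fL621 : FarP 621 (nuT 621) :=
  farK (by decide) eL621 eL622 eL623 d621 sL621

theorem fL622 : FarP 622 (nuT 622) :=
  farK (by decide) eL622 eL623 eL624 d622 sL622

theorem fL623 : FarP 623 (nuT 623) :=
  farK (by decide) eL623 eL624 eL625 d623 sL623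

theorem fL624 : FarP 624 (nuT 624) :=
  farK (by decide) eL624 eL625 eL626 d624 sL624

theorem fL625 : FarP 625 (nuT 625) :=
  farK (by decide) eL625 eL626 eL627 d625 sL625

theorem fL626 : FarP 626 (nuT 626) :=
  farK (by decide) eL626 eL627 eL628 d626 sL626

theorem fL627 : FarP 627 (nuT 627) :=
  farK (by decide) eL627 eL628 eL629 d627 sL627

theorem fL628 : FarP 628 (nuT 628) :=
  farK (by decide) eL628 eL629 eL630 d628 sL628

theorem fL629 : FarP 629 (nuT 629) :=
  farK (by decide) eL629 eL630 eL631 d629 sL629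

theorem fL630 : FarP 630 (nuT 630) :=
  farK (by decide) eL630 eL631 eL632 d630 sL630

theorem fL631 : FarP 631 (nuT 631) :=
  farK (by decide) eL631 eL632 eL633 d631 sL631

theorem fL632 : FarP 632 (nuT 632) :=
  farK (by decide) eL632 eL633 eL634 d632 sL632

theorem fL633 : FarP 633 (nuT 633) :=
  farK (by decide) eL633 eL634 eL635 d633 sL633

theorem fL634 : FarP 634 (nuT 634) :=
  farK (by decide) eL634 eL635 eL636 d634 sL634

theorem fL635 : FarP 635 (nuT 635) :=
  farK (by decide) eL635 eL636 eL637 d635 sL635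

theorem fL636 : FarP 636 (nuT 636) :=
  farK (by decide) eL636 eL637 eL638 d636 sL636

theorem fL637 : FarP 637 (nuT 637) :=
  farK (by decide) eL637 eL638 eL639 d637 sL637

theorem fL638 : FarP 638 (nuT 638) :=
  farK (by decide) eL638 eL639 eL640 d638 sL638

theorem fL639 : FarP 639 (nuT 639) :=
  farK (by decide) eL639 eL640 eL641 d639 sL639

theorem fL640 : FarP 640 (nuT 640) :=
  farK (by decide) eL640 eL641 eL642 d640 sL640

theorem fL641 : FarP 641 (nuT 641) :=
  farK (by decide) eL641 eL642 eL643 d641 sL641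

theorem fL642 : FarP 642 (nuT 642) :=
  farK (by decide) eL642 eL643 eL644 d642 sL642

theorem fL643 : FarP 643 (nuT 643) :=
  farK (by decide) eL643 eL644 eL645 d643 sL643

theorem fL644 : FarP 644 (nuT 644) :=
  farK (by decide) eL644 eL645 eL646 d644 sL644

theorem fL645 : FarP 645 (nuT 645) :=
  farK (by decide) eL645 eL646 eL647 d645 sL645

theorem fL646 : FarP 646 (nuT 646) :=
  farK (by decide) eL646 eL647 eL648 d646 sL646

theorem fL647 : FarP 647 (nuT 647) :=
  farK (by decide) eL647 eL648 eL649 d647 sL647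

theorem fL648 : FarP 648 (nuT 648) :=
  farK (by decide) eL648 eL649 eL650 d648 sL648

theorem fL649 : FarP 649 (nuT 649) :=
  farK (by decide) eL649 eL650 eL651 d649 sL649

theorem fL650 : FarP 650 (nuT 650) :=
  farK (by decide) eL650 eL651 eL652 d650 sL650

theorem fL651 : FarP 651 (nuT 651) :=
  farK (by decide) eL651 eL652 eL653 d651 sL651

theorem fL652 : FarP 652 (nuT 652) :=
  farK (by decide) eL652 eL653 eL654 d652 sL652

theorem fL653 : FarP 653 (nuT 653) :=
  farK (by decide) eL653 eL654 eL655 d653 sL653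

theorem fL654 : FarP 654 (nuT 654) :=
  farK (by decide) eL654 eL655 eL656 d654 sL654

theorem fL655 : FarP 655 (nuT 655) :=
  farK (by decide) eL655 eL656 eL657 d655 sL655

theorem fL656 : FarP 656 (nuT 656) :=
  farK (by decide) eL656 eL657 eL658 d656 sL656

theorem fL657 : FarP 657 (nuT 657) :=
  farK (by decide) eL657 eL658 eL659 d657 sL657

theorem fL658 : FarP 658 (nuT 658) :=
  farK (by decide) eL658 eL659 eL660 d658 sL658

theorem fL659 : FarP 659 (nuT 659) :=
  farK (by decide) eL659 eL660 eL661 d659 sL659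

theorem fL660 : FarP 660 (nuT 660) :=
  farK (by decide) eL660 eL661 eL662 d660 sL660

theorem fL661 : FarP 661 (nuT 661) :=
  farK (by decide) eL661 eL662 eL663 d661 sL661

theorem fL662 : FarP 662 (nuT 662) :=
  farK (by decide) eL662 eL663 eL664 d662 sL662

theorem fL663 : FarP 663 (nuT 663) :=
  farK (by decide) eL663 eL664 eL665 d663 sL663

theorem fL664 : FarP 664 (nuT 664) :=
  farK (by decide) eL664 eL665 eL666 d664 sL664

theorem fL665 : FarP 665 (nuT 665) :=
  farK (by decide) eL665 eL666 eL667 d665 sL665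

theorem fL666 : FarP 666 (nuT 666) :=
  farK (by decide) eL666 eL667 eL668 d666 sL666

theorem fL667 : FarP 667 (nuT 667) :=
  farK (by decide) eL667 eL668 eL669 d667 sL667

theorem fL668 : FarP 668 (nuT 668) :=
  farK (by decide) eL668 eL669 eL670 d668 sL668

theorem fL669 : FarP 669 (nuT 669) :=
  farK (by decide) eL669 eL670 eL671 d669 sL669

theorem fL670 : FarP 670 (nuT 670) :=
  farK (by decide) eL670 eL671 eL672 d670 sL670

theorem fL671 : FarP 671 (nuT 671) :=
  farK (by decide) eL671 eL672 eL673 d671 sL671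

theorem fL672 : FarP 672 (nuT 672) :=
  farK (by decide) eL672 eL673 eL674 d672 sL672

theorem fL673 : FarP 673 (nuT 673) :=
  farK (by decide) eL673 eL674 eL675 d673 sL673

theorem fL674 : FarP 674 (nuT 674) :=
  farK (by decide) eL674 eL675 eL676 d674 sL674

theorem fL675 : FarP 675 (nuT 675) :=
  farK (by decide) eL675 eL676 eL677 d675 sL675

theorem fL676 : FarP 676 (nuT 676) :=
  farK (by decide) eL676 eL677 eL678 d676 sL676

theorem fL677 : FarP 677 (nuT 677) :=
  farK (by decide) eL677 eL678 eL679 d677 sL677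

theorem fL678 : FarP 678 (nuT 678) :=
  farK (by decide) eL678 eL679 eL680 d678 sL678

theorem fL679 : FarP 679 (nuT 679) :=
  farK (by decide) eL679 eL680 eL681 d679 sL679

theorem fL680 : FarP 680 (nuT 680) :=
  farK (by decide) eL680 eL681 eL682 d680 sL680

theorem fL681 : FarP 681 (nuT 681) :=
  farK (by decide) eL681 eL682 eL683 d681 sL681

theorem fL682 : FarP 682 (nuT 682) :=
  farK (by decide) eL682 eL683 eL684 d682 sL682

theorem fL683 : FarP 683 (nuT 683) :=
  farK (by decide) eL683 eL684 eL685 d683 sL683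

theorem fL684 : FarP 684 (nuT 684) :=
  farK (by decide) eL684 eL685 eL686 d684 sL684

theorem fL685 : FarP 685 (nuT 685) :=
  farK (by decide) eL685 eL686 eL687 d685 sL685

theorem fL686 : FarP 686 (nuT 686) :=
  farK (by decide) eL686 eL687 eL688 d686 sL686

theorem fL687 : FarP 687 (nuT 687) :=
  farK (by decide) eL687 eL688 eL689 d687 sL687

theorem fL688 : FarP 688 (nuT 688) :=
  farK (by decide) eL688 eL689 eL690 d688 sL688

theorem fL689 : FarP 689 (nuT 689) :=
  farK (by decide) eL689 eL690 eL691 d689 sL689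

theorem fL690 : FarP 690 (nuT 690) :=
  farK (by decide) eL690 eL691 eL692 d690 sL690

theorem fL691 : FarP 691 (nuT 691) :=
  farK (by decide) eL691 eL692 eL693 d691 sL691

theorem fL692 : FarP 692 (nuT 692) :=
  farK (by decide) eL692 eL693 eL694 d692 sL692

theorem fL693 : FarP 693 (nuT 693) :=
  farK (by decide) eL693 eL694 eL695 d693 sL693

theorem fL694 : FarP 694 (nuT 694) :=
  farK (by decide) eL694 eL695 eL696 d694 sL694

theorem fL695 : FarP 695 (nuT 695) :=
  farK (by decide) eL695 eL696 eL697 d695 sL695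

theorem fL696 : FarP 696 (nuT 696) :=
  farK (by decide) eL696 eL697 eL698 d696 sL696

theorem fL697 : FarP 697 (nuT 697) :=
  farK (by decide) eL697 eL698 eL699 d697 sL697

theorem fL698 : FarP 698 (nuT 698) :=
  farK (by decide) eL698 eL699 eL700 d698 sL698

theorem fL699 : FarP 699 (nuT 699) :=
  farK (by decide) eL699 eL700 eL701 d699 sL699

theorem fG600 : ∀ L, 600 ≤ L → L < 700 → FarP L (nuT L) := by
  intro L h1 h2
  interval_cases L
  · exact fL600
  · exact fL601
  · exact fL602
  · exact fL603
  · exact fL604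
  · exact fL605
  · exact fL606
  · exact fL607
  · exact fL608
  · exact fL609
  · exact fL610
  · exact fL611
  · exact fL612
  · exact fL613
  · exact fL614
  · exact fL615
  · exact fL616
  · exact fL617
  · exact fL618
  · exact fL619
  · exact fL620
  · exact fL621
  · exact fL622
  · exact fL623
  · exact fL624
  · exact fL625
  · exact fL626
  · exact fL627
  · exact fL628
  · exact fL629
  · exact fL630
  · exact fL631
  · exact fL632
  · exact fL633
  · exact fL634
  · exact fL635
  · exact fL636
  · exact fL637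
  · exact fL638
  · exact fL639
  · exact fL640
  · exact fL641
  · exact fL642
  · exact fL643
  · exact fL644
  · exact fL645
  · exact fL646
  · exact fL647
  · exact fL648
  · exact fL649
  · exact fL650
  · exact fL651
  · exact fL652
  · exact fL653
  · exact fL654
  · exact fL655
  · exact fL656
  · exact fL657
  · exact fL658
  · exact fL659
  · exact fL660
  · exact fL661
  · exact fL662
  · exact fL663
  · exact fL664
  · exact fL665
  · exact fL666
  · exact fL667
  · exact fL668
  · exact fL669
  · exact fL670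
  · exact fL671
  · exact fL672
  · exact fL673
  · exact fL674
  · exact fL675
  · exact fL676
  · exact fL677
  · exact fL678
  · exact fL679
  · exact fL680
  · exact fL681
  · exact fL682
  · exact fL683
  · exact fL684
  · exact fL685
  · exact fL686
  · exact fL687
  · exact fL688
  · exact fL689
  · exact fL690
  · exact fL691
  · exact fL692
  · exact fL693
  · exact fL694
  · exact fL695
  · exact fL696
  · exact fL697
  · exact fL698
  · exact fL699

end Pool.Agent.MP_9da1e3_co
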