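import Pool.Agent.Lib.MP_9da1e3_co.Kd1
import Pool.Agent.Lib.MP_9da1e3_co.KcG700
import Pool.Agent.Lib.MP_9da1e3_co.KdD700
import Pool.Agent.Lib.MP_9da1e3_co.KdD710
import Pool.Agent.Lib.MP_9da1e3_co.KdD720
import Pool.Agent.Lib.MP_9da1e3_co.KdD730
import Pool.Agent.Lib.MP_9da1e3_co.KdD740
import Pool.Agent.Lib.MP_9da1e3_co.KdD750
import Pool.Agent.Lib.MP_9da1e3_co.KdD760
import Pool.Agent.Lib.MP_9da1e3_co.KdD770
import Pool.Agent.Lib.MP_9da1e3_co.KdD780
import Pool.Agent.Lib.MP_9da1e3_co.KdD790

set_option maxRecDepth 100000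

namespace Pool.Agent.MP_9da1e3_co

theorem fL700 : FarP 700 (nuT 700) :=
  farK (by decide) eL700 eL701 eL702 d700 sL700

theorem fL701 : FarP 701 (nuT 701) :=
  farK (by decide) eL701 eL702 eL703 d701 sL701

theorem fL702 : FarP 702 (nuT 702) :=
  farK (by decide) eL702 eL703 eL704 d702 sL702

theorem fL703 : FarP 703 (nuT 703) :=
  farK (by decide) eL703 eL704 eL705 d703 sL703

theorem fL704 : FarP 704 (nuT 704) :=
  farK (by decide) eL704 eL705 eL706 d704 sL704

theorem fL705 : FarP 705 (nuT 705) :=
  farK (by decide) eL705 eL706 eL707 d705 sL705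

theorem fL706 : FarP 706 (nuT 706) :=
  farK (by decide) eL706 eL707 eL708 d706 sL706

theorem fL707 : FarP 707 (nuT 707) :=
  farK (by decide) eL707 eL708 eL709 d707 sL707

theorem fL708 : FarP 708 (nuT 708) :=
  farK (by decide) eL708 eL709 eL710 d708 sL708

theorem fL709 : FarP 709 (nuT 709) :=
  farK (by decide) eL709 eL710 eL711 d709 sL709

theorem fL710 : FarP 710 (nuT 710) :=
  farK (by decide) eL710 eL711 eL712 d710 sL710

theorem fL711 : FarP 711 (nuT 711) :=
  farK (by decide) eL711 eL712 eL713 d711 sL711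

theorem fL712 : FarP 712 (nuT 712) :=
  farK (by decide) eL712 eL713 eL714 d712 sL712

theorem fL713 : FarP 713 (nuT 713) :=
  farK (by decide) eL713 eL714 eL715 d713 sL713

theorem fL714 : FarP 714 (nuT 714) :=
  farK (by decide) eL714 eL715 eL716 d714 sL714

theorem fL715 : FarP 715 (nuT 715) :=
  farK (by decide) eL715 eL716 eL717 d715 sL715

theorem fL716 : FarP 716 (nuT 716) :=
  farK (by decide) eL716 eL717 eL718 d716 sL716

theorem fL717 : FarP 717 (nuT 717) :=
  farK (by decide) eL717 eL718 eL719 d717 sL717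

theorem fL718 : FarP 718 (nuT 718) :=
  farK (by decide) eL718 eL719 eL720 d718 sL718

theorem fL719 : FarP 719 (nuT 719) :=
  farK (by decide) eL719 eL720 eL721 d719 sL719

theorem fL720 : FarP 720 (nuT 720) :=
  farK (by decide) eL720 eL721 eL722 d720 sL720

theorem fL721 : FarP 721 (nuT 721) :=
  farK (by decide) eL721 eL722 eL723 d721 sL721

theorem fL722 : FarP 722 (nuT 722) :=
  farK (by decide) eL722 eL723 eL724 d722 sL722

theorem fL723 : FarP 723 (nuT 723) :=
  farK (by decide) eL723 eL724 eL725 d723 sL723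

theorem fL724 : FarP 724 (nuT 724) :=
  farK (by decide) eL724 eL725 eL726 d724 sL724

theorem fL725 : FarP 725 (nuT 725) :=
  farK (by decide) eL725 eL726 eL727 d725 sL725

theorem fL726 : FarP 726 (nuT 726) :=
  farK (by decide) eL726 eL727 eL728 d726 sL726

theorem fL727 : FarP 727 (nuT 727) :=
  farK (by decide) eL727 eL728 eL729 d727 sL727

theorem fL728 : FarP 728 (nuT 728) :=
  farK (by decide) eL728 eL729 eL730 d728 sL728

theorem fL729 : FarP 729 (nuT 729) :=
  farK (by decide) eL729 eL730 eL731 d729 sL729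

theorem fL730 : FarP 730 (nuT 730) :=
  farK (by decide) eL730 eL731 eL732 d730 sL730

theorem fL731 : FarP 731 (nuT 731) :=
  farK (by decide) eL731 eL732 eL733 d731 sL731

theorem fL732 : FarP 732 (nuT 732) :=
  farK (by decide) eL732 eL733 eL734 d732 sL732

theorem fL733 : FarP 733 (nuT 733) :=
  farK (by decide) eL733 eL734 eL735 d733 sL733

theorem fL734 : FarP 734 (nuT 734) :=
  farK (by decide) eL734 eL735 eL736 d734 sL734

theorem fL735 : FarP 735 (nuT 735) :=
  farK (by decide) eL735 eL736 eL737 d735 sL735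

theorem fL736 : FarP 736 (nuT 736) :=
  farK (by decide) eL736 eL737 eL738 d736 sL736

theorem fL737 : FarP 737 (nuT 737) :=
  farK (by decide) eL737 eL738 eL739 d737 sL737

theorem fL738 : FarP 738 (nuT 738) :=
  farK (by decide) eL738 eL739 eL740 d738 sL738

theorem fL739 : FarP 739 (nuT 739) :=
  farK (by decide) eL739 eL740 eL741 d739 sL739

theorem fL740 : FarP 740 (nuT 740) :=
  farK (by decide) eL740 eL741 eL742 d740 sL740

theorem fL741 : FarP 741 (nuT 741) :=
  farK (by decide) eL741 eL742 eL743 d741 sL741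

theorem fL742 : FarP 742 (nuT 742) :=
  farK (by decide) eL742 eL743 eL744 d742 sL742

theorem fL743 : FarP 743 (nuT 743) :=
  farK (by decide) eL743 eL744 eL745 d743 sL743

theorem fL744 : FarP 744 (nuT 744) :=
  farK (by decide) eL744 eL745 eL746 d744 sL744

theorem fL745 : FarP 745 (nuT 745) :=
  farK (by decide) eL745 eL746 eL747 d745 sL745

theorem fL746 : FarP 746 (nuT 746) :=
  farK (by decide) eL746 eL747 eL748 d746 sL746

theorem fL747 : FarP 747 (nuT 747) :=
  farK (by decide) eL747 eL748 eL749 d747 sL747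

theorem fL748 : FarP 748 (nuT 748) :=
  farK (by decide) eL748 eL749 eL750 d748 sL748

theorem fL749 : FarP 749 (nuT 749) :=
  farK (by decide) eL749 eL750 eL751 d749 sL749

theorem fL750 : FarP 750 (nuT 750) :=
  farK (by decide) eL750 eL751 eL752 d750 sL750

theorem fL751 : FarP 751 (nuT 751) :=
  farK (by decide) eL751 eL752 eL753 d751 sL751

theorem fL752 : FarP 752 (nuT 752) :=
  farK (by decide) eL752 eL753 eL754 d752 sL752

theorem fL753 : FarP 753 (nuT 753) :=
  farK (by decide) eL753 eL754 eL755 d753 sL753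

theorem fL754 : FarP 754 (nuT 754) :=
  farK (by decide) eL754 eL755 eL756 d754 sL754

theorem fL755 : FarP 755 (nuT 755) :=
  farK (by decide) eL755 eL756 eL757 d755 sL755

theorem fL756 : FarP 756 (nuT 756) :=
  farK (by decide) eL756 eL757 eL758 d756 sL756

theorem fL757 : FarP 757 (nuT 757) :=
  farK (by decide) eL757 eL758 eL759 d757 sL757

theorem fL758 : FarP 758 (nuT 758) :=
  farK (by decide) eL758 eL759 eL760 d758 sL758

theorem fL759 : FarP 759 (nuT 759) :=
  farK (by decide) eL759 eL760 eL761 d759 sL759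

theorem fL760 : FarP 760 (nuT 760) :=
  farK (by decide) eL760 eL761 eL762 d760 sL760

theorem fL761 : FarP 761 (nuT 761) :=
  farK (by decide) eL761 eL762 eL763 d761 sL761

theorem fL762 : FarP 762 (nuT 762) :=
  farK (by decide) eL762 eL763 eL764 d762 sL762

theorem fL763 : FarP 763 (nuT 763) :=
  farK (by decide) eL763 eL764 eL765 d763 sL763

theorem fL764 : FarP 764 (nuT 764) :=
  farK (by decide) eL764 eL765 eL766 d764 sL764

theorem fL765 : FarP 765 (nuT 765) :=
  farK (by decide) eL765 eL766 eL767 d765 sL765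

theorem fL766 : FarP 766 (nuT 766) :=
  farK (by decide) eL766 eL767 eL768 d766 sL766

theorem fL767 : FarP 767 (nuT 767) :=
  farK (by decide) eL767 eL768 eL769 d767 sL767

theorem fL768 : FarP 768 (nuT 768) :=
  farK (by decide) eL768 eL769 eL770 d768 sL768

theorem fL769 : FarP 769 (nuT 769) :=
  farK (by decide) eL769 eL770 eL771 d769 sL769

theorem fL770 : FarP 770 (nuT 770) :=
  farK (by decide) eL770 eL771 eL772 d770 sL770

theorem fL771 : FarP 771 (nuT 771) :=
  farK (by decide) eL771 eL772 eL773 d771 sL771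

theorem fL772 : FarP 772 (nuT 772) :=
  farK (by decide) eL772 eL773 eL774 d772 sL772

theorem fL773 : FarP 773 (nuT 773) :=
  farK (by decide) eL773 eL774 eL775 d773 sL773

theorem fL774 : FarP 774 (nuT 774) :=
  farK (by decide) eL774 eL775 eL776 d774 sL774

theorem fL775 : FarP 775 (nuT 775) :=
  farK (by decide) eL775 eL776 eL777 d775 sL775

theorem fL776 : FarP 776 (nuT 776) :=
  farK (by decide) eL776 eL777 eL778 d776 sL776

theorem fL777 : FarP 777 (nuT 777) :=
  farK (by decide) eL777 eL778 eL779 d777 sL777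

theorem fL778 : FarP 778 (nuT 778) :=
  farK (by decide) eL778 eL779 eL780 d778 sL778

theorem fL779 : FarP 779 (nuT 779) :=
  farK (by decide) eL779 eL780 eL781 d779 sL779

theorem fL780 : FarP 780 (nuT 780) :=
  farK (by decide) eL780 eL781 eL782 d780 sL780

theorem fL781 : FarP 781 (nuT 781) :=
  farK (by decide) eL781 eL782 eL783 d781 sL781

theorem fL782 : FarP 782 (nuT 782) :=
  farK (by decide) eL782 eL783 eL784 d782 sL782

theorem fL783 : FarP 783 (nuT 783) :=
  farK (by decide) eL783 eL784 eL785 d783 sL783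

theorem fL784 : FarP 784 (nuT 784) :=
  farK (by decide) eL784 eL785 eL786 d784 sL784

theorem fL785 : FarP 785 (nuT 785) :=
  farK (by decide) eL785 eL786 eL787 d785 sL785

theorem fL786 : FarP 786 (nuT 786) :=
  farK (by decide) eL786 eL787 eL788 d786 sL786

theorem fL787 : FarP 787 (nuT 787) :=
  farK (by decide) eL787 eL788 eL789 d787 sL787

theorem fL788 : FarP 788 (nuT 788) :=
  farK (by decide) eL788 eL789 eL790 d788 sL788

theorem fL789 : FarP 789 (nuT 789) :=
  farK (by decide) eL789 eL790 eL791 d789 sL789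

theorem fL790 : FarP 790 (nuT 790) :=
  farK (by decide) eL790 eL791 eL792 d790 sL790

theorem fL791 : FarP 791 (nuT 791) :=
  farK (by decide) eL791 eL792 eL793 d791 sL791

theorem fL792 : FarP 792 (nuT 792) :=
  farK (by decide) eL792 eL793 eL794 d792 sL792

theorem fL793 : FarP 793 (nuT 793) :=
  farK (by decide) eL793 eL794 eL795 d793 sL793

theorem fL794 : FarP 794 (nuT 794) :=
  farK (by decide) eL794 eL795 eL796 d794 sL794

theorem fL795 : FarP 795 (nuT 795) :=
  farK (by decide) eL795 eL796 eL797 d795 sL795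

theorem fL796 : FarP 796 (nuT 796) :=
  farK (by decide) eL796 eL797 eL798 d796 sL796

theorem fL797 : FarP 797 (nuT 797) :=
  farK (by decide) eL797 eL798 eL799 d797 sL797

theorem fL798 : FarP 798 (nuT 798) :=
  farK (by decide) eL798 eL799 eL800 d798 sL798

theorem fL799 : FarP 799 (nuT 799) :=
  farK (by decide) eL799 eL800 eL801 d799 sL799

theorem fG700 : ∀ L, 700 ≤ L → L < 800 → FarP L (nuT L) := by
  intro L h1 h2
  interval_cases L
  · exact fL700
  · exact fL701
  · exact fL702
  · exact fL703
  · exact fL704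
  · exact fL705
  · exact fL706
  · exact fL707
  · exact fL708
  · exact fL709
  · exact fL710
  · exact fL711
  · exact fL712
  · exact fL713
  · exact fL714
  · exact fL715
  · exact fL716
  · exact fL717
  · exact fL718
  · exact fL719
  · exact fL720
  · exact fL721
  · exact fL722
  · exact fL723
  · exact fL724
  · exact fL725
  · exact fL726
  · exact fL727
  · exact fL728
  · exact fL729
  · exact fL730
  · exact fL731
  · exact fL732
  · exact fL733
  · exact fL734
  · exact fL735
  · exact fL736
  · exact fL737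
  · exact fL738
  · exact fL739
  · exact fL740
  · exact fL741
  · exact fL742
  · exact fL743
  · exact fL744
  · exact fL745
  · exact fL746
  · exact fL747
  · exact fL748
  · exact fL749
  · exact fL750
  · exact fL751
  · exact fL752
  · exact fL753
  · exact fL754
  · exact fL755
  · exact fL756
  · exact fL757
  · exact fL758
  · exact fL759
  · exact fL760
  · exact fL761
  · exact fL762
  · exact fL763
  · exact fL764
  · exact fL765
  · exact fL766
  · exact fL767
  · exact fL768
  · exact fL769
  · exact fL770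
  · exact fL771
  · exact fL772
  · exact fL773
  · exact fL774
  · exact fL775
  · exact fL776
  · exact fL777
  · exact fL778
  · exact fL779
  · exact fL780
  · exact fL781
  · exact fL782
  · exact fL783
  · exact fL784
  · exact fL785
  · exact fL786
  · exact fL787
  · exact fL788
  · exact fL789
  · exact fL790
  · exact fL791
  · exact fL792
  · exact fL793
  · exact fL794
  · exact fL795
  · exact fL796
  · exact fL797
  · exact fL798
  · exact fL799

end Pool.Agent.MP_9da1e3_co
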