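import Pool.Agent.Lib.MP_9da1e3_co.Kd1
import Pool.Agent.Lib.MP_9da1e3_co.KcG800
import Pool.Agent.Lib.MP_9da1e3_co.KdD800
import Pool.Agent.Lib.MP_9da1e3_co.KdD810
import Pool.Agent.Lib.MP_9da1e3_co.KdD820
import Pool.Agent.Lib.MP_9da1e3_co.KdD830
import Pool.Agent.Lib.MP_9da1e3_co.KdD840
import Pool.Agent.Lib.MP_9da1e3_co.KdD850
import Pool.Agent.Lib.MP_9da1e3_co.KdD860
import Pool.Agent.Lib.MP_9da1e3_co.KdD870
import Pool.Agent.Lib.MP_9da1e3_co.KdD880
import Pool.Agent.Lib.MP_9da1e3_co.KdD890

set_option maxRecDepth 100000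

namespace Pool.Agent.MP_9da1e3_co

theorem fL800 : FarP 800 (nuT 800) :=
  farK (by decide) eL800 eL801 eL802 d800 sL800

theorem fL801 : FarP 801 (nuT 801) :=
  farK (by decide) eL801 eL802 eL803 d801 sL801

theorem fL802 : FarP 802 (nuT 802) :=
  farK (by decide) eL802 eL803 eL804 d802 sL802

theorem fL803 : FarP 803 (nuT 803) :=
  farK (by decide) eL803 eL804 eL805 d803 sL803

theorem fL804 : FarP 804 (nuT 804) :=
  farK (by decide) eL804 eL805 eL806 d804 sL804

theorem fL805 : FarP 805 (nuT 805) :=
  farK (by decide) eL805 eL806 eL807 d805 sL805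

theorem fL806 : FarP 806 (nuT 806) :=
  farK (by decide) eL806 eL807 eL808 d806 sL806

theorem fL807 : FarP 807 (nuT 807) :=
  farK (by decide) eL807 eL808 eL809 d807 sL807

theorem fL808 : FarP 808 (nuT 808) :=
  farK (by decide) eL808 eL809 eL810 d808 sL808

theorem fL809 : FarP 809 (nuT 809) :=
  farK (by decide) eL809 eL810 eL811 d809 sL809

theorem fL810 : FarP 810 (nuT 810) :=
  farK (by decide) eL810 eL811 eL812 d810 sL810

theorem fL811 : FarP 811 (nuT 811) :=
  farK (by decide) eL811 eL812 eL813 d811 sL811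

theorem fL812 : FarP 812 (nuT 812) :=
  farK (by decide) eL812 eL813 eL814 d812 sL812

theorem fL813 : FarP 813 (nuT 813) :=
  farK (by decide) eL813 eL814 eL815 d813 sL813

theorem fL814 : FarP 814 (nuT 814) :=
  farK (by decide) eL814 eL815 eL816 d814 sL814

theorem fL815 : FarP 815 (nuT 815) :=
  farK (by decide) eL815 eL816 eL817 d815 sL815

theorem fL816 : FarP 816 (nuT 816) :=
  farK (by decide) eL816 eL817 eL818 d816 sL816

theorem fL817 : FarP 817 (nuT 817) :=
  farK (by decide) eL817 eL818 eL819 d817 sL817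

theorem fL818 : FarP 818 (nuT 818) :=
  farK (by decide) eL818 eL819 eL820 d818 sL818

theorem fL819 : FarP 819 (nuT 819) :=
  farK (by decide) eL819 eL820 eL821 d819 sL819

theorem fL820 : FarP 820 (nuT 820) :=
  farK (by decide) eL820 eL821 eL822 d820 sL820

theorem fL821 : FarP 821 (nuT 821) :=
  farK (by decide) eL821 eL822 eL823 d821 sL821

theorem fL822 : FarP 822 (nuT 822) :=
  farK (by decide) eL822 eL823 eL824 d822 sL822

theorem fL823 : FarP 823 (nuT 823) :=
  farK (by decide) eL823 eL824 eL825 d823 sL823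

theorem fL824 : FarP 824 (nuT 824) :=
  farK (by decide) eL824 eL825 eL826 d824 sL824

theorem fL825 : FarP 825 (nuT 825) :=
  farK (by decide) eL825 eL826 eL827 d825 sL825

theorem fL826 : FarP 826 (nuT 826) :=
  farK (by decide) eL826 eL827 eL828 d826 sL826

theorem fL827 : FarP 827 (nuT 827) :=
  farK (by decide) eL827 eL828 eL829 d827 sL827

theorem fL828 : FarP 828 (nuT 828) :=
  farK (by decide) eL828 eL829 eL830 d828 sL828

theorem fL829 : FarP 829 (nuT 829) :=
  farK (by decide) eL829 eL830 eL831 d829 sL829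

theorem fL830 : FarP 830 (nuT 830) :=
  farK (by decide) eL830 eL831 eL832 d830 sL830

theorem fL831 : FarP 831 (nuT 831) :=
  farK (by decide) eL831 eL832 eL833 d831 sL831

theorem fL832 : FarP 832 (nuT 832) :=
  farK (by decide) eL832 eL833 eL834 d832 sL832

theorem fL833 : FarP 833 (nuT 833) :=
  farK (by decide) eL833 eL834 eL835 d833 sL833

theorem fL834 : FarP 834 (nuT 834) :=
  farK (by decide) eL834 eL835 eL836 d834 sL834

theorem fL835 : FarP 835 (nuT 835) :=
  farK (by decide) eL835 eL836 eL837 d835 sL835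

theorem fL836 : FarP 836 (nuT 836) :=
  farK (by decide) eL836 eL837 eL838 d836 sL836

theorem fL837 : FarP 837 (nuT 837) :=
  farK (by decide) eL837 eL838 eL839 d837 sL837

theorem fL838 : FarP 838 (nuT 838) :=
  farK (by decide) eL838 eL839 eL840 d838 sL838

theorem fL839 : FarP 839 (nuT 839) :=
  farK (by decide) eL839 eL840 eL841 d839 sL839

theorem fL840 : FarP 840 (nuT 840) :=
  farK (by decide) eL840 eL841 eL842 d840 sL840

theorem fL841 : FarP 841 (nuT 841) :=
  farK (by decide) eL841 eL842 eL843 d841 sL841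

theorem fL842 : FarP 842 (nuT 842) :=
  farK (by decide) eL842 eL843 eL844 d842 sL842

theorem fL843 : FarP 843 (nuT 843) :=
  farK (by decide) eL843 eL844 eL845 d843 sL843

theorem fL844 : FarP 844 (nuT 844) :=
  farK (by decide) eL844 eL845 eL846 d844 sL844

theorem fL845 : FarP 845 (nuT 845) :=
  farK (by decide) eL845 eL846 eL847 d845 sL845

theorem fL846 : FarP 846 (nuT 846) :=
  farK (by decide) eL846 eL847 eL848 d846 sL846

theorem fL847 : FarP 847 (nuT 847) :=
  farK (by decide) eL847 eL848 eL849 d847 sL847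

theorem fL848 : FarP 848 (nuT 848) :=
  farK (by decide) eL848 eL849 eL850 d848 sL848

theorem fL849 : FarP 849 (nuT 849) :=
  farK (by decide) eL849 eL850 eL851 d849 sL849

theorem fL850 : FarP 850 (nuT 850) :=
  farK (by decide) eL850 eL851 eL852 d850 sL850

theorem fL851 : FarP 851 (nuT 851) :=
  farK (by decide) eL851 eL852 eL853 d851 sL851

theorem fL852 : FarP 852 (nuT 852) :=
  farK (by decide) eL852 eL853 eL854 d852 sL852

theorem fL853 : FarP 853 (nuT 853) :=
  farK (by decide) eL853 eL854 eL855 d853 sL853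

theorem fL854 : FarP 854 (nuT 854) :=
  farK (by decide) eL854 eL855 eL856 d854 sL854

theorem fL855 : FarP 855 (nuT 855) :=
  farK (by decide) eL855 eL856 eL857 d855 sL855

theorem fL856 : FarP 856 (nuT 856) :=
  farK (by decide) eL856 eL857 eL858 d856 sL856

theorem fL857 : FarP 857 (nuT 857) :=
  farK (by decide) eL857 eL858 eL859 d857 sL857

theorem fL858 : FarP 858 (nuT 858) :=
  farK (by decide) eL858 eL859 eL860 d858 sL858

theorem fL859 : FarP 859 (nuT 859) :=
  farK (by decide) eL859 eL860 eL861 d859 sL859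

theorem fL860 : FarP 860 (nuT 860) :=
  farK (by decide) eL860 eL861 eL862 d860 sL860

theorem fL861 : FarP 861 (nuT 861) :=
  farK (by decide) eL861 eL862 eL863 d861 sL861

theorem fL862 : FarP 862 (nuT 862) :=
  farK (by decide) eL862 eL863 eL864 d862 sL862

theorem fL863 : FarP 863 (nuT 863) :=
  farK (by decide) eL863 eL864 eL865 d863 sL863

theorem fL864 : FarP 864 (nuT 864) :=
  farK (by decide) eL864 eL865 eL866 d864 sL864

theorem fL865 : FarP 865 (nuT 865) :=
  farK (by decide) eL865 eL866 eL867 d865 sL865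

theorem fL866 : FarP 866 (nuT 866) :=
  farK (by decide) eL866 eL867 eL868 d866 sL866

theorem fL867 : FarP 867 (nuT 867) :=
  farK (by decide) eL867 eL868 eL869 d867 sL867

theorem fL868 : FarP 868 (nuT 868) :=
  farK (by decide) eL868 eL869 eL870 d868 sL868

theorem fL869 : FarP 869 (nuT 869) :=
  farK (by decide) eL869 eL870 eL871 d869 sL869

theorem fL870 : FarP 870 (nuT 870) :=
  farK (by decide) eL870 eL871 eL872 d870 sL870

theorem fL871 : FarP 871 (nuT 871) :=
  farK (by decide) eL871 eL872 eL873 d871 sL871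

theorem fL872 : FarP 872 (nuT 872) :=
  farK (by decide) eL872 eL873 eL874 d872 sL872

theorem fL873 : FarP 873 (nuT 873) :=
  farK (by decide) eL873 eL874 eL875 d873 sL873

theorem fL874 : FarP 874 (nuT 874) :=
  farK (by decide) eL874 eL875 eL876 d874 sL874

theorem fL875 : FarP 875 (nuT 875) :=
  farK (by decide) eL875 eL876 eL877 d875 sL875

theorem fL876 : FarP 876 (nuT 876) :=
  farK (by decide) eL876 eL877 eL878 d876 sL876

theorem fL877 : FarP 877 (nuT 877) :=
  farK (by decide) eL877 eL878 eL879 d877 sL877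

theorem fL878 : FarP 878 (nuT 878) :=
  farK (by decide) eL878 eL879 eL880 d878 sL878

theorem fL879 : FarP 879 (nuT 879) :=
  farK (by decide) eL879 eL880 eL881 d879 sL879

theorem fL880 : FarP 880 (nuT 880) :=
  farK (by decide) eL880 eL881 eL882 d880 sL880

theorem fL881 : FarP 881 (nuT 881) :=
  farK (by decide) eL881 eL882 eL883 d881 sL881

theorem fL882 : FarP 882 (nuT 882) :=
  farK (by decide) eL882 eL883 eL884 d882 sL882

theorem fL883 : FarP 883 (nuT 883) :=
  farK (by decide) eL883 eL884 eL885 d883 sL883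

theorem fL884 : FarP 884 (nuT 884) :=
  farK (by decide) eL884 eL885 eL886 d884 sL884

theorem fL885 : FarP 885 (nuT 885) :=
  farK (by decide) eL885 eL886 eL887 d885 sL885

theorem fL886 : FarP 886 (nuT 886) :=
  farK (by decide) eL886 eL887 eL888 d886 sL886

theorem fL887 : FarP 887 (nuT 887) :=
  farK (by decide) eL887 eL888 eL889 d887 sL887

theorem fL888 : FarP 888 (nuT 888) :=
  farK (by decide) eL888 eL889 eL890 d888 sL888

theorem fL889 : FarP 889 (nuT 889) :=
  farK (by decide) eL889 eL890 eL891 d889 sL889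

theorem fL890 : FarP 890 (nuT 890) :=
  farK (by decide) eL890 eL891 eL892 d890 sL890

theorem fL891 : FarP 891 (nuT 891) :=
  farK (by decide) eL891 eL892 eL893 d891 sL891

theorem fL892 : FarP 892 (nuT 892) :=
  farK (by decide) eL892 eL893 eL894 d892 sL892

theorem fL893 : FarP 893 (nuT 893) :=
  farK (by decide) eL893 eL894 eL895 d893 sL893

theorem fL894 : FarP 894 (nuT 894) :=
  farK (by decide) eL894 eL895 eL896 d894 sL894

theorem fL895 : FarP 895 (nuT 895) :=
  farK (by decide) eL895 eL896 eL897 d895 sL895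

theorem fL896 : FarP 896 (nuT 896) :=
  farK (by decide) eL896 eL897 eL898 d896 sL896

theorem fL897 : FarP 897 (nuT 897) :=
  farK (by decide) eL897 eL898 eL899 d897 sL897

theorem fL898 : FarP 898 (nuT 898) :=
  farK (by decide) eL898 eL899 eL900 d898 sL898

theorem fL899 : FarP 899 (nuT 899) :=
  farK (by decide) eL899 eL900 eL901 d899 sL899

theorem fG800 : ∀ L, 800 ≤ L → L < 900 → FarP L (nuT L) := by
  intro L h1 h2
  interval_cases L
  · exact fL800
  · exact fL801
  · exact fL802
  · exact fL803
  · exact fL804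
  · exact fL805
  · exact fL806
  · exact fL807
  · exact fL808
  · exact fL809
  · exact fL810
  · exact fL811
  · exact fL812
  · exact fL813
  · exact fL814
  · exact fL815
  · exact fL816
  · exact fL817
  · exact fL818
  · exact fL819
  · exact fL820
  · exact fL821
  · exact fL822
  · exact fL823
  · exact fL824
  · exact fL825
  · exact fL826
  · exact fL827
  · exact fL828
  · exact fL829
  · exact fL830
  · exact fL831
  · exact fL832
  · exact fL833
  · exact fL834
  · exact fL835
  · exact fL836
  · exact fL837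
  · exact fL838
  · exact fL839
  · exact fL840
  · exact fL841
  · exact fL842
  · exact fL843
  · exact fL844
  · exact fL845
  · exact fL846
  · exact fL847
  · exact fL848
  · exact fL849
  · exact fL850
  · exact fL851
  · exact fL852
  · exact fL853
  · exact fL854
  · exact fL855
  · exact fL856
  · exact fL857
  · exact fL858
  · exact fL859
  · exact fL860
  · exact fL861
  · exact fL862
  · exact fL863
  · exact fL864
  · exact fL865
  · exact fL866
  · exact fL867
  · exact fL868
  · exact fL869
  · exact fL870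
  · exact fL871
  · exact fL872
  · exact fL873
  · exact fL874
  · exact fL875
  · exact fL876
  · exact fL877
  · exact fL878
  · exact fL879
  · exact fL880
  · exact fL881
  · exact fL882
  · exact fL883
  · exact fL884
  · exact fL885
  · exact fL886
  · exact fL887
  · exact fL888
  · exact fL889
  · exact fL890
  · exact fL891
  · exact fL892
  · exact fL893
  · exact fL894
  · exact fL895
  · exact fL896
  · exact fL897
  · exact fL898
  · exact fL899

end Pool.Agent.MP_9da1e3_co
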