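import Pool.Agent.Lib.MP_9da1e3_co.Kd1
import Pool.Agent.Lib.MP_9da1e3_co.KcG900
import Pool.Agent.Lib.MP_9da1e3_co.KdD900
import Pool.Agent.Lib.MP_9da1e3_co.KdD910
import Pool.Agent.Lib.MP_9da1e3_co.KdD920
import Pool.Agent.Lib.MP_9da1e3_co.KdD930
import Pool.Agent.Lib.MP_9da1e3_co.KdD940
import Pool.Agent.Lib.MP_9da1e3_co.KdD950
import Pool.Agent.Lib.MP_9da1e3_co.KdD960
import Pool.Agent.Lib.MP_9da1e3_co.KdD970
import Pool.Agent.Lib.MP_9da1e3_co.KdD980
import Pool.Agent.Lib.MP_9da1e3_co.KdD990

set_option maxRecDepth 100000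

namespace Pool.Agent.MP_9da1e3_co

theorem fL900 : FarP 900 (nuT 900) :=
  farK (by decide) eL900 eL901 eL902 d900 sL900

theorem fL901 : FarP 901 (nuT 901) :=
  farK (by decide) eL901 eL902 eL903 d901 sL901

theorem fL902 : FarP 902 (nuT 902) :=
  farK (by decide) eL902 eL903 eL904 d902 sL902

theorem fL903 : FarP 903 (nuT 903) :=
  farK (by decide) eL903 eL904 eL905 d903 sL903

theorem fL904 : FarP 904 (nuT 904) :=
  farK (by decide) eL904 eL905 eL906 d904 sL904

theorem fL905 : FarP 905 (nuT 905) :=
  farK (by decide) eL905 eL906 eL907 d905 sL905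

theorem fL906 : FarP 906 (nuT 906) :=
  farK (by decide) eL906 eL907 eL908 d906 sL906

theorem fL907 : FarP 907 (nuT 907) :=
  farK (by decide) eL907 eL908 eL909 d907 sL907

theorem fL908 : FarP 908 (nuT 908) :=
  farK (by decide) eL908 eL909 eL910 d908 sL908

theorem fL909 : FarP 909 (nuT 909) :=
  farK (by decide) eL909 eL910 eL911 d909 sL909

theorem fL910 : FarP 910 (nuT 910) :=
  farK (by decide) eL910 eL911 eL912 d910 sL910

theorem fL911 : FarP 911 (nuT 911) :=
  farK (by decide) eL911 eL912 eL913 d911 sL911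

theorem fL912 : FarP 912 (nuT 912) :=
  farK (by decide) eL912 eL913 eL914 d912 sL912

theorem fL913 : FarP 913 (nuT 913) :=
  farK (by decide) eL913 eL914 eL915 d913 sL913

theorem fL914 : FarP 914 (nuT 914) :=
  farK (by decide) eL914 eL915 eL916 d914 sL914

theorem fL915 : FarP 915 (nuT 915) :=
  farK (by decide) eL915 eL916 eL917 d915 sL915

theorem fL916 : FarP 916 (nuT 916) :=
  farK (by decide) eL916 eL917 eL918 d916 sL916

theorem fL917 : FarP 917 (nuT 917) :=
  farK (by decide) eL917 eL918 eL919 d917 sL917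

theorem fL918 : FarP 918 (nuT 918) :=
  farK (by decide) eL918 eL919 eL920 d918 sL918

theorem fL919 : FarP 919 (nuT 919) :=
  farK (by decide) eL919 eL920 eL921 d919 sL919

theorem fL920 : FarP 920 (nuT 920) :=
  farK (by decide) eL920 eL921 eL922 d920 sL920

theorem fL921 : FarP 921 (nuT 921) :=
  farK (by decide) eL921 eL922 eL923 d921 sL921

theorem fL922 : FarP 922 (nuT 922) :=
  farK (by decide) eL922 eL923 eL924 d922 sL922

theorem fL923 : FarP 923 (nuT 923) :=
  farK (by decide) eL923 eL924 eL925 d923 sL923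

theorem fL924 : FarP 924 (nuT 924) :=
  farK (by decide) eL924 eL925 eL926 d924 sL924

theorem fL925 : FarP 925 (nuT 925) :=
  farK (by decide) eL925 eL926 eL927 d925 sL925

theorem fL926 : FarP 926 (nuT 926) :=
  farK (by decide) eL926 eL927 eL928 d926 sL926

theorem fL927 : FarP 927 (nuT 927) :=
  farK (by decide) eL927 eL928 eL929 d927 sL927

theorem fL928 : FarP 928 (nuT 928) :=
  farK (by decide) eL928 eL929 eL930 d928 sL928

theorem fL929 : FarP 929 (nuT 929) :=
  farK (by decide) eL929 eL930 eL931 d929 sL929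

theorem fL930 : FarP 930 (nuT 930) :=
  farK (by decide) eL930 eL931 eL932 d930 sL930

theorem fL931 : FarP 931 (nuT 931) :=
  farK (by decide) eL931 eL932 eL933 d931 sL931

theorem fL932 : FarP 932 (nuT 932) :=
  farK (by decide) eL932 eL933 eL934 d932 sL932

theorem fL933 : FarP 933 (nuT 933) :=
  farK (by decide) eL933 eL934 eL935 d933 sL933

theorem fL934 : FarP 934 (nuT 934) :=
  farK (by decide) eL934 eL935 eL936 d934 sL934

theorem fL935 : FarP 935 (nuT 935) :=
  farK (by decide) eL935 eL936 eL937 d935 sL935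

theorem fL936 : FarP 936 (nuT 936) :=
  farK (by decide) eL936 eL937 eL938 d936 sL936

theorem fL937 : FarP 937 (nuT 937) :=
  farK (by decide) eL937 eL938 eL939 d937 sL937

theorem fL938 : FarP 938 (nuT 938) :=
  farK (by decide) eL938 eL939 eL940 d938 sL938

theorem fL939 : FarP 939 (nuT 939) :=
  farK (by decide) eL939 eL940 eL941 d939 sL939

theorem fL940 : FarP 940 (nuT 940) :=
  farK (by decide) eL940 eL941 eL942 d940 sL940

theorem fL941 : FarP 941 (nuT 941) :=
  farK (by decide) eL941 eL942 eL943 d941 sL941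

theorem fL942 : FarP 942 (nuT 942) :=
  farK (by decide) eL942 eL943 eL944 d942 sL942

theorem fL943 : FarP 943 (nuT 943) :=
  farK (by decide) eL943 eL944 eL945 d943 sL943

theorem fL944 : FarP 944 (nuT 944) :=
  farK (by decide) eL944 eL945 eL946 d944 sL944

theorem fL945 : FarP 945 (nuT 945) :=
  farK (by decide) eL945 eL946 eL947 d945 sL945

theorem fL946 : FarP 946 (nuT 946) :=
  farK (by decide) eL946 eL947 eL948 d946 sL946

theorem fL947 : FarP 947 (nuT 947) :=
  farK (by decide) eL947 eL948 eL949 d947 sL947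

theorem fL948 : FarP 948 (nuT 948) :=
  farK (by decide) eL948 eL949 eL950 d948 sL948

theorem fL949 : FarP 949 (nuT 949) :=
  farK (by decide) eL949 eL950 eL951 d949 sL949

theorem fL950 : FarP 950 (nuT 950) :=
  farK (by decide) eL950 eL951 eL952 d950 sL950

theorem fL951 : FarP 951 (nuT 951) :=
  farK (by decide) eL951 eL952 eL953 d951 sL951

theorem fL952 : FarP 952 (nuT 952) :=
  farK (by decide) eL952 eL953 eL954 d952 sL952

theorem fL953 : FarP 953 (nuT 953) :=
  farK (by decide) eL953 eL954 eL955 d953 sL953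

theorem fL954 : FarP 954 (nuT 954) :=
  farK (by decide) eL954 eL955 eL956 d954 sL954

theorem fL955 : FarP 955 (nuT 955) :=
  farK (by decide) eL955 eL956 eL957 d955 sL955

theorem fL956 : FarP 956 (nuT 956) :=
  farK (by decide) eL956 eL957 eL958 d956 sL956

theorem fL957 : FarP 957 (nuT 957) :=
  farK (by decide) eL957 eL958 eL959 d957 sL957

theorem fL958 : FarP 958 (nuT 958) :=
  farK (by decide) eL958 eL959 eL960 d958 sL958

theorem fL959 : FarP 959 (nuT 959) :=
  farK (by decide) eL959 eL960 eL961 d959 sL959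

theorem fL960 : FarP 960 (nuT 960) :=
  farK (by decide) eL960 eL961 eL962 d960 sL960

theorem fL961 : FarP 961 (nuT 961) :=
  farK (by decide) eL961 eL962 eL963 d961 sL961

theorem fL962 : FarP 962 (nuT 962) :=
  farK (by decide) eL962 eL963 eL964 d962 sL962

theorem fL963 : FarP 963 (nuT 963) :=
  farK (by decide) eL963 eL964 eL965 d963 sL963

theorem fL964 : FarP 964 (nuT 964) :=
  farK (by decide) eL964 eL965 eL966 d964 sL964

theorem fL965 : FarP 965 (nuT 965) :=
  farK (by decide) eL965 eL966 eL967 d965 sL965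

theorem fL966 : FarP 966 (nuT 966) :=
  farK (by decide) eL966 eL967 eL968 d966 sL966

theorem fL967 : FarP 967 (nuT 967) :=
  farK (by decide) eL967 eL968 eL969 d967 sL967

theorem fL968 : FarP 968 (nuT 968) :=
  farK (by decide) eL968 eL969 eL970 d968 sL968

theorem fL969 : FarP 969 (nuT 969) :=
  farK (by decide) eL969 eL970 eL971 d969 sL969

theorem fL970 : FarP 970 (nuT 970) :=
  farK (by decide) eL970 eL971 eL972 d970 sL970

theorem fL971 : FarP 971 (nuT 971) :=
  farK (by decide) eL971 eL972 eL973 d971 sL971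

theorem fL972 : FarP 972 (nuT 972) :=
  farK (by decide) eL972 eL973 eL974 d972 sL972

theorem fL973 : FarP 973 (nuT 973) :=
  farK (by decide) eL973 eL974 eL975 d973 sL973

theorem fL974 : FarP 974 (nuT 974) :=
  farK (by decide) eL974 eL975 eL976 d974 sL974

theorem fL975 : FarP 975 (nuT 975) :=
  farK (by decide) eL975 eL976 eL977 d975 sL975

theorem fL976 : FarP 976 (nuT 976) :=
  farK (by decide) eL976 eL977 eL978 d976 sL976

theorem fL977 : FarP 977 (nuT 977) :=
  farK (by decide) eL977 eL978 eL979 d977 sL977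

theorem fL978 : FarP 978 (nuT 978) :=
  farK (by decide) eL978 eL979 eL980 d978 sL978

theorem fL979 : FarP 979 (nuT 979) :=
  farK (by decide) eL979 eL980 eL981 d979 sL979

theorem fL980 : FarP 980 (nuT 980) :=
  farK (by decide) eL980 eL981 eL982 d980 sL980

theorem fL981 : FarP 981 (nuT 981) :=
  farK (by decide) eL981 eL982 eL983 d981 sL981

theorem fL982 : FarP 982 (nuT 982) :=
  farK (by decide) eL982 eL983 eL984 d982 sL982

theorem fL983 : FarP 983 (nuT 983) :=
  farK (by decide) eL983 eL984 eL985 d983 sL983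

theorem fL984 : FarP 984 (nuT 984) :=
  farK (by decide) eL984 eL985 eL986 d984 sL984

theorem fL985 : FarP 985 (nuT 985) :=
  farK (by decide) eL985 eL986 eL987 d985 sL985

theorem fL986 : FarP 986 (nuT 986) :=
  farK (by decide) eL986 eL987 eL988 d986 sL986

theorem fL987 : FarP 987 (nuT 987) :=
  farK (by decide) eL987 eL988 eL989 d987 sL987

theorem fL988 : FarP 988 (nuT 988) :=
  farK (by decide) eL988 eL989 eL990 d988 sL988

theorem fL989 : FarP 989 (nuT 989) :=
  farK (by decide) eL989 eL990 eL991 d989 sL989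

theorem fL990 : FarP 990 (nuT 990) :=
  farK (by decide) eL990 eL991 eL992 d990 sL990

theorem fL991 : FarP 991 (nuT 991) :=
  farK (by decide) eL991 eL992 eL993 d991 sL991

theorem fL992 : FarP 992 (nuT 992) :=
  farK (by decide) eL992 eL993 eL994 d992 sL992

theorem fL993 : FarP 993 (nuT 993) :=
  farK (by decide) eL993 eL994 eL995 d993 sL993

theorem fL994 : FarP 994 (nuT 994) :=
  farK (by decide) eL994 eL995 eL996 d994 sL994

theorem fL995 : FarP 995 (nuT 995) :=
  farK (by decide) eL995 eL996 eL997 d995 sL995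

theorem fL996 : FarP 996 (nuT 996) :=
  farK (by decide) eL996 eL997 eL998 d996 sL996

theorem fL997 : FarP 997 (nuT 997) :=
  farK (by decide) eL997 eL998 eL999 d997 sL997

theorem fL998 : FarP 998 (nuT 998) :=
  farK (by decide) eL998 eL999 eL1000 d998 sL998

theorem fL999 : FarP 999 (nuT 999) :=
  farK (by decide) eL999 eL1000 eL1001 d999 sL999

theorem fG900 : ∀ L, 900 ≤ L → L < 1000 → FarP L (nuT L) := by
  intro L h1 h2
  interval_cases L
  · exact fL900
  · exact fL901
  · exact fL902
  · exact fL903
  · exact fL904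
  · exact fL905
  · exact fL906
  · exact fL907
  · exact fL908
  · exact fL909
  · exact fL910
  · exact fL911
  · exact fL912
  · exact fL913
  · exact fL914
  · exact fL915
  · exact fL916
  · exact fL917
  · exact fL918
  · exact fL919
  · exact fL920
  · exact fL921
  · exact fL922
  · exact fL923
  · exact fL924
  · exact fL925
  · exact fL926
  · exact fL927
  · exact fL928
  · exact fL929
  · exact fL930
  · exact fL931
  · exact fL932
  · exact fL933
  · exact fL934
  · exact fL935
  · exact fL936
  · exact fL937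
  · exact fL938
  · exact fL939
  · exact fL940
  · exact fL941
  · exact fL942
  · exact fL943
  · exact fL944
  · exact fL945
  · exact fL946
  · exact fL947
  · exact fL948
  · exact fL949
  · exact fL950
  · exact fL951
  · exact fL952
  · exact fL953
  · exact fL954
  · exact fL955
  · exact fL956
  · exact fL957
  · exact fL958
  · exact fL959
  · exact fL960
  · exact fL961
  · exact fL962
  · exact fL963
  · exact fL964
  · exact fL965
  · exact fL966
  · exact fL967
  · exact fL968
  · exact fL969
  · exact fL970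
  · exact fL971
  · exact fL972
  · exact fL973
  · exact fL974
  · exact fL975
  · exact fL976
  · exact fL977
  · exact fL978
  · exact fL979
  · exact fL980
  · exact fL981
  · exact fL982
  · exact fL983
  · exact fL984
  · exact fL985
  · exact fL986
  · exact fL987
  · exact fL988
  · exact fL989
  · exact fL990
  · exact fL991
  · exact fL992
  · exact fL993
  · exact fL994
  · exact fL995
  · exact fL996
  · exact fL997
  · exact fL998
  · exact fL999

end Pool.Agent.MP_9da1e3_co
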