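import Pool.Agent.Lib.MP_9da1e3_co.Outcome

/-! From the sign pattern of the second differences of `Fr` in `L` to unimodality, for all `n`. -/

namespace Pool.Agent.MP_9da1e3_co

/-- If for every `L` the sign of `Fr (L+2) n - 2 Fr (L+1) n + Fr L n` as a function of `n > L` changes
exactly once, at `nu L`, and `nu` is nondecreasing, then all the sequences are unimodal. -/
theorem unimodal_of_nu (nu : ℕ → ℕ) (hmono : ∀ L, nu L ≤ nu (L + 1)) (hnu : ∀ L, L + 1 < nu L)
    (hneg : ∀ L n, L < n → n < nu L → Fr (L + 2) n + Fr L n < 2 * Fr (L + 1) n)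
    (hpos : ∀ L n, nu L ≤ n → 2 * Fr (L + 1) n ≤ Fr (L + 2) n + Fr L n)
    (n : ℕ) (hn : 1 ≤ n) :
    ∃ m : ℕ, m < n ∧ (∀ l, l < m → a n l ≤ a n (l + 1)) ∧
      (∀ l, m ≤ l → l < n → a n (l + 1) < a n l) := by
  classical
  have hm : Monotone nu := monotone_nat_of_le_succ hmono
  have hex : ∃ l, n < nu l := ⟨n - 1, by have := hnu (n - 1); omega⟩
  refine ⟨Nat.find hex, ?_, ?_, ?_⟩
  · have h1 : Nat.find hex ≤ n - 1 := Nat.find_min' hex (by have := hnu (n - 1); omega)
    omega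
  · intro l hl
    have h1 : nu l ≤ n := not_lt.mp (Nat.find_min hex hl)
    have h2 := hpos l n h1
    have h3 := a_add hn l
    have h4 := a_add hn (l + 1)
    have e : l + 1 + 1 = l + 2 := rfl
    rw [e] at h4
    omega
  · intro l hl hln
    have h1 : n < nu l := lt_of_lt_of_le (Nat.find_spec hex) (hm hl)
    have h2 := hneg l n hln h1
    have h3 := a_add hn l
    have h4 := a_add hn (l + 1)
    have e : l + 1 + 1 = l + 2 := rfl
    rw [e] at h4
    omega

/-- The form the problem asks for. -/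
theorem unimodal_form {n : ℕ} (h : ∃ m : ℕ, m < n ∧ (∀ l, l < m → a n l ≤ a n (l + 1)) ∧
      (∀ l, m ≤ l → l < n → a n (l + 1) < a n l)) :
    ∃ c : ℕ, c < n ∧ (∀ l, l < c → a n l ≤ a n (l + 1)) ∧
      (∀ l, c ≤ l → l + 1 < n → a n (l + 1) ≤ a n l) := by
  obtain ⟨m, h1, h2, h3⟩ := h
  exact ⟨m, h1, h2, fun l hl hl2 => (h3 l hl (by omega)).le⟩

end Pool.Agent.MP_9da1e3_co
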