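import Pool.Agent.Lib.MP_9da1e3_co.Kn1

/-! Glue: table for `L < L0` (kernel check up to `n ≤ N L`), far range, and `L ≥ L0`. -/

namespace Pool.Agent.MP_9da1e3_co

/-- Three sources for the sign pattern. `L < L0`: table `nuT` and a check for `L < n ≤ N L`, plus
positivity beyond `N L`. `L ≥ L0`: some `nuA`, nondecreasing, with the pattern for all `n`. -/
theorem unimodal_glue (L0 : ℕ) (nuT nuA N : ℕ → ℕ)
    (hT1 : ∀ L, L < L0 → L + 1 < nuT L) (hT2 : ∀ L, L + 1 < L0 → nuT L ≤ nuT (L + 1))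
    (hTA : ∀ L, L + 1 = L0 → nuT L ≤ nuA L0)
    (hk1 : ∀ L n, L < L0 → L < n → n ≤ N L → n < nuT L → Fr (L + 2) n + Fr L n < 2 * Fr (L + 1) n)
    (hk2 : ∀ L n, L < L0 → L < n → n ≤ N L → nuT L ≤ n →
      2 * Fr (L + 1) n ≤ Fr (L + 2) n + Fr L n)
    (hN : ∀ L, L < L0 → nuT L ≤ N L + 1)
    (hfar : ∀ L n, L < L0 → N L < n → 2 * Fr (L + 1) n ≤ Fr (L + 2) n + Fr L n)
    (hA1 : ∀ L, L0 ≤ L → L + 1 < nuA L) (hA2 : ∀ L, L0 ≤ L → nuA L ≤ nuA (L + 1))
    (hA3 : ∀ L n, L0 ≤ L → L < n → n < nuA L → Fr (L + 2) n + Fr L n < 2 * Fr (L + 1) n)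
    (hA4 : ∀ L n, L0 ≤ L → nuA L ≤ n → 2 * Fr (L + 1) n ≤ Fr (L + 2) n + Fr L n)
    (n : ℕ) (hn : 1 ≤ n) :
    ∃ m : ℕ, m < n ∧ (∀ l, l < m → a n l ≤ a n (l + 1)) ∧
      (∀ l, m ≤ l → l < n → a n (l + 1) < a n l) := by
  refine unimodal_of_nu (fun L => if L < L0 then nuT L else nuA L) ?_ ?_ ?_ ?_ n hn
  · intro L
    by_cases h1 : L + 1 < L0
    · simp only [h1, if_true, show L < L0 by omega]
      exact hT2 L h1
    · by_cases h2 : L < L0
      · simp only [h1, if_false, h2, if_true]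
        have h3 : L + 1 = L0 := by omega
        rw [h3]
        exact hTA L h3
      · simp only [h1, if_false, h2]
        exact hA2 L (by omega)
  · intro L
    by_cases h2 : L < L0
    · simp only [h2, if_true]
      exact hT1 L h2
    · simp only [h2, if_false]
      exact hA1 L (by omega)
  · intro L n h3 h4
    by_cases h2 : L < L0
    · simp only [h2, if_true] at h4
      exact hk1 L n h2 h3 (by have := hN L h2; omega) h4
    · simp only [h2, if_false] at h4
      exact hA3 L n (by omega) h3 h4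
  · intro L n h4
    by_cases h2 : L < L0
    · simp only [h2, if_true] at h4
      have h5 := hT1 L h2
      rcases Nat.lt_or_ge (N L) n with h6 | h6
      · exact hfar L n h2 h6
      · exact hk2 L n h2 (by omega) h6 h4
    · simp only [h2, if_false] at h4
      exact hA4 L n (by omega) h4

/-- Variant by `n` instead of `L`: for one fixed `n` it is enough to know the sign pattern in `l`:
`l < m0`: second difference `≥ 0`; `m0 ≤ l < n`: exactly one sign change. -/
theorem unimodal_of_halves (n m0 : ℕ) (hn : 1 ≤ n)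
    (hleft : ∀ l, l < m0 → 2 * Fr (l + 1) n ≤ Fr (l + 2) n + Fr l n)
    (hright : ∃ m, m < n ∧ (∀ l, m0 ≤ l → l < m → 2 * Fr (l + 1) n ≤ Fr (l + 2) n + Fr l n) ∧
      (∀ l, m ≤ l → l < n → Fr (l + 2) n + Fr l n < 2 * Fr (l + 1) n)) :
    ∃ m : ℕ, m < n ∧ (∀ l, l < m → a n l ≤ a n (l + 1)) ∧
      (∀ l, m ≤ l → l < n → a n (l + 1) < a n l) := by
  obtain ⟨m, h1, h2, h3⟩ := hright
  refine ⟨m, h1, ?_, ?_⟩
  · intro l hl
    have h5 : 2 * Fr (l + 1) n ≤ Fr (l + 2) n + Fr l n := by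
      rcases Nat.lt_or_ge l m0 with h | h
      · exact hleft l h
      · exact h2 l h hl
    have h6 := a_add hn l
    have h7 := a_add hn (l + 1)
    have e : l + 1 + 1 = l + 2 := rfl
    rw [e] at h7
    omega
  · intro l hl hln
    have h5 := h3 l hl hln
    have h6 := a_add hn l
    have h7 := a_add hn (l + 1)
    have e : l + 1 + 1 = l + 2 := rfl
    rw [e] at h7
    omega

/-- Small `n` from the table of the kernel check (`N L = 3 L + 30` there): all `n ≤ M` with
`n ≤ N l` for every `l < L0` that matters; `M ≤ L0` makes every `l < n` a table entry. -/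
theorem unimodal_small (L0 M : ℕ) (nuT N : ℕ → ℕ) (hM : M ≤ L0)
    (hT1 : ∀ L, L < L0 → L + 1 < nuT L) (hT2 : ∀ L, L + 1 < L0 → nuT L ≤ nuT (L + 1))
    (hk1 : ∀ L n, L < L0 → L < n → n ≤ N L → n < nuT L → Fr (L + 2) n + Fr L n < 2 * Fr (L + 1) n)
    (hk2 : ∀ L n, L < L0 → L < n → n ≤ N L → nuT L ≤ n →
      2 * Fr (L + 1) n ≤ Fr (L + 2) n + Fr L n)
    (hN : ∀ L, L < L0 → nuT L ≤ N L + 1)
    (hfar : ∀ L n, L < L0 → N L < n → 2 * Fr (L + 1) n ≤ Fr (L + 2) n + Fr L n)
    (n : ℕ) (hn : 1 ≤ n) (hnM : n ≤ M) :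
    ∃ m : ℕ, m < n ∧ (∀ l, l < m → a n l ≤ a n (l + 1)) ∧
      (∀ l, m ≤ l → l < n → a n (l + 1) < a n l) := by
  classical
  have hmono : ∀ i j, i ≤ j → j < L0 → nuT i ≤ nuT j := by
    intro i j hij
    induction j, hij using Nat.le_induction with
    | base => intro _; exact le_rfl
    | succ j hij ih =>
      intro hj
      exact (ih (by omega)).trans (hT2 j hj)
  have hex : ∃ l, n < nuT l ∧ l < n := ⟨n - 1, by have := hT1 (n - 1) (by omega); omega, by omega⟩
  obtain ⟨hs1, hs2⟩ := Nat.find_spec hex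
  refine unimodal_of_halves n 0 hn (fun l hl => absurd hl (Nat.not_lt_zero l))
    ⟨Nat.find hex, hs2, ?_, ?_⟩
  · intro l _ hl
    have h1 := Nat.find_min hex hl
    have h2 : l < n := hl.trans hs2
    have h3 : nuT l ≤ n := by
      by_contra h
      exact h1 ⟨not_le.mp h, h2⟩
    rcases Nat.lt_or_ge (N l) n with h6 | h6
    · exact hfar l n (by omega) h6
    · exact hk2 l n (by omega) h2 h6 h3
  · intro l hl hln
    have h1 : n < nuT l := lt_of_lt_of_le hs1 (hmono _ _ hl (by omega))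
    exact hk1 l n (by omega) hln (by have := hN l (by omega); omega) h1

end Pool.Agent.MP_9da1e3_co
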