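import Pool.Agent.Lib.MP_9da1e3_co.Kc3
import Pool.Agent.Lib.MP_9da1e3_co.Kd0

/-! Kernel sums over the digits of a packed number. -/

namespace Pool.Agent.MP_9da1e3_co

open Finset

lemma sm_zero (w : ℕ) (g : ℕ → ℕ → ℕ) (n C : ℕ) : sm w g 0 n C = g n (C % 2 ^ w) := by
  show g n (lowb C w) = _
  rw [lowb_eq]

lemma sm_succ (w : ℕ) (g : ℕ → ℕ → ℕ) (d n C : ℕ) : sm w g (d + 1) n C =
    sm w g d n (C % 2 ^ (w * 2 ^ d)) + sm w g d (n + 2 ^ d) (C / 2 ^ (w * 2 ^ d)) := by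
  show sm w g d n (lowb C (w * 2 ^ d)) + sm w g d (n + 2 ^ d) (C >>> (w * 2 ^ d)) = _
  rw [lowb_eq, Nat.shiftRight_eq_div_pow]

lemma sm_eq (w : ℕ) (g : ℕ → ℕ → ℕ) (d : ℕ) : ∀ n C, sm w g d n C =
    ∑ i ∈ range (2 ^ d), g (n + i) (dg w C i) := by
  induction d with
  | zero =>
    intro n C
    rw [sm_zero]
    simp [dg]
  | succ d ih =>
    intro n C
    rw [sm_succ, ih, ih, pow_succ, mul_two, Finset.sum_range_add]
    congr 1
    · apply Finset.sum_congr rfl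
      intro i hi
      have hi' := mem_range.mp hi
      rw [dg_mod]
      have : i + 1 ≤ 2 ^ d := hi'
      calc w * i + w = w * (i + 1) := by ring
        _ ≤ w * 2 ^ d := Nat.mul_le_mul_left _ this
    · apply Finset.sum_congr rfl
      intro i _
      rw [dg_div, Nat.add_assoc]

lemma ind_eq (a b : ℕ) (g : ℕ → ℕ → ℕ) (n x : ℕ) :
    ind a b g n x = if a ≤ n ∧ n < b then g n x else 0 := by
  unfold ind
  by_cases h1 : a ≤ n
  · rw [Nat.ble_eq_true_of_le h1, cond_true]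
    by_cases h2 : b ≤ n
    · rw [Nat.ble_eq_true_of_le h2, cond_true, if_neg (by omega)]
    · have : Nat.ble b n = false := by
        rw [← Bool.not_eq_true, Nat.ble_eq]
        exact h2
      rw [this, cond_false, if_pos ⟨h1, by omega⟩]
  · have : Nat.ble a n = false := by
      rw [← Bool.not_eq_true, Nat.ble_eq]
      exact h1
    rw [this, cond_false, if_neg (by omega)]

lemma smI_eq (w a b : ℕ) (g : ℕ → ℕ → ℕ) (d C : ℕ) (hb : b ≤ 2 ^ d) :
    smI w a b g d C = ∑ n ∈ Ico a b, g n (dg w C n) := by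
  unfold smI
  rw [sm_eq]
  simp only [Nat.zero_add]
  have e : ∀ n ∈ range (2 ^ d), ind a b g n (dg w C n) =
      if a ≤ n ∧ n < b then g n (dg w C n) else 0 := fun n _ => ind_eq a b g n _
  rw [Finset.sum_congr rfl e, ← Finset.sum_filter]
  apply Finset.sum_congr _ (fun _ _ => rfl)
  ext n
  rw [Finset.mem_filter, mem_range, mem_Ico]
  constructor
  · rintro ⟨_, h⟩
    exact h
  · rintro ⟨h1, h2⟩
    exact ⟨by omega, h1, h2⟩

lemma smI_lo {w Sc L N d C a b : ℕ} (hb : b ≤ 2 ^ d) (hbN : b ≤ N + 1)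
    (h : ∀ n, n ≤ N → ((loN n (dg w C n) : ℕ) : ℝ) ≤ Sc * gk L n ∧
      Sc * gk L n ≤ ((hiN n (dg w C n) : ℕ) : ℝ)) :
    ((smI w a b loN d C : ℕ) : ℝ) ≤ Sc * ∑ n ∈ Ico a b, gk L n := by
  rw [smI_eq w a b loN d C hb, Finset.mul_sum, Nat.cast_sum]
  apply Finset.sum_le_sum
  intro n hn
  have := mem_Ico.mp hn
  exact (h n (by omega)).1

lemma smI_hi {w Sc L N d C a b : ℕ} (hb : b ≤ 2 ^ d) (hbN : b ≤ N + 1)
    (h : ∀ n, n ≤ N → ((loN n (dg w C n) : ℕ) : ℝ) ≤ Sc * gk L n ∧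
      Sc * gk L n ≤ ((hiN n (dg w C n) : ℕ) : ℝ)) :
    Sc * ∑ n ∈ Ico a b, gk L n ≤ ((smI w a b hiN d C : ℕ) : ℝ) := by
  rw [smI_eq w a b hiN d C hb, Finset.mul_sum, Nat.cast_sum]
  apply Finset.sum_le_sum
  intro n hn
  have := mem_Ico.mp hn
  exact (h n (by omega)).2

end Pool.Agent.MP_9da1e3_co
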