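import Pool.Agent.Lib.MP_9da1e3_co.Ks1

/-! Kernel check of the data of the far theorem. -/

namespace Pool.Agent.MP_9da1e3_co

open Finset

lemma and_of_cond {a b : Bool} (h : cond a b false = true) : a = true ∧ b = true := by
  cases a <;> simp_all

/-- the real data behind `ckF` -/
structure FarData (g : ℕ → ℕ → ℝ) (L N nu M : ℕ) (kap kaq W G G1 : ℝ) : Prop where
  hM : 2 * M ≤ N + 1
  hnu : nu + 1 ≤ M
  hL : L + 1 ≤ nu
  kap0 : 0 ≤ kap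
  kaq0 : 0 ≤ kaq
  kapL : kap ≤ L
  kaqL : kaq ≤ L
  W0 : 0 ≤ W
  G0 : 0 ≤ G
  G10 : 0 ≤ G1
  hkap : ∀ j, M ≤ j → j ≤ N → kap * g (L + 1) j ≤ L * (g (L + 1) j - g L j)
  hkaq : ∀ j, M ≤ j → j ≤ N → kaq * g (L + 2) j ≤ L * (g (L + 2) j - g (L + 1) j)
  hW : -W ≤ ∑ j ∈ Ico (L + 1) (N + 1), (g (L + 2) j + g L j - 2 * g (L + 1) j)
  hG : G ≤ ∑ j ∈ Ico nu M, (g (L + 1) j - g L j)
  hG1 : G1 ≤ ∑ j ∈ Ico nu M, (g (L + 2) j - g (L + 1) j)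
  h1 : ((L : ℝ) + 1) * W + g (L + 1) L ≤ G + G1 + kap * (2 * G + G1)
  h2 : ((L : ℝ) + 1) * W ≤ G + G1 + kaq * G

lemma sub_cast_le (a b : ℕ) : (a : ℝ) - b ≤ ((Nat.sub a b : ℕ) : ℝ) := by
  show (a : ℝ) - b ≤ ((a - b : ℕ) : ℝ)
  rcases Nat.le_total b a with h | h
  · rw [Nat.cast_sub h]
  · rw [Nat.sub_eq_zero_of_le h, Nat.cast_zero]
    have : (a : ℝ) ≤ b := by exact_mod_cast h
    linarith

lemma sub_cast_max (a b : ℕ) : ((Nat.sub a b : ℕ) : ℝ) ≤ max 0 ((a : ℝ) - b) := by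
  show ((a - b : ℕ) : ℝ) ≤ _
  rcases Nat.le_total b a with h | h
  · rw [Nat.cast_sub h]
    exact le_max_right _ _
  · rw [Nat.sub_eq_zero_of_le h, Nat.cast_zero]
    exact le_max_left _ _

lemma fin1 (S L W t G G1 kp : ℝ) (hS : 0 < S)
    (h : 1024 * ((L + 1) * W + S * t) ≤ 1024 * (G + G1) + kp * (2 * G + G1)) :
    (L + 1) * (W / S) + t ≤ G / S + G1 / S + kp / 1024 * (2 * (G / S) + G1 / S) := by
  have r4 : S * ((L + 1) * (W / S) + t) ≤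
      S * (G / S + G1 / S + kp / 1024 * (2 * (G / S) + G1 / S)) := by
    have e1 : S * ((L + 1) * (W / S) + t) = (L + 1) * W + S * t := by field_simp
    have e2 : S * (G / S + G1 / S + kp / 1024 * (2 * (G / S) + G1 / S)) =
        (1024 * (G + G1) + kp * (2 * G + G1)) / 1024 := by field_simp
    rw [e1, e2, le_div_iff₀ (by norm_num)]
    linarith
  exact le_of_mul_le_mul_left r4 hS

lemma fin2 (S L W G G1 kq : ℝ) (hS : 0 < S)
    (h : 1024 * ((L + 1) * W) ≤ 1024 * (G + G1) + kq * G) :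
    (L + 1) * (W / S) ≤ G / S + G1 / S + kq / 1024 * (G / S) := by
  have r4 : S * ((L + 1) * (W / S)) ≤ S * (G / S + G1 / S + kq / 1024 * (G / S)) := by
    have e1 : S * ((L + 1) * (W / S)) = (L + 1) * W := by field_simp
    have e2 : S * (G / S + G1 / S + kq / 1024 * (G / S)) =
        (1024 * (G + G1) + kq * G) / 1024 := by field_simp
    rw [e1, e2, le_div_iff₀ (by norm_num)]
    linarith
  exact le_of_mul_le_mul_left r4 hS

lemma pt1 (S L kp g2 g1 h2 h1 l2 : ℝ) (hS : 0 < S) (k0 : 0 ≤ kp) (l0 : 0 ≤ L)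
    (q2 : S * g2 ≤ h2) (q1 : S * g1 ≤ h1) (q3 : l2 ≤ S * g2)
    (h : kp * h2 + 1024 * L * h1 ≤ 1024 * L * l2) :
    kp / 1024 * g2 ≤ L * (g2 - g1) := by
  have r1 := mul_le_mul_of_nonneg_left q2 k0
  have r2 := mul_le_mul_of_nonneg_left q1 (show 0 ≤ 1024 * L by linarith)
  have r3 := mul_le_mul_of_nonneg_left q3 (show 0 ≤ 1024 * L by linarith)
  have r4 : S * (kp * g2) ≤ S * (1024 * (L * (g2 - g1))) := by linarith
  have r5 := le_of_mul_le_mul_left r4 hS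
  linarith

theorem ckF_sound {w Sc L N nu M kp kq d C1 C2 C3 N1 N2 N3 : ℕ} (hSc : 0 < Sc)
    (hN1 : N ≤ N1) (hN2 : N ≤ N2) (hN3 : N ≤ N3)
    (H1 : ∀ n, n ≤ N1 → ((loN n (dg w C1 n) : ℕ) : ℝ) ≤ Sc * gk L n ∧
      Sc * gk L n ≤ ((hiN n (dg w C1 n) : ℕ) : ℝ))
    (H2 : ∀ n, n ≤ N2 → ((loN n (dg w C2 n) : ℕ) : ℝ) ≤ Sc * gk (L + 1) n ∧
      Sc * gk (L + 1) n ≤ ((hiN n (dg w C2 n) : ℕ) : ℝ))
    (H3 : ∀ n, n ≤ N3 → ((loN n (dg w C3 n) : ℕ) : ℝ) ≤ Sc * gk (L + 2) n ∧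
      Sc * gk (L + 2) n ≤ ((hiN n (dg w C3 n) : ℕ) : ℝ))
    (hA : ∀ n, gk L n ≤ gk (L + 1) n) (hA1 : ∀ n, gk (L + 1) n ≤ gk (L + 2) n)
    (h : ckF w L N nu M kp kq d C1 C2 C3 = true) :
    ∃ W G G1 : ℝ, FarData gk L N nu M ((kp : ℝ) / 1024) ((kq : ℝ) / 1024) W G G1 := by
  unfold ckF at h
  obtain ⟨h1, h⟩ := and_of_cond h
  obtain ⟨h2, h⟩ := and_of_cond h
  obtain ⟨h3, h⟩ := and_of_cond h
  obtain ⟨h4, h⟩ := and_of_cond h
  obtain ⟨h5, h⟩ := and_of_cond h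
  obtain ⟨h6, h⟩ := and_of_cond h
  obtain ⟨h7, h8⟩ := and_of_cond h
  have h1' : N + 1 ≤ 2 ^ d := Nat.le_of_ble_eq_true h1
  have h2' : 2 * M ≤ N + 1 := Nat.le_of_ble_eq_true h2
  have h3' : nu + 1 ≤ M := Nat.le_of_ble_eq_true h3
  have h4' : L + 1 ≤ nu := Nat.le_of_ble_eq_true h4
  have h5' : kp ≤ 1024 * L := Nat.le_of_ble_eq_true h5
  have h6' : kq ≤ 1024 * L := Nat.le_of_ble_eq_true h6
  have hS : (0 : ℝ) < Sc := by exact_mod_cast hSc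
  -- pointwise
  have hpt : ∀ j, M ≤ j → j ≤ N →
      kp * hiN j (dg w C2 j) + 1024 * L * hiN j (dg w C1 j) ≤ 1024 * L * loN j (dg w C2 j) ∧
      kq * hiN j (dg w C3 j) + 1024 * L * hiN j (dg w C2 j) ≤ 1024 * L * loN j (dg w C3 j) := by
    intro j hj1 hj2
    have := al3_spec _ _ _ _ _ _ _ _ _ h7 j (by omega)
    rw [Nat.zero_add] at this
    unfold QK at this
    rw [Nat.ble_eq_true_of_le hj1, cond_true, Nat.ble_eq_true_of_le hj2, cond_true] at this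
    obtain ⟨a1, a2⟩ := and_of_cond this
    exact ⟨Nat.le_of_ble_eq_true a1, Nat.le_of_ble_eq_true a2⟩
  -- the digit at `L`
  have hTL : lowb (Nat.shiftRight C2 (Nat.mul w L)) w = dg w C2 L := by
    rw [lowb_eq]
    show (C2 >>> (w * L)) % 2 ^ w = _
    rw [Nat.shiftRight_eq_div_pow]
    rfl
  rw [hTL] at h8
  -- sums
  obtain ⟨s2, hs2⟩ : ∃ s, s = smI w (L + 1) (N + 1) hiN d C2 := ⟨_, rfl⟩
  obtain ⟨s1, hs1⟩ : ∃ s, s = smI w (L + 1) (N + 1) loN d C1 := ⟨_, rfl⟩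
  obtain ⟨s3, hs3⟩ : ∃ s, s = smI w (L + 1) (N + 1) loN d C3 := ⟨_, rfl⟩
  have b2 : (Sc : ℝ) * ∑ n ∈ Ico (L + 1) (N + 1), gk (L + 1) n ≤ (s2 : ℝ) := by
    rw [hs2]
    exact smI_hi (N := N) h1' le_rfl (fun n hn => H2 n (by omega))
  have b1 : (s1 : ℝ) ≤ (Sc : ℝ) * ∑ n ∈ Ico (L + 1) (N + 1), gk L n := by
    rw [hs1]
    exact smI_lo (N := N) h1' le_rfl (fun n hn => H1 n (by omega))
  have b3 : (s3 : ℝ) ≤ (Sc : ℝ) * ∑ n ∈ Ico (L + 1) (N + 1), gk (L + 2) n := by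
    rw [hs3]
    exact smI_lo (N := N) h1' le_rfl (fun n hn => H3 n (by omega))
  obtain ⟨W, hW⟩ : ∃ W, W = kW w L N d C1 C2 C3 := ⟨_, rfl⟩
  have hW1 : (Sc : ℝ) * (-∑ j ∈ Ico (L + 1) (N + 1), (gk (L + 2) j + gk L j - 2 * gk (L + 1) j)) ≤
      (W : ℝ) := by
    have e : ∑ j ∈ Ico (L + 1) (N + 1), (gk (L + 2) j + gk L j - 2 * gk (L + 1) j) =
        ∑ j ∈ Ico (L + 1) (N + 1), gk (L + 2) j + ∑ j ∈ Ico (L + 1) (N + 1), gk L j -
          2 * ∑ j ∈ Ico (L + 1) (N + 1), gk (L + 1) j := by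
      rw [Finset.sum_sub_distrib, Finset.sum_add_distrib, Finset.mul_sum]
    have hWe : W = Nat.sub (2 * s2) (s1 + s3) := by
      rw [hW, hs1, hs2, hs3]
      rfl
    have h9 := sub_cast_le (2 * s2) (s1 + s3)
    rw [← hWe] at h9
    push_cast at h9
    rw [e]
    nlinarith
  -- G
  have hMd : M ≤ 2 ^ d := by omega
  have hMN : M ≤ N + 1 := by omega
  have hGen : ∀ (K : ℕ) (C C' : ℕ), (∀ n, gk K n ≤ gk (K + 1) n) →
      (∀ n, n ≤ N → ((loN n (dg w C n) : ℕ) : ℝ) ≤ Sc * gk (K + 1) n ∧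
        Sc * gk (K + 1) n ≤ ((hiN n (dg w C n) : ℕ) : ℝ)) →
      (∀ n, n ≤ N → ((loN n (dg w C' n) : ℕ) : ℝ) ≤ Sc * gk K n ∧
        Sc * gk K n ≤ ((hiN n (dg w C' n) : ℕ) : ℝ)) →
      ((kG w nu M d C C' : ℕ) : ℝ) ≤ Sc * ∑ j ∈ Ico nu M, (gk (K + 1) j - gk K j) := by
    intro K C C' hm hC hC'
    have c1 := smI_lo (a := nu) (b := M) hMd hMN hC
    have c2 := smI_hi (a := nu) (b := M) hMd hMN hC'
    have c3 := sub_cast_max (smI w nu M loN d C) (smI w nu M hiN d C')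
    have c4 : (0 : ℝ) ≤ ∑ j ∈ Ico nu M, (gk (K + 1) j - gk K j) :=
      Finset.sum_nonneg (fun j _ => by have := hm j; linarith)
    have c5 : ∑ j ∈ Ico nu M, (gk (K + 1) j - gk K j) =
        ∑ j ∈ Ico nu M, gk (K + 1) j - ∑ j ∈ Ico nu M, gk K j := Finset.sum_sub_distrib _ _
    refine c3.trans ?_
    apply max_le
    · exact mul_nonneg hS.le c4
    · rw [c5, mul_sub]
      linarith
  have hG := hGen L C2 C1 hA (fun n hn => H2 n (by omega)) (fun n hn => H1 n (by omega))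
  have hG1 := hGen (L + 1) C3 C2 hA1 (fun n hn => H3 n (by omega)) (fun n hn => H2 n (by omega))
  -- the two inequalities
  unfold ckI at h8
  obtain ⟨i1, i2⟩ := and_of_cond h8
  rw [← hW] at i1 i2
  obtain ⟨G, hGd⟩ : ∃ G, G = kG w nu M d C2 C1 := ⟨_, rfl⟩
  obtain ⟨G1, hG1d⟩ : ∃ G, G = kG w nu M d C3 C2 := ⟨_, rfl⟩
  rw [← hGd] at i1 i2 hG
  rw [← hG1d] at i1 i2 hG1
  have i1' : 1024 * ((L + 1) * W + hiN L (dg w C2 L)) ≤ 1024 * (G + G1) + kp * (2 * G + G1) :=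
    Nat.le_of_ble_eq_true i1
  have i2' : 1024 * ((L + 1) * W) ≤ 1024 * (G + G1) + kq * G := Nat.le_of_ble_eq_true i2
  have i1r : (1024 : ℝ) * (((L : ℝ) + 1) * W + ((hiN L (dg w C2 L) : ℕ) : ℝ)) ≤
      1024 * ((G : ℝ) + G1) + kp * (2 * G + G1) := by exact_mod_cast i1'
  have i2r : (1024 : ℝ) * (((L : ℝ) + 1) * W) ≤ 1024 * ((G : ℝ) + G1) + kq * G := by
    exact_mod_cast i2'
  have hTr := (H2 L (by omega)).2
  refine ⟨(W : ℝ) / Sc, (G : ℝ) / Sc, (G1 : ℝ) / Sc, ?_⟩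
  constructor
  · exact h2'
  · exact h3'
  · exact h4'
  · positivity
  · positivity
  · rw [div_le_iff₀ (by norm_num)]
    have : ((kp : ℕ) : ℝ) ≤ ((1024 * L : ℕ) : ℝ) := by exact_mod_cast h5'
    push_cast at this
    linarith
  · rw [div_le_iff₀ (by norm_num)]
    have : ((kq : ℕ) : ℝ) ≤ ((1024 * L : ℕ) : ℝ) := by exact_mod_cast h6'
    push_cast at this
    linarith
  · positivity
  · positivity
  · positivity
  · intro j hj1 hj2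
    have p := (hpt j hj1 hj2).1
    have pr : (kp : ℝ) * ((hiN j (dg w C2 j) : ℕ) : ℝ) + 1024 * L * ((hiN j (dg w C1 j) : ℕ) : ℝ) ≤
        1024 * L * ((loN j (dg w C2 j) : ℕ) : ℝ) := by exact_mod_cast p
    exact pt1 _ _ _ _ _ _ _ _ hS (Nat.cast_nonneg _) (Nat.cast_nonneg _) (H2 j (by omega)).2
      (H1 j (by omega)).2 (H2 j (by omega)).1 pr
  · intro j hj1 hj2
    have p := (hpt j hj1 hj2).2
    have pr : (kq : ℝ) * ((hiN j (dg w C3 j) : ℕ) : ℝ) + 1024 * L * ((hiN j (dg w C2 j) : ℕ) : ℝ) ≤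
        1024 * L * ((loN j (dg w C3 j) : ℕ) : ℝ) := by exact_mod_cast p
    exact pt1 _ _ _ _ _ _ _ _ hS (Nat.cast_nonneg _) (Nat.cast_nonneg _) (H3 j (by omega)).2
      (H2 j (by omega)).2 (H3 j (by omega)).1 pr
  · rw [neg_le, le_div_iff₀ hS]
    linarith
  · rw [div_le_iff₀ hS]
    linarith
  · rw [div_le_iff₀ hS]
    linarith
  · apply fin1 _ _ _ _ _ _ _ hS
    linarith
  · apply fin2 _ _ _ _ _ _ hS
    linarith

end Pool.Agent.MP_9da1e3_co
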