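import Pool.Agent.Lib.MP_9da1e3_co.Wn10

namespace Pool.Agent.MP_9da1e3_co

open Finset

lemma Fn_zero (L : ℕ) : Fn L 0 = 1 := by
  rw [Fn_eq_tn L 0 (Nat.zero_le L), tn_zero]

lemma min_step (L k : ℕ) : ((min L (k + 1 + 1) : ℕ) : ℝ) * (((k : ℝ) + 1) * ((k : ℝ) + 1)) ≤
    ((k : ℝ) + 2) * (((k : ℝ) + 1) * ((min L (k + 1) : ℕ) : ℝ)) := by
  have hk : (0 : ℝ) ≤ k := Nat.cast_nonneg k
  rcases Nat.lt_or_ge k L with h | h
  · have e : min L (k + 1) = k + 1 := by omega
    have e2 : min L (k + 1 + 1) ≤ k + 2 := by omega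
    have e3 : ((min L (k + 1 + 1) : ℕ) : ℝ) ≤ (k : ℝ) + 2 := by exact_mod_cast e2
    rw [e]
    push_cast
    have h1 := mul_le_mul_of_nonneg_right e3 (show (0 : ℝ) ≤ ((k : ℝ) + 1) * ((k : ℝ) + 1) by positivity)
    push_cast at h1
    linarith
  · have e : min L (k + 1) = L := by omega
    have e2 : min L (k + 1 + 1) = L := by omega
    rw [e, e2]
    have hL : (0 : ℝ) ≤ L := Nat.cast_nonneg L
    have : 0 ≤ ((k : ℝ) + 1) * L := by positivity
    nlinarith

/-- `(n + 1) Fn L n` decreases in `n` -/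
theorem G_dec (L : ℕ) : ∀ n : ℕ, ((n : ℝ) + 2) * Fn L (n + 1) ≤ ((n : ℝ) + 1) * Fn L n := by
  intro n
  induction n using Nat.strong_induction_on with
  | _ n ih =>
    rcases Nat.lt_or_ge L n with hn | hn
    · obtain ⟨p, rfl⟩ : ∃ p, n = p + 1 := ⟨n - 1, by omega⟩
      have hpL : L ≤ p := by omega
      have hE := E_pos
      have rn := Fn_rec L (p + 1)
      have rp := Fn_rec L p
      have hp0 : (0 : ℝ) ≤ p := Nat.cast_nonneg p
      obtain ⟨F, hF⟩ : ∃ F : ℕ → ℝ, F = Fn L := ⟨_, rfl⟩
      have hF0 : ∀ k, 0 ≤ F k := fun k => by rw [hF]; exact Fn_nonneg L k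
      have hih : ∀ k, k ≤ p → ((k : ℝ) + 2) * F (k + 1) ≤ ((k : ℝ) + 1) * F k := fun k hk => by
        rw [hF]
        exact ih k (by omega)
      have hFz : F 0 = 1 := by rw [hF]; exact Fn_zero L
      rw [← hF] at rn rp ⊢
      obtain ⟨w, hw⟩ : ∃ w : ℕ → ℝ, w = fun k => ((min L (k + 1) : ℕ) : ℝ) := ⟨_, rfl⟩
      have hw0 : ∀ k, 0 ≤ w k := fun k => by rw [hw]; exact Nat.cast_nonneg _
      have hwL : ∀ k, L ≤ k → w k = L := fun k hk => by
        rw [hw]
        have : min L (k + 1) = L := by omega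
        simp only [this]
      have hws : ∀ k : ℕ, w (k + 1) * (((k : ℝ) + 1) * ((k : ℝ) + 1)) ≤
          ((k : ℝ) + 2) * (((k : ℝ) + 1) * w k) := fun k => by
        rw [hw]
        exact min_step L k
      have rn' : E * (((p : ℝ) + 2) * F (p + 1 + 1)) =
          ∑ k ∈ range (p + 1 + 1), w k * (F k * F (p + 1 - k)) := by
        rw [hw]
        rw [← rn]
        push_cast
        ring
      have rp' : E * (((p : ℝ) + 1) * F (p + 1)) = ∑ k ∈ range (p + 1), w k * (F k * F (p - k)) := by
        rw [hw]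
        exact rp
      clear rn rp
      -- the first part
      have hA : ∑ k ∈ range (p + 1 + 1), (k : ℝ) * (w k * (F k * F (p + 1 - k))) ≤
          ∑ k ∈ range (p + 1), (((k : ℝ) + 1) * w k) * (F k * F (p - k)) -
          ((L : ℝ) * (((p : ℝ) + 1) / ((p : ℝ) + 2))) * F p := by
        rw [Finset.sum_range_succ', Nat.cast_zero, zero_mul, add_zero]
        rw [Finset.sum_range_succ, Finset.sum_range_succ _ p]
        have h1 : ∑ x ∈ range p, (((x + 1 : ℕ) : ℝ)) * (w (x + 1) * (F (x + 1) * F (p + 1 - (x + 1)))) ≤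
            ∑ x ∈ range p, (((x : ℝ) + 1) * w x) * (F x * F (p - x)) := by
          apply Finset.sum_le_sum
          intro k hk
          have hk' := mem_range.mp hk
          have q : p + 1 - (k + 1) = p - k := by omega
          rw [q]
          have h2 := hih k (by omega)
          have h3 := hws k
          have hk0 : (0 : ℝ) ≤ k := Nat.cast_nonneg k
          push_cast
          -- multiply by (k+2)
          have h4 : ((k : ℝ) + 2) * (((k : ℝ) + 1) * (w (k + 1) * (F (k + 1) * F (p - k)))) ≤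
              ((k : ℝ) + 2) * ((((k : ℝ) + 1) * w k) * (F k * F (p - k))) := by
            have h5 : (((k : ℝ) + 1) * w (k + 1) * F (p - k)) * (((k : ℝ) + 2) * F (k + 1)) ≤
                (((k : ℝ) + 1) * w (k + 1) * F (p - k)) * (((k : ℝ) + 1) * F k) := by
              apply mul_le_mul_of_nonneg_left h2
              have := hw0 (k + 1)
              have := hF0 (p - k)
              positivity
            have h6 : (w (k + 1) * (((k : ℝ) + 1) * ((k : ℝ) + 1))) * (F k * F (p - k)) ≤
                (((k : ℝ) + 2) * (((k : ℝ) + 1) * w k)) * (F k * F (p - k)) :=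
              mul_le_mul_of_nonneg_right h3 (mul_nonneg (hF0 _) (hF0 _))
            linarith
          exact le_of_mul_le_mul_left h4 (by positivity)
        have h2 : ((p + 1 : ℕ) : ℝ) * (w (p + 1) * (F (p + 1) * F (p + 1 - (p + 1)))) ≤
            (((p : ℝ) + 1) * w p) * (F p * F (p - p)) -
            ((L : ℝ) * (((p : ℝ) + 1) / ((p : ℝ) + 2))) * F p := by
          have h3 := hih p le_rfl
          rw [Nat.sub_self, Nat.sub_self, hFz, hwL p hpL, hwL (p + 1) (by omega)]
          push_cast
          have hLn : (0 : ℝ) ≤ L := Nat.cast_nonneg L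
          have h4 : F (p + 1) ≤ (((p : ℝ) + 1) * F p) / ((p : ℝ) + 2) := by
            rw [le_div_iff₀ (by positivity)]
            linarith
          have h5 : ((p : ℝ) + 1) * (L * F (p + 1)) ≤
              ((p : ℝ) + 1) * (L * ((((p : ℝ) + 1) * F p) / ((p : ℝ) + 2))) := by
            apply mul_le_mul_of_nonneg_left _ (by positivity)
            exact mul_le_mul_of_nonneg_left h4 hLn
          have h6 : ((p : ℝ) + 1) * (L * ((((p : ℝ) + 1) * F p) / ((p : ℝ) + 2))) =
              ((p : ℝ) + 1) * L * F p - (L * (((p : ℝ) + 1) / ((p : ℝ) + 2))) * F p := by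
            field_simp
            ring
          rw [h6] at h5
          linarith
        linarith
      have hB : ∑ k ∈ range (p + 1 + 1), ((p : ℝ) + 2 - k) * (w k * (F k * F (p + 1 - k))) ≤
          ∑ k ∈ range (p + 1), (((p : ℝ) + 1 - k) * w k) * (F k * F (p - k)) + L * F (p + 1) := by
        rw [Finset.sum_range_succ]
        have h1 : ∑ k ∈ range (p + 1), ((p : ℝ) + 2 - k) * (w k * (F k * F (p + 1 - k))) ≤
            ∑ k ∈ range (p + 1), (((p : ℝ) + 1 - k) * w k) * (F k * F (p - k)) := by
          apply Finset.sum_le_sum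
          intro k hk
          have hk' : k ≤ p := by have := mem_range.mp hk; omega
          have q : p + 1 - k = (p - k) + 1 := by omega
          rw [q]
          have h2 := hih (p - k) (by omega)
          rw [Nat.cast_sub hk'] at h2
          have h3 : (w k * F k) * (((p : ℝ) - k + 2) * F (p - k + 1)) ≤
              (w k * F k) * (((p : ℝ) - k + 1) * F (p - k)) :=
            mul_le_mul_of_nonneg_left h2 (mul_nonneg (hw0 k) (hF0 k))
          linarith
        have h2 : ((p : ℝ) + 2 - ((p + 1 : ℕ) : ℝ)) * (w (p + 1) * (F (p + 1) * F (p + 1 - (p + 1)))) =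
            L * F (p + 1) := by
          rw [Nat.sub_self, hFz, hwL (p + 1) (by omega)]
          push_cast
          ring
        rw [h2]
        linarith
      have hC : ∑ k ∈ range (p + 1 + 1), ((p : ℝ) + 2) * (w k * (F k * F (p + 1 - k))) ≤
          ∑ k ∈ range (p + 1), ((p : ℝ) + 2) * (w k * (F k * F (p - k))) := by
        have e1 : ∑ k ∈ range (p + 1 + 1), ((p : ℝ) + 2) * (w k * (F k * F (p + 1 - k))) =
            ∑ k ∈ range (p + 1 + 1), (k : ℝ) * (w k * (F k * F (p + 1 - k))) +
            ∑ k ∈ range (p + 1 + 1), ((p : ℝ) + 2 - k) * (w k * (F k * F (p + 1 - k))) := by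
          rw [← Finset.sum_add_distrib]
          apply Finset.sum_congr rfl
          intro k _
          ring
        have e2 : ∑ k ∈ range (p + 1), ((p : ℝ) + 2) * (w k * (F k * F (p - k))) =
            ∑ k ∈ range (p + 1), (((k : ℝ) + 1) * w k) * (F k * F (p - k)) +
            ∑ k ∈ range (p + 1), (((p : ℝ) + 1 - k) * w k) * (F k * F (p - k)) := by
          rw [← Finset.sum_add_distrib]
          apply Finset.sum_congr rfl
          intro k _
          ring
        rw [e1, e2]
        have h3 : (L : ℝ) * F (p + 1) ≤ ((L : ℝ) * (((p : ℝ) + 1) / ((p : ℝ) + 2))) * F p := by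
          have h4 := hih p le_rfl
          have hLn : (0 : ℝ) ≤ L := Nat.cast_nonneg L
          have h5 : F (p + 1) ≤ (((p : ℝ) + 1) / ((p : ℝ) + 2)) * F p := by
            rw [div_mul_eq_mul_div, le_div_iff₀ (by positivity)]
            linarith
          have := mul_le_mul_of_nonneg_left h5 hLn
          linarith
        linarith
      rw [← Finset.mul_sum, ← Finset.mul_sum, ← rn', ← rp'] at hC
      have hD := le_of_mul_le_mul_left (le_of_mul_le_mul_left hC (by positivity)) hE
      -- ((p+2) F(p+2)) ≤ (p+1) F(p+1)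
      push_cast
      have hf := hF0 (p + 1)
      have h6 : ((p : ℝ) + 2) * (((p : ℝ) + 1 + 2) * F (p + 1 + 1)) ≤
          ((p : ℝ) + 2) * (((p : ℝ) + 1 + 1) * F (p + 1)) := by
        have h7 := mul_le_mul_of_nonneg_left hD (show (0 : ℝ) ≤ (p : ℝ) + 3 by positivity)
        nlinarith
      exact le_of_mul_le_mul_left h6 (by positivity)
    · have h1 := cE_anti n
      unfold cE at h1
      have h2 := Fn_le_tn L (n + 1)
      rw [Fn_eq_tn L n hn]
      push_cast at h1
      have h3 := mul_le_mul_of_nonneg_left h2 (show (0 : ℝ) ≤ (n : ℝ) + 2 by positivity)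
      linarith

lemma Fn_anti (L n : ℕ) : Fn L (n + 1) ≤ Fn L n := by
  have h := G_dec L n
  have h0 := Fn_nonneg L (n + 1)
  have hn : (0 : ℝ) < (n : ℝ) + 1 := by positivity
  have h1 : ((n : ℝ) + 1) * Fn L (n + 1) ≤ ((n : ℝ) + 1) * Fn L n := by linarith
  exact le_of_mul_le_mul_left h1 hn

lemma Fn_le_of_le (L : ℕ) {a b : ℕ} (h : a ≤ b) : Fn L b ≤ Fn L a := by
  induction h with
  | refl => exact le_rfl
  | step _ ih => exact (Fn_anti L _).trans ih

lemma Fn_mono (L n : ℕ) : Fn L n ≤ Fn (L + 1) n := by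
  have := An_nonneg L n
  unfold An at this
  linarith

end Pool.Agent.MP_9da1e3_co
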