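import Pool.Agent.Lib.MP_9da1e3_co.Lf9

namespace Pool.Agent.MP_9da1e3_co

open Finset

lemma KK_val (L x : ℕ) (h : x ≤ L) : KK (L + 1) x = ((L : ℝ) + x + 2) * tn x := by
  unfold KK
  have m1 : min (L + 1) (x + 1) = x + 1 := by omega
  rw [m1, Fn_eq_tn (L + 1 + 1) x (by omega), Fn_eq_tn (L + 1) x (by omega)]
  push_cast
  ring

/-- the ramp -/
noncomputable def NN (L x : ℕ) : ℝ :=
  KK (L + 1) (L / 10) * (1 + 5.5 * ((((L / 10 : ℕ) : ℝ) - x) / L)) -
    1.99 * (∑ j ∈ range (L / 10 + 1), tn j - ∑ j ∈ range (x + 1), tn j)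

noncomputable def psi (L x : ℕ) : ℝ := if L / 10 ≤ x then KK (L + 1) x else max 0 (NN L x)

lemma NN_top (L : ℕ) : NN L (L / 10) = KK (L + 1) (L / 10) := by
  unfold NN
  ring

lemma NN_step (L p : ℕ) : NN L p = NN L (p + 1) + 5.5 * KK (L + 1) (L / 10) / L - 1.99 * tn (p + 1) := by
  unfold NN
  rw [Finset.sum_range_succ (fun j => tn j) (p + 1)]
  push_cast
  ring

lemma psi_nonneg (L x : ℕ) : 0 ≤ psi L x := by
  unfold psi
  split_ifs
  · exact KK_nonneg _ _
  · exact le_max_left _ _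

lemma NN_le_M (L x : ℕ) (hL : 1000 ≤ L) (hx : x ≤ L / 10) :
    NN L x ≤ KK (L + 1) (L / 10) * (1 + 5.5 * ((((L / 10 : ℕ) : ℝ) - x) / L)) := by
  unfold NN
  have h1 : ∑ j ∈ range (x + 1), tn j ≤ ∑ j ∈ range (L / 10 + 1), tn j := by
    apply Finset.sum_le_sum_of_subset_of_nonneg
    · apply Finset.range_subset_range.mpr
      omega
    · intro i _ _
      exact (tn_pos i).le
  linarith

lemma NN_le_155 (L x : ℕ) (hL : 1000 ≤ L) (hx : x ≤ L / 10) :
    NN L x ≤ 1.55 * KK (L + 1) (L / 10) := by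
  refine (NN_le_M L x hL hx).trans ?_
  have hL0 : (0 : ℝ) < L := by exact_mod_cast (by omega : 0 < L)
  have h1 : ((((L / 10 : ℕ) : ℝ) - x) / L) ≤ 0.1 := by
    rw [div_le_iff₀ hL0]
    have h2 : (10 : ℝ) * ((L / 10 : ℕ) : ℝ) ≤ L := by exact_mod_cast (by omega : 10 * (L / 10) ≤ L)
    have h3 : (0 : ℝ) ≤ x := Nat.cast_nonneg x
    linarith
  have h2 := mul_le_mul_of_nonneg_left (show 1 + 5.5 * ((((L / 10 : ℕ) : ℝ) - x) / L) ≤ 1.55 by
    linarith) (KK_nonneg (L + 1) (L / 10))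
  linarith

lemma psi_le (L x : ℕ) (hL : 1000 ≤ L) : psi L x ≤ KK (L + 1) x := by
  unfold psi
  split_ifs with h
  · exact le_rfl
  · apply max_le (KK_nonneg _ _)
    have hx : x ≤ L / 10 := by omega
    refine (NN_le_M L x hL hx).trans ?_
    have hL0 : (0 : ℝ) < L := by exact_mod_cast (by omega : 0 < L)
    rw [KK_val L x (by omega), KK_val L (L / 10) (by omega)]
    obtain ⟨X, hX⟩ : ∃ X : ℝ, X = ((L / 10 : ℕ) : ℝ) := ⟨_, rfl⟩
    have hXL : 10 * X ≤ L := by rw [hX]; exact_mod_cast (by omega : 10 * (L / 10) ≤ L)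
    have hxX : (x : ℝ) + 1 ≤ X := by rw [hX]; exact_mod_cast (by omega : x + 1 ≤ L / 10)
    have hx0 : (0 : ℝ) ≤ x := Nat.cast_nonneg x
    have hLk : (1000 : ℝ) ≤ L := by exact_mod_cast hL
    have hc := cE_le_of_le hx
    unfold cE at hc
    rw [← hX] at hc ⊢
    have htX := tn_pos (L / 10)
    have htx := tn_pos x
    -- multiply by `x + 1`
    have h1 : ((x : ℝ) + 1) * (((L : ℝ) + X + 2) * tn (L / 10) * (1 + 5.5 * ((X - x) / L))) ≤
        ((x : ℝ) + 1) * (((L : ℝ) + x + 2) * tn x) := by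
      have h2 : ((L : ℝ) + x + 2) * ((X + 1) * tn (L / 10)) ≤ ((L : ℝ) + x + 2) * (((x : ℝ) + 1) * tn x) :=
        mul_le_mul_of_nonneg_left hc (by positivity)
      have h3 : ((x : ℝ) + 1) * (((L : ℝ) + X + 2) * (1 + 5.5 * ((X - x) / L))) ≤
          ((L : ℝ) + x + 2) * (X + 1) := by
        have h4 : ((L : ℝ) + x + 2) * (X + 1) = ((x : ℝ) + 1) * ((L : ℝ) + X + 2) + (X - x) * (L + 1) := by
          ring
        have h5 : ((x : ℝ) + 1) * ((L : ℝ) + X + 2) * (5.5 * ((X - x) / L)) ≤ (X - x) * (L + 1) := by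
          have h6 : ((x : ℝ) + 1) * ((L : ℝ) + X + 2) ≤ (L / 10) * (1.2 * L) := by
            apply mul_le_mul _ _ (by linarith) (by positivity)
            · linarith
            · linarith
          have h7 : 0 ≤ 5.5 * ((X - x) / L) := by
            have : 0 ≤ (X - x) / L := div_nonneg (by linarith) hL0.le
            linarith
          have h8 := mul_le_mul_of_nonneg_right h6 h7
          refine h8.trans ?_
          have h9 : (L : ℝ) / 10 * (1.2 * L) * (5.5 * ((X - x) / L)) = 0.66 * L * (X - x) := by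
            field_simp
            norm_num
            ring
          rw [h9]
          have h10 : 0.66 * (L : ℝ) ≤ L + 1 := by linarith
          have h11 := mul_le_mul_of_nonneg_right h10 (show 0 ≤ X - x by linarith)
          linarith
        rw [h4]
        linarith
      have h4 := mul_le_mul_of_nonneg_right h3 htX.le
      linarith
    exact le_of_mul_le_mul_left h1 (by positivity)

lemma psi_small (L x : ℕ) (hL : (10 : ℝ) ^ 100 ≤ L) (hx : x ≤ L / 10000) : psi L x = 0 := by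
  have hL0 : (0 : ℝ) < L := lt_of_lt_of_le (by positivity) hL
  have hLbig : (10 : ℝ) ^ 30 ≤ L := le_trans (pow_le_pow_right₀ (by norm_num) (by norm_num)) hL
  have hL9 : 1000000000 ≤ L := by
    have : (1000000000 : ℝ) ≤ L := le_trans (by norm_num) hLbig
    exact_mod_cast this
  have hL9' : (1000000000 : ℝ) ≤ L := by exact_mod_cast hL9
  unfold psi
  rw [if_neg (by omega)]
  apply max_eq_left
  have h1 := NN_le_155 L x (by omega) (by omega)
  unfold NN
  have hs : 0 < √(L : ℝ) := Real.sqrt_pos.mpr hL0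
  have a1 : √(L : ℝ) ≤ 3.17 * √((L / 10 + 1 : ℕ) : ℝ) := by
    apply Real.sqrt_le_iff.mpr
    refine ⟨by positivity, ?_⟩
    rw [mul_pow, Real.sq_sqrt (Nat.cast_nonneg _)]
    have h2 : (L : ℝ) ≤ 10 * ((L / 10 + 1 : ℕ) : ℝ) := by exact_mod_cast (by omega : L ≤ 10 * (L / 10 + 1))
    have h3 : (0 : ℝ) ≤ ((L / 10 + 1 : ℕ) : ℝ) := Nat.cast_nonneg _
    norm_num at h2 h3 ⊢
    linarith
  have hs10 : 0 < √((L / 10 + 1 : ℕ) : ℝ) := Real.sqrt_pos.mpr (by positivity)
  have a2 : 94 * √((x + 1 : ℕ) : ℝ) ≤ √(L : ℝ) := by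
    apply Real.le_sqrt_of_sq_le
    rw [mul_pow, Real.sq_sqrt (Nat.cast_nonneg _)]
    have h2 : 94 ^ 2 * (x + 1) ≤ L := by omega
    have h3 : (94 : ℝ) ^ 2 * ((x + 1 : ℕ) : ℝ) ≤ L := by exact_mod_cast h2
    exact h3
  have hsx : 0 < √((x + 1 : ℕ) : ℝ) := Real.sqrt_pos.mpr (by positivity)
  have b1 := sum_tn_low (L / 10 + 1) (by omega)
  have b2 := tail_ge (x + 1) (by omega)
  have c1 : 8 / √((L / 10 + 1 : ℕ) : ℝ) ≤ 25.4 / √(L : ℝ) := by
    rw [div_le_div_iff₀ hs10 hs]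
    linarith
  have c2 : 73.3 / √(L : ℝ) ≤ 0.78 / √((x + 1 : ℕ) : ℝ) := by
    rw [div_le_div_iff₀ hs hsx]
    linarith
  have c3 : KK (L + 1) (L / 10) ≤ 39 / √(L : ℝ) := by
    rw [KK_val L (L / 10) (by omega)]
    have h2 := tn_le (L / 10)
    have h3 : sq (L / 10) = √((L / 10 + 1 : ℕ) : ℝ) := by
      unfold sq
      push_cast
      rfl
    rw [h3] at h2
    have h4 : ((L / 10 : ℕ) : ℝ) ≤ L / 10 := by
      have : (10 : ℝ) * ((L / 10 : ℕ) : ℝ) ≤ L := by exact_mod_cast (by omega : 10 * (L / 10) ≤ L)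
      linarith
    have h5 : (L : ℝ) / 10 ≤ ((L / 10 : ℕ) : ℝ) + 1 := by
      have : (L : ℝ) ≤ 10 * (((L / 10 : ℕ) : ℝ) + 1) := by
        exact_mod_cast (by omega : L ≤ 10 * (L / 10 + 1))
      linarith
    have h6 : tn (L / 10) ≤ 1.1 / ((L / 10) * (√(L : ℝ) / 3.17)) := by
      refine h2.trans ?_
      apply div_le_div_of_nonneg_left (by norm_num) (by positivity)
      apply mul_le_mul h5 _ (by positivity) (by positivity)
      rw [div_le_iff₀ (by norm_num)]
      linarith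
    have h7 : (L : ℝ) + ((L / 10 : ℕ) : ℝ) + 2 ≤ 1.101 * L := by linarith
    have h8 := mul_le_mul h7 h6 (tn_pos _).le (by positivity)
    refine h8.trans ?_
    have e : 1.101 * (L : ℝ) * (1.1 / ((L / 10) * (√(L : ℝ) / 3.17))) =
        (1.101 * 1.1 * 10 * 3.17) / √(L : ℝ) := by
      field_simp
    rw [e]
    apply div_le_div_of_nonneg_right _ hs.le
    norm_num
  have h2 : KK (L + 1) (L / 10) * (1 + 5.5 * ((((L / 10 : ℕ) : ℝ) - x) / L)) ≤
      1.55 * KK (L + 1) (L / 10) := by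
    have h3 : ((((L / 10 : ℕ) : ℝ) - x) / L) ≤ 0.1 := by
      rw [div_le_iff₀ hL0]
      have h4 : (10 : ℝ) * ((L / 10 : ℕ) : ℝ) ≤ L := by exact_mod_cast (by omega : 10 * (L / 10) ≤ L)
      have h5 : (0 : ℝ) ≤ x := Nat.cast_nonneg x
      linarith
    have h4 := mul_le_mul_of_nonneg_left (show 1 + 5.5 * ((((L / 10 : ℕ) : ℝ) - x) / L) ≤ 1.55 by
      linarith) (KK_nonneg (L + 1) (L / 10))
    linarith
  have h3 : 1.55 * KK (L + 1) (L / 10) ≤ 60.45 / √(L : ℝ) := by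
    have h4 := mul_le_mul_of_nonneg_left c3 (show (0 : ℝ) ≤ 1.55 by norm_num)
    refine h4.trans (le_of_eq ?_)
    ring
  have h4 : 60.45 / √(L : ℝ) ≤ 1.99 * (73.3 / √(L : ℝ) - 25.4 / √(L : ℝ)) := by
    have e : 1.99 * (73.3 / √(L : ℝ) - 25.4 / √(L : ℝ)) = (1.99 * (73.3 - 25.4)) / √(L : ℝ) := by
      ring
    rw [e]
    apply div_le_div_of_nonneg_right _ hs.le
    norm_num
  linarith

lemma psi_step (L p : ℕ) (hL : 1000 ≤ L) (hp : p + 1 ≤ L / 10) :
    psi L (p + 1) ≤ (1 - 3.2 / (L : ℝ)) * psi L p + 1.99 * tn (p + 1) := by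
  have hL0 : (0 : ℝ) < L := by exact_mod_cast (by omega : 0 < L)
  have hLk : (1000 : ℝ) ≤ L := by exact_mod_cast hL
  have h1 : psi L (p + 1) = max 0 (NN L (p + 1)) := by
    unfold psi
    split_ifs with h
    · have e : p + 1 = L / 10 := by omega
      rw [e, NN_top, max_eq_right (KK_nonneg _ _)]
    · rfl
  have h2 : psi L p = max 0 (NN L p) := by
    unfold psi
    rw [if_neg (by omega)]
  rw [h1, h2]
  have hs := NN_step L p
  have ht := tn_pos (p + 1)
  have hK := KK_nonneg (L + 1) (L / 10)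
  have he : 3.2 / (L : ℝ) ≤ 1 := by
    rw [div_le_iff₀ hL0]
    linarith
  have h0 : 0 ≤ (1 - 3.2 / (L : ℝ)) * max 0 (NN L p) :=
    mul_nonneg (by linarith) (le_max_left _ _)
  apply max_le
  · linarith
  · have h155 := NN_le_155 L p hL (by omega)
    have h3 : 0 ≤ 5.5 * KK (L + 1) (L / 10) / L := by positivity
    rcases le_or_gt (NN L p) 0 with h | h
    · linarith
    · rw [max_eq_right h.le]
      have h4 : 3.2 / (L : ℝ) * NN L p ≤ 5.5 * KK (L + 1) (L / 10) / L := by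
        rw [div_mul_eq_mul_div]
        apply div_le_div_of_nonneg_right _ hL0.le
        linarith
      linarith

/-- pointwise inequality of the near case, away from the ramp -/
lemma near_far (L p : ℕ) (hL : (10 : ℝ) ^ 100 ≤ L) (hp : L / 10 ≤ p) :
    1.035 * Fn (L + 1) (p + 1) ≤ (1 - 3.2 / (L : ℝ)) * KK (L + 1) p - KK (L + 1) (p + 1) +
      Fn (L + 2) (p + 1) + (L : ℝ) * An (L + 1) (p + 1) +
      (if L ≤ p + 1 then Fn (L + 1) (p + 1) else 0) + (L : ℝ) * An L (p + 1) +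
      (1 - 3.2 / (L : ℝ)) * Fn (L + 2) p +
      (if L + 1 ≤ p then (1 - 3.2 / (L : ℝ)) * Fn (L + 1) p else 0) +
      1.83 / (L : ℝ) * KK L (p + 1) := by
  have hL0 : (0 : ℝ) < L := lt_of_lt_of_le (by positivity) hL
  have hLbig : (10 : ℝ) ^ 30 ≤ L := le_trans (pow_le_pow_right₀ (by norm_num) (by norm_num)) hL
  have hL9' : (1000000000 : ℝ) ≤ L := le_trans (by norm_num) hLbig
  have hL9 : 1000000000 ≤ L := by exact_mod_cast hL9'
  clear hL hLbig
  obtain ⟨a, ha⟩ : ∃ a : ℝ, a = 1 / (L : ℝ) := ⟨_, rfl⟩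
  have ha0 : 0 < a := by rw [ha]; positivity
  have haL : a * L = 1 := by rw [ha]; field_simp
  have ha1 : a ≤ 0.000000001 := by
    rw [ha, div_le_iff₀ hL0]
    linarith
  have e1 : 3.2 / (L : ℝ) = 3.2 * a := by rw [ha]; ring
  have e2 : 1.83 / (L : ℝ) = 1.83 * a := by rw [ha]; ring
  rw [e1, e2]
  have hA0 := An_nonneg L (p + 1)
  have hA1 := An_nonneg (L + 1) (p + 1)
  have hLA0 := mul_nonneg hL0.le hA0
  have hLA1 := mul_nonneg hL0.le hA1
  have hp100 : 100 ≤ p := by omega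
  have hsh := tn_sharp p hp100
  have ht := tn_pos p
  have ht' := tn_pos (p + 1)
  have hanti := tn_anti p
  have hp0 : (0 : ℝ) ≤ p := Nat.cast_nonneg p
  rcases Nat.lt_trichotomy p L with h | h | h
  · -- p + 1 ≤ L
    have hpL : (p : ℝ) + 1 ≤ L := by exact_mod_cast h
    rw [KK_val L p (by omega), KK_val L (p + 1) (by omega), Fn_eq_tn (L + 2) (p + 1) (by omega),
      Fn_eq_tn (L + 2) p (by omega), Fn_eq_tn (L + 1) (p + 1) (by omega)]
    rw [if_neg (show ¬ L + 1 ≤ p by omega)]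
    have hK : ((L : ℝ) + p + 1) * tn (p + 1) ≤ KK L (p + 1) := by
      unfold KK
      rw [Fn_eq_tn (L + 1) (p + 1) (by omega), Fn_eq_tn L (p + 1) (by omega)]
      have h1 : (p : ℝ) + 1 ≤ ((min L (p + 1 + 1) : ℕ) : ℝ) := by
        exact_mod_cast (by omega : p + 1 ≤ min L (p + 1 + 1))
      have h2 := mul_le_mul_of_nonneg_right h1 ht'.le
      linarith
    have hite : (0 : ℝ) ≤ (if L ≤ p + 1 then tn (p + 1) else 0) := by
      split_ifs
      · exact ht'.le
      · exact le_rfl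
    obtain ⟨t, htd⟩ : ∃ t, t = tn p := ⟨_, rfl⟩
    obtain ⟨t', htd'⟩ : ∃ t, t = tn (p + 1) := ⟨_, rfl⟩
    rw [← htd] at hsh ht hanti ⊢
    rw [← htd'] at hsh ht' hanti hK hite ⊢
    obtain ⟨b, hb⟩ : ∃ b : ℝ, b = 1 / ((p : ℝ) + 2) := ⟨_, rfl⟩
    have hb0 : 0 < b := by rw [hb]; positivity
    have hbp : b * ((p : ℝ) + 2) = 1 := by rw [hb]; field_simp
    have e3 : t / ((p : ℝ) + 2) = t * b := by rw [hb]; ring
    rw [e3] at hsh
    -- r and q
    obtain ⟨r, hr⟩ : ∃ r : ℝ, r = a * ((L : ℝ) + p + 1) := ⟨_, rfl⟩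
    obtain ⟨q, hq⟩ : ∃ q : ℝ, q = b * ((L : ℝ) + p + 3) := ⟨_, rfl⟩
    have hr1 : 1 ≤ r := by
      rw [hr]
      have : 0 ≤ a * ((p : ℝ) + 1) := by positivity
      linarith
    have hr2 : r ≤ 2 := by
      rw [hr]
      have : a * ((p : ℝ) + 1) ≤ a * L := mul_le_mul_of_nonneg_left hpL ha0.le
      linarith
    have hrq : r ≤ q := by
      rw [hr, hq, ha, hb, one_div_mul_eq_div, one_div_mul_eq_div, div_le_div_iff₀ hL0 (by positivity)]
      have h1 : ((p : ℝ) + 1) * ((p : ℝ) + 2) ≤ L * ((L : ℝ) + 1) :=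
        mul_le_mul hpL (by linarith) (by positivity) hL0.le
      linarith
    -- lower bound for t
    have k1 : t' + 1.44 * (t' * b) ≤ t := by
      have h1 : t' * b ≤ t * b := mul_le_mul_of_nonneg_right hanti hb0.le
      linarith
    have hθ : 0 ≤ 1 - 3.2 * a := by linarith
    have hLp : 0 < (L : ℝ) + p + 3 := by positivity
    have k2 : (1 - 3.2 * a) * (((L : ℝ) + p + 3) * (t' + 1.44 * (t' * b))) ≤
        (1 - 3.2 * a) * (((L : ℝ) + p + 3) * t) :=
      mul_le_mul_of_nonneg_left (mul_le_mul_of_nonneg_left k1 hLp.le) hθ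
    have k3 : (1 - 3.2 * a) * (((L : ℝ) + p + 3) * (t' + 1.44 * (t' * b))) =
        t' * (((L : ℝ) + p + 3) - 3.2 * (r + 2 * a) + 1.44 * q - 4.608 * a * q) := by
      rw [hr, hq]
      ring
    have k4 : a * (((L : ℝ) + p + 1) * t') = r * t' := by rw [hr]; ring
    have k5 : 1.83 * (r * t') ≤ 1.83 * a * KK L (p + 1) := by
      have h1 := mul_le_mul_of_nonneg_left hK ha0.le
      rw [k4] at h1
      linarith
    have k6 : 1.44 * r - 4.608 * a * r ≤ 1.44 * q - 4.608 * a * q := by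
      have h1 : 0 ≤ (1.44 - 4.608 * a) * (q - r) := mul_nonneg (by linarith) (by linarith)
      linarith
    have k7 : a * r ≤ 2 * a := by
      have := mul_le_mul_of_nonneg_left hr2 ha0.le
      linarith
    have k8 : t' * 1.035 ≤ t' * (((L : ℝ) + p + 3) - 3.2 * (r + 2 * a) + 1.44 * q - 4.608 * a * q -
        ((L : ℝ) + p + 2) + 1.83 * r) := by
      apply mul_le_mul_of_nonneg_left _ ht'.le
      linarith
    push_cast
    linarith
  · -- p = L
    subst h
    rw [KK_val p p le_rfl, KK_eq_far p (p + 1) (by omega), Fn_eq_tn (p + 2) (p + 1) (by omega),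
      Fn_eq_tn (p + 2) p (by omega), Fn_eq_tn (p + 1) (p + 1) (by omega)]
    rw [if_neg (show ¬ p + 1 ≤ p by omega), if_pos (show p ≤ p + 1 by omega)]
    have hK : (p : ℝ) * tn (p + 1) ≤ KK p (p + 1) := by
      unfold KK
      rw [Fn_eq_tn (p + 1) (p + 1) (by omega)]
      have : 0 ≤ ((min p (p + 1 + 1) : ℕ) : ℝ) * Fn p (p + 1) :=
        mul_nonneg (Nat.cast_nonneg _) (Fn_nonneg _ _)
      linarith
    obtain ⟨t, htd⟩ : ∃ t, t = tn p := ⟨_, rfl⟩
    obtain ⟨t', htd'⟩ : ∃ t, t = tn (p + 1) := ⟨_, rfl⟩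
    rw [← htd] at hsh ht hanti ⊢
    rw [← htd'] at hsh ht' hanti hK ⊢
    have k1 : 1.83 * t' ≤ 1.83 * a * KK p (p + 1) := by
      have h1 := mul_le_mul_of_nonneg_left hK ha0.le
      have h2 : a * ((p : ℝ) * t') = t' := by
        have : a * ((p : ℝ) * t') = (a * p) * t' := by ring
        rw [this, haL, one_mul]
      rw [h2] at h1
      linarith
    obtain ⟨s, hs⟩ : ∃ s : ℝ, s = t / ((p : ℝ) + 2) := ⟨_, rfl⟩
    rw [← hs] at hsh
    have hsp : s * ((p : ℝ) + 2) = t := by rw [hs]; field_simp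
    have hs0 : 0 < s := by rw [hs]; positivity
    have k2 : ((p : ℝ) + 1) * (1.44 * s) ≤ ((p : ℝ) + 1) * (t - t') :=
      mul_le_mul_of_nonneg_left hsh (by positivity)
    have k3 : ((p : ℝ) + 1) * (1.44 * s) = 1.44 * t - 1.44 * s := by rw [← hsp]; ring
    have k4 : a * (p * t) = t := by
      have : a * (p * t) = (a * p) * t := by ring
      rw [this, haL, one_mul]
    have k5 : a * t ≤ 0.000000001 * t := mul_le_mul_of_nonneg_right ha1 ht.le
    have k6 : s ≤ 0.000000001 * t := by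
      have h1 : s * 1000000000 ≤ s * ((p : ℝ) + 2) := mul_le_mul_of_nonneg_left (by linarith) hs0.le
      linarith
    rw [k3] at k2
    have htt : t - 2 * s ≤ t' := by
      have h1 := tn_succ_ge p
      rw [← htd, ← htd'] at h1
      have h2 : t * (1 - 2 / ((p : ℝ) + 2)) = t - 2 * s := by rw [hs]; ring
      rw [h2] at h1
      exact h1
    have k7 : (1 - 3.2 * a) * (((p : ℝ) + p + 2) * t) = ((p : ℝ) + p + 2) * t - 6.4 * (a * (p * t)) -
        6.4 * (a * t) := by ring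
    rw [k4] at k7
    linarith
  · -- p ≥ L + 1
    rw [if_pos (show L + 1 ≤ p by omega), if_pos (show L ≤ p + 1 by omega)]
    have hKK := KK_succ_le (L + 1) p
    have hKe := KK_eq_far L (p + 1) (by omega)
    have hF2 := Fn_anti (L + 2) p
    have hF1 := Fn_anti (L + 1) p
    have hK : KK L (p + 1) = (L : ℝ) * Fn (L + 1) (p + 1) + L * Fn L (p + 1) := by
      unfold KK
      have m1 : min L (p + 1 + 1) = L := by omega
      rw [m1]
    have d0 : Fn L (p + 1) = Fn (L + 1) (p + 1) - An L (p + 1) := by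
      unfold An
      ring
    have d1 : Fn (L + 2) (p + 1) = Fn (L + 1) (p + 1) + An (L + 1) (p + 1) := by
      unfold An
      ring
    have hf1 := Fn_nonneg (L + 1) (p + 1)
    have hf2 := Fn_nonneg (L + 2) (p + 1)
    rw [hK, d0]
    rw [hKe] at hKK ⊢
    rw [d1] at hF2 hKK ⊢
    obtain ⟨f, hf⟩ : ∃ f, f = Fn (L + 1) (p + 1) := ⟨_, rfl⟩
    obtain ⟨u, hu⟩ : ∃ f, f = An (L + 1) (p + 1) := ⟨_, rfl⟩
    obtain ⟨v, hv⟩ : ∃ f, f = An L (p + 1) := ⟨_, rfl⟩
    rw [← hf] at hF2 hF1 hKK hf1 ⊢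
    rw [← hu] at hF2 hKK hA1 hLA1 ⊢
    rw [← hv] at hA0 hLA0 ⊢
    have hθ : 0 ≤ 1 - 3.2 * a := by linarith
    have k1 := mul_le_mul_of_nonneg_left hKK hθ
    have k2 := mul_le_mul_of_nonneg_left hF2 hθ
    have k3 := mul_le_mul_of_nonneg_left hF1 hθ
    have k4 : (1 - 3.2 * a) * (((L : ℝ) + 1) * (f + u + f)) - ((L : ℝ) + 1) * (f + u + f) =
        -(3.2 + 3.2 * a) * (2 * f + u) := by
      have : (1 - 3.2 * a) * (((L : ℝ) + 1) * (f + u + f)) - ((L : ℝ) + 1) * (f + u + f) =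
        -(3.2 * (a * L) + 3.2 * a) * (2 * f + u) := by ring
      rw [this, haL]
      ring
    have k5 : 1.83 * a * ((L : ℝ) * f + L * (f - v)) = 1.83 * (2 * f - v) := by
      have : 1.83 * a * ((L : ℝ) * f + L * (f - v)) = 1.83 * (a * L) * (2 * f - v) := by ring
      rw [this, haL]
      ring
    rw [k5]
    have k6 : a * f ≤ 0.000000001 * f := mul_le_mul_of_nonneg_right ha1 hf1
    have k7 : a * u ≤ 0.000000001 * u := mul_le_mul_of_nonneg_right ha1 hA1
    have k8 : 10 * u ≤ L * u := mul_le_mul_of_nonneg_right (by linarith) hA1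
    have k9 : 10 * v ≤ L * v := mul_le_mul_of_nonneg_right (by linarith) hA0
    linarith

end Pool.Agent.MP_9da1e3_co
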