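import Pool.Agent.Lib.MP_9da1e3_co.Lf10

namespace Pool.Agent.MP_9da1e3_co

open Finset

lemma parts_near (g g' ψ : ℕ → ℝ) (θ : ℝ) (k : ℕ) (hg0 : g 0 = 0) (hψ0 : ψ 0 = 0)
    (hψ : ∀ x, 0 ≤ ψ x) (h : ∀ z, θ * g z ≤ g' z) :
    ∑ z ∈ range k, g z * (θ * ψ (k - 1 - z) - ψ (k - z)) ≤
      ∑ z ∈ range k, (g' z - g (z + 1)) * ψ (k - 1 - z) := by
  have h1 : ∑ z ∈ range k, g (z + 1) * ψ (k - 1 - z) = ∑ z ∈ range k, g z * ψ (k - z) := by
    have h2 : ∑ z ∈ range (k + 1), g z * ψ (k - z) = ∑ z ∈ range k, g z * ψ (k - z) := by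
      rw [Finset.sum_range_succ, Nat.sub_self, hψ0, mul_zero, add_zero]
    rw [Finset.sum_range_succ', hg0, zero_mul, add_zero] at h2
    rw [← h2]
    apply Finset.sum_congr rfl
    intro z _
    have q : k - 1 - z = k - (z + 1) := by omega
    rw [q]
  have h2 : ∑ z ∈ range k, (g' z - g (z + 1)) * ψ (k - 1 - z) =
      ∑ z ∈ range k, g' z * ψ (k - 1 - z) - ∑ z ∈ range k, g (z + 1) * ψ (k - 1 - z) := by
    rw [← Finset.sum_sub_distrib]
    apply Finset.sum_congr rfl
    intro z _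
    ring
  rw [h2, h1, ← Finset.sum_sub_distrib]
  apply Finset.sum_le_sum
  intro z _
  have h3 := mul_le_mul_of_nonneg_right (h z) (hψ (k - 1 - z))
  linarith

theorem near_case (L k I : ℕ) (hL : (10 : ℝ) ^ 1000 ≤ L) (h1 : (10 : ℝ) ^ 24 * I ≤ L)
    (h2 : (L : ℝ) ≤ 4 * 10 ^ 24 * I) (hk1 : L ≤ k) (hk2 : 10000 * (k + 1) ≤ 10001 * L)
    (hB : ∀ j, L + I ≤ j → j ≤ L + k → 0 ≤ Bn L j) : 0 ≤ Bn L (L + k + 1) := by
  have hL200 : (10 : ℝ) ^ 200 ≤ L := le_trans (pow_le_pow_right₀ (by norm_num) (by norm_num)) hL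
  have hL100 : (10 : ℝ) ^ 100 ≤ L := le_trans (pow_le_pow_right₀ (by norm_num) (by norm_num)) hL
  clear hL
  have hL0 : (0 : ℝ) < L := lt_of_lt_of_le (by positivity) hL100
  have hE := E_ge
  have hEp := E_pos
  have htL := tn_pos L
  have hL17 : 100000000000000000 ≤ L := by
    have : (100000000000000000 : ℝ) ≤ L := le_trans (by norm_num) hL100
    exact_mod_cast this
  have hIL : 100000000000 * I ≤ L := by
    have h3 : (100000000000 : ℝ) * I ≤ L := by
      have : (0 : ℝ) ≤ I := Nat.cast_nonneg I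
      norm_num at h1
      linarith
    exact_mod_cast h3
  obtain ⟨g, hg⟩ : ∃ g : ℕ → ℝ, g = gg L := ⟨_, rfl⟩
  obtain ⟨g', hg'⟩ : ∃ g : ℕ → ℝ, g = gg (L + 1) := ⟨_, rfl⟩
  obtain ⟨F1, hF1⟩ : ∃ F : ℕ → ℝ, F = Fn (L + 1) := ⟨_, rfl⟩
  obtain ⟨F2, hF2⟩ : ∃ F : ℕ → ℝ, F = Fn (L + 2) := ⟨_, rfl⟩
  obtain ⟨A0, hA0⟩ : ∃ F : ℕ → ℝ, F = An L := ⟨_, rfl⟩
  obtain ⟨A1, hA1⟩ : ∃ F : ℕ → ℝ, F = An (L + 1) := ⟨_, rfl⟩
  have hgn : ∀ y, 0 ≤ g y := fun y => by rw [hg]; exact An_nonneg _ _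
  have hF1n : ∀ k, 0 ≤ F1 k := fun k => by rw [hF1]; exact Fn_nonneg _ k
  have hF2n : ∀ k, 0 ≤ F2 k := fun k => by rw [hF2]; exact Fn_nonneg _ k
  have hA0n : ∀ k, 0 ≤ A0 k := fun k => by rw [hA0]; exact An_nonneg _ k
  have hA1n : ∀ k, 0 ≤ A1 k := fun k => by rw [hA1]; exact An_nonneg _ k
  have hgA : ∀ y, A0 (L + y) = g y := fun y => by rw [hA0, hg]; rfl
  have hgA' : ∀ y, A1 (L + 1 + y) = g' y := fun y => by rw [hA1, hg']; rfl
  obtain ⟨θ, hθ⟩ : ∃ θ : ℝ, θ = 1 - 3.2 / (L : ℝ) := ⟨_, rfl⟩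
  have h32 : 3.2 / (L : ℝ) ≤ 0.0001 := by
    rw [div_le_iff₀ hL0]
    have : (100000000000000000 : ℝ) ≤ L := by exact_mod_cast hL17
    linarith
  have hθ0 : 0.9999 ≤ θ := by
    rw [hθ]
    norm_num at h32 ⊢
    linarith
  have hθ1 : θ ≤ 1 := by
    rw [hθ]
    have : 0 ≤ 3.2 / (L : ℝ) := by positivity
    linarith
  have hgg : ∀ y, θ * g y ≤ g' y := by
    intro y
    have h3 := A_shift L hL100 (L + y)
    rw [← hgA, ← hgA', hA0, hA1, hθ]
    have q : L + 1 + y = L + y + 1 := by omega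
    rw [q]
    exact h3
  have hg'n : ∀ y, 0 ≤ g' y := fun y => le_trans (mul_nonneg (by linarith) (hgn y)) (hgg y)
  have hg0 : g 0 = 0 := by
    rw [← hgA, hA0]
    exact An_zero L (L + 0) (by omega)
  obtain ⟨ψ, hψ⟩ : ∃ ψ : ℕ → ℝ, ψ = psi L := ⟨_, rfl⟩
  have hψn : ∀ x, 0 ≤ ψ x := fun x => by rw [hψ]; exact psi_nonneg L x
  have hψs : ∀ x, x ≤ L / 10000 → ψ x = 0 := fun x hx => by rw [hψ]; exact psi_small L x hL100 hx
  have hparts := parts_near g g' ψ θ k hg0 (hψs 0 (by omega)) hψn hgg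
  -- T1
  have hT1 : ∑ z ∈ range k, (g' z - g (z + 1)) * ψ (k - 1 - z) ≤
      ∑ j ∈ range (L + k + 1), Bn L j * KK (L + 1) (L + k - j) := by
    have hr : L + k + 1 = L + 1 + k := by omega
    rw [hr, Finset.sum_range_add]
    have h3 : ∑ x ∈ range (L + 1), Bn L x * KK (L + 1) (L + k - x) = 0 := by
      apply Finset.sum_eq_zero
      intro x hx
      rw [Bn_zero L x (by have := mem_range.mp hx; omega), zero_mul]
    rw [h3, zero_add]
    apply Finset.sum_le_sum
    intro z hz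
    have hz' := mem_range.mp hz
    have e1 : g' z - g (z + 1) = Bn L (L + 1 + z) := by
      unfold Bn
      rw [← hgA', ← hgA, hA0, hA1]
      have q : L + (z + 1) = L + 1 + z := by omega
      rw [q]
    rw [e1]
    have q : L + k - (L + 1 + z) = k - 1 - z := by omega
    rw [q]
    rcases Nat.lt_or_ge (z + 1) I with h | h
    · have h4 : ψ (k - 1 - z) = KK (L + 1) (k - 1 - z) := by
        rw [hψ]
        unfold psi
        rw [if_pos (by omega)]
      rw [h4]
    · apply mul_le_mul_of_nonneg_left _ (hB _ (by omega) (by omega))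
      rw [hψ]
      exact psi_le L (k - 1 - z) (by omega)
  -- T2
  have hN : ∀ y, L + k - (L + y) = k - y := fun y => by omega
  have hT2a : ∑ y ∈ range k, g y * F2 (k - y) + g k ≤
      ∑ j ∈ range (L + k + 1), A0 j * F2 (L + k - j) := by
    have h3 := block1 (fun j => A0 j * F2 (L + k - j)) (fun j => mul_nonneg (hA0n _) (hF2n _))
      (L + k + 1) L (k + 1) (by omega)
    rw [Finset.sum_range_succ] at h3
    refine le_trans (le_of_eq ?_) h3
    congr 1
    · apply Finset.sum_congr rfl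
      intro y hy
      rw [hN y, hgA]
    · rw [Nat.sub_self, hgA, hF2, Fn_zero, mul_one]
  have hT2c : ∑ y ∈ range k, g y * (if L ≤ k - y then F1 (k - y) else 0) ≤
      ∑ j ∈ range (L + k + 1), A0 j * (if L ≤ L + k - j then F1 (L + k - j) else 0) := by
    have h3 := block1 (fun j => A0 j * (if L ≤ L + k - j then F1 (L + k - j) else 0))
      (fun j => mul_nonneg (hA0n _) (by split_ifs; exacts [hF1n _, le_rfl]))
      (L + k + 1) L k (by omega)
    refine le_trans (le_of_eq ?_) h3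
    apply Finset.sum_congr rfl
    intro y hy
    rw [hN y, hgA]
  have hT2b : ∑ y ∈ range k, (L : ℝ) * (g y * A1 (k - y)) ≤
      ∑ j ∈ range (L + k + 1), (L : ℝ) * (A0 j * A1 (L + k - j)) := by
    have h3 := block1 (fun j => (L : ℝ) * (A0 j * A1 (L + k - j)))
      (fun j => mul_nonneg hL0.le (mul_nonneg (hA0n _) (hA1n _))) (L + k + 1) L k (by omega)
    refine le_trans (le_of_eq ?_) h3
    apply Finset.sum_congr rfl
    intro y hy
    rw [hN y, hgA]
  have hT2d : ∑ y ∈ range k, (L : ℝ) * (g y * A0 (k - y)) ≤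
      ∑ j ∈ range (L + k + 1), (L : ℝ) * (A0 j * A0 (L + k - j)) := by
    have h3 := block1 (fun j => (L : ℝ) * (A0 j * A0 (L + k - j)))
      (fun j => mul_nonneg hL0.le (mul_nonneg (hA0n _) (hA0n _))) (L + k + 1) L k (by omega)
    refine le_trans (le_of_eq ?_) h3
    apply Finset.sum_congr rfl
    intro y hy
    rw [hN y, hgA]
  have hT3 : ∑ y ∈ range k, g' y * F2 (k - 1 - y) ≤
      ∑ j ∈ range (L + k + 1), A1 j * F2 (L + k - j) := by
    have h3 := block1 (fun j => A1 j * F2 (L + k - j)) (fun j => mul_nonneg (hA1n _) (hF2n _))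
      (L + k + 1) (L + 1) k (by omega)
    refine le_trans (le_of_eq ?_) h3
    apply Finset.sum_congr rfl
    intro y hy
    have q : L + k - (L + 1 + y) = k - 1 - y := by omega
    rw [q, hgA']
  have hT4 : ∑ y ∈ range k, (if L + 1 ≤ k - 1 - y then F1 (k - 1 - y) * g' y else 0) ≤
      ∑ j ∈ range (L + k + 1), (if L + 1 ≤ j then F1 j * A1 (L + k - j) else 0) := by
    have h3 := blockr (fun j => if L + 1 ≤ j then F1 j * A1 (L + k - j) else 0)
      (fun j => by split_ifs; exacts [mul_nonneg (hF1n _) (hA1n _), le_rfl])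
      (L + k + 1) (k - 1) k (by omega) (by omega)
    refine le_trans (le_of_eq ?_) h3
    apply Finset.sum_congr rfl
    intro y hy
    have hy' := mem_range.mp hy
    have q : L + k - (k - 1 - y) = L + 1 + y := by omega
    rw [q, hgA']
  -- the lower bounds
  obtain ⟨V2, hV2⟩ : ∃ V : ℕ → ℝ, V = fun y => if L / 10000 < k - y then 0 else
    g y * (tn (k - y) + θ * tn (k - 1 - y)) := ⟨_, rfl⟩
  have hV2n : ∀ y, 0 ≤ V2 y := by
    intro y
    rw [hV2]
    dsimp only
    split_ifs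
    · exact le_rfl
    · apply mul_nonneg (hgn y)
      have a1 := tn_pos (k - y)
      have a2 := tn_pos (k - 1 - y)
      have a3 : 0 ≤ θ * tn (k - 1 - y) := mul_nonneg (by linarith) a2.le
      linarith
  obtain ⟨V, hV⟩ : ∃ V : ℕ → ℝ, V = fun y => if y < k - L / 10 then
    g y * (1.035 * F1 (k - y) - 1.83 / (L : ℝ) * KK L (k - y)) else V2 y := ⟨_, rfl⟩
  have hpt : ∀ y ∈ range k, V y ≤ g y * (θ * ψ (k - 1 - y) - ψ (k - y)) + g y * F2 (k - y) +
      (L : ℝ) * (g y * A1 (k - y)) + g y * (if L ≤ k - y then F1 (k - y) else 0) +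
      (L : ℝ) * (g y * A0 (k - y)) + g' y * F2 (k - 1 - y) +
      (if L + 1 ≤ k - 1 - y then F1 (k - 1 - y) * g' y else 0) := by
    intro y hy
    have hy' := mem_range.mp hy
    obtain ⟨p, hp⟩ : ∃ p, p = k - 1 - y := ⟨_, rfl⟩
    have hp1 : k - y = p + 1 := by omega
    have hF2g : θ * F2 p * g y ≤ g' y * F2 p := by
      have h3 := mul_le_mul_of_nonneg_right (hgg y) (hF2n p)
      linarith
    have hF1g : g y * (if L + 1 ≤ p then θ * F1 p else 0) ≤ (if L + 1 ≤ p then F1 p * g' y else 0) := by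
      split_ifs
      · have h3 := mul_le_mul_of_nonneg_right (hgg y) (hF1n p)
        linarith
      · rw [mul_zero]
    rw [hV]
    dsimp only
    rw [← hp, hp1]
    by_cases hc : y < k - L / 10
    · rw [if_pos hc]
      have hpl : L / 10 ≤ p := by omega
      have h3 := near_far L p hL100 hpl
      rw [← hθ, ← hF1, ← hF2, ← hA0, ← hA1] at h3
      have e1 : ψ p = KK (L + 1) p := by
        rw [hψ]
        unfold psi
        rw [if_pos hpl]
      have e2 : ψ (p + 1) = KK (L + 1) (p + 1) := by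
        rw [hψ]
        unfold psi
        rw [if_pos (by omega)]
      rw [e1, e2]
      have h4 := mul_le_mul_of_nonneg_left h3 (hgn y)
      linarith
    · rw [if_neg hc]
      have hps : p + 1 ≤ L / 10 := by omega
      have e1 : F2 (p + 1) = tn (p + 1) := by rw [hF2]; exact Fn_eq_tn _ _ (by omega)
      have e2 : F2 p = tn p := by rw [hF2]; exact Fn_eq_tn _ _ (by omega)
      have htp := tn_pos p
      have htp1 := tn_pos (p + 1)
      have htt := tn_anti p
      have i1 : 0 ≤ (L : ℝ) * (g y * A1 (p + 1)) := mul_nonneg hL0.le (mul_nonneg (hgn _) (hA1n _))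
      have i2 : 0 ≤ g y * (if L ≤ p + 1 then F1 (p + 1) else 0) :=
        mul_nonneg (hgn _) (by split_ifs; exacts [hF1n _, le_rfl])
      have i3 : 0 ≤ (L : ℝ) * (g y * A0 (p + 1)) := mul_nonneg hL0.le (mul_nonneg (hgn _) (hA0n _))
      have i4 : 0 ≤ (if L + 1 ≤ p then F1 p * g' y else 0) := by
        split_ifs
        · exact mul_nonneg (hF1n _) (hg'n _)
        · exact le_rfl
      have hmain : V2 y ≤ g y * (θ * ψ p - ψ (p + 1)) + g y * tn (p + 1) + θ * tn p * g y := by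
        rw [hV2]
        dsimp only
        rw [← hp, hp1]
        split_ifs with hcc
        · have h3 := psi_step L p (by omega) hps
          rw [← hθ, ← hψ] at h3
          have h4 : 0 ≤ g y * (θ * ψ p - ψ (p + 1) + tn (p + 1) + θ * tn p) := by
            apply mul_nonneg (hgn y)
            have h5 : 0.9999 * tn p ≤ θ * tn p := mul_le_mul_of_nonneg_right hθ0 htp.le
            norm_num at h5 h3 ⊢
            linarith
          linarith
        · rw [hψs p (by omega), hψs (p + 1) (by omega)]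
          apply le_of_eq
          ring
      rw [e1]
      rw [e2] at hF2g ⊢
      linarith
  have hsum := Finset.sum_le_sum hpt
  simp only [Finset.sum_add_distrib] at hsum
  -- the recursion
  have hrec := B_rec L (L + k) (by omega)
  have hsplit : ∑ j ∈ range (L + k + 1), An L j * (Fn (L + 2) (L + k - j) +
      (L : ℝ) * An (L + 1) (L + k - j) + (if L ≤ L + k - j then Fn (L + 1) (L + k - j) else 0) +
      (L : ℝ) * An L (L + k - j)) =
      ∑ j ∈ range (L + k + 1), A0 j * F2 (L + k - j) +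
      ∑ j ∈ range (L + k + 1), (L : ℝ) * (A0 j * A1 (L + k - j)) +
      ∑ j ∈ range (L + k + 1), A0 j * (if L ≤ L + k - j then F1 (L + k - j) else 0) +
      ∑ j ∈ range (L + k + 1), (L : ℝ) * (A0 j * A0 (L + k - j)) := by
    rw [← Finset.sum_add_distrib, ← Finset.sum_add_distrib, ← Finset.sum_add_distrib]
    apply Finset.sum_congr rfl
    intro j _
    rw [hA0, hA1, hF1, hF2]
    ring
  rw [hsplit] at hrec
  have q0 : L + k - L = k := by omega
  rw [q0, ← hA1, ← hF1, ← hF2] at hrec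
  -- the sum of V
  obtain ⟨Q, hQ⟩ : ∃ Q : ℝ, Q = ∑ y ∈ range (k - L / 10), gg L y * KK L (k - y) := ⟨_, rfl⟩
  have hQ0 : 0 ≤ Q := by
    rw [hQ]
    exact Finset.sum_nonneg fun y _ => mul_nonneg (gg_nonneg L y) (KK_nonneg L _)
  have hk0 : (0 : ℝ) < (k : ℝ) + 1 := by positivity
  obtain ⟨γ, hγ⟩ : ∃ γ : ℝ, γ = 0.92 * Q / (E * ((k : ℝ) + 1)) := ⟨_, rfl⟩
  have hγ0 : 0 ≤ γ := by rw [hγ]; positivity
  have hγQ : γ * (E * ((k : ℝ) + 1)) = 0.92 * Q := by
    rw [hγ]
    field_simp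
  have hlow := A_low2 L k I hL200 h1 h2 hk1 hk2 γ (by rw [hγQ, hQ])
  rw [← hg] at hlow
  have hVsum : 1.035 * ∑ y ∈ range (k - L / 10), g y * F1 (k - y) - 1.83 / (L : ℝ) * Q +
      γ * (∑ q ∈ range (L / 10000), (tn (q + 1) + θ * tn q)) ≤ ∑ y ∈ range k, V y := by
    obtain ⟨Y, hY⟩ : ∃ Y, Y = k - L / 10 := ⟨_, rfl⟩
    have hkY : k = Y + L / 10 := by omega
    rw [← hY] at hQ ⊢
    have hs1 : ∑ y ∈ range k, V y = ∑ y ∈ range Y, V y + ∑ i ∈ range (L / 10), V (Y + i) := by
      rw [hkY, Finset.sum_range_add]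
    rw [hs1]
    have hs2 : ∑ y ∈ range Y, V y = 1.035 * ∑ y ∈ range Y, g y * F1 (k - y) - 1.83 / (L : ℝ) * Q := by
      rw [hQ, Finset.mul_sum, Finset.mul_sum, ← Finset.sum_sub_distrib]
      apply Finset.sum_congr rfl
      intro y hy
      have hy' := mem_range.mp hy
      rw [hV]
      dsimp only
      rw [if_pos (by omega), hg]
      ring
    have hs3 : ∑ i ∈ range (L / 10), V (Y + i) = ∑ i ∈ range (L / 10), V2 (Y + i) := by
      apply Finset.sum_congr rfl
      intro i _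
      rw [hV]
      dsimp only
      rw [if_neg (by omega)]
    have hs4 := blockr (fun i => V2 (Y + i)) (fun i => hV2n _) (L / 10) (L / 10 - 1) (L / 10000)
      (by omega) (by omega)
    have hs5 : γ * (∑ q ∈ range (L / 10000), (tn (q + 1) + θ * tn q)) ≤
        ∑ q ∈ range (L / 10000), V2 (Y + (L / 10 - 1 - q)) := by
      rw [Finset.mul_sum]
      apply Finset.sum_le_sum
      intro q hq
      have hq' := mem_range.mp hq
      have e1 : Y + (L / 10 - 1 - q) = k - 1 - q := by omega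
      rw [e1, hV2]
      dsimp only
      have e2 : k - (k - 1 - q) = q + 1 := by omega
      have e3 : k - 1 - (k - 1 - q) = q := by omega
      rw [e2, e3, if_neg (by omega)]
      apply mul_le_mul_of_nonneg_right (hlow (k - 1 - q) (by omega) (by omega))
      have a1 := tn_pos (q + 1)
      have a2 : 0 ≤ θ * tn q := mul_nonneg (by linarith) (tn_pos q).le
      linarith
    rw [hs2, hs3]
    linarith
  have hgk : γ ≤ g k := hlow k (by omega) (by omega)
  -- gamma terms
  have hgam : 1.83 / (L : ℝ) * Q ≤ γ * (∑ q ∈ range (L / 10000), (tn (q + 1) + θ * tn q)) + γ := by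
    obtain ⟨T, hT⟩ : ∃ T : ℝ, T = ∑ q ∈ range (L / 10000), tn q := ⟨_, rfl⟩
    have hs : ∑ q ∈ range (L / 10000), (tn (q + 1) + θ * tn q) =
        ∑ q ∈ range (L / 10000), tn (q + 1) + θ * T := by
      rw [Finset.sum_add_distrib, hT, Finset.mul_sum]
    have hs1 : T ≤ ∑ q ∈ range (L / 10000), tn (q + 1) + 1 := by
      have h3 : ∑ q ∈ range (L / 10000 + 1), tn q = ∑ q ∈ range (L / 10000), tn (q + 1) + 1 := by
        rw [Finset.sum_range_succ', tn_zero]
      rw [← h3, hT, Finset.sum_range_succ]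
      have := tn_pos (L / 10000)
      linarith
    have hs2 := sum_tn_low (L / 10000) (by omega)
    rw [← hT] at hs2
    have hs3 : 8 / √((L / 10000 : ℕ) : ℝ) ≤ 0.001 := by
      have h9 : (10 : ℝ) ^ 4 ≤ √((L / 10000 : ℕ) : ℝ) := by
        apply Real.le_sqrt_of_sq_le
        have h10 : 1000000000 ≤ L / 10000 := by omega
        have h11 : (1000000000 : ℝ) ≤ ((L / 10000 : ℕ) : ℝ) := by exact_mod_cast h10
        norm_num at h11 ⊢
        linarith
      rw [div_le_iff₀ (lt_of_lt_of_le (by positivity) h9)]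
      norm_num at h9 ⊢
      linarith
    have hTE : 0.9996 * E ≤ T := by
      norm_num at hs3 hE ⊢
      linarith
    rw [hs]
    have h3 : 1.9999 * T ≤ ∑ q ∈ range (L / 10000), tn (q + 1) + θ * T + 1 := by
      have hT0 : 0 ≤ T := by linarith
      have := mul_le_mul_of_nonneg_right hθ0 hT0
      norm_num at this ⊢
      linarith
    have h4 : 1.999 * E ≤ 1.9999 * T := by
      norm_num at hTE ⊢
      linarith
    have h5 := mul_le_mul_of_nonneg_left (h4.trans h3) hγ0
    have h6 : 1.83 / (L : ℝ) * Q ≤ γ * (1.999 * E) := by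
      have hk3 : (k : ℝ) + 1 ≤ 1.0001 * L := by
        have : (10000 : ℝ) * ((k : ℝ) + 1) ≤ 10001 * L := by exact_mod_cast hk2
        linarith
      have h7 : 0.92 * Q ≤ γ * E * (1.0001 * L) := by
        rw [← hγQ]
        have h8 : 0 ≤ γ * E := mul_nonneg hγ0 hEp.le
        have h9 := mul_le_mul_of_nonneg_left hk3 h8
        linarith
      have h8 : 1.83 / (L : ℝ) * Q = 1.83 * Q / L := by ring
      rw [h8, div_le_iff₀ hL0]
      norm_num at h7 ⊢
      linarith
    linarith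
  -- the negative term
  have hneg : tn L * F1 k ≤ 1.035 * ∑ y ∈ range (k - L / 10), g y * F1 (k - y) := by
    have h3 := sum_gg_sharp L I hL200 h1 h2
    rw [← hg] at h3
    have h4 : F1 k * ∑ y ∈ range I, g y ≤ ∑ y ∈ range (k - L / 10), g y * F1 (k - y) := by
      have h5 := block1 (fun y => g y * F1 (k - y)) (fun y => mul_nonneg (hgn _) (hF1n _))
        (k - L / 10) 0 I (by omega)
      refine le_trans ?_ h5
      rw [Finset.mul_sum]
      apply Finset.sum_le_sum
      intro y _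
      rw [Nat.zero_add]
      have h6 : F1 k ≤ F1 (k - y) := by rw [hF1]; exact Fn_le_of_le _ (by omega)
      have h7 := mul_le_mul_of_nonneg_left h6 (hgn y)
      linarith
    have h5 := mul_le_mul_of_nonneg_left h3 (hF1n k)
    have h6 : 0 ≤ F1 k * tn L := mul_nonneg (hF1n k) (tn_pos L).le
    norm_num at h5 ⊢
    linarith
  have hfin : 0 ≤ E * ((((L + k : ℕ) : ℝ) + 1) * Bn L (L + k + 1)) := by
    rw [hrec]
    linarith
  have hpos : (0 : ℝ) < ((L + k : ℕ) : ℝ) + 1 := by positivity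
  have h10 : 0 ≤ (((L + k : ℕ) : ℝ) + 1) * Bn L (L + k + 1) :=
    nonneg_of_mul_nonneg_right hfin hEp
  exact nonneg_of_mul_nonneg_right h10 hpos

end Pool.Agent.MP_9da1e3_co
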