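import Pool.Agent.Lib.MP_9da1e3_co.Wn9

namespace Pool.Agent.MP_9da1e3_co

open Finset

/-- some place `1 ≤ y' ≤ y` has `bb L y' ≥ 0` -/
def Qp (L y : ℕ) : Prop := ∃ y', 1 ≤ y' ∧ y' ≤ y ∧ 0 ≤ bb L y'

lemma bb_out (L y : ℕ) (hL : (10 : ℝ) ^ 1000 ≤ L) (hy : 1 ≤ y) (hyL : y ≤ L) (hb : bb L y < 0) :
    (y : ℝ) * √(y : ℝ) < 60000000000000000000000000000000000 * (L : ℝ) := by
  by_contra hcon
  push Not at hcon
  obtain ⟨m, rfl⟩ : ∃ m, y = m + 1 := ⟨y - 1, by omega⟩
  have e : ((m + 1 : ℕ) : ℝ) = (m : ℝ) + 1 := by push_cast; ring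
  rw [e] at hcon
  have hL2 : (10 : ℝ) ^ 200 ≤ L := le_trans (pow_le_pow_right₀ (by norm_num) (by norm_num)) hL
  have := bb_nonneg3 L hL2 m hyL hcon
  linarith

theorem Qp_nonneg (L y : ℕ) (hL : (10 : ℝ) ^ 1000 ≤ L) (hyL : y ≤ L) (h : Qp L y) : 0 ≤ bb L y := by
  classical
  by_contra hcon
  push Not at hcon
  have hex : ∃ y', 1 ≤ y' ∧ 0 ≤ bb L y' := by
    obtain ⟨y', h1, _, h2⟩ := h
    exact ⟨y', h1, h2⟩
  obtain ⟨y1, hy1⟩ : ∃ y1, y1 = Nat.find hex := ⟨_, rfl⟩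
  have hs := Nat.find_spec hex
  have hmin : ∀ r, r < y1 → ¬ (1 ≤ r ∧ 0 ≤ bb L r) := fun r hr =>
    Nat.find_min hex (by rw [← hy1]; exact hr)
  rw [← hy1] at hs
  obtain ⟨hs1, hs2⟩ := hs
  have hy1y : y1 ≤ y := by
    obtain ⟨y', h1, h2, h3⟩ := h
    rw [hy1]
    exact le_trans (Nat.find_min' hex ⟨h1, h3⟩) h2
  have hex2 : ∃ z, y1 < z ∧ bb L z < 0 := by
    refine ⟨y, ?_, hcon⟩
    rcases Nat.lt_or_ge y1 y with h4 | h4
    · exact h4
    · have : y = y1 := by omega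
      rw [this] at hcon
      linarith
  obtain ⟨y2, hy2⟩ : ∃ y2, y2 = Nat.find hex2 := ⟨_, rfl⟩
  have ht := Nat.find_spec hex2
  have hmin2 : ∀ r, r < y2 → ¬ (y1 < r ∧ bb L r < 0) := fun r hr =>
    Nat.find_min hex2 (by rw [← hy2]; exact hr)
  rw [← hy2] at ht
  obtain ⟨ht1, ht2⟩ := ht
  have hy2y : y2 ≤ y := by
    rw [hy2]
    refine Nat.find_min' hex2 ⟨?_, hcon⟩
    rcases Nat.lt_or_ge y1 y with h4 | h4
    · exact h4
    · have : y = y1 := by omega
      rw [this] at hcon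
      linarith
  obtain ⟨m, rfl⟩ : ∃ m, y1 = m + 1 := ⟨y1 - 1, by omega⟩
  obtain ⟨d, rfl⟩ : ∃ d, y2 = m + 1 + d := ⟨y2 - (m + 1), by omega⟩
  have hd : 1 ≤ d := by omega
  have hL0 : (0 : ℝ) < L := lt_of_lt_of_le (by positivity) hL
  have hout := bb_out L (m + 1 + d) hL (by omega) (by omega) ht2
  have e : ((m + 1 + d : ℕ) : ℝ) = (m : ℝ) + d + 1 := by push_cast; ring
  rw [e] at hout
  refine no_return L m d hL hd ?_ ?_ ?_ ht2
  · refine hout.le.trans ?_
    apply mul_le_mul_of_nonneg_right _ hL0.le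
    norm_num
  · intro r hr
    rcases Nat.eq_zero_or_pos r with rfl | hr0
    · rw [bb_zero]
    · have h4 := hmin r hr
      by_contra h5
      push Not at h5
      exact h4 ⟨hr0, h5.le⟩
  · intro r hr1 hr2
    rcases Nat.lt_or_ge (m + 1) r with h4 | h4
    · by_contra h5
      push Not at h5
      exact hmin2 r hr2 ⟨h4, h5⟩
    · have : r = m + 1 := by omega
      rw [this]
      exact hs2

theorem Qp_step (L y : ℕ) (hL : (10 : ℝ) ^ 1000 ≤ L) (hyL : y ≤ L + 1) (h : Qp (L + 1) y) :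
    Qp L (y + 1) := by
  classical
  have hex : ∃ y', 1 ≤ y' ∧ 0 ≤ bb (L + 1) y' := by
    obtain ⟨y', h1, _, h2⟩ := h
    exact ⟨y', h1, h2⟩
  obtain ⟨y1, hy1⟩ : ∃ y1, y1 = Nat.find hex := ⟨_, rfl⟩
  have hs := Nat.find_spec hex
  have hmin : ∀ r, r < y1 → ¬ (1 ≤ r ∧ 0 ≤ bb (L + 1) r) := fun r hr =>
    Nat.find_min hex (by rw [← hy1]; exact hr)
  rw [← hy1] at hs
  obtain ⟨hs1, hs2⟩ := hs
  have hy1y : y1 ≤ y := by
    obtain ⟨y', h1, h2, h3⟩ := h
    rw [hy1]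
    exact le_trans (Nat.find_min' hex ⟨h1, h3⟩) h2
  have hL0 : (0 : ℝ) < L := lt_of_lt_of_le (by positivity) hL
  have hLbig : (10 : ℝ) ^ 50 ≤ L := le_trans (pow_le_pow_right₀ (by norm_num) (by norm_num)) hL
  have hL1 : (10 : ℝ) ^ 1000 ≤ ((L + 1 : ℕ) : ℝ) := by
    refine hL.trans ?_
    exact_mod_cast Nat.le_succ L
  have hw : ((y1 : ℝ) + 1) * √((y1 : ℝ) + 1) ≤ 10 ^ 35 * L := by
    rcases Nat.lt_or_ge y1 20 with h4 | h4
    · have h5 : (y1 : ℝ) + 1 ≤ 25 := by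
        have : (y1 : ℝ) ≤ 20 := by exact_mod_cast h4.le
        linarith
      have h6 := mul_sqrt_mono (show (0 : ℝ) ≤ (y1 : ℝ) + 1 by positivity) h5
      have h7 : √(25 : ℝ) ≤ 5 := Real.sqrt_le_iff.mpr ⟨by norm_num, by norm_num⟩
      have h8 : (25 : ℝ) * √25 ≤ 10 ^ 35 * L := by
        have h9 : (1 : ℝ) ≤ L := le_trans (one_le_pow₀ (by norm_num)) hLbig
        clear hL hL1 hLbig
        have h10 : (10 : ℝ) ^ 35 * 1 ≤ 10 ^ 35 * L := mul_le_mul_of_nonneg_left h9 (by positivity)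
        have h11 : (125 : ℝ) ≤ 10 ^ 35 * 1 := by norm_num
        linarith
      exact h6.trans h8
    · obtain ⟨z, rfl⟩ : ∃ z, y1 = z + 1 := ⟨y1 - 1, by omega⟩
      have hz : 19 ≤ z := by omega
      have hbz : bb (L + 1) z < 0 := by
        by_contra h5
        push Not at h5
        exact hmin z (by omega) ⟨by omega, h5⟩
      have hout := bb_out (L + 1) z hL1 (by omega) (by omega) hbz
      have hzr : (19 : ℝ) ≤ z := by exact_mod_cast hz
      have hz0 : (0 : ℝ) < z := by linarith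
      have hsz : 0 < √(z : ℝ) := Real.sqrt_pos.mpr hz0
      have e1 : ((z + 1 : ℕ) : ℝ) + 1 ≤ 1.21 * z := by push_cast; linarith
      have h5 := mul_sqrt_mono (show (0 : ℝ) ≤ ((z + 1 : ℕ) : ℝ) + 1 by positivity) e1
      have h6 : √(1.21 * (z : ℝ)) ≤ 1.1 * √(z : ℝ) := by
        apply Real.sqrt_le_iff.mpr
        constructor
        · positivity
        · have : (1.1 * √(z : ℝ)) ^ 2 = 1.21 * (√(z : ℝ) * √(z : ℝ)) := by ring
          rw [this, Real.mul_self_sqrt hz0.le]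
      have h7 : 1.21 * (z : ℝ) * √(1.21 * (z : ℝ)) ≤ 1.21 * z * (1.1 * √(z : ℝ)) :=
        mul_le_mul_of_nonneg_left h6 (by positivity)
      have h8 : 1.21 * (z : ℝ) * (1.1 * √(z : ℝ)) = 1.331 * (z * √(z : ℝ)) := by ring
      rw [h8] at h7
      refine (h5.trans h7).trans ?_
      push_cast at hout
      have h9 : (10 : ℝ) ≤ L := le_trans (by norm_num) hLbig
      have h10 : (10 : ℝ) ^ 35 * L = 100000000000000000000000000000000000 * L := by norm_num
      rw [h10]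
      clear hL hL1 hLbig
      linarith
  have hc := c3_neg L hL y1 hs1 hw (by
    intro i hi
    rcases Nat.eq_zero_or_pos i with rfl | hi0
    · rw [bb_zero]
    · by_contra h5
      push Not at h5
      exact hmin i hi ⟨hi0, h5.le⟩)
  rw [c3_succ] at hc
  exact ⟨y1 + 1, by omega, by omega, by linarith⟩

/-- translation to the numbers `a n l` -/
lemma a_le_of_bb (n l : ℕ) (hl : l < n) (h : 0 ≤ bb l (n - l)) : a n l ≤ a n (l + 1) := by
  obtain ⟨m, hm⟩ : ∃ m, n = l + (m + 1) := ⟨n - l - 1, by omega⟩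
  have q : n - l = m + 1 := by omega
  rw [q, bb_succ] at h
  have h3 : An l n ≤ An (l + 1) n := by
    have e1 : gg (l + 1) m = An (l + 1) n := by
      unfold gg
      rw [hm]
      congr 1
      ring
    have e2 : gg l (m + 1) = An l n := by
      unfold gg
      rw [hm]
    rw [e1, e2] at h
    linarith
  have h4 : RR n l ≤ RR n (l + 1) := by
    unfold RR
    exact div_le_div_of_nonneg_right h3 (tn_pos n).le
  have h5 : (a n l : ℝ) ≤ a n (l + 1) := by
    rw [a_eq n l (by omega), a_eq n (l + 1) (by omega)]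
    exact mul_le_mul_of_nonneg_right h4 (by positivity)
  exact_mod_cast h5

lemma a_lt_of_bb (n l : ℕ) (hl : l < n) (h : bb l (n - l) < 0) : a n (l + 1) < a n l := by
  obtain ⟨m, hm⟩ : ∃ m, n = l + (m + 1) := ⟨n - l - 1, by omega⟩
  have q : n - l = m + 1 := by omega
  rw [q, bb_succ] at h
  have h3 : An (l + 1) n < An l n := by
    have e1 : gg (l + 1) m = An (l + 1) n := by
      unfold gg
      rw [hm]
      congr 1
      ring
    have e2 : gg l (m + 1) = An l n := by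
      unfold gg
      rw [hm]
    rw [e1, e2] at h
    linarith
  have h4 : RR n (l + 1) < RR n l := by
    unfold RR
    exact div_lt_div_of_pos_right h3 (tn_pos n)
  have h5 : (a n (l + 1) : ℝ) < a n l := by
    rw [a_eq n l (by omega), a_eq n (l + 1) (by omega)]
    exact mul_lt_mul_of_pos_right h4 (by positivity)
  exact_mod_cast h5

/-- unimodality on the upper half -/
theorem upper_half (n : ℕ) (hn : 2 * (10 : ℝ) ^ 1000 ≤ n) : ∃ m : ℕ, n ≤ 2 * m ∧ m < n ∧
    (∀ l, n ≤ 2 * l → l < m → a n l ≤ a n (l + 1)) ∧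
    (∀ l, m ≤ l → l < n → a n (l + 1) < a n l) := by
  classical
  have hbig : ∀ l : ℕ, n ≤ 2 * l → (10 : ℝ) ^ 1000 ≤ l := by
    intro l hl
    have h1 : (n : ℝ) ≤ 2 * l := by exact_mod_cast hl
    exact le_of_mul_le_mul_left (hn.trans h1) (by norm_num)
  have hn1 : 13 ≤ n := by
    have h1 : (13 : ℝ) ≤ 2 * 10 ^ 2 := by norm_num
    have h2 : (10 : ℝ) ^ 2 ≤ 10 ^ 1000 := pow_le_pow_right₀ (by norm_num) (by norm_num)
    have h3 : 2 * (10 : ℝ) ^ 2 ≤ 2 * 10 ^ 1000 := mul_le_mul_of_nonneg_left h2 (by norm_num)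
    have h4 : ((13 : ℕ) : ℝ) ≤ n := by
      push_cast
      exact h1.trans (h3.trans hn)
    exact_mod_cast h4
  -- the last place is a decrease
  have hlast : ¬ Qp (n - 1) (n - (n - 1)) := by
    rintro ⟨y', h1, h2, h3⟩
    have hy' : y' = 1 := by omega
    rw [hy'] at h3
    have hL := hbig (n - 1) (by omega)
    have hL12 : 10000000000000 ≤ n - 1 := by
      have h4 : (10 : ℝ) ^ 13 ≤ 10 ^ 1000 := pow_le_pow_right₀ (by norm_num) (by norm_num)
      have h5 : ((10000000000000 : ℕ) : ℝ) ≤ ((n - 1 : ℕ) : ℝ) := by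
        push_cast
        refine le_trans ?_ (h4.trans hL)
        norm_num
      exact_mod_cast h5
    have h4 := S_ge (n - 1) 1 (by omega) le_rfl (by omega) (by
      have h5 : (10000000000000 : ℝ) ≤ ((n - 1 : ℕ) : ℝ) := by exact_mod_cast hL12
      refine le_trans ?_ h5
      rw [Nat.cast_one, Real.sqrt_one]
      norm_num)
    have h5 : 0 < tn (n - 1) / ((n - 1 : ℕ) : ℝ) * (0.3 / √((1 : ℕ) : ℝ)) := by
      have h6 := tn_pos (n - 1)
      have h7 : (0 : ℝ) < ((n - 1 : ℕ) : ℝ) := by exact_mod_cast (by omega : 0 < n - 1)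
      have h8 : 0 < √((1 : ℕ) : ℝ) := Real.sqrt_pos.mpr (by norm_num)
      positivity
    linarith
  have hex : ∃ m, n ≤ 2 * m ∧ ¬ Qp m (n - m) := ⟨n - 1, by omega, hlast⟩
  obtain ⟨m, hm⟩ : ∃ m, m = Nat.find hex := ⟨_, rfl⟩
  have hs := Nat.find_spec hex
  have hmin : ∀ r, r < m → ¬ (n ≤ 2 * r ∧ ¬ Qp r (n - r)) := fun r hr =>
    Nat.find_min hex (by rw [← hm]; exact hr)
  rw [← hm] at hs
  obtain ⟨hs1, hs2⟩ := hs
  have hmn : m ≤ n - 1 := by
    rw [hm]
    exact Nat.find_min' hex ⟨by omega, hlast⟩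
  refine ⟨m, hs1, by omega, ?_, ?_⟩
  · intro l hl1 hl2
    have h1 : Qp l (n - l) := by
      by_contra h2
      exact hmin l hl2 ⟨hl1, h2⟩
    exact a_le_of_bb n l (by omega) (Qp_nonneg l (n - l) (hbig l hl1) (by omega) h1)
  · have hdown : ∀ l, m ≤ l → l < n → ¬ Qp l (n - l) := by
      intro l hl
      induction l, hl using Nat.le_induction with
      | base => intro _; exact hs2
      | succ l hl ih =>
        intro hln h1
        apply ih (by omega)
        have h2 := Qp_step l (n - (l + 1)) (hbig l (by omega)) (by omega) h1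
        have q : n - (l + 1) + 1 = n - l := by omega
        rw [q] at h2
        exact h2
    intro l hl1 hl2
    apply a_lt_of_bb n l hl2
    by_contra h1
    push Not at h1
    exact hdown l hl1 hl2 ⟨n - l, by omega, le_rfl, h1⟩

end Pool.Agent.MP_9da1e3_co
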