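import Pool.Agent.Lib.MP_9da1e3_co.Lf11
import Pool.Agent.Lib.MP_9da1e3_co.Wn10

namespace Pool.Agent.MP_9da1e3_co

open Finset

theorem B_all (L : ℕ) (hL : (10 : ℝ) ^ 1000 ≤ L) : ∀ n : ℕ, 2 * L ≤ n → 0 ≤ Bn L n := by
  have hL200 : (10 : ℝ) ^ 200 ≤ L := le_trans (pow_le_pow_right₀ (by norm_num) (by norm_num)) hL
  obtain ⟨I, hI⟩ : ∃ I, I = L / 1000000000000000000000000 := ⟨_, rfl⟩
  have hL30 : 1000000000000000000000000000000 ≤ L := by
    have : (1000000000000000000000000000000 : ℝ) ≤ L := le_trans (by norm_num) hL200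
    exact_mod_cast this
  have hI1 : 1000000000000000000000000 * I ≤ L := by omega
  have hI2 : L ≤ 4000000000000000000000000 * I := by omega
  have h1 : (10 : ℝ) ^ 24 * I ≤ L := by
    have h3 : (1000000000000000000000000 : ℝ) * I ≤ L := by exact_mod_cast hI1
    norm_num at h3 ⊢
    linarith
  have h2 : (L : ℝ) ≤ 4 * 10 ^ 24 * I := by
    have h3 : (L : ℝ) ≤ 4000000000000000000000000 * I := by exact_mod_cast hI2
    norm_num at h3 ⊢
    linarith
  -- the first part
  have hbase : ∀ j, L + I ≤ j → j ≤ 2 * L → 0 ≤ Bn L j := by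
    intro j hj1 hj2
    obtain ⟨m, rfl⟩ : ∃ m, j = L + m + 1 := ⟨j - L - 1, by omega⟩
    have hb := bb_nonneg3 L hL200 m (by omega) (by
      have h3 : (I : ℝ) ≤ (m : ℝ) + 1 := by exact_mod_cast (by omega : I ≤ m + 1)
      have h4 : (10 : ℝ) ^ 70 ≤ √((m : ℝ) + 1) := by
        apply Real.le_sqrt_of_sq_le
        have h5 : (10 : ℝ) ^ 170 ≤ L := le_trans (pow_le_pow_right₀ (by norm_num) (by norm_num)) hL200
        have h6 : ((10 : ℝ) ^ 70) ^ 2 = 10 ^ 140 := by rw [← pow_mul]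
        rw [h6]
        clear hL
        linarith
      have h5 : (L : ℝ) / (4 * 10 ^ 24) ≤ (m : ℝ) + 1 := by
        rw [div_le_iff₀ (by positivity)]
        linarith
      have h6 := mul_le_mul h5 h4 (by positivity) (by positivity)
      refine le_trans ?_ h6
      have hL0 : (0 : ℝ) ≤ L := Nat.cast_nonneg L
      have h7 : (L : ℝ) / (4 * 10 ^ 24) * 10 ^ 70 = (10 ^ 46 / 4) * L := by
        field_simp
      rw [h7]
      apply mul_le_mul_of_nonneg_right _ hL0
      norm_num)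
    rw [bb_succ] at hb
    unfold Bn
    have e1 : gg (L + 1) m = An (L + 1) (L + m + 1) := by
      unfold gg
      have q : L + 1 + m = L + m + 1 := by omega
      rw [q]
    have e2 : gg L (m + 1) = An L (L + m + 1) := by
      unfold gg
      rfl
    rw [e1, e2] at hb
    exact hb
  have hmain : ∀ n, L + I ≤ n → 0 ≤ Bn L n := by
    intro n
    induction n using Nat.strong_induction_on with
    | _ n ih =>
      intro hn
      rcases Nat.lt_or_ge (2 * L) n with h | h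
      · obtain ⟨k, rfl⟩ : ∃ k, n = L + k + 1 := ⟨n - L - 1, by omega⟩
        have hB : ∀ j, L + I ≤ j → j ≤ L + k → 0 ≤ Bn L j := fun j h3 h4 => ih j (by omega) h3
        rcases Nat.lt_or_ge k (L + 2 * (10000000000000000 * I) + 1000) with h5 | h5
        · exact near_case L k I hL h1 h2 (by omega) (by omega) hB
        · exact far_case L k I hL h1 h2 h5 hB
      · exact hbase n hn h
  intro n hn
  exact hmain n (by omega)

lemma a_le_of_B (n l : ℕ) (hn : 1 ≤ n) (h : 0 ≤ Bn l n) : a n l ≤ a n (l + 1) := by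
  unfold Bn at h
  have h3 : An l n ≤ An (l + 1) n := by linarith
  have h4 : RR n l ≤ RR n (l + 1) := by
    unfold RR
    exact div_le_div_of_nonneg_right h3 (tn_pos n).le
  have h5 : (a n l : ℝ) ≤ a n (l + 1) := by
    rw [a_eq n l hn, a_eq n (l + 1) hn]
    exact mul_le_mul_of_nonneg_right h4 (by positivity)
  exact_mod_cast h5

theorem left_half (n l : ℕ) (hn : (10 : ℝ) ^ 2002 ≤ n) (hl : 2 * l ≤ n) : a n l ≤ a n (l + 1) := by
  have hn1 : 1 ≤ n := by
    have h1 : (1 : ℝ) ≤ 10 ^ 2002 := one_le_pow₀ (by norm_num)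
    have h2 : ((1 : ℕ) : ℝ) ≤ n := by
      rw [Nat.cast_one]
      exact h1.trans hn
    exact_mod_cast h2
  rcases le_or_gt ((10 : ℝ) ^ 1000) l with h | h
  · exact a_le_of_B n l hn1 (B_all l h n hl)
  · apply a_mono_left
    have e : (10 : ℝ) ^ 2002 = 10 ^ 1000 * 10 ^ 1000 * 10 ^ 2 := by
      have e2 : (2002 : ℕ) = 1000 + 1000 + 2 := by norm_num
      rw [e2, pow_add, pow_add]
    rw [e] at hn
    have hP2 : (10 : ℝ) ^ 2 ≤ 10 ^ 1000 := pow_le_pow_right₀ (by norm_num) (by norm_num)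
    obtain ⟨P, hP⟩ : ∃ P : ℝ, P = 10 ^ 1000 := ⟨_, rfl⟩
    rw [← hP] at hn h hP2
    clear hP e
    have hP3 : (100 : ℝ) ≤ P := by
      norm_num at hP2
      linarith
    have h1 : (l : ℝ) + 2 ≤ 2 * P := by linarith
    have hl0 : (0 : ℝ) ≤ l := Nat.cast_nonneg l
    have h2 : ((l : ℝ) + 2) ^ 2 ≤ (2 * P) ^ 2 := pow_le_pow_left₀ (by linarith) h1 2
    have h3 : 2 * ((l : ℝ) + 2) ^ 2 ≤ n := by
      refine le_trans ?_ hn
      have h4 : 0 ≤ P * P := by positivity
      have h5 : (2 * P) ^ 2 = 4 * (P * P) := by ring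
      rw [h5] at h2
      norm_num
      linarith
    exact_mod_cast h3

/-- unimodality for all large `n` -/
theorem unimodal_large (n : ℕ) (hn : (10 : ℝ) ^ 2002 ≤ n) : ∃ m : ℕ, m < n ∧
    (∀ l, l < m → a n l ≤ a n (l + 1)) ∧ (∀ l, m ≤ l → l < n → a n (l + 1) < a n l) := by
  have hn2 : 2 * (10 : ℝ) ^ 1000 ≤ n := by
    refine le_trans ?_ hn
    have e : (10 : ℝ) ^ 2002 = 10 ^ 1002 * 10 ^ 1000 := by
      have e2 : (2002 : ℕ) = 1002 + 1000 := by norm_num
      rw [e2, pow_add]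
    rw [e]
    apply mul_le_mul_of_nonneg_right _ (by positivity)
    have h1 : (10 : ℝ) ^ 1 ≤ 10 ^ 1002 := pow_le_pow_right₀ (by norm_num) (by norm_num)
    refine le_trans ?_ h1
    norm_num
  obtain ⟨m, _, hm2, hup, hdown⟩ := upper_half n hn2
  refine ⟨m, hm2, ?_, hdown⟩
  intro l hl
  rcases Nat.lt_or_ge (2 * l) n with h | h
  · exact left_half n l hn h.le
  · exact hup l h hl

end Pool.Agent.MP_9da1e3_co
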