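import Pool.Agent.Lib.MP_9da1e3_co.Lf1

namespace Pool.Agent.MP_9da1e3_co

open Finset

/-- the symmetric form of `MM` -/
lemma MM_two (L z : ℕ) (hz : z ≤ L) :
    2 * MM L z = ((L : ℝ) + z + 1) * ∑ i ∈ range (L - z), tn (L - 1 - i) * tn (z + i) := by
  have e1 : MM L z = ∑ i ∈ range (L - z), ((L : ℝ) - i) * (tn (L - 1 - i) * tn (z + i)) := by
    unfold MM cE
    apply Finset.sum_congr rfl
    intro i hi
    have hi' := mem_range.mp hi
    have : (((L - 1 - i : ℕ) : ℝ) + 1) = (L : ℝ) - i := by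
      have : ((L - 1 - i : ℕ) : ℝ) = (L : ℝ) - 1 - i := by
        rw [Nat.cast_sub (by omega), Nat.cast_sub (by omega)]
        push_cast
        ring
      rw [this]
      ring
    rw [this]
    ring
  have e2 : MM L z = ∑ i ∈ range (L - z), ((z : ℝ) + i + 1) * (tn (L - 1 - i) * tn (z + i)) := by
    rw [e1, ← Finset.sum_range_reflect (fun i => ((L : ℝ) - (i : ℝ)) * (tn (L - 1 - i) * tn (z + i)))
      (L - z)]
    apply Finset.sum_congr rfl
    intro i hi
    have hi' := mem_range.mp hi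
    have q1 : L - 1 - (L - z - 1 - i) = z + i := by omega
    have q2 : z + (L - z - 1 - i) = L - 1 - i := by omega
    have q3 : ((L - z - 1 - i : ℕ) : ℝ) = (L : ℝ) - z - 1 - i := by
      rw [Nat.cast_sub (by omega), Nat.cast_sub (by omega), Nat.cast_sub (by omega)]
      push_cast
      ring
    simp only [q1, q2, q3]
    ring
  have e3 : 2 * MM L z = MM L z + MM L z := by ring
  rw [e3]
  nth_rewrite 1 [e1]
  rw [e2, ← Finset.sum_add_distrib, Finset.mul_sum]
  apply Finset.sum_congr rfl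
  intro i _
  ring

lemma MM_nonneg2 (L z : ℕ) : 0 ≤ MM L z := by
  unfold MM
  exact Finset.sum_nonneg fun i _ => mul_nonneg (cE_pos _).le (tn_pos _).le

lemma MM_ratio (L z : ℕ) (hz : z ≤ L) (h100 : 100 ≤ z) :
    (1 - 1.1 / (L : ℝ)) * MM L z ≤ MM (L + 1) z := by
  have hL0 : (0 : ℝ) < L := by
    have : (100 : ℝ) ≤ L := by exact_mod_cast (by omega : 100 ≤ L)
    linarith
  rw [MM_succ_eq L z hz]
  have h1 : ∑ i ∈ range (L - z), (cE (L - 1 - i) * tn (z + i) - 0.55 * (tn (L - 1 - i) * tn (z + i))) ≤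
      ∑ i ∈ range (L - z), cE (L - i) * tn (z + i) := by
    apply Finset.sum_le_sum
    intro i hi
    have hi' := mem_range.mp hi
    have h2 := cE_low (L - 1 - i) (by omega)
    have q : L - 1 - i + 1 = L - i := by omega
    rw [q] at h2
    have h3 : cE (L - 1 - i) * (0.55 / (((L - 1 - i : ℕ) : ℝ) + 2)) ≤ 0.55 * tn (L - 1 - i) := by
      unfold cE
      have h4 := tn_pos (L - 1 - i)
      have h5 : (0 : ℝ) ≤ ((L - 1 - i : ℕ) : ℝ) := Nat.cast_nonneg _
      rw [mul_div_assoc', div_le_iff₀ (by positivity)]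
      nlinarith
    have h4 : cE (L - 1 - i) - 0.55 * tn (L - 1 - i) ≤ cE (L - i) := by
      have : cE (L - 1 - i) * (1 - 0.55 / (((L - 1 - i : ℕ) : ℝ) + 2)) =
          cE (L - 1 - i) - cE (L - 1 - i) * (0.55 / (((L - 1 - i : ℕ) : ℝ) + 2)) := by ring
      linarith
    have h5 := mul_le_mul_of_nonneg_right h4 (tn_pos (z + i)).le
    linarith
  rw [Finset.sum_sub_distrib, ← Finset.mul_sum] at h1
  have h2 := MM_two L z hz
  obtain ⟨Q, hQ⟩ : ∃ Q : ℝ, Q = ∑ i ∈ range (L - z), tn (L - 1 - i) * tn (z + i) := ⟨_, rfl⟩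
  have hQ0 : 0 ≤ Q := by
    rw [hQ]
    exact Finset.sum_nonneg fun i _ => mul_nonneg (tn_pos _).le (tn_pos _).le
  rw [← hQ] at h1 h2
  have hM : MM L z = ∑ i ∈ range (L - z), cE (L - 1 - i) * tn (z + i) := rfl
  rw [← hM] at h1
  have h3 : 0.55 * Q ≤ 1.1 / (L : ℝ) * MM L z := by
    have h4 : MM L z = ((L : ℝ) + z + 1) * Q / 2 := by linarith
    rw [h4]
    have hz0 : (0 : ℝ) ≤ z := Nat.cast_nonneg z
    have h5 : 1.1 / (L : ℝ) * (((L : ℝ) + z + 1) * Q / 2) = 0.55 * Q * (((L : ℝ) + z + 1) / L) := by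
      field_simp
      ring
    rw [h5]
    have h6 : 1 ≤ ((L : ℝ) + z + 1) / L := by
      rw [le_div_iff₀ hL0]
      linarith
    have h7 := mul_le_mul_of_nonneg_left h6 (show 0 ≤ 0.55 * Q by positivity)
    linarith
  have h4 : 0 ≤ cE z * tn L := mul_nonneg (cE_pos z).le (tn_pos L).le
  linarith

/-- neighbouring `L` for `HH`, up to `z = L` -/
lemma HH_ratio_all (L : ℕ) (hL : (10 : ℝ) ^ 100 ≤ L) : ∀ z : ℕ, z ≤ L →
    (1 - 2.2 / (L : ℝ)) * HH L z ≤ HH (L + 1) z := by
  have hL0 : (0 : ℝ) < L := lt_of_lt_of_le (by positivity) hL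
  have hLbig : (10 : ℝ) ^ 30 ≤ L := le_trans (pow_le_pow_right₀ (by norm_num) (by norm_num)) hL
  have hE := E_ge
  have hE' := E_le
  intro z
  induction z using Nat.strong_induction_on with
  | _ z ih =>
    intro hz
    rcases Nat.lt_or_ge z 101 with hz1 | hz1
    · have h1 := HH_ratio_sharp L hL z (by
        have h2 : (z : ℝ) ≤ 101 := by exact_mod_cast hz1.le
        have h3 : (10 : ℝ) ^ 24 * z ≤ 10 ^ 24 * 101 := mul_le_mul_of_nonneg_left h2 (by positivity)
        refine h3.trans (le_trans ?_ hLbig)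
        norm_num)
      refine le_trans ?_ h1
      apply mul_le_mul_of_nonneg_right _ (HH_nonneg L z)
      have : 1.66 / (L : ℝ) ≤ 2.2 / L := div_le_div_of_nonneg_right (by norm_num) hL0.le
      linarith
    · obtain ⟨m, rfl⟩ : ∃ m, z = m + 1 := ⟨z - 1, by omega⟩
      have hm0 : (100 : ℝ) ≤ m := by exact_mod_cast (by omega : 100 ≤ m)
      have hmL : (m : ℝ) + 1 ≤ L := by exact_mod_cast hz
      obtain ⟨θ, hθ⟩ : ∃ θ : ℝ, θ = 1 - 2.2 / (L : ℝ) := ⟨_, rfl⟩
      have h22 : 2.2 / (L : ℝ) ≤ 0.01 := by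
        rw [div_le_iff₀ hL0]
        have : (1000 : ℝ) ≤ L := le_trans (by norm_num) hLbig
        linarith
      have hθ0 : 0 ≤ θ := by rw [hθ]; linarith
      have hθ1 : θ ≤ 1 := by
        rw [hθ]
        have : 0 ≤ 2.2 / (L : ℝ) := by positivity
        linarith
      rw [← hθ]
      have r1 := HH_rec L m (by omega)
      have r2 := HH_rec (L + 1) m (by omega)
      have hM := MM_ratio L (m + 1) (by omega) (by omega)
      have hM0 := MM_nonneg2 L (m + 1)
      obtain ⟨H, hH⟩ : ∃ H : ℝ, H = HH L (m + 1) := ⟨_, rfl⟩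
      obtain ⟨M, hMd⟩ : ∃ M : ℝ, M = MM L (m + 1) := ⟨_, rfl⟩
      obtain ⟨S, hS⟩ : ∃ S : ℝ, S = ∑ j ∈ range (m + 1), tn j * HH L (m - j) := ⟨_, rfl⟩
      have hH0 : 0 ≤ H := by rw [hH]; exact HH_nonneg _ _
      -- the second recursion from below
      have e2 : θ * (∑ j ∈ range (m + 1), ((L : ℝ) + j + 2) * (tn j * HH L (m - j)) + S) ≤
          ∑ j ∈ range (m + 1), (((L + 1 : ℕ) : ℝ) + j + 2) * (tn j * HH (L + 1) (m - j)) := by
        rw [hS, ← Finset.sum_add_distrib, Finset.mul_sum]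
        apply Finset.sum_le_sum
        intro j hj
        have hj' : j ≤ m := by have := mem_range.mp hj; omega
        have h3 := ih (m - j) (by omega) (by omega)
        rw [← hθ] at h3
        have ht := tn_pos j
        have hj0 : (0 : ℝ) ≤ j := Nat.cast_nonneg j
        have h4 : ((L : ℝ) + 1 + j + 2) * (tn j * (θ * HH L (m - j))) ≤
            ((L : ℝ) + 1 + j + 2) * (tn j * HH (L + 1) (m - j)) := by
          apply mul_le_mul_of_nonneg_left _ (by positivity)
          exact mul_le_mul_of_nonneg_left h3 ht.le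
        push_cast
        linarith
      -- the gain
      have hgain : 0 ≤ ((L : ℝ) + m + 1) * S -
          ∑ j ∈ range (m + 1), ((L : ℝ) + j + 2) * (tn j * HH L (m - j)) := by
        rw [hS, Finset.mul_sum, ← Finset.sum_sub_distrib]
        rw [Finset.sum_range_succ, Nat.sub_self, HH_zero]
        obtain ⟨q, rfl⟩ : ∃ q, m = q + 1 := ⟨m - 1, by omega⟩
        rw [Finset.sum_range_succ']
        have h3 : 0 ≤ ∑ k ∈ range q, (((L : ℝ) + ((q + 1 : ℕ) : ℝ) + 1) * (tn (k + 1) * HH L (q + 1 - (k + 1))) -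
            ((L : ℝ) + ((k + 1 : ℕ) : ℝ) + 2) * (tn (k + 1) * HH L (q + 1 - (k + 1)))) := by
          apply Finset.sum_nonneg
          intro k hk
          have hk' := mem_range.mp hk
          have h4 : 0 ≤ tn (k + 1) * HH L (q + 1 - (k + 1)) := mul_nonneg (tn_pos _).le (HH_nonneg _ _)
          have h5 : ((k + 1 : ℕ) : ℝ) + 1 ≤ ((q + 1 : ℕ) : ℝ) := by exact_mod_cast (by omega : k + 1 + 1 ≤ q + 1)
          have h6 : 0 ≤ (((q + 1 : ℕ) : ℝ) - (((k + 1 : ℕ) : ℝ) + 1)) * (tn (k + 1) * HH L (q + 1 - (k + 1))) :=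
            mul_nonneg (by linarith) h4
          linarith
        have hrq := HH_rec L q (by omega)
        have h4 : ((L : ℝ) + q + 2) * (tn q * tn L) ≤
            ∑ j ∈ range (q + 1), ((L : ℝ) + j + 2) * (tn j * HH L (q - j)) := by
          rw [Finset.sum_range_succ, Nat.sub_self, HH_zero]
          have : 0 ≤ ∑ j ∈ range q, ((L : ℝ) + j + 2) * (tn j * HH L (q - j)) :=
            Finset.sum_nonneg fun j _ => by
              have := tn_pos j
              have := HH_nonneg L (q - j)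
              positivity
          linarith
        have hMq := MM_nonneg2 L (q + 1)
        have htq := tn_pos q
        have htL := tn_pos L
        have htq1 := tn_anti q
        have hq0 : (0 : ℝ) ≤ q := Nat.cast_nonneg q
        have h5 : ((L : ℝ) + (q + 1)) * (tn q * tn L) ≤ ((L : ℝ) + (q + 1)) * (E * HH L (q + 1)) := by
          have : 0 ≤ tn q * tn L := by positivity
          linarith
        have h6 := le_of_mul_le_mul_left h5 (by positivity)
        have hHq := HH_nonneg L (q + 1)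
        have h7 : tn (q + 1) * tn L ≤ 3 * HH L (q + 1) := by
          have h8 : tn (q + 1) * tn L ≤ tn q * tn L := mul_le_mul_of_nonneg_right htq1 htL.le
          have h9 : E * HH L (q + 1) ≤ 3 * HH L (q + 1) := mul_le_mul_of_nonneg_right (by linarith) hHq
          linarith
        push_cast at hm0
        simp only [Nat.cast_zero, tn_zero, Nat.sub_zero, one_mul, add_zero] at h3 ⊢
        push_cast at h3 ⊢
        have h8 : 3 * HH L (q + 1) ≤ (q : ℝ) * HH L (q + 1) := mul_le_mul_of_nonneg_right (by linarith) hHq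
        linarith
      rw [← hH, ← hMd] at r1
      rw [← hMd] at hM hM0
      have hN1 : (0 : ℝ) < (L : ℝ) + (m + 1) := by positivity
      -- key
      have hkey : θ * (E * H) ≤ θ * S + 1.1 / (L : ℝ) * M := by
        have h3 : ((L : ℝ) + (m + 1)) * (E * H) ≤ ((L : ℝ) + (m + 1)) * S + M := by linarith
        have h4 : θ * M ≤ ((L : ℝ) + (m + 1)) * (1.1 / (L : ℝ) * M) := by
          have h5 : θ * M ≤ M := by nlinarith
          have h6 : M ≤ ((L : ℝ) + (m + 1)) * (1.1 / (L : ℝ) * M) := by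
            have e : ((L : ℝ) + (m + 1)) * (1.1 / (L : ℝ) * M) = (((L : ℝ) + (m + 1)) * 1.1 / L) * M := by ring
            rw [e]
            have : 1 ≤ ((L : ℝ) + (m + 1)) * 1.1 / L := by
              rw [le_div_iff₀ hL0]
              nlinarith
            nlinarith
          exact h5.trans h6
        have h5 := mul_le_mul_of_nonneg_left h3 hθ0
        have h6 : ((L : ℝ) + (m + 1)) * (θ * (E * H)) ≤
            ((L : ℝ) + (m + 1)) * (θ * S + 1.1 / (L : ℝ) * M) := by
          linarith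
        exact le_of_mul_le_mul_left h6 hN1
      have hfin : E * ((((L + 1 : ℕ) : ℝ) + (m + 1)) * (θ * H)) ≤
          E * ((((L + 1 : ℕ) : ℝ) + (m + 1)) * HH (L + 1) (m + 1)) := by
        rw [r2]
        have e5 : E * ((((L + 1 : ℕ) : ℝ) + (m + 1)) * (θ * H)) =
            θ * (E * (((L : ℝ) + (m + 1)) * H)) + θ * (E * H) := by
          push_cast
          ring
        rw [e5, r1]
        have h3 : θ * M = M - 2.2 / (L : ℝ) * M := by rw [hθ]; ring
        have h4 : (1 - 1.1 / (L : ℝ)) * M = M - 1.1 / (L : ℝ) * M := by ring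
        have h5 : 2.2 / (L : ℝ) * M = 1.1 / (L : ℝ) * M + 1.1 / (L : ℝ) * M := by ring
        linarith
      have hN : (0 : ℝ) < (((L + 1 : ℕ) : ℝ) + (m + 1)) := by positivity
      rw [← hH]
      exact le_of_mul_le_mul_left (le_of_mul_le_mul_left hfin (by linarith)) hN

end Pool.Agent.MP_9da1e3_co
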