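import Pool.Agent.Lib.MP_9da1e3_co.Lf2

namespace Pool.Agent.MP_9da1e3_co

open Finset

/-- neighbouring `L` for `Fn`, shifted, for all `n ≥ L` -/
theorem F_shift (L : ℕ) (hL : (10 : ℝ) ^ 100 ≤ L) : ∀ n : ℕ, L ≤ n →
    (1 - 2.2 / (L : ℝ)) * Fn (L + 1) n ≤ Fn (L + 2) (n + 1) := by
  have hL0 : (0 : ℝ) < L := lt_of_lt_of_le (by positivity) hL
  have hLbig : (10 : ℝ) ^ 30 ≤ L := le_trans (pow_le_pow_right₀ (by norm_num) (by norm_num)) hL
  have hE := E_pos
  intro n
  induction n using Nat.strong_induction_on with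
  | _ n ih =>
    intro hn
    rcases Nat.lt_or_ge (2 * L) n with hn1 | hn1
    · obtain ⟨p, rfl⟩ : ∃ p, n = p + 1 := ⟨n - 1, by omega⟩
      have hp : 2 * L ≤ p := by omega
      obtain ⟨θ, hθ⟩ : ∃ θ : ℝ, θ = 1 - 2.2 / (L : ℝ) := ⟨_, rfl⟩
      have h22 : 2.2 / (L : ℝ) ≤ 0.01 := by
        rw [div_le_iff₀ hL0]
        have : (1000 : ℝ) ≤ L := le_trans (by norm_num) hLbig
        linarith
      have hθ0 : 0 ≤ θ := by rw [hθ]; linarith
      rw [← hθ]
      obtain ⟨F1, hF1⟩ : ∃ F : ℕ → ℝ, F = Fn (L + 1) := ⟨_, rfl⟩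
      obtain ⟨F2, hF2⟩ : ∃ F : ℕ → ℝ, F = Fn (L + 2) := ⟨_, rfl⟩
      have hF1n : ∀ k, 0 ≤ F1 k := fun k => by rw [hF1]; exact Fn_nonneg _ k
      have hF2n : ∀ k, 0 ≤ F2 k := fun k => by rw [hF2]; exact Fn_nonneg _ k
      have hF12 : ∀ k, F1 k ≤ F2 k := fun k => by rw [hF1, hF2]; exact Fn_mono (L + 1) k
      have hih : ∀ k, L ≤ k → k ≤ p → θ * F1 k ≤ F2 (k + 1) := fun k h1 h2 => by
        rw [hθ, hF1, hF2]
        exact ih k (by omega) h1
      have r1 := Fn_rec (L + 1) p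
      have r2 := Fn_rec (L + 2) (p + 1)
      rw [← hF1] at r1 ⊢
      rw [← hF2] at r2 ⊢
      obtain ⟨c, e, hce, he1, he2⟩ : ∃ c e : ℕ, p = c + e ∧ c ≤ e ∧ e ≤ c + 1 :=
        ⟨p / 2, p - p / 2, by omega, by omega, by omega⟩
      -- split of the sum at level p
      obtain ⟨w, hw⟩ : ∃ w : ℕ → ℝ, w = fun k => ((min (L + 1) (k + 1) : ℕ) : ℝ) := ⟨_, rfl⟩
      have hw0 : ∀ k, 0 ≤ w k := fun k => by rw [hw]; exact Nat.cast_nonneg _
      have hwk : ∀ k, w k ≤ (k : ℝ) + 1 := fun k => by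
        rw [hw]
        have : min (L + 1) (k + 1) ≤ k + 1 := by omega
        simp only
        exact_mod_cast this
      have hwL : ∀ k, L ≤ k → w k = (L : ℝ) + 1 := fun k hk => by
        rw [hw]
        have : min (L + 1) (k + 1) = L + 1 := by omega
        simp only [this]
        push_cast
        ring
      have r1' : E * (((p : ℝ) + 1) * F1 (p + 1)) = ∑ k ∈ range (p + 1), w k * (F1 k * F1 (p - k)) := by
        rw [hw]
        exact r1
      have hs1 : range (p + 1) = range ((c + 1) + e) := by rw [hce]; congr 1; ring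
      have e1 : ∑ k ∈ range (p + 1), w k * (F1 k * F1 (p - k)) =
          ∑ k ∈ range (c + 1), w k * (F1 k * F1 (p - k)) +
          ∑ x ∈ range e, w (c + 1 + x) * (F1 (c + 1 + x) * F1 (p - (c + 1 + x))) := by
        rw [hs1, Finset.sum_range_add]
      -- level p + 1 from below
      have r2' : E * (((p : ℝ) + 2) * F2 (p + 1 + 1)) =
          ∑ k ∈ range (p + 1 + 1), ((min (L + 2) (k + 1) : ℕ) : ℝ) * (F2 k * F2 (p + 1 - k)) := by
        rw [← r2]
        push_cast
        ring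
      have hs2 : range (p + 1 + 1) = range ((c + 1) + 1 + e) := by rw [hce]; congr 1; ring
      have e2 : ∑ k ∈ range (p + 1 + 1), ((min (L + 2) (k + 1) : ℕ) : ℝ) * (F2 k * F2 (p + 1 - k)) =
          ∑ k ∈ range (c + 1), ((min (L + 2) (k + 1) : ℕ) : ℝ) * (F2 k * F2 (p + 1 - k)) +
          ((min (L + 2) (c + 1 + 1) : ℕ) : ℝ) * (F2 (c + 1) * F2 (p + 1 - (c + 1))) +
          ∑ x ∈ range e, ((min (L + 2) (c + 1 + 1 + x + 1) : ℕ) : ℝ) *
            (F2 (c + 1 + 1 + x) * F2 (p + 1 - (c + 1 + 1 + x))) := by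
        rw [hs2, Finset.sum_range_add, Finset.sum_range_succ]
      have l1 : θ * ∑ k ∈ range (c + 1), w k * (F1 k * F1 (p - k)) ≤
          ∑ k ∈ range (c + 1), ((min (L + 2) (k + 1) : ℕ) : ℝ) * (F2 k * F2 (p + 1 - k)) := by
        rw [Finset.mul_sum]
        apply Finset.sum_le_sum
        intro k hk
        have hk' : k ≤ c := by have := mem_range.mp hk; omega
        have q : p + 1 - k = (p - k) + 1 := by omega
        rw [q]
        have h1 := hih (p - k) (by omega) (by omega)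
        have h2 := hF12 k
        have h3 : w k ≤ ((min (L + 2) (k + 1) : ℕ) : ℝ) := by
          rw [hw]
          simp only
          exact_mod_cast (by omega : min (L + 1) (k + 1) ≤ min (L + 2) (k + 1))
        have h4 : F1 k * (θ * F1 (p - k)) ≤ F2 k * F2 (p - k + 1) :=
          mul_le_mul h2 h1 (mul_nonneg hθ0 (hF1n _)) (hF2n _)
        have h5 : w k * (F1 k * (θ * F1 (p - k))) ≤
            ((min (L + 2) (k + 1) : ℕ) : ℝ) * (F2 k * F2 (p - k + 1)) :=
          mul_le_mul h3 h4 (mul_nonneg (hF1n _) (mul_nonneg hθ0 (hF1n _))) (Nat.cast_nonneg _)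
        linarith
      have l2 : θ * (((L : ℝ) + 1) * (F1 c * F1 e)) ≤
          ((min (L + 2) (c + 1 + 1) : ℕ) : ℝ) * (F2 (c + 1) * F2 (p + 1 - (c + 1))) := by
        have q : p + 1 - (c + 1) = e := by omega
        rw [q]
        have h1 := hih c (by omega) (by omega)
        have h2 := hF12 e
        have h3 : (L : ℝ) + 1 ≤ ((min (L + 2) (c + 1 + 1) : ℕ) : ℝ) := by
          exact_mod_cast (by omega : L + 1 ≤ min (L + 2) (c + 1 + 1))
        have h4 : (θ * F1 c) * F1 e ≤ F2 (c + 1) * F2 e := mul_le_mul h1 h2 (hF1n _) (hF2n _)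
        have h5 : ((L : ℝ) + 1) * ((θ * F1 c) * F1 e) ≤
            ((min (L + 2) (c + 1 + 1) : ℕ) : ℝ) * (F2 (c + 1) * F2 e) :=
          mul_le_mul h3 h4 (mul_nonneg (mul_nonneg hθ0 (hF1n _)) (hF1n _)) (Nat.cast_nonneg _)
        linarith
      have l3 : θ * ∑ x ∈ range e, ((L : ℝ) + 2) * (F1 (c + 1 + x) * F1 (p - (c + 1 + x))) ≤
          ∑ x ∈ range e, ((min (L + 2) (c + 1 + 1 + x + 1) : ℕ) : ℝ) *
            (F2 (c + 1 + 1 + x) * F2 (p + 1 - (c + 1 + 1 + x))) := by
        rw [Finset.mul_sum]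
        apply Finset.sum_le_sum
        intro x hx
        have hx' := mem_range.mp hx
        have q1 : p + 1 - (c + 1 + 1 + x) = p - (c + 1 + x) := by omega
        have q2 : c + 1 + 1 + x = (c + 1 + x) + 1 := by omega
        have q3 : min (L + 2) (c + 1 + 1 + x + 1) = L + 2 := by omega
        rw [q1, q3, q2]
        have h1 := hih (c + 1 + x) (by omega) (by omega)
        have h2 := hF12 (p - (c + 1 + x))
        have h4 : (θ * F1 (c + 1 + x)) * F1 (p - (c + 1 + x)) ≤
            F2 (c + 1 + x + 1) * F2 (p - (c + 1 + x)) := mul_le_mul h1 h2 (hF1n _) (hF2n _)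
        push_cast
        have h5 := mul_le_mul_of_nonneg_left h4 (show (0 : ℝ) ≤ (L : ℝ) + 2 by positivity)
        linarith
      -- the deficit
      have e3 : ∑ x ∈ range e, w (c + 1 + x) * (F1 (c + 1 + x) * F1 (p - (c + 1 + x))) =
          ((L : ℝ) + 1) * ∑ x ∈ range e, F1 (c + 1 + x) * F1 (p - (c + 1 + x)) := by
        rw [Finset.mul_sum]
        apply Finset.sum_congr rfl
        intro x _
        rw [hwL (c + 1 + x) (by omega)]
      have e4 : ∑ x ∈ range e, ((L : ℝ) + 2) * (F1 (c + 1 + x) * F1 (p - (c + 1 + x))) =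
          ((L : ℝ) + 2) * ∑ x ∈ range e, F1 (c + 1 + x) * F1 (p - (c + 1 + x)) := by
        rw [Finset.mul_sum]
      have l4 : ∑ k ∈ range (c + 1), w k * (F1 k * F1 (p - k)) ≤
          ((p : ℝ) + 1 - (L + 1)) * ∑ x ∈ range e, F1 (c + 1 + x) * F1 (p - (c + 1 + x)) +
          ((L : ℝ) + 1) * (F1 c * F1 e) := by
        have h1 : ∑ k ∈ range e, w k * (F1 k * F1 (p - k)) ≤
            ((p : ℝ) + 1 - (L + 1)) * ∑ x ∈ range e, F1 (c + 1 + x) * F1 (p - (c + 1 + x)) := by
          rw [← Finset.sum_range_reflect (fun k => w k * (F1 k * F1 (p - k))) e, Finset.mul_sum]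
          apply Finset.sum_le_sum
          intro x hx
          have hx' := mem_range.mp hx
          have q1 : p - (e - 1 - x) = c + 1 + x := by omega
          have q2 : p - (c + 1 + x) = e - 1 - x := by omega
          simp only [q1, q2]
          have h2 := hwk (e - 1 - x)
          have h3 : ((e - 1 - x : ℕ) : ℝ) + 1 ≤ (p : ℝ) + 1 - (L + 1) := by
            have h4 : (e - 1 - x) + 1 + (L + 1) ≤ p + 1 := by omega
            have h5 : (((e - 1 - x : ℕ) : ℝ) + 1) + ((L : ℝ) + 1) ≤ (p : ℝ) + 1 := by exact_mod_cast h4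
            linarith
          have h4 : 0 ≤ F1 (e - 1 - x) * F1 (c + 1 + x) := mul_nonneg (hF1n _) (hF1n _)
          have h5 := mul_le_mul_of_nonneg_right (h2.trans h3) h4
          linarith
        rcases Nat.lt_or_ge c e with hc | hc
        · have hec : e = c + 1 := by omega
          have h3 : ∑ k ∈ range (c + 1), w k * (F1 k * F1 (p - k)) =
              ∑ k ∈ range e, w k * (F1 k * F1 (p - k)) := by rw [hec]
          rw [h3]
          have h2 : 0 ≤ ((L : ℝ) + 1) * (F1 c * F1 e) := by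
            have := mul_nonneg (hF1n c) (hF1n e)
            positivity
          linarith
        · have h2 : c = e := by omega
          rw [Finset.sum_range_succ]
          have h3 : p - c = e := by omega
          rw [h3, hwL c (by omega)]
          rw [h2] at h1 ⊢
          linarith
      obtain ⟨Q, hQ⟩ : ∃ Q : ℝ, Q = ∑ x ∈ range e, F1 (c + 1 + x) * F1 (p - (c + 1 + x)) := ⟨_, rfl⟩
      have hQ0 : 0 ≤ Q := by
        rw [hQ]
        exact Finset.sum_nonneg fun x _ => mul_nonneg (hF1n _) (hF1n _)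
      obtain ⟨U, hU⟩ : ∃ U : ℝ, U = ∑ k ∈ range (c + 1), w k * (F1 k * F1 (p - k)) := ⟨_, rfl⟩
      rw [e4] at l3
      rw [e3] at e1
      rw [← hQ] at l3 l4 e1
      rw [← hU] at l1 l4 e1
      rw [e1] at r1'
      rw [e2] at r2'
      obtain ⟨g, hg⟩ : ∃ g : ℝ, g = F1 c * F1 e := ⟨_, rfl⟩
      rw [← hg] at l2 l4
      have hg0 : 0 ≤ g := by rw [hg]; exact mul_nonneg (hF1n _) (hF1n _)
      -- E F1(p+1) ≤ Q + (L+1) g / (p+1)
      have k1 : ((p : ℝ) + 1) * (E * F1 (p + 1)) ≤ ((p : ℝ) + 1) * (Q + ((L : ℝ) + 1) * g) := by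
        have hp0 : (0 : ℝ) ≤ p := Nat.cast_nonneg p
        have h1 : 0 ≤ (p : ℝ) * (((L : ℝ) + 1) * g) := by positivity
        linarith
      have k2 := le_of_mul_le_mul_left k1 (by positivity)
      have k3 := mul_le_mul_of_nonneg_left k2 hθ0
      have hfin : E * (((p : ℝ) + 2) * (θ * F1 (p + 1))) ≤ E * (((p : ℝ) + 2) * F2 (p + 1 + 1)) := by
        rw [r2']
        have h1 : E * (((p : ℝ) + 2) * (θ * F1 (p + 1))) =
            θ * (E * (((p : ℝ) + 1) * F1 (p + 1))) + θ * (E * F1 (p + 1)) := by ring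
        rw [h1, r1']
        linarith
      exact le_of_mul_le_mul_left (le_of_mul_le_mul_left hfin hE) (by positivity)
    · obtain ⟨z, rfl⟩ : ∃ z, n = L + z := ⟨n - L, by omega⟩
      have h1 := HH_ratio_all L hL z (by omega)
      unfold HH at h1
      have q : L + 1 + z = L + z + 1 := by omega
      rw [q] at h1
      exact h1

end Pool.Agent.MP_9da1e3_co
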