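import Pool.Agent.Lib.MP_9da1e3_co.Lf3

namespace Pool.Agent.MP_9da1e3_co

open Finset

/-- neighbouring `L` for `An`, shifted, for all `n` -/
theorem A_shift (L : ℕ) (hL : (10 : ℝ) ^ 100 ≤ L) : ∀ n : ℕ,
    (1 - 3.2 / (L : ℝ)) * An L n ≤ An (L + 1) (n + 1) := by
  have hL0 : (0 : ℝ) < L := lt_of_lt_of_le (by positivity) hL
  have hLbig : (10 : ℝ) ^ 30 ≤ L := le_trans (pow_le_pow_right₀ (by norm_num) (by norm_num)) hL
  have hE := E_pos
  intro n
  induction n using Nat.strong_induction_on with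
  | _ n ih =>
    rcases Nat.lt_or_ge L n with hn | hn
    · obtain ⟨p, rfl⟩ : ∃ p, n = p + 1 := ⟨n - 1, by omega⟩
      have hpL : L ≤ p := by omega
      obtain ⟨θ, hθ⟩ : ∃ θ : ℝ, θ = 1 - 3.2 / (L : ℝ) := ⟨_, rfl⟩
      have h32 : 3.2 / (L : ℝ) ≤ 0.01 := by
        rw [div_le_iff₀ hL0]
        have : (1000 : ℝ) ≤ L := le_trans (by norm_num) hLbig
        linarith
      have hθ0 : 0 ≤ θ := by rw [hθ]; linarith
      have hθ1 : θ ≤ 1 := by
        rw [hθ]
        have : 0 ≤ 3.2 / (L : ℝ) := by positivity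
        linarith
      have hF : ∀ i, L ≤ i → (θ + 1 / (L : ℝ)) * Fn (L + 1) i ≤ Fn (L + 2) (i + 1) := by
        intro i hi
        have h1 := F_shift L hL i hi
        refine le_trans (le_of_eq ?_) h1
        rw [hθ]
        ring
      rw [← hθ]
      obtain ⟨F0, hF0⟩ : ∃ F : ℕ → ℝ, F = Fn L := ⟨_, rfl⟩
      obtain ⟨F1, hF1⟩ : ∃ F : ℕ → ℝ, F = Fn (L + 1) := ⟨_, rfl⟩
      obtain ⟨F2, hF2⟩ : ∃ F : ℕ → ℝ, F = Fn (L + 1 + 1) := ⟨_, rfl⟩
      obtain ⟨A0, hA0⟩ : ∃ F : ℕ → ℝ, F = An L := ⟨_, rfl⟩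
      obtain ⟨A1, hA1⟩ : ∃ F : ℕ → ℝ, F = An (L + 1) := ⟨_, rfl⟩
      have hF0n : ∀ k, 0 ≤ F0 k := fun k => by rw [hF0]; exact Fn_nonneg _ k
      have hF1n : ∀ k, 0 ≤ F1 k := fun k => by rw [hF1]; exact Fn_nonneg _ k
      have hF2n : ∀ k, 0 ≤ F2 k := fun k => by rw [hF2]; exact Fn_nonneg _ k
      have hA0n : ∀ k, 0 ≤ A0 k := fun k => by rw [hA0]; exact An_nonneg _ k
      have hA1n : ∀ k, 0 ≤ A1 k := fun k => by rw [hA1]; exact An_nonneg _ k
      have hA0z : ∀ k, k ≤ L → A0 k = 0 := fun k hk => by rw [hA0]; exact An_zero L k hk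
      have hA1z : A1 0 = 0 := by rw [hA1]; exact An_zero (L + 1) 0 (by omega)
      have hF01 : ∀ k, F0 k ≤ F1 k := fun k => by rw [hF0, hF1]; exact Fn_mono L k
      have hF12 : ∀ k, F1 k ≤ F2 k := fun k => by rw [hF1, hF2]; exact Fn_mono (L + 1) k
      have hih : ∀ k, k ≤ p → θ * A0 k ≤ A1 (k + 1) := fun k h1 => by
        rw [hθ, hA0, hA1]
        exact ih k (by omega)
      have hFs : ∀ i, L ≤ i → (θ + 1 / (L : ℝ)) * F1 i ≤ F2 (i + 1) := fun i hi => by
        rw [hF1, hF2]
        exact hF i hi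
      have r0 := An_rec L p
      have r1 := An_rec (L + 1) (p + 1)
      rw [← hF0, ← hF1, ← hA0] at r0
      rw [← hF1, ← hF2, ← hA1] at r1
      rw [← hA0, ← hA1]
      -- lower bounds of the three sums at level p + 1
      have l1 : θ * ∑ k ∈ range (p + 1), (((min L (k + 1) : ℕ) : ℝ) + 1) * (A0 k * F1 (p - k)) ≤
          ∑ k ∈ range (p + 1 + 1), ((min (L + 1) (k + 1) : ℕ) : ℝ) * (A1 k * F2 (p + 1 - k)) := by
        rw [Finset.sum_range_succ' _ (p + 1), hA1z, zero_mul, mul_zero, add_zero, Finset.mul_sum]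
        apply Finset.sum_le_sum
        intro k hk
        have hk' : k ≤ p := by have := mem_range.mp hk; omega
        have q : p + 1 - (k + 1) = p - k := by omega
        rw [q]
        rcases Nat.lt_or_ge L k with h | h
        · have h1 := hih k hk'
          have h2 := hF12 (p - k)
          have q1 : min L (k + 1) = L := by omega
          have q2 : min (L + 1) (k + 1 + 1) = L + 1 := by omega
          rw [q1, q2]
          have h3 : (θ * A0 k) * F1 (p - k) ≤ A1 (k + 1) * F2 (p - k) :=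
            mul_le_mul h1 h2 (hF1n _) (hA1n _)
          have h4 := mul_le_mul_of_nonneg_left h3 (show (0 : ℝ) ≤ (L : ℝ) + 1 by positivity)
          push_cast
          linarith
        · rw [hA0z k h, zero_mul, mul_zero, mul_zero]
          exact mul_nonneg (Nat.cast_nonneg _) (mul_nonneg (hA1n _) (hF2n _))
      have l2 : θ * ∑ k ∈ range (p + 1), ((min L (k + 1) : ℕ) : ℝ) * (F0 k * A0 (p - k)) ≤
          ∑ k ∈ range (p + 1 + 1), ((min (L + 1) (k + 1) : ℕ) : ℝ) * (F1 k * A1 (p + 1 - k)) := by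
        rw [Finset.sum_range_succ _ (p + 1), Nat.sub_self, hA1z, mul_zero, mul_zero, add_zero,
          Finset.mul_sum]
        apply Finset.sum_le_sum
        intro k hk
        have hk' : k ≤ p := by have := mem_range.mp hk; omega
        have q : p + 1 - k = (p - k) + 1 := by omega
        rw [q]
        have h1 := hih (p - k) (by omega)
        have h2 := hF01 k
        have h3 : ((min L (k + 1) : ℕ) : ℝ) ≤ ((min (L + 1) (k + 1) : ℕ) : ℝ) := by
          exact_mod_cast (by omega : min L (k + 1) ≤ min (L + 1) (k + 1))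
        have h4 : F0 k * (θ * A0 (p - k)) ≤ F1 k * A1 (p - k + 1) :=
          mul_le_mul h2 h1 (mul_nonneg hθ0 (hA0n _)) (hF1n _)
        have h5 : ((min L (k + 1) : ℕ) : ℝ) * (F0 k * (θ * A0 (p - k))) ≤
            ((min (L + 1) (k + 1) : ℕ) : ℝ) * (F1 k * A1 (p - k + 1)) :=
          mul_le_mul h3 h4 (mul_nonneg (hF0n _) (mul_nonneg hθ0 (hA0n _))) (Nat.cast_nonneg _)
        linarith
      have l3 : (θ + 1 / (L : ℝ)) * ∑ k ∈ range (p + 1), (if L ≤ k then F1 k * F1 (p - k) else 0) ≤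
          ∑ k ∈ range (p + 1 + 1), (if L + 1 ≤ k then F2 k * F2 (p + 1 - k) else 0) := by
        rw [Finset.sum_range_succ' _ (p + 1), if_neg (by omega), add_zero, Finset.mul_sum]
        apply Finset.sum_le_sum
        intro k hk
        have hk' : k ≤ p := by have := mem_range.mp hk; omega
        have q : p + 1 - (k + 1) = p - k := by omega
        rw [q]
        by_cases h : L ≤ k
        · rw [if_pos h, if_pos (by omega)]
          have h1 := hFs k h
          have h2 := hF12 (p - k)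
          have h3 : ((θ + 1 / (L : ℝ)) * F1 k) * F1 (p - k) ≤ F2 (k + 1) * F2 (p - k) :=
            mul_le_mul h1 h2 (hF1n _) (hF2n _)
          linarith
        · rw [if_neg h, mul_zero, if_neg (by omega)]
      obtain ⟨S, hS⟩ : ∃ S : ℝ, S = ∑ k ∈ range (p + 1), (if L ≤ k then F1 k * F1 (p - k) else 0) := ⟨_, rfl⟩
      obtain ⟨V, hV⟩ : ∃ V : ℝ, V = ∑ k ∈ range (p + 1), A0 k * F1 (p - k) := ⟨_, rfl⟩
      obtain ⟨P, hP⟩ : ∃ P : ℝ, P = ∑ k ∈ range (p + 1), ((min L (k + 1) : ℕ) : ℝ) * (A0 k * F1 (p - k)) := ⟨_, rfl⟩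
      obtain ⟨R, hR⟩ : ∃ R : ℝ, R = ∑ k ∈ range (p + 1), ((min L (k + 1) : ℕ) : ℝ) * (F0 k * A0 (p - k)) := ⟨_, rfl⟩
      have e1 : ∑ k ∈ range (p + 1), (((min L (k + 1) : ℕ) : ℝ) + 1) * (A0 k * F1 (p - k)) = P + V := by
        rw [hP, hV, ← Finset.sum_add_distrib]
        apply Finset.sum_congr rfl
        intro k _
        ring
      rw [e1] at l1
      rw [← hR] at l2
      rw [← hS] at l3
      have r0' : E * (((p : ℝ) + 1) * A0 (p + 1)) = P + R + S := by
        rw [hP, hR, hS]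
        exact r0
      have hS0 : 0 ≤ S := by
        rw [hS]
        apply Finset.sum_nonneg
        intro k _
        split_ifs
        · exact mul_nonneg (hF1n _) (hF1n _)
        · exact le_rfl
      have hV0 : 0 ≤ V := by
        rw [hV]
        exact Finset.sum_nonneg fun k _ => mul_nonneg (hA0n _) (hF1n _)
      -- the comparison
      have hPR : P + R ≤ (p : ℝ) * V := by
        have hR2 : R = ∑ k ∈ range (p + 1), ((min L (p - k + 1) : ℕ) : ℝ) * (F0 (p - k) * A0 k) := by
          rw [hR, ← sum_rev (fun k => ((min L (k + 1) : ℕ) : ℝ) * (F0 k * A0 (p - k))) p]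
          apply Finset.sum_congr rfl
          intro k hk
          have hk' : k ≤ p := by have := mem_range.mp hk; omega
          have q : p - (p - k) = k := by omega
          rw [q]
        rw [hP, hR2, hV, ← Finset.sum_add_distrib, Finset.mul_sum]
        apply Finset.sum_le_sum
        intro k hk
        have hk' : k ≤ p := by have := mem_range.mp hk; omega
        rcases Nat.lt_or_ge L k with h | h
        · have h1 : min L (k + 1) + min L (p - k + 1) ≤ p := by omega
          have h2 : ((min L (k + 1) : ℕ) : ℝ) + ((min L (p - k + 1) : ℕ) : ℝ) ≤ p := by exact_mod_cast h1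
          have h3 : F0 (p - k) * A0 k ≤ A0 k * F1 (p - k) := by
            rw [mul_comm]
            exact mul_le_mul_of_nonneg_left (hF01 _) (hA0n _)
          have h4 : ((min L (p - k + 1) : ℕ) : ℝ) * (F0 (p - k) * A0 k) ≤
              ((min L (p - k + 1) : ℕ) : ℝ) * (A0 k * F1 (p - k)) :=
            mul_le_mul_of_nonneg_left h3 (Nat.cast_nonneg _)
          have h5 := mul_le_mul_of_nonneg_right h2 (mul_nonneg (hA0n k) (hF1n (p - k)))
          linarith
        · rw [hA0z k h]
          simp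
      have hp0 : (0 : ℝ) ≤ p := Nat.cast_nonneg p
      have hLp : (L : ℝ) ≤ p := by exact_mod_cast hpL
      have k1 : ((p : ℝ) + 1) * (E * A0 (p + 1)) ≤ ((p : ℝ) + 1) * (V + 1 / ((p : ℝ) + 1) * S) := by
        have h1 : ((p : ℝ) + 1) * (V + 1 / ((p : ℝ) + 1) * S) = ((p : ℝ) + 1) * V + S := by
          field_simp
        rw [h1]
        linarith
      have k2 := le_of_mul_le_mul_left k1 (by positivity)
      have k3 : 1 / ((p : ℝ) + 1) * S ≤ 1 / (L : ℝ) * S := by
        apply mul_le_mul_of_nonneg_right _ hS0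
        exact one_div_le_one_div_of_le hL0 (by linarith)
      have k4 : θ * (E * A0 (p + 1)) ≤ θ * V + 1 / (L : ℝ) * S := by
        have h1 := mul_le_mul_of_nonneg_left (k2.trans (by linarith : V + 1 / ((p : ℝ) + 1) * S ≤
          V + 1 / (L : ℝ) * S)) hθ0
        have h2 : θ * (1 / (L : ℝ) * S) ≤ 1 * (1 / (L : ℝ) * S) :=
          mul_le_mul_of_nonneg_right hθ1 (by positivity)
        linarith
      have hfin : E * (((p : ℝ) + 2) * (θ * A0 (p + 1))) ≤ E * (((p : ℝ) + 2) * A1 (p + 1 + 1)) := by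
        have h0 : E * (((p : ℝ) + 2) * A1 (p + 1 + 1)) = E * ((((p + 1 : ℕ) : ℝ) + 1) * A1 (p + 1 + 1)) := by
          push_cast
          ring
        rw [h0, r1]
        have h1 : E * (((p : ℝ) + 2) * (θ * A0 (p + 1))) =
            θ * (E * (((p : ℝ) + 1) * A0 (p + 1))) + θ * (E * A0 (p + 1)) := by ring
        rw [h1, r0']
        linarith
      exact le_of_mul_le_mul_left (le_of_mul_le_mul_left hfin hE) (by positivity)
    · rw [An_zero L n hn, mul_zero]
      exact An_nonneg _ _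

end Pool.Agent.MP_9da1e3_co
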