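import Pool.Agent.Lib.MP_9da1e3_co.Lf4

namespace Pool.Agent.MP_9da1e3_co

open Finset

/-- the kernel of the recursions -/
noncomputable def KK (L x : ℕ) : ℝ := (L : ℝ) * Fn (L + 1) x + ((min L (x + 1) : ℕ) : ℝ) * Fn L x

lemma KK_nonneg (L x : ℕ) : 0 ≤ KK L x :=
  add_nonneg (mul_nonneg (Nat.cast_nonneg _) (Fn_nonneg _ _))
    (mul_nonneg (Nat.cast_nonneg _) (Fn_nonneg _ _))

lemma KK_succ_le (L x : ℕ) : KK L (x + 1) ≤ KK L x := by
  unfold KK
  have h1 := mul_le_mul_of_nonneg_left (Fn_anti (L + 1) x) (Nat.cast_nonneg (α := ℝ) L)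
  have h2 : ((min L (x + 1 + 1) : ℕ) : ℝ) * Fn L (x + 1) ≤ ((min L (x + 1) : ℕ) : ℝ) * Fn L x := by
    rcases Nat.lt_or_ge (x + 1) L with h | h
    · have m1 : min L (x + 1 + 1) = x + 2 := by omega
      have m2 : min L (x + 1) = x + 1 := by omega
      rw [m1, m2]
      have := G_dec L x
      push_cast
      exact this
    · have m1 : min L (x + 1 + 1) = L := by omega
      have m2 : min L (x + 1) = L := by omega
      rw [m1, m2]
      exact mul_le_mul_of_nonneg_left (Fn_anti L x) (Nat.cast_nonneg _)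
  linarith

lemma KK_anti (L : ℕ) {a b : ℕ} (h : a ≤ b) : KK L b ≤ KK L a := by
  induction h with
  | refl => exact le_rfl
  | step _ ih => exact (KK_succ_le L _).trans ih

lemma A_rec2 (L n : ℕ) : E * (((n : ℝ) + 1) * An L (n + 1)) =
    ∑ j ∈ range (n + 1), An L j * KK L (n - j) +
    ∑ k ∈ range (n + 1), (if L ≤ k then Fn (L + 1) k * Fn (L + 1) (n - k) else 0) := by
  rw [An_rec]
  congr 1
  have e1 : ∑ k ∈ range (n + 1), ((min L (k + 1) : ℕ) : ℝ) * (An L k * Fn (L + 1) (n - k)) =
      ∑ j ∈ range (n + 1), An L j * ((L : ℝ) * Fn (L + 1) (n - j)) := by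
    apply Finset.sum_congr rfl
    intro k _
    rcases Nat.lt_or_ge L k with h | h
    · have m1 : min L (k + 1) = L := by omega
      rw [m1]
      ring
    · rw [An_zero L k h]
      ring
  have e2 : ∑ k ∈ range (n + 1), ((min L (k + 1) : ℕ) : ℝ) * (Fn L k * An L (n - k)) =
      ∑ j ∈ range (n + 1), An L j * (((min L (n - j + 1) : ℕ) : ℝ) * Fn L (n - j)) := by
    rw [← Finset.sum_range_reflect]
    apply Finset.sum_congr rfl
    intro j hj
    have hj' := mem_range.mp hj
    have q1 : n + 1 - 1 - j = n - j := by omega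
    have q2 : n - (n - j) = j := by omega
    rw [q1, q2]
    ring
  rw [e1, e2, ← Finset.sum_add_distrib]
  apply Finset.sum_congr rfl
  intro j _
  unfold KK
  ring

lemma KK_diff (L x : ℕ) : KK (L + 1) x - KK L x =
    Fn (L + 2) x + (L : ℝ) * An (L + 1) x + (if L ≤ x then Fn (L + 1) x else 0) +
      (L : ℝ) * An L x := by
  by_cases h : L ≤ x
  · rw [if_pos h]
    unfold KK An
    have m1 : min (L + 1) (x + 1) = L + 1 := by omega
    have m0 : min L (x + 1) = L := by omega
    rw [m1, m0]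
    push_cast
    ring
  · rw [if_neg h]
    have a0 := An_zero L x (by omega)
    have a1 := An_zero (L + 1) x (by omega)
    have b0 : Fn (L + 1) x = Fn L x := by
      unfold An at a0
      linarith
    have b1 : Fn (L + 1 + 1) x = Fn (L + 1) x := by
      unfold An at a1
      linarith
    rw [a0, a1]
    unfold KK
    have m1 : min (L + 1) (x + 1) = x + 1 := by omega
    have m0 : min L (x + 1) = x + 1 := by omega
    rw [m1, m0, b1, b0]
    push_cast
    ring

/-- the second difference in `L` -/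
noncomputable def Bn (L n : ℕ) : ℝ := An (L + 1) n - An L n

lemma B_rec (L n : ℕ) (hn : L ≤ n) : E * (((n : ℝ) + 1) * Bn L (n + 1)) =
    ∑ j ∈ range (n + 1), Bn L j * KK (L + 1) (n - j) +
    ∑ j ∈ range (n + 1), An L j * (Fn (L + 2) (n - j) + (L : ℝ) * An (L + 1) (n - j) +
      (if L ≤ n - j then Fn (L + 1) (n - j) else 0) + (L : ℝ) * An L (n - j)) +
    ∑ k ∈ range (n + 1), An (L + 1) k * Fn (L + 2) (n - k) +
    ∑ k ∈ range (n + 1), (if L + 1 ≤ k then Fn (L + 1) k * An (L + 1) (n - k) else 0) -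
    tn L * Fn (L + 1) (n - L) := by
  have r1 := A_rec2 (L + 1) n
  have r0 := A_rec2 L n
  have e1 : ∑ j ∈ range (n + 1), An (L + 1) j * KK (L + 1) (n - j) -
      ∑ j ∈ range (n + 1), An L j * KK L (n - j) =
      ∑ j ∈ range (n + 1), Bn L j * KK (L + 1) (n - j) +
      ∑ j ∈ range (n + 1), An L j * (Fn (L + 2) (n - j) + (L : ℝ) * An (L + 1) (n - j) +
      (if L ≤ n - j then Fn (L + 1) (n - j) else 0) + (L : ℝ) * An L (n - j)) := by
    rw [← Finset.sum_sub_distrib, ← Finset.sum_add_distrib]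
    apply Finset.sum_congr rfl
    intro j _
    rw [← KK_diff L (n - j)]
    unfold Bn
    ring
  have e2 : ∑ k ∈ range (n + 1), (if L + 1 ≤ k then Fn (L + 1 + 1) k * Fn (L + 1 + 1) (n - k)
        else 0) -
      ∑ k ∈ range (n + 1), (if L ≤ k then Fn (L + 1) k * Fn (L + 1) (n - k) else 0) =
      ∑ k ∈ range (n + 1), An (L + 1) k * Fn (L + 2) (n - k) +
      ∑ k ∈ range (n + 1), (if L + 1 ≤ k then Fn (L + 1) k * An (L + 1) (n - k) else 0) -
      tn L * Fn (L + 1) (n - L) := by
    have e3 : tn L * Fn (L + 1) (n - L) =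
        ∑ k ∈ range (n + 1), (if k = L then Fn (L + 1) k * Fn (L + 1) (n - k) else 0) := by
      rw [Finset.sum_ite_eq' (range (n + 1)) L (fun k => Fn (L + 1) k * Fn (L + 1) (n - k)),
        if_pos (mem_range.mpr (by omega)), Fn_eq_tn (L + 1) L (by omega)]
    rw [e3, ← Finset.sum_sub_distrib, ← Finset.sum_add_distrib, ← Finset.sum_sub_distrib]
    apply Finset.sum_congr rfl
    intro k _
    rcases Nat.lt_trichotomy k L with h | h | h
    · rw [if_neg (by omega), if_neg (by omega), if_neg (by omega), if_neg (by omega),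
        An_zero (L + 1) k (by omega)]
      ring
    · rw [if_neg (by omega), if_pos (by omega), if_neg (by omega), if_pos h,
        An_zero (L + 1) k (by omega)]
      ring
    · rw [if_pos (by omega), if_pos (by omega), if_pos (by omega), if_neg (by omega)]
      unfold An
      ring
  have e4 : E * (((n : ℝ) + 1) * Bn L (n + 1)) =
      E * (((n : ℝ) + 1) * An (L + 1) (n + 1)) - E * (((n : ℝ) + 1) * An L (n + 1)) := by
    unfold Bn
    ring
  rw [e4, r1, r0]
  linarith

end Pool.Agent.MP_9da1e3_co
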