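import Pool.Agent.Lib.MP_9da1e3_co.Lf5

namespace Pool.Agent.MP_9da1e3_co

open Finset

/-- the part of the recursion with an index `≥ L` -/
noncomputable def SL (L m : ℕ) : ℝ :=
  ∑ i ∈ range (m + 1), Fn (L + 1) (L + i) * Fn (L + 1) (m - i)

lemma SL_eq (L m : ℕ) : ∑ k ∈ range (L + m + 1),
    (if L ≤ k then Fn (L + 1) k * Fn (L + 1) (L + m - k) else 0) = SL L m := by
  have h1 : L + m + 1 = L + (m + 1) := by omega
  rw [h1, Finset.sum_range_add]
  rw [Finset.sum_eq_zero (fun k hk => if_neg (by have := mem_range.mp hk; omega)), zero_add]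
  unfold SL
  apply Finset.sum_congr rfl
  intro i hi
  rw [if_pos (by omega)]
  have q : L + m - (L + i) = m - i := by omega
  rw [q]

lemma SL_ge (L m : ℕ) (hm : m ≤ L) :
    (E - 8 / √((m : ℝ) + 1)) * Fn (L + 1) (L + m + 1) ≤ SL L m := by
  have e : SL L m = ∑ j ∈ range (m + 1), Fn (L + 1) (L + (m - j)) * Fn (L + 1) j := by
    unfold SL
    rw [← Finset.sum_range_reflect]
    apply Finset.sum_congr rfl
    intro j hj
    have := mem_range.mp hj
    have q1 : m + 1 - 1 - j = m - j := by omega
    have q2 : m - (m - j) = j := by omega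
    rw [q1, q2]
  rw [e]
  have h1 := sum_tn_low (m + 1) (by omega)
  push_cast at h1
  have h2 := mul_le_mul_of_nonneg_right h1 (Fn_nonneg (L + 1) (L + m + 1))
  refine h2.trans ?_
  rw [Finset.sum_mul]
  apply Finset.sum_le_sum
  intro j hj
  have hj' := mem_range.mp hj
  rw [Fn_eq_tn (L + 1) j (by omega), mul_comm]
  exact mul_le_mul_of_nonneg_right (Fn_le_of_le (L + 1) (by omega)) (tn_pos j).le

lemma tn_near (a b : ℕ) (h : a ≤ b) (hb : (b : ℝ) + 1 ≤ 1.001 * ((a : ℝ) + 1)) :
    0.99 * tn a ≤ tn b := by
  have h1 := tn_le_sq h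
  have ht := tn_pos b
  have hta := tn_pos a
  have ha : (0 : ℝ) < (a : ℝ) + 1 := by positivity
  have h2 : ((b : ℝ) + 1) ^ 2 * tn b ≤ (1.001 * ((a : ℝ) + 1)) ^ 2 * tn b :=
    mul_le_mul_of_nonneg_right (pow_le_pow_left₀ (by positivity) hb 2) ht.le
  have h3 : ((a : ℝ) + 1) ^ 2 * tn a ≤ ((a : ℝ) + 1) ^ 2 * (1.001 ^ 2 * tn b) := by
    refine h1.trans (h2.trans (le_of_eq ?_))
    ring
  have h4 := le_of_mul_le_mul_left h3 (by positivity)
  norm_num at h4 ⊢
  linarith

/-- `Fn (L+1)` is comparable with `tn` up to `L + 1000` -/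
lemma Fn_half (L n : ℕ) (hL : (10 : ℝ) ^ 100 ≤ L) (hn : (n : ℝ) ≤ (L : ℝ) + 10 ^ 11) :
    tn n / 2 ≤ Fn (L + 1) n := by
  have hL0 : (0 : ℝ) < L := lt_of_lt_of_le (by positivity) hL
  have hLbig : (10 : ℝ) ^ 30 ≤ L := le_trans (pow_le_pow_right₀ (by norm_num) (by norm_num)) hL
  rcases Nat.lt_or_ge n (L + 1) with h | h
  · rw [Fn_eq_tn (L + 1) n (by omega)]
    have := tn_pos n
    linarith
  · apply Fn_ge (L + 1) n (by omega) h
    · have h1 : (n : ℝ) ≤ 2 * ((L : ℝ) + 1) := by
        have : (10 : ℝ) ^ 11 ≤ L := le_trans (pow_le_pow_right₀ (by norm_num) (by norm_num)) hL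
        linarith
      exact_mod_cast h1
    · have h1 : (n : ℝ) - ((L + 1 : ℕ) : ℝ) ≤ 10 ^ 11 := by
        push_cast
        linarith
      have h0 : 0 ≤ (n : ℝ) - ((L + 1 : ℕ) : ℝ) := by
        have : ((L + 1 : ℕ) : ℝ) ≤ n := by exact_mod_cast h
        linarith
      have h2 : √((n : ℝ) - ((L + 1 : ℕ) : ℝ)) ≤ 10 ^ 6 := by
        apply Real.sqrt_le_iff.mpr
        refine ⟨by positivity, h1.trans (by norm_num)⟩
      have h3 : ((n : ℝ) - ((L + 1 : ℕ) : ℝ)) * √((n : ℝ) - ((L + 1 : ℕ) : ℝ)) ≤ 10 ^ 11 * 10 ^ 6 :=
        mul_le_mul h1 h2 (Real.sqrt_nonneg _) (by positivity)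
      refine h3.trans ?_
      push_cast
      norm_num at hLbig ⊢
      linarith

/-- lower bound of `SL` by the nearly singular terms -/
lemma SL_big (L m : ℕ) (hL : (10 : ℝ) ^ 100 ≤ L) (hm : (10 : ℝ) ^ 20 ≤ m) (hmL : m ≤ L + 1000) :
    10 ^ 9 * (tn L * tn m) ≤ SL L m := by
  have hL0 : (0 : ℝ) < L := lt_of_lt_of_le (by positivity) hL
  have hLbig : (10 : ℝ) ^ 30 ≤ L := le_trans (pow_le_pow_right₀ (by norm_num) (by norm_num)) hL
  have hmL' : (m : ℝ) ≤ (L : ℝ) + 1000 := by exact_mod_cast hmL
  have hmN : 10000000000 ≤ m := by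
    have : (10000000000 : ℝ) ≤ m := le_trans (by norm_num) hm
    exact_mod_cast this
  have htL := tn_pos L
  have htm := tn_pos m
  have h1 : ∑ i ∈ range 10000000000, Fn (L + 1) (L + i) * Fn (L + 1) (m - i) ≤ SL L m := by
    unfold SL
    apply Finset.sum_le_sum_of_subset_of_nonneg
    · apply Finset.range_subset_range.mpr
      omega
    · intro i _ _
      exact mul_nonneg (Fn_nonneg _ _) (Fn_nonneg _ _)
  refine le_trans ?_ h1
  have h2 : ∀ i ∈ range 10000000000, 0.2 * (tn L * tn m) ≤ Fn (L + 1) (L + i) * Fn (L + 1) (m - i) := by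
    intro i hi
    have hi' := mem_range.mp hi
    have hi0 : (i : ℝ) ≤ 10000000000 := by exact_mod_cast hi'.le
    have a1 := Fn_half L (L + i) hL (by
      push_cast
      norm_num at hi0 ⊢
      linarith)
    have a2 := tn_near L (L + i) (by omega) (by
      push_cast
      norm_num at hLbig ⊢
      linarith)
    have a3 := Fn_half L m hL (by
      norm_num at hmL' ⊢
      linarith)
    have a4 : Fn (L + 1) m ≤ Fn (L + 1) (m - i) := Fn_le_of_le (L + 1) (by omega)
    have a5 : 0.49 * tn L ≤ Fn (L + 1) (L + i) := by
      norm_num at a2 ⊢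
      linarith
    have a6 : 0.5 * tn m ≤ Fn (L + 1) (m - i) := by
      norm_num
      linarith
    have a7 := mul_le_mul a5 a6 (by positivity) (Fn_nonneg _ _)
    have a8 : 0 < tn L * tn m := by positivity
    norm_num at a7 ⊢
    linarith
  have h3 := Finset.sum_le_sum h2
  rw [Finset.sum_const, card_range, nsmul_eq_mul] at h3
  have h4 : 0 < tn L * tn m := by positivity
  push_cast at h3
  norm_num at h3 ⊢
  linarith

/-- `L * An L n ≥ 0.99 * Fn (L+1) n` away from `L` -/
theorem A_lam (L : ℕ) (hL : (10 : ℝ) ^ 100 ≤ L) : ∀ n : ℕ, L + 500 ≤ n →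
    Fn L n ≤ (1 - 0.99 / (L : ℝ)) * Fn (L + 1) n := by
  have hL0 : (0 : ℝ) < L := lt_of_lt_of_le (by positivity) hL
  have hLbig : (10 : ℝ) ^ 90 ≤ L := le_trans (pow_le_pow_right₀ (by norm_num) (by norm_num)) hL
  have hE := E_ge
  have hEp := E_pos
  intro n
  induction n using Nat.strong_induction_on with
  | _ n ih =>
    intro hn
    obtain ⟨m, rfl⟩ : ∃ m, n = L + m + 1 := ⟨n - L - 1, by omega⟩
    have hm499 : 499 ≤ m := by omega
    rcases le_or_gt ((((m + 1 : ℕ) : ℝ)) * √(((m + 1 : ℕ) : ℝ))) ((L : ℝ) / 12) with hc | hc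
    · -- near L
      have hy1 : (1 : ℝ) ≤ √(((m + 1 : ℕ) : ℝ)) := by
        apply Real.one_le_sqrt.mpr
        exact_mod_cast (by omega : 1 ≤ m + 1)
      have hyL : m + 1 ≤ L := by
        have h1 : (((m + 1 : ℕ) : ℝ)) * 1 ≤ (((m + 1 : ℕ) : ℝ)) * √(((m + 1 : ℕ) : ℝ)) :=
          mul_le_mul_of_nonneg_left hy1 (Nat.cast_nonneg _)
        have h2 : (((m + 1 : ℕ) : ℝ)) ≤ L := by linarith
        exact_mod_cast h2
      have h1 := A_ge_small' L (m + 1) (by
        have : (1 : ℝ) ≤ L := by
          norm_num at hLbig
          linarith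
        exact_mod_cast this) hyL hc
      have h2 := (Fn_le_tn (L + 1) (L + m + 1)).trans (tn_le (L + m + 1))
      have hs : 22 ≤ √(((m + 1 : ℕ) : ℝ)) := by
        apply Real.le_sqrt_of_sq_le
        have : (500 : ℝ) ≤ ((m + 1 : ℕ) : ℝ) := by exact_mod_cast (by omega : 500 ≤ m + 1)
        norm_num at this ⊢
        linarith
      have hsq : √(L : ℝ) ≤ sq (L + m + 1) := by
        unfold sq
        apply Real.sqrt_le_sqrt
        push_cast
        have : (0 : ℝ) ≤ m := Nat.cast_nonneg m
        linarith
      have hsL : 0 < √(L : ℝ) := Real.sqrt_pos.mpr hL0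
      have h3 : Fn (L + 1) (L + m + 1) ≤ 1.1 / ((L : ℝ) * √(L : ℝ)) := by
        refine h2.trans ?_
        apply div_le_div_of_nonneg_left (by norm_num) (by positivity)
        apply mul_le_mul _ hsq hsL.le (by positivity)
        push_cast
        have : (0 : ℝ) ≤ m := Nat.cast_nonneg m
        linarith
      have h4 : 1.15 / ((L : ℝ) * √(L : ℝ)) ≤ (L : ℝ) * An L (L + (m + 1)) := by
        have h5 : 22 / (19.1 * ((L : ℝ) * L * √(L : ℝ))) ≤ An L (L + (m + 1)) :=
          le_trans (div_le_div_of_nonneg_right hs (by positivity)) h1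
        have h6 := mul_le_mul_of_nonneg_left h5 hL0.le
        refine le_trans ?_ h6
        have e : (L : ℝ) * (22 / (19.1 * ((L : ℝ) * L * √(L : ℝ)))) =
            22 / 19.1 / ((L : ℝ) * √(L : ℝ)) := by
          field_simp
        rw [e]
        apply div_le_div_of_nonneg_right _ (by positivity)
        norm_num
      have h5 : 1.1 / ((L : ℝ) * √(L : ℝ)) ≤ 1.15 / ((L : ℝ) * √(L : ℝ)) :=
        div_le_div_of_nonneg_right (by norm_num) (by positivity)
      have q : L + (m + 1) = L + m + 1 := by omega
      rw [q] at h4
      have hF := Fn_nonneg (L + 1) (L + m + 1)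
      have h6 : 0.99 * Fn (L + 1) (L + m + 1) ≤ (L : ℝ) * An L (L + m + 1) := by linarith
      unfold An at h6
      have h7 : 0.99 / (L : ℝ) * Fn (L + 1) (L + m + 1) ≤
          Fn (L + 1) (L + m + 1) - Fn L (L + m + 1) := by
        rw [div_mul_eq_mul_div, div_le_iff₀ hL0]
        linarith
      linarith
    · -- far from L
      have hmbig : (10 : ℝ) ^ 40 ≤ m := by
        by_contra hcon
        have h1 : ((m + 1 : ℕ) : ℝ) ≤ 2 * 10 ^ 40 := by
          push_cast
          have h0 := (not_le.mp hcon).le
          linarith [show (1 : ℝ) ≤ 10 ^ 40 by norm_num]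
        have h2 : √(((m + 1 : ℕ) : ℝ)) ≤ 2 * 10 ^ 40 := by
          apply Real.sqrt_le_iff.mpr
          refine ⟨by positivity, h1.trans (by norm_num)⟩
        have h3 : ((m + 1 : ℕ) : ℝ) * √(((m + 1 : ℕ) : ℝ)) ≤ (2 * 10 ^ 40) * (2 * 10 ^ 40) :=
          mul_le_mul h1 h2 (Real.sqrt_nonneg _) (by positivity)
        norm_num at h3 hLbig hc
        linarith
      have hm1000 : 1000 ≤ m := by
        have : (1000 : ℝ) ≤ m := le_trans (by norm_num) hmbig
        exact_mod_cast this
      obtain ⟨ρ, hρ⟩ : ∃ ρ : ℝ, ρ = 1 - 0.99 / (L : ℝ) := ⟨_, rfl⟩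
      have hlam : 0.99 / (L : ℝ) ≤ 0.001 := by
        rw [div_le_iff₀ hL0]
        norm_num at hLbig ⊢
        linarith
      have hlam0 : 0 ≤ 0.99 / (L : ℝ) := by positivity
      have hρ0 : 0.999 ≤ ρ := by
        rw [hρ]
        norm_num at hlam ⊢
        linarith
      rw [← hρ]
      obtain ⟨F0, hF0⟩ : ∃ F : ℕ → ℝ, F = Fn L := ⟨_, rfl⟩
      obtain ⟨F1, hF1⟩ : ∃ F : ℕ → ℝ, F = Fn (L + 1) := ⟨_, rfl⟩
      have hF0n : ∀ k, 0 ≤ F0 k := fun k => by rw [hF0]; exact Fn_nonneg _ k
      have hF1n : ∀ k, 0 ≤ F1 k := fun k => by rw [hF1]; exact Fn_nonneg _ k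
      have hF01 : ∀ k, F0 k ≤ F1 k := fun k => by rw [hF0, hF1]; exact Fn_mono L k
      have hih : ∀ k, L + 500 ≤ k → k ≤ L + m → F0 k ≤ ρ * F1 k := fun k h1 h2 => by
        rw [hF0, hF1, hρ]
        exact ih k (by omega) h1
      have hanti : ∀ {a b : ℕ}, a ≤ b → F1 b ≤ F1 a := fun {a b} h => by
        rw [hF1]
        exact Fn_le_of_le (L + 1) h
      have r0 := Fn_rec L (L + m)
      have r1 := Fn_rec (L + 1) (L + m)
      have hSe := SL_eq L m
      rw [← hF1] at hSe r1
      rw [← hF0] at r0
      rw [← hF0, ← hF1]
      obtain ⟨S, hS⟩ : ∃ S : ℝ, S = SL L m := ⟨_, rfl⟩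
      rw [← hS] at hSe
      obtain ⟨W, hW⟩ : ∃ W : ℝ, W = ∑ k ∈ range (L + m + 1),
        ((min L (k + 1) : ℕ) : ℝ) * (F1 k * F1 (L + m - k)) := ⟨_, rfl⟩
      have hW1 : E * ((((L + m : ℕ) : ℝ) + 1) * F1 (L + m + 1)) = W + S := by
        rw [r1, hW, ← hSe, ← Finset.sum_add_distrib]
        apply Finset.sum_congr rfl
        intro k _
        by_cases h : L ≤ k
        · rw [if_pos h]
          have m1 : min (L + 1) (k + 1) = L + 1 := by omega
          have m0 : min L (k + 1) = L := by omega
          rw [m1, m0]
          push_cast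
          ring
        · rw [if_neg h]
          have m1 : min (L + 1) (k + 1) = k + 1 := by omega
          have m0 : min L (k + 1) = k + 1 := by omega
          rw [m1, m0]
          ring
      have hN0 : (0 : ℝ) < ((L + m : ℕ) : ℝ) + 1 := by positivity
      have hS0 : 0 ≤ S := by
        rw [← hSe]
        apply Finset.sum_nonneg
        intro k _
        by_cases h : L ≤ k
        · rw [if_pos h]
          exact mul_nonneg (hF1n _) (hF1n _)
        · rw [if_neg h]
      -- it suffices to bound the sum
      have hgoal : (∑ k ∈ range (L + m + 1), ((min L (k + 1) : ℕ) : ℝ) * (F0 k * F0 (L + m - k)) ≤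
          ρ * W + ρ * S) → F0 (L + m + 1) ≤ ρ * F1 (L + m + 1) := by
        intro h
        rw [← r0] at h
        have h1 : E * ((((L + m : ℕ) : ℝ) + 1) * F0 (L + m + 1)) ≤
            E * ((((L + m : ℕ) : ℝ) + 1) * (ρ * F1 (L + m + 1))) := by
          have h2 : E * ((((L + m : ℕ) : ℝ) + 1) * (ρ * F1 (L + m + 1))) =
              ρ * (E * ((((L + m : ℕ) : ℝ) + 1) * F1 (L + m + 1))) := by ring
          rw [h2, hW1]
          linarith
        exact le_of_mul_le_mul_left (le_of_mul_le_mul_left h1 hEp) hN0
      apply hgoal
      have hcov : ∀ k, k ≤ L + m → (L + 500 ≤ k ∨ L + 500 ≤ L + m - k) →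
          ((min L (k + 1) : ℕ) : ℝ) * (F0 k * F0 (L + m - k)) ≤
          ρ * (((min L (k + 1) : ℕ) : ℝ) * (F1 k * F1 (L + m - k))) := by
        intro k hk h
        have h1 : F0 k * F0 (L + m - k) ≤ ρ * (F1 k * F1 (L + m - k)) := by
          rcases h with h | h
          · have h2 := mul_le_mul (hih k h hk) (hF01 (L + m - k)) (hF0n _)
              (mul_nonneg (by linarith) (hF1n _))
            linarith
          · have h2 := mul_le_mul (hF01 k) (hih (L + m - k) h (by omega)) (hF0n _) (hF1n _)
            linarith
        have h2 := mul_le_mul_of_nonneg_left h1 (Nat.cast_nonneg (α := ℝ) (min L (k + 1)))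
        linarith
      rcases Nat.lt_or_ge m (L + 1000) with hm2 | hm2
      swap
      · -- everything is covered
        have h1 : ∑ k ∈ range (L + m + 1), ((min L (k + 1) : ℕ) : ℝ) * (F0 k * F0 (L + m - k)) ≤
            ρ * W := by
          rw [hW, Finset.mul_sum]
          apply Finset.sum_le_sum
          intro k hk
          have hk' := mem_range.mp hk
          apply hcov k (by omega)
          omega
        have h2 : 0 ≤ ρ * S := mul_nonneg (by linarith) hS0
        linarith
      · have htL := tn_pos L
        have htm := tn_pos m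
        have htm5 := tn_pos (m - 500)
        have hmL : (m : ℝ) ≤ (L : ℝ) + 1000 := by exact_mod_cast hm2.le
        have hSbig := SL_big L m hL (le_trans (by norm_num) hmbig) (by omega)
        rw [← hS] at hSbig
        have hnear := tn_near (m - 500) m (by omega) (by
          have h1 : (((m - 500 : ℕ)) : ℝ) = (m : ℝ) - 500 := by
            rw [Nat.cast_sub (by omega)]
            norm_num
          rw [h1]
          have h10 : (1000000000000 : ℝ) ≤ m := le_trans (by norm_num) hmbig
          linarith)
        obtain ⟨c1, hc1⟩ : ∃ c : ℝ, c = (L : ℝ) * (tn L * tn (m - 500)) := ⟨_, rfl⟩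
        have hc10 : 0 ≤ c1 := by rw [hc1]; exact mul_nonneg hL0.le (mul_pos htL htm5).le
        have hc1S : 10 ^ 8 * c1 ≤ L * S := by
          rw [hc1]
          have h1 : tn (m - 500) ≤ 2 * tn m := by
            norm_num at hnear ⊢
            linarith
          have h2 : tn L * tn (m - 500) ≤ tn L * (2 * tn m) := mul_le_mul_of_nonneg_left h1 htL.le
          have h3 : 10 ^ 8 * (tn L * tn (m - 500)) ≤ S := by
            norm_num at hSbig ⊢
            linarith
          have h4 := mul_le_mul_of_nonneg_left h3 hL0.le
          norm_num at h4 ⊢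
          linarith
        have hF1L : F1 L = tn L := by rw [hF1]; exact Fn_eq_tn (L + 1) L (by omega)
        obtain ⟨Z, hZ⟩ : ∃ Z : ℕ → ℝ, Z = fun k => if k < L ∧ L + m - k < L then
          ((k : ℝ) + 1) * (F1 k * F1 (L + m - k)) else 0 := ⟨_, rfl⟩
        have hZn : ∀ k, 0 ≤ Z k := by
          intro k
          rw [hZ]
          dsimp only
          split_ifs
          · have := mul_nonneg (hF1n k) (hF1n (L + m - k))
            positivity
          · exact le_rfl
        -- pointwise bound
        have hpt : ∀ k ∈ range (L + m + 1), ((min L (k + 1) : ℕ) : ℝ) * (F0 k * F0 (L + m - k)) ≤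
            ρ * (((min L (k + 1) : ℕ) : ℝ) * (F1 k * F1 (L + m - k))) + 0.99 / (L : ℝ) * (Z k +
              ((if L ≤ k ∧ k < L + 500 then c1 else 0) +
                (if L ≤ L + m - k ∧ L + m - k < L + 500 then c1 else 0))) := by
          intro k hk
          have hk' : k ≤ L + m := by have := mem_range.mp hk; omega
          have i1 : (0 : ℝ) ≤ (if L ≤ k ∧ k < L + 500 then c1 else 0) := by
            split_ifs
            · exact hc10
            · exact le_rfl
          have i2 : (0 : ℝ) ≤ (if L ≤ L + m - k ∧ L + m - k < L + 500 then c1 else 0) := by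
            split_ifs
            · exact hc10
            · exact le_rfl
          by_cases hcc : L + 500 ≤ k ∨ L + 500 ≤ L + m - k
          · have h1 := hcov k hk' hcc
            have h2 : 0 ≤ 0.99 / (L : ℝ) * (Z k + ((if L ≤ k ∧ k < L + 500 then c1 else 0) +
                (if L ≤ L + m - k ∧ L + m - k < L + 500 then c1 else 0))) :=
              mul_nonneg hlam0 (add_nonneg (hZn k) (add_nonneg i1 i2))
            linarith
          · have hu1 : k < L + 500 := by omega
            have hu2 : L + m - k < L + 500 := by omega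
            have h1 : F0 k * F0 (L + m - k) ≤ F1 k * F1 (L + m - k) :=
              mul_le_mul (hF01 k) (hF01 _) (hF0n _) (hF1n _)
            have h2 := mul_le_mul_of_nonneg_left h1 (Nat.cast_nonneg (α := ℝ) (min L (k + 1)))
            have h3 : ((min L (k + 1) : ℕ) : ℝ) * (F1 k * F1 (L + m - k)) ≤ Z k +
              ((if L ≤ k ∧ k < L + 500 then c1 else 0) +
                (if L ≤ L + m - k ∧ L + m - k < L + 500 then c1 else 0)) := by
              have hmin : ((min L (k + 1) : ℕ) : ℝ) ≤ L := by exact_mod_cast min_le_left _ _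
              have hmin2 : ((min L (k + 1) : ℕ) : ℝ) ≤ (k : ℝ) + 1 := by
                exact_mod_cast min_le_right L (k + 1)
              have hFF := mul_nonneg (hF1n k) (hF1n (L + m - k))
              rcases Nat.lt_or_ge k L with h4 | h4
              · rcases Nat.lt_or_ge (L + m - k) L with h5 | h5
                · have h6 : Z k = ((k : ℝ) + 1) * (F1 k * F1 (L + m - k)) := by
                    rw [hZ]
                    dsimp only
                    rw [if_pos ⟨h4, h5⟩]
                  have h7 := mul_le_mul_of_nonneg_right hmin2 hFF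
                  linarith
                · have h6 : (if L ≤ L + m - k ∧ L + m - k < L + 500 then c1 else 0) = c1 :=
                    if_pos ⟨h5, hu2⟩
                  have h7 : F1 (L + m - k) ≤ tn L := by
                    rw [← hF1L]
                    exact hanti h5
                  have h8 : F1 k ≤ tn (m - 500) := by
                    refine (hanti (show m - 500 ≤ k by omega)).trans ?_
                    rw [hF1]
                    exact Fn_le_tn _ _
                  have h9 : F1 k * F1 (L + m - k) ≤ tn (m - 500) * tn L :=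
                    mul_le_mul h8 h7 (hF1n _) htm5.le
                  have h10 : ((min L (k + 1) : ℕ) : ℝ) * (F1 k * F1 (L + m - k)) ≤
                      L * (tn (m - 500) * tn L) := mul_le_mul hmin h9 hFF hL0.le
                  have h11 := hZn k
                  rw [h6]
                  have h12 : (L : ℝ) * (tn (m - 500) * tn L) = c1 := by rw [hc1]; ring
                  linarith
              · have h6 : (if L ≤ k ∧ k < L + 500 then c1 else 0) = c1 := if_pos ⟨h4, hu1⟩
                have h7 : F1 k ≤ tn L := by
                  rw [← hF1L]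
                  exact hanti h4
                have h8 : F1 (L + m - k) ≤ tn (m - 500) := by
                  refine (hanti (show m - 500 ≤ L + m - k by omega)).trans ?_
                  rw [hF1]
                  exact Fn_le_tn _ _
                have h9 : F1 k * F1 (L + m - k) ≤ tn L * tn (m - 500) :=
                  mul_le_mul h7 h8 (hF1n _) htL.le
                have h10 : ((min L (k + 1) : ℕ) : ℝ) * (F1 k * F1 (L + m - k)) ≤
                    L * (tn L * tn (m - 500)) := mul_le_mul hmin h9 hFF hL0.le
                have h11 := hZn k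
                rw [h6]
                linarith
            have h4 := mul_le_mul_of_nonneg_left h3 hlam0
            rw [hρ]
            linarith
        have hsum := Finset.sum_le_sum hpt
        rw [Finset.sum_add_distrib, ← Finset.mul_sum, ← hW, ← Finset.mul_sum,
          Finset.sum_add_distrib, Finset.sum_add_distrib] at hsum
        have hi1 : ∑ k ∈ range (L + m + 1), (if L ≤ k ∧ k < L + 500 then c1 else 0) ≤ 500 * c1 := by
          rw [← Finset.sum_filter, Finset.sum_const, nsmul_eq_mul]
          apply mul_le_mul_of_nonneg_right _ hc10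
          have h1 : (Finset.filter (fun k => L ≤ k ∧ k < L + 500) (range (L + m + 1))).card ≤
              (Finset.Ico L (L + 500)).card := by
            apply Finset.card_le_card
            intro k hk
            rw [Finset.mem_filter] at hk
            exact Finset.mem_Ico.mpr hk.2
          rw [Nat.card_Ico] at h1
          have h2 : (Finset.filter (fun k => L ≤ k ∧ k < L + 500) (range (L + m + 1))).card ≤ 500 := by
            omega
          exact_mod_cast h2
        have hi2 : ∑ k ∈ range (L + m + 1), (if L ≤ L + m - k ∧ L + m - k < L + 500 then c1 else 0) ≤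
            500 * c1 := by
          refine le_trans (le_of_eq ?_) hi1
          rw [← Finset.sum_range_reflect (fun k => if L ≤ k ∧ k < L + 500 then c1 else 0)]
          apply Finset.sum_congr rfl
          intro k hk
          have h1 : L + m + 1 - 1 - k = L + m - k := by omega
          simp only [h1]
        -- the sum of Z
        have hZS : 0.99 / (L : ℝ) * ∑ k ∈ range (L + m + 1), Z k ≤ 0.995 * S := by
          rcases Nat.lt_or_ge m L with h5 | h5
          · have h6 : ∑ k ∈ range (L + m + 1), Z k + ((L : ℝ) + 1) * S ≤ W + S := by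
              rw [← hW1, r1, ← hSe, Finset.mul_sum, ← Finset.sum_add_distrib]
              apply Finset.sum_le_sum
              intro k _
              have hFF := mul_nonneg (hF1n k) (hF1n (L + m - k))
              by_cases h7 : L ≤ k
              · have h8 : Z k = 0 := by
                  rw [hZ]
                  dsimp only
                  rw [if_neg (by omega)]
                rw [h8, if_pos h7]
                have m1 : min (L + 1) (k + 1) = L + 1 := by omega
                rw [m1]
                push_cast
                linarith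
              · rw [if_neg h7]
                have m1 : min (L + 1) (k + 1) = k + 1 := by omega
                rw [m1]
                have h8 : Z k ≤ ((k : ℝ) + 1) * (F1 k * F1 (L + m - k)) := by
                  rw [hZ]
                  dsimp only
                  split_ifs
                  · exact le_rfl
                  · positivity
                push_cast
                linarith
            have h7 := SL_ge L m (by omega)
            rw [← hS, ← hF1] at h7
            have h8 : 8 / √((m : ℝ) + 1) ≤ 0.001 := by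
              have h9 : (10 : ℝ) ^ 4 ≤ √((m : ℝ) + 1) := by
                apply Real.le_sqrt_of_sq_le
                have h10 : (1000000000000 : ℝ) ≤ m := le_trans (by norm_num) hmbig
                norm_num
                linarith
              rw [div_le_iff₀ (lt_of_lt_of_le (by positivity) h9)]
              norm_num at h9 ⊢
              linarith
            have hFN := hF1n (L + m + 1)
            have h9 : (1 - 0.0004) * (E * F1 (L + m + 1)) ≤ S := by
              refine le_trans ?_ h7
              have h10 : 0.001 * F1 (L + m + 1) ≤ 0.0004 * E * F1 (L + m + 1) :=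
                mul_le_mul_of_nonneg_right (by norm_num at hE ⊢; linarith) hFN
              have h11 := mul_le_mul_of_nonneg_right h8 hFN
              linarith
            have h10 : W + S ≤ 2 * L * (1.0005 * S) := by
              rw [← hW1]
              have h11 : ((L + m : ℕ) : ℝ) + 1 ≤ 2 * L := by
                exact_mod_cast (by omega : L + m + 1 ≤ 2 * L)
              have h12 : E * F1 (L + m + 1) ≤ 1.0005 * S := by
                norm_num at h9 ⊢
                linarith
              have h13 : 0 ≤ E * F1 (L + m + 1) := mul_nonneg hEp.le hFN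
              have h14 := mul_le_mul h11 h12 h13 (by positivity)
              linarith
            have h11 : ∑ k ∈ range (L + m + 1), Z k ≤ (L : ℝ) * (1.001 * S) := by
              norm_num at h10 h6 ⊢
              linarith
            have h12 := mul_le_mul_of_nonneg_left h11 hlam0
            refine h12.trans ?_
            have h13 : 0.99 / (L : ℝ) * ((L : ℝ) * (1.001 * S)) = 0.99 * (1.001 * S) := by
              field_simp
            rw [h13]
            norm_num
            linarith
          · have h6 : ∑ k ∈ range (L + m + 1), Z k = 0 := by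
              apply Finset.sum_eq_zero
              intro k hk
              have := mem_range.mp hk
              rw [hZ]
              dsimp only
              rw [if_neg (by omega)]
            rw [h6, mul_zero]
            positivity
        have hcS : 0.99 / (L : ℝ) * (1000 * c1) ≤ 0.0001 * S := by
          rw [div_mul_eq_mul_div, div_le_iff₀ hL0]
          norm_num at hc1S ⊢
          linarith
        have h20 : 0.99 / (L : ℝ) * (∑ k ∈ range (L + m + 1), Z k +
            (∑ k ∈ range (L + m + 1), (if L ≤ k ∧ k < L + 500 then c1 else 0) +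
            ∑ k ∈ range (L + m + 1), (if L ≤ L + m - k ∧ L + m - k < L + 500 then c1 else 0))) ≤
            0.9951 * S := by
          have h21 : 0.99 / (L : ℝ) * (∑ k ∈ range (L + m + 1), (if L ≤ k ∧ k < L + 500 then c1 else 0) +
            ∑ k ∈ range (L + m + 1), (if L ≤ L + m - k ∧ L + m - k < L + 500 then c1 else 0)) ≤
            0.99 / (L : ℝ) * (1000 * c1) := mul_le_mul_of_nonneg_left (by linarith) hlam0
          rw [mul_add]
          norm_num at hZS h21 hcS ⊢
          linarith
        have h22 : 0.9951 * S ≤ ρ * S := mul_le_mul_of_nonneg_right (by norm_num at hρ0 ⊢; linarith) hS0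
        linarith

end Pool.Agent.MP_9da1e3_co
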