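import Pool.Agent.Lib.MP_9da1e3_co.Lf6

namespace Pool.Agent.MP_9da1e3_co

open Finset

lemma block1 (f : ℕ → ℝ) (hf : ∀ j, 0 ≤ f j) (N a M : ℕ) (h : a + M ≤ N) :
    ∑ y ∈ range M, f (a + y) ≤ ∑ j ∈ range N, f j := by
  obtain ⟨r, rfl⟩ : ∃ r, N = a + M + r := ⟨N - (a + M), by omega⟩
  rw [Finset.sum_range_add, Finset.sum_range_add]
  have h1 : 0 ≤ ∑ j ∈ range a, f j := Finset.sum_nonneg fun j _ => hf j
  have h2 : 0 ≤ ∑ j ∈ range r, f (a + M + j) := Finset.sum_nonneg fun j _ => hf _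
  linarith

lemma blockr (f : ℕ → ℝ) (hf : ∀ j, 0 ≤ f j) (N b M : ℕ) (hb : b < N) (hM : M ≤ b + 1) :
    ∑ y ∈ range M, f (b - y) ≤ ∑ j ∈ range N, f j := by
  have h1 := block1 f hf N (b + 1 - M) M (by omega)
  refine le_trans (le_of_eq ?_) h1
  rw [← Finset.sum_range_reflect (fun y => f (b + 1 - M + y)) M]
  apply Finset.sum_congr rfl
  intro y hy
  have hy' := mem_range.mp hy
  have q : b + 1 - M + (M - 1 - y) = b - y := by omega
  simp only [q]

lemma block2 (f : ℕ → ℝ) (hf : ∀ j, 0 ≤ f j) (N a b M : ℕ) (hM : 1 ≤ M) (hb : b < N)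
    (h : a + M + M ≤ b + 1) :
    ∑ y ∈ range M, f (a + y) + ∑ y ∈ range M, f (b - y) ≤ ∑ j ∈ range N, f j := by
  obtain ⟨r, rfl⟩ : ∃ r, N = a + M + r := ⟨N - (a + M), by omega⟩
  rw [Finset.sum_range_add (fun j => f j) (a + M) r]
  have h1 := block1 f hf (a + M) a M le_rfl
  have h2 := blockr (fun j => f (a + M + j)) (fun j => hf _) r (b - (a + M)) M (by omega) (by omega)
  have h3 : ∑ y ∈ range M, f (a + M + (b - (a + M) - y)) = ∑ y ∈ range M, f (b - y) := by
    apply Finset.sum_congr rfl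
    intro y hy
    have hy' := mem_range.mp hy
    have q : a + M + (b - (a + M) - y) = b - y := by omega
    rw [q]
  rw [h3] at h2
  linarith

lemma parts_low (g g' c : ℕ → ℝ) (ε : ℝ) (hg : ∀ z, 0 ≤ g z) (hε : 0 ≤ 1 - ε)
    (h : ∀ z, (1 - ε) * g z ≤ g' z) (hc : ∀ z, 0 ≤ c z) (hcm : ∀ z, c z ≤ c (z + 1)) : ∀ M : ℕ,
    -(ε * ∑ z ∈ range M, g z * c z) - g M * c M ≤ ∑ z ∈ range M, (g' z - g (z + 1)) * c (z + 1) := by
  intro M
  induction M with
  | zero =>
    have := mul_nonneg (hg 0) (hc 0)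
    simp only [Finset.range_zero, Finset.sum_empty, mul_zero, neg_zero]
    linarith
  | succ M ih =>
    rw [Finset.sum_range_succ, Finset.sum_range_succ]
    have h1 := mul_le_mul_of_nonneg_right (h M) (hc (M + 1))
    have h2 := mul_le_mul_of_nonneg_left (hcm M) (mul_nonneg hε (hg M))
    linarith

/-- comparison of the tail of `gg` with its value -/
lemma tail_ineq (L I : ℕ) (hL : (10 : ℝ) ^ 200 ≤ L) (h1 : (10 : ℝ) ^ 24 * I ≤ L)
    (h2 : (L : ℝ) ≤ 4 * 10 ^ 24 * I) :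
    2 * ((L : ℝ) + 1) * gg L (10000000000000000 * I) ≤ 1.5 * ∑ y ∈ range I, gg L (I + y) := by
  have hL0 : (0 : ℝ) < L := lt_of_lt_of_le (by positivity) hL
  have hL150 : (10 : ℝ) ^ 150 ≤ L := le_trans (pow_le_pow_right₀ (by norm_num) (by norm_num)) hL
  have hI0 : (10 : ℝ) ^ 100 ≤ I := by
    linarith
  have hIpos : (0 : ℝ) < I := lt_of_lt_of_le (by positivity) hI0
  have hIN : 1 ≤ I := by
    have : (1 : ℝ) ≤ I := le_trans (by norm_num) hI0
    exact_mod_cast this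
  have hL36 : 36000000 ≤ L := by
    have : (36000000 : ℝ) ≤ L := le_trans (by norm_num) hL150
    exact_mod_cast this
  have hsI : 0 < √(I : ℝ) := Real.sqrt_pos.mpr hIpos
  have hsL : 0 < √(L : ℝ) := Real.sqrt_pos.mpr hL0
  obtain ⟨D, hD⟩ : ∃ D : ℝ, D = (I : ℝ) * I * √(I : ℝ) * √(L : ℝ) := ⟨_, rfl⟩
  have hD0 : 0 < D := by rw [hD]; positivity
  -- upper bound of the value
  have hup : gg L (10000000000000000 * I) ≤ 40000000 / (10 ^ 40 * D) := by
    have h3 := A_le L hL36 (L + 10000000000000000 * I) (by omega)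
    unfold gg
    refine h3.trans ?_
    have e : (((L + 10000000000000000 * I : ℕ) : ℝ) - L) = 10000000000000000 * (I : ℝ) := by
      push_cast
      ring
    rw [e]
    unfold D3
    rw [mul_one_div]
    apply div_le_div_of_nonneg_left (by norm_num) (by positivity)
    have h4 : 100000000 * √(I : ℝ) ≤ √(10000000000000000 * (I : ℝ)) := by
      apply Real.le_sqrt_of_sq_le
      rw [mul_pow, Real.sq_sqrt hIpos.le]
      norm_num
    have h5 : √(L : ℝ) ≤ √((L + 10000000000000000 * I : ℕ) : ℝ) := by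
      apply Real.sqrt_le_sqrt
      push_cast
      linarith
    have h6 := mul_le_mul h4 h5 hsL.le (Real.sqrt_nonneg _)
    have h7 := mul_le_mul_of_nonneg_left h6
      (show (0 : ℝ) ≤ 10000000000000000 * (I : ℝ) * (10000000000000000 * (I : ℝ)) by positivity)
    rw [hD]
    norm_num at h7 ⊢
    linarith
  -- lower bound of the sum
  obtain ⟨w, hw, hw1, hw2⟩ := exists_w L hL36
  have hwI : w ≤ I := by
    by_contra hcon
    have h3 : (I : ℝ) ≤ ((2 * w : ℕ) : ℝ) := by exact_mod_cast (by omega : I ≤ 2 * w)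
    have h4 : (10 : ℝ) ^ 40 ≤ √((2 * w : ℕ) : ℝ) := by
      apply Real.le_sqrt_of_sq_le
      have : (10 : ℝ) ^ 80 ≤ I := le_trans (pow_le_pow_right₀ (by norm_num) (by norm_num)) hI0
      norm_num at this ⊢
      norm_num at h3
      linarith
    have h5 := mul_le_mul h3 h4 (by positivity) (Nat.cast_nonneg _)
    norm_num at h5 hw1 h2
    linarith
  have hlow : ∀ y ∈ range I, 1 / (1800000 * D) ≤ gg L (I + y) := by
    intro y hy
    have hy' := mem_range.mp hy
    have hIL : 2 * I ≤ L := by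
      have : 2 * (I : ℝ) ≤ L := by
        norm_num at h1
        linarith
      exact_mod_cast this
    have h3 := A_ge L w hL36 hw hw1 hw2 (I + y) (by omega) (by omega)
    unfold gg
    refine le_trans ?_ h3
    have h4 : ((I + y : ℕ) : ℝ) ≤ 2 * (I : ℝ) := by exact_mod_cast (by omega : I + y ≤ 2 * I)
    have h5 : (0 : ℝ) < ((I + y : ℕ) : ℝ) := by exact_mod_cast (by omega : 0 < I + y)
    have h6 : (L : ℝ) + ((I + y : ℕ) : ℝ) ≤ 2 * (L : ℝ) := by
      norm_num at h1 ⊢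
      norm_num at h4
      linarith
    have h7 := D3_mono (y := 2 * (I : ℝ)) (N := 2 * (L : ℝ)) h5 (show 0 < (L : ℝ) + ((I + y : ℕ) : ℝ) by positivity) h4 h6
    have h8 := mul_le_mul_of_nonneg_left h7 (show (0 : ℝ) ≤ 1 / 200000 by norm_num)
    refine le_trans ?_ h8
    unfold D3
    have h9 : √(2 * (I : ℝ)) ≤ 1.5 * √(I : ℝ) := by
      apply Real.sqrt_le_iff.mpr
      refine ⟨by positivity, ?_⟩
      rw [mul_pow, Real.sq_sqrt hIpos.le]
      norm_num
      linarith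
    have h10 : √(2 * (L : ℝ)) ≤ 1.5 * √(L : ℝ) := by
      apply Real.sqrt_le_iff.mpr
      refine ⟨by positivity, ?_⟩
      rw [mul_pow, Real.sq_sqrt hL0.le]
      norm_num
      linarith
    have h11 := mul_le_mul h9 h10 (Real.sqrt_nonneg _) (by positivity)
    have h12 := mul_le_mul_of_nonneg_left h11 (show (0 : ℝ) ≤ 2 * (I : ℝ) * (2 * (I : ℝ)) by positivity)
    have h13 : 2 * (I : ℝ) * (2 * (I : ℝ)) * √(2 * (I : ℝ)) * √(2 * (L : ℝ)) ≤ 9 * D := by
      rw [hD]
      norm_num at h12 ⊢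
      linarith
    have hpos : 0 < 2 * (I : ℝ) * (2 * (I : ℝ)) * √(2 * (I : ℝ)) * √(2 * (L : ℝ)) := by
      have a1 : 0 < √(2 * (I : ℝ)) := Real.sqrt_pos.mpr (by linarith)
      have a2 : 0 < √(2 * (L : ℝ)) := Real.sqrt_pos.mpr (by linarith)
      positivity
    have h14 : 1 / (9 * D) ≤ 1 / (2 * (I : ℝ) * (2 * (I : ℝ)) * √(2 * (I : ℝ)) * √(2 * (L : ℝ))) :=
      one_div_le_one_div_of_le hpos h13
    have h15 := mul_le_mul_of_nonneg_left h14 (show (0 : ℝ) ≤ 1 / 200000 by norm_num)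
    refine le_trans (le_of_eq ?_) h15
    field_simp
    norm_num
  have hsum := Finset.sum_le_sum hlow
  rw [Finset.sum_const, card_range, nsmul_eq_mul] at hsum
  have h20 : 2 * ((L : ℝ) + 1) * gg L (10000000000000000 * I) ≤
      2 * ((L : ℝ) + 1) * (40000000 / (10 ^ 40 * D)) :=
    mul_le_mul_of_nonneg_left hup (by positivity)
  refine h20.trans ?_
  have h21 : 2 * ((L : ℝ) + 1) * (40000000 / (10 ^ 40 * D)) ≤ 1.5 * ((I : ℝ) * (1 / (1800000 * D))) := by
    have e1 : 2 * ((L : ℝ) + 1) * (40000000 / (10 ^ 40 * D)) =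
        (2 * ((L : ℝ) + 1) * (40000000 / 10 ^ 40)) / D := by
      field_simp
    have e2 : 1.5 * ((I : ℝ) * (1 / (1800000 * D))) = (1.5 * ((I : ℝ) * (1 / 1800000))) / D := by
      field_simp
    rw [e1, e2]
    apply div_le_div_of_nonneg_right _ hD0.le
    norm_num at h2 ⊢
    have : (1 : ℝ) ≤ I := le_trans (by norm_num) hI0
    linarith
  refine h21.trans ?_
  apply mul_le_mul_of_nonneg_left hsum (by norm_num)

end Pool.Agent.MP_9da1e3_co
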