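import Pool.Agent.Lib.MP_9da1e3_co.Lf7

namespace Pool.Agent.MP_9da1e3_co

open Finset

lemma Bn_zero (L n : ℕ) (h : n ≤ L) : Bn L n = 0 := by
  unfold Bn
  rw [An_zero L n h, An_zero (L + 1) n (by omega), sub_zero]

lemma KK_le (L x : ℕ) : KK (L + 1) x ≤ 2 * ((L : ℝ) + 1) * Fn (L + 2) x := by
  unfold KK
  have h1 := Fn_mono (L + 1) x
  have h2 : ((min (L + 1) (x + 1) : ℕ) : ℝ) ≤ (L : ℝ) + 1 := by
    exact_mod_cast min_le_left (L + 1) (x + 1)
  have h3 := mul_le_mul h2 h1 (Fn_nonneg _ _) (by positivity)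
  have e : Fn (L + 1 + 1) x = Fn (L + 2) x := rfl
  have e2 : ((L + 1 : ℕ) : ℝ) = (L : ℝ) + 1 := by push_cast; ring
  rw [e2]
  rw [e] at h3 ⊢
  linarith

lemma KK_eq_far (L x : ℕ) (h : L ≤ x) : KK (L + 1) x =
    ((L : ℝ) + 1) * (Fn (L + 2) x + Fn (L + 1) x) := by
  unfold KK
  have m1 : min (L + 1) (x + 1) = L + 1 := by omega
  rw [m1]
  push_cast
  ring

/-- pointwise inequality of the far case -/
lemma far_point (L g g' c f2 f1 f2' f1' a1 a0 a0' : ℝ) (hL : 1000000 ≤ L) (hg : 0 ≤ g)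
    (hg' : (1 - 3.2 / L) * g ≤ g') (hc : c ≤ (L + 1) * (f2 + f1)) (h21 : f1 ≤ f2) (h1 : 0 ≤ f1)
    (hf2 : f2 ≤ f2') (hf1 : f1 ≤ f1') (ha1 : a1 = f2 - f1) (hl1 : 0.99 * f2 ≤ (L + 1) * a1)
    (hl0 : 0.99 * f1 ≤ L * a0) (hl0' : 0.99 * f1' ≤ L * a0') :
    1.5 * (g * f2) ≤ -(3.2 / L * (g * c)) + g * f2 + L * (g * a1) + L * (a0' * g') + g * f1 +
      L * (g * a0) + L * (a0 * g) + g' * f2' + f1' * g' := by
  have hL0 : 0 < L := by linarith
  obtain ⟨e, he⟩ : ∃ e : ℝ, e = 3.2 / L := ⟨_, rfl⟩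
  have he0 : 0 ≤ e := by rw [he]; positivity
  have he1 : e ≤ 0.00001 := by
    rw [he, div_le_iff₀ hL0]
    linarith
  have heL : e * (L + 1) = 3.2 + e := by
    rw [he]
    field_simp
  rw [← he] at hg' ⊢
  have hf20 : 0 ≤ f2 := h1.trans h21
  have hf10' : 0 ≤ f1' := h1.trans hf1
  have hf20' : 0 ≤ f2' := hf20.trans hf2
  have k1 : e * (g * c) ≤ (3.2 + e) * (g * (f2 + f1)) := by
    have h3 := mul_le_mul_of_nonneg_left hc (mul_nonneg he0 hg)
    have h4 : e * g * ((L + 1) * (f2 + f1)) = (3.2 + e) * (g * (f2 + f1)) := by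
      rw [← heL]
      ring
    linarith
  have k2 : (1 - e) * g * f2 ≤ g' * f2' :=
    mul_le_mul hg' hf2 hf20 (le_trans (mul_nonneg (by linarith) hg) hg')
  have hg'0 : 0 ≤ g' := le_trans (mul_nonneg (by linarith) hg) hg'
  have k3 : (1 - e) * g * f1 ≤ g' * f1' := mul_le_mul hg' hf1 h1 hg'0
  have k4 : 0.99 * ((1 - e) * g * f1) ≤ L * (a0' * g') := by
    have h3 := mul_le_mul_of_nonneg_right hl0' hg'0
    linarith
  have k5 : 0.99 * (g * f1) ≤ L * (g * a0) := by
    have h3 := mul_le_mul_of_nonneg_left hl0 hg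
    linarith
  have k6 : 0.99 * (g * f1) ≤ L * (a0 * g) := by
    have h3 := mul_le_mul_of_nonneg_left hl0 hg
    linarith
  obtain ⟨u, hu⟩ : ∃ u : ℝ, u = g * f2 := ⟨_, rfl⟩
  obtain ⟨v, hv⟩ : ∃ v : ℝ, v = g * f1 := ⟨_, rfl⟩
  have hu0 : 0 ≤ u := by rw [hu]; exact mul_nonneg hg hf20
  have hv0 : 0 ≤ v := by rw [hv]; exact mul_nonneg hg h1
  have huv : v ≤ u := by rw [hu, hv]; exact mul_le_mul_of_nonneg_left h21 hg
  have k7 : 0.99 * u ≤ (L + 1) * (u - v) := by
    have h3 := mul_le_mul_of_nonneg_left hl1 hg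
    rw [ha1] at h3
    rw [hu, hv]
    linarith
  have eu : e * u ≤ 0.00001 * u := mul_le_mul_of_nonneg_right he1 hu0
  have ev : e * v ≤ 0.00001 * v := mul_le_mul_of_nonneg_right he1 hv0
  have m1 : (3.2 + e) * (g * (f2 + f1)) = (3.2 + e) * (u + v) := by rw [hu, hv]; ring
  have m2 : (1 - e) * g * f2 = (1 - e) * u := by rw [hu]; ring
  have m3 : (1 - e) * g * f1 = (1 - e) * v := by rw [hv]; ring
  have m4 : L * (g * a1) = L * (u - v) := by rw [hu, hv, ha1]; ring
  have m5 : f1' * g' = g' * f1' := by ring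
  rw [m1] at k1
  rw [m2] at k2
  rw [m3] at k3 k4
  rw [m4, m5]
  rw [← hu]
  rw [← hv] at k5 k6 ⊢
  -- `L (u - v) ≥ 2.9 (u - v) + (1 - 3/L) ...`
  have k8 : 0.98 * u + 1.77 * (u - v) ≤ L * (u - v) := by
    have h3 : 0 ≤ u - v := by linarith
    have h4 : (L + 1) * (L * (u - v) - 1.77 * (u - v)) = (L - 1.77) * ((L + 1) * (u - v)) := by ring
    have h5 : (L - 1.77) * (0.99 * u) ≤ (L - 1.77) * ((L + 1) * (u - v)) :=
      mul_le_mul_of_nonneg_left k7 (by linarith)
    have h6 : (L + 1) * (0.98 * u) ≤ (L - 1.77) * (0.99 * u) := by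
      have h7 : (L + 1) * 0.98 ≤ (L - 1.77) * 0.99 := by linarith
      have h8 := mul_le_mul_of_nonneg_right h7 hu0
      linarith
    have h7 : (L + 1) * (0.98 * u) ≤ (L + 1) * (L * (u - v) - 1.77 * (u - v)) := by
      rw [h4]
      linarith
    have h8 := le_of_mul_le_mul_left h7 (by linarith)
    linarith
  linarith

theorem far_case (L k I : ℕ) (hL : (10 : ℝ) ^ 1000 ≤ L) (h1 : (10 : ℝ) ^ 24 * I ≤ L)
    (h2 : (L : ℝ) ≤ 4 * 10 ^ 24 * I) (hk : L + 2 * (10000000000000000 * I) + 1000 ≤ k)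
    (hB : ∀ j, L + I ≤ j → j ≤ L + k → 0 ≤ Bn L j) : 0 ≤ Bn L (L + k + 1) := by
  have hL200 : (10 : ℝ) ^ 200 ≤ L := le_trans (pow_le_pow_right₀ (by norm_num) (by norm_num)) hL
  have hL100 : (10 : ℝ) ^ 100 ≤ L := le_trans (pow_le_pow_right₀ (by norm_num) (by norm_num)) hL
  clear hL
  have hL0 : (0 : ℝ) < L := lt_of_lt_of_le (by positivity) hL100
  have hL101 : (10 : ℝ) ^ 100 ≤ ((L + 1 : ℕ) : ℝ) := by
    push_cast
    linarith
  have hE := E_pos
  have hIN : 1 ≤ I := by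
    by_contra hcon
    have : I = 0 := by omega
    rw [this, Nat.cast_zero, mul_zero] at h2
    linarith
  obtain ⟨M, hM⟩ : ∃ M, M = 10000000000000000 * I := ⟨_, rfl⟩
  have htail := tail_ineq L I hL200 h1 h2
  rw [← hM] at hk htail
  have hIM : 2 * I ≤ M := by omega
  obtain ⟨g, hg⟩ : ∃ g : ℕ → ℝ, g = gg L := ⟨_, rfl⟩
  obtain ⟨g', hg'⟩ : ∃ g : ℕ → ℝ, g = gg (L + 1) := ⟨_, rfl⟩
  obtain ⟨F1, hF1⟩ : ∃ F : ℕ → ℝ, F = Fn (L + 1) := ⟨_, rfl⟩
  obtain ⟨F2, hF2⟩ : ∃ F : ℕ → ℝ, F = Fn (L + 2) := ⟨_, rfl⟩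
  obtain ⟨A0, hA0⟩ : ∃ F : ℕ → ℝ, F = An L := ⟨_, rfl⟩
  obtain ⟨A1, hA1⟩ : ∃ F : ℕ → ℝ, F = An (L + 1) := ⟨_, rfl⟩
  have hgn : ∀ y, 0 ≤ g y := fun y => by rw [hg]; exact An_nonneg _ _
  have hF1n : ∀ k, 0 ≤ F1 k := fun k => by rw [hF1]; exact Fn_nonneg _ k
  have hF2n : ∀ k, 0 ≤ F2 k := fun k => by rw [hF2]; exact Fn_nonneg _ k
  have hA0n : ∀ k, 0 ≤ A0 k := fun k => by rw [hA0]; exact An_nonneg _ k
  have hA1n : ∀ k, 0 ≤ A1 k := fun k => by rw [hA1]; exact An_nonneg _ k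
  have hF12 : ∀ k, F1 k ≤ F2 k := fun k => by rw [hF1, hF2]; exact Fn_mono (L + 1) k
  have hgA : ∀ y, A0 (L + y) = g y := fun y => by rw [hA0, hg]; rfl
  have hgA' : ∀ y, A1 (L + 1 + y) = g' y := fun y => by rw [hA1, hg']; rfl
  have hgg : ∀ y, (1 - 3.2 / (L : ℝ)) * g y ≤ g' y := by
    intro y
    have h3 := A_shift L hL100 (L + y)
    rw [← hgA, ← hgA', hA0, hA1]
    have q : L + 1 + y = L + y + 1 := by omega
    rw [q]
    exact h3
  have hε : 0 ≤ 1 - 3.2 / (L : ℝ) := by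
    have h3 : 3.2 / (L : ℝ) ≤ 1 := by
      rw [div_le_iff₀ hL0]
      linarith
    linarith
  obtain ⟨c, hc⟩ : ∃ c : ℕ → ℝ, c = fun z => KK (L + 1) (k - min z I) := ⟨_, rfl⟩
  have hcn : ∀ z, 0 ≤ c z := fun z => by rw [hc]; exact KK_nonneg _ _
  have hcm : ∀ z, c z ≤ c (z + 1) := by
    intro z
    rw [hc]
    exact KK_anti (L + 1) (by omega)
  have hparts := parts_low g g' c (3.2 / (L : ℝ)) hgn hε hgg hcn hcm M
  -- T1
  have hT1 : ∑ z ∈ range M, (g' z - g (z + 1)) * c (z + 1) ≤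
      ∑ j ∈ range (L + k + 1), Bn L j * KK (L + 1) (L + k - j) := by
    obtain ⟨r, hr⟩ : ∃ r, L + k + 1 = L + 1 + M + r := ⟨L + k + 1 - (L + 1 + M), by omega⟩
    rw [hr, Finset.sum_range_add, Finset.sum_range_add]
    have h3 : ∑ x ∈ range (L + 1), Bn L x * KK (L + 1) (L + k - x) = 0 := by
      apply Finset.sum_eq_zero
      intro x hx
      rw [Bn_zero L x (by have := mem_range.mp hx; omega), zero_mul]
    rw [h3, zero_add]
    have h4 : 0 ≤ ∑ x ∈ range r, Bn L (L + 1 + M + x) * KK (L + 1) (L + k - (L + 1 + M + x)) := by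
      apply Finset.sum_nonneg
      intro x hx
      have hx' := mem_range.mp hx
      exact mul_nonneg (hB _ (by omega) (by omega)) (KK_nonneg _ _)
    have h5 : ∑ z ∈ range M, (g' z - g (z + 1)) * c (z + 1) ≤
        ∑ x ∈ range M, Bn L (L + 1 + x) * KK (L + 1) (L + k - (L + 1 + x)) := by
      apply Finset.sum_le_sum
      intro z hz
      have hz' := mem_range.mp hz
      have e1 : g' z - g (z + 1) = Bn L (L + 1 + z) := by
        unfold Bn
        rw [← hgA', ← hgA, hA0, hA1]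
        have q : L + (z + 1) = L + 1 + z := by omega
        rw [q]
      rw [e1, hc]
      dsimp only
      have q : L + k - (L + 1 + z) = k - (z + 1) := by omega
      rw [q]
      rcases Nat.lt_or_ge z I with h | h
      · have q2 : min (z + 1) I = z + 1 := by omega
        rw [q2]
      · apply mul_le_mul_of_nonneg_left _ (hB _ (by omega) (by omega))
        exact KK_anti (L + 1) (by omega)
    linarith
  -- T2
  have hN : ∀ y, y < M → L + k - (L + y) = k - y := fun y _ => by omega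
  have hT2a : ∑ y ∈ range M, g y * F2 (k - y) ≤ ∑ j ∈ range (L + k + 1), A0 j * F2 (L + k - j) := by
    have h3 := block1 (fun j => A0 j * F2 (L + k - j)) (fun j => mul_nonneg (hA0n _) (hF2n _))
      (L + k + 1) L M (by omega)
    refine le_trans (le_of_eq ?_) h3
    apply Finset.sum_congr rfl
    intro y hy
    rw [hN y (mem_range.mp hy), hgA]
  have hT2c : ∑ y ∈ range M, g y * F1 (k - y) ≤
      ∑ j ∈ range (L + k + 1), A0 j * (if L ≤ L + k - j then F1 (L + k - j) else 0) := by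
    have h3 := block1 (fun j => A0 j * (if L ≤ L + k - j then F1 (L + k - j) else 0))
      (fun j => mul_nonneg (hA0n _) (by split_ifs; exacts [hF1n _, le_rfl]))
      (L + k + 1) L M (by omega)
    refine le_trans (le_of_eq ?_) h3
    apply Finset.sum_congr rfl
    intro y hy
    have hy' := mem_range.mp hy
    rw [hN y hy', hgA, if_pos (by omega)]
  have hT2b : ∑ y ∈ range M, (L : ℝ) * (g y * A1 (k - y)) +
      ∑ y ∈ range M, (L : ℝ) * (A0 (k - 1 - y) * g' y) ≤
      ∑ j ∈ range (L + k + 1), (L : ℝ) * (A0 j * A1 (L + k - j)) := by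
    have h3 := block2 (fun j => (L : ℝ) * (A0 j * A1 (L + k - j)))
      (fun j => mul_nonneg hL0.le (mul_nonneg (hA0n _) (hA1n _))) (L + k + 1) L (k - 1) M
      (by omega) (by omega) (by omega)
    refine le_trans (le_of_eq ?_) h3
    congr 1
    · apply Finset.sum_congr rfl
      intro y hy
      have hy' := mem_range.mp hy
      rw [hN y hy', hgA]
    · apply Finset.sum_congr rfl
      intro y hy
      have hy' := mem_range.mp hy
      have q : L + k - (k - 1 - y) = L + 1 + y := by omega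
      rw [q, hgA']
  have hT2d : ∑ y ∈ range M, (L : ℝ) * (g y * A0 (k - y)) +
      ∑ y ∈ range M, (L : ℝ) * (A0 (k - y) * g y) ≤
      ∑ j ∈ range (L + k + 1), (L : ℝ) * (A0 j * A0 (L + k - j)) := by
    have h3 := block2 (fun j => (L : ℝ) * (A0 j * A0 (L + k - j)))
      (fun j => mul_nonneg hL0.le (mul_nonneg (hA0n _) (hA0n _))) (L + k + 1) L k M
      (by omega) (by omega) (by omega)
    refine le_trans (le_of_eq ?_) h3
    congr 1
    · apply Finset.sum_congr rfl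
      intro y hy
      have hy' := mem_range.mp hy
      rw [hN y hy', hgA]
    · apply Finset.sum_congr rfl
      intro y hy
      have hy' := mem_range.mp hy
      have q : L + k - (k - y) = L + y := by omega
      rw [q, hgA]
  have hT3 : ∑ y ∈ range M, g' y * F2 (k - 1 - y) ≤
      ∑ j ∈ range (L + k + 1), A1 j * F2 (L + k - j) := by
    have h3 := block1 (fun j => A1 j * F2 (L + k - j)) (fun j => mul_nonneg (hA1n _) (hF2n _))
      (L + k + 1) (L + 1) M (by omega)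
    refine le_trans (le_of_eq ?_) h3
    apply Finset.sum_congr rfl
    intro y hy
    have hy' := mem_range.mp hy
    have q : L + k - (L + 1 + y) = k - 1 - y := by omega
    rw [q, hgA']
  have hT4 : ∑ y ∈ range M, F1 (k - 1 - y) * g' y ≤
      ∑ j ∈ range (L + k + 1), (if L + 1 ≤ j then F1 j * A1 (L + k - j) else 0) := by
    have h3 := blockr (fun j => if L + 1 ≤ j then F1 j * A1 (L + k - j) else 0)
      (fun j => by split_ifs; exacts [mul_nonneg (hF1n _) (hA1n _), le_rfl])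
      (L + k + 1) (k - 1) M (by omega) (by omega)
    refine le_trans (le_of_eq ?_) h3
    apply Finset.sum_congr rfl
    intro y hy
    have hy' := mem_range.mp hy
    have q : L + k - (k - 1 - y) = L + 1 + y := by omega
    rw [if_pos (by omega), q, hgA']
  -- pointwise
  have hpt : ∀ y ∈ range M, 1.5 * (g y * F2 (k - y)) ≤
      -(3.2 / (L : ℝ) * (g y * c y)) + g y * F2 (k - y) + (L : ℝ) * (g y * A1 (k - y)) +
      (L : ℝ) * (A0 (k - 1 - y) * g' y) + g y * F1 (k - y) + (L : ℝ) * (g y * A0 (k - y)) +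
      (L : ℝ) * (A0 (k - y) * g y) + g' y * F2 (k - 1 - y) + F1 (k - 1 - y) * g' y := by
    intro y hy
    have hy' := mem_range.mp hy
    have hl : ∀ x, L + 500 ≤ x → 0.99 * F1 x ≤ (L : ℝ) * A0 x := by
      intro x hx
      have h3 := A_lam L hL100 x hx
      rw [hF1, hA0]
      unfold An
      have h4 := mul_le_mul_of_nonneg_left h3 hL0.le
      have h5 : (L : ℝ) * ((1 - 0.99 / (L : ℝ)) * Fn (L + 1) x) = (L - 0.99) * Fn (L + 1) x := by
        field_simp
      rw [h5] at h4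
      linarith
    have hl1 : ∀ x, L + 1 + 500 ≤ x → 0.99 * F2 x ≤ ((L : ℝ) + 1) * A1 x := by
      intro x hx
      have h3 := A_lam (L + 1) hL101 x hx
      rw [hF2, hA1]
      unfold An
      have hL10 : (0 : ℝ) < ((L + 1 : ℕ) : ℝ) := by positivity
      have h4 := mul_le_mul_of_nonneg_left h3 hL10.le
      have h5 : ((L + 1 : ℕ) : ℝ) * ((1 - 0.99 / ((L + 1 : ℕ) : ℝ)) * Fn (L + 1 + 1) x) =
          (((L + 1 : ℕ) : ℝ) - 0.99) * Fn (L + 1 + 1) x := by
        field_simp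
      rw [h5] at h4
      push_cast at h4
      have e : Fn (L + 1 + 1) x = Fn (L + 2) x := rfl
      rw [e] at h4 ⊢
      linarith
    have hck : c y ≤ ((L : ℝ) + 1) * (F2 (k - y) + F1 (k - y)) := by
      rw [hc, hF1, hF2, ← KK_eq_far L (k - y) (by omega)]
      dsimp only
      exact KK_anti (L + 1) (by omega)
    have q : k - 1 - y ≤ k - y := by omega
    exact far_point (L : ℝ) (g y) (g' y) (c y) (F2 (k - y)) (F1 (k - y)) (F2 (k - 1 - y))
      (F1 (k - 1 - y)) (A1 (k - y)) (A0 (k - y)) (A0 (k - 1 - y)) (by linarith) (hgn y) (hgg y) hck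
      (hF12 _) (hF1n _) (by rw [hF2]; exact Fn_le_of_le _ q) (by rw [hF1]; exact Fn_le_of_le _ q)
      (by rw [hA1, hF2, hF1]; rfl) (hl1 _ (by omega)) (hl _ (by omega)) (hl _ (by omega))
  have hsum := Finset.sum_le_sum hpt
  simp only [Finset.sum_add_distrib, Finset.sum_neg_distrib] at hsum
  have hs1 : ∑ i ∈ range M, 3.2 / (L : ℝ) * (g i * c i) =
      3.2 / (L : ℝ) * ∑ i ∈ range M, g i * c i := (Finset.mul_sum _ _ _).symm
  rw [hs1] at hsum
  -- the recursion
  have hrec := B_rec L (L + k) (by omega)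
  have hsplit : ∑ j ∈ range (L + k + 1), An L j * (Fn (L + 2) (L + k - j) +
      (L : ℝ) * An (L + 1) (L + k - j) + (if L ≤ L + k - j then Fn (L + 1) (L + k - j) else 0) +
      (L : ℝ) * An L (L + k - j)) =
      ∑ j ∈ range (L + k + 1), A0 j * F2 (L + k - j) +
      ∑ j ∈ range (L + k + 1), (L : ℝ) * (A0 j * A1 (L + k - j)) +
      ∑ j ∈ range (L + k + 1), A0 j * (if L ≤ L + k - j then F1 (L + k - j) else 0) +
      ∑ j ∈ range (L + k + 1), (L : ℝ) * (A0 j * A0 (L + k - j)) := by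
    rw [← Finset.sum_add_distrib, ← Finset.sum_add_distrib, ← Finset.sum_add_distrib]
    apply Finset.sum_congr rfl
    intro j _
    rw [hA0, hA1, hF1, hF2]
    ring
  rw [hsplit] at hrec
  have q0 : L + k - L = k := by omega
  rw [q0, ← hA1, ← hF1, ← hF2] at hrec
  -- the final estimates
  have hsumI : tn L * F1 k ≤ ∑ y ∈ range I, 1.5 * (g y * F2 (k - y)) := by
    have h3 := sum_gg_sharp L I hL200 h1 h2
    rw [← hg] at h3
    have h4 : F1 k * ∑ y ∈ range I, g y ≤ ∑ y ∈ range I, g y * F2 (k - y) := by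
      rw [Finset.mul_sum]
      apply Finset.sum_le_sum
      intro y _
      have h5 : F1 k ≤ F2 (k - y) :=
        (hF12 k).trans (by rw [hF2]; exact Fn_le_of_le _ (by omega))
      have h6 := mul_le_mul_of_nonneg_left h5 (hgn y)
      linarith
    have h5 := mul_le_mul_of_nonneg_left h3 (hF1n k)
    rw [← Finset.mul_sum]
    have h6 : 0 ≤ F1 k * tn L := mul_nonneg (hF1n k) (tn_pos L).le
    norm_num at h5 ⊢
    linarith
  have hsumT : g M * c M ≤ ∑ y ∈ range I, 1.5 * (g (I + y) * F2 (k - (I + y))) := by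
    have h3 : c M ≤ 2 * ((L : ℝ) + 1) * F2 (k - I) := by
      rw [hc]
      dsimp only
      have q : min M I = I := by omega
      rw [q, hF2]
      exact KK_le L (k - I)
    have h4 := mul_le_mul_of_nonneg_left h3 (hgn M)
    refine h4.trans ?_
    rw [← hg] at htail
    have h5 := mul_le_mul_of_nonneg_left htail (hF2n (k - I))
    have h6 : F2 (k - I) * ∑ y ∈ range I, g (I + y) ≤
        ∑ y ∈ range I, g (I + y) * F2 (k - (I + y)) := by
      rw [Finset.mul_sum]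
      apply Finset.sum_le_sum
      intro y _
      have h7 : F2 (k - I) ≤ F2 (k - (I + y)) := by rw [hF2]; exact Fn_le_of_le _ (by omega)
      have h8 := mul_le_mul_of_nonneg_left h7 (hgn (I + y))
      linarith
    rw [← Finset.mul_sum]
    norm_num at h5 ⊢
    linarith
  have hsumM : ∑ y ∈ range I, 1.5 * (g y * F2 (k - y)) +
      ∑ y ∈ range I, 1.5 * (g (I + y) * F2 (k - (I + y))) ≤
      ∑ y ∈ range M, 1.5 * (g y * F2 (k - y)) := by
    have h3 := block1 (fun y => 1.5 * (g y * F2 (k - y)))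
      (fun y => mul_nonneg (by norm_num) (mul_nonneg (hgn _) (hF2n _))) M 0 (I + I) (by omega)
    refine le_trans (le_of_eq ?_) h3
    simp only [Nat.zero_add]
    rw [Finset.sum_range_add (fun y => 1.5 * (g y * F2 (k - y))) I I]
  have hfin : 0 ≤ E * ((((L + k : ℕ) : ℝ) + 1) * Bn L (L + k + 1)) := by
    rw [hrec]
    linarith
  have hpos : (0 : ℝ) < ((L + k : ℕ) : ℝ) + 1 := by positivity
  have h10 : 0 ≤ (((L + k : ℕ) : ℝ) + 1) * Bn L (L + k + 1) :=
    nonneg_of_mul_nonneg_right hfin hE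
  exact nonneg_of_mul_nonneg_right h10 hpos

end Pool.Agent.MP_9da1e3_co
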