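import Pool.Agent.Lib.MP_9da1e3_co.Lf8

namespace Pool.Agent.MP_9da1e3_co

open Finset

lemma blockg (f : ℕ → ℝ) (hf : ∀ j, 0 ≤ f j) (N a b M M' : ℕ) (hM : 1 ≤ M') (hb : b < N)
    (h : a + M + M' ≤ b + 1) :
    ∑ y ∈ range M, f (a + y) + ∑ y ∈ range M', f (b - y) ≤ ∑ j ∈ range N, f j := by
  obtain ⟨r, rfl⟩ : ∃ r, N = a + M + r := ⟨N - (a + M), by omega⟩
  rw [Finset.sum_range_add (fun j => f j) (a + M) r]
  have h1 := block1 f hf (a + M) a M le_rfl
  have h2 := blockr (fun j => f (a + M + j)) (fun j => hf _) r (b - (a + M)) M' (by omega) (by omega)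
  have h3 : ∑ y ∈ range M', f (a + M + (b - (a + M) - y)) = ∑ y ∈ range M', f (b - y) := by
    apply Finset.sum_congr rfl
    intro y hy
    have hy' := mem_range.mp hy
    have q : a + M + (b - (a + M) - y) = b - y := by omega
    rw [q]
  rw [h3] at h2
  linarith

lemma tn_anti_le {a b : ℕ} (h : a ≤ b) : tn b ≤ tn a := by
  induction h with
  | refl => exact le_rfl
  | step _ ih => exact (tn_anti _).trans ih

lemma KK_le_tn (L x : ℕ) : KK L x ≤ 2 * (L : ℝ) * tn x := by
  unfold KK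
  have h1 := Fn_le_tn L x
  have h2 : ((min L (x + 1) : ℕ) : ℝ) ≤ (L : ℝ) := by exact_mod_cast min_le_left L (x + 1)
  have h3 := mul_le_mul h2 h1 (Fn_nonneg _ _) (Nat.cast_nonneg _)
  have h4 := mul_le_mul_of_nonneg_left (Fn_le_tn (L + 1) x) (Nat.cast_nonneg (α := ℝ) L)
  linarith

lemma KK_ge_tn (L x : ℕ) (h : x ≤ L) : (L : ℝ) * tn x ≤ KK L x := by
  unfold KK
  rw [Fn_eq_tn (L + 1) x (by omega)]
  have : 0 ≤ ((min L (x + 1) : ℕ) : ℝ) * Fn L x := mul_nonneg (Nat.cast_nonneg _) (Fn_nonneg _ _)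
  linarith

lemma tn_near2 (a b : ℕ) (h : a ≤ b) (hb : (b : ℝ) + 1 ≤ 1.00001 * ((a : ℝ) + 1)) :
    0.9999 * tn a ≤ tn b := by
  have h1 := tn_le_sq h
  have ht := tn_pos b
  have hta := tn_pos a
  have ha : (0 : ℝ) < (a : ℝ) + 1 := by positivity
  have h2 : ((b : ℝ) + 1) ^ 2 * tn b ≤ (1.00001 * ((a : ℝ) + 1)) ^ 2 * tn b :=
    mul_le_mul_of_nonneg_right (pow_le_pow_left₀ (by positivity) hb 2) ht.le
  have h3 : ((a : ℝ) + 1) ^ 2 * tn a ≤ ((a : ℝ) + 1) ^ 2 * (1.00001 ^ 2 * tn b) := by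
    refine h1.trans (h2.trans (le_of_eq ?_))
    ring
  have h4 := le_of_mul_le_mul_left h3 (by positivity)
  norm_num at h4 ⊢
  linarith

lemma tail_small (L I : ℕ) (hL : (10 : ℝ) ^ 200 ≤ L) (h1 : (10 : ℝ) ^ 24 * I ≤ L)
    (h2 : (L : ℝ) ≤ 4 * 10 ^ 24 * I) (y : ℕ) (hy : I ≤ y) :
    2 * (L : ℝ) * gg L y ≤ 0.000001 * tn L := by
  have hL0 : (0 : ℝ) < L := lt_of_lt_of_le (by positivity) hL
  have hL150 : (10 : ℝ) ^ 150 ≤ L := le_trans (pow_le_pow_right₀ (by norm_num) (by norm_num)) hL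
  have hI0 : (10 : ℝ) ^ 100 ≤ I := by
    linarith
  have hIpos : (0 : ℝ) < I := lt_of_lt_of_le (by positivity) hI0
  have hIN : 1 ≤ I := by
    have : (1 : ℝ) ≤ I := le_trans (by norm_num) hI0
    exact_mod_cast this
  have hL36 : 36000000 ≤ L := by
    have : (36000000 : ℝ) ≤ L := le_trans (by norm_num) hL150
    exact_mod_cast this
  have hsL : 0 < √(L : ℝ) := Real.sqrt_pos.mpr hL0
  have hsI : 0 < √(I : ℝ) := Real.sqrt_pos.mpr hIpos
  have hy0 : (I : ℝ) ≤ y := by exact_mod_cast hy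
  have h3 := A_le L hL36 (L + y) (by omega)
  have e : (((L + y : ℕ) : ℝ) - L) = (y : ℝ) := by
    push_cast
    ring
  rw [e] at h3
  have h4 : 1 / D3 (y : ℝ) ((L + y : ℕ) : ℝ) ≤ 1 / D3 (I : ℝ) (L : ℝ) :=
    D3_mono hIpos hL0 hy0 (by push_cast; linarith)
  have h5 : (I : ℝ) * I * I ≤ D3 (I : ℝ) (L : ℝ) := by
    unfold D3
    have h6 : √(I : ℝ) ≤ √(L : ℝ) := Real.sqrt_le_sqrt (by linarith)
    have h7 : √(I : ℝ) * √(I : ℝ) ≤ √(I : ℝ) * √(L : ℝ) := mul_le_mul_of_nonneg_left h6 hsI.le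
    rw [Real.mul_self_sqrt hIpos.le] at h7
    have h8 := mul_le_mul_of_nonneg_left h7 (show (0 : ℝ) ≤ (I : ℝ) * I by positivity)
    linarith
  have h6 : (L : ℝ) * L * L / 10 ^ 76 ≤ (I : ℝ) * I * I := by
    have h7 : (L : ℝ) / 10 ^ 25 ≤ I := by
      rw [div_le_iff₀ (by positivity)]
      linarith
    have h8 : (L : ℝ) / 10 ^ 25 * (L / 10 ^ 25) * (L / 10 ^ 25) ≤ (I : ℝ) * I * I := by
      apply mul_le_mul _ h7 (by positivity) (by positivity)
      exact mul_le_mul h7 h7 (by positivity) (by positivity)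
    refine le_trans ?_ h8
    have h9 : (L : ℝ) / 10 ^ 25 * (L / 10 ^ 25) * (L / 10 ^ 25) = (L : ℝ) * L * L / 10 ^ 75 := by
      field_simp
    rw [h9]
    apply div_le_div_of_nonneg_left (by positivity) (by positivity) (by norm_num)
  have h7 : gg L y ≤ 40000000 * (10 ^ 76 / ((L : ℝ) * L * L)) := by
    unfold gg
    refine h3.trans (mul_le_mul_of_nonneg_left (h4.trans ?_) (by norm_num))
    have h8 : 1 / D3 (I : ℝ) (L : ℝ) ≤ 1 / ((L : ℝ) * L * L / 10 ^ 76) :=
      one_div_le_one_div_of_le (by positivity) (h6.trans h5)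
    refine h8.trans (le_of_eq ?_)
    field_simp
  have h8 := le_tn L
  have h9 : ((L : ℝ) + 1) * sq L ≤ 3 * ((L : ℝ) * √(L : ℝ)) := by
    have h10 : sq L ≤ 1.5 * √(L : ℝ) := by
      unfold sq
      apply Real.sqrt_le_iff.mpr
      refine ⟨by positivity, ?_⟩
      rw [mul_pow, Real.sq_sqrt hL0.le]
      norm_num
      linarith
    have h11 : (L : ℝ) + 1 ≤ 2 * L := by linarith
    have h12 := mul_le_mul h11 h10 (sq_pos L).le (by positivity)
    linarith
  have h10 : 1 / (3 * ((L : ℝ) * √(L : ℝ))) ≤ tn L := by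
    refine le_trans ?_ h8
    apply one_div_le_one_div_of_le _ h9
    have := sq_pos L
    positivity
  have h11 : (10 : ℝ) ^ 95 ≤ √(L : ℝ) := by
    apply Real.le_sqrt_of_sq_le
    rw [← pow_mul]
    exact le_trans (pow_le_pow_right₀ (by norm_num) (by norm_num)) hL
  have h12 : 2 * (L : ℝ) * gg L y ≤ 2 * (L : ℝ) * (40000000 * (10 ^ 76 / ((L : ℝ) * L * L))) :=
    mul_le_mul_of_nonneg_left h7 (by positivity)
  refine h12.trans (le_trans ?_ (mul_le_mul_of_nonneg_left h10 (by norm_num)))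
  have e1 : 2 * (L : ℝ) * (40000000 * (10 ^ 76 / ((L : ℝ) * L * L))) =
      80000000 * 10 ^ 76 / ((L : ℝ) * L) := by
    field_simp
    norm_num
  have e2 : 0.000001 * (1 / (3 * ((L : ℝ) * √(L : ℝ)))) = (0.000001 / 3 * √(L : ℝ)) / ((L : ℝ) * L) := by
    have e3 : √(L : ℝ) * √(L : ℝ) = L := Real.mul_self_sqrt hL0.le
    have e4 : (0.000001 / 3 * √(L : ℝ)) / ((L : ℝ) * L) =
        0.000001 / 3 * (√(L : ℝ) / L) * (1 / L) := by
      field_simp
    have e5 : √(L : ℝ) / L = 1 / √(L : ℝ) := by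
      rw [div_eq_div_iff hL0.ne' hsL.ne', e3, one_mul]
    rw [e4, e5]
    field_simp
  rw [e1, e2]
  apply div_le_div_of_nonneg_right _ (by positivity)
  norm_num at h11 ⊢
  linarith

lemma Q_le (L k I : ℕ) (hL : (10 : ℝ) ^ 200 ≤ L) (h1 : (10 : ℝ) ^ 24 * I ≤ L)
    (h2 : (L : ℝ) ≤ 4 * 10 ^ 24 * I) (hk1 : L ≤ k) (hk2 : 10000 * (k + 1) ≤ 10001 * L) :
    ∑ y ∈ range (k - L / 10), gg L y * KK L (k - y) ≤ 2.041 * (L : ℝ) * (tn L * tn L) := by
  have hL100 : (10 : ℝ) ^ 100 ≤ L := le_trans (pow_le_pow_right₀ (by norm_num) (by norm_num)) hL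
  have hL0 : (0 : ℝ) < L := lt_of_lt_of_le (by positivity) hL100
  have htL := tn_pos L
  have hIL : 100000000000 * I ≤ L := by
    have h3 : (100000000000 : ℝ) * I ≤ L := by
      have : (0 : ℝ) ≤ I := Nat.cast_nonneg I
      norm_num at h1
      linarith
    exact_mod_cast h3
  have hL9 : 1000000000 ≤ L := by
    have : (1000000000 : ℝ) ≤ L := le_trans (by norm_num) hL100
    exact_mod_cast this
  have ht10 : tn (L / 10) ≤ 100 * tn L := by
    have h3 := tn_le_sq (show L / 10 ≤ L by omega)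
    have h4 : (L : ℝ) + 1 ≤ 10 * (((L / 10 : ℕ) : ℝ) + 1) := by
      exact_mod_cast (by omega : L + 1 ≤ 10 * (L / 10 + 1))
    have h5 : ((L : ℝ) + 1) ^ 2 * tn L ≤ (10 * (((L / 10 : ℕ) : ℝ) + 1)) ^ 2 * tn L :=
      mul_le_mul_of_nonneg_right (pow_le_pow_left₀ (by positivity) h4 2) htL.le
    have h6 : (((L / 10 : ℕ) : ℝ) + 1) ^ 2 * tn (L / 10) ≤
        (((L / 10 : ℕ) : ℝ) + 1) ^ 2 * (100 * tn L) := by
      refine h3.trans (h5.trans (le_of_eq ?_))
      ring
    exact le_of_mul_le_mul_left h6 (by positivity)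
  obtain ⟨c, hc⟩ : ∃ c : ℝ, c = 2 * (L : ℝ) * (tn L / 0.9999) := ⟨_, rfl⟩
  have hc0 : 0 ≤ c := by rw [hc]; positivity
  have hpt : ∀ y ∈ range (k - L / 10), gg L y * KK L (k - y) ≤
      (if y < I then gg L y * c else 0) + 0.0001 * (tn L * tn L) := by
    intro y hy
    have hy' := mem_range.mp hy
    have hg := gg_nonneg L y
    have hK := KK_le_tn L (k - y)
    rcases Nat.lt_or_ge y I with h | h
    · rw [if_pos h]
      have h3 : tn (k - y) ≤ tn (L - I) := tn_anti_le (by omega)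
      have h4 := tn_near2 (L - I) L (by omega) (by
        rw [Nat.cast_sub (by omega)]
        have h5 : (100000000000 : ℝ) * I ≤ L := by exact_mod_cast hIL
        linarith)
      have h5 : tn (L - I) ≤ tn L / 0.9999 := by
        rw [le_div_iff₀ (by norm_num)]
        linarith
      have h6 : KK L (k - y) ≤ c := by
        rw [hc]
        refine hK.trans (mul_le_mul_of_nonneg_left (h3.trans h5) (by positivity))
      have h7 := mul_le_mul_of_nonneg_left h6 hg
      have : 0 ≤ 0.0001 * (tn L * tn L) := by positivity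
      linarith
    · rw [if_neg (by omega), zero_add]
      have h3 := tail_small L I hL h1 h2 y h
      have h4 : tn (k - y) ≤ 100 * tn L := (tn_anti_le (by omega)).trans ht10
      have h5 := mul_le_mul_of_nonneg_left hK hg
      have h6 := mul_le_mul h3 h4 (tn_pos _).le (by positivity)
      norm_num at h6 ⊢
      linarith
  have hsum := Finset.sum_le_sum hpt
  rw [Finset.sum_add_distrib, Finset.sum_const, card_range, nsmul_eq_mul] at hsum
  have hi := sum_if_lt (fun y => gg L y * c) (fun y => mul_nonneg (gg_nonneg L y) hc0) I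
    (k - L / 10)
  rw [← Finset.sum_mul] at hi
  have hup := sum_gg_up L I hL100 h1
  have h3 := mul_le_mul_of_nonneg_right hup hc0
  have h4 : ((k - L / 10 : ℕ) : ℝ) ≤ 1.0001 * L := by
    have h5 : 10000 * (k - L / 10) ≤ 10001 * L := by omega
    have h6 : (10000 : ℝ) * ((k - L / 10 : ℕ) : ℝ) ≤ 10001 * L := by exact_mod_cast h5
    linarith
  have htt : 0 < tn L * tn L := by positivity
  have h5 := mul_le_mul_of_nonneg_right h4 (show 0 ≤ 0.0001 * (tn L * tn L) by positivity)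
  have h6 : 1.02 * tn L * c ≤ 2.0403 * (L : ℝ) * (tn L * tn L) := by
    rw [hc]
    have e : 1.02 * tn L * (2 * (L : ℝ) * (tn L / 0.9999)) =
        (1.02 * 2 / 0.9999) * ((L : ℝ) * (tn L * tn L)) := by ring
    rw [e]
    have h7 : 0 < (L : ℝ) * (tn L * tn L) := by positivity
    have h8 : (1.02 * 2 / 0.9999 : ℝ) ≤ 2.0403 := by norm_num
    have h9 := mul_le_mul_of_nonneg_right h8 h7.le
    linarith
  have h7 : 0 < (L : ℝ) * (tn L * tn L) := by positivity
  norm_num at h5 h6 hsum hi h3 ⊢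
  linarith

/-- lower bound for `gg` slightly beyond `L` -/
theorem A_low2 (L k I : ℕ) (hL : (10 : ℝ) ^ 200 ≤ L) (h1 : (10 : ℝ) ^ 24 * I ≤ L)
    (h2 : (L : ℝ) ≤ 4 * 10 ^ 24 * I) (hk1 : L ≤ k) (hk2 : 10000 * (k + 1) ≤ 10001 * L)
    (γ : ℝ) (hγ : γ * (E * ((k : ℝ) + 1)) = 0.92 * ∑ y ∈ range (k - L / 10), gg L y * KK L (k - y)) :
    ∀ k', L ≤ k' + L / 10000 → k' ≤ k + 1 → γ ≤ gg L k' := by
  have hL100 : (10 : ℝ) ^ 100 ≤ L := le_trans (pow_le_pow_right₀ (by norm_num) (by norm_num)) hL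
  have hL0 : (0 : ℝ) < L := lt_of_lt_of_le (by positivity) hL100
  have hE := E_ge
  have hEp := E_pos
  have htL := tn_pos L
  have hL9 : 100000000000000000 ≤ L := by
    have : (100000000000000000 : ℝ) ≤ L := le_trans (by norm_num) hL100
    exact_mod_cast this
  have hk1' : (L : ℝ) ≤ k := by exact_mod_cast hk1
  obtain ⟨Q, hQ⟩ : ∃ Q : ℝ, Q = ∑ y ∈ range (k - L / 10), gg L y * KK L (k - y) := ⟨_, rfl⟩
  have hQ0 : 0 ≤ Q := by
    rw [hQ]
    exact Finset.sum_nonneg fun y _ => mul_nonneg (gg_nonneg L y) (KK_nonneg L _)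
  have hQle := Q_le L k I hL h1 h2 hk1 hk2
  rw [← hQ] at hγ hQle
  have hk0 : (0 : ℝ) < (k : ℝ) + 1 := by positivity
  have hγ0 : 0 ≤ γ := by
    by_contra hcon
    have h3 : γ * (E * ((k : ℝ) + 1)) < 0 := mul_neg_of_neg_of_pos (not_le.mp hcon) (by positivity)
    linarith
  intro k'
  induction k' using Nat.strong_induction_on with
  | _ k' ih =>
    intro hk3 hk4
    rcases Nat.lt_or_ge L k' with h | h
    · obtain ⟨p, rfl⟩ : ∃ p, k' = p + 1 := ⟨k' - 1, by omega⟩
      have hrec := A_rec2 L (L + p)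
      have hnn : 0 ≤ ∑ k ∈ range (L + p + 1), (if L ≤ k then Fn (L + 1) k * Fn (L + 1) (L + p - k)
          else 0) := by
        apply Finset.sum_nonneg
        intro k _
        split_ifs
        · exact mul_nonneg (Fn_nonneg _ _) (Fn_nonneg _ _)
        · exact le_rfl
      have hb := blockg (fun j => An L j * KK L (L + p - j))
        (fun j => mul_nonneg (An_nonneg _ _) (KK_nonneg _ _)) (L + p + 1) L (L + p) (k - L / 10)
        (L / 10000 + 1) (by omega) (by omega) (by omega)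
      have hb1 : Q ≤ ∑ y ∈ range (k - L / 10), An L (L + y) * KK L (L + p - (L + y)) := by
        rw [hQ]
        apply Finset.sum_le_sum
        intro y _
        apply mul_le_mul_of_nonneg_left _ (gg_nonneg L y)
        exact KK_anti L (by omega)
      have hb2 : γ * (L * ∑ x ∈ range (L / 10000 + 1), tn x) ≤
          ∑ y ∈ range (L / 10000 + 1), An L (L + p - y) * KK L (L + p - (L + p - y)) := by
        rw [Finset.mul_sum, Finset.mul_sum]
        apply Finset.sum_le_sum
        intro y hy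
        have hy' := mem_range.mp hy
        have q1 : L + p - (L + p - y) = y := by omega
        have q2 : L + p - y = L + (p - y) := by omega
        rw [q1, q2]
        have h3 := ih (p - y) (by omega) (by omega) (by omega)
        have h4 := KK_ge_tn L y (by omega)
        exact mul_le_mul h3 h4 (mul_nonneg hL0.le (tn_pos y).le) (An_nonneg _ _)
      have hs := sum_tn_low (L / 10000 + 1) (by omega)
      have hs2 : 8 / √((L / 10000 + 1 : ℕ) : ℝ) ≤ 0.001 := by
        have h9 : (10 : ℝ) ^ 4 ≤ √((L / 10000 + 1 : ℕ) : ℝ) := by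
          apply Real.le_sqrt_of_sq_le
          have h10 : 1000000000 ≤ L / 10000 + 1 := by omega
          have h11 : (1000000000 : ℝ) ≤ ((L / 10000 + 1 : ℕ) : ℝ) := by exact_mod_cast h10
          norm_num at h11 ⊢
          linarith
        rw [div_le_iff₀ (lt_of_lt_of_le (by positivity) h9)]
        norm_num at h9 ⊢
        linarith
      have hs3 : E - 0.001 ≤ ∑ x ∈ range (L / 10000 + 1), tn x := by linarith
      have hs4 := mul_le_mul_of_nonneg_left hs3 (mul_nonneg hγ0 hL0.le)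
      have hfin : E * ((((L + p : ℕ) : ℝ) + 1) * γ) ≤ E * ((((L + p : ℕ) : ℝ) + 1) * An L (L + p + 1)) := by
        rw [hrec]
        have h5 : ((L + p : ℕ) : ℝ) ≤ (L : ℝ) + k := by exact_mod_cast (by omega : L + p ≤ L + k)
        have h6 : E * ((((L + p : ℕ) : ℝ) + 1) * γ) ≤ E * (((L : ℝ) + k + 1) * γ) := by
          apply mul_le_mul_of_nonneg_left _ hEp.le
          exact mul_le_mul_of_nonneg_right (by linarith) hγ0
        have h7 : E * (((L : ℝ) + k + 1) * γ) = γ * L * E + 0.92 * Q := by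
          rw [← hγ]
          ring
        have h8 : 0.001 * (γ * L) ≤ 0.08 * Q := by
          have h9 : 2.7 * (γ * L) ≤ γ * (E * ((k : ℝ) + 1)) := by
            have h10 : 2.7 * (L : ℝ) ≤ E * ((k : ℝ) + 1) :=
              mul_le_mul hE (by linarith) hL0.le hEp.le
            have h11 := mul_le_mul_of_nonneg_left h10 hγ0
            linarith
          rw [hγ] at h9
          norm_num at h9 ⊢
          linarith
        linarith
      exact le_of_mul_le_mul_left (le_of_mul_le_mul_left hfin hEp) (by positivity)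
    · obtain ⟨m, rfl⟩ : ∃ m, k' = m + 1 := ⟨k' - 1, by omega⟩
      have h3 := gg_low L hL m (by omega)
      have hm1 : (L : ℝ) / 5 ≤ (m : ℝ) + 1 := by
        have h4 : L ≤ 5 * (m + 1) := by omega
        have h5 : (L : ℝ) ≤ 5 * ((m : ℝ) + 1) := by exact_mod_cast h4
        linarith
      have hrho : rho ((L : ℝ) / 10) ((m : ℝ) + 1) = 1 := by
        unfold rho
        have h4 : 1 ≤ ((m : ℝ) + 1 - (L : ℝ) / 10) / ((L : ℝ) / 10) := by
          rw [le_div_iff₀ (by positivity)]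
          linarith
        rw [min_eq_left h4, max_eq_right (by norm_num)]
      rw [hrho, mul_one] at h3
      have hD : 2 * (tn L * tn L) / E ≤ DL L m := by
        unfold DL
        apply div_le_div_of_nonneg_right _ hEp.le
        have h4 : (1 : ℝ) ≤ (L : ℝ) / ((m : ℝ) + 1) := by
          rw [le_div_iff₀ (by positivity)]
          have : ((m + 1 : ℕ) : ℝ) ≤ L := by exact_mod_cast h
          push_cast at this
          linarith
        have h5 : tn L * tn L ≤ tn m * tn L :=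
          mul_le_mul_of_nonneg_right (tn_anti_le (by omega)) htL.le
        exact mul_le_mul (by linarith) h5 (by positivity) (by positivity)
      refine le_trans ?_ (le_trans (mul_le_mul_of_nonneg_left hD (by norm_num)) h3)
      rw [mul_div_assoc', le_div_iff₀ hEp]
      have h6 : γ * E * ((k : ℝ) + 1) ≤ 0.95 * (2 * (tn L * tn L)) * ((k : ℝ) + 1) := by
        have h7 : γ * E * ((k : ℝ) + 1) = 0.92 * Q := by rw [← hγ]; ring
        rw [h7]
        have h8 : 0 < tn L * tn L := by positivity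
        have h9 : (L : ℝ) * (tn L * tn L) ≤ ((k : ℝ) + 1) * (tn L * tn L) :=
          mul_le_mul_of_nonneg_right (by linarith) h8.le
        have h10 : 0 ≤ (L : ℝ) * (tn L * tn L) := by positivity
        norm_num at hQle ⊢
        linarith
      exact le_of_mul_le_mul_right h6 hk0

end Pool.Agent.MP_9da1e3_co
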