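import Pool.Agent.Lib.MP_9da1e3_co.Lf5

/-!
The linearisation: with `F = Fn L` (as a power series) the inverse `u = 1 / F` satisfies the linear
equation `E u' = P_L u - L`, `P_L` a polynomial.
-/

namespace Pool.Agent.MP_9da1e3_co

open Finset

/-- the generating series of `Fn L` -/
noncomputable def FF (L : ℕ) : PowerSeries ℝ := PowerSeries.mk (Fn L)

/-- minus the coefficients of the inverse -/
noncomputable def rn (L k : ℕ) : ℝ := - PowerSeries.coeff k (FF L)⁻¹

/-- the coefficients of the polynomial `P_L` -/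
noncomputable def PPc (L k : ℕ) : ℝ := if k < L then ((L : ℝ) - 1 - k) * tn k else 0

noncomputable def linPP (L : ℕ) : PowerSeries ℝ := PowerSeries.mk (PPc L)

lemma coeff_FF (L n : ℕ) : PowerSeries.coeff n (FF L) = Fn L n := PowerSeries.coeff_mk _ _

lemma coeff_PP (L n : ℕ) : PowerSeries.coeff n (linPP L) = PPc L n := PowerSeries.coeff_mk _ _

lemma Fn_z (L : ℕ) : Fn L 0 = 1 := by
  rw [Fn_eq_tn L 0 (Nat.zero_le _), tn_zero]

lemma const_FF (L : ℕ) : PowerSeries.constantCoeff (FF L) = 1 := by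
  rw [← PowerSeries.coeff_zero_eq_constantCoeff_apply, coeff_FF, Fn_z]

lemma FF_ne (L : ℕ) : PowerSeries.constantCoeff (FF L) ≠ 0 := by
  rw [const_FF]; exact one_ne_zero

lemma FF_mul_inv (L : ℕ) : FF L * (FF L)⁻¹ = 1 := PowerSeries.mul_inv_cancel _ (FF_ne L)

lemma min_eq_PP (L k : ℕ) : ((min L (k + 1) : ℕ) : ℝ) * Fn L k = (L : ℝ) * Fn L k - PPc L k := by
  unfold PPc
  rcases Nat.lt_or_ge k L with h | h
  · have m1 : min L (k + 1) = k + 1 := by omega
    rw [m1, if_pos h, Fn_eq_tn L k (by omega)]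
    push_cast
    ring
  · have m1 : min L (k + 1) = L := by omega
    rw [m1, if_neg (by omega)]
    ring

lemma lin_coeff_mul_range (A B : PowerSeries ℝ) (n : ℕ) : PowerSeries.coeff n (A * B) =
    ∑ k ∈ range (n + 1), PowerSeries.coeff k A * PowerSeries.coeff (n - k) B := by
  rw [PowerSeries.coeff_mul, Finset.Nat.sum_antidiagonal_eq_sum_range_succ
    (fun i j => PowerSeries.coeff i A * PowerSeries.coeff j B)]

lemma FF_ode (L : ℕ) : PowerSeries.C E * PowerSeries.derivative ℝ (FF L) =
    (PowerSeries.C (L : ℝ) * FF L - linPP L) * FF L := by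
  ext n
  rw [PowerSeries.coeff_C_mul, PowerSeries.coeff_derivative, lin_coeff_mul_range, coeff_FF]
  have h := Fn_rec L n
  have e : E * (Fn L (n + 1) * ((n : ℝ) + 1)) = E * (((n : ℝ) + 1) * Fn L (n + 1)) := by ring
  rw [e, h]
  apply Finset.sum_congr rfl
  intro k _
  rw [map_sub, PowerSeries.coeff_C_mul, coeff_FF, coeff_FF, coeff_PP, ← min_eq_PP]
  ring

lemma inv_ode (L : ℕ) : PowerSeries.C E * PowerSeries.derivative ℝ (FF L)⁻¹ =
    linPP L * (FF L)⁻¹ - PowerSeries.C (L : ℝ) := by
  have h1 := FF_mul_inv L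
  rw [PowerSeries.derivative_inv']
  have h2 := FF_ode L
  calc PowerSeries.C E * (-(FF L)⁻¹ ^ 2 * PowerSeries.derivative ℝ (FF L))
      = -(FF L)⁻¹ ^ 2 * (PowerSeries.C E * PowerSeries.derivative ℝ (FF L)) := by ring
    _ = -(FF L)⁻¹ ^ 2 * ((PowerSeries.C (L : ℝ) * FF L - linPP L) * FF L) := by rw [h2]
    _ = linPP L * (FF L)⁻¹ * (FF L * (FF L)⁻¹) -
        PowerSeries.C (L : ℝ) * (FF L * (FF L)⁻¹) * (FF L * (FF L)⁻¹) := by ring
    _ = _ := by rw [h1]; ring

lemma rn_zero (L : ℕ) : rn L 0 = -1 := by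
  unfold rn
  have h := congrArg (PowerSeries.coeff 0) (FF_mul_inv L)
  rw [lin_coeff_mul_range] at h
  simp only [zero_add, range_one, sum_singleton, Nat.sub_zero, coeff_FF, Fn_z, one_mul,
    PowerSeries.coeff_zero_one] at h
  rw [h]

/-- the recursion, for all `n ≥ 1` -/
lemma rn_rec_all (L n : ℕ) (hn : 1 ≤ n) : E * (((n : ℝ) + 1) * rn L (n + 1)) =
    ∑ k ∈ range (n + 1), PPc L k * rn L (n - k) := by
  have h := congrArg (PowerSeries.coeff n) (inv_ode L)
  rw [PowerSeries.coeff_C_mul, PowerSeries.coeff_derivative, map_sub, lin_coeff_mul_range,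
    PowerSeries.coeff_C, if_neg (by omega), sub_zero] at h
  unfold rn
  have e : E * (((n : ℝ) + 1) * -PowerSeries.coeff (n + 1) (FF L)⁻¹) =
      -(E * (PowerSeries.coeff (n + 1) (FF L)⁻¹ * ((n : ℝ) + 1))) := by ring
  rw [e, h, ← Finset.sum_neg_distrib]
  apply Finset.sum_congr rfl
  intro k _
  rw [coeff_PP]
  ring

/-- the recursion with its window -/
lemma rn_rec (L n : ℕ) (hn : 1 ≤ n) (hL : L ≤ n + 1) : E * (((n : ℝ) + 1) * rn L (n + 1)) =
    ∑ i ∈ range L, ((L : ℝ) - 1 - i) * tn i * rn L (n - i) := by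
  rw [rn_rec_all L n hn]
  have e : ∑ k ∈ range (n + 1), PPc L k * rn L (n - k) =
      ∑ k ∈ range L, PPc L k * rn L (n - k) := by
    symm
    apply Finset.sum_subset (Finset.range_subset_range.mpr hL)
    intro k _ hk
    rw [mem_range] at hk
    unfold PPc
    rw [if_neg hk, zero_mul]
  rw [e]
  apply Finset.sum_congr rfl
  intro k hk
  unfold PPc
  rw [if_pos (mem_range.mp hk)]

/-! ### The explicit coefficients -/

/-- inverses of two series which agree up to `N` -/
lemma inv_congr (A B : PowerSeries ℝ) (hA : PowerSeries.constantCoeff A ≠ 0)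
    (hB : PowerSeries.constantCoeff B ≠ 0) (N : ℕ)
    (h : ∀ k, k ≤ N → PowerSeries.coeff k A = PowerSeries.coeff k B) (k : ℕ) (hk : k ≤ N) :
    PowerSeries.coeff k A⁻¹ = PowerSeries.coeff k B⁻¹ := by
  have h1 := PowerSeries.mul_inv_cancel A hA
  have h2 := PowerSeries.mul_inv_cancel B hB
  have e : A⁻¹ = B⁻¹ + (A⁻¹ * B⁻¹) * (B - A) := by
    have : (A⁻¹ * B⁻¹) * (B - A) = A⁻¹ * (B * B⁻¹) - B⁻¹ * (A * A⁻¹) := by ring
    rw [this, h1, h2]
    ring
  rw [e, map_add, lin_coeff_mul_range (A⁻¹ * B⁻¹) (B - A) k]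
  have z : ∑ i ∈ range (k + 1), PowerSeries.coeff i (A⁻¹ * B⁻¹) *
      PowerSeries.coeff (k - i) (B - A) = 0 := by
    apply Finset.sum_eq_zero
    intro i _
    rw [map_sub, h (k - i) (by omega), sub_self, mul_zero]
  rw [z, add_zero]

/-- the limit series -/
noncomputable def linTT : PowerSeries ℝ := PowerSeries.mk tn

noncomputable def CC : PowerSeries ℝ := PowerSeries.mk cE

lemma coeff_TT (n : ℕ) : PowerSeries.coeff n linTT = tn n := PowerSeries.coeff_mk _ _

lemma coeff_CC (n : ℕ) : PowerSeries.coeff n CC = cE n := PowerSeries.coeff_mk _ _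

lemma const_TT : PowerSeries.constantCoeff linTT = 1 := by
  rw [← PowerSeries.coeff_zero_eq_constantCoeff_apply, coeff_TT, tn_zero]

lemma TT_ne : PowerSeries.constantCoeff linTT ≠ 0 := by
  rw [const_TT]; exact one_ne_zero

lemma TT_ode : PowerSeries.C E * PowerSeries.derivative ℝ linTT = linTT * CC := by
  ext n
  rw [PowerSeries.coeff_C_mul, PowerSeries.coeff_derivative, lin_coeff_mul_range, coeff_TT]
  have h := abel_tc n
  have hE := E_pos
  have e : ∑ k ∈ range (n + 1), PowerSeries.coeff k linTT * PowerSeries.coeff (n - k) CC =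
      (∑ k ∈ range (n + 1), tt k * cc (n - k)) / E ^ n := by
    rw [Finset.sum_div]
    apply Finset.sum_congr rfl
    intro k hk
    have hk' : k ≤ n := by have := mem_range.mp hk; omega
    rw [coeff_TT, coeff_CC, cE_eq]
    unfold tn
    have e2 : E ^ n = E ^ k * E ^ (n - k) := by
      rw [← pow_add]
      congr 1
      omega
    rw [e2]
    have := pow_pos hE k
    have := pow_pos hE (n - k)
    field_simp
  rw [e, h]
  unfold tn
  rw [pow_succ]
  have := pow_pos hE n
  field_simp

lemma TT_CC : CC = linTT + PowerSeries.C E⁻¹ * (PowerSeries.X * (linTT * CC)) := by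
  ext n
  rw [map_add, PowerSeries.coeff_C_mul, coeff_CC, coeff_TT]
  rcases Nat.eq_zero_or_pos n with rfl | hn
  · rw [PowerSeries.coeff_zero_X_mul]
    unfold cE
    simp
  · obtain ⟨m, rfl⟩ : ∃ m, n = m + 1 := ⟨n - 1, by omega⟩
    rw [PowerSeries.coeff_succ_X_mul, ← TT_ode, PowerSeries.coeff_C_mul,
      PowerSeries.coeff_derivative, coeff_TT]
    have hE := E_pos.ne'
    unfold cE
    push_cast
    field_simp
    ring

/-- `E u' = -(1 + X C / E)` for `u = 1/T` -/
lemma TTinv_ode : PowerSeries.C E * PowerSeries.derivative ℝ linTT⁻¹ =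
    -(1 + PowerSeries.C E⁻¹ * (PowerSeries.X * CC)) := by
  have h1 := PowerSeries.mul_inv_cancel linTT TT_ne
  rw [PowerSeries.derivative_inv']
  have h2 := TT_ode
  have h3 := TT_CC
  calc PowerSeries.C E * (-linTT⁻¹ ^ 2 * PowerSeries.derivative ℝ linTT)
      = -linTT⁻¹ ^ 2 * (PowerSeries.C E * PowerSeries.derivative ℝ linTT) := by ring
    _ = -linTT⁻¹ ^ 2 * (linTT * CC) := by rw [h2]
    _ = -(linTT⁻¹ * (linTT * linTT⁻¹)) * CC := by ring
    _ = -(linTT⁻¹ * (linTT * linTT⁻¹)) * (linTT + PowerSeries.C E⁻¹ * (PowerSeries.X * (linTT * CC))) := by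
        rw [← h3]
    _ = -((linTT * linTT⁻¹) * (linTT * linTT⁻¹) +
        (linTT * linTT⁻¹) * (linTT * linTT⁻¹) * (PowerSeries.C E⁻¹ * (PowerSeries.X * CC))) := by ring
    _ = _ := by rw [h1]; ring

lemma TTinv_coeff (n : ℕ) : PowerSeries.coeff (n + 1) linTT⁻¹ =
    - ((n : ℝ) ^ n / ((n + 1).factorial : ℝ) / E ^ (n + 1)) := by
  have h := congrArg (PowerSeries.coeff n) TTinv_ode
  rw [PowerSeries.coeff_C_mul, PowerSeries.coeff_derivative, map_neg, map_add,
    PowerSeries.coeff_C_mul] at h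
  have hE := E_pos
  rcases Nat.eq_zero_or_pos n with rfl | hn
  · rw [PowerSeries.coeff_zero_X_mul, PowerSeries.coeff_zero_one] at h
    have h4 : E * PowerSeries.coeff (0 + 1) linTT⁻¹ = -1 := by
      have : E * (PowerSeries.coeff (0 + 1) linTT⁻¹ * (((0 : ℕ) : ℝ) + 1)) =
        E * PowerSeries.coeff (0 + 1) linTT⁻¹ := by push_cast; ring
      rw [this] at h
      rw [h]
      ring
    have h5 : PowerSeries.coeff (0 + 1) linTT⁻¹ = -1 / E := by
      rw [eq_div_iff hE.ne']
      linarith
    rw [h5]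
    simp
    ring
  · obtain ⟨m, rfl⟩ : ∃ m, n = m + 1 := ⟨n - 1, by omega⟩
    rw [PowerSeries.coeff_succ_X_mul, coeff_CC, PowerSeries.coeff_one, if_neg (by omega),
      zero_add, cE_eq] at h
    unfold cc at h
    have h4 : PowerSeries.coeff (m + 1 + 1) linTT⁻¹ =
        -(E⁻¹ * ((((m : ℝ) + 1) ^ m / (m.factorial : ℝ)) / E ^ m)) /
          (E * (((m + 1 : ℕ) : ℝ) + 1)) := by
      rw [eq_div_iff (by positivity)]
      rw [← h]
      ring
    rw [h4]
    have f1 : ((m + 1 + 1).factorial : ℝ) = ((m : ℝ) + 2) * (((m : ℝ) + 1) * (m.factorial : ℝ)) := by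
      rw [Nat.factorial_succ, Nat.factorial_succ]
      push_cast
      ring
    rw [f1]
    have hf : (0 : ℝ) < (m.factorial : ℝ) := by positivity
    have hp := pow_pos hE m
    push_cast
    rw [pow_succ E (m + 1), pow_succ E m, pow_succ ((m : ℝ) + 1) m]
    have h6 : (0 : ℝ) < (m : ℝ) + 1 := by positivity
    field_simp
    ring

/-- the explicit values -/
lemma rn_explicit (L k : ℕ) (hk : k + 1 ≤ L) : rn L (k + 1) =
    (k : ℝ) ^ k / ((k + 1).factorial : ℝ) / E ^ (k + 1) := by
  unfold rn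
  rw [inv_congr (FF L) linTT (FF_ne L) TT_ne L
    (fun j hj => by rw [coeff_FF, coeff_TT, Fn_eq_tn L j hj]) (k + 1) hk, TTinv_coeff, neg_neg]

lemma rn_nonneg (L : ℕ) : ∀ k : ℕ, 0 ≤ rn L (k + 1) := by
  intro k
  induction k using Nat.strong_induction_on with
  | _ k ih =>
    rcases Nat.lt_or_ge k L with h | h
    · rw [rn_explicit L k h]
      have := E_pos
      positivity
    · rcases Nat.eq_zero_or_pos k with rfl | hk
      · have hL : L = 0 := by omega
        have h1 := congrArg (PowerSeries.coeff 0) (inv_ode L)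
        rw [PowerSeries.coeff_C_mul, PowerSeries.coeff_derivative, map_sub, lin_coeff_mul_range,
          PowerSeries.coeff_C, if_pos rfl] at h1
        have h2 : PPc L 0 = 0 := by
          unfold PPc
          rw [if_neg (by omega)]
        rw [zero_add, Finset.sum_range_one, coeff_PP, h2, hL] at h1
        unfold rn
        rw [hL]
        have hE := E_pos
        have h3 : PowerSeries.coeff (0 + 1) (FF 0)⁻¹ = 0 := by
          have : E * PowerSeries.coeff (0 + 1) (FF 0)⁻¹ = 0 := by
            have e : E * PowerSeries.coeff (0 + 1) (FF 0)⁻¹ =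
              E * (PowerSeries.coeff (0 + 1) (FF 0)⁻¹ * (((0 : ℕ) : ℝ) + 1)) := by
                push_cast; ring
            rw [e]
            rw [zero_add]
            rw [h1]
            push_cast
            ring
          rcases mul_eq_zero.mp this with h4 | h4
          · exact absurd h4 hE.ne'
          · exact h4
        rw [h3]
        simp
      · have h1 := rn_rec L k hk (by omega)
        have h2 : 0 ≤ ∑ i ∈ range L, ((L : ℝ) - 1 - i) * tn i * rn L (k - i) := by
          apply Finset.sum_nonneg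
          intro i hi
          have hi' := mem_range.mp hi
          have h3 : (i : ℝ) + 1 ≤ L := by exact_mod_cast hi'
          rcases Nat.lt_or_ge i k with h4 | h4
          · have h5 := ih (k - i - 1) (by omega)
            have q : k - i - 1 + 1 = k - i := by omega
            rw [q] at h5
            exact mul_nonneg (mul_nonneg (by linarith) (tn_pos i).le) h5
          · have h5 : (L : ℝ) - 1 - i = 0 := by
              have h6 : i + 1 = L := by omega
              have h7 : ((i : ℝ) + 1) = L := by exact_mod_cast h6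
              linarith
            rw [h5]
            simp
        rw [← h1] at h2
        have hE := E_pos
        have hk0 : (0 : ℝ) < (k : ℝ) + 1 := by positivity
        exact (mul_nonneg_iff_of_pos_left hk0).mp ((mul_nonneg_iff_of_pos_left hE).mp h2)

end Pool.Agent.MP_9da1e3_co
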