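import Pool.Agent.Lib.MP_9da1e3_co.Lin45

namespace Pool.Agent.MP_9da1e3_co

open Finset

/-- `rhoL L n = rn (L+1) n - rn L n` -/
noncomputable def rhoL (L n : ℕ) : ℝ := rn (L + 1) n - rn L n

/-- the polynomial `sum_{k<L} tn k x^k` -/
noncomputable def QQ (L : ℕ) : PowerSeries ℝ := PowerSeries.mk (fun k => if k < L then tn k else 0)

lemma coeff_QQ (L n : ℕ) : PowerSeries.coeff n (QQ L) = if n < L then tn n else 0 :=
  PowerSeries.coeff_mk _ _

lemma linPP_succ (L : ℕ) : linPP (L + 1) = linPP L + QQ L := by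
  ext n
  rw [map_add, coeff_PP, coeff_PP, coeff_QQ]
  unfold PPc
  rcases Nat.lt_trichotomy n L with h | h | h
  · rw [if_pos (by omega), if_pos h, if_pos h]
    push_cast
    ring
  · rw [if_pos (by omega), if_neg (by omega), if_neg (by omega), h]
    push_cast
    ring
  · rw [if_neg (by omega), if_neg (by omega), if_neg (by omega)]
    ring

lemma rhoL_zero (L n : ℕ) (h : n ≤ L) : rhoL L n = 0 := by
  unfold rhoL rn
  rw [inv_congr (FF (L + 1)) (FF L) (FF_ne _) (FF_ne _) L
    (fun j hj => by rw [coeff_FF, coeff_FF, Fn_eq_tn (L + 1) j (by omega), Fn_eq_tn L j hj]) n h]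
  ring

/-- the difference equation -/
lemma rho_ode (L : ℕ) : PowerSeries.C E * PowerSeries.derivative ℝ ((FF L)⁻¹ - (FF (L + 1))⁻¹) =
    linPP (L + 1) * ((FF L)⁻¹ - (FF (L + 1))⁻¹) + 1 - QQ L * (FF L)⁻¹ := by
  have h0 := inv_ode L
  have h1 := inv_ode (L + 1)
  have hc : PowerSeries.C (((L + 1 : ℕ)) : ℝ) = PowerSeries.C (L : ℝ) + (1 : PowerSeries ℝ) := by
    push_cast
    rw [map_add, map_one]
  rw [map_sub, mul_sub, h0, h1, hc, linPP_succ]
  ring

lemma coeff_rho (L n : ℕ) : PowerSeries.coeff n ((FF L)⁻¹ - (FF (L + 1))⁻¹) = rhoL L n := by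
  unfold rhoL rn
  rw [map_sub]
  ring

/-- `s_n = sum_{k<L} tn k * rn L (n-k)` is the source for `n ≥ L` -/
lemma rho_rec (L n : ℕ) (hn : L ≤ n) (hL : 1 ≤ L) : E * (((n : ℝ) + 1) * rhoL L (n + 1)) =
    ∑ k ∈ range L, ((L : ℝ) - k) * tn k * rhoL L (n - k) +
    ∑ k ∈ range L, tn k * rn L (n - k) := by
  have h := congrArg (PowerSeries.coeff n) (rho_ode L)
  rw [PowerSeries.coeff_C_mul, PowerSeries.coeff_derivative, coeff_rho,
    map_sub (PowerSeries.coeff n) (linPP (L + 1) * ((FF L)⁻¹ - (FF (L + 1))⁻¹) + 1) (QQ L * (FF L)⁻¹),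
    map_add, lin_coeff_mul_range,
    lin_coeff_mul_range (QQ L), PowerSeries.coeff_one, if_neg (by omega), add_zero] at h
  have e : E * (((n : ℝ) + 1) * rhoL L (n + 1)) = E * (rhoL L (n + 1) * ((n : ℝ) + 1)) := by ring
  rw [e, h]
  have e1 : ∑ k ∈ range (n + 1), PowerSeries.coeff k (linPP (L + 1)) *
      PowerSeries.coeff (n - k) ((FF L)⁻¹ - (FF (L + 1))⁻¹) =
      ∑ k ∈ range L, ((L : ℝ) - k) * tn k * rhoL L (n - k) := by
    have e2 : ∑ k ∈ range (n + 1), PowerSeries.coeff k (linPP (L + 1)) *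
        PowerSeries.coeff (n - k) ((FF L)⁻¹ - (FF (L + 1))⁻¹) =
        ∑ k ∈ range L, PowerSeries.coeff k (linPP (L + 1)) *
        PowerSeries.coeff (n - k) ((FF L)⁻¹ - (FF (L + 1))⁻¹) := by
      symm
      apply Finset.sum_subset (Finset.range_subset_range.mpr (by omega))
      intro k _ hk
      rw [mem_range] at hk
      rw [coeff_PP]
      unfold PPc
      rcases Nat.lt_or_ge k (L + 1) with h4 | h4
      · have h5 : k = L := by omega
        rw [if_pos h4, h5]
        push_cast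
        ring
      · rw [if_neg (by omega), zero_mul]
    rw [e2]
    apply Finset.sum_congr rfl
    intro k hk
    have hk' := mem_range.mp hk
    rw [coeff_PP, coeff_rho]
    unfold PPc
    rw [if_pos (by omega)]
    push_cast
    ring
  have e3 : ∑ k ∈ range (n + 1), PowerSeries.coeff k (QQ L) * PowerSeries.coeff (n - k) (FF L)⁻¹ =
      -∑ k ∈ range L, tn k * rn L (n - k) := by
    have e4 : ∑ k ∈ range (n + 1), PowerSeries.coeff k (QQ L) *
        PowerSeries.coeff (n - k) (FF L)⁻¹ =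
        ∑ k ∈ range L, PowerSeries.coeff k (QQ L) * PowerSeries.coeff (n - k) (FF L)⁻¹ := by
      symm
      apply Finset.sum_subset (Finset.range_subset_range.mpr (by omega))
      intro k _ hk
      rw [mem_range] at hk
      rw [coeff_QQ, if_neg hk, zero_mul]
    rw [e4, ← Finset.sum_neg_distrib]
    apply Finset.sum_congr rfl
    intro k hk
    rw [coeff_QQ, if_pos (mem_range.mp hk)]
    unfold rn
    ring
  rw [e1, e3]
  ring

lemma rhoL_nonneg (L : ℕ) (hL : 1 ≤ L) : ∀ n : ℕ, 0 ≤ rhoL L n := by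
  intro n
  induction n using Nat.strong_induction_on with
  | _ n ih =>
    rcases Nat.lt_or_ge L n with h | h
    · obtain ⟨m, rfl⟩ : ∃ m, n = m + 1 := ⟨n - 1, by omega⟩
      have h1 := rho_rec L m (by omega) hL
      have h2 : 0 ≤ ∑ k ∈ range L, ((L : ℝ) - k) * tn k * rhoL L (m - k) := by
        apply Finset.sum_nonneg
        intro k hk
        have hk' : (k : ℝ) ≤ L := by exact_mod_cast (mem_range.mp hk).le
        exact mul_nonneg (mul_nonneg (by linarith) (tn_pos k).le) (ih (m - k) (by omega))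
      have h3 : 0 ≤ ∑ k ∈ range L, tn k * rn L (m - k) := by
        apply Finset.sum_nonneg
        intro k hk
        have hk' := mem_range.mp hk
        have h4 := rn_nonneg L (m - k - 1)
        have q : m - k - 1 + 1 = m - k := by omega
        rw [q] at h4
        exact mul_nonneg (tn_pos k).le h4
      have h4 : 0 ≤ E * (((m : ℝ) + 1) * rhoL L (m + 1)) := by
        rw [h1]
        exact add_nonneg h2 h3
      have hk0 : (0 : ℝ) < (m : ℝ) + 1 := by positivity
      exact (mul_nonneg_iff_of_pos_left hk0).mp ((mul_nonneg_iff_of_pos_left E_pos).mp h4)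
    · rw [rhoL_zero L n h]

lemma rn_mono (L n : ℕ) (hL : 1 ≤ L) : rn L n ≤ rn (L + 1) n := by
  have h := rhoL_nonneg L hL n
  unfold rhoL at h
  linarith

/-- `A_L = F_L F_{L+1} rho_L` -/
lemma AF_ps (L : ℕ) : FF (L + 1) - FF L =
    FF L * FF (L + 1) * ((FF L)⁻¹ - (FF (L + 1))⁻¹) := by
  have h0 := FF_mul_inv L
  have h1 := FF_mul_inv (L + 1)
  calc FF (L + 1) - FF L = FF (L + 1) * (FF L * (FF L)⁻¹) -
        FF L * (FF (L + 1) * (FF (L + 1))⁻¹) := by rw [h0, h1]; ring
    _ = _ := by ring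

lemma coeff_A (L n : ℕ) : PowerSeries.coeff n (FF (L + 1) - FF L) = An L n := by
  rw [map_sub, coeff_FF, coeff_FF]
  rfl

/-- `A_L(n) = sum_j rho_L(j) (F_L F_{L+1})(n-j)` -/
lemma An_eq_rho (L n : ℕ) : An L n = ∑ j ∈ range (n + 1), rhoL L j *
    PowerSeries.coeff (n - j) (FF L * FF (L + 1)) := by
  rw [← coeff_A, AF_ps, mul_comm (FF L * FF (L + 1)), lin_coeff_mul_range]
  apply Finset.sum_congr rfl
  intro j _
  rw [coeff_rho]

end Pool.Agent.MP_9da1e3_co
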