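import Pool.Agent.Lib.MP_9da1e3_co.Lin46

namespace Pool.Agent.MP_9da1e3_co

open Finset

/-- the coefficients of `T ^ 2` -/
noncomputable def TS2 (k : ℕ) : ℝ := 2 * E * (((k : ℝ) + 1) * tn (k + 1)) / ((k : ℝ) + 2)

lemma TT_sq : linTT * linTT = PowerSeries.C E * PowerSeries.derivative ℝ linTT -
    PowerSeries.C (1 / 2 : ℝ) * (PowerSeries.X * PowerSeries.derivative ℝ (linTT * linTT)) := by
  have h1 := TT_ode
  have h2 := TT_CC
  have hE := E_pos.ne'
  have hc : PowerSeries.C E⁻¹ * PowerSeries.C E = (1 : PowerSeries ℝ) := by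
    rw [← map_mul, inv_mul_cancel₀ hE, map_one]
  have hh : PowerSeries.C (1 / 2 : ℝ) * (2 : PowerSeries ℝ) = 1 := by
    have : (2 : PowerSeries ℝ) = PowerSeries.C (2 : ℝ) := by
      rw [map_ofNat]
    rw [this, ← map_mul]
    norm_num
  have hd : PowerSeries.derivative ℝ (linTT * linTT) = 2 * (linTT * PowerSeries.derivative ℝ linTT) := by
    rw [Derivation.leibniz]
    simp only [smul_eq_mul]
    ring
  rw [hd]
  have e1 : PowerSeries.derivative ℝ linTT = PowerSeries.C E⁻¹ * (linTT * CC) := by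
    calc PowerSeries.derivative ℝ linTT =
        (PowerSeries.C E⁻¹ * PowerSeries.C E) * PowerSeries.derivative ℝ linTT := by
          rw [hc, one_mul]
      _ = PowerSeries.C E⁻¹ * (PowerSeries.C E * PowerSeries.derivative ℝ linTT) := by ring
      _ = _ := by rw [h1]
  calc linTT * linTT = linTT * (CC - PowerSeries.C E⁻¹ * (PowerSeries.X * (linTT * CC))) := by
        congr 1
        exact eq_sub_of_add_eq h2.symm
    _ = linTT * CC - (PowerSeries.C (1 / 2 : ℝ) * 2) * (PowerSeries.X *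
        (linTT * (PowerSeries.C E⁻¹ * (linTT * CC)))) := by rw [hh]; ring
    _ = _ := by rw [← e1, ← h1]; ring

lemma coeff_TT_TT (n : ℕ) : PowerSeries.coeff n (linTT * linTT) = TS2 n := by
  have h := congrArg (PowerSeries.coeff n) TT_sq
  rw [map_sub, PowerSeries.coeff_C_mul, PowerSeries.coeff_derivative, PowerSeries.coeff_C_mul,
    coeff_TT] at h
  unfold TS2
  have h2 : (0 : ℝ) < (n : ℝ) + 2 := by positivity
  rw [eq_div_iff h2.ne']
  rcases Nat.eq_zero_or_pos n with rfl | hn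
  · rw [PowerSeries.coeff_zero_X_mul] at h
    rw [h]
    push_cast
    ring
  · obtain ⟨m, rfl⟩ : ∃ m, n = m + 1 := ⟨n - 1, by omega⟩
    rw [PowerSeries.coeff_succ_X_mul, PowerSeries.coeff_derivative] at h
    push_cast at h ⊢
    linarith

lemma TS2_pos (k : ℕ) : 0 < TS2 k := by
  unfold TS2
  have := E_pos
  have := tn_pos (k + 1)
  positivity

lemma TS2_zero : TS2 0 = 1 := by
  rw [← coeff_TT_TT, lin_coeff_mul_range]
  simp [coeff_TT, tn_zero]

lemma TS2_eq_sum (n : ℕ) : TS2 n = ∑ k ∈ range (n + 1), tn k * tn (n - k) := by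
  rw [← coeff_TT_TT, lin_coeff_mul_range]
  apply Finset.sum_congr rfl
  intro k _
  rw [coeff_TT, coeff_TT]

/-- `TS2 k = 2 (k+2)^(k-1) / k! / E^k` -/
lemma TS2_explicit (k : ℕ) (hk : 1 ≤ k) :
    TS2 k = 2 * ((k : ℝ) + 2) ^ (k - 1) / (k.factorial : ℝ) / E ^ k := by
  obtain ⟨m, rfl⟩ : ∃ m, k = m + 1 := ⟨k - 1, by omega⟩
  unfold TS2 tn tt
  rw [Nat.add_sub_cancel, Nat.add_sub_cancel, Nat.factorial_succ (m + 1), pow_succ E (m + 1)]
  have hE := E_pos
  have hf : (0 : ℝ) < ((m + 1).factorial : ℝ) := by positivity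
  have hp := pow_pos hE (m + 1)
  push_cast
  have h1 : (0 : ℝ) < (m : ℝ) + 1 + 1 := by positivity
  have h2 : (0 : ℝ) < (m : ℝ) + 1 + 2 := by positivity
  have e : (m : ℝ) + 1 + 1 + 1 = (m : ℝ) + 1 + 2 := by ring
  rw [e, pow_succ ((m : ℝ) + 1 + 2) m]
  field_simp

lemma coeff_FF_FF (L k : ℕ) (hk : k ≤ L) :
    PowerSeries.coeff k (FF L * FF (L + 1)) = TS2 k := by
  rw [lin_coeff_mul_range, TS2_eq_sum]
  apply Finset.sum_congr rfl
  intro j hj
  have hj' := mem_range.mp hj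
  rw [coeff_FF, coeff_FF, Fn_eq_tn L j (by omega), Fn_eq_tn (L + 1) (k - j) (by omega)]

/-- `A_L(n)` through `rho_L`, in the linear range -/
lemma An_eq_TS2 (L n : ℕ) (hn : n ≤ 2 * L + 1) :
    An L n = ∑ j ∈ range (n + 1), rhoL L j * TS2 (n - j) := by
  rw [An_eq_rho]
  apply Finset.sum_congr rfl
  intro j _
  rcases Nat.lt_or_ge L j with h | h
  · rw [coeff_FF_FF L (n - j) (by omega)]
  · rw [rhoL_zero L j h, zero_mul, zero_mul]

/-- the same with `gg` and index `i = j - L` -/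
lemma gg_eq_TS2 (L m : ℕ) (hm : m ≤ L + 1) :
    gg L m = ∑ i ∈ range (m + 1), rhoL L (L + i) * TS2 (m - i) := by
  unfold gg
  rw [An_eq_TS2 L (L + m) (by omega)]
  have e : L + m + 1 = L + (m + 1) := by ring
  rw [e, Finset.sum_range_add]
  have z : ∑ j ∈ range L, rhoL L j * TS2 (L + m - j) = 0 := by
    apply Finset.sum_eq_zero
    intro j hj
    rw [rhoL_zero L j (mem_range.mp hj).le, zero_mul]
  rw [z, zero_add]
  apply Finset.sum_congr rfl
  intro i _
  have q : L + m - (L + i) = m - i := by omega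
  rw [q]

/-- the coefficients of `F_L F_{L+1}` are nonnegative and decreasing bounds of `TS2` -/
lemma coeff_FF_FF_nonneg (L k : ℕ) : 0 ≤ PowerSeries.coeff k (FF L * FF (L + 1)) := by
  rw [lin_coeff_mul_range]
  apply Finset.sum_nonneg
  intro j _
  rw [coeff_FF, coeff_FF]
  exact mul_nonneg (Fn_nonneg _ _) (Fn_nonneg _ _)

lemma coeff_FF_FF_le (L k : ℕ) : PowerSeries.coeff k (FF L * FF (L + 1)) ≤ TS2 k := by
  rw [lin_coeff_mul_range, TS2_eq_sum]
  apply Finset.sum_le_sum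
  intro j _
  rw [coeff_FF, coeff_FF]
  exact mul_le_mul (Fn_le_tn _ _) (Fn_le_tn _ _) (Fn_nonneg _ _) (tn_pos _).le

lemma An_le_TS2 (L n : ℕ) (hL : 1 ≤ L) :
    An L n ≤ ∑ j ∈ range (n + 1), rhoL L j * TS2 (n - j) := by
  rw [An_eq_rho]
  apply Finset.sum_le_sum
  intro j _
  exact mul_le_mul_of_nonneg_left (coeff_FF_FF_le L (n - j)) (rhoL_nonneg L hL j)

end Pool.Agent.MP_9da1e3_co
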