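import Pool.Agent.Lib.MP_9da1e3_co.Wn1

namespace Pool.Agent.MP_9da1e3_co

open Finset

lemma qq_pos' (p : ℕ) : 0 < qq p := by
  unfold qq
  have hE := E_pos
  positivity

lemma qq_mono_succ (p : ℕ) (hp : 1 ≤ p) : qq p ≤ qq (p + 1) := by
  unfold qq
  have hE := E_pos
  apply div_le_div_of_nonneg_right _ hE.le
  have hp0 : (0 : ℝ) < p := by exact_mod_cast hp
  have h1 : (1 : ℝ) + ((p + 1 : ℕ) : ℝ) * (-(1 / ((p : ℝ) + 1) ^ 2)) ≤
      (1 + (-(1 / ((p : ℝ) + 1) ^ 2))) ^ (p + 1) := by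
    apply one_add_mul_le_pow
    have h2 : 1 / ((p : ℝ) + 1) ^ 2 ≤ 1 := by
      rw [div_le_one (by positivity)]
      nlinarith
    linarith
  have h3 : (1 : ℝ) + 1 / ((p + 1 : ℕ) : ℝ) = (1 + 1 / (p : ℝ)) * (1 + (-(1 / ((p : ℝ) + 1) ^ 2))) := by
    push_cast
    field_simp
    ring
  rw [h3, mul_pow]
  have h4 : (1 : ℝ) + ((p + 1 : ℕ) : ℝ) * (-(1 / ((p : ℝ) + 1) ^ 2)) = (p : ℝ) / (p + 1) := by
    push_cast
    field_simp
    ring
  rw [h4] at h1
  have h5 : 0 < (1 + 1 / (p : ℝ)) ^ (p + 1) := by positivity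
  calc (1 + 1 / (p : ℝ)) ^ p = (1 + 1 / (p : ℝ)) ^ (p + 1) * ((p : ℝ) / (p + 1)) := by
        rw [pow_succ]
        field_simp
    _ ≤ _ := mul_le_mul_of_nonneg_left h1 h5.le

/-- the kernel -/
noncomputable def ak (L d : ℕ) : ℝ := ((L : ℝ) + (d : ℝ) + 1) * tn d

lemma AA_eq_ak (L m r : ℕ) : AA L m r = ak L (m - r) := rfl

lemma ak_pos (L d : ℕ) : 0 < ak L d := by
  unfold ak
  have := tn_pos d
  positivity

lemma ak_eq (L d : ℕ) : ak L d = (1 + (L : ℝ) / ((d : ℝ) + 1)) * cE d := by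
  unfold ak cE
  field_simp
  ring

/-- (N1) the kernel is log-convex -/
lemma ak_logconv (L d : ℕ) : ak L (d + 1) ^ 2 ≤ ak L d * ak L (d + 2) := by
  have h1 : cE (d + 1) = cE d * qq (d + 1) := cE_succ_eq d
  have h2 : cE (d + 2) = cE (d + 1) * qq (d + 2) := cE_succ_eq (d + 1)
  have h3 : cE (d + 1) ^ 2 ≤ cE d * cE (d + 2) := by
    have h4 := qq_mono_succ (d + 1) (by omega)
    have h5 := cE_pos d
    have h6 := cE_pos (d + 1)
    rw [h2]
    have h7 : cE d * (cE (d + 1) * qq (d + 2)) = cE d * qq (d + 2) * cE (d + 1) := by ring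
    rw [h7, pow_two]
    apply mul_le_mul_of_nonneg_right _ h6.le
    nth_rewrite 1 [h1]
    exact mul_le_mul_of_nonneg_left h4 h5.le
  have hd : (0 : ℝ) ≤ d := Nat.cast_nonneg d
  have hL : (0 : ℝ) ≤ L := Nat.cast_nonneg L
  have h8 : (1 + (L : ℝ) / ((d : ℝ) + 1 + 1)) ^ 2 ≤
      (1 + (L : ℝ) / ((d : ℝ) + 1)) * (1 + (L : ℝ) / ((d : ℝ) + 2 + 1)) := by
    have e1 : (1 + (L : ℝ) / ((d : ℝ) + 1)) * (1 + (L : ℝ) / ((d : ℝ) + 2 + 1)) -
        (1 + (L : ℝ) / ((d : ℝ) + 1 + 1)) ^ 2 =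
        (L * (2 / ((d + 1) * (d + 2) * (d + 3))) + L ^ 2 / ((d + 1) * (d + 2) ^ 2 * (d + 3))) := by
      field_simp
      ring
    have e2 : 0 ≤ (L * (2 / ((d + 1) * (d + 2) * (d + 3))) + (L : ℝ) ^ 2 / (((d : ℝ) + 1) * (d + 2) ^ 2 * (d + 3))) := by
      positivity
    linarith
  rw [ak_eq, ak_eq, ak_eq]
  push_cast
  have h9 : 0 ≤ cE (d + 1) ^ 2 := by positivity
  have h10 : 0 ≤ (1 + (L : ℝ) / ((d : ℝ) + 1)) * (1 + (L : ℝ) / ((d : ℝ) + 2 + 1)) := by positivity
  calc ((1 + (L : ℝ) / ((d : ℝ) + 1 + 1)) * cE (d + 1)) ^ 2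
      = (1 + (L : ℝ) / ((d : ℝ) + 1 + 1)) ^ 2 * cE (d + 1) ^ 2 := by ring
    _ ≤ (1 + (L : ℝ) / ((d : ℝ) + 1)) * (1 + (L : ℝ) / ((d : ℝ) + 2 + 1)) * (cE d * cE (d + 2)) :=
        mul_le_mul h8 h3 h9 h10
    _ = _ := by ring

/-- ratios increase -/
lemma ak_ratio (L : ℕ) {i j : ℕ} (h : i ≤ j) : ak L (i + 1) * ak L j ≤ ak L i * ak L (j + 1) := by
  induction j, h using Nat.le_induction with
  | base => rw [mul_comm]
  | succ j hij ih =>
    have h1 := ak_logconv L j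
    have hi := ak_pos L i
    have hi1 := ak_pos L (i + 1)
    have hj := ak_pos L j
    have hj1 := ak_pos L (j + 1)
    have hj2 := ak_pos L (j + 2)
    have h2 : ak L (i + 1) * ak L (j + 1) * ak L j ≤ ak L i * ak L (j + 2) * ak L j := by
      calc ak L (i + 1) * ak L (j + 1) * ak L j = ak L (i + 1) * ak L j * ak L (j + 1) := by ring
        _ ≤ ak L i * ak L (j + 1) * ak L (j + 1) := mul_le_mul_of_nonneg_right ih hj1.le
        _ = ak L i * (ak L (j + 1) ^ 2) := by ring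
        _ ≤ ak L i * (ak L j * ak L (j + 2)) := mul_le_mul_of_nonneg_left h1 hi.le
        _ = _ := by ring
    exact le_of_mul_le_mul_right h2 hj

/-- (N2) -/
lemma ak_shift (L r m : ℕ) (hr : r ≤ m) (k : ℕ) :
    ak L (m + k - r) * ak L m ≤ ak L (m - r) * ak L (m + k) := by
  induction k with
  | zero => simp
  | succ k ih =>
    have e : m + (k + 1) - r = (m + k - r) + 1 := by omega
    rw [e, ← Nat.add_assoc]
    have h1 := ak_ratio L (i := m + k - r) (j := m + k) (by omega)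
    have p0 := ak_pos L (m + k - r)
    have p1 := ak_pos L (m + k)
    have p2 := ak_pos L m
    have p3 := ak_pos L (m - r)
    have p4 := ak_pos L (m + k - r + 1)
    have p5 := ak_pos L (m + k + 1)
    have h2 : ak L (m + k - r + 1) * ak L m * (ak L (m + k - r) * ak L (m + k)) ≤
        ak L (m - r) * ak L (m + k + 1) * (ak L (m + k - r) * ak L (m + k)) := by
      calc ak L (m + k - r + 1) * ak L m * (ak L (m + k - r) * ak L (m + k))
          = (ak L (m + k - r + 1) * ak L (m + k)) * (ak L (m + k - r) * ak L m) := by ring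
        _ ≤ (ak L (m + k - r) * ak L (m + k + 1)) * (ak L (m - r) * ak L (m + k)) :=
            mul_le_mul h1 ih (by positivity) (by positivity)
        _ = _ := by ring
    exact le_of_mul_le_mul_right h2 (by positivity)

lemma AA_shift (L r m m' : ℕ) (hr : r ≤ m) (h : m ≤ m') :
    AA L m' r * ak L m ≤ AA L m r * ak L m' := by
  obtain ⟨k, rfl⟩ := Nat.exists_eq_add_of_le h
  rw [AA_eq_ak, AA_eq_ak]
  exact ak_shift L r m hr k

/-- the source term of `bb_eq` -/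
noncomputable def sb (L m : ℕ) : ℝ :=
  2 * ∑ i ∈ range m, tn (m - 1 - i) * gg (L + 1) i - tn m * tn L

lemma bb_eq_sb (L m : ℕ) (h : m + 1 ≤ L) : E * (((L : ℝ) + (m + 1)) * bb L (m + 1)) =
    ∑ r ∈ range (m + 1), AA L m r * bb L r + sb L m := by
  rw [bb_eq L m h]
  unfold sb
  ring

/-- (N3) general form: a lower bound for the right side of the recursion -/
lemma rhs_ge (L m0 m : ℕ) (hm : m0 ≤ m) (h0 : ∀ r, r ≤ m0 → bb L r ≤ 0) :
    ak L m * (∑ r ∈ range (m0 + 1), AA L m0 r * bb L r) ≤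
      ak L m0 * ∑ r ∈ range (m0 + 1), AA L m r * bb L r := by
  rw [Finset.mul_sum, Finset.mul_sum]
  apply Finset.sum_le_sum
  intro r hr
  have hr' := mem_range.mp hr
  have h2 := AA_shift L r m0 m (by omega) hm
  have h3 := h0 r (by omega)
  nlinarith

theorem no_return_nr (L m0 M : ℕ) (hM : M + 1 ≤ L) (h0 : ∀ r, r ≤ m0 → bb L r ≤ 0)
    (h1 : 0 ≤ bb L (m0 + 1))
    (hs : ∀ m, m0 ≤ m → m ≤ M → sb L m0 * ak L m ≤ sb L m * ak L m0) :
    ∀ m, m0 ≤ m → m ≤ M → 0 ≤ bb L (m + 1) := by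
  intro m
  induction m using Nat.strong_induction_on with
  | _ m ih =>
    intro hm hmM
    have hE := E_pos
    have e0 := bb_eq_sb L m0 (by omega)
    have e1 := bb_eq_sb L m (by omega)
    have q0 : 0 ≤ ∑ r ∈ range (m0 + 1), AA L m0 r * bb L r + sb L m0 := by
      rw [← e0]
      have : (0 : ℝ) ≤ (L : ℝ) + (m0 + 1) := by positivity
      positivity
    have q1 := rhs_ge L m0 m hm h0
    have q2 : ∑ r ∈ range (m0 + 1), AA L m r * bb L r ≤ ∑ r ∈ range (m + 1), AA L m r * bb L r := by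
      apply Finset.sum_le_sum_of_subset_of_nonneg
      · intro x hx
        have := mem_range.mp hx
        exact mem_range.mpr (by omega)
      · intro r hr hr2
        have hr' := mem_range.mp hr
        have hr3 : ¬ r < m0 + 1 := fun h => hr2 (mem_range.mpr h)
        obtain ⟨p, rfl⟩ : ∃ p, r = p + 1 := ⟨r - 1, by omega⟩
        exact mul_nonneg (AA_nonneg _ _ _) (ih p (by omega) (by omega) (by omega))
    have q3 := hs m hm hmM
    have pm := ak_pos L m
    have pm0 := ak_pos L m0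
    have q4 : 0 ≤ ak L m0 * (∑ r ∈ range (m + 1), AA L m r * bb L r + sb L m) := by
      have q5 : 0 ≤ ak L m * (∑ r ∈ range (m0 + 1), AA L m0 r * bb L r + sb L m0) :=
        mul_nonneg pm.le q0
      have q6 := mul_le_mul_of_nonneg_left q2 pm0.le
      nlinarith
    have q7 : 0 ≤ ∑ r ∈ range (m + 1), AA L m r * bb L r + sb L m := by
      by_contra hneg
      push Not at hneg
      nlinarith
    rw [← e1] at q7
    by_contra hneg
    push Not at hneg
    have h5 : (0 : ℝ) < (L : ℝ) + (m + 1) := by positivity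
    have h6 : E * (((L : ℝ) + (m + 1)) * bb L (m + 1)) < 0 := by
      have := mul_neg_of_pos_of_neg h5 hneg
      nlinarith
    linarith

/-- (N4) the kernel sum is at least `a(m - m0)` times the plain sum, if `b` changes its sign once,
at `m0` -/
lemma kernel_sum_ge (L m0 m : ℕ) (hm : m0 ≤ m) (h0 : ∀ r, r ≤ m0 → bb L r ≤ 0)
    (h1 : ∀ r, m0 < r → r ≤ m → 0 ≤ bb L r) :
    ak L (m - m0) * ∑ r ∈ range (m + 1), bb L r ≤ ∑ r ∈ range (m + 1), AA L m r * bb L r := by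
  rw [Finset.mul_sum]
  apply Finset.sum_le_sum
  intro r hr
  have hr' := mem_range.mp hr
  rw [← AA_eq_ak L m m0]
  rcases Nat.lt_or_ge m0 r with h | h
  · exact mul_le_mul_of_nonneg_right (AA_mono L m h.le (by omega)) (h1 r h (by omega))
  · have h2 := AA_mono L m h hm
    have h3 := h0 r h
    nlinarith

/-- (N4') -/
lemma bb_ge_sum (L m0 m : ℕ) (hm : m0 ≤ m) (hL : m + 1 ≤ L) (h0 : ∀ r, r ≤ m0 → bb L r ≤ 0)
    (h1 : ∀ r, m0 < r → r ≤ m → 0 ≤ bb L r) :
    ak L (m - m0) * ∑ r ∈ range (m + 1), bb L r + sb L m ≤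
      E * (((L : ℝ) + (m + 1)) * bb L (m + 1)) := by
  rw [bb_eq_sb L m hL]
  have := kernel_sum_ge L m0 m hm h0 h1
  linarith

/-- (N5) the plain sum telescopes in `L` -/
lemma bb_sum (L m : ℕ) : ∑ r ∈ range (m + 1), bb L r =
    ∑ i ∈ range m, gg (L + 1) i - ∑ i ∈ range m, gg L (i + 1) := by
  rw [Finset.sum_range_succ', bb_zero, add_zero, ← Finset.sum_sub_distrib]
  apply Finset.sum_congr rfl
  intro r _
  rw [bb_succ]

/-- no return, second form: from `m1` on the source beats `a(m - m0)` times the negative part of the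
plain sum -/
theorem no_return_sum (L m0 m1 M : ℕ) (hM : M + 1 ≤ L) (h0 : ∀ r, r ≤ m0 → bb L r ≤ 0)
    (h1 : ∀ r, m0 < r → r ≤ m1 → 0 ≤ bb L r)
    (hs : ∀ m, m1 ≤ m → m ≤ M → ak L (m - m0) *
      (∑ i ∈ range m, gg L (i + 1) - ∑ i ∈ range m, gg (L + 1) i) ≤ sb L m) :
    ∀ m, m0 < m → m ≤ M + 1 → 0 ≤ bb L m := by
  intro m
  induction m using Nat.strong_induction_on with
  | _ m ih =>
    intro hm hmM
    rcases Nat.lt_or_ge m1 m with h | h
    · obtain ⟨p, rfl⟩ : ∃ p, m = p + 1 := ⟨m - 1, by omega⟩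
      have e1 := bb_ge_sum L m0 p (by omega) (by omega) h0
        (fun r hr hr2 => ih r (by omega) hr (by omega))
      have e2 := hs p (by omega) (by omega)
      rw [bb_sum] at e1
      have e3 : 0 ≤ E * (((L : ℝ) + ((p : ℝ) + 1)) * bb L (p + 1)) := by
        nlinarith
      by_contra hneg
      push Not at hneg
      have h5 : (0 : ℝ) < (L : ℝ) + (p + 1) := by positivity
      have hE := E_pos
      have h6 : ((L : ℝ) + (p + 1)) * bb L (p + 1) < 0 := mul_neg_of_pos_of_neg h5 hneg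
      nlinarith
    · exact h1 m hm h

end Pool.Agent.MP_9da1e3_co
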