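import Pool.Agent.Lib.MP_9da1e3_co.NR1

namespace Pool.Agent.MP_9da1e3_co

open Finset

/-- `tn` is log-convex -/
lemma tn_logconv (d : ℕ) : tn (d + 1) ^ 2 ≤ tn d * tn (d + 2) := by
  have h1 : cE (d + 1) = cE d * qq (d + 1) := cE_succ_eq d
  have h2 : cE (d + 2) = cE (d + 1) * qq (d + 2) := cE_succ_eq (d + 1)
  have h4 := qq_mono_succ (d + 1) (by omega)
  have h5 := cE_pos d
  have h6 := cE_pos (d + 1)
  have h3 : cE (d + 1) ^ 2 ≤ cE d * cE (d + 2) := by
    rw [h2]
    have h7 : cE d * (cE (d + 1) * qq (d + 2)) = cE d * qq (d + 2) * cE (d + 1) := by ring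
    rw [h7, pow_two]
    apply mul_le_mul_of_nonneg_right _ h6.le
    nth_rewrite 1 [h1]
    exact mul_le_mul_of_nonneg_left h4 h5.le
  have hd : (0 : ℝ) ≤ d := Nat.cast_nonneg d
  unfold cE at h3
  push_cast at h3
  have p0 := tn_pos d
  have p1 := tn_pos (d + 1)
  have p2 := tn_pos (d + 2)
  have h8 : ((d : ℝ) + 1) * ((d : ℝ) + 2 + 1) ≤ ((d : ℝ) + 1 + 1) ^ 2 := by nlinarith
  have h9 : ((d : ℝ) + 1 + 1) ^ 2 * tn (d + 1) ^ 2 ≤ ((d : ℝ) + 1 + 1) ^ 2 * (tn d * tn (d + 2)) := by
    calc ((d : ℝ) + 1 + 1) ^ 2 * tn (d + 1) ^ 2 = (((d : ℝ) + 1 + 1) * tn (d + 1)) ^ 2 := by ring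
      _ ≤ ((d : ℝ) + 1) * tn d * (((d : ℝ) + 2 + 1) * tn (d + 2)) := h3
      _ = ((d : ℝ) + 1) * ((d : ℝ) + 2 + 1) * (tn d * tn (d + 2)) := by ring
      _ ≤ _ := mul_le_mul_of_nonneg_right h8 (by positivity)
  exact le_of_mul_le_mul_left h9 (by positivity)

lemma tn_ratio {i j : ℕ} (h : i ≤ j) : tn (i + 1) * tn j ≤ tn i * tn (j + 1) := by
  induction j, h using Nat.le_induction with
  | base => rw [mul_comm]
  | succ j hij ih =>
    have h1 := tn_logconv j
    have hi := tn_pos i
    have hj := tn_pos j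
    have hj1 := tn_pos (j + 1)
    have h2 : tn (i + 1) * tn (j + 1) * tn j ≤ tn i * tn (j + 2) * tn j := by
      calc tn (i + 1) * tn (j + 1) * tn j = tn (i + 1) * tn j * tn (j + 1) := by ring
        _ ≤ tn i * tn (j + 1) * tn (j + 1) := mul_le_mul_of_nonneg_right ih hj1.le
        _ = tn i * (tn (j + 1) ^ 2) := by ring
        _ ≤ tn i * (tn j * tn (j + 2)) := mul_le_mul_of_nonneg_left h1 hi.le
        _ = _ := by ring
    exact le_of_mul_le_mul_right h2 hj

/-- the full convolution identity, in the same shape as `HH_rec` -/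
lemma tn_full (L m : ℕ) (h2 : m + 1 ≤ L) :
    E * (((L : ℝ) + (m + 1)) * tn (L + (m + 1))) =
    ∑ j ∈ range (m + 1), ((L : ℝ) + m + 2) * (tn j * tn (L + (m - j))) + MM L (m + 1) := by
  have hrec := Fn_rec (L + m + 1) (L + m)
  rw [← sum_rev (fun k => ((min (L + m + 1) (k + 1) : ℕ) : ℝ) *
    (Fn (L + m + 1) k * Fn (L + m + 1) (L + m - k))) (L + m)] at hrec
  have hsplit : L + m + 1 = (m + 1) + (L - (m + 1)) + (m + 1) := by omega
  have hrange : range (L + m + 1) = range ((m + 1) + (L - (m + 1)) + (m + 1)) := by rw [← hsplit]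
  rw [hrange, Finset.sum_range_add, Finset.sum_range_add] at hrec
  have p1 : ∑ x ∈ range (m + 1), ((min (L + m + 1) (L + m - x + 1) : ℕ) : ℝ) *
      (Fn (L + m + 1) (L + m - x) * Fn (L + m + 1) (L + m - (L + m - x))) =
      ∑ j ∈ range (m + 1), ((L : ℝ) + ((m - j : ℕ) : ℝ) + 1) * (tn j * tn (L + (m - j))) := by
    apply Finset.sum_congr rfl
    intro j hj
    have hj' := mem_range.mp hj
    have e1 : min (L + m + 1) (L + m - j + 1) = L + (m - j) + 1 := by omega
    have e2 : L + m - (L + m - j) = j := by omega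
    have e3 : L + m - j = L + (m - j) := by omega
    rw [e1, e2, e3, Fn_eq_tn (L + m + 1) j (by omega), Fn_eq_tn (L + m + 1) (L + (m - j)) (by omega)]
    push_cast
    ring
  have p2 : ∑ x ∈ range (L - (m + 1)), ((min (L + m + 1) (L + m - (m + 1 + x) + 1) : ℕ) : ℝ) *
      (Fn (L + m + 1) (L + m - (m + 1 + x)) * Fn (L + m + 1) (L + m - (L + m - (m + 1 + x)))) =
      MM L (m + 1) := by
    unfold MM
    apply Finset.sum_congr rfl
    intro t ht
    have ht' := mem_range.mp ht
    have e1 : min (L + m + 1) (L + m - (m + 1 + t) + 1) = (L - 1 - t) + 1 := by omega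
    have e2 : L + m - (L + m - (m + 1 + t)) = m + 1 + t := by omega
    have e3 : L + m - (m + 1 + t) = L - 1 - t := by omega
    rw [e1, e2, e3, Fn_eq_tn (L + m + 1) (L - 1 - t) (by omega),
      Fn_eq_tn (L + m + 1) (m + 1 + t) (by omega)]
    unfold cE
    push_cast
    ring
  have p3 : ∑ x ∈ range (m + 1), ((min (L + m + 1) (L + m - (m + 1 + (L - (m + 1)) + x) + 1) : ℕ) : ℝ) *
      (Fn (L + m + 1) (L + m - (m + 1 + (L - (m + 1)) + x)) *
        Fn (L + m + 1) (L + m - (L + m - (m + 1 + (L - (m + 1)) + x)))) =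
      ∑ j ∈ range (m + 1), ((j : ℝ) + 1) * (tn j * tn (L + (m - j))) := by
    rw [← sum_rev (fun j => ((j : ℝ) + 1) * (tn j * tn (L + (m - j)))) m]
    apply Finset.sum_congr rfl
    intro t ht
    have ht' := mem_range.mp ht
    have e1 : min (L + m + 1) (L + m - (m + 1 + (L - (m + 1)) + t) + 1) = (m - t) + 1 := by omega
    have e2 : L + m - (L + m - (m + 1 + (L - (m + 1)) + t)) = L + t := by omega
    have e3 : L + m - (m + 1 + (L - (m + 1)) + t) = m - t := by omega
    have e4 : m - (m - t) = t := by omega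
    rw [e1, e2, e3, e4, Fn_eq_tn (L + m + 1) (m - t) (by omega),
      Fn_eq_tn (L + m + 1) (L + t) (by omega)]
    push_cast
    ring
  rw [p1, p2, p3] at hrec
  have e0 : tn (L + (m + 1)) = Fn (L + m + 1) (L + m + 1) := by
    rw [Fn_eq_tn (L + m + 1) (L + m + 1) le_rfl, add_assoc]
  have e1 : ((L : ℝ) + (m + 1)) = (((L + m : ℕ) : ℝ) + 1) := by push_cast; ring
  rw [e0, e1, hrec]
  have e2 : ∑ j ∈ range (m + 1), ((L : ℝ) + m + 2) * (tn j * tn (L + (m - j))) =
      ∑ j ∈ range (m + 1), ((L : ℝ) + ((m - j : ℕ) : ℝ) + 1) * (tn j * tn (L + (m - j))) +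
      ∑ j ∈ range (m + 1), ((j : ℝ) + 1) * (tn j * tn (L + (m - j))) := by
    rw [← Finset.sum_add_distrib]
    apply Finset.sum_congr rfl
    intro j hj
    have hj' := mem_range.mp hj
    have : ((m - j : ℕ) : ℝ) = (m : ℝ) - j := by
      rw [Nat.cast_sub (by omega)]
    rw [this]
    ring
  rw [e2]
  ring

/-- the deficit `T(L+z) - H_L(z)` -/
noncomputable def dl (L z : ℕ) : ℝ := tn (L + z) - HH L z

lemma dl_nonneg (L z : ℕ) : 0 ≤ dl L z := by
  unfold dl HH
  linarith [Fn_le_tn (L + 1) (L + z)]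

lemma dl_le (L z : ℕ) : dl L z ≤ tn (L + z) := by
  unfold dl
  linarith [HH_nonneg L z]

lemma dl_zero (L : ℕ) : dl L 0 = 0 := by
  unfold dl
  rw [HH_zero, add_zero, sub_self]

lemma dl_rec (L m : ℕ) (h : m + 1 ≤ L) : E * (((L : ℝ) + (m + 1)) * dl L (m + 1)) =
    ∑ j ∈ range (m + 1), (((L : ℝ) + j + 2) * (tn j * dl L (m - j)) +
      ((m - j : ℕ) : ℝ) * (tn j * tn (L + (m - j)))) := by
  have h1 := HH_rec L m h
  have h2 := tn_full L m h
  have e : E * (((L : ℝ) + (m + 1)) * dl L (m + 1)) = E * (((L : ℝ) + (m + 1)) * tn (L + (m + 1))) -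
      E * (((L : ℝ) + (m + 1)) * HH L (m + 1)) := by
    unfold dl
    ring
  rw [e, h1, h2, add_sub_add_right_eq_sub, ← Finset.sum_sub_distrib]
  apply Finset.sum_congr rfl
  intro j hj
  have hj' := mem_range.mp hj
  have : ((m - j : ℕ) : ℝ) = (m : ℝ) - j := by
    rw [Nat.cast_sub (by omega)]
  rw [this]
  unfold dl
  ring

/-- the elementary inequality of one term -/
lemma dl_term {a b z x y u v d d' t : ℝ} (ht : 0 < t) (hx : 0 < x) (hu : 0 < u) (hv : 0 < v)
    (hd : 0 ≤ d) (hdx : d ≤ x) (hz : 0 ≤ z) (hb : 0 < b) (ha : 0 ≤ a) (hbz : b - a ≤ z)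
    (h1 : y * u ≤ x * v) (h2 : d' * x ≤ d * y) :
    b * u * ((a + 1) * (t * d') + z * (t * y)) ≤ (b + 1) * v * (a * (t * d) + z * (t * x)) := by
  have h3 : b * u * ((a + 1) * (t * d') + z * (t * y)) * x ≤
      (b + 1) * v * (a * (t * d) + z * (t * x)) * x := by
    have e1 : b * u * ((a + 1) * (t * d') + z * (t * y)) * x =
        b * u * t * ((a + 1) * (d' * x) + z * (y * x)) := by ring
    have e2 : b * u * t * ((a + 1) * (d' * x) + z * (y * x)) ≤
        b * u * t * ((a + 1) * (d * y) + z * (y * x)) := by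
      apply mul_le_mul_of_nonneg_left _ (by positivity)
      have := mul_le_mul_of_nonneg_left h2 (by linarith : (0 : ℝ) ≤ a + 1)
      linarith
    have e3 : b * u * t * ((a + 1) * (d * y) + z * (y * x)) =
        b * t * ((a + 1) * d + z * x) * (y * u) := by ring
    have e4 : b * t * ((a + 1) * d + z * x) * (y * u) ≤ b * t * ((a + 1) * d + z * x) * (x * v) :=
      mul_le_mul_of_nonneg_left h1 (by positivity)
    have e5 : b * t * ((a + 1) * d + z * x) * (x * v) = t * x * v * (b * ((a + 1) * d + z * x)) := by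
      ring
    have e6 : b * ((a + 1) * d + z * x) ≤ (b + 1) * (a * d + z * x) := by
      have e7 : (b - a) * d ≤ z * x := by
        calc (b - a) * d ≤ z * d := mul_le_mul_of_nonneg_right hbz hd
          _ ≤ z * x := mul_le_mul_of_nonneg_left hdx hz
      nlinarith
    have e8 : t * x * v * (b * ((a + 1) * d + z * x)) ≤ t * x * v * ((b + 1) * (a * d + z * x)) :=
      mul_le_mul_of_nonneg_left e6 (by positivity)
    calc _ = _ := e1
      _ ≤ _ := e2
      _ = _ := e3
      _ ≤ _ := e4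
      _ = _ := e5
      _ ≤ _ := e8
      _ = _ := by ring
  exact le_of_mul_le_mul_right h3 hx

/-- (1a), deficit form -/
lemma dl_succ_le (L : ℕ) : ∀ z, z ≤ L → dl (L + 1) z * tn (L + z) ≤ dl L z * tn (L + z + 1) := by
  intro z
  induction z using Nat.strong_induction_on with
  | _ z ih =>
    intro hz
    rcases Nat.eq_zero_or_pos z with rfl | hz0
    · rw [dl_zero, dl_zero, zero_mul, zero_mul]
    · obtain ⟨m, rfl⟩ : ∃ m, z = m + 1 := ⟨z - 1, by omega⟩
      have r0 := dl_rec L m hz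
      have r1 := dl_rec (L + 1) m (by omega)
      have hE := E_pos
      have hb : (0 : ℝ) < (L : ℝ) + (m + 1) := by positivity
      have t0 := tn_pos (L + (m + 1))
      have t1 := tn_pos (L + (m + 1) + 1)
      obtain ⟨b, hbd⟩ : ∃ b : ℝ, b = (L : ℝ) + (m + 1) := ⟨_, rfl⟩
      have key : b * tn (L + (m + 1)) *
          (∑ j ∈ range (m + 1), ((((L + 1 : ℕ) : ℝ) + j + 2) * (tn j * dl (L + 1) (m - j)) +
          ((m - j : ℕ) : ℝ) * (tn j * tn (L + 1 + (m - j))))) ≤
          (b + 1) * tn (L + (m + 1) + 1) *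
          (∑ j ∈ range (m + 1), (((L : ℝ) + j + 2) * (tn j * dl L (m - j)) +
          ((m - j : ℕ) : ℝ) * (tn j * tn (L + (m - j))))) := by
        rw [Finset.mul_sum, Finset.mul_sum]
        apply Finset.sum_le_sum
        intro j hj
        have hj' := mem_range.mp hj
        have i1 := ih (m - j) (by omega) (by omega)
        have i2 := tn_ratio (i := L + (m - j)) (j := L + (m + 1)) (by omega)
        have i3 := dl_nonneg L (m - j)
        have i4 := dl_le L (m - j)
        have hcast : ((m - j : ℕ) : ℝ) = (m : ℝ) - j := by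
          rw [Nat.cast_sub (by omega)]
        have hbz : b - ((L : ℝ) + j + 2) ≤ ((m - j : ℕ) : ℝ) := by
          rw [hcast, hbd]
          linarith
        have e1 : L + 1 + (m - j) = L + (m - j) + 1 := by omega
        have e2 : ((L + 1 : ℕ) : ℝ) + j + 2 = ((L : ℝ) + j + 2) + 1 := by push_cast; ring
        rw [e1, e2]
        exact dl_term (tn_pos j) (tn_pos _) t0 t1 i3 i4 (Nat.cast_nonneg _) (by rw [hbd]; exact hb)
          (by positivity) hbz i2 i1
      rw [← r0, ← r1] at key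
      have e3 : (((L + 1 : ℕ) : ℝ) + (m + 1)) = b + 1 := by rw [hbd]; push_cast; ring
      rw [e3, ← hbd] at key
      have hb1 : 0 < b := by rw [hbd]; exact hb
      have h5 : (E * b * (b + 1)) * (dl (L + 1) (m + 1) * tn (L + (m + 1))) ≤
          (E * b * (b + 1)) * (dl L (m + 1) * tn (L + (m + 1) + 1)) := by
        calc _ = b * tn (L + (m + 1)) * (E * ((b + 1) * dl (L + 1) (m + 1))) := by ring
          _ ≤ _ := key
          _ = _ := by ring
      exact le_of_mul_le_mul_left h5 (by positivity)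

/-- (1a): `P(maxdisp ≤ L)` for `n = L + z` increases with `L` -/
lemma HH_succ_ge (L z : ℕ) (hz : z ≤ L) : HH L z * tn (L + z + 1) ≤ HH (L + 1) z * tn (L + z) := by
  have h := dl_succ_le L z hz
  unfold dl at h
  have e : L + 1 + z = L + z + 1 := by omega
  rw [e] at h
  nlinarith

/-- (1a), with `κ_L = tn (L + 1) / tn L` -/
lemma HH_succ_ge' (L z : ℕ) (hz : z ≤ L) : tn (L + 1) / tn L * HH L z ≤ HH (L + 1) z := by
  have h := HH_succ_ge L z hz
  have h1 := tn_ratio (i := L) (j := L + z) (by omega)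
  have t0 := tn_pos L
  have t1 := tn_pos (L + z)
  have hH := HH_nonneg L z
  rw [div_mul_eq_mul_div, div_le_iff₀ t0]
  have h2 : tn (L + 1) * HH L z * tn (L + z) ≤ HH (L + 1) z * tn L * tn (L + z) := by
    calc tn (L + 1) * HH L z * tn (L + z) = HH L z * (tn (L + 1) * tn (L + z)) := by ring
      _ ≤ HH L z * (tn L * tn (L + z + 1)) := mul_le_mul_of_nonneg_left h1 hH
      _ = tn L * (HH L z * tn (L + z + 1)) := by ring
      _ ≤ tn L * (HH (L + 1) z * tn (L + z)) := mul_le_mul_of_nonneg_left h t0.le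
      _ = _ := by ring
  exact le_of_mul_le_mul_right h2 t1

lemma SS_succ_ge (L m : ℕ) (hm : m ≤ L) : tn (L + 1) / tn L * SS L m ≤ SS (L + 1) m := by
  unfold SS
  rw [Finset.mul_sum]
  apply Finset.sum_le_sum
  intro j hj
  have h := HH_succ_ge' L (m - j) (by omega)
  have t := tn_pos j
  calc tn (L + 1) / tn L * (tn j * HH L (m - j)) = tn j * (tn (L + 1) / tn L * HH L (m - j)) := by ring
    _ ≤ _ := mul_le_mul_of_nonneg_left h t.le

noncomputable def thL (L : ℕ) : ℝ := tn (L + 1) / tn L * (((L : ℝ) + 1) / ((L : ℝ) + 2))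

lemma thL_pos (L : ℕ) : 0 < thL L := by
  unfold thL
  have := tn_pos L
  have := tn_pos (L + 1)
  positivity

/-- (1b) -/
lemma gg_succ_ge (L : ℕ) : ∀ y, y ≤ L → thL L * gg L y ≤ gg (L + 1) y := by
  intro y
  induction y using Nat.strong_induction_on with
  | _ y ih =>
    intro hy
    rcases Nat.eq_zero_or_pos y with rfl | hy0
    · rw [gg_zero, gg_zero, mul_zero]
    · obtain ⟨m, rfl⟩ : ∃ m, y = m + 1 := ⟨y - 1, by omega⟩
      have r0 := gg_rec L m hy
      have r1 := gg_rec (L + 1) m (by omega)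
      have hE := E_pos
      have hm0 : (0 : ℝ) ≤ m := Nat.cast_nonneg m
      have hL0 : (0 : ℝ) ≤ L := Nat.cast_nonneg L
      have hθ := thL_pos L
      obtain ⟨b, hbd⟩ : ∃ b : ℝ, b = (L : ℝ) + (m + 1) := ⟨_, rfl⟩
      have hb : 0 < b := by rw [hbd]; positivity
      have k1 : thL L * ((b + 1) * ∑ j ∈ range (m + 1), ((L : ℝ) + j + 1) * (tn j * gg L (m - j))) ≤
          b * ∑ j ∈ range (m + 1), (((L + 1 : ℕ) : ℝ) + j + 1) * (tn j * gg (L + 1) (m - j)) := by
        rw [Finset.mul_sum, Finset.mul_sum, Finset.mul_sum]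
        apply Finset.sum_le_sum
        intro j hj
        have hj' := mem_range.mp hj
        have i1 := ih (m - j) (by omega) (by omega)
        have t := tn_pos j
        have hg := gg_nonneg L (m - j)
        have hj2 : (j : ℝ) ≤ m := by exact_mod_cast (by omega : j ≤ m)
        have hj0 : (0 : ℝ) ≤ j := Nat.cast_nonneg j
        have c1 : (b + 1) * ((L : ℝ) + j + 1) ≤ b * (((L + 1 : ℕ) : ℝ) + j + 1) := by
          push_cast
          rw [hbd]
          nlinarith
        calc thL L * ((b + 1) * (((L : ℝ) + j + 1) * (tn j * gg L (m - j))))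
            = ((b + 1) * ((L : ℝ) + j + 1)) * (tn j * (thL L * gg L (m - j))) := by ring
          _ ≤ (b * (((L + 1 : ℕ) : ℝ) + j + 1)) * (tn j * (thL L * gg L (m - j))) :=
              mul_le_mul_of_nonneg_right c1 (by positivity)
          _ ≤ (b * (((L + 1 : ℕ) : ℝ) + j + 1)) * (tn j * gg (L + 1) (m - j)) := by
              apply mul_le_mul_of_nonneg_left _ (by positivity)
              exact mul_le_mul_of_nonneg_left i1 t.le
          _ = _ := by ring
      have k2 : thL L * ((b + 1) * SS L m) ≤ b * SS (L + 1) m := by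
        have h1 := SS_succ_ge L m (by omega)
        have hS : 0 ≤ SS L m := Finset.sum_nonneg fun j _ =>
          mul_nonneg (tn_pos j).le (HH_nonneg _ _)
        have hκ : 0 < tn (L + 1) / tn L := div_pos (tn_pos _) (tn_pos _)
        have c2 : ((L : ℝ) + 1) / ((L : ℝ) + 2) * (b + 1) ≤ b := by
          rw [div_mul_eq_mul_div, div_le_iff₀ (by positivity), hbd]
          nlinarith
        calc thL L * ((b + 1) * SS L m)
            = (((L : ℝ) + 1) / ((L : ℝ) + 2) * (b + 1)) * (tn (L + 1) / tn L * SS L m) := by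
              unfold thL
              ring
          _ ≤ b * (tn (L + 1) / tn L * SS L m) := mul_le_mul_of_nonneg_right c2 (by positivity)
          _ ≤ _ := mul_le_mul_of_nonneg_left h1 hb.le
      have e3 : (((L + 1 : ℕ) : ℝ) + (m + 1)) = b + 1 := by rw [hbd]; push_cast; ring
      rw [e3] at r1
      rw [← hbd] at r0
      have h5 : (E * b * (b + 1)) * (thL L * gg L (m + 1)) ≤ (E * b * (b + 1)) * gg (L + 1) (m + 1) := by
        calc (E * b * (b + 1)) * (thL L * gg L (m + 1))
            = thL L * ((b + 1) * (E * (b * gg L (m + 1)))) := by ring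
          _ = thL L * ((b + 1) * ∑ j ∈ range (m + 1), ((L : ℝ) + j + 1) * (tn j * gg L (m - j))) +
              thL L * ((b + 1) * SS L m) := by rw [r0]; ring
          _ ≤ b * ∑ j ∈ range (m + 1), (((L + 1 : ℕ) : ℝ) + j + 1) * (tn j * gg (L + 1) (m - j)) +
              b * SS (L + 1) m := add_le_add k1 k2
          _ = b * (E * ((b + 1) * gg (L + 1) (m + 1))) := by rw [r1]; ring
          _ = _ := by ring
      exact le_of_mul_le_mul_left h5 (by positivity)

end Pool.Agent.MP_9da1e3_co
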