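import Pool.Agent.Lib.MP_9da1e3_co.NR2

namespace Pool.Agent.MP_9da1e3_co

open Finset

/-- partial sums of `tn` -/
noncomputable def PP (r : ℕ) : ℝ := ∑ q ∈ range r, tn q

lemma PP_zero : PP 0 = 0 := by simp [PP]

lemma PP_succ (r : ℕ) : PP (r + 1) = PP r + tn r := by
  unfold PP
  rw [Finset.sum_range_succ]

lemma PP_mono {a b : ℕ} (h : a ≤ b) : PP a ≤ PP b := by
  induction b, h using Nat.le_induction with
  | base => exact le_rfl
  | succ b _ ih =>
    rw [PP_succ]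
    have := tn_pos b
    linarith

lemma PP_nonneg (r : ℕ) : 0 ≤ PP r := Finset.sum_nonneg fun q _ => (tn_pos q).le

lemma PP_le (r : ℕ) : PP r ≤ E := sum_tn_le r

lemma thL_le_one (L : ℕ) : thL L ≤ 1 := by
  unfold thL
  have h1 : tn (L + 1) / tn L ≤ 1 := by
    rw [div_le_one (tn_pos L)]
    exact tn_le_of_le (by omega)
  have h2 : ((L : ℝ) + 1) / ((L : ℝ) + 2) ≤ 1 := by
    rw [div_le_one (by positivity)]
    linarith
  have h3 : 0 ≤ ((L : ℝ) + 1) / ((L : ℝ) + 2) := by positivity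
  have h4 : 0 ≤ tn (L + 1) / tn L := (div_pos (tn_pos _) (tn_pos _)).le
  nlinarith

/-- the convolution in the source -/
noncomputable def cv (L m : ℕ) : ℝ := ∑ i ∈ range m, tn (m - 1 - i) * gg (L + 1) i

lemma sb_eq_cv (L m : ℕ) : sb L m = 2 * cv L m - tn m * tn L := rfl

lemma cv_nonneg (L m : ℕ) : 0 ≤ cv L m :=
  Finset.sum_nonneg fun i _ => mul_nonneg (tn_pos _).le (gg_nonneg _ _)

lemma cv_step (L m : ℕ) (hm : m ≤ L) :
    thL L * (cv L m - ∑ k ∈ range m, tn (m - 1 - k) * bb L (k + 1)) ≤ cv L (m + 1) := by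
  unfold cv
  rw [← Finset.sum_sub_distrib, Finset.sum_range_succ' _ m, gg_zero, mul_zero, add_zero,
    Finset.mul_sum]
  apply Finset.sum_le_sum
  intro k hk
  have hk' := mem_range.mp hk
  have e : m + 1 - 1 - (k + 1) = m - 1 - k := by omega
  rw [e, bb_succ]
  have h := gg_succ_ge L (k + 1) (by omega)
  have ht := tn_pos (m - 1 - k)
  calc thL L * (tn (m - 1 - k) * gg (L + 1) k - tn (m - 1 - k) * (gg (L + 1) k - gg L (k + 1)))
      = tn (m - 1 - k) * (thL L * gg L (k + 1)) := by ring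
    _ ≤ _ := mul_le_mul_of_nonneg_left h ht.le

/-- dropping the indices at which `bb ≤ 0` -/
lemma cv_step' (L m0 r : ℕ) (hm : m0 + r ≤ L) (h0 : ∀ j, j ≤ m0 → bb L j ≤ 0) :
    thL L * (cv L (m0 + r) - ∑ k ∈ range r, tn (r - 1 - k) * bb L (m0 + 1 + k)) ≤
      cv L (m0 + r + 1) := by
  refine le_trans ?_ (cv_step L (m0 + r) hm)
  apply mul_le_mul_of_nonneg_left _ (thL_pos L).le
  apply sub_le_sub_left
  rw [Finset.sum_range_add]
  have e1 : ∑ x ∈ range m0, tn (m0 + r - 1 - x) * bb L (x + 1) ≤ 0 := by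
    apply Finset.sum_nonpos
    intro x hx
    have hx' := mem_range.mp hx
    exact mul_nonpos_of_nonneg_of_nonpos (tn_pos _).le (h0 _ (by omega))
  have e2 : ∑ x ∈ range r, tn (m0 + r - 1 - (m0 + x)) * bb L (m0 + x + 1) =
      ∑ k ∈ range r, tn (r - 1 - k) * bb L (m0 + 1 + k) := by
    apply Finset.sum_congr rfl
    intro k hk
    have hk' := mem_range.mp hk
    have e3 : m0 + r - 1 - (m0 + k) = r - 1 - k := by omega
    have e4 : m0 + k + 1 = m0 + 1 + k := by omega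
    rw [e3, e4]
  rw [e2]
  linarith

lemma cv_iter (L m0 : ℕ) (h0 : ∀ j, j ≤ m0 → bb L j ≤ 0) : ∀ r, m0 + r ≤ L →
    (∀ k, k < r → 0 ≤ bb L (m0 + 1 + k)) →
    thL L ^ r * cv L m0 - ∑ k ∈ range r, PP (r - 1 - k) * bb L (m0 + 1 + k) ≤ cv L (m0 + r) := by
  intro r
  induction r with
  | zero =>
    intro _ _
    simp
  | succ r ih =>
    intro hr hb
    have i1 := ih (by omega) (fun k hk => hb k (by omega))
    have i2 := cv_step' L m0 r (by omega) h0
    have hθ := thL_pos L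
    have hθ1 := thL_le_one L
    have e1 : ∑ k ∈ range (r + 1), PP (r + 1 - 1 - k) * bb L (m0 + 1 + k) =
        ∑ k ∈ range r, PP (r - 1 - k) * bb L (m0 + 1 + k) +
        ∑ k ∈ range r, tn (r - 1 - k) * bb L (m0 + 1 + k) := by
      rw [Finset.sum_range_succ, ← Finset.sum_add_distrib]
      have e2 : PP (r + 1 - 1 - r) = 0 := by
        rw [Nat.add_sub_cancel, Nat.sub_self, PP_zero]
      rw [e2, zero_mul, add_zero]
      apply Finset.sum_congr rfl
      intro k hk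
      have hk' := mem_range.mp hk
      have e3 : r + 1 - 1 - k = (r - 1 - k) + 1 := by omega
      rw [e3, PP_succ]
      ring
    have hX : 0 ≤ ∑ k ∈ range (r + 1), PP (r + 1 - 1 - k) * bb L (m0 + 1 + k) :=
      Finset.sum_nonneg fun k hk => mul_nonneg (PP_nonneg _) (hb k (mem_range.mp hk))
    have hX2 : thL L * (∑ k ∈ range (r + 1), PP (r + 1 - 1 - k) * bb L (m0 + 1 + k)) ≤
        ∑ k ∈ range (r + 1), PP (r + 1 - 1 - k) * bb L (m0 + 1 + k) := by nlinarith
    have i3 := mul_le_mul_of_nonneg_left i1 hθ.le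
    rw [e1] at hX2 ⊢
    have e4 : m0 + (r + 1) = m0 + r + 1 := by omega
    rw [e4, pow_succ]
    linarith

/-- (NEAR), quantitative form: `D = ∑_{k<r} bb L (m0+1+k)` -/
theorem near_ge (L m0 r : ℕ) (hr : 1 ≤ r) (hL : m0 + r + 1 ≤ L) (h0 : ∀ j, j ≤ m0 → bb L j ≤ 0)
    (h1 : 0 ≤ bb L (m0 + 1)) (hb : ∀ k, k < r → 0 ≤ bb L (m0 + 1 + k))
    (ht : tn (m0 + r) ≤ thL L ^ r * tn m0) :
    sb L m0 * (thL L ^ r - ak L (m0 + r) / ak L m0) +
      (ak L (r - 1) - 2 * PP (r - 1)) * ∑ k ∈ range r, bb L (m0 + 1 + k) ≤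
      E * (((L : ℝ) + ((m0 + r : ℕ) + 1)) * bb L (m0 + r + 1)) := by
  have e0 := bb_eq_sb L m0 (by omega)
  have e1 := bb_eq_sb L (m0 + r) (by omega)
  have hE := E_pos
  have q0 : 0 ≤ ∑ j ∈ range (m0 + 1), AA L m0 j * bb L j + sb L m0 := by
    rw [← e0]
    have : (0 : ℝ) ≤ (L : ℝ) + (m0 + 1) := by positivity
    positivity
  have q1 := rhs_ge L m0 (m0 + r) (by omega) h0
  have pm := ak_pos L (m0 + r)
  have pm0 := ak_pos L m0
  have q2 : -(ak L (m0 + r) / ak L m0) * sb L m0 ≤ ∑ j ∈ range (m0 + 1), AA L (m0 + r) j * bb L j := by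
    have q3 : -(ak L (m0 + r)) * sb L m0 ≤ ak L m0 * ∑ j ∈ range (m0 + 1), AA L (m0 + r) j * bb L j := by
      nlinarith
    have e3 : -(ak L (m0 + r) / ak L m0) * sb L m0 = (-(ak L (m0 + r)) * sb L m0) / ak L m0 := by
      ring
    rw [e3, div_le_iff₀ pm0]
    linarith
  have q4 : ak L (r - 1) * ∑ k ∈ range r, bb L (m0 + 1 + k) ≤
      ∑ k ∈ range r, AA L (m0 + r) (m0 + 1 + k) * bb L (m0 + 1 + k) := by
    rw [Finset.mul_sum]
    apply Finset.sum_le_sum
    intro k hk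
    have hk' := mem_range.mp hk
    apply mul_le_mul_of_nonneg_right _ (hb k hk')
    have e5 : ak L (r - 1) = AA L (m0 + r) (m0 + 1) := by
      rw [AA_eq_ak]
      congr 1
      omega
    rw [e5]
    exact AA_mono L (m0 + r) (by omega) (by omega)
  have q5 := cv_iter L m0 h0 r (by omega) hb
  have q6 : ∑ k ∈ range r, PP (r - 1 - k) * bb L (m0 + 1 + k) ≤
      PP (r - 1) * ∑ k ∈ range r, bb L (m0 + 1 + k) := by
    rw [Finset.mul_sum]
    apply Finset.sum_le_sum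
    intro k hk
    have hk' := mem_range.mp hk
    exact mul_le_mul_of_nonneg_right (PP_mono (by omega)) (hb k hk')
  have q7 : tn (m0 + r) * tn L ≤ thL L ^ r * tn m0 * tn L :=
    mul_le_mul_of_nonneg_right ht (tn_pos L).le
  have q8 : ∑ j ∈ range (m0 + r + 1), AA L (m0 + r) j * bb L j =
      ∑ j ∈ range (m0 + 1), AA L (m0 + r) j * bb L j +
      ∑ k ∈ range r, AA L (m0 + r) (m0 + 1 + k) * bb L (m0 + 1 + k) := by
    have e6 : m0 + r + 1 = (m0 + 1) + r := by omega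
    rw [e6, Finset.sum_range_add]
  rw [q8] at e1
  rw [e1, sb_eq_cv L (m0 + r)]
  have e7 : sb L m0 * (thL L ^ r - ak L (m0 + r) / ak L m0) =
      2 * (thL L ^ r * cv L m0) - thL L ^ r * tn m0 * tn L +
        -(ak L (m0 + r) / ak L m0) * sb L m0 := by
    rw [sb_eq_cv]
    ring
  rw [e7]
  linarith

/-- the source is nonnegative at the first sign change -/
lemma sb_nonneg (L m0 : ℕ) (hL : m0 + 1 ≤ L) (h0 : ∀ j, j ≤ m0 → bb L j ≤ 0)
    (h1 : 0 ≤ bb L (m0 + 1)) : 0 ≤ sb L m0 := by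
  have e0 := bb_eq_sb L m0 hL
  have hE := E_pos
  have q0 : 0 ≤ ∑ j ∈ range (m0 + 1), AA L m0 j * bb L j + sb L m0 := by
    rw [← e0]
    have : (0 : ℝ) ≤ (L : ℝ) + (m0 + 1) := by positivity
    positivity
  have q1 : ∑ j ∈ range (m0 + 1), AA L m0 j * bb L j ≤ 0 := by
    apply Finset.sum_nonpos
    intro j hj
    have hj' := mem_range.mp hj
    exact mul_nonpos_of_nonneg_of_nonpos (AA_nonneg _ _ _) (h0 _ (by omega))
  linarith

/-- (NEAR) no return as long as `2 P(r-1) ≤ a(r-1)` -/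
theorem near (L m0 R : ℕ) (hL : m0 + R + 1 ≤ L) (h0 : ∀ j, j ≤ m0 → bb L j ≤ 0)
    (h1 : 0 ≤ bb L (m0 + 1))
    (ht : ∀ r, r ≤ R → tn (m0 + r) ≤ thL L ^ r * tn m0)
    (ha : ∀ r, r ≤ R → ak L (m0 + r) ≤ thL L ^ r * ak L m0)
    (hP : ∀ r, 1 ≤ r → r ≤ R → 2 * PP (r - 1) ≤ ak L (r - 1)) :
    ∀ r, r ≤ R → 0 ≤ bb L (m0 + r + 1) := by
  intro r
  induction r using Nat.strong_induction_on with
  | _ r ih =>
    intro hr
    rcases Nat.eq_zero_or_pos r with rfl | hr0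
    · exact h1
    · have hb : ∀ k, k < r → 0 ≤ bb L (m0 + 1 + k) := by
        intro k hk
        have := ih k hk (by omega)
        have e : m0 + 1 + k = m0 + k + 1 := by omega
        rw [e]
        exact this
      have q := near_ge L m0 r hr0 (by omega) h0 h1 hb (ht r hr)
      have q1 := sb_nonneg L m0 (by omega) h0 h1
      have q2 : ak L (m0 + r) / ak L m0 ≤ thL L ^ r := by
        rw [div_le_iff₀ (ak_pos L m0)]
        exact ha r hr
      have q3 := hP r hr0 hr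
      have q4 : 0 ≤ ∑ k ∈ range r, bb L (m0 + 1 + k) :=
        Finset.sum_nonneg fun k hk => hb k (mem_range.mp hk)
      have q5 : 0 ≤ E * (((L : ℝ) + ((m0 + r : ℕ) + 1)) * bb L (m0 + r + 1)) := by
        refine le_trans ?_ q
        have := mul_nonneg q1 (sub_nonneg.mpr q2)
        have := mul_nonneg (sub_nonneg.mpr q3) q4
        linarith
      by_contra hneg
      push Not at hneg
      have hE := E_pos
      have h5 : (0 : ℝ) < (L : ℝ) + ((m0 + r : ℕ) + 1) := by positivity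
      have h6 : ((L : ℝ) + ((m0 + r : ℕ) + 1)) * bb L (m0 + r + 1) < 0 :=
        mul_neg_of_pos_of_neg h5 hneg
      nlinarith

lemma ak_anti (L : ℕ) {i j : ℕ} (h : i ≤ j) : ak L j ≤ ak L i := by
  have h1 := AA_mono L j (i := 0) (j := j - i) (by omega) (by omega)
  rw [AA_eq_ak, AA_eq_ak] at h1
  have e1 : j - 0 = j := by omega
  have e2 : j - (j - i) = i := by omega
  rw [e1, e2] at h1
  exact h1

lemma tn_succ_eq (m : ℕ) : tn (m + 1) = ((m : ℝ) + 1) / ((m : ℝ) + 2) * qq (m + 1) * tn m := by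
  have h1 := cE_succ_eq m
  unfold cE at h1
  push_cast at h1
  have h2 : (0 : ℝ) < (m : ℝ) + 2 := by positivity
  field_simp
  linarith

/-- one step of the kernel is at most `thL L` up to `0.35 L` -/
lemma ak_succ_le (L m : ℕ) (hL : 40 ≤ L) (hm : 20 * (m + 1) ≤ 7 * (L + 1)) :
    ak L (m + 1) ≤ thL L * ak L m := by
  have e1 := tn_succ_eq m
  have e2 := tn_succ_eq L
  have tL := tn_pos L
  have tm := tn_pos m
  have hθ : thL L = ((L : ℝ) + 1) / ((L : ℝ) + 2) * (((L : ℝ) + 1) / ((L : ℝ) + 2)) * qq (L + 1) := by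
    unfold thL
    rw [e2]
    field_simp
  have hq : qq (m + 1) ≤ qq (L + 1) := by
    have hml : m + 1 ≤ L + 1 := by omega
    have aux : ∀ d, qq (m + 1) ≤ qq (m + 1 + d) := by
      intro d
      induction d with
      | zero => exact le_rfl
      | succ d ih => exact ih.trans (qq_mono_succ _ (by omega))
    have := aux (L - m)
    have e3 : m + 1 + (L - m) = L + 1 := by omega
    rwa [e3] at this
  have hq0 := qq_pos' (m + 1)
  have hq1 := qq_pos' (L + 1)
  unfold ak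
  rw [e1, hθ]
  push_cast
  have hLr : (40 : ℝ) ≤ L := by exact_mod_cast hL
  have hmr : 20 * ((m : ℝ) + 1) ≤ 7 * ((L : ℝ) + 1) := by exact_mod_cast hm
  have hm0 : (0 : ℝ) ≤ m := Nat.cast_nonneg m
  have key : ((L : ℝ) + (m + 1) + 1) * (((m : ℝ) + 1) / ((m : ℝ) + 2)) ≤
      ((L : ℝ) + 1) / ((L : ℝ) + 2) * (((L : ℝ) + 1) / ((L : ℝ) + 2)) * ((L : ℝ) + m + 1) := by
    rw [← mul_div_assoc, div_mul_div_comm, div_mul_eq_mul_div, div_le_div_iff₀ (by positivity)
      (by positivity)]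
    obtain ⟨u, hu⟩ : ∃ u : ℝ, u = (L : ℝ) + 1 := ⟨_, rfl⟩
    obtain ⟨v, hv⟩ : ∃ v : ℝ, v = (m : ℝ) + 1 := ⟨_, rfl⟩
    have hLu : (L : ℝ) = u - 1 := by linarith
    have hmv : (m : ℝ) = v - 1 := by linarith
    rw [hLu, hmv]
    have hu0 : 41 ≤ u := by linarith
    have hv0 : 1 ≤ v := by linarith
    have huv : v ≤ 7 / 20 * u := by linarith
    have h3 : 2 * u * v * (u + v) ≤ 189 / 200 * (u * u * u) := by
      have a1 : u * v ≤ u * (7 / 20 * u) := mul_le_mul_of_nonneg_left huv (by linarith)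
      have a2 : u + v ≤ 27 / 20 * u := by linarith
      have a3 : (u * v) * (u + v) ≤ (u * (7 / 20 * u)) * (27 / 20 * u) :=
        mul_le_mul a1 a2 (by positivity) (by positivity)
      nlinarith
    have h4 : u * u + u * v + v * v ≤ 3 / 2 * (u * u) := by
      have a1 : u * v ≤ u * (7 / 20 * u) := mul_le_mul_of_nonneg_left huv (by linarith)
      have a2 : v * v ≤ (7 / 20 * u) * (7 / 20 * u) := mul_le_mul huv huv (by linarith) (by linarith)
      nlinarith
    have h5 : 3 / 2 * (u * u) ≤ 11 / 200 * (u * u * u) := by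
      have : 0 < u * u := by positivity
      nlinarith
    nlinarith
  calc ((L : ℝ) + (m + 1) + 1) * (((m : ℝ) + 1) / ((m : ℝ) + 2) * qq (m + 1) * tn m)
      = (((L : ℝ) + (m + 1) + 1) * (((m : ℝ) + 1) / ((m : ℝ) + 2))) * (qq (m + 1) * tn m) := by ring
    _ ≤ (((L : ℝ) + 1) / ((L : ℝ) + 2) * (((L : ℝ) + 1) / ((L : ℝ) + 2)) * ((L : ℝ) + m + 1)) *
        (qq (L + 1) * tn m) := by
        apply mul_le_mul key _ (by positivity) (by positivity)
        exact mul_le_mul_of_nonneg_right hq tm.le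
    _ = _ := by ring

lemma ak_pow_le (L m0 : ℕ) (hL : 40 ≤ L) : ∀ r, 20 * (m0 + r) ≤ 7 * (L + 1) →
    ak L (m0 + r) ≤ thL L ^ r * ak L m0 := by
  intro r
  induction r with
  | zero => intro _; simp
  | succ r ih =>
    intro hr
    have h1 := ih (by omega)
    have h2 := ak_succ_le L (m0 + r) hL (by omega)
    rw [pow_succ]
    calc ak L (m0 + (r + 1)) ≤ thL L * ak L (m0 + r) := h2
      _ ≤ thL L * (thL L ^ r * ak L m0) := mul_le_mul_of_nonneg_left h1 (thL_pos L).le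
      _ = _ := by ring

lemma tn_pow_le (L m0 r : ℕ) (hL : 40 ≤ L) (hr : 20 * (m0 + r) ≤ 7 * (L + 1)) :
    tn (m0 + r) ≤ thL L ^ r * tn m0 := by
  have h := ak_pow_le L m0 hL r hr
  unfold ak at h
  have h1 : (0 : ℝ) < (L : ℝ) + m0 + 1 := by positivity
  have h2 := tn_pos (m0 + r)
  have h3 : ((L : ℝ) + m0 + 1) * tn (m0 + r) ≤ ((L : ℝ) + ((m0 + r : ℕ) : ℝ) + 1) * tn (m0 + r) := by
    apply mul_le_mul_of_nonneg_right _ h2.le
    push_cast
    have : (0 : ℝ) ≤ r := Nat.cast_nonneg r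
    linarith
  have h4 : ((L : ℝ) + m0 + 1) * tn (m0 + r) ≤ ((L : ℝ) + m0 + 1) * (thL L ^ r * tn m0) := by
    calc _ ≤ _ := h3
      _ ≤ _ := h
      _ = _ := by ring
  exact le_of_mul_le_mul_left h4 h1

/-- (NEAR), final form: one numerical condition at the end `R` -/
theorem near_zone (L m0 R : ℕ) (hL : 40 ≤ L) (hR : 20 * (m0 + R) ≤ 7 * L)
    (h0 : ∀ j, j ≤ m0 → bb L j ≤ 0) (h1 : 0 ≤ bb L (m0 + 1))
    (hP : 2 * PP (R - 1) ≤ ak L (R - 1)) :
    ∀ r, r ≤ R → 0 ≤ bb L (m0 + r + 1) := by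
  apply near L m0 R (by omega) h0 h1
  · intro r hr
    exact tn_pow_le L m0 r hL (by omega)
  · intro r hr
    exact ak_pow_le L m0 hL r (by omega)
  · intro r hr1 hr
    have a1 : PP (r - 1) ≤ PP (R - 1) := PP_mono (by omega)
    have a2 := ak_anti L (i := r - 1) (j := R - 1) (by omega)
    linarith

end Pool.Agent.MP_9da1e3_co
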