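import Pool.Agent.Lib.MP_9da1e3_co.Defs
import Pool.Agent.Lib.MP_9da1e3_co.Count

namespace Pool.Agent.MP_9da1e3_co

open Finset

lemma outcome_unique {n : ℕ} {α P P' : Fin n → Fin n} (h : IsOutcome α P) (h' : IsOutcome α P') :
    P = P' := by
  have key : ∀ m : ℕ, ∀ i : Fin n, (i : ℕ) < m → P i = P' i := by
    intro m
    induction m with
    | zero => intro i hi; omega
    | succ m ih =>
      intro i hi
      have hj : ∀ j : Fin n, j < i → P j = P' j := fun j hj => ih j (by
        have := Fin.lt_def.mp hj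
        omega)
      obtain ⟨h1, h2, h3⟩ := h i
      obtain ⟨h1', h2', h3'⟩ := h' i
      rcases lt_trichotomy (P i) (P' i) with hlt | heq | hgt
      · obtain ⟨j, hji, hjP⟩ := h3' (P i) h1 hlt
        exact absurd ((hj j hji).trans hjP) (h2 j hji)
      · exact heq
      · obtain ⟨j, hji, hjP⟩ := h3 (P' i) h1' hgt
        exact absurd ((hj j hji).symm.trans hjP) (h2' j hji)
  funext i
  exact key (i + 1) i (Nat.lt_succ_self _)

lemma outcome_inj {n : ℕ} {α P : Fin n → Fin n} (h : IsOutcome α P) : Function.Injective P := by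
  intro i j hij
  rcases lt_trichotomy i j with hlt | heq | hgt
  · exact absurd hij ((h j).2.1 i hlt)
  · exact heq
  · exact absurd hij.symm ((h i).2.1 j hgt)

noncomputable def FL (n L : ℕ) : ℕ :=
  Nat.card {α : Fin n → Fin n // ∃ P, IsOutcome α P ∧ ∀ i, (P i : ℕ) - (α i : ℕ) < L}

open Classical in
noncomputable def Aset {n : ℕ} (L : ℕ) (P : Equiv.Perm (Fin n)) (i : Fin n) : Finset (Fin n) :=
  univ.filter (fun x => x ≤ P i ∧ (P i : ℕ) - (x : ℕ) < L ∧ ∀ s, x ≤ s → s < P i → P.symm s < i)

open Classical in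
lemma FL_eq_sum (n L : ℕ) : FL n L = ∑ P : Equiv.Perm (Fin n), ∏ i, (Aset L P i).card := by
  unfold FL
  rw [Nat.card_eq_fintype_card, Fintype.card_subtype]
  have h1 : (univ.filter (fun α : Fin n → Fin n =>
      ∃ P, IsOutcome α P ∧ ∀ i, (P i : ℕ) - (α i : ℕ) < L))
      = (univ : Finset (Equiv.Perm (Fin n))).biUnion (fun P => Fintype.piFinset (Aset L P)) := by
    ext α
    simp only [mem_filter, mem_univ, true_and, mem_biUnion, Fintype.mem_piFinset, Aset]
    constructor
    · rintro ⟨P, hP, hL⟩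
      have hb : Function.Bijective P := (Finite.injective_iff_bijective).mp (outcome_inj hP)
      refine ⟨Equiv.ofBijective P hb, fun i => ?_⟩
      have hcoe : ∀ j, (Equiv.ofBijective P hb) j = P j := fun j => rfl
      refine ⟨(hP i).1, hL i, fun s hs1 hs2 => ?_⟩
      obtain ⟨j, hji, hjP⟩ := (hP i).2.2 s hs1 hs2
      have : (Equiv.ofBijective P hb).symm s = j := by
        rw [Equiv.symm_apply_eq]
        exact hjP.symm
      rw [this]
      exact hji
    · rintro ⟨P, hP⟩
      refine ⟨P, fun i => ⟨(hP i).1, fun j hji hE => ?_, fun s hs1 hs2 => ?_⟩, fun i => (hP i).2.1⟩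
      · exact (ne_of_lt hji) (P.injective hE)
      · exact ⟨P.symm s, (hP i).2.2 s hs1 hs2, P.apply_symm_apply s⟩
  rw [h1, Finset.card_biUnion]
  · apply Finset.sum_congr rfl
    intro P _
    rw [Fintype.card_piFinset]
  · intro P _ P' _ hne
    rw [Function.onFun, Finset.disjoint_left]
    intro α hα hα'
    apply hne
    have mk : ∀ Q : Equiv.Perm (Fin n), α ∈ Fintype.piFinset (Aset L Q) → IsOutcome α Q := by
      intro Q hQ i
      simp only [Fintype.mem_piFinset, Aset, mem_filter, mem_univ, true_and] at hQ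
      refine ⟨(hQ i).1, fun j hji hE => (ne_of_lt hji) (Q.injective hE), fun s hs1 hs2 => ?_⟩
      exact ⟨Q.symm s, (hQ i).2.2 s hs1 hs2, Q.apply_symm_apply s⟩
    exact Equiv.coe_fn_injective (outcome_unique (mk P hα) (mk P' hα'))

def wl {n : ℕ} (P : Equiv.Perm (Fin n)) : List ℕ := List.ofFn (fun p => (P.symm p : ℕ))

lemma wl_getD {n : ℕ} (P : Equiv.Perm (Fin n)) (p : Fin n) :
    (wl P).getD p 0 = (P.symm p : ℕ) := by
  unfold wl
  rw [List.getD_eq_getElem _ _ (by rw [List.length_ofFn]; exact p.isLt)]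
  simp

lemma prod_eq_W {n : ℕ} (L : ℕ) (P : Equiv.Perm (Fin n)) :
    ∏ i, (Aset L P i).card = W L (wl P) := by
  unfold W
  have hl : (wl P).length = n := by unfold wl; simp
  rw [hl, Finset.prod_range, ← Equiv.prod_comp P.symm]
  apply Finset.prod_congr rfl
  intro p _
  unfold Aset runc
  refine Finset.card_bij (fun x _ => (x : ℕ)) ?_ ?_ ?_
  · intro x hx
    simp only [mem_filter, mem_univ, true_and, Equiv.apply_symm_apply, mem_range] at hx ⊢
    obtain ⟨h1, h2, h3⟩ := hx
    have h1' := Fin.le_def.mp h1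
    refine ⟨by omega, h2, fun s hs1 hs2 => ?_⟩
    have hsn : s < n := lt_trans hs2 p.isLt
    have := h3 ⟨s, hsn⟩ (Fin.le_def.mpr hs1) (Fin.lt_def.mpr hs2)
    have e := wl_getD P ⟨s, hsn⟩
    simp only at e
    rw [e, wl_getD P p]
    exact Fin.lt_def.mp this
  · intro x _ y _ hxy
    exact Fin.ext hxy
  · intro x hx
    simp only [mem_filter, mem_range] at hx
    obtain ⟨h1, h2, h3⟩ := hx
    have hxn : x < n := by have := p.isLt; omega
    refine ⟨⟨x, hxn⟩, ?_, rfl⟩
    simp only [mem_filter, mem_univ, true_and, Equiv.apply_symm_apply]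
    refine ⟨Fin.le_def.mpr (by simp only; omega), h2, fun s hs1 hs2 => ?_⟩
    have := h3 s (Fin.le_def.mp hs1) (Fin.lt_def.mp hs2)
    rw [wl_getD P s, wl_getD P p] at this
    exact Fin.lt_def.mpr this

lemma sum_perm (n L : ℕ) : ∑ P : Equiv.Perm (Fin n), W L (wl P) = R L (range n) := by
  unfold R
  apply Finset.sum_bij (fun (P : Equiv.Perm (Fin n)) _ => wl P)
  · intro P _
    rw [mem_lists]
    apply lists_of
    · unfold wl
      rw [List.nodup_ofFn]
      intro p q h
      exact P.symm.injective (Fin.ext h)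
    · intro x
      unfold wl
      rw [List.mem_ofFn, mem_range]
      constructor
      · rintro ⟨p, rfl⟩
        exact (P.symm p).isLt
      · intro hx
        exact ⟨P ⟨x, hx⟩, by simp⟩
  · intro P _ Q _ h
    have : P.symm = Q.symm := by
      ext p
      have h1 := wl_getD P p
      rw [h, wl_getD Q p] at h1
      exact h1.symm
    have h2 := congrArg Equiv.symm this
    simpa using h2
  · intro w hw
    rw [mem_lists] at hw
    have hlen : w.length = n := by rw [lists_length hw, card_range]
    have hlt : ∀ p : Fin n, w.getD p 0 < n := by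
      intro p
      rw [List.getD_eq_getElem _ _ (by rw [hlen]; exact p.isLt)]
      exact mem_range.mp ((lists_mem hw _).mp (List.getElem_mem _))
    obtain ⟨f, hf⟩ : ∃ f : Fin n → Fin n, ∀ p, (f p : ℕ) = w.getD p 0 :=
      ⟨fun p => ⟨w.getD p 0, hlt p⟩, fun p => rfl⟩
    have hinj : Function.Injective f := by
      intro p q hpq
      have h1 : w.getD p 0 = w.getD q 0 := by rw [← hf p, ← hf q, hpq]
      rw [List.getD_eq_getElem _ _ (by rw [hlen]; exact p.isLt),
        List.getD_eq_getElem _ _ (by rw [hlen]; exact q.isLt)] at h1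
      exact Fin.ext ((List.Nodup.getElem_inj_iff (lists_nodup hw)).mp h1)
    have hb : Function.Bijective f := (Finite.injective_iff_bijective).mp hinj
    refine ⟨(Equiv.ofBijective f hb).symm, mem_univ _, ?_⟩
    apply List.ext_getElem
    · unfold wl
      rw [List.length_ofFn, hlen]
    · intro k h1 h2
      have hk : k < n := by rw [← hlen]; exact h2
      rw [← List.getD_eq_getElem _ 0 h1, ← List.getD_eq_getElem _ 0 h2]
      have e := wl_getD (Equiv.ofBijective f hb).symm ⟨k, hk⟩
      simp only at e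
      rw [e]
      have := hf ⟨k, hk⟩
      simpa using this
  · intro P _
    rfl

lemma FL_eq (n L : ℕ) : FL n L = Fr L n := by
  rw [FL_eq_sum, Finset.sum_congr rfl (fun P _ => prod_eq_W L P), sum_perm,
    R_eq L n (range n) (card_range n)]

lemma FL_succ {n : ℕ} (hn : 1 ≤ n) (l : ℕ) : FL n (l + 1) = FL n l + a n l := by
  classical
  unfold FL a
  rw [Nat.card_eq_fintype_card, Fintype.card_subtype, Nat.card_eq_fintype_card,
    Fintype.card_subtype, Nat.card_eq_fintype_card, Fintype.card_subtype,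
    ← Finset.card_union_of_disjoint]
  · congr 1
    ext α
    simp only [mem_filter, mem_univ, true_and, mem_union]
    constructor
    · rintro ⟨P, hP, hL⟩
      rcases Nat.lt_or_ge (univ.sup (fun i => (P i : ℕ) - (α i : ℕ))) l with h | h
      · left
        refine ⟨P, hP, fun i => ?_⟩
        exact lt_of_le_of_lt (Finset.le_sup (f := fun i => (P i : ℕ) - (α i : ℕ)) (mem_univ i)) h
      · right
        refine ⟨P, hP, le_antisymm ?_ h⟩
        apply Finset.sup_le
        intro i _
        exact Nat.lt_succ_iff.mp (hL i)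
    · rintro (⟨P, hP, hL⟩ | ⟨P, hP, hL⟩)
      · exact ⟨P, hP, fun i => lt_trans (hL i) (Nat.lt_succ_self l)⟩
      · refine ⟨P, hP, fun i => ?_⟩
        rw [← hL]
        exact Nat.lt_succ_of_le (Finset.le_sup (f := fun i => (P i : ℕ) - (α i : ℕ)) (mem_univ i))
  · rw [Finset.disjoint_left]
    intro α h1 h2
    simp only [mem_filter, mem_univ, true_and] at h1 h2
    obtain ⟨P, hP, hL⟩ := h1
    obtain ⟨Q, hQ, hE⟩ := h2
    have := outcome_unique hP hQ
    subst this
    have : univ.sup (fun i => (P i : ℕ) - (α i : ℕ)) < l := by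
      rw [Finset.sup_lt_iff (lt_of_le_of_lt (Nat.zero_le _) (hL ⟨0, hn⟩))]
      intro i _
      exact hL i
    omega

lemma a_add {n : ℕ} (hn : 1 ≤ n) (l : ℕ) : Fr (l + 1) n = Fr l n + a n l := by
  rw [← FL_eq, ← FL_eq, FL_succ hn]

end Pool.Agent.MP_9da1e3_co
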