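import Pool.Agent.Lib.MP_9da1e3_co.Wn1

/-!
Part 2: an exact subsolution for the third differences.
-/

namespace Pool.Agent.MP_9da1e3_co.P2

open Finset

lemma qq_ge' (p : ℕ) (hp : 1 ≤ p) : 1 - 1 / (2 * (p : ℝ) + 1) ≤ qq p := by
  have hp1 : (1 : ℝ) ≤ p := by exact_mod_cast hp
  have hp0 : (0 : ℝ) < p := by linarith
  rw [qq_eq p hp]
  have h := Real.le_log_one_add_of_nonneg (x := 1 / (p : ℝ)) (by positivity)
  have h1 : (1 : ℝ) - 1 / (2 * (p : ℝ) + 1) = (p : ℝ) * (2 * (1 / (p : ℝ)) / (1 / (p : ℝ) + 2)) := by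
    field_simp
    ring
  have h2 : (p : ℝ) * (2 * (1 / (p : ℝ)) / (1 / (p : ℝ) + 2)) ≤ (p : ℝ) * Real.log (1 + 1 / (p : ℝ)) :=
    mul_le_mul_of_nonneg_left h hp0.le
  have h3 := Real.add_one_le_exp ((p : ℝ) * Real.log (1 + 1 / (p : ℝ)) - 1)
  linarith

lemma cE_sub_le (n : ℕ) : cE n - cE (n + 1) ≤ cE n / (2 * (n : ℝ) + 3) := by
  have h1 := cE_succ_eq n
  have h2 := qq_ge' (n + 1) (by omega)
  have h3 := cE_pos n
  rw [h1]
  have h4 : cE n * (1 - 1 / (2 * ((n + 1 : ℕ) : ℝ) + 1)) ≤ cE n * qq (n + 1) :=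
    mul_le_mul_of_nonneg_left h2 h3.le
  have h5 : cE n * (1 - 1 / (2 * ((n + 1 : ℕ) : ℝ) + 1)) = cE n - cE n / (2 * (n : ℝ) + 3) := by
    push_cast
    have : (2 * ((n : ℝ) + 1) + 1) = 2 * n + 3 := by ring
    rw [this]
    ring
  linarith

lemma two_cE_tail (n k : ℕ) : 2 * cE n - 2 * cE (n + k) ≤ ∑ j ∈ range k, tn (n + j) := by
  induction k with
  | zero => simp
  | succ k ih =>
    rw [Finset.sum_range_succ, ← Nat.add_assoc]
    have h1 := cE_sub_le (n + k)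
    have h2 : cE (n + k) = (((n + k : ℕ) : ℝ) + 1) * tn (n + k) := rfl
    have h3 := tn_pos (n + k)
    have h4 : cE (n + k) / (2 * ((n + k : ℕ) : ℝ) + 3) ≤ tn (n + k) / 2 := by
      rw [h2, div_le_div_iff₀ (by positivity) (by norm_num)]
      nlinarith
    linarith

lemma tail_ge_two (n : ℕ) : 2 * cE n ≤ E - ∑ j ∈ range n, tn j := by
  by_contra hc
  push Not at hc
  obtain ⟨δ, hδ⟩ : ∃ δ : ℝ, δ = 2 * cE n - (E - ∑ j ∈ range n, tn j) := ⟨_, rfl⟩
  have hδ0 : 0 < δ := by rw [hδ]; linarith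
  obtain ⟨k, hk⟩ := exists_nat_gt ((2.2 / δ) ^ 2)
  have h1 := two_cE_tail n k
  have h2 := sum_tn_le (n + k)
  rw [Finset.sum_range_add] at h2
  have h3 := cE_le (n + k)
  have h4 : 2.2 / δ < sq (n + k) := by
    unfold sq
    apply Real.lt_sqrt_of_sq_lt
    push_cast
    have : (0 : ℝ) ≤ n := Nat.cast_nonneg n
    linarith
  have h5 := sq_pos (n + k)
  have h6 : 1.1 / sq (n + k) < δ / 2 := by
    rw [div_lt_iff₀ h5]
    rw [div_lt_iff₀ hδ0] at h4
    linarith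
  linarith

/-- the inequality behind the subsolution -/
lemma K_ineq (n : ℕ) : ((n : ℝ) + 3) * (cE n - cE (n + 1)) ≤
    (1 / 4) * (E - ∑ j ∈ range (n + 1), tn j) + 2 * tn (n + 1) := by
  have h1 := tail_ge_two (n + 1)
  have h2 := cE_succ_eq n
  have h3 := qq_ge' (n + 1) (by omega)
  have h4 := cE_pos n
  have h5 := cE_pos (n + 1)
  have h6 : cE (n + 1) = ((n : ℝ) + 2) * tn (n + 1) := by
    unfold cE
    push_cast
    ring
  have h7 := tn_pos (n + 1)
  have hn : (0 : ℝ) ≤ n := Nat.cast_nonneg n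
  -- cE n ≤ cE (n+1) * (2n+3)/(2n+2)
  have h8 : cE n - cE (n + 1) ≤ cE (n + 1) / (2 * ((n : ℝ) + 1)) := by
    rw [le_div_iff₀ (by positivity)]
    have h9 : cE n * (1 - 1 / (2 * ((n + 1 : ℕ) : ℝ) + 1)) ≤ cE (n + 1) := by
      rw [h2]
      exact mul_le_mul_of_nonneg_left h3 h4.le
    have h10 : cE n * (1 - 1 / (2 * ((n + 1 : ℕ) : ℝ) + 1)) = cE n * ((2 * n + 2) / (2 * n + 3)) := by
      push_cast
      field_simp
      ring
    rw [h10] at h9
    have h11 : cE n * (2 * n + 2) ≤ cE (n + 1) * (2 * n + 3) := by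
      have := mul_le_mul_of_nonneg_right h9 (show (0 : ℝ) ≤ 2 * n + 3 by positivity)
      have e : cE n * ((2 * n + 2) / (2 * n + 3)) * (2 * (n : ℝ) + 3) = cE n * (2 * n + 2) := by
        field_simp
      rw [e] at this
      exact this
    nlinarith
  have h12 : ((n : ℝ) + 3) * (cE n - cE (n + 1)) ≤ ((n : ℝ) + 3) * (cE (n + 1) / (2 * ((n : ℝ) + 1))) :=
    mul_le_mul_of_nonneg_left h8 (by positivity)
  have h13 : ((n : ℝ) + 3) * (cE (n + 1) / (2 * ((n : ℝ) + 1))) ≤ (1 / 4) * (2 * cE (n + 1)) + 2 * tn (n + 1) := by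
    rw [h6]
    rw [mul_div_assoc', div_le_iff₀ (by positivity)]
    nlinarith [mul_nonneg hn h7.le, mul_nonneg (mul_nonneg hn hn) h7.le]
  linarith

/-- `q 0 = 1`, `q (k+1) = ww k` -/
noncomputable def q1 : ℕ → ℝ
  | 0 => 1
  | k + 1 => ww k

lemma q1_zero : q1 0 = 1 := rfl
lemma q1_succ (k : ℕ) : q1 (k + 1) = ww k := rfl

lemma conv_q1 (n : ℕ) : ∑ k ∈ range (n + 1), tn (n - k) * q1 k = cE n := by
  rw [Finset.sum_range_succ']
  simp only [q1_succ, q1_zero, Nat.sub_zero, mul_one]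
  have h := sum_tn_ww n
  have e : ∑ k ∈ range n, tn (n - (k + 1)) * ww k = ∑ r ∈ range n, tn r * ww (n - 1 - r) := by
    rw [← Finset.sum_range_reflect]
    apply Finset.sum_congr rfl
    intro k hk
    have hk' := mem_range.mp hk
    have e1 : n - (n - 1 - k + 1) = k := by omega
    rw [e1]
  rw [e, h]
  unfold cE
  ring

lemma conv_q1' (n : ℕ) : ∑ k ∈ range (n + 1), tn (n - k) * q1 (k + 1) = cE (n + 1) - tn (n + 1) := by
  have h := conv_q1 (n + 1)
  rw [Finset.sum_range_succ'] at h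
  simp only [q1_zero, Nat.sub_zero, mul_one] at h
  have e : ∑ k ∈ range (n + 1), tn (n + 1 - (k + 1)) * q1 (k + 1) =
      ∑ k ∈ range (n + 1), tn (n - k) * q1 (k + 1) := by
    apply Finset.sum_congr rfl
    intro k _
    have : n + 1 - (k + 1) = n - k := by omega
    rw [this]
  rw [e] at h
  linarith

end Pool.Agent.MP_9da1e3_co.P2
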