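import Pool.Agent.Lib.MP_9da1e3_co.P2a

namespace Pool.Agent.MP_9da1e3_co.P2

open Finset

open scoped PowerSeries

lemma coeff_mul_rg (a b : PowerSeries ℝ) (m : ℕ) : PowerSeries.coeff m (a * b)
    = ∑ z ∈ range (m + 1), PowerSeries.coeff (m - z) a * PowerSeries.coeff z b := by
  rw [mul_comm, PowerSeries.coeff_mul]
  rw [Finset.Nat.sum_antidiagonal_eq_sum_range_succ
    (fun i j => PowerSeries.coeff i b * PowerSeries.coeff j a) m]
  apply Finset.sum_congr rfl
  intro z _
  ring

noncomputable def pTn : PowerSeries ℝ := PowerSeries.mk tn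
noncomputable def pCE : PowerSeries ℝ := PowerSeries.mk cE

noncomputable def th (a : PowerSeries ℝ) : PowerSeries ℝ :=
  PowerSeries.X * PowerSeries.derivative ℝ a

lemma coeff_th (a : PowerSeries ℝ) (n : ℕ) : PowerSeries.coeff n (th a) = (n : ℝ) * PowerSeries.coeff n a := by
  unfold th
  rcases n with _ | n
  · simp
  · rw [PowerSeries.coeff_succ_X_mul, PowerSeries.coeff_derivative]
    push_cast
    ring

lemma th_mul (a b : PowerSeries ℝ) : th (a * b) = th a * b + a * th b := by
  unfold th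
  rw [Derivation.leibniz]
  simp only [smul_eq_mul]
  ring

lemma abel_cE (n : ℕ) : ∑ z ∈ range (n + 1), cE (n - z) * tn z = E * (((n : ℝ) + 1) * tn (n + 1)) := by
  have h := abel_tc n
  have hE := E_pos
  have hp : 0 < E ^ n := pow_pos hE n
  have e : ∑ z ∈ range (n + 1), cE (n - z) * tn z = (∑ k ∈ range (n + 1), tt k * cc (n - k)) / E ^ n := by
    rw [Finset.sum_div]
    apply Finset.sum_congr rfl
    intro k hk
    have hk' := mem_range.mp hk
    rw [cE_eq]
    unfold tn
    have e1 : E ^ n = E ^ (n - k) * E ^ k := by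
      rw [← pow_add]
      congr 1
      omega
    rw [e1]
    have := pow_pos hE k
    have := pow_pos hE (n - k)
    field_simp
  rw [e, h]
  unfold tn
  rw [pow_succ]
  field_simp

lemma th_pTn : PowerSeries.C E * th pTn = PowerSeries.X * (pCE * pTn) := by
  ext n
  rw [PowerSeries.coeff_C_mul, coeff_th]
  rcases n with _ | n
  · simp
  · rw [PowerSeries.coeff_succ_X_mul, coeff_mul_rg]
    simp only [pTn, pCE, PowerSeries.coeff_mk]
    rw [abel_cE]
    push_cast
    ring

/-- resolution of the kernel: `c = t * γ` -/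
lemma transfer (L : ℕ) (γ c : ℕ → ℝ) (hγ : γ 0 = 0)
    (hc : ∀ m, c m = ∑ z ∈ range (m + 1), tn (m - z) * γ z) (m : ℕ) :
    E * (((L : ℝ) + (m + 1)) * c (m + 1)) - ∑ r ∈ range (m + 1), AA L m r * c r =
      ∑ z ∈ range (m + 1), tn (m - z) * (E * (((L : ℝ) + (z + 1)) * γ (z + 1)) - L * c z) := by
  obtain ⟨G, hG⟩ : ∃ G : PowerSeries ℝ, G = PowerSeries.mk (fun z => γ (z + 1)) := ⟨_, rfl⟩
  have hc0 : c 0 = 0 := by rw [hc]; simp [hγ]
  have hcs : ∀ z, c (z + 1) = PowerSeries.coeff z (pTn * G) := by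
    intro z
    rw [hc, coeff_mul_rg, Finset.sum_range_succ', hγ, mul_zero, add_zero]
    apply Finset.sum_congr rfl
    intro k _
    rw [hG]
    simp only [pTn, PowerSeries.coeff_mk]
    have : z + 1 - (k + 1) = z - k := by omega
    rw [this]
  have hcX : ∀ z, c z = PowerSeries.coeff z (PowerSeries.X * (pTn * G)) := by
    intro z
    rcases z with _ | z
    · simp [hc0]
    · rw [PowerSeries.coeff_succ_X_mul, hcs]
  have key : PowerSeries.C E * (PowerSeries.C ((L : ℝ) + 1) * (pTn * G) + th (pTn * G)) -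
      (PowerSeries.C (L : ℝ) * pTn + pCE) * (PowerSeries.X * (pTn * G)) =
      pTn * (PowerSeries.C E * (PowerSeries.C ((L : ℝ) + 1) * G + th G) -
        PowerSeries.C (L : ℝ) * (PowerSeries.X * (pTn * G))) := by
    rw [th_mul]
    have h1 := th_pTn
    linear_combination (G) * h1
  have h2 := congrArg (PowerSeries.coeff m) key
  rw [map_sub, coeff_mul_rg pTn, PowerSeries.coeff_C_mul, map_add, PowerSeries.coeff_C_mul, coeff_th,
    coeff_mul_rg (PowerSeries.C (L : ℝ) * pTn + pCE)] at h2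
  have e1 : ∑ z ∈ range (m + 1), PowerSeries.coeff (m - z) (PowerSeries.C (L : ℝ) * pTn + pCE) *
      PowerSeries.coeff z (PowerSeries.X * (pTn * G)) = ∑ r ∈ range (m + 1), AA L m r * c r := by
    apply Finset.sum_congr rfl
    intro z _
    rw [← hcX, map_add, PowerSeries.coeff_C_mul]
    simp only [pTn, pCE, PowerSeries.coeff_mk]
    unfold AA cE
    ring
  have e2 : ∑ z ∈ range (m + 1), PowerSeries.coeff (m - z) pTn *
      PowerSeries.coeff z (PowerSeries.C E * (PowerSeries.C ((L : ℝ) + 1) * G + th G) -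
        PowerSeries.C (L : ℝ) * (PowerSeries.X * (pTn * G))) =
      ∑ z ∈ range (m + 1), tn (m - z) * (E * (((L : ℝ) + (z + 1)) * γ (z + 1)) - L * c z) := by
    apply Finset.sum_congr rfl
    intro z _
    rw [map_sub, PowerSeries.coeff_C_mul, map_add, PowerSeries.coeff_C_mul, coeff_th,
      PowerSeries.coeff_C_mul, ← hcX, hG]
    simp only [pTn, PowerSeries.coeff_mk]
    ring
  rw [e1, e2, ← hcs] at h2
  rw [← h2]
  ring

end Pool.Agent.MP_9da1e3_co.P2
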