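import Pool.Agent.Lib.MP_9da1e3_co.P2b

namespace Pool.Agent.MP_9da1e3_co.P2

open Finset

noncomputable def A0 (L : ℕ) : ℝ := tn L / (E * ((L : ℝ) + 1))

lemma A0_pos (L : ℕ) : 0 < A0 L := by
  have := tn_pos L
  have := E_pos
  unfold A0
  positivity

lemma A0_eq (L : ℕ) : E * (((L : ℝ) + 1) * A0 L) = tn L := by
  have := E_pos
  unfold A0
  field_simp

noncomputable def gs (L : ℕ) : ℕ → ℝ
  | 0 => 0
  | 1 => -A0 L
  | n + 2 => A0 L * (q1 n - q1 (n + 1) - 1 / (L : ℝ) * (1 / 4 + q1 n + 2 * q1 (n + 1)))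

noncomputable def cs (L m : ℕ) : ℝ := ∑ z ∈ range (m + 1), tn (m - z) * gs L z

lemma cs_zero (L : ℕ) : cs L 0 = 0 := by
  unfold cs
  simp [gs]

lemma cs_one (L : ℕ) : cs L 1 = -A0 L := by
  unfold cs
  rw [Finset.sum_range_succ, Finset.sum_range_one]
  simp [gs, tn_zero]

lemma cs_eq (L n : ℕ) : cs L (n + 2) = A0 L * (cE n - cE (n + 1)) -
    A0 L / L * (1 / 4 * ∑ k ∈ range (n + 1), tn k + cE n + 2 * cE (n + 1) - 2 * tn (n + 1)) := by
  unfold cs
  rw [Finset.sum_range_succ', Finset.sum_range_succ']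
  have e0 : tn (n + 2 - 0) * gs L 0 = 0 := by simp [gs]
  have e1 : tn (n + 2 - (0 + 1)) * gs L (0 + 1) = -(A0 L * tn (n + 1)) := by
    have : n + 2 - (0 + 1) = n + 1 := by omega
    rw [this]
    simp only [gs, zero_add]
    ring
  rw [e0, e1]
  have e2 : ∑ k ∈ range (n + 1), tn (n + 2 - (k + 1 + 1)) * gs L (k + 1 + 1) =
      A0 L * (1 - 1 / (L : ℝ)) * ∑ k ∈ range (n + 1), tn (n - k) * q1 k -
      A0 L * (1 + 2 / (L : ℝ)) * ∑ k ∈ range (n + 1), tn (n - k) * q1 (k + 1) -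
      A0 L / L * (1 / 4) * ∑ k ∈ range (n + 1), tn (n - k) := by
    rw [Finset.mul_sum, Finset.mul_sum, Finset.mul_sum, ← Finset.sum_sub_distrib, ← Finset.sum_sub_distrib]
    apply Finset.sum_congr rfl
    intro k _
    have : n + 2 - (k + 1 + 1) = n - k := by omega
    rw [this]
    simp only [gs]
    ring
  have e3 : ∑ k ∈ range (n + 1), tn (n - k) = ∑ k ∈ range (n + 1), tn k := by
    rw [← Finset.sum_range_reflect]
    apply Finset.sum_congr rfl
    intro k hk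
    have hk' := mem_range.mp hk
    congr 1
    omega
  rw [e2, conv_q1, conv_q1', e3]
  ring

/-- the seed terms -/
noncomputable def sd (L : ℕ) : ℕ → ℝ
  | 0 => - tn L
  | 1 => tn (L + 1)
  | _ + 2 => 0

lemma E_le3 : E ≤ 2.7183 := by
  have := Real.exp_one_lt_d9
  unfold E
  linarith

lemma E_gt2 : 2.7182 ≤ E := by
  have := Real.exp_one_gt_d9
  unfold E
  linarith

lemma tn_succ_low (L : ℕ) : tn L * (1 - 3 / (2 * ((L : ℝ) + 1))) ≤ tn (L + 1) := by
  have h1 := cE_succ_eq L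
  have h2 := qq_ge' (L + 1) (by omega)
  have h3 := tn_pos L
  unfold cE at h1
  push_cast at h1 h2
  have h4 : ((L : ℝ) + 1 + 1) * tn (L + 1) = ((L : ℝ) + 1) * tn L * qq (L + 1) := h1
  have h5 : ((L : ℝ) + 1) * tn L * (1 - 1 / (2 * ((L : ℝ) + 1) + 1)) ≤ ((L : ℝ) + 1 + 1) * tn (L + 1) := by
    rw [h4]
    exact mul_le_mul_of_nonneg_left h2 (by positivity)
  have hL : (0 : ℝ) ≤ L := Nat.cast_nonneg L
  have h6 : ((L : ℝ) + 1 + 1) * (tn L * (1 - 3 / (2 * ((L : ℝ) + 1)))) ≤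
      ((L : ℝ) + 1) * tn L * (1 - 1 / (2 * ((L : ℝ) + 1) + 1)) := by
    have e : ((L : ℝ) + 1) * tn L * (1 - 1 / (2 * ((L : ℝ) + 1) + 1)) -
        ((L : ℝ) + 1 + 1) * (tn L * (1 - 3 / (2 * ((L : ℝ) + 1)))) =
        tn L * ((7 * L + 10) / (2 * (L + 1) * (2 * L + 3)) ) := by
      field_simp
      ring
    have : 0 ≤ tn L * ((7 * (L : ℝ) + 10) / (2 * (L + 1) * (2 * L + 3))) := by positivity
    linarith
  exact le_of_mul_le_mul_left (h6.trans h5) (by positivity)

lemma gs_ineq (L z : ℕ) (hL : 1 ≤ L) :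
    E * (((L : ℝ) + (z + 1)) * gs L (z + 1)) - L * cs L z ≤ sd L z := by
  have hL1 : (1 : ℝ) ≤ L := by exact_mod_cast hL
  have hL0 : (0 : ℝ) < L := by linarith
  have hE := E_pos
  have hA := A0_pos L
  have hA1 := A0_eq L
  rcases z with _ | _ | n
  · rw [cs_zero]
    simp only [gs, sd, Nat.cast_zero, zero_add, mul_zero, sub_zero]
    linarith
  · rw [zero_add, cs_one]
    have e1 : gs L (1 + 1) = A0 L * (q1 0 - q1 1 - 1 / (L : ℝ) * (1 / 4 + q1 0 + 2 * q1 1)) := rfl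
    have e2 : sd L 1 = tn (L + 1) := rfl
    have e3 : E * q1 1 = 1 := by
      rw [q1_succ, E_ww]
      simp [tn_zero]
    rw [e1, e2, q1_zero]
    have h1 := tn_succ_low L
    have h2 : tn L * (1 - 3 / (2 * ((L : ℝ) + 1))) = A0 L * (E * (L - 1 / 2)) := by
      rw [← hA1]
      field_simp
      ring
    rw [h2] at h1
    refine le_trans ?_ h1
    have e4 : E * (((L : ℝ) + (((1 : ℕ) : ℝ) + 1)) * (A0 L * (1 - q1 1 - 1 / (L : ℝ) * (1 / 4 + 1 + 2 * q1 1)))) -
        L * -A0 L = A0 L * (((L : ℝ) + 2) * (E - E * q1 1 - (5 / 4 * E + 2 * (E * q1 1)) / L) + L) := by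
      push_cast
      field_simp
      ring
    rw [e4, e3]
    apply mul_le_mul_of_nonneg_left _ hA.le
    have h3 : ((L : ℝ) + 2) * (E - 1 - (5 / 4 * E + 2 * 1) / L) = ((L : ℝ) + 2) * (E - 1) -
        (5 / 4 * E + 2) - 2 * ((5 / 4 * E + 2) / L) := by
      field_simp
      ring
    rw [h3]
    have h4 : 0 ≤ 2 * ((5 / 4 * E + 2) / (L : ℝ)) := by positivity
    have h5 := E_le3
    nlinarith
  · rw [show n + 1 + 1 + 1 = (n + 1) + 2 from rfl]
    have e1 : gs L ((n + 1) + 2) = A0 L * (q1 (n + 1) - q1 (n + 2) -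
        1 / (L : ℝ) * (1 / 4 + q1 (n + 1) + 2 * q1 (n + 2))) := rfl
    have e2 : sd L (n + 1 + 1) = 0 := rfl
    rw [e1, e2, show n + 1 + 1 = n + 2 from rfl, cs_eq]
    have q1a : E * q1 (n + 1) = cE n := by rw [q1_succ, E_ww]; rfl
    have q1b : E * q1 (n + 2) = cE (n + 1) := by rw [q1_succ, E_ww]; rfl
    have hK := K_ineq n
    have hc0 := cE_pos n
    have hc1 := cE_pos (n + 1)
    have ht := tn_pos (n + 1)
    obtain ⟨S, hS⟩ : ∃ S : ℝ, S = ∑ k ∈ range (n + 1), tn k := ⟨_, rfl⟩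
    rw [← hS] at hK ⊢
    have hn : (0 : ℝ) ≤ n := Nat.cast_nonneg n
    have e3 : E * (((L : ℝ) + (((n + 2 : ℕ) : ℝ) + 1)) * (A0 L * (q1 (n + 1) - q1 (n + 2) -
        1 / (L : ℝ) * (1 / 4 + q1 (n + 1) + 2 * q1 (n + 2))))) -
        L * (A0 L * (cE n - cE (n + 1)) -
          A0 L / L * (1 / 4 * S + cE n + 2 * cE (n + 1) - 2 * tn (n + 1))) =
        A0 L * ((((L : ℝ) + (n + 3)) * (E * q1 (n + 1) - E * q1 (n + 2)) - L * (cE n - cE (n + 1))) -
          (((L : ℝ) + (n + 3)) / L * (E / 4 + E * q1 (n + 1) + 2 * (E * q1 (n + 2))) -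
            (1 / 4 * S + cE n + 2 * cE (n + 1) - 2 * tn (n + 1)))) := by
      push_cast
      field_simp
      ring
    rw [e3, q1a, q1b]
    have h1 : (E / 4 + cE n + 2 * cE (n + 1)) ≤
        ((L : ℝ) + (n + 3)) / L * (E / 4 + cE n + 2 * cE (n + 1)) := by
      have h2 : (1 : ℝ) ≤ ((L : ℝ) + (n + 3)) / L := by
        rw [le_div_iff₀ hL0]
        linarith
      exact le_mul_of_one_le_left (by positivity) h2
    have h3 : (((L : ℝ) + (n + 3)) * (cE n - cE (n + 1)) - L * (cE n - cE (n + 1))) -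
          (((L : ℝ) + (n + 3)) / L * (E / 4 + cE n + 2 * cE (n + 1)) -
            (1 / 4 * S + cE n + 2 * cE (n + 1) - 2 * tn (n + 1))) ≤ 0 := by
      linarith
    exact mul_nonpos_of_nonneg_of_nonpos hA.le h3

lemma cs_rec (L m : ℕ) (hL : 1 ≤ L) : E * (((L : ℝ) + (m + 1)) * cs L (m + 1)) ≤
    ∑ r ∈ range (m + 1), AA L m r * cs L r + ∑ z ∈ range (m + 1), tn (m - z) * sd L z := by
  have h := transfer L (gs L) (cs L) rfl (fun _ => rfl) m
  have h2 : ∑ z ∈ range (m + 1), tn (m - z) * (E * (((L : ℝ) + (z + 1)) * gs L (z + 1)) - L * cs L z) ≤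
      ∑ z ∈ range (m + 1), tn (m - z) * sd L z := by
    apply Finset.sum_le_sum
    intro z _
    exact mul_le_mul_of_nonneg_left (gs_ineq L z hL) (tn_pos _).le
  linarith

lemma sum_sd (L m : ℕ) (hm : 1 ≤ m) : ∑ z ∈ range (m + 1), tn (m - z) * sd L z =
    tn (m - 1) * tn (L + 1) - tn m * tn L := by
  obtain ⟨p, rfl⟩ : ∃ p, m = p + 1 := ⟨m - 1, by omega⟩
  rw [Finset.sum_range_succ', Finset.sum_range_succ']
  have e : ∑ k ∈ range p, tn (p + 1 - (k + 1 + 1)) * sd L (k + 1 + 1) = 0 := by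
    apply Finset.sum_eq_zero
    intro k _
    simp [sd]
  rw [e]
  simp only [sd, Nat.sub_zero, zero_add, Nat.add_sub_cancel]
  ring

/-- comparison principle -/
lemma compare (L N : ℕ) (x y σ : ℕ → ℝ) (h0 : x 0 ≤ y 0)
    (hx : ∀ m, m < N → E * (((L : ℝ) + (m + 1)) * x (m + 1)) ≤ ∑ r ∈ range (m + 1), AA L m r * x r + σ m)
    (hy : ∀ m, m < N → ∑ r ∈ range (m + 1), AA L m r * y r + σ m ≤ E * (((L : ℝ) + (m + 1)) * y (m + 1))) :
    ∀ m, m ≤ N → x m ≤ y m := by
  intro m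
  induction m using Nat.strong_induction_on with
  | _ m ih =>
    intro hm
    rcases m with _ | m
    · exact h0
    · have hE := E_pos
      have h1 := hx m (by omega)
      have h2 := hy m (by omega)
      have h3 : ∑ r ∈ range (m + 1), AA L m r * x r ≤ ∑ r ∈ range (m + 1), AA L m r * y r := by
        apply Finset.sum_le_sum
        intro r hr
        have hr' := mem_range.mp hr
        exact mul_le_mul_of_nonneg_left (ih r hr' (by omega)) (AA_nonneg L m r)
      have h4 : E * (((L : ℝ) + (m + 1)) * x (m + 1)) ≤ E * (((L : ℝ) + (m + 1)) * y (m + 1)) := by linarith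
      have hN : (0 : ℝ) < (L : ℝ) + (m + 1) := by positivity
      exact le_of_mul_le_mul_left (le_of_mul_le_mul_left h4 hE) hN

/-- the third differences are at least the subsolution -/
theorem cs_le (L N : ℕ) (hL : 1 ≤ L) (hN : N ≤ L) (hb : ∀ i, i + 1 < N → bb (L + 1) i ≤ 0) :
    ∀ r, r ≤ N → cs L r ≤ -c3 L r := by
  apply compare L N (cs L) (fun r => -c3 L r) (fun m => ∑ z ∈ range (m + 1), tn (m - z) * sd L z)
  · simp [cs_zero, c3_zero]
  · intro m _
    exact cs_rec L m hL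
  · intro m hm
    rcases Nat.eq_zero_or_pos m with rfl | hm1
    · have h1 := bb_eq L 0 (by omega)
      have e1 : c3 L 1 = bb (L + 1) 0 - bb L 1 := rfl
      simp only [zero_add, Finset.sum_range_one, bb_zero, mul_zero, Finset.range_zero, Finset.sum_empty,
        Nat.sub_zero] at h1
      simp only [zero_add, Finset.sum_range_one, c3_zero, neg_zero, mul_zero, Nat.sub_zero, sd, tn_zero,
        e1, bb_zero]
      rw [tn_zero] at h1
      linarith
    · have h1 := c3_eq L m hm1 (by omega)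
      rw [sum_sd L m hm1]
      have h2 : ∑ i ∈ range m, tn (m - 1 - i) * bb (L + 1) i ≤ 0 := by
        apply Finset.sum_nonpos
        intro i hi
        have hi' := mem_range.mp hi
        exact mul_nonpos_of_nonneg_of_nonpos (tn_pos _).le (hb i (by omega))
      have e2 : ∑ r ∈ range (m + 1), AA L m r * -c3 L r = -∑ r ∈ range (m + 1), AA L m r * c3 L r := by
        rw [← Finset.sum_neg_distrib]
        apply Finset.sum_congr rfl
        intro r _
        ring
      rw [e2]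
      have e3 : E * (((L : ℝ) + (m + 1)) * -c3 L (m + 1)) = -(E * (((L : ℝ) + (m + 1)) * c3 L (m + 1))) := by
        ring
      rw [e3, h1]
      linarith

end Pool.Agent.MP_9da1e3_co.P2
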