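import Pool.Agent.Lib.MP_9da1e3_co.P2c
import Pool.Agent.Lib.MP_9da1e3_co.NR1
import Pool.Agent.Lib.MP_9da1e3_co.Ct1

namespace Pool.Agent.MP_9da1e3_co.P2

open Finset

lemma qq_up (p : ℕ) (hp : 1 ≤ p) : qq p ≤ 1 - 1 / (2 * (p : ℝ) + 3) := by
  have hp1 : (1 : ℝ) ≤ p := by exact_mod_cast hp
  have hp0 : (0 : ℝ) < p := by linarith
  have hE := E_pos
  unfold qq
  rw [div_le_iff₀ hE]
  have h1 : E = Real.exp (1 / (p : ℝ)) ^ p := by
    rw [← Real.exp_nat_mul, E]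
    congr 1
    field_simp
  have h2 : 1 + 1 / (p : ℝ) + (1 / (p : ℝ)) ^ 2 / 2 ≤ Real.exp (1 / (p : ℝ)) :=
    Real.quadratic_le_exp_of_nonneg (by positivity)
  have h3 : 1 + 1 / (p : ℝ) + (1 / (p : ℝ)) ^ 2 / 2 =
      (1 + 1 / (p : ℝ)) * (1 + 1 / (2 * p * (p + 1))) := by
    field_simp
  have h4 : (1 + 1 / (p : ℝ)) ^ p * (1 + 1 / (2 * ((p : ℝ) + 1))) ≤ E := by
    rw [h1]
    refine le_trans ?_ (pow_le_pow_left₀ (by positivity) h2 p)
    rw [h3, mul_pow]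
    apply mul_le_mul_of_nonneg_left _ (by positivity)
    have h5 := one_add_mul_le_pow (show (-2 : ℝ) ≤ 1 / (2 * p * (p + 1)) by
      have : (0 : ℝ) ≤ 1 / (2 * p * (p + 1)) := by positivity
      linarith) p
    refine le_trans (le_of_eq ?_) h5
    field_simp
  have h6 : (1 - 1 / (2 * (p : ℝ) + 3)) * (1 + 1 / (2 * ((p : ℝ) + 1))) = 1 := by
    field_simp
    ring
  calc (1 + 1 / (p : ℝ)) ^ p = (1 - 1 / (2 * (p : ℝ) + 3)) *
        ((1 + 1 / (p : ℝ)) ^ p * (1 + 1 / (2 * ((p : ℝ) + 1)))) := by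
        rw [mul_comm ((1 + 1 / (p : ℝ)) ^ p), ← mul_assoc, h6, one_mul]
    _ ≤ (1 - 1 / (2 * (p : ℝ) + 3)) * E := by
        apply mul_le_mul_of_nonneg_left h4
        rw [sub_nonneg, div_le_one (by positivity)]
        linarith

lemma cE_sub_ge (n : ℕ) : cE n / (2 * (n : ℝ) + 5) ≤ cE n - cE (n + 1) := by
  have h1 := cE_succ_eq n
  have h2 := qq_up (n + 1) (by omega)
  have h3 := cE_pos n
  rw [h1]
  have h4 : cE n * qq (n + 1) ≤ cE n * (1 - 1 / (2 * ((n + 1 : ℕ) : ℝ) + 3)) :=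
    mul_le_mul_of_nonneg_left h2 h3.le
  have h5 : cE n * (1 - 1 / (2 * ((n + 1 : ℕ) : ℝ) + 3)) = cE n - cE n / (2 * (n : ℝ) + 5) := by
    push_cast
    have : (2 * ((n : ℝ) + 1) + 3) = 2 * n + 5 := by ring
    rw [this]
    ring
  linarith

/-- lower bound of the subsolution -/
lemma cs_ge (L n : ℕ) (hL : 1 ≤ L) :
    A0 L * ((cE n - cE (n + 1)) - 1 / (L : ℝ) * (E / 4 + 3 * cE n)) ≤ cs L (n + 2) := by
  have hL0 : (0 : ℝ) < L := by exact_mod_cast hL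
  have hA := A0_pos L
  have h1 := sum_tn_le (n + 1)
  have h2 := cE_anti n
  have h3 := tn_pos (n + 1)
  rw [cs_eq]
  have e : A0 L * (cE n - cE (n + 1)) -
    A0 L / L * (1 / 4 * ∑ k ∈ range (n + 1), tn k + cE n + 2 * cE (n + 1) - 2 * tn (n + 1)) -
    A0 L * ((cE n - cE (n + 1)) - 1 / (L : ℝ) * (E / 4 + 3 * cE n)) =
    A0 L / L * (1 / 4 * (E - ∑ k ∈ range (n + 1), tn k) + 2 * (cE n - cE (n + 1)) + 2 * tn (n + 1)) := by
    ring
  have h4 : 0 ≤ A0 L / L * (1 / 4 * (E - ∑ k ∈ range (n + 1), tn k) + 2 * (cE n - cE (n + 1)) +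
      2 * tn (n + 1)) := by
    apply mul_nonneg (by positivity)
    linarith
  linarith

/-- the subsolution is nonnegative up to `m ^ 3 = (0.4 L) ^ 2` -/
lemma cs_nonneg (L n : ℕ) (hL : 999 ≤ L) (hn : ((n : ℝ) + 2) ^ 3 ≤ (0.4 * L) ^ 2) :
    0 ≤ cs L (n + 2) := by
  have hLr : (999 : ℝ) ≤ L := by exact_mod_cast hL
  have hL0 : (0 : ℝ) < L := by linarith
  have hn0 : (0 : ℝ) ≤ n := Nat.cast_nonneg n
  refine le_trans ?_ (cs_ge L n (by omega))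
  apply mul_nonneg (A0_pos L).le
  have h1 := cE_sub_ge n
  have h2 := le_cE n
  have hc := cE_pos n
  have hs := sq_pos n
  have hss := sq_sq n
  have hE := E_le3
  -- E / 4 ≤ (E/4) * sq n * cE n
  have h3 : 1 ≤ sq n * cE n := by
    rw [div_le_iff₀ hs] at h2
    linarith
  have h4 : E / 4 ≤ 0.68 * (sq n * cE n) := by nlinarith
  -- s = sq n, s^2 = n+1
  obtain ⟨s, hsdef⟩ : ∃ s : ℝ, s = sq n := ⟨_, rfl⟩
  rw [← hsdef] at hs hss h4
  have hx : ((n : ℝ) + 2) ≤ 0.055 * L := by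
    by_contra hc2
    push Not at hc2
    have h5 : (0.055 * (L : ℝ)) ^ 3 < ((n : ℝ) + 2) ^ 3 := pow_lt_pow_left₀ hc2 (by positivity) (by norm_num)
    have h6 : (0.4 * (L : ℝ)) ^ 2 ≤ (0.055 * (L : ℝ)) ^ 3 := by
      have : (0.055 * (L : ℝ)) ^ 3 = 0.000166375 * L * L ^ 2 := by ring
      rw [this]
      have h7 : (0.16 : ℝ) ≤ 0.000166375 * L := by linarith
      have h8 : (0.4 * (L : ℝ)) ^ 2 = 0.16 * L ^ 2 := by ring
      rw [h8]
      exact mul_le_mul_of_nonneg_right h7 (by positivity)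
    linarith
  have hxs : ((n : ℝ) + 2) * s ≤ 0.4 * L := by
    have h5 : (((n : ℝ) + 2) * s) ^ 2 ≤ (0.4 * L) ^ 2 := by
      have : (((n : ℝ) + 2) * s) ^ 2 = ((n : ℝ) + 2) ^ 2 * (s * s) := by ring
      rw [this, hss]
      refine le_trans ?_ hn
      nlinarith [sq_nonneg ((n : ℝ) + 2)]
    exact le_of_sq_le_sq h5 (by positivity) |> fun h => h
  have h5 : 1 / (L : ℝ) * (E / 4 + 3 * cE n) ≤ cE n / (2 * (n : ℝ) + 5) := by
    rw [one_div, inv_mul_le_iff₀ hL0, mul_div_assoc', le_div_iff₀ (by positivity)]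
    have h6 : (E / 4 + 3 * cE n) * (2 * (n : ℝ) + 5) ≤ (0.68 * (s * cE n) + 3 * cE n) * (2 * n + 5) := by
      apply mul_le_mul_of_nonneg_right (by linarith) (by positivity)
    refine h6.trans ?_
    have h7 : (0.68 * (s * cE n) + 3 * cE n) * (2 * (n : ℝ) + 5) =
        cE n * ((0.68 * s + 3) * (2 * (n + 2) + 1)) := by ring
    rw [h7, mul_comm (L : ℝ) (cE n)]
    apply mul_le_mul_of_nonneg_left _ hc.le
    have h8 : s ≤ (n + 2) := by nlinarith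
    nlinarith
  linarith

end Pool.Agent.MP_9da1e3_co.P2
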