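import Pool.Agent.Lib.MP_9da1e3_co.P2d

namespace Pool.Agent.MP_9da1e3_co.P2

open Finset

theorem r1_K1 (L y : ℕ) (hL : 999 ≤ L) (hy : 53 ≤ y) :
    ak L y * (1.5 / y - 1.05 / L) ≤ ak L (y - 1) - ak L y := by
  have hLr : (999 : ℝ) ≤ L := by exact_mod_cast hL
  have hL0 : (0 : ℝ) < L := by linarith
  obtain ⟨x, rfl⟩ : ∃ x, y = x + 1 := ⟨y - 1, by omega⟩
  rw [Nat.add_sub_cancel]
  have hx : (52 : ℝ) ≤ x := by exact_mod_cast (by omega : 52 ≤ x)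
  have hx0 : (0 : ℝ) < x := by linarith
  have h1 := cE_succ_eq x
  have h2 := qq_up (x + 1) (by omega)
  have ht := tn_pos (x + 1)
  have ht0 := tn_pos x
  unfold cE at h1
  push_cast at h1 h2
  -- (x+2) t_{x+1} = (x+1) t_x qq(x+1) ≤ (x+1) t_x (2x+4)/(2x+5)
  have h3 : ((x : ℝ) + 1 + 1) * tn (x + 1) ≤ ((x : ℝ) + 1) * tn x * (1 - 1 / (2 * ((x : ℝ) + 1) + 3)) := by
    rw [h1]
    exact mul_le_mul_of_nonneg_left h2 (by positivity)
  have h4 : (1 : ℝ) - 1 / (2 * ((x : ℝ) + 1) + 3) = (2 * x + 4) / (2 * x + 5) := by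
    field_simp
    ring
  rw [h4, mul_div_assoc', le_div_iff₀ (by positivity)] at h3
  have h5 : tn (x + 1) * (2 * x + 5) ≤ tn x * (2 * (x + 1)) := by
    have h6 : ((x : ℝ) + 2) * (tn (x + 1) * (2 * x + 5)) ≤ ((x : ℝ) + 2) * (tn x * (2 * (x + 1))) := by
      nlinarith
    exact le_of_mul_le_mul_left h6 (by positivity)
  have h7 : tn (x + 1) * (1 + 1.5 / ((x : ℝ) + 1)) ≤ tn x := by
    have e : tn (x + 1) * (1 + 1.5 / ((x : ℝ) + 1)) = tn (x + 1) * (2 * x + 5) / (2 * (x + 1)) := by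
      field_simp
      ring
    rw [e, div_le_iff₀ (by positivity)]
    exact h5
  unfold ak
  push_cast
  obtain ⟨t, htd⟩ : ∃ t : ℝ, t = tn (x + 1) := ⟨_, rfl⟩
  rw [← htd] at ht h7 ⊢
  have h8 : ((L : ℝ) + x + 1) * (t * (1 + 1.5 / ((x : ℝ) + 1))) ≤ ((L : ℝ) + x + 1) * tn x :=
    mul_le_mul_of_nonneg_left h7 (by positivity)
  have h9 : ((L : ℝ) + (x + 1) + 1) * t * (1.5 / ((x : ℝ) + 1) - 1.05 / L) ≤
      ((L : ℝ) + x + 1) * (t * (1 + 1.5 / ((x : ℝ) + 1))) - ((L : ℝ) + (x + 1) + 1) * t := by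
    have e : ((L : ℝ) + x + 1) * (t * (1 + 1.5 / ((x : ℝ) + 1))) - ((L : ℝ) + (x + 1) + 1) * t -
        ((L : ℝ) + (x + 1) + 1) * t * (1.5 / ((x : ℝ) + 1) - 1.05 / L) =
        t * (1.05 * (((L : ℝ) + x + 2) / L) - 1 - 1.5 / ((x : ℝ) + 1)) := by
      ring
    have h10 : 0 ≤ 1.05 * (((L : ℝ) + x + 2) / L) - 1 - 1.5 / ((x : ℝ) + 1) := by
      have h11 : (1 : ℝ) ≤ ((L : ℝ) + x + 2) / L := by
        rw [le_div_iff₀ hL0]
        linarith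
      have h12 : 1.5 / ((x : ℝ) + 1) ≤ 0.03 := by
        rw [div_le_iff₀ (by positivity)]
        linarith
      linarith
    have h13 := mul_nonneg ht.le h10
    linarith
  linarith

end Pool.Agent.MP_9da1e3_co.P2
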