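import Pool.Agent.Lib.MP_9da1e3_co.P2d
import Pool.Agent.Lib.MP_9da1e3_co.Ct1

namespace Pool.Agent.MP_9da1e3_co.P2

open Finset

theorem r1_K2 (L m : ℕ) (hL : 999 ≤ L) (h : (0.4 * (L : ℝ)) ^ 2 < ((m : ℝ) + 1) ^ 3) : ak L (m - 1) ≤ 3 := by
  have hLr : (999 : ℝ) ≤ L := by exact_mod_cast hL
  have hm54 : 54 ≤ m := by
    by_contra hc
    push Not at hc
    have h1 : ((m : ℝ) + 1) ≤ 54 := by exact_mod_cast (by omega : m + 1 ≤ 54)
    have h2 : ((m : ℝ) + 1) ^ 3 ≤ 54 ^ 3 := pow_le_pow_left₀ (by positivity) h1 3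
    have h3 : (399.6 : ℝ) ^ 2 ≤ (0.4 * (L : ℝ)) ^ 2 := pow_le_pow_left₀ (by norm_num) (by linarith) 2
    norm_num at h2 h3
    linarith
  obtain ⟨y, rfl⟩ : ∃ y, m = y + 1 := ⟨m - 1, by omega⟩
  rw [Nat.add_sub_cancel]
  have hy : (54 : ℝ) ≤ (y : ℝ) + 1 := by exact_mod_cast hm54
  have h1 := tn_le_cA y
  have hs := sq_pos y
  have hss := sq_sq y
  obtain ⟨s, hsd⟩ : ∃ s : ℝ, s = sq y := ⟨_, rfl⟩
  rw [← hsd] at h1 hs hss
  have hs7 : 7 ≤ s := by nlinarith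
  have hcA := cA_lt
  have ht := tn_pos y
  push_cast at h
  -- L ≤ 2.571 (y+1) s
  have h2 : (L : ℝ) ≤ 2.571 * (((y : ℝ) + 1) * s) := by
    have h3 : (L : ℝ) ^ 2 ≤ (2.571 * (((y : ℝ) + 1) * s)) ^ 2 := by
      have e : (2.571 * (((y : ℝ) + 1) * s)) ^ 2 = 2.571 ^ 2 * (((y : ℝ) + 1) ^ 2 * (s * s)) := by ring
      rw [e, hss]
      have h4 : ((y : ℝ) + 1 + 1) ^ 3 ≤ 1.0567 * ((y : ℝ) + 1) ^ 3 := by
        have h5 : ((y : ℝ) + 1 + 1) ≤ (1 + 1 / 54) * ((y : ℝ) + 1) := by linarith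
        have h6 := pow_le_pow_left₀ (by positivity) h5 3
        rw [mul_pow] at h6
        refine h6.trans ?_
        apply mul_le_mul_of_nonneg_right _ (by positivity)
        norm_num
      have e2 : ((y : ℝ) + 1) ^ 2 * ((y : ℝ) + 1) = ((y : ℝ) + 1) ^ 3 := by ring
      rw [e2]
      have e3 : (0.4 * (L : ℝ)) ^ 2 = 0.16 * (L : ℝ) ^ 2 := by ring
      rw [e3] at h
      have h7 : (0 : ℝ) < ((y : ℝ) + 1) ^ 3 := by positivity
      norm_num at h4 h ⊢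
      linarith
    exact le_of_sq_le_sq h3 (by positivity)
  unfold ak
  have h3 : ((L : ℝ) + y + 1) * tn y ≤ ((L : ℝ) + y + 1) * (cA / (((y : ℝ) + 1) * s)) :=
    mul_le_mul_of_nonneg_left h1 (by positivity)
  refine h3.trans ?_
  rw [mul_div_assoc', div_le_iff₀ (by positivity)]
  have h4 : ((L : ℝ) + y + 1) * cA ≤ ((L : ℝ) + y + 1) * 1.08444 :=
    mul_le_mul_of_nonneg_left hcA.le (by positivity)
  refine h4.trans ?_
  have h5 : ((y : ℝ) + 1) * 7 ≤ ((y : ℝ) + 1) * s := mul_le_mul_of_nonneg_left hs7 (by positivity)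
  nlinarith

end Pool.Agent.MP_9da1e3_co.P2
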