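import Pool.Agent.Lib.MP_9da1e3_co.P2d

namespace Pool.Agent.MP_9da1e3_co.P2

open Finset

lemma r1_k3_cE (k : ℕ) : cE k ≤ cA / sq k := by
  have hs := sq_pos k
  have h := aa_le k
  have h1 : cE k = aa k / sq k := by
    unfold cE aa
    field_simp
  rw [h1]
  exact div_le_div_of_nonneg_right h hs.le

lemma r1_k3_WW (y : ℕ) : E * WW y ≤ 2 * cA * √(y : ℝ) := by
  induction y with
  | zero => simp [WW]
  | succ y ih =>
    have h1 : E * WW (y + 1) = E * WW y + cE y := by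
      unfold WW
      rw [Finset.sum_range_succ, mul_add, E_ww]
      rfl
    have h2 := r1_k3_cE y
    have hs := sq_pos y
    have hc := cA_pos
    have h3 : sq y = √((y + 1 : ℕ) : ℝ) := by unfold sq; push_cast; rfl
    have h4 : (√(y : ℝ)) ^ 2 = y := Real.sq_sqrt (Nat.cast_nonneg y)
    have h5 : sq y ^ 2 = (y : ℝ) + 1 := by
      unfold sq
      exact Real.sq_sqrt (by positivity)
    have h6 : 1 / sq y ≤ 2 * (sq y - √(y : ℝ)) := by
      rw [div_le_iff₀ hs]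
      nlinarith [sq_nonneg (sq y - √(y : ℝ))]
    have h7 : cA / sq y ≤ cA * (2 * (sq y - √(y : ℝ))) := by
      rw [div_eq_mul_one_div]
      exact mul_le_mul_of_nonneg_left h6 hc.le
    rw [h1, ← h3]
    linarith

theorem r1_K3 (L y : ℕ) (hL : 999 ≤ L) (hy : 53 ≤ y) (hy2 : (y : ℝ) ^ 3 ≤ (0.8 * (L : ℝ)) ^ 2) :
    5 / 2 * (1 / (L : ℝ)) * WW y * E ≤ 3.8 * (1.5 / (y : ℝ) - 1.05 / (L : ℝ)) := by
  have hLr : (999 : ℝ) ≤ L := by exact_mod_cast hL
  have hyr : (53 : ℝ) ≤ y := by exact_mod_cast hy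
  have hL0 : (0 : ℝ) < L := by linarith
  have hy0 : (0 : ℝ) < y := by linarith
  have h1 := r1_k3_WW y
  have h2 := cA_lt
  obtain ⟨s, hs⟩ : ∃ s, s = √(y : ℝ) := ⟨_, rfl⟩
  have hs0 : 0 ≤ s := by rw [hs]; exact Real.sqrt_nonneg _
  have hs2 : s ^ 2 = y := by rw [hs]; exact Real.sq_sqrt hy0.le
  rw [← hs] at h1
  have hs7 : 7.28 ≤ s := by
    by_contra h
    push Not at h
    nlinarith
  have hs3 : s ^ 3 ≤ 0.8 * L := by
    have h3 : (s ^ 3) ^ 2 ≤ (0.8 * (L : ℝ)) ^ 2 := by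
      have : (s ^ 3) ^ 2 = (s ^ 2) ^ 3 := by ring
      rw [this, hs2]
      exact hy2
    exact le_of_sq_le_sq h3 (by positivity)
  have h4 : E * WW y ≤ 2.16888 * s := by nlinarith
  have h5 : 7.28 * s ^ 2 ≤ 0.8 * L := by nlinarith [pow_nonneg hs0 2]
  have e1 : 5 / 2 * (1 / (L : ℝ)) * WW y * E = 5 / 2 * (E * WW y) / L := by ring
  have e2 : 3.8 * (1.5 / (y : ℝ) - 1.05 / (L : ℝ)) = (5.7 * L - 3.99 * y) / y / L := by
    field_simp
    ring
  rw [e1, e2]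
  apply div_le_div_of_nonneg_right _ hL0.le
  rw [le_div_iff₀ hy0, ← hs2]
  have h6 : 5 / 2 * (E * WW y) * s ^ 2 ≤ 5 / 2 * (2.16888 * s) * s ^ 2 := by
    apply mul_le_mul_of_nonneg_right _ (by positivity)
    linarith
  nlinarith

end Pool.Agent.MP_9da1e3_co.P2
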