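import Pool.Agent.Lib.MP_9da1e3_co.Wn1

namespace Pool.Agent.MP_9da1e3_co

open Finset

lemma p2v_qq_ge (p : ℕ) (hp : 1 ≤ p) : 1 - 1 / (2 * (p : ℝ)) ≤ qq p := by
  have hE := E_pos
  have hpr : (0 : ℝ) < p := by exact_mod_cast hp
  have hx : (0 : ℝ) ≤ 1 / (p : ℝ) := by positivity
  have h1 := Real.le_log_one_add_of_nonneg hx
  rw [qq_eq p hp]
  have h3 : 1 - 1 / (2 * (p : ℝ)) ≤ (p : ℝ) * Real.log (1 + 1 / p) := by
    have h4 : (p : ℝ) * (2 * (1 / (p : ℝ)) / (1 / p + 2)) ≤ (p : ℝ) * Real.log (1 + 1 / p) :=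
      mul_le_mul_of_nonneg_left h1 hpr.le
    refine le_trans ?_ h4
    have e : (p : ℝ) * (2 * (1 / (p : ℝ)) / (1 / p + 2)) = 2 * p / (2 * p + 1) := by
      field_simp
      ring
    rw [e, le_div_iff₀ (by positivity)]
    have : (1 - 1 / (2 * (p : ℝ))) * (2 * p + 1) = 2 * p - 1 / (2 * p) := by
      field_simp
      ring
    rw [this]
    have : 0 < 1 / (2 * (p : ℝ)) := by positivity
    linarith
  have h5 := Real.add_one_le_exp ((p : ℝ) * Real.log (1 + 1 / (p : ℝ)) - 1)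
  linarith

lemma p2v_tn_diff (L : ℕ) : tn L - tn (L + 1) ≤ 3 / 2 * (tn L / ((L : ℝ) + 1)) := by
  have h1 := cE_succ_eq L
  have h2 := p2v_qq_ge (L + 1) (by omega)
  have ht := tn_pos L
  have hL0 : (0 : ℝ) ≤ L := Nat.cast_nonneg L
  unfold cE at h1
  push_cast at h1 h2
  obtain ⟨x, hx⟩ : ∃ x : ℝ, x = (L : ℝ) + 1 := ⟨_, rfl⟩
  have hx0 : 0 < x := by rw [hx]; positivity
  rw [← hx] at h1 h2 ⊢
  have h3 : x * tn L * (1 - 1 / (2 * x)) ≤ x * tn L * qq (L + 1) :=
    mul_le_mul_of_nonneg_left h2 (by positivity)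
  have h4 : x * tn L * (1 - 1 / (2 * x)) = x * tn L - tn L / 2 := by
    field_simp
  rw [h4, ← h1] at h3
  have h5 : 3 / 2 * (tn L / x) = (3 / 2 * tn L) / x := by ring
  rw [h5, le_div_iff₀ hx0]
  have ht1 := tn_pos (L + 1)
  nlinarith

/-- one step in `L` of the second difference, before the sign change -/
lemma bb_diff_step (L M : ℕ) (hL : 1 ≤ L) (hM : M ≤ L)
    (hg : ∀ i, i < M → gg (L + 2) i ≤ gg (L + 1) i) (hb : ∀ r, r < M → bb (L + 1) r ≤ 0) :
    ∀ m : ℕ, m + 1 ≤ M → bb (L + 1) (m + 1) - bb L (m + 1) ≤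
      5 / 2 * (tn L / ((L : ℝ) * ((L : ℝ) + 1))) * ww m := by
  have hLr : (1 : ℝ) ≤ L := by exact_mod_cast hL
  have hL0 : (0 : ℝ) < L := by linarith
  have hE := E_pos
  have ht := tn_pos L
  have ht1 := tn_pos (L + 1)
  have hd := p2v_tn_diff L
  have hle : tn (L + 1) ≤ tn L := tn_le_of_le (by omega)
  obtain ⟨κ, hκ⟩ : ∃ κ : ℝ, κ = 5 / 2 * (tn L / ((L : ℝ) * ((L : ℝ) + 1))) := ⟨_, rfl⟩
  have hκ0 : 0 < κ := by rw [hκ]; positivity
  rw [← hκ]
  intro m
  induction m using Nat.strong_induction_on with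
  | _ m ih =>
    intro hm
    have r1 := bb_eq L m (by omega)
    have r2 := bb_eq (L + 1) m (by omega)
    have hm0 : (0 : ℝ) ≤ m := Nat.cast_nonneg m
    have htm := tn_pos m
    obtain ⟨B1, hB1⟩ : ∃ x, x = bb (L + 1) (m + 1) := ⟨_, rfl⟩
    obtain ⟨B0, hB0⟩ : ∃ x, x = bb L (m + 1) := ⟨_, rfl⟩
    obtain ⟨S1, hS1⟩ : ∃ x, x = ∑ r ∈ range (m + 1), AA L m r * bb (L + 1) r := ⟨_, rfl⟩
    obtain ⟨S0, hS0⟩ : ∃ x, x = ∑ r ∈ range (m + 1), AA L m r * bb L r := ⟨_, rfl⟩
    obtain ⟨T1, hT1⟩ : ∃ x, x = ∑ r ∈ range (m + 1), tn (m - r) * bb (L + 1) r := ⟨_, rfl⟩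
    obtain ⟨G2, hG2⟩ : ∃ x, x = ∑ i ∈ range m, tn (m - 1 - i) * gg (L + 1 + 1) i := ⟨_, rfl⟩
    obtain ⟨G1, hG1⟩ : ∃ x, x = ∑ i ∈ range m, tn (m - 1 - i) * gg (L + 1) i := ⟨_, rfl⟩
    obtain ⟨R1, hR1⟩ : ∃ x, x = ∑ r ∈ range (m + 1), (r : ℝ) * (tn (m - r) * bb (L + 1) r) :=
      ⟨_, rfl⟩
    have e1 : ∑ r ∈ range (m + 1), AA (L + 1) m r * bb (L + 1) r = S1 + T1 := by
      rw [hS1, hT1, ← Finset.sum_add_distrib]
      apply Finset.sum_congr rfl
      intro r _
      unfold AA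
      push_cast
      ring
    rw [e1, ← hG2, ← hB1] at r2
    rw [← hS0, ← hG1, ← hB0] at r1
    push_cast at r2
    have e2 : ((L : ℝ) + m + 2) * T1 = (S1 + T1) + R1 := by
      rw [← e1, hT1, hR1, Finset.mul_sum, ← Finset.sum_add_distrib]
      apply Finset.sum_congr rfl
      intro r hr
      have hr' : r ≤ m := by have := mem_range.mp hr; omega
      unfold AA
      rw [Nat.cast_sub hr']
      push_cast
      ring
    have hR1' : R1 ≤ 0 := by
      rw [hR1]
      apply Finset.sum_nonpos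
      intro r hr
      have hr' := mem_range.mp hr
      have h1 := hb r (by omega)
      have h2 := tn_pos (m - r)
      have h3 : (0 : ℝ) ≤ r := Nat.cast_nonneg r
      have h4 : tn (m - r) * bb (L + 1) r ≤ 0 := mul_nonpos_of_nonneg_of_nonpos h2.le h1
      exact mul_nonpos_of_nonneg_of_nonpos h3 h4
    have hG : G2 ≤ G1 := by
      rw [hG2, hG1]
      apply Finset.sum_le_sum
      intro i hi
      have hi' := mem_range.mp hi
      exact mul_le_mul_of_nonneg_left (hg i (by omega)) (tn_pos _).le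
    have hG0 : 0 ≤ G2 := by
      rw [hG2]
      exact Finset.sum_nonneg fun i _ => mul_nonneg (tn_pos _).le (gg_nonneg _ _)
    have hX : T1 - E * B1 ≤ tn m * tn L / ((L : ℝ) + 1) := by
      have h1 : ((L : ℝ) + m + 2) * (T1 - E * B1) ≤ tn m * tn L := by
        have h2 : ((L : ℝ) + m + 2) * (T1 - E * B1) =
            R1 - 2 * G2 + tn m * tn (L + 1) := by
          have h3 : ((L : ℝ) + m + 2) * (T1 - E * B1) = ((L : ℝ) + m + 2) * T1 -
              E * (((L : ℝ) + 1 + (m + 1)) * B1) := by ring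
          rw [h3, r2, e2]
          ring
        rw [h2]
        have h4 : tn m * tn (L + 1) ≤ tn m * tn L := mul_le_mul_of_nonneg_left hle htm.le
        linarith
      have h5 : T1 - E * B1 ≤ tn m * tn L / ((L : ℝ) + m + 2) := by
        rw [le_div_iff₀ (by positivity)]
        linarith
      refine h5.trans ?_
      apply div_le_div_of_nonneg_left (by positivity) (by positivity)
      linarith
    have hS : S1 - S0 ≤ κ * (((L : ℝ) + m + 1) * ((m : ℝ) * tn m)) := by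
      have h0 : S1 - S0 = ∑ j ∈ range (m + 1), ((L : ℝ) + j + 1) *
          (tn j * (bb (L + 1) (m - j) - bb L (m - j))) := by
        have h9 := sum_AA L m (fun r => bb (L + 1) r - bb L r)
        beta_reduce at h9
        rw [h9, hS1, hS0, ← Finset.sum_sub_distrib]
        apply Finset.sum_congr rfl
        intro r _
        ring
      rw [h0, Finset.sum_range_succ, Nat.sub_self, bb_zero, bb_zero, sub_zero, mul_zero, mul_zero,
        add_zero, ← sum_tn_ww m, Finset.mul_sum, Finset.mul_sum]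
      apply Finset.sum_le_sum
      intro j hj
      have hj' := mem_range.mp hj
      have htj := tn_pos j
      have hw := ww_pos (m - 1 - j)
      have h2 := ih (m - 1 - j) (by omega) (by omega)
      have e : m - 1 - j + 1 = m - j := by omega
      rw [e] at h2
      have hjr : (j : ℝ) ≤ m := by exact_mod_cast hj'.le
      have hj0 : (0 : ℝ) ≤ j := Nat.cast_nonneg j
      calc ((L : ℝ) + j + 1) * (tn j * (bb (L + 1) (m - j) - bb L (m - j)))
          ≤ ((L : ℝ) + j + 1) * (tn j * (κ * ww (m - 1 - j))) := by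
            apply mul_le_mul_of_nonneg_left _ (by positivity)
            exact mul_le_mul_of_nonneg_left h2 htj.le
        _ ≤ ((L : ℝ) + m + 1) * (tn j * (κ * ww (m - 1 - j))) := by
            apply mul_le_mul_of_nonneg_right (by linarith) (by positivity)
        _ = _ := by ring
    have hsrc : tn m * (tn L - tn (L + 1)) ≤ 3 / 2 * (tn m * tn L / ((L : ℝ) + 1)) := by
      have := mul_le_mul_of_nonneg_left hd htm.le
      refine this.trans (le_of_eq ?_)
      ring
    have hκL : 5 / 2 * (tn m * tn L / ((L : ℝ) + 1)) = κ * ((L : ℝ) * tn m) := by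
      rw [hκ]
      field_simp
    have hmain : E * (((L : ℝ) + m + 1) * (B1 - B0)) ≤
        E * (((L : ℝ) + m + 1) * (κ * ww m)) := by
      have h1 : E * (((L : ℝ) + m + 1) * (B1 - B0)) = (S1 - S0) + (T1 - E * B1) +
          2 * (G2 - G1) + tn m * (tn L - tn (L + 1)) := by
        have h2 : E * (((L : ℝ) + m + 1) * (B1 - B0)) = E * (((L : ℝ) + 1 + (m + 1)) * B1) -
            E * B1 - E * (((L : ℝ) + (m + 1)) * B0) := by ring
        rw [h2, r1, r2]
        ring
      have hEw := E_ww m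
      have h3 : E * (((L : ℝ) + m + 1) * (κ * ww m)) =
          κ * (((L : ℝ) + m + 1) * (((m : ℝ) + 1) * tn m)) := by
        rw [← hEw]
        ring
      rw [h1, h3]
      have h4 : κ * (((L : ℝ) + m + 1) * (((m : ℝ) + 1) * tn m)) =
          κ * (((L : ℝ) + m + 1) * ((m : ℝ) * tn m)) + κ * ((L : ℝ) * tn m) +
          κ * (((m : ℝ) + 1) * tn m) := by ring
      have h5 : 0 ≤ κ * (((m : ℝ) + 1) * tn m) := by positivity
      rw [h4]
      linarith
    have hN : (0 : ℝ) < (L : ℝ) + m + 1 := by positivity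
    rw [← hB1, ← hB0]
    exact le_of_mul_le_mul_left (le_of_mul_le_mul_left hmain hE) hN

theorem bb_diff_le (L M : ℕ) (hL : 1 ≤ L) (hM : M ≤ L)
    (hg : ∀ i, i < M → gg (L + 2) i ≤ gg (L + 1) i) (hb : ∀ r, r < M → bb (L + 1) r ≤ 0) :
    ∀ r, 1 ≤ r → r ≤ M → bb (L + 1) r - bb L r ≤ 5 / 2 * (tn L / (L * (L + 1))) * ww (r - 1) := by
  intro r hr hrM
  obtain ⟨m, rfl⟩ : ∃ m, r = m + 1 := ⟨r - 1, by omega⟩
  have h := bb_diff_step L M hL hM hg hb m hrM
  rw [Nat.add_sub_cancel]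
  exact h

end Pool.Agent.MP_9da1e3_co
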