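import Pool.Agent.Lib.MP_9da1e3_co.KV3
import Pool.Agent.Lib.MP_9da1e3_co.NR2
import Pool.Agent.Lib.MP_9da1e3_co.Ct1

/-! For `999 ≤ L`: `gg (L+1) m ≤ gg L m` for `m ^ 3 ≤ (0.8 L) ^ 2`, and `gg (L+1) m ≤ (1 + 10 / L) gg L m` for
`m ^ 3 ≤ (1.3 L) ^ 2`. -/

namespace Pool.Agent.MP_9da1e3_co

open Finset

lemma gup_U_lt : U < 0.39895 := by
  have h1 := cA_lt
  have h2 : 2.7182818283 < E := Real.exp_one_gt_d9
  have h3 := U_pos
  unfold cA at h1
  by_contra hc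
  push Not at hc
  nlinarith

lemma gup_ww_le (k : ℕ) : ww k ≤ U / sq k := by
  have h := E_ww k
  have h1 := aa_le k
  have hs := sq_pos k
  have hE := E_pos
  have h2 : E * (ww k * sq k) ≤ E * U := by
    have : E * (ww k * sq k) = aa k := by
      unfold aa
      rw [← mul_assoc, h]
    rw [this]
    unfold cA at h1
    linarith
  have h3 : ww k * sq k ≤ U := le_of_mul_le_mul_left h2 hE
  rw [le_div_iff₀ hs]
  exact h3

lemma gup_sqrt_step (x : ℝ) (hx : 0 ≤ x) : 1 / √(x + 1) ≤ 2 * (√(x + 1) - √x) := by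
  have h1 : 0 < √(x + 1) := Real.sqrt_pos.mpr (by linarith)
  have h0 : 0 ≤ √x := Real.sqrt_nonneg x
  have h2 : √(x + 1) ^ 2 = x + 1 := Real.sq_sqrt (by linarith)
  have h3 : √x ^ 2 = x := Real.sq_sqrt hx
  rw [div_le_iff₀ h1]
  nlinarith [sq_nonneg (√(x + 1) - √x)]

lemma gup_WW_le (k : ℕ) : WW (k + 1) ≤ U * (2 * √((k : ℝ) + 1) - 1) := by
  induction k with
  | zero =>
    have h : WW (0 + 1) = ww 0 := by
      unfold WW
      simp
    rw [h]
    have h1 := gup_ww_le 0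
    have h2 : sq 0 = 1 := by
      unfold sq
      simp
    rw [h2, div_one] at h1
    have h3 : √(((0 : ℕ) : ℝ) + 1) = 1 := by simp
    rw [h3]
    linarith
  | succ k ih =>
    have h : WW (k + 1 + 1) = WW (k + 1) + ww (k + 1) := by
      unfold WW
      rw [Finset.sum_range_succ]
    rw [h]
    have h1 := gup_ww_le (k + 1)
    have h2 := gup_sqrt_step ((k : ℝ) + 1) (by positivity)
    have hU := U_pos
    have h3 : U / sq (k + 1) = U * (1 / √((k : ℝ) + 1 + 1)) := by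
      unfold sq
      push_cast
      ring
    rw [h3] at h1
    have h4 := mul_le_mul_of_nonneg_left h2 hU.le
    push_cast
    nlinarith

lemma gup_pow_step (x : ℝ) (hx : 0 ≤ x) :
    2 * √x ≤ 4 / 3 * ((x + 1) * √(x + 1)) - 4 / 3 * (x * √x) := by
  have h1 : 0 < √(x + 1) := Real.sqrt_pos.mpr (by linarith)
  have h0 : 0 ≤ √x := Real.sqrt_nonneg x
  have h2 : √(x + 1) ^ 2 = x + 1 := Real.sq_sqrt (by linarith)
  have h3 : √x ^ 2 = x := Real.sq_sqrt hx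
  have h4 : √x ≤ √(x + 1) := Real.sqrt_le_sqrt (by linarith)
  obtain ⟨a, ha⟩ : ∃ a, a = √x := ⟨_, rfl⟩
  obtain ⟨b, hb⟩ : ∃ b, b = √(x + 1) := ⟨_, rfl⟩
  rw [← ha] at h0 h3 h4 ⊢
  rw [← hb] at h1 h2 h4 ⊢
  -- b^2 = a^2 + 1
  have h5 : b ^ 2 = a ^ 2 + 1 := by rw [h2, h3]
  have e1 : (x + 1) * b = b ^ 3 := by rw [← h2]; ring
  have e2 : x * a = a ^ 3 := by rw [← h3]; ring
  rw [e1, e2]
  -- b^3 - a^3 = (b-a)(b^2+ab+a^2), (b-a)(b+a) = 1
  have h6 : (b - a) * (b + a) = 1 := by nlinarith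
  have h7 : 0 ≤ b - a := by linarith
  -- 3/2 a ≤ b^3 - a^3
  have h8 : b ^ 3 - a ^ 3 - 3 / 2 * a = (b - a) * ((b ^ 2 + a * b + a ^ 2) - 3 / 2 * a * (b + a)) := by
    have : 3 / 2 * a = 3 / 2 * a * ((b - a) * (b + a)) := by rw [h6]; ring
    nlinarith
  have h9 : 0 ≤ (b ^ 2 + a * b + a ^ 2) - 3 / 2 * a * (b + a) := by
    nlinarith [mul_nonneg h0 h7, sq_nonneg (b - a)]
  have h10 : 0 ≤ (b - a) * ((b ^ 2 + a * b + a ^ 2) - 3 / 2 * a * (b + a)) := mul_nonneg h7 h9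
  nlinarith

/-- `Ω z = ∑_{k<z} WW k ≤ U (4/3 z^{3/2} - z)` -/
lemma gup_Om_le (z : ℕ) : ∑ k ∈ range z, WW k ≤ U * (4 / 3 * ((z : ℝ) * √(z : ℝ)) - z) := by
  induction z with
  | zero => simp
  | succ z ih =>
    rw [Finset.sum_range_succ]
    have hU := U_pos
    have h2 := gup_pow_step (z : ℝ) (Nat.cast_nonneg z)
    rcases Nat.eq_zero_or_pos z with rfl | hz
    · simp [WW]
      nlinarith
    · obtain ⟨k, rfl⟩ : ∃ k, z = k + 1 := ⟨z - 1, by omega⟩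
      have h1 := gup_WW_le k
      have h3 := mul_le_mul_of_nonneg_left h2 hU.le
      push_cast at h3 ih ⊢
      nlinarith

lemma gup_dl_succ (L z : ℕ) : dl L (z + 1) = dl (L + 1) z + gg (L + 1) z := by
  unfold dl
  have h := HH_diff L z
  have e : L + 1 + z = L + (z + 1) := by ring
  rw [e]
  linarith

lemma gup_tn_anti (L : ℕ) : tn (L + 1) ≤ tn L := by
  have h := tn_step_le L
  have h1 := tn_pos L
  have h2 : 0 ≤ tn L / ((L : ℝ) + 2) := by positivity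
  linarith

lemma gup_dl_le (z : ℕ) : ∀ L : ℕ, 1 ≤ L → z ≤ L → dl L z ≤ tn L / L * ∑ k ∈ range z, WW k := by
  induction z with
  | zero =>
    intro L _ _
    rw [dl_zero]
    simp
  | succ z ih =>
    intro L hL hz
    rw [gup_dl_succ, Finset.sum_range_succ]
    have h1 := ih (L + 1) (by omega) (by omega)
    have h2 := gg_le_WW_all (L + 1) (by omega) z (by omega)
    have hLr : (0 : ℝ) < L := by exact_mod_cast hL
    have h3 : tn (L + 1) / ((L + 1 : ℕ) : ℝ) ≤ tn L / L := by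
      have ha := gup_tn_anti L
      have hb := tn_pos L
      have hc := tn_pos (L + 1)
      push_cast
      exact div_le_div₀ hb.le ha hLr (by linarith)
    have h4 : 0 ≤ ∑ k ∈ range z, WW k := Finset.sum_nonneg fun k _ => WW_nonneg k
    have h5 := WW_nonneg z
    have h6 := mul_le_mul_of_nonneg_right h3 h4
    have h7 := mul_le_mul_of_nonneg_right h3 h5
    linarith

lemma gup_r52 (ε : ℝ) (h0 : 0 ≤ ε) (h1 : ε ≤ 1) : 1 - 5 / 2 * ε ≤ (1 - ε) ^ 2 * √(1 - ε) := by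
  have h2 : 1 - ε / 2 - ε ^ 2 / 2 ≤ √(1 - ε) := by
    apply Real.le_sqrt_of_sq_le
    nlinarith [mul_nonneg h0 h0, mul_nonneg h0 (mul_nonneg h0 h0), mul_nonneg (mul_nonneg h0 h0)
      (sub_nonneg.mpr h1), mul_nonneg (mul_nonneg h0 (mul_nonneg h0 h0)) (sub_nonneg.mpr h1)]
  have h3 : (1 - ε) ^ 2 * (1 - ε / 2 - ε ^ 2 / 2) ≤ (1 - ε) ^ 2 * √(1 - ε) :=
    mul_le_mul_of_nonneg_left h2 (sq_nonneg _)
  refine le_trans ?_ h3
  nlinarith [mul_nonneg h0 h0, mul_nonneg (mul_nonneg h0 h0) (sub_nonneg.mpr h1),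
    mul_nonneg (mul_nonneg h0 (mul_nonneg h0 h0)) (sub_nonneg.mpr h1), sq_nonneg (ε ^ 2)]

/-- `1 - 2.5 / (L + 2) ≤ thL L` -/
lemma gup_thL_ge' (L : ℕ) : 1 - 2.5 / ((L : ℝ) + 2) ≤ thL L := by
  have hL0 : (0 : ℝ) ≤ L := Nat.cast_nonneg L
  have h := aa_mono (Nat.le_succ L)
  unfold aa at h
  have t0 := tn_pos L
  have t1 := tn_pos (L + 1)
  have s0 := sq_pos L
  have s1 := sq_pos (L + 1)
  obtain ⟨ε, hε⟩ : ∃ ε : ℝ, ε = 1 / ((L : ℝ) + 2) := ⟨_, rfl⟩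
  have he0 : 0 ≤ ε := by rw [hε]; positivity
  have he1 : ε ≤ 1 := by
    rw [hε, div_le_one (by positivity)]
    linarith
  have h1 := gup_r52 ε he0 he1
  have h2 : 1 - ε = ((L : ℝ) + 1) / ((L : ℝ) + 2) := by
    rw [hε]
    field_simp
    ring
  have h3 : √(1 - ε) = sq L / sq (L + 1) := by
    rw [h2, Real.sqrt_div (by positivity)]
    unfold sq
    push_cast
    ring_nf
  have h4 : (1 - ε) * √(1 - ε) ≤ tn (L + 1) / tn L := by
    rw [h3, h2, le_div_iff₀ t0, div_mul_div_comm, div_mul_eq_mul_div, div_le_iff₀ (by positivity)]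
    have e1 : (((L + 1 : ℕ) : ℝ) + 1) = (L : ℝ) + 2 := by push_cast; ring
    have h' : ((L : ℝ) + 1) * tn L * sq L ≤ (((L + 1 : ℕ) : ℝ) + 1) * tn (L + 1) * sq (L + 1) := h
    rw [e1] at h'
    nlinarith
  have h5 : (1 - ε) ^ 2 * √(1 - ε) ≤ thL L := by
    unfold thL
    rw [← h2]
    have h6 : 0 ≤ 1 - ε := by linarith
    calc (1 - ε) ^ 2 * √(1 - ε) = ((1 - ε) * √(1 - ε)) * (1 - ε) := by ring
      _ ≤ tn (L + 1) / tn L * (1 - ε) := mul_le_mul_of_nonneg_right h4 h6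
  have e2 : 1 - 2.5 / ((L : ℝ) + 2) = 1 - 5 / 2 * ε := by
    rw [hε]
    ring
  rw [e2]
  exact h1.trans h5

lemma gup_thL_ge (L : ℕ) (hL : 1 ≤ L) : 1 - 2.5 / (L : ℝ) ≤ thL L := by
  have h := gup_thL_ge' L
  have hLr : (0 : ℝ) < L := by exact_mod_cast hL
  have h2 : 2.5 / ((L : ℝ) + 2) ≤ 2.5 / (L : ℝ) :=
    div_le_div_of_nonneg_left (by norm_num) hLr (by linarith)
  linarith

/-- lower bound for `dl (L+1)` -/
lemma gup_dl_succ_ge (z : ℕ) : ∀ L : ℕ, 1 ≤ L → z ≤ L →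
    (1 - 2.5 / ((L : ℝ) + 1)) * dl L z ≤ dl (L + 1) z := by
  induction z with
  | zero =>
    intro L _ _
    rw [dl_zero, dl_zero, mul_zero]
  | succ z ih =>
    intro L hL hz
    rw [gup_dl_succ L, gup_dl_succ (L + 1)]
    have h1 := ih (L + 1) (by omega) (by omega)
    have h2 := gg_succ_ge (L + 1) z (by omega)
    have h3 := gup_thL_ge (L + 1) (by omega)
    have g0 := gg_nonneg (L + 1) z
    have d0 := dl_nonneg (L + 1) z
    have hLr : (0 : ℝ) < L := by exact_mod_cast hL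
    push_cast at h1 h3
    have h4 : 2.5 / ((L : ℝ) + 1 + 1) ≤ 2.5 / ((L : ℝ) + 1) :=
      div_le_div_of_nonneg_left (by norm_num) (by linarith) (by linarith)
    have h5 : (1 - 2.5 / ((L : ℝ) + 1)) * dl (L + 1) z ≤ dl (L + 1 + 1) z :=
      le_trans (mul_le_mul_of_nonneg_right (by linarith) d0) h1
    have h6 : (1 - 2.5 / ((L : ℝ) + 1)) * gg (L + 1) z ≤ gg (L + 1 + 1) z :=
      le_trans (mul_le_mul_of_nonneg_right h3 g0) h2
    linarith

lemma gup_qq_le (p : ℕ) (hp : 1 ≤ p) : qq p ≤ 1 - 1 / (2 * (p : ℝ) + 3) := by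
  have hp1 : (1 : ℝ) ≤ p := by exact_mod_cast hp
  have hp0 : (0 : ℝ) < p := by linarith
  have hE := E_pos
  unfold qq
  rw [div_le_iff₀ hE]
  have h1 : E = Real.exp (1 / (p : ℝ)) ^ p := by
    rw [← Real.exp_nat_mul, E]
    congr 1
    field_simp
  have h2 : 1 + 1 / (p : ℝ) + (1 / (p : ℝ)) ^ 2 / 2 ≤ Real.exp (1 / (p : ℝ)) :=
    Real.quadratic_le_exp_of_nonneg (by positivity)
  have h3 : 1 + 1 / (p : ℝ) + (1 / (p : ℝ)) ^ 2 / 2 =
      (1 + 1 / (p : ℝ)) * (1 + 1 / (2 * p * (p + 1))) := by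
    field_simp
  have h4 : (1 + 1 / (p : ℝ)) ^ p * (1 + 1 / (2 * ((p : ℝ) + 1))) ≤ E := by
    rw [h1]
    refine le_trans ?_ (pow_le_pow_left₀ (by positivity) h2 p)
    rw [h3, mul_pow]
    apply mul_le_mul_of_nonneg_left _ (by positivity)
    have h5 := one_add_mul_le_pow (show (-2 : ℝ) ≤ 1 / (2 * p * (p + 1)) by
      have : (0 : ℝ) ≤ 1 / (2 * p * (p + 1)) := by positivity
      linarith) p
    refine le_trans (le_of_eq ?_) h5
    field_simp
  have h6 : (1 - 1 / (2 * (p : ℝ) + 3)) * (1 + 1 / (2 * ((p : ℝ) + 1))) = 1 := by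
    field_simp
    ring
  calc (1 + 1 / (p : ℝ)) ^ p = (1 - 1 / (2 * (p : ℝ) + 3)) *
        ((1 + 1 / (p : ℝ)) ^ p * (1 + 1 / (2 * ((p : ℝ) + 1)))) := by
        rw [mul_comm ((1 + 1 / (p : ℝ)) ^ p), ← mul_assoc, h6, one_mul]
    _ ≤ (1 - 1 / (2 * (p : ℝ) + 3)) * E := by
        apply mul_le_mul_of_nonneg_left h4
        rw [sub_nonneg, div_le_one (by positivity)]
        linarith

/-- `tn n - tn (n+1) ≥ 3 tn n / (2 n + 5)` -/
lemma gup_tn_step (n : ℕ) : 3 * tn n / (2 * (n : ℝ) + 5) ≤ tn n - tn (n + 1) := by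
  have h := cE_succ_eq n
  have h1 := gup_qq_le (n + 1) (by omega)
  have hc := cE_pos n
  have hn : (0 : ℝ) ≤ n := Nat.cast_nonneg n
  have t0 := tn_pos n
  have h2 : cE (n + 1) ≤ cE n * (1 - 1 / (2 * ((n + 1 : ℕ) : ℝ) + 3)) := by
    rw [h]
    exact mul_le_mul_of_nonneg_left h1 hc.le
  unfold cE at h2
  push_cast at h2
  have e : (1 : ℝ) - 1 / (2 * ((n : ℝ) + 1) + 3) = (2 * (n : ℝ) + 4) / (2 * (n : ℝ) + 5) := by
    field_simp
    ring
  rw [e] at h2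
  have h3 : ((n : ℝ) + 1 + 1) * tn (n + 1) * (2 * (n : ℝ) + 5) ≤
      ((n : ℝ) + 1) * tn n * (2 * (n : ℝ) + 4) := by
    have h4 := mul_le_mul_of_nonneg_right h2 (by positivity : (0 : ℝ) ≤ 2 * (n : ℝ) + 5)
    have e2 : ((n : ℝ) + 1) * tn n * ((2 * (n : ℝ) + 4) / (2 * (n : ℝ) + 5)) * (2 * (n : ℝ) + 5) =
        ((n : ℝ) + 1) * tn n * (2 * (n : ℝ) + 4) := by
      field_simp
    rw [e2] at h4
    exact h4
  rw [div_le_iff₀ (by positivity)]
  have h5 : ((n : ℝ) + 2) * (tn (n + 1) * (2 * (n : ℝ) + 5)) ≤ ((n : ℝ) + 2) * (2 * ((n : ℝ) + 1) * tn n) := by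
    nlinarith
  have h6 := le_of_mul_le_mul_left h5 (by positivity)
  nlinarith

lemma gup_HH_diff (L z : ℕ) (hL : 1 ≤ L) (hz : z ≤ L) :
    3 * tn (L + z) / (2 * ((L : ℝ) + z) + 5) - 2.5 / ((L : ℝ) + 1) * dl L z ≤
      HH L z - HH (L + 1) z := by
  have h1 := gup_dl_succ_ge z L hL hz
  have h2 := gup_tn_step (L + z)
  push_cast at h2
  have e : L + 1 + z = L + z + 1 := by ring
  unfold dl at h1 ⊢
  rw [e] at h1
  linarith

/-- `tn (L + z) ≥ tn L (L / (L + z))^2` -/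
lemma gup_tn_low (L : ℕ) (hL : 1 ≤ L) (z : ℕ) :
    tn L * (L : ℝ) ^ 2 ≤ tn (L + z) * ((L : ℝ) + z) ^ 2 := by
  have hLr : (0 : ℝ) < L := by exact_mod_cast hL
  induction z with
  | zero => simp
  | succ z ih =>
    refine ih.trans ?_
    have h := tn_succ_ge (L + z)
    have t := tn_pos (L + z)
    have hz : (0 : ℝ) ≤ z := Nat.cast_nonneg z
    have e : L + (z + 1) = L + z + 1 := by ring
    rw [e]
    push_cast at h ⊢
    obtain ⟨n, hn⟩ : ∃ n : ℝ, n = (L : ℝ) + z := ⟨_, rfl⟩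
    rw [← hn] at h ⊢
    have hn0 : 0 < n := by rw [hn]; positivity
    have e1 : (L : ℝ) + (z + 1) = n + 1 := by rw [hn]; ring
    rw [e1]
    have h1 : tn (L + z) * (1 - 2 / (n + 2)) * (n + 1) ^ 2 ≤ tn (L + z + 1) * (n + 1) ^ 2 :=
      mul_le_mul_of_nonneg_right h (by positivity)
    refine le_trans ?_ h1
    have e2 : (1 - 2 / (n + 2)) = n / (n + 2) := by field_simp; ring
    rw [e2, mul_assoc]
    apply mul_le_mul_of_nonneg_left _ t.le
    rw [div_mul_eq_mul_div, le_div_iff₀ (by positivity)]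
    nlinarith [sq_nonneg n]

/-- the step -/
lemma gup_step (L m : ℕ) (C : ℝ) (hC : 0 ≤ C) (hL : 1 ≤ L) (hm : m + 1 ≤ L)
    (ih : ∀ z, z ≤ m → gg (L + 1) z ≤ (1 + C / L) * gg L z)
    (ht : ∀ z, z ≤ m → 0 ≤ (C * ((L : ℝ) + m + 2) / L + 1) * HH L z +
      ((L : ℝ) + m + 1) * (HH L z - HH (L + 1) z) - (1 + C / L) * ((z : ℝ) * gg L z)) :
    gg (L + 1) (m + 1) ≤ (1 + C / L) * gg L (m + 1) := by
  have r0 := gg_rec L m hm
  have r1 := gg_rec (L + 1) m (by omega)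
  have hE := E_pos
  have hLr : (0 : ℝ) < L := by exact_mod_cast hL
  have hm0 : (0 : ℝ) ≤ m := Nat.cast_nonneg m
  obtain ⟨b, hbd⟩ : ∃ b : ℝ, b = (L : ℝ) + (m + 1) := ⟨_, rfl⟩
  have hb : 0 < b := by rw [hbd]; positivity
  obtain ⟨c, hc⟩ : ∃ c : ℝ, c = 1 + C / L := ⟨_, rfl⟩
  rw [← hc] at ih ⊢
  have hc0 : 0 < c := by rw [hc]; positivity
  have e3 : (((L + 1 : ℕ) : ℝ) + (m + 1)) = b + 1 := by rw [hbd]; push_cast; ring
  rw [e3] at r1
  rw [← hbd] at r0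
  unfold SS at r0 r1
  have key : b * (∑ j ∈ range (m + 1), (((L + 1 : ℕ) : ℝ) + j + 1) * (tn j * gg (L + 1) (m - j)) +
      ∑ j ∈ range (m + 1), tn j * HH (L + 1) (m - j)) ≤
      c * (b + 1) * (∑ j ∈ range (m + 1), ((L : ℝ) + j + 1) * (tn j * gg L (m - j)) +
      ∑ j ∈ range (m + 1), tn j * HH L (m - j)) := by
    rw [← Finset.sum_add_distrib, ← Finset.sum_add_distrib, Finset.mul_sum, Finset.mul_sum]
    apply Finset.sum_le_sum
    intro j hj
    have hj' := mem_range.mp hj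
    have i1 := ih (m - j) (by omega)
    have i2 := ht (m - j) (by omega)
    have t := tn_pos j
    have g0 := gg_nonneg L (m - j)
    have hcast : ((m - j : ℕ) : ℝ) = (m : ℝ) - j := by
      rw [Nat.cast_sub (by omega)]
    rw [hcast, ← hc] at i2
    have hj0 : (0 : ℝ) ≤ j := Nat.cast_nonneg j
    have e4 : C * ((L : ℝ) + m + 2) / L + 1 = c * (b + 1) - b := by
      rw [hc, hbd]
      field_simp
      ring
    rw [e4] at i2
    have e5 : (L : ℝ) + m + 1 = b := by rw [hbd]; ring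
    rw [e5] at i2
    have h1 : b * ((((L + 1 : ℕ) : ℝ) + j + 1) * gg (L + 1) (m - j)) ≤
        b * ((((L + 1 : ℕ) : ℝ) + j + 1) * (c * gg L (m - j))) := by
      apply mul_le_mul_of_nonneg_left _ hb.le
      exact mul_le_mul_of_nonneg_left i1 (by positivity)
    have h2 : b * ((((L + 1 : ℕ) : ℝ) + j + 1) * (c * gg L (m - j)) + HH (L + 1) (m - j)) ≤
        c * (b + 1) * (((L : ℝ) + j + 1) * gg L (m - j) + HH L (m - j)) := by
      have e6 : c * (b + 1) * (((L : ℝ) + j + 1) * gg L (m - j) + HH L (m - j)) -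
          b * ((((L + 1 : ℕ) : ℝ) + j + 1) * (c * gg L (m - j)) + HH (L + 1) (m - j)) =
          (c * (b + 1) - b) * HH L (m - j) + b * (HH L (m - j) - HH (L + 1) (m - j)) -
            c * (((m : ℝ) - j) * gg L (m - j)) := by
        rw [hbd]
        push_cast
        ring
      linarith
    have h3 : b * ((((L + 1 : ℕ) : ℝ) + j + 1) * gg (L + 1) (m - j) + HH (L + 1) (m - j)) ≤
        c * (b + 1) * (((L : ℝ) + j + 1) * gg L (m - j) + HH L (m - j)) := by linarith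
    have h4 := mul_le_mul_of_nonneg_left h3 t.le
    calc b * ((((L + 1 : ℕ) : ℝ) + j + 1) * (tn j * gg (L + 1) (m - j)) + tn j * HH (L + 1) (m - j))
        = tn j * (b * ((((L + 1 : ℕ) : ℝ) + j + 1) * gg (L + 1) (m - j) + HH (L + 1) (m - j))) := by ring
      _ ≤ _ := h4
      _ = _ := by ring
  rw [← r0, ← r1] at key
  have h5 : (E * b * (b + 1)) * gg (L + 1) (m + 1) ≤ (E * b * (b + 1)) * (c * gg L (m + 1)) := by
    calc _ = b * (E * ((b + 1) * gg (L + 1) (m + 1))) := by ring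
      _ ≤ _ := key
      _ = _ := by ring
  exact le_of_mul_le_mul_left h5 (by positivity)

/-- size of `x = z / L` and `y = z √z / L` -/
lemma gup_xy (L z : ℕ) (q X : ℝ) (hq : 0 ≤ q) (hX : 0 ≤ X) (hL : 999 ≤ L)
    (hz : (z : ℝ) ^ 3 ≤ (q * L) ^ 2) (hqX : q ^ 2 ≤ 999 * X ^ 3) :
    (z : ℝ) / L ≤ X ∧ (z : ℝ) * √(z : ℝ) / L ≤ q := by
  have hLr : (999 : ℝ) ≤ L := by exact_mod_cast hL
  have hL0 : (0 : ℝ) < L := by linarith
  have hz0 : (0 : ℝ) ≤ z := Nat.cast_nonneg z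
  constructor
  · rw [div_le_iff₀ hL0]
    by_contra hc
    push Not at hc
    have h1 : (X * L) ^ 3 < (z : ℝ) ^ 3 := pow_lt_pow_left₀ hc (by positivity) (by norm_num)
    have h2 : (q * (L : ℝ)) ^ 2 ≤ (X * L) ^ 3 := by
      calc (q * (L : ℝ)) ^ 2 = q ^ 2 * (L : ℝ) ^ 2 := by ring
        _ ≤ (999 * X ^ 3) * (L : ℝ) ^ 2 := mul_le_mul_of_nonneg_right hqX (by positivity)
        _ = 999 * (X ^ 3 * (L : ℝ) ^ 2) := by ring
        _ ≤ L * (X ^ 3 * (L : ℝ) ^ 2) := mul_le_mul_of_nonneg_right hLr (by positivity)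
        _ = (X * L) ^ 3 := by ring
    linarith
  · rw [div_le_iff₀ hL0]
    have h3 : ((z : ℝ) * √(z : ℝ)) ^ 2 ≤ (q * L) ^ 2 := by
      rw [mul_pow, Real.sq_sqrt hz0]
      calc (z : ℝ) ^ 2 * z = (z : ℝ) ^ 3 := by ring
        _ ≤ _ := hz
    exact (pow_le_pow_iff_left₀ (by positivity) (by positivity) two_ne_zero).mp h3

/-- bounds of `dl` and `z gg` in the variables `x, y` -/
lemma gup_dl_xy (L z : ℕ) (hL : 1 ≤ L) (hz : z ≤ L) :
    dl L z ≤ tn L * (0.39895 * (4 / 3 * ((z : ℝ) * √(z : ℝ) / L) - (z : ℝ) / L)) ∧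
    (z : ℝ) * gg L z ≤ tn L * (0.39895 * (2 * ((z : ℝ) * √(z : ℝ) / L) - (z : ℝ) / L)) := by
  have hL0 : (0 : ℝ) < L := by exact_mod_cast hL
  have hU := gup_U_lt
  have hU0 := U_pos
  have t := tn_pos L
  have hz0 : (0 : ℝ) ≤ z := Nat.cast_nonneg z
  have hsz : (z : ℝ) ≤ (z : ℝ) * √(z : ℝ) := by
    rcases Nat.eq_zero_or_pos z with rfl | hzp
    · simp
    · have : (1 : ℝ) ≤ √(z : ℝ) := by
        rw [Real.one_le_sqrt]
        exact_mod_cast hzp
      nlinarith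
  constructor
  · have h1 := gup_dl_le z L hL hz
    have h2 := gup_Om_le z
    have h3 : 0 ≤ 4 / 3 * ((z : ℝ) * √(z : ℝ)) - z := by nlinarith
    have h4 : ∑ k ∈ range z, WW k ≤ 0.39895 * (4 / 3 * ((z : ℝ) * √(z : ℝ)) - z) :=
      h2.trans (mul_le_mul_of_nonneg_right hU.le h3)
    have h5 : 0 ≤ tn L / L := by positivity
    refine h1.trans ((mul_le_mul_of_nonneg_left h4 h5).trans (le_of_eq ?_))
    field_simp
  · have h1 := gg_le_WW_all L hL z hz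
    have h4 : (z : ℝ) * WW z ≤ 0.39895 * (2 * ((z : ℝ) * √(z : ℝ)) - z) := by
      rcases Nat.eq_zero_or_pos z with rfl | hzp
      · simp [WW]
      · obtain ⟨k, rfl⟩ : ∃ k, z = k + 1 := ⟨z - 1, by omega⟩
        have h2 := gup_WW_le k
        have e : ((k + 1 : ℕ) : ℝ) = (k : ℝ) + 1 := by push_cast; ring
        rw [e] at hsz ⊢
        have h3 : 0 ≤ 2 * √((k : ℝ) + 1) - 1 := by
          have : (1 : ℝ) ≤ √((k : ℝ) + 1) := by
            rw [Real.one_le_sqrt]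
            have : (0 : ℝ) ≤ k := Nat.cast_nonneg k
            linarith
          linarith
        have h5 : WW (k + 1) ≤ 0.39895 * (2 * √((k : ℝ) + 1) - 1) :=
          h2.trans (mul_le_mul_of_nonneg_right hU.le h3)
        have h6 := mul_le_mul_of_nonneg_left h5 (by positivity : (0 : ℝ) ≤ (k : ℝ) + 1)
        refine h6.trans (le_of_eq ?_)
        ring
    have h5 : 0 ≤ tn L / L := by positivity
    calc (z : ℝ) * gg L z ≤ z * (tn L / L * WW z) := mul_le_mul_of_nonneg_left h1 hz0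
      _ = tn L / L * (z * WW z) := by ring
      _ ≤ tn L / L * (0.39895 * (2 * ((z : ℝ) * √(z : ℝ)) - z)) := mul_le_mul_of_nonneg_left h4 h5
      _ = _ := by field_simp

/-- real inequality, `C = 0` -/
lemma gup_fin0 {L m z x y τ T δ G : ℝ} (hL : 999 ≤ L) (hx : x = z / L) (hz0 : 0 ≤ z) (hzm : z ≤ m)
    (hx1 : x ≤ 0.0863) (hy1 : y ≤ 0.8) (hτ : 0 < τ) (hT : τ ≤ T * (1 + x) ^ 2)
    (hδ0 : 0 ≤ δ) (hδT : δ ≤ T)
    (hδ : δ ≤ τ * (0.39895 * (4 / 3 * y - x))) (hG : G ≤ τ * (0.39895 * (2 * y - x))) :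
    0 ≤ (T - δ) + (L + m + 1) * (3 * T / (2 * (L + z) + 5) - 2.5 / (L + 1) * δ) - G := by
  have hL0 : 0 < L := by linarith
  have hx0 : 0 ≤ x := by rw [hx]; positivity
  have hzx : z = x * L := by rw [hx]; field_simp
  have hT0 : 0 ≤ T := by linarith
  have a1 : 4 / 3 * y - x ≤ 16 / 15 - x := by linarith
  have a2 : 2 * y - x ≤ 1.6 - x := by linarith
  have d1 : δ ≤ τ * (0.39895 * (16 / 15 - x)) :=
    hδ.trans (mul_le_mul_of_nonneg_left (by linarith) hτ.le)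
  have d2 : G ≤ τ * (0.39895 * (1.6 - x)) := hG.trans (mul_le_mul_of_nonneg_left (by linarith) hτ.le)
  -- the slope in `m`
  have s1 : 2.5 / (L + 1) * δ ≤ 3 * T / (2 * (L + z) + 5) := by
    rw [div_mul_eq_mul_div, div_le_div_iff₀ (by linarith) (by linarith)]
    have b1 : 2 * (L + z) + 5 ≤ 2.005 * (1 + x) * (L + 1) := by
      rw [hzx]
      nlinarith
    have b2 : 2.5 * δ * (2 * (L + z) + 5) ≤ 2.5 * δ * (2.005 * (1 + x) * (L + 1)) :=
      mul_le_mul_of_nonneg_left b1 (by positivity)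
    have b3 : 2.5 * δ * (2.005 * (1 + x)) ≤ 3 * T := by
      have c1 : 2.5 * δ ≤ 1.0639 * τ := by nlinarith
      have c2 : 1.0639 * τ ≤ 1.0639 * (T * (1 + x) ^ 2) := by linarith
      have c3 : 2.5 * δ ≤ 1.0639 * (1 + x) ^ 2 * T := by linarith
      have c4 : 2.5 * δ * (2.005 * (1 + x)) ≤ 1.0639 * (1 + x) ^ 2 * T * (2.005 * (1 + x)) :=
        mul_le_mul_of_nonneg_right c3 (by positivity)
      have c5 : 1.0639 * (1 + x) ^ 2 * (2.005 * (1 + x)) ≤ 3 := by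
        have : (1 + x) ^ 3 ≤ 1.0863 ^ 3 := by gcongr; linarith
        nlinarith
      have c6 := mul_le_mul_of_nonneg_right c5 hT0
      linarith
    calc 2.5 * δ * (2 * (L + z) + 5) ≤ 2.5 * δ * (2.005 * (1 + x) * (L + 1)) := b2
      _ = (2.5 * δ * (2.005 * (1 + x))) * (L + 1) := by ring
      _ ≤ 3 * T * (L + 1) := mul_le_mul_of_nonneg_right b3 (by linarith)
  have s2 : (L + z + 1) * (3 * T / (2 * (L + z) + 5) - 2.5 / (L + 1) * δ) ≤
      (L + m + 1) * (3 * T / (2 * (L + z) + 5) - 2.5 / (L + 1) * δ) :=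
    mul_le_mul_of_nonneg_right (by linarith) (by linarith)
  have s3 : 1.4977 * T ≤ (L + z + 1) * (3 * T / (2 * (L + z) + 5)) := by
    rw [← mul_div_assoc, le_div_iff₀ (by linarith)]
    nlinarith
  have s4 : (L + z + 1) * (2.5 / (L + 1) * δ) ≤ 2.5 * (1 + x) * δ := by
    have : (L + z + 1) * (2.5 / (L + 1)) ≤ 2.5 * (1 + x) := by
      rw [← mul_div_assoc, div_le_iff₀ (by linarith), hzx]
      nlinarith
    nlinarith
  have s5 : 0 ≤ 2.4977 * T - (3.5 + 2.5 * x) * δ - G := by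
    have c1 : (3.5 + 2.5 * x) * δ + G ≤
        τ * (0.39895 * ((3.5 + 2.5 * x) * (16 / 15 - x) + (1.6 - x))) := by
      have := mul_le_mul_of_nonneg_left d1 (by positivity : (0 : ℝ) ≤ 3.5 + 2.5 * x)
      nlinarith
    have c2 : 0.39895 * ((3.5 + 2.5 * x) * (16 / 15 - x) + (1.6 - x)) * (1 + x) ^ 2 ≤ 2.4977 := by
      have f1 : (3.5 + 2.5 * x) * (16 / 15 - x) + (1.6 - x) ≤ 16 / 3 - 11 / 6 * x := by nlinarith
      have f2 : ((3.5 + 2.5 * x) * (16 / 15 - x) + (1.6 - x)) * (1 + x) ^ 2 ≤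
          (16 / 3 - 11 / 6 * x) * (1 + x) ^ 2 := mul_le_mul_of_nonneg_right f1 (by positivity)
      have f3 : (16 / 3 - 11 / 6 * x) * (1 + x) ^ 2 ≤ 6.11 := by
        have g1 : (16 / 3 - 11 / 6 * x) * (1 + x) ^ 2 =
            16 / 3 + 53 / 6 * x + 5 / 3 * x ^ 2 - 11 / 6 * x ^ 3 := by ring
        rw [g1]
        have g2 : x ^ 2 ≤ 0.0863 * x := by nlinarith
        have g3 : 0 ≤ x ^ 3 := by positivity
        nlinarith
      nlinarith
    have c3 : τ * (0.39895 * ((3.5 + 2.5 * x) * (16 / 15 - x) + (1.6 - x))) ≤ 2.4977 * T := by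
      have p0 : 0 ≤ 0.39895 * ((3.5 + 2.5 * x) * (16 / 15 - x) + (1.6 - x)) := by
        have : 0 ≤ (16 / 15 - x) := by linarith
        have : 0 ≤ 1.6 - x := by linarith
        positivity
      have h1 := mul_le_mul_of_nonneg_right hT p0
      have h2 := mul_le_mul_of_nonneg_left c2 hT0
      nlinarith
    linarith
  have e1 : (L + z + 1) * (3 * T / (2 * (L + z) + 5) - 2.5 / (L + 1) * δ) =
      (L + z + 1) * (3 * T / (2 * (L + z) + 5)) - (L + z + 1) * (2.5 / (L + 1) * δ) := by ring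
  rw [e1] at s2
  nlinarith

/-- real inequality, `C = 10` -/
lemma gup_fin1 {L m z x y τ T δ G : ℝ} (hL : 999 ≤ L) (hx : x = z / L) (hz0 : 0 ≤ z) (hzm : z ≤ m)
    (hx1 : x ≤ 0.1192) (hy1 : y ≤ 1.3) (hτ : 0 < τ) (hT : τ ≤ T * (1 + x) ^ 2)
    (hδ0 : 0 ≤ δ) (hδT : δ ≤ T) (hG0 : 0 ≤ G)
    (hδ : δ ≤ τ * (0.39895 * (4 / 3 * y - x))) (hG : G ≤ τ * (0.39895 * (2 * y - x))) :
    0 ≤ (10 * (L + m + 2) / L + 1) * (T - δ) +
      (L + m + 1) * (3 * T / (2 * (L + z) + 5) - 2.5 / (L + 1) * δ) - (1 + 10 / L) * G := by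
  have hL0 : 0 < L := by linarith
  have hx0 : 0 ≤ x := by rw [hx]; positivity
  have hzx : z = x * L := by rw [hx]; field_simp
  have hT0 : 0 ≤ T := by linarith
  have d1 : δ ≤ τ * (0.39895 * (5.2 / 3 - x)) :=
    hδ.trans (mul_le_mul_of_nonneg_left (by linarith) hτ.le)
  have d2 : G ≤ τ * (0.39895 * (2.6 - x)) := hG.trans (mul_le_mul_of_nonneg_left (by linarith) hτ.le)
  -- slope in `m`
  obtain ⟨S, hS⟩ : ∃ S, S = 3 * T / (2 * (L + z) + 5) - 2.5 / (L + 1) * δ := ⟨_, rfl⟩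
  have s0 : 1.496 / (1 + x) * T ≤ L * (3 * T / (2 * (L + z) + 5)) := by
    have hx1' : 0 < 1 + x := by linarith
    rw [div_mul_eq_mul_div, ← mul_div_assoc, div_le_div_iff₀ hx1' (by linarith), hzx]
    nlinarith [mul_nonneg hT0 hL0.le, mul_nonneg hT0 hx0]
  have s0' : L * (2.5 / (L + 1) * δ) ≤ 2.5 * δ := by
    have : L * (2.5 / (L + 1)) ≤ 2.5 := by
      rw [← mul_div_assoc, div_le_iff₀ (by linarith)]
      nlinarith
    nlinarith
  have s0'' : 0 ≤ 10 * (T - δ) + 1.3 * T - 2.5 * δ := by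
    have c1 : 12.5 * δ ≤ τ * (8.6445 - 4.986 * x) := by nlinarith
    have c2 : τ * (8.6445 - 4.986 * x) ≤ T * (1 + x) ^ 2 * (8.6445 - 4.986 * x) :=
      mul_le_mul_of_nonneg_right hT (by linarith)
    have c3 : (1 + x) ^ 2 * (8.6445 - 4.986 * x) ≤ 11.3 := by
      have g1 : (1 + x) ^ 2 * (8.6445 - 4.986 * x) =
          8.6445 + 12.303 * x - 1.3275 * x ^ 2 - 4.986 * x ^ 3 := by ring
      rw [g1]
      have g2 : 0 ≤ x ^ 2 := by positivity
      have g3 : 0 ≤ x ^ 3 := by positivity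
      nlinarith
    have c4 := mul_le_mul_of_nonneg_left c3 hT0
    nlinarith
  have s1 : 0 ≤ 10 * (T - δ) + L * S := by
    have h1 : 1.3 * T ≤ 1.496 / (1 + x) * T := by
      apply mul_le_mul_of_nonneg_right _ hT0
      rw [le_div_iff₀ (by linarith)]
      nlinarith
    have e : L * S = L * (3 * T / (2 * (L + z) + 5)) - L * (2.5 / (L + 1) * δ) := by rw [hS]; ring
    rw [e]
    linarith
  have s2 : (10 * (L + z + 2) / L + 1) * (T - δ) + (L + z + 1) * S ≤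
      (10 * (L + m + 2) / L + 1) * (T - δ) + (L + m + 1) * S := by
    have e : (10 * (L + m + 2) / L + 1) * (T - δ) + (L + m + 1) * S -
        ((10 * (L + z + 2) / L + 1) * (T - δ) + (L + z + 1) * S) =
        (m - z) * ((10 * (T - δ) + L * S) / L) := by
      field_simp
      ring
    have h := mul_nonneg (by linarith : 0 ≤ m - z) (div_nonneg s1 hL0.le)
    linarith
  have s3 : 1.4977 * T ≤ (L + z + 1) * (3 * T / (2 * (L + z) + 5)) := by
    rw [← mul_div_assoc, le_div_iff₀ (by linarith)]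
    nlinarith
  have s4 : (L + z + 1) * (2.5 / (L + 1) * δ) ≤ 2.5 * (1 + x) * δ := by
    have : (L + z + 1) * (2.5 / (L + 1)) ≤ 2.5 * (1 + x) := by
      rw [← mul_div_assoc, div_le_iff₀ (by linarith), hzx]
      nlinarith
    nlinarith
  have s5 : (10 * (1 + x) + 1) * (T - δ) ≤ (10 * (L + z + 2) / L + 1) * (T - δ) := by
    apply mul_le_mul_of_nonneg_right _ (by linarith)
    have : 10 * (1 + x) ≤ 10 * (L + z + 2) / L := by
      rw [le_div_iff₀ hL0, hzx]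
      nlinarith
    linarith
  have s6 : (1 + 10 / L) * G ≤ 1.011 * G := by
    apply mul_le_mul_of_nonneg_right _ hG0
    have : 10 / L ≤ 0.011 := by
      rw [div_le_iff₀ hL0]
      linarith
    linarith
  have s7 : 0 ≤ (12.4977 + 10 * x) * T - (13.5 + 12.5 * x) * δ - 1.011 * G := by
    have c1 : (13.5 + 12.5 * x) * δ + 1.011 * G ≤
        τ * (0.39895 * ((13.5 + 12.5 * x) * (5.2 / 3 - x) + 1.011 * (2.6 - x))) := by
      have := mul_le_mul_of_nonneg_left d1 (by positivity : (0 : ℝ) ≤ 13.5 + 12.5 * x)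
      nlinarith
    have f0 : (13.5 + 12.5 * x) * (5.2 / 3 - x) + 1.011 * (2.6 - x) ≤ 26.03 + 7.157 * x := by
      nlinarith
    have c2 : τ * (0.39895 * ((13.5 + 12.5 * x) * (5.2 / 3 - x) + 1.011 * (2.6 - x))) ≤
        τ * (0.39895 * (26.03 + 7.157 * x)) :=
      mul_le_mul_of_nonneg_left (by linarith) hτ.le
    have c3 : τ * (0.39895 * (26.03 + 7.157 * x)) ≤
        T * (1 + x) ^ 2 * (0.39895 * (26.03 + 7.157 * x)) :=
      mul_le_mul_of_nonneg_right hT (by positivity)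
    have c4 : (1 + x) ^ 2 * (0.39895 * (26.03 + 7.157 * x)) ≤ 12.4977 + 10 * x := by
      have g1 : (1 + x) ^ 2 * (26.03 + 7.157 * x) =
          26.03 + 59.217 * x + 40.344 * x ^ 2 + 7.157 * x ^ 3 := by ring
      have g2 : x ^ 2 ≤ 0.1192 * x := by nlinarith
      have g3 : x ^ 3 ≤ 0.1192 * (0.1192 * x) := by nlinarith
      nlinarith
    have c5 := mul_le_mul_of_nonneg_left c4 hT0
    nlinarith
  have e1 : (L + z + 1) * S =
      (L + z + 1) * (3 * T / (2 * (L + z) + 5)) - (L + z + 1) * (2.5 / (L + 1) * δ) := by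
    rw [hS]; ring
  rw [← hS]
  nlinarith

lemma gup_term0 (L m z : ℕ) (hL : 999 ≤ L) (hzm : z ≤ m) (hm : (z : ℝ) ^ 3 ≤ (0.8 * L) ^ 2) :
    0 ≤ (0 * ((L : ℝ) + m + 2) / L + 1) * HH L z +
      ((L : ℝ) + m + 1) * (HH L z - HH (L + 1) z) - (1 + 0 / L) * ((z : ℝ) * gg L z) := by
  have hLr : (999 : ℝ) ≤ L := by exact_mod_cast hL
  have hL0 : (0 : ℝ) < L := by linarith
  obtain ⟨hx1, hy1⟩ := gup_xy L z 0.8 0.0863 (by norm_num) (by norm_num) hL hm (by norm_num)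
  have hzL : z ≤ L := by
    have h : (z : ℝ) ≤ 0.0863 * L := by rwa [div_le_iff₀ hL0] at hx1
    have : (z : ℝ) ≤ L := by linarith
    exact_mod_cast this
  obtain ⟨hδ, hG⟩ := gup_dl_xy L z (by omega) hzL
  have hd := gup_HH_diff L z (by omega) hzL
  have hT := gup_tn_low L (by omega) z
  have hT' : tn L ≤ tn (L + z) * (1 + (z : ℝ) / L) ^ 2 := by
    have e : (1 + (z : ℝ) / L) ^ 2 = ((L : ℝ) + z) ^ 2 / (L : ℝ) ^ 2 := by
      field_simp
    rw [e, ← mul_div_assoc, le_div_iff₀ (by positivity)]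
    exact hT
  have hmain := gup_fin0 (L := (L : ℝ)) (m := (m : ℝ)) (z := (z : ℝ)) hLr rfl (Nat.cast_nonneg z)
    (by exact_mod_cast hzm) hx1 hy1 (tn_pos L) hT' (dl_nonneg L z) (dl_le L z) hδ hG
  have hH : HH L z = tn (L + z) - dl L z := by unfold dl; ring
  have h1 := mul_le_mul_of_nonneg_left hd (by positivity : (0 : ℝ) ≤ (L : ℝ) + m + 1)
  have e2 : (0 * ((L : ℝ) + m + 2) / L + 1) = 1 := by simp
  have e3 : (1 + 0 / (L : ℝ)) = 1 := by simp
  rw [e2, e3, hH]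
  rw [hH] at h1
  linarith

lemma gup_term1 (L m z : ℕ) (hL : 999 ≤ L) (hzm : z ≤ m) (hm : (z : ℝ) ^ 3 ≤ (1.3 * L) ^ 2) :
    0 ≤ (10 * ((L : ℝ) + m + 2) / L + 1) * HH L z +
      ((L : ℝ) + m + 1) * (HH L z - HH (L + 1) z) - (1 + 10 / L) * ((z : ℝ) * gg L z) := by
  have hLr : (999 : ℝ) ≤ L := by exact_mod_cast hL
  have hL0 : (0 : ℝ) < L := by linarith
  obtain ⟨hx1, hy1⟩ := gup_xy L z 1.3 0.1192 (by norm_num) (by norm_num) hL hm (by norm_num)
  have hzL : z ≤ L := by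
    have h : (z : ℝ) ≤ 0.1192 * L := by rwa [div_le_iff₀ hL0] at hx1
    have : (z : ℝ) ≤ L := by linarith
    exact_mod_cast this
  obtain ⟨hδ, hG⟩ := gup_dl_xy L z (by omega) hzL
  have hd := gup_HH_diff L z (by omega) hzL
  have hT := gup_tn_low L (by omega) z
  have hT' : tn L ≤ tn (L + z) * (1 + (z : ℝ) / L) ^ 2 := by
    have e : (1 + (z : ℝ) / L) ^ 2 = ((L : ℝ) + z) ^ 2 / (L : ℝ) ^ 2 := by
      field_simp
    rw [e, ← mul_div_assoc, le_div_iff₀ (by positivity)]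
    exact hT
  have hG0 : 0 ≤ (z : ℝ) * gg L z := mul_nonneg (Nat.cast_nonneg z) (gg_nonneg L z)
  have hmain := gup_fin1 (L := (L : ℝ)) (m := (m : ℝ)) (z := (z : ℝ)) hLr rfl (Nat.cast_nonneg z)
    (by exact_mod_cast hzm) hx1 hy1 (tn_pos L) hT' (dl_nonneg L z) (dl_le L z) hG0 hδ hG
  have hH : HH L z = tn (L + z) - dl L z := by unfold dl; ring
  have h1 := mul_le_mul_of_nonneg_left hd (by positivity : (0 : ℝ) ≤ (L : ℝ) + m + 1)
  rw [hH]
  rw [hH] at h1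
  linarith

lemma gup_le_L (L m : ℕ) (q : ℝ) (hq : 0 ≤ q) (hq1 : q ≤ 1.3) (hL : 999 ≤ L)
    (hm : (m : ℝ) ^ 3 ≤ (q * L) ^ 2) : m ≤ L := by
  have hLr : (999 : ℝ) ≤ L := by exact_mod_cast hL
  have hL0 : (0 : ℝ) < L := by linarith
  have h1 : (q * (L : ℝ)) ^ 2 ≤ (1.3 * L) ^ 2 := by gcongr
  obtain ⟨hx1, -⟩ := gup_xy L m 1.3 0.1192 (by norm_num) (by norm_num) hL (hm.trans h1) (by norm_num)
  have h : (m : ℝ) ≤ 0.1192 * L := by rwa [div_le_iff₀ hL0] at hx1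
  have : (m : ℝ) ≤ L := by linarith
  exact_mod_cast this

/-- P1(c0): `g_{L+1} ≤ g_L` for `m^{3/2} ≤ 0.8 L` -/
theorem gg_succ_le0 (L m : ℕ) (hL : 999 ≤ L) (hm : (m : ℝ) ^ 3 ≤ (0.8 * L) ^ 2) :
    gg (L + 1) m ≤ gg L m := by
  have hcube : ∀ z : ℕ, z ≤ m → (z : ℝ) ^ 3 ≤ (0.8 * L) ^ 2 := fun z hz => by
    refine le_trans ?_ hm
    have : (z : ℝ) ≤ m := by exact_mod_cast hz
    gcongr
  have main : ∀ p : ℕ, p ≤ m → gg (L + 1) p ≤ (1 + 0 / (L : ℝ)) * gg L p := by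
    intro p
    induction p using Nat.strong_induction_on with
    | _ p ih =>
      intro hp
      rcases Nat.eq_zero_or_pos p with rfl | hp0
      · rw [gg_zero, gg_zero, mul_zero]
      · obtain ⟨k, rfl⟩ : ∃ k, p = k + 1 := ⟨p - 1, by omega⟩
        exact gup_step L k 0 le_rfl (by omega)
          (gup_le_L L (k + 1) 0.8 (by norm_num) (by norm_num) hL (hcube _ hp))
          (fun z hz => ih z (by omega) (by omega))
          (fun z hz => gup_term0 L k z hL hz (hcube z (by omega)))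
  have h := main m le_rfl
  simpa using h

/-- P1(c1): `g_{L+1} ≤ (1 + 10/L) g_L` for `m^{3/2} ≤ 1.3 L` -/
theorem gg_succ_le (L m : ℕ) (hL : 999 ≤ L) (hm : (m : ℝ) ^ 3 ≤ (1.3 * L) ^ 2) :
    gg (L + 1) m ≤ (1 + 10 / (L : ℝ)) * gg L m := by
  have hcube : ∀ z : ℕ, z ≤ m → (z : ℝ) ^ 3 ≤ (1.3 * L) ^ 2 := fun z hz => by
    refine le_trans ?_ hm
    have : (z : ℝ) ≤ m := by exact_mod_cast hz
    gcongr
  have main : ∀ p : ℕ, p ≤ m → gg (L + 1) p ≤ (1 + 10 / (L : ℝ)) * gg L p := by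
    intro p
    induction p using Nat.strong_induction_on with
    | _ p ih =>
      intro hp
      rcases Nat.eq_zero_or_pos p with rfl | hp0
      · rw [gg_zero, gg_zero, mul_zero]
      · obtain ⟨k, rfl⟩ : ∃ k, p = k + 1 := ⟨p - 1, by omega⟩
        exact gup_step L k 10 (by norm_num) (by omega)
          (gup_le_L L (k + 1) 1.3 (by norm_num) le_rfl hL (hcube _ hp))
          (fun z hz => ih z (by omega) (by omega))
          (fun z hz => gup_term1 L k z hL hz (hcube z (by omega)))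
  exact main m le_rfl

/-- the form with `16 / L` -/
theorem gg_succ_le16 (L m : ℕ) (hL : 999 ≤ L) (hm : (m : ℝ) ^ 3 ≤ (1.3 * L) ^ 2) :
    gg (L + 1) m ≤ (1 + 16 / (L : ℝ)) * gg L m := by
  have h := gg_succ_le L m hL hm
  have hg := gg_nonneg L m
  have hL0 : (0 : ℝ) < L := by
    have : (999 : ℝ) ≤ L := by exact_mod_cast hL
    linarith
  have h1 : 1 + 10 / (L : ℝ) ≤ 1 + 16 / (L : ℝ) := by gcongr; norm_num
  exact h.trans (mul_le_mul_of_nonneg_right h1 hg)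

end Pool.Agent.MP_9da1e3_co
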