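import Pool.Agent.Lib.MP_9da1e3_co.P2s
import Pool.Agent.Lib.MP_9da1e3_co.P2v
import Pool.Agent.Lib.MP_9da1e3_co.P2k1
import Pool.Agent.Lib.MP_9da1e3_co.P2k2
import Pool.Agent.Lib.MP_9da1e3_co.P2k3
import Pool.Agent.Lib.MP_9da1e3_co.V2_gup

namespace Pool.Agent.MP_9da1e3_co.P2

open Finset

lemma ak_mid (L d : ℕ) : 2 * ak L (d + 1) ≤ ak L d + ak L (d + 2) := by
  have h := ak_logconv L d
  have h0 := ak_pos L d
  have h1 := ak_pos L (d + 1)
  have h2 := ak_pos L (d + 2)
  nlinarith [sq_nonneg (ak L d - ak L (d + 2))]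

lemma ak_diff (L i k : ℕ) : ak L (i + k) - ak L (i + k + 1) ≤ ak L i - ak L (i + 1) := by
  induction k with
  | zero => simp
  | succ k ih =>
    have h := ak_mid L (i + k)
    have e1 : i + (k + 1) = i + k + 1 := by ring
    rw [e1]
    have e2 : i + k + 1 + 1 = i + k + 2 := by ring
    rw [e2]
    linarith

lemma ak_convex (L y : ℕ) (hy : 1 ≤ y) : ∀ j, j ≤ y → (j : ℝ) * (ak L (y - 1) - ak L y) ≤ ak L (y - j) - ak L y := by
  intro j
  induction j with
  | zero => intro _; simp
  | succ j ih =>
    intro hj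
    have h1 := ih (by omega)
    have h2 := ak_diff L (y - (j + 1)) j
    have e1 : y - (j + 1) + j = y - 1 := by omega
    have e2 : y - 1 + 1 = y := by omega
    have e3 : y - (j + 1) + 1 = y - j := by omega
    rw [e1, e2, e3] at h2
    push_cast
    linarith

lemma ak_le_of_le (L : ℕ) {i j : ℕ} (h : i ≤ j) : ak L j ≤ ak L i := by
  have h1 := AA_mono L j (i := 0) (j := j - i) (by omega) (by omega)
  rw [AA_eq_ak, AA_eq_ak] at h1
  have e : j - (j - i) = i := by omega
  rw [e, Nat.sub_zero] at h1
  exact h1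

lemma sum_bb_diff (L m : ℕ) (hL : 1 ≤ L) (hm : m + 1 ≤ L)
    (hg : ∀ i, i < m → gg (L + 2) i ≤ gg (L + 1) i) (hb : ∀ r, r < m → bb (L + 1) r ≤ 0) :
    ∑ j ∈ range (m + 1), (bb (L + 1) j - bb L j) ≤ 5 / 2 * (tn L / (L * ((L : ℝ) + 1))) * WW m := by
  rw [Finset.sum_range_succ', bb_zero, bb_zero, sub_zero, add_zero]
  unfold WW
  rw [Finset.mul_sum]
  apply Finset.sum_le_sum
  intro j hj
  have hj' := mem_range.mp hj
  have h := bb_diff_le L m hL (by omega) hg hb (j + 1) (by omega) (by omega)
  rw [Nat.add_sub_cancel] at h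
  exact h

lemma sum_c (L m : ℕ) : ∑ j ∈ range (m + 1), -c3 L (j + 1) =
    bb L (m + 1) - ∑ j ∈ range (m + 1), (bb (L + 1) j - bb L j) := by
  induction m with
  | zero => simp [c3_succ, bb_zero]
  | succ m ih =>
    rw [Finset.sum_range_succ, ih, Finset.sum_range_succ _ (m + 1), c3_succ]
    ring

theorem r1_weak (L M : ℕ) (hL : 999 ≤ L) (hM : (M : ℝ) ^ 3 ≤ (0.8 * L) ^ 2)
    (hneg : ∀ r, 1 ≤ r → r ≤ M → bb L r < 0) :
    ∀ r, 2 ≤ r → r ≤ M → bb (L + 1) (r - 1) ≤ bb L r := by
  have hLr : (999 : ℝ) ≤ L := by exact_mod_cast hL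
  have hL0 : (0 : ℝ) < L := by linarith
  have hML : 2 * M ≤ L := by
    by_contra hc
    push Not at hc
    have h1 : (L : ℝ) ≤ 2 * M := by exact_mod_cast hc.le
    have h2 : ((L : ℝ)) ^ 3 ≤ (2 * M) ^ 3 := pow_le_pow_left₀ hL0.le h1 3
    have h3 : (2 * (M : ℝ)) ^ 3 = 8 * (M : ℝ) ^ 3 := by ring
    have h4 : (L : ℝ) ^ 3 ≤ 5.12 * (L : ℝ) ^ 2 := by
      rw [h3] at h2
      nlinarith
    have h5 : (0 : ℝ) < (L : ℝ) ^ 2 := by positivity
    have h6 : (L : ℝ) ^ 3 = L * (L : ℝ) ^ 2 := by ring
    rw [h6] at h4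
    have h7 := le_of_mul_le_mul_right h4 h5
    linarith
  intro r
  induction r using Nat.strong_induction_on with
  | _ r ih =>
    intro hr2 hrM
    obtain ⟨m, rfl⟩ : ∃ m, r = m + 1 := ⟨r - 1, by omega⟩
    rw [Nat.add_sub_cancel]
    have hb : ∀ i, i < m → bb (L + 1) i ≤ 0 := by
      intro i hi
      rcases Nat.eq_zero_or_pos i with rfl | hi1
      · rw [bb_zero]
      · have h1 := ih (i + 1) (by omega) (by omega) (by omega)
        rw [Nat.add_sub_cancel] at h1
        exact h1.trans (hneg (i + 1) (by omega) (by omega)).le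
    have hcs := cs_le L (m + 1) (by omega) (by omega) (fun i hi => hb i (by omega))
    have hm1 : 1 ≤ m := by omega
    have goal : c3 L (m + 1) ≤ 0 → bb (L + 1) m ≤ bb L (m + 1) := by
      intro h
      rw [c3_succ] at h
      linarith
    apply goal
    rcases le_or_gt (((m : ℝ) + 1) ^ 3) ((0.4 * (L : ℝ)) ^ 2) with hA | hB
    · have h1 := cs_nonneg L (m - 1) hL (by
        rw [Nat.cast_sub hm1]
        push_cast
        have : ((m : ℝ) - 1 + 2) = m + 1 := by ring
        rw [this]
        exact hA)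
      have e : m - 1 + 2 = m + 1 := by omega
      rw [e] at h1
      have h2 := hcs (m + 1) le_rfl
      linarith
    · -- second regime
      have hm54 : 54 ≤ m := by
        by_contra hc
        push Not at hc
        have h1 : ((m : ℝ) + 1) ≤ 54 := by exact_mod_cast (by omega : m + 1 ≤ 54)
        have h2 : ((m : ℝ) + 1) ^ 3 ≤ 54 ^ 3 := pow_le_pow_left₀ (by positivity) h1 3
        have h3 : (399.6 : ℝ) ^ 2 ≤ (0.4 * (L : ℝ)) ^ 2 := pow_le_pow_left₀ (by norm_num) (by linarith) 2
        norm_num at h2 h3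
        linarith
      have hK2 := r1_K2 L m hL hB
      obtain ⟨y, rfl⟩ : ∃ y, m = y + 1 := ⟨m - 1, by omega⟩
      rw [Nat.add_sub_cancel] at hK2
      have hy : 53 ≤ y := by omega
      have hymc : ((y : ℝ)) ^ 3 ≤ (0.8 * L) ^ 2 := by
        refine le_trans ?_ hM
        apply pow_le_pow_left₀ (by positivity)
        exact_mod_cast (by omega : y ≤ M)
      have hK1 := r1_K1 L y hL hy
      have hK3 := r1_K3 L y hL hy hymc
      have hS := r1_S L hL
      have hA0 := A0_pos L
      have hE := E_pos
      have hay := ak_pos L y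
      obtain ⟨S, hSdef⟩ : ∃ S : ℝ, S = ∑ n ∈ range 53, ((n : ℝ) + 1) * cs L (n + 2) := ⟨_, rfl⟩
      rw [← hSdef] at hS
      obtain ⟨Δ, hΔ⟩ : ∃ Δ : ℝ, Δ = ak L (y - 1) - ak L y := ⟨_, rfl⟩
      have hΔ0 : 0 ≤ Δ := by
        rw [hΔ]
        have := ak_le_of_le L (i := y - 1) (j := y) (by omega)
        linarith
      -- nonnegativity of the earlier terms
      have hCn : ∀ j, 1 ≤ j → j ≤ y → 0 ≤ -c3 L (j + 1) := by
        intro j hj1 hj2
        have h1 := ih (j + 1) (by omega) (by omega) (by omega)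
        rw [Nat.add_sub_cancel] at h1
        rw [c3_succ]
        linarith
      -- (1)
      have h1 : ak L y * ∑ j ∈ range (y + 1), -c3 L (j + 1) + Δ * S ≤
          ∑ r ∈ range (y + 1 + 1), AA L (y + 1) r * -c3 L r := by
        rw [Finset.sum_range_succ' (fun r => AA L (y + 1) r * -c3 L r), c3_zero, neg_zero, mul_zero, add_zero]
        have e1 : ∀ j ∈ range (y + 1), AA L (y + 1) (j + 1) * -c3 L (j + 1) =
            ak L y * -c3 L (j + 1) + (ak L (y - j) - ak L y) * -c3 L (j + 1) := by
          intro j _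
          rw [AA_eq_ak]
          have : y + 1 - (j + 1) = y - j := by omega
          rw [this]
          ring
        rw [Finset.sum_congr rfl e1, Finset.sum_add_distrib, ← Finset.mul_sum]
        have e2 : ∑ j ∈ range (y + 1), Δ * ((j : ℝ) * -c3 L (j + 1)) ≤
            ∑ j ∈ range (y + 1), (ak L (y - j) - ak L y) * -c3 L (j + 1) := by
          apply Finset.sum_le_sum
          intro j hj
          have hj' := mem_range.mp hj
          rcases Nat.eq_zero_or_pos j with rfl | hj1
          · simp
          · have h2 := ak_convex L y (by omega) j (by omega)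
            rw [← hΔ] at h2
            have h3 := hCn j hj1 (by omega)
            calc Δ * ((j : ℝ) * -c3 L (j + 1)) = ((j : ℝ) * Δ) * -c3 L (j + 1) := by ring
              _ ≤ _ := mul_le_mul_of_nonneg_right h2 h3
        have e3 : Δ * S ≤ ∑ j ∈ range (y + 1), Δ * ((j : ℝ) * -c3 L (j + 1)) := by
          rw [← Finset.mul_sum]
          apply mul_le_mul_of_nonneg_left _ hΔ0
          have e4 : S = ∑ j ∈ range 54, (j : ℝ) * cs L (j + 1) := by
            rw [hSdef, Finset.sum_range_succ' (fun j : ℕ => (j : ℝ) * cs L (j + 1))]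
            simp
          rw [e4]
          have e5 : ∑ j ∈ range 54, (j : ℝ) * cs L (j + 1) ≤ ∑ j ∈ range 54, (j : ℝ) * -c3 L (j + 1) := by
            apply Finset.sum_le_sum
            intro j hj
            have hj' := mem_range.mp hj
            exact mul_le_mul_of_nonneg_left (hcs (j + 1) (by omega)) (Nat.cast_nonneg j)
          refine e5.trans ?_
          apply Finset.sum_le_sum_of_subset_of_nonneg
          · intro j hj
            have hj' := mem_range.mp hj
            exact mem_range.mpr (by omega)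
          · intro j hj _
            have hj' := mem_range.mp hj
            rcases Nat.eq_zero_or_pos j with rfl | hj1
            · simp
            · exact mul_nonneg (Nat.cast_nonneg j) (hCn j hj1 (by omega))
        linarith
      rw [sum_c] at h1
      -- (2)
      have hV := sum_bb_diff L y (by omega) (by omega) (fun i hi => gg_succ_le0 (L + 1) i (by omega) (by
        have h2 : ((i : ℝ)) ^ 3 ≤ (y : ℝ) ^ 3 := by
          apply pow_le_pow_left₀ (by positivity)
          exact_mod_cast hi.le
        have h3 : (0.8 * (L : ℝ)) ^ 2 ≤ (0.8 * ((L + 1 : ℕ) : ℝ)) ^ 2 := by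
          apply pow_le_pow_left₀ (by positivity)
          push_cast
          linarith
        linarith)) (fun r hr => hb r (by omega))
      obtain ⟨V, hVdef⟩ : ∃ V : ℝ, V = ∑ j ∈ range (y + 1), (bb (L + 1) j - bb L j) := ⟨_, rfl⟩
      rw [← hVdef] at h1 hV
      -- (3)
      have h3 : 3 * ∑ i ∈ range (y + 1), tn (y + 1 - 1 - i) * bb (L + 1) i ≤ 3 * bb L (y + 1) := by
        rw [Finset.sum_range_succ]
        have e1 : ∑ i ∈ range y, tn (y + 1 - 1 - i) * bb (L + 1) i ≤ 0 := by
          apply Finset.sum_nonpos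
          intro i hi
          have hi' := mem_range.mp hi
          exact mul_nonpos_of_nonneg_of_nonpos (tn_pos _).le (hb i (by omega))
        have e2 : y + 1 - 1 - y = 0 := by omega
        rw [e2, tn_zero, one_mul]
        have h4 := ih (y + 1) (by omega) (by omega) (by omega)
        rw [Nat.add_sub_cancel] at h4
        linarith
      -- (4)
      have h4 := tn_ratio (i := y) (j := L) (by omega)
      have h5 := c3_eq L (y + 1) (by omega) (by omega)
      have h5b : tn (y + 1 - 1) * tn (L + 1) = tn y * tn (L + 1) := by rw [Nat.add_sub_cancel]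
      have h6 : ∑ r ∈ range (y + 1 + 1), AA L (y + 1) r * -c3 L r =
          -∑ r ∈ range (y + 1 + 1), AA L (y + 1) r * c3 L r := by
        rw [← Finset.sum_neg_distrib]
        apply Finset.sum_congr rfl
        intro r _
        ring
      rw [h6] at h1
      have hbm := hneg (y + 1) (by omega) (by omega)
      -- the gain beats V
      have h7 : ak L y * V ≤ Δ * S := by
        have hA0e : A0 L = tn L / (E * ((L : ℝ) + 1)) := rfl
        have h8 : V ≤ (1.5 / y - 1.05 / L) * (3.8 * A0 L) := by
          refine hV.trans ?_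
          have ht := tn_pos L
          have h9 := mul_le_mul_of_nonneg_right hK3 (show 0 ≤ tn L / (E * ((L : ℝ) + 1)) by positivity)
          have e1 : 5 / 2 * (1 / (L : ℝ)) * WW y * E * (tn L / (E * ((L : ℝ) + 1))) =
              5 / 2 * (tn L / (L * ((L : ℝ) + 1))) * WW y := by
            field_simp
          rw [e1] at h9
          refine h9.trans (le_of_eq ?_)
          rw [hA0e]
          ring
        have hδ : 0 ≤ (1.5 / (y : ℝ) - 1.05 / L) := by
          have h9 : 0 ≤ 5 / 2 * (1 / (L : ℝ)) * WW y * E := by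
            have := WW_nonneg y
            positivity
          have h10 := h9.trans hK3
          linarith
        calc ak L y * V ≤ ak L y * ((1.5 / y - 1.05 / L) * (3.8 * A0 L)) := mul_le_mul_of_nonneg_left h8 hay.le
          _ = (ak L y * (1.5 / y - 1.05 / L)) * (3.8 * A0 L) := by ring
          _ ≤ Δ * (3.8 * A0 L) := by
              rw [hΔ]
              exact mul_le_mul_of_nonneg_right hK1 (by positivity)
          _ ≤ Δ * S := mul_le_mul_of_nonneg_left hS hΔ0
      have h8 : E * (((L : ℝ) + (((y + 1 : ℕ) : ℝ) + 1)) * c3 L (y + 1 + 1)) ≤ 0 := by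
        rw [h5]
        have h9 : 0 ≤ (3 - ak L y) * (-bb L (y + 1)) := mul_nonneg (by linarith) (by linarith)
        have h10 : ak L y * (bb L (y + 1) - V) = ak L y * bb L (y + 1) - ak L y * V := by ring
        have h11 : (3 - ak L y) * (-bb L (y + 1)) = ak L y * bb L (y + 1) - 3 * bb L (y + 1) := by ring
        rw [h5b]
        rw [h10] at h1
        rw [h11] at h9
        linarith
      have hN : (0 : ℝ) < (L : ℝ) + (((y + 1 : ℕ) : ℝ) + 1) := by positivity
      by_contra hc
      push Not at hc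
      have : 0 < E * (((L : ℝ) + (((y + 1 : ℕ) : ℝ) + 1)) * c3 L (y + 1 + 1)) := by positivity
      linarith

end Pool.Agent.MP_9da1e3_co.P2
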