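import Pool.Agent.Lib.MP_9da1e3_co.P2d

namespace Pool.Agent.MP_9da1e3_co.P2

open Finset

lemma r1_cE_aa (n : ℕ) : cE n = aa n / sq n := by
  have hs := sq_pos n
  unfold cE aa
  field_simp

lemma r1_abel (N : ℕ) : ∑ n ∈ range N, ((n : ℝ) + 1) * (cE n - cE (n + 1)) =
    ∑ n ∈ range N, cE n - N * cE N := by
  induction N with
  | zero => simp
  | succ N ih =>
    rw [Finset.sum_range_succ, ih, Finset.sum_range_succ]
    push_cast
    ring

lemma r1_sq_sq (n : ℕ) : sq n * sq n = (n : ℝ) + 1 := by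
  unfold sq
  exact Real.mul_self_sqrt (by positivity)

lemma r1_sq_tel (n : ℕ) : 2 * (sq (n + 1) - sq n) ≤ 1 / sq n := by
  have h0 := sq_pos n
  have h2 := r1_sq_sq n
  have h3 := r1_sq_sq (n + 1)
  push_cast at h3
  rw [le_div_iff₀ h0]
  nlinarith [sq_nonneg (sq (n + 1) - sq n)]

lemma r1_block (c : ℝ) (hc : 0 ≤ c) (a b : ℕ) (hab : a ≤ b) (h : ∀ n, a ≤ n → c ≤ aa n) :
    2 * c * (sq b - sq a) ≤ ∑ n ∈ Ico a b, cE n := by
  induction b, hab using Nat.le_induction with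
  | base => simp
  | succ b hab ih =>
    rw [Finset.sum_Ico_succ_top hab]
    have h1 := r1_sq_tel b
    have h2 : c * (1 / sq b) ≤ cE b := by
      rw [r1_cE_aa, mul_one_div]
      exact div_le_div_of_nonneg_right (h b hab) (sq_pos b).le
    have h3 := mul_le_mul_of_nonneg_left h1 hc
    linarith

lemma r1_sq1 : sq 1 ≤ 1.41422 := by
  unfold sq
  rw [Real.sqrt_le_iff]
  norm_num

lemma r1_sq20 : 4.58257 ≤ sq 20 ∧ sq 20 ≤ 4.58258 := by
  unfold sq
  constructor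
  · apply Real.le_sqrt_of_sq_le
    norm_num
  · rw [Real.sqrt_le_iff]
    norm_num

lemma r1_sq53 : 7.34846 ≤ sq 53 := by
  unfold sq
  apply Real.le_sqrt_of_sq_le
  norm_num

lemma r1_sumcE : 13.564 ≤ ∑ n ∈ range 53, cE n := by
  have h1 := r1_block 1.04 (by norm_num) 1 20 (by norm_num) (fun n hn => le_aa_one hn)
  have h2 := r1_block 1.08 (by norm_num) 20 53 (by norm_num) (fun n hn => le_aa_twenty hn)
  have h3 : ∑ n ∈ range 53, cE n = cE 0 + ∑ n ∈ Ico 1 20, cE n + ∑ n ∈ Ico 20 53, cE n := by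
    rw [Finset.range_eq_Ico, ← Finset.sum_Ico_consecutive _ (by norm_num : 0 ≤ 20) (by norm_num : 20 ≤ 53),
      ← Finset.sum_Ico_consecutive _ (by norm_num : 0 ≤ 1) (by norm_num : 1 ≤ 20)]
    simp
  have h4 : cE 0 = 1 := by unfold cE; simp [tn_zero]
  have h5 := r1_sq1
  have h6 := r1_sq20
  have h7 := r1_sq53
  rw [h3, h4]
  linarith [h6.1, h6.2]

lemma r1_cE53 : 53 * cE 53 ≤ 7.822 := by
  have h1 := aa_le 53
  have h2 := cA_lt
  have h3 := r1_sq53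
  have h4 := sq_pos 53
  rw [r1_cE_aa, ← mul_div_assoc, div_le_iff₀ h4]
  linarith

lemma r1_sq_le (n : ℕ) : sq n ≤ ((n : ℝ) + 1 + 25) / 10 := by
  have h1 := r1_sq_sq n
  nlinarith [sq_nonneg (sq n - 5)]

lemma r1_term (n : ℕ) : ((n : ℝ) + 1) * (E / 4 + 3 * cE n) ≤
    ((n : ℝ) + 1) * 0.679575 + 3.25332 * (((n : ℝ) + 1 + 25) / 10) := by
  have hE := E_le3
  have h0 := sq_pos n
  have h1 : ((n : ℝ) + 1) * cE n ≤ 1.08444 * sq n := by
    rw [r1_cE_aa, ← r1_sq_sq n]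
    have h2 : sq n * sq n * (aa n / sq n) = aa n * sq n := by field_simp
    rw [h2]
    have h3 := aa_le n
    have h4 := cA_lt
    exact mul_le_mul_of_nonneg_right (by linarith) h0.le
  have h5 := r1_sq_le n
  have hn : (0 : ℝ) ≤ n := Nat.cast_nonneg n
  nlinarith

lemma r1_corr : ∑ n ∈ range 53, ((n : ℝ) + 1) * (E / 4 + 3 * cE n) ≤ 1870 := by
  have h1 : ∑ n ∈ range 53, ((n : ℝ) + 1) * (E / 4 + 3 * cE n) ≤
      ∑ n ∈ range 53, (((n : ℝ) + 1) * 0.679575 + 3.25332 * (((n : ℝ) + 1 + 25) / 10)) :=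
    Finset.sum_le_sum fun n _ => r1_term n
  refine h1.trans ?_
  simp only [Finset.sum_range_succ, Finset.sum_range_zero]
  norm_num

theorem r1_S (L : ℕ) (hL : 999 ≤ L) : 3.8 * A0 L ≤ ∑ n ∈ range 53, ((n : ℝ) + 1) * cs L (n + 2) := by
  have hLr : (999 : ℝ) ≤ L := by exact_mod_cast hL
  have hL0 : (0 : ℝ) < L := by linarith
  have hA := A0_pos L
  have h1 : ∑ n ∈ range 53, ((n : ℝ) + 1) * (A0 L * ((cE n - cE (n + 1)) - 1 / (L : ℝ) * (E / 4 + 3 * cE n))) ≤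
      ∑ n ∈ range 53, ((n : ℝ) + 1) * cs L (n + 2) := by
    apply Finset.sum_le_sum
    intro n _
    exact mul_le_mul_of_nonneg_left (cs_ge L n (by omega)) (by positivity)
  have h2 : ∑ n ∈ range 53, ((n : ℝ) + 1) * (A0 L * ((cE n - cE (n + 1)) - 1 / (L : ℝ) * (E / 4 + 3 * cE n))) =
      A0 L * ((∑ n ∈ range 53, cE n - 53 * cE 53) -
        1 / (L : ℝ) * ∑ n ∈ range 53, ((n : ℝ) + 1) * (E / 4 + 3 * cE n)) := by
    have h3 := r1_abel 53
    push_cast at h3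
    rw [← h3, Finset.mul_sum (s := range 53) (a := 1 / (L : ℝ)), ← Finset.sum_sub_distrib, Finset.mul_sum]
    apply Finset.sum_congr rfl
    intro n _
    ring
  rw [h2] at h1
  refine le_trans ?_ h1
  have h4 := r1_sumcE
  have h5 := r1_cE53
  have h6 := r1_corr
  have h7 : 1 / (L : ℝ) * ∑ n ∈ range 53, ((n : ℝ) + 1) * (E / 4 + 3 * cE n) ≤ 1.8719 := by
    rw [one_div, inv_mul_le_iff₀ hL0]
    linarith
  rw [mul_comm]
  apply mul_le_mul_of_nonneg_left _ hA.le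
  linarith

end Pool.Agent.MP_9da1e3_co.P2
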