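import Pool.Agent.Lib.MP_9da1e3_co.KV1
import Mathlib.Analysis.SpecialFunctions.Stirling

namespace Pool.Agent.MP_9da1e3_co

open Finset

/-! Exact comparison of `ww` with central binomial coefficients, and the resulting
closed bounds for convolutions. -/

/-- normalised central binomial coefficients -/
noncomputable def be (n : ℕ) : ℝ := (Nat.centralBinom n : ℝ) / 4 ^ n

lemma be_zero : be 0 = 1 := by simp [be]

lemma be_pos (n : ℕ) : 0 < be n := by
  have : (0 : ℝ) < (Nat.centralBinom n : ℝ) := by exact_mod_cast Nat.centralBinom_pos n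
  unfold be; positivity

lemma be_succ (n : ℕ) : 2 * ((n : ℝ) + 1) * be (n + 1) = (2 * n + 1) * be n := by
  have h := Nat.succ_mul_centralBinom_succ n
  have h' : ((n : ℝ) + 1) * (Nat.centralBinom (n + 1) : ℝ) = 2 * (2 * n + 1) * (Nat.centralBinom n : ℝ) := by
    exact_mod_cast h
  unfold be
  rw [pow_succ]
  field_simp
  linarith

lemma be_one : be 1 = 1 / 2 := by
  have h := be_succ 0
  rw [be_zero] at h
  norm_num at h
  linarith

/-- sum of `j be_j be_(n-j)` by symmetry -/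
lemma be_sym (n : ℕ) : ∑ j ∈ range (n + 1), (j : ℝ) * (be j * be (n - j))
    = (n : ℝ) / 2 * ∑ j ∈ range (n + 1), be j * be (n - j) := by
  have h := Finset.sum_range_reflect (fun j => (j : ℝ) * (be j * be (n - j))) (n + 1)
  have e : ∀ j ∈ range (n + 1), (((n + 1 - 1 - j : ℕ) : ℝ) * (be (n + 1 - 1 - j) * be (n - (n + 1 - 1 - j))))
      = ((n : ℝ) - j) * (be j * be (n - j)) := by
    intro j hj
    have hj' : j ≤ n := by have := mem_range.mp hj; omega
    have e1 : n + 1 - 1 - j = n - j := by omega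
    have e2 : n - (n - j) = j := by omega
    rw [e1, e2, Nat.cast_sub hj']
    ring
  rw [Finset.sum_congr rfl e] at h
  have h2 : ∑ j ∈ range (n + 1), ((n : ℝ) - j) * (be j * be (n - j))
      = n * ∑ j ∈ range (n + 1), be j * be (n - j)
        - ∑ j ∈ range (n + 1), (j : ℝ) * (be j * be (n - j)) := by
    rw [Finset.mul_sum, ← Finset.sum_sub_distrib]
    apply Finset.sum_congr rfl
    intro j _
    ring
  rw [h2] at h
  linarith

lemma be_shift (n : ℕ) : ∑ j ∈ range (n + 2), (j : ℝ) * (be j * be (n + 1 - j))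
    = ∑ i ∈ range (n + 1), ((i : ℝ) + 1 / 2) * (be i * be (n - i)) := by
  rw [Finset.sum_range_succ']
  simp only [Nat.cast_zero, zero_mul, add_zero]
  apply Finset.sum_congr rfl
  intro i _
  have e : n + 1 - (i + 1) = n - i := by omega
  rw [e]
  have h := be_succ i
  push_cast
  linear_combination (be (n - i) / 2) * h

theorem be_conv (n : ℕ) : ∑ j ∈ range (n + 1), be j * be (n - j) = 1 := by
  induction n with
  | zero => simp [be_zero]
  | succ n ih =>
    have h1 := be_sym (n + 1)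
    have h2 := be_shift n
    have h3 := be_sym n
    have h4 : ∑ i ∈ range (n + 1), ((i : ℝ) + 1 / 2) * (be i * be (n - i))
        = ∑ i ∈ range (n + 1), (i : ℝ) * (be i * be (n - i))
          + 1 / 2 * ∑ i ∈ range (n + 1), be i * be (n - i) := by
      rw [Finset.mul_sum, ← Finset.sum_add_distrib]
      apply Finset.sum_congr rfl
      intro i _
      ring
    rw [h2, h4, h3, ih] at h1
    push_cast at h1
    have hn : (0 : ℝ) < (n : ℝ) + 1 := by positivity
    have : ((n : ℝ) + 1) / 2 * ∑ j ∈ range (n + 1 + 1), be j * be (n + 1 - j) = ((n : ℝ) + 1) / 2 := by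
      linarith
    have h5 : ((n : ℝ) + 1) / 2 ≠ 0 := by positivity
    have h6 := mul_left_cancel₀ h5 (this.trans (mul_one _).symm)
    exact h6

theorem be_conv1 (n : ℕ) : ∑ j ∈ range (n + 1), (j : ℝ) * (be j * be (n - j)) = (n : ℝ) / 2 := by
  rw [be_sym, be_conv, mul_one]

theorem be_conv2 (n : ℕ) : ∑ j ∈ range (n + 1), (j : ℝ) ^ 2 * (be j * be (n - j))
    = (n : ℝ) * (3 * n + 1) / 8 := by
  induction n with
  | zero => simp
  | succ n ih =>
    rw [Finset.sum_range_succ']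
    have e0 : (((0 : ℕ) : ℝ)) ^ 2 * (be 0 * be (n + 1 - 0)) = 0 := by simp
    rw [e0, add_zero]
    have e : ∀ i ∈ range (n + 1), (((i + 1 : ℕ) : ℝ)) ^ 2 * (be (i + 1) * be (n + 1 - (i + 1)))
        = (i : ℝ) ^ 2 * (be i * be (n - i)) + 3 / 2 * ((i : ℝ) * (be i * be (n - i)))
          + 1 / 2 * (be i * be (n - i)) := by
      intro i _
      have e : n + 1 - (i + 1) = n - i := by omega
      rw [e]
      have h := be_succ i
      push_cast
      linear_combination (((i : ℝ) + 1) / 2 * be (n - i)) * h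
    rw [Finset.sum_congr rfl e, Finset.sum_add_distrib, Finset.sum_add_distrib, ih,
      ← Finset.mul_sum, ← Finset.mul_sum, be_conv1, be_conv]
    push_cast
    ring

theorem be_sum (n : ℕ) : ∑ j ∈ range n, be j = 2 * n * be n := by
  induction n with
  | zero => simp
  | succ n ih =>
    rw [Finset.sum_range_succ, ih]
    have h := be_succ n
    push_cast
    linarith

theorem be_sum1 (m : ℕ) : ∑ j ∈ range (m + 1), (j : ℝ) * be j = (m : ℝ) * (2 * m + 1) / 3 * be m := by
  induction m with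
  | zero => simp
  | succ m ih =>
    rw [Finset.sum_range_succ, ih]
    have h := be_succ m
    push_cast
    linear_combination (-(m : ℝ) / 3) * h

/-- Wallis -/
lemma be_wallis (k : ℕ) : be k ^ 2 * (2 * k + 1) * Real.Wallis.W k = 1 := by
  induction k with
  | zero => simp [be_zero, Real.Wallis.W]
  | succ k ih =>
    rw [Real.Wallis.W_succ]
    have h := be_succ k
    have hk : (0 : ℝ) < (k : ℝ) + 1 := by positivity
    have e : be (k + 1) = (2 * k + 1) * be k / (2 * ((k : ℝ) + 1)) := by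
      field_simp
      linarith
    rw [e]
    push_cast
    have hk1 : (0 : ℝ) < 2 * (k : ℝ) + 1 := by positivity
    have hk3 : (0 : ℝ) < 2 * (k : ℝ) + 3 := by positivity
    have e2 : ((2 * (k : ℝ) + 1) * be k / (2 * ((k : ℝ) + 1))) ^ 2 * (2 * ((k : ℝ) + 1) + 1)
        * (Real.Wallis.W k * ((2 * k + 2) / (2 * k + 1) * ((2 * k + 2) / (2 * k + 3))))
        = be k ^ 2 * (2 * k + 1) * Real.Wallis.W k := by
      have a3 : (2 * ((k : ℝ) + 1) + 1) = 2 * (k : ℝ) + 3 := by ring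
      rw [a3]
      field_simp
    rw [e2, ih]

lemma be_ge (k : ℕ) : 1 / √(Real.pi * ((k : ℝ) + 1 / 2)) ≤ be k := by
  have hW := Real.Wallis.W_le k
  have hWp := Real.Wallis.W_pos k
  have h := be_wallis k
  have hb := be_pos k
  have hpi := Real.pi_pos
  have hk : (0 : ℝ) < (k : ℝ) + 1 / 2 := by positivity
  have h1 : 1 ≤ be k ^ 2 * (Real.pi * ((k : ℝ) + 1 / 2)) := by
    calc (1 : ℝ) = be k ^ 2 * (2 * k + 1) * Real.Wallis.W k := h.symm
      _ ≤ be k ^ 2 * (2 * k + 1) * (Real.pi / 2) := by gcongr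
      _ = be k ^ 2 * (Real.pi * ((k : ℝ) + 1 / 2)) := by ring
  have hs : 0 < √(Real.pi * ((k : ℝ) + 1 / 2)) := Real.sqrt_pos.mpr (by positivity)
  rw [div_le_iff₀ hs]
  have h2 : (1 : ℝ) ≤ (be k * √(Real.pi * ((k : ℝ) + 1 / 2))) ^ 2 := by
    rw [mul_pow, Real.sq_sqrt (by positivity)]
    exact h1
  nlinarith [mul_pos hb hs]

lemma be_le (k : ℕ) (hk : 1 ≤ k) : be k ≤ 1 / √(Real.pi * k) := by
  have hW := Real.Wallis.le_W k
  have hWp := Real.Wallis.W_pos k
  have h := be_wallis k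
  have hb := be_pos k
  have hpi := Real.pi_pos
  have hk0 : (1 : ℝ) ≤ k := by exact_mod_cast hk
  have hs : 0 < √(Real.pi * (k : ℝ)) := Real.sqrt_pos.mpr (by positivity)
  rw [le_div_iff₀ hs]
  have h1 : be k ^ 2 * (Real.pi * k) ≤ 1 := by
    calc be k ^ 2 * (Real.pi * k)
        ≤ be k ^ 2 * (2 * k + 1) * (((2 : ℝ) * k + 1) / (2 * k + 2) * (Real.pi / 2)) := by
          have : Real.pi * (k : ℝ) ≤ (2 * k + 1) * (((2 : ℝ) * k + 1) / (2 * k + 2) * (Real.pi / 2)) := by
            rw [div_mul_eq_mul_div, mul_div_assoc', le_div_iff₀ (by positivity)]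
            nlinarith [hpi]
          calc be k ^ 2 * (Real.pi * k) ≤ be k ^ 2 * ((2 * k + 1) * (((2 : ℝ) * k + 1) / (2 * k + 2) * (Real.pi / 2))) :=
                mul_le_mul_of_nonneg_left this (by positivity)
            _ = _ := by ring
      _ ≤ be k ^ 2 * (2 * k + 1) * Real.Wallis.W k := by gcongr
      _ = 1 := h
  have h2 : (be k * √(Real.pi * (k : ℝ))) ^ 2 ≤ 1 := by
    rw [mul_pow, Real.sq_sqrt (by positivity)]
    exact h1
  nlinarith [mul_pos hb hs]

/-- `ww m` by Stirling's sequence -/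
lemma ww_stirling (m : ℕ) :
    ww m = 1 / (Stirling.stirlingSeq (m + 1) * √(2 * ((m + 1 : ℕ) : ℝ))) := by
  have hE : E = Real.exp 1 := rfl
  have hEp := E_pos
  unfold ww cc Stirling.stirlingSeq
  have hf : (0 : ℝ) < (m.factorial : ℝ) := by exact_mod_cast Nat.factorial_pos m
  have hs : 0 < √(2 * ((m + 1 : ℕ) : ℝ)) := Real.sqrt_pos.mpr (by positivity)
  have hf2 : (((m + 1).factorial : ℕ) : ℝ) = ((m : ℝ) + 1) * (m.factorial : ℝ) := by
    rw [Nat.factorial_succ]; push_cast; ring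
  rw [hf2, ← hE]
  push_cast
  push_cast at hs
  have hm : (0 : ℝ) < (m : ℝ) + 1 := by positivity
  rw [div_pow, pow_succ ((m : ℝ) + 1) m]
  field_simp

lemma ww_le_sqrt (m : ℕ) : ww m ≤ 1 / √(2 * Real.pi * ((m : ℝ) + 1)) := by
  rw [ww_stirling]
  have h := Stirling.sqrt_pi_le_stirlingSeq (n := m + 1) (by omega)
  have hpi := Real.pi_pos
  have hs : 0 < √(2 * ((m + 1 : ℕ) : ℝ)) := Real.sqrt_pos.mpr (by positivity)
  have hsp : 0 < √Real.pi := Real.sqrt_pos.mpr hpi
  apply one_div_le_one_div_of_le (Real.sqrt_pos.mpr (by positivity))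
  have e : √(2 * Real.pi * ((m : ℝ) + 1)) = √Real.pi * √(2 * ((m + 1 : ℕ) : ℝ)) := by
    rw [← Real.sqrt_mul (by positivity)]
    congr 1
    push_cast
    ring
  rw [e]
  gcongr

lemma ww_le_be (m : ℕ) : ww m ≤ be m / √2 := by
  refine (ww_le_sqrt m).trans ?_
  have h := be_ge m
  have hpi := Real.pi_pos
  have h2 : (0 : ℝ) < √2 := Real.sqrt_pos.mpr (by norm_num)
  rw [le_div_iff₀ h2]
  refine le_trans ?_ h
  have hs : 0 < √(2 * Real.pi * ((m : ℝ) + 1)) := Real.sqrt_pos.mpr (by positivity)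
  have hs' : 0 < √(Real.pi * ((m : ℝ) + 1 / 2)) := Real.sqrt_pos.mpr (by positivity)
  rw [div_mul_eq_mul_div, one_mul, div_le_div_iff₀ hs hs', one_mul,
    ← Real.sqrt_mul (by norm_num)]
  apply Real.sqrt_le_sqrt
  nlinarith

lemma be_stirling (n : ℕ) (hn : 1 ≤ n) :
    be n = Stirling.stirlingSeq (2 * n) / (Stirling.stirlingSeq n ^ 2 * √(n : ℝ)) := by
  have hn0 : (0 : ℝ) < n := by exact_mod_cast hn
  have hf : (0 : ℝ) < (n.factorial : ℝ) := by exact_mod_cast Nat.factorial_pos n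
  have hf2 : (0 : ℝ) < ((2 * n).factorial : ℝ) := by exact_mod_cast Nat.factorial_pos (2 * n)
  have hc : (Nat.centralBinom n : ℝ) = ((2 * n).factorial : ℝ) / ((n.factorial : ℝ) * (n.factorial : ℝ)) := by
    rw [Nat.centralBinom_eq_two_mul_choose, Nat.cast_choose ℝ (by omega)]
    have : 2 * n - n = n := by omega
    rw [this]
  unfold be Stirling.stirlingSeq
  rw [hc]
  have hs : 0 < √(n : ℝ) := Real.sqrt_pos.mpr hn0
  have e1 : √(2 * ((2 * n : ℕ) : ℝ)) = 2 * √(n : ℝ) := by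
    have : (2 * ((2 * n : ℕ) : ℝ)) = (2 : ℝ) ^ 2 * n := by push_cast; ring
    rw [this, Real.sqrt_mul (by positivity), Real.sqrt_sq (by norm_num)]
  have e2 : √(2 * (n : ℝ)) ^ 2 = 2 * n := Real.sq_sqrt (by positivity)
  have e3 : (((2 * n : ℕ) : ℝ) / Real.exp 1) ^ (2 * n) = 4 ^ n * ((n : ℝ) / Real.exp 1) ^ (2 * n) := by
    have : ((2 * n : ℕ) : ℝ) / Real.exp 1 = 2 * ((n : ℝ) / Real.exp 1) := by push_cast; ring
    rw [this, mul_pow, pow_mul]
    norm_num
  have hp : (0 : ℝ) < ((n : ℝ) / Real.exp 1) ^ n := by positivity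
  have e4 : ((n : ℝ) / Real.exp 1) ^ (2 * n) = (((n : ℝ) / Real.exp 1) ^ n) ^ 2 := by
    rw [← pow_mul]; congr 1; ring
  rw [e1, e3, e4]
  have hsq : √(n : ℝ) ^ 2 = n := Real.sq_sqrt hn0.le
  generalize ((n : ℝ) / Real.exp 1) ^ n = P at hp
  rw [div_pow (n.factorial : ℝ) (√(2 * (n : ℝ)) * P) 2, mul_pow (√(2 * (n : ℝ))) P 2, e2]
  field_simp
  rw [hsq]

lemma be_le_ww (m : ℕ) : be (m + 1) / √2 ≤ ww m := by
  rw [ww_stirling, be_stirling (m + 1) (by omega)]
  have h1 := Stirling.stirlingSeq'_pos m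
  have h2 : Stirling.stirlingSeq (2 * (m + 1)) ≤ Stirling.stirlingSeq (m + 1) := by
    have := Stirling.stirlingSeq'_antitone (show m ≤ 2 * m + 1 by omega)
    have e : 2 * (m + 1) = (2 * m + 1) + 1 := by ring
    rw [e]
    exact this
  have hs : 0 < √((m + 1 : ℕ) : ℝ) := Real.sqrt_pos.mpr (by positivity)
  have h22 : (0 : ℝ) < √2 := Real.sqrt_pos.mpr (by norm_num)
  rw [Real.sqrt_mul (by norm_num)]
  rw [div_div, div_le_div_iff₀ (by positivity) (by positivity)]
  nlinarith [mul_pos (mul_pos h1 h22) hs, mul_nonneg (mul_nonneg h1.le h22.le) hs.le,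
    mul_le_mul_of_nonneg_right h2 (mul_nonneg (mul_nonneg h1.le h22.le) hs.le)]

end Pool.Agent.MP_9da1e3_co
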