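import Pool.Agent.Lib.MP_9da1e3_co.Abel
import Pool.Agent.Lib.MP_9da1e3_co.Left

namespace Pool.Agent.MP_9da1e3_co

open Finset

lemma f_eq_tt (L : ℕ) : ∀ n, n ≤ L → f L n = tt n := by
  intro n
  induction n using Nat.strong_induction_on with
  | _ n ih =>
    intro hn
    rcases Nat.eq_zero_or_pos n with rfl | hn0
    · rw [f_zero, tt_zero]
    · obtain ⟨m, rfl⟩ : ∃ m, n = m + 1 := ⟨n - 1, by omega⟩
      have hm : ((m : ℝ) + 1) ≠ 0 := by positivity
      apply mul_left_cancel₀ hm
      rw [f_rec, ← abel_ct]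
      apply Finset.sum_congr rfl
      intro k hk
      have hkm : k ≤ m := by have := mem_range.mp hk; omega
      rw [ih k (by omega) (by omega), ih (m - k) (by omega) (by omega), cc_eq]
      have : min L (k + 1) = k + 1 := by omega
      rw [this]
      push_cast
      ring

lemma f_le_tt (L : ℕ) : ∀ n, f L n ≤ tt n := by
  intro n
  induction n using Nat.strong_induction_on with
  | _ n ih =>
    rcases Nat.eq_zero_or_pos n with rfl | hn0
    · rw [f_zero, tt_zero]
    · obtain ⟨m, rfl⟩ : ∃ m, n = m + 1 := ⟨n - 1, by omega⟩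
      have hm : (0 : ℝ) < ((m : ℝ) + 1) := by positivity
      refine le_of_mul_le_mul_left ?_ hm
      rw [f_rec, ← abel_ct]
      apply Finset.sum_le_sum
      intro k hk
      have hkm : k ≤ m := by have := mem_range.mp hk; omega
      rw [cc_eq, mul_assoc]
      have h1 : ((min L (k + 1) : ℕ) : ℝ) ≤ (k : ℝ) + 1 := by
        have : min L (k + 1) ≤ k + 1 := min_le_right _ _
        exact_mod_cast this
      exact mul_le_mul h1 (mul_le_mul (ih k (by omega)) (ih (m - k) (by omega)) (f_nonneg _ _)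
        (tt_pos k).le) (mul_nonneg (f_nonneg _ _) (f_nonneg _ _)) (by positivity)

/-- the convolution with `cc`, then with `tt` -/
lemma conv (σ : ℕ → ℝ) (i : ℕ) :
    ∑ k ∈ range i, (∑ j ∈ range (k + 1), σ j * cc (k - j)) * tt (i - 1 - k)
      = ∑ j ∈ range (i + 1), σ j * (((i - j : ℕ) : ℝ) * tt (i - j)) := by
  rcases Nat.eq_zero_or_pos i with rfl | hi
  · simp
  · obtain ⟨n, rfl⟩ : ∃ n, i = n + 1 := ⟨i - 1, by omega⟩
    rw [Nat.add_sub_cancel]
    have h := congrArg (PowerSeries.coeff n)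
      (mul_assoc (PowerSeries.mk σ) (PowerSeries.mk cc) (PowerSeries.mk tt))
    rw [PowerSeries.coeff_mul, PowerSeries.coeff_mul,
      Finset.Nat.sum_antidiagonal_eq_sum_range_succ
        (fun a b => PowerSeries.coeff a (PowerSeries.mk σ * PowerSeries.mk cc) *
          PowerSeries.coeff b (PowerSeries.mk tt)),
      Finset.Nat.sum_antidiagonal_eq_sum_range_succ
        (fun a b => PowerSeries.coeff a (PowerSeries.mk σ) *
          PowerSeries.coeff b (PowerSeries.mk cc * PowerSeries.mk tt))] at h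
    have e1 : ∀ k, PowerSeries.coeff k (PowerSeries.mk σ * PowerSeries.mk cc)
        = ∑ j ∈ range (k + 1), σ j * cc (k - j) := by
      intro k
      rw [PowerSeries.coeff_mul, Finset.Nat.sum_antidiagonal_eq_sum_range_succ
        (fun a b => PowerSeries.coeff a (PowerSeries.mk σ) * PowerSeries.coeff b (PowerSeries.mk cc))]
      simp only [PowerSeries.coeff_mk]
    have e2 : ∀ k, PowerSeries.coeff k (PowerSeries.mk cc * PowerSeries.mk tt)
        = ((k : ℝ) + 1) * tt (k + 1) := by
      intro k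
      rw [PowerSeries.coeff_mul, Finset.Nat.sum_antidiagonal_eq_sum_range_succ
        (fun a b => PowerSeries.coeff a (PowerSeries.mk cc) * PowerSeries.coeff b (PowerSeries.mk tt))]
      simp only [PowerSeries.coeff_mk]
      exact abel_ct k
    simp only [e1, e2, PowerSeries.coeff_mk] at h
    rw [h, Finset.sum_range_succ _ (n + 1)]
    simp only [Nat.sub_self, Nat.cast_zero, zero_mul, mul_zero, add_zero]
    apply Finset.sum_congr rfl
    intro j hj
    have hjn : j ≤ n := by have := mem_range.mp hj; omega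
    have : n + 1 - j = n - j + 1 := by omega
    rw [this]
    push_cast
    ring

lemma green (σ : ℕ → ℝ) (l : ℝ) (i : ℕ) :
    (l + i) * ∑ j ∈ range (i + 1), σ j * cc (i - j)
      = ∑ j ∈ range (i + 1), (l + j) * (σ j * tt (i - j))
        + (l + i + 1) * ∑ k ∈ range i, (∑ j ∈ range (k + 1), σ j * cc (k - j)) * tt (i - 1 - k) := by
  rw [conv, Finset.mul_sum, Finset.mul_sum, ← Finset.sum_add_distrib]
  apply Finset.sum_congr rfl
  intro j hj
  have hji : j ≤ i := by have := mem_range.mp hj; omega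
  rw [cc_eq, Nat.cast_sub hji]
  ring

lemma green2 (σ : ℕ → ℝ) (l : ℝ) (i : ℕ) :
    (l + i) * ∑ k ∈ range i, σ k * cc (i - 1 - k)
      = ∑ k ∈ range i, (l + 1 + k) * (σ k * tt (i - 1 - k))
        + (l + i + 1) * ∑ k ∈ range i, (∑ j ∈ range k, σ j * cc (k - 1 - j)) * tt (i - 1 - k) := by
  rcases Nat.eq_zero_or_pos i with rfl | hi
  · simp
  · obtain ⟨n, rfl⟩ : ∃ n, i = n + 1 := ⟨i - 1, by omega⟩
    have h := green σ (l + 1) n
    rw [Finset.sum_range_succ' (fun k => (∑ j ∈ range k, σ j * cc (k - 1 - j)) *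
      tt (n + 1 - 1 - k)) n]
    simp only [Nat.add_sub_cancel, Finset.range_zero, Finset.sum_empty, zero_mul, add_zero]
    have e : ∀ k ∈ range n, (∑ j ∈ range (k + 1), σ j * cc (k - j)) * tt (n - (k + 1))
        = (∑ j ∈ range (k + 1), σ j * cc (k - j)) * tt (n - 1 - k) := by
      intro k _
      have : n - (k + 1) = n - 1 - k := by omega
      rw [this]
    rw [Finset.sum_congr rfl e]
    push_cast
    have e1 : l + ((n : ℝ) + 1) = l + 1 + n := by ring
    rw [e1, h]

/-- the recursion of `f` just above the threshold -/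
lemma f_split (K i l : ℕ) (hi : i + 1 ≤ K) (h1 : K ≤ l) (h2 : l ≤ K + 2) :
    ((K : ℝ) + 1 + i) * f l (K + 1 + i)
      = ∑ k ∈ Ico (i + 1) K, ((k : ℝ) + 1) * (tt k * tt (K + i - k))
        + (((i : ℝ) + 1) + ((min l (K + 1) : ℕ) : ℝ)) * (tt K * tt i)
        + ∑ k ∈ range i, (((i : ℝ) - k) + l) * (tt (i - 1 - k) * f l (K + 1 + k)) := by
  have hrec := f_rec l (K + i)
  have e0 : K + 1 + i = K + i + 1 := by ring
  rw [e0]
  have e0' : (K : ℝ) + 1 + i = ((K + i : ℕ) : ℝ) + 1 := by push_cast; ring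
  rw [e0', hrec]
  have hsplit : ∑ k ∈ range (K + i + 1), ((min l (k + 1) : ℕ) : ℝ) * (f l k * f l (K + i - k))
      = ∑ k ∈ range (i + 1), ((min l (k + 1) : ℕ) : ℝ) * (f l k * f l (K + i - k))
        + ∑ k ∈ Ico (i + 1) K, ((min l (k + 1) : ℕ) : ℝ) * (f l k * f l (K + i - k))
        + ∑ k ∈ Ico K (K + i + 1), ((min l (k + 1) : ℕ) : ℝ) * (f l k * f l (K + i - k)) := by
    rw [Finset.range_eq_Ico, Finset.range_eq_Ico, Finset.sum_Ico_consecutive _ (by omega) (by omega),
      Finset.sum_Ico_consecutive _ (by omega) (by omega)]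
  rw [hsplit]
  have hmid : ∑ k ∈ Ico (i + 1) K, ((min l (k + 1) : ℕ) : ℝ) * (f l k * f l (K + i - k))
      = ∑ k ∈ Ico (i + 1) K, ((k : ℝ) + 1) * (tt k * tt (K + i - k)) := by
    apply Finset.sum_congr rfl
    intro k hk
    have hk' := Finset.mem_Ico.mp hk
    rw [f_eq_tt l k (by omega), f_eq_tt l (K + i - k) (by omega)]
    have : min l (k + 1) = k + 1 := by omega
    rw [this]
    push_cast
    ring
  have hlow : ∑ k ∈ range (i + 1), ((min l (k + 1) : ℕ) : ℝ) * (f l k * f l (K + i - k))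
      = ∑ j ∈ range (i + 1), (((i : ℝ) - j) + 1) * (tt (i - j) * f l (K + j)) := by
    rw [← Finset.sum_range_reflect]
    apply Finset.sum_congr rfl
    intro k hk
    have hk' := mem_range.mp hk
    have a1 : i + 1 - 1 - k = i - k := by omega
    have a2 : K + i - (i - k) = K + k := by omega
    have a3 : min l (i - k + 1) = i - k + 1 := by omega
    rw [a1, a2, a3, f_eq_tt l (i - k) (by omega)]
    have : ((i - k + 1 : ℕ) : ℝ) = (i : ℝ) - k + 1 := by
      rw [Nat.cast_add, Nat.cast_sub (by omega)]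
      simp
    rw [this]
  have hhigh : ∑ k ∈ Ico K (K + i + 1), ((min l (k + 1) : ℕ) : ℝ) * (f l k * f l (K + i - k))
      = ∑ j ∈ range (i + 1), ((min l (K + j + 1) : ℕ) : ℝ) * (tt (i - j) * f l (K + j)) := by
    rw [Finset.sum_Ico_eq_sum_range]
    have a0 : K + i + 1 - K = i + 1 := by omega
    rw [a0]
    apply Finset.sum_congr rfl
    intro j hj
    have hj' := mem_range.mp hj
    have a1 : K + i - (K + j) = i - j := by omega
    rw [a1, f_eq_tt l (i - j) (by omega)]
    ring
  rw [hmid, hlow, hhigh]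
  have hcomb : ∑ j ∈ range (i + 1), (((i : ℝ) - j) + 1) * (tt (i - j) * f l (K + j))
      + ∑ j ∈ range (i + 1), ((min l (K + j + 1) : ℕ) : ℝ) * (tt (i - j) * f l (K + j))
      = (((i : ℝ) + 1) + ((min l (K + 1) : ℕ) : ℝ)) * (tt K * tt i)
        + ∑ k ∈ range i, (((i : ℝ) - k) + l) * (tt (i - 1 - k) * f l (K + 1 + k)) := by
    rw [← Finset.sum_add_distrib, Finset.sum_range_succ', add_comm]
    congr 1
    · simp only [Nat.cast_zero, sub_zero, Nat.sub_zero, Nat.add_zero]
      rw [f_eq_tt l K h1]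
      ring
    · apply Finset.sum_congr rfl
      intro k hk
      have hk' := mem_range.mp hk
      have a1 : i - (k + 1) = i - 1 - k := by omega
      have a2 : K + (k + 1) = K + 1 + k := by omega
      have a3 : min l (K + (k + 1) + 1) = l := by omega
      rw [a1, a3, a2]
      push_cast
      ring
  linarith

end Pool.Agent.MP_9da1e3_co
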