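import Pool.Agent.Lib.MP_9da1e3_co.Right1

namespace Pool.Agent.MP_9da1e3_co

open Finset

noncomputable def DD (K i : ℕ) : ℝ :=
  f (K + 2) (K + 1 + i) - 2 * f (K + 1) (K + 1 + i) + f K (K + 1 + i)

noncomputable def dd (K i : ℕ) : ℝ := f (K + 2) (K + 1 + i) - f K (K + 1 + i)

noncomputable def mm (K i : ℕ) : ℝ := ∑ j ∈ range (i + 1), tt (K + j) * cc (i - j)

noncomputable def uu (K i : ℕ) : ℝ := tt K * cc i

noncomputable def rr (K i : ℕ) : ℝ := ∑ k ∈ range i, uu K k * cc (i - 1 - k)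

noncomputable def ss (K i : ℕ) : ℝ := ∑ k ∈ range i, mm K k * cc (i - 1 - k)

lemma mm_nonneg (K i : ℕ) : 0 ≤ mm K i :=
  Finset.sum_nonneg (fun _ _ => mul_nonneg (tt_pos _).le (cc_pos _).le)

lemma uu_nonneg (K i : ℕ) : 0 ≤ uu K i := mul_nonneg (tt_pos _).le (cc_pos _).le

lemma rr_nonneg (K i : ℕ) : 0 ≤ rr K i :=
  Finset.sum_nonneg (fun _ _ => mul_nonneg (uu_nonneg _ _) (cc_pos _).le)

lemma ss_nonneg (K i : ℕ) : 0 ≤ ss K i :=
  Finset.sum_nonneg (fun _ _ => mul_nonneg (mm_nonneg _ _) (cc_pos _).le)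

lemma DD_rec (K i : ℕ) (hi : i + 1 ≤ K) :
    ((K : ℝ) + 1 + i) * DD K i
      = ∑ k ∈ range i, (((i : ℝ) - k) + (K + 1)) * (tt (i - 1 - k) * DD K k)
        + ∑ k ∈ range i, tt (i - 1 - k) * dd K k - tt K * tt i := by
  have h0 := f_split K i K hi le_rfl (by omega)
  have h1 := f_split K i (K + 1) hi (by omega) (by omega)
  have h2 := f_split K i (K + 2) hi (by omega) le_rfl
  have m0 : min K (K + 1) = K := by omega
  have m1 : min (K + 1) (K + 1) = K + 1 := by omega
  have m2 : min (K + 2) (K + 1) = K + 1 := by omega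
  rw [m0] at h0
  rw [m1] at h1
  rw [m2] at h2
  have hs : ∑ k ∈ range i, (((i : ℝ) - k) + (K + 1)) * (tt (i - 1 - k) * DD K k)
        + ∑ k ∈ range i, tt (i - 1 - k) * dd K k
      = ∑ k ∈ range i, (((i : ℝ) - k) + ((K + 2 : ℕ) : ℝ)) * (tt (i - 1 - k) * f (K + 2) (K + 1 + k))
        - 2 * ∑ k ∈ range i, (((i : ℝ) - k) + ((K + 1 : ℕ) : ℝ)) *
          (tt (i - 1 - k) * f (K + 1) (K + 1 + k))
        + ∑ k ∈ range i, (((i : ℝ) - k) + (K : ℝ)) * (tt (i - 1 - k) * f K (K + 1 + k)) := by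
    rw [Finset.mul_sum, ← Finset.sum_sub_distrib, ← Finset.sum_add_distrib,
      ← Finset.sum_add_distrib]
    apply Finset.sum_congr rfl
    intro k _
    unfold DD dd
    push_cast
    ring
  rw [hs]
  unfold DD
  push_cast at h0 h1 h2 ⊢
  linarith

lemma dd_rec (K i : ℕ) (hi : i + 1 ≤ K) :
    ((K : ℝ) + 1 + i) * dd K i
      = ∑ k ∈ range i, (((i : ℝ) - k) + (K + 1)) * (tt (i - 1 - k) * dd K k)
        + ∑ k ∈ range i, tt (i - 1 - k) * (f (K + 2) (K + 1 + k) + f K (K + 1 + k))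
        + tt K * tt i := by
  have h0 := f_split K i K hi le_rfl (by omega)
  have h2 := f_split K i (K + 2) hi (by omega) le_rfl
  have m0 : min K (K + 1) = K := by omega
  have m2 : min (K + 2) (K + 1) = K + 1 := by omega
  rw [m0] at h0
  rw [m2] at h2
  have hs : ∑ k ∈ range i, (((i : ℝ) - k) + (K + 1)) * (tt (i - 1 - k) * dd K k)
        + ∑ k ∈ range i, tt (i - 1 - k) * (f (K + 2) (K + 1 + k) + f K (K + 1 + k))
      = ∑ k ∈ range i, (((i : ℝ) - k) + ((K + 2 : ℕ) : ℝ)) * (tt (i - 1 - k) * f (K + 2) (K + 1 + k))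
        - ∑ k ∈ range i, (((i : ℝ) - k) + (K : ℝ)) * (tt (i - 1 - k) * f K (K + 1 + k)) := by
    rw [← Finset.sum_sub_distrib, ← Finset.sum_add_distrib]
    apply Finset.sum_congr rfl
    intro k _
    unfold dd
    push_cast
    ring
  rw [hs]
  unfold dd
  push_cast at h0 h2 ⊢
  linarith

lemma dd_le (K : ℕ) : ∀ i, i + 1 ≤ K → dd K i ≤ 2 / ((K : ℝ) + 1) * mm K i := by
  intro i
  induction i using Nat.strong_induction_on with
  | _ i ih =>
    intro hi
    have hK : (0 : ℝ) < (K : ℝ) + 1 := by positivity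
    have hKi : (0 : ℝ) < (K : ℝ) + 1 + i := by positivity
    refine le_of_mul_le_mul_left ?_ hKi
    rw [dd_rec K i hi]
    have hg := green (fun j => tt (K + j)) ((K : ℝ) + 1) i
    have hmm : mm K i = ∑ j ∈ range (i + 1), tt (K + j) * cc (i - j) := rfl
    have e : ((K : ℝ) + 1 + i) * (2 / ((K : ℝ) + 1) * mm K i)
        = 2 / ((K : ℝ) + 1) * (∑ j ∈ range (i + 1), ((K : ℝ) + 1 + j) * (tt (K + j) * tt (i - j)))
          + 2 / ((K : ℝ) + 1) * (((K : ℝ) + 1 + i + 1) * ∑ k ∈ range i, mm K k * tt (i - 1 - k)) := by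
      rw [hmm, ← mul_add]
      unfold mm
      rw [← hg]
      ring
    rw [e, Finset.sum_range_succ']
    have c0 : tt K * tt i ≤ 2 / ((K : ℝ) + 1) *
        (((K : ℝ) + 1 + ((0 : ℕ) : ℝ)) * (tt (K + 0) * tt (i - 0))) := by
      rw [Nat.cast_zero, add_zero, Nat.add_zero, Nat.sub_zero, ← mul_assoc,
        div_mul_cancel₀ _ hK.ne']
      have := mul_pos (tt_pos K) (tt_pos i)
      linarith
    have c1 : ∑ k ∈ range i, tt (i - 1 - k) * (f (K + 2) (K + 1 + k) + f K (K + 1 + k))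
        ≤ 2 / ((K : ℝ) + 1) * ∑ k ∈ range i, ((K : ℝ) + 1 + ((k + 1 : ℕ) : ℝ)) *
          (tt (K + (k + 1)) * tt (i - (k + 1))) := by
      rw [Finset.mul_sum]
      apply Finset.sum_le_sum
      intro k hk
      have a1 : i - (k + 1) = i - 1 - k := by omega
      have a2 : K + (k + 1) = K + 1 + k := by omega
      rw [a1, a2]
      have g1 := f_le_tt (K + 2) (K + 1 + k)
      have g2 := f_le_tt K (K + 1 + k)
      have p1 := tt_pos (i - 1 - k)
      have p2 := tt_pos (K + 1 + k)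
      have hcoef : 2 ≤ 2 / ((K : ℝ) + 1) * ((K : ℝ) + 1 + ((k + 1 : ℕ) : ℝ)) := by
        rw [div_mul_eq_mul_div, le_div_iff₀ hK]
        push_cast
        have : (0 : ℝ) ≤ k := Nat.cast_nonneg k
        nlinarith
      calc tt (i - 1 - k) * (f (K + 2) (K + 1 + k) + f K (K + 1 + k))
          ≤ tt (i - 1 - k) * (2 * tt (K + 1 + k)) :=
            mul_le_mul_of_nonneg_left (by linarith) p1.le
        _ = 2 * (tt (K + 1 + k) * tt (i - 1 - k)) := by ring
        _ ≤ (2 / ((K : ℝ) + 1) * ((K : ℝ) + 1 + ((k + 1 : ℕ) : ℝ))) *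
            (tt (K + 1 + k) * tt (i - 1 - k)) :=
            mul_le_mul_of_nonneg_right hcoef (mul_pos p2 p1).le
        _ = _ := by ring
    have c2 : ∑ k ∈ range i, (((i : ℝ) - k) + (K + 1)) * (tt (i - 1 - k) * dd K k)
        ≤ 2 / ((K : ℝ) + 1) * (((K : ℝ) + 1 + i + 1) * ∑ k ∈ range i, mm K k * tt (i - 1 - k)) := by
      rw [Finset.mul_sum, Finset.mul_sum]
      apply Finset.sum_le_sum
      intro k hk
      have hk' := mem_range.mp hk
      have hik : (k : ℝ) + 1 ≤ i := by exact_mod_cast hk'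
      have hk0 : (0 : ℝ) ≤ k := Nat.cast_nonneg k
      have g := ih k hk' (by omega)
      have p1 := tt_pos (i - 1 - k)
      have q1 : 0 ≤ 2 / ((K : ℝ) + 1) * mm K k := mul_nonneg (by positivity) (mm_nonneg K k)
      calc (((i : ℝ) - k) + (K + 1)) * (tt (i - 1 - k) * dd K k)
          ≤ (((i : ℝ) - k) + (K + 1)) * (tt (i - 1 - k) * (2 / ((K : ℝ) + 1) * mm K k)) := by
            apply mul_le_mul_of_nonneg_left _ (by linarith)
            exact mul_le_mul_of_nonneg_left g p1.le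
        _ ≤ ((K : ℝ) + 1 + i + 1) * (tt (i - 1 - k) * (2 / ((K : ℝ) + 1) * mm K k)) := by
            apply mul_le_mul_of_nonneg_right _ (mul_nonneg p1.le q1)
            linarith
        _ = _ := by ring
    rw [mul_add]
    linarith

lemma uu_rec (K i : ℕ) : ((K : ℝ) + 1 + i) * uu K i
    = ((K : ℝ) + 1) * (tt K * tt i)
      + ((K : ℝ) + 1 + i + 1) * ∑ k ∈ range i, uu K k * tt (i - 1 - k) := by
  have h : ∑ k ∈ range i, uu K k * tt (i - 1 - k) = tt K * ((i : ℝ) * tt i) := by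
    unfold uu
    rcases Nat.eq_zero_or_pos i with rfl | hi
    · simp
    · obtain ⟨n, rfl⟩ : ∃ n, i = n + 1 := ⟨i - 1, by omega⟩
      rw [Nat.add_sub_cancel]
      push_cast
      rw [← abel_ct, Finset.mul_sum]
      apply Finset.sum_congr rfl
      intro k _
      ring
  rw [h]
  unfold uu
  rw [cc_eq]
  ring

lemma DD_le (K I : ℕ) (hI : I + 1 ≤ K) : ∀ i, i ≤ I →
    DD K i ≤ 2 / ((K : ℝ) + 1) ^ 2 * ss K i - 1 / ((K : ℝ) + 1) * uu K i
      + ((I : ℝ) / ((K : ℝ) + 1 + I)) / ((K : ℝ) + 1) * rr K i := by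
  intro i
  induction i using Nat.strong_induction_on with
  | _ i ih =>
    intro hi
    obtain ⟨L, hL⟩ : ∃ L : ℝ, L = (K : ℝ) + 1 := ⟨_, rfl⟩
    have hL0 : 0 < L := by rw [hL]; positivity
    obtain ⟨κ, hκ⟩ : ∃ κ : ℝ, κ = (I : ℝ) / ((K : ℝ) + 1 + I) := ⟨_, rfl⟩
    have hκ0 : 0 ≤ κ := by rw [hκ]; positivity
    have hD := DD_rec K i (by omega)
    have hu := uu_rec K i
    have hr := green2 (uu K) ((K : ℝ) + 1) i
    have hs := green2 (mm K) ((K : ℝ) + 1) i
    rw [← hL] at hD hu hr hs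
    rw [← hκ, ← hL]
    have hi0 : (0 : ℝ) ≤ i := Nat.cast_nonneg i
    have hLi : 0 < L + i := by linarith
    refine le_of_mul_le_mul_left ?_ hLi
    rw [hD]
    have e : (L + i) * (2 / L ^ 2 * ss K i - 1 / L * uu K i + κ / L * rr K i)
        = 2 / L ^ 2 * ((L + i) * ss K i) - 1 / L * ((L + i) * uu K i) + κ / L * ((L + i) * rr K i) := by
      ring
    rw [e, hu]
    have er : (L + i) * rr K i = ∑ k ∈ range i, (L + 1 + k) * (uu K k * tt (i - 1 - k))
        + (L + i + 1) * ∑ k ∈ range i, rr K k * tt (i - 1 - k) := hr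
    have es : (L + i) * ss K i = ∑ k ∈ range i, (L + 1 + k) * (mm K k * tt (i - 1 - k))
        + (L + i + 1) * ∑ k ∈ range i, ss K k * tt (i - 1 - k) := hs
    rw [er, es]
    have e2 : 1 / L * (L * (tt K * tt i) + (L + i + 1) * ∑ k ∈ range i, uu K k * tt (i - 1 - k))
        = tt K * tt i + 1 / L * ((L + i + 1) * ∑ k ∈ range i, uu K k * tt (i - 1 - k)) := by
      rw [mul_add, ← mul_assoc (1 / L) L, one_div_mul_cancel hL0.ne', one_mul]
    rw [e2]
    have key : ∑ k ∈ range i, (((i : ℝ) - k) + L) * (tt (i - 1 - k) * DD K k)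
        + ∑ k ∈ range i, tt (i - 1 - k) * dd K k
        ≤ 2 / L ^ 2 * (∑ k ∈ range i, (L + 1 + k) * (mm K k * tt (i - 1 - k))
        + (L + i + 1) * ∑ k ∈ range i, ss K k * tt (i - 1 - k))
        - 1 / L * ((L + i + 1) * ∑ k ∈ range i, uu K k * tt (i - 1 - k))
        + κ / L * (∑ k ∈ range i, (L + 1 + k) * (uu K k * tt (i - 1 - k))
        + (L + i + 1) * ∑ k ∈ range i, rr K k * tt (i - 1 - k)) := by
      rw [← Finset.sum_add_distrib, Finset.mul_sum (range i) _ (L + i + 1),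
        Finset.mul_sum (range i) _ (L + i + 1), Finset.mul_sum (range i) _ (L + i + 1),
        ← Finset.sum_add_distrib, ← Finset.sum_add_distrib, Finset.mul_sum, Finset.mul_sum,
        Finset.mul_sum, ← Finset.sum_sub_distrib, ← Finset.sum_add_distrib]
      apply Finset.sum_le_sum
      intro k hk
      have hk' := mem_range.mp hk
      have hik : (k : ℝ) + 1 ≤ i := by exact_mod_cast hk'
      have hk0 : (0 : ℝ) ≤ k := Nat.cast_nonneg k
      have g := ih k hk' (by omega)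
      rw [← hκ, ← hL] at g
      have gd := dd_le K k (by omega)
      rw [← hL] at gd
      have p1 := tt_pos (i - 1 - k)
      have hiI : (i : ℝ) ≤ I := by exact_mod_cast hi
      have hκk : (k : ℝ) + 1 ≤ κ * (L + 1 + k) := by
        rw [hκ, ← hL, div_mul_eq_mul_div, le_div_iff₀ (by positivity)]
        nlinarith
      have hmn := mm_nonneg K k
      have hun := uu_nonneg K k
      have hsn := ss_nonneg K k
      have hrn := rr_nonneg K k
      -- the difference of both sides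
      have s1 : (((i : ℝ) - k) + L) * (tt (i - 1 - k) * DD K k)
          ≤ (((i : ℝ) - k) + L) * (tt (i - 1 - k) *
            (2 / L ^ 2 * ss K k - 1 / L * uu K k + κ / L * rr K k)) := by
        apply mul_le_mul_of_nonneg_left _ (by linarith)
        exact mul_le_mul_of_nonneg_left g p1.le
      have s2 : tt (i - 1 - k) * dd K k ≤ tt (i - 1 - k) * (2 / L * mm K k) :=
        mul_le_mul_of_nonneg_left gd p1.le
      have t1 : 0 ≤ 2 / L ^ 2 * ((k : ℝ) + 1) * ss K k := by positivity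
      have t2 : 0 ≤ κ / L * ((k : ℝ) + 1) * rr K k := by positivity
      have t3 : 0 ≤ 2 / L ^ 2 * ((k : ℝ) + 1) * mm K k := by positivity
      have t4 : 0 ≤ 1 / L * (κ * (L + 1 + k) - (k + 1)) * uu K k := by
        apply mul_nonneg _ hun
        apply mul_nonneg (by positivity)
        linarith
      have t5 : 0 ≤ tt (i - 1 - k) * (2 / L ^ 2 * ((k : ℝ) + 1) * ss K k
          + κ / L * ((k : ℝ) + 1) * rr K k + 2 / L ^ 2 * ((k : ℝ) + 1) * mm K k
          + 1 / L * (κ * (L + 1 + k) - (k + 1)) * uu K k) := by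
        apply mul_nonneg p1.le
        linarith
      have fin : (2 / L ^ 2 * ((L + 1 + k) * (mm K k * tt (i - 1 - k))
          + (L + i + 1) * (ss K k * tt (i - 1 - k)))
          - 1 / L * ((L + i + 1) * (uu K k * tt (i - 1 - k)))
          + κ / L * ((L + 1 + k) * (uu K k * tt (i - 1 - k))
          + (L + i + 1) * (rr K k * tt (i - 1 - k))))
          - ((((i : ℝ) - k) + L) * (tt (i - 1 - k) *
            (2 / L ^ 2 * ss K k - 1 / L * uu K k + κ / L * rr K k))
            + tt (i - 1 - k) * (2 / L * mm K k))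
          = tt (i - 1 - k) * (2 / L ^ 2 * ((k : ℝ) + 1) * ss K k
          + κ / L * ((k : ℝ) + 1) * rr K k + 2 / L ^ 2 * ((k : ℝ) + 1) * mm K k
          + 1 / L * (κ * (L + 1 + k) - (k + 1)) * uu K k) := by
        field_simp
        ring
      linarith
    linarith

end Pool.Agent.MP_9da1e3_co
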