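import Pool.Agent.Lib.MP_9da1e3_co.Right2

namespace Pool.Agent.MP_9da1e3_co

open Finset

noncomputable def E : ℝ := Real.exp 1

noncomputable def U : ℝ := 1 / √(2 * Real.pi)

noncomputable def sq (k : ℕ) : ℝ := √((k : ℝ) + 1)

lemma E_pos : 0 < E := Real.exp_pos 1

lemma U_pos : 0 < U := by
  have := Real.pi_pos
  unfold U
  positivity

lemma sq_pos (k : ℕ) : 0 < sq k := Real.sqrt_pos.mpr (by positivity)

lemma sq_sq (k : ℕ) : sq k * sq k = (k : ℝ) + 1 := Real.mul_self_sqrt (by positivity)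

lemma cc_stirling (k : ℕ) :
    cc k * (√2 * sq k * Stirling.stirlingSeq (k + 1)) = E ^ (k + 1) := by
  have h1 : √(2 * (((k + 1 : ℕ) : ℝ))) = √2 * sq k := by
    rw [Real.sqrt_mul (by norm_num)]
    unfold sq
    push_cast
    rfl
  unfold Stirling.stirlingSeq cc
  rw [h1, Nat.factorial_succ]
  have h2 : (0 : ℝ) < √2 := by positivity
  have h3 := sq_pos k
  have h4 : (0 : ℝ) < (k : ℝ) + 1 := by positivity
  have h5 : (0 : ℝ) < (k.factorial : ℝ) := by positivity
  have h6 := E_pos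
  have h7 : Real.exp 1 = E := rfl
  rw [h7]
  push_cast
  rw [div_pow]
  field_simp
  rw [pow_succ]
  ring

lemma cc_le (k : ℕ) : cc k ≤ U * E ^ (k + 1) / sq k := by
  have h := cc_stirling k
  have h1 := Stirling.sqrt_pi_le_stirlingSeq (n := k + 1) (by omega)
  have h2 := sq_pos k
  have h3 := cc_pos k
  have hU : U * (√2 * √Real.pi) = 1 := by
    unfold U
    have hpi := Real.pi_pos
    rw [← Real.sqrt_mul (by norm_num)]
    have : 0 < √(2 * Real.pi) := Real.sqrt_pos.mpr (by positivity)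
    rw [one_div, inv_mul_cancel₀ this.ne']
  rw [le_div_iff₀ h2]
  have h5 : cc k * (√2 * sq k * √Real.pi) ≤ E ^ (k + 1) := by
    rw [← h]
    apply mul_le_mul_of_nonneg_left _ h3.le
    exact mul_le_mul_of_nonneg_left h1 (by positivity)
  calc cc k * sq k = U * (√2 * √Real.pi) * (cc k * sq k) := by rw [hU, one_mul]
    _ = U * (cc k * (√2 * sq k * √Real.pi)) := by ring
    _ ≤ _ := mul_le_mul_of_nonneg_left h5 U_pos.le

lemma le_cc (k : ℕ) : E ^ k / sq k ≤ cc k := by
  have h := cc_stirling k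
  have h1 : Stirling.stirlingSeq (k + 1) ≤ E / √2 := by
    have := Stirling.stirlingSeq'_antitone (Nat.zero_le k)
    simp only [Function.comp_apply, Nat.succ_eq_add_one, zero_add] at this
    rw [Stirling.stirlingSeq_one] at this
    exact this
  have h2 := sq_pos k
  have h3 := cc_pos k
  have h6 := E_pos
  rw [div_le_iff₀ h2]
  have h5 : E ^ (k + 1) ≤ cc k * (√2 * sq k * (E / √2)) := by
    rw [← h]
    apply mul_le_mul_of_nonneg_left _ h3.le
    exact mul_le_mul_of_nonneg_left h1 (by positivity)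
  have h7 : cc k * (√2 * sq k * (E / √2)) = E * (cc k * sq k) := by
    have : (0 : ℝ) < √2 := by positivity
    field_simp
  rw [h7, pow_succ, mul_comm (E ^ k) E] at h5
  exact le_of_mul_le_mul_left h5 h6

lemma sum_inv_sq (m : ℕ) : ∑ k ∈ range m, 1 / sq k ≤ 2 * √(m : ℝ) := by
  induction m with
  | zero => simp
  | succ m ih =>
    rw [Finset.sum_range_succ]
    have h1 : √((m + 1 : ℕ) : ℝ) = sq m := by unfold sq; push_cast; rfl
    rw [h1]
    have h2 := sq_pos m
    have h3 := sq_sq m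
    have h4 : √(m : ℝ) * √(m : ℝ) = m := Real.mul_self_sqrt (Nat.cast_nonneg m)
    have h5 : 0 ≤ √(m : ℝ) := Real.sqrt_nonneg _
    have h6 : 1 / sq m ≤ 2 * sq m - 2 * √(m : ℝ) := by
      rw [div_le_iff₀ h2]
      nlinarith [sq_nonneg (sq m - √(m : ℝ))]
    linarith

lemma sum_inv_sq' (m : ℕ) : ∑ k ∈ range (m + 1), 1 / sq k ≤ 2 * sq m := by
  have h := sum_inv_sq (m + 1)
  have h1 : √((m + 1 : ℕ) : ℝ) = sq m := by unfold sq; push_cast; rfl
  rwa [h1] at h

lemma sum_inv_sq_rev (m : ℕ) : ∑ k ∈ range (m + 1), 1 / sq (m - k) ≤ 2 * sq m := by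
  have h := Finset.sum_range_reflect (fun k => 1 / sq k) (m + 1)
  have e : ∑ k ∈ range (m + 1), 1 / sq (m - k) = ∑ k ∈ range (m + 1), 1 / sq (m + 1 - 1 - k) := by
    apply Finset.sum_congr rfl
    intro k _
    have : m + 1 - 1 - k = m - k := by omega
    rw [this]
  rw [e, h]
  exact sum_inv_sq' m

lemma sum_conv (i : ℕ) : ∑ k ∈ range (i + 1), 1 / (sq k * sq (i - k)) ≤ 4 := by
  have hs : 0 < √((i : ℝ) + 2) := Real.sqrt_pos.mpr (by positivity)
  have hss : √((i : ℝ) + 2) * √((i : ℝ) + 2) = (i : ℝ) + 2 := Real.mul_self_sqrt (by positivity)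
  have h1 : ∀ k ∈ range (i + 1), 1 / (sq k * sq (i - k)) ≤
      (1 / sq k + 1 / sq (i - k)) / √((i : ℝ) + 2) := by
    intro k hk
    have hk' : k ≤ i := by have := mem_range.mp hk; omega
    have a := sq_pos k
    have b := sq_pos (i - k)
    have ha := sq_sq k
    have hb := sq_sq (i - k)
    rw [Nat.cast_sub hk'] at hb
    have h2 : √((i : ℝ) + 2) ≤ sq k + sq (i - k) := by
      apply Real.sqrt_le_iff.mpr
      constructor
      · positivity
      · nlinarith [mul_pos a b]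
    rw [le_div_iff₀ hs, div_mul_eq_mul_div, div_le_iff₀ (mul_pos a b)]
    have h3 : (1 / sq k + 1 / sq (i - k)) * (sq k * sq (i - k)) = sq k + sq (i - k) := by
      field_simp
      ring
    rw [h3]
    linarith
  refine (Finset.sum_le_sum h1).trans ?_
  rw [← Finset.sum_div, Finset.sum_add_distrib, div_le_iff₀ hs]
  have h2 := sum_inv_sq' i
  have h3 := sum_inv_sq_rev i
  have h4 : sq i ≤ √((i : ℝ) + 2) := by
    unfold sq
    apply Real.sqrt_le_sqrt
    linarith
  linarith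

lemma cc_conv (i : ℕ) : ∑ k ∈ range (i + 1), cc k * cc (i - k) ≤ 4 * U ^ 2 * E ^ (i + 2) := by
  have hU := U_pos
  have hE := E_pos
  have h1 : ∀ k ∈ range (i + 1), cc k * cc (i - k) ≤
      U ^ 2 * E ^ (i + 2) * (1 / (sq k * sq (i - k))) := by
    intro k hk
    have hk' : k ≤ i := by have := mem_range.mp hk; omega
    have a := sq_pos k
    have b := sq_pos (i - k)
    calc cc k * cc (i - k) ≤ (U * E ^ (k + 1) / sq k) * (U * E ^ (i - k + 1) / sq (i - k)) :=
          mul_le_mul (cc_le k) (cc_le _) (cc_pos _).le (by positivity)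
      _ = U ^ 2 * (E ^ (k + 1) * E ^ (i - k + 1)) * (1 / (sq k * sq (i - k))) := by
          field_simp
      _ = _ := by
          rw [← pow_add]
          have : k + 1 + (i - k + 1) = i + 2 := by omega
          rw [this]
  refine (Finset.sum_le_sum h1).trans ?_
  rw [← Finset.mul_sum]
  have h2 := sum_conv i
  have h3 : 0 ≤ U ^ 2 * E ^ (i + 2) := by positivity
  nlinarith [mul_le_mul_of_nonneg_left h2 h3]

lemma rr_le (K i : ℕ) : rr K i ≤ tt K * (4 * U ^ 2 * E ^ (i + 1)) := by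
  have hU := U_pos
  have hE := E_pos
  have ht := tt_pos K
  rcases Nat.eq_zero_or_pos i with rfl | hi
  · unfold rr
    simp only [Finset.range_zero, Finset.sum_empty]
    positivity
  · obtain ⟨n, rfl⟩ : ∃ n, i = n + 1 := ⟨i - 1, by omega⟩
    have e : rr K (n + 1) = tt K * ∑ k ∈ range (n + 1), cc k * cc (n - k) := by
      unfold rr uu
      rw [Finset.mul_sum]
      apply Finset.sum_congr rfl
      intro k _
      rw [Nat.add_sub_cancel]
      ring
    rw [e]
    exact mul_le_mul_of_nonneg_left (cc_conv n) ht.le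

lemma tt_le (K j : ℕ) : tt (K + j) ≤ U * E ^ (K + j + 1) / (((K : ℝ) + 1) * sq K) := by
  have hU := U_pos
  have hE := E_pos
  have hK := sq_pos K
  have hKj := sq_pos (K + j)
  have h := cc_le (K + j)
  rw [cc_eq] at h
  have hj : (0 : ℝ) ≤ j := Nat.cast_nonneg j
  have h0 : (0 : ℝ) < ((K + j : ℕ) : ℝ) + 1 := by positivity
  rw [mul_comm, ← le_div_iff₀ h0, div_div] at h
  refine h.trans ?_
  apply div_le_div_of_nonneg_left (by positivity) (by positivity)
  have h1 : sq K ≤ sq (K + j) := by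
    unfold sq
    apply Real.sqrt_le_sqrt
    push_cast
    linarith
  have h2 : (K : ℝ) + 1 ≤ ((K + j : ℕ) : ℝ) + 1 := by
    push_cast
    linarith
  rw [mul_comm]
  exact mul_le_mul h1 h2 (by positivity) hKj.le

lemma le_tt (K : ℕ) : E ^ K / (((K : ℝ) + 1) * sq K) ≤ tt K := by
  have h := le_cc K
  rw [cc_eq] at h
  have h0 : (0 : ℝ) < (K : ℝ) + 1 := by positivity
  have h1 := sq_pos K
  rw [div_le_iff₀ h1] at h
  rw [div_le_iff₀ (by positivity)]
  linarith

lemma mm_le (K i : ℕ) :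
    mm K i ≤ 2 * U ^ 2 * E ^ (K + i + 2) / (((K : ℝ) + 1) * sq K) * sq i := by
  have hU := U_pos
  have hE := E_pos
  have hK := sq_pos K
  have h0 : (0 : ℝ) < (K : ℝ) + 1 := by positivity
  have h1 : ∀ j ∈ range (i + 1), tt (K + j) * cc (i - j) ≤
      U ^ 2 * E ^ (K + i + 2) / (((K : ℝ) + 1) * sq K) * (1 / sq (i - j)) := by
    intro j hj
    have hj' : j ≤ i := by have := mem_range.mp hj; omega
    have b := sq_pos (i - j)
    calc tt (K + j) * cc (i - j)
        ≤ (U * E ^ (K + j + 1) / (((K : ℝ) + 1) * sq K)) * (U * E ^ (i - j + 1) / sq (i - j)) :=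
          mul_le_mul (tt_le K j) (cc_le _) (cc_pos _).le (by positivity)
      _ = U ^ 2 * (E ^ (K + j + 1) * E ^ (i - j + 1)) / (((K : ℝ) + 1) * sq K) *
          (1 / sq (i - j)) := by
          field_simp
      _ = _ := by
          rw [← pow_add]
          have : K + j + 1 + (i - j + 1) = K + i + 2 := by omega
          rw [this]
  unfold mm
  refine (Finset.sum_le_sum h1).trans ?_
  rw [← Finset.mul_sum]
  have h2 := sum_inv_sq_rev i
  have h3 : 0 ≤ U ^ 2 * E ^ (K + i + 2) / (((K : ℝ) + 1) * sq K) := by positivity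
  refine (mul_le_mul_of_nonneg_left h2 h3).trans (le_of_eq ?_)
  ring

lemma ss_le (K i : ℕ) :
    ss K i ≤ 4 * U ^ 3 * E ^ (K + i + 2) / (((K : ℝ) + 1) * sq K) * i := by
  have hU := U_pos
  have hE := E_pos
  have hK := sq_pos K
  have h0 : (0 : ℝ) < (K : ℝ) + 1 := by positivity
  rcases Nat.eq_zero_or_pos i with rfl | hi
  · unfold ss
    simp
  · obtain ⟨n, rfl⟩ : ∃ n, i = n + 1 := ⟨i - 1, by omega⟩
    have h1 : ∀ k ∈ range (n + 1), mm K k * cc (n + 1 - 1 - k) ≤
        2 * U ^ 3 * E ^ (K + (n + 1) + 2) / (((K : ℝ) + 1) * sq K) * sq n * (1 / sq (n - k)) := by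
      intro k hk
      have hk' : k ≤ n := by have := mem_range.mp hk; omega
      have b := sq_pos (n - k)
      have c := sq_pos k
      have hkn : sq k ≤ sq n := by
        unfold sq
        apply Real.sqrt_le_sqrt
        have : (k : ℝ) ≤ n := by exact_mod_cast hk'
        linarith
      have h2 : mm K k ≤ 2 * U ^ 2 * E ^ (K + k + 2) / (((K : ℝ) + 1) * sq K) * sq n :=
        (mm_le K k).trans (mul_le_mul_of_nonneg_left hkn (by positivity))
      rw [Nat.add_sub_cancel]
      calc mm K k * cc (n - k)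
          ≤ (2 * U ^ 2 * E ^ (K + k + 2) / (((K : ℝ) + 1) * sq K) * sq n) *
            (U * E ^ (n - k + 1) / sq (n - k)) :=
            mul_le_mul h2 (cc_le _) (cc_pos _).le
              (mul_nonneg (by positivity) (sq_pos n).le)
        _ = 2 * U ^ 3 * (E ^ (K + k + 2) * E ^ (n - k + 1)) / (((K : ℝ) + 1) * sq K) * sq n *
            (1 / sq (n - k)) := by
            field_simp
        _ = _ := by
            rw [← pow_add]
            have : K + k + 2 + (n - k + 1) = K + (n + 1) + 2 := by omega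
            rw [this]
    unfold ss
    refine (Finset.sum_le_sum h1).trans ?_
    rw [← Finset.mul_sum]
    have h2 := sum_inv_sq_rev n
    have h3 : 0 ≤ 2 * U ^ 3 * E ^ (K + (n + 1) + 2) / (((K : ℝ) + 1) * sq K) * sq n :=
      mul_nonneg (by positivity) (sq_pos n).le
    refine (mul_le_mul_of_nonneg_left h2 h3).trans (le_of_eq ?_)
    have h4 := sq_sq n
    push_cast
    calc 2 * U ^ 3 * E ^ (K + (n + 1) + 2) / (((K : ℝ) + 1) * sq K) * sq n * (2 * sq n)
        = 4 * U ^ 3 * E ^ (K + (n + 1) + 2) / (((K : ℝ) + 1) * sq K) * (sq n * sq n) := by ring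
      _ = _ := by rw [h4]

lemma U_le : U ≤ 0.3991 := by
  unfold U
  have h1 : (2.506 : ℝ) ≤ √(2 * Real.pi) := by
    apply Real.le_sqrt_of_sq_le
    have := Real.pi_gt_d4
    norm_num at this ⊢
    linarith
  rw [div_le_iff₀ (by linarith)]
  linarith

lemma E_le : E ≤ 2.7183 := by
  have := Real.exp_one_lt_d9
  unfold E
  linarith

lemma const_le : 8 * U ^ 3 * E ^ 2 + 4 * U ^ 2 * E ≤ 5.5 := by
  have h1 := U_le
  have h2 := E_le
  have h3 := U_pos.le
  have h4 := E_pos.le
  have a : U ^ 3 ≤ 0.3991 ^ 3 := pow_le_pow_left₀ h3 h1 3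
  have b : U ^ 2 ≤ 0.3991 ^ 2 := pow_le_pow_left₀ h3 h1 2
  have c : E ^ 2 ≤ 2.7183 ^ 2 := pow_le_pow_left₀ h4 h2 2
  have d : U ^ 3 * E ^ 2 ≤ 0.3991 ^ 3 * 2.7183 ^ 2 :=
    mul_le_mul a c (by positivity) (by positivity)
  have e : U ^ 2 * E ≤ 0.3991 ^ 2 * 2.7183 :=
    mul_le_mul b h2 (by positivity) (by positivity)
  norm_num at d e ⊢
  linarith

theorem DD_nonpos (K I : ℕ) (hI : I + 1 ≤ K) (h : 5.5 * ((I : ℝ) * sq I) ≤ (K : ℝ) + 1) :
    DD K I ≤ 0 := by
  have hU := U_pos
  have hE := E_pos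
  have hKs := sq_pos K
  have hIs := sq_pos I
  have htt := tt_pos K
  have hD := DD_le K I hI I le_rfl
  obtain ⟨L, hL⟩ : ∃ L : ℝ, L = (K : ℝ) + 1 := ⟨_, rfl⟩
  have hL0 : 0 < L := by rw [hL]; positivity
  have hI0 : (0 : ℝ) ≤ I := Nat.cast_nonneg I
  have h1 := ss_le K I
  have h2 := rr_le K I
  have h3 := le_tt K
  have h4 : uu K I = tt K * cc I := rfl
  have h5 := le_cc I
  rw [← hL] at hD h1 h3 h
  -- everything in units of `tt K * E ^ I`
  have g1 : ss K I ≤ tt K * E ^ I * (4 * U ^ 3 * E ^ 2 * I) := by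
    have e : 4 * U ^ 3 * E ^ (K + I + 2) / (L * sq K) * I
        = E ^ K / (L * sq K) * (E ^ I * (4 * U ^ 3 * E ^ 2 * I)) := by
      rw [pow_add, pow_add]
      ring
    rw [e] at h1
    refine h1.trans ((mul_le_mul_of_nonneg_right h3 (by positivity)).trans (le_of_eq ?_))
    ring
  have g2 : rr K I ≤ tt K * E ^ I * (4 * U ^ 2 * E) := by
    refine h2.trans (le_of_eq ?_)
    rw [pow_succ]
    ring
  have g3 : tt K * E ^ I / sq I ≤ uu K I := by
    rw [h4, mul_div_assoc]
    exact mul_le_mul_of_nonneg_left h5 htt.le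
  have hk : (I : ℝ) / (L + I) ≤ I / L := by
    apply div_le_div_of_nonneg_left hI0 hL0
    linarith
  have hfin : 2 / L ^ 2 * ss K I + ((I : ℝ) / (L + I)) / L * rr K I ≤ 1 / L * uu K I := by
    have q1 : 2 / L ^ 2 * ss K I ≤ 2 / L ^ 2 * (tt K * E ^ I * (4 * U ^ 3 * E ^ 2 * I)) :=
      mul_le_mul_of_nonneg_left g1 (by positivity)
    have q2 : ((I : ℝ) / (L + I)) / L * rr K I ≤ (I / L) / L * (tt K * E ^ I * (4 * U ^ 2 * E)) := by
      apply mul_le_mul _ g2 (rr_nonneg K I) (by positivity)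
      exact div_le_div_of_nonneg_right hk hL0.le
    have q3 : 1 / L * (tt K * E ^ I / sq I) ≤ 1 / L * uu K I :=
      mul_le_mul_of_nonneg_left g3 (by positivity)
    refine (add_le_add q1 q2).trans (le_trans ?_ q3)
    have e : 2 / L ^ 2 * (tt K * E ^ I * (4 * U ^ 3 * E ^ 2 * I))
        + (I / L) / L * (tt K * E ^ I * (4 * U ^ 2 * E))
        = (1 / L * (tt K * E ^ I / sq I)) *
          ((8 * U ^ 3 * E ^ 2 + 4 * U ^ 2 * E) * (I * sq I) / L) := by
      field_simp
      ring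
    rw [e]
    have q4 : (8 * U ^ 3 * E ^ 2 + 4 * U ^ 2 * E) * (I * sq I) / L ≤ 1 := by
      rw [div_le_one hL0]
      exact (mul_le_mul_of_nonneg_right const_le (by positivity)).trans h
    have q5 : 0 ≤ 1 / L * (tt K * E ^ I / sq I) := by positivity
    exact mul_le_of_le_one_right q5 q4
  linarith

end Pool.Agent.MP_9da1e3_co
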