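import Pool.Agent.Lib.MP_9da1e3_co.Ct1

/-!
The coefficients `r_j = (j-1)^(j-1) / (j! e^j)`, `j ≥ 1`, of `1 - 1/T`: `rj k = r_(k+1)`.
Two-sided bounds, ratios, differences, convexity.
-/

namespace Pool.Agent.MP_9da1e3_co

open Finset

/-- `rj k = r_(k+1) = k^k / ((k+1)! e^(k+1))` -/
noncomputable def rj (k : ℕ) : ℝ := (k : ℝ) ^ k / ((k + 1).factorial : ℝ) / E ^ (k + 1)

lemma rj_pos (k : ℕ) : 0 < rj k := by
  unfold rj
  have hE := E_pos
  have h1 : (0 : ℝ) < (k : ℝ) ^ k := by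
    rcases Nat.eq_zero_or_pos k with rfl | hk
    · norm_num
    · have : (0 : ℝ) < k := by exact_mod_cast hk
      positivity
  positivity

lemma rj_zero : rj 0 = 1 / E := by
  unfold rj
  norm_num

/-- `(1 + 1/k)^k / e` -/
noncomputable def rj_q (k : ℕ) : ℝ := (1 + 1 / (k : ℝ)) ^ k / E

lemma rj_q_zero : rj_q 0 = 1 / E := by
  unfold rj_q
  norm_num

lemma rj_q_pos (k : ℕ) : 0 < rj_q k := by
  unfold rj_q
  have hE := E_pos
  positivity

lemma rj_step (k : ℕ) : rj (k + 1) = rj k * (rj_q k * (((k : ℝ) + 1) / ((k : ℝ) + 2))) := by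
  have hE := E_pos
  rcases Nat.eq_zero_or_pos k with rfl | hk
  · rw [rj_zero, rj_q_zero]
    unfold rj
    norm_num [Nat.factorial]
    field_simp
  · have hk0 : (0 : ℝ) < k := by exact_mod_cast hk
    unfold rj rj_q
    have h4 : (1 + 1 / (k : ℝ)) ^ k = ((k : ℝ) + 1) ^ k / (k : ℝ) ^ k := by
      rw [← div_pow]
      congr 1
      field_simp
    have hf : (0 : ℝ) < ((k + 1).factorial : ℝ) := by positivity
    rw [h4, Nat.factorial_succ (k + 1)]
    push_cast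
    have h5 : (k : ℝ) + 1 + 1 = (k : ℝ) + 2 := by ring
    rw [h5, pow_succ E (k + 1), pow_succ ((k : ℝ) + 1) k]
    field_simp

lemma rj_succ_eq_tn (k : ℕ) : rj (k + 1) = ((k : ℝ) + 1) * tn k / (E ^ 2 * ((k : ℝ) + 2)) := by
  have hE := E_pos
  have h0 : (0 : ℝ) < (k : ℝ) + 1 := by positivity
  have h1 : tn k = ((k : ℝ) + 1) ^ k / (((k : ℝ) + 1) * (k.factorial : ℝ)) / E ^ k := by
    have h2 := cc_eq k
    have h3 : cc k = ((k : ℝ) + 1) ^ k / (k.factorial : ℝ) := rfl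
    have hf : (0 : ℝ) < (k.factorial : ℝ) := by positivity
    unfold tn
    congr 1
    rw [h3] at h2
    field_simp at h2 ⊢
    linarith
  rw [h1]
  unfold rj
  have hf : (0 : ℝ) < (k.factorial : ℝ) := by positivity
  rw [Nat.factorial_succ (k + 1), Nat.factorial_succ k]
  push_cast
  have h5 : (k : ℝ) + 1 + 1 = (k : ℝ) + 2 := by ring
  rw [h5, pow_succ E (k + 1), pow_succ E k, pow_succ ((k : ℝ) + 1) k]
  have hEk : 0 < E ^ k := pow_pos hE k
  field_simp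

lemma rj_succ_eq_aa (k : ℕ) : rj (k + 1) * (((k : ℝ) + 2) * sq k) = aa k / E ^ 2 := by
  have hE := E_pos
  rw [rj_succ_eq_tn]
  unfold aa
  field_simp

lemma rj_c_lt : cA / E ^ 2 < 0.146763 := by
  have h := cA_lt
  have hE : 2.7182818283 < E := Real.exp_one_gt_d9
  have hE0 := E_pos
  rw [div_lt_iff₀ (by positivity)]
  nlinarith

lemma lt_rj_c : 0.14676 < cA / E ^ 2 := by
  have h := lt_cA
  have hE : E < 2.7182818286 := Real.exp_one_lt_d9
  have hE0 := E_pos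
  rw [lt_div_iff₀ (by positivity)]
  nlinarith

/-- upper bound: `r_j ≤ .146763 / (j √(j-1))`, `j = k + 2` -/
lemma rj_le (k : ℕ) : rj (k + 1) * (((k : ℝ) + 2) * sq k) ≤ 0.146763 := by
  have hE := E_pos
  rw [rj_succ_eq_aa]
  refine le_trans ?_ rj_c_lt.le
  exact div_le_div_of_nonneg_right (aa_le k) (by positivity)

/-- lower bound: `r_j ≥ .14676 (1 - 1/(12(j-1))) / (j √(j-1))`, `j = k + 2` -/
lemma le_rj (k : ℕ) : 0.14676 * (1 - 1 / (12 * ((k : ℝ) + 1))) ≤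
    rj (k + 1) * (((k : ℝ) + 2) * sq k) := by
  have hE := E_pos
  rw [rj_succ_eq_aa]
  have h1 := le_aa k
  have h2 := lt_rj_c
  have h3 : 0 ≤ 1 - 1 / (12 * ((k : ℝ) + 1)) := by
    have hk : (0 : ℝ) ≤ k := Nat.cast_nonneg k
    rw [sub_nonneg, div_le_one (by positivity)]
    linarith
  calc 0.14676 * (1 - 1 / (12 * ((k : ℝ) + 1))) ≤ cA / E ^ 2 * (1 - 1 / (12 * ((k : ℝ) + 1))) :=
        mul_le_mul_of_nonneg_right h2.le h3
    _ = cA * (1 - 1 / (12 * ((k : ℝ) + 1))) / E ^ 2 := by ring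
    _ ≤ _ := div_le_div_of_nonneg_right h1 (by positivity)

/-- `r_j ≤ .146763 (j - 1/2)^(-3/2)`, all `j = k + 1 ≥ 1` -/
lemma rj_upper (k : ℕ) : rj k * (((k : ℝ) + 1 / 2) * √((k : ℝ) + 1 / 2)) ≤ 0.146763 := by
  rcases Nat.eq_zero_or_pos k with rfl | hk
  · rw [rj_zero]
    have hE : 2.7182818283 < E := Real.exp_one_gt_d9
    have hE0 := E_pos
    have h1 : √((((0 : ℕ) : ℝ)) + 1 / 2) ≤ 0.7072 := by
      rw [Real.sqrt_le_left (by norm_num)]
      norm_num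
    have h2 : 1 / E ≤ 0.37 := by
      rw [div_le_iff₀ hE0]
      linarith
    have h3 : 0 < 1 / E := by positivity
    have h4 : 0 ≤ √((((0 : ℕ) : ℝ)) + 1 / 2) := Real.sqrt_nonneg _
    push_cast at h1 h4 ⊢
    nlinarith
  · obtain ⟨j, rfl⟩ : ∃ j, k = j + 1 := ⟨k - 1, by omega⟩
    have h1 := rj_le j
    have h2 := rj_pos (j + 1)
    refine le_trans (mul_le_mul_of_nonneg_left ?_ h2.le) h1
    have hj : (0 : ℝ) ≤ j := Nat.cast_nonneg j
    push_cast
    have e : (j : ℝ) + 1 + 1 / 2 = (j : ℝ) + 3 / 2 := by ring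
    rw [e]
    have h5 : √((j : ℝ) + 3 / 2) * √((j : ℝ) + 3 / 2) = (j : ℝ) + 3 / 2 :=
      Real.mul_self_sqrt (by linarith)
    have h6 : sq j * sq j = (j : ℝ) + 1 := sq_sq j
    have h7 := sq_pos j
    apply le_of_sq_le_sq _ (by positivity)
    have e1 : (((j : ℝ) + 3 / 2) * √((j : ℝ) + 3 / 2)) ^ 2 = ((j : ℝ) + 3 / 2) ^ 3 := by
      calc (((j : ℝ) + 3 / 2) * √((j : ℝ) + 3 / 2)) ^ 2 =
          ((j : ℝ) + 3 / 2) ^ 2 * (√((j : ℝ) + 3 / 2) * √((j : ℝ) + 3 / 2)) := by ring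
        _ = _ := by rw [h5]; ring
    have e2 : (((j : ℝ) + 2) * sq j) ^ 2 = ((j : ℝ) + 2) ^ 2 * ((j : ℝ) + 1) := by
      calc (((j : ℝ) + 2) * sq j) ^ 2 = ((j : ℝ) + 2) ^ 2 * (sq j * sq j) := by ring
        _ = _ := by rw [h6]
    rw [e1, e2]
    nlinarith [mul_nonneg hj hj]

/-- `.14676 j^(-3/2) ≤ r_j`, all `j = k + 1 ≥ 1` -/
lemma rj_lower (k : ℕ) : 0.14676 ≤ rj k * (((k : ℝ) + 1) * sq k) := by
  rcases Nat.eq_zero_or_pos k with rfl | hk
  · rw [rj_zero]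
    have hE : E < 2.7182818286 := Real.exp_one_lt_d9
    have hE0 := E_pos
    have h2 : 0.36 ≤ 1 / E := by
      rw [le_div_iff₀ hE0]
      linarith
    have h1 : sq 0 = 1 := by unfold sq; norm_num
    rw [h1]
    push_cast
    linarith
  · obtain ⟨j, rfl⟩ : ∃ j, k = j + 1 := ⟨k - 1, by omega⟩
    have hj : (0 : ℝ) ≤ j := Nat.cast_nonneg j
    have h1 := le_rj j
    have h2 := rj_pos (j + 1)
    have h6 : sq j * sq j = (j : ℝ) + 1 := sq_sq j
    have h7 := sq_pos j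
    have h8 : sq (j + 1) * sq (j + 1) = (j : ℝ) + 2 := by
      have := sq_sq (j + 1)
      push_cast at this
      linarith
    have h9 := sq_pos (j + 1)
    have h3 : 0 < 1 - 1 / (12 * ((j : ℝ) + 1)) := by
      rw [sub_pos, div_lt_one (by positivity)]
      linarith
    have h10 : sq j ≤ sq (j + 1) * (1 - 1 / (12 * ((j : ℝ) + 1))) := by
      apply le_of_sq_le_sq _ (by positivity)
      have e1 : (sq (j + 1) * (1 - 1 / (12 * ((j : ℝ) + 1)))) ^ 2 =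
          ((j : ℝ) + 2) * (1 - 1 / (12 * ((j : ℝ) + 1))) ^ 2 := by
        calc _ = (sq (j + 1) * sq (j + 1)) * (1 - 1 / (12 * ((j : ℝ) + 1))) ^ 2 := by ring
          _ = _ := by rw [h8]
      have e2 : sq j ^ 2 = (j : ℝ) + 1 := by rw [pow_two, h6]
      rw [e1, e2]
      obtain ⟨u, hu⟩ : ∃ u : ℝ, u = 1 / ((j : ℝ) + 1) := ⟨_, rfl⟩
      have hu0 : 0 < u := by rw [hu]; positivity
      have hu1 : u ≤ 1 := by
        rw [hu, div_le_one (by positivity)]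
        linarith
      have e3 : 1 / (12 * ((j : ℝ) + 1)) = u / 12 := by
        rw [hu]; field_simp
      have e4 : (j : ℝ) + 1 = 1 / u := by rw [hu]; field_simp
      have e5 : (j : ℝ) + 2 = 1 / u + 1 := by linarith
      rw [e3, e4, e5]
      have e6 : (1 / u + 1) * (1 - u / 12) ^ 2 = 1 / u + (5 / 6 - 23 / 144 * u + u ^ 2 / 144) := by
        field_simp
        ring
      rw [e6]
      nlinarith
    have h11 : 0.14676 * (1 - 1 / (12 * ((j : ℝ) + 1))) ≤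
        (rj (j + 1) * (((j : ℝ) + 2) * sq (j + 1))) * (1 - 1 / (12 * ((j : ℝ) + 1))) := by
      refine h1.trans ?_
      have h12 : 0 ≤ rj (j + 1) * ((j : ℝ) + 2) := by positivity
      calc rj (j + 1) * (((j : ℝ) + 2) * sq j) = rj (j + 1) * ((j : ℝ) + 2) * sq j := by ring
        _ ≤ rj (j + 1) * ((j : ℝ) + 2) * (sq (j + 1) * (1 - 1 / (12 * ((j : ℝ) + 1)))) :=
            mul_le_mul_of_nonneg_left h10 h12
        _ = _ := by ring
    have h13 := le_of_mul_le_mul_right h11 h3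
    push_cast
    have e : (j : ℝ) + 1 + 1 = (j : ℝ) + 2 := by ring
    rw [e]
    exact h13

/-! ### Ratios -/

lemma rj_q_eq_exp (k : ℕ) (hk : 1 ≤ k) :
    rj_q k = Real.exp ((k : ℝ) * Real.log (1 + (k : ℝ)⁻¹) - 1) := by
  have hpr : (0 : ℝ) < k := by exact_mod_cast hk
  have h1 : (0 : ℝ) < 1 + (k : ℝ)⁻¹ := by positivity
  unfold rj_q
  rw [Real.exp_sub, mul_comm, Real.exp_mul, Real.exp_log h1, Real.rpow_natCast, one_div]
  rfl

/-- `(1 + 1/k)^k ≤ e (1 - 1/(2(k+1)))` -/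
lemma rj_q_le (k : ℕ) : rj_q k * (2 * (k : ℝ) + 2) ≤ 2 * (k : ℝ) + 1 := by
  rcases Nat.eq_zero_or_pos k with rfl | hk
  · rw [rj_q_zero]
    have hE : 2.7182818283 < E := Real.exp_one_gt_d9
    have hE0 := E_pos
    have h2 : 1 / E ≤ 0.37 := by
      rw [div_le_iff₀ hE0]
      linarith
    push_cast
    linarith
  · have hj : (0 : ℝ) < k := by exact_mod_cast hk
    rw [rj_q_eq_exp k hk]
    set j : ℝ := (k : ℝ) with hjd
    set z : ℝ := 1 / (2 * j + 1) with hz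
    have hz0 : 0 < z := by rw [hz]; positivity
    have hz1 : z < 1 := by
      rw [hz, div_lt_one (by positivity)]
      linarith
    have h := Real.hasSum_log_one_add_inv hj
    have hzz : z ^ 2 < 1 := by nlinarith
    -- upper bound of the logarithm
    have hle : Real.log (1 + j⁻¹) ≤ 2 * z + 2 / 3 * z ^ 3 * (1 - z ^ 2)⁻¹ := by
      have hg : HasSum (fun n : ℕ => if n = 0 then 2 * z else 2 / 3 * z * (z ^ 2) ^ n)
          (2 * z + 2 / 3 * z ^ 3 * (1 - z ^ 2)⁻¹) := by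
        have h1 : HasSum (fun n : ℕ => 2 / 3 * z * (z ^ 2) ^ n) (2 / 3 * z * (1 - z ^ 2)⁻¹) :=
          (hasSum_geometric_of_lt_one (by positivity) hzz).mul_left _
        have h2 := h1.add (hasSum_ite_eq (0 : ℕ) (2 * z - 2 / 3 * z))
        have e : 2 / 3 * z * (1 - z ^ 2)⁻¹ + (2 * z - 2 / 3 * z) =
            2 * z + 2 / 3 * z ^ 3 * (1 - z ^ 2)⁻¹ := by
          have : 1 - z ^ 2 ≠ 0 := by linarith
          field_simp
          ring
        rw [e] at h2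
        refine h2.congr_fun ?_
        intro n
        rcases Nat.eq_zero_or_pos n with rfl | hn
        · simp
        · simp [hn.ne']
      refine hasSum_le (fun n => ?_) h hg
      rcases Nat.eq_zero_or_pos n with rfl | hn
      · simp [hz]
      · rw [if_neg hn.ne']
        have hn1 : (1 : ℝ) ≤ n := by exact_mod_cast hn
        have h1 : (1 : ℝ) / (2 * n + 1) ≤ 1 / 3 := by
          apply one_div_le_one_div_of_le (by norm_num)
          linarith
        have h2 : 2 / 3 * z * (z ^ 2) ^ n = 2 * (1 / 3) * z ^ (2 * n + 1) := by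
          rw [← pow_mul, pow_succ]; ring
        rw [h2]
        have h3 : 0 ≤ z ^ (2 * n + 1) := by positivity
        nlinarith
    have hjz : j = (1 - z) / (2 * z) := by
      rw [hz]
      field_simp
      ring
    have e1 : j * (2 * z + 2 / 3 * z ^ 3 * (1 - z ^ 2)⁻¹) - 1 =
        -(z * (1 + 2 / 3 * z) / (1 + z)) := by
      have h4 : (1 - z ^ 2) = (1 - z) * (1 + z) := by ring
      have h5 : 1 - z ≠ 0 := by linarith
      have h6 : 1 + z ≠ 0 := by linarith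
      rw [hjz, h4]
      field_simp
      ring
    set x : ℝ := z * (1 + 2 / 3 * z) / (1 + z) with hx
    have hx0 : 0 ≤ x := by rw [hx]; positivity
    have h2 : Real.exp (j * Real.log (1 + j⁻¹) - 1) ≤ Real.exp (-x) := by
      apply Real.exp_le_exp.mpr
      rw [← e1]
      have := mul_le_mul_of_nonneg_left hle hj.le
      linarith
    have h3 : 1 + z ≤ Real.exp x := by
      refine le_trans ?_ (Real.quadratic_le_exp_of_nonneg hx0)
      have e3 : 1 + x + x ^ 2 / 2 - (1 + z) =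
          z ^ 2 * (3 * (1 + 2 / 3 * z) ^ 2 - 2 * (1 + z)) / (6 * (1 + z) ^ 2) := by
        rw [hx]
        field_simp
        ring
      have e4 : 0 ≤ z ^ 2 * (3 * (1 + 2 / 3 * z) ^ 2 - 2 * (1 + z)) / (6 * (1 + z) ^ 2) := by
        apply div_nonneg _ (by positivity)
        apply mul_nonneg (by positivity)
        nlinarith
      linarith
    have e5 : (2 * j + 1) = (1 / z) := by rw [hz]; field_simp
    have e6 : (2 * j + 2) = (1 + z) / z := by
      have : 2 * j + 2 = (2 * j + 1) + 1 := by ring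
      rw [this, e5]
      field_simp
    rw [e5, e6]
    have h7 : Real.exp (-x) * (1 + z) ≤ 1 := by
      have h8 : 0 < Real.exp (-x) := Real.exp_pos _
      calc Real.exp (-x) * (1 + z) ≤ Real.exp (-x) * Real.exp x :=
            mul_le_mul_of_nonneg_left h3 h8.le
        _ = 1 := by rw [← Real.exp_add]; simp
    have h9 : Real.exp (j * Real.log (1 + j⁻¹) - 1) * (1 + z) ≤ 1 :=
      (mul_le_mul_of_nonneg_right h2 (by positivity)).trans h7
    calc Real.exp (j * Real.log (1 + j⁻¹) - 1) * ((1 + z) / z) =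
          (Real.exp (j * Real.log (1 + j⁻¹) - 1) * (1 + z)) / z := by ring
      _ ≤ 1 / z := div_le_div_of_nonneg_right h9 hz0.le

/-- `e (1 - 1/(2k+1)) ≤ (1 + 1/k)^k` -/
lemma rj_q_ge (k : ℕ) : 2 * (k : ℝ) ≤ rj_q k * (2 * (k : ℝ) + 1) := by
  rcases Nat.eq_zero_or_pos k with rfl | hk
  · have := rj_q_pos 0
    push_cast
    linarith
  · have hj : (0 : ℝ) < k := by exact_mod_cast hk
    have hx : (0 : ℝ) ≤ (k : ℝ)⁻¹ := by positivity
    have h1 := Real.le_log_one_add_of_nonneg hx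
    rw [rj_q_eq_exp k hk]
    have h4 := mul_le_mul_of_nonneg_left h1 hj.le
    have e : (k : ℝ) * (2 * (k : ℝ)⁻¹ / ((k : ℝ)⁻¹ + 2)) = 1 - 1 / (2 * (k : ℝ) + 1) := by
      field_simp
      ring
    rw [e] at h4
    have h5 := Real.add_one_le_exp ((k : ℝ) * Real.log (1 + (k : ℝ)⁻¹) - 1)
    have h6 : 1 - 1 / (2 * (k : ℝ) + 1) ≤ Real.exp ((k : ℝ) * Real.log (1 + (k : ℝ)⁻¹) - 1) := by
      linarith
    have h7 : (0 : ℝ) < 2 * (k : ℝ) + 1 := by positivity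
    have h8 := mul_le_mul_of_nonneg_right h6 h7.le
    have e2 : (1 - 1 / (2 * (k : ℝ) + 1)) * (2 * (k : ℝ) + 1) = 2 * (k : ℝ) := by
      field_simp
      ring
    linarith

lemma rj_q_mono_succ (p : ℕ) : rj_q p ≤ rj_q (p + 1) := by
  have hE := E_pos
  rcases Nat.eq_zero_or_pos p with rfl | hp
  · unfold rj_q
    apply div_le_div_of_nonneg_right _ hE.le
    norm_num
  unfold rj_q
  apply div_le_div_of_nonneg_right _ hE.le
  have hp0 : (0 : ℝ) < p := by exact_mod_cast hp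
  have h1 : (1 : ℝ) + ((p + 1 : ℕ) : ℝ) * (-(1 / ((p : ℝ) + 1) ^ 2)) ≤
      (1 + (-(1 / ((p : ℝ) + 1) ^ 2))) ^ (p + 1) := by
    apply one_add_mul_le_pow
    have h2 : 1 / ((p : ℝ) + 1) ^ 2 ≤ 1 := by
      rw [div_le_one (by positivity)]
      nlinarith
    linarith
  have h3 : (1 : ℝ) + 1 / ((p + 1 : ℕ) : ℝ) = (1 + 1 / (p : ℝ)) * (1 + (-(1 / ((p : ℝ) + 1) ^ 2))) := by
    push_cast
    field_simp
    ring
  rw [h3, mul_pow]
  have h4 : (1 : ℝ) + ((p + 1 : ℕ) : ℝ) * (-(1 / ((p : ℝ) + 1) ^ 2)) = (p : ℝ) / (p + 1) := by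
    push_cast
    field_simp
    ring
  rw [h4] at h1
  have h5 : 0 < (1 + 1 / (p : ℝ)) ^ (p + 1) := by positivity
  calc (1 + 1 / (p : ℝ)) ^ p = (1 + 1 / (p : ℝ)) ^ (p + 1) * ((p : ℝ) / (p + 1)) := by
        rw [pow_succ]
        field_simp
    _ ≤ _ := mul_le_mul_of_nonneg_left h1 h5.le

/-- the ratio `r_(j+1) / r_j`, `j = k + 1` -/
noncomputable def rj_rat (k : ℕ) : ℝ := rj_q k * (((k : ℝ) + 1) / ((k : ℝ) + 2))

lemma rj_rat_pos (k : ℕ) : 0 < rj_rat k := by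
  have := rj_q_pos k
  unfold rj_rat
  positivity

lemma rj_succ (k : ℕ) : rj (k + 1) = rj k * rj_rat k := rj_step k

lemma rj_rat_le (k : ℕ) : rj_rat k ≤ 1 - 3 / (2 * ((k : ℝ) + 2)) := by
  have h := rj_q_le k
  have hk : (0 : ℝ) ≤ k := Nat.cast_nonneg k
  unfold rj_rat
  have h1 : rj_q k ≤ (2 * (k : ℝ) + 1) / (2 * (k : ℝ) + 2) := by
    rw [le_div_iff₀ (by positivity)]
    exact h
  refine (mul_le_mul_of_nonneg_right h1 (by positivity)).trans (le_of_eq ?_)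
  field_simp
  ring

lemma le_rj_rat (k : ℕ) :
    1 - (3 * (k : ℝ) + 2) / ((2 * (k : ℝ) + 1) * ((k : ℝ) + 2)) ≤ rj_rat k := by
  have h := rj_q_ge k
  have hk : (0 : ℝ) ≤ k := Nat.cast_nonneg k
  unfold rj_rat
  have h1 : 2 * (k : ℝ) / (2 * (k : ℝ) + 1) ≤ rj_q k := by
    rw [div_le_iff₀ (by positivity)]
    exact h
  refine (le_of_eq ?_).trans (mul_le_mul_of_nonneg_right h1 (by positivity))
  field_simp
  ring

lemma rj_rat_lt_one (k : ℕ) : rj_rat k < 1 := by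
  have h := rj_rat_le k
  have : (0 : ℝ) < 3 / (2 * ((k : ℝ) + 2)) := by positivity
  linarith

lemma rj_rat_mono_succ (k : ℕ) : rj_rat k ≤ rj_rat (k + 1) := by
  have h := rj_q_mono_succ k
  have h0 := rj_q_pos k
  unfold rj_rat
  have h1 : ((k : ℝ) + 1) / ((k : ℝ) + 2) ≤ (((k + 1 : ℕ) : ℝ) + 1) / (((k + 1 : ℕ) : ℝ) + 2) := by
    push_cast
    rw [div_le_div_iff₀ (by positivity) (by positivity)]
    nlinarith
  exact mul_le_mul h h1 (by positivity) (by linarith)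

/-! ### Differences -/

/-- `(3/2) r_j / (j + 1) ≤ r_j - r_(j+1)`, `j = k + 1` -/
lemma rj_diff_ge (k : ℕ) : 3 / 2 * (rj k / ((k : ℝ) + 2)) ≤ rj k - rj (k + 1) := by
  have h := rj_rat_le k
  have h0 := rj_pos k
  rw [rj_succ]
  have h1 := mul_le_mul_of_nonneg_left h h0.le
  have e : rj k * (1 - 3 / (2 * ((k : ℝ) + 2))) = rj k - 3 / 2 * (rj k / ((k : ℝ) + 2)) := by
    field_simp
  linarith

/-- upper bound of the difference -/
lemma rj_diff_le (k : ℕ) : rj k - rj (k + 1) ≤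
    rj k * ((3 * (k : ℝ) + 2) / ((2 * (k : ℝ) + 1) * ((k : ℝ) + 2))) := by
  have h := le_rj_rat k
  have h0 := rj_pos k
  rw [rj_succ]
  have h1 := mul_le_mul_of_nonneg_left h h0.le
  linarith

lemma rj_anti_succ (k : ℕ) : rj (k + 1) ≤ rj k := by
  have h := rj_diff_ge k
  have h0 := rj_pos k
  have : 0 < 3 / 2 * (rj k / ((k : ℝ) + 2)) := by positivity
  linarith

lemma rj_anti : Antitone rj := antitone_nat_of_succ_le rj_anti_succ

/-- the differences decrease -/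
lemma rj_diff_anti_succ (k : ℕ) : rj (k + 1) - rj (k + 2) ≤ rj k - rj (k + 1) := by
  have h0 := rj_pos k
  have h1 := rj_rat_mono_succ k
  have h2 := rj_rat_lt_one k
  have h3 := rj_rat_pos k
  have e1 : rj (k + 2) = rj (k + 1) * rj_rat (k + 1) := rj_succ (k + 1)
  have e2 : rj (k + 1) = rj k * rj_rat k := rj_succ k
  have e3 : rj (k + 1) - rj (k + 2) = rj k * (rj_rat k * (1 - rj_rat (k + 1))) := by
    rw [e1, e2]; ring
  have e4 : rj k - rj (k + 1) = rj k * (1 - rj_rat k) := by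
    rw [e2]; ring
  rw [e3, e4]
  apply mul_le_mul_of_nonneg_left _ h0.le
  calc rj_rat k * (1 - rj_rat (k + 1)) ≤ rj_rat k * (1 - rj_rat k) :=
        mul_le_mul_of_nonneg_left (by linarith) h3.le
    _ ≤ 1 * (1 - rj_rat k) := mul_le_mul_of_nonneg_right h2.le (by linarith)
    _ = _ := one_mul _

lemma rj_diff_anti : Antitone fun k => rj k - rj (k + 1) :=
  antitone_nat_of_succ_le rj_diff_anti_succ

/-- `(1 + 3/(2L)) r_(j+1) ≤ r_j` for `j = k + 1 ≤ L` -/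
lemma rj_theta {L k : ℕ} (hk : k + 1 ≤ L) : (1 + 3 / (2 * (L : ℝ))) * rj (k + 1) ≤ rj k := by
  have h := rj_rat_le k
  have h0 := rj_pos k
  have hL : (k : ℝ) + 1 ≤ L := by exact_mod_cast hk
  have hk0 : (0 : ℝ) ≤ k := Nat.cast_nonneg k
  have hL0 : (0 : ℝ) < L := by linarith
  rw [rj_succ]
  have h1 : (1 + 3 / (2 * (L : ℝ))) * rj_rat k ≤ 1 := by
    calc (1 + 3 / (2 * (L : ℝ))) * rj_rat k ≤
          (1 + 3 / (2 * (L : ℝ))) * (1 - 3 / (2 * ((k : ℝ) + 2))) :=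
          mul_le_mul_of_nonneg_left h (by positivity)
      _ = (2 * (L : ℝ) + 3) * (2 * (k : ℝ) + 1) / (2 * (L : ℝ) * (2 * ((k : ℝ) + 2))) := by
          field_simp
          ring
      _ ≤ 1 := by
          rw [div_le_one (by positivity)]
          nlinarith
  calc (1 + 3 / (2 * (L : ℝ))) * (rj k * rj_rat k) =
        rj k * ((1 + 3 / (2 * (L : ℝ))) * rj_rat k) := by ring
    _ ≤ rj k * 1 := mul_le_mul_of_nonneg_left h1 h0.le
    _ = rj k := mul_one _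

/-! ### Chords -/

/-- left of `d` the sequence is above the line of slope `-s` through `(d, rj d)` -/
lemma rj_chord_left {s : ℝ} {m d : ℕ} (hs : s ≤ rj m - rj (m + 1)) (hd : d ≤ m + 1) (k : ℕ)
    (hk : k ≤ d) : rj d + s * ((d : ℝ) - k) ≤ rj k := by
  obtain ⟨i, rfl⟩ : ∃ i, d = k + i := ⟨d - k, by omega⟩
  induction i with
  | zero => simp
  | succ i ih =>
    have h1 := ih (by omega) (by omega)
    have h2 : rj m - rj (m + 1) ≤ rj (k + i) - rj (k + i + 1) := rj_diff_anti (by omega)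
    have e : k + (i + 1) = k + i + 1 := by ring
    rw [e]
    push_cast at h1 ⊢
    linarith

/-- right of `d` and up to `m + 1` it is below this line -/
lemma rj_chord_right {s : ℝ} {m d : ℕ} (hs : s ≤ rj m - rj (m + 1)) (k : ℕ)
    (hk : d ≤ k) (hk2 : k ≤ m + 1) : rj k ≤ rj d + s * ((d : ℝ) - k) := by
  obtain ⟨i, rfl⟩ : ∃ i, k = d + i := ⟨k - d, by omega⟩
  induction i with
  | zero => simp
  | succ i ih =>
    have h1 := ih (by omega) (by omega)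
    have h2 : rj m - rj (m + 1) ≤ rj (d + i) - rj (d + i + 1) := rj_diff_anti (by omega)
    have e : d + (i + 1) = d + i + 1 := by ring
    rw [e]
    push_cast at h1 ⊢
    linarith

/-! ### Sums -/

/-- `∑_(a < j ≤ b) r_(j+1) ≤ .293526 (1/√a - 1/√b)` -/
lemma rj_sum_Ico_le {a b : ℕ} (ha : 1 ≤ a) (hab : a ≤ b) :
    ∑ k ∈ Ico a b, rj (k + 1) ≤ 0.293526 * (1 / √(a : ℝ) - 1 / √(b : ℝ)) := by
  induction b, hab using Nat.le_induction with
  | base => simp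
  | succ b hb ih =>
    rw [Finset.sum_Ico_succ_top hb, sq_cast]
    have h1 := rj_le b
    have h2 := inv_pow_le (ha.trans hb)
    have hs := sq_pos b
    have h3 : rj (b + 1) ≤ 0.146763 * (1 / (((b : ℝ) + 1) * sq b)) := by
      rw [mul_one_div, le_div_iff₀ (by positivity)]
      refine le_trans ?_ h1
      apply mul_le_mul_of_nonneg_left _ (rj_pos _).le
      nlinarith
    have h4 := mul_le_mul_of_nonneg_left h2 (by norm_num : (0 : ℝ) ≤ 0.146763)
    linarith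

/-! ### Forms for the row R4 -/

lemma rj_nonneg (k : ℕ) : 0 ≤ rj k := (rj_pos k).le

lemma rj_eq_rk (k : ℕ) : (k : ℝ) ^ k / (((k + 1).factorial : ℝ) * E ^ (k + 1)) = rj k := by
  unfold rj
  rw [div_div]

/-- `(1 + 1.5/j) r_(j+1) ≤ r_j` -/
lemma rj_ratio (k : ℕ) : (1 + 3 / (2 * ((k : ℝ) + 1))) * rj (k + 1) ≤ rj k := by
  have h := rj_theta (L := k + 1) (k := k) le_rfl
  push_cast at h
  exact h

/-- `r_(d+1) (d+1) √d ≤ .146763` -/
lemma rj_le_d (d : ℕ) (h : 1 ≤ d) : rj d * (((d : ℝ) + 1) * √(d : ℝ)) ≤ 0.146763 := by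
  obtain ⟨j, rfl⟩ : ∃ j, d = j + 1 := ⟨d - 1, by omega⟩
  have h1 := rj_le j
  rw [sq_cast]
  push_cast
  have e : (j : ℝ) + 1 + 1 = (j : ℝ) + 2 := by ring
  rw [e]
  exact h1

lemma rj_E_le (d : ℕ) (h : 1 ≤ d) : E * rj d * (((d : ℝ) + 1) * √(d : ℝ)) ≤ 0.398944 := by
  have h1 := rj_le_d d h
  have hE : E < 2.7182818286 := Real.exp_one_lt_d9
  have hE0 := E_pos
  calc E * rj d * (((d : ℝ) + 1) * √(d : ℝ)) = E * (rj d * (((d : ℝ) + 1) * √(d : ℝ))) := by ring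
    _ ≤ E * 0.146763 := mul_le_mul_of_nonneg_left h1 hE0.le
    _ ≤ 0.398944 := by linarith

/-- `E r_(d+1) d √d ≤ .399` -/
lemma rj_E_le' (d : ℕ) (h : 1 ≤ d) : E * rj d * ((d : ℝ) * √(d : ℝ)) ≤ 0.399 := by
  have h1 := rj_E_le d h
  have h2 : 0 ≤ E * rj d := mul_nonneg E_pos.le (rj_nonneg d)
  have h3 : 0 ≤ √(d : ℝ) := Real.sqrt_nonneg _
  have h4 : E * rj d * ((d : ℝ) * √(d : ℝ)) ≤ E * rj d * (((d : ℝ) + 1) * √(d : ℝ)) := by
    apply mul_le_mul_of_nonneg_left _ h2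
    nlinarith
  linarith

/-- (A3) `r_(d+1) ≤ .1468 / (d √d)` -/
lemma rj_r4_le (d : ℕ) (h : 1 ≤ d) : rj d ≤ 0.1468 / ((d : ℝ) * √(d : ℝ)) := by
  have h1 := rj_le_d d h
  have hd : (0 : ℝ) < d := by exact_mod_cast h
  have h3 : 0 < √(d : ℝ) := Real.sqrt_pos.mpr hd
  rw [le_div_iff₀ (by positivity)]
  have h4 : rj d * ((d : ℝ) * √(d : ℝ)) ≤ rj d * (((d : ℝ) + 1) * √(d : ℝ)) := by
    apply mul_le_mul_of_nonneg_left _ (rj_nonneg d)
    nlinarith
  linarith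

/-- `.22014 / ((m+1)^2 √(m+1)) ≤ r_m - r_(m+1)`, `m = k + 1`, in product form -/
lemma rj_diff_lower (k : ℕ) : 0.22014 ≤ (rj k - rj (k + 1)) * (((k : ℝ) + 2) * (((k : ℝ) + 1) * sq k)) := by
  have h1 := rj_diff_ge k
  have h2 := rj_lower k
  have hs := sq_pos k
  have h3 : 0 < ((k : ℝ) + 2) * (((k : ℝ) + 1) * sq k) := by positivity
  have h4 := mul_le_mul_of_nonneg_right h1 h3.le
  have e : 3 / 2 * (rj k / ((k : ℝ) + 2)) * (((k : ℝ) + 2) * (((k : ℝ) + 1) * sq k)) =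
      3 / 2 * (rj k * (((k : ℝ) + 1) * sq k)) := by
    field_simp
  rw [e] at h4
  linarith

/-- (A3) `.22 / (m^2 √m) ≤ r_(k+1) - r_(k+2)` for `k + 2 ≤ m` -/
lemma rj_r4_diff (k m : ℕ) (h : k + 2 ≤ m) :
    0.22 / ((m : ℝ) ^ 2 * √(m : ℝ)) ≤ rj k - rj (k + 1) := by
  have h1 := rj_diff_lower k
  have hm : (k : ℝ) + 2 ≤ m := by exact_mod_cast h
  have hk : (0 : ℝ) ≤ k := Nat.cast_nonneg k
  have hm0 : (0 : ℝ) < m := by linarith
  have h3 : 0 < √(m : ℝ) := Real.sqrt_pos.mpr hm0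
  have hs := sq_pos k
  have h5 : sq k ≤ √(m : ℝ) := by
    unfold sq
    apply Real.sqrt_le_sqrt
    linarith
  have h6 := sub_nonneg.mpr (rj_anti_succ k)
  rw [div_le_iff₀ (by positivity)]
  have h7 : ((k : ℝ) + 2) * (((k : ℝ) + 1) * sq k) ≤ (m : ℝ) ^ 2 * √(m : ℝ) := by
    have h8 : ((k : ℝ) + 1) * sq k ≤ (m : ℝ) * √(m : ℝ) :=
      mul_le_mul (by linarith) h5 hs.le hm0.le
    have h9 : ((k : ℝ) + 2) * (((k : ℝ) + 1) * sq k) ≤ (m : ℝ) * ((m : ℝ) * √(m : ℝ)) :=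
      mul_le_mul hm h8 (by positivity) hm0.le
    calc _ ≤ _ := h9
      _ = _ := by ring
  have h10 := mul_le_mul_of_nonneg_left h7 h6
  linarith

/-- `.598 ≤ E (r_m - r_(m+1)) (m+1)^2 √(m+1)` for `m ≥ 1` -/
lemma rj_D_lower (m : ℕ) (h : 1 ≤ m) :
    0.598 ≤ E * (rj (m - 1) - rj m) * (((m : ℝ) + 1) ^ 2 * √((m : ℝ) + 1)) := by
  obtain ⟨k, rfl⟩ : ∃ k, m = k + 1 := ⟨m - 1, by omega⟩
  rw [Nat.add_sub_cancel]
  have h1 := rj_diff_lower k
  have hk : (0 : ℝ) ≤ k := Nat.cast_nonneg k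
  have hs := sq_pos k
  have h6 := sub_nonneg.mpr (rj_anti_succ k)
  have hE : 2.7182818283 < E := Real.exp_one_gt_d9
  push_cast
  have e : (k : ℝ) + 1 + 1 = (k : ℝ) + 2 := by ring
  rw [e]
  have h5 : sq k ≤ √((k : ℝ) + 2) := by
    unfold sq
    apply Real.sqrt_le_sqrt
    linarith
  have h7 : ((k : ℝ) + 2) * (((k : ℝ) + 1) * sq k) ≤ ((k : ℝ) + 2) ^ 2 * √((k : ℝ) + 2) := by
    have h8 : ((k : ℝ) + 1) * sq k ≤ ((k : ℝ) + 2) * √((k : ℝ) + 2) :=
      mul_le_mul (by linarith) h5 hs.le (by linarith)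
    calc _ ≤ ((k : ℝ) + 2) * (((k : ℝ) + 2) * √((k : ℝ) + 2)) :=
          mul_le_mul_of_nonneg_left h8 (by linarith)
      _ = _ := by ring
  have h10 := mul_le_mul_of_nonneg_left h7 h6
  have h11 : 0.22014 ≤ (rj k - rj (k + 1)) * (((k : ℝ) + 2) ^ 2 * √((k : ℝ) + 2)) := h1.trans h10
  calc (0.598 : ℝ) ≤ E * 0.22014 := by linarith
    _ ≤ E * ((rj k - rj (k + 1)) * (((k : ℝ) + 2) ^ 2 * √((k : ℝ) + 2))) :=
        mul_le_mul_of_nonneg_left h11 E_pos.le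
    _ = _ := by ring

/-- `E (r_m - r_(m+1)) m^2 √m ≤ .599` for `m ≥ 10` -/
lemma rj_D_upper (m : ℕ) (h : 10 ≤ m) :
    E * (rj (m - 1) - rj m) * ((m : ℝ) ^ 2 * √(m : ℝ)) ≤ 0.599 := by
  obtain ⟨k, rfl⟩ : ∃ k, m = k + 1 := ⟨m - 1, by omega⟩
  rw [Nat.add_sub_cancel]
  have h1 := rj_diff_le k
  have h2 := rj_upper k
  have h0 := rj_pos k
  have hE : E < 2.7182818286 := Real.exp_one_lt_d9
  have hE0 := E_pos
  have hm : (10 : ℝ) ≤ ((k + 1 : ℕ) : ℝ) := by exact_mod_cast h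
  obtain ⟨x, hx⟩ : ∃ x : ℝ, x = ((k + 1 : ℕ) : ℝ) := ⟨_, rfl⟩
  rw [← hx] at hm ⊢
  have hkx : (k : ℝ) = x - 1 := by rw [hx]; push_cast; ring
  rw [hkx] at h1 h2
  have hy0 : (0 : ℝ) < x - 1 / 2 := by linarith
  have e1 : x - 1 + 1 / 2 = x - 1 / 2 := by ring
  have e2 : (3 * (x - 1) + 2) / ((2 * (x - 1) + 1) * (x - 1 + 2)) =
      (3 * x - 1) / ((2 * x - 1) * (x + 1)) := by ring_nf
  rw [e1] at h2
  rw [e2] at h1
  have hsx : √x * √x = x := Real.mul_self_sqrt (by linarith)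
  have hsy : √(x - 1 / 2) * √(x - 1 / 2) = x - 1 / 2 := Real.mul_self_sqrt hy0.le
  have hx0 : 0 < √x := Real.sqrt_pos.mpr (by linarith)
  have hyy0 : 0 < √(x - 1 / 2) := Real.sqrt_pos.mpr hy0
  -- the algebraic inequality
  have key : (3 * x - 1) * (x ^ 2 * √x) ≤
      3 / 2 * ((2 * x - 1) * (x + 1)) * ((x - 1 / 2) * √(x - 1 / 2)) := by
    apply le_of_sq_le_sq _ (by
      have : (0 : ℝ) < 2 * x - 1 := by linarith
      positivity)
    have f1 : ((3 * x - 1) * (x ^ 2 * √x)) ^ 2 = (3 * x - 1) ^ 2 * x ^ 5 := by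
      calc _ = (3 * x - 1) ^ 2 * x ^ 4 * (√x * √x) := by ring
        _ = _ := by rw [hsx]; ring
    have f2 : (3 / 2 * ((2 * x - 1) * (x + 1)) * ((x - 1 / 2) * √(x - 1 / 2))) ^ 2 =
        9 * (x - 1 / 2) ^ 5 * (x + 1) ^ 2 := by
      calc _ = 9 * (x - 1 / 2) ^ 4 * (x + 1) ^ 2 * (√(x - 1 / 2) * √(x - 1 / 2)) := by ring
        _ = _ := by rw [hsy]; ring
    rw [f1, f2]
    obtain ⟨y, hy⟩ : ∃ y : ℝ, y = x - 10 := ⟨_, rfl⟩
    have hy1 : 0 ≤ y := by linarith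
    have hxy : x = y + 10 := by linarith
    rw [hxy]
    have : 0 ≤ 9 * (y + 10 - 1 / 2) ^ 5 * (y + 10 + 1) ^ 2 - (3 * (y + 10) - 1) ^ 2 * (y + 10) ^ 5 := by
      ring_nf
      positivity
    linarith
  have hden : 0 < (2 * x - 1) * (x + 1) := by
    have : (0 : ℝ) < 2 * x - 1 := by linarith
    positivity
  have h3 : (rj k - rj (k + 1)) * (x ^ 2 * √x) ≤ 3 / 2 * 0.146763 := by
    calc (rj k - rj (k + 1)) * (x ^ 2 * √x) ≤
          rj k * ((3 * x - 1) / ((2 * x - 1) * (x + 1))) * (x ^ 2 * √x) :=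
          mul_le_mul_of_nonneg_right h1 (by positivity)
      _ = rj k * (((3 * x - 1) * (x ^ 2 * √x)) / ((2 * x - 1) * (x + 1))) := by ring
      _ ≤ rj k * ((3 / 2 * ((2 * x - 1) * (x + 1)) * ((x - 1 / 2) * √(x - 1 / 2))) /
            ((2 * x - 1) * (x + 1))) := by
          apply mul_le_mul_of_nonneg_left _ h0.le
          exact div_le_div_of_nonneg_right key hden.le
      _ = 3 / 2 * (rj k * ((x - 1 / 2) * √(x - 1 / 2))) := by
          field_simp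
      _ ≤ _ := by linarith
  calc E * (rj k - rj (k + 1)) * (x ^ 2 * √x) = E * ((rj k - rj (k + 1)) * (x ^ 2 * √x)) := by ring
    _ ≤ E * (3 / 2 * 0.146763) := mul_le_mul_of_nonneg_left h3 hE0.le
    _ ≤ 0.599 := by linarith

end Pool.Agent.MP_9da1e3_co
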