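import Pool.Agent.Lib.MP_9da1e3_co.Sh1

namespace Pool.Agent.MP_9da1e3_co

open Finset

lemma MM_succ_eq (L z : ℕ) (hz : z ≤ L) :
    MM (L + 1) z = ∑ i ∈ range (L - z), cE (L - i) * tn (z + i) + cE z * tn L := by
  unfold MM
  have e : L + 1 - z = (L - z) + 1 := by omega
  rw [e, Finset.sum_range_succ]
  have e1 : L + 1 - 1 - (L - z) = z := by omega
  have e2 : z + (L - z) = L := by omega
  rw [e1, e2]
  congr 1

lemma MM_sharp (L z : ℕ) (hL : (10 : ℝ) ^ 100 ≤ L) (hz : 1 ≤ z) (hzL : (10 : ℝ) ^ 24 * z ≤ L) :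
    (1 - 0.6 / (L : ℝ)) * MM L z ≤ MM (L + 1) z := by
  have hbig : (10 : ℝ) ^ 24 ≤ 10 ^ 100 := pow_le_pow_right₀ (by norm_num) (by norm_num)
  have h24 : (10 : ℝ) ^ 24 = 1000000000000000000000000 := by norm_num
  have hL24 : (10 : ℝ) ^ 24 ≤ L := hbig.trans hL
  rw [h24] at hL24 hzL
  have hL0 : (0 : ℝ) < L := by linarith
  have hzr : (1 : ℝ) ≤ z := by exact_mod_cast hz
  have hz0 : (0 : ℝ) < z := by linarith
  have hzn : 1000 * z ≤ L := by
    have : 1000 * (z : ℝ) ≤ L := by linarith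
    exact_mod_cast this
  have hLn : 1000000 ≤ L := by
    have : (1000000 : ℝ) ≤ L := by linarith
    exact_mod_cast this
  have hl : 0 < √(L : ℝ) := Real.sqrt_pos.mpr hL0
  have hll : √(L : ℝ) * √(L : ℝ) = L := Real.mul_self_sqrt hL0.le
  have hs : 0 < √(z : ℝ) := Real.sqrt_pos.mpr hz0
  obtain ⟨R, hR⟩ : ∃ R : ℕ, R = L / 1000 := ⟨_, rfl⟩
  have hR1 : 1000 * R ≤ L := by omega
  have hR2 : L < 1000 * (R + 1) := by omega
  have hRr1 : 1000 * (R : ℝ) ≤ L := by exact_mod_cast hR1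
  have hRr2 : (L : ℝ) ≤ 1000 * ((R : ℝ) + 1) := by exact_mod_cast hR2.le
  rw [MM_succ_eq L z (by omega)]
  obtain ⟨τ, hτ⟩ : ∃ τ : ℝ, τ = tn (L - R) := ⟨_, rfl⟩
  have hτ0 : 0 < τ := by rw [hτ]; exact tn_pos _
  obtain ⟨B, hB⟩ : ∃ B : ℝ, B = 0.55 * (tn R * tn R) := ⟨_, rfl⟩
  have hB0 : 0 < B := by
    rw [hB]
    have := tn_pos R
    positivity
  have hterm : ∀ i ∈ range (L - z), (1 - 0.5507 / (L : ℝ)) * (cE (L - 1 - i) * tn (z + i)) - B -
      (cE (L - 1 - i) - cE (L - i)) * τ ≤ cE (L - i) * tn (z + i) := by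
    intro i hi
    have hi' := mem_range.mp hi
    obtain ⟨m, hm⟩ : ∃ m : ℕ, m = L - 1 - i := ⟨_, rfl⟩
    have hm1 : L - i = m + 1 := by omega
    rw [← hm, hm1]
    have hc := cE_pos m
    have ht := tn_pos (z + i)
    have hd : 0 ≤ cE m - cE (m + 1) := by linarith [cE_anti m]
    have hdτ : 0 ≤ (cE m - cE (m + 1)) * τ := mul_nonneg hd hτ0.le
    have hA0 : 0 ≤ 0.5507 / (L : ℝ) * (cE m * tn (z + i)) := by positivity
    have hloss : (cE m - cE (m + 1)) * tn (z + i) ≤ 0.5507 / (L : ℝ) * (cE m * tn (z + i)) + B +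
        (cE m - cE (m + 1)) * τ := by
      by_cases hA : i ≤ R
      · have h1 := cE_low m (by omega)
        have h2 : cE m - cE (m + 1) ≤ 0.5507 / (L : ℝ) * cE m := by
          have h3 : 0.55 / ((m : ℝ) + 2) ≤ 0.5507 / (L : ℝ) := by
            have h4 : 999 * L ≤ 1000 * (m + 2) := by omega
            have h5 : 999 * (L : ℝ) ≤ 1000 * ((m : ℝ) + 2) := by exact_mod_cast h4
            rw [div_le_div_iff₀ (by positivity) hL0]
            linarith
          have h6 := mul_le_mul_of_nonneg_right h3 hc.le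
          have h7 : cE m * (1 - 0.55 / ((m : ℝ) + 2)) = cE m - 0.55 / ((m : ℝ) + 2) * cE m := by ring
          rw [h7] at h1
          linarith
        have h8 := mul_le_mul_of_nonneg_right h2 ht.le
        have h9 : 0.5507 / (L : ℝ) * cE m * tn (z + i) = 0.5507 / (L : ℝ) * (cE m * tn (z + i)) := by ring
        linarith
      · by_cases hC : m < R
        · have h1 : tn (z + i) ≤ τ := by
            rw [hτ]
            exact tn_le_of_le (by omega)
          have h2 := mul_le_mul_of_nonneg_left h1 hd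
          linarith
        · have h1 := cE_low m (by omega)
          have h2 : cE m - cE (m + 1) ≤ 0.55 * tn m := by
            have h3 : cE m * (1 - 0.55 / ((m : ℝ) + 2)) = cE m - 0.55 * (cE m / ((m : ℝ) + 2)) := by ring
            rw [h3] at h1
            have h4 : cE m / ((m : ℝ) + 2) ≤ tn m := by
              rw [div_le_iff₀ (by positivity)]
              unfold cE
              nlinarith [tn_pos m]
            linarith
          have h3 : tn m ≤ tn R := tn_le_of_le (by omega)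
          have h4 : tn (z + i) ≤ tn R := tn_le_of_le (by omega)
          have h5 : (cE m - cE (m + 1)) * tn (z + i) ≤ (0.55 * tn R) * tn R :=
            mul_le_mul (by linarith) h4 ht.le (by have := tn_pos R; positivity)
          have h6 : (0.55 * tn R) * tn R = B := by rw [hB]; ring
          linarith
    have e : cE (m + 1) * tn (z + i) = cE m * tn (z + i) - (cE m - cE (m + 1)) * tn (z + i) := by ring
    rw [e]
    linarith
  have hsum := Finset.sum_le_sum hterm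
  rw [Finset.sum_sub_distrib, Finset.sum_sub_distrib, ← Finset.mul_sum, Finset.sum_const, card_range,
    nsmul_eq_mul, ← Finset.sum_mul] at hsum
  have hMM : MM L z = ∑ i ∈ range (L - z), cE (L - 1 - i) * tn (z + i) := rfl
  rw [← hMM] at hsum
  -- telescoping
  have htel : ∑ i ∈ range (L - z), (cE (L - 1 - i) - cE (L - i)) ≤ cE z := by
    have h1 : ∑ i ∈ range (L - z), (cE (L - 1 - i) - cE (L - i)) = cE z - cE L := by
      have h2 : ∑ i ∈ range (L - z), (cE (L - (i + 1)) - cE (L - i)) = cE (L - (L - z)) - cE (L - 0) :=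
        Finset.sum_range_sub (fun i => cE (L - i)) (L - z)
      have e1 : L - (L - z) = z := by omega
      rw [e1, Nat.sub_zero] at h2
      rw [← h2]
      apply Finset.sum_congr rfl
      intro i _
      have e2 : L - 1 - i = L - (i + 1) := by omega
      rw [e2]
    rw [h1]
    linarith [cE_pos L]
  have hτ1 : τ ≤ 1.0021 * tn L := by
    have h1 := tn_le_sq (by omega : L - R ≤ L)
    rw [← hτ] at h1
    have h2 : 0.999 * ((L : ℝ) + 1) ≤ ((L - R : ℕ) : ℝ) + 1 := by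
      rw [Nat.cast_sub (by omega)]
      linarith
    have h3 : (0.999 * ((L : ℝ) + 1)) ^ 2 ≤ (((L - R : ℕ) : ℝ) + 1) ^ 2 :=
      pow_le_pow_left₀ (by positivity) h2 2
    have h4 : (0.999 * ((L : ℝ) + 1)) ^ 2 * τ ≤ ((L : ℝ) + 1) ^ 2 * tn L :=
      (mul_le_mul_of_nonneg_right h3 hτ0.le).trans h1
    have h5 : ((L : ℝ) + 1) ^ 2 * (0.999 ^ 2 * τ) ≤ ((L : ℝ) + 1) ^ 2 * tn L := by
      calc ((L : ℝ) + 1) ^ 2 * (0.999 ^ 2 * τ) = (0.999 * ((L : ℝ) + 1)) ^ 2 * τ := by ring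
        _ ≤ _ := h4
    have h6 := le_of_mul_le_mul_left h5 (by positivity)
    have := tn_pos L
    norm_num at h6
    linarith
  have hm0 := le_MM L z hz (by omega)
  have hcz := cE_le z
  have hcz0 := cE_pos z
  have htL := tn_le' L (by omega)
  have htL0 := tn_pos L
  have hsz : √(z : ℝ) ≤ sq z := by
    unfold sq
    apply Real.sqrt_le_sqrt
    linarith
  have hczs : cE z ≤ 1.1 / √(z : ℝ) :=
    hcz.trans (div_le_div_of_nonneg_left (by norm_num) hs hsz)
  have hC3 : (∑ i ∈ range (L - z), (cE (L - 1 - i) - cE (L - i))) * τ ≤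
      cE z * tn L + 0.008 / (L : ℝ) * MM L z := by
    have h1 : (∑ i ∈ range (L - z), (cE (L - 1 - i) - cE (L - i))) * τ ≤ cE z * (1.0021 * tn L) :=
      mul_le_mul htel hτ1 hτ0.le hcz0.le
    have h2 : cE z * tn L ≤ (1.1 / √(z : ℝ)) * (1.1 / ((L : ℝ) * √(L : ℝ))) :=
      mul_le_mul hczs htL htL0.le (by positivity)
    have h3 : (1.1 / √(z : ℝ)) * (1.1 / ((L : ℝ) * √(L : ℝ))) = (1.21 / 0.35) / (L : ℝ) * (0.35 / (√(L : ℝ) * √(z : ℝ))) := by
      field_simp
      norm_num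
    rw [h3] at h2
    have h4 : (1.21 / 0.35) / (L : ℝ) * (0.35 / (√(L : ℝ) * √(z : ℝ))) ≤ (1.21 / 0.35) / (L : ℝ) * MM L z :=
      mul_le_mul_of_nonneg_left hm0 (by positivity)
    have h5 : 0.0021 * ((1.21 / 0.35) / (L : ℝ) * MM L z) ≤ 0.008 / (L : ℝ) * MM L z := by
      have h6 : 0 ≤ MM L z / L := div_nonneg (MM_nonneg _ _) hL0.le
      have e1 : 0.0021 * ((1.21 / 0.35) / (L : ℝ) * MM L z) = (0.0021 * 1.21 / 0.35) * (MM L z / L) := by ring
      have e2 : 0.008 / (L : ℝ) * MM L z = 0.008 * (MM L z / L) := by ring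
      rw [e1, e2]
      exact mul_le_mul_of_nonneg_right (by norm_num) h6
    nlinarith
  have hB3 : ((L - z : ℕ) : ℝ) * B ≤ 0.01 / (L : ℝ) * MM L z := by
    have h1 : ((L - z : ℕ) : ℝ) ≤ L := by exact_mod_cast (Nat.sub_le L z)
    have hRR : tn R ≤ 35200 / ((L : ℝ) * √(L : ℝ)) := by
      refine (tn_le R).trans ?_
      have hsR := sq_pos R
      have h2 : √(L : ℝ) ≤ 32 * sq R := by
        unfold sq
        apply Real.sqrt_le_iff.mpr
        constructor
        · positivity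
        · rw [mul_pow, Real.sq_sqrt (by positivity)]
          linarith
      rw [div_le_div_iff₀ (by positivity) (by positivity)]
      have h3 : (L : ℝ) * √(L : ℝ) ≤ (1000 * ((R : ℝ) + 1)) * (32 * sq R) :=
        mul_le_mul hRr2 h2 hl.le (by positivity)
      nlinarith
    have hR0 := tn_pos R
    have h2 : tn R * tn R ≤ (35200 / ((L : ℝ) * √(L : ℝ))) * (35200 / ((L : ℝ) * √(L : ℝ))) :=
      mul_le_mul hRR hRR hR0.le (by positivity)
    have h3 : (35200 / ((L : ℝ) * √(L : ℝ))) * (35200 / ((L : ℝ) * √(L : ℝ))) = 1239040000 / ((L : ℝ) * L * L) := by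
      rw [div_mul_div_comm]
      have e : (L : ℝ) * √(L : ℝ) * ((L : ℝ) * √(L : ℝ)) = (L : ℝ) * L * (√(L : ℝ) * √(L : ℝ)) := by ring
      rw [e, hll]
      norm_num
    rw [h3] at h2
    have h4 : ((L - z : ℕ) : ℝ) * B ≤ (L : ℝ) * (0.55 * (1239040000 / ((L : ℝ) * L * L))) := by
      rw [hB]
      apply mul_le_mul h1 _ (by positivity) hL0.le
      linarith
    refine h4.trans ?_
    have h5 : 0.01 / (L : ℝ) * (0.35 / (√(L : ℝ) * √(z : ℝ))) ≤ 0.01 / (L : ℝ) * MM L z :=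
      mul_le_mul_of_nonneg_left hm0 (by positivity)
    refine le_trans ?_ h5
    have e1 : (L : ℝ) * (0.55 * (1239040000 / ((L : ℝ) * L * L))) = 681472000 / ((L : ℝ) * L) := by
      field_simp
      norm_num
    have e2 : 0.01 / (L : ℝ) * (0.35 / (√(L : ℝ) * √(z : ℝ))) = 0.0035 / ((L : ℝ) * (√(L : ℝ) * √(z : ℝ))) := by
      rw [div_mul_div_comm]
      norm_num
    rw [e1, e2, div_le_div_iff₀ (by positivity) (by positivity)]
    have h6 : 1000000000000 * √(z : ℝ) ≤ √(L : ℝ) := by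
      apply Real.le_sqrt_of_sq_le
      rw [mul_pow, Real.sq_sqrt hz0.le]
      norm_num
      linarith
    have h7 : 681472000 * √(z : ℝ) ≤ 0.0035 * √(L : ℝ) := by linarith
    calc 681472000 * ((L : ℝ) * (√(L : ℝ) * √(z : ℝ))) = (L : ℝ) * √(L : ℝ) * (681472000 * √(z : ℝ)) := by ring
      _ ≤ (L : ℝ) * √(L : ℝ) * (0.0035 * √(L : ℝ)) := mul_le_mul_of_nonneg_left h7 (by positivity)
      _ = 0.0035 * (L : ℝ) * (√(L : ℝ) * √(L : ℝ)) := by ring
      _ = 0.0035 * ((L : ℝ) * L) := by rw [hll]; ring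
  have hfin : (1 - 0.6 / (L : ℝ)) * MM L z ≤ (1 - 0.5507 / (L : ℝ)) * MM L z - 0.01 / (L : ℝ) * MM L z -
      0.008 / (L : ℝ) * MM L z := by
    have h6 : 0 ≤ MM L z / L := div_nonneg (MM_nonneg _ _) hL0.le
    have e1 : (1 - 0.6 / (L : ℝ)) * MM L z = MM L z - 0.6 * (MM L z / L) := by ring
    have e2 : (1 - 0.5507 / (L : ℝ)) * MM L z - 0.01 / (L : ℝ) * MM L z -
      0.008 / (L : ℝ) * MM L z = MM L z - 0.5687 * (MM L z / L) := by ring
    rw [e1, e2]
    linarith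
  linarith

lemma YY_small (L m : ℕ) (hL : (10 : ℝ) ^ 100 ≤ L) (hmL : (10 : ℝ) ^ 24 * ((m : ℝ) + 1) ≤ L) :
    ∑ j ∈ range (m + 1), ((j : ℝ) + 2) * (tn j * HH L (m - j)) ≤ 0.05 * MM L (m + 1) := by
  have h24 : (10 : ℝ) ^ 24 = 1000000000000000000000000 := by norm_num
  rw [h24] at hmL
  have hm0 : (0 : ℝ) ≤ m := Nat.cast_nonneg m
  have hL0 : (0 : ℝ) < L := by linarith
  have hl : 0 < √(L : ℝ) := Real.sqrt_pos.mpr hL0
  have hmn : 2 * (m + 1) ≤ L := by
    have : 2 * ((m : ℝ) + 1) ≤ L := by linarith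
    exact_mod_cast this
  have hm1 : (((m + 1 : ℕ)) : ℝ) = (m : ℝ) + 1 := by push_cast; ring
  have hs : 0 < √((m : ℝ) + 1) := Real.sqrt_pos.mpr (by linarith)
  have hss : √((m : ℝ) + 1) * √((m : ℝ) + 1) = (m : ℝ) + 1 := Real.mul_self_sqrt (by linarith)
  have h1 : ∑ j ∈ range (m + 1), ((j : ℝ) + 2) * (tn j * HH L (m - j)) ≤
      ∑ j ∈ range (m + 1), 2.2 / ((L : ℝ) * √(L : ℝ)) * (((j : ℝ) + 1) * tn j) := by
    apply Finset.sum_le_sum
    intro j _
    have hj : (0 : ℝ) ≤ j := Nat.cast_nonneg j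
    have ht := tn_pos j
    have hH := HH_le L (m - j) (by omega)
    have hH0 := HH_nonneg L (m - j)
    calc ((j : ℝ) + 2) * (tn j * HH L (m - j))
        ≤ (2 * ((j : ℝ) + 1)) * (tn j * (1.1 / ((L : ℝ) * √(L : ℝ)))) := by
          apply mul_le_mul (by linarith) _ (by positivity) (by positivity)
          exact mul_le_mul_of_nonneg_left hH ht.le
      _ = _ := by ring
  refine h1.trans ?_
  rw [← Finset.mul_sum]
  have h2 := sum_succ_tn_le (m + 1)
  have h3 := le_MM L (m + 1) (by omega) hmn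
  rw [hm1] at h2 h3
  calc 2.2 / ((L : ℝ) * √(L : ℝ)) * ∑ j ∈ range (m + 1), ((j : ℝ) + 1) * tn j
      ≤ 2.2 / ((L : ℝ) * √(L : ℝ)) * (2.2 * √((m : ℝ) + 1)) :=
        mul_le_mul_of_nonneg_left h2 (by positivity)
    _ ≤ 0.05 * (0.35 / (√(L : ℝ) * √((m : ℝ) + 1))) := by
        rw [div_mul_eq_mul_div, mul_div_assoc', div_le_div_iff₀ (by positivity) (by positivity)]
        calc 2.2 * (2.2 * √((m : ℝ) + 1)) * (√(L : ℝ) * √((m : ℝ) + 1))
            = 4.84 * (√((m : ℝ) + 1) * √((m : ℝ) + 1)) * √(L : ℝ) := by ring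
          _ = 4.84 * ((m : ℝ) + 1) * √(L : ℝ) := by rw [hss]
          _ ≤ 0.0175 * (L : ℝ) * √(L : ℝ) := by
              apply mul_le_mul_of_nonneg_right _ hl.le
              linarith
          _ = 0.05 * 0.35 * ((L : ℝ) * √(L : ℝ)) := by ring
    _ ≤ _ := mul_le_mul_of_nonneg_left h3 (by norm_num)

end Pool.Agent.MP_9da1e3_co
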