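import Pool.Agent.Lib.MP_9da1e3_co.Up3

namespace Pool.Agent.MP_9da1e3_co

open Finset

noncomputable def bb (L : ℕ) : ℕ → ℝ
  | 0 => 0
  | m + 1 => gg (L + 1) m - gg L (m + 1)

lemma bb_zero (L : ℕ) : bb L 0 = 0 := rfl

lemma bb_succ (L m : ℕ) : bb L (m + 1) = gg (L + 1) m - gg L (m + 1) := rfl

lemma HH_diff (L i : ℕ) : HH (L + 1) i = HH L (i + 1) + gg (L + 1) i := by
  unfold HH gg An
  have e : L + 1 + i = L + (i + 1) := by ring
  rw [e]
  ring

lemma bb_rec (L m : ℕ) (h : m + 1 ≤ L) :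
    ∑ j ∈ range (m + 1), ((L : ℝ) + j + 1) * (tn j * bb L (m - j)) - tn m * tn L ≤
    E * (((L : ℝ) + (m + 1)) * bb L (m + 1)) := by
  have r1 := gg_rec L m h
  rcases Nat.eq_zero_or_pos m with rfl | hm
  · rw [bb_succ, gg_zero]
    simp only [zero_add, Finset.sum_range_one, Nat.sub_zero, gg_zero, bb_zero, mul_zero] at r1 ⊢
    have hS : SS L 0 = tn 0 * tn L := by
      unfold SS
      simp only [zero_add, Finset.sum_range_one, Nat.sub_zero, HH_zero]
    rw [hS] at r1
    rw [zero_sub]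
    linarith
  · obtain ⟨p, rfl⟩ : ∃ p, m = p + 1 := ⟨m - 1, by omega⟩
    have r2 := gg_rec (L + 1) p (by omega)
    rw [bb_succ]
    have eS : SS (L + 1) p - SS L (p + 1) = ∑ j ∈ range (p + 1), tn j * gg (L + 1) (p - j) -
        tn (p + 1) * tn L := by
      unfold SS
      rw [Finset.sum_range_succ (fun j => tn j * HH L (p + 1 - j)) (p + 1), Nat.sub_self, HH_zero]
      have e1 : ∑ j ∈ range (p + 1), tn j * HH (L + 1) (p - j) =
          ∑ j ∈ range (p + 1), tn j * HH L (p + 1 - j) +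
          ∑ j ∈ range (p + 1), tn j * gg (L + 1) (p - j) := by
        rw [← Finset.sum_add_distrib]
        apply Finset.sum_congr rfl
        intro j hj
        have hj' := mem_range.mp hj
        rw [HH_diff L (p - j)]
        have e2 : p - j + 1 = p + 1 - j := by omega
        rw [e2]
        ring
      rw [e1]
      ring
    have eB : ∑ j ∈ range (p + 1 + 1), ((L : ℝ) + j + 1) * (tn j * bb L (p + 1 - j)) =
        ∑ j ∈ range (p + 1), ((L : ℝ) + j + 1) * (tn j * gg (L + 1) (p - j)) -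
        ∑ j ∈ range (p + 1 + 1), ((L : ℝ) + j + 1) * (tn j * gg L (p + 1 - j)) := by
      rw [Finset.sum_range_succ _ (p + 1), Finset.sum_range_succ (fun j => ((L : ℝ) + j + 1) *
        (tn j * gg L (p + 1 - j))) (p + 1), Nat.sub_self, bb_zero, gg_zero, mul_zero, mul_zero,
        add_zero, add_zero, ← Finset.sum_sub_distrib]
      apply Finset.sum_congr rfl
      intro j hj
      have hj' := mem_range.mp hj
      have e2 : p + 1 - j = (p - j) + 1 := by omega
      rw [e2, bb_succ]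
      ring
    have eG : ∑ j ∈ range (p + 1), (((L + 1 : ℕ) : ℝ) + j + 1) * (tn j * gg (L + 1) (p - j)) =
        ∑ j ∈ range (p + 1), ((L : ℝ) + j + 1) * (tn j * gg (L + 1) (p - j)) +
        ∑ j ∈ range (p + 1), tn j * gg (L + 1) (p - j) := by
      rw [← Finset.sum_add_distrib]
      apply Finset.sum_congr rfl
      intro j _
      push_cast
      ring
    rw [eG] at r2
    have hpos : 0 ≤ ∑ j ∈ range (p + 1), tn j * gg (L + 1) (p - j) :=
      Finset.sum_nonneg fun j _ => mul_nonneg (tn_pos j).le (gg_nonneg _ _)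
    have e3 : E * (((L : ℝ) + (((p + 1 : ℕ) : ℝ) + 1)) * (gg (L + 1) (p + 1) - gg L (p + 1 + 1))) =
        E * ((((L + 1 : ℕ) : ℝ) + (p + 1)) * gg (L + 1) (p + 1)) -
        E * (((L : ℝ) + (((p + 1 : ℕ) : ℝ) + 1)) * gg L (p + 1 + 1)) := by
      push_cast
      ring
    rw [e3, r1, r2, eB]
    linarith

lemma sum_tn_ww (y : ℕ) : ∑ j ∈ range y, tn j * ww (y - 1 - j) = (y : ℝ) * tn y := by
  have hE := E_pos
  rcases Nat.eq_zero_or_pos y with rfl | hy
  · simp
  · obtain ⟨n, rfl⟩ : ∃ n, y = n + 1 := ⟨y - 1, by omega⟩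
    have h := abel_tc n
    have e : ∑ j ∈ range (n + 1), tn j * ww (n + 1 - 1 - j) =
        (∑ k ∈ range (n + 1), tt k * cc (n - k)) / E ^ (n + 1) := by
      rw [Finset.sum_div]
      apply Finset.sum_congr rfl
      intro j hj
      have hj' := mem_range.mp hj
      unfold tn ww
      have e7 : E ^ (n + 1) = E ^ j * E ^ (n - j + 1) := by
        rw [← pow_add]
        congr 1
        omega
      rw [e7, Nat.add_sub_cancel]
      have := pow_pos hE j
      have := pow_pos hE (n - j + 1)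
      field_simp
    rw [e, h]
    unfold tn
    push_cast
    ring

lemma E_ww (y : ℕ) : E * ww y = ((y : ℝ) + 1) * tn y := by
  have hE := E_pos
  unfold ww tn
  rw [cc_eq, pow_succ]
  have := pow_pos hE y
  field_simp

/-- lower bound of the second difference near the end -/
lemma bb_ge_ww (L : ℕ) (hL : 1 ≤ L) : ∀ m : ℕ, m + 1 ≤ L → -(tn L / L * ww m) ≤ bb L (m + 1) := by
  have hLr : (1 : ℝ) ≤ L := by exact_mod_cast hL
  have hL0 : (0 : ℝ) < L := by linarith
  have hE := E_ge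
  have ht := tn_pos L
  intro m
  induction m using Nat.strong_induction_on with
  | _ m ih =>
    intro hm
    have r := bb_rec L m hm
    obtain ⟨c, hc⟩ : ∃ c : ℝ, c = tn L / L := ⟨_, rfl⟩
    have hc0 : 0 < c := by rw [hc]; positivity
    have hm0 : (0 : ℝ) ≤ m := Nat.cast_nonneg m
    rw [← hc]
    have h1 : -(c * (((L : ℝ) + m + 1) * ∑ j ∈ range m, tn j * ww (m - 1 - j))) ≤
        ∑ j ∈ range (m + 1), ((L : ℝ) + j + 1) * (tn j * bb L (m - j)) := by
      rw [Finset.sum_range_succ, Nat.sub_self, bb_zero, mul_zero, mul_zero, add_zero,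
        Finset.mul_sum, Finset.mul_sum, ← Finset.sum_neg_distrib]
      apply Finset.sum_le_sum
      intro j hj
      have hj' := mem_range.mp hj
      have htj := tn_pos j
      have hw := ww_pos (m - 1 - j)
      have h2 := ih (m - 1 - j) (by omega) (by omega)
      have e : m - 1 - j + 1 = m - j := by omega
      rw [e, ← hc] at h2
      have hjr : (j : ℝ) ≤ m := by exact_mod_cast hj'.le
      have hj0 : (0 : ℝ) ≤ j := Nat.cast_nonneg j
      have h3 : ((L : ℝ) + j + 1) * (tn j * (-(c * ww (m - 1 - j)))) ≤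
          ((L : ℝ) + j + 1) * (tn j * bb L (m - j)) := by
        apply mul_le_mul_of_nonneg_left _ (by positivity)
        exact mul_le_mul_of_nonneg_left h2 htj.le
      refine le_trans ?_ h3
      have h4 : ((L : ℝ) + j + 1) * (c * (tn j * ww (m - 1 - j))) ≤
          ((L : ℝ) + m + 1) * (c * (tn j * ww (m - 1 - j))) := by
        apply mul_le_mul_of_nonneg_right (by linarith) (by positivity)
      linarith
    rw [sum_tn_ww] at h1
    have hEw := E_ww m
    have htm := tn_pos m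
    have h2 : tn m * tn L = c * (L * tn m) := by
      rw [hc]
      field_simp
    have h3 : E * (((L : ℝ) + (m + 1)) * (-(c * ww m))) ≤ E * (((L : ℝ) + (m + 1)) * bb L (m + 1)) := by
      refine le_trans ?_ r
      have e : E * (((L : ℝ) + (m + 1)) * (-(c * ww m))) = -(c * (((L : ℝ) + m + 1) * (E * ww m))) := by
        ring
      rw [e, hEw, h2]
      have h4 : 0 ≤ c * (((m : ℝ) + 1) * tn m) := by positivity
      nlinarith
    have hN : (0 : ℝ) < (L : ℝ) + (m + 1) := by positivity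
    exact le_of_mul_le_mul_left (le_of_mul_le_mul_left h3 (by linarith)) hN

lemma bb_ge_small (L m : ℕ) (hL : 1 ≤ L) (hm : m + 1 ≤ L) :
    -(0.45 / ((L : ℝ) * L * √(L : ℝ) * √((m : ℝ) + 1))) ≤ bb L (m + 1) := by
  have hLr : (1 : ℝ) ≤ L := by exact_mod_cast hL
  have hL0 : (0 : ℝ) < L := by linarith
  have hl : 0 < √(L : ℝ) := Real.sqrt_pos.mpr hL0
  have hE := E_ge
  have h := bb_ge_ww L hL m hm
  refine le_trans ?_ h
  rw [neg_le_neg_iff]
  have h1 := tn_le' L hL
  have h2 := ww_le m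
  have hs : 0 < √((m : ℝ) + 1) := Real.sqrt_pos.mpr (by positivity)
  have e : sq m = √((m : ℝ) + 1) := rfl
  rw [e] at h2
  have h3 : ww m ≤ 1.1 / (2.7 * √((m : ℝ) + 1)) := by
    refine h2.trans ?_
    apply div_le_div_of_nonneg_left (by norm_num) (by positivity)
    exact mul_le_mul_of_nonneg_right hE hs.le
  have hw := ww_pos m
  have ht := tn_pos L
  calc tn L / L * ww m ≤ (1.1 / ((L : ℝ) * √(L : ℝ))) / L * (1.1 / (2.7 * √((m : ℝ) + 1))) := by
        apply mul_le_mul _ h3 hw.le (by positivity)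
        exact div_le_div_of_nonneg_right h1 hL0.le
    _ = (1.21 / 2.7) / ((L : ℝ) * L * √(L : ℝ) * √((m : ℝ) + 1)) := by
        field_simp
        norm_num
    _ ≤ _ := by
        apply div_le_div_of_nonneg_right _ (by positivity)
        norm_num

lemma by_parts (A g : ℕ → ℝ) (M : ℕ) : ∑ i ∈ range M, A (i + 1) * (g i - g (i + 1)) =
    ∑ i ∈ range M, (A (i + 1) - A i) * g i + A 0 * g 0 - A M * g M := by
  induction M with
  | zero => simp
  | succ M ih =>
    rw [Finset.sum_range_succ, Finset.sum_range_succ, ih]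
    ring

lemma sum_sqrt_w (L w : ℕ) (hw : 10000 ≤ w)
    (hw2 : (L : ℝ) / 12 < ((2 * w + 2 : ℕ) : ℝ) * √((2 * w + 2 : ℕ) : ℝ)) :
    (L : ℝ) / 60 ≤ ∑ z ∈ range w, √(z : ℝ) := by
  obtain ⟨v, hv⟩ : ∃ v, w = v + 1 := ⟨w - 1, by omega⟩
  have h4 := sum_sqrt_ge v
  rw [← hv] at h4
  refine le_trans ?_ h4
  have hvr : (9999 : ℝ) ≤ v := by exact_mod_cast (by omega : 9999 ≤ v)
  have hv0 : (0 : ℝ) < v := by linarith
  have hsv : 0 < √(v : ℝ) := Real.sqrt_pos.mpr hv0
  have h5 : ((2 * w + 2 : ℕ) : ℝ) ≤ 2.001 * v := by rw [hv]; push_cast; linarith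
  have h6 := mul_sqrt_mono (Nat.cast_nonneg _) h5
  have h7 : √(2.001 * (v : ℝ)) ≤ 1.415 * √(v : ℝ) := by
    apply Real.sqrt_le_iff.mpr
    constructor
    · positivity
    · rw [mul_pow, Real.sq_sqrt hv0.le]
      linarith
  have h8 : 2.001 * (v : ℝ) * √(2.001 * (v : ℝ)) ≤ 2.001 * (v : ℝ) * (1.415 * √(v : ℝ)) :=
    mul_le_mul_of_nonneg_left h7 (by positivity)
  have h9 : 2.001 * (v : ℝ) * (1.415 * √(v : ℝ)) = (2.001 * 1.415) * ((v : ℝ) * √(v : ℝ)) := by ring
  rw [h9] at h8
  have h10 : 0 < (v : ℝ) * √(v : ℝ) := by positivity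
  nlinarith

lemma sum_gg_ge (L M : ℕ) (hL : 36000000 ≤ L) (hM : (L : ℝ) ≤ (M : ℝ) * √(M : ℝ)) :
    1 / (1146 * ((L : ℝ) * √(L : ℝ))) ≤ ∑ i ∈ range M, gg L i := by
  have hLr : (36000000 : ℝ) ≤ L := by exact_mod_cast hL
  have hL0 : (0 : ℝ) < L := by linarith
  have hl : 0 < √(L : ℝ) := Real.sqrt_pos.mpr hL0
  obtain ⟨w, hw, hw1, hw2⟩ := exists_w L hL
  have hwL : 2 * w ≤ L := by
    have hwr : (10000 : ℝ) ≤ w := by exact_mod_cast hw
    have h1 : (1 : ℝ) ≤ √((2 * w : ℕ) : ℝ) := by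
      apply Real.le_sqrt_of_sq_le
      push_cast
      linarith
    have h2 : ((2 * w : ℕ) : ℝ) * 1 ≤ ((2 * w : ℕ) : ℝ) * √((2 * w : ℕ) : ℝ) :=
      mul_le_mul_of_nonneg_left h1 (Nat.cast_nonneg _)
    have h3 : ((2 * w : ℕ) : ℝ) ≤ L := by linarith
    exact_mod_cast h3
  have hwM : w ≤ M := by
    by_contra hc
    push Not at hc
    have h1 : (M : ℝ) ≤ ((2 * w : ℕ) : ℝ) := by exact_mod_cast (by omega : M ≤ 2 * w)
    have h2 := mul_sqrt_mono (Nat.cast_nonneg M) h1
    linarith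
  have h1 : ∑ z ∈ range w, 1 / (19.1 * ((L : ℝ) * L * √(L : ℝ))) * √(z : ℝ) ≤
      ∑ i ∈ range M, gg L i := by
    refine le_trans (b := ∑ i ∈ range w, gg L i) ?_ ?_
    · apply Finset.sum_le_sum
      intro z hz
      have hz' := mem_range.mp hz
      have hs : (z : ℝ) * √(z : ℝ) ≤ L / 12 := by
        refine le_trans (mul_sqrt_mono (Nat.cast_nonneg _) ?_) hw1
        exact_mod_cast (by omega : z ≤ 2 * w)
      have h4 := A_ge_small' L z (by omega) (by omega) hs
      unfold gg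
      refine le_trans (le_of_eq ?_) h4
      ring
    · apply Finset.sum_le_sum_of_subset_of_nonneg
      · exact range_subset_range.mpr hwM
      · intro _ _ _
        exact gg_nonneg _ _
  refine le_trans ?_ h1
  rw [← Finset.mul_sum]
  have h2 := sum_sqrt_w L w hw hw2
  calc 1 / (1146 * ((L : ℝ) * √(L : ℝ))) = 1 / (19.1 * ((L : ℝ) * L * √(L : ℝ))) * (L / 60) := by
        field_simp
        norm_num
    _ ≤ _ := mul_le_mul_of_nonneg_left h2 (by positivity)

noncomputable def AA (L m z : ℕ) : ℝ := ((L : ℝ) + ((m - z : ℕ) : ℝ) + 1) * tn (m - z)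

lemma AA_step (L m i : ℕ) (hi : i + 1 ≤ m) :
    (L : ℝ) * (tn m / ((m : ℝ) + 1)) ≤ AA L m (i + 1) - AA L m i := by
  obtain ⟨k, hk⟩ : ∃ k, m - (i + 1) = k := ⟨_, rfl⟩
  have hk2 : m - i = k + 1 := by omega
  unfold AA
  rw [hk, hk2]
  have h1 := tn_step_le k
  have h2 := cE_anti k
  unfold cE at h2
  have h3 := tn_le_of_le (by omega : k ≤ m)
  have htm := tn_pos m
  have htk := tn_pos k
  have hkm : (k : ℝ) + 2 ≤ (m : ℝ) + 1 := by exact_mod_cast (by omega : k + 2 ≤ m + 1)
  have h4 : tn m / ((m : ℝ) + 1) ≤ tn k / ((k : ℝ) + 2) :=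
    div_le_div₀ htk.le h3 (by positivity) hkm
  have h5 : (L : ℝ) * (tn m / ((m : ℝ) + 1)) ≤ L * (tn k - tn (k + 1)) :=
    mul_le_mul_of_nonneg_left (h4.trans h1) (Nat.cast_nonneg L)
  push_cast at h2 ⊢
  nlinarith

lemma AA_mono (L m : ℕ) {i j : ℕ} (h : i ≤ j) (hj : j ≤ m) : AA L m i ≤ AA L m j := by
  induction j, h using Nat.le_induction with
  | base => exact le_rfl
  | succ j hij ih =>
    have h1 := AA_step L m j hj
    have h2 := ih (by omega)
    have htm := tn_pos m
    have h3 : 0 ≤ (L : ℝ) * (tn m / ((m : ℝ) + 1)) := by positivity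
    linarith

lemma AA_nonneg (L m z : ℕ) : 0 ≤ AA L m z := by
  unfold AA
  have := tn_pos (m - z)
  positivity

/-- the contribution of the far part -/
lemma far_ge (L m h : ℕ) (y : ℝ) (hy : y = (m : ℝ) + 1) (hh : h = (m + 1) / 2)
    (h1 : 100000000000000 * (L : ℝ) ≤ y * √y) (h2 : 1000000000000000000000 * y ≤ L) :
    1 / 2000 * (1 / (√(L : ℝ) * (y * y * √y))) ≤
    ∑ t ∈ range (m + 1 - h), ((L : ℝ) + ((h + t : ℕ) : ℝ) + 1) * (tn (h + t) * bb L (m - (h + t))) -
      tn m * tn L := by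
  have hm0 : (0 : ℝ) ≤ m := Nat.cast_nonneg m
  have hy1 : 1 ≤ y := by rw [hy]; linarith
  have hy0 : 0 < y := by linarith
  have hL0 : (0 : ℝ) < L := by linarith
  have hs : 0 < √y := Real.sqrt_pos.mpr hy0
  have hss : √y * √y = y := Real.mul_self_sqrt hy0.le
  have hl : 0 < √(L : ℝ) := Real.sqrt_pos.mpr hL0
  have hyL : y ≤ L := by linarith
  have hs14 : 100000000000000 ≤ √y := by
    have : 100000000000000 * y ≤ y * √y := by linarith
    nlinarith
  have hy14 : 100000000000000 ≤ y := by nlinarith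
  have hLr : (1000000000000 : ℝ) ≤ L := by linarith
  have hLn : 1000000000000 ≤ L := by exact_mod_cast hLr
  have hm4 : 4 ≤ m := by
    have : (4 : ℝ) ≤ m := by linarith
    exact_mod_cast this
  have hmL : 2 * (m + 1) ≤ L := by
    have : 2 * ((m : ℝ) + 1) ≤ L := by rw [← hy]; linarith
    exact_mod_cast this
  obtain ⟨M, hM⟩ : ∃ M, M = m - h := ⟨_, rfl⟩
  have hZ : m + 1 - h = M + 1 := by omega
  have hhm : h ≤ m := by omega
  -- rewrite the sum
  have e1 : ∑ t ∈ range (m + 1 - h), ((L : ℝ) + ((h + t : ℕ) : ℝ) + 1) * (tn (h + t) * bb L (m - (h + t))) =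
      ∑ i ∈ range M, AA L m (i + 1) * bb L (i + 1) := by
    rw [hZ, ← sum_rev (fun t => ((L : ℝ) + ((h + t : ℕ) : ℝ) + 1) * (tn (h + t) * bb L (m - (h + t)))) M,
      Finset.sum_range_succ']
    have e2 : m - (h + (M - 0)) = 0 := by omega
    rw [e2, bb_zero, mul_zero, mul_zero, add_zero]
    apply Finset.sum_congr rfl
    intro i hi
    have hi' := mem_range.mp hi
    have e3 : h + (M - (i + 1)) = m - (i + 1) := by omega
    have e4 : m - (m - (i + 1)) = i + 1 := by omega
    rw [e3, e4]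
    unfold AA
    ring
  rw [e1]
  have e5 : ∑ i ∈ range M, (AA L m (i + 1) * (gg L i - gg L (i + 1)) -
      200000000000 / (L : ℝ) * (AA L m M * gg L i)) ≤ ∑ i ∈ range M, AA L m (i + 1) * bb L (i + 1) := by
    apply Finset.sum_le_sum
    intro i hi
    have hi' := mem_range.mp hi
    have h3 := gg_ratio L hLn i (by omega)
    have h4 := AA_nonneg L m (i + 1)
    have h5 := AA_mono L m (by omega : i + 1 ≤ M) (by omega)
    have h6 := gg_nonneg L i
    rw [bb_succ]
    have h7 : AA L m (i + 1) * ((1 - 200000000000 / (L : ℝ)) * gg L i - gg L (i + 1)) ≤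
        AA L m (i + 1) * (gg (L + 1) i - gg L (i + 1)) :=
      mul_le_mul_of_nonneg_left (by linarith) h4
    refine le_trans ?_ h7
    have h8 : 200000000000 / (L : ℝ) * (AA L m (i + 1) * gg L i) ≤
        200000000000 / (L : ℝ) * (AA L m M * gg L i) := by
      apply mul_le_mul_of_nonneg_left _ (by positivity)
      exact mul_le_mul_of_nonneg_right h5 h6
    have e6 : AA L m (i + 1) * ((1 - 200000000000 / (L : ℝ)) * gg L i - gg L (i + 1)) =
        AA L m (i + 1) * (gg L i - gg L (i + 1)) -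
        200000000000 / (L : ℝ) * (AA L m (i + 1) * gg L i) := by ring
    rw [e6]
    linarith
  rw [Finset.sum_sub_distrib, by_parts (AA L m) (gg L) M, gg_zero, mul_zero, add_zero,
    ← Finset.mul_sum, ← Finset.mul_sum] at e5
  -- main term
  have hsum := sum_gg_le L M (by omega)
  have hsum0 : 0 ≤ ∑ i ∈ range M, gg L i := Finset.sum_nonneg fun _ _ => gg_nonneg _ _
  have hMy : y / 4 ≤ (M : ℝ) := by
    have h3 : m + 1 ≤ 4 * M := by omega
    have h4 : ((m + 1 : ℕ) : ℝ) ≤ ((4 * M : ℕ) : ℝ) := by exact_mod_cast h3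
    push_cast at h4
    rw [hy]
    linarith
  have hM0 : (0 : ℝ) < M := by linarith
  have hMs : 0 < √(M : ℝ) := Real.sqrt_pos.mpr hM0
  have hMs2 : √y / 2 ≤ √(M : ℝ) := by
    apply Real.le_sqrt_of_sq_le
    rw [div_pow, Real.sq_sqrt hy0.le]
    norm_num
    linarith
  have hsum2 : 1 / (1146 * ((L : ℝ) * √(L : ℝ))) ≤ ∑ i ∈ range M, gg L i := by
    apply sum_gg_ge L M (by omega)
    have h3 : (y / 4) * (√y / 2) ≤ (M : ℝ) * √(M : ℝ) :=
      mul_le_mul hMy hMs2 (by positivity) hM0.le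
    nlinarith
  obtain ⟨Q, hQ⟩ : ∃ Q : ℝ, Q = 1 / (√(L : ℝ) * (y * y * √y)) := ⟨_, rfl⟩
  have hQ0 : 0 < Q := by rw [hQ]; positivity
  have ht : 1 / (y * √y) ≤ tn m := by
    have h3 := le_tn m
    have e : sq m = √y := by unfold sq; rw [hy]
    rw [e, ← hy] at h3
    exact h3
  have hmain : Q / 1146 ≤ ∑ i ∈ range M, (AA L m (i + 1) - AA L m i) * gg L i := by
    have h3 : (L : ℝ) * (tn m / ((m : ℝ) + 1)) * ∑ i ∈ range M, gg L i ≤
        ∑ i ∈ range M, (AA L m (i + 1) - AA L m i) * gg L i := by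
      rw [Finset.mul_sum]
      apply Finset.sum_le_sum
      intro i hi
      have hi' := mem_range.mp hi
      exact mul_le_mul_of_nonneg_right (AA_step L m i (by omega)) (gg_nonneg _ _)
    refine le_trans ?_ h3
    rw [← hy]
    have h4 : (L : ℝ) * ((1 / (y * √y)) / y) * (1 / (1146 * ((L : ℝ) * √(L : ℝ)))) ≤
        (L : ℝ) * (tn m / y) * ∑ i ∈ range M, gg L i := by
      apply mul_le_mul _ hsum2 (by positivity)
      · have := tn_pos m
        positivity
      · apply mul_le_mul_of_nonneg_left _ hL0.le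
        exact div_le_div_of_nonneg_right ht hy0.le
    refine le_trans (le_of_eq ?_) h4
    rw [hQ]
    field_simp
  have hAM : AA L m M ≤ 6.4 * L / (y * √y) := by
    unfold AA
    have e2 : m - M = h := by omega
    rw [e2]
    have h3 := tn_half h y hy0 (by
      rw [hy]
      have : m + 1 ≤ 2 * (h + 1) := by omega
      exact_mod_cast this)
    have h4 : (L : ℝ) + (h : ℝ) + 1 ≤ 2 * L := by
      have : L + h + 1 ≤ 2 * L := by omega
      exact_mod_cast this
    have h5 := tn_pos h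
    calc ((L : ℝ) + (h : ℝ) + 1) * tn h ≤ (2 * L) * (3.2 / (y * √y)) :=
          mul_le_mul h4 h3 h5.le (by positivity)
      _ = _ := by ring
  have hgM := gg_le_big L M (by omega) (by
    have : (1 : ℝ) ≤ M := by linarith
    exact_mod_cast this)
  have hneg1 : AA L m M * gg L M ≤ Q / 10000 := by
    have h3 : (y / 4) * (y / 4) * (√y / 2) * √(L : ℝ) ≤ (M : ℝ) * M * √(M : ℝ) * √(L : ℝ) := by
      apply mul_le_mul_of_nonneg_right _ hl.le
      apply mul_le_mul _ hMs2 (by positivity) (by positivity)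
      exact mul_le_mul hMy hMy (by positivity) hM0.le
    have h4 : gg L M ≤ 40000000 * (1 / ((y / 4) * (y / 4) * (√y / 2) * √(L : ℝ))) := by
      refine hgM.trans ?_
      apply mul_le_mul_of_nonneg_left _ (by norm_num)
      exact one_div_le_one_div_of_le (by positivity) h3
    have h5 : AA L m M * gg L M ≤ (6.4 * L / (y * √y)) *
        (40000000 * (1 / ((y / 4) * (y / 4) * (√y / 2) * √(L : ℝ)))) :=
      mul_le_mul hAM h4 (gg_nonneg _ _) (by positivity)
    refine h5.trans ?_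
    have e6 : (6.4 * L / (y * √y)) * (40000000 * (1 / ((y / 4) * (y / 4) * (√y / 2) * √(L : ℝ)))) =
        8192000000 * (L / (y * √y)) * Q := by
      rw [hQ]
      field_simp
      norm_num
    rw [e6]
    have h6 : L / (y * √y) ≤ 1 / 100000000000000 := by
      rw [div_le_div_iff₀ (by positivity) (by norm_num)]
      linarith
    have h7 : 8192000000 * (L / (y * √y)) ≤ 1 / 10000 := by linarith
    nlinarith [mul_le_mul_of_nonneg_right h7 hQ0.le]
  have hneg2 : 200000000000 / (L : ℝ) * (AA L m M * ∑ i ∈ range M, gg L i) ≤ Q / 10000 := by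
    have h5 : AA L m M * ∑ i ∈ range M, gg L i ≤ (6.4 * L / (y * √y)) * (24200 / ((L : ℝ) * √(L : ℝ))) :=
      mul_le_mul hAM hsum hsum0 (by positivity)
    have h6 := mul_le_mul_of_nonneg_left h5 (show 0 ≤ 200000000000 / (L : ℝ) by positivity)
    refine h6.trans ?_
    have e6 : 200000000000 / (L : ℝ) * ((6.4 * L / (y * √y)) * (24200 / ((L : ℝ) * √(L : ℝ)))) =
        30976000000000000 * (y / L) * Q := by
      rw [hQ]
      field_simp
      norm_num
    rw [e6]
    have h7 : y / L ≤ 1 / 1000000000000000000000 := by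
      rw [div_le_div_iff₀ hL0 (by norm_num)]
      linarith
    have h8 : 30976000000000000 * (y / L) ≤ 1 / 10000 := by linarith
    nlinarith [mul_le_mul_of_nonneg_right h8 hQ0.le]
  have hneg3 : tn m * tn L ≤ Q / 10000 := by
    have h3 := tn_le m
    have e : sq m = √y := by unfold sq; rw [hy]
    rw [e, ← hy] at h3
    have h4 := tn_le' L (by omega)
    have h5 : tn m * tn L ≤ (1.1 / (y * √y)) * (1.1 / ((L : ℝ) * √(L : ℝ))) :=
      mul_le_mul h3 h4 (tn_pos L).le (by positivity)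
    refine h5.trans ?_
    have e6 : (1.1 / (y * √y)) * (1.1 / ((L : ℝ) * √(L : ℝ))) = 1.21 * (y / L) * Q := by
      rw [hQ]
      field_simp
      norm_num
    rw [e6]
    have h7 : y / L ≤ 1 / 1000000000000000000000 := by
      rw [div_le_div_iff₀ hL0 (by norm_num)]
      linarith
    have h8 : 1.21 * (y / L) ≤ 1 / 10000 := by linarith
    nlinarith [mul_le_mul_of_nonneg_right h8 hQ0.le]
  rw [← hQ]
  have e7 : ∑ i ∈ range M, 200000000000 / (L : ℝ) * (AA L m M * gg L i) =
      200000000000 / (L : ℝ) * (AA L m M * ∑ i ∈ range M, gg L i) := by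
    rw [Finset.mul_sum, Finset.mul_sum]
  linarith

end Pool.Agent.MP_9da1e3_co
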