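import Pool.Agent.Lib.MP_9da1e3_co.Sh2
import Pool.Agent.Lib.MP_9da1e3_co.Up4

namespace Pool.Agent.MP_9da1e3_co

open Finset

lemma tn_succ_sharp (L : ℕ) (hL : 100 ≤ L) : (1 - 1.66 / (L : ℝ)) * tn L ≤ tn (L + 1) := by
  have h := cE_low L hL
  have hLr : (100 : ℝ) ≤ L := by exact_mod_cast hL
  have ht := tn_pos L
  unfold cE at h
  push_cast at h
  obtain ⟨p, hp⟩ : ∃ p : ℝ, p = (L : ℝ) + 2 := ⟨_, rfl⟩
  have hp0 : 102 ≤ p := by rw [hp]; linarith
  have e1 : (L : ℝ) + 1 = p - 1 := by rw [hp]; ring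
  have e2 : (L : ℝ) + 1 + 1 = p := by rw [hp]; ring
  rw [e2, e1, ← hp] at h
  have h2 : (p - 1) * tn L * (1 - 0.55 / p) / p ≤ tn (L + 1) := by
    rw [div_le_iff₀ (by linarith)]
    linarith
  refine le_trans ?_ h2
  have h3 : (p - 1) * tn L * (1 - 0.55 / p) / p = (p - 1) * (p - 0.55) / p ^ 2 * tn L := by
    field_simp
  rw [h3]
  apply mul_le_mul_of_nonneg_right _ ht.le
  have h4 : 1 - 1.55 / p ≤ (p - 1) * (p - 0.55) / p ^ 2 := by
    have e : 1 - 1.55 / p = (p - 1.55) / p := by field_simp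
    rw [e, div_le_div_iff₀ (by linarith) (by positivity)]
    nlinarith
  refine le_trans ?_ h4
  have h5 : 1.55 / p ≤ 1.66 / (L : ℝ) := by
    rw [div_le_div_iff₀ (by linarith) (by linarith)]
    rw [hp]
    linarith
  linarith

lemma HH_ratio_sharp (L : ℕ) (hL : (10 : ℝ) ^ 100 ≤ L) : ∀ z : ℕ, (10 : ℝ) ^ 24 * z ≤ L →
    (1 - 1.66 / (L : ℝ)) * HH L z ≤ HH (L + 1) z := by
  have hbig : (10 : ℝ) ^ 24 ≤ 10 ^ 100 := pow_le_pow_right₀ (by norm_num) (by norm_num)
  have h24 : (10 : ℝ) ^ 24 = 1000000000000000000000000 := by norm_num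
  have hL24 : (10 : ℝ) ^ 24 ≤ L := hbig.trans hL
  rw [h24] at hL24
  have hL0 : (0 : ℝ) < L := by linarith
  have hLn : 100 ≤ L := by
    have : (100 : ℝ) ≤ L := by linarith
    exact_mod_cast this
  have hE := E_ge
  intro z
  induction z using Nat.strong_induction_on with
  | _ z ih =>
    intro hz
    rcases Nat.eq_zero_or_pos z with rfl | hz0
    · rw [HH_zero, HH_zero]
      exact tn_succ_sharp L hLn
    · obtain ⟨m, rfl⟩ : ∃ m, z = m + 1 := ⟨z - 1, by omega⟩
      have hmr : (((m + 1 : ℕ)) : ℝ) = (m : ℝ) + 1 := by push_cast; ring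
      have hz' := hz
      rw [hmr] at hz'
      have hm0 : (0 : ℝ) ≤ (m : ℝ) := Nat.cast_nonneg m
      have hmn : 2 * (m + 1) ≤ L := by
        rw [h24] at hz'
        have : 2 * ((m : ℝ) + 1) ≤ L := by linarith
        exact_mod_cast this
      obtain ⟨θ, hθ⟩ : ∃ θ : ℝ, θ = 1 - 1.66 / (L : ℝ) := ⟨_, rfl⟩
      have hθ0 : 0 ≤ θ := by
        rw [hθ]
        have : 1.66 / (L : ℝ) ≤ 1 := by rw [div_le_one hL0]; linarith
        linarith
      rw [← hθ]
      have r1 := HH_rec L m (by omega)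
      have r2 := HH_rec (L + 1) m (by omega)
      have y1 := YY_small L m hL hz'
      have m1 := MM_sharp L (m + 1) hL (by omega) hz
      have m0 := MM_nonneg L (m + 1)
      obtain ⟨V, hV⟩ : ∃ V : ℝ, V = ∑ j ∈ range (m + 1), tn j * HH L (m - j) := ⟨_, rfl⟩
      obtain ⟨Y, hY⟩ : ∃ Y : ℝ, Y = ∑ j ∈ range (m + 1), ((j : ℝ) + 2) * (tn j * HH L (m - j)) := ⟨_, rfl⟩
      have e1 : ∑ j ∈ range (m + 1), ((L : ℝ) + j + 2) * (tn j * HH L (m - j)) = L * V + Y := by
        rw [hV, hY, Finset.mul_sum, ← Finset.sum_add_distrib]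
        apply Finset.sum_congr rfl
        intro j _
        ring
      have e2 : θ * (L * V + Y + V) ≤
          ∑ j ∈ range (m + 1), (((L + 1 : ℕ) : ℝ) + j + 2) * (tn j * HH (L + 1) (m - j)) := by
        rw [← e1, hV, ← Finset.sum_add_distrib, Finset.mul_sum]
        apply Finset.sum_le_sum
        intro j hj
        have hj' : j ≤ m := by have := mem_range.mp hj; omega
        have hjz : (10 : ℝ) ^ 24 * ((m - j : ℕ) : ℝ) ≤ L := by
          refine le_trans ?_ hz
          apply mul_le_mul_of_nonneg_left _ (by positivity)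
          exact_mod_cast (by omega : m - j ≤ m + 1)
        have h3 := ih (m - j) (by omega) hjz
        rw [← hθ] at h3
        have ht := tn_pos j
        have hj0 : (0 : ℝ) ≤ j := Nat.cast_nonneg j
        push_cast
        calc θ * (((L : ℝ) + j + 2) * (tn j * HH L (m - j)) + tn j * HH L (m - j))
            = ((L : ℝ) + 1 + j + 2) * (tn j * (θ * HH L (m - j))) := by ring
          _ ≤ _ := by
            apply mul_le_mul_of_nonneg_left _ (by positivity)
            exact mul_le_mul_of_nonneg_left h3 ht.le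
      rw [e1] at r1
      rw [← hY] at y1
      obtain ⟨H, hH⟩ : ∃ H : ℝ, H = HH L (m + 1) := ⟨_, rfl⟩
      have hH0 : 0 ≤ H := by rw [hH]; exact HH_nonneg _ _
      rw [← hH] at r1 ⊢
      have h5 : -(1.05 / (L : ℝ) * MM L (m + 1)) ≤ V - E * H := by
        have h6 : L * (V - E * H) = E * (((m : ℝ) + 1) * H) - Y - MM L (m + 1) := by linarith
        have h7 : 0 ≤ E * (((m : ℝ) + 1) * H) := by positivity
        have h8 : -(1.05 * MM L (m + 1)) ≤ L * (V - E * H) := by rw [h6]; linarith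
        have h9 : -(1.05 / (L : ℝ) * MM L (m + 1)) = -(1.05 * MM L (m + 1)) / L := by ring
        rw [h9, div_le_iff₀ hL0]
        linarith
      have h6 : θ * MM L (m + 1) + θ * (1.05 / (L : ℝ) * MM L (m + 1)) ≤ MM (L + 1) (m + 1) := by
        refine le_trans ?_ m1
        have h7 : θ * (1 + 1.05 / (L : ℝ)) ≤ 1 - 0.6 / (L : ℝ) := by
          rw [hθ]
          have h8 : 0 < 1 / (L : ℝ) := by positivity
          have e3 : (1 - 1.66 / (L : ℝ)) * (1 + 1.05 / (L : ℝ)) =
              1 - 0.61 * (1 / (L : ℝ)) - 1.743 * (1 / (L : ℝ)) ^ 2 := by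
            ring
          have e4 : 0.6 / (L : ℝ) = 0.6 * (1 / (L : ℝ)) := by ring
          rw [e3, e4]
          nlinarith [sq_nonneg (1 / (L : ℝ))]
        calc θ * MM L (m + 1) + θ * (1.05 / (L : ℝ) * MM L (m + 1))
            = θ * (1 + 1.05 / (L : ℝ)) * MM L (m + 1) := by ring
          _ ≤ _ := mul_le_mul_of_nonneg_right h7 m0
      have h7 := mul_le_mul_of_nonneg_left h5 hθ0
      have hfin : E * ((((L + 1 : ℕ) : ℝ) + (m + 1)) * (θ * H)) ≤
          E * ((((L + 1 : ℕ) : ℝ) + (m + 1)) * HH (L + 1) (m + 1)) := by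
        rw [r2]
        refine le_trans ?_ (add_le_add_left e2 _)
        have e5 : E * ((((L + 1 : ℕ) : ℝ) + (m + 1)) * (θ * H)) =
            θ * (E * (((L : ℝ) + (m + 1)) * H)) + θ * (E * H) := by
          push_cast
          ring
        rw [e5, r1]
        nlinarith
      have hN : (0 : ℝ) < (((L + 1 : ℕ) : ℝ) + (m + 1)) := by positivity
      exact le_of_mul_le_mul_left (le_of_mul_le_mul_left hfin (by linarith)) hN

lemma XX_small (L m : ℕ) (hL : (10 : ℝ) ^ 100 ≤ L) (hmL : (10 : ℝ) ^ 24 * ((m : ℝ) + 1) ≤ L) :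
    ∑ j ∈ range (m + 1), ((j : ℝ) + 1) * (tn j * gg L (m - j)) ≤ 0.05 * SS L m := by
  have hbig : (10 : ℝ) ^ 40 ≤ 10 ^ 100 := pow_le_pow_right₀ (by norm_num) (by norm_num)
  have h40 : (10 : ℝ) ^ 40 = 10000000000000000000000000000000000000000 := by norm_num
  have hL40 : (10 : ℝ) ^ 40 ≤ L := hbig.trans hL
  rw [h40] at hL40
  have h24 : (10 : ℝ) ^ 24 = 1000000000000000000000000 := by norm_num
  rw [h24] at hmL
  have hL0 : (0 : ℝ) < L := by linarith
  have hl : 0 < √(L : ℝ) := Real.sqrt_pos.mpr hL0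
  have hll : √(L : ℝ) * √(L : ℝ) = L := Real.mul_self_sqrt hL0.le
  have hm0 : (0 : ℝ) ≤ m := Nat.cast_nonneg m
  have hmn : 2 * (m + 1) ≤ L := by
    have : 2 * ((m : ℝ) + 1) ≤ L := by linarith
    exact_mod_cast this
  have hLn : 36000000 ≤ L := by
    have : (36000000 : ℝ) ≤ L := by linarith
    exact_mod_cast this
  have h1 := HH_ge L (by omega) m (by omega)
  have h2 := HH_le_SS L m
  have hS := sum_succ_tn_le (m + 1)
  have hm1 : (((m + 1 : ℕ)) : ℝ) = (m : ℝ) + 1 := by push_cast; ring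
  rw [hm1] at hS
  by_cases hc : (m : ℝ) * √(m : ℝ) ≤ L
  · have h3 : 0.02 / ((L : ℝ) * √(L : ℝ)) ≤ SS L m := by
      refine le_trans ?_ (h1.trans h2)
      have h4 : 0 ≤ (m : ℝ) * √(m : ℝ) := by positivity
      rw [div_le_div_iff₀ (by positivity) (by positivity)]
      nlinarith
    have h4 : ∑ j ∈ range (m + 1), ((j : ℝ) + 1) * (tn j * gg L (m - j)) ≤
        ∑ j ∈ range (m + 1), 1.8 * √((m : ℝ) + 1) / ((L : ℝ) * L * √(L : ℝ)) * (((j : ℝ) + 1) * tn j) := by
      apply Finset.sum_le_sum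
      intro j _
      have ht := tn_pos j
      have h5 := gg_le_small L (m - j) (by omega) (by omega)
      have h6 : √((m - j : ℕ) : ℝ) ≤ √((m : ℝ) + 1) := by
        apply Real.sqrt_le_sqrt
        have : ((m - j : ℕ) : ℝ) ≤ m := by exact_mod_cast (by omega : m - j ≤ m)
        linarith
      have h7 : gg L (m - j) ≤ 1.8 * √((m : ℝ) + 1) / ((L : ℝ) * L * √(L : ℝ)) := by
        refine h5.trans ?_
        apply div_le_div_of_nonneg_right _ (by positivity)
        linarith
      calc ((j : ℝ) + 1) * (tn j * gg L (m - j)) = (((j : ℝ) + 1) * tn j) * gg L (m - j) := by ring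
        _ ≤ (((j : ℝ) + 1) * tn j) * (1.8 * √((m : ℝ) + 1) / ((L : ℝ) * L * √(L : ℝ))) :=
            mul_le_mul_of_nonneg_left h7 (by positivity)
        _ = _ := by ring
    refine h4.trans ?_
    rw [← Finset.mul_sum]
    have hs0 : 0 < √((m : ℝ) + 1) := Real.sqrt_pos.mpr (by linarith)
    have hss : √((m : ℝ) + 1) * √((m : ℝ) + 1) = (m : ℝ) + 1 := Real.mul_self_sqrt (by linarith)
    calc 1.8 * √((m : ℝ) + 1) / ((L : ℝ) * L * √(L : ℝ)) * ∑ j ∈ range (m + 1), ((j : ℝ) + 1) * tn j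
        ≤ 1.8 * √((m : ℝ) + 1) / ((L : ℝ) * L * √(L : ℝ)) * (2.2 * √((m : ℝ) + 1)) :=
          mul_le_mul_of_nonneg_left hS (by positivity)
      _ = 3.96 * (√((m : ℝ) + 1) * √((m : ℝ) + 1)) / ((L : ℝ) * L * √(L : ℝ)) := by ring
      _ = 3.96 * ((m : ℝ) + 1) / ((L : ℝ) * L * √(L : ℝ)) := by rw [hss]
      _ ≤ 0.05 * (0.02 / ((L : ℝ) * √(L : ℝ))) := by
          rw [mul_div_assoc', div_le_div_iff₀ (by positivity) (by positivity)]
          have h8 : 0 < (L : ℝ) * √(L : ℝ) := by positivity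
          have h9 : 3.96 * ((m : ℝ) + 1) ≤ 0.05 * 0.02 * L := by linarith
          calc 3.96 * ((m : ℝ) + 1) * ((L : ℝ) * √(L : ℝ))
              ≤ 0.05 * 0.02 * L * ((L : ℝ) * √(L : ℝ)) := mul_le_mul_of_nonneg_right h9 h8.le
            _ = _ := by ring
      _ ≤ _ := mul_le_mul_of_nonneg_left h3 (by norm_num)
  · push Not at hc
    have hsm : 1600000000000 ≤ √(m : ℝ) := by
      by_contra hcon
      push Not at hcon
      have h3 : (m : ℝ) = √(m : ℝ) * √(m : ℝ) := (Real.mul_self_sqrt hm0).symm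
      have h4 : (m : ℝ) ≤ 1600000000000 * 1600000000000 := by
        rw [h3]
        exact mul_le_mul hcon.le hcon.le (Real.sqrt_nonneg _) (by norm_num)
      have h5 : (m : ℝ) * √(m : ℝ) ≤ (1600000000000 * 1600000000000) * 1600000000000 :=
        mul_le_mul h4 hcon.le (Real.sqrt_nonneg _) (by norm_num)
      norm_num at h5
      linarith
    have hs : 0 < √(m : ℝ) := by linarith
    have hss : √(m : ℝ) * √(m : ℝ) = m := Real.mul_self_sqrt hm0
    have hmp : (0 : ℝ) < m := by nlinarith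
    have hm1' : (1 : ℝ) ≤ m := by nlinarith
    have hmn1 : 1 ≤ m := by exact_mod_cast hm1'
    have h3 : 0.02 / (√(L : ℝ) * ((m : ℝ) * √(m : ℝ))) ≤ SS L m := by
      refine le_trans ?_ (h1.trans h2)
      rw [div_le_div_iff₀ (by positivity) (by positivity)]
      nlinarith
    have h4 : ∑ j ∈ range (m + 1), ((j : ℝ) + 1) * (tn j * gg L (m - j)) ≤
        ∑ j ∈ range (m + 1), (240000000 / ((m : ℝ) * m * √(m : ℝ) * √(L : ℝ)) * (((j : ℝ) + 1) * tn j) +
          1.6 / √(m : ℝ) * gg L (m - j)) := by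
      apply Finset.sum_le_sum
      intro j hj
      have hj' : j ≤ m := by have := mem_range.mp hj; omega
      have ht := tn_pos j
      have hg := gg_nonneg L (m - j)
      by_cases hcj : 2 * j ≤ m
      · have h5 := gg_le_big L (m - j) hLn (by omega)
        have h6 : (m : ℝ) / 2 ≤ ((m - j : ℕ) : ℝ) := by
          have : m ≤ 2 * (m - j) := by omega
          have : (m : ℝ) ≤ 2 * ((m - j : ℕ) : ℝ) := by exact_mod_cast this
          linarith
        have h7 : √(m : ℝ) / 1.42 ≤ √((m - j : ℕ) : ℝ) := by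
          apply Real.le_sqrt_of_sq_le
          rw [div_pow, Real.sq_sqrt hmp.le, div_le_iff₀ (by norm_num)]
          linarith
        have h8 : (m : ℝ) / 2 * (m / 2) * (√(m : ℝ) / 1.42) * √(L : ℝ) ≤
            ((m - j : ℕ) : ℝ) * ((m - j : ℕ) : ℝ) * √((m - j : ℕ) : ℝ) * √(L : ℝ) := by
          apply mul_le_mul_of_nonneg_right _ hl.le
          apply mul_le_mul _ h7 (by positivity) (by positivity)
          exact mul_le_mul h6 h6 (by positivity) (by positivity)
        have h9 : gg L (m - j) ≤ 240000000 / ((m : ℝ) * m * √(m : ℝ) * √(L : ℝ)) := by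
          refine h5.trans ?_
          rw [mul_one_div]
          refine (div_le_div_of_nonneg_left (by norm_num) (by positivity) h8).trans ?_
          rw [div_le_div_iff₀ (by positivity) (by positivity)]
          have : 0 < (m : ℝ) * m * √(m : ℝ) * √(L : ℝ) := by positivity
          have e : 240000000 * ((m : ℝ) / 2 * (m / 2) * (√(m : ℝ) / 1.42) * √(L : ℝ)) =
              (240000000 / 5.68) * ((m : ℝ) * m * √(m : ℝ) * √(L : ℝ)) := by ring
          rw [e]
          exact mul_le_mul_of_nonneg_right (by norm_num) this.le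
        have h10 : 0 ≤ 1.6 / √(m : ℝ) * gg L (m - j) := by positivity
        calc ((j : ℝ) + 1) * (tn j * gg L (m - j)) = (((j : ℝ) + 1) * tn j) * gg L (m - j) := by ring
          _ ≤ (((j : ℝ) + 1) * tn j) * (240000000 / ((m : ℝ) * m * √(m : ℝ) * √(L : ℝ))) :=
              mul_le_mul_of_nonneg_left h9 (by positivity)
          _ = 240000000 / ((m : ℝ) * m * √(m : ℝ) * √(L : ℝ)) * (((j : ℝ) + 1) * tn j) := by ring
          _ ≤ _ := by linarith
      · have h5 := cE_le j
        unfold cE at h5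
        have hsj := sq_pos j
        have h6 : √(m : ℝ) / 1.42 ≤ sq j := by
          unfold sq
          apply Real.le_sqrt_of_sq_le
          rw [div_pow, Real.sq_sqrt hmp.le, div_le_iff₀ (by norm_num)]
          have : (m : ℝ) ≤ 2 * j := by exact_mod_cast (by omega : m ≤ 2 * j)
          linarith
        have h7 : ((j : ℝ) + 1) * tn j ≤ 1.6 / √(m : ℝ) := by
          refine h5.trans ?_
          refine (div_le_div_of_nonneg_left (by norm_num) (by positivity) h6).trans ?_
          rw [div_le_div_iff₀ (by positivity) hs]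
          have e : 1.6 * (√(m : ℝ) / 1.42) = (1.6 / 1.42) * √(m : ℝ) := by ring
          rw [e]
          exact mul_le_mul_of_nonneg_right (by norm_num) hs.le
        have h10 : 0 ≤ 240000000 / ((m : ℝ) * m * √(m : ℝ) * √(L : ℝ)) * (((j : ℝ) + 1) * tn j) := by
          positivity
        calc ((j : ℝ) + 1) * (tn j * gg L (m - j)) = (((j : ℝ) + 1) * tn j) * gg L (m - j) := by ring
          _ ≤ 1.6 / √(m : ℝ) * gg L (m - j) := mul_le_mul_of_nonneg_right h7 hg
          _ ≤ _ := by linarith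
    refine h4.trans ?_
    rw [Finset.sum_add_distrib, ← Finset.mul_sum, ← Finset.mul_sum, sum_rev (gg L)]
    have hG := sum_gg_le L (m + 1) hLn
    have hsm2 : √((m : ℝ) + 1) ≤ 1.5 * √(m : ℝ) := by
      apply Real.sqrt_le_iff.mpr
      constructor
      · positivity
      · rw [mul_pow, Real.sq_sqrt hmp.le]
        linarith
    have h5 : 240000000 / ((m : ℝ) * m * √(m : ℝ) * √(L : ℝ)) * ∑ j ∈ range (m + 1), ((j : ℝ) + 1) * tn j ≤
        0.025 * (0.02 / (√(L : ℝ) * ((m : ℝ) * √(m : ℝ)))) := by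
      calc 240000000 / ((m : ℝ) * m * √(m : ℝ) * √(L : ℝ)) * ∑ j ∈ range (m + 1), ((j : ℝ) + 1) * tn j
          ≤ 240000000 / ((m : ℝ) * m * √(m : ℝ) * √(L : ℝ)) * (2.2 * (1.5 * √(m : ℝ))) := by
            apply mul_le_mul_of_nonneg_left _ (by positivity)
            linarith
        _ = 792000000 / ((m : ℝ) * m * √(L : ℝ)) := by
            field_simp
            norm_num
        _ ≤ _ := by
            rw [mul_div_assoc', div_le_div_iff₀ (by positivity) (by positivity)]
            have h6 : 792000000 * √(m : ℝ) ≤ 0.0005 * m := by nlinarith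
            have h7 : 0 < √(L : ℝ) * m := by positivity
            nlinarith [mul_le_mul_of_nonneg_left h6 h7.le]
    have h6 : 1.6 / √(m : ℝ) * ∑ k ∈ range (m + 1), gg L k ≤
        0.025 * (0.02 / (√(L : ℝ) * ((m : ℝ) * √(m : ℝ)))) := by
      calc 1.6 / √(m : ℝ) * ∑ k ∈ range (m + 1), gg L k
          ≤ 1.6 / √(m : ℝ) * (24200 / ((L : ℝ) * √(L : ℝ))) :=
            mul_le_mul_of_nonneg_left hG (by positivity)
        _ ≤ _ := by
            rw [div_mul_div_comm, mul_div_assoc', div_le_div_iff₀ (by positivity) (by positivity)]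
            have h7 : 0 < √(m : ℝ) * √(L : ℝ) := by positivity
            have h8 : 38720 * (m : ℝ) ≤ 0.0005 * L := by linarith
            nlinarith [mul_le_mul_of_nonneg_left h8 h7.le]
    have h7 := mul_le_mul_of_nonneg_left h3 (by norm_num : (0 : ℝ) ≤ 0.05)
    linarith

lemma gg_ratio_sharp (L : ℕ) (hL : (10 : ℝ) ^ 100 ≤ L) : ∀ y : ℕ, (10 : ℝ) ^ 24 * y ≤ L →
    (1 - 2.72 / (L : ℝ)) * gg L y ≤ gg (L + 1) y := by
  have hbig : (10 : ℝ) ^ 24 ≤ 10 ^ 100 := pow_le_pow_right₀ (by norm_num) (by norm_num)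
  have h24 : (10 : ℝ) ^ 24 = 1000000000000000000000000 := by norm_num
  have hL24 : (10 : ℝ) ^ 24 ≤ L := hbig.trans hL
  rw [h24] at hL24
  have hL0 : (0 : ℝ) < L := by linarith
  have hE := E_ge
  intro y
  induction y using Nat.strong_induction_on with
  | _ y ih =>
    intro hy
    rcases Nat.eq_zero_or_pos y with rfl | hy0
    · rw [gg_zero, gg_zero]
      simp
    · obtain ⟨m, rfl⟩ : ∃ m, y = m + 1 := ⟨y - 1, by omega⟩
      have hmr : (((m + 1 : ℕ)) : ℝ) = (m : ℝ) + 1 := by push_cast; ring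
      have hy' := hy
      rw [hmr] at hy'
      have hm0 : (0 : ℝ) ≤ (m : ℝ) := Nat.cast_nonneg m
      have hmn : 2 * (m + 1) ≤ L := by
        rw [h24] at hy'
        have : 2 * ((m : ℝ) + 1) ≤ L := by linarith
        exact_mod_cast this
      obtain ⟨θ, hθ⟩ : ∃ θ : ℝ, θ = 1 - 2.72 / (L : ℝ) := ⟨_, rfl⟩
      have hθ0 : 0 ≤ θ := by
        rw [hθ]
        have : 2.72 / (L : ℝ) ≤ 1 := by rw [div_le_one hL0]; linarith
        linarith
      rw [← hθ]
      have r1 := gg_rec L m (by omega)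
      have r2 := gg_rec (L + 1) m (by omega)
      have x1 := XX_small L m hL hy'
      have s0 := SS_nonneg L m
      have s1 : (1 - 1.66 / (L : ℝ)) * SS L m ≤ SS (L + 1) m := by
        unfold SS
        rw [Finset.mul_sum]
        apply Finset.sum_le_sum
        intro j hj
        have hj' : j ≤ m := by have := mem_range.mp hj; omega
        have hjz : (10 : ℝ) ^ 24 * ((m - j : ℕ) : ℝ) ≤ L := by
          refine le_trans ?_ hy
          apply mul_le_mul_of_nonneg_left _ (by positivity)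
          exact_mod_cast (by omega : m - j ≤ m + 1)
        have h3 := HH_ratio_sharp L hL (m - j) hjz
        have ht := tn_pos j
        calc (1 - 1.66 / (L : ℝ)) * (tn j * HH L (m - j)) = tn j * ((1 - 1.66 / (L : ℝ)) * HH L (m - j)) := by
              ring
          _ ≤ _ := mul_le_mul_of_nonneg_left h3 ht.le
      obtain ⟨V, hV⟩ : ∃ V : ℝ, V = ∑ j ∈ range (m + 1), tn j * gg L (m - j) := ⟨_, rfl⟩
      obtain ⟨Y, hY⟩ : ∃ Y : ℝ, Y = ∑ j ∈ range (m + 1), ((j : ℝ) + 1) * (tn j * gg L (m - j)) := ⟨_, rfl⟩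
      have e1 : ∑ j ∈ range (m + 1), ((L : ℝ) + j + 1) * (tn j * gg L (m - j)) = L * V + Y := by
        rw [hV, hY, Finset.mul_sum, ← Finset.sum_add_distrib]
        apply Finset.sum_congr rfl
        intro j _
        ring
      have e2 : θ * (L * V + Y + V) ≤
          ∑ j ∈ range (m + 1), (((L + 1 : ℕ) : ℝ) + j + 1) * (tn j * gg (L + 1) (m - j)) := by
        rw [← e1, hV, ← Finset.sum_add_distrib, Finset.mul_sum]
        apply Finset.sum_le_sum
        intro j hj
        have hj' : j ≤ m := by have := mem_range.mp hj; omega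
        have hjz : (10 : ℝ) ^ 24 * ((m - j : ℕ) : ℝ) ≤ L := by
          refine le_trans ?_ hy
          apply mul_le_mul_of_nonneg_left _ (by positivity)
          exact_mod_cast (by omega : m - j ≤ m + 1)
        have h3 := ih (m - j) (by omega) hjz
        rw [← hθ] at h3
        have ht := tn_pos j
        have hj0 : (0 : ℝ) ≤ j := Nat.cast_nonneg j
        push_cast
        calc θ * (((L : ℝ) + j + 1) * (tn j * gg L (m - j)) + tn j * gg L (m - j))
            = ((L : ℝ) + 1 + j + 1) * (tn j * (θ * gg L (m - j))) := by ring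
          _ ≤ _ := by
            apply mul_le_mul_of_nonneg_left _ (by positivity)
            exact mul_le_mul_of_nonneg_left h3 ht.le
      rw [e1] at r1
      rw [← hY] at x1
      obtain ⟨H, hH⟩ : ∃ H : ℝ, H = gg L (m + 1) := ⟨_, rfl⟩
      have hH0 : 0 ≤ H := by rw [hH]; exact gg_nonneg _ _
      rw [← hH] at r1 ⊢
      have h5 : -(1.05 / (L : ℝ) * SS L m) ≤ V - E * H := by
        have h6 : L * (V - E * H) = E * (((m : ℝ) + 1) * H) - Y - SS L m := by linarith
        have h7 : 0 ≤ E * (((m : ℝ) + 1) * H) := by positivity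
        have h8 : -(1.05 * SS L m) ≤ L * (V - E * H) := by rw [h6]; linarith
        have h9 : -(1.05 / (L : ℝ) * SS L m) = -(1.05 * SS L m) / L := by ring
        rw [h9, div_le_iff₀ hL0]
        linarith
      have h6 : θ * SS L m + θ * (1.05 / (L : ℝ) * SS L m) ≤ SS (L + 1) m := by
        refine le_trans ?_ s1
        have h7 : θ * (1 + 1.05 / (L : ℝ)) ≤ 1 - 1.66 / (L : ℝ) := by
          rw [hθ]
          have h8 : 0 < 1 / (L : ℝ) := by positivity
          have e3 : (1 - 2.72 / (L : ℝ)) * (1 + 1.05 / (L : ℝ)) =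
              1 - 1.67 * (1 / (L : ℝ)) - 2.856 * (1 / (L : ℝ)) ^ 2 := by
            ring
          have e4 : 1.66 / (L : ℝ) = 1.66 * (1 / (L : ℝ)) := by ring
          rw [e3, e4]
          nlinarith [sq_nonneg (1 / (L : ℝ))]
        calc θ * SS L m + θ * (1.05 / (L : ℝ) * SS L m)
            = θ * (1 + 1.05 / (L : ℝ)) * SS L m := by ring
          _ ≤ _ := mul_le_mul_of_nonneg_right h7 s0
      have h7 := mul_le_mul_of_nonneg_left h5 hθ0
      have hfin : E * ((((L + 1 : ℕ) : ℝ) + (m + 1)) * (θ * H)) ≤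
          E * ((((L + 1 : ℕ) : ℝ) + (m + 1)) * gg (L + 1) (m + 1)) := by
        rw [r2]
        refine le_trans ?_ (add_le_add_left e2 _)
        have e5 : E * ((((L + 1 : ℕ) : ℝ) + (m + 1)) * (θ * H)) =
            θ * (E * (((L : ℝ) + (m + 1)) * H)) + θ * (E * H) := by
          push_cast
          ring
        rw [e5, r1]
        nlinarith
      have hN : (0 : ℝ) < (((L + 1 : ℕ) : ℝ) + (m + 1)) := by positivity
      exact le_of_mul_le_mul_left (le_of_mul_le_mul_left hfin (by linarith)) hN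

end Pool.Agent.MP_9da1e3_co
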