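import Pool.Agent.Lib.MP_9da1e3_co.Up5
import Pool.Agent.Lib.MP_9da1e3_co.Big8

namespace Pool.Agent.MP_9da1e3_co

open Finset

theorem bb_ge_stage1 (L : ℕ) : ∀ m : ℕ, 1000000000000000000000 * ((m : ℝ) + 1) ≤ L →
    Psi L ((m : ℝ) + 1) * (-10000000000000000000000000000) ≤ bb L (m + 1) := by
  intro m
  induction m using Nat.strong_induction_on with
  | _ m ih =>
    intro hL
    have hm0 : (0 : ℝ) ≤ m := Nat.cast_nonneg m
    obtain ⟨y, hy⟩ : ∃ y : ℝ, y = (m : ℝ) + 1 := ⟨_, rfl⟩
    have hy1 : 1 ≤ y := by rw [hy]; linarith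
    have hy0 : 0 < y := by linarith
    rw [← hy] at hL ⊢
    have hL0 : (0 : ℝ) < L := by linarith
    have hL1 : (1 : ℝ) ≤ L := by linarith
    have hLn : 1 ≤ L := by exact_mod_cast hL1
    have hmL : m + 1 ≤ L := by
      have : (m : ℝ) + 1 ≤ L := by rw [← hy]; linarith
      exact_mod_cast this
    have hs : 0 < √y := Real.sqrt_pos.mpr hy0
    have hss : √y * √y = y := Real.mul_self_sqrt hy0.le
    have hl : 0 < √(L : ℝ) := Real.sqrt_pos.mpr hL0
    by_cases hc : y * √y < 100000000000000 * (L : ℝ)
    · have h := bb_ge_small L m hLn hmL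
      rw [← hy] at h
      refine le_trans ?_ h
      unfold Psi
      have h1 : y * y * y ≤ 10000000000000000000000000000 * (L * L) := by
        have h2 : (y * √y) * (y * √y) ≤ (100000000000000 * (L : ℝ)) * (100000000000000 * (L : ℝ)) :=
          mul_le_mul hc.le hc.le (by positivity) (by positivity)
        have h3 : (y * √y) * (y * √y) = y * y * y := by
          calc (y * √y) * (y * √y) = y * y * (√y * √y) := by ring
            _ = _ := by rw [hss]
        rw [h3] at h2
        linarith
      have h4 : 0.45 / ((L : ℝ) * L * √(L : ℝ) * √y) ≤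
          10000000000000000000000000000 / (y * y * y * √y * √(L : ℝ)) := by
        rw [div_le_div_iff₀ (by positivity) (by positivity)]
        have h5 : 0 < √y * √(L : ℝ) := by positivity
        have h6 := mul_le_mul_of_nonneg_right h1 h5.le
        have h7 : 0 ≤ (L : ℝ) * L * (√y * √(L : ℝ)) := by positivity
        nlinarith
      have e : 1 / (y * y * y * √y * √(L : ℝ)) * (-10000000000000000000000000000) =
          -(10000000000000000000000000000 / (y * y * y * √y * √(L : ℝ))) := by ring
      rw [e]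
      linarith
    · push Not at hc
      apply step L m y 100000000000000 (-10000000000000000000000000000) 10000000000000000000000000000
        300000000000000000000000000000 hy le_rfl hc hL (by norm_num) (by norm_num) le_rfl
        (by norm_num)
      · intro j hj
        have hjm : j + 1 ≤ m := by omega
        obtain ⟨k, hk⟩ : ∃ k, m - j = k + 1 := ⟨m - j - 1, by omega⟩
        have hkr : (k : ℝ) + 1 = y - ((j : ℝ) + 1) := by
          have h1 : m + 1 = (k + 1) + (j + 1) := by omega
          have h2 : ((m + 1 : ℕ) : ℝ) = (((k + 1) + (j + 1) : ℕ) : ℝ) := by exact_mod_cast h1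
          push_cast at h2
          rw [hy]
          linarith
        have hj0 : (0 : ℝ) ≤ j := Nat.cast_nonneg j
        have hkL : 1000000000000000000000 * ((k : ℝ) + 1) ≤ L := by
          rw [hkr]
          linarith
        have h3 := ih k (by omega) hkL
        rw [hk]
        refine le_trans ?_ h3
        rw [hkr]
        have hsy : (j : ℝ) + 1 ≤ y / 2 := by
          have h4 : 2 * (j + 1) ≤ m + 1 := by omega
          have h5 : ((2 * (j + 1) : ℕ) : ℝ) ≤ ((m + 1 : ℕ) : ℝ) := by exact_mod_cast h4
          push_cast at h5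
          rw [hy]
          linarith
        have h6 := Psi_shift L hLn hy0 (by linarith : (0 : ℝ) ≤ (j : ℝ) + 1) hsy
        nlinarith
      · have hE := E_ge
        norm_num
        linarith

noncomputable def rho (y₁ x : ℝ) : ℝ := max 0 (min 1 ((x - y₁) / y₁))

lemma rho_nonneg (y₁ x : ℝ) : 0 ≤ rho y₁ x := le_max_left _ _

lemma rho_le_one (y₁ x : ℝ) : rho y₁ x ≤ 1 := max_le (by norm_num) (min_le_left _ _)

lemma rho_shift {y₁ y s : ℝ} (h1 : 0 < y₁) (hy : 0 < y) (hs0 : 0 ≤ s) (hs : s ≤ y / 2) :
    rho y₁ y - 4 * (s / y) ≤ rho y₁ (y - s) := by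
  by_cases hc : y ≤ 4 * y₁
  · have h2 : s / y₁ ≤ 4 * (s / y) := by
      rw [mul_div_assoc', div_le_div_iff₀ h1 hy]
      nlinarith
    have h3 : rho y₁ y ≤ rho y₁ (y - s) + s / y₁ := by
      have hd : 0 ≤ s / y₁ := by positivity
      unfold rho
      apply max_le
      · have := le_max_left 0 (min 1 ((y - s - y₁) / y₁))
        linarith
      · have h4 := le_max_right 0 (min 1 ((y - s - y₁) / y₁))
        have h5 : min 1 ((y - y₁) / y₁) ≤ min 1 ((y - s - y₁) / y₁) + s / y₁ := by
          rw [← min_add_add_right]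
          apply le_min
          · exact (min_le_left _ _).trans (by linarith)
          · refine (min_le_right _ _).trans (le_of_eq ?_)
            ring
        linarith
    linarith
  · push Not at hc
    have h2 : rho y₁ (y - s) = 1 := by
      unfold rho
      rw [min_eq_left, max_eq_right (by norm_num)]
      rw [le_div_iff₀ h1]
      linarith
    rw [h2]
    have h3 := rho_le_one y₁ y
    have h4 : 0 ≤ 4 * (s / y) := by positivity
    linarith

theorem bb_ge_stage2 (L : ℕ) (y₁ : ℝ) (hy1 : 0 < y₁)
    (hK : 20000000000000000000000000000000000 * (L : ℝ) ≤ y₁ * √y₁) :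
    ∀ m : ℕ, 1000000000000000000000 * ((m : ℝ) + 1) ≤ L →
    Psi L ((m : ℝ) + 1) * (-10000000000000000000000000000 +
      (10000000000000000000000000000 + 1 / 12000) * rho y₁ ((m : ℝ) + 1)) ≤ bb L (m + 1) := by
  intro m
  induction m using Nat.strong_induction_on with
  | _ m ih =>
    intro hL
    have hm0 : (0 : ℝ) ≤ m := Nat.cast_nonneg m
    have hst := bb_ge_stage1 L m hL
    obtain ⟨y, hy⟩ : ∃ y : ℝ, y = (m : ℝ) + 1 := ⟨_, rfl⟩
    have hy1' : 1 ≤ y := by rw [hy]; linarith
    have hy0 : 0 < y := by linarith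
    rw [← hy] at hL hst ⊢
    have hL0 : (0 : ℝ) < L := by linarith
    have hL1 : (1 : ℝ) ≤ L := by linarith
    have hLn : 1 ≤ L := by exact_mod_cast hL1
    by_cases hc : y < y₁
    · have h1 : rho y₁ y = 0 := by
        unfold rho
        apply max_eq_left
        refine (min_le_right _ _).trans ?_
        apply div_nonpos_of_nonpos_of_nonneg
        · linarith
        · exact hy1.le
      rw [h1, mul_zero, add_zero]
      exact hst
    · push Not at hc
      obtain ⟨q, hq⟩ : ∃ q : ℝ, q = -10000000000000000000000000000 +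
        (10000000000000000000000000000 + 1 / 12000) * rho y₁ y := ⟨_, rfl⟩
      obtain ⟨P, hP⟩ : ∃ P : ℝ, P = 10000000000000000000000000000 + 1 := ⟨_, rfl⟩
      have hP0 : 0 < P := by rw [hP]; norm_num
      have hr0 := rho_nonneg y₁ y
      have hr1 := rho_le_one y₁ y
      have hq1 : -P ≤ q := by rw [hP, hq]; nlinarith
      have hq3 : q ≤ 1 / 12000 := by
        rw [hq]
        have : (10000000000000000000000000000 + 1 / 12000 : ℝ) * rho y₁ y ≤
            (10000000000000000000000000000 + 1 / 12000) * 1 :=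
          mul_le_mul_of_nonneg_left hr1 (by norm_num)
        linarith
      have hq2 : q ≤ P := by rw [hP]; linarith
      rw [← hq]
      have hKy : 20000000000000000000000000000000000 * (L : ℝ) ≤ y * √y :=
        hK.trans (mul_sqrt_mono hy1.le hc)
      apply step L m y 20000000000000000000000000000000000 q P (94 * P) hy (by norm_num) hKy hL
        hP0.le (by positivity) hq1 hq2
      · intro j hj
        have hjm : j + 1 ≤ m := by omega
        obtain ⟨k, hk⟩ : ∃ k, m - j = k + 1 := ⟨m - j - 1, by omega⟩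
        have hkr : (k : ℝ) + 1 = y - ((j : ℝ) + 1) := by
          have h1 : m + 1 = (k + 1) + (j + 1) := by omega
          have h2 : ((m + 1 : ℕ) : ℝ) = (((k + 1) + (j + 1) : ℕ) : ℝ) := by exact_mod_cast h1
          push_cast at h2
          rw [hy]
          linarith
        have hj0 : (0 : ℝ) ≤ j := Nat.cast_nonneg j
        have hkL : 1000000000000000000000 * ((k : ℝ) + 1) ≤ L := by
          rw [hkr]
          linarith
        have h3 := ih k (by omega) hkL
        rw [hk]
        refine le_trans ?_ h3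
        rw [hkr]
        have hsy : (j : ℝ) + 1 ≤ y / 2 := by
          have h4 : 2 * (j + 1) ≤ m + 1 := by omega
          have h5 : ((2 * (j + 1) : ℕ) : ℝ) ≤ ((m + 1 : ℕ) : ℝ) := by exact_mod_cast h4
          push_cast at h5
          rw [hy]
          linarith
        obtain ⟨s, hs⟩ : ∃ s : ℝ, s = (j : ℝ) + 1 := ⟨_, rfl⟩
        have hs0 : 0 ≤ s := by rw [hs]; linarith
        rw [← hs] at hsy ⊢
        have h6 := Psi_shift L hLn hy0 hs0 hsy
        have h7 := Psi_anti L hLn hs0 (by linarith : s < y)
        have h8 := rho_shift hy1 hy0 hs0 hsy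
        have hΨ0 := Psi_pos L hLn hy0
        have hΨ1 : 0 < Psi L (y - s) := Psi_pos L hLn (by linarith)
        obtain ⟨σ, hσ⟩ : ∃ σ : ℝ, σ = s / y := ⟨_, rfl⟩
        have hσ0 : 0 ≤ σ := by rw [hσ]; positivity
        have hσ1 : σ ≤ 1 / 2 := by rw [hσ, div_le_iff₀ hy0]; linarith
        rw [← hσ] at h6 h8 ⊢
        obtain ⟨w, hw⟩ : ∃ w : ℝ, w = q - 4 * P * σ := ⟨_, rfl⟩
        have hw1 : -(3 * P) ≤ w := by
          rw [hw]
          nlinarith
        have hw2 : w ≤ -10000000000000000000000000000 +
            (10000000000000000000000000000 + 1 / 12000) * rho y₁ (y - s) := by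
          rw [hw, hq, hP]
          nlinarith
        have h9 : Psi L (y - s) * w ≤ Psi L (y - s) * (-10000000000000000000000000000 +
            (10000000000000000000000000000 + 1 / 12000) * rho y₁ (y - s)) :=
          mul_le_mul_of_nonneg_left hw2 hΨ1.le
        refine le_trans ?_ h9
        have e : q - 94 * P * σ = w - 90 * P * σ := by rw [hw]; ring
        rw [e]
        by_cases hw0 : 0 ≤ w
        · have h10 : Psi L y * w ≤ Psi L (y - s) * w := mul_le_mul_of_nonneg_right h7 hw0
          have h11 : 0 ≤ Psi L y * (90 * P * σ) := by positivity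
          linarith
        · push Not at hw0
          have h10 : Psi L y * (1 + 30 * σ) * w ≤ Psi L (y - s) * w :=
            mul_le_mul_of_nonpos_right h6 hw0.le
          refine le_trans ?_ h10
          have h11 : Psi L y * (30 * σ) * (-(3 * P)) ≤ Psi L y * (30 * σ) * w :=
            mul_le_mul_of_nonneg_left hw1 (by positivity)
          have e2 : Psi L y * (1 + 30 * σ) * w = Psi L y * w + Psi L y * (30 * σ) * w := by ring
          rw [e2]
          linarith
      · have hE' := E_le
        have hE := E_ge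
        have h1 : E * q ≤ 2.7183 * (1 / 12000) := by
          calc E * q ≤ E * (1 / 12000) := mul_le_mul_of_nonneg_left hq3 (by linarith)
            _ ≤ _ := mul_le_mul_of_nonneg_right hE' (by norm_num)
        have h2 : (17 * P + 4.4 * (94 * P)) / 20000000000000000000000000000000000 ≤ 1 / 4000 := by
          rw [hP]
          norm_num
        norm_num at h1 h2 ⊢
        linarith

theorem bb_nonneg (L m : ℕ) (hL : 1000000000000000000000 * ((m : ℝ) + 1) ≤ L)
    (hK : 60000000000000000000000000000000000 * (L : ℝ) ≤ ((m : ℝ) + 1) * √((m : ℝ) + 1)) :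
    0 ≤ bb L (m + 1) := by
  have hm0 : (0 : ℝ) ≤ m := Nat.cast_nonneg m
  obtain ⟨y, hy⟩ : ∃ y : ℝ, y = (m : ℝ) + 1 := ⟨_, rfl⟩
  have hy1' : 1 ≤ y := by rw [hy]; linarith
  have hy0 : 0 < y := by linarith
  have hs : 0 < √y := Real.sqrt_pos.mpr hy0
  rw [← hy] at hK
  have h1 : 20000000000000000000000000000000000 * (L : ℝ) ≤ (y / 2) * √(y / 2) := by
    have h2 : √y / 1.42 ≤ √(y / 2) := by
      apply Real.le_sqrt_of_sq_le
      rw [div_pow, Real.sq_sqrt hy0.le, div_le_iff₀ (by norm_num)]
      linarith
    have h3 : (y / 2) * (√y / 1.42) ≤ (y / 2) * √(y / 2) := mul_le_mul_of_nonneg_left h2 (by positivity)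
    have h4 : 0 ≤ (L : ℝ) := Nat.cast_nonneg L
    have e : (y / 2) * (√y / 1.42) = (y * √y) / 2.84 := by ring
    rw [e] at h3
    have h5 : 20000000000000000000000000000000000 * (L : ℝ) ≤ (y * √y) / 2.84 := by
      rw [le_div_iff₀ (by norm_num)]
      linarith
    linarith
  have h := bb_ge_stage2 L (y / 2) (by positivity) h1 m hL
  rw [← hy] at h hL
  have hr : rho (y / 2) y = 1 := by
    unfold rho
    have : (y - y / 2) / (y / 2) = 1 := by
      field_simp
      ring
    rw [this, min_self, max_eq_right (by norm_num)]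
  rw [hr] at h
  refine le_trans ?_ h
  have hLn : 1 ≤ L := by
    have : (1 : ℝ) ≤ L := by linarith
    exact_mod_cast this
  have := Psi_pos L hLn hy0
  apply mul_nonneg this.le
  norm_num

theorem increasing (n l : ℕ) (hl : l < n)
    (h1 : 4 * 10 ^ 69 * (n : ℝ) ^ 2 ≤ ((n : ℝ) - l) ^ 3)
    (h2 : 2 * 10 ^ 21 * ((n : ℝ) - l) ≤ n) : a n l ≤ a n (l + 1) := by
  obtain ⟨m, hm⟩ : ∃ m, n = l + (m + 1) := ⟨n - l - 1, by omega⟩
  have hmr : (n : ℝ) - l = (m : ℝ) + 1 := by rw [hm]; push_cast; ring
  have hm0 : (0 : ℝ) ≤ m := Nat.cast_nonneg m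
  rw [hmr] at h1 h2
  obtain ⟨y, hy⟩ : ∃ y : ℝ, y = (m : ℝ) + 1 := ⟨_, rfl⟩
  have hy1 : 1 ≤ y := by rw [hy]; linarith
  have hy0 : 0 < y := by linarith
  rw [← hy] at h1 h2 hmr
  have hl0 : (0 : ℝ) ≤ l := Nat.cast_nonneg l
  have hs : 0 < √y := Real.sqrt_pos.mpr hy0
  have hss : √y * √y = y := Real.mul_self_sqrt hy0.le
  have hA : 1000000000000000000000 * ((m : ℝ) + 1) ≤ l := by
    rw [← hy]
    norm_num at h2
    linarith
  have hB : 60000000000000000000000000000000000 * (l : ℝ) ≤ ((m : ℝ) + 1) * √((m : ℝ) + 1) := by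
    rw [← hy]
    have h3 : (60000000000000000000000000000000000 * (l : ℝ)) ^ 2 ≤ (y * √y) ^ 2 := by
      have e : (y * √y) ^ 2 = y ^ 3 := by
        calc (y * √y) ^ 2 = y ^ 2 * (√y * √y) := by ring
          _ = _ := by rw [hss]; ring
      rw [e]
      refine le_trans ?_ h1
      have h4 : (l : ℝ) ^ 2 ≤ (n : ℝ) ^ 2 := by
        apply pow_le_pow_left₀ hl0
        exact_mod_cast hl.le
      have h5 : 0 ≤ (n : ℝ) ^ 2 := by positivity
      norm_num
      nlinarith
    exact le_of_sq_le_sq h3 (by positivity)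
  have h := bb_nonneg l m hA hB
  rw [bb_succ] at h
  have h3 : An l n ≤ An (l + 1) n := by
    have e1 : gg (l + 1) m = An (l + 1) n := by
      unfold gg
      rw [hm]
      congr 1
      ring
    have e2 : gg l (m + 1) = An l n := by
      unfold gg
      rw [hm]
    rw [e1, e2] at h
    linarith
  have h4 : RR n l ≤ RR n (l + 1) := by
    unfold RR
    exact div_le_div_of_nonneg_right h3 (tn_pos n).le
  have h5 : (a n l : ℝ) ≤ a n (l + 1) := by
    rw [a_eq n l (by omega), a_eq n (l + 1) (by omega)]
    exact mul_le_mul_of_nonneg_right h4 (by positivity)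
  exact_mod_cast h5

end Pool.Agent.MP_9da1e3_co
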