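import Pool.Agent.Lib.MP_9da1e3_co.Sh3
import Pool.Agent.Lib.MP_9da1e3_co.Up6

namespace Pool.Agent.MP_9da1e3_co

open Finset

lemma sum_gg_tel (K : ℕ) (hK : 1000 ≤ K) : ∀ I : ℕ, 2 * I ≤ K →
    tn (K + 1) - HH K I - 40 / (K : ℝ) * (1.1 / ((K : ℝ) * √(K : ℝ))) * I ≤
      ∑ i ∈ range I, gg (K + 1) i := by
  have hKr : (1000 : ℝ) ≤ K := by exact_mod_cast hK
  have hK0 : (0 : ℝ) < K := by linarith
  intro I
  induction I with
  | zero =>
    intro _
    rw [HH_zero, Finset.sum_range_zero]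
    have := tn_anti K
    simp only [Nat.cast_zero, mul_zero, sub_zero]
    linarith
  | succ I ih =>
    intro hI
    have h1 := ih (by omega)
    rw [Finset.sum_range_succ]
    have h2 := HH_diff K I
    have h3 := HH_ratio K hK I (by omega)
    have h4 := HH_le K I (by omega)
    have h5 : 40 / (K : ℝ) * HH K I ≤ 40 / (K : ℝ) * (1.1 / ((K : ℝ) * √(K : ℝ))) :=
      mul_le_mul_of_nonneg_left h4 (by positivity)
    push_cast
    have e : 40 / (K : ℝ) * (1.1 / ((K : ℝ) * √(K : ℝ))) * ((I : ℝ) + 1) =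
        40 / (K : ℝ) * (1.1 / ((K : ℝ) * √(K : ℝ))) * I + 40 / (K : ℝ) * (1.1 / ((K : ℝ) * √(K : ℝ))) := by
      ring
    rw [e]
    have h6 : (1 - 40 / (K : ℝ)) * HH K I = HH K I - 40 / (K : ℝ) * HH K I := by ring
    rw [h6] at h3
    linarith

lemma sum_gg_sharp (L I : ℕ) (hL : (10 : ℝ) ^ 200 ≤ L) (h1 : (10 : ℝ) ^ 24 * I ≤ L)
    (h2 : (L : ℝ) ≤ 4 * 10 ^ 24 * I) : 0.97 * tn L ≤ ∑ i ∈ range I, gg L i := by
  have hbig : (10 : ℝ) ^ 100 ≤ 10 ^ 200 := pow_le_pow_right₀ (by norm_num) (by norm_num)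
  have hL100 : (10 : ℝ) ^ 100 ≤ L := hbig.trans hL
  have h100 : (10 : ℝ) ^ 100 = 10000000000000000000000000000000000000000000000000000000000000000000000000000000000000000000000000000 := by norm_num
  rw [h100] at hL100
  have h24 : (10 : ℝ) ^ 24 = 1000000000000000000000000 := by norm_num
  rw [h24] at h1 h2
  have hL0 : (0 : ℝ) < L := by linarith
  have hI0 : (0 : ℝ) < I := by linarith
  have hI1 : (10000000000000000000000000000000000000000000000000000000000000000000000 : ℝ) ≤ I := by linarith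
  obtain ⟨K, rfl⟩ : ∃ K, L = K + 1 := by
    have : (1 : ℝ) ≤ L := by linarith
    have : 1 ≤ L := by exact_mod_cast this
    exact ⟨L - 1, by omega⟩
  push_cast at h1 h2 hL100 hL0
  have hKr : (1000000000000 : ℝ) ≤ K := by linarith
  have hK0 : (0 : ℝ) < K := by linarith
  have hKn : 1000 ≤ K := by
    have : (1000 : ℝ) ≤ K := by linarith
    exact_mod_cast this
  have hIK : 2 * I ≤ K := by
    have : 2 * (I : ℝ) ≤ K := by linarith
    exact_mod_cast this
  have hI2 : 2 ≤ I := by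
    have : (2 : ℝ) ≤ I := by linarith
    exact_mod_cast this
  refine le_trans ?_ (sum_gg_tel K hKn I hIK)
  have hsK : 0 < √(K : ℝ) := Real.sqrt_pos.mpr hK0
  have hsI : 0 < √(I : ℝ) := Real.sqrt_pos.mpr hI0
  have hL1 : 0 < (K : ℝ) * √(K : ℝ) := by positivity
  -- lower bound of tn (K+1)
  have ht : 0.5 / ((K : ℝ) * √(K : ℝ)) ≤ tn (K + 1) := by
    refine le_trans ?_ (le_tn (K + 1))
    have hs := sq_pos (K + 1)
    have h3 : sq (K + 1) ≤ 1.1 * √(K : ℝ) := by
      unfold sq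
      apply Real.sqrt_le_iff.mpr
      constructor
      · positivity
      · rw [mul_pow, Real.sq_sqrt hK0.le]
        push_cast
        linarith
    rw [div_le_div_iff₀ (by positivity) (by positivity)]
    push_cast
    have h4 : ((K : ℝ) + 1 + 1) * sq (K + 1) ≤ (1.1 * K) * (1.1 * √(K : ℝ)) :=
      mul_le_mul (by linarith) h3 hs.le (by positivity)
    nlinarith
  have hH : HH K I ≤ 0.005 / ((K : ℝ) * √(K : ℝ)) := by
    unfold HH
    have h3 := F_le (K + 1) (by omega) (K + I) (by omega)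
    refine h3.trans ?_
    have e : (((K + I : ℕ)) : ℝ) - ((K + 1 : ℕ) : ℝ) = (I : ℝ) - 1 := by push_cast; ring
    rw [e, mul_one_div]
    have h4 : (I : ℝ) / 2 ≤ (I : ℝ) - 1 := by linarith
    have h5 : √(I : ℝ) / 1.5 ≤ √((I : ℝ) - 1) := by
      apply Real.le_sqrt_of_sq_le
      rw [div_pow, Real.sq_sqrt hI0.le, div_le_iff₀ (by norm_num)]
      linarith
    have h6 : √(K : ℝ) ≤ √((K + I : ℕ) : ℝ) := by
      apply Real.sqrt_le_sqrt
      push_cast
      linarith
    have h7 : (I : ℝ) / 2 * (√(I : ℝ) / 1.5) * √(K : ℝ) ≤ D2 ((I : ℝ) - 1) ((K + I : ℕ) : ℝ) := by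
      unfold D2
      apply mul_le_mul _ h6 hsK.le
      · have : 0 ≤ (I : ℝ) - 1 := by linarith
        positivity
      · exact mul_le_mul h4 h5 (by positivity) (by linarith)
    refine (div_le_div_of_nonneg_left (by norm_num) (by positivity) h7).trans ?_
    rw [div_le_div_iff₀ (by positivity) (by positivity)]
    have h8 : (100000000000000000000000000000000000 : ℝ) ≤ √(I : ℝ) := by
      apply Real.le_sqrt_of_sq_le
      have e : (100000000000000000000000000000000000 : ℝ) ^ 2 =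
        10000000000000000000000000000000000000000000000000000000000000000000000 := by norm_num
      rw [e]
      exact hI1
    have h9 : (K : ℝ) ≤ 4000000000000000000000000 * I := by linarith
    have h10 : 32 * (K : ℝ) ≤ 0.005 / 3 * (I * √(I : ℝ)) := by
      have : I * 100000000000000000000000000000000000 ≤ I * √(I : ℝ) := mul_le_mul_of_nonneg_left h8 hI0.le
      linarith
    calc 32 * ((K : ℝ) * √(K : ℝ)) = (32 * (K : ℝ)) * √(K : ℝ) := by ring
      _ ≤ (0.005 / 3 * (I * √(I : ℝ))) * √(K : ℝ) := mul_le_mul_of_nonneg_right h10 hsK.le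
      _ = 0.005 * ((I : ℝ) / 2 * (√(I : ℝ) / 1.5) * √(K : ℝ)) := by ring
  have hc : 40 / (K : ℝ) * (1.1 / ((K : ℝ) * √(K : ℝ))) * I ≤ 0.005 / ((K : ℝ) * √(K : ℝ)) := by
    have h3 : (I : ℝ) / K ≤ 0.0001 := by
      rw [div_le_iff₀ hK0]
      linarith
    have e : 40 / (K : ℝ) * (1.1 / ((K : ℝ) * √(K : ℝ))) * I = 44 * (I / K) / ((K : ℝ) * √(K : ℝ)) := by
      field_simp
      norm_num
    rw [e]
    apply div_le_div_of_nonneg_right _ hL1.le
    linarith
  have h3 : 0.01 / ((K : ℝ) * √(K : ℝ)) ≤ 0.03 * tn (K + 1) := by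
    have e : 0.01 / ((K : ℝ) * √(K : ℝ)) = 0.02 * (0.5 / ((K : ℝ) * √(K : ℝ))) := by ring
    rw [e]
    have := tn_pos (K + 1)
    nlinarith
  have e5 : 0.01 / ((K : ℝ) * √(K : ℝ)) = 0.005 / ((K : ℝ) * √(K : ℝ)) + 0.005 / ((K : ℝ) * √(K : ℝ)) := by
    rw [← add_div]
    norm_num
  linarith

lemma bb_rec2 (L m : ℕ) (h : m + 1 ≤ L) :
    ∑ j ∈ range (m + 1), ((L : ℝ) + j + 1) * (tn j * bb L (m - j)) +
      2 * ∑ i ∈ range m, tn (m - 1 - i) * gg (L + 1) i - tn m * tn L ≤
    E * (((L : ℝ) + (m + 1)) * bb L (m + 1)) := by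
  have r1 := gg_rec L m h
  rcases Nat.eq_zero_or_pos m with rfl | hm
  · have := bb_rec L 0 h
    simp only [Finset.sum_range_zero, mul_zero, add_zero] at this ⊢
    exact this
  · obtain ⟨p, rfl⟩ : ∃ p, m = p + 1 := ⟨m - 1, by omega⟩
    have r2 := gg_rec (L + 1) p (by omega)
    rw [bb_succ]
    have eS : SS (L + 1) p - SS L (p + 1) = ∑ j ∈ range (p + 1), tn j * gg (L + 1) (p - j) -
        tn (p + 1) * tn L := by
      unfold SS
      rw [Finset.sum_range_succ (fun j => tn j * HH L (p + 1 - j)) (p + 1), Nat.sub_self, HH_zero]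
      have e1 : ∑ j ∈ range (p + 1), tn j * HH (L + 1) (p - j) =
          ∑ j ∈ range (p + 1), tn j * HH L (p + 1 - j) +
          ∑ j ∈ range (p + 1), tn j * gg (L + 1) (p - j) := by
        rw [← Finset.sum_add_distrib]
        apply Finset.sum_congr rfl
        intro j hj
        have hj' := mem_range.mp hj
        rw [HH_diff L (p - j)]
        have e2 : p - j + 1 = p + 1 - j := by omega
        rw [e2]
        ring
      rw [e1]
      ring
    have eB : ∑ j ∈ range (p + 1 + 1), ((L : ℝ) + j + 1) * (tn j * bb L (p + 1 - j)) =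
        ∑ j ∈ range (p + 1), ((L : ℝ) + j + 1) * (tn j * gg (L + 1) (p - j)) -
        ∑ j ∈ range (p + 1 + 1), ((L : ℝ) + j + 1) * (tn j * gg L (p + 1 - j)) := by
      rw [Finset.sum_range_succ _ (p + 1), Finset.sum_range_succ (fun j => ((L : ℝ) + j + 1) *
        (tn j * gg L (p + 1 - j))) (p + 1), Nat.sub_self, bb_zero, gg_zero, mul_zero, mul_zero,
        add_zero, add_zero, ← Finset.sum_sub_distrib]
      apply Finset.sum_congr rfl
      intro j hj
      have hj' := mem_range.mp hj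
      have e2 : p + 1 - j = (p - j) + 1 := by omega
      rw [e2, bb_succ]
      ring
    have eG : ∑ j ∈ range (p + 1), (((L + 1 : ℕ) : ℝ) + j + 1) * (tn j * gg (L + 1) (p - j)) =
        ∑ j ∈ range (p + 1), ((L : ℝ) + j + 1) * (tn j * gg (L + 1) (p - j)) +
        ∑ j ∈ range (p + 1), tn j * gg (L + 1) (p - j) := by
      rw [← Finset.sum_add_distrib]
      apply Finset.sum_congr rfl
      intro j _
      push_cast
      ring
    rw [eG] at r2
    have eR : ∑ i ∈ range (p + 1), tn (p + 1 - 1 - i) * gg (L + 1) i =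
        ∑ j ∈ range (p + 1), tn j * gg (L + 1) (p - j) := by
      rw [← sum_rev (fun j => tn j * gg (L + 1) (p - j)) p]
      apply Finset.sum_congr rfl
      intro i hi
      have hi' := mem_range.mp hi
      have e2 : p - (p - i) = i := by omega
      rw [e2, Nat.add_sub_cancel]
    have e3 : E * (((L : ℝ) + (((p + 1 : ℕ) : ℝ) + 1)) * (gg (L + 1) (p + 1) - gg L (p + 1 + 1))) =
        E * ((((L + 1 : ℕ) : ℝ) + (p + 1)) * gg (L + 1) (p + 1)) -
        E * (((L : ℝ) + (((p + 1 : ℕ) : ℝ) + 1)) * gg L (p + 1 + 1)) := by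
      push_cast
      ring
    rw [e3, r1, r2, eB, eR]
    linarith

end Pool.Agent.MP_9da1e3_co
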