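import Pool.Agent.Lib.MP_9da1e3_co.Sh4

namespace Pool.Agent.MP_9da1e3_co

open Finset

/-- the coefficient of the near terms -/
lemma coef_ge (L m i : ℕ) (y : ℝ) (hy : y = (m : ℝ) + 1) (hL : (10 : ℝ) ^ 12 ≤ L)
    (hy6 : (10 : ℝ) ^ 6 ≤ y) (hyL : 2 * y ≤ L) (hi : 1000 * ((i : ℝ) + 1) ≤ y) :
    1.2 * tn m ≤ (AA L m (i + 1) - AA L m i) - 2.72 / (L : ℝ) * AA L m (i + 1) +
      2 * (tn (m - 1 - i) * (1 - 2.72 / (L : ℝ))) := by
  have e12 : (10 : ℝ) ^ 12 = 1000000000000 := by norm_num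
  have e6 : (10 : ℝ) ^ 6 = 1000000 := by norm_num
  rw [e12] at hL
  rw [e6] at hy6
  have hL0 : (0 : ℝ) < L := by linarith
  have hy0 : 0 < y := by linarith
  have hi0 : (0 : ℝ) ≤ i := Nat.cast_nonneg i
  have him : i + 101 ≤ m := by
    have : (i : ℝ) + 101 ≤ m := by linarith
    exact_mod_cast this
  obtain ⟨k, hk⟩ : ∃ k, m = i + 1 + k := ⟨m - (i + 1), by omega⟩
  have hk100 : 100 ≤ k := by omega
  have e1 : m - (i + 1) = k := by omega
  have e2 : m - i = k + 1 := by omega
  have e3 : m - 1 - i = k := by omega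
  have hkr : (k : ℝ) + 1 = y - ((i : ℝ) + 1) := by rw [hy, hk]; push_cast; ring
  have hk0 : (100 : ℝ) ≤ k := by exact_mod_cast hk100
  have htk := tn_pos k
  have htm := tn_pos m
  have hmono : tn m ≤ tn k := tn_le_of_le (by omega : k ≤ m)
  have hsh := tn_sharp k hk100
  have hup := cE_up k hk100
  unfold cE at hup
  -- upper bound of tn k
  have hsq := tn_le_sq (by omega : k ≤ m)
  have hk1 : 0.999 * y ≤ (k : ℝ) + 1 := by rw [hkr]; linarith
  have hup2 : tn k ≤ 1.0021 * tn m := by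
    rw [← hy] at hsq
    have h1 : (0.999 * y) ^ 2 ≤ ((k : ℝ) + 1) ^ 2 := pow_le_pow_left₀ (by positivity) hk1 2
    have h2 : (0.999 * y) ^ 2 * tn k ≤ y ^ 2 * tn m :=
      (mul_le_mul_of_nonneg_right h1 htk.le).trans hsq
    have h3 : y ^ 2 * (0.998001 * tn k) ≤ y ^ 2 * tn m := by
      refine le_trans (le_of_eq ?_) h2
      ring
    have h4 := le_of_mul_le_mul_left h3 (by positivity)
    linarith
  unfold AA
  rw [e1, e2, e3]
  push_cast at hup ⊢
  -- the difference of AA
  have hd1 : 1.44 * (L * (tn m / y)) ≤ L * (tn k - tn (k + 1)) := by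
    have h1 : tn m / y ≤ tn k / ((k : ℝ) + 2) := by
      apply div_le_div₀ htk.le hmono (by positivity)
      linarith
    have h2 : L * (1.44 * (tn m / y)) ≤ L * (tn k - tn (k + 1)) := by
      apply mul_le_mul_of_nonneg_left _ hL0.le
      linarith
    linarith
  have hd2 : 0.44 * tn m ≤ ((k : ℝ) + 1) * tn k - ((k : ℝ) + 1 + 1) * tn (k + 1) := by
    have h1 : 0.44 ≤ 0.45 * (((k : ℝ) + 1) / ((k : ℝ) + 2)) := by
      rw [mul_div_assoc', le_div_iff₀ (by positivity)]
      linarith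
    have h2 : 0.44 * tn k ≤ 0.45 * (((k : ℝ) + 1) / ((k : ℝ) + 2)) * tn k :=
      mul_le_mul_of_nonneg_right h1 htk.le
    have e : ((k : ℝ) + 1) * tn k * (1 - 0.45 / ((k : ℝ) + 2)) =
        ((k : ℝ) + 1) * tn k - 0.45 * (((k : ℝ) + 1) / ((k : ℝ) + 2)) * tn k := by
      field_simp
    rw [e] at hup
    linarith
  have hx : L * (tn m / y) = (L / y) * tn m := by ring
  rw [hx] at hd1
  obtain ⟨x, hxd⟩ : ∃ x : ℝ, x = y / L := ⟨_, rfl⟩
  have hx0 : 0 < x := by rw [hxd]; positivity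
  have hx1 : x ≤ 1 / 2 := by rw [hxd, div_le_iff₀ hL0]; linarith
  have hxi : L / y = 1 / x := by rw [hxd, one_div_div]
  rw [hxi] at hd1
  have hxi2 : 2 ≤ 1 / x := by
    rw [le_div_iff₀ hx0]
    linarith
  have hneg : 2.72 / (L : ℝ) * (((L : ℝ) + (k : ℝ) + 1) * tn k) ≤ 2.73 * (1 + x) * tn m := by
    have h1 : 2.72 / (L : ℝ) * (((L : ℝ) + (k : ℝ) + 1) * tn k) = 2.72 * (1 + ((k : ℝ) + 1) / L) * tn k := by
      field_simp
      ring
    rw [h1]
    have h2 : ((k : ℝ) + 1) / L ≤ x := by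
      rw [hxd]
      apply div_le_div_of_nonneg_right _ hL0.le
      rw [hkr]
      linarith
    have h3 : 0 ≤ ((k : ℝ) + 1) / L := by positivity
    calc 2.72 * (1 + ((k : ℝ) + 1) / L) * tn k ≤ 2.72 * (1 + x) * tn k := by
          apply mul_le_mul_of_nonneg_right _ htk.le
          linarith
      _ ≤ 2.72 * (1 + x) * (1.0021 * tn m) := mul_le_mul_of_nonneg_left hup2 (by positivity)
      _ ≤ 2.73 * (1 + x) * tn m := by
          have : 0 ≤ (1 + x) * tn m := by positivity
          nlinarith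
  have hpos : 1.99 * tn m ≤ 2 * (tn k * (1 - 2.72 / (L : ℝ))) := by
    have h1 : 2.72 / (L : ℝ) ≤ 0.005 := by
      rw [div_le_iff₀ hL0]
      linarith
    have h2 : tn k * 0.995 ≤ tn k * (1 - 2.72 / (L : ℝ)) := by
      apply mul_le_mul_of_nonneg_left _ htk.le
      linarith
    linarith
  have hfin : 1.2 * tn m ≤ 1.44 * (1 / x * tn m) + 0.44 * tn m - 2.73 * (1 + x) * tn m + 1.99 * tn m := by
    have h1 : 0 ≤ (1.44 * (1 / x) + 0.44 - 2.73 * (1 + x) + 1.99 - 1.2) * tn m := by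
      apply mul_nonneg _ htm.le
      linarith
    linarith
  have e5 : ((L : ℝ) + (k : ℝ) + 1) * tn k - ((L : ℝ) + ((k : ℝ) + 1) + 1) * tn (k + 1) =
      L * (tn k - tn (k + 1)) + (((k : ℝ) + 1) * tn k - ((k : ℝ) + 1 + 1) * tn (k + 1)) := by ring
  rw [e5]
  linarith

/-- the contribution of the far part, in the range of `y` comparable with `L` -/
lemma far_ge2 (L m h : ℕ) (y : ℝ) (hy : y = (m : ℝ) + 1) (hh : h = (m + 1) / 2)
    (hL : (10 : ℝ) ^ 200 ≤ L) (h1 : (L : ℝ) ≤ 10 ^ 21 * y) (h2 : 2 * y ≤ L) :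
    0 ≤ ∑ t ∈ range (m + 1 - h), ((L : ℝ) + ((h + t : ℕ) : ℝ) + 1) * (tn (h + t) * bb L (m - (h + t))) +
      2 * ∑ i ∈ range m, tn (m - 1 - i) * gg (L + 1) i - tn m * tn L := by
  have hb1 : (10 : ℝ) ^ 180 ≤ 10 ^ 200 := pow_le_pow_right₀ (by norm_num) (by norm_num)
  have hb2 : (10 : ℝ) ^ 100 ≤ 10 ^ 200 := pow_le_pow_right₀ (by norm_num) (by norm_num)
  have hL100 : (10 : ℝ) ^ 100 ≤ L := hb2.trans hL
  have e21 : (10 : ℝ) ^ 21 = 1000000000000000000000 := by norm_num
  have hb3 : (10 : ℝ) ^ 12 ≤ 10 ^ 200 := pow_le_pow_right₀ (by norm_num) (by norm_num)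
  have hL12 : (10 : ℝ) ^ 12 ≤ L := hb3.trans hL
  have hLr : (1000000000000 : ℝ) ≤ L := by
    have e12 : (10 : ℝ) ^ 12 = 1000000000000 := by norm_num
    linarith
  have hL0 : (0 : ℝ) < L := by linarith
  have hm0 : (0 : ℝ) ≤ m := Nat.cast_nonneg m
  have hy1 : 1 ≤ y := by rw [hy]; linarith
  have hy0 : 0 < y := by linarith
  have hs : 0 < √y := Real.sqrt_pos.mpr hy0
  have hss : √y * √y = y := Real.mul_self_sqrt hy0.le
  have hl : 0 < √(L : ℝ) := Real.sqrt_pos.mpr hL0
  have hyL : y ≤ L := by linarith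
  -- y is huge
  have hy178 : (10 : ℝ) ^ 178 ≤ y := by
    have h3 : (10 : ℝ) ^ 21 * 10 ^ 178 ≤ 10 ^ 21 * y := by
      have e : (10 : ℝ) ^ 21 * 10 ^ 178 = 10 ^ 199 := by norm_num
      rw [e]
      have : (10 : ℝ) ^ 199 ≤ 10 ^ 200 := pow_le_pow_right₀ (by norm_num) (by norm_num)
      linarith
    exact le_of_mul_le_mul_left h3 (by positivity)
  have hsy89 : (10 : ℝ) ^ 89 ≤ √y := by
    apply Real.le_sqrt_of_sq_le
    have e : ((10 : ℝ) ^ 89) ^ 2 = 10 ^ 178 := by rw [← pow_mul]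
    rw [e]
    exact hy178
  have hb4 : (10 : ℝ) ^ 9 ≤ 10 ^ 178 := pow_le_pow_right₀ (by norm_num) (by norm_num)
  have hy9 : (1000000000 : ℝ) ≤ y := by
    have e9 : (10 : ℝ) ^ 9 = 1000000000 := by norm_num
    linarith
  have hLn : 1000000000000 ≤ L := by exact_mod_cast hLr
  have hm4 : 4 ≤ m := by
    have : (4 : ℝ) ≤ m := by linarith
    exact_mod_cast this
  have hmL : 2 * (m + 1) ≤ L := by
    have : 2 * ((m : ℝ) + 1) ≤ L := by rw [← hy]; linarith
    exact_mod_cast this
  obtain ⟨M, hM⟩ : ∃ M, M = m - h := ⟨_, rfl⟩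
  have hZ : m + 1 - h = M + 1 := by omega
  have hhm : h ≤ m := by omega
  -- the splitting point
  obtain ⟨I, hI⟩ : ∃ I, I = L / 1000000000000000000000000 := ⟨_, rfl⟩
  have hI1n : 1000000000000000000000000 * I ≤ L := by rw [hI]; omega
  have hI2n : L < 1000000000000000000000000 * (I + 1) := by rw [hI]; omega
  have hI1 : 1000000000000000000000000 * (I : ℝ) ≤ L := by exact_mod_cast hI1n
  have hI2 : (L : ℝ) ≤ 1000000000000000000000000 * ((I : ℝ) + 1) := by exact_mod_cast hI2n.le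
  have e24 : (10 : ℝ) ^ 24 = 1000000000000000000000000 := by norm_num
  have hI174 : (10 : ℝ) ^ 174 ≤ I := by
    have h3 : (10 : ℝ) ^ 24 * 10 ^ 176 = 10 ^ 200 := by norm_num
    have h4 : (10 : ℝ) ^ 24 * 10 ^ 176 ≤ 10 ^ 24 * ((I : ℝ) + 1) := by
      rw [h3, e24]
      linarith
    have h5 := le_of_mul_le_mul_left h4 (by positivity)
    have h6 : (10 : ℝ) ^ 176 = 100 * 10 ^ 174 := by norm_num
    have h7 : (1 : ℝ) ≤ 10 ^ 174 := one_le_pow₀ (by norm_num)
    linarith
  have hIpos : (1 : ℝ) ≤ I := by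
    have h7 : (1 : ℝ) ≤ 10 ^ 174 := one_le_pow₀ (by norm_num)
    linarith
  have hI0 : (0 : ℝ) < I := by linarith
  have hI3 : (L : ℝ) ≤ 4 * 10 ^ 24 * I := by
    rw [e24]
    linarith
  have hIy : 1000 * (I : ℝ) ≤ y := by
    rw [e21] at h1
    linarith
  have hMy : y / 4 ≤ (M : ℝ) := by
    have h3 : m + 1 ≤ 4 * M := by omega
    have h4 : ((m + 1 : ℕ) : ℝ) ≤ ((4 * M : ℕ) : ℝ) := by exact_mod_cast h3
    push_cast at h4
    rw [hy]
    linarith
  have hIM : I ≤ M := by
    have : (I : ℝ) ≤ M := by linarith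
    exact_mod_cast this
  obtain ⟨J, hJ⟩ : ∃ J, M = I + J := ⟨M - I, by omega⟩
  have hM0 : (0 : ℝ) < M := by linarith
  have hMs : 0 < √(M : ℝ) := Real.sqrt_pos.mpr hM0
  have hMs2 : √y / 2 ≤ √(M : ℝ) := by
    apply Real.le_sqrt_of_sq_le
    rw [div_pow, Real.sq_sqrt hy0.le]
    norm_num
    linarith
  -- rewrite the sum
  have e1 : ∑ t ∈ range (m + 1 - h), ((L : ℝ) + ((h + t : ℕ) : ℝ) + 1) * (tn (h + t) * bb L (m - (h + t))) =
      ∑ i ∈ range M, AA L m (i + 1) * bb L (i + 1) := by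
    rw [hZ, ← sum_rev (fun t => ((L : ℝ) + ((h + t : ℕ) : ℝ) + 1) * (tn (h + t) * bb L (m - (h + t)))) M,
      Finset.sum_range_succ']
    have e2 : m - (h + (M - 0)) = 0 := by omega
    rw [e2, bb_zero, mul_zero, mul_zero, add_zero]
    apply Finset.sum_congr rfl
    intro i hi
    have hi' := mem_range.mp hi
    have e3 : h + (M - (i + 1)) = m - (i + 1) := by omega
    have e4 : m - (m - (i + 1)) = i + 1 := by omega
    rw [e3, e4]
    unfold AA
    ring
  rw [e1]
  -- lower bound of the near terms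
  have hA : ∑ i ∈ range I, AA L m (i + 1) * (gg L i - gg L (i + 1)) -
      ∑ i ∈ range I, 2.72 / (L : ℝ) * AA L m (i + 1) * gg L i ≤
      ∑ i ∈ range I, AA L m (i + 1) * bb L (i + 1) := by
    rw [← Finset.sum_sub_distrib]
    apply Finset.sum_le_sum
    intro i hi
    have hi' := mem_range.mp hi
    have hir : (i : ℝ) ≤ I := by exact_mod_cast hi'.le
    have h3 := gg_ratio_sharp L hL100 i (by rw [e24]; linarith)
    have h4 := AA_nonneg L m (i + 1)
    rw [bb_succ]
    have h7 : AA L m (i + 1) * ((1 - 2.72 / (L : ℝ)) * gg L i - gg L (i + 1)) ≤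
        AA L m (i + 1) * (gg (L + 1) i - gg L (i + 1)) :=
      mul_le_mul_of_nonneg_left (by linarith) h4
    linarith
  have hB : ∑ j ∈ range J, AA L m (I + j + 1) * (gg L (I + j) - gg L (I + j + 1)) -
      200000000000 / (L : ℝ) * (AA L m M * ∑ j ∈ range J, gg L (I + j)) ≤
      ∑ j ∈ range J, AA L m (I + j + 1) * bb L (I + j + 1) := by
    rw [Finset.mul_sum, Finset.mul_sum, ← Finset.sum_sub_distrib]
    apply Finset.sum_le_sum
    intro j hj
    have hj' := mem_range.mp hj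
    have h3 := gg_ratio L hLn (I + j) (by omega)
    have h4 := AA_nonneg L m (I + j + 1)
    have h5 := AA_mono L m (by omega : I + j + 1 ≤ M) (by omega)
    have h6 := gg_nonneg L (I + j)
    rw [bb_succ]
    have h7 : AA L m (I + j + 1) * ((1 - 200000000000 / (L : ℝ)) * gg L (I + j) - gg L (I + j + 1)) ≤
        AA L m (I + j + 1) * (gg (L + 1) (I + j) - gg L (I + j + 1)) :=
      mul_le_mul_of_nonneg_left (by linarith) h4
    refine le_trans ?_ h7
    have h8 : 200000000000 / (L : ℝ) * (AA L m (I + j + 1) * gg L (I + j)) ≤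
        200000000000 / (L : ℝ) * (AA L m M * gg L (I + j)) := by
      apply mul_le_mul_of_nonneg_left _ (by positivity)
      exact mul_le_mul_of_nonneg_right h5 h6
    have e6 : AA L m (I + j + 1) * ((1 - 200000000000 / (L : ℝ)) * gg L (I + j) - gg L (I + j + 1)) =
        AA L m (I + j + 1) * (gg L (I + j) - gg L (I + j + 1)) -
        200000000000 / (L : ℝ) * (AA L m (I + j + 1) * gg L (I + j)) := by ring
    rw [e6]
    linarith
  have hsplit1 : ∑ i ∈ range M, AA L m (i + 1) * bb L (i + 1) =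
      ∑ i ∈ range I, AA L m (i + 1) * bb L (i + 1) +
      ∑ j ∈ range J, AA L m (I + j + 1) * bb L (I + j + 1) := by
    rw [hJ, Finset.sum_range_add]
  have hsplit2 : ∑ i ∈ range M, AA L m (i + 1) * (gg L i - gg L (i + 1)) =
      ∑ i ∈ range I, AA L m (i + 1) * (gg L i - gg L (i + 1)) +
      ∑ j ∈ range J, AA L m (I + j + 1) * (gg L (I + j) - gg L (I + j + 1)) := by
    rw [hJ, Finset.sum_range_add]
  have hbp := by_parts (AA L m) (gg L) M
  rw [gg_zero, mul_zero, add_zero] at hbp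
  have hsplit3 : ∑ i ∈ range I, (AA L m (i + 1) - AA L m i) * gg L i ≤
      ∑ i ∈ range M, (AA L m (i + 1) - AA L m i) * gg L i := by
    apply Finset.sum_le_sum_of_subset_of_nonneg
    · exact range_subset_range.mpr hIM
    · intro i hi _
      have hi' := mem_range.mp hi
      have h3 := AA_mono L m (by omega : i ≤ i + 1) (by omega)
      exact mul_nonneg (by linarith) (gg_nonneg _ _)
  -- extra sum
  have hextra : ∑ i ∈ range I, tn (m - 1 - i) * (1 - 2.72 / (L : ℝ)) * gg L i ≤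
      ∑ i ∈ range m, tn (m - 1 - i) * gg (L + 1) i := by
    refine le_trans (b := ∑ i ∈ range I, tn (m - 1 - i) * gg (L + 1) i) ?_ ?_
    · apply Finset.sum_le_sum
      intro i hi
      have hi' := mem_range.mp hi
      have hir : (i : ℝ) ≤ I := by exact_mod_cast hi'.le
      have h3 := gg_ratio_sharp L hL100 i (by rw [e24]; linarith)
      have h4 := tn_pos (m - 1 - i)
      rw [mul_assoc]
      exact mul_le_mul_of_nonneg_left h3 h4.le
    · apply Finset.sum_le_sum_of_subset_of_nonneg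
      · exact range_subset_range.mpr (by omega)
      · intro i _ _
        exact mul_nonneg (tn_pos _).le (gg_nonneg _ _)
  have hmain : 1.2 * tn m * ∑ i ∈ range I, gg L i ≤
      ∑ i ∈ range I, (AA L m (i + 1) - AA L m i) * gg L i -
      ∑ i ∈ range I, 2.72 / (L : ℝ) * AA L m (i + 1) * gg L i +
      2 * ∑ i ∈ range I, tn (m - 1 - i) * (1 - 2.72 / (L : ℝ)) * gg L i := by
    rw [Finset.mul_sum, Finset.mul_sum, ← Finset.sum_sub_distrib, ← Finset.sum_add_distrib]
    apply Finset.sum_le_sum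
    intro i hi
    have hi' := mem_range.mp hi
    have hir : (i : ℝ) + 1 ≤ I := by exact_mod_cast hi'
    have h3 := coef_ge L m i y hy hL12 (by
      have e6 : (10 : ℝ) ^ 6 = 1000000 := by norm_num
      linarith) h2 (by linarith)
    have h4 := mul_le_mul_of_nonneg_right h3 (gg_nonneg L i)
    linarith
  have hsum := sum_gg_sharp L I hL (by rw [e24]; linarith) hI3
  have htm := tn_pos m
  have htL := tn_pos L
  have hmain2 : 1.164 * (tn m * tn L) ≤ 1.2 * tn m * ∑ i ∈ range I, gg L i := by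
    have h3 : 1.2 * tn m * (0.97 * tn L) ≤ 1.2 * tn m * ∑ i ∈ range I, gg L i :=
      mul_le_mul_of_nonneg_left hsum (by positivity)
    linarith
  -- lower bound of tn m * tn L
  have ht : 1 / (y * √y) ≤ tn m := by
    have h3 := le_tn m
    have e : sq m = √y := by unfold sq; rw [hy]
    rw [e, ← hy] at h3
    exact h3
  have htL2 : 0.9 / ((L : ℝ) * √(L : ℝ)) ≤ tn L := by
    refine le_trans ?_ (le_tn L)
    have hsq := sq_pos L
    have h3 : sq L ≤ 1.01 * √(L : ℝ) := by
      unfold sq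
      apply Real.sqrt_le_iff.mpr
      constructor
      · positivity
      · rw [mul_pow, Real.sq_sqrt hL0.le]
        linarith
    rw [div_le_div_iff₀ (by positivity) (by positivity)]
    have h4 : ((L : ℝ) + 1) * sq L ≤ (1.01 * L) * (1.01 * √(L : ℝ)) :=
      mul_le_mul (by linarith) h3 hsq.le (by positivity)
    have h5 : 0 < (L : ℝ) * √(L : ℝ) := by positivity
    linarith
  have htt : 0.9 / (y * √y * ((L : ℝ) * √(L : ℝ))) ≤ tn m * tn L := by
    have h3 : 1 / (y * √y) * (0.9 / ((L : ℝ) * √(L : ℝ))) ≤ tn m * tn L :=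
      mul_le_mul ht htL2 (by positivity) htm.le
    refine le_trans (le_of_eq ?_) h3
    field_simp
  have hAM : AA L m M ≤ 6.4 * L / (y * √y) := by
    unfold AA
    have e2 : m - M = h := by omega
    rw [e2]
    have h3 := tn_half h y hy0 (by
      rw [hy]
      have : m + 1 ≤ 2 * (h + 1) := by omega
      exact_mod_cast this)
    have h4 : (L : ℝ) + (h : ℝ) + 1 ≤ 2 * L := by
      have : L + h + 1 ≤ 2 * L := by omega
      exact_mod_cast this
    have h5 := tn_pos h
    calc ((L : ℝ) + (h : ℝ) + 1) * tn h ≤ (2 * L) * (3.2 / (y * √y)) :=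
          mul_le_mul h4 h3 h5.le (by positivity)
      _ = _ := by ring
  have hLn2 : 36000000 ≤ L := by omega
  have hneg1 : AA L m M * gg L M ≤ 0.05 * (tn m * tn L) := by
    have hgM := gg_le_big L M hLn2 (by
      have : (1 : ℝ) ≤ M := by linarith
      exact_mod_cast this)
    have h3 : (y / 4) * (y / 4) * (√y / 2) * √(L : ℝ) ≤ (M : ℝ) * M * √(M : ℝ) * √(L : ℝ) := by
      apply mul_le_mul_of_nonneg_right _ hl.le
      apply mul_le_mul _ hMs2 (by positivity) (by positivity)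
      exact mul_le_mul hMy hMy (by positivity) hM0.le
    have h4 : gg L M ≤ 40000000 * (1 / ((y / 4) * (y / 4) * (√y / 2) * √(L : ℝ))) := by
      refine hgM.trans ?_
      apply mul_le_mul_of_nonneg_left _ (by norm_num)
      exact one_div_le_one_div_of_le (by positivity) h3
    have h5 : AA L m M * gg L M ≤ (6.4 * L / (y * √y)) *
        (40000000 * (1 / ((y / 4) * (y / 4) * (√y / 2) * √(L : ℝ)))) :=
      mul_le_mul hAM h4 (gg_nonneg _ _) (by positivity)
    refine h5.trans ?_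
    have h6 : 0.05 * (0.9 / (y * √y * ((L : ℝ) * √(L : ℝ)))) ≤ 0.05 * (tn m * tn L) :=
      mul_le_mul_of_nonneg_left htt (by norm_num)
    refine le_trans ?_ h6
    have e6 : (6.4 * L / (y * √y)) * (40000000 * (1 / ((y / 4) * (y / 4) * (√y / 2) * √(L : ℝ)))) =
        8192000000 * (L * L) / (y * y * √y) * (1 / (y * √y * ((L : ℝ) * √(L : ℝ)))) := by
      field_simp
      norm_num
    have e7 : 0.05 * (0.9 / (y * √y * ((L : ℝ) * √(L : ℝ)))) =
        0.045 * (1 / (y * √y * ((L : ℝ) * √(L : ℝ)))) := by ring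
    rw [e6, e7]
    apply mul_le_mul_of_nonneg_right _ (by positivity)
    rw [div_le_iff₀ (by positivity)]
    have h7 : (L : ℝ) * L ≤ (10 ^ 21 * y) * (10 ^ 21 * y) := mul_le_mul h1 h1 hL0.le (by positivity)
    have h8 : (10 : ℝ) ^ 60 ≤ √y := by
      have : (10 : ℝ) ^ 60 ≤ 10 ^ 89 := pow_le_pow_right₀ (by norm_num) (by norm_num)
      linarith
    have e60 : (10 : ℝ) ^ 60 = 1000000000000000000000000000000000000000000000000000000000000 := by norm_num
    rw [e60] at h8
    rw [e21] at h7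
    have h9 : y * y * 1000000000000000000000000000000000000000000000000000000000000 ≤ y * y * √y :=
      mul_le_mul_of_nonneg_left h8 (by positivity)
    have h10 : 0 < y * y := by positivity
    nlinarith
  have hneg2 : 200000000000 / (L : ℝ) * (AA L m M * ∑ j ∈ range J, gg L (I + j)) ≤
      0.05 * (tn m * tn L) := by
    have hsI : 0 < √(I : ℝ) := Real.sqrt_pos.mpr hI0
    have h3 : ∑ j ∈ range J, gg L (I + j) ≤
        L * (40000000 * (1 / ((I : ℝ) * I * √(I : ℝ) * √(L : ℝ)))) := by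
      have h4 : ∀ j ∈ range J, gg L (I + j) ≤ 40000000 * (1 / ((I : ℝ) * I * √(I : ℝ) * √(L : ℝ))) := by
        intro j _
        have h5 := gg_le_big L (I + j) hLn2 (by
          have : 1 ≤ I := by exact_mod_cast hIpos
          omega)
        refine h5.trans ?_
        apply mul_le_mul_of_nonneg_left _ (by norm_num)
        apply one_div_le_one_div_of_le (by positivity)
        have h6 : (I : ℝ) ≤ ((I + j : ℕ) : ℝ) := by
          push_cast
          have : (0 : ℝ) ≤ j := Nat.cast_nonneg j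
          linarith
        have h7 : √(I : ℝ) ≤ √((I + j : ℕ) : ℝ) := Real.sqrt_le_sqrt h6
        apply mul_le_mul_of_nonneg_right _ hl.le
        apply mul_le_mul _ h7 hsI.le (by positivity)
        exact mul_le_mul h6 h6 hI0.le (by positivity)
      refine (Finset.sum_le_sum h4).trans ?_
      rw [Finset.sum_const, card_range, nsmul_eq_mul]
      apply mul_le_mul_of_nonneg_right _ (by positivity)
      have : J ≤ L := by omega
      exact_mod_cast this
    have h0 : 0 ≤ ∑ j ∈ range J, gg L (I + j) := Finset.sum_nonneg fun _ _ => gg_nonneg _ _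
    have h5 : AA L m M * ∑ j ∈ range J, gg L (I + j) ≤ (6.4 * L / (y * √y)) *
        (L * (40000000 * (1 / ((I : ℝ) * I * √(I : ℝ) * √(L : ℝ))))) :=
      mul_le_mul hAM h3 h0 (by positivity)
    refine (mul_le_mul_of_nonneg_left h5 (show 0 ≤ 200000000000 / (L : ℝ) by positivity)).trans ?_
    have h6 : 0.05 * (0.9 / (y * √y * ((L : ℝ) * √(L : ℝ)))) ≤ 0.05 * (tn m * tn L) :=
      mul_le_mul_of_nonneg_left htt (by norm_num)
    refine le_trans ?_ h6
    have e6 : 200000000000 / (L : ℝ) * ((6.4 * L / (y * √y)) *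
        (L * (40000000 * (1 / ((I : ℝ) * I * √(I : ℝ) * √(L : ℝ)))))) =
        51200000000000000000 * (L * L) / ((I : ℝ) * I * √(I : ℝ)) *
        (1 / (y * √y * ((L : ℝ) * √(L : ℝ)))) := by
      field_simp
      norm_num
    have e7 : 0.05 * (0.9 / (y * √y * ((L : ℝ) * √(L : ℝ)))) =
        0.045 * (1 / (y * √y * ((L : ℝ) * √(L : ℝ)))) := by ring
    rw [e6, e7]
    apply mul_le_mul_of_nonneg_right _ (by positivity)
    rw [div_le_iff₀ (by positivity)]
    have h7 : (L : ℝ) * L ≤ (4 * 10 ^ 24 * I) * (4 * 10 ^ 24 * I) := mul_le_mul hI3 hI3 hL0.le (by positivity)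
    have h8 : (10 : ℝ) ^ 80 ≤ √(I : ℝ) := by
      apply Real.le_sqrt_of_sq_le
      have e : ((10 : ℝ) ^ 80) ^ 2 = 10 ^ 160 := by rw [← pow_mul]
      rw [e]
      have : (10 : ℝ) ^ 160 ≤ 10 ^ 174 := pow_le_pow_right₀ (by norm_num) (by norm_num)
      linarith
    have e80 : (10 : ℝ) ^ 80 = 100000000000000000000000000000000000000000000000000000000000000000000000000000000 := by norm_num
    rw [e80] at h8
    rw [e24] at h7
    have h9 : (I : ℝ) * I * 100000000000000000000000000000000000000000000000000000000000000000000000000000000 ≤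
        (I : ℝ) * I * √(I : ℝ) := mul_le_mul_of_nonneg_left h8 (by positivity)
    have h10 : 0 < (I : ℝ) * I := by positivity
    nlinarith
  have hQ : 0 < tn m * tn L := by positivity
  linarith

end Pool.Agent.MP_9da1e3_co
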