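import Pool.Agent.Lib.MP_9da1e3_co.Sh5

namespace Pool.Agent.MP_9da1e3_co

open Finset

lemma HH_le_far (L z : ℕ) (hL : 1 ≤ L) (hz : 1 ≤ z) :
    HH L z ≤ 100 / (√(L : ℝ) * ((z : ℝ) * √(z : ℝ))) := by
  have hLr : (1 : ℝ) ≤ L := by exact_mod_cast hL
  have hL0 : (0 : ℝ) < L := by linarith
  have hl : 0 < √(L : ℝ) := Real.sqrt_pos.mpr hL0
  rcases Nat.lt_or_ge z 2 with h | h
  · have hz1 : z = 1 := by omega
    rw [hz1]
    refine (HH_le L 1 hL).trans ?_
    simp only [Nat.cast_one, Real.sqrt_one, mul_one]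
    rw [div_le_div_iff₀ (by positivity) hl]
    have h1 : 1 * √(L : ℝ) ≤ L * √(L : ℝ) := mul_le_mul_of_nonneg_right hLr hl.le
    linarith
  · have hzr : (2 : ℝ) ≤ z := by exact_mod_cast h
    have hz0 : (0 : ℝ) < z := by linarith
    have hs : 0 < √(z : ℝ) := Real.sqrt_pos.mpr hz0
    unfold HH
    have h3 := F_le (L + 1) (by omega) (L + z) (by omega)
    refine h3.trans ?_
    have e : (((L + z : ℕ)) : ℝ) - ((L + 1 : ℕ) : ℝ) = (z : ℝ) - 1 := by push_cast; ring
    rw [e, mul_one_div]
    have h4 : (z : ℝ) / 2 ≤ (z : ℝ) - 1 := by linarith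
    have h5 : √(z : ℝ) / 1.5 ≤ √((z : ℝ) - 1) := by
      apply Real.le_sqrt_of_sq_le
      rw [div_pow, Real.sq_sqrt hz0.le, div_le_iff₀ (by norm_num)]
      linarith
    have h6 : √(L : ℝ) ≤ √((L + z : ℕ) : ℝ) := by
      apply Real.sqrt_le_sqrt
      push_cast
      linarith
    have h7 : (z : ℝ) / 2 * (√(z : ℝ) / 1.5) * √(L : ℝ) ≤ D2 ((z : ℝ) - 1) ((L + z : ℕ) : ℝ) := by
      unfold D2
      apply mul_le_mul _ h6 hl.le
      · have : 0 ≤ (z : ℝ) - 1 := by linarith
        positivity
      · exact mul_le_mul h4 h5 (by positivity) (by linarith)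
    refine (div_le_div_of_nonneg_left (by norm_num) (by positivity) h7).trans ?_
    rw [div_le_div_iff₀ (by positivity) (by positivity)]
    have h8 : 0 < √(L : ℝ) * ((z : ℝ) * √(z : ℝ)) := by positivity
    have e2 : 100 * ((z : ℝ) / 2 * (√(z : ℝ) / 1.5) * √(L : ℝ)) =
        (100 / 3) * (√(L : ℝ) * ((z : ℝ) * √(z : ℝ))) := by ring
    rw [e2]
    linarith

lemma MM_succ_le (L z : ℕ) (hz : 1 ≤ z) (hzL : 2 * z ≤ L) :
    MM (L + 1) z ≤ (1 + 4 / (L : ℝ)) * MM L z := by
  have hLr : (2 : ℝ) ≤ L := by exact_mod_cast (by omega : 2 ≤ L)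
  have hL0 : (0 : ℝ) < L := by linarith
  have hzr : (1 : ℝ) ≤ z := by exact_mod_cast hz
  have hl : 0 < √(L : ℝ) := Real.sqrt_pos.mpr hL0
  have hs : 0 < √(z : ℝ) := Real.sqrt_pos.mpr (by linarith)
  have h1 : MM (L + 1) z ≤ MM L z + cE z * tn L := by
    unfold MM
    have e : L + 1 - z = (L - z) + 1 := by omega
    rw [e, Finset.sum_range_succ]
    have e1 : L + 1 - 1 - (L - z) = z := by omega
    have e2 : z + (L - z) = L := by omega
    rw [e1, e2]
    apply add_le_add _ le_rfl
    apply Finset.sum_le_sum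
    intro i hi
    have hi' := mem_range.mp hi
    apply mul_le_mul_of_nonneg_right _ (tn_pos _).le
    exact cE_le_of_le (by omega)
  have h2 : cE z * tn L ≤ 4 / (L : ℝ) * MM L z := by
    have h3 := cE_le z
    have h4 := tn_le' L (by omega)
    have h5 : √(z : ℝ) ≤ sq z := by
      unfold sq
      apply Real.sqrt_le_sqrt
      linarith
    have h6 : cE z ≤ 1.1 / √(z : ℝ) := by
      refine h3.trans ?_
      exact div_le_div_of_nonneg_left (by norm_num) hs h5
    have h7 : cE z * tn L ≤ (1.1 / √(z : ℝ)) * (1.1 / ((L : ℝ) * √(L : ℝ))) :=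
      mul_le_mul h6 h4 (tn_pos L).le (by positivity)
    refine h7.trans ?_
    have h8 := le_MM L z hz hzL
    have h9 : 4 / (L : ℝ) * (0.35 / (√(L : ℝ) * √(z : ℝ))) ≤ 4 / (L : ℝ) * MM L z :=
      mul_le_mul_of_nonneg_left h8 (by positivity)
    refine le_trans ?_ h9
    rw [div_mul_div_comm, div_mul_div_comm, div_le_div_iff₀ (by positivity) (by positivity)]
    have : 0 < (L : ℝ) * √(L : ℝ) * √(z : ℝ) := by positivity
    nlinarith
  have e3 : (1 + 4 / (L : ℝ)) * MM L z = MM L z + 4 / (L : ℝ) * MM L z := by ring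
  rw [e3]
  linarith

/-- upper comparison of neighbouring `L` -/
lemma HH_ratio_up (L : ℕ) (hL : 1000000 ≤ L) : ∀ z : ℕ, 2 * z ≤ L →
    HH (L + 1) z ≤ (1 + 2000 / (L : ℝ)) * HH L z := by
  have hLr : (1000000 : ℝ) ≤ L := by exact_mod_cast hL
  have hL0 : (0 : ℝ) < L := by linarith
  have hl : 0 < √(L : ℝ) := Real.sqrt_pos.mpr hL0
  have hE := E_ge
  have hE' := E_le
  intro z
  induction z using Nat.strong_induction_on with
  | _ z ih =>
    intro hz
    rcases Nat.eq_zero_or_pos z with rfl | hz0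
    · rw [HH_zero, HH_zero]
      have h1 := tn_anti L
      have h2 := tn_pos L
      have h3 : 0 ≤ 2000 / (L : ℝ) * tn L := by positivity
      linarith
    · obtain ⟨m, rfl⟩ : ∃ m, z = m + 1 := ⟨z - 1, by omega⟩
      obtain ⟨θ, hθ⟩ : ∃ θ : ℝ, θ = 1 + 2000 / (L : ℝ) := ⟨_, rfl⟩
      have hθ0 : 0 ≤ θ := by rw [hθ]; positivity
      rw [← hθ]
      have r1 := HH_rec L m (by omega)
      have r2 := HH_rec (L + 1) m (by omega)
      have m1 := MM_succ_le L (m + 1) (by omega) hz
      have m0 := MM_nonneg L (m + 1)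
      have m2 := le_MM L (m + 1) (by omega) hz
      have hf := HH_le_far L (m + 1) (by omega) (by omega)
      obtain ⟨V, hV⟩ : ∃ V : ℝ, V = ∑ j ∈ range (m + 1), tn j * HH L (m - j) := ⟨_, rfl⟩
      obtain ⟨Y, hY⟩ : ∃ Y : ℝ, Y = ∑ j ∈ range (m + 1), ((j : ℝ) + 2) * (tn j * HH L (m - j)) := ⟨_, rfl⟩
      have hY0 : 0 ≤ Y := by
        rw [hY]
        exact Finset.sum_nonneg fun j _ => by
          have h1 := tn_pos j
          have h2 := HH_nonneg L (m - j)
          positivity
      have e1 : ∑ j ∈ range (m + 1), ((L : ℝ) + j + 2) * (tn j * HH L (m - j)) = L * V + Y := by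
        rw [hV, hY, Finset.mul_sum, ← Finset.sum_add_distrib]
        apply Finset.sum_congr rfl
        intro j _
        ring
      have e2 : ∑ j ∈ range (m + 1), (((L + 1 : ℕ) : ℝ) + j + 2) * (tn j * HH (L + 1) (m - j)) ≤
          θ * (L * V + Y + V) := by
        rw [← e1, hV, ← Finset.sum_add_distrib, Finset.mul_sum]
        apply Finset.sum_le_sum
        intro j hj
        have hj' : j ≤ m := by have := mem_range.mp hj; omega
        have h3 := ih (m - j) (by omega) (by omega)
        rw [← hθ] at h3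
        have ht := tn_pos j
        have hj0 : (0 : ℝ) ≤ j := Nat.cast_nonneg j
        push_cast
        calc ((L : ℝ) + 1 + j + 2) * (tn j * HH (L + 1) (m - j))
            ≤ ((L : ℝ) + 1 + j + 2) * (tn j * (θ * HH L (m - j))) := by
              apply mul_le_mul_of_nonneg_left _ (by positivity)
              exact mul_le_mul_of_nonneg_left h3 ht.le
          _ = θ * (((L : ℝ) + j + 2) * (tn j * HH L (m - j)) + tn j * HH L (m - j)) := by ring
      rw [e1] at r1
      obtain ⟨H, hH⟩ : ∃ H : ℝ, H = HH L (m + 1) := ⟨_, rfl⟩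
      have hH0 : 0 ≤ H := by rw [hH]; exact HH_nonneg _ _
      rw [← hH] at r1 hf ⊢
      have hm0 : (0 : ℝ) ≤ (m : ℝ) + 1 := by positivity
      have hm1 : (((m + 1 : ℕ)) : ℝ) = (m : ℝ) + 1 := by push_cast; ring
      obtain ⟨y, hy⟩ : ∃ y : ℝ, y = ((m + 1 : ℕ) : ℝ) := ⟨_, rfl⟩
      have hy0 : 0 < y := by rw [hy]; positivity
      have hsy : 0 < √y := Real.sqrt_pos.mpr hy0
      have hss : √y * √y = y := Real.mul_self_sqrt hy0.le
      rw [← hy] at hf m2
      have hEH : E * (((m : ℝ) + 1) * H) ≤ 780 * MM L (m + 1) := by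
        rw [← hm1, ← hy]
        have h3 : y * H ≤ 100 / (√(L : ℝ) * √y) := by
          have h4 : y * H ≤ y * (100 / (√(L : ℝ) * (y * √y))) := mul_le_mul_of_nonneg_left hf hy0.le
          refine h4.trans (le_of_eq ?_)
          field_simp
        have h5 : E * (y * H) ≤ 2.7183 * (100 / (√(L : ℝ) * √y)) :=
          mul_le_mul hE' h3 (by positivity) (by norm_num)
        refine h5.trans ?_
        have h6 := mul_le_mul_of_nonneg_left m2 (show (0 : ℝ) ≤ 780 by norm_num)
        refine le_trans ?_ h6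
        have h7 : 0 < 1 / (√(L : ℝ) * √y) := by positivity
        have e5 : 2.7183 * (100 / (√(L : ℝ) * √y)) = 271.83 * (1 / (√(L : ℝ) * √y)) := by ring
        have e6 : 780 * (0.35 / (√(L : ℝ) * √y)) = 273 * (1 / (√(L : ℝ) * √y)) := by ring
        rw [e5, e6]
        linarith
      have h5 : V - E * H ≤ 780 / (L : ℝ) * MM L (m + 1) := by
        have h6 : L * (V - E * H) = E * (((m : ℝ) + 1) * H) - Y - MM L (m + 1) := by linarith
        have h8 : L * (V - E * H) ≤ 780 * MM L (m + 1) := by rw [h6]; linarith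
        have h9 : 780 / (L : ℝ) * MM L (m + 1) = (780 * MM L (m + 1)) / L := by ring
        rw [h9, le_div_iff₀ hL0]
        linarith
      have h6 : MM (L + 1) (m + 1) + θ * (780 / (L : ℝ) * MM L (m + 1)) ≤ θ * MM L (m + 1) := by
        have h7 : (1 + 4 / (L : ℝ)) + θ * (780 / (L : ℝ)) ≤ θ := by
          rw [hθ]
          obtain ⟨r, hr⟩ : ∃ r : ℝ, r = 1 / (L : ℝ) := ⟨_, rfl⟩
          have hr0 : 0 < r := by rw [hr]; positivity
          have hr1 : r ≤ 1 / 1000000 := by
            rw [hr]
            exact one_div_le_one_div_of_le (by norm_num) hLr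
          have q1 : 4 / (L : ℝ) = 4 * r := by rw [hr]; ring
          have q2 : 2000 / (L : ℝ) = 2000 * r := by rw [hr]; ring
          have q3 : 780 / (L : ℝ) = 780 * r := by rw [hr]; ring
          rw [q1, q2, q3]
          nlinarith
        have h8 := mul_le_mul_of_nonneg_right h7 m0
        linarith
      have h7 := mul_le_mul_of_nonneg_left h5 hθ0
      have hfin : E * ((((L + 1 : ℕ) : ℝ) + (m + 1)) * HH (L + 1) (m + 1)) ≤
          E * ((((L + 1 : ℕ) : ℝ) + (m + 1)) * (θ * H)) := by
        rw [r2]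
        have e5 : E * ((((L + 1 : ℕ) : ℝ) + (m + 1)) * (θ * H)) =
            θ * (E * (((L : ℝ) + (m + 1)) * H)) + θ * (E * H) := by
          push_cast
          ring
        rw [e5, r1]
        linarith
      have hN : (0 : ℝ) < (((L + 1 : ℕ) : ℝ) + (m + 1)) := by positivity
      exact le_of_mul_le_mul_left (le_of_mul_le_mul_left hfin (by linarith)) hN

lemma sum_gg_tel_up (K : ℕ) (hK : 1000000 ≤ K) : ∀ I : ℕ, 2 * I ≤ K →
    ∑ i ∈ range I, gg (K + 1) i ≤
      tn K - HH K I + 2000 / (K : ℝ) * (1.1 / ((K : ℝ) * √(K : ℝ))) * I := by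
  have hKr : (1000000 : ℝ) ≤ K := by exact_mod_cast hK
  have hK0 : (0 : ℝ) < K := by linarith
  intro I
  induction I with
  | zero =>
    intro _
    rw [HH_zero, Finset.sum_range_zero]
    simp only [Nat.cast_zero, mul_zero, add_zero]
    linarith
  | succ I ih =>
    intro hI
    have h1 := ih (by omega)
    rw [Finset.sum_range_succ]
    have h2 := HH_diff K I
    have h3 := HH_ratio_up K hK I (by omega)
    have h4 := HH_le K I (by omega)
    have h5 : 2000 / (K : ℝ) * HH K I ≤ 2000 / (K : ℝ) * (1.1 / ((K : ℝ) * √(K : ℝ))) :=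
      mul_le_mul_of_nonneg_left h4 (by positivity)
    push_cast
    have e : 2000 / (K : ℝ) * (1.1 / ((K : ℝ) * √(K : ℝ))) * ((I : ℝ) + 1) =
        2000 / (K : ℝ) * (1.1 / ((K : ℝ) * √(K : ℝ))) * I + 2000 / (K : ℝ) * (1.1 / ((K : ℝ) * √(K : ℝ))) := by
      ring
    rw [e]
    have h6 : (1 + 2000 / (K : ℝ)) * HH K I = HH K I + 2000 / (K : ℝ) * HH K I := by ring
    rw [h6] at h3
    linarith

lemma sum_gg_up (L I : ℕ) (hL : (10 : ℝ) ^ 100 ≤ L) (h1 : (10 : ℝ) ^ 24 * I ≤ L) :
    ∑ i ∈ range I, gg L i ≤ 1.02 * tn L := by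
  have h100 : (10 : ℝ) ^ 100 = 10000000000000000000000000000000000000000000000000000000000000000000000000000000000000000000000000000 := by norm_num
  rw [h100] at hL
  have h24 : (10 : ℝ) ^ 24 = 1000000000000000000000000 := by norm_num
  rw [h24] at h1
  have hL0 : (0 : ℝ) < L := by linarith
  obtain ⟨K, rfl⟩ : ∃ K, L = K + 1 := by
    have : (1 : ℝ) ≤ L := by linarith
    have : 1 ≤ L := by exact_mod_cast this
    exact ⟨L - 1, by omega⟩
  push_cast at h1 hL hL0
  have hI00 : (0 : ℝ) ≤ I := Nat.cast_nonneg I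
  have hKr : (1000000000000000000000000000000000000 : ℝ) ≤ K := by linarith
  have hK0 : (0 : ℝ) < K := by linarith
  have hKn : 1000000 ≤ K := by
    have : (1000000 : ℝ) ≤ K := by linarith
    exact_mod_cast this
  have hIK1 : 1000000000000 * (I : ℝ) ≤ K := by linarith
  have hIK : 2 * I ≤ K := by
    have : 2 * (I : ℝ) ≤ K := by linarith
    exact_mod_cast this
  refine (sum_gg_tel_up K hKn I hIK).trans ?_
  have hsK : 0 < √(K : ℝ) := Real.sqrt_pos.mpr hK0
  have hL1 : 0 < (K : ℝ) * √(K : ℝ) := by positivity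
  have ht : 0.5 / ((K : ℝ) * √(K : ℝ)) ≤ tn (K + 1) := by
    refine le_trans ?_ (le_tn (K + 1))
    have hs := sq_pos (K + 1)
    have h3 : sq (K + 1) ≤ 1.1 * √(K : ℝ) := by
      unfold sq
      apply Real.sqrt_le_iff.mpr
      constructor
      · positivity
      · rw [mul_pow, Real.sq_sqrt hK0.le]
        push_cast
        linarith
    rw [div_le_div_iff₀ (by positivity) (by positivity)]
    push_cast
    have h4 : ((K : ℝ) + 1 + 1) * sq (K + 1) ≤ (1.1 * K) * (1.1 * √(K : ℝ)) :=
      mul_le_mul (by linarith) h3 hs.le (by positivity)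
    nlinarith
  have hc : 2000 / (K : ℝ) * (1.1 / ((K : ℝ) * √(K : ℝ))) * I ≤ 0.0005 / ((K : ℝ) * √(K : ℝ)) := by
    have h3 : (I : ℝ) / K ≤ 0.0000001 := by
      rw [div_le_iff₀ hK0]
      linarith
    have e : 2000 / (K : ℝ) * (1.1 / ((K : ℝ) * √(K : ℝ))) * I = 2200 * (I / K) / ((K : ℝ) * √(K : ℝ)) := by
      field_simp
      norm_num
      ring
    rw [e]
    apply div_le_div_of_nonneg_right _ hL1.le
    linarith
  have hc2 : 0.0005 / ((K : ℝ) * √(K : ℝ)) ≤ 0.001 * tn (K + 1) := by
    have e : 0.0005 / ((K : ℝ) * √(K : ℝ)) = 0.001 * (0.5 / ((K : ℝ) * √(K : ℝ))) := by ring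
    rw [e]
    exact mul_le_mul_of_nonneg_left ht (by norm_num)
  have hts := tn_succ_sharp K (by omega)
  have h4 : 1.66 / (K : ℝ) ≤ 0.001 := by
    rw [div_le_iff₀ hK0]
    linarith
  have htK := tn_pos K
  have h5 : 0.999 * tn K ≤ tn (K + 1) := by
    refine le_trans ?_ hts
    apply mul_le_mul_of_nonneg_right _ htK.le
    linarith
  have hH := HH_nonneg K I
  linarith

/-- the reference function for `gg L (m+1)` for `m` comparable with `L` -/
noncomputable def DL (L m : ℕ) : ℝ := (1 + (L : ℝ) / ((m : ℝ) + 1)) * (tn m * tn L) / E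

lemma DL_pos (L m : ℕ) : 0 < DL L m := by
  unfold DL
  have := tn_pos m
  have := tn_pos L
  have := E_pos
  positivity

lemma DL_anti (L : ℕ) {k m : ℕ} (h : k ≤ m) : DL L m ≤ DL L k := by
  unfold DL
  have h1 := tn_pos m
  have h2 := tn_pos L
  have h3 := E_pos
  have h4 := tn_le_of_le h
  have h5 : (k : ℝ) ≤ m := by exact_mod_cast h
  apply div_le_div_of_nonneg_right _ h3.le
  have h6 : (L : ℝ) / ((m : ℝ) + 1) ≤ (L : ℝ) / ((k : ℝ) + 1) :=
    div_le_div_of_nonneg_left (Nat.cast_nonneg L) (by positivity) (by linarith)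
  have h7 : tn m * tn L ≤ tn k * tn L := mul_le_mul_of_nonneg_right h4 h2.le
  exact mul_le_mul (by linarith) h7 (by positivity) (by positivity)

/-- lower bound of `gg L y` for `y` comparable with `L` -/
lemma gg_low (L : ℕ) (hL : (10 : ℝ) ^ 200 ≤ L) : ∀ m : ℕ, m + 1 ≤ L →
    0.95 * rho ((L : ℝ) / 10) ((m : ℝ) + 1) * DL L m ≤ gg L (m + 1) := by
  intro m
  induction m using Nat.strong_induction_on with
  | _ m ih =>
    intro hmL
    have hb2 : (10 : ℝ) ^ 100 ≤ 10 ^ 200 := pow_le_pow_right₀ (by norm_num) (by norm_num)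
    have hb3 : (10 : ℝ) ^ 30 ≤ 10 ^ 200 := pow_le_pow_right₀ (by norm_num) (by norm_num)
    have e30 : (10 : ℝ) ^ 30 = 1000000000000000000000000000000 := by norm_num
    have e24 : (10 : ℝ) ^ 24 = 1000000000000000000000000 := by norm_num
    have hL30 : (1000000000000000000000000000000 : ℝ) ≤ L := by linarith
    have hL0 : (0 : ℝ) < L := by linarith
    have hm0 : (0 : ℝ) ≤ m := Nat.cast_nonneg m
    obtain ⟨y, hy⟩ : ∃ y : ℝ, y = (m : ℝ) + 1 := ⟨_, rfl⟩
    have hy0 : 0 < y := by rw [hy]; positivity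
    have hyL : y ≤ L := by rw [hy]; exact_mod_cast hmL
    obtain ⟨y₁, hy1⟩ : ∃ y₁ : ℝ, y₁ = (L : ℝ) / 10 := ⟨_, rfl⟩
    have hy10 : 0 < y₁ := by rw [hy1]; positivity
    rw [← hy, ← hy1]
    by_cases hc : y < y₁
    · have h1 : rho y₁ y = 0 := by
        unfold rho
        apply max_eq_left
        refine (min_le_right _ _).trans ?_
        apply div_nonpos_of_nonpos_of_nonneg
        · linarith
        · exact hy10.le
      rw [h1, mul_zero, zero_mul]
      exact gg_nonneg _ _
    · push Not at hc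
      obtain ⟨ρ, hρ⟩ : ∃ ρ : ℝ, ρ = rho y₁ y := ⟨_, rfl⟩
      have hρ0 : 0 ≤ ρ := by rw [hρ]; exact rho_nonneg _ _
      have hρ1 : ρ ≤ 1 := by rw [hρ]; exact rho_le_one _ _
      rw [← hρ]
      have hyy : (L : ℝ) ≤ 10 * y := by rw [hy1] at hc; linarith
      have hy29 : (100000000000000000000000000000 : ℝ) ≤ y := by linarith
      have hs : 0 < √y := Real.sqrt_pos.mpr hy0
      have hss : √y * √y = y := Real.mul_self_sqrt hy0.le
      have hs14 : (100000000000000 : ℝ) ≤ √y := by
        apply Real.le_sqrt_of_sq_le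
        norm_num
        linarith
      have hm4 : 4 ≤ m := by
        have : (4 : ℝ) ≤ m := by linarith
        exact_mod_cast this
      have hE := E_ge
      have hE' := E_le
      obtain ⟨h, hh⟩ : ∃ h, h = (m + 1) / 2 := ⟨_, rfl⟩
      obtain ⟨M, hM⟩ : ∃ M, M = m - h := ⟨_, rfl⟩
      have hZ : m + 1 - h = M + 1 := by omega
      have hrec := gg_rec L m hmL
      have hSS := SS_nonneg L m
      have hsplit : m + 1 = h + (m + 1 - h) := by omega
      have hsum : ∑ j ∈ range (m + 1), ((L : ℝ) + j + 1) * (tn j * gg L (m - j)) =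
          ∑ j ∈ range h, ((L : ℝ) + j + 1) * (tn j * gg L (m - j)) +
          ∑ t ∈ range (m + 1 - h), ((L : ℝ) + ((h + t : ℕ) : ℝ) + 1) * (tn (h + t) * gg L (m - (h + t))) := by
        rw [← Finset.sum_range_add (fun j => ((L : ℝ) + (j : ℝ) + 1) * (tn j * gg L (m - j))) h (m + 1 - h),
          ← hsplit]
      rw [hsum] at hrec
      obtain ⟨D, hD⟩ : ∃ D : ℝ, D = DL L m := ⟨_, rfl⟩
      have hD0 : 0 < D := by rw [hD]; exact DL_pos _ _
      rw [← hD]
      -- far part
      have e1 : ∑ t ∈ range (m + 1 - h), ((L : ℝ) + ((h + t : ℕ) : ℝ) + 1) * (tn (h + t) * gg L (m - (h + t))) =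
          ∑ i ∈ range (M + 1), AA L m i * gg L i := by
        rw [hZ, ← sum_rev (fun t => ((L : ℝ) + ((h + t : ℕ) : ℝ) + 1) * (tn (h + t) * gg L (m - (h + t)))) M]
        apply Finset.sum_congr rfl
        intro i hi
        have hi' := mem_range.mp hi
        have e3 : h + (M - i) = m - i := by omega
        have e4 : m - (m - i) = i := by omega
        rw [e3, e4]
        unfold AA
        ring
      obtain ⟨I, hI⟩ : ∃ I, I = L / 1000000000000000000000000 := ⟨_, rfl⟩
      have hI1n : 1000000000000000000000000 * I ≤ L := by rw [hI]; omega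
      have hI2n : L < 1000000000000000000000000 * (I + 1) := by rw [hI]; omega
      have hI1 : 1000000000000000000000000 * (I : ℝ) ≤ L := by exact_mod_cast hI1n
      have hI2 : (L : ℝ) ≤ 1000000000000000000000000 * ((I : ℝ) + 1) := by exact_mod_cast hI2n.le
      have hI3 : (L : ℝ) ≤ 4 * 10 ^ 24 * I := by
        rw [e24]
        linarith
      have hIM : I ≤ M := by
        have h3 : m + 1 ≤ 4 * M := by omega
        have h4 : ((m + 1 : ℕ) : ℝ) ≤ ((4 * M : ℕ) : ℝ) := by exact_mod_cast h3
        push_cast at h4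
        have : (I : ℝ) ≤ M := by linarith
        exact_mod_cast this
      have hG := sum_gg_sharp L I hL (by rw [e24]; linarith) hI3
      have htm := tn_pos m
      have htL := tn_pos L
      have hfar : 0.97 * (E * y * D) ≤ ∑ t ∈ range (m + 1 - h),
          ((L : ℝ) + ((h + t : ℕ) : ℝ) + 1) * (tn (h + t) * gg L (m - (h + t))) := by
        rw [e1]
        have h3 : AA L m 0 * ∑ i ∈ range I, gg L i ≤ ∑ i ∈ range (M + 1), AA L m i * gg L i := by
          refine le_trans (b := ∑ i ∈ range I, AA L m i * gg L i) ?_ ?_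
          · rw [Finset.mul_sum]
            apply Finset.sum_le_sum
            intro i hi
            have hi' := mem_range.mp hi
            exact mul_le_mul_of_nonneg_right (AA_mono L m (by omega) (by omega)) (gg_nonneg _ _)
          · apply Finset.sum_le_sum_of_subset_of_nonneg
            · exact range_subset_range.mpr (by omega)
            · intro i _ _
              exact mul_nonneg (AA_nonneg _ _ _) (gg_nonneg _ _)
        refine le_trans ?_ h3
        have h4 : AA L m 0 * (0.97 * tn L) ≤ AA L m 0 * ∑ i ∈ range I, gg L i :=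
          mul_le_mul_of_nonneg_left hG (AA_nonneg _ _ _)
        refine le_trans (le_of_eq ?_) h4
        rw [hD]
        unfold DL AA
        rw [← hy, Nat.sub_zero]
        have hE0 := E_pos
        have e5 : (L : ℝ) + (m : ℝ) + 1 = L + y := by rw [hy]; ring
        rw [e5]
        field_simp
        ring
      -- near part
      obtain ⟨T, hT⟩ : ∃ T : ℝ, T = ∑ j ∈ range h, tn j := ⟨_, rfl⟩
      obtain ⟨V, hV⟩ : ∃ V : ℝ, V = ∑ j ∈ range h, ((j : ℝ) + 1) * tn j := ⟨_, rfl⟩
      have hhy : (h : ℝ) ≤ y := by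
        rw [hy]
        have : h ≤ m + 1 := by omega
        exact_mod_cast this
      have hhy4 : y / 4 ≤ (h : ℝ) := by
        have h3 : m + 1 ≤ 4 * h := by omega
        have h4 : ((m + 1 : ℕ) : ℝ) ≤ ((4 * h : ℕ) : ℝ) := by exact_mod_cast h3
        push_cast at h4
        rw [hy]
        linarith
      have hsh : √(h : ℝ) ≤ √y := Real.sqrt_le_sqrt hhy
      have hV1 : V ≤ 2.2 * √y := by
        rw [hV]
        refine (sum_succ_tn_le h).trans ?_
        linarith
      have hV0 : 0 ≤ V := by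
        rw [hV]
        exact Finset.sum_nonneg fun j _ => by have := tn_pos j; positivity
      have hT2 : E - T ≤ 14.8 / √y := by
        have h3 := le_sum_tn h
        rw [← hT] at h3
        have h4 := le_WW h
        have h5 : √y / 2 ≤ √(h : ℝ) := by
          apply Real.le_sqrt_of_sq_le
          rw [div_pow, Real.sq_sqrt hy0.le]
          norm_num
          linarith
        have hW := WW_nonneg h
        rw [div_le_iff₀ (by linarith)] at h4
        have h6 : √y ≤ 5.4366 * WW h := by nlinarith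
        have h7 : 1 / (1 + WW h) ≤ 5.4366 / √y := by
          rw [div_le_div_iff₀ (by linarith) hs]
          linarith
        have h8 : E - T ≤ E * (1 / (1 + WW h)) := by linarith
        refine h8.trans ?_
        calc E * (1 / (1 + WW h)) ≤ 2.7183 * (5.4366 / √y) := mul_le_mul hE' h7 (by positivity) (by norm_num)
          _ ≤ 14.8 / √y := by
              rw [mul_div_assoc']
              apply div_le_div_of_nonneg_right (by norm_num) hs.le
      have hnear : 0.95 * D * (ρ * (L * T) - 8 * (L * V / y)) ≤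
          ∑ j ∈ range h, ((L : ℝ) + j + 1) * (tn j * gg L (m - j)) := by
        have e : 0.95 * D * (ρ * (L * T) - 8 * (L * V / y)) =
            ∑ j ∈ range h, 0.95 * D * (L * tn j * ρ - 8 * (L * (((j : ℝ) + 1) * tn j) / y)) := by
          rw [hT, hV, ← Finset.mul_sum, Finset.sum_sub_distrib]
          congr 2
          · rw [Finset.mul_sum, Finset.mul_sum]
            apply Finset.sum_congr rfl
            intro j _
            ring
          · rw [Finset.mul_sum, Finset.sum_div, Finset.mul_sum]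
        rw [e]
        apply Finset.sum_le_sum
        intro j hj
        have hj' := mem_range.mp hj
        have htj := tn_pos j
        have hj0 : (0 : ℝ) ≤ j := Nat.cast_nonneg j
        obtain ⟨k, hk⟩ : ∃ k, m - j = k + 1 := ⟨m - j - 1, by omega⟩
        have hkr : (k : ℝ) + 1 = y - ((j : ℝ) + 1) := by
          have h1 : m + 1 = (k + 1) + (j + 1) := by omega
          have h2 : ((m + 1 : ℕ) : ℝ) = (((k + 1) + (j + 1) : ℕ) : ℝ) := by exact_mod_cast h1
          push_cast at h2
          rw [hy]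
          linarith
        have h3 := ih k (by omega) (by omega)
        rw [← hy1, hkr] at h3
        have hsy : (j : ℝ) + 1 ≤ y / 2 := by
          have h4 : 2 * (j + 1) ≤ m + 1 := by omega
          have h5 : ((2 * (j + 1) : ℕ) : ℝ) ≤ ((m + 1 : ℕ) : ℝ) := by exact_mod_cast h4
          push_cast at h5
          rw [hy]
          linarith
        have h8 := rho_shift hy10 hy0 (by linarith : (0 : ℝ) ≤ (j : ℝ) + 1) hsy
        rw [← hρ] at h8
        have h9 : D ≤ DL L k := by rw [hD]; exact DL_anti L (by omega)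
        have hr0 := rho_nonneg y₁ (y - ((j : ℝ) + 1))
        obtain ⟨σ, hσ⟩ : ∃ σ : ℝ, σ = ((j : ℝ) + 1) / y := ⟨_, rfl⟩
        have hσ0 : 0 ≤ σ := by rw [hσ]; positivity
        rw [← hσ] at h8
        have h10 : 0.95 * (ρ - 4 * σ) * D ≤ gg L (k + 1) := by
          refine le_trans ?_ h3
          refine le_trans (b := 0.95 * rho y₁ (y - ((j : ℝ) + 1)) * D) ?_ ?_
          · apply mul_le_mul_of_nonneg_right _ hD0.le
            linarith
          · exact mul_le_mul_of_nonneg_left h9 (by positivity)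
        rw [hk]
        have h11 : tn j * (0.95 * (ρ - 4 * σ) * D) ≤ tn j * gg L (k + 1) :=
          mul_le_mul_of_nonneg_left h10 htj.le
        have h12 : ((L : ℝ) + j + 1) * (tn j * (0.95 * (ρ - 4 * σ) * D)) ≤
            ((L : ℝ) + j + 1) * (tn j * gg L (k + 1)) :=
          mul_le_mul_of_nonneg_left h11 (by positivity)
        refine le_trans ?_ h12
        have e2 : 0.95 * D * (L * tn j * ρ - 8 * (L * (((j : ℝ) + 1) * tn j) / y)) =
            0.95 * D * tn j * (L * ρ - 8 * L * σ) := by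
          rw [hσ]
          ring
        have e3 : ((L : ℝ) + j + 1) * (tn j * (0.95 * (ρ - 4 * σ) * D)) =
            0.95 * D * tn j * (((L : ℝ) + j + 1) * (ρ - 4 * σ)) := by ring
        rw [e2, e3]
        apply mul_le_mul_of_nonneg_left _ (by positivity)
        have hjL : (j : ℝ) + 1 ≤ L := by linarith
        have h13 : 0 ≤ ((j : ℝ) + 1) * ρ := by positivity
        have h14 : ((j : ℝ) + 1) * σ ≤ L * σ := mul_le_mul_of_nonneg_right hjL hσ0
        nlinarith
      obtain ⟨μ, hμ⟩ : ∃ μ : ℝ, μ = L / √y := ⟨_, rfl⟩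
      have hμ0 : 0 < μ := by rw [hμ]; positivity
      have hμ1 : μ ≤ y / 10000 := by
        rw [hμ, div_le_div_iff₀ hs (by norm_num)]
        have : y * 100000000000000 ≤ y * √y := mul_le_mul_of_nonneg_left hs14 hy0.le
        linarith
      have hLT : L * E - 14.8 * μ ≤ L * T := by
        have h4 : L * (E - T) ≤ L * (14.8 / √y) := mul_le_mul_of_nonneg_left hT2 hL0.le
        have h5 : L * (14.8 / √y) = 14.8 * μ := by rw [hμ]; ring
        linarith
      have hLV : L * V / y ≤ 2.2 * μ := by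
        rw [div_le_iff₀ hy0]
        have h3 : L * V ≤ L * (2.2 * √y) := mul_le_mul_of_nonneg_left hV1 hL0.le
        have h5 : μ * √y = L := by
          rw [hμ]
          field_simp
        have h4 : 2.2 * μ * y = L * (2.2 * √y) := by
          calc 2.2 * μ * y = 2.2 * μ * (√y * √y) := by rw [hss]
            _ = 2.2 * (μ * √y) * √y := by ring
            _ = _ := by rw [h5]; ring
        linarith
      have hnear2 : 0.95 * D * (ρ * (L * E) - 33 * μ) ≤
          ∑ j ∈ range h, ((L : ℝ) + j + 1) * (tn j * gg L (m - j)) := by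
        refine le_trans ?_ hnear
        apply mul_le_mul_of_nonneg_left _ (by positivity)
        have h3 : ρ * (L * E - 14.8 * μ) ≤ ρ * (L * T) := mul_le_mul_of_nonneg_left hLT hρ0
        have h4 : ρ * (14.8 * μ) ≤ 14.8 * μ := by
          have : ρ * (14.8 * μ) ≤ 1 * (14.8 * μ) := mul_le_mul_of_nonneg_right hρ1 (by positivity)
          linarith
        nlinarith
      have hfin : E * (((L : ℝ) + (m + 1)) * (0.95 * ρ * D)) ≤ E * (((L : ℝ) + (m + 1)) * gg L (m + 1)) := by
        rw [hrec, ← hy]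
        have e : E * (((L : ℝ) + y) * (0.95 * ρ * D)) =
            0.95 * D * (ρ * (L * E)) + 0.95 * ρ * (E * y * D) := by ring
        rw [e]
        have hEyD : 0 < E * y * D := by positivity
        have h3 : 0.95 * ρ * (E * y * D) ≤ 0.95 * (E * y * D) := by
          apply mul_le_mul_of_nonneg_right _ hEyD.le
          linarith
        have h4 : 0.95 * D * (33 * μ) ≤ 0.01 * (E * y * D) := by
          have h5 : 0.95 * D * (33 * μ) ≤ 0.95 * D * (33 * (y / 10000)) := by
            apply mul_le_mul_of_nonneg_left _ (by positivity)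
            linarith
          have h6 : 0.01 * (2.7 * (y * D)) ≤ 0.01 * (E * y * D) := by
            have : 2.7 * (y * D) ≤ E * (y * D) := mul_le_mul_of_nonneg_right hE (by positivity)
            linarith
          have h7 : 0 < y * D := by positivity
          linarith
        linarith
      have hN : (0 : ℝ) < (L : ℝ) + (m + 1) := by positivity
      exact le_of_mul_le_mul_left (le_of_mul_le_mul_left hfin (by linarith)) hN

end Pool.Agent.MP_9da1e3_co
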