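import Pool.Agent.Lib.MP_9da1e3_co.Big7

namespace Pool.Agent.MP_9da1e3_co

open Finset

noncomputable def cE (m : ℕ) : ℝ := ((m : ℝ) + 1) * tn m

lemma cE_pos (m : ℕ) : 0 < cE m := by
  unfold cE
  have := tn_pos m
  positivity

lemma cE_eq (m : ℕ) : cE m = cc m / E ^ m := by
  unfold cE tn
  rw [cc_eq]
  ring

lemma cE_anti (m : ℕ) : cE (m + 1) ≤ cE m := by
  rw [cE_eq, cE_eq]
  exact ccE_anti m

lemma cE_le_of_le {a b : ℕ} (h : a ≤ b) : cE b ≤ cE a := by
  rw [cE_eq, cE_eq]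
  exact ccE_le h

lemma cE_le (m : ℕ) : cE m ≤ 1.1 / sq m := succ_tn_le m

lemma le_cE (m : ℕ) : 1 / sq m ≤ cE m := by
  have h := le_tn m
  have hs := sq_pos m
  unfold cE
  rw [div_le_iff₀ (by positivity)] at h
  rw [div_le_iff₀ hs]
  linarith

lemma cE_ge (m : ℕ) : cE m * (1 - 1 / ((m : ℝ) + 2)) ≤ cE (m + 1) := by
  rw [cE_eq, cE_eq]
  have hE := E_pos
  have hm : 0 < E ^ m := pow_pos hE m
  have h1 : cc (m + 1) = cc m * (1 + 1 / ((m : ℝ) + 1)) ^ (m + 1) := by
    unfold cc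
    rw [Nat.factorial_succ]
    have h0 : ((m : ℝ) + 1) ≠ 0 := by positivity
    have hf : (m.factorial : ℝ) ≠ 0 := by positivity
    have : (1 : ℝ) + 1 / ((m : ℝ) + 1) = ((m : ℝ) + 1 + 1) / ((m : ℝ) + 1) := by field_simp
    rw [this, div_pow]
    push_cast
    rw [pow_succ ((m : ℝ) + 1) m]
    field_simp
  have h2 : Real.exp (1 / ((m : ℝ) + 2)) ≤ 1 + 1 / ((m : ℝ) + 1) := by
    have h3 := Real.add_one_le_exp (-(1 / ((m : ℝ) + 2)))
    rw [Real.exp_neg] at h3
    have h4 : 0 < Real.exp (1 / ((m : ℝ) + 2)) := Real.exp_pos _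
    have h5 : -(1 / ((m : ℝ) + 2)) + 1 = ((m : ℝ) + 1) / ((m : ℝ) + 2) := by
      field_simp
      ring
    rw [h5, ← one_div, div_le_div_iff₀ (by positivity) h4] at h3
    have h6 : 1 + 1 / ((m : ℝ) + 1) = ((m : ℝ) + 2) / ((m : ℝ) + 1) := by
      field_simp
      ring
    rw [h6, le_div_iff₀ (by positivity)]
    linarith
  have h3 : E ≤ (1 + 1 / ((m : ℝ) + 1)) ^ (m + 2) := by
    calc E = Real.exp (1 / ((m : ℝ) + 2)) ^ (m + 2) := by
          rw [← Real.exp_nat_mul]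
          unfold E
          congr 1
          push_cast
          field_simp
      _ ≤ _ := pow_le_pow_left₀ (Real.exp_pos _).le h2 _
  have h4 : 1 - 1 / ((m : ℝ) + 2) = 1 / (1 + 1 / ((m : ℝ) + 1)) := by
    field_simp
    ring
  have hq : 0 < 1 + 1 / ((m : ℝ) + 1) := by positivity
  obtain ⟨q, hqd⟩ : ∃ q, q = 1 + 1 / ((m : ℝ) + 1) := ⟨_, rfl⟩
  rw [h4, h1, ← hqd]
  rw [← hqd] at h3 hq
  have hcc := cc_pos m
  rw [div_mul_div_comm, mul_one, pow_succ E m, div_le_div_iff₀ (by positivity) (by positivity)]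
  calc cc m * (E ^ m * E) = cc m * E ^ m * E := by ring
    _ ≤ cc m * E ^ m * q ^ (m + 2) := mul_le_mul_of_nonneg_left h3 (by positivity)
    _ = cc m * q ^ (m + 1) * (E ^ m * q) := by ring

lemma tn_step_le (k : ℕ) : tn k / ((k : ℝ) + 2) ≤ tn k - tn (k + 1) := by
  have h := cE_anti k
  unfold cE at h
  push_cast at h
  have h0 : (0 : ℝ) < (k : ℝ) + 2 := by positivity
  rw [div_le_iff₀ h0]
  have : ((k : ℝ) + 1 + 1) * tn (k + 1) ≤ ((k : ℝ) + 1) * tn k := h
  nlinarith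

lemma tn_anti (k : ℕ) : tn (k + 1) ≤ tn k := by
  have h := tn_step_le k
  have h1 := tn_pos k
  have : 0 ≤ tn k / ((k : ℝ) + 2) := by positivity
  linarith

lemma tn_le_of_le {a b : ℕ} (h : a ≤ b) : tn b ≤ tn a := by
  induction h with
  | refl => exact le_rfl
  | step _ ih => exact (tn_anti _).trans ih

lemma tn_succ_ge (k : ℕ) : tn k * (1 - 2 / ((k : ℝ) + 2)) ≤ tn (k + 1) := by
  have h := cE_ge k
  unfold cE at h
  push_cast at h
  have h0 : (0 : ℝ) < (k : ℝ) + 2 := by positivity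
  have h1 := tn_pos k
  have e1 : ((k : ℝ) + 1) * tn k * (1 - 1 / ((k : ℝ) + 2)) = tn k * (((k : ℝ) + 1) ^ 2 / ((k : ℝ) + 2)) := by
    field_simp
    ring
  rw [e1] at h
  have h2 : tn k * (((k : ℝ) + 1) ^ 2 / ((k : ℝ) + 2)) / ((k : ℝ) + 2) ≤ tn (k + 1) := by
    rw [div_le_iff₀ h0]
    linarith
  refine le_trans ?_ h2
  rw [mul_div_assoc]
  apply mul_le_mul_of_nonneg_left _ h1.le
  rw [div_div, le_div_iff₀ (by positivity)]
  have e2 : (1 - 2 / ((k : ℝ) + 2)) * (((k : ℝ) + 2) * ((k : ℝ) + 2)) = (k : ℝ) * ((k : ℝ) + 2) := by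
    field_simp
    ring
  rw [e2]
  nlinarith

noncomputable def MM (L z : ℕ) : ℝ := ∑ i ∈ range (L - z), cE (L - 1 - i) * tn (z + i)

noncomputable def HH (L z : ℕ) : ℝ := Fn (L + 1) (L + z)

lemma HH_nonneg (L z : ℕ) : 0 ≤ HH L z := Fn_nonneg _ _

lemma HH_zero (L : ℕ) : HH L 0 = tn L := Fn_eq_tn (L + 1) (L + 0) (by omega)

lemma HH_rec (L m : ℕ) (h2 : m + 1 ≤ L) :
    E * (((L : ℝ) + (m + 1)) * HH L (m + 1)) =
    ∑ j ∈ range (m + 1), ((L : ℝ) + j + 2) * (tn j * HH L (m - j)) + MM L (m + 1) := by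
  have hrec := Fn_rec (L + 1) (L + m)
  rw [← sum_rev (fun k => ((min (L + 1) (k + 1) : ℕ) : ℝ) *
    (Fn (L + 1) k * Fn (L + 1) (L + m - k))) (L + m)] at hrec
  have hsplit : L + m + 1 = (m + 1) + (L - (m + 1)) + (m + 1) := by omega
  rw [show range (L + m + 1) = range ((m + 1) + (L - (m + 1)) + (m + 1)) by rw [← hsplit],
    Finset.sum_range_add, Finset.sum_range_add] at hrec
  have p1 : ∑ x ∈ range (m + 1), ((min (L + 1) (L + m - x + 1) : ℕ) : ℝ) *
      (Fn (L + 1) (L + m - x) * Fn (L + 1) (L + m - (L + m - x))) =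
      ∑ j ∈ range (m + 1), ((L : ℝ) + 1) * (tn j * HH L (m - j)) := by
    apply Finset.sum_congr rfl
    intro j hj
    have hj' := mem_range.mp hj
    have e1 : min (L + 1) (L + m - j + 1) = L + 1 := by omega
    have e2 : L + m - (L + m - j) = j := by omega
    have e3 : L + m - j = L + (m - j) := by omega
    rw [e1, e2, e3, Fn_eq_tn (L + 1) j (by omega)]
    unfold HH
    push_cast
    ring
  have p2 : ∑ x ∈ range (L - (m + 1)), ((min (L + 1) (L + m - (m + 1 + x) + 1) : ℕ) : ℝ) *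
      (Fn (L + 1) (L + m - (m + 1 + x)) * Fn (L + 1) (L + m - (L + m - (m + 1 + x)))) =
      MM L (m + 1) := by
    unfold MM
    apply Finset.sum_congr rfl
    intro t ht
    have ht' := mem_range.mp ht
    have e1 : min (L + 1) (L + m - (m + 1 + t) + 1) = (L - 1 - t) + 1 := by omega
    have e2 : L + m - (L + m - (m + 1 + t)) = m + 1 + t := by omega
    have e3 : L + m - (m + 1 + t) = L - 1 - t := by omega
    rw [e1, e2, e3, Fn_eq_tn (L + 1) (L - 1 - t) (by omega), Fn_eq_tn (L + 1) (m + 1 + t) (by omega)]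
    unfold cE
    push_cast
    ring
  have p3 : ∑ x ∈ range (m + 1), ((min (L + 1) (L + m - (m + 1 + (L - (m + 1)) + x) + 1) : ℕ) : ℝ) *
      (Fn (L + 1) (L + m - (m + 1 + (L - (m + 1)) + x)) *
        Fn (L + 1) (L + m - (L + m - (m + 1 + (L - (m + 1)) + x)))) =
      ∑ j ∈ range (m + 1), ((j : ℝ) + 1) * (tn j * HH L (m - j)) := by
    rw [← sum_rev (fun j => ((j : ℝ) + 1) * (tn j * HH L (m - j))) m]
    apply Finset.sum_congr rfl
    intro t ht
    have ht' := mem_range.mp ht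
    have e1 : min (L + 1) (L + m - (m + 1 + (L - (m + 1)) + t) + 1) = (m - t) + 1 := by omega
    have e2 : L + m - (L + m - (m + 1 + (L - (m + 1)) + t)) = L + t := by omega
    have e3 : L + m - (m + 1 + (L - (m + 1)) + t) = m - t := by omega
    have e4 : m - (m - t) = t := by omega
    rw [e1, e2, e3, e4, Fn_eq_tn (L + 1) (m - t) (by omega)]
    unfold HH
    push_cast
    ring
  rw [p1, p2, p3] at hrec
  have e0 : HH L (m + 1) = Fn (L + 1) (L + m + 1) := by
    unfold HH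
    rw [add_assoc]
  have e1 : ((L : ℝ) + (m + 1)) = (((L + m : ℕ) : ℝ) + 1) := by push_cast; ring
  rw [e0, e1, hrec]
  have e2 : ∑ j ∈ range (m + 1), ((L : ℝ) + j + 2) * (tn j * HH L (m - j)) =
      ∑ j ∈ range (m + 1), ((L : ℝ) + 1) * (tn j * HH L (m - j)) +
      ∑ j ∈ range (m + 1), ((j : ℝ) + 1) * (tn j * HH L (m - j)) := by
    rw [← Finset.sum_add_distrib]
    apply Finset.sum_congr rfl
    intro j _
    ring
  rw [e2]
  ring

/-- lower bound for `MM` -/
lemma le_MM (L z : ℕ) (hz : 1 ≤ z) (hzL : 2 * z ≤ L) : 0.35 / (√(L : ℝ) * √(z : ℝ)) ≤ MM L z := by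
  have hLr : (2 : ℝ) ≤ L := by exact_mod_cast (by omega : 2 ≤ L)
  have hzr : (1 : ℝ) ≤ z := by exact_mod_cast hz
  have hl : 0 < √(L : ℝ) := Real.sqrt_pos.mpr (by linarith)
  have hs : 0 < √(z : ℝ) := Real.sqrt_pos.mpr (by linarith)
  unfold MM
  have h1 : ∑ i ∈ range z, 0.35 / (√(L : ℝ) * √(z : ℝ)) / z ≤
      ∑ i ∈ range (L - z), cE (L - 1 - i) * tn (z + i) := by
    refine le_trans (b := ∑ i ∈ range z, cE (L - 1 - i) * tn (z + i)) ?_ ?_
    · apply Finset.sum_le_sum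
      intro i hi
      have hi' := mem_range.mp hi
      have hir : (i : ℝ) + 1 ≤ z := by exact_mod_cast hi'
      have h2 := le_cE (L - 1 - i)
      have h3 := le_tn (z + i)
      have h4 : sq (L - 1 - i) ≤ √(L : ℝ) := by
        unfold sq
        apply Real.sqrt_le_sqrt
        have : ((L - 1 - i : ℕ) : ℝ) + 1 ≤ L := by exact_mod_cast (by omega : L - 1 - i + 1 ≤ L)
        exact this
      have h5 : sq (z + i) ≤ 1.4143 * √(z : ℝ) := by
        unfold sq
        apply Real.sqrt_le_iff.mpr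
        constructor
        · positivity
        · rw [mul_pow, Real.sq_sqrt (by linarith)]
          push_cast
          nlinarith
      have hs1 := sq_pos (L - 1 - i)
      have hs2 := sq_pos (z + i)
      have h6 : 1 / √(L : ℝ) ≤ cE (L - 1 - i) :=
        (one_div_le_one_div_of_le hs1 h4).trans h2
      have h7 : 1 / ((2 * z) * (1.4143 * √(z : ℝ))) ≤ tn (z + i) := by
        refine le_trans ?_ h3
        apply one_div_le_one_div_of_le (by positivity)
        apply mul_le_mul _ h5 hs2.le (by positivity)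
        push_cast
        linarith
      calc 0.35 / (√(L : ℝ) * √(z : ℝ)) / z ≤ 1 / √(L : ℝ) * (1 / ((2 * z) * (1.4143 * √(z : ℝ)))) := by
            rw [div_div, div_mul_div_comm, div_le_div_iff₀ (by positivity) (by positivity)]
            have : 0 < √(L : ℝ) * √(z : ℝ) * z := by positivity
            nlinarith
        _ ≤ _ := mul_le_mul h6 h7 (by positivity) (cE_pos _).le
    · apply Finset.sum_le_sum_of_subset_of_nonneg
      · exact range_subset_range.mpr (by omega)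
      · intro i _ _
        exact mul_nonneg (cE_pos _).le (tn_pos _).le
  rw [Finset.sum_const, card_range, nsmul_eq_mul] at h1
  refine le_trans (le_of_eq ?_) h1
  field_simp

end Pool.Agent.MP_9da1e3_co
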