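import Pool.Agent.Lib.MP_9da1e3_co.Up1

namespace Pool.Agent.MP_9da1e3_co

open Finset

lemma tail_tn' (z n : ℕ) (hz : 1 ≤ z) : ∑ m ∈ range n, tn (z + m) ≤ 2.2 / √(z : ℝ) := by
  have h := tail_tn z (z + n) hz
  rw [Finset.sum_range_add] at h
  have h0 : ∑ x ∈ range z, (if z ≤ x then tn x else 0) = 0 := by
    apply Finset.sum_eq_zero
    intro x hx
    rw [if_neg (by have := mem_range.mp hx; omega)]
  have h1 : ∑ x ∈ range n, (if z ≤ z + x then tn (z + x) else 0) = ∑ m ∈ range n, tn (z + m) := by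
    apply Finset.sum_congr rfl
    intro x _
    rw [if_pos (by omega)]
  rw [h0, h1, zero_add] at h
  exact h

lemma MM_nonneg (L z : ℕ) : 0 ≤ MM L z :=
  Finset.sum_nonneg fun _ _ => mul_nonneg (cE_pos _).le (tn_pos _).le

lemma MM_succ_ge (L z : ℕ) (hz : 1 ≤ z) (hzL : 2 * z ≤ L) :
    (1 - 23 / (L : ℝ)) * MM L z ≤ MM (L + 1) z := by
  have hLr : (2 : ℝ) ≤ L := by exact_mod_cast (by omega : 2 ≤ L)
  have hL0 : (0 : ℝ) < L := by linarith
  have hzr : (1 : ℝ) ≤ z := by exact_mod_cast hz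
  have hl : 0 < √(L : ℝ) := Real.sqrt_pos.mpr hL0
  have hs : 0 < √(z : ℝ) := Real.sqrt_pos.mpr (by linarith)
  have h1 : ∑ i ∈ range (L - z), cE (L - i) * tn (z + i) ≤ MM (L + 1) z := by
    unfold MM
    have e : ∀ i, cE (L + 1 - 1 - i) * tn (z + i) = cE (L - i) * tn (z + i) := by
      intro i
      rw [Nat.add_sub_cancel]
    simp only [Nat.add_sub_cancel]
    apply Finset.sum_le_sum_of_subset_of_nonneg
    · exact range_subset_range.mpr (by omega)
    · intro i _ _
      exact mul_nonneg (cE_pos _).le (tn_pos _).le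
  have h2 : ∀ i ∈ range (L - z), (1 - 2 / (L : ℝ)) * (cE (L - 1 - i) * tn (z + i)) -
      3.2 / (L * √(L : ℝ)) * tn (L - 1 - i) ≤ cE (L - i) * tn (z + i) := by
    intro i hi
    have hi' := mem_range.mp hi
    have h3 := cE_ge (L - 1 - i)
    have e : L - 1 - i + 1 = L - i := by omega
    rw [e] at h3
    have ht := tn_pos (z + i)
    have ht' := tn_pos (L - 1 - i)
    have hc := cE_pos (L - 1 - i)
    obtain ⟨m, hm⟩ : ∃ m : ℕ, m = L - 1 - i := ⟨_, rfl⟩
    rw [← hm] at h3 ht' hc ⊢
    have h4 : cE m * tn (z + i) / ((m : ℝ) + 2) ≤ 2 / (L : ℝ) * (cE m * tn (z + i)) +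
        3.2 / (L * √(L : ℝ)) * tn m := by
      by_cases hc2 : 2 * (i + 1) ≤ L
      · have h5 : (L : ℝ) ≤ 2 * ((m : ℝ) + 2) := by
          exact_mod_cast (by omega : L ≤ 2 * (m + 2))
        have h6 : cE m * tn (z + i) / ((m : ℝ) + 2) ≤ 2 / (L : ℝ) * (cE m * tn (z + i)) := by
          rw [div_mul_eq_mul_div, div_le_div_iff₀ (by positivity) hL0]
          have : 0 < cE m * tn (z + i) := by positivity
          nlinarith
        have h7 : 0 ≤ 3.2 / (L * √(L : ℝ)) * tn m := by positivity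
        linarith
      · have h5 : (L : ℝ) ≤ 2 * (((z + i : ℕ) : ℝ) + 1) := by
          exact_mod_cast (by omega : L ≤ 2 * (z + i + 1))
        have h6 := tn_half (z + i) L hL0 h5
        have h7 : cE m * tn (z + i) / ((m : ℝ) + 2) ≤ 3.2 / (L * √(L : ℝ)) * tn m := by
          have h8 : cE m / ((m : ℝ) + 2) ≤ tn m := by
            rw [div_le_iff₀ (by positivity)]
            unfold cE
            nlinarith
          calc cE m * tn (z + i) / ((m : ℝ) + 2) = tn (z + i) * (cE m / ((m : ℝ) + 2)) := by ring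
            _ ≤ _ := mul_le_mul h6 h8 (by positivity) (by positivity)
        have h9 : 0 ≤ 2 / (L : ℝ) * (cE m * tn (z + i)) := by positivity
        linarith
    have h5 : cE m * (1 - 1 / ((m : ℝ) + 2)) * tn (z + i) ≤ cE (L - i) * tn (z + i) :=
      mul_le_mul_of_nonneg_right h3 ht.le
    have h6 : cE m * (1 - 1 / ((m : ℝ) + 2)) * tn (z + i) =
        cE m * tn (z + i) - cE m * tn (z + i) / ((m : ℝ) + 2) := by ring
    rw [h6] at h5
    linarith
  have h3 := (Finset.sum_le_sum h2).trans h1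
  rw [Finset.sum_sub_distrib, ← Finset.mul_sum, ← Finset.mul_sum] at h3
  have h4 : ∑ i ∈ range (L - z), tn (L - 1 - i) ≤ 2.2 / √(z : ℝ) := by
    refine le_trans (le_of_eq ?_) (tail_tn' z (L - z) hz)
    rw [← Finset.sum_range_reflect (fun m => tn (z + m)) (L - z)]
    apply Finset.sum_congr rfl
    intro i hi
    have hi' := mem_range.mp hi
    congr 1
    omega
  have h5 := le_MM L z hz hzL
  have h6 : 3.2 / (L * √(L : ℝ)) * ∑ i ∈ range (L - z), tn (L - 1 - i) ≤ 21 / (L : ℝ) * MM L z := by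
    calc 3.2 / (L * √(L : ℝ)) * ∑ i ∈ range (L - z), tn (L - 1 - i)
        ≤ 3.2 / (L * √(L : ℝ)) * (2.2 / √(z : ℝ)) := mul_le_mul_of_nonneg_left h4 (by positivity)
      _ ≤ 21 / (L : ℝ) * (0.35 / (√(L : ℝ) * √(z : ℝ))) := by
          rw [div_mul_div_comm, div_mul_div_comm, div_le_div_iff₀ (by positivity) (by positivity)]
          have : 0 < (L : ℝ) * √(L : ℝ) * √(z : ℝ) := by positivity
          nlinarith
      _ ≤ _ := mul_le_mul_of_nonneg_left h5 (by positivity)
  have h7 : MM L z = ∑ i ∈ range (L - z), cE (L - 1 - i) * tn (z + i) := rfl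
  rw [← h7] at h3
  have h8 : (1 - 23 / (L : ℝ)) * MM L z = (1 - 2 / (L : ℝ)) * MM L z - 21 / (L : ℝ) * MM L z := by ring
  rw [h8]
  linarith

lemma HH_le (L z : ℕ) (hL : 1 ≤ L) : HH L z ≤ 1.1 / ((L : ℝ) * √(L : ℝ)) := by
  unfold HH
  refine (Fn_le_tn _ _).trans ((tn_le_of_le (by omega : L ≤ L + z)).trans ?_)
  exact tn_le' L hL

lemma YY_le (L m : ℕ) (hmL : 2 * (m + 1) ≤ L) :
    ∑ j ∈ range (m + 1), ((j : ℝ) + 2) * (tn j * HH L (m - j)) ≤ 14 * MM L (m + 1) := by
  have hLr : (2 : ℝ) ≤ L := by exact_mod_cast (by omega : 2 ≤ L)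
  have hL0 : (0 : ℝ) < L := by linarith
  have hl : 0 < √(L : ℝ) := Real.sqrt_pos.mpr hL0
  have hzr : (0 : ℝ) < ((m + 1 : ℕ) : ℝ) := by positivity
  have hs : 0 < √((m + 1 : ℕ) : ℝ) := Real.sqrt_pos.mpr hzr
  have hss : √((m + 1 : ℕ) : ℝ) * √((m + 1 : ℕ) : ℝ) = ((m + 1 : ℕ) : ℝ) := Real.mul_self_sqrt hzr.le
  have hzL : ((m + 1 : ℕ) : ℝ) ≤ L := by exact_mod_cast (by omega : m + 1 ≤ L)
  have h1 : ∑ j ∈ range (m + 1), ((j : ℝ) + 2) * (tn j * HH L (m - j)) ≤
      ∑ j ∈ range (m + 1), 2.2 / ((L : ℝ) * √(L : ℝ)) * (((j : ℝ) + 1) * tn j) := by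
    apply Finset.sum_le_sum
    intro j _
    have hj : (0 : ℝ) ≤ j := Nat.cast_nonneg j
    have ht := tn_pos j
    have hH := HH_le L (m - j) (by omega)
    have hH0 := HH_nonneg L (m - j)
    calc ((j : ℝ) + 2) * (tn j * HH L (m - j))
        ≤ (2 * ((j : ℝ) + 1)) * (tn j * (1.1 / ((L : ℝ) * √(L : ℝ)))) := by
          apply mul_le_mul (by linarith) _ (by positivity) (by positivity)
          exact mul_le_mul_of_nonneg_left hH ht.le
      _ = _ := by ring
  refine h1.trans ?_
  rw [← Finset.mul_sum]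
  have h2 := sum_succ_tn_le (m + 1)
  have h3 := le_MM L (m + 1) (by omega) hmL
  calc 2.2 / ((L : ℝ) * √(L : ℝ)) * ∑ j ∈ range (m + 1), ((j : ℝ) + 1) * tn j
      ≤ 2.2 / ((L : ℝ) * √(L : ℝ)) * (2.2 * √((m + 1 : ℕ) : ℝ)) :=
        mul_le_mul_of_nonneg_left h2 (by positivity)
    _ ≤ 14 * (0.35 / (√(L : ℝ) * √((m + 1 : ℕ) : ℝ))) := by
        rw [div_mul_eq_mul_div, mul_div_assoc', div_le_div_iff₀ (by positivity) (by positivity)]
        calc 2.2 * (2.2 * √((m + 1 : ℕ) : ℝ)) * (√(L : ℝ) * √((m + 1 : ℕ) : ℝ))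
            = 4.84 * (√((m + 1 : ℕ) : ℝ) * √((m + 1 : ℕ) : ℝ)) * √(L : ℝ) := by ring
          _ = 4.84 * ((m + 1 : ℕ) : ℝ) * √(L : ℝ) := by rw [hss]
          _ ≤ 4.84 * (L : ℝ) * √(L : ℝ) := by
              apply mul_le_mul_of_nonneg_right _ hl.le
              linarith
          _ ≤ 14 * 0.35 * ((L : ℝ) * √(L : ℝ)) := by
              have : 0 < (L : ℝ) * √(L : ℝ) := by positivity
              nlinarith
    _ ≤ _ := mul_le_mul_of_nonneg_left h3 (by norm_num)

/-- comparison of neighbouring `L` -/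
lemma HH_ratio (L : ℕ) (hL : 1000 ≤ L) : ∀ z : ℕ, 2 * z ≤ L →
    (1 - 40 / (L : ℝ)) * HH L z ≤ HH (L + 1) z := by
  have hLr : (1000 : ℝ) ≤ L := by exact_mod_cast hL
  have hL0 : (0 : ℝ) < L := by linarith
  have hE := E_ge
  intro z
  induction z using Nat.strong_induction_on with
  | _ z ih =>
    intro hz
    rcases Nat.eq_zero_or_pos z with rfl | hz0
    · rw [HH_zero, HH_zero]
      have h1 := tn_succ_ge L
      have h2 := tn_pos L
      refine le_trans ?_ h1
      rw [mul_comm]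
      apply mul_le_mul_of_nonneg_left _ h2.le
      have : 2 / ((L : ℝ) + 2) ≤ 40 / L := by
        rw [div_le_div_iff₀ (by positivity) hL0]
        linarith
      linarith
    · obtain ⟨m, rfl⟩ : ∃ m, z = m + 1 := ⟨z - 1, by omega⟩
      obtain ⟨θ, hθ⟩ : ∃ θ : ℝ, θ = 1 - 40 / (L : ℝ) := ⟨_, rfl⟩
      have hθ0 : 0 ≤ θ := by
        rw [hθ]
        have : 40 / (L : ℝ) ≤ 1 := by rw [div_le_one hL0]; linarith
        linarith
      rw [← hθ]
      have r1 := HH_rec L m (by omega)
      have r2 := HH_rec (L + 1) m (by omega)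
      have y1 := YY_le L m hz
      have m1 := MM_succ_ge L (m + 1) (by omega) hz
      have m0 := MM_nonneg L (m + 1)
      obtain ⟨V, hV⟩ : ∃ V : ℝ, V = ∑ j ∈ range (m + 1), tn j * HH L (m - j) := ⟨_, rfl⟩
      obtain ⟨Y, hY⟩ : ∃ Y : ℝ, Y = ∑ j ∈ range (m + 1), ((j : ℝ) + 2) * (tn j * HH L (m - j)) := ⟨_, rfl⟩
      have e1 : ∑ j ∈ range (m + 1), ((L : ℝ) + j + 2) * (tn j * HH L (m - j)) = L * V + Y := by
        rw [hV, hY, Finset.mul_sum, ← Finset.sum_add_distrib]
        apply Finset.sum_congr rfl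
        intro j _
        ring
      have e2 : θ * (L * V + Y + V) ≤
          ∑ j ∈ range (m + 1), (((L + 1 : ℕ) : ℝ) + j + 2) * (tn j * HH (L + 1) (m - j)) := by
        rw [← e1, hV, ← Finset.sum_add_distrib, Finset.mul_sum]
        apply Finset.sum_le_sum
        intro j hj
        have hj' : j ≤ m := by have := mem_range.mp hj; omega
        have h3 := ih (m - j) (by omega) (by omega)
        rw [← hθ] at h3
        have ht := tn_pos j
        have hj0 : (0 : ℝ) ≤ j := Nat.cast_nonneg j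
        push_cast
        calc θ * (((L : ℝ) + j + 2) * (tn j * HH L (m - j)) + tn j * HH L (m - j))
            = ((L : ℝ) + 1 + j + 2) * (tn j * (θ * HH L (m - j))) := by ring
          _ ≤ _ := by
            apply mul_le_mul_of_nonneg_left _ (by positivity)
            exact mul_le_mul_of_nonneg_left h3 ht.le
      rw [e1] at r1
      rw [← hY] at y1
      obtain ⟨H, hH⟩ : ∃ H : ℝ, H = HH L (m + 1) := ⟨_, rfl⟩
      have hH0 : 0 ≤ H := by rw [hH]; exact HH_nonneg _ _
      rw [← hH] at r1 ⊢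
      have hm0 : (0 : ℝ) ≤ (m : ℝ) + 1 := by positivity
      have h5 : -(15 / (L : ℝ) * MM L (m + 1)) ≤ V - E * H := by
        have h6 : L * (V - E * H) = E * (((m : ℝ) + 1) * H) - Y - MM L (m + 1) := by linarith
        have h7 : 0 ≤ E * (((m : ℝ) + 1) * H) := by positivity
        have h8 : -(15 * MM L (m + 1)) ≤ L * (V - E * H) := by rw [h6]; linarith
        have h9 : -(15 / (L : ℝ) * MM L (m + 1)) = -(15 * MM L (m + 1)) / L := by ring
        rw [h9, div_le_iff₀ hL0]
        linarith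
      have h6 : θ * MM L (m + 1) + θ * (15 / (L : ℝ) * MM L (m + 1)) ≤ MM (L + 1) (m + 1) := by
        refine le_trans ?_ m1
        have h7 : θ * (1 + 15 / (L : ℝ)) ≤ 1 - 23 / (L : ℝ) := by
          rw [hθ]
          have h8 : 0 < 1 / (L : ℝ) := by positivity
          have e3 : (1 - 40 / (L : ℝ)) * (1 + 15 / (L : ℝ)) = 1 - 25 * (1 / (L : ℝ)) - 600 * (1 / (L : ℝ)) ^ 2 := by
            ring
          have e4 : 23 / (L : ℝ) = 23 * (1 / (L : ℝ)) := by ring
          rw [e3, e4]
          nlinarith [sq_nonneg (1 / (L : ℝ))]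
        calc θ * MM L (m + 1) + θ * (15 / (L : ℝ) * MM L (m + 1))
            = θ * (1 + 15 / (L : ℝ)) * MM L (m + 1) := by ring
          _ ≤ _ := mul_le_mul_of_nonneg_right h7 m0
      have h7 := mul_le_mul_of_nonneg_left h5 hθ0
      have hfin : E * ((((L + 1 : ℕ) : ℝ) + (m + 1)) * (θ * H)) ≤
          E * ((((L + 1 : ℕ) : ℝ) + (m + 1)) * HH (L + 1) (m + 1)) := by
        rw [r2]
        refine le_trans ?_ (add_le_add_left e2 _)
        have e5 : E * ((((L + 1 : ℕ) : ℝ) + (m + 1)) * (θ * H)) =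
            θ * (E * (((L : ℝ) + (m + 1)) * H)) + θ * (E * H) := by
          push_cast
          ring
        rw [e5, r1]
        nlinarith
      have hN : (0 : ℝ) < (((L + 1 : ℕ) : ℝ) + (m + 1)) := by positivity
      exact le_of_mul_le_mul_left (le_of_mul_le_mul_left hfin (by linarith)) hN

/-- lower bound for `HH` -/
lemma HH_ge (L : ℕ) (hL : 1 ≤ L) : ∀ z : ℕ, 2 * z ≤ L →
    0.04 / (√(L : ℝ) * ((L : ℝ) + z * √(z : ℝ))) ≤ HH L z := by
  have hLr : (1 : ℝ) ≤ L := by exact_mod_cast hL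
  have hL0 : (0 : ℝ) < L := by linarith
  have hl : 0 < √(L : ℝ) := Real.sqrt_pos.mpr hL0
  have hE := E_ge
  have hE' := E_le
  intro z
  induction z using Nat.strong_induction_on with
  | _ z ih =>
    intro hz
    rcases Nat.eq_zero_or_pos z with rfl | hz0
    · rw [HH_zero]
      simp only [Nat.cast_zero, zero_mul, add_zero]
      refine le_trans ?_ (le_tn L)
      have hs := sq_pos L
      have h1 : sq L ≤ 1.5 * √(L : ℝ) := by
        unfold sq
        apply Real.sqrt_le_iff.mpr
        constructor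
        · positivity
        · rw [mul_pow, Real.sq_sqrt hL0.le]
          linarith
      rw [div_le_div_iff₀ (by positivity) (by positivity)]
      have h2 : ((L : ℝ) + 1) * sq L ≤ (2 * L) * (1.5 * √(L : ℝ)) :=
        mul_le_mul (by linarith) h1 hs.le (by positivity)
      have h3 : 0 < (L : ℝ) * √(L : ℝ) := by positivity
      nlinarith
    · obtain ⟨m, rfl⟩ : ∃ m, z = m + 1 := ⟨z - 1, by omega⟩
      have r1 := HH_rec L m (by omega)
      have hM := le_MM L (m + 1) (by omega) hz
      have hm1 : (((m + 1 : ℕ)) : ℝ) = (m : ℝ) + 1 := by push_cast; ring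
      obtain ⟨y, hy⟩ : ∃ y : ℝ, y = ((m + 1 : ℕ) : ℝ) := ⟨_, rfl⟩
      have hy1 : 1 ≤ y := by rw [hy, hm1]; linarith [Nat.cast_nonneg (α := ℝ) m]
      have hy0 : 0 < y := by linarith
      rw [← hy] at hM ⊢
      rw [← hm1, ← hy] at r1
      have hs : 0 < √y := Real.sqrt_pos.mpr hy0
      have hss : √y * √y = y := Real.mul_self_sqrt hy0.le
      obtain ⟨η, hη⟩ : ∃ η : ℝ, η = 0.04 / (√(L : ℝ) * ((L : ℝ) + y * √y)) := ⟨_, rfl⟩
      have hη0 : 0 < η := by rw [hη]; positivity
      rw [← hη]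
      have h1 : L * η * ∑ j ∈ range (m + 1), tn j ≤
          ∑ j ∈ range (m + 1), ((L : ℝ) + j + 2) * (tn j * HH L (m - j)) := by
        rw [Finset.mul_sum]
        apply Finset.sum_le_sum
        intro j hj
        have hj' : j ≤ m := by have := mem_range.mp hj; omega
        have h3 := ih (m - j) (by omega) (by omega)
        have ht := tn_pos j
        have hj0 : (0 : ℝ) ≤ j := Nat.cast_nonneg j
        have h4 : η ≤ HH L (m - j) := by
          refine le_trans ?_ h3
          rw [hη]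
          have h5 : ((m - j : ℕ) : ℝ) ≤ y := by
            rw [hy]
            exact_mod_cast (by omega : m - j ≤ m + 1)
          have h6 := mul_sqrt_mono (Nat.cast_nonneg (m - j)) h5
          have h7 : 0 ≤ ((m - j : ℕ) : ℝ) * √((m - j : ℕ) : ℝ) := by positivity
          apply div_le_div_of_nonneg_left (by norm_num) (by positivity)
          exact mul_le_mul_of_nonneg_left (by linarith) hl.le
        calc L * η * tn j = L * (tn j * η) := by ring
          _ ≤ ((L : ℝ) + j + 2) * (tn j * HH L (m - j)) := by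
            apply mul_le_mul (by linarith) (mul_le_mul_of_nonneg_left h4 ht.le) (by positivity)
              (by positivity)
      have h2 := le_sum_tn (m + 1)
      have h3 := le_WW (m + 1)
      rw [← hy] at h3
      have hW := WW_nonneg (m + 1)
      have h4 : 1 / (1 + WW (m + 1)) ≤ E / √y := by
        rw [div_le_div_iff₀ (by linarith) hs]
        rw [div_le_iff₀ (by linarith)] at h3
        nlinarith
      have h5 : E * (1 - E / √y) ≤ ∑ j ∈ range (m + 1), tn j := by
        refine le_trans ?_ h2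
        apply mul_le_mul_of_nonneg_left _ (by linarith)
        linarith
      have h6 : L * η * (E * (1 - E / √y)) ≤ L * η * ∑ j ∈ range (m + 1), tn j :=
        mul_le_mul_of_nonneg_left h5 (by positivity)
      have h7 : E * η * (y + L * (E / √y)) ≤ 0.35 / (√(L : ℝ) * √y) := by
        have h8 : y + L * (E / √y) ≤ E * (L + y * √y) / √y := by
          rw [le_div_iff₀ hs]
          have : (y + L * (E / √y)) * √y = y * √y + L * E := by field_simp
          rw [this]
          have : 0 < y * √y := by positivity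
          nlinarith
        calc E * η * (y + L * (E / √y)) ≤ E * η * (E * (L + y * √y) / √y) :=
              mul_le_mul_of_nonneg_left h8 (by positivity)
          _ = (E * E * 0.04) / (√(L : ℝ) * √y) := by
              rw [hη]
              have : 0 < (L : ℝ) + y * √y := by positivity
              field_simp
          _ ≤ _ := by
              apply div_le_div_of_nonneg_right _ (by positivity)
              nlinarith
      have hfin : E * (((L : ℝ) + y) * η) ≤ E * (((L : ℝ) + y) * HH L (m + 1)) := by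
        rw [r1]
        have e : E * (((L : ℝ) + y) * η) = L * η * (E * (1 - E / √y)) + E * η * (y + L * (E / √y)) := by
          ring
        rw [e]
        linarith
      have hN : (0 : ℝ) < (L : ℝ) + y := by positivity
      exact le_of_mul_le_mul_left (le_of_mul_le_mul_left hfin (by linarith)) hN

end Pool.Agent.MP_9da1e3_co
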