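import Pool.Agent.Lib.MP_9da1e3_co.Up2

namespace Pool.Agent.MP_9da1e3_co

open Finset

noncomputable def gg (L y : ℕ) : ℝ := An L (L + y)

noncomputable def SS (L m : ℕ) : ℝ := ∑ j ∈ range (m + 1), tn j * HH L (m - j)

lemma gg_nonneg (L y : ℕ) : 0 ≤ gg L y := An_nonneg _ _

lemma gg_zero (L : ℕ) : gg L 0 = 0 := An_zero L (L + 0) (by omega)

lemma gg_rec (L m : ℕ) (h : m + 1 ≤ L) : E * (((L : ℝ) + (m + 1)) * gg L (m + 1)) =
    ∑ j ∈ range (m + 1), ((L : ℝ) + j + 1) * (tn j * gg L (m - j)) + SS L m := by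
  have hrec := An_rec L (L + m)
  have e0 : gg L (m + 1) = An L (L + m + 1) := by
    unfold gg
    rw [add_assoc]
  have e1 : ((L : ℝ) + (m + 1)) = (((L + m : ℕ) : ℝ) + 1) := by push_cast; ring
  rw [e0, e1, hrec]
  have s1 : ∑ k ∈ range (L + m + 1), ((min L (k + 1) : ℕ) : ℝ) * (An L k * Fn (L + 1) (L + m - k)) =
      ∑ j ∈ range (m + 1), (L : ℝ) * (tn j * gg L (m - j)) := by
    rw [add_assoc L m 1, Finset.sum_range_add]
    have z1 : ∑ k ∈ range L, ((min L (k + 1) : ℕ) : ℝ) * (An L k * Fn (L + 1) (L + m - k)) = 0 := by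
      apply Finset.sum_eq_zero
      intro k hk
      rw [An_zero L k (by have := mem_range.mp hk; omega)]
      ring
    rw [z1, zero_add, ← sum_rev (fun j => (L : ℝ) * (tn j * gg L (m - j))) m]
    apply Finset.sum_congr rfl
    intro t ht
    have ht' := mem_range.mp ht
    have a1 : min L (L + t + 1) = L := by omega
    have a2 : L + m - (L + t) = m - t := by omega
    have a3 : m - (m - t) = t := by omega
    rw [a1, a2, a3, Fn_eq_tn (L + 1) (m - t) (by omega)]
    unfold gg
    ring
  have s2 : ∑ k ∈ range (L + m + 1), ((min L (k + 1) : ℕ) : ℝ) * (Fn L k * An L (L + m - k)) =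
      ∑ j ∈ range (m + 1), ((j : ℝ) + 1) * (tn j * gg L (m - j)) := by
    have a0 : L + m + 1 = (m + 1) + L := by ring
    rw [show range (L + m + 1) = range ((m + 1) + L) by rw [a0], Finset.sum_range_add]
    have z1 : ∑ x ∈ range L, ((min L (m + 1 + x + 1) : ℕ) : ℝ) *
        (Fn L (m + 1 + x) * An L (L + m - (m + 1 + x))) = 0 := by
      apply Finset.sum_eq_zero
      intro k _
      rw [An_zero L (L + m - (m + 1 + k)) (by omega)]
      ring
    rw [z1, add_zero]
    apply Finset.sum_congr rfl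
    intro t ht
    have ht' := mem_range.mp ht
    have a1 : min L (t + 1) = t + 1 := by omega
    have a2 : L + m - t = L + (m - t) := by omega
    rw [a1, a2, Fn_eq_tn L t (by omega)]
    unfold gg
    push_cast
    ring
  have s3 : ∑ k ∈ range (L + m + 1), (if L ≤ k then Fn (L + 1) k * Fn (L + 1) (L + m - k) else 0) =
      SS L m := by
    unfold SS
    rw [add_assoc L m 1, Finset.sum_range_add]
    have z1 : ∑ k ∈ range L, (if L ≤ k then Fn (L + 1) k * Fn (L + 1) (L + m - k) else 0) = 0 := by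
      apply Finset.sum_eq_zero
      intro k hk
      rw [if_neg (by have := mem_range.mp hk; omega)]
    rw [z1, zero_add, ← sum_rev (fun j => tn j * HH L (m - j)) m]
    apply Finset.sum_congr rfl
    intro t ht
    have ht' := mem_range.mp ht
    have a2 : L + m - (L + t) = m - t := by omega
    have a3 : m - (m - t) = t := by omega
    rw [if_pos (by omega), a2, a3, Fn_eq_tn (L + 1) (m - t) (by omega)]
    unfold HH
    ring
  rw [s1, s2, s3, ← Finset.sum_add_distrib]
  congr 1
  apply Finset.sum_congr rfl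
  intro j _
  ring

lemma gg_le_small (L z : ℕ) (hL : 1 ≤ L) (hz : z ≤ L) :
    gg L z ≤ 1.8 * √(z : ℝ) / ((L : ℝ) * L * √(L : ℝ)) := by
  have hLr : (1 : ℝ) ≤ L := by exact_mod_cast hL
  have hL0 : (0 : ℝ) < L := by linarith
  have hl : 0 < √(L : ℝ) := Real.sqrt_pos.mpr hL0
  rcases Nat.eq_zero_or_pos z with rfl | hz0
  · rw [gg_zero]
    positivity
  · unfold gg
    have h := An_small L (L + z) (by omega) (by omega)
    have e : (((L + z : ℕ) : ℝ) - L) = z := by push_cast; ring
    rw [e] at h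
    refine h.trans ?_
    apply div_le_div_of_nonneg_left (by positivity) (by positivity)
    have h5 : √(L : ℝ) ≤ sq L := by
      unfold sq
      apply Real.sqrt_le_sqrt
      linarith
    apply mul_le_mul _ h5 hl.le (by positivity)
    nlinarith

lemma gg_le_big (L z : ℕ) (hL : 36000000 ≤ L) (hz : 1 ≤ z) :
    gg L z ≤ 40000000 * (1 / ((z : ℝ) * z * √(z : ℝ) * √(L : ℝ))) := by
  have hLr : (36000000 : ℝ) ≤ L := by exact_mod_cast hL
  have hL0 : (0 : ℝ) < L := by linarith
  have hl : 0 < √(L : ℝ) := Real.sqrt_pos.mpr hL0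
  have hz0 : (0 : ℝ) < z := by exact_mod_cast hz
  have hs : 0 < √(z : ℝ) := Real.sqrt_pos.mpr hz0
  have h := A_le L hL (L + z) (by omega)
  have e : (((L + z : ℕ) : ℝ) - L) = z := by push_cast; ring
  rw [e] at h
  unfold gg
  refine h.trans ?_
  apply mul_le_mul_of_nonneg_left _ (by norm_num)
  apply one_div_le_one_div_of_le (by positivity)
  unfold D3
  apply mul_le_mul_of_nonneg_left _ (by positivity)
  apply Real.sqrt_le_sqrt
  push_cast
  linarith

lemma sum_gg_le (L M : ℕ) (hL : 36000000 ≤ L) :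
    ∑ z ∈ range M, gg L z ≤ 24200 / ((L : ℝ) * √(L : ℝ)) := by
  have h := S_le L (L + M) hL (by omega) (fun k hk _ => A_le L hL k hk)
  refine le_trans ?_ h
  rw [add_assoc L M 1, Finset.sum_range_add]
  have h1 : 0 ≤ ∑ k ∈ range L, An L k := Finset.sum_nonneg fun _ _ => An_nonneg _ _
  have h2 : ∑ z ∈ range M, gg L z ≤ ∑ z ∈ range (M + 1), An L (L + z) := by
    unfold gg
    apply Finset.sum_le_sum_of_subset_of_nonneg
    · exact range_subset_range.mpr (by omega)
    · intro _ _ _
      exact An_nonneg _ _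
  linarith

lemma SS_nonneg (L m : ℕ) : 0 ≤ SS L m :=
  Finset.sum_nonneg fun _ _ => mul_nonneg (tn_pos _).le (HH_nonneg _ _)

lemma HH_le_SS (L m : ℕ) : HH L m ≤ SS L m := by
  unfold SS
  have h := Finset.single_le_sum (f := fun j => tn j * HH L (m - j))
    (fun j _ => mul_nonneg (tn_pos j).le (HH_nonneg _ _)) (mem_range.mpr (by omega : 0 < m + 1))
  simp only [tn_zero, one_mul, Nat.sub_zero] at h
  exact h

lemma XX_le (L m : ℕ) (hL : 36000000 ≤ L) (hmL : 2 * (m + 1) ≤ L) :
    ∑ j ∈ range (m + 1), ((j : ℝ) + 1) * (tn j * gg L (m - j)) ≤ 100000000000 * SS L m := by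
  have hLr : (36000000 : ℝ) ≤ L := by exact_mod_cast hL
  have hL0 : (0 : ℝ) < L := by linarith
  have hl : 0 < √(L : ℝ) := Real.sqrt_pos.mpr hL0
  have hll : √(L : ℝ) * √(L : ℝ) = L := Real.mul_self_sqrt hL0.le
  have hm0 : (0 : ℝ) ≤ m := Nat.cast_nonneg m
  have hmr : 2 * ((m : ℝ) + 1) ≤ L := by exact_mod_cast hmL
  have h1 := HH_ge L (by omega) m (by omega)
  have h2 := HH_le_SS L m
  have hS := sum_succ_tn_le (m + 1)
  have hm1 : (((m + 1 : ℕ)) : ℝ) = (m : ℝ) + 1 := by push_cast; ring
  rw [hm1] at hS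
  by_cases hc : (m : ℝ) * √(m : ℝ) ≤ L
  · have h3 : 0.02 / ((L : ℝ) * √(L : ℝ)) ≤ SS L m := by
      refine le_trans ?_ (h1.trans h2)
      have h4 : 0 ≤ (m : ℝ) * √(m : ℝ) := by positivity
      rw [div_le_div_iff₀ (by positivity) (by positivity)]
      nlinarith
    have h4 : ∑ j ∈ range (m + 1), ((j : ℝ) + 1) * (tn j * gg L (m - j)) ≤
        ∑ j ∈ range (m + 1), 1.8 * √((m : ℝ) + 1) / ((L : ℝ) * L * √(L : ℝ)) * (((j : ℝ) + 1) * tn j) := by
      apply Finset.sum_le_sum
      intro j _
      have ht := tn_pos j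
      have h5 := gg_le_small L (m - j) (by omega) (by omega)
      have h6 : √((m - j : ℕ) : ℝ) ≤ √((m : ℝ) + 1) := by
        apply Real.sqrt_le_sqrt
        have : ((m - j : ℕ) : ℝ) ≤ m := by exact_mod_cast (by omega : m - j ≤ m)
        linarith
      have h7 : gg L (m - j) ≤ 1.8 * √((m : ℝ) + 1) / ((L : ℝ) * L * √(L : ℝ)) := by
        refine h5.trans ?_
        apply div_le_div_of_nonneg_right _ (by positivity)
        linarith
      calc ((j : ℝ) + 1) * (tn j * gg L (m - j)) = (((j : ℝ) + 1) * tn j) * gg L (m - j) := by ring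
        _ ≤ (((j : ℝ) + 1) * tn j) * (1.8 * √((m : ℝ) + 1) / ((L : ℝ) * L * √(L : ℝ))) :=
            mul_le_mul_of_nonneg_left h7 (by positivity)
        _ = _ := by ring
    refine h4.trans ?_
    rw [← Finset.mul_sum]
    have hs0 : 0 < √((m : ℝ) + 1) := Real.sqrt_pos.mpr (by linarith)
    have hss : √((m : ℝ) + 1) * √((m : ℝ) + 1) = (m : ℝ) + 1 := Real.mul_self_sqrt (by linarith)
    calc 1.8 * √((m : ℝ) + 1) / ((L : ℝ) * L * √(L : ℝ)) * ∑ j ∈ range (m + 1), ((j : ℝ) + 1) * tn j
        ≤ 1.8 * √((m : ℝ) + 1) / ((L : ℝ) * L * √(L : ℝ)) * (2.2 * √((m : ℝ) + 1)) :=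
          mul_le_mul_of_nonneg_left hS (by positivity)
      _ = 3.96 * (√((m : ℝ) + 1) * √((m : ℝ) + 1)) / ((L : ℝ) * L * √(L : ℝ)) := by ring
      _ = 3.96 * ((m : ℝ) + 1) / ((L : ℝ) * L * √(L : ℝ)) := by rw [hss]
      _ ≤ 100000000000 * (0.02 / ((L : ℝ) * √(L : ℝ))) := by
          rw [mul_div_assoc', div_le_div_iff₀ (by positivity) (by positivity)]
          have h8 : 0 < (L : ℝ) * √(L : ℝ) := by positivity
          have h9 : 3.96 * ((m : ℝ) + 1) ≤ 100000000000 * 0.02 * L := by linarith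
          calc 3.96 * ((m : ℝ) + 1) * ((L : ℝ) * √(L : ℝ))
              ≤ 100000000000 * 0.02 * L * ((L : ℝ) * √(L : ℝ)) := mul_le_mul_of_nonneg_right h9 h8.le
            _ = _ := by ring
      _ ≤ _ := mul_le_mul_of_nonneg_left h3 (by norm_num)
  · push Not at hc
    have hm1' : (1 : ℝ) ≤ m := by
      by_contra hcon
      push Not at hcon
      have : (m : ℝ) * √(m : ℝ) ≤ 1 * 1 := by
        apply mul_le_mul hcon.le _ (Real.sqrt_nonneg _) (by norm_num)
        apply Real.sqrt_le_iff.mpr
        constructor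
        · norm_num
        · linarith
      linarith
    have hmp : (0 : ℝ) < m := by linarith
    have hmn : 1 ≤ m := by exact_mod_cast hm1'
    have hs : 0 < √(m : ℝ) := Real.sqrt_pos.mpr hmp
    have hss : √(m : ℝ) * √(m : ℝ) = m := Real.mul_self_sqrt hmp.le
    have hs1 : 1 ≤ √(m : ℝ) := by
      apply Real.le_sqrt_of_sq_le
      linarith
    have h3 : 0.02 / (√(L : ℝ) * ((m : ℝ) * √(m : ℝ))) ≤ SS L m := by
      refine le_trans ?_ (h1.trans h2)
      rw [div_le_div_iff₀ (by positivity) (by positivity)]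
      nlinarith
    have h4 : ∑ j ∈ range (m + 1), ((j : ℝ) + 1) * (tn j * gg L (m - j)) ≤
        ∑ j ∈ range (m + 1), (240000000 / ((m : ℝ) * m * √(m : ℝ) * √(L : ℝ)) * (((j : ℝ) + 1) * tn j) +
          1.6 / √(m : ℝ) * gg L (m - j)) := by
      apply Finset.sum_le_sum
      intro j hj
      have hj' : j ≤ m := by have := mem_range.mp hj; omega
      have ht := tn_pos j
      have hg := gg_nonneg L (m - j)
      by_cases hcj : 2 * j ≤ m
      · have h5 := gg_le_big L (m - j) hL (by omega)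
        have h6 : (m : ℝ) / 2 ≤ ((m - j : ℕ) : ℝ) := by
          have : m ≤ 2 * (m - j) := by omega
          have : (m : ℝ) ≤ 2 * ((m - j : ℕ) : ℝ) := by exact_mod_cast this
          linarith
        have h7 : √(m : ℝ) / 1.42 ≤ √((m - j : ℕ) : ℝ) := by
          apply Real.le_sqrt_of_sq_le
          rw [div_pow, Real.sq_sqrt hmp.le, div_le_iff₀ (by norm_num)]
          linarith
        have h8 : (m : ℝ) / 2 * (m / 2) * (√(m : ℝ) / 1.42) * √(L : ℝ) ≤
            ((m - j : ℕ) : ℝ) * ((m - j : ℕ) : ℝ) * √((m - j : ℕ) : ℝ) * √(L : ℝ) := by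
          apply mul_le_mul_of_nonneg_right _ hl.le
          apply mul_le_mul _ h7 (by positivity) (by positivity)
          exact mul_le_mul h6 h6 (by positivity) (by positivity)
        have h9 : gg L (m - j) ≤ 240000000 / ((m : ℝ) * m * √(m : ℝ) * √(L : ℝ)) := by
          refine h5.trans ?_
          rw [mul_one_div]
          refine (div_le_div_of_nonneg_left (by norm_num) (by positivity) h8).trans ?_
          rw [div_le_div_iff₀ (by positivity) (by positivity)]
          have : 0 < (m : ℝ) * m * √(m : ℝ) * √(L : ℝ) := by positivity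
          have e : 240000000 * ((m : ℝ) / 2 * (m / 2) * (√(m : ℝ) / 1.42) * √(L : ℝ)) =
              (240000000 / 5.68) * ((m : ℝ) * m * √(m : ℝ) * √(L : ℝ)) := by ring
          rw [e]
          exact mul_le_mul_of_nonneg_right (by norm_num) this.le
        have h10 : 0 ≤ 1.6 / √(m : ℝ) * gg L (m - j) := by positivity
        calc ((j : ℝ) + 1) * (tn j * gg L (m - j)) = (((j : ℝ) + 1) * tn j) * gg L (m - j) := by ring
          _ ≤ (((j : ℝ) + 1) * tn j) * (240000000 / ((m : ℝ) * m * √(m : ℝ) * √(L : ℝ))) :=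
              mul_le_mul_of_nonneg_left h9 (by positivity)
          _ = 240000000 / ((m : ℝ) * m * √(m : ℝ) * √(L : ℝ)) * (((j : ℝ) + 1) * tn j) := by ring
          _ ≤ _ := by linarith
      · have h5 := cE_le j
        unfold cE at h5
        have hsj := sq_pos j
        have h6 : √(m : ℝ) / 1.42 ≤ sq j := by
          unfold sq
          apply Real.le_sqrt_of_sq_le
          rw [div_pow, Real.sq_sqrt hmp.le, div_le_iff₀ (by norm_num)]
          have : (m : ℝ) ≤ 2 * j := by exact_mod_cast (by omega : m ≤ 2 * j)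
          linarith
        have h7 : ((j : ℝ) + 1) * tn j ≤ 1.6 / √(m : ℝ) := by
          refine h5.trans ?_
          refine (div_le_div_of_nonneg_left (by norm_num) (by positivity) h6).trans ?_
          rw [div_le_div_iff₀ (by positivity) hs]
          have e : 1.6 * (√(m : ℝ) / 1.42) = (1.6 / 1.42) * √(m : ℝ) := by ring
          rw [e]
          exact mul_le_mul_of_nonneg_right (by norm_num) hs.le
        have h10 : 0 ≤ 240000000 / ((m : ℝ) * m * √(m : ℝ) * √(L : ℝ)) * (((j : ℝ) + 1) * tn j) := by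
          positivity
        calc ((j : ℝ) + 1) * (tn j * gg L (m - j)) = (((j : ℝ) + 1) * tn j) * gg L (m - j) := by ring
          _ ≤ 1.6 / √(m : ℝ) * gg L (m - j) := mul_le_mul_of_nonneg_right h7 hg
          _ ≤ _ := by linarith
    refine h4.trans ?_
    rw [Finset.sum_add_distrib, ← Finset.mul_sum, ← Finset.mul_sum, sum_rev (gg L)]
    have hG := sum_gg_le L (m + 1) hL
    have hsm : √((m : ℝ) + 1) ≤ 1.5 * √(m : ℝ) := by
      apply Real.sqrt_le_iff.mpr
      constructor
      · positivity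
      · rw [mul_pow, Real.sq_sqrt hmp.le]
        linarith
    have h5 : 240000000 / ((m : ℝ) * m * √(m : ℝ) * √(L : ℝ)) * ∑ j ∈ range (m + 1), ((j : ℝ) + 1) * tn j ≤
        50000000000 * (0.02 / (√(L : ℝ) * ((m : ℝ) * √(m : ℝ)))) := by
      calc 240000000 / ((m : ℝ) * m * √(m : ℝ) * √(L : ℝ)) * ∑ j ∈ range (m + 1), ((j : ℝ) + 1) * tn j
          ≤ 240000000 / ((m : ℝ) * m * √(m : ℝ) * √(L : ℝ)) * (2.2 * (1.5 * √(m : ℝ))) := by
            apply mul_le_mul_of_nonneg_left _ (by positivity)
            linarith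
        _ = 792000000 / ((m : ℝ) * m * √(L : ℝ)) := by
            field_simp
            norm_num
        _ ≤ _ := by
            rw [mul_div_assoc', div_le_div_iff₀ (by positivity) (by positivity)]
            have h6 : √(m : ℝ) ≤ m := by nlinarith
            have h7 : 0 < √(L : ℝ) * m := by positivity
            nlinarith [mul_le_mul_of_nonneg_left h6 h7.le]
    have h6 : 1.6 / √(m : ℝ) * ∑ k ∈ range (m + 1), gg L k ≤
        50000000000 * (0.02 / (√(L : ℝ) * ((m : ℝ) * √(m : ℝ)))) := by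
      calc 1.6 / √(m : ℝ) * ∑ k ∈ range (m + 1), gg L k
          ≤ 1.6 / √(m : ℝ) * (24200 / ((L : ℝ) * √(L : ℝ))) :=
            mul_le_mul_of_nonneg_left hG (by positivity)
        _ ≤ _ := by
            rw [div_mul_div_comm, mul_div_assoc', div_le_div_iff₀ (by positivity) (by positivity)]
            have h7 : 0 < √(m : ℝ) * √(L : ℝ) := by positivity
            have h8 : (m : ℝ) ≤ L := by linarith
            nlinarith [mul_le_mul_of_nonneg_left h8 h7.le]
    have h7 := mul_le_mul_of_nonneg_left h3 (by norm_num : (0 : ℝ) ≤ 100000000000)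
    linarith

/-- comparison of neighbouring `L` -/
lemma gg_ratio (L : ℕ) (hL : 1000000000000 ≤ L) : ∀ y : ℕ, 2 * y ≤ L →
    (1 - 200000000000 / (L : ℝ)) * gg L y ≤ gg (L + 1) y := by
  have hLr : (1000000000000 : ℝ) ≤ L := by exact_mod_cast hL
  have hL0 : (0 : ℝ) < L := by linarith
  have hE := E_ge
  intro y
  induction y using Nat.strong_induction_on with
  | _ y ih =>
    intro hy
    rcases Nat.eq_zero_or_pos y with rfl | hy0
    · rw [gg_zero, gg_zero]
      simp
    · obtain ⟨m, rfl⟩ : ∃ m, y = m + 1 := ⟨y - 1, by omega⟩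
      obtain ⟨θ, hθ⟩ : ∃ θ : ℝ, θ = 1 - 200000000000 / (L : ℝ) := ⟨_, rfl⟩
      have hθ0 : 0 ≤ θ := by
        rw [hθ]
        have : 200000000000 / (L : ℝ) ≤ 1 := by rw [div_le_one hL0]; linarith
        linarith
      rw [← hθ]
      have r1 := gg_rec L m (by omega)
      have r2 := gg_rec (L + 1) m (by omega)
      have x1 := XX_le L m (by omega) hy
      have s0 := SS_nonneg L m
      have s1 : (1 - 40 / (L : ℝ)) * SS L m ≤ SS (L + 1) m := by
        unfold SS
        rw [Finset.mul_sum]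
        apply Finset.sum_le_sum
        intro j hj
        have hj' : j ≤ m := by have := mem_range.mp hj; omega
        have h3 := HH_ratio L (by omega) (m - j) (by omega)
        have ht := tn_pos j
        calc (1 - 40 / (L : ℝ)) * (tn j * HH L (m - j)) = tn j * ((1 - 40 / (L : ℝ)) * HH L (m - j)) := by
              ring
          _ ≤ _ := mul_le_mul_of_nonneg_left h3 ht.le
      obtain ⟨V, hV⟩ : ∃ V : ℝ, V = ∑ j ∈ range (m + 1), tn j * gg L (m - j) := ⟨_, rfl⟩
      obtain ⟨Y, hY⟩ : ∃ Y : ℝ, Y = ∑ j ∈ range (m + 1), ((j : ℝ) + 1) * (tn j * gg L (m - j)) := ⟨_, rfl⟩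
      have e1 : ∑ j ∈ range (m + 1), ((L : ℝ) + j + 1) * (tn j * gg L (m - j)) = L * V + Y := by
        rw [hV, hY, Finset.mul_sum, ← Finset.sum_add_distrib]
        apply Finset.sum_congr rfl
        intro j _
        ring
      have e2 : θ * (L * V + Y + V) ≤
          ∑ j ∈ range (m + 1), (((L + 1 : ℕ) : ℝ) + j + 1) * (tn j * gg (L + 1) (m - j)) := by
        rw [← e1, hV, ← Finset.sum_add_distrib, Finset.mul_sum]
        apply Finset.sum_le_sum
        intro j hj
        have hj' : j ≤ m := by have := mem_range.mp hj; omega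
        have h3 := ih (m - j) (by omega) (by omega)
        rw [← hθ] at h3
        have ht := tn_pos j
        have hj0 : (0 : ℝ) ≤ j := Nat.cast_nonneg j
        push_cast
        calc θ * (((L : ℝ) + j + 1) * (tn j * gg L (m - j)) + tn j * gg L (m - j))
            = ((L : ℝ) + 1 + j + 1) * (tn j * (θ * gg L (m - j))) := by ring
          _ ≤ _ := by
            apply mul_le_mul_of_nonneg_left _ (by positivity)
            exact mul_le_mul_of_nonneg_left h3 ht.le
      rw [e1] at r1
      rw [← hY] at x1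
      obtain ⟨H, hH⟩ : ∃ H : ℝ, H = gg L (m + 1) := ⟨_, rfl⟩
      have hH0 : 0 ≤ H := by rw [hH]; exact gg_nonneg _ _
      rw [← hH] at r1 ⊢
      have hm0 : (0 : ℝ) ≤ (m : ℝ) + 1 := by positivity
      have h5 : -(100000000001 / (L : ℝ) * SS L m) ≤ V - E * H := by
        have h6 : L * (V - E * H) = E * (((m : ℝ) + 1) * H) - Y - SS L m := by linarith
        have h7 : 0 ≤ E * (((m : ℝ) + 1) * H) := by positivity
        have h8 : -(100000000001 * SS L m) ≤ L * (V - E * H) := by rw [h6]; linarith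
        have h9 : -(100000000001 / (L : ℝ) * SS L m) = -(100000000001 * SS L m) / L := by ring
        rw [h9, div_le_iff₀ hL0]
        linarith
      have h6 : θ * SS L m + θ * (100000000001 / (L : ℝ) * SS L m) ≤ SS (L + 1) m := by
        refine le_trans ?_ s1
        have h7 : θ * (1 + 100000000001 / (L : ℝ)) ≤ 1 - 40 / (L : ℝ) := by
          rw [hθ]
          have h8 : 0 < 1 / (L : ℝ) := by positivity
          have e3 : (1 - 200000000000 / (L : ℝ)) * (1 + 100000000001 / (L : ℝ)) =
              1 - 99999999999 * (1 / (L : ℝ)) - 200000000000 * 100000000001 * (1 / (L : ℝ)) ^ 2 := by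
            ring
          have e4 : 40 / (L : ℝ) = 40 * (1 / (L : ℝ)) := by ring
          rw [e3, e4]
          nlinarith [sq_nonneg (1 / (L : ℝ))]
        calc θ * SS L m + θ * (100000000001 / (L : ℝ) * SS L m)
            = θ * (1 + 100000000001 / (L : ℝ)) * SS L m := by ring
          _ ≤ _ := mul_le_mul_of_nonneg_right h7 s0
      have h7 := mul_le_mul_of_nonneg_left h5 hθ0
      have hfin : E * ((((L + 1 : ℕ) : ℝ) + (m + 1)) * (θ * H)) ≤
          E * ((((L + 1 : ℕ) : ℝ) + (m + 1)) * gg (L + 1) (m + 1)) := by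
        rw [r2]
        refine le_trans ?_ (add_le_add_left e2 _)
        have e5 : E * ((((L + 1 : ℕ) : ℝ) + (m + 1)) * (θ * H)) =
            θ * (E * (((L : ℝ) + (m + 1)) * H)) + θ * (E * H) := by
          push_cast
          ring
        rw [e5, r1]
        nlinarith
      have hN : (0 : ℝ) < (((L + 1 : ℕ) : ℝ) + (m + 1)) := by positivity
      exact le_of_mul_le_mul_left (le_of_mul_le_mul_left hfin (by linarith)) hN

end Pool.Agent.MP_9da1e3_co
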