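import Pool.Agent.Lib.MP_9da1e3_co.Up4

namespace Pool.Agent.MP_9da1e3_co

open Finset

noncomputable def Psi (L : ℕ) (y : ℝ) : ℝ := 1 / (y * y * y * √y * √(L : ℝ))

lemma Psi_pos (L : ℕ) (hL : 1 ≤ L) {y : ℝ} (hy : 0 < y) : 0 < Psi L y := by
  have h1 : 0 < √y := Real.sqrt_pos.mpr hy
  have h2 : 0 < √(L : ℝ) := Real.sqrt_pos.mpr (by exact_mod_cast hL)
  unfold Psi
  positivity

/-- the induction step with an abstract barrier -/
lemma step (L m : ℕ) (y K q P κ : ℝ) (hy : y = (m : ℝ) + 1) (hK : 100000000000000 ≤ K)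
    (h1 : K * (L : ℝ) ≤ y * √y) (h2 : 1000000000000000000000 * y ≤ L)
    (hP : 0 ≤ P) (hκ : 0 ≤ κ) (hq1 : -P ≤ q) (hq2 : q ≤ P)
    (hnear : ∀ j : ℕ, j < (m + 1) / 2 → Psi L y * (q - κ * (((j : ℝ) + 1) / y)) ≤ bb L (m - j))
    (hcond : E * q + (17 * P + 4.4 * κ) / K ≤ 1 / 2000) : Psi L y * q ≤ bb L (m + 1) := by
  have hm0 : (0 : ℝ) ≤ m := Nat.cast_nonneg m
  have hy1 : 1 ≤ y := by rw [hy]; linarith
  have hy0 : 0 < y := by linarith
  have hL0 : (0 : ℝ) < L := by linarith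
  have hs : 0 < √y := Real.sqrt_pos.mpr hy0
  have hss : √y * √y = y := Real.mul_self_sqrt hy0.le
  have hl : 0 < √(L : ℝ) := Real.sqrt_pos.mpr hL0
  have hyL : y ≤ L := by linarith
  have hK0 : 0 < K := by linarith
  have hsK : K ≤ √y := by
    have : K * y ≤ y * √y := by nlinarith
    have h3 : y * K ≤ y * √y := by linarith
    exact le_of_mul_le_mul_left h3 hy0
  have hy14 : 100000000000000 ≤ y := by nlinarith
  have hLn : 1 ≤ L := by
    have : (1 : ℝ) ≤ L := by linarith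
    exact_mod_cast this
  have hmL : 2 * (m + 1) ≤ L := by
    have : 2 * ((m : ℝ) + 1) ≤ L := by rw [← hy]; linarith
    exact_mod_cast this
  have hE := E_ge
  have hE' := E_le
  obtain ⟨h, hh⟩ : ∃ h, h = (m + 1) / 2 := ⟨_, rfl⟩
  rw [← hh] at hnear
  have hlow : 100000000000000 * (L : ℝ) ≤ y * √y := by nlinarith
  have hfar := far_ge L m h y hy hh hlow h2
  have hrec := bb_rec L m (by omega)
  have hm4 : 4 ≤ m := by
    have : (4 : ℝ) ≤ m := by linarith
    exact_mod_cast this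
  have hsplit : m + 1 = h + (m + 1 - h) := by omega
  have hsum : ∑ j ∈ range (m + 1), ((L : ℝ) + j + 1) * (tn j * bb L (m - j)) =
      ∑ j ∈ range h, ((L : ℝ) + j + 1) * (tn j * bb L (m - j)) +
      ∑ t ∈ range (m + 1 - h), ((L : ℝ) + ((h + t : ℕ) : ℝ) + 1) * (tn (h + t) * bb L (m - (h + t))) := by
    rw [← Finset.sum_range_add (fun j => ((L : ℝ) + (j : ℝ) + 1) * (tn j * bb L (m - j))) h (m + 1 - h),
      ← hsplit]
  rw [hsum] at hrec
  obtain ⟨Ψ, hΨ⟩ : ∃ Ψ : ℝ, Ψ = Psi L y := ⟨_, rfl⟩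
  have hΨ0 : 0 < Ψ := by rw [hΨ]; exact Psi_pos L hLn hy0
  rw [← hΨ] at hnear ⊢
  -- near part
  have hhy : (h : ℝ) ≤ y := by
    rw [hy]
    have : h ≤ m + 1 := by omega
    exact_mod_cast this
  have hhy4 : y / 4 ≤ (h : ℝ) := by
    have h3 : m + 1 ≤ 4 * h := by omega
    have h4 : ((m + 1 : ℕ) : ℝ) ≤ ((4 * h : ℕ) : ℝ) := by exact_mod_cast h3
    push_cast at h4
    rw [hy]
    linarith
  have hsh : √(h : ℝ) ≤ √y := Real.sqrt_le_sqrt hhy
  obtain ⟨T, hT⟩ : ∃ T : ℝ, T = ∑ j ∈ range h, tn j := ⟨_, rfl⟩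
  obtain ⟨V, hV⟩ : ∃ V : ℝ, V = ∑ j ∈ range h, ((j : ℝ) + 1) * tn j := ⟨_, rfl⟩
  have hT1 : T ≤ E := by rw [hT]; exact sum_tn_le h
  have hV1 : V ≤ 2.2 * √y := by
    rw [hV]
    refine (sum_succ_tn_le h).trans ?_
    linarith
  have hV0 : 0 ≤ V := by
    rw [hV]
    exact Finset.sum_nonneg fun j _ => by have := tn_pos j; positivity
  have hT2 : E - T ≤ 14.8 / √y := by
    have h3 := le_sum_tn h
    rw [← hT] at h3
    have h4 := le_WW h
    have h5 : √y / 2 ≤ √(h : ℝ) := by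
      apply Real.le_sqrt_of_sq_le
      rw [div_pow, Real.sq_sqrt hy0.le]
      norm_num
      linarith
    have hW := WW_nonneg h
    rw [div_le_iff₀ (by linarith)] at h4
    have h6 : √y ≤ 5.4366 * WW h := by nlinarith
    have h7 : 1 / (1 + WW h) ≤ 5.4366 / √y := by
      rw [div_le_div_iff₀ (by linarith) hs]
      linarith
    have h8 : E - T ≤ E * (1 / (1 + WW h)) := by linarith
    refine h8.trans ?_
    calc E * (1 / (1 + WW h)) ≤ 2.7183 * (5.4366 / √y) := mul_le_mul hE' h7 (by positivity) (by norm_num)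
      _ ≤ 14.8 / √y := by
          rw [mul_div_assoc']
          apply div_le_div_of_nonneg_right (by norm_num) hs.le
  have hnear2 : Ψ * (q * (L * T + V) - κ * ((2 * L * V) / y)) ≤
      ∑ j ∈ range h, ((L : ℝ) + j + 1) * (tn j * bb L (m - j)) := by
    have h3 : Ψ * (q * (L * T + V) - κ * ((∑ j ∈ range h, ((L : ℝ) + j + 1) * (((j : ℝ) + 1) * tn j)) / y)) ≤
        ∑ j ∈ range h, ((L : ℝ) + j + 1) * (tn j * bb L (m - j)) := by
      have e : Ψ * (q * (L * T + V) - κ * ((∑ j ∈ range h, ((L : ℝ) + j + 1) * (((j : ℝ) + 1) * tn j)) / y)) =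
          ∑ j ∈ range h, ((L : ℝ) + j + 1) * (tn j * (Ψ * (q - κ * (((j : ℝ) + 1) / y)))) := by
        rw [hT, hV, Finset.sum_div, Finset.mul_sum, Finset.mul_sum, ← Finset.sum_add_distrib,
          Finset.mul_sum, ← Finset.sum_sub_distrib, Finset.mul_sum]
        apply Finset.sum_congr rfl
        intro j _
        field_simp
        ring
      rw [e]
      apply Finset.sum_le_sum
      intro j hj
      have hj' := mem_range.mp hj
      have htj := tn_pos j
      apply mul_le_mul_of_nonneg_left _ (by positivity)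
      exact mul_le_mul_of_nonneg_left (hnear j hj') htj.le
    refine le_trans ?_ h3
    apply mul_le_mul_of_nonneg_left _ hΨ0.le
    have h4 : ∑ j ∈ range h, ((L : ℝ) + j + 1) * (((j : ℝ) + 1) * tn j) ≤ 2 * L * V := by
      rw [hV, Finset.mul_sum]
      apply Finset.sum_le_sum
      intro j hj
      have hj' := mem_range.mp hj
      have htj := tn_pos j
      apply mul_le_mul_of_nonneg_right _ (by positivity)
      have : L + j + 1 ≤ 2 * L := by omega
      exact_mod_cast this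
    have h5 : κ * ((∑ j ∈ range h, ((L : ℝ) + j + 1) * (((j : ℝ) + 1) * tn j)) / y) ≤
        κ * ((2 * L * V) / y) := by
      apply mul_le_mul_of_nonneg_left _ hκ
      exact div_le_div_of_nonneg_right h4 hy0.le
    linarith
  obtain ⟨μ, hμ⟩ : ∃ μ : ℝ, μ = L / √y := ⟨_, rfl⟩
  have hμ0 : 0 < μ := by rw [hμ]; positivity
  have hμ1 : μ ≤ y / K := by
    rw [hμ, div_le_div_iff₀ hs hK0]
    linarith
  have hsy : √y ≤ y / K := by
    rw [le_div_iff₀ hK0]
    nlinarith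
  have hb1 : q * (L * E) - P * (14.8 * μ + 2.2 * √y) ≤ q * (L * T + V) := by
    have h3 : L * E - 14.8 * μ ≤ L * T + V := by
      have h4 : L * (E - T) ≤ L * (14.8 / √y) := mul_le_mul_of_nonneg_left hT2 hL0.le
      have h5 : L * (14.8 / √y) = 14.8 * μ := by rw [hμ]; ring
      linarith
    have h4 : L * T + V ≤ L * E + 2.2 * √y := by
      have := mul_le_mul_of_nonneg_left hT1 hL0.le
      linarith
    have h5 : -(14.8 * μ) ≤ (L * T + V) - L * E := by linarith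
    have h6 : (L * T + V) - L * E ≤ 2.2 * √y := by linarith
    obtain ⟨δ, hδ⟩ : ∃ δ : ℝ, δ = (L * T + V) - L * E := ⟨_, rfl⟩
    have e : q * (L * T + V) = q * (L * E) + q * δ := by rw [hδ]; ring
    rw [e]
    rw [← hδ] at h5 h6
    have h7 : |q * δ| ≤ P * (14.8 * μ + 2.2 * √y) := by
      rw [abs_mul]
      apply mul_le_mul (abs_le.mpr ⟨hq1, hq2⟩) _ (abs_nonneg _) hP
      rw [abs_le]
      constructor
      · linarith
      · linarith
    have h8 := neg_abs_le (q * δ)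
    linarith
  have hb2 : κ * ((2 * L * V) / y) ≤ κ * (4.4 * μ) := by
    apply mul_le_mul_of_nonneg_left _ hκ
    rw [div_le_iff₀ hy0]
    have h3 : 2 * L * V ≤ 2 * L * (2.2 * √y) := mul_le_mul_of_nonneg_left hV1 (by positivity)
    have h5 : μ * √y = L := by
      rw [hμ]
      field_simp
    have h4 : 4.4 * μ * y = 2 * L * (2.2 * √y) := by
      calc 4.4 * μ * y = 4.4 * μ * (√y * √y) := by rw [hss]
        _ = 4.4 * (μ * √y) * √y := by ring
        _ = 4.4 * L * √y := by rw [h5]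
        _ = _ := by ring
    linarith
  have hb3 : P * (14.8 * μ + 2.2 * √y) + κ * (4.4 * μ) + E * (y * q) ≤ y / 2000 := by
    have h3 : P * (14.8 * μ + 2.2 * √y) ≤ P * (17 * (y / K)) := by
      apply mul_le_mul_of_nonneg_left _ hP
      linarith
    have h4 : κ * (4.4 * μ) ≤ κ * (4.4 * (y / K)) := by
      apply mul_le_mul_of_nonneg_left _ hκ
      linarith
    have h5 : y * (E * q + (17 * P + 4.4 * κ) / K) ≤ y * (1 / 2000) :=
      mul_le_mul_of_nonneg_left hcond hy0.le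
    have e : y * (E * q + (17 * P + 4.4 * κ) / K) = P * (17 * (y / K)) + κ * (4.4 * (y / K)) + E * (y * q) := by
      ring
    linarith
  have hfarΨ : 1 / 2000 * (1 / (√(L : ℝ) * (y * y * √y))) = Ψ * (y / 2000) := by
    rw [hΨ]
    unfold Psi
    field_simp
  rw [hfarΨ] at hfar
  have hfin : E * (((L : ℝ) + y) * (Ψ * q)) ≤ E * (((L : ℝ) + y) * bb L (m + 1)) := by
    rw [hy] at *
    refine le_trans ?_ hrec
    have h3 : Ψ * (q * (L * E) - P * (14.8 * μ + 2.2 * √((m : ℝ) + 1)) - κ * (4.4 * μ)) ≤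
        Ψ * (q * (L * T + V) - κ * ((2 * L * V) / ((m : ℝ) + 1))) :=
      mul_le_mul_of_nonneg_left (by linarith) hΨ0.le
    have h4 : Ψ * (P * (14.8 * μ + 2.2 * √((m : ℝ) + 1)) + κ * (4.4 * μ) + E * (((m : ℝ) + 1) * q)) ≤
        Ψ * (((m : ℝ) + 1) / 2000) := mul_le_mul_of_nonneg_left hb3 hΨ0.le
    have e : E * (((L : ℝ) + ((m : ℝ) + 1)) * (Ψ * q)) =
        Ψ * (q * (L * E) - P * (14.8 * μ + 2.2 * √((m : ℝ) + 1)) - κ * (4.4 * μ)) +
        Ψ * (P * (14.8 * μ + 2.2 * √((m : ℝ) + 1)) + κ * (4.4 * μ) + E * (((m : ℝ) + 1) * q)) := by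
      ring
    linarith
  have hN : (0 : ℝ) < (L : ℝ) + y := by positivity
  exact le_of_mul_le_mul_left (le_of_mul_le_mul_left hfin (by linarith)) hN

lemma Psi_shift (L : ℕ) (hL : 1 ≤ L) {y s : ℝ} (hy : 0 < y) (hs0 : 0 ≤ s) (hs : s ≤ y / 2) :
    Psi L (y - s) ≤ Psi L y * (1 + 30 * (s / y)) := by
  have hl : 0 < √(L : ℝ) := Real.sqrt_pos.mpr (by exact_mod_cast hL)
  obtain ⟨u, hu⟩ : ∃ u, u = s / y := ⟨_, rfl⟩
  have hsu : s = u * y := by rw [hu]; field_simp
  have hu0 : 0 ≤ u := by rw [hu]; positivity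
  have hu1 : u ≤ 1 / 2 := by rw [hu, div_le_iff₀ hy]; linarith
  rw [← hu, hsu]
  have e1 : y - u * y = (1 - u) * y := by ring
  have hq : 0 < 1 - u := by linarith
  have hs1 : 0 < √y := Real.sqrt_pos.mpr hy
  have h1 : (1 - u) * √y ≤ √((1 - u) * y) := by
    apply Real.le_sqrt_of_sq_le
    rw [mul_pow, Real.sq_sqrt hy.le]
    nlinarith
  rw [e1]
  unfold Psi
  have h2 : (1 - u) ^ 4 * (y * y * y * √y * √(L : ℝ)) ≤
      (1 - u) * y * ((1 - u) * y) * ((1 - u) * y) * √((1 - u) * y) * √(L : ℝ) := by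
    apply le_trans (b := (1 - u) * y * ((1 - u) * y) * ((1 - u) * y) * ((1 - u) * √y) * √(L : ℝ))
    · apply le_of_eq
      ring
    · apply mul_le_mul_of_nonneg_right _ hl.le
      exact mul_le_mul_of_nonneg_left h1 (by positivity)
  have hp : 0 < (1 - u) ^ 4 * (y * y * y * √y * √(L : ℝ)) := by positivity
  refine (one_div_le_one_div_of_le hp h2).trans ?_
  rw [div_mul_eq_mul_div, one_mul, div_le_div_iff₀ hp (by positivity)]
  have h3 : 1 ≤ (1 + 30 * u) * (1 - u) ^ 4 := by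
    have h4 : 1 / 4 ≤ (1 - u) ^ 2 := by nlinarith
    have h5 : (1 - u) ^ 2 ≤ 1 := by nlinarith
    have h6 : (1 - u) ^ 4 = (1 - u) ^ 2 * (1 - u) ^ 2 := by ring
    have h7 : (1 - 2 * u) ^ 2 ≤ 1 := by nlinarith
    -- (1-u)^4 ≥ 1 - 4u + 6u² - 4u³
    have h8 : (1 - u) ^ 4 = 1 - 4 * u + 6 * u ^ 2 - 4 * u ^ 3 + u ^ 4 := by ring
    have e : (1 + 30 * u) * (1 - u) ^ 4 - 1 =
        u * (26 - 114 * u + 176 * u ^ 2 - 119 * u ^ 3 + 30 * u ^ 4) := by ring
    have h9 : 0 ≤ 26 - 114 * u + 176 * u ^ 2 - 119 * u ^ 3 + 30 * u ^ 4 := by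
      have h10 : 0 ≤ 1 / 2 - u := by linarith
      nlinarith [mul_nonneg h10 (mul_nonneg hu0 hu0), mul_nonneg h10 hu0, sq_nonneg (u * (1 - 2 * u)),
        sq_nonneg (1 - 2 * u), mul_nonneg (mul_nonneg h10 h10) hu0, pow_nonneg hu0 3, pow_nonneg hu0 4]
    nlinarith [mul_nonneg hu0 h9]
  have hpos : 0 < y * y * y * √y * √(L : ℝ) := by positivity
  nlinarith

lemma Psi_anti (L : ℕ) (hL : 1 ≤ L) {y s : ℝ} (hs0 : 0 ≤ s) (hs : s < y) :
    Psi L y ≤ Psi L (y - s) := by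
  have hl : 0 < √(L : ℝ) := Real.sqrt_pos.mpr (by exact_mod_cast hL)
  have hy : 0 < y := by linarith
  have hy' : 0 < y - s := by linarith
  have h1 : √(y - s) ≤ √y := Real.sqrt_le_sqrt (by linarith)
  have h2 : 0 < √(y - s) := Real.sqrt_pos.mpr hy'
  unfold Psi
  apply one_div_le_one_div_of_le (by positivity)
  apply mul_le_mul_of_nonneg_right _ hl.le
  apply mul_le_mul _ h1 h2.le (by positivity)
  have h3 : (y - s) * (y - s) ≤ y * y := mul_le_mul (by linarith) (by linarith) hy'.le hy.le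
  exact mul_le_mul h3 (by linarith) hy'.le (by positivity)

end Pool.Agent.MP_9da1e3_co
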