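import Pool.Agent.Lib.MP_9da1e3_co.Big1

namespace Pool.Agent.MP_9da1e3_co

/-- `r_{k+1}` -/
noncomputable def r4k (k : ℕ) : ℝ := (k : ℝ) ^ k / (((k + 1).factorial : ℝ) * E ^ (k + 1))

/-- `(T²)_k` -/
noncomputable def T2 (k : ℕ) : ℝ :=
  2 * ((k : ℝ) + 2) ^ k / (((k : ℝ) + 2) * (k.factorial : ℝ) * E ^ k)

end Pool.Agent.MP_9da1e3_co
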