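import Pool.Agent.Lib.MP_9da1e3_co.Lin47
import Pool.Agent.Lib.MP_9da1e3_co.V2_r4defs
import Pool.Agent.Lib.MP_9da1e3_co.Rj23

namespace Pool.Agent.MP_9da1e3_co

open Finset

lemma T2_eq_TS2 (k : ℕ) : T2 k = TS2 k := by
  unfold T2 TS2 tn tt
  rw [Nat.add_sub_cancel, Nat.factorial_succ k, pow_succ E k]
  have hE := E_pos
  have hf : (0 : ℝ) < (k.factorial : ℝ) := by positivity
  have hp := pow_pos hE k
  push_cast
  have h1 : (0 : ℝ) < (k : ℝ) + 1 := by positivity
  have h2 : (0 : ℝ) < (k : ℝ) + 2 := by positivity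
  have e : (k : ℝ) + 1 + 1 = (k : ℝ) + 2 := by ring
  rw [e]
  field_simp

lemma gg_rho (L : ℕ) (hL : 1 ≤ L) : ∃ ρ : ℕ → ℝ, (∀ i, 0 ≤ ρ i) ∧
    ∀ k, k + 1 ≤ L → gg L k = ∑ i ∈ range (k + 1), T2 (k - i) * ρ i := by
  refine ⟨fun i => rhoL L (L + i), fun i => rhoL_nonneg L hL _, ?_⟩
  intro k hk
  rw [gg_eq_TS2 L k (by omega)]
  apply Finset.sum_congr rfl
  intro i _
  rw [T2_eq_TS2]
  ring

lemma rn_eq_rj (L k : ℕ) (hk : k + 1 ≤ L) : rn L (k + 1) = rj k := by
  rw [rn_explicit L k hk]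
  unfold rj
  rw [div_div]

/-! ### series vanishing up to an order -/

def Van (K : ℕ) (A : PowerSeries ℝ) : Prop := ∀ k, k < K → PowerSeries.coeff k A = 0

lemma Van.mul {K M : ℕ} {A B : PowerSeries ℝ} (hA : Van K A) (hB : Van M B) :
    Van (K + M) (A * B) := by
  intro k hk
  rw [lin_coeff_mul_range]
  apply Finset.sum_eq_zero
  intro i hi
  have hi' := mem_range.mp hi
  rcases Nat.lt_or_ge i K with h | h
  · rw [hA i h, zero_mul]
  · rw [hB (k - i) (by omega), mul_zero]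

lemma Van.add {K : ℕ} {A B : PowerSeries ℝ} (hA : Van K A) (hB : Van K B) : Van K (A + B) := by
  intro k hk
  rw [map_add, hA k hk, hB k hk, add_zero]

lemma Van.mono {K M : ℕ} {A : PowerSeries ℝ} (h : M ≤ K) (hA : Van K A) : Van M A :=
  fun k hk => hA k (lt_of_lt_of_le hk h)

lemma Van.mul_left {K : ℕ} {A : PowerSeries ℝ} (B : PowerSeries ℝ) (hA : Van K A) :
    Van K (B * A) := by
  have h : Van 0 B := fun k hk => absurd hk (Nat.not_lt_zero k)
  have := h.mul hA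
  rwa [zero_add] at this

/-- the series of `An L` -/
noncomputable def AP (L : ℕ) : PowerSeries ℝ := FF (L + 1) - FF L

lemma coeff_AP (L n : ℕ) : PowerSeries.coeff n (AP L) = An L n := coeff_A L n

lemma AP_van (L : ℕ) : Van (L + 1) (AP L) := by
  intro k hk
  rw [coeff_AP, An_zero L k (by omega)]

lemma FQ_van (L : ℕ) : Van L (FF (L + 1) - QQ L) := by
  intro k hk
  rw [map_sub, coeff_FF, coeff_QQ, if_pos hk, Fn_eq_tn (L + 1) k (by omega), sub_self]

lemma FQ_van' (L : ℕ) : Van (L + 1) (FF (L + 1) - QQ (L + 1)) := by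
  intro k hk
  rw [map_sub, coeff_FF, coeff_QQ, if_pos hk, Fn_eq_tn (L + 1) k (by omega), sub_self]

lemma QQ_succ (L : ℕ) : QQ (L + 1) = QQ L + PowerSeries.C (tn L) * PowerSeries.X ^ L := by
  ext n
  rw [map_add, coeff_QQ, coeff_QQ, PowerSeries.coeff_C_mul, PowerSeries.coeff_X_pow]
  rcases Nat.lt_trichotomy n L with h | h | h
  · rw [if_pos (by omega), if_pos h, if_neg (by omega)]
    ring
  · rw [if_pos (by omega), if_neg (by omega), if_pos h, h]
    ring
  · rw [if_neg (by omega), if_neg (by omega), if_neg (by omega)]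
    ring

/-- `z = B / F_{L+1}` with `B` the second difference -/
noncomputable def zB (L : ℕ) : PowerSeries ℝ := (AP (L + 1) - AP L) * (FF (L + 1))⁻¹

lemma zB_ode (L : ℕ) : ∃ W : PowerSeries ℝ, Van (2 * L + 1) W ∧
    PowerSeries.C E * PowerSeries.derivative ℝ (zB L) =
    PowerSeries.C ((L : ℝ) + 2) * (AP (L + 1) - AP L) + PowerSeries.C (2 : ℝ) * AP L -
      PowerSeries.C (tn L) * PowerSeries.X ^ L + W := by
  obtain ⟨u, hu⟩ : ∃ u, u = (FF (L + 1))⁻¹ := ⟨_, rfl⟩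
  obtain ⟨a, ha⟩ : ∃ a, a = AP L := ⟨_, rfl⟩
  obtain ⟨p, hp⟩ : ∃ p, p = AP (L + 1) := ⟨_, rfl⟩
  obtain ⟨F, hF⟩ : ∃ F, F = FF (L + 1) := ⟨_, rfl⟩
  have h1 : F * u = 1 := by rw [hF, hu]; exact FF_mul_inv (L + 1)
  have f0 : FF L = F - a := by rw [hF, ha]; unfold AP; ring
  have f2 : FF (L + 1 + 1) = F + p := by rw [hF, hp]; unfold AP; ring
  refine ⟨u * (p * (F - QQ (L + 1)) + a * (F - QQ L) + PowerSeries.C ((L : ℝ) + 2) * (p * p) +
    PowerSeries.C (L : ℝ) * (a * a)), ?_, ?_⟩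
  · apply Van.mul_left
    have va : Van (L + 1) a := by rw [ha]; exact AP_van L
    have vp : Van (L + 1 + 1) p := by rw [hp]; exact AP_van (L + 1)
    have v1 : Van (2 * L + 1) (p * (F - QQ (L + 1))) := by
      rw [hF]
      exact (vp.mul (FQ_van' L)).mono (by omega)
    have v2 : Van (2 * L + 1) (a * (F - QQ L)) := by
      rw [hF]
      exact (va.mul (FQ_van L)).mono (by omega)
    have v3 : Van (2 * L + 1) (PowerSeries.C ((L : ℝ) + 2) * (p * p)) :=
      ((vp.mul vp).mono (by omega)).mul_left _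
    have v4 : Van (2 * L + 1) (PowerSeries.C (L : ℝ) * (a * a)) :=
      ((va.mul va).mono (by omega)).mul_left _
    exact ((v1.add v2).add v3).add v4
  · have o0 := FF_ode L
    have o2 := FF_ode (L + 1 + 1)
    have ou := inv_ode (L + 1)
    have hz : zB L = (FF (L + 1 + 1) + FF L) * u - 2 := by
      unfold zB
      rw [← hu, ← hp, ← ha, f0, f2]
      have : (p - a) * u = (F + p + (F - a)) * u - 2 * (F * u) := by ring
      rw [this, h1]
      ring
    have hd : PowerSeries.derivative ℝ (zB L) =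
        (PowerSeries.derivative ℝ (FF (L + 1 + 1)) + PowerSeries.derivative ℝ (FF L)) * u +
        (FF (L + 1 + 1) + FF L) * PowerSeries.derivative ℝ u := by
      rw [hz, map_sub, Derivation.leibniz, map_add]
      have h2 : PowerSeries.derivative ℝ (2 : PowerSeries ℝ) = 0 := by
        have : (2 : PowerSeries ℝ) = PowerSeries.C (2 : ℝ) := by rw [map_ofNat]
        rw [this, PowerSeries.derivative_C]
      rw [h2]
      simp only [smul_eq_mul]
      ring
    have c2 : PowerSeries.C (((L + 1 + 1 : ℕ)) : ℝ) = PowerSeries.C (L : ℝ) + (2 : PowerSeries ℝ) := by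
      have : (2 : PowerSeries ℝ) = PowerSeries.C (2 : ℝ) := by rw [map_ofNat]
      rw [this, ← map_add]
      congr 1
      push_cast
      ring
    have c1 : PowerSeries.C (((L + 1 : ℕ)) : ℝ) = PowerSeries.C (L : ℝ) + (1 : PowerSeries ℝ) := by
      push_cast
      rw [map_add, map_one]
    have c3 : PowerSeries.C ((L : ℝ) + 2) = PowerSeries.C (L : ℝ) + (2 : PowerSeries ℝ) := by
      have : (2 : PowerSeries ℝ) = PowerSeries.C (2 : ℝ) := by rw [map_ofNat]
      rw [this, ← map_add]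
    have c4 : PowerSeries.C (2 : ℝ) = (2 : PowerSeries ℝ) := by rw [map_ofNat]
    rw [c2] at o2
    rw [← hu, c1] at ou
    obtain ⟨l, hl⟩ : ∃ l : PowerSeries ℝ, l = PowerSeries.C (L : ℝ) := ⟨_, rfl⟩
    have hP1 : linPP (L + 1) = linPP L + QQ L := linPP_succ L
    have hP2 : linPP (L + 1 + 1) = linPP (L + 1) + QQ (L + 1) := linPP_succ (L + 1)
    have hQ : PowerSeries.C (tn L) * PowerSeries.X ^ L = QQ (L + 1) - QQ L := by
      rw [QQ_succ]; ring
    rw [hd, ← hp, ← ha, c3, c4, hQ]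
    rw [← hl] at o0 o2 ou ⊢
    have e1 : PowerSeries.C E * ((PowerSeries.derivative ℝ (FF (L + 1 + 1)) +
        PowerSeries.derivative ℝ (FF L)) * u +
        (FF (L + 1 + 1) + FF L) * PowerSeries.derivative ℝ u) =
        (PowerSeries.C E * PowerSeries.derivative ℝ (FF (L + 1 + 1)) +
        PowerSeries.C E * PowerSeries.derivative ℝ (FF L)) * u +
        (FF (L + 1 + 1) + FF L) * (PowerSeries.C E * PowerSeries.derivative ℝ u) := by ring
    rw [e1, o0, o2, ou, f0, f2, hP2, hP1]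
    have h1' : F * u - 1 = 0 := by rw [h1]; ring
    obtain ⟨P, hPd⟩ : ∃ P, P = linPP L := ⟨_, rfl⟩
    obtain ⟨Q0, hQ0⟩ : ∃ Q, Q = QQ L := ⟨_, rfl⟩
    obtain ⟨Q1, hQ1⟩ : ∃ Q, Q = QQ (L + 1) := ⟨_, rfl⟩
    rw [← hPd, ← hQ0, ← hQ1]
    linear_combination (2 * l * F + 2 * l * p - 2 * l * a + 3 * p + 2 * F - a + Q0 - Q1) * h1'

lemma coeff_zB (L n : ℕ) : PowerSeries.coeff n (zB L) =
    -∑ j ∈ range (n + 1), Bn L j * rn (L + 1) (n - j) := by
  unfold zB
  rw [lin_coeff_mul_range, ← Finset.sum_neg_distrib]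
  apply Finset.sum_congr rfl
  intro j _
  rw [map_sub, coeff_AP, coeff_AP]
  unfold Bn rn
  ring

lemma bb_eq_Bn' (L m : ℕ) : bb L (m + 1) = Bn L (L + m + 1) := by
  rw [bb_succ]
  unfold Bn gg
  have q : L + 1 + m = L + m + 1 := by ring
  have q2 : L + (m + 1) = L + m + 1 := by ring
  rw [q, q2]

lemma Bn_zero' (L n : ℕ) (h : n ≤ L) : Bn L n = 0 := by
  unfold Bn
  rw [An_zero L n h, An_zero (L + 1) n (by omega), sub_zero]

/-- helper1's form of the recursion in the linear range -/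
lemma Bn_rj (L n : ℕ) (h1 : L + 1 ≤ n) (h2 : n ≤ 2 * L) : E * (((n : ℝ) + 1) * Bn L (n + 1)) =
    ((L : ℝ) + 2) * Bn L n + 2 * An L n +
      E * ((n : ℝ) + 1) * ∑ j ∈ range (n + 1), Bn L j * rn (L + 1) (n + 1 - j) := by
  obtain ⟨W, hW, h⟩ := zB_ode L
  have hc := congrArg (PowerSeries.coeff n) h
  rw [PowerSeries.coeff_C_mul, PowerSeries.coeff_derivative, coeff_zB, map_add, map_sub, map_add,
    PowerSeries.coeff_C_mul, PowerSeries.coeff_C_mul, PowerSeries.coeff_C_mul,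
    PowerSeries.coeff_X_pow, if_neg (by omega), mul_zero, sub_zero, hW n (by omega), add_zero,
    map_sub, coeff_AP, coeff_AP, Finset.sum_range_succ _ (n + 1), Nat.sub_self, rn_zero] at hc
  unfold Bn at hc ⊢
  linarith

lemma bb_rj (L m : ℕ) (h1 : 1 ≤ m) (h : m + 1 ≤ L) : E * (((L : ℝ) + (m + 1)) * bb L (m + 1)) =
    ((L : ℝ) + 2) * bb L m + 2 * gg L m +
      E * ((L : ℝ) + (m + 1)) * ∑ k ∈ range m, rj k * bb L (m - k) := by
  have hr := Bn_rj L (L + m) (by omega) (by omega)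
  have e0 : bb L (m + 1) = Bn L (L + m + 1) := bb_eq_Bn' L m
  have e1 : bb L m = Bn L (L + m) := by
    obtain ⟨q, rfl⟩ : ∃ q, m = q + 1 := ⟨m - 1, by omega⟩
    exact bb_eq_Bn' L q
  have e2 : gg L m = An L (L + m) := rfl
  have e3 : ∑ j ∈ range (L + m + 1), Bn L j * rn (L + 1) (L + m + 1 - j) =
      ∑ k ∈ range m, rj k * bb L (m - k) := by
    have e4 : L + m + 1 = (L + 1) + m := by ring
    rw [e4, Finset.sum_range_add]
    have z : ∑ j ∈ range (L + 1), Bn L j * rn (L + 1) (L + 1 + m - j) = 0 := by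
      apply Finset.sum_eq_zero
      intro j hj
      rw [Bn_zero' L j (by have := mem_range.mp hj; omega), zero_mul]
    rw [z, zero_add, ← Finset.sum_range_reflect]
    apply Finset.sum_congr rfl
    intro k hk
    have hk' := mem_range.mp hk
    have q1 : L + 1 + m - (L + 1 + (m - 1 - k)) = k + 1 := by omega
    have q2 : L + 1 + (m - 1 - k) = L + (m - 1 - k) + 1 := by omega
    have q3 : m - 1 - k + 1 = m - k := by omega
    rw [q1, rn_eq_rj (L + 1) k (by omega), q2, ← bb_eq_Bn', q3]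
    ring
  rw [e0, e1, e2]
  rw [e3] at hr
  have e5 : (((L + m : ℕ) : ℝ) + 1) = (L : ℝ) + (m + 1) := by push_cast; ring
  rw [e5] at hr
  exact hr

/-! ### the same with `r4k` (V2_r4defs) -/

lemma r4k_rj_a12 (k : ℕ) : rj k = r4k k := by
  unfold rj r4k
  rw [div_div]

lemma rn_eq_r4k (L k : ℕ) (hk : k + 1 ≤ L) : rn L (k + 1) = r4k k := by
  rw [rn_eq_rj L k hk, r4k_rj_a12]

lemma bb_r4k (L m : ℕ) (h1 : 1 ≤ m) (h : m + 1 ≤ L) :
    E * (((L : ℝ) + (m + 1)) * bb L (m + 1)) =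
    ((L : ℝ) + 2) * bb L m + 2 * gg L m +
      E * ((L : ℝ) + (m + 1)) * ∑ k ∈ range m, r4k k * bb L (m - k) := by
  rw [bb_rj L m h1 h]
  congr 2
  exact Finset.sum_congr rfl fun k _ => by rw [r4k_rj_a12]

end Pool.Agent.MP_9da1e3_co
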