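import Pool.Agent.Lib.MP_9da1e3_co.Kn2
import Pool.Agent.Lib.MP_9da1e3_co.Lf5

namespace Pool.Agent.MP_9da1e3_co

open Finset

lemma bb_eq_Bn (L r : ℕ) (hr : 1 ≤ r) : bb L r = Bn L (L + r) := by
  obtain ⟨m, rfl⟩ : ∃ m, r = m + 1 := ⟨r - 1, by omega⟩
  rw [bb_succ]
  unfold gg Bn
  have h : L + 1 + m = L + (m + 1) := by omega
  rw [h]

lemma Bn_eq_Fr (L n : ℕ) : Bn L n =
    ((Fr (L + 2) n : ℝ) + Fr L n - 2 * Fr (L + 1) n) / ((n.factorial : ℝ) * E ^ n) := by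
  have h1 : (0 : ℝ) < n.factorial := by exact_mod_cast Nat.factorial_pos n
  have h2 : (0 : ℝ) < E ^ n := pow_pos E_pos n
  unfold Bn An Fn f
  field_simp
  ring

lemma Bn_nonneg_iff (L n : ℕ) : 0 ≤ Bn L n ↔ 2 * Fr (L + 1) n ≤ Fr (L + 2) n + Fr L n := by
  rw [Bn_eq_Fr]
  have h1 : (0 : ℝ) < n.factorial := by exact_mod_cast Nat.factorial_pos n
  have h2 : (0 : ℝ) < E ^ n := pow_pos E_pos n
  have h3 : (0 : ℝ) < (n.factorial : ℝ) * E ^ n := mul_pos h1 h2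
  constructor
  · intro h
    have h4 : 0 ≤ (Fr (L + 2) n : ℝ) + Fr L n - 2 * Fr (L + 1) n := by
      by_contra hc
      push Not at hc
      have := div_neg_of_neg_of_pos hc h3
      linarith
    have h5 : (2 : ℝ) * Fr (L + 1) n ≤ Fr (L + 2) n + Fr L n := by linarith
    exact_mod_cast h5
  · intro h
    have h5 : (2 : ℝ) * Fr (L + 1) n ≤ Fr (L + 2) n + Fr L n := by exact_mod_cast h
    exact div_nonneg (by linarith) h3.le

lemma Bn_neg_iff (L n : ℕ) : Bn L n < 0 ↔ Fr (L + 2) n + Fr L n < 2 * Fr (L + 1) n := by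
  constructor
  · intro h
    by_contra hc
    push Not at hc
    have := (Bn_nonneg_iff L n).2 hc
    linarith
  · intro h
    by_contra hc
    push Not at hc
    have := (Bn_nonneg_iff L n).1 hc
    omega

lemma bb_one_neg (L : ℕ) (hL : 1 ≤ L) : bb L 1 < 0 := by
  have h0 : bb L (0 + 1) = gg (L + 1) 0 - gg L (0 + 1) := bb_succ L 0
  rw [zero_add] at h0
  rw [h0, gg_zero]
  have h1 : 0 < gg L 1 := by
    have h2 := gg_rec L 0 (by omega)
    simp only [zero_add, Finset.sum_range_one, Nat.cast_zero, SS, Nat.sub_self, gg_zero, HH_zero,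
      mul_zero] at h2
    have h3 : 0 < tn 0 * tn L := mul_pos (tn_pos 0) (tn_pos L)
    rw [← h2] at h3
    have hE := E_pos
    have hL0 : (0 : ℝ) ≤ L := Nat.cast_nonneg L
    by_contra hc
    push Not at hc
    have h4 : ((L : ℝ) + (0 + 1)) * gg L 1 ≤ 0 := mul_nonpos_of_nonneg_of_nonpos (by linarith) hc
    have h5 := mul_nonpos_of_nonneg_of_nonpos hE.le h4
    simp only [zero_add] at h5
    linarith
  linarith

/-- the large levels, from the five rows -/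
theorem large_asm
    (R1 : ∀ L M : ℕ, 1000 ≤ L → (M : ℝ) ^ 3 ≤ (0.8 * (L : ℝ)) ^ 2 →
      (∀ r, 1 ≤ r → r ≤ M → bb L r < 0) → ∀ r, 2 ≤ r → r ≤ M → bb (L + 1) (r - 1) ≤ bb L r)
    (R2 : ∀ L : ℕ, 1000 ≤ L → ∃ y : ℕ, 1 ≤ y ∧ (y : ℝ) ^ 3 ≤ (0.8 * (L : ℝ)) ^ 2 ∧ 0 ≤ bb L y)
    (R34 : ∀ L m0 d : ℕ, 1000 ≤ L → 1 ≤ m0 → ((m0 : ℝ) + 1) ^ 3 ≤ (0.8 * (L : ℝ)) ^ 2 →
      (∀ r, 1 ≤ r → r ≤ m0 → bb L r < 0) → 1 ≤ d → m0 + d + 1 ≤ L →
      (∀ r, m0 < r → r ≤ m0 + d → 0 ≤ bb L r) → 0 ≤ bb L (m0 + d + 1))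
    (R5 : ∀ L m0 : ℕ, 1000 ≤ L → 1 ≤ m0 → ((m0 : ℝ) + 1) ^ 3 ≤ (0.8 * (L : ℝ)) ^ 2 →
      (∀ r, 1 ≤ r → r ≤ m0 → bb L r < 0) → (∀ r, m0 < r → r ≤ L → 0 ≤ bb L r) →
      ∀ n, L + m0 < n → 0 ≤ Bn L n) :
    ∃ nuA : ℕ → ℕ, (∀ L, 1000 ≤ L → L + 1 < nuA L) ∧ (∀ L, 1000 ≤ L → nuA L ≤ nuA (L + 1)) ∧
      (∀ L n, 1000 ≤ L → L < n → n < nuA L → Fr (L + 2) n + Fr L n < 2 * Fr (L + 1) n) ∧
      (∀ L n, 1000 ≤ L → nuA L ≤ n → 2 * Fr (L + 1) n ≤ Fr (L + 2) n + Fr L n) ∧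
      (∀ M : ℕ, (∀ r, 1 ≤ r → r ≤ M → bb 1000 r < 0) → 1000 + M < nuA 1000) := by
  classical
  have hex : ∀ L : ℕ, 1000 ≤ L → ∃ y, 1 ≤ y ∧ 0 ≤ bb L y := by
    intro L hL
    obtain ⟨y, h1, _, h3⟩ := R2 L hL
    exact ⟨y, h1, h3⟩
  let ys : ℕ → ℕ := fun L => if h : ∃ y, 1 ≤ y ∧ 0 ≤ bb L y then Nat.find h else 0
  have hys : ∀ L, 1000 ≤ L → 1 ≤ ys L ∧ 0 ≤ bb L (ys L) ∧
      (∀ r, 1 ≤ r → r < ys L → bb L r < 0) ∧ ((ys L : ℕ) : ℝ) ^ 3 ≤ (0.8 * (L : ℝ)) ^ 2 := by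
    intro L hL
    have h := hex L hL
    have e : ys L = Nat.find h := by
      simp only [ys]
      rw [dif_pos h]
    have hs := Nat.find_spec h
    rw [← e] at hs
    refine ⟨hs.1, hs.2, ?_, ?_⟩
    · intro r hr hr2
      rw [e] at hr2
      have h2 := Nat.find_min h hr2
      by_contra hc
      push Not at hc
      exact h2 ⟨hr, hc⟩
    · obtain ⟨y, h1, h2, h3⟩ := R2 L hL
      have h4 : ys L ≤ y := by
        rw [e]
        exact Nat.find_min' h ⟨h1, h3⟩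
      have h5 : ((ys L : ℕ) : ℝ) ≤ y := by exact_mod_cast h4
      exact le_trans (pow_le_pow_left₀ (Nat.cast_nonneg _) h5 3) h2
  have hys2 : ∀ L, 1000 ≤ L → 2 ≤ ys L := by
    intro L hL
    obtain ⟨h1, h2, _, _⟩ := hys L hL
    rcases Nat.lt_or_ge (ys L) 2 with h | h
    · have : ys L = 1 := by omega
      rw [this] at h2
      have := bb_one_neg L (by omega)
      linarith
    · exact h
  have hcube : ∀ L, 1000 ≤ L → (((ys L - 1 : ℕ) : ℝ) + 1) ^ 3 ≤ (0.8 * (L : ℝ)) ^ 2 := by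
    intro L hL
    have h2 := hys2 L hL
    have e : ((ys L - 1 : ℕ) : ℝ) + 1 = ((ys L : ℕ) : ℝ) := by
      rw [Nat.cast_sub (by omega)]
      push_cast
      ring
    rw [e]
    exact (hys L hL).2.2.2
  have hneg : ∀ L, 1000 ≤ L → ∀ r, 1 ≤ r → r ≤ ys L - 1 → bb L r < 0 := by
    intro L hL r h1 h2
    have := hys2 L hL
    exact (hys L hL).2.2.1 r h1 (by omega)
  have hposL : ∀ L, 1000 ≤ L → ∀ k, ∀ r, r = ys L - 1 + 1 + k → r ≤ L → 0 ≤ bb L r := by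
    intro L hL k
    induction k using Nat.strong_induction_on with
    | _ k ih =>
      intro r hr hrL
      have h2 := hys2 L hL
      rcases Nat.eq_zero_or_pos k with hk | hk
      · subst hk
        have e : r = ys L := by omega
        rw [e]
        exact (hys L hL).2.1
      · have := R34 L (ys L - 1) k hL (by omega) (hcube L hL) (hneg L hL) hk (by omega) ?_
        · have e : ys L - 1 + k + 1 = r := by omega
          rw [e] at this
          exact this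
        · intro q hq1 hq2
          exact ih (q - (ys L - 1 + 1)) (by omega) q (by omega) (by omega)
  have hall : ∀ L, 1000 ≤ L → ∀ n, L + (ys L - 1) < n → 0 ≤ Bn L n := by
    intro L hL
    have h2 := hys2 L hL
    refine R5 L (ys L - 1) hL (by omega) (hcube L hL) (hneg L hL) ?_
    intro r h3 h4
    exact hposL L hL (r - (ys L - 1 + 1)) r (by omega) h4
  refine ⟨fun L => L + ys L, ?_, ?_, ?_, ?_, ?_⟩
  · intro L hL
    have := hys2 L hL
    show L + 1 < L + ys L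
    omega
  · intro L hL
    show L + ys L ≤ L + 1 + ys (L + 1)
    have h2 := hys2 L hL
    have h0 : ((ys L - 1 : ℕ) : ℝ) ^ 3 ≤ (0.8 * (L : ℝ)) ^ 2 := by
      refine le_trans (pow_le_pow_left₀ (Nat.cast_nonneg _) ?_ 3) (hcube L hL)
      linarith
    have h1 := R1 L (ys L - 1) (by omega) h0 (hneg L hL)
    have h3 := hys (L + 1) (by omega)
    by_contra hc
    push Not at hc
    have h4 := h1 (ys (L + 1) + 1) (by omega) (by omega)
    have h5 := hneg L hL (ys (L + 1) + 1) (by omega) (by omega)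
    rw [Nat.add_sub_cancel] at h4
    linarith [h3.2.1]
  · intro L n hL h1 h2
    have h2' : n < L + ys L := h2
    obtain ⟨r, rfl⟩ : ∃ r, n = L + r := ⟨n - L, by omega⟩
    rw [← Bn_neg_iff, ← bb_eq_Bn L r (by omega)]
    exact (hys L hL).2.2.1 r (by omega) (by omega)
  · intro L n hL h1
    have h1' : L + ys L ≤ n := h1
    have h2 := hys2 L hL
    rw [← Bn_nonneg_iff]
    exact hall L hL n (by omega)
  · intro M hneg9
    show 1000 + M < 1000 + ys 1000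
    have h3 := hys 1000 le_rfl
    by_contra hc
    push Not at hc
    have h5 := hneg9 (ys 1000) h3.1 (by omega)
    linarith [h3.2.1]

end Pool.Agent.MP_9da1e3_co
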