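import Pool.Agent.Lib.MP_9da1e3_co.Lf1
import Pool.Agent.Lib.MP_9da1e3_co.Ct2

/-! The sequence `Fn L` decays at the rate `1 + 3/(2L)` at every place. -/

namespace Pool.Agent.MP_9da1e3_co

open Finset

/-- sharp one-step ratio of `tn` -/
lemma tn_ratio_step (k : ℕ) : (1 + 3 / (2 * ((k : ℝ) + 1))) * tn (k + 1) ≤ tn k := by
  have h := rk_le k
  have h1 := ww_succ k
  have e1 := ww_eq_tn k
  have e2 := ww_eq_tn (k + 1)
  have hE := E_pos
  have ht := tn_pos k
  have hk : (0 : ℝ) ≤ k := Nat.cast_nonneg k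
  push_cast at e2
  rw [e1, e2] at h1
  have h2 : ((k : ℝ) + 2) * tn (k + 1) = rk k * (((k : ℝ) + 1) * (tn k / E)) := by
    rw [← h1]
    field_simp
    ring
  have h3 : rk k * (2 * (k : ℝ) + 5) ≤ 2 * E * ((k : ℝ) + 2) := by
    have h4 := mul_le_mul_of_nonneg_right h (show (0 : ℝ) ≤ (k : ℝ) + 2 by positivity)
    have e : rk k * (2 + 1 / ((k : ℝ) + 2)) * ((k : ℝ) + 2) = rk k * (2 * (k : ℝ) + 5) := by
      field_simp
      ring
    rw [e] at h4
    exact h4
  have h5 : ((k : ℝ) + 2) * ((2 * (k : ℝ) + 5) * tn (k + 1)) ≤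
      ((k : ℝ) + 2) * (2 * ((k : ℝ) + 1) * tn k) := by
    have h6 := mul_le_mul_of_nonneg_right h3 (show (0 : ℝ) ≤ ((k : ℝ) + 1) * (tn k / E) by positivity)
    have e3 : rk k * (2 * (k : ℝ) + 5) * (((k : ℝ) + 1) * (tn k / E)) =
        (2 * (k : ℝ) + 5) * (((k : ℝ) + 2) * tn (k + 1)) := by
      rw [h2]
      ring
    have e4 : 2 * E * ((k : ℝ) + 2) * (((k : ℝ) + 1) * (tn k / E)) =
        ((k : ℝ) + 2) * (2 * ((k : ℝ) + 1) * tn k) := by
      field_simp
    rw [e3, e4] at h6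
    linarith
  have h7 := le_of_mul_le_mul_left h5 (by positivity)
  have e5 : (1 + 3 / (2 * ((k : ℝ) + 1))) * tn (k + 1) =
      ((2 * (k : ℝ) + 5) * tn (k + 1)) / (2 * ((k : ℝ) + 1)) := by
    field_simp
    ring
  rw [e5, div_le_iff₀ (by positivity)]
  linarith

lemma tele_one (u : ℕ → ℝ) (th : ℝ) (M : ℕ) :
    ∑ y ∈ range M, th ^ (y + 1) * (u y - th * u (y + 1)) = th * u 0 - th ^ (M + 1) * u M := by
  induction M with
  | zero => simp
  | succ M ih =>
    rw [Finset.sum_range_succ, ih]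
    ring

lemma tele_two (u : ℕ → ℝ) (th : ℝ) (a b : ℕ) (h : a ≤ b) :
    ∑ y ∈ Ico a b, (u y - th * u (y + 1)) =
      u a - u b - (th - 1) * ∑ y ∈ Ico (a + 1) (b + 1), u y := by
  induction b, h using Nat.le_induction with
  | base => simp
  | succ b hb ih =>
    rw [Finset.sum_Ico_succ_top hb, ih, Finset.sum_Ico_succ_top (show a + 1 ≤ b + 1 by omega)]
    ring

lemma rate_bdd (u : ℕ → ℝ) (th : ℝ) (hth : 0 ≤ th) (x : ℕ)
    (ih : ∀ k, k < x → th * u (k + 1) ≤ u k) (y d : ℕ) (h : y + d ≤ x) :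
    th ^ d * u (y + d) ≤ u y := by
  induction d with
  | zero => simp
  | succ d ihd =>
    have h1 := mul_le_mul_of_nonneg_left (ih (y + d) (by omega)) (pow_nonneg hth d)
    have e : th ^ (d + 1) * u (y + (d + 1)) = th ^ d * (th * u (y + d + 1)) := by
      rw [pow_succ]
      ring_nf
    rw [e]
    exact h1.trans (ihd (by omega))

lemma step_abs (u : ℕ → ℝ) (L x : ℕ) (th c : ℝ) (hL : 1 ≤ L) (hx : L ≤ x) (hth : 1 ≤ th)
    (hc : 0 < c) (u0 : u 0 = 1) (hu : ∀ k, 0 ≤ u k)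
    (rec : c * (((x : ℝ) + 1) * u (x + 1)) =
      ∑ k ∈ range (x + 1), ((min L (k + 1) : ℕ) : ℝ) * (u k * u (x - k)))
    (rec' : c * ((x : ℝ) * u x) =
      ∑ k ∈ range x, ((min L (k + 1) : ℕ) : ℝ) * (u k * u (x - 1 - k)))
    (ih : ∀ k, k < x → th * u (k + 1) ≤ u k)
    (hcE : ∀ k : ℕ, k < L → (L : ℝ) * u (L - 1) ≤ ((k : ℝ) + 1) * u k)
    (hQ : (L : ℝ) * th ^ (x - L + 1) *
      (u x + (th - 1) * ∑ y ∈ Ico (x - L + 1) (x + 1), u y) ≤ c) :
    th * u (x + 1) ≤ u x := by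
  have hth0 : (0 : ℝ) ≤ th := by linarith
  have hL0 : (0 : ℝ) ≤ L := Nat.cast_nonneg L
  have hS : ∑ k ∈ range x, ((min L (k + 1) : ℕ) : ℝ) * u k * (u (x - 1 - k) - th * u (x - k)) =
      ∑ y ∈ range x, ((min L (x - 1 - y + 1) : ℕ) : ℝ) * u (x - 1 - y) * (u y - th * u (y + 1)) := by
    rw [← Finset.sum_range_reflect]
    apply Finset.sum_congr rfl
    intro y hy
    have hy' := mem_range.mp hy
    have e1 : x - 1 - (x - 1 - y) = y := by omega
    have e2 : x - (x - 1 - y) = y + 1 := by omega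
    rw [e1, e2]
  have hlow : ∑ y ∈ range x, (L : ℝ) * u x * th ^ (min y (x - L) + 1) * (u y - th * u (y + 1)) ≤
      ∑ y ∈ range x, ((min L (x - 1 - y + 1) : ℕ) : ℝ) * u (x - 1 - y) * (u y - th * u (y + 1)) := by
    apply Finset.sum_le_sum
    intro y hy
    have hy' := mem_range.mp hy
    apply mul_le_mul_of_nonneg_right _ (by have := ih y hy'; linarith)
    rcases Nat.lt_or_ge (x - L) y with h | h
    · have e1 : min y (x - L) = x - L := by omega
      have e2 : min L (x - 1 - y + 1) = x - 1 - y + 1 := by omega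
      rw [e1, e2]
      have h3 := hcE (x - 1 - y) (by omega)
      have h4 := rate_bdd u th hth0 x ih (L - 1) (x - L + 1) (by omega)
      have e3 : L - 1 + (x - L + 1) = x := by omega
      rw [e3] at h4
      have h5 := mul_le_mul_of_nonneg_left h4 hL0
      push_cast
      calc (L : ℝ) * u x * th ^ (x - L + 1) = L * (th ^ (x - L + 1) * u x) := by ring
        _ ≤ L * u (L - 1) := h5
        _ ≤ _ := h3
    · have e1 : min y (x - L) = y := by omega
      have e2 : min L (x - 1 - y + 1) = L := by omega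
      rw [e1, e2]
      have h4 := rate_bdd u th hth0 x ih (x - 1 - y) (y + 1) (by omega)
      have e3 : x - 1 - y + (y + 1) = x := by omega
      rw [e3] at h4
      have h5 := mul_le_mul_of_nonneg_left h4 hL0
      calc (L : ℝ) * u x * th ^ (y + 1) = L * (th ^ (y + 1) * u x) := by ring
        _ ≤ L * u (x - 1 - y) := h5
  have hval : ∑ y ∈ range x, (L : ℝ) * u x * th ^ (min y (x - L) + 1) * (u y - th * u (y + 1)) =
      (L : ℝ) * u x * (th - th ^ (x - L + 1) *
        (u x + (th - 1) * ∑ y ∈ Ico (x - L + 1) (x + 1), u y)) := by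
    have e0 : ∑ y ∈ range x, (L : ℝ) * u x * th ^ (min y (x - L) + 1) * (u y - th * u (y + 1)) =
        (L : ℝ) * u x * ∑ y ∈ range x, th ^ (min y (x - L) + 1) * (u y - th * u (y + 1)) := by
      rw [Finset.mul_sum]
      exact Finset.sum_congr rfl fun y _ => by ring
    rw [e0]
    congr 1
    rw [Finset.range_eq_Ico, ← Finset.sum_Ico_consecutive _ (Nat.zero_le (x - L + 1))
      (show x - L + 1 ≤ x by omega)]
    have e1 : ∑ y ∈ Ico 0 (x - L + 1), th ^ (min y (x - L) + 1) * (u y - th * u (y + 1)) =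
        ∑ y ∈ range (x - L + 1), th ^ (y + 1) * (u y - th * u (y + 1)) := by
      rw [Finset.range_eq_Ico]
      apply Finset.sum_congr rfl
      intro y hy
      have hy' := Finset.mem_Ico.mp hy
      have : min y (x - L) = y := by omega
      rw [this]
    have e2 : ∑ y ∈ Ico (x - L + 1) x, th ^ (min y (x - L) + 1) * (u y - th * u (y + 1)) =
        th ^ (x - L + 1) * ∑ y ∈ Ico (x - L + 1) x, (u y - th * u (y + 1)) := by
      rw [Finset.mul_sum]
      apply Finset.sum_congr rfl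
      intro y hy
      have hy' := Finset.mem_Ico.mp hy
      have : min y (x - L) = x - L := by omega
      rw [this]
    rw [e1, e2, tele_one, tele_two u th (x - L + 1) x (by omega), u0]
    have e3 : ∑ y ∈ Ico (x - L + 1) (x + 1), u y =
        u (x - L + 1) + ∑ y ∈ Ico (x - L + 1 + 1) (x + 1), u y :=
      Finset.sum_eq_sum_Ico_succ_bot (by omega) _
    rw [e3]
    ring
  rw [hval, ← hS] at hlow
  have hrec : c * ((x : ℝ) * u x) - th * (c * (((x : ℝ) + 1) * u (x + 1))) =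
      ∑ k ∈ range x, ((min L (k + 1) : ℕ) : ℝ) * u k * (u (x - 1 - k) - th * u (x - k)) -
        th * (L * u x) := by
    rw [rec, rec', Finset.sum_range_succ]
    have e1 : min L (x + 1) = L := by omega
    rw [Nat.sub_self, u0, e1, mul_add, Finset.mul_sum]
    have e2 : ∑ k ∈ range x, ((min L (k + 1) : ℕ) : ℝ) * u k * (u (x - 1 - k) - th * u (x - k)) =
        ∑ k ∈ range x, ((min L (k + 1) : ℕ) : ℝ) * (u k * u (x - 1 - k)) -
        ∑ k ∈ range x, th * (((min L (k + 1) : ℕ) : ℝ) * (u k * u (x - k))) := by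
      rw [← Finset.sum_sub_distrib]
      exact Finset.sum_congr rfl fun k _ => by ring
    rw [e2]
    ring
  have h6 := mul_le_mul_of_nonneg_left hQ (hu x)
  have h7 : c * ((x : ℝ) + 1) * (th * u (x + 1)) ≤ c * ((x : ℝ) + 1) * u x := by
    nlinarith
  exact le_of_mul_le_mul_left h7 (by positivity)

lemma pow_le_lin (th : ℝ) (hth : 1 ≤ th) (y : ℕ) :
    th ^ y ≤ 1 + (y : ℝ) * (th - 1) * th ^ y := by
  induction y with
  | zero => simp
  | succ y ih =>
    have h0 : (0 : ℝ) ≤ th := by linarith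
    have hp : (0 : ℝ) ≤ th ^ y := pow_nonneg h0 y
    have h1 : th ^ y ≤ th ^ (y + 1) := pow_le_pow_right₀ hth (by omega)
    have hy : (0 : ℝ) ≤ y := Nat.cast_nonneg y
    have h2 : ((y : ℝ) + 1) * (th - 1) * th ^ y ≤ ((y : ℝ) + 1) * (th - 1) * th ^ (y + 1) :=
      mul_le_mul_of_nonneg_left h1 (mul_nonneg (by linarith) (by linarith))
    have e : th ^ (y + 1) = th ^ y + (th - 1) * th ^ y := by
      rw [pow_succ]
      ring
    push_cast
    linarith

lemma pow_L_le (L : ℕ) (hL : 1 ≤ L) (th : ℝ) (hth : (L : ℝ) * (th - 1) = 3 / 2) (h0 : 0 ≤ th) :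
    th ^ L ≤ 4.49 := by
  have hLp : (0 : ℝ) < L := by exact_mod_cast hL
  have h1 : th ≤ Real.exp (3 / 2 / L) := by
    have h2 := Real.add_one_le_exp (3 / 2 / (L : ℝ))
    have e : th = 3 / 2 / (L : ℝ) + 1 := by
      rw [← hth]
      field_simp
      ring
    rw [e]
    exact h2
  have h3 : th ^ L ≤ Real.exp (3 / 2 / L) ^ L := pow_le_pow_left₀ h0 h1 L
  rw [← Real.exp_nat_mul] at h3
  have e2 : (L : ℝ) * (3 / 2 / L) = 3 / 2 := by field_simp
  rw [e2] at h3
  have h4 : Real.exp (3 / 2) ^ 2 = E ^ 3 := by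
    unfold E
    rw [← Real.exp_nat_mul, ← Real.exp_nat_mul]
    norm_num
  have h5 := E_le
  have h6 := E_pos
  have h7 : E ^ 3 ≤ 2.7183 ^ 3 := pow_le_pow_left₀ h6.le h5 3
  have h8 : Real.exp (3 / 2) ^ 2 ≤ 4.49 ^ 2 := by
    rw [h4]
    refine h7.trans ?_
    norm_num
  have h9 := abs_le_of_sq_le_sq' h8 (by norm_num)
  linarith [h9.2]

lemma sum_tn_Ico_one (x : ℕ) : ∑ y ∈ Ico 1 (x + 1), tn y ≤ E - 1 := by
  have h := sum_tn_le (x + 1)
  rw [Finset.range_eq_Ico, Finset.sum_eq_sum_Ico_succ_bot (by omega), tn_zero] at h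
  linarith

lemma tn_three_sum : 0.7036 ≤ tn 1 + tn 2 + tn 3 := by
  have h5 := E_le
  have h6 := E_pos
  have e1 : tn 1 = 1 / E := by
    unfold tn tt
    norm_num
  have e2 : tn 2 = 3 / 2 / E ^ 2 := by
    unfold tn tt
    norm_num [Nat.factorial]
  have e3 : tn 3 = 8 / 3 / E ^ 3 := by
    unfold tn tt
    norm_num [Nat.factorial]
  rw [e1, e2, e3]
  have a1 : 1 / (2.7183 : ℝ) ≤ 1 / E := one_div_le_one_div_of_le h6 h5
  have a2 : 3 / 2 / (2.7183 : ℝ) ^ 2 ≤ 3 / 2 / E ^ 2 :=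
    div_le_div_of_nonneg_left (by norm_num) (by positivity) (pow_le_pow_left₀ h6.le h5 2)
  have a3 : 8 / 3 / (2.7183 : ℝ) ^ 3 ≤ 8 / 3 / E ^ 3 :=
    div_le_div_of_nonneg_left (by norm_num) (by positivity) (pow_le_pow_left₀ h6.le h5 3)
  have b : (0.7036 : ℝ) ≤ 1 / 2.7183 + 3 / 2 / 2.7183 ^ 2 + 8 / 3 / 2.7183 ^ 3 := by norm_num
  linarith

lemma sum_tn_Ico_four (L : ℕ) (hL : 3 ≤ L) : ∑ y ∈ Ico 4 (L + 1), tn y ≤ E - 1.7036 := by
  have h := sum_tn_le (L + 1)
  rw [Finset.range_eq_Ico, Finset.sum_eq_sum_Ico_succ_bot (by omega),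
    Finset.sum_eq_sum_Ico_succ_bot (by omega), Finset.sum_eq_sum_Ico_succ_bot (by omega),
    Finset.sum_eq_sum_Ico_succ_bot (by omega), tn_zero] at h
  have h2 := tn_three_sum
  norm_num at h ⊢
  linarith

lemma L_tn_le (L : ℕ) (hL : 1000 ≤ L) : (L : ℝ) * tn L ≤ 0.0349 := by
  have h := succ_tn_le L
  have ht := tn_pos L
  have hLr : (1000 : ℝ) ≤ L := by exact_mod_cast hL
  have h2 : (31.6 : ℝ) ≤ sq L := by
    unfold sq
    apply Real.le_sqrt_of_sq_le
    nlinarith
  have h3 : 1.1 / sq L ≤ 1.1 / 31.6 := div_le_div_of_nonneg_left (by norm_num) (by norm_num) h2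
  have h4 : (1.1 : ℝ) / 31.6 ≤ 0.0349 := by norm_num
  have h5 : (L : ℝ) * tn L ≤ ((L : ℝ) + 1) * tn L := by
    apply mul_le_mul_of_nonneg_right _ ht.le
    linarith
  linarith

lemma sqrt_L_le (L : ℕ) (hL : 1000 ≤ L) : √((L + 1 : ℕ) : ℝ) ≤ 0.03166 * L := by
  have hLr : (1000 : ℝ) ≤ L := by exact_mod_cast hL
  apply Real.sqrt_le_iff.mpr
  constructor
  · positivity
  · push_cast
    nlinarith

/-- the bound of the boundary terms -/
lemma Q_bound (L : ℕ) (hL : 1000 ≤ L) (x : ℕ) (hx : L ≤ x) (th : ℝ)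
    (hth : (L : ℝ) * (th - 1) = 3 / 2) (ih : ∀ k, k < x → th * Fn L (k + 1) ≤ Fn L k) :
    (L : ℝ) * th ^ (x - L + 1) *
      (Fn L x + (th - 1) * ∑ y ∈ Ico (x - L + 1) (x + 1), Fn L y) ≤ E := by
  have hLr : (1000 : ℝ) ≤ L := by exact_mod_cast hL
  have hLp : (0 : ℝ) < L := by linarith
  have hth1 : 1 < th := by
    by_contra hc
    have hc := not_lt.mp hc
    have : (L : ℝ) * (th - 1) ≤ 0 := mul_nonpos_of_nonneg_of_nonpos hLp.le (by linarith)
    linarith
  have hth0 : (0 : ℝ) ≤ th := by linarith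
  have hth2 : th ≤ 1.0015 := by
    have h1 : (1000 : ℝ) * (th - 1) ≤ L * (th - 1) :=
      mul_le_mul_of_nonneg_right hLr (by linarith)
    linarith
  have hE := E_ge
  have hE2 := E_le
  have hLt := L_tn_le L hL
  have hpL := pow_L_le L (by omega) th hth hth0
  have htL := tn_pos L
  have h1 := rate_bdd (Fn L) th hth0 x ih L (x - L) (by omega)
  have e1 : L + (x - L) = x := by omega
  rw [e1, Fn_eq_tn L L le_rfl] at h1
  -- the first part
  have hfirst : (L : ℝ) * th ^ (x - L + 1) * Fn L x ≤ 0.03496 := by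
    have h2 : (L : ℝ) * th ^ (x - L + 1) * Fn L x = th * (L * (th ^ (x - L) * Fn L x)) := by
      rw [pow_succ]
      ring
    rw [h2]
    have h3 := mul_le_mul_of_nonneg_left h1 hLp.le
    have h4 : th * (L * (th ^ (x - L) * Fn L x)) ≤ th * 0.0349 :=
      mul_le_mul_of_nonneg_left (h3.trans hLt) hth0
    linarith
  have hsplit : (L : ℝ) * th ^ (x - L + 1) *
      (Fn L x + (th - 1) * ∑ y ∈ Ico (x - L + 1) (x + 1), Fn L y) =
      (L : ℝ) * th ^ (x - L + 1) * Fn L x +
        (3 / 2) * (th ^ (x - L + 1) * ∑ y ∈ Ico (x - L + 1) (x + 1), Fn L y) := by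
    rw [← hth]
    ring
  rw [hsplit]
  rcases Nat.lt_or_ge (x - L) 3 with hY | hY
  · -- small
    have h2 : ∑ y ∈ Ico (x - L + 1) (x + 1), Fn L y ≤ E - 1 := by
      refine le_trans (Finset.sum_le_sum fun y _ => Fn_le_tn L y) ?_
      refine le_trans (Finset.sum_le_sum_of_subset_of_nonneg ?_ ?_) (sum_tn_Ico_one x)
      · exact Finset.Ico_subset_Ico (by omega) le_rfl
      · intro y _ _
        exact (tn_pos y).le
    have h3 : th ^ (x - L + 1) ≤ 1.0046 := by
      have h4 : th ^ (x - L + 1) ≤ th ^ 3 := pow_le_pow_right₀ hth1.le (by omega)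
      have h5 : th ^ 3 ≤ 1.0015 ^ 3 := pow_le_pow_left₀ hth0 hth2 3
      have h6 : (1.0015 : ℝ) ^ 3 ≤ 1.0046 := by norm_num
      linarith
    have h4 : th ^ (x - L + 1) * ∑ y ∈ Ico (x - L + 1) (x + 1), Fn L y ≤ 1.0046 * (E - 1) := by
      apply mul_le_mul h3 h2 (Finset.sum_nonneg fun y _ => Fn_nonneg L y) (by norm_num)
    linarith
  · have hterm : ∀ y ∈ Ico (x - L + 1) (x + 1), th ^ (x - L + 1) * Fn L y ≤
        (if y ≤ L then th ^ y * tn y else 0) + th ^ L * tn L := by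
      intro y hy
      have hy' := Finset.mem_Ico.mp hy
      split_ifs with hyL
      · rw [Fn_eq_tn L y hyL]
        have h2 : th ^ (x - L + 1) ≤ th ^ y := pow_le_pow_right₀ hth1.le (by omega)
        have h3 := mul_le_mul_of_nonneg_right h2 (tn_pos y).le
        have h4 : 0 ≤ th ^ L * tn L := mul_nonneg (pow_nonneg hth0 L) htL.le
        linarith
      · have h2 := rate_bdd (Fn L) th hth0 x ih L (y - L) (by omega)
        have e2 : L + (y - L) = y := by omega
        rw [e2, Fn_eq_tn L L le_rfl] at h2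
        have h3 : th ^ (x - L + 1) ≤ th ^ y := pow_le_pow_right₀ hth1.le (by omega)
        have h4 := mul_le_mul_of_nonneg_right h3 (Fn_nonneg L y)
        have e3 : th ^ y * Fn L y = th ^ L * (th ^ (y - L) * Fn L y) := by
          rw [← mul_assoc, ← pow_add]
          congr 2
          omega
        rw [e3] at h4
        have h5 := mul_le_mul_of_nonneg_left h2 (pow_nonneg hth0 L)
        linarith
    have hsum := Finset.sum_le_sum hterm
    rw [← Finset.mul_sum, Finset.sum_add_distrib, Finset.sum_const, Nat.card_Ico] at hsum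
    have e4 : x + 1 - (x - L + 1) = L := by omega
    rw [e4, nsmul_eq_mul] at hsum
    have hA : ∑ y ∈ Ico (x - L + 1) (x + 1), (if y ≤ L then th ^ y * tn y else 0) ≤
        ∑ y ∈ Ico 4 (L + 1), th ^ y * tn y := by
      rw [← Finset.sum_filter]
      apply Finset.sum_le_sum_of_subset_of_nonneg
      · intro y hy
        have h2 := Finset.mem_filter.mp hy
        have h3 := Finset.mem_Ico.mp h2.1
        exact Finset.mem_Ico.mpr ⟨by omega, by omega⟩
      · intro y _ _
        exact mul_nonneg (pow_nonneg hth0 y) (tn_pos y).le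
    have hB : ∑ y ∈ Ico 4 (L + 1), th ^ y * tn y ≤
        ∑ y ∈ Ico 4 (L + 1), tn y + (th - 1) * th ^ L * ∑ y ∈ Ico 4 (L + 1), ((y : ℝ) + 1) * tn y := by
      rw [Finset.mul_sum, ← Finset.sum_add_distrib]
      apply Finset.sum_le_sum
      intro y hy
      have hy' := Finset.mem_Ico.mp hy
      have h2 := pow_le_lin th hth1.le y
      have h3 : th ^ y ≤ th ^ L := pow_le_pow_right₀ hth1.le (by omega)
      have hy0 : (0 : ℝ) ≤ y := Nat.cast_nonneg y
      have h4 : (y : ℝ) * (th - 1) * th ^ y ≤ ((y : ℝ) + 1) * (th - 1) * th ^ L := by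
        apply mul_le_mul _ h3 (pow_nonneg hth0 y) (mul_nonneg (by linarith) (by linarith))
        apply mul_le_mul_of_nonneg_right _ (by linarith)
        linarith
      have h5 := mul_le_mul_of_nonneg_right (h2.trans (add_le_add_right h4 1)) (tn_pos y).le
      linarith
    have hC : ∑ y ∈ Ico 4 (L + 1), ((y : ℝ) + 1) * tn y ≤ 0.069652 * L := by
      have h2 := sum_succ_tn_le (L + 1)
      have h3 : ∑ y ∈ Ico 4 (L + 1), ((y : ℝ) + 1) * tn y ≤
          ∑ y ∈ range (L + 1), ((y : ℝ) + 1) * tn y := by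
        apply Finset.sum_le_sum_of_subset_of_nonneg
        · intro y hy
          have h3 := Finset.mem_Ico.mp hy
          exact mem_range.mpr (by omega)
        · intro y _ _
          have := tn_pos y
          positivity
      have h4 := sqrt_L_le L hL
      linarith
    have hD : (th - 1) * th ^ L * ∑ y ∈ Ico 4 (L + 1), ((y : ℝ) + 1) * tn y ≤ 0.4692 := by
      have h2 : (th - 1) * th ^ L * ∑ y ∈ Ico 4 (L + 1), ((y : ℝ) + 1) * tn y ≤
          (th - 1) * th ^ L * (0.069652 * L) :=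
        mul_le_mul_of_nonneg_left hC (mul_nonneg (by linarith) (pow_nonneg hth0 L))
      have e5 : (th - 1) * th ^ L * (0.069652 * L) = 0.069652 * th ^ L * (L * (th - 1)) := by ring
      rw [e5, hth] at h2
      linarith
    have hG := sum_tn_Ico_four L (by omega)
    have hH : (L : ℝ) * (th ^ L * tn L) ≤ 0.1568 := by
      have h2 : (L : ℝ) * (th ^ L * tn L) = th ^ L * (L * tn L) := by ring
      rw [h2]
      have h3 : th ^ L * (L * tn L) ≤ 4.49 * 0.0349 :=
        mul_le_mul hpL hLt (by positivity) (by norm_num)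
      linarith
    linarith

/-- the decay of `Fn L`, at every place -/
theorem F_rate (L : ℕ) (hL : 1000 ≤ L) :
    ∀ x : ℕ, (1 + 3 / (2 * (L : ℝ))) * Fn L (x + 1) ≤ Fn L x := by
  have hLr : (1000 : ℝ) ≤ L := by exact_mod_cast hL
  have hLp : (0 : ℝ) < L := by linarith
  intro x
  induction x using Nat.strong_induction_on with
  | _ x ih =>
    rcases Nat.lt_or_ge x L with h | h
    · rw [Fn_eq_tn L x h.le, Fn_eq_tn L (x + 1) h]
      refine le_trans ?_ (tn_ratio_step x)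
      apply mul_le_mul_of_nonneg_right _ (tn_pos _).le
      have h1 : ((x : ℝ) + 1) ≤ L := by exact_mod_cast h
      have h2 : 3 / (2 * (L : ℝ)) ≤ 3 / (2 * ((x : ℝ) + 1)) :=
        div_le_div_of_nonneg_left (by norm_num) (by positivity) (by linarith)
      linarith
    · obtain ⟨p, rfl⟩ : ∃ p, x = p + 1 := ⟨x - 1, by omega⟩
      have hth : (L : ℝ) * ((1 + 3 / (2 * (L : ℝ))) - 1) = 3 / 2 := by
        field_simp
        ring
      have hth1 : (1 : ℝ) ≤ 1 + 3 / (2 * (L : ℝ)) := by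
        have : (0 : ℝ) ≤ 3 / (2 * (L : ℝ)) := by positivity
        linarith
      apply step_abs (Fn L) L (p + 1) (1 + 3 / (2 * (L : ℝ))) E (by omega) h hth1 E_pos
        (Fn_zero L) (Fn_nonneg L) (Fn_rec L (p + 1))
      · have h1 := Fn_rec L p
        have e : ((p + 1 : ℕ) : ℝ) = (p : ℝ) + 1 := by push_cast; ring
        rw [e, h1]
        apply Finset.sum_congr rfl
        intro k _
        have e2 : p + 1 - 1 - k = p - k := by omega
        rw [e2]
      · exact ih
      · intro k hk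
        rw [Fn_eq_tn L k hk.le, Fn_eq_tn L (L - 1) (by omega)]
        have h1 := cE_le_of_le (show k ≤ L - 1 by omega)
        unfold cE at h1
        rw [Nat.cast_sub (by omega)] at h1
        push_cast at h1
        have e : (L : ℝ) - 1 + 1 = L := by ring
        rw [e] at h1
        exact h1
      · exact Q_bound L hL (p + 1) h _ hth ih

/-- iterated decay of `Fn L` -/
theorem F_rate_pow (L : ℕ) (hL : 1000 ≤ L) (x d : ℕ) :
    (1 + 3 / (2 * (L : ℝ))) ^ d * Fn L (x + d) ≤ Fn L x := by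
  have hth : (0 : ℝ) ≤ 1 + 3 / (2 * (L : ℝ)) := by positivity
  exact rate_bdd (Fn L) _ hth (x + d) (fun k _ => F_rate L hL k) x d le_rfl

/-- the decay of `F_L`, `F_(L+1)`, `F_(L+2)` at a common rate `th ≤ 1 + 3/(2(L+2))` -/
theorem F_rate_common (L : ℕ) (hL : 1000 ≤ L) (th : ℝ) (hth : th ≤ 1 + 3 / (2 * ((L : ℝ) + 2)))
    (x : ℕ) : th * Fn L (x + 1) ≤ Fn L x ∧ th * Fn (L + 1) (x + 1) ≤ Fn (L + 1) x ∧
      th * Fn (L + 2) (x + 1) ≤ Fn (L + 2) x := by
  have hLr : (1000 : ℝ) ≤ L := by exact_mod_cast hL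
  have h2 : 3 / (2 * ((L : ℝ) + 2)) ≤ 3 / (2 * (L : ℝ)) :=
    div_le_div_of_nonneg_left (by norm_num) (by positivity) (by linarith)
  have h3 : 3 / (2 * ((L : ℝ) + 2)) ≤ 3 / (2 * ((L : ℝ) + 1)) :=
    div_le_div_of_nonneg_left (by norm_num) (by positivity) (by linarith)
  refine ⟨?_, ?_, ?_⟩
  · refine le_trans ?_ (F_rate L hL x)
    exact mul_le_mul_of_nonneg_right (by linarith) (Fn_nonneg _ _)
  · refine le_trans ?_ (F_rate (L + 1) (by omega) x)
    push_cast
    exact mul_le_mul_of_nonneg_right (by linarith) (Fn_nonneg _ _)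
  · refine le_trans ?_ (F_rate (L + 2) (by omega) x)
    push_cast
    exact mul_le_mul_of_nonneg_right hth (Fn_nonneg _ _)

/-- `th ^ k * Fn L k` does not increase -/
theorem F_weight_anti (L : ℕ) (hL : 1000 ≤ L) (th : ℝ) (h0 : 0 ≤ th)
    (hth : th ≤ 1 + 3 / (2 * (L : ℝ))) {a b : ℕ} (hab : a ≤ b) :
    th ^ b * Fn L b ≤ th ^ a * Fn L a := by
  have h := rate_bdd (Fn L) th h0 b (fun k _ => le_trans
    (mul_le_mul_of_nonneg_right hth (Fn_nonneg _ _)) (F_rate L hL k)) a (b - a) (by omega)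
  have e : a + (b - a) = b := by omega
  rw [e] at h
  have h2 := mul_le_mul_of_nonneg_left h (pow_nonneg h0 a)
  have e2 : th ^ b * Fn L b = th ^ a * (th ^ (b - a) * Fn L b) := by
    rw [← mul_assoc, ← pow_add]
    congr 2
    omega
  rw [e2]
  exact h2

end Pool.Agent.MP_9da1e3_co
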