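import Pool.Agent.Lib.MP_9da1e3_co.V2_rho
import Pool.Agent.Lib.MP_9da1e3_co.V2_Drate

/-! Crude upper bounds for `sum θ^k F(k)`, and the mass of `An` from the mass of `rhoL`. -/

namespace Pool.Agent.MP_9da1e3_co

open Finset

/-- the secant bound for powers -/
lemma vc_sec (th : ℝ) (hth : 1 ≤ th) (i : ℕ) : ∀ n : ℕ, i ≤ n →
    (n : ℝ) * (th ^ i - 1) ≤ (i : ℝ) * (th ^ n - 1) := by
  intro n hn
  induction n, hn using Nat.le_induction with
  | base => exact le_rfl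
  | succ n hn ih =>
    have h1 := pow_le_lin th hth i
    have h2 : th ^ i ≤ th ^ n := pow_le_pow_right₀ hth hn
    have hi : (0 : ℝ) ≤ i := Nat.cast_nonneg i
    have h3 : (i : ℝ) * (th - 1) * th ^ i ≤ (i : ℝ) * (th - 1) * th ^ n :=
      mul_le_mul_of_nonneg_left h2 (mul_nonneg hi (by linarith))
    push_cast
    rw [pow_succ]
    nlinarith

lemma vc_pow_L (L : ℕ) (hL : 1000 ≤ L) (th : ℝ) (h1 : 1 ≤ th) (h2 : th ≤ 1 + 3 / (2 * (L : ℝ))) :
    th ^ L ≤ 4.49 := by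
  have hLr : (1000 : ℝ) ≤ L := by exact_mod_cast hL
  have h3 := pow_L_le L (by omega) (1 + 3 / (2 * (L : ℝ))) (by field_simp; ring) (by positivity)
  exact (pow_le_pow_left₀ (by linarith) h2 L).trans h3

lemma vc_pow_le (L : ℕ) (hL : 1000 ≤ L) (th : ℝ) (h1 : 1 ≤ th) (h2 : th ≤ 1 + 3 / (2 * (L : ℝ)))
    (i : ℕ) (hi : i ≤ L) : th ^ i ≤ 1 + 3.49 * (i / L) := by
  have hLr : (1000 : ℝ) ≤ L := by exact_mod_cast hL
  have h3 := vc_sec th h1 i L hi
  have h4 := vc_pow_L L hL th h1 h2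
  have hi0 : (0 : ℝ) ≤ i := Nat.cast_nonneg i
  have h5 : (L : ℝ) * (th ^ i - 1) ≤ (i : ℝ) * 3.49 := by nlinarith
  have h6 : th ^ i - 1 ≤ (i : ℝ) * 3.49 / L := by
    rw [le_div_iff₀ (by linarith)]
    linarith
  have e : (i : ℝ) * 3.49 / L = 3.49 * (i / L) := by ring
  linarith

/-- `sum_{k<d} θ^k t_k ≤ E + 0.244` for `d ≤ L + 1` -/
theorem C_low (L : ℕ) (hL : 1000 ≤ L) (th : ℝ) (h1 : 1 ≤ th) (h2 : th ≤ 1 + 3 / (2 * (L : ℝ)))
    (d : ℕ) (hd : d ≤ L + 1) : ∑ k ∈ range d, th ^ k * tn k ≤ E + 0.244 := by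
  have hLr : (1000 : ℝ) ≤ L := by exact_mod_cast hL
  have h3 : ∑ k ∈ range d, th ^ k * tn k ≤
      ∑ k ∈ range d, (tn k + 3.49 / L * (((k : ℝ) + 1) * tn k)) := by
    apply Finset.sum_le_sum
    intro k hk
    have hk' := mem_range.mp hk
    have h4 := vc_pow_le L hL th h1 h2 k (by omega)
    have t := tn_pos k
    have hk0 : (0 : ℝ) ≤ k := Nat.cast_nonneg k
    have h5 := mul_le_mul_of_nonneg_right h4 t.le
    have e : (1 + 3.49 * ((k : ℝ) / L)) * tn k = tn k + 3.49 / L * ((k : ℝ) * tn k) := by ring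
    have h6 : 3.49 / (L : ℝ) * ((k : ℝ) * tn k) ≤ 3.49 / L * (((k : ℝ) + 1) * tn k) := by
      apply mul_le_mul_of_nonneg_left _ (by positivity)
      nlinarith
    linarith
  rw [Finset.sum_add_distrib, ← Finset.mul_sum] at h3
  have h4 := sum_tn_le d
  have h5 := sum_succ_tn_le d
  have h6 : √(d : ℝ) ≤ 0.03166 * L := by
    refine le_trans (Real.sqrt_le_sqrt ?_) (sqrt_L_le L hL)
    exact_mod_cast hd
  have h7 : 3.49 / (L : ℝ) * ∑ k ∈ range d, ((k : ℝ) + 1) * tn k ≤ 0.244 := by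
    have h8 : ∑ k ∈ range d, ((k : ℝ) + 1) * tn k ≤ 2.2 * (0.03166 * L) :=
      h5.trans (mul_le_mul_of_nonneg_left h6 (by norm_num))
    calc 3.49 / (L : ℝ) * ∑ k ∈ range d, ((k : ℝ) + 1) * tn k
        ≤ 3.49 / (L : ℝ) * (2.2 * (0.03166 * L)) := mul_le_mul_of_nonneg_left h8 (by positivity)
      _ = 3.49 * 2.2 * 0.03166 := by field_simp
      _ ≤ _ := by norm_num
  linarith

/-- `sum_{k<d} θ^k F_L(k) ≤ E + 0.244 + 0.157 s` for `d ≤ (1+s) L + 1` -/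
theorem C_F (L : ℕ) (hL : 1000 ≤ L) (th : ℝ) (h1 : 1 ≤ th) (h2 : th ≤ 1 + 3 / (2 * (L : ℝ)))
    (d : ℕ) (s : ℝ) (hs : 0 ≤ s) (hd : (d : ℝ) ≤ (1 + s) * L + 1) :
    ∑ k ∈ range d, th ^ k * Fn L k ≤ E + 0.244 + 0.157 * s := by
  have hLr : (1000 : ℝ) ≤ L := by exact_mod_cast hL
  have hth0 : (0 : ℝ) ≤ th := by linarith
  rcases Nat.lt_or_ge (L + 1) d with hc | hc
  · obtain ⟨x, rfl⟩ : ∃ x, d = (L + 1) + x := ⟨d - (L + 1), by omega⟩
    rw [Finset.sum_range_add]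
    have h3 : ∑ k ∈ range (L + 1), th ^ k * Fn L k ≤ E + 0.244 := by
      refine le_trans (Finset.sum_le_sum fun k _ => ?_) (C_low L hL th h1 h2 (L + 1) le_rfl)
      exact mul_le_mul_of_nonneg_left (Fn_le_tn L k) (pow_nonneg hth0 k)
    have h4 : ∑ k ∈ range x, th ^ (L + 1 + k) * Fn L (L + 1 + k) ≤
        ∑ k ∈ range x, 4.49 * tn L := by
      apply Finset.sum_le_sum
      intro k _
      have h5 := F_weight_anti L hL th hth0 h2 (a := L) (b := L + 1 + k) (by omega)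
      have h6 := vc_pow_L L hL th h1 h2
      refine h5.trans ?_
      exact mul_le_mul h6 (Fn_le_tn L L) (Fn_nonneg _ _) (by norm_num)
    rw [Finset.sum_const, card_range, nsmul_eq_mul] at h4
    have h7 := L_tn_le L hL
    have t := tn_pos L
    have hx : (x : ℝ) ≤ s * L := by
      push_cast at hd
      linarith
    have h8 : (x : ℝ) * (4.49 * tn L) ≤ 0.157 * s := by
      calc (x : ℝ) * (4.49 * tn L) ≤ (s * L) * (4.49 * tn L) :=
            mul_le_mul_of_nonneg_right hx (by positivity)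
        _ = s * (4.49 * ((L : ℝ) * tn L)) := by ring
        _ ≤ s * (4.49 * 0.0349) :=
            mul_le_mul_of_nonneg_left (mul_le_mul_of_nonneg_left h7 (by norm_num)) hs
        _ ≤ _ := by nlinarith
    linarith
  · refine le_trans (Finset.sum_le_sum fun k _ => mul_le_mul_of_nonneg_left (Fn_le_tn L k)
      (pow_nonneg hth0 k)) (le_trans (C_low L hL th h1 h2 d hc) ?_)
    nlinarith

/-- a truncated convolution -/
lemma vc_conv_le (x y : ℕ → ℝ) (hx : ∀ i, 0 ≤ x i) (hy : ∀ i, 0 ≤ y i) (N : ℕ) :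
    ∑ m ∈ range N, ∑ k ∈ range (m + 1), x k * y (m - k) ≤
      (∑ i ∈ range N, x i) * ∑ i ∈ range N, y i := by
  have h0 := Finset.sum_range_diag_flip N (fun a b => x a * y b)
  rw [h0, Finset.sum_mul]
  apply Finset.sum_le_sum
  intro a _
  rw [← Finset.mul_sum]
  apply mul_le_mul_of_nonneg_left _ (hx a)
  apply Finset.sum_le_sum_of_subset_of_nonneg
  · exact Finset.range_subset_range.mpr (by omega)
  · intro i _ _
    exact hy i

/-- the weighted mass of `F_L F_{L+1}` -/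
theorem ps_sum_le (L d : ℕ) (θ : ℝ) (hθ : 0 ≤ θ) :
    ∑ i ∈ range d, θ ^ i * PowerSeries.coeff i (FF L * FF (L + 1)) ≤
      (∑ i ∈ range d, θ ^ i * Fn L i) * ∑ i ∈ range d, θ ^ i * Fn (L + 1) i := by
  refine le_trans (le_of_eq ?_) (vc_conv_le (fun i => θ ^ i * Fn L i)
    (fun i => θ ^ i * Fn (L + 1) i) (fun i => mul_nonneg (pow_nonneg hθ i) (Fn_nonneg _ _))
    (fun i => mul_nonneg (pow_nonneg hθ i) (Fn_nonneg _ _)) d)
  apply Finset.sum_congr rfl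
  intro m _
  rw [lin_coeff_mul_range, Finset.mul_sum]
  apply Finset.sum_congr rfl
  intro k hk
  have hk' := mem_range.mp hk
  rw [coeff_FF, coeff_FF]
  have e : θ ^ m = θ ^ k * θ ^ (m - k) := by
    rw [← pow_add]
    congr 1
    omega
  simp only [e]
  ring

/-- the weighted mass of `An` is at most `C` times the weighted mass of `rhoL`, if the weighted
mass of `F_L F_{L+1}` is at most `C` -/
theorem ps_mass (L d : ℕ) (hL : 1 ≤ L) (θ C : ℝ) (hθ : 0 ≤ θ)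
    (hC : ∑ i ∈ range d, θ ^ i * PowerSeries.coeff i (FF L * FF (L + 1)) ≤ C) :
    ∑ i ∈ range d, θ ^ i * An L (L + 1 + i) ≤
      C * ∑ i ∈ range d, θ ^ i * rhoL L (L + 1 + i) := by
  have h1 : ∑ i ∈ range d, θ ^ i * An L (L + 1 + i) = ∑ m ∈ range d, ∑ k ∈ range (m + 1),
      (fun a b => (θ ^ a * rhoL L (L + 1 + a)) *
        (θ ^ b * PowerSeries.coeff b (FF L * FF (L + 1)))) k (m - k) := by
    apply Finset.sum_congr rfl
    intro m _
    rw [An_rho_win, Finset.mul_sum]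
    apply Finset.sum_congr rfl
    intro k hk
    have hk' := mem_range.mp hk
    have e : θ ^ m = θ ^ k * θ ^ (m - k) := by
      rw [← pow_add]
      congr 1
      omega
    simp only [e]
    ring
  have h0 := Finset.sum_range_diag_flip d (fun a b => (θ ^ a * rhoL L (L + 1 + a)) *
        (θ ^ b * PowerSeries.coeff b (FF L * FF (L + 1))))
  rw [h1.trans h0]
  calc ∑ m ∈ range d, ∑ k ∈ range (d - m), (θ ^ m * rhoL L (L + 1 + m)) *
        (θ ^ k * PowerSeries.coeff k (FF L * FF (L + 1)))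
      ≤ ∑ m ∈ range d, (θ ^ m * rhoL L (L + 1 + m)) * C := by
        apply Finset.sum_le_sum
        intro m _
        rw [← Finset.mul_sum]
        apply mul_le_mul_of_nonneg_left _
          (mul_nonneg (pow_nonneg hθ m) (rhoL_nonneg L hL _))
        refine le_trans ?_ hC
        apply Finset.sum_le_sum_of_subset_of_nonneg
        · exact Finset.range_subset_range.mpr (by omega)
        · intro i _ _
          exact mul_nonneg (pow_nonneg hθ i) (coeff_FFFF_nonneg L i)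
    _ = _ := by
        rw [← Finset.sum_mul]
        ring

/-- numbers: `sum_{i<d} θ^i (F_L F_{L+1})_i ≤ (E + 0.244 + 0.157 s)²` for `d ≤ (1+s) L + 1`,
`L ≥ 1000`, `θ ≤ 1 + 3/(2(L+1))` -/
theorem ps_sum_num (L : ℕ) (hL : 1000 ≤ L) (th : ℝ) (h1 : 1 ≤ th)
    (h2 : th ≤ 1 + 3 / (2 * ((L : ℝ) + 1))) (d : ℕ) (s : ℝ) (hs : 0 ≤ s)
    (hd : (d : ℝ) ≤ (1 + s) * L + 1) :
    ∑ i ∈ range d, th ^ i * PowerSeries.coeff i (FF L * FF (L + 1)) ≤
      (E + 0.244 + 0.157 * s) ^ 2 := by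
  have hLr : (1000 : ℝ) ≤ L := by exact_mod_cast hL
  have hE := E_pos
  have h3 : th ≤ 1 + 3 / (2 * (L : ℝ)) := by
    have : 3 / (2 * ((L : ℝ) + 1)) ≤ 3 / (2 * (L : ℝ)) :=
      div_le_div_of_nonneg_left (by norm_num) (by positivity) (by linarith)
    linarith
  have k1 := C_F L hL th h1 h3 d s hs hd
  have k2 := C_F (L + 1) (by omega) th h1 (by push_cast; exact h2) d s hs (by
    push_cast
    nlinarith)
  have k3 : 0 ≤ ∑ i ∈ range d, th ^ i * Fn (L + 1) i :=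
    Finset.sum_nonneg fun i _ => mul_nonneg (pow_nonneg (by linarith) i) (Fn_nonneg _ _)
  refine (ps_sum_le L d th (by linarith)).trans ?_
  rw [pow_two]
  exact mul_le_mul k1 k2 k3 (by nlinarith)

/-- `C² ≤ 1.19 E²` (`d ≤ L+1`), `≤ 1.32 E²` (`d ≤ 2L+1`), `≤ 1.46 E²` (`d ≤ 3L+1`) -/
theorem ps_sum_num0 (L : ℕ) (hL : 1000 ≤ L) (th : ℝ) (h1 : 1 ≤ th)
    (h2 : th ≤ 1 + 3 / (2 * ((L : ℝ) + 1))) (d : ℕ) (hd : d ≤ L + 1) :
    ∑ i ∈ range d, th ^ i * PowerSeries.coeff i (FF L * FF (L + 1)) ≤ 1.19 * E ^ 2 := by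
  have h := ps_sum_num L hL th h1 h2 d 0 le_rfl (by
    have : (d : ℝ) ≤ (L : ℝ) + 1 := by exact_mod_cast hd
    linarith)
  have h3 : (2.7182 : ℝ) ≤ E := by
    unfold E
    have := Real.exp_one_gt_d9
    linarith
  refine h.trans ?_
  nlinarith

theorem ps_sum_num1 (L : ℕ) (hL : 1000 ≤ L) (th : ℝ) (h1 : 1 ≤ th)
    (h2 : th ≤ 1 + 3 / (2 * ((L : ℝ) + 1))) (d : ℕ) (hd : d ≤ 2 * L + 1) :
    ∑ i ∈ range d, th ^ i * PowerSeries.coeff i (FF L * FF (L + 1)) ≤ 1.32 * E ^ 2 := by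
  have h := ps_sum_num L hL th h1 h2 d 1 (by norm_num) (by
    have : (d : ℝ) ≤ 2 * (L : ℝ) + 1 := by exact_mod_cast hd
    linarith)
  have h3 : (2.7182 : ℝ) ≤ E := by
    unfold E
    have := Real.exp_one_gt_d9
    linarith
  refine h.trans ?_
  nlinarith

theorem ps_sum_num2 (L : ℕ) (hL : 1000 ≤ L) (th : ℝ) (h1 : 1 ≤ th)
    (h2 : th ≤ 1 + 3 / (2 * ((L : ℝ) + 1))) (d : ℕ) (hd : d ≤ 3 * L + 1) :
    ∑ i ∈ range d, th ^ i * PowerSeries.coeff i (FF L * FF (L + 1)) ≤ 1.46 * E ^ 2 := by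
  have h := ps_sum_num L hL th h1 h2 d 2 (by norm_num) (by
    have : (d : ℝ) ≤ 3 * (L : ℝ) + 1 := by exact_mod_cast hd
    linarith)
  have h3 : (2.7182 : ℝ) ≤ E := by
    unfold E
    have := Real.exp_one_gt_d9
    linarith
  refine h.trans ?_
  nlinarith

/-! The same with `θ ≤ 1 + 3/(2L)` for both series. -/

lemma vc_ratio (L : ℕ) (hL : 1000 ≤ L) (n : ℕ) (hn : n ≤ 3 * L + 1) :
    (1 + 3 / (2 * (L : ℝ) ^ 2)) ^ n ≤ 1.0046 := by
  have hLr : (1000 : ℝ) ≤ L := by exact_mod_cast hL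
  obtain ⟨a, ha⟩ : ∃ a : ℝ, a = 3 / (2 * (L : ℝ) ^ 2) := ⟨_, rfl⟩
  have ha0 : 0 < a := by rw [ha]; positivity
  have hna : (n : ℝ) * a ≤ 0.00451 := by
    have h1 : (n : ℝ) ≤ 3 * (L : ℝ) + 1 := by exact_mod_cast hn
    calc (n : ℝ) * a ≤ (3 * (L : ℝ) + 1) * a := mul_le_mul_of_nonneg_right h1 ha0.le
      _ ≤ (3.001 * (L : ℝ)) * a := mul_le_mul_of_nonneg_right (by linarith) ha0.le
      _ = 4.5015 / L := by rw [ha]; field_simp; ring
      _ ≤ _ := by rw [div_le_iff₀ (by linarith)]; nlinarith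
  have ha1 : a ≤ 0.00001 := by
    rw [ha, div_le_iff₀ (by positivity)]
    nlinarith
  rw [← ha]
  have h2 := one_add_mul_le_pow (show (-2 : ℝ) ≤ -a by linarith) n
  have h3 : (1 + a) ^ n * (1 + -a) ^ n ≤ 1 := by
    rw [← mul_pow]
    apply pow_le_one₀
    · nlinarith
    · nlinarith
  have h4 : 0.99549 ≤ (1 + -a) ^ n := by linarith
  have h5 : 0 ≤ (1 + a) ^ n := by positivity
  nlinarith

/-- `sum_{k<d} θ^k F_{L+1}(k) ≤ E + 0.244 + 0.1575 s` for `d ≤ (1+s) L + 1`, `θ ≤ 1 + 3/(2L)` -/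
theorem C_F1 (L : ℕ) (hL : 1000 ≤ L) (th : ℝ) (h1 : 1 ≤ th) (h2 : th ≤ 1 + 3 / (2 * (L : ℝ)))
    (d : ℕ) (s : ℝ) (hs : 0 ≤ s) (hs2 : s ≤ 2) (hd : (d : ℝ) ≤ (1 + s) * L + 1) :
    ∑ k ∈ range d, th ^ k * Fn (L + 1) k ≤ E + 0.244 + 0.1575 * s := by
  have hLr : (1000 : ℝ) ≤ L := by exact_mod_cast hL
  have hth0 : (0 : ℝ) ≤ th := by linarith
  rcases Nat.lt_or_ge (L + 1) d with hc | hc
  · obtain ⟨x, rfl⟩ : ∃ x, d = (L + 1) + x := ⟨d - (L + 1), by omega⟩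
    rw [Finset.sum_range_add]
    have h3 : ∑ k ∈ range (L + 1), th ^ k * Fn (L + 1) k ≤ E + 0.244 := by
      refine le_trans (Finset.sum_le_sum fun k _ => ?_) (C_low L hL th h1 h2 (L + 1) le_rfl)
      exact mul_le_mul_of_nonneg_left (Fn_le_tn (L + 1) k) (pow_nonneg hth0 k)
    have hx : (x : ℝ) ≤ s * L := by
      push_cast at hd
      linarith
    have hx2 : x ≤ 2 * L := by
      have : (x : ℝ) ≤ 2 * (L : ℝ) := hx.trans (mul_le_mul_of_nonneg_right hs2 (by linarith))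
      exact_mod_cast this
    obtain ⟨th', hth'⟩ : ∃ th' : ℝ, th' = 1 + 3 / (2 * ((L : ℝ) + 1)) := ⟨_, rfl⟩
    have hp1 : 1 ≤ th' := by
      rw [hth']
      have : 0 < 3 / (2 * ((L : ℝ) + 1)) := by positivity
      linarith
    have hr : th ≤ (1 + 3 / (2 * (L : ℝ) ^ 2)) * th' := by
      refine h2.trans ?_
      have e1 : 3 / (2 * (L : ℝ)) ≤ 3 / (2 * (L : ℝ) ^ 2) + 3 / (2 * ((L : ℝ) + 1)) := by
        have e2 : 3 / (2 * (L : ℝ)) - 3 / (2 * ((L : ℝ) + 1)) = 3 / (2 * ((L : ℝ) * (L + 1))) := by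
          field_simp
          ring
        have e3 : 3 / (2 * ((L : ℝ) * (L + 1))) ≤ 3 / (2 * (L : ℝ) ^ 2) := by
          apply div_le_div_of_nonneg_left (by norm_num) (by positivity)
          nlinarith
        linarith
      have e4 : 0 ≤ 3 / (2 * (L : ℝ) ^ 2) := by positivity
      have e5 := mul_le_mul_of_nonneg_left hp1 e4
      have e6 : th' = 1 + 3 / (2 * ((L : ℝ) + 1)) := hth'
      nlinarith
    have h4 : ∑ k ∈ range x, th ^ (L + 1 + k) * Fn (L + 1) (L + 1 + k) ≤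
        ∑ k ∈ range x, 1.0046 * 4.49 * tn (L + 1) := by
      apply Finset.sum_le_sum
      intro k hk
      have hk' := mem_range.mp hk
      have h5 := F_weight_anti (L + 1) (by omega) th' (by linarith)
        (by rw [hth']; push_cast; exact le_rfl) (a := L + 1) (b := L + 1 + k) (by omega)
      have h6 := vc_pow_L (L + 1) (by omega) th' hp1 (by rw [hth']; push_cast; exact le_rfl)
      have h7 := Fn_nonneg (L + 1) (L + 1 + k)
      have h8 : th' ^ (L + 1 + k) * Fn (L + 1) (L + 1 + k) ≤ 4.49 * tn (L + 1) :=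
        h5.trans (mul_le_mul h6 (Fn_le_tn (L + 1) (L + 1)) (Fn_nonneg _ _) (by norm_num))
      have h9 := vc_ratio L hL (L + 1 + k) (by omega)
      calc th ^ (L + 1 + k) * Fn (L + 1) (L + 1 + k)
          ≤ ((1 + 3 / (2 * (L : ℝ) ^ 2)) * th') ^ (L + 1 + k) * Fn (L + 1) (L + 1 + k) :=
            mul_le_mul_of_nonneg_right (pow_le_pow_left₀ hth0 hr _) h7
        _ = (1 + 3 / (2 * (L : ℝ) ^ 2)) ^ (L + 1 + k) *
              (th' ^ (L + 1 + k) * Fn (L + 1) (L + 1 + k)) := by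
            rw [mul_pow]
            ring
        _ ≤ 1.0046 * (4.49 * tn (L + 1)) :=
            mul_le_mul h9 h8 (mul_nonneg (pow_nonneg (by linarith) _) h7) (by norm_num)
        _ = _ := by ring
    rw [Finset.sum_const, card_range, nsmul_eq_mul] at h4
    have h7 := L_tn_le (L + 1) (by omega)
    push_cast at h7
    have t := tn_pos (L + 1)
    have h10 : (L : ℝ) * tn (L + 1) ≤ 0.0349 := by nlinarith
    have h8 : (x : ℝ) * (1.0046 * 4.49 * tn (L + 1)) ≤ 0.1575 * s := by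
      calc (x : ℝ) * (1.0046 * 4.49 * tn (L + 1)) ≤ (s * L) * (1.0046 * 4.49 * tn (L + 1)) :=
            mul_le_mul_of_nonneg_right hx (by positivity)
        _ = s * (1.0046 * 4.49 * ((L : ℝ) * tn (L + 1))) := by ring
        _ ≤ s * (1.0046 * 4.49 * 0.0349) :=
            mul_le_mul_of_nonneg_left (mul_le_mul_of_nonneg_left h10 (by norm_num)) hs
        _ ≤ _ := by nlinarith
    linarith
  · refine le_trans (Finset.sum_le_sum fun k _ => mul_le_mul_of_nonneg_left (Fn_le_tn (L + 1) k)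
      (pow_nonneg hth0 k)) (le_trans (C_low L hL th h1 h2 d hc) ?_)
    nlinarith

theorem ps_sum_numG (L : ℕ) (hL : 1000 ≤ L) (th : ℝ) (h1 : 1 ≤ th)
    (h2 : th ≤ 1 + 3 / (2 * (L : ℝ))) (d : ℕ) (s : ℝ) (hs : 0 ≤ s) (hs2 : s ≤ 2)
    (hd : (d : ℝ) ≤ (1 + s) * L + 1) :
    ∑ i ∈ range d, th ^ i * PowerSeries.coeff i (FF L * FF (L + 1)) ≤
      (E + 0.244 + 0.157 * s) * (E + 0.244 + 0.1575 * s) := by
  have hE := E_pos
  have k1 := C_F L hL th h1 h2 d s hs hd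
  have k2 := C_F1 L hL th h1 h2 d s hs hs2 hd
  have k3 : 0 ≤ ∑ i ∈ range d, th ^ i * Fn (L + 1) i :=
    Finset.sum_nonneg fun i _ => mul_nonneg (pow_nonneg (by linarith) i) (Fn_nonneg _ _)
  refine (ps_sum_le L d th (by linarith)).trans ?_
  exact mul_le_mul k1 k2 k3 (by nlinarith)

/-- `θ ≤ 1 + 3/(2L)`: `C² ≤ 1.19 E²` (`d ≤ L+1`) -/
theorem ps_sum_numG0 (L : ℕ) (hL : 1000 ≤ L) (th : ℝ) (h1 : 1 ≤ th)
    (h2 : th ≤ 1 + 3 / (2 * (L : ℝ))) (d : ℕ) (hd : d ≤ L + 1) :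
    ∑ i ∈ range d, th ^ i * PowerSeries.coeff i (FF L * FF (L + 1)) ≤ 1.19 * E ^ 2 := by
  have h := ps_sum_numG L hL th h1 h2 d 0 le_rfl (by norm_num) (by
    have : (d : ℝ) ≤ (L : ℝ) + 1 := by exact_mod_cast hd
    linarith)
  have h3 : (2.7182 : ℝ) ≤ E := by
    unfold E
    have := Real.exp_one_gt_d9
    linarith
  refine h.trans ?_
  nlinarith

/-- `θ ≤ 1 + 3/(2L)`: `C² ≤ 1.32 E²` (`d ≤ 2L+1`) -/
theorem ps_sum_numG1 (L : ℕ) (hL : 1000 ≤ L) (th : ℝ) (h1 : 1 ≤ th)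
    (h2 : th ≤ 1 + 3 / (2 * (L : ℝ))) (d : ℕ) (hd : d ≤ 2 * L + 1) :
    ∑ i ∈ range d, th ^ i * PowerSeries.coeff i (FF L * FF (L + 1)) ≤ 1.32 * E ^ 2 := by
  have h := ps_sum_numG L hL th h1 h2 d 1 (by norm_num) (by norm_num) (by
    have : (d : ℝ) ≤ 2 * (L : ℝ) + 1 := by exact_mod_cast hd
    linarith)
  have h3 : (2.7182 : ℝ) ≤ E := by
    unfold E
    have := Real.exp_one_gt_d9
    linarith
  refine h.trans ?_
  nlinarith

/-- `θ ≤ 1 + 3/(2L)`: `C² ≤ 1.46 E²` (`d ≤ 3L+1`) -/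
theorem ps_sum_numG2 (L : ℕ) (hL : 1000 ≤ L) (th : ℝ) (h1 : 1 ≤ th)
    (h2 : th ≤ 1 + 3 / (2 * (L : ℝ))) (d : ℕ) (hd : d ≤ 3 * L + 1) :
    ∑ i ∈ range d, th ^ i * PowerSeries.coeff i (FF L * FF (L + 1)) ≤ 1.46 * E ^ 2 := by
  have h := ps_sum_numG L hL th h1 h2 d 2 (by norm_num) (by norm_num) (by
    have : (d : ℝ) ≤ 3 * (L : ℝ) + 1 := by exact_mod_cast hd
    linarith)
  have h3 : (2.7182 : ℝ) ≤ E := by
    unfold E
    have := Real.exp_one_gt_d9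
    linarith
  refine h.trans ?_
  nlinarith

end Pool.Agent.MP_9da1e3_co
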