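import Pool.Agent.Lib.MP_9da1e3_co.Lin46
import Pool.Agent.Lib.MP_9da1e3_co.Ct1

/-! `sum_{k<N} θ^k F_L(k) ≤ E / .82` for all `N` (`L ≥ 1000`, `1 ≤ θ ≤ 1 + 3/(2L)`), from a
differential inequality for the truncations of `1 / F_L`. -/

namespace Pool.Agent.MP_9da1e3_co

open Finset

noncomputable def ciR (M N : ℕ) (x : ℝ) : ℝ := ∑ k ∈ range N, x ^ (k + 1) * rn M (k + 1)

noncomputable def ciD (M N : ℕ) (x : ℝ) : ℝ :=
  ∑ k ∈ range N, (((k : ℝ) + 1) * x ^ k) * rn M (k + 1)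

noncomputable def ciP (M N : ℕ) (x : ℝ) : ℝ := ∑ k ∈ range N, x ^ k * PPc M k

lemma ci_renew (M n : ℕ) :
    Fn M (n + 1) = ∑ k ∈ range (n + 1), rn M (k + 1) * Fn M (n - k) := by
  have h := congrArg (PowerSeries.coeff (n + 1)) (FF_mul_inv M)
  rw [mul_comm, lin_coeff_mul_range, PowerSeries.coeff_one, if_neg (by omega),
    Finset.sum_range_succ'] at h
  have h0 : PowerSeries.coeff 0 (FF M)⁻¹ = 1 := by
    have h1 := rn_zero M
    unfold rn at h1
    linarith
  rw [h0, coeff_FF, Nat.sub_zero, one_mul] at h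
  have e : ∑ k ∈ range (n + 1), rn M (k + 1) * Fn M (n - k) =
      -∑ k ∈ range (n + 1), PowerSeries.coeff (k + 1) (FF M)⁻¹ *
        PowerSeries.coeff (n + 1 - (k + 1)) (FF M) := by
    rw [← Finset.sum_neg_distrib]
    apply Finset.sum_congr rfl
    intro k _
    rw [coeff_FF, Nat.add_sub_add_right]
    unfold rn
    ring
  rw [e]
  linarith

lemma ci_conv_le (x y : ℕ → ℝ) (hx : ∀ i, 0 ≤ x i) (hy : ∀ i, 0 ≤ y i) (N : ℕ) :
    ∑ m ∈ range N, ∑ k ∈ range (m + 1), x k * y (m - k) ≤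
      (∑ i ∈ range N, x i) * ∑ i ∈ range N, y i := by
  have h0 := Finset.sum_range_diag_flip N (fun a b => x a * y b)
  rw [h0, Finset.sum_mul]
  apply Finset.sum_le_sum
  intro a _
  rw [← Finset.mul_sum]
  apply mul_le_mul_of_nonneg_left _ (hx a)
  apply Finset.sum_le_sum_of_subset_of_nonneg
  · exact Finset.range_subset_range.mpr (by omega)
  · intro i _ _
    exact hy i

/-- `S_{N+1} (1 - R_N) ≤ 1` -/
lemma ci_sum_mul (M N : ℕ) (x : ℝ) (hx : 0 ≤ x) :
    (∑ k ∈ range (N + 1), x ^ k * Fn M k) * (1 - ciR M N x) ≤ 1 := by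
  have h1 : ∑ k ∈ range (N + 1), x ^ k * Fn M k = 1 + ∑ n ∈ range N, ∑ k ∈ range (n + 1),
      (x ^ (k + 1) * rn M (k + 1)) * (x ^ (n - k) * Fn M (n - k)) := by
    rw [Finset.sum_range_succ', Fn_z, pow_zero, one_mul, add_comm]
    congr 1
    apply Finset.sum_congr rfl
    intro n _
    rw [ci_renew, Finset.mul_sum]
    apply Finset.sum_congr rfl
    intro k hk
    have hk' := mem_range.mp hk
    have e : x ^ (n + 1) = x ^ (k + 1) * x ^ (n - k) := by
      rw [← pow_add]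
      congr 1
      omega
    rw [e]
    ring
  have h2 := ci_conv_le (fun k => x ^ (k + 1) * rn M (k + 1)) (fun k => x ^ k * Fn M k)
    (fun i => mul_nonneg (pow_nonneg hx _) (rn_nonneg M i))
    (fun i => mul_nonneg (pow_nonneg hx _) (Fn_nonneg _ _)) N
  have h3 : ∑ k ∈ range N, x ^ k * Fn M k ≤ ∑ k ∈ range (N + 1), x ^ k * Fn M k := by
    rw [Finset.sum_range_succ]
    have := mul_nonneg (pow_nonneg hx N) (Fn_nonneg M N)
    linarith
  have h4 : 0 ≤ ciR M N x :=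
    Finset.sum_nonneg fun i _ => mul_nonneg (pow_nonneg hx _) (rn_nonneg M i)
  have h5 := mul_le_mul_of_nonneg_left h3 h4
  unfold ciR at *
  nlinarith

/-- at `x = 1` -/
lemma ci_one (M N : ℕ) : 1 ≤ E * (1 - ciR M N 1) := by
  have hs : Summable (fun k => Fn M k) :=
    Summable.of_nonneg_of_le (fun k => Fn_nonneg M k) (fun k => Fn_le_tn M k) hasSum_tn.summable
  have h1 : ∀ K : ℕ, 1 + ciR M N 1 * ∑ k ∈ range K, Fn M k ≤ ∑' k, Fn M k := by
    intro K
    have h2 : ∑ k ∈ range (K + N + 1), Fn M k = 1 + ∑ n ∈ range (K + N), ∑ k ∈ range (n + 1),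
        rn M (k + 1) * Fn M (n - k) := by
      rw [Finset.sum_range_succ', Fn_z, add_comm]
      congr 1
      apply Finset.sum_congr rfl
      intro n _
      rw [ci_renew]
    have h3 := Finset.sum_range_diag_flip (K + N) (fun a b => rn M (a + 1) * Fn M b)
    rw [h3] at h2
    have h4 : ciR M N 1 * ∑ k ∈ range K, Fn M k ≤
        ∑ m ∈ range (K + N), ∑ k ∈ range (K + N - m), rn M (m + 1) * Fn M k := by
      have h5 : ciR M N 1 * ∑ k ∈ range K, Fn M k =
          ∑ m ∈ range N, ∑ k ∈ range K, rn M (m + 1) * Fn M k := by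
        unfold ciR
        rw [Finset.sum_mul]
        apply Finset.sum_congr rfl
        intro m _
        rw [one_pow, one_mul, Finset.mul_sum]
      rw [h5]
      refine le_trans (Finset.sum_le_sum fun m hm => ?_) (Finset.sum_le_sum_of_subset_of_nonneg
        (Finset.range_subset_range.mpr (by omega : N ≤ K + N)) ?_)
      · have hm' := mem_range.mp hm
        apply Finset.sum_le_sum_of_subset_of_nonneg
        · exact Finset.range_subset_range.mpr (by omega)
        · intro i _ _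
          exact mul_nonneg (rn_nonneg M m) (Fn_nonneg M i)
      · intro m _ _
        exact Finset.sum_nonneg fun i _ => mul_nonneg (rn_nonneg M m) (Fn_nonneg M i)
    have h6 := hs.sum_le_tsum (range (K + N + 1)) (fun k _ => Fn_nonneg M k)
    linarith
  have h2 : 1 + ciR M N 1 * ∑' k, Fn M k ≤ ∑' k, Fn M k := by
    have h3 := hs.hasSum.tendsto_sum_nat
    have h4 := (h3.const_mul (ciR M N 1)).const_add 1
    exact le_of_tendsto' h4 h1
  have h3 : ∑' k, Fn M k ≤ E := by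
    rw [← hasSum_tn.tsum_eq]
    exact hs.tsum_le_tsum (fun k => Fn_le_tn M k) hasSum_tn.summable
  have h4 : 0 ≤ ciR M N 1 :=
    Finset.sum_nonneg fun i _ => mul_nonneg (by positivity) (rn_nonneg M i)
  have h5 : 0 < 1 - ciR M N 1 := by
    by_contra hc
    push Not at hc
    have h6 : 0 ≤ ∑' k, Fn M k := tsum_nonneg fun k => Fn_nonneg M k
    nlinarith
  nlinarith

lemma ci_pow_sub (x y : ℝ) (hx : 0 ≤ x) (hxy : x ≤ y) (k : ℕ) :
    y ^ (k + 1) - x ^ (k + 1) ≤ (y - x) * (((k : ℝ) + 1) * y ^ k) := by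
  induction k with
  | zero => simp
  | succ k ih =>
    have hy : 0 ≤ y := hx.trans hxy
    have h1 := mul_le_mul_of_nonneg_left ih hy
    have h2 : x ^ (k + 1) ≤ y ^ (k + 1) := pow_le_pow_left₀ hx hxy _
    have h3 := mul_le_mul_of_nonneg_left h2 (sub_nonneg.mpr hxy)
    push_cast
    have e1 : y ^ (k + 1 + 1) - x ^ (k + 1 + 1) =
        y * (y ^ (k + 1) - x ^ (k + 1)) + (y - x) * x ^ (k + 1) := by ring
    have e2 : (y - x) * (((k : ℝ) + 1 + 1) * y ^ (k + 1)) =
        y * ((y - x) * (((k : ℝ) + 1) * y ^ k)) + (y - x) * y ^ (k + 1) := by ring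
    rw [e1, e2]
    linarith

lemma ci_conv (M N : ℕ) (x y : ℝ) (hx : 0 ≤ x) (hxy : x ≤ y) :
    ciR M N y - ciR M N x ≤ (y - x) * ciD M N y := by
  unfold ciR ciD
  rw [← Finset.sum_sub_distrib, Finset.mul_sum]
  apply Finset.sum_le_sum
  intro k _
  have h1 := mul_le_mul_of_nonneg_right (ci_pow_sub x y hx hxy k) (rn_nonneg M k)
  linarith

lemma ci_mono (M N : ℕ) (x y : ℝ) (hx : 0 ≤ x) (hxy : x ≤ y) : ciR M N x ≤ ciR M N y := by
  unfold ciR
  apply Finset.sum_le_sum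
  intro k _
  exact mul_le_mul_of_nonneg_right (pow_le_pow_left₀ hx hxy _) (rn_nonneg M k)

lemma ci_PPc_nonneg (M k : ℕ) : 0 ≤ PPc M k := by
  unfold PPc
  split_ifs with h
  · have h1 : (k : ℝ) + 1 ≤ M := by exact_mod_cast h
    exact mul_nonneg (by linarith) (tn_pos k).le
  · exact le_rfl

/-- the recursion with all boundary terms -/
lemma ci_rec (M k : ℕ) : E * (((k : ℝ) + 1) * rn M (k + 1)) =
    (if k = 0 then (M : ℝ) else 0) - PPc M k + ∑ i ∈ range k, PPc M i * rn M (k - i) := by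
  rcases Nat.eq_zero_or_pos k with rfl | hk
  · have h1 := congrArg (PowerSeries.coeff 0) (inv_ode M)
    rw [PowerSeries.coeff_C_mul, PowerSeries.coeff_derivative, map_sub, lin_coeff_mul_range,
      PowerSeries.coeff_C, if_pos rfl] at h1
    rw [zero_add, Finset.sum_range_one, coeff_PP] at h1
    have h0 : PowerSeries.coeff 0 (FF M)⁻¹ = 1 := by
      have h1 := rn_zero M
      unfold rn at h1
      linarith
    rw [Nat.sub_zero, h0] at h1
    rw [if_pos rfl, Finset.sum_range_zero]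
    unfold rn
    push_cast at h1 ⊢
    linarith
  · rw [rn_rec_all M k hk, Finset.sum_range_succ, Nat.sub_self, rn_zero, if_neg (by omega)]
    ring

/-- the differential inequality -/
lemma ci_ode (M N : ℕ) (hN : 1 ≤ N) (y : ℝ) (hy : 0 ≤ y) :
    E * ciD M N y ≤ (M : ℝ) - ciP M N y * (1 - ciR M N y) := by
  have h1 : E * ciD M N y = ∑ k ∈ range N, (y ^ k * (if k = 0 then (M : ℝ) else 0)) - ciP M N y +
      ∑ k ∈ range N, ∑ i ∈ range k, (y ^ i * PPc M i) * (y ^ (k - i) * rn M (k - i)) := by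
    unfold ciD ciP
    rw [Finset.mul_sum, ← Finset.sum_sub_distrib, ← Finset.sum_add_distrib]
    apply Finset.sum_congr rfl
    intro k _
    have e1 : E * ((((k : ℝ) + 1) * y ^ k) * rn M (k + 1)) =
        y ^ k * (E * (((k : ℝ) + 1) * rn M (k + 1))) := by ring
    rw [e1, ci_rec]
    have e2 : ∑ i ∈ range k, (y ^ i * PPc M i) * (y ^ (k - i) * rn M (k - i)) =
        y ^ k * ∑ i ∈ range k, PPc M i * rn M (k - i) := by
      rw [Finset.mul_sum]
      apply Finset.sum_congr rfl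
      intro i hi
      have hi' := mem_range.mp hi
      have e : y ^ k = y ^ i * y ^ (k - i) := by
        rw [← pow_add]
        congr 1
        omega
      rw [e]
      ring
    rw [e2]
    ring
  have h2 : ∑ k ∈ range N, (y ^ k * (if k = 0 then (M : ℝ) else 0)) = M := by
    rw [Finset.sum_eq_single 0]
    · simp
    · intro b _ hb
      rw [if_neg hb, mul_zero]
    · intro h
      exact absurd (mem_range.mpr (by omega)) h
  have h3 : ∑ k ∈ range N, ∑ i ∈ range k, (y ^ i * PPc M i) * (y ^ (k - i) * rn M (k - i)) ≤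
      ciP M N y * ciR M N y := by
    obtain ⟨K, rfl⟩ : ∃ K, N = K + 1 := ⟨N - 1, by omega⟩
    rw [Finset.sum_range_succ', Finset.sum_range_zero, add_zero]
    have h4 : ∑ k ∈ range K, ∑ i ∈ range (k + 1),
        (y ^ i * PPc M i) * (y ^ (k + 1 - i) * rn M (k + 1 - i)) =
        ∑ k ∈ range K, ∑ i ∈ range (k + 1),
        (fun i => y ^ i * PPc M i) i * (fun j => y ^ (j + 1) * rn M (j + 1)) (k - i) := by
      apply Finset.sum_congr rfl
      intro k _
      apply Finset.sum_congr rfl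
      intro i hi
      have hi' := mem_range.mp hi
      have e : k + 1 - i = k - i + 1 := by omega
      rw [e]
    rw [h4]
    have h5 := ci_conv_le (fun i => y ^ i * PPc M i) (fun j => y ^ (j + 1) * rn M (j + 1))
      (fun i => mul_nonneg (pow_nonneg hy i) (ci_PPc_nonneg M i))
      (fun i => mul_nonneg (pow_nonneg hy _) (rn_nonneg M i)) K
    refine h5.trans ?_
    have h6 : ∑ i ∈ range K, (fun i => y ^ i * PPc M i) i ≤ ciP M (K + 1) y := by
      unfold ciP
      rw [Finset.sum_range_succ]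
      have := mul_nonneg (pow_nonneg hy K) (ci_PPc_nonneg M K)
      simp only
      linarith
    have h7 : ∑ i ∈ range K, (fun j => y ^ (j + 1) * rn M (j + 1)) i ≤ ciR M (K + 1) y := by
      unfold ciR
      rw [Finset.sum_range_succ]
      have := mul_nonneg (pow_nonneg hy (K + 1)) (rn_nonneg M K)
      simp only
      linarith
    have h8 : 0 ≤ ∑ i ∈ range K, (fun j => y ^ (j + 1) * rn M (j + 1)) i :=
      Finset.sum_nonneg fun i _ => mul_nonneg (pow_nonneg hy _) (rn_nonneg M i)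
    have h9 : 0 ≤ ciP M (K + 1) y :=
      Finset.sum_nonneg fun i _ => mul_nonneg (pow_nonneg hy _) (ci_PPc_nonneg M i)
    exact mul_le_mul h6 h7 h8 h9
  rw [h1, h2]
  linarith

lemma ci_P_ge (M N : ℕ) (hM : 1000 ≤ M) (hN : M ≤ N) (y : ℝ) (hy : 1 ≤ y) :
    0.949 * (E * (M : ℝ)) ≤ ciP M N y := by
  have hMr : (1000 : ℝ) ≤ M := by exact_mod_cast hM
  have h1 : ∑ k ∈ range M, PPc M k ≤ ciP M N y := by
    unfold ciP
    refine le_trans (Finset.sum_le_sum fun k _ => ?_) (Finset.sum_le_sum_of_subset_of_nonneg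
      (Finset.range_subset_range.mpr hN) ?_)
    · have h2 : 1 ≤ y ^ k := one_le_pow₀ hy
      have h3 := mul_le_mul_of_nonneg_right h2 (ci_PPc_nonneg M k)
      linarith
    · intro i _ _
      exact mul_nonneg (pow_nonneg (by linarith) i) (ci_PPc_nonneg M i)
  have h2 : ∑ k ∈ range M, PPc M k =
      (M : ℝ) * ∑ k ∈ range M, tn k - ∑ k ∈ range M, ((k : ℝ) + 1) * tn k := by
    rw [Finset.mul_sum, ← Finset.sum_sub_distrib]
    apply Finset.sum_congr rfl
    intro k hk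
    unfold PPc
    rw [if_pos (mem_range.mp hk)]
    ring
  have h3 := E_sub_sum_le (m := M) (by omega)
  have h4 := sum_succ_tn_le M
  have h5 := two_cA_lt
  obtain ⟨s, hs⟩ : ∃ s, s = √(M : ℝ) := ⟨_, rfl⟩
  rw [← hs] at h3 h4
  have hs2 : s ^ 2 = M := by rw [hs]; exact Real.sq_sqrt (by positivity)
  have hs0 : 0 ≤ s := by rw [hs]; exact Real.sqrt_nonneg _
  have hs31 : 31.62 ≤ s := by
    by_contra hc
    push Not at hc
    nlinarith
  have hE : (2.7182 : ℝ) < E := by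
    unfold E
    have := Real.exp_one_gt_d9
    linarith
  have h6 : (M : ℝ) * (E - ∑ k ∈ range M, tn k) ≤ 2.16888 * s := by
    have h7 : (M : ℝ) * (E - ∑ k ∈ range M, tn k) ≤ M * (2 * cA / s) :=
      mul_le_mul_of_nonneg_left h3 (by linarith)
    have e : (M : ℝ) * (2 * cA / s) = 2 * cA * s := by
      rw [← hs2]
      have : s ≠ 0 := by linarith
      field_simp
    rw [e] at h7
    have h8 := mul_le_mul_of_nonneg_right h5.le hs0
    linarith
  have h7 : 4.36888 * s ≤ 0.051 * (E * M) := by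
    rw [← hs2]
    have h8 : 0.051 * (2.7182 * s ^ 2) ≤ 0.051 * (E * s ^ 2) := by
      have := mul_le_mul_of_nonneg_right hE.le (sq_nonneg s)
      linarith
    nlinarith
  rw [h2] at h1
  linarith

lemma ci_P_le (L M N : ℕ) (hL : 1000 ≤ L) (hM : M ≤ L + 1) (y : ℝ) (hy : 1 ≤ y)
    (hy2 : y ≤ 1 + 3 / (2 * (L : ℝ))) : ciP M N y ≤ 4.5 * (E * (M : ℝ)) := by
  have hLr : (1000 : ℝ) ≤ L := by exact_mod_cast hL
  have hpow : ∀ k, k < M → y ^ k ≤ 4.5 := by
    intro k hk
    have h1 : y ^ k ≤ Real.exp (3 / (2 * (L : ℝ))) ^ k := by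
      apply pow_le_pow_left₀ (by linarith)
      have := Real.add_one_le_exp (3 / (2 * (L : ℝ)))
      linarith
    rw [← Real.exp_nat_mul] at h1
    have h2 : (k : ℝ) * (3 / (2 * (L : ℝ))) ≤ 3 / 2 := by
      have hk' : (k : ℝ) ≤ L := by
        have : k ≤ L := by omega
        exact_mod_cast this
      rw [mul_div_assoc', div_le_div_iff₀ (by positivity) (by norm_num)]
      nlinarith
    have h3 := Real.exp_le_exp.mpr h2
    have h4 : Real.exp (3 / 2) ≤ 4.5 := by
      have h5 : Real.exp (3 / 2) ^ 2 = Real.exp 1 ^ 3 := by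
        rw [← Real.exp_nat_mul, ← Real.exp_nat_mul]
        congr 1
        norm_num
      have h6 := Real.exp_one_lt_d9
      have h7 : Real.exp 1 ^ 3 ≤ 2.7182818286 ^ 3 :=
        pow_le_pow_left₀ (Real.exp_pos 1).le h6.le 3
      have h8 : Real.exp (3 / 2) ^ 2 ≤ 4.5 ^ 2 := by
        rw [h5]
        refine h7.trans ?_
        norm_num
      exact le_of_sq_le_sq h8 (by norm_num)
    linarith
  have hterm : ∀ k, y ^ k * PPc M k ≤ 4.5 * ((if k < M then (M : ℝ) * tn k else 0)) := by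
    intro k
    by_cases hk : k < M
    · rw [if_pos hk]
      have h1 : PPc M k ≤ (M : ℝ) * tn k := by
        unfold PPc
        rw [if_pos hk]
        have := tn_pos k
        have hk0 : (0 : ℝ) ≤ k := Nat.cast_nonneg k
        nlinarith
      have h2 := mul_le_mul (hpow k hk) h1 (ci_PPc_nonneg M k) (by norm_num)
      exact h2
    · rw [if_neg hk]
      unfold PPc
      rw [if_neg hk]
      simp
  unfold ciP
  refine le_trans (Finset.sum_le_sum fun k _ => hterm k) ?_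
  rw [← Finset.mul_sum]
  apply mul_le_mul_of_nonneg_left _ (by norm_num)
  have h1 : ∑ k ∈ range N, (if k < M then (M : ℝ) * tn k else 0) ≤
      ∑ k ∈ range N, (M : ℝ) * tn k := by
    apply Finset.sum_le_sum
    intro k _
    split_ifs
    · exact le_rfl
    · exact mul_nonneg (Nat.cast_nonneg M) (tn_pos k).le
  rw [← Finset.mul_sum] at h1
  have h2 := mul_le_mul_of_nonneg_left (sum_tn_le N) (Nat.cast_nonneg (α := ℝ) M)
  linarith

/-- one step of the (implicit) Euler scheme -/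
lemma ci_step (L M N : ℕ) (hL : 1000 ≤ L) (hLM : L ≤ M) (hM : M ≤ L + 1) (hN : M ≤ N)
    (x : ℝ) (hx : 1 ≤ x) (hy : x + 1 / (20 * (L : ℝ)) ≤ 1 + 3 / (2 * (L : ℝ)))
    (hv : (M : ℝ) / (20 * L) ≤ E * (1 - ciR M N x)) :
    E * (1 - ciR M N x) - (M : ℝ) / (20 * L) ≤
      E * (1 - ciR M N (x + 1 / (20 * (L : ℝ)))) * (1 - 0.949 * ((M : ℝ) / (20 * L))) := by
  have hLr : (1000 : ℝ) ≤ L := by exact_mod_cast hL
  have hMr : (M : ℝ) ≤ (L : ℝ) + 1 := by exact_mod_cast hM
  have hMr1 : (L : ℝ) ≤ M := by exact_mod_cast hLM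
  have hE := E_pos
  obtain ⟨h, hh⟩ : ∃ h, h = 1 / (20 * (L : ℝ)) := ⟨_, rfl⟩
  have hh0 : 0 < h := by rw [hh]; positivity
  have hg : (M : ℝ) / (20 * L) = h * M := by rw [hh]; ring
  rw [hg] at hv ⊢
  rw [← hh] at hy ⊢
  have h1 := ci_conv M N x (x + h) (by linarith) (by linarith)
  have h2 := ci_ode M N (by omega) (x + h) (by linarith)
  have e : x + h - x = h := by ring
  rw [e] at h1
  have h3 := ci_P_ge M N (by omega) hN (x + h) (by linarith)
  have h4 := ci_P_le L M N hL hM (x + h) (by linarith) hy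
  obtain ⟨P, hP⟩ : ∃ P, P = ciP M N (x + h) := ⟨_, rfl⟩
  obtain ⟨R, hR⟩ : ∃ R, R = ciR M N (x + h) := ⟨_, rfl⟩
  obtain ⟨D, hD⟩ : ∃ D, D = ciD M N (x + h) := ⟨_, rfl⟩
  obtain ⟨R0, hR0⟩ : ∃ R0, R0 = ciR M N x := ⟨_, rfl⟩
  rw [← hP] at h2 h3 h4
  rw [← hR] at h1 h2 ⊢
  rw [← hD] at h1 h2
  rw [← hR0] at h1 hv ⊢
  -- E (R - R0) ≤ h (M - P (1 - R))
  have h5 : E * (R - R0) ≤ h * ((M : ℝ) - P * (1 - R)) := by
    have h6 := mul_le_mul_of_nonneg_left h1 hE.le
    have h7 := mul_le_mul_of_nonneg_left h2 hh0.le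
    have e2 : E * (h * D) = h * (E * D) := by ring
    rw [e2] at h6
    linarith
  have hhM : h * (4.5 * (E * M)) ≤ 0.5 * E := by
    have h6 : h * M ≤ 0.051 := by
      rw [hh, div_mul_eq_mul_div, one_mul, div_le_iff₀ (by positivity)]
      linarith
    nlinarith
  have h6 : h * P ≤ 0.5 * E := (mul_le_mul_of_nonneg_left h4 hh0.le).trans hhM
  have h7 : 0 ≤ (1 - R) * (E - h * P) := by nlinarith
  have h8 : 0 ≤ 1 - R := by
    by_contra hc
    push Not at hc
    have : 0 < E - h * P := by linarith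
    nlinarith
  have h9 : h * (0.949 * (E * M)) * (1 - R) ≤ h * P * (1 - R) :=
    mul_le_mul_of_nonneg_right (mul_le_mul_of_nonneg_left h3 hh0.le) h8
  linarith

theorem ci_iter (L M N : ℕ) (hL : 1000 ≤ L) (hLM : L ≤ M) (hM : M ≤ L + 1) (hN : M ≤ N)
    (j : ℕ) (hj : j ≤ 30) : 1 / 0.949 - (1 / 0.949 - 1) * 1.04987 ^ j ≤
      E * (1 - ciR M N (1 + (j : ℝ) * (1 / (20 * (L : ℝ))))) := by
  have hLr : (1000 : ℝ) ≤ L := by exact_mod_cast hL
  have hMr : (M : ℝ) ≤ (L : ℝ) + 1 := by exact_mod_cast hM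
  have hMr1 : (L : ℝ) ≤ M := by exact_mod_cast hLM
  induction j with
  | zero =>
    have := ci_one M N
    norm_num at this ⊢
    linarith
  | succ j ih =>
    have h1 := ih (by omega)
    have hj' : (j : ℝ) + 1 ≤ 30 := by exact_mod_cast hj
    have hj0 : (0 : ℝ) ≤ j := Nat.cast_nonneg j
    obtain ⟨g, hg⟩ : ∃ g, g = (M : ℝ) / (20 * L) := ⟨_, rfl⟩
    have hg1 : g ≤ 0.05005 := by
      rw [hg, div_le_iff₀ (by positivity)]
      linarith
    have hg0 : 0 ≤ g := by rw [hg]; positivity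
    have hq : (1.04987 : ℝ) ^ j ≤ 1.04987 ^ 30 := pow_le_pow_right₀ (by norm_num) (by omega)
    have hq0 : (0 : ℝ) < 1.04987 ^ j := by positivity
    have hq30 : (1.04987 : ℝ) ^ 30 ≤ 4.307 := by norm_num
    have hx : (1 : ℝ) ≤ 1 + (j : ℝ) * (1 / (20 * (L : ℝ))) := by
      have : 0 ≤ (j : ℝ) * (1 / (20 * (L : ℝ))) := by positivity
      linarith
    have hv : (M : ℝ) / (20 * L) ≤
        E * (1 - ciR M N (1 + (j : ℝ) * (1 / (20 * (L : ℝ))))) := by
      rw [← hg]
      refine le_trans ?_ h1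
      have : (1 / 0.949 - 1) * (1.04987 : ℝ) ^ j ≤ (1 / 0.949 - 1) * 4.307 :=
        mul_le_mul_of_nonneg_left (hq.trans hq30) (by norm_num)
      have h2 : (1 / 0.949 - (1 / 0.949 - 1) * 4.307 : ℝ) ≥ 0.05005 := by norm_num
      linarith
    have hy : 1 + (j : ℝ) * (1 / (20 * (L : ℝ))) + 1 / (20 * (L : ℝ)) ≤
        1 + 3 / (2 * (L : ℝ)) := by
      have e : 3 / (2 * (L : ℝ)) = 30 * (1 / (20 * (L : ℝ))) := by ring
      rw [e]
      have h3 : 0 < 1 / (20 * (L : ℝ)) := by positivity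
      nlinarith
    have h2 := ci_step L M N hL hLM hM hN _ hx hy hv
    have e : 1 + (((j + 1 : ℕ)) : ℝ) * (1 / (20 * (L : ℝ))) =
        1 + (j : ℝ) * (1 / (20 * (L : ℝ))) + 1 / (20 * (L : ℝ)) := by
      push_cast
      ring
    rw [e]
    rw [← hg] at h2
    obtain ⟨v, hvd⟩ : ∃ v, v = E * (1 - ciR M N (1 + (j : ℝ) * (1 / (20 * (L : ℝ))) +
      1 / (20 * (L : ℝ)))) := ⟨_, rfl⟩
    rw [← hvd] at h2 ⊢
    have h3 : 0 < 1 - 0.949 * g := by linarith
    have h4 : 1 ≤ 1.04987 * (1 - 0.949 * g) := by linarith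
    have h5 : (1 / 0.949 - (1 / 0.949 - 1) * 1.04987 ^ (j + 1)) * (1 - 0.949 * g) ≤
        v * (1 - 0.949 * g) := by
      have h6 : (1.04987 : ℝ) ^ j ≤ 1.04987 ^ (j + 1) * (1 - 0.949 * g) := by
        rw [pow_succ, mul_assoc]
        exact le_mul_of_one_le_right hq0.le h4
      have h7 : (1 / 0.949 - 1) * (1.04987 : ℝ) ^ j ≤
          (1 / 0.949 - 1) * (1.04987 ^ (j + 1) * (1 - 0.949 * g)) :=
        mul_le_mul_of_nonneg_left h6 (by norm_num)
      have e3 : (1 / 0.949 : ℝ) * (1 - 0.949 * g) = 1 / 0.949 - g := by ring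
      have e4 : (1 / 0.949 - (1 / 0.949 - 1) * (1.04987 : ℝ) ^ (j + 1)) * (1 - 0.949 * g) =
          1 / 0.949 * (1 - 0.949 * g) -
          (1 / 0.949 - 1) * (1.04987 ^ (j + 1) * (1 - 0.949 * g)) := by ring
      rw [e4, e3]
      linarith
    exact le_of_mul_le_mul_right h5 h3

/-- `F_M(θ) ≤ E / .82` -/
theorem ci_F (L M : ℕ) (hL : 1000 ≤ L) (hLM : L ≤ M) (hM : M ≤ L + 1) (th : ℝ) (h1 : 1 ≤ th)
    (h2 : th ≤ 1 + 3 / (2 * (L : ℝ))) (N : ℕ) :
    ∑ k ∈ range N, th ^ k * Fn M k ≤ E / 0.82 := by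
  have hLr : (1000 : ℝ) ≤ L := by exact_mod_cast hL
  have hE := E_pos
  obtain ⟨K, hK⟩ : ∃ K, K = M + N := ⟨_, rfl⟩
  have h3 := ci_iter L M K hL hLM hM (by omega) 30 le_rfl
  have e : 1 + (((30 : ℕ)) : ℝ) * (1 / (20 * (L : ℝ))) = 1 + 3 / (2 * (L : ℝ)) := by
    push_cast
    ring
  rw [e] at h3
  have h4 : (0.82 : ℝ) ≤ 1 / 0.949 - (1 / 0.949 - 1) * 1.04987 ^ 30 := by norm_num
  have h5 := ci_mono M K th (1 + 3 / (2 * (L : ℝ))) (by linarith) h2
  have h6 : 0.82 ≤ E * (1 - ciR M K th) := by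
    have := mul_le_mul_of_nonneg_left h5 hE.le
    linarith
  have h7 := ci_sum_mul M K th (by linarith)
  have h8 : ∑ k ∈ range N, th ^ k * Fn M k ≤ ∑ k ∈ range (K + 1), th ^ k * Fn M k := by
    apply Finset.sum_le_sum_of_subset_of_nonneg
    · exact Finset.range_subset_range.mpr (by omega)
    · intro i _ _
      exact mul_nonneg (pow_nonneg (by linarith) i) (Fn_nonneg M i)
  refine h8.trans ?_
  have h9 : 0 ≤ ∑ k ∈ range (K + 1), th ^ k * Fn M k :=
    Finset.sum_nonneg fun i _ => mul_nonneg (pow_nonneg (by linarith) i) (Fn_nonneg M i)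
  rw [le_div_iff₀ (by norm_num)]
  have h10 := mul_le_mul_of_nonneg_left h6 h9
  have h11 := mul_le_mul_of_nonneg_left h7 hE.le
  have e2 : (∑ k ∈ range (K + 1), th ^ k * Fn M k) * (E * (1 - ciR M K th)) =
      E * ((∑ k ∈ range (K + 1), th ^ k * Fn M k) * (1 - ciR M K th)) := by ring
  rw [e2] at h10
  linarith

/-- `sum_{k<N} θ^k (F_L F_{L+1})_k ≤ 1.49 E²` for all `N` -/
theorem ci_S (L : ℕ) (hL : 1000 ≤ L) (th : ℝ) (h1 : 1 ≤ th)
    (h2 : th ≤ 1 + 3 / (2 * (L : ℝ))) (N : ℕ) :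
    ∑ k ∈ range N, th ^ k * PowerSeries.coeff k (FF L * FF (L + 1)) ≤ 1.49 * E ^ 2 := by
  have hE := E_pos
  have hth : 0 ≤ th := by linarith
  have k1 := ci_F L L hL le_rfl (by omega) th h1 h2 N
  have k2 := ci_F L (L + 1) hL (by omega) le_rfl th h1 h2 N
  have k3 : ∑ k ∈ range N, th ^ k * PowerSeries.coeff k (FF L * FF (L + 1)) ≤
      (∑ i ∈ range N, th ^ i * Fn L i) * ∑ i ∈ range N, th ^ i * Fn (L + 1) i := by
    refine le_trans (le_of_eq ?_) (ci_conv_le (fun i => th ^ i * Fn L i)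
      (fun i => th ^ i * Fn (L + 1) i) (fun i => mul_nonneg (pow_nonneg hth i) (Fn_nonneg _ _))
      (fun i => mul_nonneg (pow_nonneg hth i) (Fn_nonneg _ _)) N)
    apply Finset.sum_congr rfl
    intro m _
    rw [lin_coeff_mul_range, Finset.mul_sum]
    apply Finset.sum_congr rfl
    intro k hk
    have hk' := mem_range.mp hk
    rw [coeff_FF, coeff_FF]
    have e : th ^ m = th ^ k * th ^ (m - k) := by
      rw [← pow_add]
      congr 1
      omega
    simp only [e]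
    ring
  refine k3.trans ?_
  have k4 : 0 ≤ ∑ i ∈ range N, th ^ i * Fn (L + 1) i :=
    Finset.sum_nonneg fun i _ => mul_nonneg (pow_nonneg hth i) (Fn_nonneg _ _)
  refine (mul_le_mul k1 k2 k4 (by positivity)).trans ?_
  have e : E / 0.82 * (E / 0.82) = E ^ 2 / 0.6724 := by
    rw [div_mul_div_comm]
    congr 1
    · ring
    · norm_num
  rw [e, div_le_iff₀ (by norm_num)]
  have := sq_nonneg E
  nlinarith

end Pool.Agent.MP_9da1e3_co
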