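import Pool.Agent.Lib.MP_9da1e3_co.NR2
import Pool.Agent.Lib.MP_9da1e3_co.GL1
import Pool.Agent.Lib.MP_9da1e3_co.Rj23

/-!
The far zone up to `m = L / 2`: exponential weights `thL L ^ k` in the renewal form of the
recursion of `bb`; the sum telescopes.
-/

namespace Pool.Agent.MP_9da1e3_co

open Finset

lemma ft_pow (t : ℝ) (ht : 0 < t) (r : ℕ → ℝ) (N : ℕ)
    (hr : ∀ j, j + 1 ≤ N → r (j + 1) ≤ t * r j) (k : ℕ) :
    ∀ i, k + i ≤ N → r (k + i) ≤ t ^ i * r k := by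
  intro i
  induction i with
  | zero => intro _; simp
  | succ i ih =>
    intro h
    have h1 := ih (by omega)
    have h2 := hr (k + i) (by omega)
    calc r (k + (i + 1)) = r (k + i + 1) := rfl
      _ ≤ t * r (k + i) := h2
      _ ≤ t * (t ^ i * r k) := mul_le_mul_of_nonneg_left h1 ht.le
      _ = t ^ (i + 1) * r k := by rw [pow_succ]; ring

/-- abstract form -/
lemma ft_abs (t : ℝ) (ht : 0 < t) (r g g1 b : ℕ → ℝ) (m0 d : ℕ)
    (hr : ∀ j, j + 1 ≤ m0 + d → r (j + 1) ≤ t * r j) (hrd : 0 ≤ r d)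
    (hb : ∀ j, b (j + 1) = g1 j - g (j + 1)) (hg0 : 0 ≤ g 0)
    (hg1 : ∀ j, j < m0 + d → t * g j ≤ g1 j)
    (hneg : ∀ q, q ≤ m0 → b q ≤ 0) (hpos : ∀ q, m0 < q → q ≤ m0 + d → 0 ≤ b q) :
    -(r d * g (m0 + d)) ≤ t ^ d * ∑ k ∈ range (m0 + d), r k * b (m0 + d - k) := by
  obtain ⟨m, hm⟩ : ∃ m, m = m0 + d := ⟨_, rfl⟩
  rw [← hm] at hr hg1 hpos ⊢
  have h1 : ∀ k ∈ range m, r d * (t ^ k * b (m - k)) ≤ t ^ d * (r k * b (m - k)) := by
    intro k hk
    have hk' := mem_range.mp hk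
    rcases Nat.lt_or_ge k d with h | h
    · have hbk := hpos (m - k) (by omega) (by omega)
      have h2 := ft_pow t ht r m hr k (d - k) (by omega)
      rw [Nat.add_sub_cancel' h.le] at h2
      have h3 : r d * t ^ k ≤ t ^ d * r k := by
        calc r d * t ^ k ≤ t ^ (d - k) * r k * t ^ k :=
              mul_le_mul_of_nonneg_right h2 (pow_pos ht k).le
          _ = t ^ (d - k) * t ^ k * r k := by ring
          _ = t ^ d * r k := by rw [← pow_add, Nat.sub_add_cancel h.le]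
      calc r d * (t ^ k * b (m - k)) = r d * t ^ k * b (m - k) := by ring
        _ ≤ t ^ d * r k * b (m - k) := mul_le_mul_of_nonneg_right h3 hbk
        _ = _ := by ring
    · have hbk := hneg (m - k) (by omega)
      have h2 := ft_pow t ht r m hr d (k - d) (by omega)
      rw [Nat.add_sub_cancel' h] at h2
      have h3 : t ^ d * r k ≤ r d * t ^ k := by
        calc t ^ d * r k ≤ t ^ d * (t ^ (k - d) * r d) :=
              mul_le_mul_of_nonneg_left h2 (pow_pos ht d).le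
          _ = t ^ d * t ^ (k - d) * r d := by ring
          _ = r d * t ^ k := by rw [← pow_add, Nat.add_sub_cancel' h]; ring
      calc r d * (t ^ k * b (m - k)) = r d * t ^ k * b (m - k) := by ring
        _ ≤ t ^ d * r k * b (m - k) := mul_le_mul_of_nonpos_right h3 hbk
        _ = _ := by ring
  have h2 : ∀ k ∈ range m, t ^ (k + 1) * g (m - (k + 1)) - t ^ k * g (m - k) ≤
      t ^ k * b (m - k) := by
    intro k hk
    have hk' := mem_range.mp hk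
    obtain ⟨p, hp⟩ : ∃ p, m - k = p + 1 := ⟨m - k - 1, by omega⟩
    have hp2 : m - (k + 1) = p := by omega
    rw [hp, hp2, hb p]
    have h3 := hg1 p (by omega)
    have h4 : t ^ k * (t * g p) ≤ t ^ k * g1 p := mul_le_mul_of_nonneg_left h3 (pow_pos ht k).le
    calc t ^ (k + 1) * g p - t ^ k * g (p + 1) = t ^ k * (t * g p) - t ^ k * g (p + 1) := by
          rw [pow_succ]; ring
      _ ≤ t ^ k * g1 p - t ^ k * g (p + 1) := by linarith
      _ = _ := by ring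
  have h3 := Finset.sum_le_sum h2
  rw [Finset.sum_range_sub (fun k => t ^ k * g (m - k)) m] at h3
  simp only [Nat.sub_self, pow_zero, one_mul, Nat.sub_zero] at h3
  have h4 : 0 ≤ t ^ m * g 0 := mul_nonneg (pow_pos ht m).le hg0
  have h5 : -(g m) ≤ ∑ k ∈ range m, t ^ k * b (m - k) := by linarith
  calc -(r d * g m) = r d * (-(g m)) := by ring
    _ ≤ r d * ∑ k ∈ range m, t ^ k * b (m - k) := mul_le_mul_of_nonneg_left h5 hrd
    _ = ∑ k ∈ range m, r d * (t ^ k * b (m - k)) := by rw [Finset.mul_sum]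
    _ ≤ ∑ k ∈ range m, t ^ d * (r k * b (m - k)) := Finset.sum_le_sum h1
    _ = _ := by rw [Finset.mul_sum]

lemma ft_tn_succ_qq (L : ℕ) : ((L : ℝ) + 2) * tn (L + 1) = ((L : ℝ) + 1) * tn L * qq (L + 1) := by
  have h := cE_succ_eq L
  unfold cE at h
  push_cast at h
  linarith

lemma thL_ge_ft (L : ℕ) : 1 - 2.5 / ((L : ℝ) + 1) ≤ thL L := by
  have hL : (0 : ℝ) ≤ L := Nat.cast_nonneg L
  have ht := tn_pos L
  have h1 := ft_tn_succ_qq L
  have h2 := gl_qq_lower (L + 1) (by omega)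
  push_cast at h2
  have e : thL L = qq (L + 1) * (((L : ℝ) + 1) / ((L : ℝ) + 2)) ^ 2 := by
    unfold thL
    have e1 : tn (L + 1) = ((L : ℝ) + 1) * tn L * qq (L + 1) / ((L : ℝ) + 2) := by
      field_simp
      linarith
    rw [e1]
    field_simp
  rw [e]
  have h3 : (4 * ((L : ℝ) + 1) + 1) / (4 * ((L : ℝ) + 1) + 3) * (((L : ℝ) + 1) / ((L : ℝ) + 2)) ^ 2 ≤
      qq (L + 1) * (((L : ℝ) + 1) / ((L : ℝ) + 2)) ^ 2 :=
    mul_le_mul_of_nonneg_right h2 (by positivity)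
  refine le_trans ?_ h3
  have e2 : (4 * ((L : ℝ) + 1) + 1) / (4 * ((L : ℝ) + 1) + 3) * (((L : ℝ) + 1) / ((L : ℝ) + 2)) ^ 2 -
      (1 - 2.5 / ((L : ℝ) + 1)) =
      (17.5 * (L : ℝ) ^ 2 + 57 * L + 47) / ((4 * ((L : ℝ) + 1) + 3) * ((L : ℝ) + 2) ^ 2 * ((L : ℝ) + 1)) := by
    field_simp
    ring
  have e3 : 0 ≤ (17.5 * (L : ℝ) ^ 2 + 57 * L + 47) / ((4 * ((L : ℝ) + 1) + 3) * ((L : ℝ) + 2) ^ 2 * ((L : ℝ) + 1)) := by
    positivity
  linarith

lemma rj_th_ft (L k : ℕ) (h : 5 * (k + 2) ≤ 3 * (L + 1)) : rj (k + 1) ≤ thL L * rj k := by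
  have h1 : rj (k + 1) ≤ (1 - 1.5 / ((k : ℝ) + 2)) * rj k := by
    have h := rj_diff_ge k
    have e : (1 - 1.5 / ((k : ℝ) + 2)) * rj k = rj k - 3 / 2 * (rj k / ((k : ℝ) + 2)) := by ring
    rw [e]
    linarith
  have h2 := thL_ge_ft L
  have hk0 : (0 : ℝ) ≤ k := Nat.cast_nonneg k
  have hL0 : (0 : ℝ) ≤ L := Nat.cast_nonneg L
  have h3 : 2.5 / ((L : ℝ) + 1) ≤ 1.5 / ((k : ℝ) + 2) := by
    rw [div_le_div_iff₀ (by positivity) (by positivity)]
    have : (5 : ℝ) * (k + 2) ≤ 3 * (L + 1) := by exact_mod_cast h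
    linarith
  refine h1.trans ?_
  apply mul_le_mul_of_nonneg_right _ (rj_pos k).le
  linarith

/-- one step of the far zone, `m = m0 + d ≤ 0.6 L` -/
theorem ft_step (L m0 d : ℕ) (hd : 1 ≤ d) (hm : 5 * (m0 + d + 1) ≤ 3 * (L + 1))
    (hrk : E * (((L : ℝ) + (((m0 + d : ℕ) : ℝ) + 1)) * bb L (m0 + d + 1)) =
      ((L : ℝ) + 2) * bb L (m0 + d) + 2 * gg L (m0 + d) +
      E * ((L : ℝ) + (((m0 + d : ℕ) : ℝ) + 1)) * ∑ k ∈ range (m0 + d), rj k * bb L (m0 + d - k))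
    (hneg : ∀ q, q ≤ m0 → bb L q ≤ 0) (hpos : ∀ q, m0 < q → q ≤ m0 + d → 0 ≤ bb L q)
    (hT : E * ((L : ℝ) + (((m0 + d : ℕ) : ℝ) + 1)) * rj d ≤ 2 * thL L ^ d) :
    0 ≤ bb L (m0 + d + 1) := by
  have ht := thL_pos L
  have hE := E_pos
  have h1 := ft_abs (thL L) ht rj (gg L) (gg (L + 1)) (bb L) m0 d
    (fun j hj => rj_th_ft L j (by omega)) (rj_pos d).le (fun j => bb_succ L j)
    (gg_nonneg _ _) (fun j hj => gg_succ_ge L j (by omega)) hneg hpos
  obtain ⟨S, hS⟩ : ∃ S, S = ∑ k ∈ range (m0 + d), rj k * bb L (m0 + d - k) := ⟨_, rfl⟩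
  obtain ⟨R, hR⟩ : ∃ R : ℝ, R = (L : ℝ) + (((m0 + d : ℕ) : ℝ) + 1) := ⟨_, rfl⟩
  obtain ⟨T, hTd⟩ : ∃ T : ℝ, T = thL L ^ d := ⟨_, rfl⟩
  have hT0 : 0 < T := by rw [hTd]; exact pow_pos ht d
  have hR0 : 0 < R := by rw [hR]; positivity
  rw [← hS] at h1 hrk
  rw [← hR] at hrk hT
  rw [← hTd] at h1 hT
  have hg := gg_nonneg L (m0 + d)
  have hb := hpos (m0 + d) (by omega) le_rfl
  have h2 : 0 ≤ T * (E * (R * bb L (m0 + d + 1))) := by
    have h3 : E * R * -(rj d * gg L (m0 + d)) ≤ E * R * (T * S) :=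
      mul_le_mul_of_nonneg_left h1 (by positivity)
    have h4 : E * R * rj d * gg L (m0 + d) ≤ 2 * T * gg L (m0 + d) :=
      mul_le_mul_of_nonneg_right hT hg
    have h5 : 0 ≤ T * (((L : ℝ) + 2) * bb L (m0 + d)) := by positivity
    rw [hrk]
    nlinarith
  by_contra hneg'
  push Not at hneg'
  have h6 : R * bb L (m0 + d + 1) < 0 := mul_neg_of_pos_of_neg hR0 hneg'
  have h7 : E * (R * bb L (m0 + d + 1)) < 0 := mul_neg_of_pos_of_neg hE h6
  have h8 : T * (E * (R * bb L (m0 + d + 1))) < 0 := mul_neg_of_pos_of_neg hT0 h7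
  linarith

end Pool.Agent.MP_9da1e3_co
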