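import Pool.Agent.Lib.MP_9da1e3_co.V2_FT

namespace Pool.Agent.MP_9da1e3_co

open Finset

lemma ft_bern (L h : ℕ) : 1 - 2.5 * (h : ℝ) / ((L : ℝ) + 1) ≤ thL L ^ h := by
  have ht := thL_pos L
  have h1 := thL_ge_ft L
  have h2 : 1 + (h : ℝ) * (thL L - 1) ≤ (1 + (thL L - 1)) ^ h :=
    one_add_mul_le_pow (by linarith) h
  have e : 1 + (thL L - 1) = thL L := by ring
  rw [e] at h2
  refine le_trans ?_ h2
  have hh : (0 : ℝ) ≤ h := Nat.cast_nonneg h
  have e2 : 2.5 * (h : ℝ) / ((L : ℝ) + 1) = (h : ℝ) * (2.5 / ((L : ℝ) + 1)) := by ring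
  rw [e2]
  nlinarith

lemma ft_num (L m0 d : ℕ) (hL : 1000 ≤ L) (h1 : ((m0 : ℝ) + 1) ^ 3 ≤ (0.8 * (L : ℝ)) ^ 2)
    (h2 : (0.3 * (L : ℝ)) ^ 2 ≤ (d : ℝ) ^ 3) (h3 : 2 * (m0 + d) ≤ L)
    (hrk : rj d ≤ 0.1468 / ((d : ℝ) * √(d : ℝ))) :
    E * ((L : ℝ) + (((m0 + d : ℕ) : ℝ) + 1)) * rj d ≤ 2 * thL L ^ d := by
  have hLr : (1000 : ℝ) ≤ L := by exact_mod_cast hL
  have hE := E_pos
  have hE2 := E_le
  have hd0 : (0 : ℝ) < d := by
    rcases Nat.eq_zero_or_pos d with rfl | h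
    · norm_num at h2
      nlinarith
    · exact_mod_cast h
  have hdL : 2 * ((m0 : ℝ) + d) ≤ L := by exact_mod_cast h3
  obtain ⟨w, hw⟩ : ∃ w : ℝ, w = (d : ℝ) * √(d : ℝ) := ⟨_, rfl⟩
  have hw0 : 0 < w := by rw [hw]; positivity
  have hw2 : w ^ 2 = (d : ℝ) ^ 3 := by
    rw [hw, mul_pow, Real.sq_sqrt hd0.le]
    ring
  rw [← hw] at hrk
  have hm0 : (m0 : ℝ) + 1 ≤ 0.0862 * L := by
    by_contra hc
    push Not at hc
    have h4 : (0.0862 * (L : ℝ)) ^ 3 < ((m0 : ℝ) + 1) ^ 3 :=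
      pow_lt_pow_left₀ hc (by positivity) (by norm_num)
    nlinarith
  have hS : ∀ c : ℝ, 0 < c → c * L ≤ w → E * ((L : ℝ) + (((m0 + d : ℕ) : ℝ) + 1)) * rj d ≤
      0.39905 * ((1.0862 + (d : ℝ) / L) / c) := by
    intro c hc hcw
    have hL0 : (0 : ℝ) < L := by linarith
    have h5 : rj d ≤ 0.1468 / (c * L) :=
      hrk.trans (div_le_div_of_nonneg_left (by norm_num) (by positivity) hcw)
    have h6 : (L : ℝ) + (((m0 + d : ℕ) : ℝ) + 1) ≤ (1.0862 + (d : ℝ) / L) * L := by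
      push_cast
      have : (1.0862 + (d : ℝ) / L) * L = 1.0862 * L + d := by field_simp
      rw [this]
      linarith
    have h7 : E * ((L : ℝ) + (((m0 + d : ℕ) : ℝ) + 1)) ≤ 2.7183 * ((1.0862 + (d : ℝ) / L) * L) :=
      mul_le_mul hE2 h6 (by positivity) (by norm_num)
    calc E * ((L : ℝ) + (((m0 + d : ℕ) : ℝ) + 1)) * rj d
        ≤ 2.7183 * ((1.0862 + (d : ℝ) / L) * L) * (0.1468 / (c * L)) :=
          mul_le_mul h7 h5 (rj_pos d).le (by positivity)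
      _ = (2.7183 * 0.1468) * ((1.0862 + (d : ℝ) / L) / c) := by field_simp
      _ ≤ _ := by
          apply mul_le_mul_of_nonneg_right (by norm_num)
          positivity
  have hL0 : (0 : ℝ) < L := by linarith
  have hbern := ft_bern L d
  have hwc : ∀ c : ℝ, 0 < c → (c * (L : ℝ)) ^ 2 ≤ (d : ℝ) ^ 3 → c * L ≤ w := by
    intro c hc h
    rw [← hw2] at h
    exact le_of_sq_le_sq h hw0.le
  rcases le_or_gt (d : ℝ) (0.15 * L) with hA | hA
  · rcases le_or_gt (d : ℝ) (0.08 * L) with hA' | hA'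
    · have s := hS 0.3 (by norm_num) (hwc 0.3 (by norm_num) h2)
      have x1 : (d : ℝ) / L ≤ 0.08 := by rw [div_le_iff₀ hL0]; exact hA'
      have x2 : 2.5 * (d : ℝ) / ((L : ℝ) + 1) ≤ 0.2 := by
        rw [div_le_iff₀ (by positivity)]
        linarith
      have x3 : (1.0862 + (d : ℝ) / L) / 0.3 ≤ (1.0862 + 0.08) / 0.3 := by
        apply div_le_div_of_nonneg_right _ (by norm_num)
        linarith
      have x4 : (0.39905 : ℝ) * ((1.0862 + 0.08) / 0.3) ≤ 1.6 := by norm_num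
      linarith
    · have g1 : (0.7 * (L : ℝ)) ^ 2 ≤ (d : ℝ) ^ 3 := by
        have h4 : (0.08 * (L : ℝ)) ^ 3 ≤ (d : ℝ) ^ 3 := pow_le_pow_left₀ (by positivity) hA'.le 3
        have h5 : (0.7 * (L : ℝ)) ^ 2 ≤ (0.08 * (L : ℝ)) ^ 3 := by nlinarith [sq_nonneg (L : ℝ)]
        linarith
      have s := hS 0.7 (by norm_num) (hwc 0.7 (by norm_num) g1)
      have x1 : (d : ℝ) / L ≤ 0.15 := by rw [div_le_iff₀ hL0]; exact hA
      have x2 : 2.5 * (d : ℝ) / ((L : ℝ) + 1) ≤ 0.375 := by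
        rw [div_le_iff₀ (by positivity)]
        linarith
      have x3 : (1.0862 + (d : ℝ) / L) / 0.7 ≤ (1.0862 + 0.15) / 0.7 := by
        apply div_le_div_of_nonneg_right _ (by norm_num)
        linarith
      have x4 : (0.39905 : ℝ) * ((1.0862 + 0.15) / 0.7) ≤ 1.2 := by norm_num
      linarith
  · rcases le_or_gt (d : ℝ) (0.3 * L) with hB | hB
    · have g1 : (1.8 * (L : ℝ)) ^ 2 ≤ (d : ℝ) ^ 3 := by
        have h4 : (0.15 * (L : ℝ)) ^ 3 ≤ (d : ℝ) ^ 3 := pow_le_pow_left₀ (by positivity) hA.le 3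
        have h5 : (1.8 * (L : ℝ)) ^ 2 ≤ (0.15 * (L : ℝ)) ^ 3 := by nlinarith [sq_nonneg (L : ℝ)]
        linarith
      have s := hS 1.8 (by norm_num) (hwc 1.8 (by norm_num) g1)
      have x1 : (d : ℝ) / L ≤ 0.3 := by rw [div_le_iff₀ hL0]; exact hB
      have x2 : 2.5 * (d : ℝ) / ((L : ℝ) + 1) ≤ 0.75 := by
        rw [div_le_iff₀ (by positivity)]
        linarith
      have x3 : (1.0862 + (d : ℝ) / L) / 1.8 ≤ (1.0862 + 0.3) / 1.8 := by
        apply div_le_div_of_nonneg_right _ (by norm_num)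
        linarith
      have x4 : (0.39905 : ℝ) * ((1.0862 + 0.3) / 1.8) ≤ 0.32 := by norm_num
      linarith
    · have g1 : (5 * (L : ℝ)) ^ 2 ≤ (d : ℝ) ^ 3 := by
        have h4 : (0.3 * (L : ℝ)) ^ 3 ≤ (d : ℝ) ^ 3 := pow_le_pow_left₀ (by positivity) hB.le 3
        have h5 : (5 * (L : ℝ)) ^ 2 ≤ (0.3 * (L : ℝ)) ^ 3 := by nlinarith [sq_nonneg (L : ℝ)]
        linarith
      have s := hS 5 (by norm_num) (hwc 5 (by norm_num) g1)
      have hdl : (d : ℝ) ≤ 0.5 * L := by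
        have : (0 : ℝ) ≤ m0 := Nat.cast_nonneg m0
        linarith
      have x1 : (d : ℝ) / L ≤ 0.5 := by rw [div_le_iff₀ hL0]; exact hdl
      have x3 : (1.0862 + (d : ℝ) / L) / 5 ≤ (1.0862 + 0.5) / 5 := by
        apply div_le_div_of_nonneg_right _ (by norm_num)
        linarith
      have x4 : (0.39905 : ℝ) * ((1.0862 + 0.5) / 5) ≤ 0.13 := by norm_num
      -- the square
      obtain ⟨h, hh⟩ : ∃ h, h = (d + 1) / 2 := ⟨_, rfl⟩
      have hh1 : d ≤ 2 * h := by omega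
      have hh2 : 2 * h ≤ d + 1 := by omega
      have b1 := ft_bern L h
      have ht := thL_pos L
      have y1 : 2.5 * (h : ℝ) / ((L : ℝ) + 1) ≤ 0.63 := by
        rw [div_le_iff₀ (by positivity)]
        have : (2 : ℝ) * h ≤ d + 1 := by exact_mod_cast hh2
        linarith
      have y2 : (0.37 : ℝ) ≤ thL L ^ h := by linarith
      have y3 : (0.37 : ℝ) ^ 2 ≤ (thL L ^ h) ^ 2 := pow_le_pow_left₀ (by norm_num) y2 2
      have y4 : (thL L ^ h) ^ 2 ≤ thL L ^ d := by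
        rw [← pow_mul]
        apply pow_le_pow_of_le_one ht.le
        · unfold thL
          have h1 : tn (L + 1) / tn L ≤ 1 := by
            rw [div_le_one (tn_pos L)]
            exact tn_le_of_le (by omega)
          have h2 : ((L : ℝ) + 1) / ((L : ℝ) + 2) ≤ 1 := by
            rw [div_le_one (by positivity)]
            linarith
          have h3 : 0 ≤ ((L : ℝ) + 1) / ((L : ℝ) + 2) := by positivity
          have h4 : 0 ≤ tn (L + 1) / tn L := (div_pos (tn_pos _) (tn_pos _)).le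
          nlinarith
        · omega
      norm_num at y3
      linarith

end Pool.Agent.MP_9da1e3_co
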