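import Pool.Agent.Lib.MP_9da1e3_co.V2_Asm

/-! Assembly: small levels + seam + large levels ⇒ unimodality for all `n`. -/

namespace Pool.Agent.MP_9da1e3_co

theorem r8_glue (nuT : ℕ → ℕ)
    (S : (∀ L n, L < 1000 → L < n → n < nuT L → Fr (L + 2) n + Fr L n < 2 * Fr (L + 1) n) ∧
      (∀ L n, L < 1000 → nuT L ≤ n → 2 * Fr (L + 1) n ≤ Fr (L + 2) n + Fr L n) ∧
      (∀ L, L < 1000 → L + 1 < nuT L) ∧
      (∀ L, L + 1 < 1000 → nuT L ≤ nuT (L + 1)) ∧ nuT 999 = 1076)
    (Y : ∀ n, 1000 < n → n < 1077 → Fr (1000 + 2) n + Fr 1000 n < 2 * Fr (1000 + 1) n)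
    (HL : ∃ nuA : ℕ → ℕ, (∀ L, 1000 ≤ L → L + 1 < nuA L) ∧ (∀ L, 1000 ≤ L → nuA L ≤ nuA (L + 1)) ∧
      (∀ L n, 1000 ≤ L → L < n → n < nuA L → Fr (L + 2) n + Fr L n < 2 * Fr (L + 1) n) ∧
      (∀ L n, 1000 ≤ L → nuA L ≤ n → 2 * Fr (L + 1) n ≤ Fr (L + 2) n + Fr L n) ∧
      (∀ M : ℕ, (∀ r, 1 ≤ r → r ≤ M → bb 1000 r < 0) → 1000 + M < nuA 1000))
    (n : ℕ) (hn : 1 ≤ n) :
    ∃ m : ℕ, m < n ∧ (∀ l, l < m → a n l ≤ a n (l + 1)) ∧
      (∀ l, m ≤ l → l < n → a n (l + 1) < a n l) := by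
  obtain ⟨S1, S2, S3, S4, S5⟩ := S
  obtain ⟨nuA, A1, A2, A3, A4, A5⟩ := HL
  have seam : nuT 999 ≤ nuA 1000 := by
    have h := A5 76 (by
      intro r h1 h2
      rw [bb_eq_Bn 1000 r h1, Bn_neg_iff]
      exact Y (1000 + r) (by omega) (by omega))
    omega
  refine unimodal_of_nu (fun L => if L < 1000 then nuT L else nuA L) ?_ ?_ ?_ ?_ n hn
  · intro L
    by_cases h1 : L + 1 < 1000
    · simp only [h1, if_true, show L < 1000 by omega]
      exact S4 L h1
    · by_cases h2 : L < 1000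
      · have h3 : L = 999 := by omega
        subst h3
        simpa using seam
      · simp only [h1, if_false, h2]
        exact A2 L (by omega)
  · intro L
    by_cases h2 : L < 1000
    · simp only [h2, if_true]
      exact S3 L h2
    · simp only [h2, if_false]
      exact A1 L (by omega)
  · intro L n h3 h4
    by_cases h2 : L < 1000
    · simp only [h2, if_true] at h4
      exact S1 L n h2 h3 h4
    · simp only [h2, if_false] at h4
      exact A3 L n (by omega) h3 h4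
  · intro L n h4
    by_cases h2 : L < 1000
    · simp only [h2, if_true] at h4
      exact S2 L n h2 h4
    · simp only [h2, if_false] at h4
      exact A4 L n (by omega) h4

end Pool.Agent.MP_9da1e3_co
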