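import Pool.Agent.Lib.MP_9da1e3_co.V2_R7
import Pool.Agent.Lib.MP_9da1e3_co.V2_R8
import Pool.Agent.Lib.MP_9da1e3_co.KcY

/-! The final statement from the rows R1, R2, R3 + R4, R5 (levels `L ≥ 1000`). -/

namespace Pool.Agent.MP_9da1e3_co

lemma seam_1000 : ∀ n, 1000 < n → n < 1077 →
    Fr (1000 + 2) n + Fr 1000 n < 2 * Fr (1000 + 1) n := by
  intro n h1 h2
  have hN : NNk 1000 = 2530 := by decide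
  exact (kc_sign_1000 n h1 (by rw [hN]; omega)).1 h2

theorem fin_of
    (R1 : ∀ L M : ℕ, 1000 ≤ L → (M : ℝ) ^ 3 ≤ (0.8 * (L : ℝ)) ^ 2 →
      (∀ r, 1 ≤ r → r ≤ M → bb L r < 0) → ∀ r, 2 ≤ r → r ≤ M → bb (L + 1) (r - 1) ≤ bb L r)
    (R2 : ∀ L : ℕ, 1000 ≤ L → ∃ y : ℕ, 1 ≤ y ∧ (y : ℝ) ^ 3 ≤ (0.8 * (L : ℝ)) ^ 2 ∧ 0 ≤ bb L y)
    (R34 : ∀ L m0 d : ℕ, 1000 ≤ L → 1 ≤ m0 → ((m0 : ℝ) + 1) ^ 3 ≤ (0.8 * (L : ℝ)) ^ 2 →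
      (∀ r, 1 ≤ r → r ≤ m0 → bb L r < 0) → 1 ≤ d → m0 + d + 1 ≤ L →
      (∀ r, m0 < r → r ≤ m0 + d → 0 ≤ bb L r) → 0 ≤ bb L (m0 + d + 1))
    (R5 : ∀ L m0 : ℕ, 1000 ≤ L → 1 ≤ m0 → ((m0 : ℝ) + 1) ^ 3 ≤ (0.8 * (L : ℝ)) ^ 2 →
      (∀ r, 1 ≤ r → r ≤ m0 → bb L r < 0) → (∀ r, m0 < r → r ≤ L → 0 ≤ bb L r) →
      ∀ n, L + m0 < n → 0 ≤ Bn L n) :
    ∀ n : ℕ, 1 ≤ n → ∃ m : ℕ, m < n ∧ (∀ l, l < m → a n l ≤ a n (l + 1)) ∧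
      (∀ l, m ≤ l → l < n → a n (l + 1) < a n l) := fun n hn =>
  r8_glue nuT small_levels seam_1000 (large_asm R1 R2 R34 R5) n hn

end Pool.Agent.MP_9da1e3_co
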