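import Pool.Agent.Lib.MP_9da1e3_co.NR2

/-! Telescoping lower bounds for (weighted) sums of `gg`. -/

namespace Pool.Agent.MP_9da1e3_co

open Finset

/-- `θ_L = tn L / tn (L + 1) = 1 + 1.5 / L + ...` -/
noncomputable def tht (L : ℕ) : ℝ := tn L / tn (L + 1)

lemma tht_pos (L : ℕ) : 0 < tht L := div_pos (tn_pos _) (tn_pos _)

/-- one step: `gg (L+1) i ≥ (t_{L+1}/t_L) HH L i - HH L (i+1)` -/
lemma gg_ge_diff (L i : ℕ) (hi : i ≤ L) :
    tn (L + 1) / tn L * HH L i - HH L (i + 1) ≤ gg (L + 1) i := by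
  have h1 := HH_diff L i
  have h2 := HH_succ_ge' L i hi
  linarith

/-- the `θ`-weighted sum of `gg` telescopes -/
theorem gam_ge (L a : ℕ) : ∀ d : ℕ, a + d ≤ L + 1 →
    (HH L a - tht L ^ d * HH L (a + d)) / tht L ≤ ∑ i ∈ range d, tht L ^ i * gg (L + 1) (a + i) := by
  have ht := tht_pos L
  have hinv : tn (L + 1) / tn L = 1 / tht L := by
    unfold tht
    rw [one_div_div]
  intro d
  induction d with
  | zero => intro _; simp
  | succ d ih =>
    intro hd
    have h1 := ih (by omega)
    have h2 := gg_ge_diff L (a + d) (by omega)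
    rw [hinv] at h2
    rw [Finset.sum_range_succ]
    have h3 := mul_le_mul_of_nonneg_left h2 (pow_pos ht d).le
    have e1 : a + (d + 1) = a + d + 1 := by omega
    rw [e1]
    have e2 : (HH L a - tht L ^ (d + 1) * HH L (a + d + 1)) / tht L =
        (HH L a - tht L ^ d * HH L (a + d)) / tht L +
          tht L ^ d * (1 / tht L * HH L (a + d) - HH L (a + d + 1)) := by
      field_simp
      ring
    rw [e2]
    linarith

/-- the plain sum of `gg` -/
theorem gsum_ge (L a : ℕ) : ∀ d : ℕ, a + d ≤ L + 1 →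
    HH L a - HH L (a + d) - (1 - tn (L + 1) / tn L) * ∑ i ∈ range d, HH L (a + i) ≤
      ∑ i ∈ range d, gg (L + 1) (a + i) := by
  intro d
  induction d with
  | zero => intro _; simp
  | succ d ih =>
    intro hd
    have h1 := ih (by omega)
    have h2 := gg_ge_diff L (a + d) (by omega)
    rw [Finset.sum_range_succ, Finset.sum_range_succ]
    have e1 : a + (d + 1) = a + d + 1 := by omega
    rw [e1]
    nlinarith

end Pool.Agent.MP_9da1e3_co
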