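import Pool.Agent.Lib.MP_9da1e3_co.Z2
import Pool.Agent.Lib.MP_9da1e3_co.Lin47
import Pool.Agent.Lib.MP_9da1e3_co.V2_gam
import Pool.Agent.Lib.MP_9da1e3_co.V2_Drate

/-! Definitions for the step beyond `2L`. -/

namespace Pool.Agent.MP_9da1e3_co

open Finset

/-- the coefficients of `F_L F_(L+1)` -/
noncomputable def r5ps (L k : ℕ) : ℝ := PowerSeries.coeff k (FF L * FF (L + 1))

/-- their weighted partial sums -/
noncomputable def r5S (L N : ℕ) : ℝ := ∑ k ∈ range N, tht L ^ k * r5ps L k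

/-- the factor of the step from `m` to `m + 1`, cut place `L + 14` -/
noncomputable def r5kap (L m : ℕ) : ℝ :=
  E * (((m : ℝ) + 1) * rn (L + 1) (m + 1 - (L + 14))) * tht L ^ (m + 1 - (L + 14))

lemma r5_tht_ge_one (L : ℕ) : 1 ≤ tht L := by
  unfold tht
  rw [le_div_iff₀ (tn_pos _), one_mul]
  exact tn_anti L

lemma r5_tht_ge (L : ℕ) : 1 + 3 / (2 * ((L : ℝ) + 1)) ≤ tht L := by
  unfold tht
  rw [le_div_iff₀ (tn_pos _)]
  exact tn_ratio_step L

lemma r5_tht_le (L : ℕ) (hL : 1 ≤ L) : tht L ≤ 1 + 3 / (2 * (L : ℝ)) := by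
  have hL0 : (1 : ℝ) ≤ L := by exact_mod_cast hL
  have h := le_rk L
  have h1 := ww_succ L
  have e1 := ww_eq_tn L
  have e2 := ww_eq_tn (L + 1)
  have hE := E_pos
  have ht := tn_pos L
  have ht2 := tn_pos (L + 1)
  push_cast at e2
  rw [e1, e2] at h1
  have h2 : E * (((L : ℝ) + 2) * tn (L + 1)) = rk L * (((L : ℝ) + 1) * tn L) := by
    have e3 : E * (((L : ℝ) + 1 + 1) * (tn (L + 1) / E)) = ((L : ℝ) + 2) * tn (L + 1) := by
      field_simp
      ring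
    have e4 : rk L * (((L : ℝ) + 1) * (tn L / E)) = rk L * (((L : ℝ) + 1) * tn L) / E := by ring
    rw [e3, e4] at h1
    rw [h1]
    field_simp
  have hrk : 0 < rk L := by
    unfold rk
    positivity
  -- E (2 - 7/(18(L+1))) <= rk (2 + 11/(18(L+2)))
  have h3 : E * (36 * ((L : ℝ) + 1) - 7) * ((L : ℝ) + 2) ≤
      rk L * (36 * ((L : ℝ) + 2) + 11) * ((L : ℝ) + 1) := by
    have h4 := mul_le_mul_of_nonneg_right h
      (show (0 : ℝ) ≤ 18 * ((L : ℝ) + 1) * ((L : ℝ) + 2) by positivity)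
    have e5 : E * (2 - 7 / (18 * ((L : ℝ) + 1))) * (18 * ((L : ℝ) + 1) * ((L : ℝ) + 2)) =
        E * (36 * ((L : ℝ) + 1) - 7) * ((L : ℝ) + 2) := by
      field_simp
      ring
    have e6 : rk L * (2 + 11 / (18 * ((L : ℝ) + 2))) * (18 * ((L : ℝ) + 1) * ((L : ℝ) + 2)) =
        rk L * (36 * ((L : ℝ) + 2) + 11) * ((L : ℝ) + 1) := by
      field_simp
      ring
    rw [e5, e6] at h4
    exact h4
  -- tn L (36(L+1) - 7) <= (36 (L+2) + 11) tn (L+1)
  have h5 : (36 * ((L : ℝ) + 1) - 7) * tn L ≤ (36 * ((L : ℝ) + 2) + 11) * tn (L + 1) := by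
    have h6 := mul_le_mul_of_nonneg_right h3 ht.le
    have e7 : rk L * (36 * ((L : ℝ) + 2) + 11) * ((L : ℝ) + 1) * tn L =
        (E * ((L : ℝ) + 2)) * ((36 * ((L : ℝ) + 2) + 11) * tn (L + 1)) := by
      have : rk L * (36 * ((L : ℝ) + 2) + 11) * ((L : ℝ) + 1) * tn L =
          (36 * ((L : ℝ) + 2) + 11) * (rk L * (((L : ℝ) + 1) * tn L)) := by ring
      rw [this, ← h2]
      ring
    have e8 : E * (36 * ((L : ℝ) + 1) - 7) * ((L : ℝ) + 2) * tn L =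
        (E * ((L : ℝ) + 2)) * ((36 * ((L : ℝ) + 1) - 7) * tn L) := by ring
    rw [e7, e8] at h6
    exact le_of_mul_le_mul_left h6 (by positivity)
  unfold tht
  rw [div_le_iff₀ ht2]
  have e9 : (1 + 3 / (2 * (L : ℝ))) * tn (L + 1) = (2 * (L : ℝ) + 3) / (2 * L) * tn (L + 1) := by
    field_simp
  rw [e9, div_mul_eq_mul_div, le_div_iff₀ (by positivity)]
  -- tn L * 2L <= (2L+3) tn (L+1)
  have h10 : (36 * ((L : ℝ) + 1) - 7) * (tn L * (2 * L)) ≤
      (36 * ((L : ℝ) + 1) - 7) * ((2 * (L : ℝ) + 3) * tn (L + 1)) := by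
    have h11 := mul_le_mul_of_nonneg_left h5 (show (0 : ℝ) ≤ 2 * L by positivity)
    have h12 : (2 * (L : ℝ)) * (36 * ((L : ℝ) + 2) + 11) ≤
        (36 * ((L : ℝ) + 1) - 7) * (2 * (L : ℝ) + 3) := by nlinarith
    have h13 := mul_le_mul_of_nonneg_right h12 ht2.le
    nlinarith
  exact le_of_mul_le_mul_left h10 (by nlinarith)

lemma r5_tht_thL (L : ℕ) : thL L * tht L = ((L : ℝ) + 1) / ((L : ℝ) + 2) := by
  unfold thL tht
  have h1 := (tn_pos L).ne'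
  have h2 := (tn_pos (L + 1)).ne'
  field_simp

lemma r5ps_nonneg (L k : ℕ) : 0 ≤ r5ps L k := coeff_FF_FF_nonneg L k

lemma r5ps_low (L k : ℕ) (hk : k ≤ L) : r5ps L k = TS2 k := coeff_FF_FF L k hk

lemma r5S_mono (L : ℕ) {a b : ℕ} (h : a ≤ b) : r5S L a ≤ r5S L b :=
  Finset.sum_le_sum_of_subset_of_nonneg (Finset.range_mono h)
    fun k _ _ => mul_nonneg (pow_nonneg (tht_pos L).le k) (r5ps_nonneg L k)

end Pool.Agent.MP_9da1e3_co
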