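import Pool.Agent.Lib.MP_9da1e3_co.V2_TN73
import Pool.Agent.Lib.MP_9da1e3_co.V2_R5D

/-!
Row E of R5 in the notation of `V2_R5D`.
-/

namespace Pool.Agent.MP_9da1e3_co

open Finset

lemma r5e73_tht_ge (L : ℕ) : 1 + 3 / (2 * ((L : ℝ) + 2)) ≤ tht L := by
  refine le_trans ?_ (r5_tht_ge L)
  have : 3 / (2 * ((L : ℝ) + 2)) ≤ 3 / (2 * ((L : ℝ) + 1)) :=
    div_le_div_of_nonneg_left (by norm_num) (by positivity) (by linarith)
  linarith

/-- `κ ≤ 3.68 / √L` -/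
theorem r5e73_kap (L m : ℕ) (hL : 1000 ≤ L) (hm : 2 * L ≤ m) : r5kap L m ≤ 3.68 / √(L : ℝ) :=
  tn73_kap L (L + 14) m hL (by omega) le_rfl hm (tht L) (r5_tht_ge_one L) (r5_tht_le L (by omega))

/-- the termwise inequality for `N ≤ L` -/
theorem r5e73_low (L m N : ℕ) (hL : 1000 ≤ L) (hm : 2 * L ≤ m) (hN : N ≤ L) (σ : ℝ)
    (hσ : 0.68 ≤ σ) :
    (1 - thL L * tht L) * r5kap L m * r5S L N ≤
      σ * (2 - r5kap L m / tht L) * (r5ps L N * tht L ^ (N + 1)) :=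
  tn73_case L m N (L + 14) hL (by omega) le_rfl hm hN (tht L) (r5e73_tht_ge L)
    (r5_tht_le L (by omega)) σ hσ

end Pool.Agent.MP_9da1e3_co
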