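import Pool.Agent.Lib.MP_9da1e3_co.V2_ObjF

namespace Pool.Agent.MP_9da1e3_co

open Finset

lemma oc_theta_pow (L s : ℕ) : 1 + 3 / 2 * (s : ℝ) / L ≤ (1 + 3 / (2 * (L : ℝ))) ^ s := by
  have h : (1 : ℝ) + s * (3 / (2 * (L : ℝ))) ≤ (1 + 3 / (2 * (L : ℝ))) ^ s := by
    apply one_add_mul_le_pow
    have : (0 : ℝ) ≤ 3 / (2 * (L : ℝ)) := by positivity
    linarith
  calc 1 + 3 / 2 * (s : ℝ) / L = (1 : ℝ) + s * (3 / (2 * (L : ℝ))) := by ring
    _ ≤ _ := h

/-- one factor, at `N - s`, against `r` at `N` -/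
lemma oc_shift (L N s : ℕ) (hL : 1000 ≤ L) (hN : L + 1 ≤ N) (hs : 2 * s ≤ L) :
    E ^ 2 * (1 - 8 / (L : ℝ)) * ((N : ℝ) / L * rn (L + 1) N) ≤ Fn L (N - s) := by
  have hE := E_pos
  have hLr : (1000 : ℝ) ≤ L := by exact_mod_cast hL
  have hLp : (0 : ℝ) < L := by linarith
  have h8 : 0 ≤ 1 - 8 / (L : ℝ) := by
    rw [sub_nonneg, div_le_one (by positivity)]
    linarith
  have hc : 0 ≤ E ^ 2 * (1 - 8 / (L : ℝ)) := by positivity
  have hr : 0 ≤ rn (L + 1) N := by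
    obtain ⟨q, rfl⟩ : ∃ q, N = q + 1 := ⟨N - 1, by omega⟩
    exact rn_nonneg (L + 1) q
  have h1 := z_rate_pow L (by omega) (N - s) (by omega) s
  have e1 : N - s + s = N := by omega
  rw [e1] at h1
  have h2 := oc_theta_pow L s
  have h3 : (1 + 3 / 2 * (s : ℝ) / L) * rn (L + 1) N ≤ rn (L + 1) (N - s) :=
    (mul_le_mul_of_nonneg_right h2 hr).trans h1
  have e2 : ((N - s : ℕ) : ℝ) = (N : ℝ) - s := by
    rw [Nat.cast_sub (by omega)]
  have hs0 : (0 : ℝ) ≤ s := Nat.cast_nonneg s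
  rcases Nat.lt_or_ge (N - s) L with h | h
  · rw [Fn_eq_tn L (N - s) h.le]
    refine le_trans ?_ (of_base L (N - s) hL (by omega) h.le)
    apply mul_le_mul_of_nonneg_left _ hc
    refine le_trans ?_ h3
    apply mul_le_mul_of_nonneg_right _ hr
    have h4 : (N : ℝ) - s ≤ L := by
      rw [← e2]
      exact_mod_cast h.le
    rw [div_le_iff₀ hLp]
    have : (1 + 3 / 2 * (s : ℝ) / L) * L = L + 3 / 2 * s := by field_simp
    rw [this]
    linarith
  · refine le_trans ?_ (of_main L hL (N - s) h)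
    apply mul_le_mul_of_nonneg_left _ hc
    have h4 : (L : ℝ) ≤ (N : ℝ) - s := by
      rw [← e2]
      exact_mod_cast h
    have h5 : ((N - s : ℕ) : ℝ) / L * ((1 + 3 / 2 * (s : ℝ) / L) * rn (L + 1) N) ≤
        ((N - s : ℕ) : ℝ) / L * rn (L + 1) (N - s) :=
      mul_le_mul_of_nonneg_left h3 (by positivity)
    refine le_trans ?_ h5
    rw [e2, ← mul_assoc]
    apply mul_le_mul_of_nonneg_right _ hr
    have e3 : ((N : ℝ) - s) / L * (1 + 3 / 2 * (s : ℝ) / L) =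
        (((N : ℝ) - s) * (L + 3 / 2 * s)) / (L * L) := by
      field_simp
    rw [e3, div_le_div_iff₀ hLp (by positivity)]
    have h6 : (N : ℝ) * L ≤ ((N : ℝ) - s) * (L + 3 / 2 * s) := by
      have : (s : ℝ) * L ≤ s * (3 / 2 * ((N : ℝ) - s)) :=
        mul_le_mul_of_nonneg_left (by linarith) hs0
      nlinarith
    calc (N : ℝ) * (L * L) = (N : ℝ) * L * L := by ring
      _ ≤ (((N : ℝ) - s) * (L + 3 / 2 * s)) * L := mul_le_mul_of_nonneg_right h6 hLp.le

/-- (OBJ) the product -/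
theorem obj_C (L N : ℕ) (hL : 1000 ≤ L) (hN : L + 1 ≤ N) :
    1.9 * E ^ 3 * ((N : ℝ) / L * rn (L + 1) N) ≤ PowerSeries.coeff N (FF L * FF (L + 1)) := by
  have hE := E_pos
  have hLr : (1000 : ℝ) ≤ L := by exact_mod_cast hL
  have hLp : (0 : ℝ) < L := by linarith
  have h8 : 0 ≤ 1 - 8 / (L : ℝ) := by
    rw [sub_nonneg, div_le_one (by positivity)]
    linarith
  have hr : 0 ≤ rn (L + 1) N := by
    obtain ⟨q, rfl⟩ : ∃ q, N = q + 1 := ⟨N - 1, by omega⟩
    exact rn_nonneg (L + 1) q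
  obtain ⟨S, hS⟩ : ∃ S, S = L / 2 := ⟨_, rfl⟩
  have hS1 : 500 ≤ S := by omega
  have hS2 : 2 * S ≤ L := by omega
  obtain ⟨x, hx⟩ : ∃ x : ℝ, x = E ^ 2 * (1 - 8 / (L : ℝ)) * ((N : ℝ) / L * rn (L + 1) N) :=
    ⟨_, rfl⟩
  have hx0 : 0 ≤ x := by rw [hx]; positivity
  rw [lin_coeff_mul_range]
  have e1 : ∑ k ∈ range (N + 1), PowerSeries.coeff k (FF L) * PowerSeries.coeff (N - k) (FF (L + 1)) =
      ∑ k ∈ range (N + 1), Fn L k * Fn (L + 1) (N - k) := by
    apply Finset.sum_congr rfl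
    intro k _
    rw [coeff_FF, coeff_FF]
  rw [e1]
  -- split off the two ends
  have e2 : N + 1 = (N + 1 - S) + S := by omega
  have e3 : N + 1 - S = S + (N + 1 - S - S) := by omega
  have h1 : ∑ k ∈ range S, Fn L k * Fn (L + 1) (N - k) +
      ∑ k ∈ range S, Fn L (N + 1 - S + k) * Fn (L + 1) (N - (N + 1 - S + k)) ≤
      ∑ k ∈ range (N + 1), Fn L k * Fn (L + 1) (N - k) := by
    have e6 : ∑ k ∈ range (N + 1), Fn L k * Fn (L + 1) (N - k) =
        ∑ k ∈ range (N + 1 - S), Fn L k * Fn (L + 1) (N - k) +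
        ∑ k ∈ range S, Fn L (N + 1 - S + k) * Fn (L + 1) (N - (N + 1 - S + k)) := by
      rw [← Finset.sum_range_add (fun k => Fn L k * Fn (L + 1) (N - k)) (N + 1 - S) S, ← e2]
    rw [e6]
    apply add_le_add _ le_rfl
    apply Finset.sum_le_sum_of_subset_of_nonneg
    · intro k hk
      have := mem_range.mp hk
      exact mem_range.mpr (by omega)
    · intro k _ _
      exact mul_nonneg (Fn_nonneg _ _) (Fn_nonneg _ _)
  have h2 : (∑ k ∈ range S, tn k) * x ≤ ∑ k ∈ range S, Fn L k * Fn (L + 1) (N - k) := by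
    rw [Finset.sum_mul]
    apply Finset.sum_le_sum
    intro k hk
    have hk' := mem_range.mp hk
    rw [Fn_eq_tn L k (by omega)]
    apply mul_le_mul_of_nonneg_left _ (tn_pos k).le
    have a1 := oc_shift L N k hL hN (by omega)
    have a2 := An_nonneg L (N - k)
    unfold An at a2
    rw [hx]
    linarith
  have h3 : (∑ k ∈ range S, tn k) * x ≤
      ∑ k ∈ range S, Fn L (N + 1 - S + k) * Fn (L + 1) (N - (N + 1 - S + k)) := by
    rw [← Finset.sum_range_reflect (fun k => tn k) S, Finset.sum_mul]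
    apply Finset.sum_le_sum
    intro k hk
    have hk' := mem_range.mp hk
    have e4 : N - (N + 1 - S + k) = S - 1 - k := by omega
    have e5 : N + 1 - S + k = N - (S - 1 - k) := by omega
    rw [e4, e5, Fn_eq_tn (L + 1) (S - 1 - k) (by omega), mul_comm]
    apply mul_le_mul_of_nonneg_right _ (tn_pos _).le
    have a1 := oc_shift L N (S - 1 - k) hL hN (by omega)
    rw [hx]
    exact a1
  have h4 : 0.9643 * E ≤ ∑ k ∈ range S, tn k := by
    have a1 := E_sub_sum_le (m := S) (by omega)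
    have a2 := cA_lt
    have a3 : (22.36 : ℝ) ≤ √(S : ℝ) := by
      apply Real.le_sqrt_of_sq_le
      have : (500 : ℝ) ≤ S := by exact_mod_cast hS1
      norm_num
      linarith
    have a4 : 2 * cA / √(S : ℝ) ≤ 0.09701 := by
      rw [div_le_iff₀ (by linarith)]
      nlinarith
    have a5 : (2.7182818283 : ℝ) < E := Real.exp_one_gt_d9
    linarith
  have h5 : 0.9643 * E * x ≤ (∑ k ∈ range S, tn k) * x := mul_le_mul_of_nonneg_right h4 hx0
  have h6 : 1.9 * E ^ 3 * ((N : ℝ) / L * rn (L + 1) N) ≤ 2 * (0.9643 * E * x) := by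
    rw [hx]
    have h7 : (1.9 : ℝ) ≤ 2 * 0.9643 * (1 - 8 / (L : ℝ)) := by
      have : 8 / (L : ℝ) ≤ 0.008 := by
        rw [div_le_iff₀ hLp]
        linarith
      linarith
    have h9 : 0 ≤ E ^ 3 * ((N : ℝ) / L * rn (L + 1) N) := by positivity
    calc 1.9 * E ^ 3 * ((N : ℝ) / L * rn (L + 1) N) = 1.9 * (E ^ 3 * ((N : ℝ) / L * rn (L + 1) N)) := by ring
      _ ≤ (2 * 0.9643 * (1 - 8 / (L : ℝ))) * (E ^ 3 * ((N : ℝ) / L * rn (L + 1) N)) :=
          mul_le_mul_of_nonneg_right h7 h9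
      _ = _ := by ring
  linarith

end Pool.Agent.MP_9da1e3_co
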