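import Pool.Agent.Lib.MP_9da1e3_co.V2_R5E73
import Pool.Agent.Lib.MP_9da1e3_co.V2_Cinf49
import Pool.Agent.Lib.MP_9da1e3_co.V2_ObjC

/-!
R5, the termwise inequality for `N > L` from the one big jump bound `obj_C`.
-/

namespace Pool.Agent.MP_9da1e3_co

open Finset

/-- `k r_k θ^k` does not increase beyond `L + 1` -/
lemma r5f73_anti (L : ℕ) (hL : 1000 ≤ L) (th : ℝ) (h1 : 1 ≤ th) (h2 : th ≤ 1 + 3 / (2 * (L : ℝ)))
    (N : ℕ) (hN : L + 1 ≤ N) : ∀ k, N ≤ k → (k : ℝ) * rn (L + 1) k * th ^ k ≤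
      (N : ℝ) * rn (L + 1) N * th ^ N := by
  intro k hk
  induction k, hk using Nat.le_induction with
  | base => exact le_rfl
  | succ k hk ih =>
    refine le_trans ?_ ih
    have h3 := z_rate_far L (by omega) k (by omega)
    have h4 : 0 ≤ rn (L + 1) (k + 1) := rn_nonneg (L + 1) k
    have h5 : th * (((k : ℝ) + 1) * rn (L + 1) (k + 1)) ≤ (k : ℝ) * rn (L + 1) k := by
      refine le_trans ?_ h3
      exact mul_le_mul_of_nonneg_right h2 (by positivity)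
    have h6 : 0 ≤ th ^ k := pow_nonneg (by linarith) k
    push_cast
    calc ((k : ℝ) + 1) * rn (L + 1) (k + 1) * th ^ (k + 1)
        = (th * (((k : ℝ) + 1) * rn (L + 1) (k + 1))) * th ^ k := by rw [pow_succ]; ring
      _ ≤ ((k : ℝ) * rn (L + 1) k) * th ^ k := mul_le_mul_of_nonneg_right h5 h6

/-- `κ_m ≤ c E N r_N θ^N` with `c = 1 + (L+14)/(m+1-(L+14))` -/
lemma r5f73_kap (L m N : ℕ) (hL : 1000 ≤ L) (hN : L + 1 ≤ N) (hm : N + (L + 14) ≤ m) (c : ℝ)
    (hc : (m : ℝ) + 1 ≤ c * ((m : ℝ) + 1 - ((L : ℝ) + 14))) :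
    r5kap L m ≤ c * (E * ((N : ℝ) * rn (L + 1) N * tht L ^ N)) := by
  have hE := E_pos
  have h1 := r5_tht_ge_one L
  have h2 := r5_tht_le L (by omega)
  have h3 := r5f73_anti L hL (tht L) h1 h2 N hN (m + 1 - (L + 14)) (by omega)
  have h4 : 0 ≤ rn (L + 1) (m + 1 - (L + 14)) := by
    have := rn_nonneg (L + 1) (m + 1 - (L + 14) - 1)
    have e : m + 1 - (L + 14) - 1 + 1 = m + 1 - (L + 14) := by omega
    rwa [e] at this
  have h5 : 0 ≤ tht L ^ (m + 1 - (L + 14)) := pow_nonneg (by linarith) _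
  have e1 : ((m + 1 - (L + 14) : ℕ) : ℝ) = (m : ℝ) + 1 - ((L : ℝ) + 14) := by
    rw [Nat.cast_sub (by omega)]
    push_cast
    ring
  rw [e1] at h3
  have hk0 : (0 : ℝ) < (m : ℝ) + 1 - ((L : ℝ) + 14) := by
    rw [← e1]
    exact_mod_cast (by omega : 0 < m + 1 - (L + 14))
  have hc0 : 0 ≤ c := by
    by_contra hcc
    push Not at hcc
    have hm0 : (0 : ℝ) ≤ (m : ℝ) := Nat.cast_nonneg m
    nlinarith
  unfold r5kap
  calc E * (((m : ℝ) + 1) * rn (L + 1) (m + 1 - (L + 14))) * tht L ^ (m + 1 - (L + 14))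
      = E * (((m : ℝ) + 1) * (rn (L + 1) (m + 1 - (L + 14)) * tht L ^ (m + 1 - (L + 14)))) := by ring
    _ ≤ E * ((c * ((m : ℝ) + 1 - ((L : ℝ) + 14))) *
          (rn (L + 1) (m + 1 - (L + 14)) * tht L ^ (m + 1 - (L + 14)))) := by
        apply mul_le_mul_of_nonneg_left _ hE.le
        exact mul_le_mul_of_nonneg_right hc (mul_nonneg h4 h5)
    _ = c * (E * (((m : ℝ) + 1 - ((L : ℝ) + 14)) * rn (L + 1) (m + 1 - (L + 14)) *
          tht L ^ (m + 1 - (L + 14)))) := by ring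
    _ ≤ _ := by
        apply mul_le_mul_of_nonneg_left _ hc0
        exact mul_le_mul_of_nonneg_left h3 hE.le

/-- the core estimate: `c s ≤ σ (2 - 0.1164) 1.9` -/
lemma r5f73_core (L m N : ℕ) (hL : 1000 ≤ L) (hN : L + 1 ≤ N) (hm : N + (L + 14) ≤ m) (c s σ : ℝ)
    (hc : (m : ℝ) + 1 ≤ c * ((m : ℝ) + 1 - ((L : ℝ) + 14))) (hS : r5S L N ≤ s * E ^ 2)
    (hc0 : 0 ≤ c) (hσ0 : 0 ≤ σ) (hcs : c * s ≤ σ * (2 - 0.1164) * 1.9) :
    (1 - thL L * tht L) * r5kap L m * r5S L N ≤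
      σ * (2 - r5kap L m / tht L) * (r5ps L N * tht L ^ (N + 1)) := by
  have hLr : (1000 : ℝ) ≤ L := by exact_mod_cast hL
  have hE := E_pos
  have h1 := r5_tht_ge_one L
  have hC : 1.9 * E ^ 3 * ((N : ℝ) / L) * rn (L + 1) N ≤ r5ps L N := by
    have h := obj_C L N hL hN
    unfold r5ps
    calc 1.9 * E ^ 3 * ((N : ℝ) / L) * rn (L + 1) N = 1.9 * E ^ 3 * ((N : ℝ) / L * rn (L + 1) N) := by
          ring
      _ ≤ _ := h
  have hkap := r5f73_kap L m N hL hN hm c hc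
  have hkap2 := r5e73_kap L m hL (by omega)
  have hs : 0 < √(L : ℝ) := Real.sqrt_pos.mpr (by linarith)
  have hkap3 : r5kap L m ≤ 0.1164 := by
    refine hkap2.trans ?_
    rw [div_le_iff₀ hs]
    have c3 : 31.62 ≤ √(L : ℝ) := by
      apply Real.le_sqrt_of_sq_le
      norm_num
      linarith
    linarith
  have hrk : 0 ≤ rn (L + 1) (m + 1 - (L + 14)) := by
    have := rn_nonneg (L + 1) (m + 1 - (L + 14) - 1)
    have e : m + 1 - (L + 14) - 1 + 1 = m + 1 - (L + 14) := by omega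
    rwa [e] at this
  have hrN : 0 ≤ rn (L + 1) N := by
    have := rn_nonneg (L + 1) (N - 1)
    have e : N - 1 + 1 = N := by omega
    rwa [e] at this
  have hkap0 : 0 ≤ r5kap L m := by
    unfold r5kap
    have h5 : 0 ≤ tht L ^ (m + 1 - (L + 14)) := pow_nonneg (by linarith) _
    positivity
  have hkt : r5kap L m / tht L ≤ 0.1164 := (div_le_self hkap0 h1).trans hkap3
  have hS0 : 0 ≤ r5S L N :=
    Finset.sum_nonneg fun k _ => mul_nonneg (pow_nonneg (by linarith) _) (r5ps_nonneg L k)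
  have hone : 1 - thL L * tht L = 1 / ((L : ℝ) + 2) := by
    rw [r5_tht_thL]
    field_simp
    ring
  obtain ⟨X, hX⟩ : ∃ X : ℝ, X = (N : ℝ) * rn (L + 1) N * tht L ^ N := ⟨_, rfl⟩
  rw [← hX] at hkap
  have hX0 : 0 ≤ X := by
    rw [hX]
    have h5 : 0 ≤ tht L ^ N := pow_nonneg (by linarith) _
    positivity
  have hl : (1 - thL L * tht L) * r5kap L m * r5S L N ≤ 1 / (L : ℝ) * (c * s) * (E ^ 3 * X) := by
    rw [hone]
    have a1 : r5kap L m * r5S L N ≤ (c * (E * X)) * (s * E ^ 2) :=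
      mul_le_mul hkap hS hS0 (by positivity)
    have a2 : 1 / ((L : ℝ) + 2) ≤ 1 / (L : ℝ) := one_div_le_one_div_of_le (by linarith) (by linarith)
    calc 1 / ((L : ℝ) + 2) * r5kap L m * r5S L N = 1 / ((L : ℝ) + 2) * (r5kap L m * r5S L N) := by ring
      _ ≤ 1 / (L : ℝ) * ((c * (E * X)) * (s * E ^ 2)) :=
          mul_le_mul a2 a1 (mul_nonneg hkap0 hS0) (by positivity)
      _ = _ := by ring
  have hr : 1 / (L : ℝ) * (σ * (2 - 0.1164) * 1.9) * (E ^ 3 * X) ≤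
      σ * (2 - r5kap L m / tht L) * (r5ps L N * tht L ^ (N + 1)) := by
    have b1 : tht L ^ N ≤ tht L ^ (N + 1) := pow_le_pow_right₀ h1 (by omega)
    have b2 : 0 ≤ tht L ^ N := pow_nonneg (by linarith) _
    have b3 : 1.9 * E ^ 3 * ((N : ℝ) / L) * rn (L + 1) N * tht L ^ N ≤
        r5ps L N * tht L ^ (N + 1) := mul_le_mul hC b1 b2 (r5ps_nonneg L N)
    have b4 : σ * (2 - 0.1164) ≤ σ * (2 - r5kap L m / tht L) :=
      mul_le_mul_of_nonneg_left (by linarith) hσ0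
    have b5 : 0 ≤ 1.9 * E ^ 3 * ((N : ℝ) / L) * rn (L + 1) N * tht L ^ N := by positivity
    have b6 := mul_le_mul b4 b3 b5 (mul_nonneg hσ0 (by linarith))
    refine le_trans (le_of_eq ?_) b6
    rw [hX]
    ring
  refine hl.trans (le_trans ?_ hr)
  apply mul_le_mul_of_nonneg_right _ (by positivity)
  exact mul_le_mul_of_nonneg_left hcs (by positivity)

/-- the termwise inequality for `L < N ≤ m - (L + 14)`, `σ ≥ 0.76` -/
theorem r5f73_far (L m N : ℕ) (hL : 1000 ≤ L) (hN : L + 1 ≤ N) (hm : N + (L + 14) ≤ m)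
    (σ : ℝ) (hσ : 0.76 ≤ σ) :
    (1 - thL L * tht L) * r5kap L m * r5S L N ≤
      σ * (2 - r5kap L m / tht L) * (r5ps L N * tht L ^ (N + 1)) := by
  have hLr : (1000 : ℝ) ≤ L := by exact_mod_cast hL
  have hmN : (N : ℝ) + ((L : ℝ) + 14) ≤ m := by exact_mod_cast hm
  have hNL : (L : ℝ) + 1 ≤ N := by exact_mod_cast hN
  rcases Nat.lt_or_ge (2 * L + 1) N with h | h
  · have h' : 2 * (L : ℝ) + 2 ≤ N := by exact_mod_cast h
    apply r5f73_core L m N hL hN hm 1.51 1.49 σ _ _ (by norm_num) (by linarith)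
    · nlinarith
    · linarith
    · exact ci_S L hL (tht L) (r5_tht_ge_one L) (r5_tht_le L (by omega)) N
  · apply r5f73_core L m N hL hN hm 2.012 1.32 σ _ _ (by norm_num) (by linarith)
    · nlinarith
    · linarith
    · exact ps_sum_numG1 L hL (tht L) (r5_tht_ge_one L) (r5_tht_le L (by omega)) N h

/-- all `N ≤ m - (L + 14)`, `σ ≥ 0.76` -/
theorem r5f73_all (L m : ℕ) (hL : 1000 ≤ L) (hm0 : 2 * L ≤ m)
    (σ : ℝ) (hσ : 0.76 ≤ σ) (N : ℕ) (hm : N + (L + 14) ≤ m) :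
    (1 - thL L * tht L) * r5kap L m * r5S L N ≤
      σ * (2 - r5kap L m / tht L) * (r5ps L N * tht L ^ (N + 1)) := by
  rcases Nat.lt_or_ge L N with h | h
  · exact r5f73_far L m N hL h hm σ hσ
  · exact r5e73_low L m N hL hm0 h σ (by linarith)

end Pool.Agent.MP_9da1e3_co
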