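import Pool.Agent.Lib.MP_9da1e3_co.NR2

namespace Pool.Agent.MP_9da1e3_co

lemma r5f_qq_up (p : ℕ) (hp : 1 ≤ p) : qq p * (2 * (p : ℝ) + 3) ≤ 2 * (p : ℝ) + 2 := by
  have hp' : (1 : ℝ) ≤ p := by exact_mod_cast hp
  have hp0 : (0 : ℝ) < p := by linarith
  have hE := E_pos
  obtain ⟨y, hy⟩ : ∃ y : ℝ, y = (2 * (p : ℝ) + 1) / (2 * p * (p + 1)) := ⟨_, rfl⟩
  have hy0 : 0 ≤ y := by rw [hy]; positivity
  have h1 : 1 + 1 / (p : ℝ) ≤ Real.exp y := by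
    have h2 := Real.quadratic_le_exp_of_nonneg hy0
    have h3 : y + y ^ 2 / 2 - 1 / (p : ℝ) = 1 / (8 * (p : ℝ) ^ 2 * (p + 1) ^ 2) := by
      rw [hy]
      field_simp
      ring
    have h4 : (0 : ℝ) ≤ 1 / (8 * (p : ℝ) ^ 2 * (p + 1) ^ 2) := by positivity
    linarith
  have h5 : (1 + 1 / (p : ℝ)) ^ p ≤ Real.exp (p * y) := by
    rw [Real.exp_nat_mul]
    exact pow_le_pow_left₀ (by positivity) h1 p
  have h6 : (p : ℝ) * y = 1 - 1 / (2 * (p : ℝ) + 2) := by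
    rw [hy]
    field_simp
    ring
  have h7 : 1 + 1 / (2 * (p : ℝ) + 2) ≤ Real.exp (1 / (2 * (p : ℝ) + 2)) := by
    have := Real.add_one_le_exp (1 / (2 * (p : ℝ) + 2))
    linarith
  have h8 : Real.exp (p * y) * Real.exp (1 / (2 * (p : ℝ) + 2)) = E := by
    rw [← Real.exp_add, h6]
    unfold E
    congr 1
    ring
  have h9 : (1 + 1 / (p : ℝ)) ^ p * (1 + 1 / (2 * (p : ℝ) + 2)) ≤ E := by
    rw [← h8]
    exact mul_le_mul h5 h7 (by positivity) (Real.exp_pos _).le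
  have h10 : (1 + 1 / (p : ℝ)) ^ p * (2 * (p : ℝ) + 3)
      = (1 + 1 / (p : ℝ)) ^ p * (1 + 1 / (2 * (p : ℝ) + 2)) * (2 * (p : ℝ) + 2) := by
    field_simp
    ring
  have h11 : (1 + 1 / (p : ℝ)) ^ p * (2 * (p : ℝ) + 3) ≤ E * (2 * (p : ℝ) + 2) := by
    rw [h10]
    exact mul_le_mul_of_nonneg_right h9 (by positivity)
  unfold qq
  rw [div_mul_eq_mul_div, div_le_iff₀ hE]
  linarith

lemma r5f_qq_dn (p : ℕ) (hp : 1 ≤ p) : 2 * (p : ℝ) ≤ qq p * (2 * (p : ℝ) + 1) := by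
  have hp' : (1 : ℝ) ≤ p := by exact_mod_cast hp
  have hp0 : (0 : ℝ) < p := by linarith
  have hE := E_pos
  have h1 : 2 * (1 / (p : ℝ)) / (1 / (p : ℝ) + 2) ≤ Real.log (1 + 1 / (p : ℝ)) :=
    Real.le_log_one_add_of_nonneg (by positivity)
  have h2 : (p : ℝ) * (2 * (1 / (p : ℝ)) / (1 / (p : ℝ) + 2)) = 1 - 1 / (2 * (p : ℝ) + 1) := by
    field_simp
    ring
  have h3 : 1 - 1 / (2 * (p : ℝ) + 1) ≤ (p : ℝ) * Real.log (1 + 1 / (p : ℝ)) := by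
    rw [← h2]
    exact mul_le_mul_of_nonneg_left h1 hp0.le
  have h4 : (1 + 1 / (p : ℝ)) ^ p = Real.exp ((p : ℝ) * Real.log (1 + 1 / (p : ℝ))) := by
    rw [Real.exp_nat_mul, Real.exp_log (by positivity)]
  have h5 : E * (1 - 1 / (2 * (p : ℝ) + 1)) ≤ (1 + 1 / (p : ℝ)) ^ p := by
    rw [h4]
    have h6 : E * (1 - 1 / (2 * (p : ℝ) + 1)) ≤ Real.exp (1 - 1 / (2 * (p : ℝ) + 1)) := by
      have h7 : Real.exp (1 - 1 / (2 * (p : ℝ) + 1)) = E * Real.exp (-(1 / (2 * (p : ℝ) + 1))) := by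
        unfold E
        rw [← Real.exp_add]
        congr 1
      rw [h7]
      apply mul_le_mul_of_nonneg_left _ E_pos.le
      have := Real.add_one_le_exp (-(1 / (2 * (p : ℝ) + 1)))
      linarith
    exact h6.trans (Real.exp_le_exp.mpr h3)
  have h8 : E * (2 * (p : ℝ)) = E * (1 - 1 / (2 * (p : ℝ) + 1)) * (2 * (p : ℝ) + 1) := by
    field_simp
    ring
  unfold qq
  rw [div_mul_eq_mul_div, le_div_iff₀ hE, mul_comm (2 * (p : ℝ)) E, h8]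
  exact mul_le_mul_of_nonneg_right h5 (by positivity)

/-- `tn (L+1) / tn L` in terms of `qq` -/
lemma r5f_ratio (L : ℕ) : tn (L + 1) * ((L : ℝ) + 2) = tn L * (((L : ℝ) + 1) * qq (L + 1)) := by
  have h := cE_succ_eq L
  unfold cE at h
  push_cast at h
  linarith

lemma r5f_lo (L : ℕ) : 1 + 3 / (2 * ((L : ℝ) + 1)) ≤ tn L / tn (L + 1) := by
  have h1 := r5f_qq_up (L + 1) (by omega)
  have h2 := r5f_ratio L
  have h3 := tn_pos L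
  have h4 := tn_pos (L + 1)
  have hL : (0 : ℝ) ≤ L := Nat.cast_nonneg L
  push_cast at h1
  rw [le_div_iff₀ h4]
  have e : (1 + 3 / (2 * ((L : ℝ) + 1))) * tn (L + 1) =
      (2 * (L : ℝ) + 5) * (tn (L + 1) * ((L : ℝ) + 2)) / (2 * ((L : ℝ) + 1) * ((L : ℝ) + 2)) := by
    field_simp
    ring
  rw [e, h2, div_le_iff₀ (by positivity)]
  have h5 : (2 * (L : ℝ) + 5) * qq (L + 1) ≤ 2 * ((L : ℝ) + 2) := by linarith
  have h6 := mul_le_mul_of_nonneg_left h5 (mul_nonneg h3.le (show (0 : ℝ) ≤ (L : ℝ) + 1 by linarith))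
  nlinarith

lemma r5f_lo' (L : ℕ) : 1 + 3 / (2 * ((L : ℝ) + 2)) ≤ tn L / tn (L + 1) := by
  refine le_trans ?_ (r5f_lo L)
  have hL : (0 : ℝ) ≤ L := Nat.cast_nonneg L
  have : 3 / (2 * ((L : ℝ) + 2)) ≤ 3 / (2 * ((L : ℝ) + 1)) := by
    apply div_le_div_of_nonneg_left (by norm_num) (by positivity)
    linarith
  linarith

lemma r5f_one_le (L : ℕ) : 1 ≤ tn L / tn (L + 1) := by
  refine le_trans ?_ (r5f_lo L)
  have hL : (0 : ℝ) ≤ L := Nat.cast_nonneg L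
  have : 0 ≤ 3 / (2 * ((L : ℝ) + 1)) := by positivity
  linarith

lemma r5f_hi (L : ℕ) (hL : 1 ≤ L) : tn L / tn (L + 1) ≤ 1 + 3 / (2 * (L : ℝ)) := by
  have h1 := r5f_qq_dn (L + 1) (by omega)
  have h2 := r5f_ratio L
  have h3 := tn_pos L
  have h4 := tn_pos (L + 1)
  have hLr : (1 : ℝ) ≤ L := by exact_mod_cast hL
  have hL0 : (0 : ℝ) < L := by linarith
  push_cast at h1
  rw [div_le_iff₀ h4]
  have e : (1 + 3 / (2 * (L : ℝ))) * tn (L + 1) =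
      (2 * (L : ℝ) + 3) * (tn (L + 1) * ((L : ℝ) + 2)) / (2 * (L : ℝ) * ((L : ℝ) + 2)) := by
    field_simp
  rw [e, h2, le_div_iff₀ (by positivity)]
  have h5 : 2 * ((L : ℝ) + 1) ≤ qq (L + 1) * (2 * (L : ℝ) + 3) := by linarith
  have h6 := mul_le_mul_of_nonneg_left h5 (mul_nonneg h3.le (show (0 : ℝ) ≤ (L : ℝ) + 1 by linarith))
  have h7 : tn L * (2 * (L : ℝ) * ((L : ℝ) + 2)) ≤ tn L * (2 * ((L : ℝ) + 1) ^ 2) := by
    apply mul_le_mul_of_nonneg_left _ h3.le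
    nlinarith
  nlinarith

/-- exact: `thL L * (tn L / tn (L + 1)) = (L + 1) / (L + 2)` -/
lemma r5f_thL_mul (L : ℕ) : thL L * (tn L / tn (L + 1)) = ((L : ℝ) + 1) / ((L : ℝ) + 2) := by
  have h3 := tn_pos L
  have h4 := tn_pos (L + 1)
  unfold thL
  field_simp

lemma r5f_one (L : ℕ) : 1 - thL L * (tn L / tn (L + 1)) = 1 / ((L : ℝ) + 2) := by
  rw [r5f_thL_mul]
  have hL : (0 : ℝ) ≤ L := Nat.cast_nonneg L
  field_simp
  ring

lemma r5f_nonneg (L : ℕ) (th : ℝ) (h : th ≤ tn L / tn (L + 1)) : 1 / ((L : ℝ) + 2) ≤ 1 - thL L * th := by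
  have h1 := mul_le_mul_of_nonneg_left h (thL_pos L).le
  have h2 := r5f_one L
  linarith

lemma r5f_nonneg' (L : ℕ) (th : ℝ) (h : th ≤ tn L / tn (L + 1)) : 0 ≤ 1 - thL L * th := by
  refine le_trans ?_ (r5f_nonneg L th h)
  positivity

/-- the weight `th = 1 + 3 / (2 (L + 2))` -/
lemma r5f_th (L : ℕ) (hL : 1000 ≤ L) : 0 ≤ 1 - thL L * (1 + 3 / (2 * ((L : ℝ) + 2))) ∧
    (L : ℝ) * (1 - thL L * (1 + 3 / (2 * ((L : ℝ) + 2)))) ≤ 1.01 := by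
  refine ⟨r5f_nonneg' L _ (r5f_lo' L), ?_⟩
  have hLr : (1000 : ℝ) ≤ L := by exact_mod_cast hL
  have hL0 : (0 : ℝ) < L := by linarith
  have h1 := r5f_hi L (by omega)
  have h3 := tn_pos L
  have h4 := tn_pos (L + 1)
  have h5 : 1 / (1 + 3 / (2 * (L : ℝ))) ≤ tn (L + 1) / tn L := by
    rw [div_le_div_iff₀ (by positivity) h3, one_mul]
    rw [div_le_iff₀ h4] at h1
    linarith
  have h6 : 1 / (1 + 3 / (2 * (L : ℝ))) * (((L : ℝ) + 1) / ((L : ℝ) + 2)) ≤ thL L := by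
    unfold thL
    exact mul_le_mul_of_nonneg_right h5 (by positivity)
  have h7 : 1 / (1 + 3 / (2 * (L : ℝ))) * (((L : ℝ) + 1) / ((L : ℝ) + 2)) * (1 + 3 / (2 * ((L : ℝ) + 2))) ≤
      thL L * (1 + 3 / (2 * ((L : ℝ) + 2))) := mul_le_mul_of_nonneg_right h6 (by positivity)
  have e : 1 / (1 + 3 / (2 * (L : ℝ))) * (((L : ℝ) + 1) / ((L : ℝ) + 2)) * (1 + 3 / (2 * ((L : ℝ) + 2))) =
      (L : ℝ) * ((L : ℝ) + 1) * (2 * (L : ℝ) + 7) / ((2 * (L : ℝ) + 3) * ((L : ℝ) + 2) ^ 2) := by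
    field_simp
    ring
  rw [e] at h7
  have h8 : 1 - 1.01 / (L : ℝ) ≤ (L : ℝ) * ((L : ℝ) + 1) * (2 * (L : ℝ) + 7) / ((2 * (L : ℝ) + 3) * ((L : ℝ) + 2) ^ 2) := by
    rw [le_div_iff₀ (by positivity)]
    have e2 : (1 - 1.01 / (L : ℝ)) * ((2 * (L : ℝ) + 3) * ((L : ℝ) + 2) ^ 2) =
        ((L : ℝ) - 1.01) * ((2 * (L : ℝ) + 3) * ((L : ℝ) + 2) ^ 2) / L := by
      field_simp
    rw [e2, div_le_iff₀ hL0]
    nlinarith [mul_pos hL0 hL0, mul_pos (mul_pos hL0 hL0) hL0]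
  have h9 : (L : ℝ) * (1 - thL L * (1 + 3 / (2 * ((L : ℝ) + 2)))) ≤ (L : ℝ) * (1.01 / L) := by
    apply mul_le_mul_of_nonneg_left _ hL0.le
    linarith
  have h10 : (L : ℝ) * (1.01 / L) = 1.01 := by field_simp
  linarith

end Pool.Agent.MP_9da1e3_co
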