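import Pool.Agent.Lib.MP_9da1e3_co.V2_f14
import Pool.Agent.Lib.MP_9da1e3_co.V2_Asm
import Pool.Agent.Lib.MP_9da1e3_co.V2_R5F

/-! Row H: the weighted sum of `Bn L` up to `L + 14` is at most the one up to `2 L`. -/

namespace Pool.Agent.MP_9da1e3_co

open Finset

lemma r5h_Fn_eq (L n : ℕ) (h : n ≤ L) : Fn L n = tn n := Fn_eq_tn L n h

lemma r5h_Bn_zero (L n : ℕ) (h : n ≤ L) : Bn L n = 0 := by
  unfold Bn An
  rw [Fn_eq_tn (L + 1 + 1) n (by omega), Fn_eq_tn (L + 1) n (by omega), Fn_eq_tn L n h]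
  ring

lemma r5h_sum (L d : ℕ) (th : ℝ) :
    ∑ j ∈ range (L + (d + 1)), th ^ j * Bn L j = th ^ L * ∑ r ∈ range (d + 1), th ^ r * bb L r := by
  rw [Finset.sum_range_add]
  have h1 : ∑ j ∈ range L, th ^ j * Bn L j = 0 := by
    apply Finset.sum_eq_zero
    intro j hj
    rw [Finset.mem_range] at hj
    rw [r5h_Bn_zero L j hj.le, mul_zero]
  rw [h1, zero_add, Finset.mul_sum]
  apply Finset.sum_congr rfl
  intro r _
  rcases Nat.eq_zero_or_pos r with rfl | hr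
  · rw [Nat.add_zero, r5h_Bn_zero L L le_rfl, bb_zero]
    ring
  · rw [← bb_eq_Bn L r hr, pow_add]
    ring

/-- at the sign change `m0` is at least 14 -/
lemma r5h_m0 (L m0 : ℕ) (hL : 1000 ≤ L) (hpos : ∀ r, m0 < r → r ≤ L → 0 ≤ bb L r) : 14 ≤ m0 := by
  by_contra hc
  have h1 := hpos 14 (by omega) (by omega)
  have h2 := f14_neg L hL 14 (by norm_num) (by norm_num)
  linarith

/-- Row H for any weight `1 ≤ th` and any bound `c ≤ 1.74` -/
theorem r5h_hV (L : ℕ) (hL : 1000 ≤ L) (th : ℝ) (h1 : 1 ≤ th) (c g : ℝ) (hc : c ≤ 1.74)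
    (hW : -∑ r ∈ range (L + 1), th ^ r * bb L r ≤ c * (tn L / L) + g)
    (hg : g ≤ 0.43 * (tn L / L)) :
    ∑ j ∈ range (L + 14 + 1), th ^ j * Bn L j ≤ ∑ j ∈ range (2 * L + 1), th ^ j * Bn L j := by
  have e1 : L + 14 + 1 = L + (14 + 1) := by omega
  have e2 : 2 * L + 1 = L + (L + 1) := by omega
  rw [e1, e2, r5h_sum L 14 th, r5h_sum L L th]
  have h2 := f14_bb L hL 1 (by norm_num) (fun r => th ^ r) (fun r _ _ => one_le_pow₀ h1)
  have h3 : (0 : ℝ) < tn L / L := by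
    have := tn_pos L
    have hL0 : (0 : ℝ) < L := by
      have : (1000 : ℝ) ≤ L := by exact_mod_cast hL
      linarith
    positivity
  have e3 : 2.17 * 1 * tn L / (L : ℝ) = 2.17 * (tn L / L) := by ring
  rw [e3] at h2
  have h6 : c * (tn L / L) ≤ 1.74 * (tn L / L) := mul_le_mul_of_nonneg_right hc h3.le
  apply mul_le_mul_of_nonneg_left _ (pow_nonneg (by linarith) L)
  have h5 : ∑ r ∈ range (14 + 1), th ^ r * bb L r ≤ -(2.17 * (tn L / L)) := h2
  linarith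

end Pool.Agent.MP_9da1e3_co
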