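import Pool.Agent.Lib.MP_9da1e3_co.Lin46
import Pool.Agent.Lib.MP_9da1e3_co.V2_Drate

/-! Lower bound of the partial sums of `F_L F_(L+1)` (the factor `Smin` of `r5_core`). -/

namespace Pool.Agent.MP_9da1e3_co

open Finset

/-- a truncated convolution, lower bound -/
lemma smin_conv_ge (x y : ℕ → ℝ) (hx : ∀ i, 0 ≤ x i) (hy : ∀ i, 0 ≤ y i) (a : ℕ) :
    (∑ i ∈ range a, x i) * ∑ i ∈ range a, y i ≤
      ∑ m ∈ range (2 * a), ∑ k ∈ range (m + 1), x k * y (m - k) := by
  have h0 := Finset.sum_range_diag_flip (2 * a) (fun a b => x a * y b)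
  rw [h0, Finset.sum_mul]
  refine le_trans (b := ∑ i ∈ range a, ∑ k ∈ range (2 * a - i), x i * y k) ?_ ?_
  · apply Finset.sum_le_sum
    intro i hi
    have hi' := mem_range.mp hi
    rw [← Finset.mul_sum]
    apply mul_le_mul_of_nonneg_left _ (hx i)
    apply Finset.sum_le_sum_of_subset_of_nonneg
    · exact Finset.range_subset_range.mpr (by omega)
    · intro k _ _
      exact hy k
  · apply Finset.sum_le_sum_of_subset_of_nonneg
    · exact Finset.range_subset_range.mpr (by omega)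
    · intro i _ _
      exact Finset.sum_nonneg fun k _ => mul_nonneg (hx i) (hy k)

lemma smin_tn (a : ℕ) (ha : 166 ≤ a) : 0.938 * E ≤ ∑ j ∈ range a, tn j := by
  have h := E_sub_sum_le (show 1 ≤ a by omega)
  have h2 := two_cA_lt
  have hE : (2.7182 : ℝ) ≤ E := by
    unfold E
    have := Real.exp_one_gt_d9
    linarith
  have hs : (12.88 : ℝ) ≤ √(a : ℝ) := by
    apply Real.le_sqrt_of_sq_le
    have : (166 : ℝ) ≤ a := by exact_mod_cast ha
    norm_num
    linarith
  have h3 : 2 * cA / √(a : ℝ) ≤ 0.1684 := by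
    rw [div_le_iff₀ (by linarith)]
    linarith
  linarith

/-- `0.879 E² ≤ S(N)` for `332 ≤ N` -/
theorem smin_low (L N : ℕ) (hL : 1000 ≤ L) (hN : 332 ≤ N) (th : ℝ) (h1 : 1 ≤ th) :
    0.879 * E ^ 2 ≤ ∑ k ∈ range N, th ^ k * PowerSeries.coeff k (FF L * FF (L + 1)) := by
  have hE : (0 : ℝ) < E := E_pos
  have hc : ∀ k, PowerSeries.coeff k (FF L * FF (L + 1)) =
      ∑ j ∈ range (k + 1), Fn L j * Fn (L + 1) (k - j) := by
    intro k
    rw [lin_coeff_mul_range]
    apply Finset.sum_congr rfl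
    intro j _
    rw [coeff_FF, coeff_FF]
  have hc0 : ∀ k, 0 ≤ PowerSeries.coeff k (FF L * FF (L + 1)) := by
    intro k
    rw [hc]
    exact Finset.sum_nonneg fun j _ => mul_nonneg (Fn_nonneg _ _) (Fn_nonneg _ _)
  have h2 := smin_tn 166 le_rfl
  have h3 : ∑ i ∈ range 166, Fn L i = ∑ j ∈ range 166, tn j :=
    Finset.sum_congr rfl fun i hi => Fn_eq_tn L i (by have := mem_range.mp hi; omega)
  have h4 : ∑ i ∈ range 166, Fn (L + 1) i = ∑ j ∈ range 166, tn j :=
    Finset.sum_congr rfl fun i hi => Fn_eq_tn (L + 1) i (by have := mem_range.mp hi; omega)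
  have h5 := smin_conv_ge (Fn L) (Fn (L + 1)) (Fn_nonneg L) (Fn_nonneg (L + 1)) 166
  rw [h3, h4] at h5
  have h6 : ∑ m ∈ range (2 * 166), ∑ k ∈ range (m + 1), Fn L k * Fn (L + 1) (m - k) ≤
      ∑ k ∈ range N, th ^ k * PowerSeries.coeff k (FF L * FF (L + 1)) := by
    refine le_trans (b := ∑ k ∈ range (2 * 166), th ^ k * PowerSeries.coeff k (FF L * FF (L + 1))) ?_ ?_
    · apply Finset.sum_le_sum
      intro k _
      rw [← hc]
      have := mul_le_mul_of_nonneg_right (one_le_pow₀ h1 (n := k)) (hc0 k)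
      linarith
    · apply Finset.sum_le_sum_of_subset_of_nonneg
      · exact Finset.range_subset_range.mpr (by omega)
      · intro k _ _
        exact mul_nonneg (pow_nonneg (by linarith) k) (hc0 k)
  refine le_trans ?_ (h5.trans h6)
  have h7 : (0.938 * E) * (0.938 * E) ≤ (∑ j ∈ range 166, tn j) * ∑ j ∈ range 166, tn j :=
    mul_le_mul h2 h2 (by positivity) (by linarith [mul_pos (show (0:ℝ) < 0.938 by norm_num) hE])
  nlinarith [sq_nonneg E]

end Pool.Agent.MP_9da1e3_co
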