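import Pool.Agent.Lib.MP_9da1e3_co.V2_Wth

/-! The weighted lemma (M) with a cut place `p` before the sign change. -/

namespace Pool.Agent.MP_9da1e3_co

open Finset

lemma wcut_c_mono (K : ℕ → ℝ) (th : ℝ) (hth : 0 < th) (hK : ∀ x, th * K (x + 1) ≤ K x) (n : ℕ)
    {i j : ℕ} (hij : i ≤ j) (hj : j ≤ n) : K (n - i) / th ^ i ≤ K (n - j) / th ^ j := by
  have h := rate_pow K th hth.le hK (n - j) (j - i)
  have e : n - j + (j - i) = n - i := by omega
  rw [e] at h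
  rw [div_le_div_iff₀ (pow_pos hth i) (pow_pos hth j)]
  have e2 : th ^ j = th ^ i * th ^ (j - i) := by
    rw [← pow_add]
    congr 1
    omega
  rw [e2]
  have h2 := mul_le_mul_of_nonneg_right h (pow_pos hth i).le
  linarith

/-- weighted (M) with a cut at `p < nu`: the weighted partial sum at `p` is at most that at `N` -/
theorem m_theta_cut (K B : ℕ → ℝ) (th W : ℝ) (hth : 0 < th) (hK0 : ∀ x, 0 ≤ K x)
    (hK : ∀ x, th * K (x + 1) ≤ K x) (p nu N n : ℕ) (hp : p < nu) (hN : nu ≤ N) (hn : N ≤ n)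
    (hneg : ∀ j, j < nu → B j ≤ 0) (hpos : ∀ j, nu ≤ j → j ≤ n → 0 ≤ B j)
    (hW : -(th ^ p * W) ≤ ∑ j ∈ range (N + 1), th ^ j * B j)
    (hV : ∑ j ∈ range (p + 1), th ^ j * B j ≤ -(th ^ p * W)) :
    -(K (n - p) * W) ≤ ∑ j ∈ range (n + 1), K (n - j) * B j := by
  obtain ⟨c, hc⟩ : ∃ c : ℕ → ℝ, c = fun j => K (n - j) / th ^ j := ⟨_, rfl⟩
  obtain ⟨b, hb⟩ : ∃ b : ℕ → ℝ, b = fun j => th ^ j * B j := ⟨_, rfl⟩
  have hc0 : ∀ j, 0 ≤ c j := fun j => by
    rw [hc]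
    exact div_nonneg (hK0 _) (pow_pos hth j).le
  have hcm : ∀ i j, i ≤ j → j ≤ n → c i ≤ c j := fun i j hij hj => by
    rw [hc]
    exact wcut_c_mono K th hth hK n hij hj
  have hbneg : ∀ j, j < nu → b j ≤ 0 := fun j hj => by
    rw [hb]
    exact mul_nonpos_of_nonneg_of_nonpos (pow_pos hth j).le (hneg j hj)
  have hbpos : ∀ j, nu ≤ j → j ≤ n → 0 ≤ b j := fun j hj hjn => by
    rw [hb]
    exact mul_nonneg (pow_pos hth j).le (hpos j hj hjn)
  have hcb : ∑ j ∈ range (n + 1), K (n - j) * B j = ∑ j ∈ range (n + 1), c j * b j := by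
    apply Finset.sum_congr rfl
    intro j _
    rw [hc, hb]
    have := (pow_pos hth j).ne'
    field_simp
  have hWb : -(th ^ p * W) ≤ ∑ j ∈ range (N + 1), b j := by rw [hb]; exact hW
  have hVb : ∑ j ∈ range (p + 1), b j ≤ -(th ^ p * W) := by rw [hb]; exact hV
  -- three blocks
  have s1 : ∑ j ∈ range (n + 1), c j * b j = ∑ j ∈ Ico 0 (p + 1), c j * b j +
      ∑ j ∈ Ico (p + 1) nu, c j * b j + ∑ j ∈ Ico nu (n + 1), c j * b j := by
    rw [Finset.range_eq_Ico, ← Finset.sum_Ico_consecutive _ (Nat.zero_le (p + 1))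
      (show p + 1 ≤ n + 1 by omega), ← Finset.sum_Ico_consecutive _ (show p + 1 ≤ nu by omega)
      (show nu ≤ n + 1 by omega)]
    ring
  have t1 : c p * ∑ j ∈ Ico 0 (p + 1), b j ≤ ∑ j ∈ Ico 0 (p + 1), c j * b j := by
    rw [Finset.mul_sum]
    apply Finset.sum_le_sum
    intro j hj
    have hj' := Finset.mem_Ico.mp hj
    exact mul_le_mul_of_nonpos_right (hcm j p (by omega) (by omega)) (hbneg j (by omega))
  have t2 : c nu * ∑ j ∈ Ico (p + 1) nu, b j ≤ ∑ j ∈ Ico (p + 1) nu, c j * b j := by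
    rw [Finset.mul_sum]
    apply Finset.sum_le_sum
    intro j hj
    have hj' := Finset.mem_Ico.mp hj
    exact mul_le_mul_of_nonpos_right (hcm j nu (by omega) (by omega)) (hbneg j (by omega))
  have t3 : c nu * ∑ j ∈ Ico nu (n + 1), b j ≤ ∑ j ∈ Ico nu (n + 1), c j * b j := by
    rw [Finset.mul_sum]
    apply Finset.sum_le_sum
    intro j hj
    have hj' := Finset.mem_Ico.mp hj
    exact mul_le_mul_of_nonneg_right (hcm nu j (by omega) (by omega)) (hbpos j (by omega) (by omega))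
  have s2 : ∑ j ∈ range (n + 1), b j = ∑ j ∈ Ico 0 (p + 1), b j +
      ∑ j ∈ Ico (p + 1) nu, b j + ∑ j ∈ Ico nu (n + 1), b j := by
    rw [Finset.range_eq_Ico, ← Finset.sum_Ico_consecutive _ (Nat.zero_le (p + 1))
      (show p + 1 ≤ n + 1 by omega), ← Finset.sum_Ico_consecutive _ (show p + 1 ≤ nu by omega)
      (show nu ≤ n + 1 by omega)]
    ring
  have s3 : ∑ j ∈ range (N + 1), b j ≤ ∑ j ∈ range (n + 1), b j := by
    apply Finset.sum_le_sum_of_subset_of_nonneg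
    · exact Finset.range_mono (by omega)
    · intro j hj hj2
      have h3 : j ≤ n := by have := mem_range.mp hj; omega
      have h4 : N + 1 ≤ j := by
        by_contra hcon
        exact hj2 (mem_range.mpr (by omega))
      exact hbpos j (by omega) h3
  have hVb' : ∑ j ∈ Ico 0 (p + 1), b j ≤ -(th ^ p * W) := by
    rw [← Finset.range_eq_Ico]
    exact hVb
  obtain ⟨X, hX⟩ : ∃ X : ℝ, X = ∑ j ∈ Ico 0 (p + 1), b j := ⟨_, rfl⟩
  obtain ⟨Y, hY⟩ : ∃ Y : ℝ, Y = ∑ j ∈ Ico (p + 1) nu, b j := ⟨_, rfl⟩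
  obtain ⟨Z, hZ⟩ : ∃ Z : ℝ, Z = ∑ j ∈ Ico nu (n + 1), b j := ⟨_, rfl⟩
  rw [← hX] at t1 s2 hVb'
  rw [← hY] at t2 s2
  rw [← hZ] at t3 s2
  have hcp := hcm p nu hp.le (by omega)
  have h5 : 0 ≤ (c nu - c p) * (Y + Z) := by
    apply mul_nonneg (by linarith)
    linarith
  have h6 : c p * -(th ^ p * W) ≤ c p * (X + Y + Z) :=
    mul_le_mul_of_nonneg_left (by linarith) (hc0 p)
  have e : c p * -(th ^ p * W) = -(K (n - p) * W) := by
    rw [hc]
    have := (pow_pos hth p).ne'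
    field_simp
  rw [hcb, s1]
  have h7 : c p * (X + Y + Z) + (c nu - c p) * (Y + Z) = c p * X + c nu * Y + c nu * Z := by ring
  linarith

end Pool.Agent.MP_9da1e3_co
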