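import Pool.Agent.Lib.MP_9da1e3_co.NR2
import Pool.Agent.Lib.MP_9da1e3_co.Lf5

namespace Pool.Agent.MP_9da1e3_co

open Finset

/-- symmetrised recursion -/
lemma Fn_sym (N n : ℕ) : 2 * (E * (((n : ℝ) + 1) * Fn N (n + 1))) =
    ∑ k ∈ range (n + 1), (((min N (k + 1) : ℕ) : ℝ) + ((min N (n - k + 1) : ℕ) : ℝ)) *
      (Fn N k * Fn N (n - k)) := by
  have h1 := Fn_rec N n
  have h2 : ∑ k ∈ range (n + 1), ((min N (k + 1) : ℕ) : ℝ) * (Fn N k * Fn N (n - k)) =
      ∑ k ∈ range (n + 1), ((min N (n - k + 1) : ℕ) : ℝ) * (Fn N k * Fn N (n - k)) := by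
    rw [← Finset.sum_range_reflect]
    apply Finset.sum_congr rfl
    intro j hj
    have hj' := mem_range.mp hj
    have q1 : n + 1 - 1 - j = n - j := by omega
    have q2 : n - (n - j) = j := by omega
    rw [q1, q2]
    ring
  have h3 : ∑ k ∈ range (n + 1), (((min N (k + 1) : ℕ) : ℝ) + ((min N (n - k + 1) : ℕ) : ℝ)) *
      (Fn N k * Fn N (n - k)) =
      ∑ k ∈ range (n + 1), ((min N (k + 1) : ℕ) : ℝ) * (Fn N k * Fn N (n - k)) +
      ∑ k ∈ range (n + 1), ((min N (n - k + 1) : ℕ) : ℝ) * (Fn N k * Fn N (n - k)) := by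
    rw [← Finset.sum_add_distrib]
    apply Finset.sum_congr rfl
    intro j _
    ring
  rw [h3, ← h2, ← h1]
  ring

/-- the step of (a) for `n ≥ 2 L` -/
lemma Fn_shift_step (L n : ℕ) (θ : ℝ) (hθ : 0 ≤ θ) (hn : 2 * L ≤ n)
    (ih : ∀ j, L ≤ j → j ≤ n → θ * Fn (L + 1) j ≤ Fn (L + 2) (j + 1)) :
    θ * Fn (L + 1) (n + 1) ≤ Fn (L + 2) (n + 2) := by
  obtain ⟨m, hm⟩ : ∃ m, m = n / 2 := ⟨_, rfl⟩
  have hE := E_pos
  have r1 := Fn_sym (L + 2) (n + 1)
  have r0 := Fn_sym (L + 1) n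
  obtain ⟨T, hT⟩ : ∃ T : ℕ → ℝ, T = fun k => (((min (L + 2) (k + 1) : ℕ) : ℝ) +
    ((min (L + 2) (n + 1 - k + 1) : ℕ) : ℝ)) * (Fn (L + 2) k * Fn (L + 2) (n + 1 - k)) := ⟨_, rfl⟩
  obtain ⟨S, hS⟩ : ∃ S : ℕ → ℝ, S = fun k => (((min (L + 1) (k + 1) : ℕ) : ℝ) +
    ((min (L + 1) (n - k + 1) : ℕ) : ℝ)) * (Fn (L + 1) k * Fn (L + 1) (n - k)) := ⟨_, rfl⟩
  have r1' : 2 * (E * ((((n + 1 : ℕ) : ℝ) + 1) * Fn (L + 2) (n + 1 + 1))) =
      ∑ k ∈ range (n + 1 + 1), T k := by rw [r1, hT]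
  have r0' : 2 * (E * (((n : ℝ) + 1) * Fn (L + 1) (n + 1))) = ∑ k ∈ range (n + 1), S k := by
    rw [r0, hS]
  have hT0 : ∀ k, 0 ≤ T k := by
    intro k
    rw [hT]
    exact mul_nonneg (by positivity) (mul_nonneg (Fn_nonneg _ _) (Fn_nonneg _ _))
  have hS0 : ∀ k, 0 ≤ S k := by
    intro k
    rw [hS]
    exact mul_nonneg (by positivity) (mul_nonneg (Fn_nonneg _ _) (Fn_nonneg _ _))
  have hn0 : (0 : ℝ) ≤ n := Nat.cast_nonneg n
  have hmn : 2 * m ≤ n := by omega
  have hmL : L ≤ m := by omega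
  -- products
  have P1 : ∀ k, k ≤ m → θ * (Fn (L + 1) k * Fn (L + 1) (n - k)) ≤
      Fn (L + 2) k * Fn (L + 2) (n + 1 - k) := by
    intro k hk
    have h1 := ih (n - k) (by omega) (by omega)
    have h2 := Fn_mono (L + 1) k
    have e : n - k + 1 = n + 1 - k := by omega
    rw [e] at h1
    calc θ * (Fn (L + 1) k * Fn (L + 1) (n - k)) = Fn (L + 1) k * (θ * Fn (L + 1) (n - k)) := by ring
      _ ≤ Fn (L + 2) k * Fn (L + 2) (n + 1 - k) :=
        mul_le_mul h2 h1 (mul_nonneg hθ (Fn_nonneg _ _)) (Fn_nonneg _ _)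
  have P2 : ∀ k, m ≤ k → k ≤ n → θ * (Fn (L + 1) k * Fn (L + 1) (n - k)) ≤
      Fn (L + 2) (k + 1) * Fn (L + 2) (n - k) := by
    intro k hk hk2
    have h1 := ih k (by omega) (by omega)
    have h2 := Fn_mono (L + 1) (n - k)
    calc θ * (Fn (L + 1) k * Fn (L + 1) (n - k)) = (θ * Fn (L + 1) k) * Fn (L + 1) (n - k) := by ring
      _ ≤ _ := mul_le_mul h1 h2 (Fn_nonneg _ _) (Fn_nonneg _ _)
  -- terms below m
  have Q1 : ∀ k, k < m → θ * (((n : ℝ) + 2) * S k) ≤ ((n : ℝ) + 1) * T k := by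
    intro k hk
    have hp := P1 k (by omega)
    have hp0 : 0 ≤ θ * (Fn (L + 1) k * Fn (L + 1) (n - k)) :=
      mul_nonneg hθ (mul_nonneg (Fn_nonneg _ _) (Fn_nonneg _ _))
    have hw : ((n : ℝ) + 2) * (((min (L + 1) (k + 1) : ℕ) : ℝ) +
        ((min (L + 1) (n - k + 1) : ℕ) : ℝ)) ≤ ((n : ℝ) + 1) * (((min (L + 2) (k + 1) : ℕ) : ℝ) +
        ((min (L + 2) (n + 1 - k + 1) : ℕ) : ℝ)) := by
      have a1 : min (L + 1) (n - k + 1) = L + 1 := by omega
      have a2 : min (L + 2) (n + 1 - k + 1) = L + 2 := by omega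
      rw [a1, a2]
      rcases Nat.lt_or_ge k (L + 1) with h | h
      · have b1 : min (L + 1) (k + 1) = k + 1 := by omega
        have b2 : min (L + 2) (k + 1) = k + 1 := by omega
        rw [b1, b2]
        push_cast
        have : ((k + L + 1 : ℕ) : ℝ) ≤ (n : ℝ) := by exact_mod_cast (by omega : k + L + 1 ≤ n)
        push_cast at this
        nlinarith
      · have b1 : min (L + 1) (k + 1) = L + 1 := by omega
        have b2 : min (L + 2) (k + 1) = L + 2 := by omega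
        rw [b1, b2]
        push_cast
        have : ((2 * L : ℕ) : ℝ) ≤ (n : ℝ) := by exact_mod_cast hn
        push_cast at this
        nlinarith
    rw [hS, hT]
    calc θ * (((n : ℝ) + 2) * ((((min (L + 1) (k + 1) : ℕ) : ℝ) +
          ((min (L + 1) (n - k + 1) : ℕ) : ℝ)) * (Fn (L + 1) k * Fn (L + 1) (n - k))))
        = (((n : ℝ) + 2) * (((min (L + 1) (k + 1) : ℕ) : ℝ) +
          ((min (L + 1) (n - k + 1) : ℕ) : ℝ))) * (θ * (Fn (L + 1) k * Fn (L + 1) (n - k))) := by ring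
      _ ≤ (((n : ℝ) + 1) * (((min (L + 2) (k + 1) : ℕ) : ℝ) +
          ((min (L + 2) (n + 1 - k + 1) : ℕ) : ℝ))) * (Fn (L + 2) k * Fn (L + 2) (n + 1 - k)) :=
          mul_le_mul hw hp hp0 (by positivity)
      _ = _ := by ring
  -- terms above m
  have Q2 : ∀ k, m < k → k ≤ n → θ * (((n : ℝ) + 2) * S k) ≤ ((n : ℝ) + 1) * T (k + 1) := by
    intro k hk hk2
    have hp := P2 k (by omega) hk2
    have hp0 : 0 ≤ θ * (Fn (L + 1) k * Fn (L + 1) (n - k)) :=
      mul_nonneg hθ (mul_nonneg (Fn_nonneg _ _) (Fn_nonneg _ _))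
    have hw : ((n : ℝ) + 2) * (((min (L + 1) (k + 1) : ℕ) : ℝ) +
        ((min (L + 1) (n - k + 1) : ℕ) : ℝ)) ≤ ((n : ℝ) + 1) * (((min (L + 2) (k + 1 + 1) : ℕ) : ℝ) +
        ((min (L + 2) (n - k + 1) : ℕ) : ℝ)) := by
      have a1 : min (L + 1) (k + 1) = L + 1 := by omega
      have a2 : min (L + 2) (k + 1 + 1) = L + 2 := by omega
      rw [a1, a2]
      rcases Nat.lt_or_ge (n - k) (L + 1) with h | h
      · have b1 : min (L + 1) (n - k + 1) = n - k + 1 := by omega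
        have b2 : min (L + 2) (n - k + 1) = n - k + 1 := by omega
        rw [b1, b2]
        have : ((n - k + L + 1 : ℕ) : ℝ) ≤ (n : ℝ) := by
          exact_mod_cast (by omega : n - k + L + 1 ≤ n)
        push_cast at this ⊢
        nlinarith
      · have b1 : min (L + 1) (n - k + 1) = L + 1 := by omega
        have b2 : min (L + 2) (n - k + 1) = L + 2 := by omega
        rw [b1, b2]
        push_cast
        have : ((2 * L : ℕ) : ℝ) ≤ (n : ℝ) := by exact_mod_cast hn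
        push_cast at this
        nlinarith
    have e : n + 1 - (k + 1) = n - k := by omega
    rw [hS, hT]
    simp only [e]
    calc θ * (((n : ℝ) + 2) * ((((min (L + 1) (k + 1) : ℕ) : ℝ) +
          ((min (L + 1) (n - k + 1) : ℕ) : ℝ)) * (Fn (L + 1) k * Fn (L + 1) (n - k))))
        = (((n : ℝ) + 2) * (((min (L + 1) (k + 1) : ℕ) : ℝ) +
          ((min (L + 1) (n - k + 1) : ℕ) : ℝ))) * (θ * (Fn (L + 1) k * Fn (L + 1) (n - k))) := by ring
      _ ≤ (((n : ℝ) + 1) * (((min (L + 2) (k + 1 + 1) : ℕ) : ℝ) +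
          ((min (L + 2) (n - k + 1) : ℕ) : ℝ))) * (Fn (L + 2) (k + 1) * Fn (L + 2) (n - k)) :=
          mul_le_mul hw hp hp0 (by positivity)
      _ = _ := by ring
  -- the middle
  have Q3 : θ * (((n : ℝ) + 2) * S m) ≤ ((n : ℝ) + 1) * (T m + T (m + 1)) := by
    have p1 := P1 m le_rfl
    have p2 := P2 m le_rfl (by omega)
    have hp0 : 0 ≤ θ * (Fn (L + 1) m * Fn (L + 1) (n - m)) :=
      mul_nonneg hθ (mul_nonneg (Fn_nonneg _ _) (Fn_nonneg _ _))
    obtain ⟨X, hX⟩ : ∃ X, X = θ * (Fn (L + 1) m * Fn (L + 1) (n - m)) := ⟨_, rfl⟩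
    rw [← hX] at p1 p2 hp0
    have e : n + 1 - (m + 1) = n - m := by omega
    obtain ⟨w, hw⟩ : ∃ w : ℝ, w = ((min (L + 1) (m + 1) : ℕ) : ℝ) +
      ((min (L + 1) (n - m + 1) : ℕ) : ℝ) := ⟨_, rfl⟩
    have hw0 : 0 ≤ w := by rw [hw]; positivity
    have w1 : w ≤ ((min (L + 2) (m + 1) : ℕ) : ℝ) + ((min (L + 2) (n + 1 - m + 1) : ℕ) : ℝ) := by
      rw [hw]
      have c1 : ((min (L + 1) (m + 1) : ℕ) : ℝ) ≤ ((min (L + 2) (m + 1) : ℕ) : ℝ) := by
        exact_mod_cast (by omega : min (L + 1) (m + 1) ≤ min (L + 2) (m + 1))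
      have c2 : ((min (L + 1) (n - m + 1) : ℕ) : ℝ) ≤ ((min (L + 2) (n + 1 - m + 1) : ℕ) : ℝ) := by
        exact_mod_cast (by omega : min (L + 1) (n - m + 1) ≤ min (L + 2) (n + 1 - m + 1))
      linarith
    have w2 : w ≤ ((min (L + 2) (m + 1 + 1) : ℕ) : ℝ) + ((min (L + 2) (n - m + 1) : ℕ) : ℝ) := by
      rw [hw]
      have c1 : ((min (L + 1) (m + 1) : ℕ) : ℝ) ≤ ((min (L + 2) (m + 1 + 1) : ℕ) : ℝ) := by
        exact_mod_cast (by omega : min (L + 1) (m + 1) ≤ min (L + 2) (m + 1 + 1))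
      have c2 : ((min (L + 1) (n - m + 1) : ℕ) : ℝ) ≤ ((min (L + 2) (n - m + 1) : ℕ) : ℝ) := by
        exact_mod_cast (by omega : min (L + 1) (n - m + 1) ≤ min (L + 2) (n - m + 1))
      linarith
    have t1 : w * X ≤ T m := by
      rw [hT]
      exact mul_le_mul w1 p1 hp0 (by positivity)
    have t2 : w * X ≤ T (m + 1) := by
      rw [hT]
      simp only [e]
      exact mul_le_mul w2 p2 hp0 (by positivity)
    have t3 : θ * (((n : ℝ) + 2) * S m) = ((n : ℝ) + 2) * (w * X) := by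
      rw [hS, hX, hw]
      ring
    have hwX : 0 ≤ w * X := mul_nonneg hw0 hp0
    rw [t3]
    nlinarith
  -- the sums
  have e1 : ∑ k ∈ range (n + 1), S k = ∑ k ∈ range m, S k + S m +
      ∑ i ∈ range (n - m), S (m + 1 + i) := by
    rw [← Finset.sum_range_succ, ← Finset.sum_range_add]
    congr 2
    omega
  have e2 : ∑ k ∈ range (n + 1 + 1), T k = ∑ k ∈ range m, T k + (T m + T (m + 1)) +
      ∑ i ∈ range (n - m), T (m + 1 + 1 + i) := by
    rw [← add_assoc, ← Finset.sum_range_succ, ← Finset.sum_range_succ, ← Finset.sum_range_add]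
    congr 2
    omega
  have main : θ * (((n : ℝ) + 2) * ∑ k ∈ range (n + 1), S k) ≤
      ((n : ℝ) + 1) * ∑ k ∈ range (n + 1 + 1), T k := by
    rw [e1, e2, mul_add, mul_add, mul_add, mul_add, mul_add, mul_add]
    refine add_le_add (add_le_add ?_ Q3) ?_
    · rw [Finset.mul_sum, Finset.mul_sum, Finset.mul_sum]
      exact Finset.sum_le_sum fun k hk => Q1 k (mem_range.mp hk)
    · rw [Finset.mul_sum, Finset.mul_sum, Finset.mul_sum]
      apply Finset.sum_le_sum
      intro i hi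
      have hi' := mem_range.mp hi
      have := Q2 (m + 1 + i) (by omega) (by omega)
      have e : m + 1 + 1 + i = m + 1 + i + 1 := by omega
      rw [e]
      exact this
  rw [← r0', ← r1'] at main
  push_cast at main
  have h5 : (2 * E * ((n : ℝ) + 1) * ((n : ℝ) + 2)) * (θ * Fn (L + 1) (n + 1)) ≤
      (2 * E * ((n : ℝ) + 1) * ((n : ℝ) + 2)) * Fn (L + 2) (n + 2) := by
    have e : (n : ℝ) + 1 + 1 = n + 2 := by ring
    rw [e] at main
    calc _ = θ * (((n : ℝ) + 2) * (2 * (E * (((n : ℝ) + 1) * Fn (L + 1) (n + 1))))) := by ring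
      _ ≤ _ := main
      _ = _ := by ring
  exact le_of_mul_le_mul_left h5 (by positivity)

/-- (a) for all `n ≥ L` -/
lemma Fn_shift_all (L : ℕ) : ∀ n, L ≤ n → tn (L + 1) / tn L * Fn (L + 1) n ≤ Fn (L + 2) (n + 1) := by
  intro n
  induction n using Nat.strong_induction_on with
  | _ n ih =>
    intro hn
    rcases Nat.lt_or_ge (2 * L) n with h | h
    · obtain ⟨p, rfl⟩ : ∃ p, n = p + 1 := ⟨n - 1, by omega⟩
      exact Fn_shift_step L p _ (div_nonneg (tn_pos _).le (tn_pos _).le) (by omega)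
        (fun j h1 h2 => ih j (by omega) h1)
    · have h1 := HH_succ_ge' L (n - L) (by omega)
      unfold HH at h1
      have e1 : L + (n - L) = n := by omega
      have e2 : L + 1 + (n - L) = n + 1 := by omega
      rw [e1, e2] at h1
      exact h1

lemma HH_succ_ge_all (L z : ℕ) : tn (L + 1) / tn L * HH L z ≤ HH (L + 1) z := by
  have h := Fn_shift_all L (L + z) (by omega)
  unfold HH
  have e : L + 1 + z = L + z + 1 := by omega
  rw [e]
  exact h

/-- the kernel comparison, all `x ≤ n - L` -/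
lemma KK_shift (L n x : ℕ) (hL : L + x ≤ n) :
    ((n : ℝ) + 2) * KK L x ≤ ((n : ℝ) + 1) * KK (L + 1) x := by
  have hd := KK_diff L x
  have hn0 : (0 : ℝ) ≤ n := Nat.cast_nonneg n
  have hL0 : (0 : ℝ) ≤ L := Nat.cast_nonneg L
  have hLx : ((L + x : ℕ) : ℝ) ≤ (n : ℝ) := by exact_mod_cast hL
  push_cast at hLx
  have hx0 : (0 : ℝ) ≤ x := Nat.cast_nonneg x
  have key : KK L x ≤ ((n : ℝ) + 1) * (KK (L + 1) x - KK L x) := by
    rcases Nat.lt_or_ge x L with h | h
    · rw [hd, if_neg (by omega), An_zero L x (by omega), An_zero (L + 1) x (by omega)]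
      unfold KK
      have m0 : min L (x + 1) = x + 1 := by omega
      rw [m0, Fn_eq_tn (L + 1) x (by omega), Fn_eq_tn L x (by omega), Fn_eq_tn (L + 2) x (by omega)]
      have ht := tn_pos x
      push_cast
      nlinarith
    · rw [hd, if_pos h]
      unfold KK
      have m0 : min L (x + 1) = L := by omega
      rw [m0]
      have a0 := An_nonneg L x
      have a1 := An_nonneg (L + 1) x
      have f0 := Fn_nonneg L x
      have f1 := Fn_nonneg (L + 1) x
      have f2 := Fn_nonneg (L + 2) x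
      have g1 := Fn_mono (L + 1) x
      have g0 := Fn_mono L x
      have s1 : (L : ℝ) * Fn (L + 1) x + (L : ℝ) * Fn L x ≤
          ((n : ℝ) + 1) * (Fn (L + 2) x + Fn (L + 1) x) := by
        have c1 : (L : ℝ) * Fn (L + 1) x ≤ ((n : ℝ) + 1) * Fn (L + 2) x :=
          mul_le_mul (by linarith) g1 f1 (by linarith)
        have c2 : (L : ℝ) * Fn L x ≤ ((n : ℝ) + 1) * Fn (L + 1) x :=
          mul_le_mul (by linarith) g0 f0 (by linarith)
        linarith
      have s2 : 0 ≤ ((n : ℝ) + 1) * ((L : ℝ) * An (L + 1) x + (L : ℝ) * An L x) := by positivity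
      linarith
  linarith

lemma An_shift_step (L n : ℕ) (hn : L ≤ n)
    (ih : ∀ j, j ≤ n → thL L * An L j ≤ An (L + 1) (j + 1)) :
    thL L * An L (n + 1) ≤ An (L + 1) (n + 2) := by
  have hE := E_pos
  have hn0 : (0 : ℝ) ≤ n := Nat.cast_nonneg n
  have hL0 : (0 : ℝ) ≤ L := Nat.cast_nonneg L
  have hLn : (L : ℝ) ≤ n := by exact_mod_cast hn
  have hθ := thL_pos L
  have r1 := A_rec2 (L + 1) (n + 1)
  have r0 := A_rec2 L n
  have k1 : thL L * (((n : ℝ) + 2) * ∑ j ∈ range (n + 1), An L j * KK L (n - j)) ≤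
      ((n : ℝ) + 1) * ∑ j ∈ range (n + 1 + 1), An (L + 1) j * KK (L + 1) (n + 1 - j) := by
    rw [Finset.sum_range_succ' (fun j => An (L + 1) j * KK (L + 1) (n + 1 - j)),
      An_zero (L + 1) 0 (by omega), zero_mul, add_zero, Finset.mul_sum, Finset.mul_sum,
      Finset.mul_sum]
    apply Finset.sum_le_sum
    intro j hj
    have hj' := mem_range.mp hj
    have e : n + 1 - (j + 1) = n - j := by omega
    rw [e]
    rcases Nat.lt_or_ge L j with h | h
    · have h1 := ih j (by omega)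
      have h2 := KK_shift L n (n - j) (by omega)
      have a0 := An_nonneg L j
      calc thL L * (((n : ℝ) + 2) * (An L j * KK L (n - j))) =
            (thL L * An L j) * (((n : ℝ) + 2) * KK L (n - j)) := by ring
        _ ≤ An (L + 1) (j + 1) * (((n : ℝ) + 1) * KK (L + 1) (n - j)) :=
            mul_le_mul h1 h2 (mul_nonneg (by linarith) (KK_nonneg _ _)) (An_nonneg _ _)
        _ = _ := by ring
    · rw [An_zero L j h, zero_mul, mul_zero, mul_zero]
      exact mul_nonneg (by linarith) (mul_nonneg (An_nonneg _ _) (KK_nonneg _ _))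
  have k2 : thL L * (((n : ℝ) + 2) * ∑ k ∈ range (n + 1),
      (if L ≤ k then Fn (L + 1) k * Fn (L + 1) (n - k) else 0)) ≤
      ((n : ℝ) + 1) * ∑ k ∈ range (n + 1 + 1),
      (if L + 1 ≤ k then Fn (L + 1 + 1) k * Fn (L + 1 + 1) (n + 1 - k) else 0) := by
    rw [Finset.sum_range_succ' (fun k => if L + 1 ≤ k then
      Fn (L + 1 + 1) k * Fn (L + 1 + 1) (n + 1 - k) else 0), if_neg (by omega), add_zero,
      Finset.mul_sum, Finset.mul_sum, Finset.mul_sum]
    apply Finset.sum_le_sum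
    intro k hk
    have hk' := mem_range.mp hk
    have e : n + 1 - (k + 1) = n - k := by omega
    rw [e]
    by_cases h : L ≤ k
    · rw [if_pos h, if_pos (by omega)]
      have h1 := Fn_shift_all L k h
      have h2 := Fn_mono (L + 1) (n - k)
      have f0 := Fn_nonneg (L + 1) (n - k)
      have f1 := Fn_nonneg (L + 1) k
      have hκ : 0 < tn (L + 1) / tn L := div_pos (tn_pos _) (tn_pos _)
      have c2 : ((L : ℝ) + 1) / ((L : ℝ) + 2) * ((n : ℝ) + 2) ≤ (n : ℝ) + 1 := by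
        rw [div_mul_eq_mul_div, div_le_iff₀ (by positivity)]
        nlinarith
      calc thL L * (((n : ℝ) + 2) * (Fn (L + 1) k * Fn (L + 1) (n - k))) =
            (((L : ℝ) + 1) / ((L : ℝ) + 2) * ((n : ℝ) + 2)) *
            ((tn (L + 1) / tn L * Fn (L + 1) k) * Fn (L + 1) (n - k)) := by
            unfold thL
            ring
        _ ≤ ((n : ℝ) + 1) * (Fn (L + 2) (k + 1) * Fn (L + 2) (n - k)) := by
            apply mul_le_mul c2 _ (by positivity) (by positivity)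
            exact mul_le_mul h1 h2 f0 (Fn_nonneg _ _)
    · rw [if_neg h, if_neg (by omega)]
      simp
  have h5 : (E * ((n : ℝ) + 1) * ((n : ℝ) + 2)) * (thL L * An L (n + 1)) ≤
      (E * ((n : ℝ) + 1) * ((n : ℝ) + 2)) * An (L + 1) (n + 2) := by
    have e : (((n + 1 : ℕ) : ℝ) + 1) = n + 2 := by push_cast; ring
    rw [e] at r1
    calc (E * ((n : ℝ) + 1) * ((n : ℝ) + 2)) * (thL L * An L (n + 1))
        = thL L * (((n : ℝ) + 2) * (E * (((n : ℝ) + 1) * An L (n + 1)))) := by ring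
      _ = thL L * (((n : ℝ) + 2) * ∑ j ∈ range (n + 1), An L j * KK L (n - j)) +
          thL L * (((n : ℝ) + 2) * ∑ k ∈ range (n + 1),
          (if L ≤ k then Fn (L + 1) k * Fn (L + 1) (n - k) else 0)) := by rw [r0]; ring
      _ ≤ _ := add_le_add k1 k2
      _ = ((n : ℝ) + 1) * (E * (((n : ℝ) + 2) * An (L + 1) (n + 1 + 1))) := by rw [r1]; ring
      _ = _ := by ring
  exact le_of_mul_le_mul_left h5 (by positivity)

/-- (b) for all `n` -/
lemma An_shift_all (L : ℕ) : ∀ n, thL L * An L n ≤ An (L + 1) (n + 1) := by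
  intro n
  induction n using Nat.strong_induction_on with
  | _ n ih =>
    rcases Nat.lt_or_ge L n with h | h
    · obtain ⟨p, rfl⟩ : ∃ p, n = p + 1 := ⟨n - 1, by omega⟩
      exact An_shift_step L p (by omega) (fun j hj => ih j (by omega))
    · rw [An_zero L n h, mul_zero]
      exact An_nonneg _ _

/-- the names of record -/
lemma F_shift_all (L n : ℕ) (h : L ≤ n) : tn (L + 1) / tn L * Fn (L + 1) n ≤ Fn (L + 2) (n + 1) :=
  Fn_shift_all L n h

lemma A_shift_all (L n : ℕ) : thL L * An L n ≤ An (L + 1) (n + 1) := An_shift_all L n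

lemma gg_succ_ge_all (L y : ℕ) : thL L * gg L y ≤ gg (L + 1) y := by
  have h := An_shift_all L (L + y)
  unfold gg
  have e : L + 1 + y = L + y + 1 := by omega
  rw [e]
  exact h

end Pool.Agent.MP_9da1e3_co
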