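import Pool.Agent.Lib.MP_9da1e3_co.Lin46

namespace Pool.Agent.MP_9da1e3_co

open Finset

/-- the explicit value of `rn` at `i + 1` -/
noncomputable def rbx (i : ℕ) : ℝ := (i : ℝ) ^ i / ((i + 1).factorial : ℝ) / E ^ (i + 1)

lemma rb_rbx_nonneg (i : ℕ) : 0 ≤ rbx i := by
  unfold rbx
  have := E_pos
  positivity

lemma rb_rn_mono (L n : ℕ) (hL : 1 ≤ L) : ∀ d, rn L n ≤ rn (L + d) n := by
  intro d
  induction d with
  | zero => exact le_rfl
  | succ d ih => exact ih.trans (rn_mono (L + d) n (by omega))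

/-- the convolution identity `sum_{k<n} t_k r_{n-k} = t_n` -/
lemma rb_conv (n : ℕ) (hn : 1 ≤ n) : ∑ k ∈ range n, tn k * rn n (n - k) = tn n := by
  have h := congrArg (PowerSeries.coeff n) (FF_mul_inv n)
  rw [lin_coeff_mul_range, PowerSeries.coeff_one, if_neg (by omega), Finset.sum_range_succ,
    Nat.sub_self, coeff_FF, Fn_eq_tn n n le_rfl] at h
  have h0 : PowerSeries.coeff 0 (FF n)⁻¹ = 1 := by
    have := rn_zero n
    unfold rn at this
    linarith
  rw [h0, mul_one] at h
  have h1 : ∑ k ∈ range n, tn k * rn n (n - k) =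
      -∑ k ∈ range n, PowerSeries.coeff k (FF n) * PowerSeries.coeff (n - k) (FF n)⁻¹ := by
    rw [← Finset.sum_neg_distrib]
    apply Finset.sum_congr rfl
    intro k hk
    have hk' := mem_range.mp hk
    rw [coeff_FF, Fn_eq_tn n k hk'.le]
    unfold rn
    ring
  rw [h1]
  linarith

/-- the source of `rho_rec` -/
lemma rb_src (L j : ℕ) (hL : 1 ≤ L) (hR : ∑ i ∈ range j, rbx i ≤ 1) :
    ∑ k ∈ range L, tn k * rn L (L + j - k) ≤ tn L * (1 - ∑ i ∈ range j, rbx i) := by
  have h1 : ∑ k ∈ range L, tn k * rn L (L + j - k) ≤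
      ∑ k ∈ range L, tn k * rn (L + j) (L + j - k) := by
    apply Finset.sum_le_sum
    intro k _
    exact mul_le_mul_of_nonneg_left (rb_rn_mono L _ hL j) (tn_pos k).le
  have h2 := rb_conv (L + j) (by omega)
  rw [Finset.sum_range_add] at h2
  have h3 : tn (L + j) * ∑ i ∈ range j, rbx i ≤
      ∑ x ∈ range j, tn (L + x) * rn (L + j) (L + j - (L + x)) := by
    rw [← Finset.sum_range_reflect rbx j, Finset.mul_sum]
    apply Finset.sum_le_sum
    intro x hx
    have hx' := mem_range.mp hx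
    have e : L + j - (L + x) = (j - 1 - x) + 1 := by omega
    rw [e, rn_explicit (L + j) (j - 1 - x) (by omega)]
    have h4 : tn (L + j) ≤ tn (L + x) := tn_le_of_le (by omega)
    exact mul_le_mul_of_nonneg_right h4 (rb_rbx_nonneg _)
  have h5 : tn (L + j) ≤ tn L := tn_le_of_le (by omega)
  have h6 : tn (L + j) * (1 - ∑ i ∈ range j, rbx i) ≤ tn L * (1 - ∑ i ∈ range j, rbx i) :=
    mul_le_mul_of_nonneg_right h5 (by linarith)
  linarith

/-- one step of the recursion for `rhoL` just after `L` -/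
lemma rb_step (L j : ℕ) (hL : 1 ≤ L) (hR : ∑ i ∈ range j, rbx i ≤ 1) :
    E * ((L : ℝ) * rhoL L (L + 1 + j)) ≤
      (L : ℝ) * ∑ k ∈ range j, tn k * rhoL L (L + 1 + (j - 1 - k)) +
      tn L * (1 - ∑ i ∈ range j, rbx i) := by
  have h := rho_rec L (L + j) (by omega) hL
  have h1 := rb_src L j hL hR
  have e0 : L + j + 1 = L + 1 + j := by omega
  rw [e0] at h
  have hρ := rhoL_nonneg L hL (L + 1 + j)
  have hE := E_pos
  have h2 : E * ((L : ℝ) * rhoL L (L + 1 + j)) ≤ E * ((((L + j : ℕ) : ℝ) + 1) * rhoL L (L + 1 + j)) := by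
    apply mul_le_mul_of_nonneg_left _ hE.le
    apply mul_le_mul_of_nonneg_right _ hρ
    push_cast
    have : (0 : ℝ) ≤ (j : ℝ) := Nat.cast_nonneg j
    linarith
  have h3 : ∑ k ∈ range L, ((L : ℝ) - k) * tn k * rhoL L (L + j - k) ≤
      (L : ℝ) * ∑ k ∈ range j, tn k * rhoL L (L + 1 + (j - 1 - k)) := by
    have h4 : ∑ k ∈ range L, ((L : ℝ) - k) * tn k * rhoL L (L + j - k) ≤
        ∑ k ∈ range L, (L : ℝ) * (tn k * rhoL L (L + j - k)) := by
      apply Finset.sum_le_sum
      intro k _
      have p1 := tn_pos k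
      have p2 := rhoL_nonneg L hL (L + j - k)
      have p3 : (0 : ℝ) ≤ k := Nat.cast_nonneg k
      have p4 : 0 ≤ tn k * rhoL L (L + j - k) := by positivity
      nlinarith
    have h5 : ∑ k ∈ range L, tn k * rhoL L (L + j - k) ≤
        ∑ k ∈ range j, tn k * rhoL L (L + 1 + (j - 1 - k)) := by
      rcases Nat.le_total L j with hLj | hLj
      · calc ∑ k ∈ range L, tn k * rhoL L (L + j - k)
            = ∑ k ∈ range L, tn k * rhoL L (L + 1 + (j - 1 - k)) := by
              apply Finset.sum_congr rfl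
              intro k hk
              have hk' := mem_range.mp hk
              have e : L + j - k = L + 1 + (j - 1 - k) := by omega
              rw [e]
          _ ≤ _ := by
              apply Finset.sum_le_sum_of_subset_of_nonneg
              · intro x hx
                have := mem_range.mp hx
                exact mem_range.mpr (by omega)
              · intro x _ _
                exact mul_nonneg (tn_pos x).le (rhoL_nonneg L hL _)
      · have e1 : range L = range (j + (L - j)) := by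
          congr 1
          omega
        rw [e1, Finset.sum_range_add]
        have e2 : ∑ x ∈ range (L - j), tn (j + x) * rhoL L (L + j - (j + x)) = 0 := by
          apply Finset.sum_eq_zero
          intro x _
          rw [rhoL_zero L (L + j - (j + x)) (by omega), mul_zero]
        rw [e2, add_zero]
        apply le_of_eq
        apply Finset.sum_congr rfl
        intro k hk
        have hk' := mem_range.mp hk
        have e : L + j - k = L + 1 + (j - 1 - k) := by omega
        rw [e]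
    calc _ ≤ _ := h4
      _ = (L : ℝ) * ∑ k ∈ range L, tn k * rhoL L (L + j - k) := by rw [Finset.mul_sum]
      _ ≤ _ := mul_le_mul_of_nonneg_left h5 (Nat.cast_nonneg L)
  linarith

/-- rational upper bounds of `tn k`, `k < 12` -/
def rbT : ℕ → ℚ
  | 0 => 1
  | 1 => 36788 / 100000
  | 2 => 20301 / 100000
  | 3 => 13277 / 100000
  | 4 => 9540 / 100000
  | 5 => 7277 / 100000
  | 6 => 5787 / 100000
  | 7 => 4743 / 100000
  | 8 => 3980 / 100000
  | 9 => 3401 / 100000
  | 10 => 2951 / 100000
  | 11 => 2591 / 100000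
  | _ => 1

/-- rational lower bounds of `rbx i`, `i < 12` -/
def rbR : ℕ → ℚ
  | 0 => 36787 / 100000
  | 1 => 6766 / 100000
  | 2 => 3319 / 100000
  | 3 => 2060 / 100000
  | 4 => 1437 / 100000
  | 5 => 1075 / 100000
  | 6 => 844 / 100000
  | 7 => 685 / 100000
  | 8 => 570 / 100000
  | 9 => 484 / 100000
  | 10 => 418 / 100000
  | 11 => 365 / 100000
  | _ => 0

/-- rational upper bounds of `rhoL L (L+1+j) * L / tn L`, `j < 13` -/
def rbM : ℕ → ℚ
  | 0 => 3679 / 10000
  | 1 => 3679 / 10000
  | 2 => 3928 / 10000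
  | 3 => 4173 / 10000
  | 4 => 4400 / 10000
  | 5 => 4612 / 10000
  | 6 => 4810 / 10000
  | 7 => 4996 / 10000
  | 8 => 5173 / 10000
  | 9 => 5341 / 10000
  | 10 => 5502 / 10000
  | 11 => 5656 / 10000
  | 12 => 5804 / 10000
  | _ => 0

lemma rb_E_lo : (2.7182818283 : ℝ) < E := Real.exp_one_gt_d9

lemma rb_E_hi : E < (2.7182818286 : ℝ) := Real.exp_one_lt_d9

lemma rb_tn_le (k : ℕ) (hk : k < 12) : tn k ≤ (rbT k : ℝ) := by
  have hE := E_pos
  have h1 : (2.7182818283 : ℝ) ^ k ≤ E ^ k := pow_le_pow_left₀ (by norm_num) rb_E_lo.le k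
  have h2 : tn k = tt k / E ^ k := rfl
  have h3 : (0 : ℝ) < (2.7182818283 : ℝ) ^ k := by positivity
  have h4 : tt k ≤ (rbT k : ℝ) * (2.7182818283 : ℝ) ^ k := by
    unfold tt
    interval_cases k <;> norm_num [rbT, Nat.factorial]
  have h5 : 0 ≤ (rbT k : ℝ) := by
    have : (0 : ℚ) ≤ rbT k := by
      interval_cases k <;> norm_num [rbT]
    exact_mod_cast this
  rw [h2, div_le_iff₀ (by positivity)]
  exact h4.trans (mul_le_mul_of_nonneg_left h1 h5)

lemma rb_rbx_ge (i : ℕ) (hi : i < 12) : (rbR i : ℝ) ≤ rbx i := by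
  have hE := E_pos
  have h1 : E ^ (i + 1) ≤ (2.7182818286 : ℝ) ^ (i + 1) := pow_le_pow_left₀ hE.le rb_E_hi.le _
  have h4 : (rbR i : ℝ) * (2.7182818286 : ℝ) ^ (i + 1) ≤ (i : ℝ) ^ i / ((i + 1).factorial : ℝ) := by
    interval_cases i <;> norm_num [rbR, Nat.factorial]
  have h5 : 0 ≤ (rbR i : ℝ) := by
    have : (0 : ℚ) ≤ rbR i := by
      interval_cases i <;> norm_num [rbR]
    exact_mod_cast this
  unfold rbx
  rw [le_div_iff₀ (by positivity)]
  exact (mul_le_mul_of_nonneg_left h1 h5).trans h4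

lemma rb_rbx_sum_le (j : ℕ) (hj : j ≤ 12) : ∑ i ∈ range j, rbx i ≤ 1 := by
  have h := rb_conv (j + 1) (by omega)
  have h1 : ∑ k ∈ range (j + 1), tn (j + 1) * rn (j + 1) (j + 1 - k) ≤ tn (j + 1) := by
    calc ∑ k ∈ range (j + 1), tn (j + 1) * rn (j + 1) (j + 1 - k)
        ≤ ∑ k ∈ range (j + 1), tn k * rn (j + 1) (j + 1 - k) := by
          apply Finset.sum_le_sum
          intro k hk
          have hk' := mem_range.mp hk
          have e : j + 1 - k = (j - k) + 1 := by omega
          rw [e]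
          exact mul_le_mul_of_nonneg_right (tn_le_of_le (by omega)) (rn_nonneg _ _)
      _ = _ := h
  rw [← Finset.mul_sum] at h1
  have h2 : ∑ k ∈ range (j + 1), rn (j + 1) (j + 1 - k) ≤ 1 := by
    have ht := tn_pos (j + 1)
    by_contra hneg
    push Not at hneg
    nlinarith
  have h3 : ∑ i ∈ range j, rbx i ≤ ∑ k ∈ range (j + 1), rn (j + 1) (j + 1 - k) := by
    rw [← Finset.sum_range_reflect (fun k => rn (j + 1) (j + 1 - k)) (j + 1),
      Finset.sum_range_succ _ j]
    have h4 : ∑ i ∈ range j, rbx i = ∑ x ∈ range j, rn (j + 1) (j + 1 - (j + 1 - 1 - x)) := by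
      apply Finset.sum_congr rfl
      intro x hx
      have hx' := mem_range.mp hx
      have e : j + 1 - (j + 1 - 1 - x) = x + 1 := by omega
      rw [e, rn_explicit (j + 1) x (by omega)]
      rfl
    rw [h4]
    have h5 : 0 ≤ rn (j + 1) (j + 1 - (j + 1 - 1 - j)) := by
      have e : j + 1 - (j + 1 - 1 - j) = j + 1 := by omega
      rw [e]
      exact rn_nonneg _ _
    linarith
  linarith

lemma rb_num (j : ℕ) (hj : j < 13) :
    ∑ k ∈ range j, rbT k * rbM (j - 1 - k) + (1 - ∑ i ∈ range j, rbR i) ≤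
      (271828 / 100000 : ℚ) * rbM j := by
  interval_cases j <;> norm_num [Finset.sum_range_succ, rbT, rbM, rbR]

/-- the first 13 places of `rhoL` -/
theorem rb_place (L : ℕ) (hL : 1 ≤ L) : ∀ j, j < 13 →
    rhoL L (L + 1 + j) ≤ (rbM j : ℝ) * (tn L / L) := by
  intro j
  induction j using Nat.strong_induction_on with
  | _ j ih =>
    intro hj
    have hLr : (0 : ℝ) < L := by exact_mod_cast hL
    have tL := tn_pos L
    have hE := E_pos
    have s := rb_step L j hL (rb_rbx_sum_le j (by omega))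
    have q0 : ∀ i, (0 : ℝ) ≤ (rbM i : ℝ) := by
      intro i
      have : (0 : ℚ) ≤ rbM i := by
        rcases Nat.lt_or_ge i 13 with h | h
        · interval_cases i <;> norm_num [rbM]
        · obtain ⟨x, rfl⟩ := Nat.exists_eq_add_of_le h
          rw [Nat.add_comm]
          exact le_rfl
      exact_mod_cast this
    have a1 : (L : ℝ) * ∑ k ∈ range j, tn k * rhoL L (L + 1 + (j - 1 - k)) ≤
        tn L * ∑ k ∈ range j, (rbT k : ℝ) * (rbM (j - 1 - k) : ℝ) := by
      rw [Finset.mul_sum, Finset.mul_sum]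
      apply Finset.sum_le_sum
      intro k hk
      have hk' := mem_range.mp hk
      have i1 := ih (j - 1 - k) (by omega) (by omega)
      have i2 := rb_tn_le k (by omega)
      have i3 := tn_pos k
      have i4 := rhoL_nonneg L hL (L + 1 + (j - 1 - k))
      have i5 := q0 (j - 1 - k)
      calc (L : ℝ) * (tn k * rhoL L (L + 1 + (j - 1 - k)))
          ≤ (L : ℝ) * ((rbT k : ℝ) * ((rbM (j - 1 - k) : ℝ) * (tn L / L))) := by
            apply mul_le_mul_of_nonneg_left _ hLr.le
            exact mul_le_mul i2 i1 i4 (i3.le.trans i2)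
        _ = _ := by
            field_simp
    have a2 : tn L * (1 - ∑ i ∈ range j, rbx i) ≤ tn L * (1 - ∑ i ∈ range j, (rbR i : ℝ)) := by
      apply mul_le_mul_of_nonneg_left _ tL.le
      apply sub_le_sub_left
      apply Finset.sum_le_sum
      intro i hi
      have hi' := mem_range.mp hi
      exact rb_rbx_ge i (by omega)
    have a3 := rb_num j hj
    have a4 : (∑ k ∈ range j, (rbT k : ℝ) * (rbM (j - 1 - k) : ℝ)) + (1 - ∑ i ∈ range j, (rbR i : ℝ)) ≤
        (271828 / 100000 : ℝ) * (rbM j : ℝ) := by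
      have := (Rat.cast_le (K := ℝ)).mpr a3
      push_cast at this
      exact this
    have a5 := mul_le_mul_of_nonneg_left a4 tL.le
    have a6 : tn L * ((271828 / 100000 : ℝ) * (rbM j : ℝ)) ≤ tn L * (E * (rbM j : ℝ)) := by
      apply mul_le_mul_of_nonneg_left _ tL.le
      apply mul_le_mul_of_nonneg_right _ (q0 j)
      have := rb_E_lo
      linarith
    have a7 : E * ((L : ℝ) * rhoL L (L + 1 + j)) ≤ E * (tn L * (rbM j : ℝ)) := by
      linarith
    have a8 := le_of_mul_le_mul_left a7 hE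
    have e : (rbM j : ℝ) * (tn L / L) = (tn L * (rbM j : ℝ)) / L := by ring
    rw [e, le_div_iff₀ hLr]
    linarith

/-- (MASS), left side: the first 13 places -/
theorem rb_head (L : ℕ) (hL : 1 ≤ L) :
    ∑ j ∈ range 13, rhoL L (L + 1 + j) ≤ 6.18 * (tn L / L) := by
  have hLr : (0 : ℝ) < L := by exact_mod_cast hL
  have tL := tn_pos L
  calc ∑ j ∈ range 13, rhoL L (L + 1 + j) ≤ ∑ j ∈ range 13, (rbM j : ℝ) * (tn L / L) := by
        apply Finset.sum_le_sum
        intro j hj
        exact rb_place L hL j (mem_range.mp hj)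
    _ = (∑ j ∈ range 13, (rbM j : ℝ)) * (tn L / L) := by rw [Finset.sum_mul]
    _ ≤ _ := by
        apply mul_le_mul_of_nonneg_right _ (by positivity)
        norm_num [Finset.sum_range_succ, rbM]

end Pool.Agent.MP_9da1e3_co
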