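import Pool.Agent.Lib.MP_9da1e3_co.V2_mass
import Pool.Agent.Lib.MP_9da1e3_co.V2_RB1

/-! Row r5m, final form. -/

namespace Pool.Agent.MP_9da1e3_co

open Finset

/-- **MASS**: the places `L+1 .. L+13` carry at most `1/12` of the weighted mass of the places
`L+14 .. L + 2L/3` -/
theorem vm_mass (L : ℕ) (hL : 1000 ≤ L) (th : ℝ) (hlo : 1 + 3 / (2 * ((L : ℝ) + 2)) ≤ th)
    (hhi : th ≤ 1 + 3 / (2 * (L : ℝ))) :
    ∑ i ∈ range (L + 14), th ^ i * rhoL L i ≤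
      1 / 12 * ∑ i ∈ Ico (L + 14) (L + 1 + 2 * L / 3), th ^ i * rhoL L i :=
  vm_row L hL th hlo hhi 6.18 (1 / 12) (by norm_num) (by norm_num) (by norm_num)
    (rb_head L (by omega))

/-- the same at `θ = tn L / tn (L+1)` -/
theorem vm_mass_tht (L : ℕ) (hL : 1000 ≤ L) :
    ∑ i ∈ range (L + 14), tht L ^ i * rhoL L i ≤
      1 / 12 * ∑ i ∈ Ico (L + 14) (L + 1 + 2 * L / 3), tht L ^ i * rhoL L i :=
  vm_mass L hL (tht L) (r5f_lo' L) (r5f_hi L (by omega))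

/-- the same with a cut-off place `i1 + 1` -/
theorem vm_mass_i1 (L i1 : ℕ) (hL : 1000 ≤ L) (hi : L + 2 * L / 3 ≤ i1) :
    ∑ i ∈ range (L + 14), tht L ^ i * rhoL L i ≤
      1 / 12 * ∑ i ∈ Ico (L + 14) (i1 + 1), tht L ^ i * rhoL L i := by
  refine (vm_mass_tht L hL).trans ?_
  apply mul_le_mul_of_nonneg_left _ (by norm_num)
  apply Finset.sum_le_sum_of_subset_of_nonneg (Finset.Ico_subset_Ico le_rfl (by omega))
  intro i _ _
  exact mul_nonneg (pow_nonneg (tht_pos L).le i) (rhoL_nonneg L (by omega) i)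

end Pool.Agent.MP_9da1e3_co
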