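import Pool.Agent.Lib.MP_9da1e3_co.GL4

namespace Pool.Agent.MP_9da1e3_co

open Finset

lemma f14_sum_bound (L m : ℕ) (hm : m + 1 ≤ L) (hneg : ∀ r, r ≤ m → bb L r ≤ 0) :
    -∑ r ∈ range (m + 1), kap m r * bb L r ≤
      tn L / L * (3 / 2 * ∑ n ∈ range m, gl_U2 n + 1 / E * gl_S1 m - gl_U2 m) := by
  have hL : 1 ≤ L := by omega
  obtain ⟨κ, hκ⟩ : ∃ κ : ℝ, κ = tn L / L := ⟨_, rfl⟩
  have hL0 : (0 : ℝ) < L := by exact_mod_cast hL
  have hκ0 : 0 < κ := by rw [hκ]; have := tn_pos L; positivity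
  have e0 : -∑ r ∈ range (m + 1), kap m r * bb L r = ∑ r ∈ range (m + 1), kap m r * (-bb L r) := by
    rw [← Finset.sum_neg_distrib]
    apply Finset.sum_congr rfl
    intro r _
    ring
  rw [e0, ← hκ]
  have a1 : ∑ r ∈ range (m + 1), kap m r * (-bb L r) ≤
      ∑ r ∈ range (m + 1), κ * (3 / 2 * (ww (m - r) * gl_VV r) + 1 / E * (ww (m - r) * (r : ℝ)) -
        ww (m - r) * WW r) := by
    apply Finset.sum_le_sum
    intro r hr
    have hr' := mem_range.mp hr
    have hw := ww_pos (m - r)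
    have hW := gl_r_WW_le r
    have hn := hneg r (by omega)
    rcases Nat.eq_zero_or_pos r with rfl | hr0
    · rw [bb_zero]
      simp [gl_VV, gl_WW_zero]
    · have hr1 : (1 : ℝ) ≤ r := by exact_mod_cast hr0
      have hg : -bb L r ≤ κ * WW r := by
        obtain ⟨s, rfl⟩ : ∃ s, r = s + 1 := ⟨r - 1, by omega⟩
        rw [bb_succ]
        have h1 := gg_nonneg (L + 1) s
        have h2 := gg_le_WW_all L hL (s + 1) (by omega)
        rw [← hκ] at h2
        linarith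
      have a2 : kap m r * (-bb L r) ≤ (((r : ℝ) - 1) * ww (m - r)) * (-bb L r) := by
        apply mul_le_mul_of_nonneg_right _ (by linarith)
        unfold kap
        split_ifs
        · have := gl_w2_nonneg (m - r - 1)
          linarith
        · linarith
      have a3 : (((r : ℝ) - 1) * ww (m - r)) * (-bb L r) ≤ (((r : ℝ) - 1) * ww (m - r)) * (κ * WW r) :=
        mul_le_mul_of_nonneg_left hg (mul_nonneg (by linarith) hw.le)
      have a4 : κ * ww (m - r) * ((r : ℝ) * WW r) ≤ κ * ww (m - r) * (3 / 2 * gl_VV r + (r : ℝ) * (1 / E)) :=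
        mul_le_mul_of_nonneg_left hW (by positivity)
      refine a2.trans (a3.trans ?_)
      nlinarith
  refine a1.trans (le_of_eq ?_)
  rw [← Finset.mul_sum, Finset.sum_sub_distrib, Finset.sum_add_distrib, ← Finset.mul_sum,
    ← Finset.mul_sum, gl_conv_VV, gl_conv_id, gl_conv_WW]

lemma f14_conv_bound (L m : ℕ) (hm : m + 1 ≤ L) :
    ∑ i ∈ range m, ww (m - 1 - i) * gg (L + 1) i ≤ tn L / L * gl_U2 (m - 1) := by
  have hL : 1 ≤ L := by omega
  obtain ⟨κ, hκ⟩ : ∃ κ : ℝ, κ = tn L / L := ⟨_, rfl⟩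
  have hL0 : (0 : ℝ) < L := by exact_mod_cast hL
  have hκ0 : 0 < κ := by rw [hκ]; have := tn_pos L; positivity
  have h3 : tn (L + 1) / (((L + 1 : ℕ)) : ℝ) ≤ κ := by
    rw [hκ]
    apply div_le_div₀ (tn_pos L).le (tn_le_of_le (by omega)) hL0
    push_cast
    linarith
  rw [← hκ]
  rcases Nat.eq_zero_or_pos m with rfl | hpos
  · simp [gl_U2]
  obtain ⟨p, rfl⟩ : ∃ p, m = p + 1 := ⟨m - 1, by omega⟩
  rw [Nat.add_sub_cancel, ← gl_conv_WW, Finset.mul_sum]
  apply Finset.sum_le_sum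
  intro i hi
  have hi' := mem_range.mp hi
  have h2 := gg_le_WW_all (L + 1) (by omega) i (by omega)
  have h4 : gg (L + 1) i ≤ κ * WW i := h2.trans (mul_le_mul_of_nonneg_right h3 (WW_nonneg i))
  have hw := ww_pos (p - i)
  calc ww (p - i) * gg (L + 1) i ≤ ww (p - i) * (κ * WW i) := mul_le_mul_of_nonneg_left h4 hw.le
    _ = _ := by ring

lemma f14_step (L m : ℕ) (hL : 1000 ≤ L) (hm : m + 1 ≤ L) (hneg : ∀ r, r ≤ m → bb L r ≤ 0)
    (s v T w : ℝ) (hs : s ≤ gl_S1 m) (hv : v ≤ WW m) (hw : ww m ≤ w) (hT0 : 0 ≤ T)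
    (hT : m = 0 ∨ 3 / 8 * (m : ℝ) * (m - 1) + ((m : ℝ) - 1) / 2 + 15 / 8 * 0.36789 * m + 5 / 4 * 0.36789 -
      (15 / 8 - 0.36789) * s - 5 / 4 * v ≤ T) :
    tn L / L * (ww m - 0.001 * (T + ((m : ℝ) + 1) * w)) ≤ -bb L (m + 1) := by
  have hLr : (1000 : ℝ) ≤ L := by exact_mod_cast hL
  have hL0 : (0 : ℝ) < L := by linarith
  have htL := tn_pos L
  obtain ⟨κ, hκ⟩ : ∃ κ : ℝ, κ = tn L / L := ⟨_, rfl⟩
  have hκ0 : 0 < κ := by rw [hκ]; positivity
  have hκL : κ * L = tn L := by rw [hκ]; field_simp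
  have hv1 := bb_volterra L m hm
  have h1 := f14_sum_bound L m hm hneg
  have h2 := f14_conv_bound L m hm
  have hw0 := ww_pos m
  have hm0 : (0 : ℝ) ≤ m := Nat.cast_nonneg m
  rw [← hκ] at h1 h2 ⊢
  obtain ⟨b0, b1⟩ := gl_inv_E_bounds
  have hS0 : 0 ≤ gl_S1 m := Finset.sum_nonneg fun _ _ => WW_nonneg _
  -- total
  have h3 : 2 * gl_U2 (m - 1) + (3 / 2 * ∑ n ∈ range m, gl_U2 n + 1 / E * gl_S1 m - gl_U2 m) ≤ T := by
    rcases Nat.eq_zero_or_pos m with rfl | hpos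
    · have e : gl_S1 0 = 0 := by simp [gl_S1, gl_WW_zero]
      have e2 : gl_U2 0 = 0 := by simp [gl_U2]
      simp only [Nat.zero_sub, e, e2, Finset.range_zero, Finset.sum_empty]
      linarith
    · obtain ⟨p, rfl⟩ : ∃ p, m = p + 1 := ⟨m - 1, by omega⟩
      rw [Nat.add_sub_cancel]
      have u1 := gl_U2_le p
      have u2 := gl_sum_U2_le (p + 1)
      have u3 : gl_U2 p ≤ gl_U2 (p + 1) := by
        unfold gl_U2
        rw [Finset.sum_range_succ]
        have := gl_w2_nonneg p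
        linarith
      have hT' := hT.resolve_left (by omega)
      push_cast at hT' u2 ⊢
      have u4 : (15 / 8 - 0.36789) * s ≤ (15 / 8 - 1 / E) * gl_S1 (p + 1) := by
        calc (15 / 8 - 0.36789) * s ≤ (15 / 8 - 0.36789) * gl_S1 (p + 1) :=
              mul_le_mul_of_nonneg_left hs (by norm_num)
          _ ≤ _ := mul_le_mul_of_nonneg_right (by linarith) hS0
      have u5 : 15 / 8 * (1 / E) * ((p : ℝ) + 1) ≤ 15 / 8 * 0.36789 * ((p : ℝ) + 1) := by
        apply mul_le_mul_of_nonneg_right _ (by positivity)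
        linarith
      nlinarith
  have h4 : κ * (L * ww m - T) ≤ ((L : ℝ) + (m + 1)) * (-bb L (m + 1)) := by
    have h5 : ((L : ℝ) + (m + 1)) * (-bb L (m + 1)) = tn L * ww m -
        2 * ∑ i ∈ range m, ww (m - 1 - i) * gg (L + 1) i + ∑ r ∈ range (m + 1), kap m r * bb L r := by
      have : ((L : ℝ) + (m + 1)) * (-bb L (m + 1)) = -(((L : ℝ) + (m + 1)) * bb L (m + 1)) := by ring
      rw [this, hv1]
      ring
    rw [h5, ← hκL]
    have h6 := mul_le_mul_of_nonneg_left h3 hκ0.le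
    nlinarith
  obtain ⟨y, hy⟩ : ∃ y : ℝ, y = T + ((m : ℝ) + 1) * w := ⟨_, rfl⟩
  have hw' : 0 ≤ w := hw0.le.trans hw
  have hy0 : 0 ≤ y := by rw [hy]; positivity
  obtain ⟨u, hu⟩ : ∃ u : ℝ, u = 1 / (L : ℝ) := ⟨_, rfl⟩
  have hu0 : 0 < u := by rw [hu]; positivity
  have huL : (L : ℝ) * u = 1 := by rw [hu]; field_simp
  have hu1 : u ≤ 0.001 := by
    rw [hu, div_le_iff₀ hL0]; linarith
  have h6 : κ * (ww m - y * u) ≤ -bb L (m + 1) := by
    have h7 : ((L : ℝ) + (m + 1)) * (κ * (ww m - y * u)) ≤ ((L : ℝ) + (m + 1)) * (-bb L (m + 1)) := by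
      refine le_trans ?_ h4
      have e : ((L : ℝ) + (m + 1)) * (κ * (ww m - y * u)) =
          κ * (L * ww m + ((m : ℝ) + 1) * ww m - (L * u) * y - ((m : ℝ) + 1) * (y * u)) := by ring
      rw [e, huL]
      apply mul_le_mul_of_nonneg_left _ hκ0.le
      have q1 : 0 ≤ ((m : ℝ) + 1) * (y * u) := by positivity
      have q2 : ((m : ℝ) + 1) * ww m ≤ ((m : ℝ) + 1) * w := mul_le_mul_of_nonneg_left hw (by positivity)
      linarith
    exact le_of_mul_le_mul_left h7 (by positivity)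
  refine le_trans (mul_le_mul_of_nonneg_left ?_ hκ0.le) h6
  have h8 := mul_le_mul_of_nonneg_left hu1 hy0
  rw [← hy]
  linarith

lemma f14_e : 0.36787944 ≤ 1 / E ∧ 1 / E ≤ 0.367879442 := by
  have h1 : (2.7182818283 : ℝ) < E := Real.exp_one_gt_d9
  have h2 : E < 2.7182818286 := Real.exp_one_lt_d9
  constructor
  · rw [le_div_iff₀ (by linarith)]; linarith
  · rw [div_le_iff₀ (by linarith)]; linarith

lemma f14_pow (k : ℕ) : (0.36787944 : ℝ) ^ k ≤ (1 / E) ^ k ∧ (1 / E) ^ k ≤ 0.367879442 ^ k := by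
  obtain ⟨a, b⟩ := f14_e
  exact ⟨pow_le_pow_left₀ (by norm_num) a k, pow_le_pow_left₀ (by linarith) b k⟩

lemma f14_ww_eq (m : ℕ) (c : ℝ) (hc : cc m = c) : ww m = c * (1 / E) ^ (m + 1) := by
  unfold ww
  rw [hc, div_pow, one_pow]
  ring

lemma f14_ww0 : 0.36787 ≤ ww 0 ∧ ww 0 ≤ 0.36788 := by
  rw [f14_ww_eq 0 1 (by unfold cc; norm_num [Nat.factorial])]
  obtain ⟨a, b⟩ := f14_pow 1
  norm_num at a b ⊢
  constructor <;> linarith

lemma f14_ww1 : 0.27067 ≤ ww 1 ∧ ww 1 ≤ 0.27068 := by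
  rw [f14_ww_eq 1 2 (by unfold cc; norm_num [Nat.factorial])]
  obtain ⟨a, b⟩ := f14_pow 2
  norm_num at a b ⊢
  constructor <;> linarith

lemma f14_ww2 : 0.22404 ≤ ww 2 ∧ ww 2 ≤ 0.22405 := by
  rw [f14_ww_eq 2 (9 / 2) (by unfold cc; norm_num [Nat.factorial])]
  obtain ⟨a, b⟩ := f14_pow 3
  norm_num at a b ⊢
  constructor <;> linarith

lemma f14_ww3 : 0.19536 ≤ ww 3 ∧ ww 3 ≤ 0.19537 := by
  rw [f14_ww_eq 3 (32 / 3) (by unfold cc; norm_num [Nat.factorial])]
  obtain ⟨a, b⟩ := f14_pow 4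
  norm_num at a b ⊢
  constructor <;> linarith

lemma f14_ww4 : 0.17546 ≤ ww 4 ∧ ww 4 ≤ 0.17547 := by
  rw [f14_ww_eq 4 (625 / 24) (by unfold cc; norm_num [Nat.factorial])]
  obtain ⟨a, b⟩ := f14_pow 5
  norm_num at a b ⊢
  constructor <;> linarith

lemma f14_ww5 : 0.16062 ≤ ww 5 ∧ ww 5 ≤ 0.16063 := by
  rw [f14_ww_eq 5 (324 / 5) (by unfold cc; norm_num [Nat.factorial])]
  obtain ⟨a, b⟩ := f14_pow 6
  norm_num at a b ⊢
  constructor <;> linarith

lemma f14_ww6 : 0.149 ≤ ww 6 ∧ ww 6 ≤ 0.14901 := by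
  rw [f14_ww_eq 6 (117649 / 720) (by unfold cc; norm_num [Nat.factorial])]
  obtain ⟨a, b⟩ := f14_pow 7
  norm_num at a b ⊢
  constructor <;> linarith

lemma f14_ww7 : 0.13958 ≤ ww 7 ∧ ww 7 ≤ 0.13959 := by
  rw [f14_ww_eq 7 (131072 / 315) (by unfold cc; norm_num [Nat.factorial])]
  obtain ⟨a, b⟩ := f14_pow 8
  norm_num at a b ⊢
  constructor <;> linarith

lemma f14_ww8 : 0.13175 ≤ ww 8 ∧ ww 8 ≤ 0.13176 := by
  rw [f14_ww_eq 8 (4782969 / 4480) (by unfold cc; norm_num [Nat.factorial])]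
  obtain ⟨a, b⟩ := f14_pow 9
  norm_num at a b ⊢
  constructor <;> linarith

lemma f14_ww9 : 0.12511 ≤ ww 9 ∧ ww 9 ≤ 0.12512 := by
  rw [f14_ww_eq 9 (1562500 / 567) (by unfold cc; norm_num [Nat.factorial])]
  obtain ⟨a, b⟩ := f14_pow 10
  norm_num at a b ⊢
  constructor <;> linarith

lemma f14_ww10 : 0.11937 ≤ ww 10 ∧ ww 10 ≤ 0.11938 := by
  rw [f14_ww_eq 10 (25937424601 / 3628800) (by unfold cc; norm_num [Nat.factorial])]
  obtain ⟨a, b⟩ := f14_pow 11
  norm_num at a b ⊢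
  constructor <;> linarith

lemma f14_ww11 : 0.11436 ≤ ww 11 ∧ ww 11 ≤ 0.11437 := by
  rw [f14_ww_eq 11 (35831808 / 1925) (by unfold cc; norm_num [Nat.factorial])]
  obtain ⟨a, b⟩ := f14_pow 12
  norm_num at a b ⊢
  constructor <;> linarith

lemma f14_ww12 : 0.10993 ≤ ww 12 ∧ ww 12 ≤ 0.10994 := by
  rw [f14_ww_eq 12 (23298085122481 / 479001600) (by unfold cc; norm_num [Nat.factorial])]
  obtain ⟨a, b⟩ := f14_pow 13
  norm_num at a b ⊢
  constructor <;> linarith

lemma f14_ww13 : 0.10598 ≤ ww 13 ∧ ww 13 ≤ 0.10599 := by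
  rw [f14_ww_eq 13 (110730297608 / 868725) (by unfold cc; norm_num [Nat.factorial])]
  obtain ⟨a, b⟩ := f14_pow 14
  norm_num at a b ⊢
  constructor <;> linarith

lemma f14_S1_succ (m : ℕ) : gl_S1 (m + 1) = gl_S1 m + WW (m + 1) := by
  unfold gl_S1
  rw [Finset.sum_range_succ]

lemma f14_WW0 : (0 : ℝ) ≤ WW 0 := WW_nonneg 0

lemma f14_S0 : (0 : ℝ) ≤ gl_S1 0 := Finset.sum_nonneg fun _ _ => WW_nonneg _

lemma f14_WW1 : 0.36787 ≤ WW 1 := by
  have h := gl_WW_succ 0
  have h1 := f14_WW0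
  have h2 := f14_ww0.1
  norm_num at h h1 h2 ⊢
  linarith

lemma f14_S1 : 0.36787 ≤ gl_S1 1 := by
  have h := f14_S1_succ 0
  have h1 := f14_S0
  have h2 := f14_WW1
  norm_num at h h1 h2 ⊢
  linarith

lemma f14_WW2 : 0.63854 ≤ WW 2 := by
  have h := gl_WW_succ 1
  have h1 := f14_WW1
  have h2 := f14_ww1.1
  norm_num at h h1 h2 ⊢
  linarith

lemma f14_S2 : 1.00641 ≤ gl_S1 2 := by
  have h := f14_S1_succ 1
  have h1 := f14_S1
  have h2 := f14_WW2
  norm_num at h h1 h2 ⊢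
  linarith

lemma f14_WW3 : 0.86258 ≤ WW 3 := by
  have h := gl_WW_succ 2
  have h1 := f14_WW2
  have h2 := f14_ww2.1
  norm_num at h h1 h2 ⊢
  linarith

lemma f14_S3 : 1.86899 ≤ gl_S1 3 := by
  have h := f14_S1_succ 2
  have h1 := f14_S2
  have h2 := f14_WW3
  norm_num at h h1 h2 ⊢
  linarith

lemma f14_WW4 : 1.05794 ≤ WW 4 := by
  have h := gl_WW_succ 3
  have h1 := f14_WW3
  have h2 := f14_ww3.1
  norm_num at h h1 h2 ⊢
  linarith

lemma f14_S4 : 2.92693 ≤ gl_S1 4 := by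
  have h := f14_S1_succ 3
  have h1 := f14_S3
  have h2 := f14_WW4
  norm_num at h h1 h2 ⊢
  linarith

lemma f14_WW5 : 1.2334 ≤ WW 5 := by
  have h := gl_WW_succ 4
  have h1 := f14_WW4
  have h2 := f14_ww4.1
  norm_num at h h1 h2 ⊢
  linarith

lemma f14_S5 : 4.16033 ≤ gl_S1 5 := by
  have h := f14_S1_succ 4
  have h1 := f14_S4
  have h2 := f14_WW5
  norm_num at h h1 h2 ⊢
  linarith

lemma f14_WW6 : 1.39402 ≤ WW 6 := by
  have h := gl_WW_succ 5
  have h1 := f14_WW5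
  have h2 := f14_ww5.1
  norm_num at h h1 h2 ⊢
  linarith

lemma f14_S6 : 5.55435 ≤ gl_S1 6 := by
  have h := f14_S1_succ 5
  have h1 := f14_S5
  have h2 := f14_WW6
  norm_num at h h1 h2 ⊢
  linarith

lemma f14_WW7 : 1.54302 ≤ WW 7 := by
  have h := gl_WW_succ 6
  have h1 := f14_WW6
  have h2 := f14_ww6.1
  norm_num at h h1 h2 ⊢
  linarith

lemma f14_S7 : 7.09737 ≤ gl_S1 7 := by
  have h := f14_S1_succ 6
  have h1 := f14_S6
  have h2 := f14_WW7
  norm_num at h h1 h2 ⊢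
  linarith

lemma f14_WW8 : 1.6826 ≤ WW 8 := by
  have h := gl_WW_succ 7
  have h1 := f14_WW7
  have h2 := f14_ww7.1
  norm_num at h h1 h2 ⊢
  linarith

lemma f14_S8 : 8.77997 ≤ gl_S1 8 := by
  have h := f14_S1_succ 7
  have h1 := f14_S7
  have h2 := f14_WW8
  norm_num at h h1 h2 ⊢
  linarith

lemma f14_WW9 : 1.81435 ≤ WW 9 := by
  have h := gl_WW_succ 8
  have h1 := f14_WW8
  have h2 := f14_ww8.1
  norm_num at h h1 h2 ⊢
  linarith

lemma f14_S9 : 10.59432 ≤ gl_S1 9 := by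
  have h := f14_S1_succ 8
  have h1 := f14_S8
  have h2 := f14_WW9
  norm_num at h h1 h2 ⊢
  linarith

lemma f14_WW10 : 1.93946 ≤ WW 10 := by
  have h := gl_WW_succ 9
  have h1 := f14_WW9
  have h2 := f14_ww9.1
  norm_num at h h1 h2 ⊢
  linarith

lemma f14_S10 : 12.53378 ≤ gl_S1 10 := by
  have h := f14_S1_succ 9
  have h1 := f14_S9
  have h2 := f14_WW10
  norm_num at h h1 h2 ⊢
  linarith

lemma f14_WW11 : 2.05883 ≤ WW 11 := by
  have h := gl_WW_succ 10
  have h1 := f14_WW10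
  have h2 := f14_ww10.1
  norm_num at h h1 h2 ⊢
  linarith

lemma f14_S11 : 14.59261 ≤ gl_S1 11 := by
  have h := f14_S1_succ 10
  have h1 := f14_S10
  have h2 := f14_WW11
  norm_num at h h1 h2 ⊢
  linarith

lemma f14_WW12 : 2.17319 ≤ WW 12 := by
  have h := gl_WW_succ 11
  have h1 := f14_WW11
  have h2 := f14_ww11.1
  norm_num at h h1 h2 ⊢
  linarith

lemma f14_S12 : 16.7658 ≤ gl_S1 12 := by
  have h := f14_S1_succ 11
  have h1 := f14_S11
  have h2 := f14_WW12
  norm_num at h h1 h2 ⊢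
  linarith

lemma f14_WW13 : 2.28312 ≤ WW 13 := by
  have h := gl_WW_succ 12
  have h1 := f14_WW12
  have h2 := f14_ww12.1
  norm_num at h h1 h2 ⊢
  linarith

lemma f14_S13 : 19.04892 ≤ gl_S1 13 := by
  have h := f14_S1_succ 12
  have h1 := f14_S12
  have h2 := f14_WW13
  norm_num at h h1 h2 ⊢
  linarith

/-- lower bounds of `-b(1), …, -b(14)`, `L ≥ 1000` -/
theorem f14_terms (L : ℕ) (hL : 1000 ≤ L) :
    tn L / L * 0.3675 ≤ -bb L 1 ∧
    tn L / L * 0.26999 ≤ -bb L 2 ∧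
    tn L / L * 0.22259 ≤ -bb L 3 ∧
    tn L / L * 0.19269 ≤ -bb L 4 ∧
    tn L / L * 0.17109 ≤ -bb L 5 ∧
    tn L / L * 0.15405 ≤ -bb L 6 ∧
    tn L / L * 0.13972 ≤ -bb L 7 ∧
    tn L / L * 0.12704 ≤ -bb L 8 ∧
    tn L / L * 0.11542 ≤ -bb L 9 ∧
    tn L / L * 0.10442 ≤ -bb L 10 ∧
    tn L / L * 0.09376 ≤ -bb L 11 ∧
    tn L / L * 0.08325 ≤ -bb L 12 ∧
    tn L / L * 0.07274 ≤ -bb L 13 ∧
    tn L / L * 0.06213 ≤ -bb L 14 := by
  have hL0 : (0 : ℝ) < L := by
    have : (1000 : ℝ) ≤ L := by exact_mod_cast hL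
    linarith
  have hκ0 : 0 ≤ tn L / L := by have := tn_pos L; positivity
  have n0 : bb L 0 ≤ 0 := (bb_zero L).le
  have g0 : ∀ r, r ≤ 0 → bb L r ≤ 0 := by
    intro r hr
    obtain rfl : r = 0 := by omega
    exact n0
  have h0 : tn L / L * 0.3675 ≤ -bb L 1 := by
    refine le_trans (mul_le_mul_of_nonneg_left ?_ hκ0) (f14_step L 0 hL (by omega) g0 0 0 0 0.36788
      f14_S0 f14_WW0 f14_ww0.2 (by norm_num) (Or.inl rfl))
    have := f14_ww0.1
    norm_num at this ⊢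
    linarith
  have n1 : bb L 1 ≤ 0 := by
    have : 0 ≤ tn L / L * 0.3675 := mul_nonneg hκ0 (by norm_num)
    linarith
  have g1 : ∀ r, r ≤ 1 → bb L r ≤ 0 := by
    intro r hr
    rcases Nat.lt_or_ge r 1 with h | h
    · exact g0 r (by omega)
    · obtain rfl : r = 1 := by omega
      exact n1
  have h1 : tn L / L * 0.26999 ≤ -bb L 2 := by
    refine le_trans (mul_le_mul_of_nonneg_left ?_ hκ0) (f14_step L 1 hL (by omega) g1 0.36787 0.36787 0.136 0.27068
      f14_S1 f14_WW1 f14_ww1.2 (by norm_num) (Or.inr (by norm_num)))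
    have := f14_ww1.1
    norm_num at this ⊢
    linarith
  have n2 : bb L 2 ≤ 0 := by
    have : 0 ≤ tn L / L * 0.26999 := mul_nonneg hκ0 (by norm_num)
    linarith
  have g2 : ∀ r, r ≤ 2 → bb L r ≤ 0 := by
    intro r hr
    rcases Nat.lt_or_ge r 2 with h | h
    · exact g1 r (by omega)
    · obtain rfl : r = 2 := by omega
      exact n2
  have h2 : tn L / L * 0.22259 ≤ -bb L 3 := by
    refine le_trans (mul_le_mul_of_nonneg_left ?_ hκ0) (f14_step L 2 hL (by omega) g2 1.00641 0.63854 0.775 0.22405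
      f14_S2 f14_WW2 f14_ww2.2 (by norm_num) (Or.inr (by norm_num)))
    have := f14_ww2.1
    norm_num at this ⊢
    linarith
  have n3 : bb L 3 ≤ 0 := by
    have : 0 ≤ tn L / L * 0.22259 := mul_nonneg hκ0 (by norm_num)
    linarith
  have g3 : ∀ r, r ≤ 3 → bb L r ≤ 0 := by
    intro r hr
    rcases Nat.lt_or_ge r 3 with h | h
    · exact g2 r (by omega)
    · obtain rfl : r = 3 := by omega
      exact n3
  have h3 : tn L / L * 0.19269 ≤ -bb L 4 := by
    refine le_trans (mul_le_mul_of_nonneg_left ?_ hκ0) (f14_step L 3 hL (by omega) g3 1.86899 0.86258 1.885 0.19537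
      f14_S3 f14_WW3 f14_ww3.2 (by norm_num) (Or.inr (by norm_num)))
    have := f14_ww3.1
    norm_num at this ⊢
    linarith
  have n4 : bb L 4 ≤ 0 := by
    have : 0 ≤ tn L / L * 0.19269 := mul_nonneg hκ0 (by norm_num)
    linarith
  have g4 : ∀ r, r ≤ 4 → bb L r ≤ 0 := by
    intro r hr
    rcases Nat.lt_or_ge r 4 with h | h
    · exact g3 r (by omega)
    · obtain rfl : r = 4 := by omega
      exact n4
  have h4 : tn L / L * 0.17109 ≤ -bb L 5 := by
    refine le_trans (mul_le_mul_of_nonneg_left ?_ hκ0) (f14_step L 4 hL (by omega) g4 2.92693 1.05794 3.486 0.17547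
      f14_S4 f14_WW4 f14_ww4.2 (by norm_num) (Or.inr (by norm_num)))
    have := f14_ww4.1
    norm_num at this ⊢
    linarith
  have n5 : bb L 5 ≤ 0 := by
    have : 0 ≤ tn L / L * 0.17109 := mul_nonneg hκ0 (by norm_num)
    linarith
  have g5 : ∀ r, r ≤ 5 → bb L r ≤ 0 := by
    intro r hr
    rcases Nat.lt_or_ge r 5 with h | h
    · exact g4 r (by omega)
    · obtain rfl : r = 5 := by omega
      exact n5
  have h5 : tn L / L * 0.15405 ≤ -bb L 6 := by
    refine le_trans (mul_le_mul_of_nonneg_left ?_ hκ0) (f14_step L 5 hL (by omega) g5 4.16033 1.2334 5.598 0.16063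
      f14_S5 f14_WW5 f14_ww5.2 (by norm_num) (Or.inr (by norm_num)))
    have := f14_ww5.1
    norm_num at this ⊢
    linarith
  have n6 : bb L 6 ≤ 0 := by
    have : 0 ≤ tn L / L * 0.15405 := mul_nonneg hκ0 (by norm_num)
    linarith
  have g6 : ∀ r, r ≤ 6 → bb L r ≤ 0 := by
    intro r hr
    rcases Nat.lt_or_ge r 6 with h | h
    · exact g5 r (by omega)
    · obtain rfl : r = 6 := by omega
      exact n6
  have h6 : tn L / L * 0.13972 ≤ -bb L 7 := by
    refine le_trans (mul_le_mul_of_nonneg_left ?_ hκ0) (f14_step L 6 hL (by omega) g6 5.55435 1.39402 8.236 0.14901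
      f14_S6 f14_WW6 f14_ww6.2 (by norm_num) (Or.inr (by norm_num)))
    have := f14_ww6.1
    norm_num at this ⊢
    linarith
  have n7 : bb L 7 ≤ 0 := by
    have : 0 ≤ tn L / L * 0.13972 := mul_nonneg hκ0 (by norm_num)
    linarith
  have g7 : ∀ r, r ≤ 7 → bb L r ≤ 0 := by
    intro r hr
    rcases Nat.lt_or_ge r 7 with h | h
    · exact g6 r (by omega)
    · obtain rfl : r = 7 := by omega
      exact n7
  have h7 : tn L / L * 0.12704 ≤ -bb L 8 := by
    refine le_trans (mul_le_mul_of_nonneg_left ?_ hκ0) (f14_step L 7 hL (by omega) g7 7.09737 1.54302 11.414 0.13959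
      f14_S7 f14_WW7 f14_ww7.2 (by norm_num) (Or.inr (by norm_num)))
    have := f14_ww7.1
    norm_num at this ⊢
    linarith
  have n8 : bb L 8 ≤ 0 := by
    have : 0 ≤ tn L / L * 0.12704 := mul_nonneg hκ0 (by norm_num)
    linarith
  have g8 : ∀ r, r ≤ 8 → bb L r ≤ 0 := by
    intro r hr
    rcases Nat.lt_or_ge r 8 with h | h
    · exact g7 r (by omega)
    · obtain rfl : r = 8 := by omega
      exact n8
  have h8 : tn L / L * 0.11542 ≤ -bb L 9 := by
    refine le_trans (mul_le_mul_of_nonneg_left ?_ hκ0) (f14_step L 8 hL (by omega) g8 8.77997 1.6826 15.143 0.13176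
      f14_S8 f14_WW8 f14_ww8.2 (by norm_num) (Or.inr (by norm_num)))
    have := f14_ww8.1
    norm_num at this ⊢
    linarith
  have n9 : bb L 9 ≤ 0 := by
    have : 0 ≤ tn L / L * 0.11542 := mul_nonneg hκ0 (by norm_num)
    linarith
  have g9 : ∀ r, r ≤ 9 → bb L r ≤ 0 := by
    intro r hr
    rcases Nat.lt_or_ge r 9 with h | h
    · exact g8 r (by omega)
    · obtain rfl : r = 9 := by omega
      exact n9
  have h9 : tn L / L * 0.10442 ≤ -bb L 10 := by
    refine le_trans (mul_le_mul_of_nonneg_left ?_ hκ0) (f14_step L 9 hL (by omega) g9 10.59432 1.81435 19.434 0.12512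
      f14_S9 f14_WW9 f14_ww9.2 (by norm_num) (Or.inr (by norm_num)))
    have := f14_ww9.1
    norm_num at this ⊢
    linarith
  have n10 : bb L 10 ≤ 0 := by
    have : 0 ≤ tn L / L * 0.10442 := mul_nonneg hκ0 (by norm_num)
    linarith
  have g10 : ∀ r, r ≤ 10 → bb L r ≤ 0 := by
    intro r hr
    rcases Nat.lt_or_ge r 10 with h | h
    · exact g9 r (by omega)
    · obtain rfl : r = 10 := by omega
      exact n10
  have h10 : tn L / L * 0.09376 ≤ -bb L 11 := by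
    refine le_trans (mul_le_mul_of_nonneg_left ?_ hκ0) (f14_step L 10 hL (by omega) g10 12.53378 1.93946 24.294 0.11938
      f14_S10 f14_WW10 f14_ww10.2 (by norm_num) (Or.inr (by norm_num)))
    have := f14_ww10.1
    norm_num at this ⊢
    linarith
  have n11 : bb L 11 ≤ 0 := by
    have : 0 ≤ tn L / L * 0.09376 := mul_nonneg hκ0 (by norm_num)
    linarith
  have g11 : ∀ r, r ≤ 11 → bb L r ≤ 0 := by
    intro r hr
    rcases Nat.lt_or_ge r 11 with h | h
    · exact g10 r (by omega)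
    · obtain rfl : r = 11 := by omega
      exact n11
  have h11 : tn L / L * 0.08325 ≤ -bb L 12 := by
    refine le_trans (mul_le_mul_of_nonneg_left ?_ hκ0) (f14_step L 11 hL (by omega) g11 14.59261 2.05883 29.732 0.11437
      f14_S11 f14_WW11 f14_ww11.2 (by norm_num) (Or.inr (by norm_num)))
    have := f14_ww11.1
    norm_num at this ⊢
    linarith
  have n12 : bb L 12 ≤ 0 := by
    have : 0 ≤ tn L / L * 0.08325 := mul_nonneg hκ0 (by norm_num)
    linarith
  have g12 : ∀ r, r ≤ 12 → bb L r ≤ 0 := by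
    intro r hr
    rcases Nat.lt_or_ge r 12 with h | h
    · exact g11 r (by omega)
    · obtain rfl : r = 12 := by omega
      exact n12
  have h12 : tn L / L * 0.07274 ≤ -bb L 13 := by
    refine le_trans (mul_le_mul_of_nonneg_left ?_ hκ0) (f14_step L 12 hL (by omega) g12 16.7658 2.17319 35.753 0.10994
      f14_S12 f14_WW12 f14_ww12.2 (by norm_num) (Or.inr (by norm_num)))
    have := f14_ww12.1
    norm_num at this ⊢
    linarith
  have n13 : bb L 13 ≤ 0 := by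
    have : 0 ≤ tn L / L * 0.07274 := mul_nonneg hκ0 (by norm_num)
    linarith
  have g13 : ∀ r, r ≤ 13 → bb L r ≤ 0 := by
    intro r hr
    rcases Nat.lt_or_ge r 13 with h | h
    · exact g12 r (by omega)
    · obtain rfl : r = 13 := by omega
      exact n13
  have h13 : tn L / L * 0.06213 ≤ -bb L 14 := by
    refine le_trans (mul_le_mul_of_nonneg_left ?_ hκ0) (f14_step L 13 hL (by omega) g13 19.04892 2.28312 42.365 0.10599
      f14_S13 f14_WW13 f14_ww13.2 (by norm_num) (Or.inr (by norm_num)))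
    have := f14_ww13.1
    norm_num at this ⊢
    linarith
  have n14 : bb L 14 ≤ 0 := by
    have : 0 ≤ tn L / L * 0.06213 := mul_nonneg hκ0 (by norm_num)
    linarith
  exact ⟨h0, h1, h2, h3, h4, h5, h6, h7, h8, h9, h10, h11, h12, h13⟩

theorem f14_neg (L : ℕ) (hL : 1000 ≤ L) : ∀ r, 1 ≤ r → r ≤ 14 → bb L r < 0 := by
  obtain ⟨h0, h1, h2, h3, h4, h5, h6, h7, h8, h9, h10, h11, h12, h13⟩ := f14_terms L hL
  have hL0 : (0 : ℝ) < L := by
    have : (1000 : ℝ) ≤ L := by exact_mod_cast hL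
    linarith
  have hκ0 : 0 < tn L / L := by have := tn_pos L; positivity
  have key : ∀ (x y : ℝ), 0 < x → tn L / L * x ≤ -y → y < 0 := by
    intro x y hx h
    have := mul_pos hκ0 hx
    linarith
  intro r hr1 hr2
  interval_cases r
  · exact key _ _ (by norm_num) h0
  · exact key _ _ (by norm_num) h1
  · exact key _ _ (by norm_num) h2
  · exact key _ _ (by norm_num) h3
  · exact key _ _ (by norm_num) h4
  · exact key _ _ (by norm_num) h5
  · exact key _ _ (by norm_num) h6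
  · exact key _ _ (by norm_num) h7
  · exact key _ _ (by norm_num) h8
  · exact key _ _ (by norm_num) h9
  · exact key _ _ (by norm_num) h10
  · exact key _ _ (by norm_num) h11
  · exact key _ _ (by norm_num) h12
  · exact key _ _ (by norm_num) h13

/-- (f4) with 14 terms: `Σ_(r ≤ 14) c_r b(r) ≤ - 2.17 q t_L / L` if all weights are at least `q` -/
theorem f14_bb (L : ℕ) (hL : 1000 ≤ L) (q : ℝ) (hq : 0 ≤ q) (c : ℕ → ℝ)
    (hc : ∀ r, 1 ≤ r → r ≤ 14 → q ≤ c r) :
    ∑ r ∈ range 15, c r * bb L r ≤ -(2.17 * q * tn L / L) := by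
  obtain ⟨h0, h1, h2, h3, h4, h5, h6, h7, h8, h9, h10, h11, h12, h13⟩ := f14_terms L hL
  have hL0 : (0 : ℝ) < L := by
    have : (1000 : ℝ) ≤ L := by exact_mod_cast hL
    linarith
  have hκ0 : 0 ≤ tn L / L := by have := tn_pos L; positivity
  have key : ∀ (r : ℕ) (x : ℝ), 1 ≤ r → r ≤ 14 → 0 ≤ x → tn L / L * x ≤ -bb L r →
      c r * bb L r ≤ -(q * (tn L / L * x)) := by
    intro r x h1 h2 hx h
    have h9 := hc r h1 h2
    have h10 : 0 ≤ tn L / L * x := mul_nonneg hκ0 hx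
    have h11 : 0 ≤ -bb L r := h10.trans h
    have h12 := mul_le_mul_of_nonneg_right h9 h11
    have h13 := mul_le_mul_of_nonneg_left h hq
    linarith
  have k0 := key 1 0.3675 (by norm_num) (by norm_num) (by norm_num) h0
  have k1 := key 2 0.26999 (by norm_num) (by norm_num) (by norm_num) h1
  have k2 := key 3 0.22259 (by norm_num) (by norm_num) (by norm_num) h2
  have k3 := key 4 0.19269 (by norm_num) (by norm_num) (by norm_num) h3
  have k4 := key 5 0.17109 (by norm_num) (by norm_num) (by norm_num) h4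
  have k5 := key 6 0.15405 (by norm_num) (by norm_num) (by norm_num) h5
  have k6 := key 7 0.13972 (by norm_num) (by norm_num) (by norm_num) h6
  have k7 := key 8 0.12704 (by norm_num) (by norm_num) (by norm_num) h7
  have k8 := key 9 0.11542 (by norm_num) (by norm_num) (by norm_num) h8
  have k9 := key 10 0.10442 (by norm_num) (by norm_num) (by norm_num) h9
  have k10 := key 11 0.09376 (by norm_num) (by norm_num) (by norm_num) h10
  have k11 := key 12 0.08325 (by norm_num) (by norm_num) (by norm_num) h11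
  have k12 := key 13 0.07274 (by norm_num) (by norm_num) (by norm_num) h12
  have k13 := key 14 0.06213 (by norm_num) (by norm_num) (by norm_num) h13
  simp only [Finset.sum_range_succ, Finset.sum_range_zero, bb_zero, mul_zero, zero_add]
  have e : 2.17 * q * tn L / L = q * (tn L / L) * 2.17 := by ring
  have hp : 0 ≤ q * (tn L / L) := mul_nonneg hq hκ0
  rw [e]
  have e2 : ∀ x : ℝ, q * (tn L / L * x) = q * (tn L / L) * x := fun x => by ring
  rw [e2] at k0 k1 k2 k3 k4 k5 k6 k7 k8 k9 k10 k11 k12 k13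
  obtain ⟨z, hz⟩ : ∃ z : ℝ, z = q * (tn L / L) := ⟨_, rfl⟩
  rw [← hz] at hp k0 k1 k2 k3 k4 k5 k6 k7 k8 k9 k10 k11 k12 k13 ⊢
  norm_num at k0 k1 k2 k3 k4 k5 k6 k7 k8 k9 k10 k11 k12 k13 ⊢
  linarith

end Pool.Agent.MP_9da1e3_co
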