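import Pool.Agent.Lib.MP_9da1e3_co.YH5
import Pool.Agent.Lib.MP_9da1e3_co.V2_f14
import Pool.Agent.Lib.MP_9da1e3_co.Lf5

namespace Pool.Agent.MP_9da1e3_co

open Finset

lemma y6_m0 (L m0 : ℕ) (hL : 1000 ≤ L) (hm0 : ((m0 : ℝ)) ^ 3 ≤ (0.8 * L) ^ 2) : m0 + 24 ≤ L := by
  have hLr : (1000 : ℝ) ≤ L := by exact_mod_cast hL
  have hL0 : (0 : ℝ) < L := by linarith
  have hm1 : (m0 : ℝ) ≤ 0.0862 * L := by
    by_contra hc
    push Not at hc
    have h3 : (0.0862 * (L : ℝ)) ^ 3 < (m0 : ℝ) ^ 3 := pow_lt_pow_left₀ hc (by positivity) (by norm_num)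
    nlinarith [sq_nonneg (L : ℝ), mul_pos hL0 hL0]
  have h : ((m0 + 24 : ℕ) : ℝ) ≤ L := by push_cast; linarith
  exact_mod_cast h

/-- ROW (4): the weighted sum at the cut is at most the weighted sum up to `L` -/
theorem vcut_bb (L m0 k : ℕ) (hL : 1000 ≤ L) (hm0 : ((m0 : ℝ)) ^ 3 ≤ (0.8 * L) ^ 2)
    (hneg : ∀ r, 1 ≤ r → r ≤ m0 → bb L r ≤ 0) (hpos : ∀ r, m0 < r → r ≤ L → 0 ≤ bb L r)
    (hf2 : gg L (L - 24) ≤ 0.43 * (tn L / L))
    (th : ℝ) (h1 : 1 + 1.5 / ((L : ℝ) + 2) ≤ th) (h2 : th ≤ 1 + 1.5 / (L : ℝ))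
    (hk : 12 ≤ k) (hk' : k ≤ 14) :
    ∑ r ∈ range (k + 1), th ^ r * bb L r ≤ ∑ r ∈ range (L + 1), th ^ r * bb L r := by
  have hm := y6_m0 L m0 hL hm0
  have hW := W0_le L m0 (L - 24) hL hm0 (by omega) (by omega) (by omega) hneg hpos th h1 h2
  obtain ⟨e1, e2, e3, e4, e5, e6, e7, e8, e9, e10, e11, e12, e13, e14⟩ := f14_terms L hL
  have hL0 : (0 : ℝ) < L := by
    have : (1000 : ℝ) ≤ L := by exact_mod_cast hL
    linarith
  have hκ : 0 < tn L / L := div_pos (tn_pos L) hL0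
  have hth : 1 ≤ th := by
    have : 0 ≤ 1.5 / ((L : ℝ) + 2) := by positivity
    linarith
  have hp : ∀ r : ℕ, (1 : ℝ) ≤ th ^ r := fun r => one_le_pow₀ hth
  have hb : ∀ r c, 0 ≤ c → tn L / L * c ≤ -bb L r → th ^ r * bb L r ≤ -(tn L / L * c) := by
    intro r c hc h
    have h3 := mul_le_mul_of_nonneg_right (hp r) (show 0 ≤ -bb L r by
      have := mul_nonneg hκ.le hc
      linarith)
    linarith
  have h12 : ∑ r ∈ range 13, th ^ r * bb L r ≤ -(2.0415 * (tn L / L)) := by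
    simp only [Finset.sum_range_succ, Finset.sum_range_zero, bb_zero, mul_zero, zero_add]
    have := hb 1 _ (by norm_num) e1
    have := hb 2 _ (by norm_num) e2
    have := hb 3 _ (by norm_num) e3
    have := hb 4 _ (by norm_num) e4
    have := hb 5 _ (by norm_num) e5
    have := hb 6 _ (by norm_num) e6
    have := hb 7 _ (by norm_num) e7
    have := hb 8 _ (by norm_num) e8
    have := hb 9 _ (by norm_num) e9
    have := hb 10 _ (by norm_num) e10
    have := hb 11 _ (by norm_num) e11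
    have := hb 12 _ (by norm_num) e12
    linarith
  have h13 := hb 13 _ (by norm_num) e13
  have h14 := hb 14 _ (by norm_num) e14
  have hcut : ∑ r ∈ range (k + 1), th ^ r * bb L r ≤ -(2.0415 * (tn L / L)) := by
    obtain rfl | rfl | rfl : k = 12 ∨ k = 13 ∨ k = 14 := by omega
    · exact h12
    · rw [Finset.sum_range_succ]
      linarith
    · rw [Finset.sum_range_succ, Finset.sum_range_succ]
      linarith
  linarith

lemma y6_bb_Bn (L r : ℕ) : bb L r = Bn L (L + r) := by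
  rcases Nat.eq_zero_or_pos r with rfl | h
  · rw [bb_zero]
    unfold Bn
    rw [An_zero (L + 1) (L + 0) (by omega), An_zero L (L + 0) (by omega)]
    ring
  · obtain ⟨m, rfl⟩ : ∃ m, r = m + 1 := ⟨r - 1, by omega⟩
    rw [bb_succ]
    unfold gg Bn
    rw [show L + 1 + m = L + (m + 1) by omega]

lemma y6_sum (L m : ℕ) (th : ℝ) : ∑ j ∈ range (L + m), th ^ j * Bn L j =
    th ^ L * ∑ r ∈ range m, th ^ r * bb L r := by
  rw [Finset.sum_range_add, Finset.mul_sum]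
  have h1 : ∑ x ∈ range L, th ^ x * Bn L x = 0 := by
    apply Finset.sum_eq_zero
    intro x hx
    have hx' := mem_range.mp hx
    unfold Bn
    rw [An_zero (L + 1) x (by omega), An_zero L x (by omega)]
    ring
  rw [h1, zero_add]
  apply Finset.sum_congr rfl
  intro r _
  rw [y6_bb_Bn, pow_add]
  ring

theorem vcut_Bn (L m0 k : ℕ) (hL : 1000 ≤ L) (hm0 : ((m0 : ℝ)) ^ 3 ≤ (0.8 * L) ^ 2)
    (hneg : ∀ r, 1 ≤ r → r ≤ m0 → bb L r ≤ 0) (hpos : ∀ r, m0 < r → r ≤ L → 0 ≤ bb L r)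
    (hf2 : gg L (L - 24) ≤ 0.43 * (tn L / L))
    (th : ℝ) (h1 : 1 + 1.5 / ((L : ℝ) + 2) ≤ th) (h2 : th ≤ 1 + 1.5 / (L : ℝ))
    (hk : 12 ≤ k) (hk' : k ≤ 14) :
    ∑ j ∈ range (L + k + 1), th ^ j * Bn L j ≤ ∑ j ∈ range (2 * L + 1), th ^ j * Bn L j := by
  have h := vcut_bb L m0 k hL hm0 hneg hpos hf2 th h1 h2 hk hk'
  have e1 : L + k + 1 = L + (k + 1) := by ring
  have e2 : 2 * L + 1 = L + (L + 1) := by ring
  rw [e1, e2, y6_sum, y6_sum]
  have hth : 0 ≤ th := by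
    have : 0 ≤ 1.5 / ((L : ℝ) + 2) := by positivity
    linarith
  exact mul_le_mul_of_nonneg_left h (pow_nonneg hth L)

end Pool.Agent.MP_9da1e3_co
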