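import Pool.Agent.Lib.MP_9da1e3_co.V2_R5T
import Pool.Agent.Lib.MP_9da1e3_co.V2_R5E73
import Pool.Agent.Lib.MP_9da1e3_co.V2_R5F73
import Pool.Agent.Lib.MP_9da1e3_co.V2_massF
import Pool.Agent.Lib.MP_9da1e3_co.V2_Smin
import Pool.Agent.Lib.MP_9da1e3_co.V2_Cinf49
import Pool.Agent.Lib.MP_9da1e3_co.V2_R5H
import Pool.Agent.Lib.MP_9da1e3_co.YH6
import Pool.Agent.Lib.MP_9da1e3_co.V2_Wcut
import Pool.Agent.Lib.MP_9da1e3_co.V2_allz

/-! The range `n > 2 L`. -/

namespace Pool.Agent.MP_9da1e3_co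

open Finset

/-- the comparison of the weighted mass of `An` -/
lemma r5m4_core (L m : ℕ) (hL : 1000 ≤ L) (hm : 2 * L ≤ m) :
    1 / ((L : ℝ) + 2) * r5kap L m * ∑ j ∈ range m, tht L ^ j * An L j ≤
      (2 - r5kap L m / tht L) * (tht L ^ (m + 1) * An L m) := by
  have hLr : (1000 : ℝ) ≤ L := by exact_mod_cast hL
  have hE := E_pos
  have ht1 := r5_tht_ge_one L
  have ht2 := r5_tht_le L (by omega)
  have hth0 : 0 < tht L := by linarith
  have hone : 1 - thL L * tht L = 1 / ((L : ℝ) + 2) := by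
    rw [r5_tht_thL]
    field_simp
    ring
  have hkap0 : 0 ≤ r5kap L m := by
    unfold r5kap
    have h : 0 ≤ rn (L + 1) (m + 1 - (L + 14)) := by
      have := rn_nonneg (L + 1) (m + 1 - (L + 14) - 1)
      rwa [show m + 1 - (L + 14) - 1 + 1 = m + 1 - (L + 14) by omega] at this
    positivity
  have hkap1 : r5kap L m ≤ 1 := by
    refine (r5e73_kap L m hL hm).trans ?_
    rw [div_le_one (Real.sqrt_pos.mpr (by linarith))]
    apply Real.le_sqrt_of_sq_le
    norm_num
    linarith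
  have hi1 : L + 2 * L / 3 ≤ m := by omega
  have hmass := vm_mass_i1 L (L + 2 * L / 3) hL le_rfl
  have hps : ∀ k, 0 ≤ r5ps L k := r5ps_nonneg L
  have hrho : ∀ k, 0 ≤ rhoL L k := rhoL_nonneg L (by omega)
  have hS1 : ∑ k ∈ range m, tht L ^ k * r5ps L k ≤ 1.49 * E ^ 2 := ci_S L hL (tht L) ht1 ht2 m
  have hS2 : 0.879 * E ^ 2 ≤ ∑ k ∈ range (m - (L + 2 * L / 3)), tht L ^ k * r5ps L k :=
    smin_low L _ hL (by omega) (tht L) ht1
  refine r5_core (r5ps L) (rhoL L) (An L) (tht L) (1 / ((L : ℝ) + 2)) (r5kap L m) 0.8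
    (1.49 * E ^ 2) (0.879 * E ^ 2) (L + 14) m (L + 2 * L / 3) hth0 hps hrho
    (fun j _ => An_eq_rho L j) (by positivity) hkap0 (by linarith) (by norm_num) (by norm_num)
    (by omega) hi1 ?_ hS1 hS2 ?_
  · intro N hN
    have h : (1 - thL L * tht L) * r5kap L m * r5S L N ≤
        0.8 * (2 - r5kap L m / tht L) * (r5ps L N * tht L ^ (N + 1)) := by
      rcases Nat.lt_or_ge L N with h1 | h1
      · exact r5f73_far L m N hL (by omega) (by omega) 0.8 (by norm_num)
      · exact r5e73_low L m N hL hm h1 0.8 (by norm_num)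
    rw [hone] at h
    have e : 0.8 * (2 - r5kap L m / tht L) * (r5ps L N * tht L ^ (N + 1)) =
        0.8 * ((2 - r5kap L m / tht L) * (tht L ^ (N + 1) * r5ps L N)) := by ring
    rw [← e]
    exact h
  · obtain ⟨X, hX⟩ : ∃ X : ℝ, X = ∑ i ∈ range (L + 14), tht L ^ i * rhoL L i := ⟨_, rfl⟩
    obtain ⟨Y, hY⟩ : ∃ Y : ℝ, Y = ∑ i ∈ Ico (L + 14) (L + 2 * L / 3 + 1), tht L ^ i * rhoL L i := ⟨_, rfl⟩
    rw [← hX, ← hY] at hmass
    rw [← hX, ← hY]
    have hY0 : 0 ≤ Y := by
      rw [hY]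
      exact Finset.sum_nonneg fun i _ => mul_nonneg (pow_nonneg hth0.le i) (hrho i)
    have h2 : 0 < E ^ 2 := by positivity
    have h3 : 0.8 * (1.49 * E ^ 2) * X ≤ 0.8 * (1.49 * E ^ 2) * (1 / 12 * Y) :=
      mul_le_mul_of_nonneg_left hmass (by positivity)
    nlinarith [mul_nonneg h2.le hY0]

theorem r5m4_main (hf2 : ∀ L M : ℕ, 1000 ≤ L → M ≤ L → L ≤ M + 24 → gg L M ≤ 0.43 * (tn L / L)) :
    ∀ L m0 : ℕ, 1000 ≤ L → 1 ≤ m0 → ((m0 : ℝ) + 1) ^ 3 ≤ (0.8 * (L : ℝ)) ^ 2 →
      (∀ r, 1 ≤ r → r ≤ m0 → bb L r < 0) → (∀ r, m0 < r → r ≤ L → 0 ≤ bb L r) →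
      ∀ n, L + m0 < n → 0 ≤ Bn L n := by
  intro L m0 hL hm01 hm0 hneg hpos n
  have hLr : (1000 : ℝ) ≤ L := by exact_mod_cast hL
  have hE := E_pos
  have ht1 := r5_tht_ge_one L
  have ht2 := r5_tht_le L (by omega)
  have hth0 : 0 < tht L := by linarith
  have h14 : 14 ≤ m0 := r5h_m0 L m0 hL hpos
  have hm0L : m0 ≤ L := by
    by_contra hc
    have h1 : (L : ℝ) + 1 ≤ m0 := by exact_mod_cast (by omega : L + 1 ≤ m0)
    have h2 : ((L : ℝ) + 1) ^ 3 ≤ ((m0 : ℝ) + 1) ^ 3 := pow_le_pow_left₀ (by positivity) (by linarith) 3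
    nlinarith
  have hone : 1 - thL L * tht L = 1 / ((L : ℝ) + 2) := by
    rw [r5_tht_thL]
    field_simp
    ring
  have hcut : ∑ j ∈ range (L + 14 + 1), tht L ^ j * Bn L j ≤ ∑ j ∈ range (2 * L + 1), tht L ^ j * Bn L j := by
    have hm0c : ((m0 : ℝ)) ^ 3 ≤ (0.8 * (L : ℝ)) ^ 2 := by
      refine le_trans ?_ hm0
      exact pow_le_pow_left₀ (Nat.cast_nonneg _) (by linarith) 3
    apply vcut_Bn L m0 14 hL hm0c (fun r h1 h2 => (hneg r h1 h2).le) hpos
      (hf2 L (L - 24) hL (by omega) (by omega)) (tht L) ?_ ?_ (by norm_num) (by norm_num)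
    · have h := r5_tht_ge L
      refine le_trans ?_ h
      have e1 : 1.5 / ((L : ℝ) + 2) = 3 / (2 * ((L : ℝ) + 2)) := by
        field_simp
        norm_num
      rw [e1]
      have : 3 / (2 * ((L : ℝ) + 2)) ≤ 3 / (2 * ((L : ℝ) + 1)) := by
        apply div_le_div_of_nonneg_left (by norm_num) (by positivity)
        linarith
      linarith
    · refine ht2.trans (le_of_eq ?_)
      have e1 : 1.5 / (L : ℝ) = 3 / (2 * (L : ℝ)) := by
        field_simp
        norm_num
      rw [e1]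
  have hBz : ∀ j, j ≤ L → Bn L j = 0 := fun j hj => r5h_Bn_zero L j hj
  have hBneg : ∀ j, j < L + m0 + 1 → Bn L j ≤ 0 := by
    intro j hj
    rcases Nat.lt_or_ge L j with h | h
    · obtain ⟨r, rfl⟩ : ∃ r, j = L + r := ⟨j - L, by omega⟩
      rw [← bb_eq_Bn L r (by omega)]
      exact (hneg r (by omega) (by omega)).le
    · exact (hBz j h).le
  induction n using Nat.strong_induction_on with
  | _ n ih =>
    intro hn
    rcases Nat.lt_or_ge (2 * L) n with h2 | h2
    · obtain ⟨m, rfl⟩ : ∃ m, n = m + 1 := ⟨n - 1, by omega⟩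
      have hm : 2 * L ≤ m := by omega
      have hBpos : ∀ j, L + m0 + 1 ≤ j → j ≤ m → 0 ≤ Bn L j := fun j h1 h2 => ih j (by omega) (by omega)
      have hm0L' : m0 + 1 ≤ L := by
        rcases Nat.lt_or_ge m0 L with hc | hc
        · exact hc
        · exfalso
          have h1 : (L : ℝ) ≤ m0 := by exact_mod_cast hc
          have h2 : ((L : ℝ) + 1) ^ 3 ≤ ((m0 : ℝ) + 1) ^ 3 := pow_le_pow_left₀ (by positivity) (by linarith) 3
          nlinarith
      have hBm : 0 ≤ Bn L m := hBpos m (by omega) le_rfl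
      have hR := R_ineq L m (by omega) (by omega)
      obtain ⟨W, hW⟩ : ∃ W : ℝ, W = -(∑ j ∈ range (m + 1), tht L ^ j * Bn L j) / tht L ^ (L + 14) := ⟨_, rfl⟩
      have hpp : 0 < tht L ^ (L + 14) := pow_pos hth0 _
      have hWe : -(tht L ^ (L + 14) * W) = ∑ j ∈ range (m + 1), tht L ^ j * Bn L j := by
        rw [hW]
        field_simp
      have hrn0 : ∀ x, 0 ≤ rn (L + 1) (x + 1) := fun x => rn_nonneg (L + 1) x
      have hrate : ∀ x, tht L * rn (L + 1) (x + 1 + 1) ≤ rn (L + 1) (x + 1) := by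
        intro x
        have h1 := z_rate' L (by omega) x
        have h3 := mul_le_mul_of_nonneg_right ht2 (hrn0 (x + 1))
        linarith
      have hVW : ∑ j ∈ range (L + 14 + 1), tht L ^ j * Bn L j ≤ -(tht L ^ (L + 14) * W) := by
        rw [hWe]
        refine hcut.trans ?_
        apply Finset.sum_le_sum_of_subset_of_nonneg
        · exact Finset.range_mono (by omega)
        · intro j hj hj2
          have h3 : j ≤ m := by have := mem_range.mp hj; omega
          have h4 : 2 * L + 1 ≤ j := by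
            by_contra hcon
            exact hj2 (mem_range.mpr (by omega))
          exact mul_nonneg (pow_nonneg hth0.le j) (hBpos j (by omega) h3)
      have hMc := m_theta_cut (fun x => rn (L + 1) (x + 1)) (Bn L) (tht L) W hth0 hrn0 hrate (L + 14)
        (L + m0 + 1) m m (by omega) (by omega) le_rfl (fun j hj => hBneg j hj)
        (fun j hj1 hj2 => hBpos j hj1 hj2) hWe.le hVW
      have hw := wth_range (An L) (An (L + 1)) (Bn L) (tht L) (thL L) L m (by omega) hth0.le
        (fun j => rfl) hBz (An_nonneg _ _) (fun j _ _ => A_shift_all L j)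
      rw [hone, ← hWe] at hw
      have hGle : ∑ j ∈ Ico (L + 1) m, tht L ^ j * An L j ≤ ∑ j ∈ range m, tht L ^ j * An L j := by
        apply Finset.sum_le_sum_of_subset_of_nonneg
        · intro j hj
          exact mem_range.mpr (Finset.mem_Ico.mp hj).2
        · intro j _ _
          exact mul_nonneg (pow_nonneg hth0.le j) (An_nonneg _ _)
      have hc := r5m4_core L m hL hm
      obtain ⟨G, hG⟩ : ∃ G : ℝ, G = ∑ j ∈ range m, tht L ^ j * An L j := ⟨_, rfl⟩
      obtain ⟨A, hA⟩ : ∃ A : ℝ, A = An L m := ⟨_, rfl⟩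
      obtain ⟨kap, hkap⟩ : ∃ k : ℝ, k = r5kap L m := ⟨_, rfl⟩
      obtain ⟨r, hr⟩ : ∃ r : ℝ, r = rn (L + 1) (m - (L + 14) + 1) := ⟨_, rfl⟩
      rw [← hG] at hGle hc
      rw [← hA] at hc hR hw
      rw [← hkap] at hc
      have hr0 : 0 ≤ r := by rw [hr]; exact hrn0 _
      -- W bound
      have hWb : tht L ^ (L + 14) * W ≤ 1 / ((L : ℝ) + 2) * G + tht L ^ m * A := by
        have h1 : 1 / ((L : ℝ) + 2) * ∑ j ∈ Ico (L + 1) m, tht L ^ j * An L j ≤ 1 / ((L : ℝ) + 2) * G :=
          mul_le_mul_of_nonneg_left hGle (by positivity)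
        linarith
      have hS : -(r * W) ≤ ∑ j ∈ range (m + 1), Bn L j * rn (L + 1) (m + 1 - j) := by
        have h1 : ∑ j ∈ range (m + 1), rn (L + 1) (m - j + 1) * Bn L j =
            ∑ j ∈ range (m + 1), Bn L j * rn (L + 1) (m + 1 - j) := by
          apply Finset.sum_congr rfl
          intro j hj
          have hj' := mem_range.mp hj
          rw [show m + 1 - j = m - j + 1 by omega, mul_comm]
        rw [← h1, hr]
        exact hMc
      have hkapr : kap * tht L ^ (L + 14) = E * (((m : ℝ) + 1) * r) * tht L ^ (m + 1) := by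
        rw [hkap, hr]
        unfold r5kap
        have e1 : m + 1 - (L + 14) = m - (L + 14) + 1 := by omega
        have e2 : tht L ^ (m + 1) = tht L ^ (m + 1 - (L + 14)) * tht L ^ (L + 14) := by
          rw [← pow_add]
          congr 1
          omega
        rw [e2, ← e1]
        ring
      -- E (m+1) r W th^(m+1) = kap th^p W <= kap (G/(L+2) + th^m A) <= 2 th^(m+1) A
      have hkap0 : 0 ≤ kap := by
        rw [hkap]
        unfold r5kap
        have h : 0 ≤ rn (L + 1) (m + 1 - (L + 14)) := by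
          rw [show m + 1 - (L + 14) = m - (L + 14) + 1 by omega]
          exact hrn0 _
        positivity
      have hm1 : 0 < tht L ^ (m + 1) := pow_pos hth0 _
      have h5 : E * (((m : ℝ) + 1) * r) * W * tht L ^ (m + 1) ≤ 2 * A * tht L ^ (m + 1) := by
        have h6 : E * (((m : ℝ) + 1) * r) * W * tht L ^ (m + 1) = kap * (tht L ^ (L + 14) * W) := by
          have : kap * (tht L ^ (L + 14) * W) = (kap * tht L ^ (L + 14)) * W := by ring
          rw [this, hkapr]
          ring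
        rw [h6]
        refine (mul_le_mul_of_nonneg_left hWb hkap0).trans ?_
        have h7 : kap / tht L * tht L ^ (m + 1) = kap * tht L ^ m := by
          rw [pow_succ]
          field_simp
        have h8 : (2 - kap / tht L) * (tht L ^ (m + 1) * A) =
            2 * A * tht L ^ (m + 1) - kap * tht L ^ m * A := by
          have : (2 - kap / tht L) * (tht L ^ (m + 1) * A) =
              2 * A * tht L ^ (m + 1) - (kap / tht L * tht L ^ (m + 1)) * A := by ring
          rw [this, h7]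
        rw [h8] at hc
        nlinarith
      have h9 := le_of_mul_le_mul_right h5 hm1
      have h10 : 0 < E * ((m : ℝ) + 1) := by positivity
      have h11 : -(E * (((m : ℝ) + 1) * r) * W) ≤
          E * (((m : ℝ) + 1) * ∑ j ∈ range (m + 1), Bn L j * rn (L + 1) (m + 1 - j)) := by
        have h12 := mul_le_mul_of_nonneg_left hS h10.le
        nlinarith
      have h13 : 0 ≤ ((L : ℝ) + 2) * Bn L m := by positivity
      have h14' : 0 ≤ E * ((m : ℝ) + 1) * Bn L (m + 1) := by
        nlinarith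
      exact (mul_nonneg_iff_of_pos_left h10).mp h14'
    · obtain ⟨r, rfl⟩ : ∃ r, n = L + r := ⟨n - L, by omega⟩
      rw [← bb_eq_Bn L r (by omega)]
      exact hpos r (by omega) (by omega)

end Pool.Agent.MP_9da1e3_co
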