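import Pool.Agent.Lib.MP_9da1e3_co.V2_Pre
import Pool.Agent.Lib.MP_9da1e3_co.V2_R5M4

/-! Parking functions by maximal displacement: unimodality for every `n ≥ 1`. -/

namespace Pool.Agent.MP_9da1e3_co

theorem unimodal_all : ∀ n : ℕ, 1 ≤ n → ∃ m : ℕ, m < n ∧
    (∀ l, l < m → a n l ≤ a n (l + 1)) ∧
    (∀ l, m ≤ l → l < n → a n (l + 1) < a n l) :=
  pre_final (r5m4_main pre_f2)

end Pool.Agent.MP_9da1e3_co
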