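import Pool.Agent.Lib.MP_9da1e3_co.Z2

namespace Pool.Agent.MP_9da1e3_co

open Finset

/-- comparison of `r` and `t`: exact ratio bound -/
lemma of_rj_tn (p : ℕ) : 4 * (p : ℝ) * ((p : ℝ) + 1) ^ 2 * (E ^ 2 * rj p) ≤
    (2 * (p : ℝ) + 1) * (2 * (p : ℝ) + 3) * ((p : ℝ) + 2) * tn (p + 1) := by
  have hE := E_pos
  have hp : (0 : ℝ) ≤ p := Nat.cast_nonneg p
  have h1 := rj_succ_eq_tn (p + 1)
  have h2 := rj_step (p + 1)
  have h3 := rj_step p
  have h4 := rj_q_ge p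
  have h5 := rj_q_ge (p + 1)
  have h0 := rj_pos p
  push_cast at h1 h2 h5
  -- tn in terms of rj
  have e1 : ((p : ℝ) + 2) * tn (p + 1) = E ^ 2 * ((p : ℝ) + 3) * rj (p + 1 + 1) := by
    rw [h1]
    field_simp
    ring
  have e2 : ((p : ℝ) + 3) * rj (p + 1 + 1) * ((p : ℝ) + 2) =
      rj p * rj_q p * rj_q (p + 1) * ((p : ℝ) + 1) * ((p : ℝ) + 2) := by
    rw [h2, h3]
    field_simp
    ring
  have e3 : ((p : ℝ) + 3) * rj (p + 1 + 1) = rj p * rj_q p * rj_q (p + 1) * ((p : ℝ) + 1) := by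
    have : ((p : ℝ) + 2) ≠ 0 := by positivity
    exact mul_right_cancel₀ this (by linarith)
  have e4 : (2 * (p : ℝ) + 1) * (2 * (p : ℝ) + 3) * ((p : ℝ) + 2) * tn (p + 1) =
      E ^ 2 * rj p * ((p : ℝ) + 1) * ((rj_q p * (2 * (p : ℝ) + 1)) * (rj_q (p + 1) * (2 * (p : ℝ) + 3))) := by
    calc (2 * (p : ℝ) + 1) * (2 * (p : ℝ) + 3) * ((p : ℝ) + 2) * tn (p + 1)
        = (2 * (p : ℝ) + 1) * (2 * (p : ℝ) + 3) * (((p : ℝ) + 2) * tn (p + 1)) := by ring
      _ = (2 * (p : ℝ) + 1) * (2 * (p : ℝ) + 3) * (E ^ 2 * (((p : ℝ) + 3) * rj (p + 1 + 1))) := by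
          rw [e1]; ring
      _ = _ := by rw [e3]; ring
  rw [e4]
  have h6 : 2 * (p : ℝ) * (2 * ((p : ℝ) + 1)) ≤
      (rj_q p * (2 * (p : ℝ) + 1)) * (rj_q (p + 1) * (2 * (p : ℝ) + 3)) := by
    apply mul_le_mul h4 _ (by positivity) (by have := rj_q_pos p; positivity)
    calc 2 * ((p : ℝ) + 1) ≤ rj_q (p + 1) * (2 * ((p : ℝ) + 1) + 1) := h5
      _ = _ := by ring
  have h7 : 0 ≤ E ^ 2 * rj p * ((p : ℝ) + 1) := by positivity
  calc 4 * (p : ℝ) * ((p : ℝ) + 1) ^ 2 * (E ^ 2 * rj p) =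
      E ^ 2 * rj p * ((p : ℝ) + 1) * (2 * (p : ℝ) * (2 * ((p : ℝ) + 1))) := by ring
    _ ≤ _ := mul_le_mul_of_nonneg_left h6 h7

lemma of_E_sq_lt : E ^ 2 < 7.39 := by
  have h : E < 2.7182818286 := Real.exp_one_lt_d9
  have h0 := E_pos
  nlinarith

lemma of_rj_tn_one (p : ℕ) : ((p : ℝ) + 1) * (E ^ 2 * rj p) ≤ ((p : ℝ) + 1 + 6.4) * tn (p + 1) := by
  rcases Nat.eq_zero_or_pos p with rfl | hp
  · have h1 : tn (0 + 1) = 1 / E := by
      have := rj_succ_eq_tn (0 + 1)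
      have h2 := rj_step (0 + 1)
      have h3 := rj_step 0
      have h4 := rj_zero
      rw [rj_q_zero] at h3
      have hE := E_pos
      have h5 : rj_q (0 + 1) = 2 / E := by
        unfold rj_q
        norm_num
      rw [h2, h3, h4, h5] at this
      push_cast at this
      have hE' := hE.ne'
      field_simp at this
      rw [eq_div_iff hE']
      nlinarith
    rw [h1, rj_zero]
    have hE := E_pos
    have h2 := of_E_sq_lt
    push_cast
    have e1 : ((0 : ℝ) + 1) * (E ^ 2 * (1 / E)) = E := by field_simp; ring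
    rw [e1, mul_one_div, le_div_iff₀ hE]
    nlinarith
  · have h := of_rj_tn p
    have hp1 : (1 : ℝ) ≤ p := by exact_mod_cast hp
    have ht := tn_pos (p + 1)
    have hq : 0 < 4 * (p : ℝ) * ((p : ℝ) + 1) := by positivity
    have h2 : 4 * (p : ℝ) * ((p : ℝ) + 1) * (((p : ℝ) + 1) * (E ^ 2 * rj p)) ≤
        4 * (p : ℝ) * ((p : ℝ) + 1) * (((p : ℝ) + 1 + 6.4) * tn (p + 1)) := by
      calc 4 * (p : ℝ) * ((p : ℝ) + 1) * (((p : ℝ) + 1) * (E ^ 2 * rj p)) =
          4 * (p : ℝ) * ((p : ℝ) + 1) ^ 2 * (E ^ 2 * rj p) := by ring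
        _ ≤ (2 * (p : ℝ) + 1) * (2 * (p : ℝ) + 3) * ((p : ℝ) + 2) * tn (p + 1) := h
        _ ≤ (4 * (p : ℝ) * ((p : ℝ) + 1) * ((p : ℝ) + 1 + 6.4)) * tn (p + 1) := by
            apply mul_le_mul_of_nonneg_right _ ht.le
            nlinarith
        _ = _ := by ring
    exact le_of_mul_le_mul_left h2 hq

lemma of_rj_tn_big (p : ℕ) (hp : 20 ≤ p) :
    ((p : ℝ) + 1) * (E ^ 2 * rj p) ≤ ((p : ℝ) + 1 + 2.1) * tn (p + 1) := by
  have h := of_rj_tn p
  have hp1 : (20 : ℝ) ≤ p := by exact_mod_cast hp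
  have ht := tn_pos (p + 1)
  have hq : 0 < 4 * (p : ℝ) * ((p : ℝ) + 1) := by positivity
  have h2 : 4 * (p : ℝ) * ((p : ℝ) + 1) * (((p : ℝ) + 1) * (E ^ 2 * rj p)) ≤
      4 * (p : ℝ) * ((p : ℝ) + 1) * (((p : ℝ) + 1 + 2.1) * tn (p + 1)) := by
    calc 4 * (p : ℝ) * ((p : ℝ) + 1) * (((p : ℝ) + 1) * (E ^ 2 * rj p)) =
        4 * (p : ℝ) * ((p : ℝ) + 1) ^ 2 * (E ^ 2 * rj p) := by ring
      _ ≤ (2 * (p : ℝ) + 1) * (2 * (p : ℝ) + 3) * ((p : ℝ) + 2) * tn (p + 1) := h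
      _ ≤ (4 * (p : ℝ) * ((p : ℝ) + 1) * ((p : ℝ) + 1 + 2.1)) * tn (p + 1) := by
          apply mul_le_mul_of_nonneg_right _ ht.le
          nlinarith
      _ = _ := by ring
  exact le_of_mul_le_mul_left h2 hq

lemma of_scale {x a e s t : ℝ} (hx : 0 ≤ x) (hxa : x ≤ a) (ha : 0 < a) (hs : 0 ≤ s) (ht : 0 ≤ t)
    (h : a * e ≤ (a + s) * t) : x * e ≤ (x + s) * t := by
  have h1 : x * (a * e) ≤ x * ((a + s) * t) := mul_le_mul_of_nonneg_left h hx
  have h2 : x * ((a + s) * t) ≤ a * ((x + s) * t) := by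
    have : x * (s * t) ≤ a * (s * t) := mul_le_mul_of_nonneg_right hxa (by positivity)
    nlinarith
  have h3 : a * (x * e) ≤ a * ((x + s) * t) := by
    calc a * (x * e) = x * (a * e) := by ring
      _ ≤ _ := h1.trans h2
  exact le_of_mul_le_mul_left h3 ha

/-- the values of the kernel below `L + 1` -/
lemma of_rn_succ (L k : ℕ) (hk : k ≤ L) : rn (L + 1) (k + 1) = rj k :=
  z_rn_eq_rj (L + 1) k (by omega)

/-- the base case, also usable below `L` -/
lemma of_base (L N : ℕ) (hL : 1000 ≤ L) (h1 : L ≤ 2 * N) (h2 : N ≤ L) :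
    E ^ 2 * (1 - 8 / (L : ℝ)) * rn (L + 1) N ≤ tn N := by
  obtain ⟨p, rfl⟩ : ∃ p, N = p + 1 := ⟨N - 1, by omega⟩
  rw [of_rn_succ L p (by omega)]
  have h := of_rj_tn_big p (by omega)
  have ht := tn_pos (p + 1)
  have hLr : (1000 : ℝ) ≤ L := by exact_mod_cast hL
  have hN : (L : ℝ) ≤ 2 * ((p : ℝ) + 1) := by exact_mod_cast h1
  have hp0 : (0 : ℝ) < (p : ℝ) + 1 := by positivity
  have hr := rj_pos p
  have hE := E_pos
  have h8 : 0 ≤ 1 - 8 / (L : ℝ) := by
    rw [sub_nonneg, div_le_one (by positivity)]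
    linarith
  have h3 : ((p : ℝ) + 1) * (E ^ 2 * (1 - 8 / (L : ℝ)) * rj p) ≤ ((p : ℝ) + 1) * tn (p + 1) := by
    calc ((p : ℝ) + 1) * (E ^ 2 * (1 - 8 / (L : ℝ)) * rj p) =
        (1 - 8 / (L : ℝ)) * (((p : ℝ) + 1) * (E ^ 2 * rj p)) := by ring
      _ ≤ (1 - 8 / (L : ℝ)) * (((p : ℝ) + 1 + 2.1) * tn (p + 1)) :=
          mul_le_mul_of_nonneg_left h h8
      _ = ((1 - 8 / (L : ℝ)) * ((p : ℝ) + 1 + 2.1)) * tn (p + 1) := by ring
      _ ≤ ((p : ℝ) + 1) * tn (p + 1) := by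
          apply mul_le_mul_of_nonneg_right _ ht.le
          have h9 : 8 / (L : ℝ) * ((p : ℝ) + 1 + 2.1) ≥ 4 := by
            rw [ge_iff_le, div_mul_eq_mul_div, le_div_iff₀ (by positivity)]
            linarith
          linarith
  exact le_of_mul_le_mul_left h3 hp0

/-- the two-term inequality behind the induction -/
lemma of_key (L N k a : ℕ) (hL : 1000 ≤ L) (hN : L ≤ N) (hka : k ≤ a) (hs : k + a = N)
    (ih : L ≤ a → E ^ 2 * (1 - 8 / (L : ℝ)) * ((a : ℝ) / L * rn (L + 1) a) ≤ Fn L a) :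
    E ^ 2 * (1 - 8 / (L : ℝ)) * (((N : ℝ) + 1) / L) *
      (PPc (L + 1) k * rn (L + 1) a + PPc (L + 1) a * rn (L + 1) k) ≤
    ((min L (k + 1) : ℕ) : ℝ) * (Fn L k * Fn L a) + ((min L (a + 1) : ℕ) : ℝ) * (Fn L a * Fn L k) := by
  have hE := E_pos
  have hLr : (1000 : ℝ) ≤ L := by exact_mod_cast hL
  have hLp : (0 : ℝ) < L := by linarith
  have h8 : 0 ≤ 1 - 8 / (L : ℝ) := by
    rw [sub_nonneg, div_le_one (by positivity)]
    linarith
  have hc : 0 ≤ E ^ 2 * (1 - 8 / (L : ℝ)) := by positivity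
  have hsr : (N : ℝ) = k + a := by rw [← hs]; push_cast; ring
  have hzero : ∀ x : ℕ, L ≤ x → PPc (L + 1) x = 0 := by
    intro x hx
    unfold PPc
    split_ifs with h
    · have : x = L := by omega
      rw [this]
      push_cast
      ring
    · rfl
  have hval : ∀ x : ℕ, x ≤ L → PPc (L + 1) x = ((L : ℝ) - x) * tn x := by
    intro x hx
    unfold PPc
    rw [if_pos (by omega)]
    push_cast
    ring
  rcases Nat.lt_or_ge a L with ha | ha
  · -- both factors below `L`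
    have hk1 : 1 ≤ k := by omega
    have hkL : k < L := by omega
    rw [hval k hkL.le, hval a ha.le, Fn_eq_tn L k hkL.le, Fn_eq_tn L a ha.le]
    have m1 : min L (k + 1) = k + 1 := by omega
    have m2 : min L (a + 1) = a + 1 := by omega
    rw [m1, m2]
    obtain ⟨p, rfl⟩ : ∃ p, k = p + 1 := ⟨k - 1, by omega⟩
    obtain ⟨q, rfl⟩ : ∃ q, a = q + 1 := ⟨a - 1, by omega⟩
    rw [of_rn_succ L p (by omega), of_rn_succ L q (by omega)]
    have b1 := of_rj_tn_one p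
    have b2 := of_rj_tn_big q (by omega)
    have t1 := tn_pos (p + 1)
    have t2 := tn_pos (q + 1)
    have r1 := rj_pos p
    have r2 := rj_pos q
    push_cast at hsr ⊢
    have hNr : (L : ℝ) ≤ N := by exact_mod_cast hN
    have hpL : (p : ℝ) + 1 ≤ L := by exact_mod_cast hkL.le
    have hqL : (q : ℝ) + 1 ≤ L := by exact_mod_cast ha.le
    have c2 : ((L : ℝ) - ((p : ℝ) + 1)) * (E ^ 2 * rj q) ≤
        (((L : ℝ) - ((p : ℝ) + 1)) + 2.1) * tn (q + 1) := by
      apply of_scale (a := (q : ℝ) + 1) (by linarith) (by linarith) (by positivity) (by norm_num)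
        t2.le b2
    have c1 : ((L : ℝ) - ((q : ℝ) + 1)) * (E ^ 2 * rj p) ≤
        (((L : ℝ) - ((q : ℝ) + 1)) + 6.4) * tn (p + 1) := by
      apply of_scale (a := (p : ℝ) + 1) (by linarith) (by linarith) (by positivity) (by norm_num)
        t1.le b1
    have c3 : E ^ 2 * (((L : ℝ) - ((p : ℝ) + 1)) * tn (p + 1) * rj q +
        ((L : ℝ) - ((q : ℝ) + 1)) * tn (q + 1) * rj p) ≤
        (2 * (L : ℝ) - N + 8.5) * (tn (p + 1) * tn (q + 1)) := by
      have d2 := mul_le_mul_of_nonneg_left c2 t1.le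
      have d1 := mul_le_mul_of_nonneg_left c1 t2.le
      have e5 : (2 * (L : ℝ) - N + 8.5) * (tn (p + 1) * tn (q + 1)) =
        tn (p + 1) * ((((L : ℝ) - ((p : ℝ) + 1)) + 2.1) * tn (q + 1)) +
        tn (q + 1) * ((((L : ℝ) - ((q : ℝ) + 1)) + 6.4) * tn (p + 1)) := by
        rw [hsr]; ring
      rw [e5]
      calc _ = tn (p + 1) * (((L : ℝ) - ((p : ℝ) + 1)) * (E ^ 2 * rj q)) +
          tn (q + 1) * (((L : ℝ) - ((q : ℝ) + 1)) * (E ^ 2 * rj p)) := by ring
        _ ≤ _ := add_le_add d2 d1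
    have c4 : (1 - 8 / (L : ℝ)) * (((N : ℝ) + 1) / L) * (2 * (L : ℝ) - N + 8.5) ≤ (N : ℝ) + 2 := by
      have e6 : (1 - 8 / (L : ℝ)) * (((N : ℝ) + 1) / L) * (2 * (L : ℝ) - N + 8.5) =
        (((L : ℝ) - 8) * ((N : ℝ) + 1) * (2 * (L : ℝ) - N + 8.5)) / (L * L) := by
        field_simp
      rw [e6, div_le_iff₀ (by positivity)]
      obtain ⟨h, hh⟩ : ∃ h : ℝ, h = (N : ℝ) - L := ⟨_, rfl⟩
      have hN' : (N : ℝ) = L + h := by linarith
      have hh0 : 0 ≤ h := by linarith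
      rw [hN']
      have g1 : 0 ≤ h * (L : ℝ) * ((L : ℝ) - 7.5) := by
        apply mul_nonneg (mul_nonneg hh0 hLp.le)
        linarith
      have g2 : 0 ≤ ((L : ℝ) - 8) * h ^ 2 := by
        apply mul_nonneg _ (by positivity)
        linarith
      nlinarith
    have hNL : 0 ≤ (1 - 8 / (L : ℝ)) * (((N : ℝ) + 1) / L) := by positivity
    calc E ^ 2 * (1 - 8 / (L : ℝ)) * (((N : ℝ) + 1) / L) *
        (((L : ℝ) - ((p : ℝ) + 1)) * tn (p + 1) * rj q +
          ((L : ℝ) - ((q : ℝ) + 1)) * tn (q + 1) * rj p)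
        = ((1 - 8 / (L : ℝ)) * (((N : ℝ) + 1) / L)) *
          (E ^ 2 * (((L : ℝ) - ((p : ℝ) + 1)) * tn (p + 1) * rj q +
          ((L : ℝ) - ((q : ℝ) + 1)) * tn (q + 1) * rj p)) := by ring
      _ ≤ ((1 - 8 / (L : ℝ)) * (((N : ℝ) + 1) / L)) *
          ((2 * (L : ℝ) - N + 8.5) * (tn (p + 1) * tn (q + 1))) :=
          mul_le_mul_of_nonneg_left c3 hNL
      _ = ((1 - 8 / (L : ℝ)) * (((N : ℝ) + 1) / L) * (2 * (L : ℝ) - N + 8.5)) *
          (tn (p + 1) * tn (q + 1)) := by ring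
      _ ≤ ((N : ℝ) + 2) * (tn (p + 1) * tn (q + 1)) :=
          mul_le_mul_of_nonneg_right c4 (by positivity)
      _ = _ := by rw [hsr]; ring
  · -- the large factor beyond `L`
    rw [hzero a ha, zero_mul, add_zero]
    have f1 := Fn_nonneg L k
    have f2 := Fn_nonneg L a
    rcases Nat.lt_or_ge k L with hk | hk
    · have i1 := ih ha
      rw [hval k hk.le, Fn_eq_tn L k hk.le]
      have m1 : min L (k + 1) = k + 1 := by omega
      have m2 : min L (a + 1) = L := by omega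
      rw [m1, m2]
      have t1 := tn_pos k
      have r1 : 0 ≤ rn (L + 1) a := by
        obtain ⟨q, rfl⟩ : ∃ q, a = q + 1 := ⟨a - 1, by omega⟩
        exact rn_nonneg (L + 1) q
      have har : (L : ℝ) ≤ a := by exact_mod_cast ha
      have hkr : (k : ℝ) + 1 ≤ L := by exact_mod_cast hk
      have hk0 : (0 : ℝ) ≤ k := Nat.cast_nonneg k
      have g1 : ((N : ℝ) + 1) * ((L : ℝ) - k) ≤ ((L : ℝ) + k + 1) * a := by
        rw [hsr]
        have : ((k : ℝ) + 1) * ((L : ℝ) - k) ≤ (2 * (k : ℝ) + 1) * a := by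
          apply mul_le_mul (by linarith) (by linarith) (by linarith) (by linarith)
        nlinarith
      have g2 : 0 ≤ E ^ 2 * (1 - 8 / (L : ℝ)) * (1 / (L : ℝ)) * (tn k * rn (L + 1) a) := by
        positivity
      calc E ^ 2 * (1 - 8 / (L : ℝ)) * (((N : ℝ) + 1) / L) * (((L : ℝ) - k) * tn k * rn (L + 1) a)
          = (E ^ 2 * (1 - 8 / (L : ℝ)) * (1 / (L : ℝ)) * (tn k * rn (L + 1) a)) *
            (((N : ℝ) + 1) * ((L : ℝ) - k)) := by ring
        _ ≤ (E ^ 2 * (1 - 8 / (L : ℝ)) * (1 / (L : ℝ)) * (tn k * rn (L + 1) a)) *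
            (((L : ℝ) + k + 1) * a) := mul_le_mul_of_nonneg_left g1 g2
        _ = ((L : ℝ) + k + 1) * tn k *
            (E ^ 2 * (1 - 8 / (L : ℝ)) * ((a : ℝ) / L * rn (L + 1) a)) := by ring
        _ ≤ ((L : ℝ) + k + 1) * tn k * Fn L a := by
            apply mul_le_mul_of_nonneg_left i1
            positivity
        _ = _ := by push_cast; ring
    · rw [hzero k hk, zero_mul, mul_zero]
      positivity

/-- (OBJ, one factor) `F_L(N) ≥ E^2 (1 - 8/L) (N/L) r_N` for `N ≥ L` -/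
theorem of_main (L : ℕ) (hL : 1000 ≤ L) : ∀ N, L ≤ N →
    E ^ 2 * (1 - 8 / (L : ℝ)) * ((N : ℝ) / L * rn (L + 1) N) ≤ Fn L N := by
  intro N
  induction N using Nat.strong_induction_on with
  | _ N ihN =>
    intro hN
    have hE := E_pos
    have hLr : (1000 : ℝ) ≤ L := by exact_mod_cast hL
    have hLp : (0 : ℝ) < L := by linarith
    rcases Nat.lt_or_ge L N with hlt | hge
    · obtain ⟨n, rfl⟩ : ∃ n, N = n + 1 := ⟨N - 1, by omega⟩
      have hn : L ≤ n := by omega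
      have h1 := Fn_rec L n
      have h2 := rn_rec_all (L + 1) n (by omega)
      obtain ⟨c, hc⟩ : ∃ c : ℝ, c = E ^ 2 * (1 - 8 / (L : ℝ)) * (((n : ℝ) + 1) / L) := ⟨_, rfl⟩
      have h3 : c * ∑ k ∈ range (n + 1), PPc (L + 1) k * rn (L + 1) (n - k) ≤
          ∑ k ∈ range (n + 1), ((min L (k + 1) : ℕ) : ℝ) * (Fn L k * Fn L (n - k)) := by
        have s1 := Finset.sum_range_reflect (fun k => PPc (L + 1) k * rn (L + 1) (n - k)) (n + 1)
        have s2 := Finset.sum_range_reflect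
          (fun k => ((min L (k + 1) : ℕ) : ℝ) * (Fn L k * Fn L (n - k))) (n + 1)
        have s3 : ∑ k ∈ range (n + 1), c * (PPc (L + 1) k * rn (L + 1) (n - k) +
            PPc (L + 1) (n + 1 - 1 - k) * rn (L + 1) (n - (n + 1 - 1 - k))) ≤
            ∑ k ∈ range (n + 1), (((min L (k + 1) : ℕ) : ℝ) * (Fn L k * Fn L (n - k)) +
              ((min L (n + 1 - 1 - k + 1) : ℕ) : ℝ) *
                (Fn L (n + 1 - 1 - k) * Fn L (n - (n + 1 - 1 - k)))) := by
          apply Finset.sum_le_sum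
          intro k hk
          have hk' := mem_range.mp hk
          have e1 : n + 1 - 1 - k = n - k := by omega
          have e2 : n - (n - k) = k := by omega
          rw [e1, e2]
          rcases Nat.le_total k (n - k) with h | h
          · have := of_key L n k (n - k) hL hn h (by omega)
              (fun hh => ihN (n - k) (by omega) hh)
            rw [hc]
            exact this
          · have := of_key L n (n - k) k hL hn h (by omega)
              (fun hh => ihN k (by omega) hh)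
            rw [hc]
            linarith
        rw [← Finset.mul_sum, Finset.sum_add_distrib, Finset.sum_add_distrib, s1, s2] at s3
        linarith
      rw [← h1, ← h2] at h3
      have hn1 : (0 : ℝ) < (n : ℝ) + 1 := by positivity
      have h4 : E * (((n : ℝ) + 1) * (c * rn (L + 1) (n + 1))) ≤ E * (((n : ℝ) + 1) * Fn L (n + 1)) := by
        calc _ = c * (E * (((n : ℝ) + 1) * rn (L + 1) (n + 1))) := by ring
          _ ≤ _ := h3
      have h5 := le_of_mul_le_mul_left (le_of_mul_le_mul_left h4 hE) hn1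
      rw [hc] at h5
      push_cast
      calc _ = E ^ 2 * (1 - 8 / (L : ℝ)) * (((n : ℝ) + 1) / L) * rn (L + 1) (n + 1) := by ring
        _ ≤ _ := h5
    · have hNL : N = L := by omega
      rw [hNL, div_self hLp.ne', one_mul, Fn_eq_tn L L le_rfl]
      exact of_base L L hL (by omega) le_rfl

end Pool.Agent.MP_9da1e3_co
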