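import Pool.Agent.Lib.MP_9da1e3_co.V2_R2aK

namespace Pool.Agent.MP_9da1e3_co.R2a

theorem ckGk_1000 : ckG 1000 86 1047 70 = true := by decide +kernel

theorem ckGk_1047 : ckG 1047 88 1092 70 = true := by decide +kernel

theorem ckGk_1092 : ckG 1092 91 1150 72 = true := by decide +kernel

theorem ckGk_1150 : ckG 1150 94 1214 72 = true := by decide +kernel

theorem ckGk_1214 : ckG 1214 98 1296 72 = true := by decide +kernel

theorem ckGk_1296 : ckG 1296 102 1385 75 = true := by decide +kernel

theorem ckGk_1385 : ckG 1385 107 1494 75 = true := by decide +kernel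

theorem ckGk_1494 : ckG 1494 112 1614 75 = true := by decide +kernel

theorem ckGk_1614 : ckG 1614 118 1755 79 = true := by decide +kernel

theorem ckGk_1755 : ckG 1755 125 1925 79 = true := by decide +kernel

theorem ckGk_1925 : ckG 1925 133 2127 79 = true := by decide +kernel

theorem ckGk_2127 : ckG 2127 142 2364 83 = true := by decide +kernel

end Pool.Agent.MP_9da1e3_co.R2a
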