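import Pool.Agent.Lib.MP_9da1e3_co.V2_R2aK

namespace Pool.Agent.MP_9da1e3_co.R2a

theorem ckGk_2364 : ckG 2364 152 2641 83 = true := by decide +kernel

theorem ckGk_2641 : ckG 2641 164 2977 89 = true := by decide +kernel

theorem ckGk_2977 : ckG 2977 178 3390 89 = true := by decide +kernel

theorem ckGk_3390 : ckG 3390 194 3890 89 = true := by decide +kernel

theorem ckGk_3890 : ckG 3890 213 4505 96 = true := by decide +kernel

theorem ckGk_4505 : ckG 4505 235 5264 96 = true := by decide +kernel

end Pool.Agent.MP_9da1e3_co.R2a
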