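import Pool.Agent.Lib.MP_9da1e3_co.V2_R2aK

namespace Pool.Agent.MP_9da1e3_co.R2a

theorem ckGk_5264 : ckG 5264 260 6185 96 = true := by decide +kernel

theorem ckGk_6185 : ckG 6185 290 7335 104 = true := by decide +kernel

theorem ckGk_7335 : ckG 7335 325 8772 104 = true := by decide +kernel

theorem ckGk_8772 : ckG 8772 366 10563 116 = true := by decide +kernel

end Pool.Agent.MP_9da1e3_co.R2a
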