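import Pool.Agent.Lib.MP_9da1e3_co.V2_R2aK

namespace Pool.Agent.MP_9da1e3_co.R2a

theorem ckGk_10563 : ckG 10563 414 12811 116 = true := by decide +kernel

theorem ckGk_12811 : ckG 12811 471 15661 116 = true := by decide +kernel

end Pool.Agent.MP_9da1e3_co.R2a
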