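import Pool.Agent.Lib.MP_9da1e3_co.V2_R2aK

namespace Pool.Agent.MP_9da1e3_co.R2a

theorem ckGk_15661 : ckG 15661 539 19293 132 = true := by decide +kernel

end Pool.Agent.MP_9da1e3_co.R2a
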