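import Pool.Agent.Lib.MP_9da1e3_co.NR2
import Pool.Agent.Lib.MP_9da1e3_co.KV4
import Pool.Agent.Lib.MP_9da1e3_co.GL1

namespace Pool.Agent.MP_9da1e3_co

open Finset

lemma r2aA_tt (k : ℕ) : tt k = tn k * E ^ k := by
  have : (E : ℝ) ^ k ≠ 0 := (pow_pos E_pos k).ne'
  unfold tn
  field_simp

lemma r2aA_f (L n : ℕ) : f L n = Fn L n * E ^ n := by
  have : (E : ℝ) ^ n ≠ 0 := (pow_pos E_pos n).ne'
  unfold Fn
  field_simp

lemma del_rec (L m : ℕ) (h : m + 1 ≤ L) : ((L : ℝ) + m + 1) * (tt (L + m + 1) - f (L + 1) (L + m + 1))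
    = ∑ j ∈ range (m + 1), tt j * (((L : ℝ) + j + 2) * (tt (L + (m - j)) - f (L + 1) (L + (m - j)))
      + ((m - j : ℕ) : ℝ) * tt (L + (m - j))) := by
  have hr := dl_rec L m h
  have e1 : ((L : ℝ) + m + 1) * (tt (L + m + 1) - f (L + 1) (L + m + 1))
      = E ^ (L + m) * (E * (((L : ℝ) + (m + 1)) * dl L (m + 1))) := by
    unfold dl HH
    rw [r2aA_tt, r2aA_f, show L + (m + 1) = L + m + 1 by ring, pow_succ]
    ring
  rw [e1, hr, Finset.mul_sum]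
  apply Finset.sum_congr rfl
  intro j hj
  have hj' : j ≤ m := by have := mem_range.mp hj; omega
  have e2 : (E : ℝ) ^ (L + m) = E ^ j * E ^ (L + (m - j)) := by
    rw [← pow_add]; congr 1; omega
  unfold dl HH
  rw [r2aA_tt j, r2aA_tt (L + (m - j)), r2aA_f (L + 1) (L + (m - j)), e2]
  ring

lemma gam_rec (L m : ℕ) (h : m + 1 ≤ L) : ((L : ℝ) + m + 1) * (f (L + 1) (L + m + 1) - f L (L + m + 1))
    = ∑ j ∈ range (m + 1), tt j * (((L : ℝ) + j + 1) * (f (L + 1) (L + (m - j)) - f L (L + (m - j)))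
      + f (L + 1) (L + (m - j))) := by
  have hr := gg_rec L m h
  unfold SS at hr
  rw [← Finset.sum_add_distrib] at hr
  have e1 : ((L : ℝ) + m + 1) * (f (L + 1) (L + m + 1) - f L (L + m + 1))
      = E ^ (L + m) * (E * (((L : ℝ) + (m + 1)) * gg L (m + 1))) := by
    unfold gg An
    rw [r2aA_f, r2aA_f, show L + (m + 1) = L + m + 1 by ring, pow_succ]
    ring
  rw [e1, hr, Finset.mul_sum]
  apply Finset.sum_congr rfl
  intro j hj
  have hj' : j ≤ m := by have := mem_range.mp hj; omega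
  have e2 : (E : ℝ) ^ (L + m) = E ^ j * E ^ (L + (m - j)) := by
    rw [← pow_add]; congr 1; omega
  unfold gg An HH
  rw [r2aA_tt j, r2aA_f (L + 1) (L + (m - j)), r2aA_f L (L + (m - j)), e2]
  ring

lemma tt_lo (n : ℕ) : tt n * (E * (2 * n) / (2 * n + 3)) ≤ tt (n + 1) := by
  have hE := E_pos
  have hp : 0 < E ^ n := pow_pos hE n
  have h := tn_succ_qk n
  have h1 := le_qk (n + 1) (by omega)
  have ht := tn_pos n
  have hn : (0 : ℝ) ≤ n := Nat.cast_nonneg n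
  rw [r2aA_tt, r2aA_tt, h, pow_succ]
  push_cast at h1
  have h2 : (2 * (n : ℝ)) / (2 * n + 3) ≤ qk (n + 1) * (((n : ℝ) + 1) / ((n : ℝ) + 2)) := by
    have h3 : (1 - 1 / (2 * ((n : ℝ) + 1))) * (((n : ℝ) + 1) / ((n : ℝ) + 2))
        ≤ qk (n + 1) * (((n : ℝ) + 1) / ((n : ℝ) + 2)) :=
      mul_le_mul_of_nonneg_right h1 (by positivity)
    refine le_trans ?_ h3
    have e : (1 - 1 / (2 * ((n : ℝ) + 1))) * (((n : ℝ) + 1) / ((n : ℝ) + 2))
        = (2 * n + 1) / (2 * (n + 2)) := by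
      field_simp
      ring
    rw [e, div_le_div_iff₀ (by positivity) (by positivity)]
    nlinarith
  have h4 := mul_le_mul_of_nonneg_left h2 (by positivity : (0 : ℝ) ≤ tn n * E ^ n * E)
  calc tn n * E ^ n * (E * (2 * n) / (2 * n + 3)) = tn n * E ^ n * E * ((2 * (n : ℝ)) / (2 * n + 3)) := by ring
    _ ≤ _ := h4
    _ = _ := by ring

lemma tt_hi (n : ℕ) : tt (n + 1) ≤ tt n * (E * (1 - 1.5 / (n + 1) + 3 / (n + 1) ^ 2)) := by
  have hE := E_pos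
  have hp : 0 < E ^ n := pow_pos hE n
  have h := tn_succ_qk n
  have h1 : qk (n + 1) ≤ (2 * ((n + 1 : ℕ) : ℝ) + 1) / (2 * ((n + 1 : ℕ) : ℝ) + 2) :=
    gl_qq_upper (n + 1) (by omega)
  have ht := tn_pos n
  have hn : (0 : ℝ) ≤ n := Nat.cast_nonneg n
  rw [r2aA_tt (n + 1), r2aA_tt n, h, pow_succ]
  push_cast at h1
  have h2 : qk (n + 1) * (((n : ℝ) + 1) / ((n : ℝ) + 2)) ≤ 1 - 1.5 / ((n : ℝ) + 1) + 3 / ((n : ℝ) + 1) ^ 2 := by
    refine (mul_le_mul_of_nonneg_right h1 (by positivity)).trans ?_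
    have e2 : (1 - 1.5 / ((n : ℝ) + 1) + 3 / ((n : ℝ) + 1) ^ 2) = (((n : ℝ) + 1) ^ 2 - 1.5 * (n + 1) + 3) / ((n : ℝ) + 1) ^ 2 := by
      field_simp
    rw [e2, div_mul_div_comm, div_le_div_iff₀ (by positivity) (by positivity)]
    nlinarith [mul_nonneg hn hn, mul_nonneg (mul_nonneg hn hn) hn]
  have h4 := mul_le_mul_of_nonneg_left h2 (by positivity : (0 : ℝ) ≤ tn n * E ^ n * E)
  calc tn n * (qk (n + 1) * (((n : ℝ) + 1) / ((n : ℝ) + 2))) * (E ^ n * E)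
      = tn n * E ^ n * E * (qk (n + 1) * (((n : ℝ) + 1) / ((n : ℝ) + 2))) := by ring
    _ ≤ _ := h4
    _ = _ := by ring

end Pool.Agent.MP_9da1e3_co
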