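import Pool.Agent.Lib.MP_9da1e3_co.V2_R2aS
import Pool.Agent.Lib.MP_9da1e3_co.V2_R2aA

set_option autoImplicit false

/-! The check `ckG` proves its inequality. -/

namespace Pool.Agent.MP_9da1e3_co.R2a

open Finset Polynomial Pool.Agent.MP_9da1e3_co

/-! ### scaled sequences -/

noncomputable def tau (j : ℕ) : ℝ := tt j * (32 / 87) ^ j

noncomputable def sig (L i : ℕ) : ℝ := tt (L + i) / tt L * (32 / 87) ^ i

noncomputable def del (L z : ℕ) : ℝ := (tt (L + z) - f (L + 1) (L + z)) / tt L * (32 / 87) ^ z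

noncomputable def gam (L z : ℕ) : ℝ :=
  (f (L + 1) (L + z) - f L (L + z)) / tt L * (32 / 87) ^ z

lemma tt_step (j : ℕ) : tt (j + 1) * ((j : ℝ) + 1) ^ j = tt j * ((j : ℝ) + 2) ^ j := by
  rcases j with _ | j
  · simp [tt]
  · unfold tt
    rw [Nat.factorial_succ (j + 1)]
    have h1 : ((j + 1).factorial : ℝ) ≠ 0 := by exact_mod_cast Nat.factorial_ne_zero _
    have h2 : ((j : ℝ) + 1 + 1) ≠ 0 := by positivity
    simp only [Nat.add_sub_cancel]
    push_cast
    field_simp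
    ring

lemma E_lt : E < 87 / 32 := by
  have := Real.exp_one_lt_d9
  unfold E
  linarith

lemma E_gt : 27182818 / 10000000 < E := by
  have := Real.exp_one_gt_d9
  unfold E
  linarith

lemma E_lt' : E < 27182819 / 10000000 := by
  have := Real.exp_one_lt_d9
  unfold E
  linarith

lemma tt_succ_le (n : ℕ) : tt (n + 1) ≤ tt n * (87 / 32) := by
  have h := tt_step n
  have hp := tt_pos n
  have h1 : ((n : ℝ) + 2) ^ n ≤ 87 / 32 * ((n : ℝ) + 1) ^ n := by
    have e1 : (1 + 1 / ((n : ℝ) + 1)) ≤ Real.exp (1 / ((n : ℝ) + 1)) := by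
      have := Real.add_one_le_exp (1 / ((n : ℝ) + 1))
      linarith
    have e2 : (1 + 1 / ((n : ℝ) + 1)) ^ n ≤ Real.exp 1 := by
      calc (1 + 1 / ((n : ℝ) + 1)) ^ n ≤ (Real.exp (1 / ((n : ℝ) + 1))) ^ n :=
            pow_le_pow_left₀ (by positivity) e1 n
        _ = Real.exp (n * (1 / ((n : ℝ) + 1))) := by rw [← Real.exp_nat_mul]
        _ ≤ Real.exp 1 := by
            apply Real.exp_le_exp.mpr
            rw [mul_one_div, div_le_one (by positivity)]
            linarith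
    have e3 : ((n : ℝ) + 2) ^ n = ((n : ℝ) + 1) ^ n * (1 + 1 / ((n : ℝ) + 1)) ^ n := by
      rw [← mul_pow]
      congr 1
      field_simp
      ring
    have e4 := E_lt
    unfold E at e4
    have e5 : 0 < ((n : ℝ) + 1) ^ n := by positivity
    rw [e3]
    nlinarith
  have h2 : 0 < ((n : ℝ) + 1) ^ n := by positivity
  have h3 : tt (n + 1) * ((n : ℝ) + 1) ^ n ≤ tt n * (87 / 32) * ((n : ℝ) + 1) ^ n := by
    rw [h]
    nlinarith
  exact le_of_mul_le_mul_right h3 h2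

lemma tau_nonneg (j : ℕ) : 0 ≤ tau j := by
  have := tt_pos j
  unfold tau
  positivity

lemma tau_le (j : ℕ) : tau j ≤ 1 := by
  induction j with
  | zero => simp [tau, tt_zero]
  | succ j ih =>
    have h := tt_succ_le j
    have hp : (0 : ℝ) < (32 / 87) ^ j := by positivity
    unfold tau at *
    rw [pow_succ]
    nlinarith

lemma sig_nonneg (L i : ℕ) : 0 ≤ sig L i := by
  have := tt_pos L
  have := tt_pos (L + i)
  unfold sig
  positivity

lemma sig_zero (L : ℕ) : sig L 0 = 1 := by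
  have := tt_pos L
  unfold sig
  simp [this.ne']

lemma sig_le (L i : ℕ) : sig L i ≤ 1 := by
  induction i with
  | zero => rw [sig_zero]
  | succ i ih =>
    have h := tt_succ_le (L + i)
    have hp : (0 : ℝ) < (32 / 87) ^ i := by positivity
    have hL := tt_pos L
    unfold sig at *
    rw [← Nat.add_assoc, pow_succ]
    refine le_trans ?_ ih
    rw [div_mul_eq_mul_div, div_mul_eq_mul_div]
    apply div_le_div_of_nonneg_right _ hL.le
    nlinarith

lemma del_nonneg (L z : ℕ) : 0 ≤ del L z := by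
  have h := f_le_tt (L + 1) (L + z)
  have hL := tt_pos L
  unfold del
  have : 0 ≤ tt (L + z) - f (L + 1) (L + z) := by linarith
  positivity

lemma del_le (L z : ℕ) : del L z ≤ 2 := by
  have h := f_nonneg (L + 1) (L + z)
  have hL := tt_pos L
  have h2 := sig_le L z
  have h3 : del L z ≤ sig L z := by
    unfold del sig
    have hp : (0 : ℝ) ≤ (32 / 87) ^ z := by positivity
    apply mul_le_mul_of_nonneg_right _ hp
    apply div_le_div_of_nonneg_right _ hL.le
    linarith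
  linarith

lemma gam_nonneg (L z : ℕ) : 0 ≤ gam L z := by
  have h := f_mono L (L + z)
  have hL := tt_pos L
  unfold gam
  have : 0 ≤ f (L + 1) (L + z) - f L (L + z) := by linarith
  positivity

lemma del_scaled (L m : ℕ) (h : m + 1 ≤ L) : 87 * ((L : ℝ) + m + 1) * del L (m + 1) =
    32 * (∑ j ∈ range (m + 1), (((L : ℝ) + 2 + j) * tau j) * del L (m - j) +
      ∑ j ∈ range (m + 1), tau j * (((m - j : ℕ) : ℝ) * sig L (m - j)) - 0) := by
  have hr := del_rec L m h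
  have hL := (tt_pos L).ne'
  have e1 : 87 * ((L : ℝ) + m + 1) * del L (m + 1) = 32 * ((32 / 87) ^ m / tt L *
      (((L : ℝ) + m + 1) * (tt (L + m + 1) - f (L + 1) (L + m + 1)))) := by
    unfold del
    rw [← Nat.add_assoc, pow_succ]
    ring
  rw [e1, hr, sub_zero, ← sum_add_distrib, mul_sum]
  congr 1
  refine sum_congr rfl fun j hj => ?_
  have hj' : j ≤ m := by have := mem_range.mp hj; omega
  have e2 : ((32 : ℝ) / 87) ^ m = (32 / 87) ^ j * (32 / 87) ^ (m - j) := by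
    rw [← pow_add]
    congr 1
    omega
  unfold tau del sig
  rw [e2]
  ring

lemma gam_scaled (L m : ℕ) (h : m + 1 ≤ L) : 87 * ((L : ℝ) + m + 1) * gam L (m + 1) =
    32 * (∑ j ∈ range (m + 1), (((L : ℝ) + 1 + j) * tau j) * gam L (m - j) +
      ∑ j ∈ range (m + 1), tau j * sig L (m - j) - ∑ j ∈ range (m + 1), tau j * del L (m - j)) := by
  have hr := gam_rec L m h
  have hL := (tt_pos L).ne'
  have e1 : 87 * ((L : ℝ) + m + 1) * gam L (m + 1) = 32 * ((32 / 87) ^ m / tt L *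
      (((L : ℝ) + m + 1) * (f (L + 1) (L + m + 1) - f L (L + m + 1)))) := by
    unfold gam
    rw [← Nat.add_assoc, pow_succ]
    ring
  rw [e1, hr, ← sum_add_distrib, ← sum_sub_distrib, mul_sum]
  congr 1
  refine sum_congr rfl fun j hj => ?_
  have hj' : j ≤ m := by have := mem_range.mp hj; omega
  have e2 : ((32 : ℝ) / 87) ^ m = (32 / 87) ^ j * (32 / 87) ^ (m - j) := by
    rw [← pow_add]
    congr 1
    omega
  unfold tau gam sig del
  rw [e2]
  ring

/-! ### the tables -/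

lemma it_le (R : ℕ → ℕ → ℕ) (hR : ∀ j t, R j t ≤ 2 ^ 61) (j : ℕ) : it R (2 ^ 60) j ≤ 2 ^ 61 := by
  cases j with
  | zero => simp [it]
  | succ j => exact hR _ _

lemma Rt_le (u j t : ℕ) : Rt u j t ≤ 2 ^ 61 := cut_le' _
lemma RsL_le (L j t : ℕ) : RsL L j t ≤ 2 ^ 61 := cut_le' _
lemma RsU_le (L j t : ℕ) : RsU L j t ≤ 2 ^ 61 := cut_le' _

lemma tau_succ (j : ℕ) : tau (j + 1) * (87 * ((j : ℝ) + 1) ^ j) = tau j * (32 * ((j : ℝ) + 2) ^ j) := by
  have h := tt_step j
  unfold tau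
  rw [pow_succ]
  calc tt (j + 1) * ((32 / 87) ^ j * (32 / 87)) * (87 * ((j : ℝ) + 1) ^ j)
      = (32 / 87) ^ j * 32 * (tt (j + 1) * ((j : ℝ) + 1) ^ j) := by ring
    _ = _ := by rw [h]; ring

/-- rounding up -/
lemma le_div_add_one (a b : ℕ) (hb : 0 < b) : (a : ℝ) / b ≤ ((a / b + 1 : ℕ) : ℝ) := by
  rw [div_le_iff₀ (by exact_mod_cast hb)]
  have := Nat.lt_div_mul_add hb (a := a)
  have h3 : a ≤ (a / b + 1) * b := by
    rw [Nat.add_mul, Nat.one_mul]
    omega
  exact_mod_cast h3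

lemma itT_lower (j : ℕ) : (it (Rt 0) (2 ^ 60) j : ℝ) ≤ 2 ^ 60 * tau j := by
  induction j with
  | zero => norm_num [it, tau, tt_zero]
  | succ j ih =>
    have h := tau_succ j
    set t := it (Rt 0) (2 ^ 60) j with ht
    have e : it (Rt 0) (2 ^ 60) (j + 1) = Rt 0 j t := rfl
    rw [e]
    unfold Rt
    refine le_trans (by exact_mod_cast cut_le _) (?_ : (((t * 32 * (j + 2) ^ j /
      (87 * (j + 1) ^ j) + 0 : ℕ)) : ℝ) ≤ _)
    rw [Nat.add_zero]
    refine le_trans Nat.cast_div_le ?_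
    push_cast
    have hp : (0 : ℝ) < 87 * ((j : ℝ) + 1) ^ j := by positivity
    rw [div_le_iff₀ hp]
    have hq : (0 : ℝ) ≤ 32 * ((j : ℝ) + 2) ^ j := by positivity
    calc (t : ℝ) * 32 * ((j : ℝ) + 2) ^ j = t * (32 * ((j : ℝ) + 2) ^ j) := by ring
      _ ≤ (2 ^ 60 * tau j) * (32 * ((j : ℝ) + 2) ^ j) := mul_le_mul_of_nonneg_right ih hq
      _ = 2 ^ 60 * (tau j * (32 * ((j : ℝ) + 2) ^ j)) := by ring
      _ = 2 ^ 60 * tau (j + 1) * (87 * ((j : ℝ) + 1) ^ j) := by rw [← h]; ring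

lemma itT_upper (j : ℕ) : 2 ^ 60 * tau j ≤ (it (Rt 1) (2 ^ 60) j : ℝ) := by
  induction j with
  | zero => norm_num [it, tau, tt_zero]
  | succ j ih =>
    have h := tau_succ j
    set t := it (Rt 1) (2 ^ 60) j with ht
    have e : it (Rt 1) (2 ^ 60) (j + 1) = Rt 1 j t := rfl
    rw [e]
    unfold Rt
    refine le_cut ?_ ?_
    · refine le_trans ?_ (le_div_add_one _ _ (by positivity))
      push_cast
      have hp : (0 : ℝ) < 87 * ((j : ℝ) + 1) ^ j := by positivity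
      rw [le_div_iff₀ hp]
      have hq : (0 : ℝ) ≤ 32 * ((j : ℝ) + 2) ^ j := by positivity
      calc 2 ^ 60 * tau (j + 1) * (87 * ((j : ℝ) + 1) ^ j)
          = (2 ^ 60 * tau j) * (32 * ((j : ℝ) + 2) ^ j) := by
            rw [mul_assoc, h]; ring
        _ ≤ t * (32 * ((j : ℝ) + 2) ^ j) := mul_le_mul_of_nonneg_right ih hq
        _ = _ := by ring
    · have := tau_le (j + 1)
      calc 2 ^ 60 * tau (j + 1) ≤ 2 ^ 60 * 2 := by nlinarith
        _ = 2 ^ 61 := by norm_num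

lemma itSL (L j : ℕ) : (it (RsL L) (2 ^ 60) j : ℝ) ≤ 2 ^ 60 * sig L j := by
  induction j with
  | zero => rw [sig_zero]; norm_num [it]
  | succ j ih =>
    set t := it (RsL L) (2 ^ 60) j with ht
    have e : it (RsL L) (2 ^ 60) (j + 1) = RsL L j t := rfl
    rw [e]
    unfold RsL
    refine le_trans (by exact_mod_cast cut_le _) (le_trans Nat.cast_div_le ?_)
    push_cast
    have h1 := tt_lo (L + j)
    push_cast at h1
    have hL := tt_pos L
    have hLj := tt_pos (L + j)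
    have hE := E_gt
    set n : ℝ := (L : ℝ) + j with hn
    have hn0 : 0 ≤ n := by positivity
    rw [div_le_iff₀ (by positivity)]
    have h2 : sig L j * (32 * 27182818 * (2 * n)) ≤
        sig L (j + 1) * (87 * 10000000 * (2 * n + 3)) := by
      have h3 : tt (L + j) * (27182818 * (2 * n)) ≤ tt (L + j + 1) * (10000000 * (2 * n + 3)) := by
        have h4 : tt (L + j) * (E * (2 * n)) ≤ tt (L + j + 1) * (2 * n + 3) := by
          have : tt (L + j) * (E * (2 * n) / (2 * n + 3)) * (2 * n + 3) ≤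
              tt (L + j + 1) * (2 * n + 3) := mul_le_mul_of_nonneg_right h1 (by positivity)
          have e2 : tt (L + j) * (E * (2 * n) / (2 * n + 3)) * (2 * n + 3) =
              tt (L + j) * (E * (2 * n)) := by
            field_simp
          linarith
        have h5 : tt (L + j) * (27182818 * (2 * n)) ≤ 10000000 * (tt (L + j) * (E * (2 * n))) := by
          have : 0 ≤ tt (L + j) * (2 * n) := by positivity
          nlinarith
        nlinarith
      unfold sig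
      rw [← Nat.add_assoc, pow_succ]
      have hp : (0 : ℝ) < (32 / 87) ^ j := by positivity
      have e3 : tt (L + j) / tt L * (32 / 87) ^ j * (32 * 27182818 * (2 * n)) =
          (32 / 87) ^ j / tt L * 32 * (tt (L + j) * (27182818 * (2 * n))) := by ring
      have e4 : tt (L + j + 1) / tt L * ((32 / 87) ^ j * (32 / 87)) *
          (87 * 10000000 * (2 * n + 3)) =
          (32 / 87) ^ j / tt L * 32 * (tt (L + j + 1) * (10000000 * (2 * n + 3))) := by ring
      rw [e3, e4]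
      exact mul_le_mul_of_nonneg_left h3 (by positivity)
    have hq : (0 : ℝ) ≤ 32 * 27182818 * (2 * n) := by positivity
    have h6 := mul_le_mul_of_nonneg_right ih hq
    linarith

lemma itSU (L : ℕ) (hL2 : 2 ≤ L) (j : ℕ) : 2 ^ 60 * sig L j ≤ (it (RsU L) (2 ^ 60) j : ℝ) := by
  induction j with
  | zero => rw [sig_zero]; norm_num [it]
  | succ j ih =>
    set t := it (RsU L) (2 ^ 60) j with ht
    have e : it (RsU L) (2 ^ 60) (j + 1) = RsU L j t := rfl
    rw [e]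
    unfold RsU
    refine le_cut ?_ ?_
    · refine le_trans ?_ (le_div_add_one _ _ (by positivity))
      have hsub : ((2 * (L + j + 1) ^ 2 - 3 * (L + j + 1) + 6 : ℕ) : ℝ) =
          2 * ((L : ℝ) + j + 1) ^ 2 - 3 * ((L : ℝ) + j + 1) + 6 := by
        have : 3 * (L + j + 1) ≤ 2 * (L + j + 1) ^ 2 := by nlinarith
        push_cast [Nat.cast_sub this]
        ring
      rw [Nat.cast_mul, Nat.cast_mul, hsub]
      push_cast
      have h1 := tt_hi (L + j)
      push_cast at h1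
      have hL := tt_pos L
      have hLj := tt_pos (L + j)
      have hE := E_lt'
      have hE0 := E_pos
      set N : ℝ := (L : ℝ) + j + 1 with hN
      have hN1 : 1 ≤ N := by
        have : (0 : ℝ) ≤ (L : ℝ) + j := by positivity
        linarith
      rw [le_div_iff₀ (by positivity)]
      have hquad : 0 ≤ 2 * N ^ 2 - 3 * N + 6 := by nlinarith
      have h2 : sig L (j + 1) * (87 * 10000000 * (2 * N ^ 2)) ≤
          sig L j * (32 * 27182819 * (2 * N ^ 2 - 3 * N + 6)) := by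
        have h3 : tt (L + j + 1) * (10000000 * (2 * N ^ 2)) ≤
            tt (L + j) * (27182819 * (2 * N ^ 2 - 3 * N + 6)) := by
          have h4 : tt (L + j + 1) * (2 * N ^ 2) ≤
              tt (L + j) * (E * (2 * N ^ 2 - 3 * N + 6)) := by
            have h5 : tt (L + j + 1) * (2 * N ^ 2) ≤
                tt (L + j) * (E * (1 - 1.5 / N + 3 / N ^ 2)) * (2 * N ^ 2) :=
              mul_le_mul_of_nonneg_right h1 (by positivity)
            have e2 : tt (L + j) * (E * (1 - 1.5 / N + 3 / N ^ 2)) * (2 * N ^ 2) =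
                tt (L + j) * (E * (2 * N ^ 2 - 3 * N + 6)) := by
              field_simp
              ring
            linarith
          have h6 : 10000000 * (tt (L + j) * (E * (2 * N ^ 2 - 3 * N + 6))) ≤
              tt (L + j) * (27182819 * (2 * N ^ 2 - 3 * N + 6)) := by
            have : 0 ≤ tt (L + j) * (2 * N ^ 2 - 3 * N + 6) := by positivity
            nlinarith
          nlinarith
        unfold sig
        rw [← Nat.add_assoc, pow_succ]
        have e3 : tt (L + j + 1) / tt L * ((32 / 87) ^ j * (32 / 87)) *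
            (87 * 10000000 * (2 * N ^ 2)) =
            (32 / 87) ^ j / tt L * 32 * (tt (L + j + 1) * (10000000 * (2 * N ^ 2))) := by ring
        have e4 : tt (L + j) / tt L * (32 / 87) ^ j *
            (32 * 27182819 * (2 * N ^ 2 - 3 * N + 6)) =
            (32 / 87) ^ j / tt L * 32 * (tt (L + j) * (27182819 * (2 * N ^ 2 - 3 * N + 6))) := by
          ring
        rw [e3, e4]
        exact mul_le_mul_of_nonneg_left h3 (by positivity)
      have hq : (0 : ℝ) ≤ 32 * 27182819 * (2 * N ^ 2 - 3 * N + 6) := by positivity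
      have h6 := mul_le_mul_of_nonneg_right ih hq
      linarith
    · have := sig_le L (j + 1)
      calc 2 ^ 60 * sig L (j + 1) ≤ 2 ^ 60 * 2 := by nlinarith
        _ = 2 ^ 61 := by norm_num

/-! ### convolutions -/

lemma cv_le_real {a b : ℕ → ℕ} {α β : ℕ → ℝ} {m : ℕ} (ha : ∀ j ≤ m, (a j : ℝ) ≤ 2 ^ 60 * α j)
    (hb : ∀ j ≤ m, (b j : ℝ) ≤ 2 ^ 60 * β j) :
    (cv a b m : ℝ) ≤ 2 ^ 120 * ∑ j ∈ range (m + 1), α j * β (m - j) := by
  unfold cv
  push_cast
  rw [mul_sum]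
  refine sum_le_sum fun j hj => ?_
  have hj' := mem_range.mp hj
  have i1 := ha j (by omega)
  have i2 := hb (m - j) (by omega)
  calc (a j : ℝ) * b (m - j) ≤ (2 ^ 60 * α j) * (2 ^ 60 * β (m - j)) :=
        mul_le_mul i1 i2 (Nat.cast_nonneg _) (le_trans (Nat.cast_nonneg _) i1)
    _ = 2 ^ 120 * (α j * β (m - j)) := by ring

lemma le_cv_real {a b : ℕ → ℕ} {α β : ℕ → ℝ} {m : ℕ} (ha : ∀ j ≤ m, 2 ^ 60 * α j ≤ (a j : ℝ))
    (hb : ∀ j ≤ m, 2 ^ 60 * β j ≤ (b j : ℝ)) (hβ : ∀ j, 0 ≤ β j) :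
    2 ^ 120 * ∑ j ∈ range (m + 1), α j * β (m - j) ≤ (cv a b m : ℝ) := by
  unfold cv
  push_cast
  rw [mul_sum]
  refine sum_le_sum fun j hj => ?_
  have hj' := mem_range.mp hj
  have i1 := ha j (by omega)
  have i2 := hb (m - j) (by omega)
  have i3 := hβ (m - j)
  calc 2 ^ 120 * (α j * β (m - j)) = (2 ^ 60 * α j) * (2 ^ 60 * β (m - j)) := by ring
    _ ≤ (a j : ℝ) * b (m - j) := mul_le_mul i1 i2 (by positivity) (Nat.cast_nonneg _)


/-! ### soundness -/

lemma one_weight (R : ℕ → ℕ → ℕ) : (fun i => (1 + 0 * i) * it R (2 ^ 60) i) = it R (2 ^ 60) := by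
  funext i
  rw [Nat.zero_mul, Nat.add_zero, Nat.one_mul]

lemma deltU_eq (L N : ℕ) : deltU L N = Xs L 1
    (pk (fun i => (L + 2 + 1 * i) * it (Rt 1) (2 ^ 60) i) (N + 1))
    (pk (it (Rt 1) (2 ^ 60)) (N + 1) * pk (fun i => (0 + 1 * i) * it (RsU L) (2 ^ 60) i) (N + 1))
    0 N := by
  unfold deltU
  rw [force_eq, force_eq, force_eq, force_eq, bld_eq, bld_eq, bld_eq, one_weight]
  have h := solve_spec L 1 (pk (fun i => (L + 2 + 1 * i) * it (Rt 1) (2 ^ 60) i) (N + 1))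
    (pk (it (Rt 1) (2 ^ 60)) (N + 1) * pk (fun i => (0 + 1 * i) * it (RsU L) (2 ^ 60) i) (N + 1))
    0 N 0
  rw [Nat.zero_add] at h
  exact h

/-- the digits of `deltU` -/
def dU (L N : ℕ) : ℕ → ℕ := xs L 1
    (pk (fun i => (L + 2 + 1 * i) * it (Rt 1) (2 ^ 60) i) (N + 1))
    (pk (it (Rt 1) (2 ^ 60)) (N + 1) * pk (fun i => (0 + 1 * i) * it (RsU L) (2 ^ 60) i) (N + 1)) 0

lemma deltU_pk (L N : ℕ) : deltU L N = pk (dU L N) (N + 1) := by
  rw [deltU_eq, Xs_eq]
  rfl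

lemma weight_le {a w t : ℕ} (hw : w ≤ 2 ^ 19) (ht : t ≤ 2 ^ 61) (ha : a = w * t) : a ≤ 2 ^ 80 := by
  rw [ha]
  calc w * t ≤ 2 ^ 19 * 2 ^ 61 := Nat.mul_le_mul hw ht
    _ = 2 ^ 80 := by norm_num

lemma cv_bound {a b : ℕ → ℕ} {k N : ℕ} (hN : N < 2 ^ 14) (hk : k ≤ N) (ha : ∀ j ≤ k, a j ≤ 2 ^ 61)
    (hb : ∀ j ≤ k, b j ≤ 2 ^ 80) : cv a b k ≤ 2 ^ 156 := by
  refine le_trans (cv_le ha hb) ?_
  calc (k + 1) * (2 ^ 61 * 2 ^ 80) ≤ 2 ^ 14 * (2 ^ 61 * 2 ^ 80) :=
        Nat.mul_le_mul_right _ (by omega)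
    _ ≤ 2 ^ 156 := by norm_num

theorem dU_sound (L N : ℕ) (hL2 : 2 ≤ L) (hL : L < 2 ^ 18) (hN : N < 2 ^ 14) (hNL : N ≤ L) :
    ∀ m ≤ N, 2 ^ 60 * del L m ≤ (dU L N m : ℝ) := by
  unfold dU
  refine solve_upper L _ _ N hN _
    (pl (it (Rt 1) (2 ^ 60)) (N + 1) * pl (fun i => (0 + 1 * i) * it (RsU L) (2 ^ 60) i) (N + 1))
    0 ?_ ?_ ?_ ?_ ?_ (fun j => ((L : ℝ) + 2 + j) * tau j)
    (fun k => ∑ j ∈ range (k + 1), tau j * (((k - j : ℕ) : ℝ) * sig L (k - j))) (fun _ => 0)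
    (del L) ?_ ?_ ?_ ?_ (del_nonneg L) (fun m _ => del_le L m) ?_ ?_
  · intro j hj
    exact weight_le (w := L + 2 + 1 * j) (by omega) (it_le _ (Rt_le 1) j) rfl
  · intro k hk
    rw [coeff_mul_pl _ _ (by omega) (by omega)]
    exact cv_bound hN hk (fun j _ => it_le _ (Rt_le 1) j)
      (fun j hj => weight_le (w := 0 + 1 * j) (by omega) (it_le _ (RsU_le L) j) rfl)
  · intro k _
    simp
  · rw [eval_mul, eval_pl, eval_pl]
  · simp
  · intro j _
    have h1 := itT_upper j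
    have h2 : (0 : ℝ) ≤ (L : ℝ) + 2 + j := by positivity
    push_cast
    have e60 : (1152921504606846976 : ℝ) = 2 ^ 60 := by norm_num
    calc 2 ^ 60 * (((L : ℝ) + 2 + j) * tau j) = ((L : ℝ) + 2 + j) * (2 ^ 60 * tau j) := by ring
      _ ≤ ((L : ℝ) + 2 + j) * (it (Rt 1) (2 ^ 60) j : ℝ) := mul_le_mul_of_nonneg_left h1 h2
      _ = _ := by ring
  · intro j
    have := tau_nonneg j
    positivity
  · intro k hk
    rw [coeff_mul_pl _ _ (by omega) (by omega)]
    refine le_cv_real (β := fun i => (i : ℝ) * sig L i) (fun j _ => itT_upper j) ?_ ?_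
    · intro j _
      have h1 := itSU L hL2 j
      have h2 : (0 : ℝ) ≤ (j : ℝ) := Nat.cast_nonneg _
      rw [Nat.zero_add, Nat.one_mul, Nat.cast_mul]
      calc 2 ^ 60 * ((j : ℝ) * sig L j) = (j : ℝ) * (2 ^ 60 * sig L j) := by ring
        _ ≤ _ := mul_le_mul_of_nonneg_left h1 h2
    · intro j
      have := sig_nonneg L j
      positivity
  · intro k _
    simp
  · simp [del, f_eq_tt (L + 1) L (by omega)]
  · intro m hm
    exact del_scaled L m (by omega)

lemma gammL_eq (L N : ℕ) : gammL L N = Xs L 0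
    (pk (fun i => (L + 1 + 1 * i) * it (Rt 0) (2 ^ 60) i) (N + 1))
    (pk (it (Rt 0) (2 ^ 60)) (N + 1) * pk (it (RsL L) (2 ^ 60)) (N + 1))
    (pk (it (Rt 1) (2 ^ 60)) (N + 1) * deltU L N) N := by
  unfold gammL
  rw [force_eq, force_eq, force_eq, force_eq, force_eq, force_eq, force_eq, bld_eq, bld_eq, bld_eq,
    bld_eq, one_weight, one_weight, one_weight]
  have h := solve_spec L 0 (pk (fun i => (L + 1 + 1 * i) * it (Rt 0) (2 ^ 60) i) (N + 1))
    (pk (it (Rt 0) (2 ^ 60)) (N + 1) * pk (it (RsL L) (2 ^ 60)) (N + 1))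
    (pk (it (Rt 1) (2 ^ 60)) (N + 1) * deltU L N) N 0
  rw [Nat.zero_add] at h
  exact h

/-- the digits of `gammL` -/
def gL (L N : ℕ) : ℕ → ℕ := xs L 0
    (pk (fun i => (L + 1 + 1 * i) * it (Rt 0) (2 ^ 60) i) (N + 1))
    (pk (it (Rt 0) (2 ^ 60)) (N + 1) * pk (it (RsL L) (2 ^ 60)) (N + 1))
    (pk (it (Rt 1) (2 ^ 60)) (N + 1) * deltU L N)

lemma gammL_pk (L N : ℕ) : gammL L N = pk (gL L N) (N + 1) := by
  rw [gammL_eq, Xs_eq]
  rfl

theorem gL_sound (L N : ℕ) (hL2 : 2 ≤ L) (hL : L < 2 ^ 18) (hN : N < 2 ^ 14) (hNL : N ≤ L) :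
    ∀ m ≤ N, (gL L N m : ℝ) ≤ 2 ^ 60 * gam L m := by
  have hd := dU_sound L N hL2 hL hN hNL
  unfold gL
  refine solve_lower L _ _ N hN _
    (pl (it (Rt 0) (2 ^ 60)) (N + 1) * pl (it (RsL L) (2 ^ 60)) (N + 1))
    (pl (it (Rt 1) (2 ^ 60)) (N + 1) * pl (dU L N) (N + 1)) ?_ ?_ ?_ ?_ ?_
    (fun j => ((L : ℝ) + 1 + j) * tau j)
    (fun k => ∑ j ∈ range (k + 1), tau j * sig L (k - j))
    (fun k => ∑ j ∈ range (k + 1), tau j * del L (k - j))
    (gam L) ?_ ?_ ?_ (gam_nonneg L) ?_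
  · intro j hj
    exact weight_le (w := L + 1 + 1 * j) (by omega) (it_le _ (Rt_le 0) j) rfl
  · intro k hk
    rw [coeff_mul_pl _ _ (by omega) (by omega)]
    exact cv_bound hN hk (fun j _ => it_le _ (Rt_le 0) j)
      (fun j _ => le_trans (it_le _ (RsL_le L) j) (by norm_num))
  · intro k hk
    rw [coeff_mul_pl _ _ (by omega) (by omega)]
    exact cv_bound hN hk (fun j _ => it_le _ (Rt_le 1) j)
      (fun j _ => le_trans (xs_le _ _ _ _ _ _) (by norm_num))
  · rw [eval_mul, eval_pl, eval_pl]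
  · rw [eval_mul, eval_pl, eval_pl, deltU_pk]
  · intro j _
    have h1 := itT_lower j
    have h2 : (0 : ℝ) ≤ (L : ℝ) + 1 + j := by positivity
    push_cast
    calc ((L : ℝ) + 1 + 1 * j) * (it (Rt 0) (2 ^ 60) j : ℝ)
        = ((L : ℝ) + 1 + j) * (it (Rt 0) (2 ^ 60) j : ℝ) := by ring
      _ ≤ ((L : ℝ) + 1 + j) * (2 ^ 60 * tau j) := mul_le_mul_of_nonneg_left h1 h2
      _ = _ := by ring
  · intro k hk
    rw [coeff_mul_pl _ _ (by omega) (by omega)]
    exact cv_le_real (fun j _ => itT_lower j) (fun j _ => itSL L j)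
  · intro k hk
    rw [coeff_mul_pl _ _ (by omega) (by omega)]
    exact le_cv_real (fun j _ => itT_upper j) (fun j hj => hd j (by omega)) (del_nonneg L)
  · intro m hm
    exact gam_scaled L m (by omega)

lemma dg_pk (a : ℕ → ℕ) (n m : ℕ) (hm : m < n) (ha : ∀ k ≤ m, a k ≤ 2 ^ 156) :
    dg (pk a n) m = a m := by
  rw [← eval_pl, dg_eval, coeff_pl, if_pos hm]
  intro k hk
  rw [coeff_pl, if_pos (by omega)]
  exact lt_of_le_of_lt (ha k hk) (by norm_num)

lemma ww_eq (m : ℕ) : ww m = ((m : ℝ) + 1) * tau m * (87 / 32) ^ m / E ^ (m + 1) := by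
  unfold ww
  rw [cc_eq]
  unfold tau
  have : ((32 : ℝ) / 87) ^ m * (87 / 32) ^ m = 1 := by
    rw [← mul_pow]
    norm_num
  calc ((m : ℝ) + 1) * tt m / E ^ (m + 1)
      = ((m : ℝ) + 1) * tt m * (((32 : ℝ) / 87) ^ m * (87 / 32) ^ m) / E ^ (m + 1) := by
        rw [this, mul_one]
    _ = _ := by ring

lemma gg_eq (L i : ℕ) : gg L i / tn L = gam L i * (87 / 32) ^ i / E ^ i := by
  unfold gg An Fn tn gam
  have : ((32 : ℝ) / 87) ^ i * (87 / 32) ^ i = 1 := by
    rw [← mul_pow]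
    norm_num
  have hE := (pow_pos E_pos L).ne'
  have hE2 := (pow_pos E_pos i).ne'
  have hL := (tt_pos L).ne'
  rw [pow_add]
  calc (f (L + 1) (L + i) / (E ^ L * E ^ i) - f L (L + i) / (E ^ L * E ^ i)) / (tt L / E ^ L)
      = (f (L + 1) (L + i) - f L (L + i)) / tt L * 1 / E ^ i := by
        field_simp
    _ = _ := by
        rw [← this]
        ring

theorem ckG_sound (L M L1 e : ℕ) (hM : 2 ≤ M) (hML : M ≤ L) (hL : L < 2 ^ 18) (hM14 : M < 2 ^ 14)
    (h : ckG L M L1 e = true) :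
    ((L1 : ℝ) + 1) * (ww (M - 1) + ((e : ℝ) / 100) / L) <
      2 * (1 - 1.5 / ((L : ℝ) + 1)) *
        ∑ i ∈ range (M - 1), ww (M - 2 - i) * (((L : ℝ) + 1) * gg L i / tn L) := by
  obtain ⟨N, rfl⟩ : ∃ N, M = N + 2 := ⟨M - 2, by omega⟩
  have e1 : N + 2 - 1 = N + 1 := by omega
  have e2 : N + 2 - 2 = N := by omega
  simp only [e1, e2]
  unfold ckG at h
  rw [force_eq, force_eq, force_eq, force_eq, force_eq, e1, e2, bld_eq, bld_eq, one_weight,
    gammL_pk] at h
  have hT : dg (pk (it (Rt 1) (2 ^ 60)) (N + 2)) (N + 1) = it (Rt 1) (2 ^ 60) (N + 1) :=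
    dg_pk _ _ _ (by omega) fun k _ => le_trans (it_le _ (Rt_le 1) k) (by norm_num)
  have hW : dg (pk (fun i => (1 + 1 * i) * it (Rt 0) (2 ^ 60) i) (N + 1) * pk (gL L N) (N + 1)) N =
      cv (fun i => (1 + 1 * i) * it (Rt 0) (2 ^ 60) i) (gL L N) N := by
    rw [← eval_pl, ← eval_pl, ← eval_mul, dg_eval, coeff_mul_pl _ _ (by omega) (by omega)]
    intro k hk
    rw [coeff_mul_pl _ _ (by omega) (by omega)]
    have c1 := cv_le (a := fun i => (1 + 1 * i) * it (Rt 0) (2 ^ 60) i) (b := gL L N) (m := k)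
      (s := 2 ^ 80) (t := 2 ^ 61)
      (fun j hj => weight_le (w := 1 + 1 * j) (by omega) (it_le _ (Rt_le 0) j) rfl)
      (fun j _ => xs_le _ _ _ _ _ _)
    calc cv _ (gL L N) k ≤ (k + 1) * (2 ^ 80 * 2 ^ 61) := c1
      _ ≤ 2 ^ 14 * (2 ^ 80 * 2 ^ 61) := Nat.mul_le_mul_right _ (by omega)
      _ < 2 ^ 160 := by norm_num
  rw [hT, hW] at h
  have h2 := Nat.le_of_ble_eq_true h
  set w := it (Rt 1) (2 ^ 60) (N + 1) with hw
  set W := cv (fun i => (1 + 1 * i) * it (Rt 0) (2 ^ 60) i) (gL L N) N with hWd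
  have hwr : 2 ^ 60 * tau (N + 1) ≤ (w : ℝ) := itT_upper _
  set Sg : ℝ := ∑ j ∈ range (N + 1), (((j : ℝ) + 1) * tau j) * gam L (N - j) with hSg
  have hWr : (W : ℝ) ≤ 2 ^ 120 * Sg := by
    refine cv_le_real (α := fun j => ((j : ℝ) + 1) * tau j) ?_
      (fun j hj => gL_sound L N (by omega) hL (by omega) (by omega) j hj)
    intro j _
    have h1 := itT_lower j
    have h3 : (0 : ℝ) ≤ (j : ℝ) + 1 := by positivity
    push_cast
    calc ((1 : ℝ) + 1 * j) * (it (Rt 0) (2 ^ 60) j : ℝ)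
        = ((j : ℝ) + 1) * (it (Rt 0) (2 ^ 60) j : ℝ) := by ring
      _ ≤ ((j : ℝ) + 1) * (2 ^ 60 * tau j) := mul_le_mul_of_nonneg_left h1 h3
      _ = _ := by ring
  -- the sum
  have hE := E_pos
  have hEn : ∀ k, (E ^ k) ≠ 0 := fun k => (pow_pos hE k).ne'
  have hsum : ∑ i ∈ range (N + 1), ww (N - i) * (((L : ℝ) + 1) * gg L i / tn L) =
      ((L : ℝ) + 1) * (87 / 32) ^ N / E ^ (N + 1) * Sg := by
    rw [hSg, ← Finset.sum_range_reflect (fun j => (((j : ℝ) + 1) * tau j) * gam L (N - j)), mul_sum]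
    refine sum_congr rfl fun i hi => ?_
    have hi' : i ≤ N := by have := mem_range.mp hi; omega
    have e3 : N + 1 - 1 - i = N - i := by omega
    have e4 : N - (N - i) = i := by omega
    have e7 : ((L : ℝ) + 1) * gg L i / tn L = ((L : ℝ) + 1) * (gam L i * (87 / 32) ^ i / E ^ i) := by
      rw [mul_div_assoc, gg_eq]
    rw [e3, e4, ww_eq, e7]
    have e5 : ((87 : ℝ) / 32) ^ N = (87 / 32) ^ (N - i) * (87 / 32) ^ i := by
      rw [← pow_add]
      congr 1
      omega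
    have e6 : E ^ (N + 1) = E ^ (N - i + 1) * E ^ i := by
      rw [← pow_add]
      congr 1
      omega
    rw [e5, e6]
    have := hEn (N - i + 1)
    have := hEn i
    field_simp
  rw [hsum, ww_eq]
  -- multiply by E ^ (N+2) / c ^ N
  have hL0 : (0 : ℝ) < L := by
    have : 0 < L := by omega
    exact_mod_cast this
  have hc : (0 : ℝ) < (87 / 32) ^ N := by positivity
  have hEN : E ^ (N + 2) ≤ (87 / 32) ^ (N + 2) := pow_le_pow_left₀ hE.le E_lt.le _
  have hmain : ((L1 : ℝ) + 1) * (((N : ℝ) + 2) * tau (N + 1) * (87 / 32) +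
      ((e : ℝ) / 100) / L * (87 / 32) ^ 2) <
      (2 * (L : ℝ) - 1) * (27182818 / 10000000) * Sg := by
    have h3 : ((((L1 + 1) * (278400 * L * ((N + 2) * w) * 2 ^ 60 + 7569 * e * 2 ^ 120) * 10000000 + 1
        : ℕ)) : ℝ) ≤ (((2 * L - 1) * 27182818 * W * 102400 * L : ℕ) : ℝ) := by exact_mod_cast h2
    have hcast : ((2 * L - 1 : ℕ) : ℝ) = 2 * (L : ℝ) - 1 := by
      rw [Nat.cast_sub (by omega)]
      push_cast
      ring
    rw [Nat.cast_add, Nat.cast_mul, Nat.cast_mul, Nat.cast_mul, Nat.cast_mul, Nat.cast_mul,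
      Nat.cast_mul, Nat.cast_add, hcast] at h3
    push_cast at h3
    have e60 : (1152921504606846976 : ℝ) = 2 ^ 60 := by norm_num
    have e120 : (1329227995784915872903807060280344576 : ℝ) = 2 ^ 60 * 2 ^ 60 := by norm_num
    have hq : (0 : ℝ) < 2 ^ 60 := by positivity
    have hL1 : (0 : ℝ) ≤ (L1 : ℝ) + 1 := by positivity
    have h2L : (0 : ℝ) ≤ 2 * (L : ℝ) - 1 := by
      have : (2 : ℝ) ≤ L := by
        have : 2 ≤ L := by omega
        exact_mod_cast this
      linarith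
    rw [e60, e120] at h3
    have h4 : ((L1 : ℝ) + 1) * (278400 * L * (((N : ℝ) + 2) * (2 ^ 60 * tau (N + 1))) * 2 ^ 60 +
        7569 * e * (2 ^ 60 * 2 ^ 60)) * 10000000 + 1 ≤
        (2 * (L : ℝ) - 1) * 27182818 * (2 ^ 120 * Sg) * 102400 * L := by
      refine le_trans ?_ (le_trans h3 ?_)
      · have : 278400 * (L : ℝ) * (((N : ℝ) + 2) * (2 ^ 60 * tau (N + 1))) * 2 ^ 60 ≤
            278400 * L * (((N : ℝ) + 2) * w) * 2 ^ 60 := by
          have : ((N : ℝ) + 2) * (2 ^ 60 * tau (N + 1)) ≤ ((N : ℝ) + 2) * w :=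
            mul_le_mul_of_nonneg_left hwr (by positivity)
          have h278 : (0 : ℝ) ≤ 278400 * L := by positivity
          exact mul_le_mul_of_nonneg_right (mul_le_mul_of_nonneg_left this h278) hq.le
        have := mul_le_mul_of_nonneg_left (add_le_add_left this (7569 * (e : ℝ) * (2 ^ 60 * 2 ^ 60))) hL1
        nlinarith
      · have h5 : (2 * (L : ℝ) - 1) * 27182818 * W ≤ (2 * (L : ℝ) - 1) * 27182818 * (2 ^ 120 * Sg) :=
          mul_le_mul_of_nonneg_left hWr (by positivity)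
        exact mul_le_mul_of_nonneg_right (mul_le_mul_of_nonneg_right h5 (by norm_num)) hL0.le
    have e1201 : (2 : ℝ) ^ 120 = 2 ^ 60 * 2 ^ 60 := by norm_num
    rw [e1201] at h4
    set Q : ℝ := 2 ^ 60 with hQ
    have hK : (0 : ℝ) < 102400 * 10000000 * L * (Q * Q) := by positivity
    rw [← mul_lt_mul_iff_right₀ hK]
    have e7 : 102400 * 10000000 * (L : ℝ) * (Q * Q) * (((L1 : ℝ) + 1) * (((N : ℝ) + 2) *
        tau (N + 1) * (87 / 32) + ((e : ℝ) / 100) / L * (87 / 32) ^ 2)) =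
        ((L1 : ℝ) + 1) * (278400 * L * (((N : ℝ) + 2) * (Q * tau (N + 1))) * Q +
        7569 * e * (Q * Q)) * 10000000 := by
      field_simp
      ring
    have e8 : 102400 * 10000000 * (L : ℝ) * (Q * Q) * ((2 * (L : ℝ) - 1) *
        (27182818 / 10000000) * Sg) =
        (2 * (L : ℝ) - 1) * 27182818 * (Q * Q * Sg) * 102400 * L := by ring
    rw [e7, e8]
    linarith
  have hgam0 : 0 ≤ Sg := by
    rw [hSg]
    refine sum_nonneg fun j _ => ?_
    have := tau_nonneg j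
    have := gam_nonneg L (N - j)
    positivity
  have h2L : (0 : ℝ) < 2 * (L : ℝ) - 1 := by
    have : (2 : ℝ) ≤ L := by
      have : 2 ≤ L := by omega
      exact_mod_cast this
    linarith
  have hmain2 : ((L1 : ℝ) + 1) * (((N : ℝ) + 2) * tau (N + 1) * (87 / 32) +
      ((e : ℝ) / 100) / L * (87 / 32) ^ 2) < (2 * (L : ℝ) - 1) * E * Sg := by
    refine lt_of_lt_of_le hmain ?_
    have := E_gt
    exact mul_le_mul_of_nonneg_right (mul_le_mul_of_nonneg_left this.le h2L.le) hgam0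
  have hp : 0 < (87 / 32 : ℝ) ^ N / E ^ (N + 2) := by positivity
  have key := mul_lt_mul_of_pos_left hmain2 hp
  have lhs : ((L1 : ℝ) + 1) * ((((N + 1 : ℕ) : ℝ) + 1) * tau (N + 1) * (87 / 32) ^ (N + 1) /
      E ^ (N + 1 + 1) + ((e : ℝ) / 100) / L) ≤ (87 / 32 : ℝ) ^ N / E ^ (N + 2) *
      (((L1 : ℝ) + 1) * (((N : ℝ) + 2) * tau (N + 1) * (87 / 32) +
        ((e : ℝ) / 100) / L * (87 / 32) ^ 2)) := by
    have h6 : (1 : ℝ) ≤ (87 / 32 : ℝ) ^ N / E ^ (N + 2) * (87 / 32) ^ 2 := by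
      rw [div_mul_eq_mul_div, ← pow_add, le_div_iff₀ (pow_pos hE _), one_mul]
      exact hEN
    have h7 : (0 : ℝ) ≤ ((L1 : ℝ) + 1) * (((e : ℝ) / 100) / L) := by positivity
    have h8 := mul_le_mul_of_nonneg_left h6 h7
    have e9 : (87 / 32 : ℝ) ^ N / E ^ (N + 2) * (((L1 : ℝ) + 1) * (((N : ℝ) + 2) * tau (N + 1) *
        (87 / 32) + ((e : ℝ) / 100) / L * (87 / 32) ^ 2)) =
        ((L1 : ℝ) + 1) * (((N : ℝ) + 2) * tau (N + 1) * (87 / 32) ^ (N + 1) / E ^ (N + 2)) +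
        ((L1 : ℝ) + 1) * (((e : ℝ) / 100) / L) * ((87 / 32 : ℝ) ^ N / E ^ (N + 2) *
        (87 / 32) ^ 2) := by
      rw [pow_succ (87 / 32 : ℝ) N]
      ring
    rw [e9]
    have e10 : (((N + 1 : ℕ) : ℝ) + 1) = (N : ℝ) + 2 := by
      push_cast
      ring
    rw [e10]
    have e11 : N + 1 + 1 = N + 2 := rfl
    rw [e11, mul_add]
    linarith
  refine lt_of_le_of_lt lhs (lt_of_lt_of_eq key ?_)
  have e12 : E ^ (N + 2) = E ^ (N + 1) * E := pow_succ _ _
  rw [e12]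
  have := hEn (N + 1)
  have hE' := hE.ne'
  have hLp : (L : ℝ) + 1 ≠ 0 := by positivity
  field_simp
  ring

end Pool.Agent.MP_9da1e3_co.R2a
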