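import Pool.Agent.Lib.MP_9da1e3_co.V2_R2c3

namespace Pool.Agent.MP_9da1e3_co

open Finset

lemma r2c_large (L N : ℕ) (x : ℝ) (hx : 25 ≤ x) (hNL : N + 1 < L) (hLx : 1.25 * x ^ 3 ≤ L)
    (hLx2 : (L : ℝ) ≤ 1.25 * x * (x ^ 2 + 1.6)) (hNx : (N : ℝ) + 1 = x ^ 2)
    (hneg : ∀ r, 1 ≤ r → r ≤ N + 1 → bb L r < 0) : False := by
  have hx0 : 0 < x := by linarith
  have hLpos : (0 : ℝ) < L := lt_of_lt_of_le (by positivity) hLx
  have hU := U_pos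
  have ht := tn_pos L
  have hN0 : 624 ≤ N := by
    have h1 : (625 : ℝ) ≤ (N : ℝ) + 1 := by rw [hNx]; nlinarith
    have h2 : (624 : ℝ) ≤ N := by linarith
    exact_mod_cast h2
  obtain ⟨p1, hp1d⟩ : ∃ p, p = 54 * (N + 1) / 100 := ⟨_, rfl⟩
  obtain ⟨p2, hp2d⟩ : ∃ p, p = 29 * (N + 1) / 100 := ⟨_, rfl⟩
  obtain ⟨p3, hp3d⟩ : ∃ p, p = 136 * (N + 1) / 1000 := ⟨_, rfl⟩
  have a1 : 100 * p1 ≤ 54 * (N + 1) := by omega
  have a1' : 54 * (N + 1) < 100 * (p1 + 1) := by omega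
  have a2 : 100 * p2 ≤ 29 * (N + 1) := by omega
  have a2' : 29 * (N + 1) < 100 * (p2 + 1) := by omega
  have a3 : 1000 * p3 ≤ 136 * (N + 1) := by omega
  have a3' : 136 * (N + 1) < 1000 * (p3 + 1) := by omega
  have hp1N : p1 ≤ N := by omega
  have hp21 : p2 ≤ p1 := by omega
  have hp32 : p3 ≤ p2 := by omega
  have hp3 : 80 ≤ p3 := by omega
  clear hp1d hp2d hp3d
  have b1 : (p1 : ℝ) ≤ 0.54 * x ^ 2 := by
    have : 100 * (p1 : ℝ) ≤ 54 * ((N : ℝ) + 1) := by exact_mod_cast a1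
    rw [hNx] at this; linarith
  have b1' : 0.54 * x ^ 2 ≤ p1 + 1 := by
    have : 54 * ((N : ℝ) + 1) ≤ 100 * ((p1 : ℝ) + 1) := by exact_mod_cast a1'.le
    rw [hNx] at this; linarith
  have b2 : (p2 : ℝ) ≤ 0.29 * x ^ 2 := by
    have : 100 * (p2 : ℝ) ≤ 29 * ((N : ℝ) + 1) := by exact_mod_cast a2
    rw [hNx] at this; linarith
  have b2' : 0.29 * x ^ 2 ≤ p2 + 1 := by
    have : 29 * ((N : ℝ) + 1) ≤ 100 * ((p2 : ℝ) + 1) := by exact_mod_cast a2'.le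
    rw [hNx] at this; linarith
  have b3 : (p3 : ℝ) ≤ 0.136 * x ^ 2 := by
    have : 1000 * (p3 : ℝ) ≤ 136 * ((N : ℝ) + 1) := by exact_mod_cast a3
    rw [hNx] at this; linarith
  have b3' : 0.136 * x ^ 2 ≤ p3 + 1 := by
    have : 136 * ((N : ℝ) + 1) ≤ 1000 * ((p3 : ℝ) + 1) := by exact_mod_cast a3'.le
    rw [hNx] at this; linarith
  clear a1 a1' a2 a2' a3 a3'
  have q := r2c_conv L N p1 p2 p3 x hx hLx hNL hNx hp1N hp21 hp32 hp3 b1 b1' b2 b2' b3 b3' hneg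
  clear b1 b1' b2 b2' b3 b3' hp1N hp21 hp32 hp3
  have fp := r2c_final_poly x hx
  obtain ⟨S, hS⟩ : ∃ S, S = (0.4404 * x - 0.7824) * (0.6782 * x - 1) +
      (0.387565 * x - 0.80755) * (0.16436 * x - 0.0296) +
      (0.2849 * x - 0.80354) * (0.08688 * x - 0.0238) := ⟨_, rfl⟩
  rw [← hS] at q fp
  clear hS
  obtain ⟨θ, hθ⟩ : ∃ θ, θ = 1 - 1.104 / x := ⟨_, rfl⟩
  rw [← hθ] at q
  have r1 : (L : ℝ) * ww N ≤ U * (1.25 * (x ^ 2 + 1.6)) := by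
    have h1 := r2b_ww_le_U N
    have h2 : sq N = x := by
      unfold sq
      rw [hNx]
      exact Real.sqrt_sq hx0.le
    rw [h2] at h1
    have h3 : (L : ℝ) * ww N ≤ (1.25 * x * (x ^ 2 + 1.6)) * (U / x) :=
      mul_le_mul hLx2 h1 (ww_pos N).le (by positivity)
    have h4 : (1.25 * x * (x ^ 2 + 1.6)) * (U / x) = U * (1.25 * (x ^ 2 + 1.6)) := by
      field_simp
    linarith
  have r2 : WW N ≤ 2 * U * x := by
    refine (r2b_WW_le_U N).trans ?_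
    apply mul_le_mul_of_nonneg_left _ (by positivity)
    rw [show x = √(x ^ 2) from (Real.sqrt_sq hx0.le).symm]
    apply Real.sqrt_le_sqrt
    rw [← hNx]
    linarith
  have r3 := r2b_kap_sum_le w2_le_half L N (by omega) (by omega) (fun r h1 h2 => hneg r h1 (by omega))
  have v := bb_volterra L N (by omega)
  have hbM := hneg (N + 1) (by omega) le_rfl
  have f1 : (L : ℝ) * (∑ r ∈ range (N + 1), kap N r * bb L r) ≤ tn L * (WW N / 2) := by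
    have h1 := mul_le_mul_of_nonneg_left r3 hLpos.le
    have h2 : (L : ℝ) * (tn L / L * (WW N / 2)) = tn L * (WW N / 2) := by
      field_simp
    rw [h2] at h1
    exact h1
  have f2 : U * (1.25 * (x ^ 2 + 1.6)) + U * x ≤ θ * (4 * (U * S)) := by
    have h1 : θ * x = x - 1.104 := by
      rw [hθ]
      field_simp
    have h2 : x * (1.25 * (x ^ 2 + 1.6) + x) ≤ x * (θ * (4 * S)) := by
      have e : x * (θ * (4 * S)) = 4 * (θ * x) * S := by ring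
      have e5 : x * (1.25 * (x ^ 2 + 1.6) + x) = 1.25 * x ^ 3 + x ^ 2 + 2 * x := by ring
      rw [e, h1, e5]
      exact fp
    have h3 := le_of_mul_le_mul_left h2 hx0
    have h4 := mul_le_mul_of_nonneg_left h3 hU.le
    have e6 : U * (θ * (4 * S)) = θ * (4 * (U * S)) := by ring
    rw [e6] at h4
    linarith
  have f3 : 0 ≤ (L : ℝ) * (((L : ℝ) + (N + 1)) * bb L (N + 1)) := by
    rw [v]
    have h1 : tn L * (L * ww N + WW N / 2) ≤ tn L * (θ * (4 * (U * S))) := by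
      apply mul_le_mul_of_nonneg_left _ ht.le
      linarith
    have e7 : tn L * (θ * (4 * (U * S))) = 2 * (θ * (tn L * (2 * U * S))) := by ring
    rw [e7] at h1
    have e6 : (L : ℝ) * (2 * ∑ i ∈ range N, ww (N - 1 - i) * gg (L + 1) i - tn L * ww N -
        ∑ r ∈ range (N + 1), kap N r * bb L r) = 2 * (L * ∑ i ∈ range N, ww (N - 1 - i) * gg (L + 1) i) -
        tn L * (L * ww N) - L * ∑ r ∈ range (N + 1), kap N r * bb L r := by ring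
    rw [e6]
    linarith
  have f4 : (L : ℝ) * (((L : ℝ) + (N + 1)) * bb L (N + 1)) < 0 := by
    apply mul_neg_of_pos_of_neg hLpos
    apply mul_neg_of_pos_of_neg (by positivity) hbM
  linarith

/-- MP_9da1e3 R2b: the first sign change of `bb L` is at some `y` with `y ^ 3 ≤ (0.8 L) ^ 2`. -/
theorem exists_pos_large20 (L : ℕ) (hL : 20000 ≤ L) :
    ∃ y : ℕ, 1 ≤ y ∧ (y : ℝ) ^ 3 ≤ (0.8 * (L : ℝ)) ^ 2 ∧ 0 ≤ bb L y := by
  by_contra hcon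
  push Not at hcon
  obtain ⟨M, hM1, hML, hMa, hMb⟩ := r2c_exists_M L hL
  have hMaR : 25 * (M : ℝ) ^ 3 ≤ 16 * (L : ℝ) ^ 2 := by exact_mod_cast hMa
  have hMbR : 16 * (L : ℝ) ^ 2 < 25 * ((M : ℝ) + 1) ^ 3 := by exact_mod_cast hMb
  have hM1R : (634 : ℝ) ≤ M := by exact_mod_cast hM1
  obtain ⟨x, hxd⟩ : ∃ x, x = √(M : ℝ) := ⟨_, rfl⟩
  have hx2 : x ^ 2 = (M : ℝ) := by rw [hxd]; exact Real.sq_sqrt (by positivity)
  have hx : 25 ≤ x := by
    rw [hxd]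
    apply Real.le_sqrt_of_sq_le
    linarith
  have hx0 : 0 < x := by linarith
  have hLpos : (0 : ℝ) < L := by exact_mod_cast (by omega : 0 < L)
  have hLx : 1.25 * x ^ 3 ≤ L := by
    apply le_of_sq_le_sq _ hLpos.le
    have : (1.25 * x ^ 3) ^ 2 = 1.5625 * (x ^ 2) ^ 3 := by ring
    rw [this, hx2]
    linarith
  have hLx2 : (L : ℝ) ≤ 1.25 * x * (x ^ 2 + 1.6) := by
    apply le_of_sq_le_sq _ (by positivity)
    have h1 : (L : ℝ) ^ 2 ≤ 1.5625 * (x ^ 2 + 1) ^ 3 := by rw [hx2]; linarith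
    refine h1.trans ?_
    have h2 : (1.25 * x * (x ^ 2 + 1.6)) ^ 2 = 1.5625 * (x ^ 2 * (x ^ 2 + 1.6) ^ 2) := by ring
    rw [h2]
    obtain ⟨z, hz⟩ : ∃ z, z = x ^ 2 := ⟨_, rfl⟩
    rw [← hz]
    have hz1 : 634 ≤ z := by rw [hz, hx2]; exact hM1R
    have e : z * (z + 1.6) ^ 2 - (z + 1) ^ 3 = 0.2 * z ^ 2 - 0.44 * z - 1 := by ring
    nlinarith
  obtain ⟨N, rfl⟩ : ∃ N, M = N + 1 := ⟨M - 1, by omega⟩
  refine r2c_large L N x hx hML hLx hLx2 (by rw [hx2]; push_cast; ring) ?_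
  intro r hr1 hr2
  apply hcon r hr1
  have h1 : (r : ℝ) ≤ ((N + 1 : ℕ) : ℝ) := by exact_mod_cast hr2
  have h2 : (r : ℝ) ^ 3 ≤ ((N + 1 : ℕ) : ℝ) ^ 3 := pow_le_pow_left₀ (Nat.cast_nonneg r) h1 3
  have e : (0.8 * (L : ℝ)) ^ 2 = 0.64 * (L : ℝ) ^ 2 := by ring
  rw [e]
  linarith

end Pool.Agent.MP_9da1e3_co
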