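import Pool.Agent.Lib.MP_9da1e3_co.V2_R2L
import Pool.Agent.Lib.MP_9da1e3_co.V2_R2aF
import Pool.Agent.Lib.MP_9da1e3_co.V2_R2aC1
import Pool.Agent.Lib.MP_9da1e3_co.V2_R2aC2
import Pool.Agent.Lib.MP_9da1e3_co.V2_R2aC3
import Pool.Agent.Lib.MP_9da1e3_co.V2_R2aC4
import Pool.Agent.Lib.MP_9da1e3_co.V2_R2aC5
import Pool.Agent.Lib.MP_9da1e3_co.V2_R2aC6
import Pool.Agent.Lib.MP_9da1e3_co.V2_R2c4

namespace Pool.Agent.MP_9da1e3_co

/-- `R2`: a nonnegative `bb L y` with `y ^ 3 ≤ (0.8 L) ^ 2`, for every `L ≥ 1000` -/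
theorem exists_pos (L : ℕ) (hL : 1000 ≤ L) :
    ∃ y : ℕ, 1 ≤ y ∧ (y : ℝ) ^ 3 ≤ (0.8 * (L : ℝ)) ^ 2 ∧ 0 ≤ bb L y := by
  rcases lt_or_ge L 20000 with h | h
  · exact exists_pos_small
      (R2a.ckG_sound 1000 86 1047 70 (by norm_num) (by norm_num) (by norm_num) (by norm_num) R2a.ckGk_1000)
      (R2a.ckG_sound 1047 88 1092 70 (by norm_num) (by norm_num) (by norm_num) (by norm_num) R2a.ckGk_1047)
      (R2a.ckG_sound 1092 91 1150 72 (by norm_num) (by norm_num) (by norm_num) (by norm_num) R2a.ckGk_1092)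
      (R2a.ckG_sound 1150 94 1214 72 (by norm_num) (by norm_num) (by norm_num) (by norm_num) R2a.ckGk_1150)
      (R2a.ckG_sound 1214 98 1296 72 (by norm_num) (by norm_num) (by norm_num) (by norm_num) R2a.ckGk_1214)
      (R2a.ckG_sound 1296 102 1385 75 (by norm_num) (by norm_num) (by norm_num) (by norm_num) R2a.ckGk_1296)
      (R2a.ckG_sound 1385 107 1494 75 (by norm_num) (by norm_num) (by norm_num) (by norm_num) R2a.ckGk_1385)
      (R2a.ckG_sound 1494 112 1614 75 (by norm_num) (by norm_num) (by norm_num) (by norm_num) R2a.ckGk_1494)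
      (R2a.ckG_sound 1614 118 1755 79 (by norm_num) (by norm_num) (by norm_num) (by norm_num) R2a.ckGk_1614)
      (R2a.ckG_sound 1755 125 1925 79 (by norm_num) (by norm_num) (by norm_num) (by norm_num) R2a.ckGk_1755)
      (R2a.ckG_sound 1925 133 2127 79 (by norm_num) (by norm_num) (by norm_num) (by norm_num) R2a.ckGk_1925)
      (R2a.ckG_sound 2127 142 2364 83 (by norm_num) (by norm_num) (by norm_num) (by norm_num) R2a.ckGk_2127)
      (R2a.ckG_sound 2364 152 2641 83 (by norm_num) (by norm_num) (by norm_num) (by norm_num) R2a.ckGk_2364)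
      (R2a.ckG_sound 2641 164 2977 89 (by norm_num) (by norm_num) (by norm_num) (by norm_num) R2a.ckGk_2641)
      (R2a.ckG_sound 2977 178 3390 89 (by norm_num) (by norm_num) (by norm_num) (by norm_num) R2a.ckGk_2977)
      (R2a.ckG_sound 3390 194 3890 89 (by norm_num) (by norm_num) (by norm_num) (by norm_num) R2a.ckGk_3390)
      (R2a.ckG_sound 3890 213 4505 96 (by norm_num) (by norm_num) (by norm_num) (by norm_num) R2a.ckGk_3890)
      (R2a.ckG_sound 4505 235 5264 96 (by norm_num) (by norm_num) (by norm_num) (by norm_num) R2a.ckGk_4505)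
      (R2a.ckG_sound 5264 260 6185 96 (by norm_num) (by norm_num) (by norm_num) (by norm_num) R2a.ckGk_5264)
      (R2a.ckG_sound 6185 290 7335 104 (by norm_num) (by norm_num) (by norm_num) (by norm_num) R2a.ckGk_6185)
      (R2a.ckG_sound 7335 325 8772 104 (by norm_num) (by norm_num) (by norm_num) (by norm_num) R2a.ckGk_7335)
      (R2a.ckG_sound 8772 366 10563 116 (by norm_num) (by norm_num) (by norm_num) (by norm_num) R2a.ckGk_8772)
      (R2a.ckG_sound 10563 414 12811 116 (by norm_num) (by norm_num) (by norm_num) (by norm_num) R2a.ckGk_10563)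
      (R2a.ckG_sound 12811 471 15661 116 (by norm_num) (by norm_num) (by norm_num) (by norm_num) R2a.ckGk_12811)
      (R2a.ckG_sound 15661 539 19293 132 (by norm_num) (by norm_num) (by norm_num) (by norm_num) R2a.ckGk_15661)
      (R2a.ckG_sound 19293 619 20000 132 (by norm_num) (by norm_num) (by norm_num) (by norm_num) R2a.ckGk_19293)
      L hL h
  · exact exists_pos_large20 L h

end Pool.Agent.MP_9da1e3_co
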