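import Pool.Agent.Lib.MP_9da1e3_co.V2_R3c
import Pool.Agent.Lib.MP_9da1e3_co.V2_gup

namespace Pool.Agent.MP_9da1e3_co

/-- (R3) no return of the sign while `d ^ (3/2) ≤ 0.42 L` -/
theorem V2_R3 (L m0 d : ℕ) (hL : 1000 ≤ L) (hm0 : 1 ≤ m0)
    (hm : ((m0 : ℝ) + 1) ^ 3 ≤ (0.8 * (L : ℝ)) ^ 2)
    (hneg : ∀ r, 1 ≤ r → r ≤ m0 → bb L r < 0) (hd1 : 1 ≤ d)
    (hd : (d : ℝ) ^ 3 ≤ (0.42 * (L : ℝ)) ^ 2)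
    (hpos : ∀ r, m0 < r → r ≤ m0 + d → 0 ≤ bb L r) : 0 ≤ bb L (m0 + d + 1) :=
  V2_R3_of L m0 d hL hm0 hm hneg hd1 hd hpos
    (fun q hq => gg_succ_le16 L q (by omega) hq)

end Pool.Agent.MP_9da1e3_co
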