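import Pool.Agent.Lib.MP_9da1e3_co.Lf5

/-! The rows R3 (near), R4 (`m ≤ L/2`) and R4t (`m > L/2`) give the row `R34` of `V2_Asm`. -/

namespace Pool.Agent.MP_9da1e3_co

lemma r34_m0_le (L m0 : ℕ) (hL : 1000 ≤ L) (hc : ((m0 : ℝ) + 1) ^ 3 ≤ (0.8 * (L : ℝ)) ^ 2) :
    (m0 : ℝ) + 1 ≤ 0.09 * L := by
  have hL' : (1000 : ℝ) ≤ L := by exact_mod_cast hL
  by_contra h
  push Not at h
  have h1 : (0.09 * (L : ℝ)) ^ 3 < ((m0 : ℝ) + 1) ^ 3 :=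
    pow_lt_pow_left₀ h (by positivity) (by norm_num)
  have h2 : (0.8 * (L : ℝ)) ^ 2 ≤ (0.09 * (L : ℝ)) ^ 3 := by
    have : (0.09 * (L : ℝ)) ^ 3 = (0.000729 * L) * (L : ℝ) ^ 2 := by ring
    rw [this, mul_pow]
    apply mul_le_mul_of_nonneg_right _ (by positivity)
    nlinarith
  linarith

/-- In the range `m > L/2` the distance `d` is at least `0.4 L`. -/
lemma r34_d_ge (L m0 d : ℕ) (hL : 1000 ≤ L) (hc : ((m0 : ℝ) + 1) ^ 3 ≤ (0.8 * (L : ℝ)) ^ 2)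
    (h : L < 2 * (m0 + d)) : 0.41 * (L : ℝ) ≤ d := by
  have h1 := r34_m0_le L m0 hL hc
  have h2 : (L : ℝ) < 2 * ((m0 : ℝ) + d) := by exact_mod_cast h
  linarith

lemma r34_d3_ge (L m0 d : ℕ) (hL : 1000 ≤ L) (hc : ((m0 : ℝ) + 1) ^ 3 ≤ (0.8 * (L : ℝ)) ^ 2)
    (h : L < 2 * (m0 + d)) : (8 * (L : ℝ)) ^ 2 ≤ (d : ℝ) ^ 3 := by
  have hL' : (1000 : ℝ) ≤ L := by exact_mod_cast hL
  have h1 := r34_d_ge L m0 d hL hc h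
  have h2 : (0.41 * (L : ℝ)) ^ 3 ≤ (d : ℝ) ^ 3 := pow_le_pow_left₀ (by positivity) h1 3
  refine le_trans ?_ h2
  have : (0.41 * (L : ℝ)) ^ 3 = (0.068921 * L) * (L : ℝ) ^ 2 := by ring
  rw [this, mul_pow]
  apply mul_le_mul_of_nonneg_right _ (by positivity)
  nlinarith

/-- The row `R34` of `V2_Asm.large_asm` from the three ranges (`c` is the meeting point of R3 and R4,
`x` any number at most `8`, the lower bound asked by the last range). -/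
theorem r34_of (c x : ℝ) (hx0 : 0 ≤ x) (hx : x ≤ 8)
    (R3 : ∀ L m0 d : ℕ, 1000 ≤ L → 1 ≤ m0 → ((m0 : ℝ) + 1) ^ 3 ≤ (0.8 * (L : ℝ)) ^ 2 →
      (∀ r, 1 ≤ r → r ≤ m0 → bb L r < 0) → 1 ≤ d → (d : ℝ) ^ 3 ≤ (c * (L : ℝ)) ^ 2 →
      m0 + d + 1 ≤ L → (∀ r, m0 < r → r ≤ m0 + d → 0 ≤ bb L r) → 0 ≤ bb L (m0 + d + 1))
    (R4a : ∀ L m0 d : ℕ, 1000 ≤ L → 1 ≤ m0 → ((m0 : ℝ) + 1) ^ 3 ≤ (0.8 * (L : ℝ)) ^ 2 →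
      (∀ r, 1 ≤ r → r ≤ m0 → bb L r < 0) → 1 ≤ d → (c * (L : ℝ)) ^ 2 ≤ (d : ℝ) ^ 3 →
      2 * (m0 + d) ≤ L → (∀ r, m0 < r → r ≤ m0 + d → 0 ≤ bb L r) → 0 ≤ bb L (m0 + d + 1))
    (R4b : ∀ L m0 d : ℕ, 1000 ≤ L → 1 ≤ m0 → ((m0 : ℝ) + 1) ^ 3 ≤ (0.8 * (L : ℝ)) ^ 2 →
      (∀ r, 1 ≤ r → r ≤ m0 → bb L r < 0) → 1 ≤ d → (x * (L : ℝ)) ^ 2 ≤ (d : ℝ) ^ 3 →
      L < 2 * (m0 + d) → m0 + d + 1 ≤ L →
      (∀ r, m0 < r → r ≤ m0 + d → 0 ≤ bb L r) → 0 ≤ bb L (m0 + d + 1)) :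
    ∀ L m0 d : ℕ, 1000 ≤ L → 1 ≤ m0 → ((m0 : ℝ) + 1) ^ 3 ≤ (0.8 * (L : ℝ)) ^ 2 →
      (∀ r, 1 ≤ r → r ≤ m0 → bb L r < 0) → 1 ≤ d → m0 + d + 1 ≤ L →
      (∀ r, m0 < r → r ≤ m0 + d → 0 ≤ bb L r) → 0 ≤ bb L (m0 + d + 1) := by
  intro L m0 d hL h1 hc hneg hd hle hpos
  rcases Nat.lt_or_ge L (2 * (m0 + d)) with h | h
  · refine R4b L m0 d hL h1 hc hneg hd ?_ h hle hpos
    refine le_trans ?_ (r34_d3_ge L m0 d hL hc h)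
    apply pow_le_pow_left₀ (by positivity)
    exact mul_le_mul_of_nonneg_right hx (Nat.cast_nonneg _)
  · rcases le_total ((d : ℝ) ^ 3) ((c * (L : ℝ)) ^ 2) with h2 | h2
    · exact R3 L m0 d hL h1 hc hneg hd h2 hle hpos
    · exact R4a L m0 d hL h1 hc hneg hd h2 h hpos

end Pool.Agent.MP_9da1e3_co
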