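import Pool.Agent.Lib.MP_9da1e3_co.V2_FTn
import Pool.Agent.Lib.MP_9da1e3_co.V2_A12

namespace Pool.Agent.MP_9da1e3_co

open Finset

/-- the far zone `0.3 L ≤ d ^ 1.5`, `m ≤ L / 2` -/
theorem r4a_step (L m0 d : ℕ) (hL : 1000 ≤ L) (_h0 : 1 ≤ m0)
    (h1 : ((m0 : ℝ) + 1) ^ 3 ≤ (0.8 * (L : ℝ)) ^ 2)
    (hneg : ∀ r, 1 ≤ r → r ≤ m0 → bb L r < 0) (hd : 1 ≤ d)
    (h2 : (0.3 * (L : ℝ)) ^ 2 ≤ (d : ℝ) ^ 3) (h3 : 2 * (m0 + d) ≤ L)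
    (hpos : ∀ r, m0 < r → r ≤ m0 + d → 0 ≤ bb L r) : 0 ≤ bb L (m0 + d + 1) := by
  have hneg' : ∀ q, q ≤ m0 → bb L q ≤ 0 := by
    intro q hq
    rcases Nat.eq_zero_or_pos q with rfl | h
    · rw [bb_zero]
    · exact (hneg q h hq).le
  refine ft_step L m0 d hd (by omega) ?_ hneg' hpos (ft_num L m0 d hL h1 h2 h3 (rj_r4_le d hd))
  have h := bb_rj L (m0 + d) (by omega) (by omega)
  push_cast at h ⊢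
  linarith

/-- the same from `0.42 L ≤ d ^ 1.5` on -/
theorem r4a_main : ∀ L m0 d : ℕ, 1000 ≤ L → 1 ≤ m0 → ((m0 : ℝ) + 1) ^ 3 ≤ (0.8 * (L : ℝ)) ^ 2 →
    (∀ r, 1 ≤ r → r ≤ m0 → bb L r < 0) → 1 ≤ d → (0.42 * (L : ℝ)) ^ 2 ≤ (d : ℝ) ^ 3 →
    2 * (m0 + d) ≤ L → (∀ r, m0 < r → r ≤ m0 + d → 0 ≤ bb L r) → 0 ≤ bb L (m0 + d + 1) := by
  intro L m0 d hL h0 h1 hneg hd h2 h3 hpos
  refine r4a_step L m0 d hL h0 h1 hneg hd (le_trans ?_ h2) h3 hpos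
  exact pow_le_pow_left₀ (by positivity)
    (mul_le_mul_of_nonneg_right (by norm_num) (Nat.cast_nonneg L)) 2

end Pool.Agent.MP_9da1e3_co
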