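import Pool.Agent.Lib.MP_9da1e3_co.V2_ZB3

/-! The far range `L / 2 < m`, `m ≤ L + 1`: numbers, and the row R4b. -/

namespace Pool.Agent.MP_9da1e3_co

open Finset

lemma zb_m0_le (L m0 : ℕ) (hL : 1000 ≤ L) (hc : ((m0 : ℝ) + 1) ^ 3 ≤ (0.8 * (L : ℝ)) ^ 2) :
    (m0 : ℝ) + 1 ≤ 0.09 * L := by
  have hL' : (1000 : ℝ) ≤ L := by exact_mod_cast hL
  by_contra h
  push Not at h
  have h1 : (0.09 * (L : ℝ)) ^ 3 < ((m0 : ℝ) + 1) ^ 3 :=
    pow_lt_pow_left₀ h (by positivity) (by norm_num)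
  have h2 : (0.8 * (L : ℝ)) ^ 2 ≤ (0.09 * (L : ℝ)) ^ 3 := by
    have : (0.09 * (L : ℝ)) ^ 3 = (0.000729 * L) * (L : ℝ) ^ 2 := by ring
    rw [this, mul_pow]
    apply mul_le_mul_of_nonneg_right _ (by positivity)
    nlinarith
  linarith

/-- the row R4 in the range `L < 2 (m0 + d)`, `m0 + d ≤ L` -/
theorem R4_far (L m0 d : ℕ) (hL : 1000 ≤ L) (hc : ((m0 : ℝ) + 1) ^ 3 ≤ (0.8 * (L : ℝ)) ^ 2)
    (hneg : ∀ r, r ≤ m0 → bb L r ≤ 0) (h2 : L < 2 * (m0 + d)) (hmL : m0 + d ≤ L)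
    (hpos : ∀ r, m0 < r → r ≤ m0 + d → 0 ≤ bb L r) : 0 ≤ bb L (m0 + d + 1) := by
  have hL1 : (1000 : ℝ) ≤ L := by exact_mod_cast hL
  have ha := zb_m0_le L m0 hL hc
  have h2r : (L : ℝ) + 1 ≤ 2 * ((m0 : ℝ) + d) := by exact_mod_cast h2
  have hmr : (m0 : ℝ) + d ≤ L := by exact_mod_cast hmL
  have hdr : (0.41 : ℝ) * L ≤ d := by linarith
  have hd410 : (410 : ℝ) ≤ d := by linarith
  have hd : 410 ≤ d := by exact_mod_cast hd410
  obtain ⟨j, hj⟩ : ∃ j, d = j + 2 := ⟨d - 2, by omega⟩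
  have hjr : (d : ℝ) = (j : ℝ) + 2 := by rw [hj]; push_cast; ring
  refine zb_step L m0 d (by omega) (by omega) hmL hneg hpos 8.35 (zb_Zbound L (m0 + d) hL hmL) ?_
  have hE := E_pos
  have hU := U_pos
  have hU1 := U_le
  have hcast : (L : ℝ) + ((m0 + d + 1 : ℕ) : ℝ) = (L : ℝ) + ((m0 : ℝ) + d + 1) := by push_cast; ring
  rw [hcast]
  set T : ℝ := zT (m0 + d - 1) with hT
  have hT0 : 0 < T := zT_pos _
  set q : ℝ := E * ((L : ℝ) + ((m0 : ℝ) + d + 1)) * rn (L + 1) d with hq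
  have hsj := sq_pos j
  have hssj := sq_sq j
  -- q
  have hq1 : q = ((L : ℝ) + ((m0 : ℝ) + d + 1)) * ww j / d := by
    rw [hq, hj, zb_rn_eq (L + 1) j (by omega), ← hj, ← hjr]
    have : (d : ℝ) ≠ 0 := by linarith
    field_simp
  have hww := zb_ww_le j
  have hww0 := ww_pos j
  have hdp : (0 : ℝ) < d := by linarith
  have hq0 : 0 ≤ q := by
    rw [hq1]
    positivity
  have hsum : (L : ℝ) + ((m0 : ℝ) + d + 1) ≤ 2.001 * L := by linarith
  have hq2 : q ≤ 2.001 * L * U / (d * sq j) := by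
    rw [hq1]
    calc ((L : ℝ) + ((m0 : ℝ) + d + 1)) * ww j / d ≤ (2.001 * L) * (U / sq j) / d := by
          apply div_le_div_of_nonneg_right _ hdp.le
          exact mul_le_mul hsum hww hww0.le (by positivity)
      _ = 2.001 * L * U / (d * sq j) := by field_simp
  -- q times the power
  have hs20 : (20.2 : ℝ) ≤ sq j := by
    unfold sq
    rw [Real.le_sqrt' (by norm_num)]
    norm_num
    linarith
  have hq3 : q ≤ 0.0965 := by
    refine hq2.trans ?_
    rw [div_le_iff₀ (by positivity)]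
    have h5 : 0.41 * L * 20.2 ≤ (d : ℝ) * sq j := mul_le_mul hdr hs20 (by norm_num) hdp.le
    have h6 : L * U ≤ L * 0.3991 := mul_le_mul_of_nonneg_left hU1 (by linarith)
    have e6 : 2.001 * (L : ℝ) * U = 2.001 * (L * U) := by ring
    rw [e6]
    linarith
  have hpw : zth L ^ (d - 1) ≤ 4.4818 := by
    refine (zth_pow_le L (d - 1)).trans (le_trans (Real.exp_le_exp.mpr ?_) zb_exp15)
    have h5 : ((d - 1 : ℕ) : ℝ) ≤ (L : ℝ) + 4 := by
      rw [Nat.cast_sub (by omega)]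
      push_cast
      linarith
    rw [div_mul_eq_mul_div, div_le_iff₀ (by linarith)]
    linarith
  have hpw0 : 0 ≤ zth L ^ (d - 1) := pow_nonneg (by linarith [zth_ge L]) _
  have hq4 : q * zth L ^ (d - 1) ≤ 0.4326 := by
    have := mul_le_mul hq3 hpw hpw0 (by norm_num)
    norm_num at this ⊢
    linarith
  -- the first term
  have hth1 : zth L ^ m0 ≥ 1 := one_le_pow₀ (zth_ge L)
  have h6 : (1 - thL L * zth L) * 8.35 / zth L ^ m0 ≤ 8.3834 / L := by
    have h7 := zb_thL_ge L hL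
    have h8 := zb_thL_le L
    calc (1 - thL L * zth L) * 8.35 / zth L ^ m0 ≤ (1 - thL L * zth L) * 8.35 / 1 := by
          apply div_le_div_of_nonneg_left (by positivity) (by norm_num) hth1
      _ ≤ 1.004 / L * 8.35 := by
          rw [div_one]
          apply mul_le_mul_of_nonneg_right _ (by norm_num)
          linarith
      _ = 8.3834 / L := by ring
  -- lower bound of T
  have hk : 498 ≤ m0 + d - 1 := by omega
  have hTl := zb_zT_low (m0 + d - 1) hk
  have q1 : m0 + d - 1 + 1 = m0 + d := by omega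
  rw [q1, ← hT] at hTl
  have hcast2 : ((m0 + d - 1 : ℕ) : ℝ) + 2 = (m0 : ℝ) + d + 1 := by
    rw [Nat.cast_sub (by omega)]
    push_cast
    ring
  rw [hcast2] at hTl
  have hsm := sq_pos (m0 + d)
  have hssm := sq_sq (m0 + d)
  push_cast at hssm
  set m : ℝ := (m0 : ℝ) + d + 1 with hm
  set s : ℝ := sq (m0 + d) with hs
  have hmp : 0 < m := by linarith
  have hmd : 0.82 * m ≤ d := by linarith
  -- m s ≤ 1.36 d sq j
  have h7 : m * s ≤ 1.36 * (d * sq j) := by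
    have h8 : (m * s) ^ 2 ≤ (1.36 * (d * sq j)) ^ 2 := by
      have e1 : (m * s) ^ 2 = m ^ 3 := by
        have : s * s = m := hssm
        calc (m * s) ^ 2 = m ^ 2 * (s * s) := by ring
          _ = m ^ 3 := by rw [this]; ring
      have e2 : (1.36 * ((d : ℝ) * sq j)) ^ 2 = 1.8496 * ((d : ℝ) ^ 2 * (d - 1)) := by
        have : sq j * sq j = (d : ℝ) - 1 := by rw [hssj, hjr]; ring
        calc (1.36 * ((d : ℝ) * sq j)) ^ 2 = 1.8496 * ((d : ℝ) ^ 2 * (sq j * sq j)) := by ring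
          _ = _ := by rw [this]
      rw [e1, e2]
      have h9 : (0.82 * m) ^ 3 ≤ (d : ℝ) ^ 3 := pow_le_pow_left₀ (by positivity) hmd 3
      have h10 : (d : ℝ) ^ 3 ≤ 1.0025 * ((d : ℝ) ^ 2 * (d - 1)) := by
        have : 0 ≤ (d : ℝ) ^ 2 * (0.0025 * d - 1.0025) := mul_nonneg (by positivity) (by linarith)
        have e3 : (d : ℝ) ^ 2 * (0.0025 * d - 1.0025) =
            1.0025 * ((d : ℝ) ^ 2 * (d - 1)) - (d : ℝ) ^ 3 := by ring
        linarith
      have e4 : (0.82 * m) ^ 3 = 0.551368 * m ^ 3 := by ring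
      have h11 : 0 ≤ m ^ 3 := by positivity
      linarith
    exact le_of_sq_le_sq h8 (by positivity)
  have h8 : q * (8.3834 / L) ≤ 1.5674 * T := by
    have h9 : q * (8.3834 / L) ≤ 16.776 * U / (d * sq j) := by
      calc q * (8.3834 / L) ≤ 2.001 * L * U / (d * sq j) * (8.3834 / L) :=
            mul_le_mul_of_nonneg_right hq2 (by positivity)
        _ = 2.001 * 8.3834 * (U / (d * sq j)) := by field_simp
        _ ≤ 16.776 * (U / (d * sq j)) := mul_le_mul_of_nonneg_right (by norm_num) (by positivity)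
        _ = 16.776 * U / (d * sq j) := by ring
    have h10 : 16.776 * U / (d * sq j) ≤ 1.5674 * (14.74 * U / (m * s)) := by
      rw [div_le_iff₀ (by positivity)]
      have h11 : 1.5674 * (14.74 * U / (m * s)) * (d * sq j) =
          1.5674 * 14.74 * U * ((d * sq j) / (m * s)) := by ring
      rw [h11]
      have h12 : 1 / 1.36 ≤ ((d : ℝ) * sq j) / (m * s) := by
        rw [div_le_div_iff₀ (by norm_num) (by positivity)]
        linarith
      have h13 := mul_le_mul_of_nonneg_left h12 (by positivity : 0 ≤ 1.5674 * 14.74 * U)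
      refine le_trans ?_ h13
      linarith
    have h14 := mul_le_mul_of_nonneg_left hTl (by norm_num : (0 : ℝ) ≤ 1.5674)
    linarith
  -- assemble
  have h9 := mul_le_mul_of_nonneg_left h6 hq0
  have h10 := mul_le_mul_of_nonneg_right hq4 hT0.le
  have e : q * ((1 - thL L * zth L) * 8.35 / zth L ^ m0 + zth L ^ (d - 1) * T) =
      q * ((1 - thL L * zth L) * 8.35 / zth L ^ m0) + (q * zth L ^ (d - 1)) * T := by ring
  rw [e]
  linarith

/-- the form used by the glue -/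
theorem R4b_ok : ∀ L m0 d : ℕ, 1000 ≤ L → 1 ≤ m0 → ((m0 : ℝ) + 1) ^ 3 ≤ (0.8 * (L : ℝ)) ^ 2 →
    (∀ r, 1 ≤ r → r ≤ m0 → bb L r < 0) → 1 ≤ d → ((8 : ℝ) * (L : ℝ)) ^ 2 ≤ (d : ℝ) ^ 3 →
    L < 2 * (m0 + d) → m0 + d + 1 ≤ L →
    (∀ r, m0 < r → r ≤ m0 + d → 0 ≤ bb L r) → 0 ≤ bb L (m0 + d + 1) := by
  intro L m0 d hL _ hc hneg _ _ h2 hmL hpos
  refine R4_far L m0 d hL hc ?_ h2 (by omega) hpos
  intro r hr
  rcases Nat.eq_zero_or_pos r with rfl | h
  · rw [bb_zero]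
  · exact (hneg r h hr).le

end Pool.Agent.MP_9da1e3_co
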