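import Pool.Agent.Lib.MP_9da1e3_co.Lf5
import Pool.Agent.Lib.MP_9da1e3_co.Ct1

/-! `gg L L ≤ 0.42 tn L / L` from the signs of the levels `L ≤ Λ ≤ 1.85 L` at `n = 2 L`. -/

namespace Pool.Agent.MP_9da1e3_co

open Finset

lemma f2_bb_eq_Bn (L r : ℕ) (hr : 1 ≤ r) : bb L r = Bn L (L + r) := by
  obtain ⟨m, rfl⟩ : ∃ m, r = m + 1 := ⟨r - 1, by omega⟩
  rw [bb_succ]
  unfold gg Bn
  have h : L + 1 + m = L + (m + 1) := by omega
  rw [h]

lemma f2_tn_gen (L n : ℕ) (hL : 1000 ≤ L) (c q : ℝ) (hc0 : 0 < c) (hq0 : 0 < q)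
    (hn : q * ((L : ℝ) + 1) ≤ (n : ℝ) + 1) (hcq : c ^ 2 ≤ q ^ 3) : c * tn n ≤ 1.0002 * tn L := by
  have hLr : (1000 : ℝ) ≤ L := by exact_mod_cast hL
  have h1 := tn_le_cA n
  have h2 := le_tn_cA L
  have s1 := sq_pos L
  have s2 := sq_pos n
  have hc := cA_pos
  have hn0 : (0 : ℝ) ≤ n := Nat.cast_nonneg n
  have e1 : sq L ^ 2 = (L : ℝ) + 1 := by
    unfold sq
    rw [Real.sq_sqrt (by positivity)]
  have e2 : sq n ^ 2 = (n : ℝ) + 1 := by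
    unfold sq
    rw [Real.sq_sqrt (by positivity)]
  have h3 : c * (((L : ℝ) + 1) * sq L) ≤ ((n : ℝ) + 1) * sq n := by
    apply (pow_le_pow_iff_left₀ (by positivity) (by positivity) two_ne_zero).mp
    have f1 : (c * (((L : ℝ) + 1) * sq L)) ^ 2 = c ^ 2 * ((L : ℝ) + 1) ^ 3 := by
      rw [mul_pow, mul_pow, e1]
      ring
    have f2 : (((n : ℝ) + 1) * sq n) ^ 2 = ((n : ℝ) + 1) ^ 3 := by
      rw [mul_pow, e2]
      ring
    rw [f1, f2]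
    have f4 : (q * ((L : ℝ) + 1)) ^ 3 ≤ ((n : ℝ) + 1) ^ 3 := by gcongr
    have f5 : (0 : ℝ) ≤ ((L : ℝ) + 1) ^ 3 := by positivity
    calc c ^ 2 * ((L : ℝ) + 1) ^ 3 ≤ q ^ 3 * ((L : ℝ) + 1) ^ 3 := mul_le_mul_of_nonneg_right hcq f5
      _ = (q * ((L : ℝ) + 1)) ^ 3 := by ring
      _ ≤ _ := f4
  have hP : 0 < ((L : ℝ) + 1) * sq L := by positivity
  have hQ : 0 < ((n : ℝ) + 1) * sq n := by positivity
  have h4 : c * tn n ≤ cA / (((L : ℝ) + 1) * sq L) := by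
    have h5 := mul_le_mul_of_nonneg_left h1 hc0.le
    refine h5.trans ?_
    rw [← mul_div_assoc, div_le_div_iff₀ hQ hP]
    calc c * cA * (((L : ℝ) + 1) * sq L) = cA * (c * (((L : ℝ) + 1) * sq L)) := by ring
      _ ≤ cA * (((n : ℝ) + 1) * sq n) := mul_le_mul_of_nonneg_left h3 hc.le
  have h5 : (1 : ℝ) / (12 * ((L : ℝ) + 1)) ≤ 0.0001 := by
    rw [div_le_iff₀ (by positivity)]
    linarith
  have h6 : cA * 0.9999 / (((L : ℝ) + 1) * sq L) ≤ tn L := by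
    refine le_trans ?_ h2
    apply div_le_div_of_nonneg_right _ hP.le
    exact mul_le_mul_of_nonneg_left (by linarith) hc.le
  have h7 : cA / (((L : ℝ) + 1) * sq L) ≤ 1.0002 * (cA * 0.9999 / (((L : ℝ) + 1) * sq L)) := by
    have e : 1.0002 * (cA * 0.9999 / (((L : ℝ) + 1) * sq L)) - cA / (((L : ℝ) + 1) * sq L) =
        (1.0002 * 0.9999 - 1) * (cA / (((L : ℝ) + 1) * sq L)) := by
      field_simp
    have h8 : 0 ≤ (1.0002 * 0.9999 - 1 : ℝ) * (cA / (((L : ℝ) + 1) * sq L)) :=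
      mul_nonneg (by norm_num) (by positivity)
    linarith
  linarith

lemma f2_tn_two (L : ℕ) (hL : 1000 ≤ L) : tn (2 * L) ≤ 0.3542 * tn L := by
  have hLr : (1000 : ℝ) ≤ L := by exact_mod_cast hL
  have h := f2_tn_gen L (2 * L) hL 2.8247 1.999 (by norm_num) (by norm_num)
    (by push_cast; linarith) (by norm_num)
  have t := tn_pos L
  have t2 := tn_pos (2 * L)
  nlinarith

lemma f2_tn_M (L M : ℕ) (hL : 1000 ≤ L) (hM : L ≤ M + 24) : tn (L + M) ≤ 0.3608 * tn L := by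
  have hLr : (1000 : ℝ) ≤ L := by exact_mod_cast hL
  have hMr : (L : ℝ) ≤ M + 24 := by exact_mod_cast hM
  have h := f2_tn_gen L (L + M) hL 2.7739 1.975 (by norm_num) (by norm_num)
    (by push_cast; linarith) (by norm_num)
  have t := tn_pos L
  have t2 := tn_pos (L + M)
  nlinarith

lemma f2_sum (L n : ℕ) : ∀ K : ℕ, ∑ i ∈ range K, An (L + i) n = Fn (L + K) n - Fn L n := by
  intro K
  induction K with
  | zero => simp
  | succ K ih =>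
    rw [Finset.sum_range_succ, ih]
    unfold An
    have e : L + (K + 1) = L + K + 1 := by omega
    rw [e]
    ring

/-- the bound of `gg L L` from the signs of the levels `Λ` at `n = 2 L` -/
theorem f2_gg_le_Bn (L : ℕ) (hL : 1000 ≤ L)
    (hB : ∀ Λ : ℕ, L ≤ Λ → 100 * Λ ≤ 185 * L → 0 ≤ Bn Λ (2 * L)) :
    gg L L ≤ 0.42 * (tn L / L) := by
  have hLr : (1000 : ℝ) ≤ L := by exact_mod_cast hL
  have hL0 : (0 : ℝ) < L := by linarith
  obtain ⟨K, hK⟩ : ∃ K : ℕ, K = 85 * L / 100 + 1 := ⟨_, rfl⟩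
  have hmono : ∀ i : ℕ, i < K → gg L L ≤ An (L + i) (2 * L) := by
    intro i
    induction i with
    | zero =>
      intro _
      unfold gg
      have e : L + L = 2 * L := by ring
      rw [e, add_zero]
    | succ i ih =>
      intro hi
      have h1 := ih (by omega)
      have h2 := hB (L + i) (by omega) (by omega)
      unfold Bn at h2
      have e : L + (i + 1) = L + i + 1 := by omega
      rw [e]
      linarith
  have h1 : (K : ℝ) * gg L L ≤ ∑ i ∈ range K, An (L + i) (2 * L) := by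
    have h2 : ∑ i ∈ range K, gg L L ≤ ∑ i ∈ range K, An (L + i) (2 * L) :=
      Finset.sum_le_sum fun i hi => hmono i (mem_range.mp hi)
    rw [Finset.sum_const, card_range, nsmul_eq_mul] at h2
    exact h2
  rw [f2_sum] at h1
  have h3 := Fn_le_tn (L + K) (2 * L)
  have h4 := Fn_nonneg L (2 * L)
  have h5 := f2_tn_two L hL
  have hg := gg_nonneg L L
  have hKr : 0.85 * (L : ℝ) ≤ K := by
    have h6 : 85 * L ≤ 100 * K := by omega
    have h7 : (85 : ℝ) * L ≤ 100 * K := by exact_mod_cast h6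
    linarith
  have h8 : 0.85 * (L : ℝ) * gg L L ≤ 0.3542 * tn L := by
    have := mul_le_mul_of_nonneg_right hKr hg
    linarith
  have t := tn_pos L
  rw [← mul_div_assoc, le_div_iff₀ hL0]
  nlinarith

/-- the same with `bb` -/
theorem f2_gg_le (L : ℕ) (hL : 1000 ≤ L)
    (hB : ∀ Λ r : ℕ, L ≤ Λ → 100 * Λ ≤ 185 * L → Λ + r = 2 * L → 0 ≤ bb Λ r) :
    gg L L ≤ 0.42 * (tn L / L) := by
  apply f2_gg_le_Bn L hL
  intro Λ h1 h2
  have h3 := hB Λ (2 * L - Λ) h1 h2 (by omega)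
  rw [f2_bb_eq_Bn Λ (2 * L - Λ) (by omega)] at h3
  have e : Λ + (2 * L - Λ) = 2 * L := by omega
  rw [e] at h3
  exact h3

/-- positivity after `(0.8 L)^(2/3)` from the rows R2 and R34 of one level -/
theorem f2_pos (L : ℕ) (hL : 1 ≤ L)
    (R2 : ∃ y : ℕ, 1 ≤ y ∧ (y : ℝ) ^ 3 ≤ (0.8 * (L : ℝ)) ^ 2 ∧ 0 ≤ bb L y)
    (hone : bb L 1 < 0)
    (R34 : ∀ m0 d : ℕ, 1 ≤ m0 → ((m0 : ℝ) + 1) ^ 3 ≤ (0.8 * (L : ℝ)) ^ 2 →
      (∀ r, 1 ≤ r → r ≤ m0 → bb L r < 0) → 1 ≤ d → m0 + d + 1 ≤ L →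
      (∀ r, m0 < r → r ≤ m0 + d → 0 ≤ bb L r) → 0 ≤ bb L (m0 + d + 1)) :
    ∀ r : ℕ, (0.8 * (L : ℝ)) ^ 2 ≤ (r : ℝ) ^ 3 → r ≤ L → 0 ≤ bb L r := by
  classical
  obtain ⟨y, hy1, hy2, hy3⟩ := R2
  have hex : ∃ y, 1 ≤ y ∧ 0 ≤ bb L y := ⟨y, hy1, hy3⟩
  obtain ⟨ys, hys⟩ : ∃ ys, ys = Nat.find hex := ⟨_, rfl⟩
  have hspec := Nat.find_spec hex
  rw [← hys] at hspec
  have hmin : ∀ r, 1 ≤ r → r < ys → bb L r < 0 := by
    intro r hr hr2
    rw [hys] at hr2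
    have h2 := Nat.find_min hex hr2
    by_contra hc
    push Not at hc
    exact h2 ⟨hr, hc⟩
  have hle : ys ≤ y := by
    rw [hys]
    exact Nat.find_min' hex ⟨hy1, hy3⟩
  have hys2 : 2 ≤ ys := by
    rcases Nat.lt_or_ge ys 2 with h | h
    · have : ys = 1 := by omega
      rw [this] at hspec
      linarith [hspec.2]
    · exact h
  obtain ⟨m0, rfl⟩ : ∃ m0, ys = m0 + 1 := ⟨ys - 1, by omega⟩
  have hle' : ((m0 : ℝ) + 1) ≤ y := by exact_mod_cast hle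
  have hcube : ((m0 : ℝ) + 1) ^ 3 ≤ (0.8 * (L : ℝ)) ^ 2 :=
    (pow_le_pow_left₀ (by positivity) hle' 3).trans hy2
  have hpos : ∀ k r : ℕ, r = m0 + 1 + k → r ≤ L → 0 ≤ bb L r := by
    intro k
    induction k using Nat.strong_induction_on with
    | _ k ih =>
      intro r hr hrL
      rcases Nat.eq_zero_or_pos k with hk | hk
      · subst hk
        rw [hr]
        exact hspec.2
      · have h := R34 m0 k (by omega) hcube (fun r h1 h2 => hmin r h1 (by omega)) hk (by omega)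
          (fun q hq1 hq2 => ih (q - (m0 + 1)) (by omega) q (by omega) (by omega))
        have e : m0 + k + 1 = r := by omega
        rw [e] at h
        exact h
  intro r hr hrL
  have h1 : m0 + 1 ≤ r := by
    by_contra hc
    push Not at hc
    have h2 : (r : ℝ) < (m0 : ℝ) + 1 := by exact_mod_cast hc
    have h3 : (r : ℝ) ^ 3 < ((m0 : ℝ) + 1) ^ 3 := pow_lt_pow_left₀ h2 (Nat.cast_nonneg _) (by norm_num)
    linarith
  exact hpos (r - (m0 + 1)) r (by omega) hrL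

/-- `gg L L ≤ 0.42 tn L / L` from the rows R2 and R34 of all levels `≥ 1000` -/
theorem f2_of_rows
    (hone : ∀ L : ℕ, 1 ≤ L → bb L 1 < 0)
    (R2 : ∀ L : ℕ, 1000 ≤ L → ∃ y : ℕ, 1 ≤ y ∧ (y : ℝ) ^ 3 ≤ (0.8 * (L : ℝ)) ^ 2 ∧ 0 ≤ bb L y)
    (R34 : ∀ L m0 d : ℕ, 1000 ≤ L → 1 ≤ m0 → ((m0 : ℝ) + 1) ^ 3 ≤ (0.8 * (L : ℝ)) ^ 2 →
      (∀ r, 1 ≤ r → r ≤ m0 → bb L r < 0) → 1 ≤ d → m0 + d + 1 ≤ L →
      (∀ r, m0 < r → r ≤ m0 + d → 0 ≤ bb L r) → 0 ≤ bb L (m0 + d + 1))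
    (L : ℕ) (hL : 1000 ≤ L) : gg L L ≤ 0.42 * (tn L / L) := by
  apply f2_gg_le L hL
  intro Λ r h1 h2 h3
  have hΛ : 1000 ≤ Λ := by omega
  apply f2_pos Λ (by omega) (R2 Λ hΛ) (hone Λ (by omega)) (fun m0 d => R34 Λ m0 d hΛ) r _ (by omega)
  have hLr : (1000 : ℝ) ≤ L := by exact_mod_cast hL
  have h4 : (15 : ℝ) * L ≤ 100 * r := by
    have : 15 * L ≤ 100 * r := by omega
    exact_mod_cast this
  have h5 : (100 : ℝ) * Λ ≤ 185 * L := by exact_mod_cast h2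
  have h6 : 0.15 * (L : ℝ) ≤ r := by linarith
  have h7 : (0.15 * (L : ℝ)) ^ 3 ≤ (r : ℝ) ^ 3 := by gcongr
  have h8 : (0.8 * (Λ : ℝ)) ^ 2 ≤ (1.48 * L) ^ 2 := by
    have : 0.8 * (Λ : ℝ) ≤ 1.48 * L := by linarith
    gcongr
  have h9 : (1.48 * (L : ℝ)) ^ 2 ≤ (0.15 * (L : ℝ)) ^ 3 := by
    have h10 : (0 : ℝ) ≤ (L : ℝ) ^ 2 := by positivity
    have e : (0.15 * (L : ℝ)) ^ 3 - (1.48 * (L : ℝ)) ^ 2 = (0.003375 * L - 2.1904) * (L : ℝ) ^ 2 := by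
      ring
    have h11 : 0 ≤ (0.003375 * (L : ℝ) - 2.1904) * (L : ℝ) ^ 2 := mul_nonneg (by linarith) h10
    linarith
  linarith

/-- the bound of `gg L M`, `L - 24 ≤ M ≤ L`, from the signs of the levels `Λ` at `n = L + M` -/
theorem f2_gg_le_MB (L M : ℕ) (hL : 1000 ≤ L) (hM : L ≤ M + 24)
    (hB : ∀ Λ : ℕ, L ≤ Λ → 100 * Λ ≤ 184 * L → 0 ≤ Bn Λ (L + M)) :
    gg L M ≤ 0.43 * (tn L / L) := by
  have hLr : (1000 : ℝ) ≤ L := by exact_mod_cast hL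
  have hL0 : (0 : ℝ) < L := by linarith
  obtain ⟨K, hK⟩ : ∃ K : ℕ, K = 84 * L / 100 + 1 := ⟨_, rfl⟩
  have hmono : ∀ i : ℕ, i < K → gg L M ≤ An (L + i) (L + M) := by
    intro i
    induction i with
    | zero =>
      intro _
      unfold gg
      rw [add_zero]
    | succ i ih =>
      intro hi
      have h1 := ih (by omega)
      have h2 := hB (L + i) (by omega) (by omega)
      unfold Bn at h2
      have e : L + (i + 1) = L + i + 1 := by omega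
      rw [e]
      linarith
  have h1 : (K : ℝ) * gg L M ≤ ∑ i ∈ range K, An (L + i) (L + M) := by
    have h2 : ∑ i ∈ range K, gg L M ≤ ∑ i ∈ range K, An (L + i) (L + M) :=
      Finset.sum_le_sum fun i hi => hmono i (mem_range.mp hi)
    rw [Finset.sum_const, card_range, nsmul_eq_mul] at h2
    exact h2
  rw [f2_sum] at h1
  have h3 := Fn_le_tn (L + K) (L + M)
  have h4 := Fn_nonneg L (L + M)
  have h5 := f2_tn_M L M hL hM
  have hg := gg_nonneg L M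
  have hKr : 0.84 * (L : ℝ) ≤ K := by
    have h6 : 84 * L ≤ 100 * K := by omega
    have h7 : (84 : ℝ) * L ≤ 100 * K := by exact_mod_cast h6
    linarith
  have h8 : 0.84 * (L : ℝ) * gg L M ≤ 0.3608 * tn L := by
    have := mul_le_mul_of_nonneg_right hKr hg
    linarith
  have t := tn_pos L
  rw [← mul_div_assoc, le_div_iff₀ hL0]
  nlinarith

/-- `gg L M ≤ 0.43 tn L / L` for `L - 24 ≤ M ≤ L`, from the rows R2 and R34 of all levels `≥ 1000` -/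
theorem f2_gg_le_M
    (hone : ∀ L : ℕ, 1 ≤ L → bb L 1 < 0)
    (R2 : ∀ L : ℕ, 1000 ≤ L → ∃ y : ℕ, 1 ≤ y ∧ (y : ℝ) ^ 3 ≤ (0.8 * (L : ℝ)) ^ 2 ∧ 0 ≤ bb L y)
    (R34 : ∀ L m0 d : ℕ, 1000 ≤ L → 1 ≤ m0 → ((m0 : ℝ) + 1) ^ 3 ≤ (0.8 * (L : ℝ)) ^ 2 →
      (∀ r, 1 ≤ r → r ≤ m0 → bb L r < 0) → 1 ≤ d → m0 + d + 1 ≤ L →
      (∀ r, m0 < r → r ≤ m0 + d → 0 ≤ bb L r) → 0 ≤ bb L (m0 + d + 1))
    (L M : ℕ) (hL : 1000 ≤ L) (hM1 : M ≤ L) (hM : L ≤ M + 24) : gg L M ≤ 0.43 * (tn L / L) := by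
  apply f2_gg_le_MB L M hL hM
  intro Λ h1 h2
  have hΛ : 1000 ≤ Λ := by omega
  obtain ⟨r, hr⟩ : ∃ r, L + M = Λ + r := ⟨L + M - Λ, by omega⟩
  rw [hr, ← f2_bb_eq_Bn Λ r (by omega)]
  apply f2_pos Λ (by omega) (R2 Λ hΛ) (hone Λ (by omega)) (fun m0 d => R34 Λ m0 d hΛ) r _ (by omega)
  have hLr : (1000 : ℝ) ≤ L := by exact_mod_cast hL
  have h4 : (16 : ℝ) * L ≤ 100 * r + 2400 := by
    have : 16 * L ≤ 100 * r + 2400 := by omega
    exact_mod_cast this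
  have h5 : (100 : ℝ) * Λ ≤ 184 * L := by exact_mod_cast h2
  have h6 : 0.136 * (L : ℝ) ≤ r := by linarith
  have h7 : (0.136 * (L : ℝ)) ^ 3 ≤ (r : ℝ) ^ 3 := by gcongr
  have h8 : (0.8 * (Λ : ℝ)) ^ 2 ≤ (1.472 * L) ^ 2 := by
    have : 0.8 * (Λ : ℝ) ≤ 1.472 * L := by linarith
    gcongr
  have h9 : (1.472 * (L : ℝ)) ^ 2 ≤ (0.136 * (L : ℝ)) ^ 3 := by
    have h10 : (0 : ℝ) ≤ (L : ℝ) ^ 2 := by positivity
    have e : (0.136 * (L : ℝ)) ^ 3 - (1.472 * (L : ℝ)) ^ 2 =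
        (0.136 ^ 3 * L - 1.472 ^ 2) * (L : ℝ) ^ 2 := by ring
    have h11 : 0 ≤ (0.136 ^ 3 * (L : ℝ) - 1.472 ^ 2) * (L : ℝ) ^ 2 :=
      mul_nonneg (by nlinarith) h10
    linarith
  linarith

end Pool.Agent.MP_9da1e3_co
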