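import Pool.Agent.Lib.MP_9da1e3_co.V2_Fin
import Pool.Agent.Lib.MP_9da1e3_co.V2_R34
import Pool.Agent.Lib.MP_9da1e3_co.V2_R3
import Pool.Agent.Lib.MP_9da1e3_co.V2_R4a
import Pool.Agent.Lib.MP_9da1e3_co.V2_ZB4
import Pool.Agent.Lib.MP_9da1e3_co.V2_R2
import Pool.Agent.Lib.MP_9da1e3_co.P2f
import Pool.Agent.Lib.MP_9da1e3_co.V2_f2

/-! Rows R1, R2, R3, R4 put together; what is left is row R5. -/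

namespace Pool.Agent.MP_9da1e3_co

theorem pre_R1 : ∀ L M : ℕ, 1000 ≤ L → (M : ℝ) ^ 3 ≤ (0.8 * (L : ℝ)) ^ 2 →
    (∀ r, 1 ≤ r → r ≤ M → bb L r < 0) → ∀ r, 2 ≤ r → r ≤ M → bb (L + 1) (r - 1) ≤ bb L r :=
  fun L M hL hM hn => P2.r1_weak L M (by omega) hM hn

theorem pre_R34 : ∀ L m0 d : ℕ, 1000 ≤ L → 1 ≤ m0 → ((m0 : ℝ) + 1) ^ 3 ≤ (0.8 * (L : ℝ)) ^ 2 →
    (∀ r, 1 ≤ r → r ≤ m0 → bb L r < 0) → 1 ≤ d → m0 + d + 1 ≤ L →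
    (∀ r, m0 < r → r ≤ m0 + d → 0 ≤ bb L r) → 0 ≤ bb L (m0 + d + 1) :=
  r34_of 0.42 8 (by norm_num) (by norm_num)
    (fun L m0 d hL h1 hc hneg hd h2 _ hpos => V2_R3 L m0 d hL h1 hc hneg hd h2 hpos)
    r4a_main R4b_ok

theorem pre_f2 : ∀ L M : ℕ, 1000 ≤ L → M ≤ L → L ≤ M + 24 → gg L M ≤ 0.43 * (tn L / L) :=
  fun L M hL hM hLM => f2_gg_le_M (fun L hL => bb_one_neg L hL) exists_pos pre_R34 L M hL hM hLM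

/-- Everything except row R5. -/
theorem pre_final
    (R5 : ∀ L m0 : ℕ, 1000 ≤ L → 1 ≤ m0 → ((m0 : ℝ) + 1) ^ 3 ≤ (0.8 * (L : ℝ)) ^ 2 →
      (∀ r, 1 ≤ r → r ≤ m0 → bb L r < 0) → (∀ r, m0 < r → r ≤ L → 0 ≤ bb L r) →
      ∀ n, L + m0 < n → 0 ≤ Bn L n) :
    ∀ n : ℕ, 1 ≤ n → ∃ m : ℕ, m < n ∧ (∀ l, l < m → a n l ≤ a n (l + 1)) ∧
      (∀ l, m ≤ l → l < n → a n (l + 1) < a n l) :=
  fin_of pre_R1 exists_pos pre_R34 R5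

end Pool.Agent.MP_9da1e3_co
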