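import Pool.Agent.Lib.MP_9da1e3_co.KV5
import Pool.Agent.Lib.MP_9da1e3_co.R2S

namespace Pool.Agent.MP_9da1e3_co

open Finset

/-! Rational upper bounds for `epsM`. -/

lemma r2_ww_ge_a {M n : ℕ} (a : ℝ) (ha : 0 ≤ a) (h : a ^ 2 * (6.2832 * M) ≤ 1) (hn : n + 2 ≤ M) :
    a ≤ ww n := by
  have h1 := be_le_ww n
  have h2 := be_ge (n + 1)
  have hpi := Real.pi_pos
  have hpi2 : Real.pi < 3.1416 := by
    have := Real.pi_lt_d6
    linarith
  have hs2 : (0 : ℝ) < √2 := Real.sqrt_pos.mpr (by norm_num)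
  have hs : 0 < √(Real.pi * (((n + 1 : ℕ) : ℝ) + 1 / 2)) := Real.sqrt_pos.mpr (by positivity)
  have hMn : ((n : ℝ) + 2) ≤ M := by exact_mod_cast hn
  have h3 : a * √2 ≤ 1 / √(Real.pi * (((n + 1 : ℕ) : ℝ) + 1 / 2)) := by
    rw [le_div_iff₀ hs]
    have e : (a * √2 * √(Real.pi * (((n + 1 : ℕ) : ℝ) + 1 / 2))) ^ 2
        = a ^ 2 * (2 * (Real.pi * (((n + 1 : ℕ) : ℝ) + 1 / 2))) := by
      rw [mul_pow, mul_pow, Real.sq_sqrt (by norm_num), Real.sq_sqrt (by positivity)]
      ring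
    have h4 : a ^ 2 * (2 * (Real.pi * (((n + 1 : ℕ) : ℝ) + 1 / 2))) ≤ 1 := by
      refine le_trans ?_ h
      apply mul_le_mul_of_nonneg_left _ (by positivity)
      push_cast
      nlinarith
    have h5 : 0 ≤ a * √2 * √(Real.pi * (((n + 1 : ℕ) : ℝ) + 1 / 2)) := by positivity
    nlinarith
  have h6 : a * √2 ≤ be (n + 1) := h3.trans h2
  have h7 : a ≤ be (n + 1) / √2 := by rw [le_div_iff₀ hs2]; exact h6
  exact h7.trans h1

lemma r2_ww_le_rat (k : ℕ) : ww k ≤ ((k : ℝ) + 1) ^ k / (k.factorial : ℝ) / 2.7182818 ^ (k + 1) := by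
  have hE : (2.7182818 : ℝ) ≤ E := by
    have h := Real.exp_one_gt_d9
    have e : E = Real.exp 1 := rfl
    rw [e]
    linarith
  unfold ww cc
  have hf : (0 : ℝ) < (k.factorial : ℝ) := by exact_mod_cast Nat.factorial_pos k
  apply div_le_div_of_nonneg_left (by positivity) (by positivity)
  exact pow_le_pow_left₀ (by norm_num) hE _

theorem epsM_le_rat {M : ℕ} (a : ℝ) (r0 : ℕ) (ha : 0 ≤ a) (h : a ^ 2 * (6.2832 * M) ≤ 1)
    (h0 : 1 / 2 ≤ (r0 : ℝ) * a) (h1 : ((r0 : ℝ) - 1) * a ≤ 1 / 2) :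
    epsM M ≤ ∑ k ∈ range r0, (1 / 2 - (k : ℝ) * a)
      * (((k : ℝ) + 1) ^ k / (k.factorial : ℝ) / 2.7182818 ^ (k + 1)) := by
  unfold epsM
  have key : ∀ r ∈ range (M - 1), max 0 (-kap (M - 1) (r + 1)) * ww r
      ≤ if r < r0 then (1 / 2 - (r : ℝ) * a) * ww r else 0 := by
    intro r hr
    have hr' := mem_range.mp hr
    have hw := ww_pos r
    have hk := neg_kap_le (M - 1) r
    have hr0 : (0 : ℝ) ≤ r := Nat.cast_nonneg r
    have hwa : a ≤ ww (M - 1 - (r + 1)) := r2_ww_ge_a (M := M) a ha h (by omega)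
    have hm : (r : ℝ) * a ≤ (r : ℝ) * ww (M - 1 - (r + 1)) := mul_le_mul_of_nonneg_left hwa hr0
    split_ifs with hlt
    · have hr1 : (r : ℝ) ≤ (r0 : ℝ) - 1 := by
        have : r + 1 ≤ r0 := hlt
        have h' : ((r : ℝ) + 1) ≤ r0 := by exact_mod_cast this
        linarith
      have hpos : 0 ≤ 1 / 2 - (r : ℝ) * a := by
        have := mul_le_mul_of_nonneg_right hr1 ha
        linarith
      apply mul_le_mul_of_nonneg_right _ hw.le
      apply max_le hpos
      linarith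
    · have hge : (r0 : ℝ) ≤ r := by exact_mod_cast (by omega : r0 ≤ r)
      have h4 : 1 / 2 ≤ (r : ℝ) * a := h0.trans (mul_le_mul_of_nonneg_right hge ha)
      have : max 0 (-kap (M - 1) (r + 1)) = 0 := by
        apply max_eq_left
        linarith
      rw [this, zero_mul]
  refine (Finset.sum_le_sum key).trans ?_
  rw [← Finset.sum_filter]
  have hsub : (range (M - 1)).filter (fun r => r < r0) ⊆ range r0 := by
    intro r hr
    exact mem_range.mpr (mem_filter.mp hr).2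
  have hnn : ∀ k ∈ range r0, 0 ≤ 1 / 2 - (k : ℝ) * a := by
    intro k hk
    have hk' : k + 1 ≤ r0 := mem_range.mp hk
    have h' : ((k : ℝ) + 1) ≤ r0 := by exact_mod_cast hk'
    have hr1 : (k : ℝ) ≤ (r0 : ℝ) - 1 := by linarith
    have := mul_le_mul_of_nonneg_right hr1 ha
    linarith
  refine (Finset.sum_le_sum_of_subset_of_nonneg hsub ?_).trans ?_
  · intro k hk _
    exact mul_nonneg (hnn k hk) (ww_pos k).le
  · apply Finset.sum_le_sum
    intro k hk
    exact mul_le_mul_of_nonneg_left (r2_ww_le_rat k) (hnn k hk)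

lemma r2_a_mono {M M0 : ℕ} {a : ℝ} (hM : M ≤ M0) (h : a ^ 2 * (6.2832 * M0) ≤ 1) :
    a ^ 2 * (6.2832 * M) ≤ 1 := by
  refine le_trans ?_ h
  have : (M : ℝ) ≤ M0 := by exact_mod_cast hM
  have : (6.2832 : ℝ) * M ≤ 6.2832 * M0 := by linarith
  exact mul_le_mul_of_nonneg_left this (by positivity)

set_option maxRecDepth 10000 in
lemma epsM_90 {M : ℕ} (hM : M ≤ 90) : epsM M ≤ 70 / 100 := by
  refine (epsM_le_rat 0.042052 12 (by norm_num) (r2_a_mono hM (by norm_num)) (by norm_num) (by norm_num)).trans ?_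
  norm_num [Finset.sum_range_succ, Nat.factorial]

lemma epsM_100 {M : ℕ} (hM : M ≤ 100) : epsM M ≤ 72 / 100 := by
  refine (epsM_le_rat 0.039894 13 (by norm_num) (r2_a_mono hM (by norm_num)) (by norm_num) (by norm_num)).trans ?_
  norm_num [Finset.sum_range_succ, Nat.factorial]

lemma epsM_115 {M : ℕ} (hM : M ≤ 115) : epsM M ≤ 75 / 100 := by
  refine (epsM_le_rat 0.037201 14 (by norm_num) (r2_a_mono hM (by norm_num)) (by norm_num) (by norm_num)).trans ?_
  norm_num [Finset.sum_range_succ, Nat.factorial]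

lemma epsM_135 {M : ℕ} (hM : M ≤ 135) : epsM M ≤ 79 / 100 := by
  refine (epsM_le_rat 0.034335 15 (by norm_num) (r2_a_mono hM (by norm_num)) (by norm_num) (by norm_num)).trans ?_
  norm_num [Finset.sum_range_succ, Nat.factorial]

lemma epsM_160 {M : ℕ} (hM : M ≤ 160) : epsM M ≤ 83 / 100 := by
  refine (epsM_le_rat 0.031539 16 (by norm_num) (r2_a_mono hM (by norm_num)) (by norm_num) (by norm_num)).trans ?_
  norm_num [Finset.sum_range_succ, Nat.factorial]

lemma epsM_200 {M : ℕ} (hM : M ≤ 200) : epsM M ≤ 89 / 100 := by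
  refine (epsM_le_rat 0.028209 18 (by norm_num) (r2_a_mono hM (by norm_num)) (by norm_num) (by norm_num)).trans ?_
  norm_num [Finset.sum_range_succ, Nat.factorial]

lemma epsM_260 {M : ℕ} (hM : M ≤ 260) : epsM M ≤ 96 / 100 := by
  refine (epsM_le_rat 0.024741 21 (by norm_num) (r2_a_mono hM (by norm_num)) (by norm_num) (by norm_num)).trans ?_
  norm_num [Finset.sum_range_succ, Nat.factorial]

lemma epsM_350 {M : ℕ} (hM : M ≤ 350) : epsM M ≤ 104 / 100 := by
  refine (epsM_le_rat 0.021324 24 (by norm_num) (r2_a_mono hM (by norm_num)) (by norm_num) (by norm_num)).trans ?_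
  norm_num [Finset.sum_range_succ, Nat.factorial]

lemma epsM_500 {M : ℕ} (hM : M ≤ 500) : epsM M ≤ 116 / 100 := by
  refine (epsM_le_rat 0.017841 29 (by norm_num) (r2_a_mono hM (by norm_num)) (by norm_num) (by norm_num)).trans ?_
  norm_num [Finset.sum_range_succ, Nat.factorial]

lemma epsM_720 {M : ℕ} (hM : M ≤ 720) : epsM M ≤ 132 / 100 := by
  refine (epsM_le_rat 0.014867 34 (by norm_num) (r2_a_mono hM (by norm_num)) (by norm_num) (by norm_num)).trans ?_
  norm_num [Finset.sum_range_succ, Nat.factorial]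

lemma epsM_1200 {M : ℕ} (hM : M ≤ 1200) : epsM M ≤ 149 / 100 := by
  refine (epsM_le_rat 0.011516 44 (by norm_num) (r2_a_mono hM (by norm_num)) (by norm_num) (by norm_num)).trans ?_
  norm_num [Finset.sum_range_succ, Nat.factorial]

end Pool.Agent.MP_9da1e3_co
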