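import Pool.Agent.Lib.MP_9da1e3_co.KV5
import Pool.Agent.Lib.MP_9da1e3_co.NR2

namespace Pool.Agent.MP_9da1e3_co

open Finset

/-! One numerical checkpoint at `Lk` gives a nonnegative `bb L y`, `y ^ 3 ≤ (0.8 L) ^ 2`, for a whole
range of `L`. -/

/-- the normalised window values, nondecreasing in `L` -/
noncomputable def r2gam (L i : ℕ) : ℝ := ((L : ℝ) + 1) * gg L i / tn L

lemma r2gam_nonneg (L i : ℕ) : 0 ≤ r2gam L i := by
  unfold r2gam
  exact div_nonneg (mul_nonneg (by positivity) (gg_nonneg L i)) (tn_pos L).le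

lemma r2gam_succ (L i : ℕ) (hi : i ≤ L) : r2gam L i ≤ r2gam (L + 1) i := by
  have h := gg_succ_ge L i hi
  have h1 := tn_pos L
  have h2 := tn_pos (L + 1)
  unfold thL at h
  unfold r2gam
  rw [div_le_div_iff₀ h1 h2]
  push_cast
  have hL2 : (0 : ℝ) < (L : ℝ) + 2 := by positivity
  have h3 : tn (L + 1) * ((L : ℝ) + 1) * gg L i ≤ gg (L + 1) i * (tn L * ((L : ℝ) + 2)) := by
    have e : tn (L + 1) / tn L * (((L : ℝ) + 1) / ((L : ℝ) + 2)) * gg L i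
        = tn (L + 1) * ((L : ℝ) + 1) * gg L i / (tn L * ((L : ℝ) + 2)) := by
      field_simp
    rw [e, div_le_iff₀ (by positivity)] at h
    exact h
  nlinarith

lemma r2gam_mono {Lk i : ℕ} (hi : i ≤ Lk) : ∀ d, r2gam Lk i ≤ r2gam (Lk + d) i := by
  intro d
  induction d with
  | zero => exact le_rfl
  | succ d ih => exact ih.trans (r2gam_succ (Lk + d) i (by omega))

lemma r2_tn_succ_ge15 (L : ℕ) : tn L * (1 - 1.5 / ((L : ℝ) + 1)) ≤ tn (L + 1) := by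
  have h := tn_succ_qk L
  have h1 := le_qk (L + 1) (by omega)
  have h2 := tn_pos L
  have hL : (0 : ℝ) ≤ (L : ℝ) := Nat.cast_nonneg L
  rw [h]
  apply mul_le_mul_of_nonneg_left _ h2.le
  push_cast at h1
  have h3 : (1 - 1 / (2 * ((L : ℝ) + 1))) * (((L : ℝ) + 1) / ((L : ℝ) + 2))
      ≤ qk (L + 1) * (((L : ℝ) + 1) / ((L : ℝ) + 2)) :=
    mul_le_mul_of_nonneg_right h1 (by positivity)
  refine le_trans ?_ h3
  have e : (1 - 1 / (2 * ((L : ℝ) + 1))) * (((L : ℝ) + 1) / ((L : ℝ) + 2))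
      = 1 - 1.5 / ((L : ℝ) + 2) := by
    field_simp
    ring
  rw [e]
  have : 1.5 / ((L : ℝ) + 2) ≤ 1.5 / ((L : ℝ) + 1) :=
    div_le_div_of_nonneg_left (by norm_num) (by positivity) (by linarith)
  linarith

theorem exists_pos_range (Lk M L1 e : ℕ) (hM2 : 2 ≤ M) (hML : M ≤ Lk) (hM3 : 25 * M ^ 3 ≤ 16 * Lk ^ 2)
    (heps : epsM M ≤ (e : ℝ) / 100)
    (hck : ((L1 : ℝ) + 1) * (ww (M - 1) + ((e : ℝ) / 100) / Lk)
      < 2 * (1 - 1.5 / ((Lk : ℝ) + 1)) * ∑ i ∈ range (M - 1), ww (M - 2 - i) * (((Lk : ℝ) + 1) * gg Lk i / tn Lk)) :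
    ∀ L : ℕ, Lk ≤ L → L < L1 → ∃ y : ℕ, 1 ≤ y ∧ (y : ℝ) ^ 3 ≤ (0.8 * L) ^ 2 ∧ 0 ≤ bb L y := by
  intro L hL hL1
  by_contra hcon
  push Not at hcon
  have hLk : (2 : ℝ) ≤ Lk := by exact_mod_cast (le_trans hM2 hML)
  have hLr : (Lk : ℝ) ≤ L := by exact_mod_cast hL
  have hL1r : (L : ℝ) + 1 ≤ L1 := by exact_mod_cast hL1
  have hneg : ∀ r, 1 ≤ r → r ≤ M → bb L r < 0 := by
    intro r h1 h2
    apply hcon r h1
    have hr : (r : ℝ) ≤ M := by exact_mod_cast h2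
    have h3 : (25 : ℝ) * (M : ℝ) ^ 3 ≤ 16 * (Lk : ℝ) ^ 2 := by exact_mod_cast hM3
    have h4 : (r : ℝ) ^ 3 ≤ (M : ℝ) ^ 3 := pow_le_pow_left₀ (Nat.cast_nonneg r) hr 3
    nlinarith
  have ht := bb_test L M hM2 (hML.trans hL) hneg
  have hT := tn_pos L
  have hT1 := tn_pos (L + 1)
  obtain ⟨S, hS⟩ : ∃ S, S = ∑ i ∈ range (M - 1), ww (M - 2 - i) * (((Lk : ℝ) + 1) * gg Lk i / tn Lk) := ⟨_, rfl⟩
  have hS0 : 0 ≤ S := by
    rw [hS]
    exact Finset.sum_nonneg fun i _ => mul_nonneg (ww_pos _).le (r2gam_nonneg Lk i)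
  have h1 : S * (tn (L + 1) / ((L : ℝ) + 2)) ≤ ∑ i ∈ range (M - 1), ww (M - 2 - i) * gg (L + 1) i := by
    rw [hS, Finset.sum_mul]
    apply Finset.sum_le_sum
    intro i hi
    have hi' := mem_range.mp hi
    have hm := r2gam_mono (Lk := Lk) (i := i) (by omega) (L + 1 - Lk)
    have e1 : Lk + (L + 1 - Lk) = L + 1 := by omega
    rw [e1] at hm
    have e2 : gg (L + 1) i = r2gam (L + 1) i * (tn (L + 1) / ((L : ℝ) + 2)) := by
      unfold r2gam
      push_cast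
      field_simp
      ring
    rw [e2, mul_assoc]
    apply mul_le_mul_of_nonneg_left _ (ww_pos _).le
    exact mul_le_mul_of_nonneg_right hm (by positivity)
  have h2 : tn L * (1 - 1.5 / ((Lk : ℝ) + 1)) ≤ tn (L + 1) := by
    refine le_trans ?_ (r2_tn_succ_ge15 L)
    apply mul_le_mul_of_nonneg_left _ hT.le
    have : 1.5 / ((L : ℝ) + 1) ≤ 1.5 / ((Lk : ℝ) + 1) :=
      div_le_div_of_nonneg_left (by norm_num) (by positivity) (by linarith)
    linarith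
  have hL2 : (0 : ℝ) < (L : ℝ) + 2 := by positivity
  have h3 : 2 * (S * (tn L * (1 - 1.5 / ((Lk : ℝ) + 1)) / ((L : ℝ) + 2)))
      ≤ tn L * (ww (M - 1) + epsM M / L) := by
    refine le_trans ?_ ht
    apply mul_le_mul_of_nonneg_left _ (by norm_num)
    refine le_trans ?_ h1
    apply mul_le_mul_of_nonneg_left _ hS0
    exact div_le_div_of_nonneg_right h2 hL2.le
  have h4 : 2 * (1 - 1.5 / ((Lk : ℝ) + 1)) * S ≤ ((L : ℝ) + 2) * (ww (M - 1) + epsM M / L) := by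
    have e : 2 * (S * (tn L * (1 - 1.5 / ((Lk : ℝ) + 1)) / ((L : ℝ) + 2)))
        = tn L * (2 * (1 - 1.5 / ((Lk : ℝ) + 1)) * S / ((L : ℝ) + 2)) := by ring
    rw [e] at h3
    have h5 := le_of_mul_le_mul_left h3 hT
    rw [div_le_iff₀ hL2] at h5
    linarith
  have h6 : epsM M / L ≤ ((e : ℝ) / 100) / Lk :=
    div_le_div₀ (by positivity) heps (by linarith) hLr
  have hw := ww_pos (M - 1)
  have he0 : 0 ≤ ((e : ℝ) / 100) / Lk := by positivity
  have he1 : 0 ≤ epsM M / L := div_nonneg (epsM_nonneg M) (by linarith)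
  have h7 : ((L : ℝ) + 2) * (ww (M - 1) + epsM M / L) ≤ ((L1 : ℝ) + 1) * (ww (M - 1) + ((e : ℝ) / 100) / Lk) := by
    apply mul_le_mul (by linarith) (by linarith) (by linarith) (by positivity)
  rw [← hS] at hck
  linarith

end Pool.Agent.MP_9da1e3_co
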