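import Pool.Agent.Lib.MP_9da1e3_co.V2_R2E
import Pool.Agent.Lib.MP_9da1e3_co.V2_R2R

namespace Pool.Agent.MP_9da1e3_co

open Finset

/-! The list of checkpoints `(L_k, M_k, L_(k+1), e_k)` and the range `1000 ≤ L < 20000`. -/

/-- the numerical fact needed at one checkpoint -/
def R2ck (Lk M L1 e : ℕ) : Prop :=
  ((L1 : ℝ) + 1) * (ww (M - 1) + ((e : ℝ) / 100) / (Lk : ℝ))
    < 2 * (1 - 1.5 / ((Lk : ℝ) + 1)) * ∑ i ∈ range (M - 1), ww (M - 2 - i) * (((Lk : ℝ) + 1) * gg Lk i / tn Lk)

lemma r2_one {Lk M L1 e : ℕ} (hM2 : 2 ≤ M) (hML : M ≤ Lk) (hM3 : 25 * M ^ 3 ≤ 16 * Lk ^ 2)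
    (heps : epsM M ≤ (e : ℝ) / 100) (hck : R2ck Lk M L1 e) :
    ∀ L : ℕ, Lk ≤ L → L < L1 → ∃ y : ℕ, 1 ≤ y ∧ (y : ℝ) ^ 3 ≤ (0.8 * (L : ℝ)) ^ 2 ∧ 0 ≤ bb L y :=
  exists_pos_range Lk M L1 e hM2 hML hM3 heps hck

theorem exists_pos_small
    (h1000 : R2ck 1000 86 1047 70)
    (h1047 : R2ck 1047 88 1092 70)
    (h1092 : R2ck 1092 91 1150 72)
    (h1150 : R2ck 1150 94 1214 72)
    (h1214 : R2ck 1214 98 1296 72)
    (h1296 : R2ck 1296 102 1385 75)
    (h1385 : R2ck 1385 107 1494 75)
    (h1494 : R2ck 1494 112 1614 75)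
    (h1614 : R2ck 1614 118 1755 79)
    (h1755 : R2ck 1755 125 1925 79)
    (h1925 : R2ck 1925 133 2127 79)
    (h2127 : R2ck 2127 142 2364 83)
    (h2364 : R2ck 2364 152 2641 83)
    (h2641 : R2ck 2641 164 2977 89)
    (h2977 : R2ck 2977 178 3390 89)
    (h3390 : R2ck 3390 194 3890 89)
    (h3890 : R2ck 3890 213 4505 96)
    (h4505 : R2ck 4505 235 5264 96)
    (h5264 : R2ck 5264 260 6185 96)
    (h6185 : R2ck 6185 290 7335 104)
    (h7335 : R2ck 7335 325 8772 104)
    (h8772 : R2ck 8772 366 10563 116)
    (h10563 : R2ck 10563 414 12811 116)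
    (h12811 : R2ck 12811 471 15661 116)
    (h15661 : R2ck 15661 539 19293 132)
    (h19293 : R2ck 19293 619 20000 132)
    (L : ℕ) (hL : 1000 ≤ L) (hL2 : L < 20000) :
    ∃ y : ℕ, 1 ≤ y ∧ (y : ℝ) ^ 3 ≤ (0.8 * (L : ℝ)) ^ 2 ∧ 0 ≤ bb L y := by
  rcases lt_or_ge L 1047 with g1047 | g1047
  · exact r2_one (Lk := 1000) (M := 86) (L1 := 1047) (e := 70) (by norm_num) (by norm_num) (by norm_num) (by have h := epsM_90 (M := 86) (by norm_num); push_cast; linarith) h1000 L hL g1047
  rcases lt_or_ge L 1092 with g1092 | g1092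
  · exact r2_one (Lk := 1047) (M := 88) (L1 := 1092) (e := 70) (by norm_num) (by norm_num) (by norm_num) (by have h := epsM_90 (M := 88) (by norm_num); push_cast; linarith) h1047 L g1047 g1092
  rcases lt_or_ge L 1150 with g1150 | g1150
  · exact r2_one (Lk := 1092) (M := 91) (L1 := 1150) (e := 72) (by norm_num) (by norm_num) (by norm_num) (by have h := epsM_100 (M := 91) (by norm_num); push_cast; linarith) h1092 L g1092 g1150
  rcases lt_or_ge L 1214 with g1214 | g1214
  · exact r2_one (Lk := 1150) (M := 94) (L1 := 1214) (e := 72) (by norm_num) (by norm_num) (by norm_num) (by have h := epsM_100 (M := 94) (by norm_num); push_cast; linarith) h1150 L g1150 g1214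
  rcases lt_or_ge L 1296 with g1296 | g1296
  · exact r2_one (Lk := 1214) (M := 98) (L1 := 1296) (e := 72) (by norm_num) (by norm_num) (by norm_num) (by have h := epsM_100 (M := 98) (by norm_num); push_cast; linarith) h1214 L g1214 g1296
  rcases lt_or_ge L 1385 with g1385 | g1385
  · exact r2_one (Lk := 1296) (M := 102) (L1 := 1385) (e := 75) (by norm_num) (by norm_num) (by norm_num) (by have h := epsM_115 (M := 102) (by norm_num); push_cast; linarith) h1296 L g1296 g1385
  rcases lt_or_ge L 1494 with g1494 | g1494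
  · exact r2_one (Lk := 1385) (M := 107) (L1 := 1494) (e := 75) (by norm_num) (by norm_num) (by norm_num) (by have h := epsM_115 (M := 107) (by norm_num); push_cast; linarith) h1385 L g1385 g1494
  rcases lt_or_ge L 1614 with g1614 | g1614
  · exact r2_one (Lk := 1494) (M := 112) (L1 := 1614) (e := 75) (by norm_num) (by norm_num) (by norm_num) (by have h := epsM_115 (M := 112) (by norm_num); push_cast; linarith) h1494 L g1494 g1614
  rcases lt_or_ge L 1755 with g1755 | g1755
  · exact r2_one (Lk := 1614) (M := 118) (L1 := 1755) (e := 79) (by norm_num) (by norm_num) (by norm_num) (by have h := epsM_135 (M := 118) (by norm_num); push_cast; linarith) h1614 L g1614 g1755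
  rcases lt_or_ge L 1925 with g1925 | g1925
  · exact r2_one (Lk := 1755) (M := 125) (L1 := 1925) (e := 79) (by norm_num) (by norm_num) (by norm_num) (by have h := epsM_135 (M := 125) (by norm_num); push_cast; linarith) h1755 L g1755 g1925
  rcases lt_or_ge L 2127 with g2127 | g2127
  · exact r2_one (Lk := 1925) (M := 133) (L1 := 2127) (e := 79) (by norm_num) (by norm_num) (by norm_num) (by have h := epsM_135 (M := 133) (by norm_num); push_cast; linarith) h1925 L g1925 g2127
  rcases lt_or_ge L 2364 with g2364 | g2364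
  · exact r2_one (Lk := 2127) (M := 142) (L1 := 2364) (e := 83) (by norm_num) (by norm_num) (by norm_num) (by have h := epsM_160 (M := 142) (by norm_num); push_cast; linarith) h2127 L g2127 g2364
  rcases lt_or_ge L 2641 with g2641 | g2641
  · exact r2_one (Lk := 2364) (M := 152) (L1 := 2641) (e := 83) (by norm_num) (by norm_num) (by norm_num) (by have h := epsM_160 (M := 152) (by norm_num); push_cast; linarith) h2364 L g2364 g2641
  rcases lt_or_ge L 2977 with g2977 | g2977
  · exact r2_one (Lk := 2641) (M := 164) (L1 := 2977) (e := 89) (by norm_num) (by norm_num) (by norm_num) (by have h := epsM_200 (M := 164) (by norm_num); push_cast; linarith) h2641 L g2641 g2977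
  rcases lt_or_ge L 3390 with g3390 | g3390
  · exact r2_one (Lk := 2977) (M := 178) (L1 := 3390) (e := 89) (by norm_num) (by norm_num) (by norm_num) (by have h := epsM_200 (M := 178) (by norm_num); push_cast; linarith) h2977 L g2977 g3390
  rcases lt_or_ge L 3890 with g3890 | g3890
  · exact r2_one (Lk := 3390) (M := 194) (L1 := 3890) (e := 89) (by norm_num) (by norm_num) (by norm_num) (by have h := epsM_200 (M := 194) (by norm_num); push_cast; linarith) h3390 L g3390 g3890
  rcases lt_or_ge L 4505 with g4505 | g4505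
  · exact r2_one (Lk := 3890) (M := 213) (L1 := 4505) (e := 96) (by norm_num) (by norm_num) (by norm_num) (by have h := epsM_260 (M := 213) (by norm_num); push_cast; linarith) h3890 L g3890 g4505
  rcases lt_or_ge L 5264 with g5264 | g5264
  · exact r2_one (Lk := 4505) (M := 235) (L1 := 5264) (e := 96) (by norm_num) (by norm_num) (by norm_num) (by have h := epsM_260 (M := 235) (by norm_num); push_cast; linarith) h4505 L g4505 g5264
  rcases lt_or_ge L 6185 with g6185 | g6185
  · exact r2_one (Lk := 5264) (M := 260) (L1 := 6185) (e := 96) (by norm_num) (by norm_num) (by norm_num) (by have h := epsM_260 (M := 260) (by norm_num); push_cast; linarith) h5264 L g5264 g6185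
  rcases lt_or_ge L 7335 with g7335 | g7335
  · exact r2_one (Lk := 6185) (M := 290) (L1 := 7335) (e := 104) (by norm_num) (by norm_num) (by norm_num) (by have h := epsM_350 (M := 290) (by norm_num); push_cast; linarith) h6185 L g6185 g7335
  rcases lt_or_ge L 8772 with g8772 | g8772
  · exact r2_one (Lk := 7335) (M := 325) (L1 := 8772) (e := 104) (by norm_num) (by norm_num) (by norm_num) (by have h := epsM_350 (M := 325) (by norm_num); push_cast; linarith) h7335 L g7335 g8772
  rcases lt_or_ge L 10563 with g10563 | g10563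
  · exact r2_one (Lk := 8772) (M := 366) (L1 := 10563) (e := 116) (by norm_num) (by norm_num) (by norm_num) (by have h := epsM_500 (M := 366) (by norm_num); push_cast; linarith) h8772 L g8772 g10563
  rcases lt_or_ge L 12811 with g12811 | g12811
  · exact r2_one (Lk := 10563) (M := 414) (L1 := 12811) (e := 116) (by norm_num) (by norm_num) (by norm_num) (by have h := epsM_500 (M := 414) (by norm_num); push_cast; linarith) h10563 L g10563 g12811
  rcases lt_or_ge L 15661 with g15661 | g15661
  · exact r2_one (Lk := 12811) (M := 471) (L1 := 15661) (e := 116) (by norm_num) (by norm_num) (by norm_num) (by have h := epsM_500 (M := 471) (by norm_num); push_cast; linarith) h12811 L g12811 g15661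
  rcases lt_or_ge L 19293 with g19293 | g19293
  · exact r2_one (Lk := 15661) (M := 539) (L1 := 19293) (e := 132) (by norm_num) (by norm_num) (by norm_num) (by have h := epsM_720 (M := 539) (by norm_num); push_cast; linarith) h15661 L g15661 g19293
  exact r2_one (Lk := 19293) (M := 619) (L1 := 20000) (e := 132) (by norm_num) (by norm_num) (by norm_num) (by have h := epsM_720 (M := 619) (by norm_num); push_cast; linarith) h19293 L g19293 hL2

end Pool.Agent.MP_9da1e3_co
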