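import Mathlib

set_option autoImplicit false

/-!
Kernel evaluation of the linear window recursions (packed numbers in base `2 ^ 160`).
-/

namespace Pool.Agent.MP_9da1e3_co.R2a

/-- force the evaluation of `x` -/
@[inline] def force {α : Type} (x : ℕ) (f : ℕ → α) : α :=
  match x with
  | 0 => f 0
  | m + 1 => f (m + 1)

lemma force_eq {α : Type} (x : ℕ) (f : ℕ → α) : force x f = f x := by cases x <;> rfl

/-- digit `m` of `P` in base `2 ^ 160` -/
def dg (P m : ℕ) : ℕ := (P >>> (160 * m)) % 2 ^ 160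

/-- cut at `2 ^ 61` -/
def cut (v : ℕ) : ℕ := bif Nat.ble v (2 ^ 61) then v else 2 ^ 61

/-- the next term -/
def nxt (L u A C1 C2 m X : ℕ) : ℕ :=
  cut ((32 * (dg (A * X + C1) m - dg C2 m)) / (87 * (L + m + 1) * 2 ^ 60) + u)

/-- the packed solution -/
def solve (L u A C1 C2 : ℕ) : ℕ → ℕ → ℕ → ℕ
  | 0, _, X => X
  | f + 1, m, X =>
    force (nxt L u A C1 C2 m X) fun v =>
    force (X + v <<< (160 * (m + 1))) fun X' =>
    force (m + 1) fun m' => solve L u A C1 C2 f m' X'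

/-- the packed sequence `(p + q j) t_j`, `t_(j+1) = R j t_j` -/
def bld (R : ℕ → ℕ → ℕ) (p q : ℕ) : ℕ → ℕ → ℕ → ℕ → ℕ
  | 0, _, _, P => P
  | f + 1, j, t, P =>
    force (P + ((p + q * j) * t) <<< (160 * j)) fun P' =>
    force (R j t) fun t' =>
    force (j + 1) fun j' => bld R p q f j' t' P'

/-- `tau_(j+1)` from `tau_j` -/
def Rt (u j t : ℕ) : ℕ := cut (t * 32 * (j + 2) ^ j / (87 * (j + 1) ^ j) + u)

/-- `sigma_(i+1)` from `sigma_i`, rounded down -/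
def RsL (L i s : ℕ) : ℕ :=
  cut (s * (32 * 27182818 * (2 * (L + i))) / (87 * 10000000 * (2 * (L + i) + 3)))

/-- `sigma_(i+1)` from `sigma_i`, rounded up -/
def RsU (L i s : ℕ) : ℕ :=
  cut (s * (32 * 27182819 * (2 * (L + i + 1) ^ 2 - 3 * (L + i + 1) + 6)) /
    (87 * 10000000 * (2 * (L + i + 1) ^ 2)) + 1)

/-- packed upper bounds of `delta` -/
def deltU (L N : ℕ) : ℕ :=
  force (bld (Rt 1) (L + 2) 1 (N + 1) 0 (2 ^ 60) 0) fun A =>
  force (bld (Rt 1) 1 0 (N + 1) 0 (2 ^ 60) 0) fun T =>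
  force (bld (RsU L) 0 1 (N + 1) 0 (2 ^ 60) 0) fun S =>
  force (T * S) fun C => solve L 1 A C 0 N 0 0

/-- packed lower bounds of `gamma` -/
def gammL (L N : ℕ) : ℕ :=
  force (bld (Rt 0) (L + 1) 1 (N + 1) 0 (2 ^ 60) 0) fun A =>
  force (bld (Rt 0) 1 0 (N + 1) 0 (2 ^ 60) 0) fun T =>
  force (bld (RsL L) 1 0 (N + 1) 0 (2 ^ 60) 0) fun S =>
  force (T * S) fun C1 =>
  force (bld (Rt 1) 1 0 (N + 1) 0 (2 ^ 60) 0) fun T' =>
  force (deltU L N) fun D =>
  force (T' * D) fun C2 => solve L 0 A C1 C2 N 0 0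

/-- the check at `L` for the window `M`, up to `L1` -/
def ckG (L M L1 e : ℕ) : Bool :=
  force (bld (Rt 1) 1 0 M 0 (2 ^ 60) 0) fun T' =>
  force (bld (Rt 0) 1 1 (M - 1) 0 (2 ^ 60) 0) fun O =>
  force (gammL L (M - 2)) fun G =>
  force (dg (O * G) (M - 2)) fun W =>
  force (M * dg T' (M - 1)) fun w =>
  Nat.ble ((L1 + 1) * (278400 * L * w * 2 ^ 60 + 7569 * e * 2 ^ 120) * 10000000 + 1)
    ((2 * L - 1) * 27182818 * W * 102400 * L)

end Pool.Agent.MP_9da1e3_co.R2a
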