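import Pool.Agent.Lib.MP_9da1e3_co.V2_R2aK

set_option autoImplicit false

/-! Soundness of the packed evaluation for abstract sequences. -/

namespace Pool.Agent.MP_9da1e3_co.R2a

open Finset Polynomial

theorem digit_eval (B n : ℕ) : ∀ p : ℕ[X], (∀ m ≤ n, p.coeff m < B) →
    p.eval B / B ^ n % B = p.coeff n := by
  induction n with
  | zero =>
    intro p hp
    have h : p.eval B = p.divX.eval B * B + p.coeff 0 := by
      conv_lhs => rw [← divX_mul_X_add p]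
      simp
    rw [pow_zero, Nat.div_one, h, Nat.add_comm, Nat.add_mul_mod_self_right,
      Nat.mod_eq_of_lt (hp 0 le_rfl)]
  | succ n ih =>
    intro p hp
    have h0 := hp 0 (Nat.zero_le _)
    have hB : 0 < B := by omega
    have h : p.eval B = p.divX.eval B * B + p.coeff 0 := by
      conv_lhs => rw [← divX_mul_X_add p]
      simp
    have h2 : p.eval B / B = p.divX.eval B := by
      rw [h, Nat.add_comm, Nat.add_mul_div_right _ _ hB, Nat.div_eq_of_lt h0, Nat.zero_add]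
    rw [pow_succ', ← Nat.div_div_eq_div_mul, h2, ih p.divX, coeff_divX]
    intro m hm
    rw [coeff_divX]
    exact hp _ (by omega)

noncomputable def pl (a : ℕ → ℕ) (n : ℕ) : ℕ[X] := ∑ i ∈ range n, C (a i) * X ^ i

def pk (a : ℕ → ℕ) (n : ℕ) : ℕ := ∑ i ∈ range n, a i * 2 ^ (160 * i)

def cv (a b : ℕ → ℕ) (m : ℕ) : ℕ := ∑ j ∈ range (m + 1), a j * b (m - j)

lemma eval_pl (a : ℕ → ℕ) (n : ℕ) : (pl a n).eval (2 ^ 160) = pk a n := by
  unfold pl pk
  rw [eval_finsetSum]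
  refine sum_congr rfl fun i _ => ?_
  rw [eval_mul, eval_C, eval_pow, eval_X, ← pow_mul]

lemma coeff_pl (a : ℕ → ℕ) (n m : ℕ) : (pl a n).coeff m = if m < n then a m else 0 := by
  unfold pl
  simp only [finsetSum_coeff, coeff_C_mul, coeff_X_pow, mul_ite, mul_one, mul_zero,
    Finset.sum_ite_eq, mem_range]

lemma coeff_mul_pl (a b : ℕ → ℕ) {n n' m : ℕ} (h : m < n) (h' : m < n') :
    (pl a n * pl b n').coeff m = cv a b m := by
  rw [coeff_mul, Finset.Nat.sum_antidiagonal_eq_sum_range_succ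
    (fun i j => (pl a n).coeff i * (pl b n').coeff j)]
  unfold cv
  refine sum_congr rfl fun j hj => ?_
  have hj' := mem_range.mp hj
  rw [coeff_pl, coeff_pl, if_pos (by omega), if_pos (by omega)]

lemma dg_eval (p : ℕ[X]) (m : ℕ) (h : ∀ k ≤ m, p.coeff k < 2 ^ 160) :
    dg (p.eval (2 ^ 160)) m = p.coeff m := by
  unfold dg
  rw [Nat.shiftRight_eq_div_pow, pow_mul]
  exact digit_eval _ _ p h

lemma cv_le {a b : ℕ → ℕ} {m s t : ℕ} (ha : ∀ j ≤ m, a j ≤ s) (hb : ∀ j ≤ m, b j ≤ t) :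
    cv a b m ≤ (m + 1) * (s * t) := by
  unfold cv
  calc ∑ j ∈ range (m + 1), a j * b (m - j) ≤ ∑ _j ∈ range (m + 1), s * t :=
        sum_le_sum fun j hj => Nat.mul_le_mul (ha j (by have := mem_range.mp hj; omega))
          (hb _ (Nat.sub_le _ _))
    _ = (m + 1) * (s * t) := by simp

/-! ### the builders -/

/-- iteration -/
def it (R : ℕ → ℕ → ℕ) (t0 : ℕ) : ℕ → ℕ
  | 0 => t0
  | j + 1 => R j (it R t0 j)
lemma it_succ (R : ℕ → ℕ → ℕ) (t0 j : ℕ) : it R t0 (j + 1) = R j (it R t0 j) := rfl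

lemma bld_succ (R : ℕ → ℕ → ℕ) (p q f j t P : ℕ) : bld R p q (f + 1) j t P =
    bld R p q f (j + 1) (R j t) (P + ((p + q * j) * t) * 2 ^ (160 * j)) := by
  have h : bld R p q (f + 1) j t P = force (P + ((p + q * j) * t) <<< (160 * j)) fun P' =>
    force (R j t) fun t' =>
    force (j + 1) fun j' => bld R p q f j' t' P' := rfl
  rw [h, force_eq, force_eq, force_eq, Nat.shiftLeft_eq]

lemma bld_spec (R : ℕ → ℕ → ℕ) (p q t0 : ℕ) (f : ℕ) : ∀ j P, bld R p q f j (it R t0 j) P =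
    P + ∑ i ∈ range f, (p + q * (j + i)) * it R t0 (j + i) * 2 ^ (160 * (j + i)) := by
  induction f with
  | zero => intro j P; simp [bld]
  | succ f ih =>
    intro j P
    have h2 := ih (j + 1) (P + ((p + q * j) * it R t0 j) * 2 ^ (160 * j))
    rw [it_succ] at h2
    rw [bld_succ, h2]
    have h3 : ∑ i ∈ range (f + 1), (p + q * (j + i)) * it R t0 (j + i) * 2 ^ (160 * (j + i)) =
      ∑ i ∈ range f, (p + q * (j + (i + 1))) * it R t0 (j + (i + 1)) * 2 ^ (160 * (j + (i + 1))) +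
        (p + q * (j + 0)) * it R t0 (j + 0) * 2 ^ (160 * (j + 0)) :=
      sum_range_succ' (fun i => (p + q * (j + i)) * it R t0 (j + i) * 2 ^ (160 * (j + i))) f
    have h4 : ∑ i ∈ range f, (p + q * (j + 1 + i)) * it R t0 (j + 1 + i) * 2 ^ (160 * (j + 1 + i)) =
      ∑ i ∈ range f, (p + q * (j + (i + 1))) * it R t0 (j + (i + 1)) * 2 ^ (160 * (j + (i + 1))) := by
      refine sum_congr rfl fun i _ => ?_
      have e : j + 1 + i = j + (i + 1) := by omega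
      rw [e]
    rw [h3, h4, Nat.add_zero]
    ring

lemma bld_eq (R : ℕ → ℕ → ℕ) (p q t0 n : ℕ) :
    bld R p q n 0 t0 0 = pk (fun i => (p + q * i) * it R t0 i) n := by
  have h := bld_spec R p q t0 n 0 0
  simp only [Nat.zero_add] at h
  exact h
def Xs (L u A C1 C2 : ℕ) : ℕ → ℕ
  | 0 => 0
  | m + 1 => Xs L u A C1 C2 m + nxt L u A C1 C2 m (Xs L u A C1 C2 m) * 2 ^ (160 * (m + 1))

/-- solution -/
def xs (L u A C1 C2 : ℕ) : ℕ → ℕ
  | 0 => 0
  | m + 1 => nxt L u A C1 C2 m (Xs L u A C1 C2 m)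

lemma Xs_succ (L u A C1 C2 m : ℕ) : Xs L u A C1 C2 (m + 1) =
  Xs L u A C1 C2 m + nxt L u A C1 C2 m (Xs L u A C1 C2 m) * 2 ^ (160 * (m + 1)) := rfl

lemma xs_succ (L u A C1 C2 m : ℕ) : xs L u A C1 C2 (m + 1) =
  nxt L u A C1 C2 m (Xs L u A C1 C2 m) := rfl

lemma solve_succ (L u A C1 C2 f m X : ℕ) : solve L u A C1 C2 (f + 1) m X =
    solve L u A C1 C2 f (m + 1) (X + nxt L u A C1 C2 m X * 2 ^ (160 * (m + 1))) := by
  have h : solve L u A C1 C2 (f + 1) m X = force (nxt L u A C1 C2 m X) fun v =>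
    force (X + v <<< (160 * (m + 1))) fun X' =>
    force (m + 1) fun m' => solve L u A C1 C2 f m' X' := rfl
  rw [h, force_eq, force_eq, force_eq, Nat.shiftLeft_eq]

lemma solve_spec (L u A C1 C2 : ℕ) (f : ℕ) : ∀ m, solve L u A C1 C2 f m (Xs L u A C1 C2 m) =
    Xs L u A C1 C2 (m + f) := by
  induction f with
  | zero => intro m; rfl
  | succ f ih =>
    intro m
    have h := ih (m + 1)
    have e : m + 1 + f = m + (f + 1) := by omega
    rw [e, Xs_succ] at h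
    rw [solve_succ]
    exact h
lemma Xs_eq (L u A C1 C2 m : ℕ) : Xs L u A C1 C2 m = pk (xs L u A C1 C2) (m + 1) := by
  induction m with
  | zero => simp [Xs, pk, xs]
  | succ m ih =>
    have h : pk (xs L u A C1 C2) (m + 1 + 1) = pk (xs L u A C1 C2) (m + 1) +
        xs L u A C1 C2 (m + 1) * 2 ^ (160 * (m + 1)) := sum_range_succ _ _
    rw [h, ← ih, Xs_succ, xs_succ]
lemma cut_le (v : ℕ) : cut v ≤ v := by
  unfold cut
  cases h : Nat.ble v (2 ^ 61) with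
  | false =>
    have : ¬ v ≤ 2 ^ 61 := by
      intro hv
      rw [Nat.ble_eq_true_of_le hv] at h
      cases h
    rw [cond_false]
    omega
  | true => rw [cond_true]

lemma cut_le' (v : ℕ) : cut v ≤ 2 ^ 61 := by
  unfold cut
  cases h : Nat.ble v (2 ^ 61) with
  | false => rw [cond_false]
  | true => rw [cond_true]; exact Nat.le_of_ble_eq_true h
lemma le_cut {v : ℕ} {x : ℝ} (h : x ≤ v) (h2 : x ≤ 2 ^ 61) : x ≤ (cut v : ℝ) := by
  unfold cut
  cases hb : Nat.ble v (2 ^ 61) with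
  | false => rw [cond_false, Nat.cast_pow, Nat.cast_ofNat]; exact h2
  | true => rw [cond_true]; exact h

lemma xs_le (L u A C1 C2 m : ℕ) : xs L u A C1 C2 m ≤ 2 ^ 61 := by
  cases m with
  | zero => exact Nat.zero_le _
  | succ m => rw [xs_succ]; unfold nxt; exact cut_le' _

lemma nxt_eq (L u C1 C2 : ℕ) (N : ℕ) (hN : N < 2 ^ 14) (a : ℕ → ℕ) (p1 p2 : ℕ[X])
    (ha : ∀ j ≤ N, a j ≤ 2 ^ 80) (h1 : ∀ k ≤ N, p1.coeff k ≤ 2 ^ 156)
    (h2 : ∀ k ≤ N, p2.coeff k ≤ 2 ^ 156)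
    (hC1 : C1 = p1.eval (2 ^ 160)) (hC2 : C2 = p2.eval (2 ^ 160)) (m : ℕ) (hm : m ≤ N) :
    xs L u (pk a (N + 1)) C1 C2 (m + 1) =
      cut ((32 * ((cv a (xs L u (pk a (N + 1)) C1 C2) m + p1.coeff m) - p2.coeff m)) /
        (87 * (L + m + 1) * 2 ^ 60) + u) := by
  have hx : xs L u (pk a (N + 1)) C1 C2 (m + 1) =
      nxt L u (pk a (N + 1)) C1 C2 m (Xs L u (pk a (N + 1)) C1 C2 m) := rfl
  set x := xs L u (pk a (N + 1)) C1 C2 with hxd
  rw [hx, nxt, Xs_eq, ← hxd]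
  have e1 : pk a (N + 1) * pk x (m + 1) + C1 =
      (pl a (N + 1) * pl x (m + 1) + p1).eval (2 ^ 160) := by
    rw [eval_add, eval_mul, eval_pl, eval_pl, hC1]
  have e2 : dg (pk a (N + 1) * pk x (m + 1) + C1) m = cv a x m + p1.coeff m := by
    rw [e1, dg_eval, coeff_add, coeff_mul_pl a x (by omega) (by omega)]
    intro k hk
    rw [coeff_add, coeff_mul_pl a x (by omega) (by omega)]
    have c1 := cv_le (a := a) (b := x) (m := k) (s := 2 ^ 80) (t := 2 ^ 61)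
      (fun j hj => ha j (by omega)) (fun j _ => xs_le _ _ _ _ _ _)
    have c2 := h1 k (by omega)
    have c3 : (k + 1) * (2 ^ 80 * 2 ^ 61) ≤ 2 ^ 14 * (2 ^ 80 * 2 ^ 61) :=
      Nat.mul_le_mul_right _ (by omega)
    calc cv a x k + p1.coeff k ≤ 2 ^ 14 * (2 ^ 80 * 2 ^ 61) + 2 ^ 156 := by omega
      _ < 2 ^ 160 := by norm_num
  have e3 : dg C2 m = p2.coeff m := by
    rw [hC2, dg_eval]
    intro k hk
    exact lt_of_le_of_lt (h2 k (by omega)) (by norm_num)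
  rw [e2, e3]

/-- lower bounds -/
theorem solve_lower (L C1 C2 : ℕ) (N : ℕ) (hN : N < 2 ^ 14) (a : ℕ → ℕ) (p1 p2 : ℕ[X])
    (ha : ∀ j ≤ N, a j ≤ 2 ^ 80) (h1 : ∀ k ≤ N, p1.coeff k ≤ 2 ^ 156)
    (h2 : ∀ k ≤ N, p2.coeff k ≤ 2 ^ 156)
    (hC1 : C1 = p1.eval (2 ^ 160)) (hC2 : C2 = p2.eval (2 ^ 160))
    (α κ₁ κ₂ ξ : ℕ → ℝ) (hα : ∀ j ≤ N, (a j : ℝ) ≤ 2 ^ 60 * α j)
    (hκ₁ : ∀ k ≤ N, (p1.coeff k : ℝ) ≤ 2 ^ 120 * κ₁ k)
    (hκ₂ : ∀ k ≤ N, 2 ^ 120 * κ₂ k ≤ (p2.coeff k : ℝ))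
    (hpos : ∀ m, 0 ≤ ξ m)
    (hξ : ∀ m < N, 87 * ((L : ℝ) + m + 1) * ξ (m + 1) =
      32 * (∑ j ∈ range (m + 1), α j * ξ (m - j) + κ₁ m - κ₂ m)) :
    ∀ m ≤ N, (xs L 0 (pk a (N + 1)) C1 C2 m : ℝ) ≤ 2 ^ 60 * ξ m := by
  intro m
  induction m using Nat.strong_induction_on with
  | _ m ih =>
    intro hm
    rcases m with _ | m
    · have := hpos 0
      simp only [xs, Nat.cast_zero]
      positivity
    have hmN : m < N := by omega
    rw [nxt_eq L 0 C1 C2 N hN a p1 p2 ha h1 h2 hC1 hC2 m hmN.le]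
    set x := xs L 0 (pk a (N + 1)) C1 C2 with hx
    have hcv : ((cv a x m : ℕ) : ℝ) ≤ 2 ^ 120 * ∑ j ∈ range (m + 1), α j * ξ (m - j) := by
      unfold cv
      push_cast
      rw [mul_sum]
      refine sum_le_sum fun j hj => ?_
      have hj' := mem_range.mp hj
      have i1 := hα j (by omega)
      have i2 := ih (m - j) (by omega) (by omega)
      have i3 : (0 : ℝ) ≤ a j := Nat.cast_nonneg _
      have i4 : (0 : ℝ) ≤ x (m - j) := Nat.cast_nonneg _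
      have i5 := hpos (m - j)
      calc (a j : ℝ) * x (m - j) ≤ (2 ^ 60 * α j) * (2 ^ 60 * ξ (m - j)) :=
            mul_le_mul i1 i2 i4 (le_trans i3 i1)
        _ = 2 ^ 120 * (α j * ξ (m - j)) := by ring
    have hk1 := hκ₁ m hmN.le
    have hk2 := hκ₂ m hmN.le
    set d1 := cv a x m + p1.coeff m with hd1
    set d2 := p2.coeff m with hd2
    have hd1r : (d1 : ℝ) = (cv a x m : ℝ) + (p1.coeff m : ℝ) := by rw [hd1]; push_cast; ring
    have hD : (0 : ℝ) < 87 * ((L : ℝ) + m + 1) := by positivity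
    have hrec := hξ m hmN
    have hpm := hpos (m + 1)
    have e60 : (1152921504606846976 : ℝ) = 2 ^ 60 := by norm_num
    have hle : (((32 * (d1 - d2)) / (87 * (L + m + 1) * 2 ^ 60) + 0 : ℕ) : ℝ) ≤ 2 ^ 60 * ξ (m + 1) := by
      rw [Nat.add_zero]
      refine le_trans Nat.cast_div_le ?_
      push_cast
      rw [e60, div_le_iff₀ (by positivity)]
      rcases le_total d2 d1 with h | h
      · rw [Nat.cast_sub h, hd1r]
        have : 2 ^ 60 * ξ (m + 1) * (87 * ((L : ℝ) + m + 1) * 2 ^ 60) =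
            2 ^ 120 * (87 * ((L : ℝ) + m + 1) * ξ (m + 1)) := by ring
        rw [this, hrec]
        nlinarith [hcv, hk1, hk2]
      · have h0 : ((d1 - d2 : ℕ) : ℝ) = 0 := by rw [Nat.sub_eq_zero_of_le h, Nat.cast_zero]
        rw [h0, mul_zero]
        have h60 : (0 : ℝ) ≤ 2 ^ 60 := by positivity
        exact mul_nonneg (mul_nonneg h60 hpm) (mul_nonneg hD.le h60)
    exact le_trans (by exact_mod_cast cut_le _) hle

/-- upper bounds -/
theorem solve_upper (L C1 C2 : ℕ) (N : ℕ) (hN : N < 2 ^ 14) (a : ℕ → ℕ) (p1 p2 : ℕ[X])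
    (ha : ∀ j ≤ N, a j ≤ 2 ^ 80) (h1 : ∀ k ≤ N, p1.coeff k ≤ 2 ^ 156)
    (h2 : ∀ k ≤ N, p2.coeff k ≤ 2 ^ 156)
    (hC1 : C1 = p1.eval (2 ^ 160)) (hC2 : C2 = p2.eval (2 ^ 160))
    (α κ₁ κ₂ ξ : ℕ → ℝ) (hα : ∀ j ≤ N, 2 ^ 60 * α j ≤ (a j : ℝ)) (hα0 : ∀ j, 0 ≤ α j)
    (hκ₁ : ∀ k ≤ N, 2 ^ 120 * κ₁ k ≤ (p1.coeff k : ℝ))
    (hκ₂ : ∀ k ≤ N, (p2.coeff k : ℝ) ≤ 2 ^ 120 * κ₂ k)
    (hpos : ∀ m, 0 ≤ ξ m) (hub : ∀ m ≤ N, ξ m ≤ 2) (h0 : ξ 0 = 0)
    (hξ : ∀ m < N, 87 * ((L : ℝ) + m + 1) * ξ (m + 1) =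
      32 * (∑ j ∈ range (m + 1), α j * ξ (m - j) + κ₁ m - κ₂ m)) :
    ∀ m ≤ N, 2 ^ 60 * ξ m ≤ (xs L 1 (pk a (N + 1)) C1 C2 m : ℝ) := by
  intro m
  induction m using Nat.strong_induction_on with
  | _ m ih =>
    intro hm
    rcases m with _ | m
    · simp [xs, h0]
    have hmN : m < N := by omega
    rw [nxt_eq L 1 C1 C2 N hN a p1 p2 ha h1 h2 hC1 hC2 m hmN.le]
    set x := xs L 1 (pk a (N + 1)) C1 C2 with hx
    have hcv : 2 ^ 120 * ∑ j ∈ range (m + 1), α j * ξ (m - j) ≤ ((cv a x m : ℕ) : ℝ) := by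
      unfold cv
      push_cast
      rw [mul_sum]
      refine sum_le_sum fun j hj => ?_
      have hj' := mem_range.mp hj
      have i1 := hα j (by omega)
      have i2 := ih (m - j) (by omega) (by omega)
      have i3 := hα0 j
      have i5 := hpos (m - j)
      calc 2 ^ 120 * (α j * ξ (m - j)) = (2 ^ 60 * α j) * (2 ^ 60 * ξ (m - j)) := by ring
        _ ≤ (a j : ℝ) * x (m - j) := mul_le_mul i1 i2 (by positivity) (Nat.cast_nonneg _)
    have hk1 := hκ₁ m hmN.le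
    have hk2 := hκ₂ m hmN.le
    set d1 := cv a x m + p1.coeff m with hd1
    set d2 := p2.coeff m with hd2
    have hd1r : (d1 : ℝ) = (cv a x m : ℝ) + (p1.coeff m : ℝ) := by rw [hd1]; push_cast; ring
    have hrec := hξ m hmN
    refine le_cut ?_ ?_
    · have hsub : (d1 : ℝ) - d2 ≤ ((d1 - d2 : ℕ) : ℝ) := by
        rcases le_total d2 d1 with h | h
        · rw [Nat.cast_sub h]
        · have : (d1 : ℝ) ≤ d2 := by exact_mod_cast h
          have : (0 : ℝ) ≤ ((d1 - d2 : ℕ) : ℝ) := Nat.cast_nonneg _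
          linarith
      have hfl : ((32 * (d1 - d2) : ℕ) : ℝ) / ((87 * (L + m + 1) * 2 ^ 60 : ℕ) : ℝ) ≤
          (((32 * (d1 - d2)) / (87 * (L + m + 1) * 2 ^ 60) + 1 : ℕ) : ℝ) := by
        have hb : 0 < 87 * (L + m + 1) * 2 ^ 60 := by positivity
        rw [div_le_iff₀ (by exact_mod_cast hb)]
        have := Nat.lt_div_mul_add hb (a := 32 * (d1 - d2))
        have h3 : 32 * (d1 - d2) ≤ (32 * (d1 - d2) / (87 * (L + m + 1) * 2 ^ 60) + 1) *
            (87 * (L + m + 1) * 2 ^ 60) := by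
          rw [Nat.add_mul, Nat.one_mul]
          omega
        exact_mod_cast h3
      refine le_trans ?_ hfl
      have e60 : (1152921504606846976 : ℝ) = 2 ^ 60 := by norm_num
      push_cast
      rw [e60, le_div_iff₀ (by positivity)]
      have : 2 ^ 60 * ξ (m + 1) * (87 * ((L : ℝ) + m + 1) * 2 ^ 60) =
          2 ^ 120 * (87 * ((L : ℝ) + m + 1) * ξ (m + 1)) := by ring
      rw [this, hrec]
      rw [hd1r] at hsub
      nlinarith [hcv, hk1, hk2, hsub]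
    · have := hub (m + 1) hm
      calc 2 ^ 60 * ξ (m + 1) ≤ 2 ^ 60 * 2 := by
            exact mul_le_mul_of_nonneg_left this (by positivity)
        _ = 2 ^ 61 := by norm_num

end Pool.Agent.MP_9da1e3_co.R2a
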