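import Pool.Agent.Lib.MP_9da1e3_co.Ct1
import Pool.Agent.Lib.MP_9da1e3_co.Up4

namespace Pool.Agent.MP_9da1e3_co

open Finset

lemma r2b_U_lo : (0.3989 : ℝ) ≤ U := by
  have h1 : U * E = cA := rfl
  have h2 := lt_cA
  have hE : E < 2.7182818286 := Real.exp_one_lt_d9
  have hE0 := E_pos
  by_contra h
  push Not at h
  have h3 : U * E ≤ 0.3989 * E := mul_le_mul_of_nonneg_right h.le hE0.le
  nlinarith

lemma r2b_U_hi : U ≤ (0.39895 : ℝ) := by
  have h1 : U * E = cA := rfl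
  have h2 := cA_lt
  have hE : 2.7182818283 < E := Real.exp_one_gt_d9
  have hE0 := E_pos
  by_contra h
  push Not at h
  have h3 : 0.39895 * E ≤ U * E := mul_le_mul_of_nonneg_right h.le hE0.le
  nlinarith

lemma r2b_ww_eq_aa (k : ℕ) : ww k = aa k / (E * sq k) := by
  have hE := E_pos
  have hs := sq_pos k
  have h1 : E * ww k = ((k : ℝ) + 1) * tn k := E_ww k
  rw [tn_eq_aa k] at h1
  have h0 : (0 : ℝ) < (k : ℝ) + 1 := by positivity
  have h2 : E * ww k = aa k / sq k := by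
    rw [h1]
    field_simp
  rw [eq_div_iff (by positivity)]
  have h3 : ww k * (E * sq k) = (E * ww k) * sq k := by ring
  rw [h3, h2]
  field_simp

lemma r2b_ww_le_U (k : ℕ) : ww k ≤ U / sq k := by
  have hE := E_pos
  have hs := sq_pos k
  have h := aa_le k
  rw [r2b_ww_eq_aa, div_le_div_iff₀ (by positivity) hs]
  have h1 : cA = U * E := rfl
  rw [h1] at h
  nlinarith

lemma r2b_ww_ge_U (k : ℕ) : U * (1 - 1 / (12 * ((k : ℝ) + 1))) / sq k ≤ ww k := by
  have hE := E_pos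
  have hs := sq_pos k
  have h := le_aa k
  have h1 : cA = U * E := rfl
  rw [h1] at h
  rw [r2b_ww_eq_aa, div_le_div_iff₀ hs (by positivity)]
  have h2 := mul_le_mul_of_nonneg_right h hs.le
  nlinarith

lemma r2b_sq_aux {a b n : ℝ} (hn1 : 1 ≤ n) (ha : 0 < a) (hb : 0 < b) (ha2 : a ^ 2 = n)
    (hb2 : b ^ 2 = n + 1) : 2 * (b - a) * a ≤ 1 - 1 / (12 * n) := by
  have hab : a ≤ b := by nlinarith
  have key : (12 * n + 1) * a ≤ (12 * n - 1) * b := by
    have h0 : 0 ≤ (12 * n - 1) * b := by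
      apply mul_nonneg _ hb.le
      linarith
    apply le_of_sq_le_sq _ h0
    rw [mul_pow, mul_pow, ha2, hb2]
    nlinarith
  have h1 : (b - a) * (b + a) = 1 := by nlinarith
  have h2 : 2 * a * (12 * n) ≤ (12 * n - 1) * (b + a) := by nlinarith
  have h3 : 2 * a * (12 * n) * (b - a) ≤ (12 * n - 1) := by
    have := mul_le_mul_of_nonneg_right h2 (sub_nonneg.mpr hab)
    have e : (12 * n - 1) * (b + a) * (b - a) = (12 * n - 1) * ((b - a) * (b + a)) := by ring
    rw [e, h1, mul_one] at this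
    exact this
  have h5 : (0 : ℝ) < 12 * n := by linarith
  rw [le_sub_iff_add_le, ← sub_nonneg]
  have h6 : 1 - (2 * (b - a) * a + 1 / (12 * n)) = ((12 * n - 1) - 2 * a * (12 * n) * (b - a)) / (12 * n) := by
    field_simp
    ring
  rw [h6]
  apply div_nonneg _ h5.le
  linarith

/-- `ww k ≥ 2 U (√(k+2) - √(k+1))` -/
lemma r2b_ww_ge_sq (k : ℕ) : 2 * U * (sq (k + 1) - sq k) ≤ ww k := by
  refine le_trans ?_ (r2b_ww_ge_U k)
  have hU := U_pos
  have ha := sq_pos k
  have hb := sq_pos (k + 1)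
  have hk : (0 : ℝ) < (k : ℝ) + 1 := by positivity
  have ha2 : sq k ^ 2 = (k : ℝ) + 1 := Real.sq_sqrt hk.le
  have hb2 : sq (k + 1) ^ 2 = (k : ℝ) + 1 + 1 := by
    unfold sq
    rw [Real.sq_sqrt (by positivity)]
    push_cast
    ring
  have hn1 : 1 ≤ (k : ℝ) + 1 := by
    have : (0 : ℝ) ≤ k := Nat.cast_nonneg k
    linarith
  have h4 := r2b_sq_aux hn1 ha hb ha2 hb2
  rw [le_div_iff₀ ha]
  have h7 := mul_le_mul_of_nonneg_left h4 hU.le
  linarith

lemma r2b_ww_le_sq (k : ℕ) : ww k ≤ 2 * U * (sq k - √(k : ℝ)) := by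
  refine (r2b_ww_le_U k).trans ?_
  have hU := U_pos
  have ha := sq_pos k
  have hk : (0 : ℝ) ≤ k := Nat.cast_nonneg k
  have ha2 : sq k ^ 2 = (k : ℝ) + 1 := Real.sq_sqrt (by positivity)
  have hb2 : √(k : ℝ) ^ 2 = (k : ℝ) := Real.sq_sqrt hk
  have hb := Real.sqrt_nonneg (k : ℝ)
  rw [div_le_iff₀ ha]
  have h1 : (sq k - √(k : ℝ)) * (sq k + √(k : ℝ)) = 1 := by nlinarith
  have h2 : √(k : ℝ) ≤ sq k := Real.sqrt_le_sqrt (by linarith)
  have h3 : 1 ≤ 2 * (sq k - √(k : ℝ)) * sq k := by nlinarith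
  nlinarith

lemma r2b_WW_le_U (y : ℕ) : WW y ≤ 2 * U * √(y : ℝ) := by
  induction y with
  | zero => simp [WW]
  | succ y ih =>
    have h1 : WW (y + 1) = WW y + ww y := by unfold WW; rw [Finset.sum_range_succ]
    have h2 := r2b_ww_le_sq y
    have h3 : √((y + 1 : ℕ) : ℝ) = sq y := by unfold sq; push_cast; rfl
    rw [h1, h3]
    nlinarith

lemma r2b_WW_sub_ge {a b : ℕ} (h : b ≤ a) : 2 * U * (sq a - sq b) ≤ WW a - WW b := by
  induction h with
  | refl => simp
  | step hab ih =>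
    rename_i m
    have h1 : WW (m + 1) = WW m + ww m := by unfold WW; rw [Finset.sum_range_succ]
    have h2 := r2b_ww_ge_sq m
    have h3 : WW (m.succ) = WW m + ww m := h1
    have h4 : sq m.succ = sq (m + 1) := rfl
    rw [h3, h4]
    nlinarith

lemma r2b_WW_ge_U (y : ℕ) : 2 * U * (sq y - 1) ≤ WW y := by
  have h := r2b_WW_sub_ge (Nat.zero_le y)
  have h0 : sq 0 = 1 := by unfold sq; simp
  have h1 : WW 0 = 0 := by simp [WW]
  rw [h0, h1, sub_zero] at h
  exact h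

/-- the weight of a block -/
lemma r2b_sum_Ico_ww (N p q : ℕ) (hpq : p ≤ q) (hq : q ≤ N) :
    ∑ i ∈ Ico p q, ww (N - 1 - i) = WW (N - p) - WW (N - q) := by
  induction q, hpq using Nat.le_induction with
  | base => simp
  | succ q hpq ih =>
    rw [Finset.sum_Ico_succ_top hpq, ih (by omega)]
    have h1 : N - q = (N - (q + 1)) + 1 := by omega
    have h2 : WW (N - q) = WW (N - (q + 1)) + ww (N - (q + 1)) := by
      rw [h1]; unfold WW; rw [Finset.sum_range_succ]
    have h3 : N - 1 - q = N - (q + 1) := by omega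
    rw [h2, h3]
    ring

end Pool.Agent.MP_9da1e3_co
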