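import Pool.Agent.Lib.MP_9da1e3_co.V2_R2b1
import Pool.Agent.Lib.MP_9da1e3_co.KV2
import Pool.Agent.Lib.MP_9da1e3_co.NR2

namespace Pool.Agent.MP_9da1e3_co

open Finset

lemma r2b_thL_ge (L : ℕ) (hL : 1 ≤ L) : 1 - 3 / (L : ℝ) ≤ thL L := by
  have hL0 : (0 : ℝ) < L := by exact_mod_cast hL
  have ht := tn_pos L
  have h1 := tn_succ_ge L
  have h2 : 1 - 2 / ((L : ℝ) + 2) ≤ tn (L + 1) / tn L := by
    rw [le_div_iff₀ ht]
    linarith
  unfold thL
  have e1 : 1 - 2 / ((L : ℝ) + 2) = (L : ℝ) / (L + 2) := by field_simp; ring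
  rw [e1] at h2
  have h3 : (0 : ℝ) ≤ ((L : ℝ) + 1) / (L + 2) := by positivity
  have h4 := mul_le_mul_of_nonneg_right h2 h3
  refine le_trans ?_ h4
  have e2 : 1 - 3 / (L : ℝ) = ((L : ℝ) - 3) / L := by field_simp
  rw [e2, div_mul_div_comm, div_le_div_iff₀ hL0 (by positivity)]
  nlinarith

lemma r2b_thL_le_one (L : ℕ) : thL L ≤ 1 := by
  have ht := tn_pos L
  have ht1 := tn_pos (L + 1)
  have h1 : tn (L + 1) / tn L ≤ 1 := by
    rw [div_le_one ht]
    exact tn_anti L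
  have h2 : ((L : ℝ) + 1) / (L + 2) ≤ 1 := by
    rw [div_le_one (by positivity)]
    linarith
  have h3 : (0 : ℝ) ≤ ((L : ℝ) + 1) / (L + 2) := by positivity
  have h4 : 0 ≤ tn (L + 1) / tn L := by positivity
  unfold thL
  nlinarith

lemma r2b_gg_ext (L p : ℕ) : ∀ k : ℕ, p + k ≤ L → (∀ r, p + 1 ≤ r → r ≤ p + k → bb L r < 0) →
    thL L ^ k * gg L p ≤ gg L (p + k) := by
  intro k
  induction k with
  | zero => intro _ _; simp
  | succ k ih =>
    intro hk h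
    have h1 := ih (by omega) (fun r hr1 hr2 => h r hr1 (by omega))
    have h2 := gg_succ_ge L (p + k) (by omega)
    have h3 := h (p + k + 1) (by omega) (by omega)
    rw [bb_succ] at h3
    have hth := thL_pos L
    have h4 := mul_le_mul_of_nonneg_left h1 hth.le
    rw [pow_succ']
    have e : p + (k + 1) = p + k + 1 := by omega
    rw [e]
    nlinarith

/-- lower bound for `gg (L + 1) i` from an earlier place -/
lemma r2b_gg_level (L p i : ℕ) (hL : 3 ≤ L) (hpi : p ≤ i) (hi : i + 1 ≤ L)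
    (h : ∀ r, p + 1 ≤ r → r ≤ i → bb L r < 0) :
    (1 - 3 * ((i : ℝ) - p + 1) / L) * gg L p ≤ gg (L + 1) i := by
  obtain ⟨k, rfl⟩ : ∃ k, i = p + k := ⟨i - p, by omega⟩
  have h1 := r2b_gg_ext L p k (by omega) h
  have h2 := gg_succ_ge L (p + k) (by omega)
  have hth := thL_pos L
  have hg := gg_nonneg L p
  have h3 : thL L ^ (k + 1) * gg L p ≤ gg (L + 1) (p + k) := by
    have := mul_le_mul_of_nonneg_left h1 hth.le
    rw [pow_succ']
    nlinarith
  refine le_trans ?_ h3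
  apply mul_le_mul_of_nonneg_right _ hg
  have hL0 : (0 : ℝ) < L := by exact_mod_cast (by omega : 0 < L)
  have hL3 : (3 : ℝ) ≤ L := by exact_mod_cast hL
  have h4 : (0 : ℝ) ≤ 1 - 3 / (L : ℝ) := by
    rw [sub_nonneg, div_le_one hL0]
    exact hL3
  have h5 := pow_le_pow_left₀ h4 (r2b_thL_ge L (by omega)) (k + 1)
  refine le_trans ?_ h5
  have h6 := one_add_mul_le_pow (a := -(3 / (L : ℝ))) (by
    have : 3 / (L : ℝ) ≤ 1 := by rw [div_le_one hL0]; exact hL3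
    linarith) (k + 1)
  have e1 : 1 + -(3 / (L : ℝ)) = 1 - 3 / (L : ℝ) := by ring
  rw [e1] at h6
  refine le_trans (le_of_eq ?_) h6
  push_cast
  ring

/-- the one step lower bound at a level `p ≈ α M`, `x = √M` -/
lemma r2b_level_lb (L p : ℕ) (x α s σ : ℝ) (hx : 34 ≤ x) (hL : 1.25 * x ^ 3 ≤ L)
    (hp : (p : ℝ) ≤ α * x ^ 2) (hp1 : α * x ^ 2 ≤ p + 1) (hα : 0 ≤ α)
    (hs0 : 0 ≤ s) (hs : s ^ 2 ≤ α) (hσ0 : 0 ≤ σ) (hσ : α ≤ σ ^ 2)
    (hB : 0 ≤ (2 * U * s - α ^ 2 / 2) * x - 2 * U - 0.8 * α * σ - 1.6 * α / x)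
    (hLB : tn L * (WW p - (0.625 * (p : ℝ) ^ 2 + p * √(p : ℝ) + 2 * p) / L) ≤ (L + p) * gg L p) :
    tn L * ((1 - 0.8 * α / x) * ((2 * U * s - α ^ 2 / 2) * x - 2 * U - 0.8 * α * σ - 1.6 * α / x)) ≤
      L * gg L p := by
  have hx0 : 0 < x := by linarith
  have hL0 : (0 : ℝ) < L := lt_of_lt_of_le (by positivity) hL
  have hU := U_pos
  have ht := tn_pos L
  have hp0 : (0 : ℝ) ≤ p := Nat.cast_nonneg p
  have hg := gg_nonneg L p
  have h1 : s * x ≤ sq p := by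
    unfold sq
    apply Real.le_sqrt_of_sq_le
    have : (s * x) ^ 2 = s ^ 2 * x ^ 2 := by ring
    rw [this]
    have := mul_le_mul_of_nonneg_right hs (sq_nonneg x)
    linarith
  have h2 : 2 * U * (s * x - 1) ≤ WW p := by
    refine le_trans ?_ (r2b_WW_ge_U p)
    have := mul_le_mul_of_nonneg_left h1 hU.le
    linarith
  have h3 : √(p : ℝ) ≤ σ * x := by
    rw [show σ * x = √((σ * x) ^ 2) from (Real.sqrt_sq (by positivity)).symm]
    apply Real.sqrt_le_sqrt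
    have : (σ * x) ^ 2 = σ ^ 2 * x ^ 2 := by ring
    rw [this]
    have := mul_le_mul_of_nonneg_right hσ (sq_nonneg x)
    linarith
  have h4 : (0.625 * (p : ℝ) ^ 2 + p * √(p : ℝ) + 2 * p) / L ≤ α ^ 2 / 2 * x + 0.8 * α * σ + 1.6 * α / x := by
    rw [div_le_iff₀ hL0]
    have a1 : (p : ℝ) ^ 2 ≤ (α * x ^ 2) ^ 2 := pow_le_pow_left₀ hp0 hp 2
    have a2 : (p : ℝ) * √(p : ℝ) ≤ (α * x ^ 2) * (σ * x) :=
      mul_le_mul hp h3 (Real.sqrt_nonneg _) (by positivity)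
    have a3 : (α ^ 2 / 2 * x + 0.8 * α * σ + 1.6 * α / x) * (1.25 * x ^ 3) ≤
        (α ^ 2 / 2 * x + 0.8 * α * σ + 1.6 * α / x) * L :=
      mul_le_mul_of_nonneg_left hL (by positivity)
    have a4 : (α ^ 2 / 2 * x + 0.8 * α * σ + 1.6 * α / x) * (1.25 * x ^ 3) =
        0.625 * (α * x ^ 2) ^ 2 + (α * x ^ 2) * (σ * x) + 2 * (α * x ^ 2) := by
      field_simp
      ring
    rw [a4] at a3
    linarith
  obtain ⟨B, hBd⟩ : ∃ B, B = (2 * U * s - α ^ 2 / 2) * x - 2 * U - 0.8 * α * σ - 1.6 * α / x := ⟨_, rfl⟩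
  rw [← hBd] at hB ⊢
  have h5 : tn L * B ≤ (L + p) * gg L p := by
    refine le_trans ?_ hLB
    apply mul_le_mul_of_nonneg_left _ ht.le
    rw [hBd]
    linarith
  have h6 : (1 - 0.8 * α / x) * (L + p) ≤ L := by
    have a1 : (p : ℝ) ≤ 0.8 * α / x * L := by
      refine hp.trans ?_
      have a2 : 0.8 * α / x * (1.25 * x ^ 3) ≤ 0.8 * α / x * L :=
        mul_le_mul_of_nonneg_left hL (by positivity)
      have a3 : 0.8 * α / x * (1.25 * x ^ 3) = α * x ^ 2 := by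
        field_simp
        ring
      linarith
    have a2 : 0 ≤ 0.8 * α / x * p := by positivity
    nlinarith
  rcases le_or_gt (1 - 0.8 * α / x) 0 with h7 | h7
  · have h8 : tn L * ((1 - 0.8 * α / x) * B) ≤ 0 := by
      apply mul_nonpos_of_nonneg_of_nonpos ht.le
      exact mul_nonpos_of_nonpos_of_nonneg h7 hB
    have h9 : 0 ≤ (L : ℝ) * gg L p := by positivity
    linarith
  · have h8 := mul_le_mul_of_nonneg_left h5 h7.le
    have h9 : (1 - 0.8 * α / x) * ((L + p) * gg L p) ≤ L * gg L p := by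
      have := mul_le_mul_of_nonneg_right h6 hg
      linarith
    linarith

end Pool.Agent.MP_9da1e3_co
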