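import Pool.Agent.Lib.MP_9da1e3_co.V2_R2b2

namespace Pool.Agent.MP_9da1e3_co

open Finset

lemma r2b_WW_zero87 : WW 0 = 0 := by simp [WW]

/-- block lower bound of the convolution -/
lemma r2b_conv_levels (N p3 p2 p1 : ℕ) (G : ℕ → ℝ) (G3 G2 G1 : ℝ) (h32 : p3 ≤ p2) (h21 : p2 ≤ p1)
    (h1N : p1 ≤ N) (hG : ∀ i, i < N → 0 ≤ G i) (h3 : ∀ i, p3 ≤ i → i < p2 → G3 ≤ G i)
    (h2 : ∀ i, p2 ≤ i → i < p1 → G2 ≤ G i) (h1 : ∀ i, p1 ≤ i → i < N → G1 ≤ G i) :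
    G3 * (WW (N - p3) - WW (N - p2)) + G2 * (WW (N - p2) - WW (N - p1)) + G1 * WW (N - p1) ≤
      ∑ i ∈ range N, ww (N - 1 - i) * G i := by
  have hblock : ∀ (p q : ℕ) (C : ℝ), p ≤ q → q ≤ N → (∀ i, p ≤ i → i < q → C ≤ G i) →
      C * (WW (N - p) - WW (N - q)) ≤ ∑ i ∈ Ico p q, ww (N - 1 - i) * G i := by
    intro p q C hpq hq h
    rw [← r2b_sum_Ico_ww N p q hpq hq, Finset.mul_sum]
    apply Finset.sum_le_sum
    intro i hi
    rw [Finset.mem_Ico] at hi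
    have := h i hi.1 hi.2
    have hw := ww_pos (N - 1 - i)
    nlinarith
  have b3 := hblock p3 p2 G3 h32 (by omega) h3
  have b2 := hblock p2 p1 G2 h21 h1N h2
  have b1 := hblock p1 N G1 h1N le_rfl h1
  have b0 : 0 ≤ ∑ i ∈ Ico 0 p3, ww (N - 1 - i) * G i := by
    apply Finset.sum_nonneg
    intro i hi
    rw [Finset.mem_Ico] at hi
    exact mul_nonneg (ww_pos _).le (hG i (by omega))
  rw [Nat.sub_self, r2b_WW_zero87, sub_zero] at b1
  have e : ∑ i ∈ range N, ww (N - 1 - i) * G i = ∑ i ∈ Ico 0 p3, ww (N - 1 - i) * G i +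
      ∑ i ∈ Ico p3 p2, ww (N - 1 - i) * G i + ∑ i ∈ Ico p2 p1, ww (N - 1 - i) * G i +
      ∑ i ∈ Ico p1 N, ww (N - 1 - i) * G i := by
    rw [Finset.range_eq_Ico, Finset.sum_Ico_consecutive _ (Nat.zero_le _) h32,
      Finset.sum_Ico_consecutive _ (by omega) h21, Finset.sum_Ico_consecutive _ (by omega) h1N]
  rw [e]
  linarith

/-- the perturbation terms -/
lemma r2b_kap_sum_le (hw2 : ∀ k, w2 k ≤ 1 / 2) (L N : ℕ) (hL : 1 ≤ L) (hN : N + 1 ≤ L)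
    (hneg : ∀ r, 1 ≤ r → r ≤ N → bb L r < 0) :
    ∑ r ∈ range (N + 1), kap N r * bb L r ≤ tn L / L * (WW N / 2) := by
  rw [Finset.sum_range_succ', bb_zero, mul_zero, add_zero]
  have e : tn L / L * (WW N / 2) = ∑ r ∈ range N, tn L / L * (ww r / 2) := by
    unfold WW
    rw [Finset.sum_div, Finset.mul_sum]
  rw [e]
  apply Finset.sum_le_sum
  intro r hr
  rw [Finset.mem_range] at hr
  have h1 := hneg (r + 1) (by omega) (by omega)
  have h2 := bb_ge_ww L hL r (by omega)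
  have h3 : -(1 / 2) ≤ kap N (r + 1) := by
    unfold kap
    have a1 : (0 : ℝ) ≤ (((r + 1 : ℕ) : ℝ) - 1) * ww (N - (r + 1)) := by
      apply mul_nonneg _ (ww_pos _).le
      push_cast
      have : (0 : ℝ) ≤ r := Nat.cast_nonneg r
      linarith
    have a2 : (if r + 1 < N then w2 (N - (r + 1) - 1) else 0) ≤ 1 / 2 := by
      split_ifs
      · exact hw2 _
      · norm_num
    linarith
  have h4 : kap N (r + 1) * bb L (r + 1) ≤ (1 / 2) * (-bb L (r + 1)) := by nlinarith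
  have h5 : (1 / 2) * (-bb L (r + 1)) ≤ (1 / 2) * (tn L / L * ww r) := by linarith
  linarith

/-- the final inequality -/
lemma r2b_final_poly (x : ℝ) (hx : 34 ≤ x) :
    1.25 * x ^ 3 + x ^ 2 + 2 * x ≤ 4 * (x - 1.104) *
      ((0.4404 * x - 1.3311) * (0.6782 * x - 1) + (0.387565 * x - 1.02643) * (0.16436 * x - 0.022) +
        (0.2849 * x - 0.87543) * (0.08688 * x - 0.0176)) := by
  obtain ⟨y, hy⟩ : ∃ y, y = x - 34 := ⟨_, rfl⟩
  have hy0 : 0 ≤ y := by linarith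
  have hxy : x = 34 + y := by linarith
  subst hxy
  nlinarith [mul_nonneg hy0 hy0, mul_nonneg (mul_nonneg hy0 hy0) hy0]

lemma r2b_gam1 (x u : ℝ) (hx : 34 ≤ x) (hu : 0.3989 ≤ u) (hu2 : u ≤ 0.39895) :
    0.4404 * x - 1.3311 ≤ (1 - 0.8 * 0.54 / x) *
      ((2 * u * 0.7348 - 0.54 ^ 2 / 2) * x - 2 * u - 0.8 * 0.54 * 0.7349 - 1.6 * 0.54 / x) ∧
    0 ≤ (2 * u * 0.7348 - 0.54 ^ 2 / 2) * x - 2 * u - 0.8 * 0.54 * 0.7349 - 1.6 * 0.54 / x := by
  have hx0 : 0 < x := by linarith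
  obtain ⟨t, ht⟩ : ∃ t, t = 1 / x := ⟨_, rfl⟩
  have ht0 : 0 < t := by rw [ht]; positivity
  have htx : t * x = 1 := by rw [ht]; field_simp
  have ht1 : t ≤ 1 / 34 := by rw [ht]; exact one_div_le_one_div_of_le (by norm_num) hx
  have e1 : 0.8 * 0.54 / x = 0.432 * t := by rw [ht]; ring
  have e2 : 1.6 * 0.54 / x = 0.864 * t := by rw [ht]; ring
  rw [e1, e2]
  have hB : 0.440423 * x - 1.1409 ≤ (2 * u * 0.7348 - 0.54 ^ 2 / 2) * x - 2 * u -
      0.8 * 0.54 * 0.7349 - 0.864 * t := by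
    have : 0.3989 * x ≤ u * x := mul_le_mul_of_nonneg_right hu hx0.le
    nlinarith
  constructor
  · have h1 : (1 - 0.432 * t) * (0.440423 * x - 1.1409) ≤ (1 - 0.432 * t) *
      ((2 * u * 0.7348 - 0.54 ^ 2 / 2) * x - 2 * u - 0.8 * 0.54 * 0.7349 - 0.864 * t) :=
      mul_le_mul_of_nonneg_left hB (by linarith)
    refine le_trans ?_ h1
    have e : (1 - 0.432 * t) * (0.440423 * x - 1.1409) = 0.440423 * x - 1.1409 -
      0.432 * 0.440423 * (t * x) + 0.432 * 1.1409 * t := by ring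
    rw [e, htx]
    nlinarith
  · nlinarith

lemma r2b_gam2 (x u : ℝ) (hx : 34 ≤ x) (hu : 0.3989 ≤ u) (hu2 : u ≤ 0.39895) :
    0.387565 * x - 1.02643 ≤ (1 - 0.8 * 0.29 / x) *
      ((2 * u * 0.5385 - 0.29 ^ 2 / 2) * x - 2 * u - 0.8 * 0.29 * 0.5386 - 1.6 * 0.29 / x) ∧
    0 ≤ (2 * u * 0.5385 - 0.29 ^ 2 / 2) * x - 2 * u - 0.8 * 0.29 * 0.5386 - 1.6 * 0.29 / x := by
  have hx0 : 0 < x := by linarith
  obtain ⟨t, ht⟩ : ∃ t, t = 1 / x := ⟨_, rfl⟩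
  have ht0 : 0 < t := by rw [ht]; positivity
  have htx : t * x = 1 := by rw [ht]; field_simp
  have ht1 : t ≤ 1 / 34 := by rw [ht]; exact one_div_le_one_div_of_le (by norm_num) hx
  have e1 : 0.8 * 0.29 / x = 0.232 * t := by rw [ht]; ring
  have e2 : 1.6 * 0.29 / x = 0.464 * t := by rw [ht]; ring
  rw [e1, e2]
  have hB : 0.387565 * x - 0.93651 ≤ (2 * u * 0.5385 - 0.29 ^ 2 / 2) * x - 2 * u -
      0.8 * 0.29 * 0.5386 - 0.464 * t := by
    have : 0.3989 * x ≤ u * x := mul_le_mul_of_nonneg_right hu hx0.le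
    nlinarith
  constructor
  · have h1 : (1 - 0.232 * t) * (0.387565 * x - 0.93651) ≤ (1 - 0.232 * t) *
      ((2 * u * 0.5385 - 0.29 ^ 2 / 2) * x - 2 * u - 0.8 * 0.29 * 0.5386 - 0.464 * t) :=
      mul_le_mul_of_nonneg_left hB (by linarith)
    refine le_trans ?_ h1
    have e : (1 - 0.232 * t) * (0.387565 * x - 0.93651) = 0.387565 * x - 0.93651 -
      0.232 * 0.387565 * (t * x) + 0.232 * 0.93651 * t := by ring
    rw [e, htx]
    nlinarith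
  · nlinarith

lemma r2b_gam3 (x u : ℝ) (hx : 34 ≤ x) (hu : 0.3989 ≤ u) (hu2 : u ≤ 0.39895) :
    0.2849 * x - 0.87543 ≤ (1 - 0.8 * 0.136 / x) *
      ((2 * u * 0.3687 - 0.136 ^ 2 / 2) * x - 2 * u - 0.8 * 0.136 * 0.3688 - 1.6 * 0.136 / x) ∧
    0 ≤ (2 * u * 0.3687 - 0.136 ^ 2 / 2) * x - 2 * u - 0.8 * 0.136 * 0.3688 - 1.6 * 0.136 / x := by
  have hx0 : 0 < x := by linarith
  obtain ⟨t, ht⟩ : ∃ t, t = 1 / x := ⟨_, rfl⟩
  have ht0 : 0 < t := by rw [ht]; positivity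
  have htx : t * x = 1 := by rw [ht]; field_simp
  have ht1 : t ≤ 1 / 34 := by rw [ht]; exact one_div_le_one_div_of_le (by norm_num) hx
  have e1 : 0.8 * 0.136 / x = 0.1088 * t := by rw [ht]; ring
  have e2 : 1.6 * 0.136 / x = 0.2176 * t := by rw [ht]; ring
  rw [e1, e2]
  have hB : 0.2849 * x - 0.84443 ≤ (2 * u * 0.3687 - 0.136 ^ 2 / 2) * x - 2 * u -
      0.8 * 0.136 * 0.3688 - 0.2176 * t := by
    have : 0.3989 * x ≤ u * x := mul_le_mul_of_nonneg_right hu hx0.le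
    nlinarith
  constructor
  · have h1 : (1 - 0.1088 * t) * (0.2849 * x - 0.84443) ≤ (1 - 0.1088 * t) *
      ((2 * u * 0.3687 - 0.136 ^ 2 / 2) * x - 2 * u - 0.8 * 0.136 * 0.3688 - 0.2176 * t) :=
      mul_le_mul_of_nonneg_left hB (by linarith)
    refine le_trans ?_ h1
    have e : (1 - 0.1088 * t) * (0.2849 * x - 0.84443) = 0.2849 * x - 0.84443 -
      0.1088 * 0.2849 * (t * x) + 0.1088 * 0.84443 * t := by ring
    rw [e, htx]
    nlinarith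
  · nlinarith

end Pool.Agent.MP_9da1e3_co
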