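import Pool.Agent.Lib.MP_9da1e3_co.V2_R2b3
import Pool.Agent.Lib.MP_9da1e3_co.KV4
import Pool.Agent.Lib.MP_9da1e3_co.GL4

namespace Pool.Agent.MP_9da1e3_co

open Finset

/-! The first sign change of `bb L` for `L ≥ 20000` (levels, with the sharp one step bound). -/

lemma r2c_exists_M (L : ℕ) (hL : 20000 ≤ L) : ∃ M : ℕ, 634 ≤ M ∧ M < L ∧ 25 * M ^ 3 ≤ 16 * L ^ 2 ∧
    16 * L ^ 2 < 25 * (M + 1) ^ 3 := by
  classical
  obtain ⟨M, hMd⟩ : ∃ M, M = Nat.findGreatest (fun M => 25 * M ^ 3 ≤ 16 * L ^ 2) L := ⟨_, rfl⟩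
  have h1 : 25 * M ^ 3 ≤ 16 * L ^ 2 := by
    have := Nat.findGreatest_spec (P := fun M => 25 * M ^ 3 ≤ 16 * L ^ 2) (m := 0) (n := L)
      (Nat.zero_le _) (by simp)
    rw [← hMd] at this
    exact this
  have h2 : 634 ≤ M := by
    rw [hMd]
    apply Nat.le_findGreatest (by omega)
    have h0 : 20000 ^ 2 ≤ L ^ 2 := Nat.pow_le_pow_left hL 2
    have h00 : 25 * 634 ^ 3 ≤ 16 * 20000 ^ 2 := by norm_num
    exact h00.trans (Nat.mul_le_mul_left 16 h0)
  have h3 : M ≤ L := by rw [hMd]; exact Nat.findGreatest_le _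
  have h4 : M < L := by
    rcases Nat.lt_or_ge M L with h | h
    · exact h
    · exfalso
      have e : M = L := le_antisymm h3 h
      rw [e] at h1
      have h5 : L ^ 3 = L * L ^ 2 := by ring
      rw [h5] at h1
      have h6 : 0 < L ^ 2 := by positivity
      nlinarith
  refine ⟨M, h2, h4, h1, ?_⟩
  have h5 := Nat.findGreatest_is_greatest (P := fun M => 25 * M ^ 3 ≤ 16 * L ^ 2) (n := L) (k := M + 1)
    (by rw [← hMd]; omega) (by omega)
  exact Nat.lt_of_not_le h5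

/-- `∑_{k ≤ m} √(k+1) ≥ (2/3) (m+1)^{3/2}` -/
lemma r2c_sum_sq (m : ℕ) : 2 / 3 * (((m : ℝ) + 1) * sq m) ≤ ∑ k ∈ range (m + 1), sq k := by
  induction m with
  | zero =>
    have : sq 0 = 1 := by unfold sq; simp
    simp [this]
    norm_num
  | succ m ih =>
    rw [Finset.sum_range_succ]
    have ha := sq_pos m
    have hb := sq_pos (m + 1)
    have ha2 : sq m ^ 2 = (m : ℝ) + 1 := Real.sq_sqrt (by positivity)
    have hb2 : sq (m + 1) ^ 2 = (m : ℝ) + 1 + 1 := by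
      unfold sq
      rw [Real.sq_sqrt (by positivity)]
      push_cast
      ring
    refine le_trans ?_ (add_le_add_left ih _)
    push_cast
    rw [← ha2] at hb2 ⊢
    rw [show sq m ^ 2 + 1 = sq (m + 1) ^ 2 from hb2.symm]
    -- 2/3 b^3 ≤ 2/3 a^3 + b with b^2 = a^2 + 1
    have hab : sq m ≤ sq (m + 1) := by nlinarith
    have h1 : (sq (m + 1) - sq m) * (sq (m + 1) + sq m) = 1 := by nlinarith
    have h2 : sq (m + 1) ^ 2 * sq (m + 1) - sq m ^ 2 * sq m ≤ 3 / 2 * sq (m + 1) := by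
      have h3 : 0 ≤ (sq (m + 1) - sq m) := by linarith
      have h4 : sq (m + 1) ^ 2 * sq (m + 1) - sq m ^ 2 * sq m =
        (sq (m + 1) - sq m) * (sq (m + 1) ^ 2 + sq (m + 1) * sq m + sq m ^ 2) := by ring
      rw [h4]
      have h5 : sq (m + 1) ^ 2 + sq (m + 1) * sq m + sq m ^ 2 ≤
          3 / 2 * sq (m + 1) * (sq (m + 1) + sq m) := by nlinarith
      have h6 := mul_le_mul_of_nonneg_left h5 h3
      have h7 : (sq (m + 1) - sq m) * (3 / 2 * sq (m + 1) * (sq (m + 1) + sq m)) =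
        3 / 2 * sq (m + 1) * ((sq (m + 1) - sq m) * (sq (m + 1) + sq m)) := by ring
      rw [h7, h1, mul_one] at h6
      exact h6
    linarith

lemma r2c_S1_ge (m : ℕ) : 2 * U * (2 / 3 * (((m : ℝ) + 1) * sq m) - ((m : ℝ) + 1)) ≤ gl_S1 m := by
  have h1 : gl_S1 m = ∑ k ∈ range (m + 1), WW k := rfl
  have h2 : ∑ k ∈ range (m + 1), 2 * U * (sq k - 1) ≤ ∑ k ∈ range (m + 1), WW k :=
    Finset.sum_le_sum fun k _ => r2b_WW_ge_U k
  rw [← Finset.mul_sum, Finset.sum_sub_distrib, Finset.sum_const, Finset.card_range, nsmul_eq_mul,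
    mul_one] at h2
  rw [h1]
  refine le_trans ?_ h2
  have hU := U_pos
  apply mul_le_mul_of_nonneg_left _ (by positivity)
  have := r2c_sum_sq m
  push_cast
  linarith

/-- the one step bound at `p` in closed form -/
lemma r2c_LB (L p : ℕ) (hL : 1 ≤ L) (hp : 80 ≤ p) (hpL : p ≤ L) :
    tn L * (WW p - (0.625 * (p : ℝ) ^ 2 - 0.6648 * (p * √(p : ℝ)) + 0.3 * p) / L) ≤ (L + p) * gg L p := by
  obtain ⟨m, rfl⟩ : ∃ m, p = m + 1 := ⟨p - 1, by omega⟩
  have h := gg_lower_gl L m hpL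
  have hL0 : (0 : ℝ) < L := by exact_mod_cast hL
  have ht := tn_pos L
  have hm : (79 : ℝ) ≤ m := by exact_mod_cast (by omega : 79 ≤ m)
  have hS := r2c_S1_ge m
  have hUlo := r2b_U_lo
  have hUhi := r2b_U_hi
  have hs : √(((m + 1 : ℕ) : ℝ)) = sq m := by unfold sq; push_cast; rfl
  rw [hs]
  have hsq := sq_pos m
  push_cast
  refine le_trans ?_ h
  apply mul_le_mul_of_nonneg_left _ ht.le
  apply sub_le_sub_left
  apply div_le_div_of_nonneg_right _ hL0.le
  have hA : 0 ≤ ((m : ℝ) + 1) * sq m := by positivity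
  obtain ⟨A, hAd⟩ : ∃ A, A = ((m : ℝ) + 1) * sq m := ⟨_, rfl⟩
  rw [← hAd] at hA hS ⊢
  have h1 : 0.3989 * A ≤ U * A := mul_le_mul_of_nonneg_right hUlo hA
  have h2 : U * ((m : ℝ) + 1) ≤ 0.39895 * ((m : ℝ) + 1) := mul_le_mul_of_nonneg_right hUhi (by positivity)
  nlinarith

/-- the bound at a level `p ≈ α M`, `x = √M` -/
lemma r2c_level (L p : ℕ) (x α s : ℝ) (hx : 25 ≤ x) (hL : 1.25 * x ^ 3 ≤ L) (hp80 : 80 ≤ p)
    (hpL : p ≤ L)
    (hp : (p : ℝ) ≤ α * x ^ 2) (hp1 : α * x ^ 2 ≤ p + 1) (hα : 0 ≤ α)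
    (hs : s ^ 2 ≤ α)
    (hB : 0 ≤ (2 * U * s - α ^ 2 / 2) * x - 2 * U + 0.53184 * α * s - 0.24 * α / x) :
    tn L * ((1 - 0.8 * α / x) * ((2 * U * s - α ^ 2 / 2) * x - 2 * U + 0.53184 * α * s - 0.24 * α / x)) ≤
      L * gg L p := by
  have hx0 : 0 < x := by linarith
  have hL0 : (0 : ℝ) < L := lt_of_lt_of_le (by positivity) hL
  have hLB := r2c_LB L p (by exact_mod_cast hL0) hp80 hpL
  have hU := U_pos
  have ht := tn_pos L
  have hp0 : (80 : ℝ) ≤ p := by exact_mod_cast hp80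
  have hg := gg_nonneg L p
  have h1 : s * x ≤ sq p := by
    unfold sq
    apply Real.le_sqrt_of_sq_le
    have : (s * x) ^ 2 = s ^ 2 * x ^ 2 := by ring
    rw [this]
    have := mul_le_mul_of_nonneg_right hs (sq_nonneg x)
    linarith
  have h2 : 2 * U * (s * x - 1) ≤ WW p := by
    refine le_trans ?_ (r2b_WW_ge_U p)
    have := mul_le_mul_of_nonneg_left h1 hU.le
    linarith
  -- monotonicity of R in p
  obtain ⟨P, hP⟩ : ∃ P, P = α * x ^ 2 := ⟨_, rfl⟩
  rw [← hP] at hp hp1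
  have hP0 : 80 ≤ P := by linarith
  obtain ⟨a, ha⟩ : ∃ a, a = √(p : ℝ) := ⟨_, rfl⟩
  obtain ⟨b, hb⟩ : ∃ b, b = √P := ⟨_, rfl⟩
  have ha0 : 1 ≤ a := by rw [ha]; apply Real.le_sqrt_of_sq_le; linarith
  have ha2 : a ^ 2 = p := by rw [ha]; exact Real.sq_sqrt (by positivity)
  have hb2 : b ^ 2 = P := by rw [hb]; exact Real.sq_sqrt (by positivity)
  have hab : a ≤ b := by rw [ha, hb]; exact Real.sqrt_le_sqrt hp
  have hbs : s * x ≤ b := by
    rw [hb]
    apply Real.le_sqrt_of_sq_le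
    have : (s * x) ^ 2 = s ^ 2 * x ^ 2 := by ring
    rw [this, hP]
    exact mul_le_mul_of_nonneg_right hs (sq_nonneg x)
  have h3 : 0.625 * (p : ℝ) ^ 2 - 0.6648 * (p * √(p : ℝ)) + 0.3 * p ≤
      0.625 * P ^ 2 - 0.6648 * (P * (s * x)) + 0.3 * P := by
    rw [← ha]
    have h4 : 0.625 * (p : ℝ) - 0.6648 * a + 0.3 ≤ 0.625 * P - 0.6648 * b + 0.3 := by
      rw [← ha2, ← hb2]
      nlinarith
    have h5 : 0 ≤ 0.625 * P - 0.6648 * b + 0.3 := by
      rw [← hb2]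
      nlinarith
    have h6 : (p : ℝ) * (0.625 * (p : ℝ) - 0.6648 * a + 0.3) ≤ P * (0.625 * P - 0.6648 * b + 0.3) := by
      calc (p : ℝ) * (0.625 * (p : ℝ) - 0.6648 * a + 0.3) ≤ p * (0.625 * P - 0.6648 * b + 0.3) :=
            mul_le_mul_of_nonneg_left h4 (by positivity)
        _ ≤ _ := mul_le_mul_of_nonneg_right hp h5
    have h7 : P * (s * x) ≤ P * b := mul_le_mul_of_nonneg_left hbs (by positivity)
    linarith
  have h4 : (0.625 * (p : ℝ) ^ 2 - 0.6648 * (p * √(p : ℝ)) + 0.3 * p) / L ≤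
      α ^ 2 / 2 * x - 0.53184 * α * s + 0.24 * α / x := by
    rw [div_le_iff₀ hL0]
    refine h3.trans ?_
    have hQ : 0 ≤ α ^ 2 / 2 * x - 0.53184 * α * s + 0.24 * α / x := by
      have h5 : 0 ≤ 0.625 * P ^ 2 - 0.6648 * (P * (s * x)) + 0.3 * P := by
        have : P * (s * x) ≤ P * b := mul_le_mul_of_nonneg_left hbs (by positivity)
        have h8 : P * b ≤ P * P := by
          apply mul_le_mul_of_nonneg_left _ (by positivity)
          rw [← hb2]
          nlinarith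
        have h9 : 0.625 * P ^ 2 - 0.6648 * (P * b) + 0.3 * P = P * (0.625 * b ^ 2 - 0.6648 * b + 0.3) := by
          rw [hb2]; ring
        have h10 : 0 ≤ P * (0.625 * b ^ 2 - 0.6648 * b + 0.3) := by
          apply mul_nonneg (by positivity)
          nlinarith
        linarith
      have e : α ^ 2 / 2 * x - 0.53184 * α * s + 0.24 * α / x =
        (0.625 * P ^ 2 - 0.6648 * (P * (s * x)) + 0.3 * P) / (1.25 * x ^ 3) := by
        rw [hP]
        field_simp
        ring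
      rw [e]
      positivity
    have a3 := mul_le_mul_of_nonneg_left hL hQ
    have a4 : (α ^ 2 / 2 * x - 0.53184 * α * s + 0.24 * α / x) * (1.25 * x ^ 3) =
        0.625 * P ^ 2 - 0.6648 * (P * (s * x)) + 0.3 * P := by
      rw [hP]
      field_simp
      ring
    rw [a4] at a3
    exact a3
  obtain ⟨B, hBd⟩ : ∃ B, B = (2 * U * s - α ^ 2 / 2) * x - 2 * U + 0.53184 * α * s - 0.24 * α / x :=
    ⟨_, rfl⟩
  rw [← hBd] at hB ⊢
  have h5 : tn L * B ≤ (L + p) * gg L p := by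
    refine le_trans ?_ hLB
    apply mul_le_mul_of_nonneg_left _ ht.le
    rw [hBd]
    linarith
  have h6 : (1 - 0.8 * α / x) * (L + p) ≤ L := by
    have a1 : (p : ℝ) ≤ 0.8 * α / x * L := by
      refine hp.trans ?_
      have a2 : 0.8 * α / x * (1.25 * x ^ 3) ≤ 0.8 * α / x * L :=
        mul_le_mul_of_nonneg_left hL (by positivity)
      have a3 : 0.8 * α / x * (1.25 * x ^ 3) = P := by
        rw [hP]
        field_simp
        ring
      linarith
    have a2 : 0 ≤ 0.8 * α / x * p := by positivity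
    nlinarith
  rcases le_or_gt (1 - 0.8 * α / x) 0 with h7 | h7
  · have h8 : tn L * ((1 - 0.8 * α / x) * B) ≤ 0 := by
      apply mul_nonpos_of_nonneg_of_nonpos ht.le
      exact mul_nonpos_of_nonpos_of_nonneg h7 hB
    have h9 : 0 ≤ (L : ℝ) * gg L p := by positivity
    linarith
  · have h8 := mul_le_mul_of_nonneg_left h5 h7.le
    have h9 : (1 - 0.8 * α / x) * ((L + p) * gg L p) ≤ L * gg L p := by
      have := mul_le_mul_of_nonneg_right h6 hg
      linarith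
    linarith

end Pool.Agent.MP_9da1e3_co
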