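import Pool.Agent.Lib.MP_9da1e3_co.V2_R2c1

namespace Pool.Agent.MP_9da1e3_co

open Finset

lemma r2c_final_poly (x : ℝ) (hx : 25 ≤ x) :
    1.25 * x ^ 3 + x ^ 2 + 2 * x ≤ 4 * (x - 1.104) *
      ((0.4404 * x - 0.7824) * (0.6782 * x - 1) + (0.387565 * x - 0.80755) * (0.16436 * x - 0.0296) +
        (0.2849 * x - 0.80354) * (0.08688 * x - 0.0238)) := by
  obtain ⟨y, hy⟩ : ∃ y, y = x - 25 := ⟨_, rfl⟩
  have hy0 : 0 ≤ y := by linarith
  have hxy : x = 25 + y := by linarith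
  subst hxy
  nlinarith [mul_nonneg hy0 hy0, mul_nonneg (mul_nonneg hy0 hy0) hy0]

lemma r2c_gam1 (x u : ℝ) (hx : 25 ≤ x) (hu : 0.3989 ≤ u) (hu2 : u ≤ 0.39895) :
    0.4404 * x - 0.7824 ≤ (1 - 0.8 * 0.54 / x) *
      ((2 * u * 0.7348 - 0.54 ^ 2 / 2) * x - 2 * u + 0.53184 * 0.54 * 0.7348 - 0.24 * 0.54 / x) ∧
    0 ≤ (2 * u * 0.7348 - 0.54 ^ 2 / 2) * x - 2 * u + 0.53184 * 0.54 * 0.7348 - 0.24 * 0.54 / x := by
  have hx0 : 0 < x := by linarith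
  obtain ⟨t, ht⟩ : ∃ t, t = 1 / x := ⟨_, rfl⟩
  have ht0 : 0 < t := by rw [ht]; positivity
  have htx : t * x = 1 := by rw [ht]; field_simp
  have ht1 : t ≤ 1 / 25 := by rw [ht]; exact one_div_le_one_div_of_le (by norm_num) hx
  have e1 : 0.8 * 0.54 / x = 0.432 * t := by rw [ht]; ring
  have e2 : 0.24 * 0.54 / x = 0.1296 * t := by rw [ht]; ring
  rw [e1, e2]
  have hB : 0.440423 * x - 0.5921 ≤ (2 * u * 0.7348 - 0.54 ^ 2 / 2) * x - 2 * u +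
      0.53184 * 0.54 * 0.7348 - 0.1296 * t := by
    have : 0.3989 * x ≤ u * x := mul_le_mul_of_nonneg_right hu hx0.le
    nlinarith
  constructor
  · have h1 : (1 - 0.432 * t) * (0.440423 * x - 0.5921) ≤ (1 - 0.432 * t) *
      ((2 * u * 0.7348 - 0.54 ^ 2 / 2) * x - 2 * u + 0.53184 * 0.54 * 0.7348 - 0.1296 * t) :=
      mul_le_mul_of_nonneg_left hB (by linarith)
    refine le_trans ?_ h1
    have e : (1 - 0.432 * t) * (0.440423 * x - 0.5921) = 0.440423 * x - 0.5921 -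
      0.432 * 0.440423 * (t * x) + 0.432 * 0.5921 * t := by ring
    rw [e, htx]
    nlinarith
  · nlinarith

lemma r2c_gam2 (x u : ℝ) (hx : 25 ≤ x) (hu : 0.3989 ≤ u) (hu2 : u ≤ 0.39895) :
    0.387565 * x - 0.80755 ≤ (1 - 0.8 * 0.29 / x) *
      ((2 * u * 0.5385 - 0.29 ^ 2 / 2) * x - 2 * u + 0.53184 * 0.29 * 0.5385 - 0.24 * 0.29 / x) ∧
    0 ≤ (2 * u * 0.5385 - 0.29 ^ 2 / 2) * x - 2 * u + 0.53184 * 0.29 * 0.5385 - 0.24 * 0.29 / x := by
  have hx0 : 0 < x := by linarith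
  obtain ⟨t, ht⟩ : ∃ t, t = 1 / x := ⟨_, rfl⟩
  have ht0 : 0 < t := by rw [ht]; positivity
  have htx : t * x = 1 := by rw [ht]; field_simp
  have ht1 : t ≤ 1 / 25 := by rw [ht]; exact one_div_le_one_div_of_le (by norm_num) hx
  have e1 : 0.8 * 0.29 / x = 0.232 * t := by rw [ht]; ring
  have e2 : 0.24 * 0.29 / x = 0.0696 * t := by rw [ht]; ring
  rw [e1, e2]
  have hB : 0.387565 * x - 0.71763 ≤ (2 * u * 0.5385 - 0.29 ^ 2 / 2) * x - 2 * u +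
      0.53184 * 0.29 * 0.5385 - 0.0696 * t := by
    have : 0.3989 * x ≤ u * x := mul_le_mul_of_nonneg_right hu hx0.le
    nlinarith
  constructor
  · have h1 : (1 - 0.232 * t) * (0.387565 * x - 0.71763) ≤ (1 - 0.232 * t) *
      ((2 * u * 0.5385 - 0.29 ^ 2 / 2) * x - 2 * u + 0.53184 * 0.29 * 0.5385 - 0.0696 * t) :=
      mul_le_mul_of_nonneg_left hB (by linarith)
    refine le_trans ?_ h1
    have e : (1 - 0.232 * t) * (0.387565 * x - 0.71763) = 0.387565 * x - 0.71763 -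
      0.232 * 0.387565 * (t * x) + 0.232 * 0.71763 * t := by ring
    rw [e, htx]
    nlinarith
  · nlinarith

lemma r2c_gam3 (x u : ℝ) (hx : 25 ≤ x) (hu : 0.3989 ≤ u) (hu2 : u ≤ 0.39895) :
    0.2849 * x - 0.80354 ≤ (1 - 0.8 * 0.136 / x) *
      ((2 * u * 0.3687 - 0.136 ^ 2 / 2) * x - 2 * u + 0.53184 * 0.136 * 0.3687 - 0.24 * 0.136 / x) ∧
    0 ≤ (2 * u * 0.3687 - 0.136 ^ 2 / 2) * x - 2 * u + 0.53184 * 0.136 * 0.3687 - 0.24 * 0.136 / x := by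
  have hx0 : 0 < x := by linarith
  obtain ⟨t, ht⟩ : ∃ t, t = 1 / x := ⟨_, rfl⟩
  have ht0 : 0 < t := by rw [ht]; positivity
  have htx : t * x = 1 := by rw [ht]; field_simp
  have ht1 : t ≤ 1 / 25 := by rw [ht]; exact one_div_le_one_div_of_le (by norm_num) hx
  have e1 : 0.8 * 0.136 / x = 0.1088 * t := by rw [ht]; ring
  have e2 : 0.24 * 0.136 / x = 0.03264 * t := by rw [ht]; ring
  rw [e1, e2]
  have hB : 0.2849 * x - 0.77254 ≤ (2 * u * 0.3687 - 0.136 ^ 2 / 2) * x - 2 * u +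
      0.53184 * 0.136 * 0.3687 - 0.03264 * t := by
    have : 0.3989 * x ≤ u * x := mul_le_mul_of_nonneg_right hu hx0.le
    nlinarith
  constructor
  · have h1 : (1 - 0.1088 * t) * (0.2849 * x - 0.77254) ≤ (1 - 0.1088 * t) *
      ((2 * u * 0.3687 - 0.136 ^ 2 / 2) * x - 2 * u + 0.53184 * 0.136 * 0.3687 - 0.03264 * t) :=
      mul_le_mul_of_nonneg_left hB (by linarith)
    refine le_trans ?_ h1
    have e : (1 - 0.1088 * t) * (0.2849 * x - 0.77254) = 0.2849 * x - 0.77254 -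
      0.1088 * 0.2849 * (t * x) + 0.1088 * 0.77254 * t := by ring
    rw [e, htx]
    nlinarith
  · nlinarith

end Pool.Agent.MP_9da1e3_co
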