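import Pool.Agent.Lib.MP_9da1e3_co.V2_R2c2

namespace Pool.Agent.MP_9da1e3_co

open Finset

lemma r2c_sq_sub (N p : ℕ) (x : ℝ) (h : p ≤ N) (hNx : (N : ℝ) + 1 = x ^ 2) :
    sq (N - p) = √(x ^ 2 - p) := by
  unfold sq
  rw [Nat.cast_sub h, ← hNx]
  congr 1
  ring

lemma r2c_geom1 (N p1 : ℕ) (x : ℝ) (hx : 25 ≤ x) (hNx : (N : ℝ) + 1 = x ^ 2) (hp1N : p1 ≤ N)
    (b1 : (p1 : ℝ) ≤ 0.54 * x ^ 2) (b1' : 0.54 * x ^ 2 ≤ p1 + 1) :
    0.6782 * x ≤ sq (N - p1) ∧ sq (N - p1) ≤ 0.67824 * x + 0.0296 := by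
  have hx0 : 0 < x := by linarith
  rw [r2c_sq_sub N p1 x hp1N hNx]
  have hxx : 0 ≤ x ^ 2 := sq_nonneg x
  constructor
  · apply Real.le_sqrt_of_sq_le
    have e : (0.6782 * x) ^ 2 = 0.6782 ^ 2 * x ^ 2 := by ring
    rw [e]
    linarith
  · rw [Real.sqrt_le_left (by positivity)]
    have e : (0.67824 * x + 0.0296) ^ 2 = 0.67824 ^ 2 * x ^ 2 + 2 * 0.67824 * 0.0296 * x + 0.0296 ^ 2 := by
      ring
    rw [e]
    linarith

lemma r2c_geom2 (N p2 : ℕ) (x : ℝ) (hx : 25 ≤ x) (hNx : (N : ℝ) + 1 = x ^ 2) (hp2N : p2 ≤ N)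
    (b2 : (p2 : ℝ) ≤ 0.29 * x ^ 2) (b2' : 0.29 * x ^ 2 ≤ p2 + 1) :
    0.8426 * x ≤ sq (N - p2) ∧ sq (N - p2) ≤ 0.84262 * x + 0.0238 := by
  have hx0 : 0 < x := by linarith
  rw [r2c_sq_sub N p2 x hp2N hNx]
  have hxx : 0 ≤ x ^ 2 := sq_nonneg x
  constructor
  · apply Real.le_sqrt_of_sq_le
    have e : (0.8426 * x) ^ 2 = 0.8426 ^ 2 * x ^ 2 := by ring
    rw [e]
    linarith
  · rw [Real.sqrt_le_left (by positivity)]
    have e : (0.84262 * x + 0.0238) ^ 2 = 0.84262 ^ 2 * x ^ 2 + 2 * 0.84262 * 0.0238 * x + 0.0238 ^ 2 := by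
      ring
    rw [e]
    linarith

lemma r2c_geom3 (N p3 : ℕ) (x : ℝ) (hx : 25 ≤ x) (hNx : (N : ℝ) + 1 = x ^ 2) (hp3N : p3 ≤ N)
    (b3 : (p3 : ℝ) ≤ 0.136 * x ^ 2) : 0.9295 * x ≤ sq (N - p3) := by
  have hx0 : 0 < x := by linarith
  rw [r2c_sq_sub N p3 x hp3N hNx]
  have hxx : 0 ≤ x ^ 2 := sq_nonneg x
  apply Real.le_sqrt_of_sq_le
  have e : (0.9295 * x) ^ 2 = 0.9295 ^ 2 * x ^ 2 := by ring
  rw [e]
  linarith

lemma r2c_geom (N p1 p2 p3 : ℕ) (x : ℝ) (hx : 25 ≤ x) (hNx : (N : ℝ) + 1 = x ^ 2) (hp1N : p1 ≤ N)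
    (hp21 : p2 ≤ p1) (hp32 : p3 ≤ p2)
    (b1 : (p1 : ℝ) ≤ 0.54 * x ^ 2) (b1' : 0.54 * x ^ 2 ≤ p1 + 1)
    (b2 : (p2 : ℝ) ≤ 0.29 * x ^ 2) (b2' : 0.29 * x ^ 2 ≤ p2 + 1) (b3 : (p3 : ℝ) ≤ 0.136 * x ^ 2) :
    2 * U * (0.6782 * x - 1) ≤ WW (N - p1) ∧
    2 * U * (0.16436 * x - 0.0296) ≤ WW (N - p2) - WW (N - p1) ∧
    2 * U * (0.08688 * x - 0.0238) ≤ WW (N - p3) - WW (N - p2) := by
  obtain ⟨e1, e1'⟩ := r2c_geom1 N p1 x hx hNx hp1N b1 b1'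
  obtain ⟨e2, e2'⟩ := r2c_geom2 N p2 x hx hNx (by omega) b2 b2'
  have e3 := r2c_geom3 N p3 x hx hNx (by omega) b3
  have hU := U_pos
  refine ⟨?_, ?_, ?_⟩
  · refine le_trans ?_ (r2b_WW_ge_U (N - p1))
    exact mul_le_mul_of_nonneg_left (by linarith) (by positivity)
  · refine le_trans ?_ (r2b_WW_sub_ge (by omega : N - p1 ≤ N - p2))
    exact mul_le_mul_of_nonneg_left (by linarith) (by positivity)
  · refine le_trans ?_ (r2b_WW_sub_ge (by omega : N - p2 ≤ N - p3))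
    exact mul_le_mul_of_nonneg_left (by linarith) (by positivity)

lemma r2c_prod {t u k k' w w' L g : ℝ} (hk : t * k ≤ L * g) (hw : 2 * u * w ≤ w')
    (hw0 : 0 ≤ 2 * u * w) (hg : 0 ≤ L * g) (_hk' : k' = k) : t * (2 * u * (k * w)) ≤ L * (g * w') := by
  have h1 := mul_le_mul hk hw hw0 hg
  linarith

/-- the convolution is large -/
lemma r2c_conv (L N p1 p2 p3 : ℕ) (x : ℝ) (hx : 25 ≤ x) (hLx : 1.25 * x ^ 3 ≤ L) (hNL : N + 1 < L)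
    (hNx : (N : ℝ) + 1 = x ^ 2) (hp1N : p1 ≤ N)
    (hp21 : p2 ≤ p1) (hp32 : p3 ≤ p2) (hp3 : 80 ≤ p3)
    (b1 : (p1 : ℝ) ≤ 0.54 * x ^ 2) (b1' : 0.54 * x ^ 2 ≤ p1 + 1)
    (b2 : (p2 : ℝ) ≤ 0.29 * x ^ 2) (b2' : 0.29 * x ^ 2 ≤ p2 + 1) (b3 : (p3 : ℝ) ≤ 0.136 * x ^ 2)
    (b3' : 0.136 * x ^ 2 ≤ p3 + 1) (hneg : ∀ r, 1 ≤ r → r ≤ N + 1 → bb L r < 0) :
    (1 - 1.104 / x) * (tn L * (2 * U * ((0.4404 * x - 0.7824) * (0.6782 * x - 1) +
      (0.387565 * x - 0.80755) * (0.16436 * x - 0.0296) +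
      (0.2849 * x - 0.80354) * (0.08688 * x - 0.0238)))) ≤
      L * ∑ i ∈ range N, ww (N - 1 - i) * gg (L + 1) i := by
  have hx0 : 0 < x := by linarith
  have hLpos : (0 : ℝ) < L := lt_of_lt_of_le (by positivity) hLx
  have hxx : 625 ≤ x ^ 2 := by nlinarith
  have hU := U_pos
  have ht := tn_pos L
  obtain ⟨w1, w2', w3'⟩ := r2c_geom N p1 p2 p3 x hx hNx hp1N hp21 hp32 b1 b1' b2 b2' b3
  have g1 := r2c_gam1 x U hx r2b_U_lo r2b_U_hi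
  have g2 := r2c_gam2 x U hx r2b_U_lo r2b_U_hi
  have g3 := r2c_gam3 x U hx r2b_U_lo r2b_U_hi
  have k1 : tn L * (0.4404 * x - 0.7824) ≤ L * gg L p1 :=
    le_trans (mul_le_mul_of_nonneg_left g1.1 ht.le)
      (r2c_level L p1 x 0.54 0.7348 hx hLx (by omega) (by omega) b1 b1' (by norm_num) (by norm_num) g1.2)
  have k2 : tn L * (0.387565 * x - 0.80755) ≤ L * gg L p2 :=
    le_trans (mul_le_mul_of_nonneg_left g2.1 ht.le)
      (r2c_level L p2 x 0.29 0.5385 hx hLx (by omega) (by omega) b2 b2' (by norm_num) (by norm_num) g2.2)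
  have k3 : tn L * (0.2849 * x - 0.80354) ≤ L * gg L p3 :=
    le_trans (mul_le_mul_of_nonneg_left g3.1 ht.le)
      (r2c_level L p3 x 0.136 0.3687 hx hLx (by omega) (by omega) b3 b3' (by norm_num) (by norm_num) g3.2)
  clear g1 g2 g3
  obtain ⟨θ, hθ⟩ : ∃ θ, θ = 1 - 1.104 / x := ⟨_, rfl⟩
  rw [← hθ]
  have hθ0 : 0 ≤ θ := by
    rw [hθ, sub_nonneg, div_le_one hx0]
    linarith
  have hθle : ∀ (p i : ℕ), (i : ℝ) - p + 1 ≤ 0.46 * x ^ 2 → θ ≤ 1 - 3 * ((i : ℝ) - p + 1) / L := by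
    intro p i h
    rw [hθ]
    have h1 : 3 * ((i : ℝ) - p + 1) / L ≤ 1.104 / x := by
      rw [div_le_div_iff₀ hLpos hx0]
      have h2 : 3 * ((i : ℝ) - p + 1) * x ≤ 3 * (0.46 * x ^ 2) * x :=
        mul_le_mul_of_nonneg_right (by linarith) hx0.le
      have h3 : 3 * (0.46 * x ^ 2) * x = 1.104 * (1.25 * x ^ 3) := by ring
      have h4 := mul_le_mul_of_nonneg_left hLx (by norm_num : (0 : ℝ) ≤ 1.104)
      linarith
    linarith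
  have lev : ∀ (p q : ℕ), p ≤ q → q ≤ N → (q : ℝ) - p ≤ 0.46 * x ^ 2 →
      ∀ i, p ≤ i → i < q → θ * gg L p ≤ gg (L + 1) i := by
    intro p q hpq hqN hd i hi1 hi2
    have h1 := r2b_gg_level L p i (by omega) hi1 (by omega) (fun r hr1 hr2 => hneg r (by omega) (by omega))
    refine le_trans ?_ h1
    apply mul_le_mul_of_nonneg_right _ (gg_nonneg L p)
    apply hθle
    have h2 : (i : ℝ) + 1 ≤ q := by exact_mod_cast hi2
    linarith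
  have d1 : (p2 : ℝ) - p3 ≤ 0.46 * x ^ 2 := by linarith
  have d2 : (p1 : ℝ) - p2 ≤ 0.46 * x ^ 2 := by linarith
  have d3 : (N : ℝ) - p1 ≤ 0.46 * x ^ 2 := by linarith
  have c := r2b_conv_levels N p3 p2 p1 (gg (L + 1)) (θ * gg L p3) (θ * gg L p2) (θ * gg L p1) hp32 hp21 hp1N
    (fun i _ => gg_nonneg _ _) (lev p3 p2 hp32 (by omega) d1) (lev p2 p1 hp21 hp1N d2)
    (lev p1 N hp1N le_rfl d3)
  clear lev hθle hneg
  have q1 := r2c_prod (k' := 0.4404 * x - 0.7824) k1 w1 (mul_nonneg (by positivity) (by linarith))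
    (mul_nonneg hLpos.le (gg_nonneg L p1)) rfl
  have q2 := r2c_prod (k' := 0.387565 * x - 0.80755) k2 w2' (mul_nonneg (by positivity) (by linarith))
    (mul_nonneg hLpos.le (gg_nonneg L p2)) rfl
  have q3 := r2c_prod (k' := 0.2849 * x - 0.80354) k3 w3' (mul_nonneg (by positivity) (by linarith))
    (mul_nonneg hLpos.le (gg_nonneg L p3)) rfl
  have h1 := mul_le_mul_of_nonneg_left c hLpos.le
  have h2 : tn L * (2 * U * ((0.4404 * x - 0.7824) * (0.6782 * x - 1) +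
      (0.387565 * x - 0.80755) * (0.16436 * x - 0.0296) +
      (0.2849 * x - 0.80354) * (0.08688 * x - 0.0238))) ≤ L * (gg L p1 * WW (N - p1)) +
    L * (gg L p2 * (WW (N - p2) - WW (N - p1))) + L * (gg L p3 * (WW (N - p3) - WW (N - p2))) := by
    have e : tn L * (2 * U * ((0.4404 * x - 0.7824) * (0.6782 * x - 1) +
      (0.387565 * x - 0.80755) * (0.16436 * x - 0.0296) +
      (0.2849 * x - 0.80354) * (0.08688 * x - 0.0238))) =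
      tn L * (2 * U * ((0.4404 * x - 0.7824) * (0.6782 * x - 1))) +
      tn L * (2 * U * ((0.387565 * x - 0.80755) * (0.16436 * x - 0.0296))) +
      tn L * (2 * U * ((0.2849 * x - 0.80354) * (0.08688 * x - 0.0238))) := by ring
    rw [e]
    exact add_le_add (add_le_add q1 q2) q3
  refine (mul_le_mul_of_nonneg_left h2 hθ0).trans (le_trans (le_of_eq ?_) h1)
  ring

end Pool.Agent.MP_9da1e3_co
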