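import Pool.Agent.Lib.MP_9da1e3_co.NR3

namespace Pool.Agent.MP_9da1e3_co

open Finset

/-- the inequality after the sign change, term by term -/
theorem r3_near_term (L m0 r : ℕ) (hL : m0 + r + 1 ≤ L) (h0 : ∀ j, j ≤ m0 → bb L j ≤ 0)
    (h1 : 0 ≤ bb L (m0 + 1)) (hb : ∀ k, k < r → 0 ≤ bb L (m0 + 1 + k)) :
    2 * cv L m0 * (thL L ^ r * ak L m0 - ak L (m0 + r)) +
      ak L m0 * ∑ k ∈ range r, (ak L (r - 1 - k) - 2 * PP (r - 1 - k)) * bb L (m0 + 1 + k) ≤
      ak L m0 * (E * (((L : ℝ) + ((m0 + r : ℕ) + 1)) * bb L (m0 + r + 1))) := by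
  have e0 := bb_eq_sb L m0 (by omega)
  have e1 := bb_eq_sb L (m0 + r) (by omega)
  have hE := E_pos
  have q0 : 0 ≤ ∑ j ∈ range (m0 + 1), AA L m0 j * bb L j + sb L m0 := by
    rw [← e0]
    have : (0 : ℝ) ≤ (L : ℝ) + (m0 + 1) := by positivity
    positivity
  have q1 := rhs_ge L m0 (m0 + r) (by omega) h0
  have pm := ak_pos L (m0 + r)
  have pm0 := ak_pos L m0
  have q5 := cv_iter L m0 h0 r (by omega) hb
  have q8 : ∑ j ∈ range (m0 + r + 1), AA L (m0 + r) j * bb L j =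
      ∑ j ∈ range (m0 + 1), AA L (m0 + r) j * bb L j +
      ∑ k ∈ range r, ak L (r - 1 - k) * bb L (m0 + 1 + k) := by
    have e6 : m0 + r + 1 = (m0 + 1) + r := by omega
    rw [e6, Finset.sum_range_add]
    congr 1
    apply Finset.sum_congr rfl
    intro k hk
    have hk' := mem_range.mp hk
    rw [AA_eq_ak]
    have : m0 + r - (m0 + 1 + k) = r - 1 - k := by omega
    rw [this]
  have q9 : ∑ k ∈ range r, (ak L (r - 1 - k) - 2 * PP (r - 1 - k)) * bb L (m0 + 1 + k) =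
      ∑ k ∈ range r, ak L (r - 1 - k) * bb L (m0 + 1 + k) -
        2 * ∑ k ∈ range r, PP (r - 1 - k) * bb L (m0 + 1 + k) := by
    rw [Finset.mul_sum, ← Finset.sum_sub_distrib]
    apply Finset.sum_congr rfl
    intro x _
    ring
  have ptL := tn_pos L
  have q6 : ak L m0 * tn (m0 + r) ≤ ak L (m0 + r) * tn m0 := by
    unfold ak
    have hr : (0 : ℝ) ≤ r := Nat.cast_nonneg r
    have p1 := tn_pos (m0 + r)
    have p2 := tn_pos m0
    have h : 0 ≤ tn (m0 + r) * tn m0 * r := by positivity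
    push_cast
    nlinarith
  have q7 : ak L m0 * (tn (m0 + r) * tn L) ≤ ak L (m0 + r) * (tn m0 * tn L) := by
    have := mul_le_mul_of_nonneg_right q6 ptL.le
    linarith
  rw [q8] at e1
  rw [e1, q9, sb_eq_cv L (m0 + r)]
  rw [sb_eq_cv] at q0
  have a1 : 0 ≤ ak L (m0 + r) * (∑ r ∈ range (m0 + 1), AA L m0 r * bb L r +
      (2 * cv L m0 - tn m0 * tn L)) := mul_nonneg pm.le q0
  have a2 : ak L m0 * (thL L ^ r * cv L m0) ≤ ak L m0 * (cv L (m0 + r) +
      ∑ k ∈ range r, PP (r - 1 - k) * bb L (m0 + 1 + k)) :=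
    mul_le_mul_of_nonneg_left (by linarith) pm0.le
  nlinarith

/-- the negative part up to the sign change against the convolution -/
lemma r3_neg_part_le (L m0 : ℕ) (hL : m0 + 1 ≤ L) (h0 : ∀ j, j ≤ m0 → bb L j ≤ 0)
    (h1 : 0 ≤ bb L (m0 + 1)) :
    -(∑ j ∈ range (m0 + 1), AA L m0 j * bb L j) ≤ 2 * cv L m0 := by
  have e0 := bb_eq_sb L m0 hL
  have hE := E_pos
  have q0 : 0 ≤ ∑ j ∈ range (m0 + 1), AA L m0 j * bb L j + sb L m0 := by
    rw [← e0]
    have : (0 : ℝ) ≤ (L : ℝ) + (m0 + 1) := by positivity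
    positivity
  rw [sb_eq_cv] at q0
  have := mul_pos (tn_pos m0) (tn_pos L)
  linarith

/-- one step of growth of the convolution after the sign change -/
lemma r3_cv_step_up (L m0 i : ℕ) (c : ℝ) (hc : 0 ≤ c) (hL : m0 + 1 ≤ L)
    (h0 : ∀ j, j ≤ m0 → bb L j ≤ 0) (h1 : 0 ≤ bb L (m0 + 1))
    (hb : ∀ k, k < i → 0 ≤ bb L (m0 + 1 + k))
    (hup : ∀ q, q ≤ m0 + i → gg (L + 1) q ≤ (1 + c) * gg L q) :
    cv L (m0 + i + 1) ≤ (1 + c) * (cv L (m0 + i) + 2 / ((L : ℝ) + 1) * cv L m0) := by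
  have hLp : (0 : ℝ) < (L : ℝ) + 1 := by positivity
  have s1 : cv L (m0 + i + 1) ≤ (1 + c) * (cv L (m0 + i) -
      ∑ k ∈ range (m0 + i), tn (m0 + i - 1 - k) * bb L (k + 1)) := by
    unfold cv
    rw [← Finset.sum_sub_distrib, Finset.sum_range_succ' _ (m0 + i), gg_zero, mul_zero, add_zero,
      Finset.mul_sum]
    apply Finset.sum_le_sum
    intro k hk
    have hk' := mem_range.mp hk
    have e : m0 + i + 1 - 1 - (k + 1) = m0 + i - 1 - k := by omega
    rw [e, bb_succ]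
    have h := hup (k + 1) (by omega)
    have ht := tn_pos (m0 + i - 1 - k)
    calc tn (m0 + i - 1 - k) * gg (L + 1) (k + 1)
        ≤ tn (m0 + i - 1 - k) * ((1 + c) * gg L (k + 1)) := mul_le_mul_of_nonneg_left h ht.le
      _ = _ := by ring
  have s2 : -(∑ k ∈ range (m0 + i), tn (m0 + i - 1 - k) * bb L (k + 1)) ≤
      ∑ k ∈ range m0, tn (m0 + i - 1 - k) * -(bb L (k + 1)) := by
    rw [Finset.sum_range_add, neg_add, ← Finset.sum_neg_distrib, ← Finset.sum_neg_distrib]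
    have e1 : ∑ x ∈ range i, -(tn (m0 + i - 1 - (m0 + x)) * bb L (m0 + x + 1)) ≤ 0 := by
      apply Finset.sum_nonpos
      intro x hx
      have hx' := mem_range.mp hx
      have e3 : m0 + x + 1 = m0 + 1 + x := by omega
      rw [e3]
      have := mul_nonneg (tn_pos (m0 + i - 1 - (m0 + x))).le (hb x hx')
      linarith
    have e2 : ∑ x ∈ range m0, -(tn (m0 + i - 1 - x) * bb L (x + 1)) =
        ∑ k ∈ range m0, tn (m0 + i - 1 - k) * -(bb L (k + 1)) :=
      Finset.sum_congr rfl fun x _ => by ring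
    linarith
  have s3 : ((L : ℝ) + 1) * ∑ k ∈ range m0, tn (m0 + i - 1 - k) * -(bb L (k + 1)) ≤
      2 * cv L m0 := by
    refine le_trans ?_ (r3_neg_part_le L m0 hL h0 h1)
    rw [Finset.sum_range_succ' _ m0, bb_zero, mul_zero, add_zero, Finset.mul_sum,
      ← Finset.sum_neg_distrib]
    apply Finset.sum_le_sum
    intro k hk
    have hk' := mem_range.mp hk
    have hbk : 0 ≤ -(bb L (k + 1)) := by
      have := h0 (k + 1) (by omega)
      linarith
    have a1 : tn (m0 + i - 1 - k) ≤ tn (m0 - (k + 1)) := tn_le_of_le (by omega)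
    have a2 : ((L : ℝ) + 1) * tn (m0 + i - 1 - k) ≤ AA L m0 (k + 1) := by
      unfold AA
      have p1 := tn_pos (m0 - (k + 1))
      have p2 : (0 : ℝ) ≤ ((m0 - (k + 1) : ℕ) : ℝ) := Nat.cast_nonneg _
      have a3 : ((L : ℝ) + 1) * tn (m0 + i - 1 - k) ≤ ((L : ℝ) + 1) * tn (m0 - (k + 1)) :=
        mul_le_mul_of_nonneg_left a1 hLp.le
      nlinarith
    have a4 := mul_le_mul_of_nonneg_right a2 hbk
    linarith
  have s4 : ∑ k ∈ range m0, tn (m0 + i - 1 - k) * -(bb L (k + 1)) ≤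
      2 / ((L : ℝ) + 1) * cv L m0 := by
    rw [div_mul_eq_mul_div, le_div_iff₀ hLp]
    linarith
  refine s1.trans ?_
  apply mul_le_mul_of_nonneg_left _ (by linarith)
  linarith

/-- growth of the convolution after the sign change -/
lemma r3_cv_up (L m0 : ℕ) (c : ℝ) (hc : 0 ≤ c) (hL : m0 + 1 ≤ L)
    (h0 : ∀ j, j ≤ m0 → bb L j ≤ 0) (h1 : 0 ≤ bb L (m0 + 1)) : ∀ i,
    (∀ k, k < i → 0 ≤ bb L (m0 + 1 + k)) →
    (∀ q, q ≤ m0 + i → gg (L + 1) q ≤ (1 + c) * gg L q) →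
    cv L (m0 + i) ≤ (1 + c) ^ i * (1 + i * (2 / ((L : ℝ) + 1))) * cv L m0 := by
  intro i
  induction i with
  | zero => intro _ _; simp
  | succ i ih =>
    intro hb hup
    have i1 := ih (fun k hk => hb k (by omega)) (fun q hq => hup q (by omega))
    have i2 := r3_cv_step_up L m0 i c hc hL h0 h1 (fun k hk => hb k (by omega))
      (fun q hq => hup q (by omega))
    have p0 := cv_nonneg L m0
    have hx : (0 : ℝ) ≤ 2 / ((L : ℝ) + 1) := by positivity
    have h1c : 1 ≤ (1 + c) ^ i := one_le_pow₀ (by linarith)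
    have i3 : 2 / ((L : ℝ) + 1) * cv L m0 ≤ (1 + c) ^ i * (2 / ((L : ℝ) + 1) * cv L m0) := by
      have : 0 ≤ 2 / ((L : ℝ) + 1) * cv L m0 := by positivity
      nlinarith
    have i4 : (1 + c) * (cv L (m0 + i) + 2 / ((L : ℝ) + 1) * cv L m0) ≤
        (1 + c) * ((1 + c) ^ i * (1 + i * (2 / ((L : ℝ) + 1))) * cv L m0 +
          (1 + c) ^ i * (2 / ((L : ℝ) + 1) * cv L m0)) :=
      mul_le_mul_of_nonneg_left (by linarith) (by linarith)
    rw [← Nat.add_assoc]
    refine i2.trans (i4.trans (le_of_eq ?_))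
    push_cast
    ring

lemma r3_sum_ak_le (L i : ℕ) : ∑ k ∈ range i, ak L k ≤ (L : ℝ) * PP i + E * i := by
  induction i with
  | zero => simp [PP_zero]
  | succ i ih =>
    rw [Finset.sum_range_succ, PP_succ]
    have h1 : ((i : ℝ) + 1) * tn i ≤ E := by
      have h2 := cE_le_of_le (Nat.zero_le i)
      unfold cE at h2
      rw [tn_zero] at h2
      have h4 : (1 : ℝ) ≤ E := by
        unfold E
        have := Real.add_one_le_exp (1 : ℝ)
        linarith
      push_cast at h2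
      linarith
    have h3 : ak L i = (L : ℝ) * tn i + ((i : ℝ) + 1) * tn i := by
      unfold ak
      ring
    rw [h3]
    push_cast
    linarith

/-- maximum principle for `bb` after the sign change -/
lemma r3_bb_after_le (L m0 I : ℕ) (ν : ℝ) (hν : 0 ≤ ν) (hL : m0 + I ≤ L)
    (h0 : ∀ j, j ≤ m0 → bb L j ≤ 0)
    (hs : ∀ i, i < I → 2 * cv L (m0 + i) ≤ ν * ((L : ℝ) * (E - PP i))) :
    ∀ i, i < I → bb L (m0 + 1 + i) ≤ ν := by
  intro i
  induction i using Nat.strong_induction_on with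
  | _ i ih =>
    intro hi
    have e1 := bb_eq_sb L (m0 + i) (by omega)
    have hE := E_pos
    have q8 : ∑ j ∈ range (m0 + i + 1), AA L (m0 + i) j * bb L j =
        ∑ j ∈ range (m0 + 1), AA L (m0 + i) j * bb L j +
        ∑ k ∈ range i, ak L (i - 1 - k) * bb L (m0 + 1 + k) := by
      have e6 : m0 + i + 1 = (m0 + 1) + i := by omega
      rw [e6, Finset.sum_range_add]
      congr 1
      apply Finset.sum_congr rfl
      intro k hk
      have hk' := mem_range.mp hk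
      rw [AA_eq_ak]
      have : m0 + i - (m0 + 1 + k) = i - 1 - k := by omega
      rw [this]
    have q9 : ∑ j ∈ range (m0 + 1), AA L (m0 + i) j * bb L j ≤ 0 := by
      apply Finset.sum_nonpos
      intro j hj
      have hj' := mem_range.mp hj
      exact mul_nonpos_of_nonneg_of_nonpos (AA_nonneg _ _ _) (h0 _ (by omega))
    have q10 : ∑ k ∈ range i, ak L (i - 1 - k) * bb L (m0 + 1 + k) ≤
        (∑ k ∈ range i, ak L k) * ν := by
      rw [← Finset.sum_range_reflect (fun k => ak L k), Finset.sum_mul]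
      apply Finset.sum_le_sum
      intro k hk
      have hk' := mem_range.mp hk
      exact mul_le_mul_of_nonneg_left (ih k hk' (by omega)) (ak_pos _ _).le
    have q11 := r3_sum_ak_le L i
    have q12 : (∑ k ∈ range i, ak L k) * ν ≤ ((L : ℝ) * PP i + E * i) * ν :=
      mul_le_mul_of_nonneg_right q11 hν
    have q13 := hs i hi
    have q14 := mul_pos (tn_pos (m0 + i)) (tn_pos L)
    rw [q8, sb_eq_cv] at e1
    have q15 : E * (((L : ℝ) + (((m0 + i : ℕ) : ℝ) + 1)) * bb L (m0 + i + 1)) ≤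
        E * (((L : ℝ) + i) * ν) := by
      rw [e1]
      nlinarith
    have q16 : (0 : ℝ) ≤ (m0 : ℝ) := Nat.cast_nonneg _
    have e7 : m0 + 1 + i = m0 + i + 1 := by omega
    rw [e7]
    by_contra hneg
    push Not at hneg
    have hp : (0 : ℝ) < (L : ℝ) + (((m0 + i : ℕ) : ℝ) + 1) := by positivity
    have q17 : ((L : ℝ) + (((m0 + i : ℕ) : ℝ) + 1)) * ν <
        ((L : ℝ) + (((m0 + i : ℕ) : ℝ) + 1)) * bb L (m0 + i + 1) :=
      mul_lt_mul_of_pos_left hneg hp
    have q18 : ((L : ℝ) + i) * ν ≤ ((L : ℝ) + (((m0 + i : ℕ) : ℝ) + 1)) * ν := by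
      apply mul_le_mul_of_nonneg_right _ hν
      push_cast
      linarith
    have q19 : E * (((L : ℝ) + i) * ν) <
        E * (((L : ℝ) + (((m0 + i : ℕ) : ℝ) + 1)) * bb L (m0 + i + 1)) :=
      mul_lt_mul_of_pos_left (lt_of_le_of_lt q18 q17) hE
    linarith

end Pool.Agent.MP_9da1e3_co
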