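import Pool.Agent.Lib.MP_9da1e3_co.V2_R3a
import Pool.Agent.Lib.MP_9da1e3_co.Ct1

namespace Pool.Agent.MP_9da1e3_co

open Finset

lemma r3_sq_le_of {k : ℕ} {x : ℝ} (hx : 0 ≤ x) (h : (k : ℝ) + 1 ≤ x * x) : sq k ≤ x := by
  unfold sq
  rw [Real.sqrt_le_left hx] 
  nlinarith

/-- lower bound for the kernel -/
lemma r3_ak_ge_of (L k : ℕ) {y s A c : ℝ} (hA : 0 < A) (haa : A ≤ aa k) (hs : 0 < s)
    (hk1 : (k : ℝ) + 1 ≤ y) (hy : y ≤ s * s) (hc : c * (y * s) ≤ A * L) : c ≤ ak L k := by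
  have h1 : tn k = aa k / (((k : ℝ) + 1) * sq k) := tn_eq_aa k
  have hsq : sq k ≤ s := r3_sq_le_of hs.le (hk1.trans hy)
  have hsq0 := sq_pos k
  have hk0 : (0 : ℝ) < (k : ℝ) + 1 := by positivity
  have hL : (0 : ℝ) ≤ L := Nat.cast_nonneg L
  have hy0 : 0 < y := lt_of_lt_of_le hk0 hk1
  have h2 : A / (y * s) ≤ tn k := by
    rw [h1, div_le_div_iff₀ (by positivity) (by positivity)]
    have a1 : ((k : ℝ) + 1) * sq k ≤ y * s := mul_le_mul hk1 hsq hsq0.le hy0.le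
    have a2 : A * (((k : ℝ) + 1) * sq k) ≤ aa k * (y * s) :=
      mul_le_mul haa a1 (by positivity) (aa_pos k).le
    linarith
  have h3 : c ≤ (L : ℝ) * (A / (y * s)) := by
    rw [mul_div_assoc', le_div_iff₀ (by positivity)]
    linarith
  have h4 : (L : ℝ) * (A / (y * s)) ≤ L * tn k := mul_le_mul_of_nonneg_left h2 hL
  unfold ak
  have := tn_pos k
  nlinarith

/-- upper bound for the ratio of the kernel -/
lemma r3_ak_ratio_le (L m0 d : ℕ) {X s G τ : ℝ} (hs : 0 < s) (hX : X ≤ s * s)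
    (hx : (m0 : ℝ) + 1 ≤ X * ((m0 : ℝ) + d + 1)) (hG : cA ≤ G * aa m0) (hG0 : 0 ≤ G)
    (hL0 : 0 < L) (hτ : (d : ℝ) ≤ τ * L) (hτ0 : 0 ≤ τ) (hX0 : 0 ≤ X) :
    ak L (m0 + d) ≤ (1 + τ) * G * (X * s) * ak L m0 := by
  have hm : (0 : ℝ) ≤ m0 := Nat.cast_nonneg _
  have hd : (0 : ℝ) ≤ d := Nat.cast_nonneg _
  have hL : (0 : ℝ) < L := by exact_mod_cast hL0
  have t1 := tn_eq_aa m0
  have t2 := tn_eq_aa (m0 + d)
  have p1 := sq_pos m0
  have p2 := sq_pos (m0 + d)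
  have p3 := aa_pos m0
  have p4 := aa_pos (m0 + d)
  have hle : aa (m0 + d) ≤ G * aa m0 := (aa_le _).trans hG
  have hsq : sq m0 ≤ s * sq (m0 + d) := by
    unfold sq
    rw [← Real.sqrt_sq hs.le, ← Real.sqrt_mul (by positivity)]
    apply Real.sqrt_le_sqrt
    push_cast
    have h2 : X * ((m0 : ℝ) + d + 1) ≤ s * s * ((m0 : ℝ) + d + 1) :=
      mul_le_mul_of_nonneg_right hX (by positivity)
    nlinarith
  have hprod : ((m0 : ℝ) + 1) * sq m0 ≤ X * s * (((m0 + d : ℕ) : ℝ) + 1) * sq (m0 + d) := by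
    have h3 := mul_le_mul hx hsq p1.le (by positivity)
    push_cast
    calc ((m0 : ℝ) + 1) * sq m0 ≤ X * ((m0 : ℝ) + d + 1) * (s * sq (m0 + d)) := h3
      _ = _ := by ring
  have ht : tn (m0 + d) ≤ G * (X * s) * tn m0 := by
    rw [t1, t2, mul_div_assoc', div_le_div_iff₀ (by positivity) (by positivity)]
    have a1 : aa (m0 + d) * (((m0 : ℝ) + 1) * sq m0) ≤
        (G * aa m0) * (X * s * (((m0 + d : ℕ) : ℝ) + 1) * sq (m0 + d)) :=
      mul_le_mul hle hprod (by positivity) (by positivity)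
    calc _ ≤ _ := a1
      _ = _ := by ring
  have hfac : (L : ℝ) + ((m0 + d : ℕ) : ℝ) + 1 ≤ (1 + τ) * ((L : ℝ) + m0 + 1) := by
    push_cast
    nlinarith
  unfold ak
  calc ((L : ℝ) + ((m0 + d : ℕ) : ℝ) + 1) * tn (m0 + d)
      ≤ ((1 + τ) * ((L : ℝ) + m0 + 1)) * (G * (X * s) * tn m0) :=
        mul_le_mul hfac ht (tn_pos _).le (by positivity)
    _ = _ := by ring

/-- lower bound for `thL` -/
lemma r3_thL_ge (L : ℕ) (hL : 100 ≤ L) : 1 - 2.66 / (L : ℝ) ≤ thL L := by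
  have h1 := tn_succ_sharp L hL
  have hL0 : (100 : ℝ) ≤ L := by exact_mod_cast hL
  have ht := tn_pos L
  unfold thL
  have h2 : 1 - 1.66 / (L : ℝ) ≤ tn (L + 1) / tn L := by
    rw [le_div_iff₀ ht]
    exact h1
  have h3 : 1 - 1 / (L : ℝ) ≤ ((L : ℝ) + 1) / ((L : ℝ) + 2) := by
    rw [le_div_iff₀ (by positivity), sub_mul, div_mul_eq_mul_div]
    have : 1 * ((L : ℝ) + 2) / L = 1 + 2 / L := by field_simp
    rw [this]
    have : 0 < 2 / (L : ℝ) := by positivity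
    linarith
  have h4 : 0 ≤ 1 - 1.66 / (L : ℝ) := by
    rw [sub_nonneg, div_le_one (by positivity)]
    linarith
  have h5 : 0 ≤ 1 - 1 / (L : ℝ) := by
    rw [sub_nonneg, div_le_one (by positivity)]
    linarith
  have h6 := mul_le_mul h2 h3 h5 (h4.trans h2)
  have h7 : 0 ≤ 1.66 / (L : ℝ) * (1 / L) := by positivity
  have h8 : (1 - 1.66 / (L : ℝ)) * (1 - 1 / L) = 1 - 2.66 / L + 1.66 / (L : ℝ) * (1 / L) := by ring
  linarith

lemma r3_thL_pow_ge (L d : ℕ) (hL : 100 ≤ L) : 1 - 2.66 * d / (L : ℝ) ≤ thL L ^ d := by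
  have h1 := r3_thL_ge L hL
  have hL0 : (100 : ℝ) ≤ L := by exact_mod_cast hL
  have h2 : 0 ≤ 1 - 2.66 / (L : ℝ) := by
    rw [sub_nonneg, div_le_one (by positivity)]
    linarith
  have h3 : (1 : ℝ) + d * (-(2.66 / (L : ℝ))) ≤ (1 + -(2.66 / (L : ℝ))) ^ d := by
    apply one_add_mul_le_pow
    have : 2.66 / (L : ℝ) ≤ 1 := by linarith
    linarith
  have h4 : (1 + -(2.66 / (L : ℝ))) ^ d ≤ thL L ^ d := by
    apply pow_le_pow_left₀ (by linarith)
    linarith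
  have h5 : (1 : ℝ) + d * (-(2.66 / (L : ℝ))) = 1 - 2.66 * d / L := by ring
  linarith

/-- the growth factor -/
lemma r3_growth_le (L I i : ℕ) (hL : 1000 ≤ L) (hi : i ≤ I) (hI : 16 * (I : ℝ) ≤ 0.3855 * L) :
    (1 + 16 / (L : ℝ)) ^ i * (1 + i * (2 / ((L : ℝ) + 1))) ≤ 1.71 := by
  have hL0 : (1000 : ℝ) ≤ L := by exact_mod_cast hL
  have hi' : (i : ℝ) ≤ I := by exact_mod_cast hi
  have hi0 : (0 : ℝ) ≤ i := Nat.cast_nonneg i
  have hx : (i : ℝ) * (16 / L) ≤ 0.3855 := by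
    rw [mul_div_assoc', div_le_iff₀ (by positivity)]
    linarith
  have h1 : (1 + 16 / (L : ℝ)) ^ i ≤ Real.exp (i * (16 / L)) := by
    have h2 : 1 + 16 / (L : ℝ) ≤ Real.exp (16 / L) := by
      have := Real.add_one_le_exp (16 / (L : ℝ))
      linarith
    calc (1 + 16 / (L : ℝ)) ^ i ≤ Real.exp (16 / L) ^ i := pow_le_pow_left₀ (by positivity) h2 i
      _ = Real.exp (i * (16 / L)) := by rw [← Real.exp_nat_mul]
  have h3 : Real.exp (i * (16 / L)) ≤ 1 / (1 - 0.3855) := by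
    have h4 : 1 - 0.3855 ≤ Real.exp (-(i * (16 / (L : ℝ)))) := by
      have := Real.add_one_le_exp (-((i : ℝ) * (16 / L)))
      linarith
    rw [Real.exp_neg] at h4
    have hp := Real.exp_pos ((i : ℝ) * (16 / L))
    rw [le_div_iff₀ (by norm_num)]
    have h5 := mul_le_mul_of_nonneg_left h4 hp.le
    rw [mul_inv_cancel₀ hp.ne'] at h5
    linarith
  have h6 : 1 + (i : ℝ) * (2 / ((L : ℝ) + 1)) ≤ 1.0482 := by
    have : (i : ℝ) * (2 / ((L : ℝ) + 1)) ≤ 0.0482 := by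
      rw [mul_div_assoc', div_le_iff₀ (by positivity)]
      nlinarith
    linarith
  have h7 : (1 + 16 / (L : ℝ)) ^ i ≤ 1 / (1 - 0.3855) := h1.trans h3
  have h8 : (0 : ℝ) ≤ 1 + (i : ℝ) * (2 / ((L : ℝ) + 1)) := by positivity
  calc _ ≤ 1 / (1 - 0.3855) * 1.0482 := mul_le_mul h7 h6 h8 (by norm_num)
    _ ≤ 1.71 := by norm_num

/-- the combination: if the numbers fit, then `bb` is nonnegative -/
theorem r3_near_num (L m0 d k0 : ℕ) (ρ δ κ C : ℝ) (hL : 1000 ≤ L) (hdL : m0 + d + 1 ≤ L)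
    (hk : k0 < d)
    (h0 : ∀ j, j ≤ m0 → bb L j ≤ 0) (h1 : 0 ≤ bb L (m0 + 1))
    (hb : ∀ k, k < d → 0 ≤ bb L (m0 + 1 + k))
    (hup : ∀ q, q ≤ m0 + (d - k0) → gg (L + 1) q ≤ (1 + 16 / (L : ℝ)) * gg L q)
    (hC : ∀ i, i ≤ d - k0 → (1 + 16 / (L : ℝ)) ^ i * (1 + i * (2 / ((L : ℝ) + 1))) ≤ C)
    (hC0 : 0 ≤ C)
    (hgood : ∀ k, k < k0 → 2 * PP k ≤ ak L k)
    (hδ0 : 0 ≤ δ) (hδ : 2 * E - ak L (d - 1) ≤ δ)
    (hρ : ak L (m0 + d) ≤ ρ * ak L m0)
    (hκ : ((d - k0 : ℕ) : ℝ) * √((d - k0 : ℕ) : ℝ) ≤ κ * L)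
    (hfin : δ * κ * C / cA ≤ 2 * (1 - 2.66 * d / (L : ℝ) - ρ)) :
    0 ≤ bb L (m0 + d + 1) := by
  obtain ⟨I, hI⟩ : ∃ I, I = d - k0 := ⟨_, rfl⟩
  rw [← hI] at hup hC hκ
  have hI1 : 1 ≤ I := by omega
  have hE := E_pos
  have hcA := cA_pos
  have hLr : (1000 : ℝ) ≤ L := by exact_mod_cast hL
  have hLp : (0 : ℝ) < L := by linarith
  have hc0 : (0 : ℝ) ≤ 16 / (L : ℝ) := by positivity
  have P0 := cv_nonneg L m0
  have hIr : (1 : ℝ) ≤ (I : ℝ) := by exact_mod_cast hI1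
  have hsI : 0 < √(I : ℝ) := Real.sqrt_pos.mpr (by linarith)
  -- growth
  have hgr : ∀ i, i ≤ I → cv L (m0 + i) ≤ C * cv L m0 := by
    intro i hi
    have g1 := r3_cv_up L m0 (16 / (L : ℝ)) hc0 (by omega) h0 h1 i (fun k hk => hb k (by omega))
      (fun q hq => hup q (by omega))
    exact g1.trans (mul_le_mul_of_nonneg_right (hC i hi) P0)
  -- maximum principle
  obtain ⟨ν, hν⟩ : ∃ ν : ℝ, ν = C * cv L m0 * √(I : ℝ) / (cA * L) := ⟨_, rfl⟩
  have hν0 : 0 ≤ ν := by rw [hν]; positivity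
  have hbν : ∀ i, i < I → bb L (m0 + 1 + i) ≤ ν := by
    apply r3_bb_after_le L m0 I ν hν0 (by omega) h0
    intro i hi
    have g1 := hgr i hi.le
    have g2 := le_E_sub_sum i
    have g3 : 2 * cA / √(I : ℝ) ≤ E - PP i := by
      refine le_trans ?_ g2
      apply div_le_div_of_nonneg_left (by positivity) (sq_pos i)
      unfold sq
      apply Real.sqrt_le_sqrt
      exact_mod_cast (by omega : i + 1 ≤ I)
    have g4 : ν * ((L : ℝ) * (2 * cA / √(I : ℝ))) ≤ ν * ((L : ℝ) * (E - PP i)) := by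
      apply mul_le_mul_of_nonneg_left _ hν0
      exact mul_le_mul_of_nonneg_left g3 hLp.le
    have g5 : ν * ((L : ℝ) * (2 * cA / √(I : ℝ))) = 2 * (C * cv L m0) := by
      rw [hν]
      field_simp
    linarith
  -- the weighted sum
  have hsum : -(δ * (I * ν)) ≤
      ∑ k ∈ range d, (ak L (d - 1 - k) - 2 * PP (d - 1 - k)) * bb L (m0 + 1 + k) := by
    have e1 : d = I + k0 := by omega
    have e2 : ∑ k ∈ range d, (ak L (d - 1 - k) - 2 * PP (d - 1 - k)) * bb L (m0 + 1 + k) =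
        ∑ k ∈ range I, (ak L (d - 1 - k) - 2 * PP (d - 1 - k)) * bb L (m0 + 1 + k) +
        ∑ k ∈ range k0, (ak L (d - 1 - (I + k)) - 2 * PP (d - 1 - (I + k))) *
          bb L (m0 + 1 + (I + k)) := by
      nth_rewrite 1 [e1]
      rw [Finset.sum_range_add]
    rw [e2]
    have e3 : 0 ≤ ∑ k ∈ range k0, (ak L (d - 1 - (I + k)) - 2 * PP (d - 1 - (I + k))) *
          bb L (m0 + 1 + (I + k)) := by
      apply Finset.sum_nonneg
      intro k hk
      have hk' := mem_range.mp hk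
      have := hgood (d - 1 - (I + k)) (by omega)
      exact mul_nonneg (by linarith) (hb _ (by omega))
    have e4 : ∑ _k ∈ range I, -(δ * ν) ≤
        ∑ k ∈ range I, (ak L (d - 1 - k) - 2 * PP (d - 1 - k)) * bb L (m0 + 1 + k) := by
      apply Finset.sum_le_sum
      intro k hk
      have hk' := mem_range.mp hk
      have b0 := hb k (by omega)
      have b1 := hbν k hk'
      have w1 : -δ ≤ ak L (d - 1 - k) - 2 * PP (d - 1 - k) := by
        have w2 := ak_anti L (i := d - 1 - k) (j := d - 1) (by omega)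
        have w3 := PP_le (d - 1 - k)
        linarith
      calc -(δ * ν) ≤ -(δ * bb L (m0 + 1 + k)) := by nlinarith
        _ = -δ * bb L (m0 + 1 + k) := by ring
        _ ≤ _ := mul_le_mul_of_nonneg_right w1 b0
    rw [Finset.sum_const, card_range, nsmul_eq_mul] at e4
    have e5 : (I : ℝ) * -(δ * ν) = -(δ * (I * ν)) := by ring
    linarith
  have key := r3_near_term L m0 d hdL h0 h1 hb
  have pm0 := ak_pos L m0
  have hth := r3_thL_pow_ge L d (by omega)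
  -- lower bound of the first part
  have f1 : 2 * cv L m0 * ((1 - 2.66 * d / (L : ℝ) - ρ) * ak L m0) ≤
      2 * cv L m0 * (thL L ^ d * ak L m0 - ak L (m0 + d)) := by
    apply mul_le_mul_of_nonneg_left _ (by positivity)
    have := mul_le_mul_of_nonneg_right hth pm0.le
    linarith
  have f2 : ak L m0 * -(δ * (I * ν)) ≤ ak L m0 *
      ∑ k ∈ range d, (ak L (d - 1 - k) - 2 * PP (d - 1 - k)) * bb L (m0 + 1 + k) :=
    mul_le_mul_of_nonneg_left hsum pm0.le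
  have f3 : δ * (I * ν) ≤ δ * κ * C / cA * cv L m0 := by
    rw [hν]
    have f4 : (I : ℝ) * (C * cv L m0 * √(I : ℝ) / (cA * L)) =
        (I * √(I : ℝ)) * (C * cv L m0) / (cA * L) := by ring
    have f5 : (I * √(I : ℝ)) * (C * cv L m0) / (cA * L) ≤
        (κ * L) * (C * cv L m0) / (cA * L) := by
      apply div_le_div_of_nonneg_right _ (by positivity)
      exact mul_le_mul_of_nonneg_right hκ (by positivity)
    have f6 : (κ * L) * (C * cv L m0) / (cA * L) = κ * C / cA * cv L m0 := by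
      field_simp
    rw [f4]
    calc δ * ((I * √(I : ℝ)) * (C * cv L m0) / (cA * L)) ≤ δ * (κ * C / cA * cv L m0) := by
          apply mul_le_mul_of_nonneg_left _ hδ0
          rw [← f6]
          exact f5
      _ = _ := by ring
  have f7 : δ * (I * ν) ≤ 2 * (1 - 2.66 * d / (L : ℝ) - ρ) * cv L m0 :=
    f3.trans (mul_le_mul_of_nonneg_right hfin P0)
  have f8 : 0 ≤ ak L m0 * (E * (((L : ℝ) + ((m0 + d : ℕ) + 1)) * bb L (m0 + d + 1))) := by
    refine le_trans ?_ key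
    have := mul_le_mul_of_nonneg_left f7 pm0.le
    linarith
  by_contra hneg
  push Not at hneg
  have hp : (0 : ℝ) < (L : ℝ) + (((m0 + d : ℕ) : ℝ) + 1) := by positivity
  have f9 : ((L : ℝ) + (((m0 + d : ℕ) : ℝ) + 1)) * bb L (m0 + d + 1) < 0 :=
    mul_neg_of_pos_of_neg hp hneg
  have f10 : ak L m0 * (E * (((L : ℝ) + ((m0 + d : ℕ) + 1)) * bb L (m0 + d + 1))) < 0 :=
    mul_neg_of_pos_of_neg pm0 (mul_neg_of_pos_of_neg hE f9)
  linarith

end Pool.Agent.MP_9da1e3_co
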