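import Pool.Agent.Lib.MP_9da1e3_co.V2_R3b

namespace Pool.Agent.MP_9da1e3_co

open Finset

/-- the cube root of `L` -/
lemma r3_cbrt (L : ℕ) (hL : 1000 ≤ L) : ∃ z : ℝ, 10 ≤ z ∧ z ^ 3 = L := by
  have hL0 : (1000 : ℝ) ≤ L := by exact_mod_cast hL
  refine ⟨(L : ℝ) ^ (((3 : ℕ) : ℝ)⁻¹), ?_, ?_⟩
  · have h1 : ((L : ℝ) ^ (((3 : ℕ) : ℝ)⁻¹)) ^ 3 = L :=
      Real.rpow_inv_natCast_pow (by linarith) (by norm_num)
    by_contra hneg
    push Not at hneg
    have h0 : (0 : ℝ) ≤ (L : ℝ) ^ (((3 : ℕ) : ℝ)⁻¹) := Real.rpow_nonneg (by linarith) _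
    have h2 : ((L : ℝ) ^ (((3 : ℕ) : ℝ)⁻¹)) ^ 3 < 10 ^ 3 :=
      pow_lt_pow_left₀ hneg h0 (by norm_num)
    rw [h1] at h2
    linarith
  · exact Real.rpow_inv_natCast_pow (by linarith) (by norm_num)

/-- extracting a linear bound in `z ^ 2` from the cubic one -/
lemma r3_le_of_cube {x z a c : ℝ} (hz : 0 < z) (h : x ^ 3 ≤ (a * z ^ 3) ^ 2) (ha : a ^ 2 ≤ c ^ 3)
    (hc : 0 ≤ c) : x ≤ c * z ^ 2 := by
  by_contra hneg
  push Not at hneg
  have h1 : (c * z ^ 2) ^ 3 < x ^ 3 := pow_lt_pow_left₀ hneg (by positivity) (by norm_num)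
  have h2 : (c * z ^ 2) ^ 3 = c ^ 3 * z ^ 6 := by ring
  have h3 : (a * z ^ 3) ^ 2 = a ^ 2 * z ^ 6 := by ring
  have h4 : a ^ 2 * z ^ 6 ≤ c ^ 3 * z ^ 6 := mul_le_mul_of_nonneg_right ha (by positivity)
  linarith

lemma r3_two_E : 2 * E ≤ 5.4366 := by
  have := E_le
  linarith

/-- the kernel beats `2 P` below `.33 L^(2/3)` -/
lemma r3_good (L k : ℕ) {z : ℝ} (hz : 10 ≤ z) (hzL : z ^ 3 = L) (hk : (k : ℝ) + 1 ≤ 0.33 * z ^ 2) :
    2 * PP k ≤ ak L k := by
  rcases Nat.eq_zero_or_pos k with rfl | hk0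
  · rw [PP_zero, mul_zero]
    exact (ak_pos L 0).le
  · have h1 := le_aa_one hk0
    have h2 : (5.4366 : ℝ) ≤ ak L k := by
      apply r3_ak_ge_of L k (y := 0.33 * z ^ 2) (s := 0.5745 * z) (A := 1.04) (by norm_num) h1
        (by positivity) hk
      · linarith [sq_nonneg z]
      · rw [← hzL]
        have : (0 : ℝ) ≤ z ^ 3 := by positivity
        linarith
    have h3 := PP_le k
    have h4 := r3_two_E
    linarith

/-- the ratio of the kernels, small `m0` -/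
lemma r3_ratio_small (L m0 d : ℕ) {z : ℝ} (hz : 10 ≤ z) (hzL : z ^ 3 = L) (hm0 : 1 ≤ m0)
    (hm : m0 < 20) (hd : (33 : ℝ) ≤ d) (hdz : (d : ℝ) ≤ 0.5609 * z ^ 2) :
    ak L (m0 + d) ≤ 0.2556 * ak L m0 := by
  have hLr : (1000 : ℝ) ≤ L := by
    rw [← hzL]
    calc (1000 : ℝ) = 10 ^ 3 := by norm_num
      _ ≤ z ^ 3 := pow_le_pow_left₀ (by norm_num) hz 3
  have hL0 : 0 < L := by
    have : (0 : ℝ) < L := by linarith
    exact_mod_cast this
  have hm' : (m0 : ℝ) + 1 ≤ 20 := by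
    have : m0 + 1 ≤ 20 := hm
    exact_mod_cast this
  have h1 := le_aa_one hm0
  have h2 := cA_lt
  have h3 := r3_ak_ratio_le L m0 d (X := 0.3774) (s := 0.61433) (G := 1.0435) (τ := 0.05609)
    (by norm_num) (by norm_num) (by linarith) (by linarith) (by norm_num) hL0
    (by
      rw [← hzL]
      linarith [mul_le_mul_of_nonneg_right hz (sq_nonneg z)])
    (by norm_num) (by norm_num)
  refine h3.trans ?_
  apply mul_le_mul_of_nonneg_right _ (ak_pos L m0).le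
  norm_num

/-- the ratio of the kernels, `m0 ≥ 20`, lower subrange -/
lemma r3_ratio_B1 (L m0 d : ℕ) {z : ℝ} (hz : 10 ≤ z) (hzL : z ^ 3 = L)
    (hm : 20 ≤ m0) (hmz : (m0 : ℝ) + 1 ≤ 0.8618 * z ^ 2) (hd : 0.33 * z ^ 2 ≤ d)
    (hdz : (d : ℝ) ≤ 0.448 * z ^ 2) :
    ak L (m0 + d) ≤ 0.6452 * ak L m0 := by
  have hLr : (1000 : ℝ) ≤ L := by
    rw [← hzL]
    calc (1000 : ℝ) = 10 ^ 3 := by norm_num
      _ ≤ z ^ 3 := pow_le_pow_left₀ (by norm_num) hz 3
  have hL0 : 0 < L := by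
    have : (0 : ℝ) < L := by linarith
    exact_mod_cast this
  have h1 := le_aa_twenty hm
  have h2 := cA_lt
  have h3 := r3_ak_ratio_le L m0 d (X := 0.72311) (s := 0.85036) (G := 1.0042) (τ := 0.0448)
    (by norm_num) (by norm_num) (by linarith [sq_nonneg z]) (by linarith) (by norm_num) hL0
    (by
      rw [← hzL]
      linarith [mul_le_mul_of_nonneg_right hz (sq_nonneg z)])
    (by norm_num) (by norm_num)
  refine h3.trans ?_
  apply mul_le_mul_of_nonneg_right _ (ak_pos L m0).le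
  norm_num

/-- the ratio of the kernels, `m0 ≥ 20`, upper subrange -/
lemma r3_ratio_B2 (L m0 d : ℕ) {z : ℝ} (hz : 10 ≤ z) (hzL : z ^ 3 = L)
    (hm : 20 ≤ m0) (hmz : (m0 : ℝ) + 1 ≤ 0.8618 * z ^ 2) (hd : 0.448 * z ^ 2 ≤ d)
    (hdz : (d : ℝ) ≤ 0.5609 * z ^ 2) :
    ak L (m0 + d) ≤ 0.5661 * ak L m0 := by
  have hLr : (1000 : ℝ) ≤ L := by
    rw [← hzL]
    calc (1000 : ℝ) = 10 ^ 3 := by norm_num
      _ ≤ z ^ 3 := pow_le_pow_left₀ (by norm_num) hz 3
  have hL0 : 0 < L := by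
    have : (0 : ℝ) < L := by linarith
    exact_mod_cast this
  have h1 := le_aa_twenty hm
  have h2 := cA_lt
  have h3 := r3_ak_ratio_le L m0 d (X := 0.65797) (s := 0.81116) (G := 1.0042) (τ := 0.05609)
    (by norm_num) (by norm_num) (by linarith [sq_nonneg z]) (by linarith) (by norm_num) hL0
    (by
      rw [← hzL]
      linarith [mul_le_mul_of_nonneg_right hz (sq_nonneg z)])
    (by norm_num) (by norm_num)
  refine h3.trans ?_
  apply mul_le_mul_of_nonneg_right _ (ak_pos L m0).le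
  norm_num

/-- `I √I` bound -/
lemma r3_I_sqrt {I z a s κ : ℝ} (hz : 0 < z) (hI0 : 0 ≤ I) (hI : I ≤ a * z ^ 2)
    (hs : 0 ≤ s) (has : a ≤ s * s) (hκ : a * s ≤ κ) (ha : 0 ≤ a) : I * √I ≤ κ * z ^ 3 := by
  have h1 : √I ≤ s * z := by
    rw [Real.sqrt_le_left (by positivity)]
    have : a * z ^ 2 ≤ s * s * z ^ 2 := mul_le_mul_of_nonneg_right has (by positivity)
    calc I ≤ a * z ^ 2 := hI
      _ ≤ s * s * z ^ 2 := this
      _ = (s * z) ^ 2 := by ring
  calc I * √I ≤ (a * z ^ 2) * (s * z) := mul_le_mul hI h1 (Real.sqrt_nonneg _) (by positivity)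
    _ = a * s * z ^ 3 := by ring
    _ ≤ κ * z ^ 3 := mul_le_mul_of_nonneg_right hκ (by positivity)

/-- (R3), relative to the upward control of `g` -/
theorem V2_R3_of (L m0 d : ℕ) (hL : 1000 ≤ L) (hm0 : 1 ≤ m0)
    (hm : ((m0 : ℝ) + 1) ^ 3 ≤ (0.8 * (L : ℝ)) ^ 2)
    (hneg : ∀ r, 1 ≤ r → r ≤ m0 → bb L r < 0) (hd1 : 1 ≤ d)
    (hd : (d : ℝ) ^ 3 ≤ (0.42 * (L : ℝ)) ^ 2)
    (hpos : ∀ r, m0 < r → r ≤ m0 + d → 0 ≤ bb L r)
    (hup : ∀ q : ℕ, (q : ℝ) ^ 3 ≤ (1.3 * (L : ℝ)) ^ 2 →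
      gg (L + 1) q ≤ (1 + 16 / (L : ℝ)) * gg L q) :
    0 ≤ bb L (m0 + d + 1) := by
  obtain ⟨z, hz, hzL⟩ := r3_cbrt L hL
  have hz0 : 0 < z := by linarith
  have hLr : (1000 : ℝ) ≤ L := by exact_mod_cast hL
  rw [← hzL] at hm hd
  have hmz : (m0 : ℝ) + 1 ≤ 0.8618 * z ^ 2 :=
    r3_le_of_cube hz0 hm (by norm_num) (by norm_num)
  have hdz : (d : ℝ) ≤ 0.5609 * z ^ 2 :=
    r3_le_of_cube hz0 hd (by norm_num) (by norm_num)
  have hz2 : 10 * z ^ 2 ≤ z ^ 3 := by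
    have := mul_le_mul_of_nonneg_right hz (sq_nonneg z)
    calc 10 * z ^ 2 ≤ z * z ^ 2 := this
      _ = z ^ 3 := by ring
  have hz100 : (100 : ℝ) ≤ z ^ 2 := by nlinarith
  have h0 : ∀ j, j ≤ m0 → bb L j ≤ 0 := by
    intro j hj
    rcases Nat.eq_zero_or_pos j with rfl | hj0
    · rw [bb_zero]
    · exact (hneg j hj0 hj).le
  have h1 : 0 ≤ bb L (m0 + 1) := hpos (m0 + 1) (by omega) (by omega)
  have hb : ∀ k, k < d → 0 ≤ bb L (m0 + 1 + k) := by
    intro k hk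
    exact hpos (m0 + 1 + k) (by omega) (by omega)
  obtain ⟨k0, hk0⟩ : ∃ k0, k0 = ⌊(0.33 : ℝ) * z ^ 2⌋₊ := ⟨_, rfl⟩
  have hk1 : (k0 : ℝ) ≤ 0.33 * z ^ 2 := by
    rw [hk0]
    exact Nat.floor_le (by positivity)
  have hk2 : (0.33 : ℝ) * z ^ 2 < k0 + 1 := by
    rw [hk0]
    exact Nat.lt_floor_add_one _
  have hk33 : 33 ≤ k0 := by
    rw [hk0]
    apply Nat.le_floor
    push_cast
    linarith
  have hgood : ∀ k, k < k0 → 2 * PP k ≤ ak L k := by
    intro k hk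
    apply r3_good L k hz hzL
    have : ((k : ℝ) + 1) ≤ k0 := by exact_mod_cast hk
    linarith
  have hsumz : (m0 : ℝ) + 1 + d ≤ 1.4227 * z ^ 2 := by linarith
  rcases Nat.lt_or_ge k0 d with hkd | hkd
  · -- the main case
    have hdL : m0 + d + 1 ≤ L := by
      have : (m0 : ℝ) + d + 1 ≤ L := by
        rw [← hzL]
        linarith
      exact_mod_cast this
    have hIr : ((d - k0 : ℕ) : ℝ) = (d : ℝ) - k0 := by
      rw [Nat.cast_sub hkd.le]
    have hI0 : (0 : ℝ) ≤ ((d - k0 : ℕ) : ℝ) := Nat.cast_nonneg _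
    have hkd' : (k0 : ℝ) + 1 ≤ d := by exact_mod_cast hkd
    have hd33 : (33 : ℝ) ≤ d := by
      have : (33 : ℝ) ≤ k0 := by exact_mod_cast hk33
      linarith
    have hdlow : 0.33 * z ^ 2 ≤ (d : ℝ) := by linarith
    have hI2 : ((d - k0 : ℕ) : ℝ) ≤ 0.2409 * z ^ 2 := by
      rw [hIr]
      linarith
    have hup' : ∀ q, q ≤ m0 + (d - k0) → gg (L + 1) q ≤ (1 + 16 / (L : ℝ)) * gg L q := by
      intro q hq
      apply hup q
      have hq' : (q : ℝ) ≤ m0 + ((d - k0 : ℕ) : ℝ) := by exact_mod_cast hq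
      have hq2 : (q : ℝ) ≤ 1.1027 * z ^ 2 := by linarith
      have hq0 : (0 : ℝ) ≤ q := Nat.cast_nonneg q
      calc (q : ℝ) ^ 3 ≤ (1.1027 * z ^ 2) ^ 3 := pow_le_pow_left₀ hq0 hq2 3
        _ = 1.1027 ^ 3 * z ^ 6 := by ring
        _ ≤ 1.3 ^ 2 * z ^ 6 := mul_le_mul_of_nonneg_right (by norm_num) (by positivity)
        _ = (1.3 * (L : ℝ)) ^ 2 := by rw [← hzL]; ring
    have hC : ∀ i, i ≤ d - k0 →
        (1 + 16 / (L : ℝ)) ^ i * (1 + i * (2 / ((L : ℝ) + 1))) ≤ 1.71 := by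
      intro i hi
      apply r3_growth_le L (d - k0) i hL hi
      rw [← hzL]
      linarith
    have h2E := r3_two_E
    have haad : 1.08 ≤ aa (d - 1) := le_aa_twenty (by omega)
    have hd1' : ((d - 1 : ℕ) : ℝ) + 1 = d := by
      rw [Nat.cast_sub hd1]
      push_cast
      ring
    have hcA1 := lt_cA
    have hcA0 := cA_pos
    have hτ : ∀ τ : ℝ, (d : ℝ) ≤ τ * z ^ 2 → 2.66 * d / (L : ℝ) ≤ 0.266 * τ := by
      intro τ hτ
      have hτ0 : 0 ≤ τ := by
        by_contra hn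
        push Not at hn
        have : τ * z ^ 2 < 0 := mul_neg_of_neg_of_pos hn (by positivity)
        linarith
      rw [div_le_iff₀ (by linarith), ← hzL]
      linarith [mul_le_mul_of_nonneg_left hz2 hτ0]
    have hz3 : (0 : ℝ) ≤ z ^ 3 := by positivity
    rcases le_total (d : ℝ) (0.448 * z ^ 2) with hB | hB
    · -- lower subrange
      have hδ : 2 * E - ak L (d - 1) ≤ 1.8356 := by
        have h2 : (3.601 : ℝ) ≤ ak L (d - 1) := by
          apply r3_ak_ge_of L (d - 1) (y := 0.448 * z ^ 2) (s := 0.6694 * z) (A := 1.08)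
            (by norm_num) haad (by positivity)
          · rw [hd1']
            exact hB
          · linarith [sq_nonneg z]
          · rw [← hzL]
            linarith
        linarith
      have hρ : ak L (m0 + d) ≤ 0.6452 * ak L m0 := by
        rcases Nat.lt_or_ge m0 20 with hs | hs
        · have h3 := r3_ratio_small L m0 d hz hzL hm0 hs hd33 hdz
          have h4 := ak_pos L m0
          linarith
        · exact r3_ratio_B1 L m0 d hz hzL hs hmz hdlow hB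
      have hκ : ((d - k0 : ℕ) : ℝ) * √((d - k0 : ℕ) : ℝ) ≤ 0.0458 * L := by
        rw [← hzL]
        apply r3_I_sqrt hz0 hI0 (a := 0.128) (s := 0.3578) _ (by norm_num) (by norm_num)
          (by norm_num) (by norm_num)
        rw [hIr]
        linarith
      apply r3_near_num L m0 d k0 0.6452 1.8356 0.0458 1.71 hL hdL hkd h0 h1 hb hup' hC (by norm_num)
        hgood (by norm_num) hδ hρ hκ
      have h5 := hτ 0.448 hB
      rw [div_le_iff₀ hcA0]
      have h6 : (0.2356 : ℝ) ≤ 1 - 2.66 * d / (L : ℝ) - 0.6452 := by linarith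
      have h7 : (0.2356 : ℝ) * 1.08443 ≤ (1 - 2.66 * d / (L : ℝ) - 0.6452) * cA :=
        mul_le_mul h6 hcA1.le (by norm_num) (by linarith)
      linarith
    · -- upper subrange
      have hδ : 2 * E - ak L (d - 1) ≤ 2.8661 := by
        have h2 : (2.5705 : ℝ) ≤ ak L (d - 1) := by
          apply r3_ak_ge_of L (d - 1) (y := 0.5609 * z ^ 2) (s := 0.749 * z) (A := 1.08)
            (by norm_num) haad (by positivity)
          · rw [hd1']
            exact hdz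
          · linarith [sq_nonneg z]
          · rw [← hzL]
            linarith
        linarith
      have hρ : ak L (m0 + d) ≤ 0.5661 * ak L m0 := by
        rcases Nat.lt_or_ge m0 20 with hs | hs
        · have h3 := r3_ratio_small L m0 d hz hzL hm0 hs hd33 hdz
          have h4 := ak_pos L m0
          linarith
        · exact r3_ratio_B2 L m0 d hz hzL hs hmz hB hdz
      have hκ : ((d - k0 : ℕ) : ℝ) * √((d - k0 : ℕ) : ℝ) ≤ 0.1183 * L := by
        rw [← hzL]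
        exact r3_I_sqrt hz0 hI0 (a := 0.2409) (s := 0.49091) hI2 (by norm_num) (by norm_num)
          (by norm_num) (by norm_num)
      apply r3_near_num L m0 d k0 0.5661 2.8661 0.1183 1.71 hL hdL hkd h0 h1 hb hup' hC (by norm_num)
        hgood (by norm_num) hδ hρ hκ
      have h5 := hτ 0.5609 hdz
      rw [div_le_iff₀ hcA0]
      have h6 : (0.2846 : ℝ) ≤ 1 - 2.66 * d / (L : ℝ) - 0.5661 := by linarith
      have h7 : (0.2846 : ℝ) * 1.08443 ≤ (1 - 2.66 * d / (L : ℝ) - 0.5661) * cA :=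
        mul_le_mul h6 hcA1.le (by norm_num) (by linarith)
      linarith
  · -- `d ≤ k0`
    have h40 : 20 * (m0 + d) ≤ 7 * L := by
      have : 20 * ((m0 : ℝ) + d) ≤ 7 * L := by
        rw [← hzL]
        linarith
      exact_mod_cast this
    exact near_zone L m0 d (by omega) h40 h0 h1 (hgood (d - 1) (by omega)) d le_rfl

end Pool.Agent.MP_9da1e3_co
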