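import Mathlib

/-! The step beyond `2L`, termwise in the mass of `rho`: abstract form. -/

namespace Pool.Agent.MP_9da1e3_co

open Finset

lemma r5_swap (ps rho : ℕ → ℝ) (th : ℝ) (m : ℕ) :
    ∑ j ∈ range m, th ^ j * ∑ i ∈ range (j + 1), rho i * ps (j - i) =
      ∑ i ∈ range m, th ^ i * rho i * ∑ k ∈ range (m - i), th ^ k * ps k := by
  induction m with
  | zero => simp
  | succ m ih =>
    rw [Finset.sum_range_succ, ih]
    have e1 : ∀ i ∈ range m, th ^ i * rho i * ∑ k ∈ range (m + 1 - i), th ^ k * ps k =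
        th ^ i * rho i * ∑ k ∈ range (m - i), th ^ k * ps k + th ^ m * (rho i * ps (m - i)) := by
      intro i hi
      have hi' := mem_range.mp hi
      have e2 : m + 1 - i = (m - i) + 1 := by omega
      have e3 : th ^ m = th ^ i * th ^ (m - i) := by
        rw [← pow_add]
        congr 1
        omega
      rw [e2, Finset.sum_range_succ, e3]
      ring
    have e5 : ∑ i ∈ range (m + 1), th ^ i * rho i * ∑ k ∈ range (m + 1 - i), th ^ k * ps k =
        ∑ i ∈ range m, th ^ i * rho i * ∑ k ∈ range (m + 1 - i), th ^ k * ps k +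
        th ^ m * rho m * ∑ k ∈ range (m + 1 - m), th ^ k * ps k := Finset.sum_range_succ _ m
    rw [e5, Finset.sum_congr rfl e1, Finset.sum_add_distrib, ← Finset.mul_sum,
      Finset.sum_range_succ (fun i => rho i * ps (m - i))]
    have e4 : m + 1 - m = 1 := by omega
    rw [e4, Finset.sum_range_one, Nat.sub_self, pow_zero]
    ring

lemma r5_S_mono (ps : ℕ → ℝ) (th : ℝ) (hth : 0 ≤ th) (hps : ∀ k, 0 ≤ ps k) {a b : ℕ} (h : a ≤ b) :
    ∑ k ∈ range a, th ^ k * ps k ≤ ∑ k ∈ range b, th ^ k * ps k :=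
  Finset.sum_le_sum_of_subset_of_nonneg (Finset.range_mono h)
    fun k _ _ => mul_nonneg (pow_nonneg hth k) (hps k)

/-- the termwise comparison, with the mass before the place `p` paid by the mass after it -/
theorem r5_core (ps rho A : ℕ → ℝ) (th D kap sig Smax Smin : ℝ) (p m i1 : ℕ) (hth : 0 < th)
    (hps : ∀ k, 0 ≤ ps k) (hrho : ∀ k, 0 ≤ rho k)
    (hA : ∀ j, j ≤ m → A j = ∑ i ∈ range (j + 1), rho i * ps (j - i))
    (hD : 0 ≤ D) (hkap : 0 ≤ kap) (hkap2 : kap ≤ 2 * th) (hsig0 : 0 < sig) (hsig1 : sig ≤ 1)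
    (hpm : p ≤ m) (hi1 : i1 ≤ m)
    (hT : ∀ N, N ≤ m - p → D * kap * ∑ k ∈ range N, th ^ k * ps k ≤
      sig * ((2 - kap / th) * (th ^ (N + 1) * ps N)))
    (hS1 : ∑ k ∈ range m, th ^ k * ps k ≤ Smax)
    (hS2 : Smin ≤ ∑ k ∈ range (m - i1), th ^ k * ps k)
    (hM : sig * Smax * ∑ i ∈ range p, th ^ i * rho i ≤
      (1 - sig) * Smin * ∑ i ∈ Ico p (i1 + 1), th ^ i * rho i) :
    D * kap * ∑ j ∈ range m, th ^ j * A j ≤ (2 - kap / th) * (th ^ (m + 1) * A m) := by
  have hth0 := hth.le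
  have hq : 0 ≤ 2 - kap / th := by
    have : kap / th ≤ 2 := by
      rw [div_le_iff₀ hth]
      exact hkap2
    linarith
  obtain ⟨S, hS⟩ : ∃ S : ℕ → ℝ, S = fun N => ∑ k ∈ range N, th ^ k * ps k := ⟨_, rfl⟩
  obtain ⟨a, ha⟩ : ∃ a : ℕ → ℝ, a = fun i => th ^ i * rho i := ⟨_, rfl⟩
  have ha0 : ∀ i, 0 ≤ a i := fun i => by
    rw [ha]
    exact mul_nonneg (pow_nonneg hth0 i) (hrho i)
  have hS0 : ∀ N, 0 ≤ S N := fun N => by
    rw [hS]
    exact Finset.sum_nonneg fun k _ => mul_nonneg (pow_nonneg hth0 k) (hps k)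
  have hSm : ∀ x y, x ≤ y → S x ≤ S y := fun x y h => by
    rw [hS]
    exact r5_S_mono ps th hth0 hps h
  obtain ⟨P, hP⟩ : ∃ P : ℕ → ℝ, P = fun N => (2 - kap / th) * (th ^ (N + 1) * ps N) := ⟨_, rfl⟩
  have hP0 : ∀ N, 0 ≤ P N := fun N => by
    rw [hP]
    exact mul_nonneg hq (mul_nonneg (pow_nonneg hth0 _) (hps N))
  have hT' : ∀ N, N ≤ m - p → D * kap * S N ≤ sig * P N := fun N hN => by
    rw [hS, hP]
    exact hT N hN
  have hDk : 0 ≤ D * kap := mul_nonneg hD hkap
  -- left side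
  have e1 : ∑ j ∈ range m, th ^ j * A j = ∑ i ∈ range (m + 1), a i * S (m - i) := by
    have e2 : ∑ j ∈ range m, th ^ j * A j =
        ∑ j ∈ range m, th ^ j * ∑ i ∈ range (j + 1), rho i * ps (j - i) := by
      apply Finset.sum_congr rfl
      intro j hj
      have hj' := mem_range.mp hj
      rw [hA j (by omega)]
    rw [e2, r5_swap, Finset.sum_range_succ, Nat.sub_self]
    have e3 : S 0 = 0 := by
      rw [hS]
      simp
    rw [e3, mul_zero, add_zero, ha, hS]
  have e4 : (2 - kap / th) * (th ^ (m + 1) * A m) = ∑ i ∈ range (m + 1), a i * P (m - i) := by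
    rw [hA m le_rfl, Finset.mul_sum, Finset.mul_sum]
    apply Finset.sum_congr rfl
    intro i hi
    have hi' := mem_range.mp hi
    rw [ha, hP]
    have e5 : th ^ (m + 1) = th ^ i * th ^ (m - i + 1) := by
      rw [← pow_add]
      congr 1
      omega
    rw [e5]
    ring
  rw [e1, e4, Finset.range_eq_Ico, ← Finset.sum_Ico_consecutive _ (Nat.zero_le p)
    (show p ≤ m + 1 by omega), ← Finset.sum_Ico_consecutive (fun i => a i * P (m - i))
    (Nat.zero_le p) (show p ≤ m + 1 by omega)]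
  -- the places before p
  have f1 : ∑ i ∈ Ico 0 p, a i * S (m - i) ≤ Smax * ∑ i ∈ range p, a i := by
    rw [← Finset.range_eq_Ico, Finset.mul_sum]
    apply Finset.sum_le_sum
    intro i _
    rw [mul_comm]
    apply mul_le_mul_of_nonneg_right _ (ha0 i)
    refine (hSm _ _ (Nat.sub_le m i)).trans ?_
    rw [hS]
    exact hS1
  -- the places from p on
  have f2 : D * kap * ∑ i ∈ Ico p (m + 1), a i * S (m - i) ≤
      sig * ∑ i ∈ Ico p (m + 1), a i * P (m - i) := by
    rw [Finset.mul_sum, Finset.mul_sum]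
    apply Finset.sum_le_sum
    intro i hi
    have hi' := Finset.mem_Ico.mp hi
    have h1 := mul_le_mul_of_nonneg_left (hT' (m - i) (by omega)) (ha0 i)
    linarith
  have f3 : Smin * ∑ i ∈ Ico p (i1 + 1), a i ≤ ∑ i ∈ Ico p (m + 1), a i * S (m - i) := by
    rw [Finset.mul_sum]
    refine le_trans (Finset.sum_le_sum (g := fun i => a i * S (m - i)) ?_)
      (Finset.sum_le_sum_of_subset_of_nonneg (Finset.Ico_subset_Ico le_rfl (by omega)) ?_)
    · intro i hi
      have hi' := Finset.mem_Ico.mp hi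
      rw [mul_comm]
      apply mul_le_mul_of_nonneg_left _ (ha0 i)
      refine le_trans ?_ (hSm (m - i1) (m - i) (by omega))
      rw [hS]
      exact hS2
    · intro i _ _
      exact mul_nonneg (ha0 i) (hS0 _)
  have f4 : 0 ≤ ∑ i ∈ Ico 0 p, a i * P (m - i) :=
    Finset.sum_nonneg fun i _ => mul_nonneg (ha0 i) (hP0 _)
  have hM' : sig * Smax * ∑ i ∈ range p, a i ≤ (1 - sig) * Smin * ∑ i ∈ Ico p (i1 + 1), a i := by
    rw [ha]
    exact hM
  -- combine, everything times sig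
  have g1 := mul_le_mul_of_nonneg_left f1 hDk
  have g2 := mul_le_mul_of_nonneg_left hM' hDk
  have g3 := mul_le_mul_of_nonneg_left f3 (mul_nonneg hDk (sub_nonneg.mpr hsig1))
  have g4 := mul_le_mul_of_nonneg_left f2 (sub_nonneg.mpr hsig1)
  have key : sig * (D * kap * (∑ i ∈ Ico 0 p, a i * S (m - i) +
      ∑ i ∈ Ico p (m + 1), a i * S (m - i))) ≤
      sig * (∑ i ∈ Ico 0 p, a i * P (m - i) + ∑ i ∈ Ico p (m + 1), a i * P (m - i)) := by
    have g5 := mul_le_mul_of_nonneg_left g1 hsig0.le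
    have g6 := mul_le_mul_of_nonneg_left f2 hsig0.le
    have g7 := mul_nonneg hsig0.le f4
    nlinarith
  exact le_of_mul_le_mul_left key hsig0

end Pool.Agent.MP_9da1e3_co
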