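import Pool.Agent.Lib.MP_9da1e3_co.KcF
import Pool.Agent.Lib.MP_9da1e3_co.KdG0
import Pool.Agent.Lib.MP_9da1e3_co.KdG100
import Pool.Agent.Lib.MP_9da1e3_co.KdG200
import Pool.Agent.Lib.MP_9da1e3_co.KdG300
import Pool.Agent.Lib.MP_9da1e3_co.KdG400
import Pool.Agent.Lib.MP_9da1e3_co.KdG500
import Pool.Agent.Lib.MP_9da1e3_co.KdG600
import Pool.Agent.Lib.MP_9da1e3_co.KdG700
import Pool.Agent.Lib.MP_9da1e3_co.KdG800
import Pool.Agent.Lib.MP_9da1e3_co.KdG900

/-! Levels `L < 1000`: the sign pattern for all `n`. -/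

namespace Pool.Agent.MP_9da1e3_co

theorem kd_far : ∀ L, L < 1000 → FarP L (nuT L) := by
  intro L h
  by_cases h0 : L < 100
  · exact fG0 L (by omega) h0
  by_cases h100 : L < 200
  · exact fG100 L (by omega) h100
  by_cases h200 : L < 300
  · exact fG200 L (by omega) h200
  by_cases h300 : L < 400
  · exact fG300 L (by omega) h300
  by_cases h400 : L < 500
  · exact fG400 L (by omega) h400
  by_cases h500 : L < 600
  · exact fG500 L (by omega) h500
  by_cases h600 : L < 700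
  · exact fG600 L (by omega) h600
  by_cases h700 : L < 800
  · exact fG700 L (by omega) h700
  by_cases h800 : L < 900
  · exact fG800 L (by omega) h800
  · exact fG900 L (by omega) h

theorem nuT_facts : ∀ L, L < 1000 →
    (L + 1 < nuT L ∧ nuT L ≤ NNk L ∧ (L + 1 < 1000 → nuT L ≤ nuT (L + 1))) := by
  decide +kernel

theorem small_levels :
    (∀ L n, L < 1000 → L < n → n < nuT L → Fr (L + 2) n + Fr L n < 2 * Fr (L + 1) n) ∧
    (∀ L n, L < 1000 → nuT L ≤ n → 2 * Fr (L + 1) n ≤ Fr (L + 2) n + Fr L n) ∧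
    (∀ L, L < 1000 → L + 1 < nuT L) ∧
    (∀ L, L + 1 < 1000 → nuT L ≤ nuT (L + 1)) ∧ nuT 999 = 1076 := by
  refine ⟨?_, ?_, ?_, ?_, ?_⟩
  · intro L n hL h1 h2
    have h3 := (nuT_facts L hL).2.1
    exact (kc_sign L hL n h1 (by omega)).1 h2
  · intro L n hL h1
    exact kd_far L hL n h1
  · intro L hL
    exact (nuT_facts L hL).1
  · intro L hL
    exact (nuT_facts L (by omega)).2.2 hL
  · decide +kernel

end Pool.Agent.MP_9da1e3_co
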