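import Pool.Agent.Lib.MP_9da1e3_co.Up1
import Pool.Agent.Lib.MP_9da1e3_co.Ct1

/-!
The square `TQ = tn * tn` of the sequence `tn`.
-/

namespace Pool.Agent.MP_9da1e3_co

open Finset

lemma ww_eq_tn73 (k : ℕ) : ww k = ((k : ℝ) + 1) * (tn k / E) := by
  have hE := E_pos
  have : 0 < E ^ k := pow_pos hE k
  unfold ww tn
  rw [cc_eq, pow_succ]
  field_simp


/-- `(1 + 1/(k+1))^(k+1)`. -/
noncomputable def rz (k : ℕ) : ℝ := (1 + 1 / ((k : ℝ) + 1)) ^ (k + 1)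

lemma ww_succ73 (k : ℕ) : E * ww (k + 1) = rz k * ww k := by
  have hE := E_pos
  have h1 : (0 : ℝ) < (k : ℝ) + 1 := by positivity
  have h2 : (0 : ℝ) < (k.factorial : ℝ) := by positivity
  have h3 : 0 < E ^ (k + 1) := pow_pos hE _
  have h4 : (1 + 1 / ((k : ℝ) + 1)) ^ (k + 1) = ((k : ℝ) + 2) ^ (k + 1) / ((k : ℝ) + 1) ^ (k + 1) := by
    rw [← div_pow]
    congr 1
    field_simp
    ring
  unfold ww cc rz
  rw [h4, Nat.factorial_succ]
  push_cast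
  have h5 : (k : ℝ) + 1 + 1 = (k : ℝ) + 2 := by ring
  rw [h5, pow_succ E (k + 1), pow_succ ((k : ℝ) + 1) k]
  field_simp

lemma rz_eq_exp (k : ℕ) : rz k = Real.exp (((k : ℝ) + 1) * Real.log (1 + ((k : ℝ) + 1)⁻¹)) := by
  have h1 : (0 : ℝ) < 1 + ((k : ℝ) + 1)⁻¹ := by positivity
  unfold rz
  rw [mul_comm, Real.exp_mul, Real.exp_log h1, one_div]
  have : ((k : ℝ) + 1) = ((k + 1 : ℕ) : ℝ) := by push_cast; rfl
  rw [this, Real.rpow_natCast]

lemma rz_le (k : ℕ) : rz k * (2 + 1 / ((k : ℝ) + 2)) ≤ 2 * E := by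
  have hj : (0 : ℝ) < (k : ℝ) + 1 := by positivity
  set j : ℝ := (k : ℝ) + 1 with hjd
  set z : ℝ := 1 / (2 * j + 1) with hz
  have hz0 : 0 < z := by rw [hz]; positivity
  have hz1 : z < 1 := by
    rw [hz, div_lt_one (by positivity)]
    linarith
  have h := Real.hasSum_log_one_add_inv hj
  have hzz : z ^ 2 < 1 := by nlinarith
  have hg : HasSum (fun n : ℕ => 2 * z * (z ^ 2) ^ n) (2 * z * (1 - z ^ 2)⁻¹) :=
    (hasSum_geometric_of_lt_one (by positivity) hzz).mul_left _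
  have hle : Real.log (1 + j⁻¹) ≤ 2 * z * (1 - z ^ 2)⁻¹ := by
    refine hasSum_le (fun n => ?_) h hg
    have h1 : (1 : ℝ) / (2 * n + 1) ≤ 1 := by
      rw [div_le_one (by positivity)]
      have : (0 : ℝ) ≤ n := Nat.cast_nonneg n
      linarith
    have h2 : 2 * z * (z ^ 2) ^ n = 2 * 1 * z ^ (2 * n + 1) := by
      rw [← pow_mul, pow_succ]; ring
    rw [h2]
    have h3 : 0 ≤ z ^ (2 * n + 1) := by positivity
    nlinarith
  have e1 : j * (2 * z * (1 - z ^ 2)⁻¹) = 1 - 1 / (2 * (j + 1)) := by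
    have h4 : 1 - z ^ 2 ≠ 0 := by linarith
    have h5 : (1 - z ^ 2) = 4 * j * (j + 1) / (2 * j + 1) ^ 2 := by
      rw [hz]; field_simp; ring
    rw [h5, hz]
    field_simp
    ring
  have h2 : rz k ≤ Real.exp (1 - 1 / (2 * (j + 1))) := by
    rw [rz_eq_exp, ← e1]
    exact Real.exp_le_exp.mpr (mul_le_mul_of_nonneg_left hle hj.le)
  have h3 : 1 + 1 / (2 * (j + 1)) ≤ Real.exp (1 / (2 * (j + 1))) := by
    have := Real.add_one_le_exp (1 / (2 * (j + 1)))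
    linarith
  have e2 : 2 + 1 / ((k : ℝ) + 2) = 2 * (1 + 1 / (2 * (j + 1))) := by
    rw [hjd]
    have : (k : ℝ) + 1 + 1 = (k : ℝ) + 2 := by ring
    rw [this]
    field_simp
  have h4 : 0 < 1 + 1 / (2 * (j + 1)) := by positivity
  calc rz k * (2 + 1 / ((k : ℝ) + 2)) = 2 * (rz k * (1 + 1 / (2 * (j + 1)))) := by rw [e2]; ring
    _ ≤ 2 * (Real.exp (1 - 1 / (2 * (j + 1))) * Real.exp (1 / (2 * (j + 1)))) := by
        apply mul_le_mul_of_nonneg_left _ (by norm_num)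
        exact mul_le_mul h2 h3 h4.le (Real.exp_pos _).le
    _ = 2 * E := by
        rw [← Real.exp_add]
        unfold E
        congr 2
        ring

/-- `tn * tn` -/
noncomputable def TQ (k : ℕ) : ℝ := ∑ j ∈ range (k + 1), tn j * tn (k - j)

lemma TQ_pos (k : ℕ) : 0 < TQ k := by
  unfold TQ
  apply Finset.sum_pos
  · intro j _
    exact mul_pos (tn_pos _) (tn_pos _)
  · exact ⟨0, by simp⟩

lemma TQ_eq (k : ℕ) : ((k : ℝ) + 2) * TQ k = 2 * E * (((k : ℝ) + 1) * tn (k + 1)) := by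
  have h := Fn_rec (k + 1) k
  rw [Fn_eq_tn (k + 1) (k + 1) le_rfl] at h
  have e1 : ∑ i ∈ range (k + 1), ((min (k + 1) (i + 1) : ℕ) : ℝ) * (Fn (k + 1) i * Fn (k + 1) (k - i)) =
      ∑ i ∈ range (k + 1), ((i : ℝ) + 1) * (tn i * tn (k - i)) := by
    apply Finset.sum_congr rfl
    intro i hi
    have hi' := mem_range.mp hi
    rw [Fn_eq_tn (k + 1) i (by omega), Fn_eq_tn (k + 1) (k - i) (by omega)]
    have : min (k + 1) (i + 1) = i + 1 := by omega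
    rw [this]
    push_cast
    ring
  rw [e1] at h
  have e2 : ∑ i ∈ range (k + 1), ((i : ℝ) + 1) * (tn i * tn (k - i)) =
      ∑ i ∈ range (k + 1), (((k : ℝ) - i) + 1) * (tn i * tn (k - i)) := by
    rw [← sum_rev (fun i => ((i : ℝ) + 1) * (tn i * tn (k - i))) k]
    apply Finset.sum_congr rfl
    intro i hi
    have hi' := mem_range.mp hi
    have e3 : k - (k - i) = i := by omega
    have e4 : ((k - i : ℕ) : ℝ) = (k : ℝ) - i := by rw [Nat.cast_sub (by omega)]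
    rw [e3, e4]
    ring
  have e5 : ((k : ℝ) + 2) * TQ k = ∑ i ∈ range (k + 1), ((i : ℝ) + 1) * (tn i * tn (k - i)) +
      ∑ i ∈ range (k + 1), (((k : ℝ) - i) + 1) * (tn i * tn (k - i)) := by
    unfold TQ
    rw [← Finset.sum_add_distrib, Finset.mul_sum]
    apply Finset.sum_congr rfl
    intro i _
    ring
  rw [e5, ← e2, ← h]
  ring

lemma TQ_eq' (k : ℕ) : TQ k = 2 * E * (((k : ℝ) + 1) / ((k : ℝ) + 2)) * tn (k + 1) := by
  have h := TQ_eq k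
  have h1 : (0 : ℝ) < (k : ℝ) + 2 := by positivity
  field_simp
  linarith

lemma TQ_zero : TQ 0 = 1 := by
  unfold TQ
  simp [tn_zero]

/-- `tn (k+1) / tn k ≤ 2 (k+1) / (2k+5)` -/
lemma tn_succ_ratio (k : ℕ) : (2 * (k : ℝ) + 5) * tn (k + 1) ≤ 2 * ((k : ℝ) + 1) * tn k := by
  have h1 := ww_succ73 k
  have h2 := rz_le k
  have hE := E_pos
  have h3 := ww_eq_tn73 k
  have h4 := ww_eq_tn73 (k + 1)
  have hk : (0 : ℝ) ≤ k := Nat.cast_nonneg k
  have ht := tn_pos k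
  have hw := ww_pos k
  push_cast at h4
  have h5 : E * ww (k + 1) = ((k : ℝ) + 2) * tn (k + 1) := by
    rw [h4]
    field_simp
    ring
  have h6 : E * ww k = ((k : ℝ) + 1) * tn k := by
    rw [h3]
    field_simp
  have h7 : rz k * (2 * (k : ℝ) + 5) ≤ 2 * E * ((k : ℝ) + 2) := by
    have e : rz k * (2 * (k : ℝ) + 5) = rz k * (2 + 1 / ((k : ℝ) + 2)) * ((k : ℝ) + 2) := by
      field_simp
      ring
    rw [e]
    exact mul_le_mul_of_nonneg_right h2 (by positivity)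
  have h8 := mul_le_mul_of_nonneg_right h7 hw.le
  have h9 : (2 * (k : ℝ) + 5) * (((k : ℝ) + 2) * tn (k + 1)) ≤
      ((k : ℝ) + 2) * (2 * (((k : ℝ) + 1) * tn k)) := by
    rw [← h5, h1, ← h6]
    calc (2 * (k : ℝ) + 5) * (rz k * ww k) = rz k * (2 * (k : ℝ) + 5) * ww k := by ring
      _ ≤ 2 * E * ((k : ℝ) + 2) * ww k := h8
      _ = _ := by ring
  have h10 : (0 : ℝ) < (k : ℝ) + 2 := by positivity
  have h11 : ((k : ℝ) + 2) * ((2 * (k : ℝ) + 5) * tn (k + 1)) ≤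
      ((k : ℝ) + 2) * (2 * ((k : ℝ) + 1) * tn k) := by linarith
  exact le_of_mul_le_mul_left h11 h10

/-- exact ratio: `2 (k+2)^3 TQ (k+1) ≤ (k+1) (k+3) (2k+7) ... TQ k` in cleared form -/
lemma TQ_succ_ratio (k : ℕ) : ((k : ℝ) + 1) * ((k : ℝ) + 3) * (2 * (k : ℝ) + 7) * TQ (k + 1) ≤
    2 * ((k : ℝ) + 2) ^ 3 * TQ k := by
  have h1 := TQ_eq k
  have h2 := TQ_eq (k + 1)
  have h3 := tn_succ_ratio (k + 1)
  have hE := E_pos
  have hk : (0 : ℝ) ≤ k := Nat.cast_nonneg k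
  push_cast at h2 h3
  have e1 : (2 * ((k : ℝ) + 1) + 5) = 2 * (k : ℝ) + 7 := by ring
  have e2 : 2 * ((k : ℝ) + 1 + 1) = 2 * ((k : ℝ) + 2) := by ring
  rw [e1, e2] at h3
  have e3 : ((k : ℝ) + 1 + 2) = (k : ℝ) + 3 := by ring
  have e4 : ((k : ℝ) + 1 + 1) = (k : ℝ) + 2 := by ring
  rw [e3, e4] at h2
  calc ((k : ℝ) + 1) * ((k : ℝ) + 3) * (2 * (k : ℝ) + 7) * TQ (k + 1)
      = ((k : ℝ) + 1) * (2 * (k : ℝ) + 7) * (((k : ℝ) + 3) * TQ (k + 1)) := by ring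
    _ = ((k : ℝ) + 1) * (2 * E * ((k : ℝ) + 2)) * ((2 * (k : ℝ) + 7) * tn (k + 1 + 1)) := by
        rw [h2]; ring
    _ ≤ ((k : ℝ) + 1) * (2 * E * ((k : ℝ) + 2)) * (2 * ((k : ℝ) + 2) * tn (k + 1)) :=
        mul_le_mul_of_nonneg_left h3 (by positivity)
    _ = 2 * ((k : ℝ) + 2) ^ 2 * (2 * E * (((k : ℝ) + 1) * tn (k + 1))) := by ring
    _ = 2 * ((k : ℝ) + 2) ^ 2 * (((k : ℝ) + 2) * TQ k) := by rw [h1]
    _ = _ := by ring

/-- `(1 + 1.5/(k+3)) TQ (k+1) ≤ TQ k`, `k ≥ 4` -/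
lemma TQ_ratio_big (k : ℕ) (hk : 4 ≤ k) : (1 + 1.5 / ((k : ℝ) + 3)) * TQ (k + 1) ≤ TQ k := by
  have h := TQ_succ_ratio k
  have hT := TQ_pos (k + 1)
  have hk' : (4 : ℝ) ≤ k := by exact_mod_cast hk
  have h1 : (1 + 1.5 / ((k : ℝ) + 3)) * (2 * ((k : ℝ) + 2) ^ 3) ≤
      ((k : ℝ) + 1) * ((k : ℝ) + 3) * (2 * (k : ℝ) + 7) := by
    have e : (1 + 1.5 / ((k : ℝ) + 3)) = (2 * (k : ℝ) + 9) / (2 * ((k : ℝ) + 3)) := by
      field_simp
      ring
    rw [e, div_mul_eq_mul_div, div_le_iff₀ (by positivity)]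
    obtain ⟨z, rfl⟩ : ∃ z : ℝ, z = (k : ℝ) - 4 := ⟨_, rfl⟩
    nlinarith [mul_nonneg (by linarith : (0 : ℝ) ≤ (k : ℝ) - 4) (by linarith : (0 : ℝ) ≤ (k : ℝ))]
  have h2 := mul_le_mul_of_nonneg_right h1 hT.le
  have h3 : (2 * ((k : ℝ) + 2) ^ 3) * ((1 + 1.5 / ((k : ℝ) + 3)) * TQ (k + 1)) ≤
      (2 * ((k : ℝ) + 2) ^ 3) * TQ k := by linarith
  exact le_of_mul_le_mul_left h3 (by positivity)

/-- `θ TQ (k+1) ≤ TQ k` with `θ = 1 + 1.5/L`, `k + 3 ≤ L` -/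
lemma TQ_theta (L k : ℕ) (hL : 7 ≤ L) (h : k + 3 ≤ L) : (1 + 1.5 / (L : ℝ)) * TQ (k + 1) ≤ TQ k := by
  have hT := TQ_pos (k + 1)
  have hL' : (7 : ℝ) ≤ L := by exact_mod_cast hL
  by_cases hk : 4 ≤ k
  · refine le_trans ?_ (TQ_ratio_big k hk)
    apply mul_le_mul_of_nonneg_right _ hT.le
    have h1 : (k : ℝ) + 3 ≤ L := by exact_mod_cast h
    have h2 : 1.5 / (L : ℝ) ≤ 1.5 / ((k : ℝ) + 3) :=
      div_le_div_of_nonneg_left (by norm_num) (by positivity) h1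
    linarith
  · have h0 := TQ_succ_ratio k
    have h1 : 1.5 / (L : ℝ) ≤ 1.5 / 7 := div_le_div_of_nonneg_left (by norm_num) (by norm_num) hL'
    have h2 : (1 + 1.5 / (L : ℝ)) * TQ (k + 1) ≤ (1 + 1.5 / 7) * TQ (k + 1) :=
      mul_le_mul_of_nonneg_right (by linarith) hT.le
    refine h2.trans ?_
    have h3 : k = 0 ∨ k = 1 ∨ k = 2 ∨ k = 3 := by omega
    rcases h3 with rfl | rfl | rfl | rfl <;> norm_num at h0 ⊢ <;> linarith

lemma TQ_anti_succ (k : ℕ) : TQ (k + 1) ≤ TQ k := by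
  have h := TQ_theta (k + 7) k (by omega) (by omega)
  have hT := TQ_pos (k + 1)
  have h1 : 0 ≤ 1.5 / ((k + 7 : ℕ) : ℝ) := by positivity
  nlinarith

lemma TQ_anti {a b : ℕ} (h : a ≤ b) : TQ b ≤ TQ a := by
  induction h with
  | refl => exact le_rfl
  | step _ ih => exact (TQ_anti_succ _).trans ih

/-- upper bound -/
lemma TQ_upper (k : ℕ) : TQ k ≤ 5.8957 * ((k : ℝ) + 1) / (((k : ℝ) + 2) ^ 2 * sq (k + 1)) := by
  have h1 := tn_le_cA (k + 1)
  have hE := E_pos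
  have hs := sq_pos (k + 1)
  have hE2 : E < 2.7182818286 := Real.exp_one_lt_d9
  have hc := cA_lt
  have hc0 := cA_pos
  push_cast at h1
  have e : ((k : ℝ) + 1 + 1) = (k : ℝ) + 2 := by ring
  rw [e] at h1
  rw [TQ_eq']
  have h2 : 2 * E * cA ≤ 5.8957 := by nlinarith
  calc 2 * E * (((k : ℝ) + 1) / ((k : ℝ) + 2)) * tn (k + 1)
      ≤ 2 * E * (((k : ℝ) + 1) / ((k : ℝ) + 2)) * (cA / (((k : ℝ) + 2) * sq (k + 1))) :=
        mul_le_mul_of_nonneg_left h1 (by positivity)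
    _ = 2 * E * cA * (((k : ℝ) + 1) / (((k : ℝ) + 2) ^ 2 * sq (k + 1))) := by
        field_simp
    _ ≤ 5.8957 * (((k : ℝ) + 1) / (((k : ℝ) + 2) ^ 2 * sq (k + 1))) :=
        mul_le_mul_of_nonneg_right h2 (by positivity)
    _ = _ := by ring

/-- lower bound, `k ≥ 2` -/
lemma TQ_lower (k : ℕ) (hk : 2 ≤ k) : 5.895 / (((k : ℝ) + 3) * sq (k + 2)) ≤ TQ k := by
  have h1 := le_tn_cA (k + 1)
  have hE := E_pos
  have hs := sq_pos (k + 1)
  have hs' := sq_pos (k + 2)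
  have hE2 : 2.7182818283 < E := Real.exp_one_gt_d9
  have hc := lt_cA
  have hk' : (2 : ℝ) ≤ k := by exact_mod_cast hk
  push_cast at h1
  have e : ((k : ℝ) + 1 + 1) = (k : ℝ) + 2 := by ring
  rw [e] at h1
  obtain ⟨z, hz⟩ : ∃ z : ℝ, z = (k : ℝ) + 2 := ⟨_, rfl⟩
  have hz4 : 4 ≤ z := by rw [hz]; linarith
  have hz0 : 0 < z := by linarith
  obtain ⟨s, hsd⟩ : ∃ s : ℝ, s = sq (k + 1) := ⟨_, rfl⟩
  obtain ⟨s', hsd'⟩ : ∃ s' : ℝ, s' = sq (k + 2) := ⟨_, rfl⟩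
  have hss : s * s = z := by
    rw [hsd, hz]
    have := sq_sq (k + 1)
    push_cast at this
    linarith
  have hss' : s' * s' = z + 1 := by
    rw [hsd', hz]
    have := sq_sq (k + 2)
    push_cast at this
    linarith
  rw [← hsd, ← hz] at h1
  rw [← hsd'] at hs'
  rw [← hsd] at hs
  rw [TQ_eq', ← hsd', ← hz]
  have ek1 : (k : ℝ) + 1 = z - 1 := by rw [hz]; ring
  have ek3 : (k : ℝ) + 3 = z + 1 := by rw [hz]; ring
  rw [ek1, ek3]
  -- s' ≥ s (8 z² + 4 z - 1) / (8 z²)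
  have h2 : s * (8 * z ^ 2 + 4 * z - 1) ≤ 8 * z ^ 2 * s' := by
    apply le_of_sq_le_sq _ (by positivity)
    have e1 : (s * (8 * z ^ 2 + 4 * z - 1)) ^ 2 = z * (8 * z ^ 2 + 4 * z - 1) ^ 2 := by
      rw [mul_pow, pow_two s, hss]
    have e2 : (8 * z ^ 2 * s') ^ 2 = 64 * z ^ 4 * (z + 1) := by
      rw [mul_pow, pow_two s', hss']
      ring
    rw [e1, e2]
    have e3 : 64 * z ^ 4 * (z + 1) - z * (8 * z ^ 2 + 4 * z - 1) ^ 2 = z * (8 * z - 1) := by ring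
    have e4 : 0 ≤ z * (8 * z - 1) := by nlinarith
    linarith
  have h3 : (5.895 : ℝ) ≤ 2 * E * cA := by nlinarith
  have h4 : 96 * z ^ 5 ≤ (z ^ 2 - 1) * (12 * z - 1) * (8 * z ^ 2 + 4 * z - 1) := by
    have e1 : (z ^ 2 - 1) * (12 * z - 1) * (8 * z ^ 2 + 4 * z - 1) - 96 * z ^ 5 =
        40 * z ^ 4 - 112 * z ^ 3 - 39 * z ^ 2 + 16 * z - 1 := by ring
    have e2 : 0 ≤ 40 * z ^ 4 - 112 * z ^ 3 - 39 * z ^ 2 + 16 * z - 1 := by
      have e3 : 40 * z ^ 4 - 112 * z ^ 3 - 39 * z ^ 2 + 16 * z - 1 =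
          (z - 4) * (40 * z ^ 3 + 48 * z ^ 2 + 153 * z + 628) + 2511 := by ring
      rw [e3]
      have : 0 ≤ (z - 4) * (40 * z ^ 3 + 48 * z ^ 2 + 153 * z + 628) :=
        mul_nonneg (by linarith) (by positivity)
      linarith
    linarith
  have h5 : z ^ 2 * s * (96 * z ^ 3) ≤ (z - 1) * (12 * z - 1) * (z + 1) * s' * (8 * z ^ 2) := by
    have e1 : 0 ≤ (z - 1) * (12 * z - 1) * (z + 1) :=
      mul_nonneg (mul_nonneg (by linarith) (by linarith)) (by linarith)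
    calc z ^ 2 * s * (96 * z ^ 3) = s * (96 * z ^ 5) := by ring
      _ ≤ s * ((z ^ 2 - 1) * (12 * z - 1) * (8 * z ^ 2 + 4 * z - 1)) :=
          mul_le_mul_of_nonneg_left h4 hs.le
      _ = (z - 1) * (12 * z - 1) * (z + 1) * (s * (8 * z ^ 2 + 4 * z - 1)) := by ring
      _ ≤ (z - 1) * (12 * z - 1) * (z + 1) * (8 * z ^ 2 * s') := mul_le_mul_of_nonneg_left h2 e1
      _ = _ := by ring
  have h6 : 5.895 / ((z + 1) * s') ≤ 2 * E * cA * ((z - 1) * (1 - 1 / (12 * z)) / (z * (z * s))) := by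
    have e1 : (1 - 1 / (12 * z)) = (12 * z - 1) / (12 * z) := by
      field_simp
    rw [e1]
    have e2 : (z - 1) * ((12 * z - 1) / (12 * z)) / (z * (z * s)) =
        ((z - 1) * (12 * z - 1)) / (12 * z ^ 3 * s) := by
      field_simp
    rw [e2]
    have e3 : 1 / ((z + 1) * s') ≤ ((z - 1) * (12 * z - 1)) / (12 * z ^ 3 * s) := by
      rw [div_le_div_iff₀ (by positivity) (by positivity)]
      have e4 : (12 * z ^ 3 * s) * (8 * z ^ 2) ≤ (z - 1) * (12 * z - 1) * ((z + 1) * s') * (8 * z ^ 2) := by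
        calc (12 * z ^ 3 * s) * (8 * z ^ 2) = z ^ 2 * s * (96 * z ^ 3) := by ring
          _ ≤ _ := h5
          _ = _ := by ring
      have e5 := le_of_mul_le_mul_right e4 (by positivity)
      linarith
    calc 5.895 / ((z + 1) * s') = 5.895 * (1 / ((z + 1) * s')) := by ring
      _ ≤ 5.895 * (((z - 1) * (12 * z - 1)) / (12 * z ^ 3 * s)) :=
          mul_le_mul_of_nonneg_left e3 (by norm_num)
      _ ≤ 2 * E * cA * (((z - 1) * (12 * z - 1)) / (12 * z ^ 3 * s)) := by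
          apply mul_le_mul_of_nonneg_right h3
          apply div_nonneg _ (by positivity)
          exact mul_nonneg (by linarith) (by linarith)
  refine h6.trans ?_
  have h7 := mul_le_mul_of_nonneg_left h1 (by
    apply mul_nonneg (by positivity)
    exact div_nonneg (by linarith) hz0.le : (0 : ℝ) ≤ 2 * E * ((z - 1) / z))
  refine le_trans (le_of_eq ?_) h7
  field_simp

lemma sum_TQ_eq (n : ℕ) : ∑ k ∈ range n, TQ k = ∑ j ∈ range n, tn j * ∑ i ∈ range (n - j), tn i := by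
  induction n with
  | zero => simp
  | succ n ih =>
    rw [Finset.sum_range_succ, ih]
    unfold TQ
    rw [Finset.sum_range_succ (fun j => tn j * ∑ i ∈ range (n + 1 - j), tn i),
      Finset.sum_range_succ (fun j => tn j * tn (n - j))]
    have e1 : ∑ j ∈ range n, tn j * ∑ i ∈ range (n + 1 - j), tn i =
        ∑ j ∈ range n, (tn j * ∑ i ∈ range (n - j), tn i + tn j * tn (n - j)) := by
      apply Finset.sum_congr rfl
      intro j hj
      have hj' := mem_range.mp hj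
      have e2 : n + 1 - j = (n - j) + 1 := by omega
      rw [e2, Finset.sum_range_succ]
      ring
    rw [e1, Finset.sum_add_distrib]
    have e3 : n + 1 - n = 1 := by omega
    rw [e3, Finset.sum_range_one]
    have e4 : n - n = 0 := by omega
    rw [e4]
    ring

/-- `P_k ≤ E²` -/
lemma sum_TQ_le (n : ℕ) : ∑ k ∈ range n, TQ k ≤ E ^ 2 := by
  rw [sum_TQ_eq]
  have hE := E_pos
  calc ∑ j ∈ range n, tn j * ∑ i ∈ range (n - j), tn i ≤ ∑ j ∈ range n, tn j * E := by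
        apply Finset.sum_le_sum
        intro j _
        exact mul_le_mul_of_nonneg_left (sum_tn_le _) (tn_pos j).le
    _ = (∑ j ∈ range n, tn j) * E := by rw [Finset.sum_mul]
    _ ≤ E * E := mul_le_mul_of_nonneg_right (sum_tn_le _) hE.le
    _ = E ^ 2 := by ring

/-- `Q_k ≤ 11.8 √(k+1)` -/
lemma sum_mul_TQ_le (n : ℕ) : ∑ k ∈ range n, (k : ℝ) * TQ k ≤ 11.8 * √(n : ℝ) := by
  induction n with
  | zero => simp
  | succ n ih =>
    rw [Finset.sum_range_succ]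
    have h1 := TQ_upper n
    have hn : (0 : ℝ) ≤ n := Nat.cast_nonneg n
    have hs := sq_pos (n + 1)
    have hs0 := sq_pos n
    have e0 : √((n + 1 : ℕ) : ℝ) = sq n := sq_cast n
    rw [e0]
    have hss : sq n * sq n = (n : ℝ) + 1 := sq_sq n
    have hrr : √(n : ℝ) * √(n : ℝ) = n := Real.mul_self_sqrt hn
    have hr0 : 0 ≤ √(n : ℝ) := Real.sqrt_nonneg _
    have hle : √(n : ℝ) ≤ sq n := by
      unfold sq
      exact Real.sqrt_le_sqrt (by linarith)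
    have hle2 : sq n ≤ sq (n + 1) := by
      unfold sq
      apply Real.sqrt_le_sqrt
      push_cast
      linarith
    have h2 : (n : ℝ) * TQ n ≤ 5.9 / sq n := by
      calc (n : ℝ) * TQ n ≤ (n : ℝ) * (5.8957 * ((n : ℝ) + 1) / (((n : ℝ) + 2) ^ 2 * sq (n + 1))) :=
            mul_le_mul_of_nonneg_left h1 hn
        _ = 5.8957 * (((n : ℝ) * ((n : ℝ) + 1)) / ((n : ℝ) + 2) ^ 2) / sq (n + 1) := by
            field_simp
        _ ≤ 5.9 / sq (n + 1) := by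
            apply div_le_div_of_nonneg_right _ hs.le
            have : ((n : ℝ) * ((n : ℝ) + 1)) / ((n : ℝ) + 2) ^ 2 ≤ 1 := by
              rw [div_le_one (by positivity)]
              nlinarith
            have h0 : 0 ≤ ((n : ℝ) * ((n : ℝ) + 1)) / ((n : ℝ) + 2) ^ 2 := by positivity
            nlinarith
        _ ≤ 5.9 / sq n := div_le_div_of_nonneg_left (by norm_num) hs0 hle2
    have h3 : 5.9 / sq n ≤ 11.8 * (sq n - √(n : ℝ)) := by
      rw [div_le_iff₀ hs0]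
      nlinarith
    linarith

end Pool.Agent.MP_9da1e3_co
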