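import Pool.Agent.Lib.MP_9da1e3_co.Z2
import Pool.Agent.Lib.MP_9da1e3_co.V2_C
import Pool.Agent.Lib.MP_9da1e3_co.V2_T2

/-!
R5, the case `N ≤ L` of the termwise inequality.
-/

namespace Pool.Agent.MP_9da1e3_co

open Finset

lemma tn73_thL_ge (L : ℕ) (hL : 1 ≤ L) : 1 - 2.5 / (L : ℝ) ≤ thL L := by
  have h := aa_mono (Nat.le_succ L)
  have hLr : (1 : ℝ) ≤ L := by exact_mod_cast hL
  have t0 := tn_pos L
  have t1 := tn_pos (L + 1)
  have s0 := sq_pos L
  have s1 := sq_pos (L + 1)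
  have ss0 : sq L * sq L = (L : ℝ) + 1 := sq_sq L
  have ss1 : sq (L + 1) * sq (L + 1) = (L : ℝ) + 2 := by
    have := sq_sq (L + 1)
    push_cast at this
    linarith
  unfold aa at h
  push_cast at h
  -- s1 * (L+1) ≤ s0 * (L + 3/2)
  have h1 : sq (L + 1) * ((L : ℝ) + 1) ≤ sq L * ((L : ℝ) + 3 / 2) := by
    apply le_of_sq_le_sq _ (by positivity)
    have e1 : (sq (L + 1) * ((L : ℝ) + 1)) ^ 2 = ((L : ℝ) + 2) * ((L : ℝ) + 1) ^ 2 := by
      rw [mul_pow, pow_two (sq (L + 1)), ss1]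
    have e2 : (sq L * ((L : ℝ) + 3 / 2)) ^ 2 = ((L : ℝ) + 1) * ((L : ℝ) + 3 / 2) ^ 2 := by
      rw [mul_pow, pow_two (sq L), ss0]
    rw [e1, e2]
    nlinarith
  -- tn L (L+1)^2 ≤ tn (L+1) (L+2)(L+3/2)
  have h2 : tn L * ((L : ℝ) + 1) ^ 2 ≤ tn (L + 1) * (((L : ℝ) + 2) * ((L : ℝ) + 3 / 2)) := by
    have h3 : tn L * ((L : ℝ) + 1) * (sq (L + 1) * ((L : ℝ) + 1)) ≤
        tn L * ((L : ℝ) + 1) * (sq L * ((L : ℝ) + 3 / 2)) :=
      mul_le_mul_of_nonneg_left h1 (by positivity)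
    have h4 : (((L : ℝ) + 1) * tn L * sq L) * ((L : ℝ) + 3 / 2) ≤
        (((L : ℝ) + 1 + 1) * tn (L + 1) * sq (L + 1)) * ((L : ℝ) + 3 / 2) :=
      mul_le_mul_of_nonneg_right h (by positivity)
    have h5 : (tn L * ((L : ℝ) + 1) ^ 2) * sq (L + 1) ≤
        (tn (L + 1) * (((L : ℝ) + 2) * ((L : ℝ) + 3 / 2))) * sq (L + 1) := by
      calc (tn L * ((L : ℝ) + 1) ^ 2) * sq (L + 1)
          = tn L * ((L : ℝ) + 1) * (sq (L + 1) * ((L : ℝ) + 1)) := by ring
        _ ≤ tn L * ((L : ℝ) + 1) * (sq L * ((L : ℝ) + 3 / 2)) := h3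
        _ = (((L : ℝ) + 1) * tn L * sq L) * ((L : ℝ) + 3 / 2) := by ring
        _ ≤ _ := h4
        _ = _ := by ring
    exact le_of_mul_le_mul_right h5 s1
  unfold thL
  have e : tn (L + 1) / tn L * (((L : ℝ) + 1) / ((L : ℝ) + 2)) =
      (tn (L + 1) * ((L : ℝ) + 1)) / (tn L * ((L : ℝ) + 2)) := by
    field_simp
  rw [e, le_div_iff₀ (by positivity)]
  have h6 : (1 - 2.5 / (L : ℝ)) * (tn L * ((L : ℝ) + 2)) * (((L : ℝ) + 2) * ((L : ℝ) + 3 / 2)) ≤
      (tn (L + 1) * ((L : ℝ) + 1)) * (((L : ℝ) + 2) * ((L : ℝ) + 3 / 2)) := by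
    have h7 := mul_le_mul_of_nonneg_right h2 (by positivity : (0 : ℝ) ≤ (L : ℝ) + 1)
    have h8 : (1 - 2.5 / (L : ℝ)) * (((L : ℝ) + 2) ^ 2 * ((L : ℝ) + 3 / 2)) ≤ ((L : ℝ) + 1) ^ 3 := by
      have e9 : (1 - 2.5 / (L : ℝ)) = ((L : ℝ) - 2.5) / L := by field_simp
      rw [e9, div_mul_eq_mul_div, div_le_iff₀ (by linarith)]
      nlinarith [mul_nonneg (by linarith : (0 : ℝ) ≤ L) (by linarith : (0 : ℝ) ≤ L)]
    have h9 := mul_le_mul_of_nonneg_left h8 t0.le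
    calc (1 - 2.5 / (L : ℝ)) * (tn L * ((L : ℝ) + 2)) * (((L : ℝ) + 2) * ((L : ℝ) + 3 / 2))
        = tn L * ((1 - 2.5 / (L : ℝ)) * (((L : ℝ) + 2) ^ 2 * ((L : ℝ) + 3 / 2))) := by ring
      _ ≤ tn L * ((L : ℝ) + 1) ^ 3 := h9
      _ = tn L * ((L : ℝ) + 1) ^ 2 * ((L : ℝ) + 1) := by ring
      _ ≤ _ := h7
      _ = _ := by ring
  exact le_of_mul_le_mul_right h6 (by positivity)

lemma tn73_one_sub (L : ℕ) (hL : 1000 ≤ L) (th : ℝ) (h1 : 1 + 3 / (2 * ((L : ℝ) + 2)) ≤ th) :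
    1 - thL L * th ≤ 1.007 / (L : ℝ) := by
  have hLr : (1000 : ℝ) ≤ L := by exact_mod_cast hL
  have h2 := tn73_thL_ge L (by omega)
  have h3 : 0 ≤ 1 - 2.5 / (L : ℝ) := by
    have : 2.5 / (L : ℝ) ≤ 1 := by
      rw [div_le_one (by linarith)]
      linarith
    linarith
  have h4 : 0 < 1 + 3 / (2 * ((L : ℝ) + 2)) := by positivity
  have h5 : (1 - 2.5 / (L : ℝ)) * (1 + 3 / (2 * ((L : ℝ) + 2))) ≤ thL L * th :=
    mul_le_mul h2 h1 h4.le (by linarith)
  have h6 : 1 - 1.007 / (L : ℝ) ≤ (1 - 2.5 / (L : ℝ)) * (1 + 3 / (2 * ((L : ℝ) + 2))) := by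
    have e : (1 - 2.5 / (L : ℝ)) * (1 + 3 / (2 * ((L : ℝ) + 2))) - (1 - 1.007 / (L : ℝ)) =
        (0.007 * (L : ℝ) + 0.014 - 6.75) / ((L : ℝ) * ((L : ℝ) + 2)) := by
      field_simp
      ring
    have h7 : 0 ≤ (0.007 * (L : ℝ) + 0.014 - 6.75) / ((L : ℝ) * ((L : ℝ) + 2)) := by
      apply div_nonneg _ (by positivity)
      linarith
    linarith
  linarith

lemma tn73_pow_ge (L : ℕ) (hL : 1000 ≤ L) : 4.4 ≤ (1 + 3 / (2 * ((L : ℝ) + 2))) ^ (L + 1) := by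
  have hLr : (1000 : ℝ) ≤ L := by exact_mod_cast hL
  set x : ℝ := 3 / (2 * ((L : ℝ) + 2)) with hx
  have hx0 : 0 < x := by rw [hx]; positivity
  have h1 : Real.exp (x / (1 + x)) ≤ 1 + x := by
    have h2 := Real.add_one_le_exp (-(x / (1 + x)))
    have h3 : -(x / (1 + x)) + 1 = 1 / (1 + x) := by
      field_simp
      ring
    rw [h3, Real.exp_neg, ← one_div, one_div_le_one_div (by linarith) (Real.exp_pos _)] at h2
    exact h2
  have h4 : Real.exp 1.49 ≤ (1 + x) ^ (L + 1) := by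
    refine le_trans ?_ (pow_le_pow_left₀ (Real.exp_pos _).le h1 (L + 1))
    rw [← Real.exp_nat_mul]
    apply Real.exp_le_exp.mpr
    have e : x / (1 + x) = 3 / (2 * (L : ℝ) + 7) := by
      rw [hx]
      field_simp
      ring
    rw [e]
    push_cast
    rw [mul_div_assoc', le_div_iff₀ (by positivity)]
    linarith
  refine le_trans ?_ h4
  have h5 : Real.exp 1.49 = Real.exp 1 * Real.exp 0.49 := by
    rw [← Real.exp_add]
    norm_num
  have h6 := Real.exp_one_gt_d9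
  have h7 := Real.sum_le_exp_of_nonneg (by norm_num : (0 : ℝ) ≤ 0.49) 4
  have h8 : (1.6296 : ℝ) ≤ Real.exp 0.49 := by
    refine le_trans ?_ h7
    simp only [Finset.sum_range_succ, Finset.sum_range_zero, Nat.factorial]
    norm_num
  rw [h5]
  nlinarith

lemma tn73_TQ_pow (L : ℕ) (hL : 5 ≤ L) : ∀ d N : ℕ, N + d = L →
    (1 + 3 / (2 * ((L : ℝ) + 2))) ^ L * TQ L ≤ (1 + 3 / (2 * ((L : ℝ) + 2))) ^ N * TQ N := by
  intro d
  induction d with
  | zero =>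
    intro N hN
    have : N = L := by omega
    rw [this]
  | succ d ih =>
    intro N hN
    refine (ih (N + 1) (by omega)).trans ?_
    have h := TQ_theta (L + 2) N (by omega) (by omega)
    push_cast at h
    have e : (1 + 1.5 / ((L : ℝ) + 2)) = 1 + 3 / (2 * ((L : ℝ) + 2)) := by
      have e0 : (3 : ℝ) / (2 * ((L : ℝ) + 2)) = 1.5 / ((L : ℝ) + 2) := by
        rw [div_eq_div_iff (by positivity) (by positivity)]
        ring
      rw [e0]
    rw [e] at h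
    have h1 : 0 ≤ (1 + 3 / (2 * ((L : ℝ) + 2))) ^ N := by positivity
    calc (1 + 3 / (2 * ((L : ℝ) + 2))) ^ (N + 1) * TQ (N + 1)
        = (1 + 3 / (2 * ((L : ℝ) + 2))) ^ N * ((1 + 3 / (2 * ((L : ℝ) + 2))) * TQ (N + 1)) := by
          rw [pow_succ]
          ring
      _ ≤ _ := mul_le_mul_of_nonneg_left h h1

lemma tn73_TQ_low (L : ℕ) (hL : 1000 ≤ L) : 5.86 / ((L : ℝ) * √(L : ℝ)) ≤ TQ L := by
  have hLr : (1000 : ℝ) ≤ L := by exact_mod_cast hL
  refine le_trans ?_ (TQ_lower L (by omega))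
  have hs : 0 < √(L : ℝ) := Real.sqrt_pos.mpr (by linarith)
  have hs2 := sq_pos (L + 2)
  have hss : √(L : ℝ) * √(L : ℝ) = L := Real.mul_self_sqrt (by linarith)
  have hss2 : sq (L + 2) * sq (L + 2) = (L : ℝ) + 3 := by
    have := sq_sq (L + 2)
    push_cast at this
    linarith
  have h1 : sq (L + 2) ≤ 1.0015 * √(L : ℝ) := by
    apply le_of_sq_le_sq _ (by positivity)
    rw [mul_pow, pow_two, pow_two (√(L : ℝ)), hss, hss2]
    linarith
  rw [div_le_div_iff₀ (by positivity) (by positivity)]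
  have h2 : ((L : ℝ) + 3) * sq (L + 2) ≤ (1.003 * L) * (1.0015 * √(L : ℝ)) :=
    mul_le_mul (by linarith) h1 hs2.le (by positivity)
  have h3 : 0 < (L : ℝ) * √(L : ℝ) := by positivity
  nlinarith

/-- beyond `L + 1`: `k r_k θ^k` does not increase -/
lemma tn73_far (L : ℕ) (hL : 1000 ≤ L) (th : ℝ) (h1 : 1 ≤ th) (h2 : th ≤ 1 + 3 / (2 * (L : ℝ))) :
    ∀ k, L + 1 ≤ k → (k : ℝ) * rn (L + 1) k * th ^ k ≤
      ((L : ℝ) + 1) * rn (L + 1) (L + 1) * th ^ (L + 1) := by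
  intro k hk
  induction k, hk using Nat.le_induction with
  | base =>
    push_cast
    exact le_rfl
  | succ k hk ih =>
    refine le_trans ?_ ih
    have h3 := z_rate_far L (by omega) k hk
    have h4 : 0 ≤ rn (L + 1) (k + 1) := rn_nonneg (L + 1) k
    have h5 : th * (((k : ℝ) + 1) * rn (L + 1) (k + 1)) ≤ (k : ℝ) * rn (L + 1) k := by
      refine le_trans ?_ h3
      exact mul_le_mul_of_nonneg_right h2 (by positivity)
    have h6 : 0 ≤ th ^ k := pow_nonneg (by linarith) k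
    push_cast
    calc ((k : ℝ) + 1) * rn (L + 1) (k + 1) * th ^ (k + 1)
        = (th * (((k : ℝ) + 1) * rn (L + 1) (k + 1))) * th ^ k := by rw [pow_succ]; ring
      _ ≤ ((k : ℝ) * rn (L + 1) k) * th ^ k := mul_le_mul_of_nonneg_right h5 h6

/-- (a) the factor `κ` -/
theorem tn73_kap (L p m : ℕ) (hL : 1000 ≤ L) (hp : L ≤ p) (hp2 : p ≤ L + 14) (hm : 2 * L ≤ m)
    (th : ℝ) (h1 : 1 ≤ th) (h2 : th ≤ 1 + 3 / (2 * (L : ℝ))) :
    E * (((m : ℝ) + 1) * rn (L + 1) (m + 1 - p)) * th ^ (m + 1 - p) ≤ 3.68 / √(L : ℝ) := by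
  have hLr : (1000 : ℝ) ≤ L := by exact_mod_cast hL
  have hE := E_pos
  have hE2 : E < 2.7182818286 := Real.exp_one_lt_d9
  have hs : 0 < √(L : ℝ) := Real.sqrt_pos.mpr (by linarith)
  have hss : √(L : ℝ) * √(L : ℝ) = L := Real.mul_self_sqrt (by linarith)
  have hthL := vc_pow_L L hL th h1 h2
  have hth1 : th ≤ 1.0015 := by
    refine h2.trans ?_
    have : 3 / (2 * (L : ℝ)) ≤ 0.0015 := by
      rw [div_le_iff₀ (by positivity)]
      linarith
    linarith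
  have hthL1 : th ^ (L + 1) ≤ 4.4968 := by
    rw [pow_succ]
    have : 0 ≤ th ^ L := pow_nonneg (by linarith) L
    nlinarith
  obtain ⟨k, hk⟩ : ∃ k, k = m + 1 - p := ⟨_, rfl⟩
  rw [← hk]
  have hmk : (m : ℝ) + 1 = (k : ℝ) + p := by
    have : m + 1 = k + p := by omega
    exact_mod_cast this
  have hp' : (p : ℝ) ≤ (L : ℝ) + 14 := by exact_mod_cast hp2
  have hkL : L ≤ k + 13 := by omega
  have hkL' : (L : ℝ) ≤ (k : ℝ) + 13 := by exact_mod_cast hkL
  rcases Nat.lt_or_ge (L + 1) k with hc | hc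
  · -- far
    have hk0 : (0 : ℝ) < k := by linarith
    have h3 := tn73_far L hL th h1 h2 k (by omega)
    have h4 : rn (L + 1) (L + 1) = rj L := z_rn_eq_rj (L + 1) L le_rfl
    rw [h4] at h3
    have h5 := rj_upper L
    have h6 : 0 < √((L : ℝ) + 1 / 2) := Real.sqrt_pos.mpr (by linarith)
    have h7 : √(L : ℝ) ≤ √((L : ℝ) + 1 / 2) := Real.sqrt_le_sqrt (by linarith)
    have h8 : ((L : ℝ) + 1) * rj L ≤ 0.14684 / √(L : ℝ) := by
      rw [le_div_iff₀ hs]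
      have hr := (rj_pos L).le
      have h9 : rj L * (((L : ℝ) + 1 / 2) * √(L : ℝ)) ≤ 0.146763 := by
        refine le_trans ?_ h5
        apply mul_le_mul_of_nonneg_left _ hr
        exact mul_le_mul_of_nonneg_left h7 (by positivity)
      have h10 : ((L : ℝ) + 1) ≤ 1.0005 * ((L : ℝ) + 1 / 2) := by linarith
      have h11 : 0 ≤ rj L * √(L : ℝ) := by positivity
      have h12 := mul_le_mul_of_nonneg_right h10 h11
      nlinarith
    have h13 : 0 ≤ th ^ (L + 1) := pow_nonneg (by linarith) _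
    have h14 : (k : ℝ) * rn (L + 1) k * th ^ k ≤ 0.14684 / √(L : ℝ) * 4.4968 := by
      refine h3.trans ?_
      exact mul_le_mul h8 hthL1 h13 (by positivity)
    have hck : (L : ℝ) + 2 ≤ k := by exact_mod_cast hc
    have h15 : (m : ℝ) + 1 ≤ 2.012 * k := by
      rw [hmk]
      linarith
    have h16 : 0 ≤ rn (L + 1) k := by
      have := rn_nonneg (L + 1) (k - 1)
      have e : k - 1 + 1 = k := by omega
      rwa [e] at this
    have h17 : 0 ≤ th ^ k := pow_nonneg (by linarith) _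
    have h18 : E * (((m : ℝ) + 1) * rn (L + 1) k) * th ^ k ≤
        E * (2.012 * ((k : ℝ) * rn (L + 1) k * th ^ k)) := by
      have h19 : ((m : ℝ) + 1) * (rn (L + 1) k * th ^ k) ≤ 2.012 * k * (rn (L + 1) k * th ^ k) :=
        mul_le_mul_of_nonneg_right h15 (mul_nonneg h16 h17)
      calc E * (((m : ℝ) + 1) * rn (L + 1) k) * th ^ k
          = E * (((m : ℝ) + 1) * (rn (L + 1) k * th ^ k)) := by ring
        _ ≤ E * (2.012 * k * (rn (L + 1) k * th ^ k)) := mul_le_mul_of_nonneg_left h19 hE.le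
        _ = _ := by ring
    refine h18.trans ?_
    have h20 : E * (2.012 * ((k : ℝ) * rn (L + 1) k * th ^ k)) ≤
        2.7182818286 * (2.012 * (0.14684 / √(L : ℝ) * 4.4968)) := by
      apply mul_le_mul hE2.le _ _ (by norm_num)
      · exact mul_le_mul_of_nonneg_left h14 (by norm_num)
      · exact mul_nonneg (by norm_num) (mul_nonneg (mul_nonneg hk0.le h16) h17)
    refine h20.trans ?_
    have e : 2.7182818286 * (2.012 * (0.14684 / √(L : ℝ) * 4.4968)) =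
        (2.7182818286 * (2.012 * (0.14684 * 4.4968))) / √(L : ℝ) := by ring
    rw [e]
    exact div_le_div_of_nonneg_right (by norm_num) hs.le
  · -- near
    obtain ⟨j, hj⟩ : ∃ j, k = j + 1 := ⟨k - 1, by omega⟩
    have h3 : rn (L + 1) k = rj j := by
      rw [hj]
      exact z_rn_eq_rj (L + 1) j (by omega)
    rw [h3]
    have hkj : (k : ℝ) = (j : ℝ) + 1 := by rw [hj]; push_cast; ring
    have h4 := rj_upper j
    have hr := (rj_pos j).le
    obtain ⟨y, hy⟩ : ∃ y : ℝ, y = (j : ℝ) + 1 / 2 := ⟨_, rfl⟩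
    rw [← hy] at h4
    have hyL : (L : ℝ) - 13.5 ≤ y := by rw [hy]; linarith
    have hy0 : 0 < y := by linarith
    have hsy : 0 < √y := Real.sqrt_pos.mpr hy0
    have hsy2 : 0.9932 * √(L : ℝ) ≤ √y := by
      apply Real.le_sqrt_of_sq_le
      rw [mul_pow, pow_two (√(L : ℝ)), hss]
      linarith
    have h5 : (m : ℝ) + 1 ≤ 2.0284 * y := by
      rw [hmk, hkj]
      have : (j : ℝ) = y - 1 / 2 := by rw [hy]; ring
      rw [this]
      linarith
    have h6 : ((m : ℝ) + 1) * rj j ≤ 0.29974 / √(L : ℝ) := by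
      rw [le_div_iff₀ hs]
      have h7 : ((m : ℝ) + 1) * (rj j * √y) ≤ 2.0284 * y * (rj j * √y) :=
        mul_le_mul_of_nonneg_right h5 (by positivity)
      have h8 : ((m : ℝ) + 1) * (rj j * √y) ≤ 2.0284 * 0.146763 := by
        calc ((m : ℝ) + 1) * (rj j * √y) ≤ 2.0284 * y * (rj j * √y) := h7
          _ = 2.0284 * (rj j * (y * √y)) := by ring
          _ ≤ _ := mul_le_mul_of_nonneg_left h4 (by norm_num)
      have h9 : 0 ≤ ((m : ℝ) + 1) * rj j := by positivity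
      have h10 : (((m : ℝ) + 1) * rj j) * (0.9932 * √(L : ℝ)) ≤ (((m : ℝ) + 1) * rj j) * √y :=
        mul_le_mul_of_nonneg_left hsy2 h9
      nlinarith
    have h11 : th ^ k ≤ 4.4968 := (pow_le_pow_right₀ h1 hc).trans hthL1
    have h12 : 0 ≤ th ^ k := pow_nonneg (by linarith) _
    have h13 : 0 ≤ ((m : ℝ) + 1) * rj j := by positivity
    have h14 : E * (((m : ℝ) + 1) * rj j) ≤ 2.7182818286 * (0.29974 / √(L : ℝ)) :=
      mul_le_mul hE2.le h6 h13 (by norm_num)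
    have h15 : E * (((m : ℝ) + 1) * rj j) * th ^ k ≤
        2.7182818286 * (0.29974 / √(L : ℝ)) * 4.4968 :=
      mul_le_mul h14 h11 h12 (by positivity)
    refine h15.trans ?_
    have e : 2.7182818286 * (0.29974 / √(L : ℝ)) * 4.4968 =
        (2.7182818286 * 0.29974 * 4.4968) / √(L : ℝ) := by ring
    rw [e]
    exact div_le_div_of_nonneg_right (by norm_num) hs.le

lemma tn73_coeff (L N : ℕ) (hN : N ≤ L) : PowerSeries.coeff N (FF L * FF (L + 1)) = TQ N := by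
  rw [lin_coeff_mul_range]
  unfold TQ
  apply Finset.sum_congr rfl
  intro k hk
  have hk' := mem_range.mp hk
  rw [coeff_FF, coeff_FF, Fn_eq_tn L k (by omega), Fn_eq_tn (L + 1) (N - k) (by omega)]

lemma tn73_S (L N : ℕ) (hL : 1000 ≤ L) (hN : N ≤ L) (th : ℝ) (h1 : 1 ≤ th)
    (h2 : th ≤ 1 + 3 / (2 * (L : ℝ))) :
    ∑ k ∈ range N, th ^ k * PowerSeries.coeff k (FF L * FF (L + 1)) ≤ 8.8 := by
  have hLr : (1000 : ℝ) ≤ L := by exact_mod_cast hL
  have hE := E_pos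
  have hE2 : E < 2.7182818286 := Real.exp_one_lt_d9
  have hs : 0 < √(L : ℝ) := Real.sqrt_pos.mpr (by linarith)
  have hss : √(L : ℝ) * √(L : ℝ) = L := Real.mul_self_sqrt (by linarith)
  have h3 : ∑ k ∈ range N, th ^ k * PowerSeries.coeff k (FF L * FF (L + 1)) ≤
      ∑ k ∈ range N, (TQ k + 3.49 / (L : ℝ) * ((k : ℝ) * TQ k)) := by
    apply Finset.sum_le_sum
    intro k hk
    have hk' := mem_range.mp hk
    rw [tn73_coeff L k (by omega)]
    have h4 := vc_pow_le L hL th h1 h2 k (by omega)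
    have h5 := mul_le_mul_of_nonneg_right h4 (TQ_pos k).le
    refine h5.trans (le_of_eq ?_)
    ring
  refine h3.trans ?_
  rw [Finset.sum_add_distrib, ← Finset.mul_sum]
  have h6 := sum_TQ_le N
  have h7 := sum_mul_TQ_le N
  have h8 : √(N : ℝ) ≤ √(L : ℝ) := Real.sqrt_le_sqrt (by exact_mod_cast hN)
  have h9 : 3.49 / (L : ℝ) * ∑ k ∈ range N, (k : ℝ) * TQ k ≤ 3.49 / (L : ℝ) * (11.8 * √(L : ℝ)) := by
    apply mul_le_mul_of_nonneg_left _ (by positivity)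
    linarith
  have h10 : 3.49 / (L : ℝ) * (11.8 * √(L : ℝ)) = 41.182 / √(L : ℝ) := by
    rw [eq_div_iff hs.ne']
    calc 3.49 / (L : ℝ) * (11.8 * √(L : ℝ)) * √(L : ℝ)
        = 3.49 * 11.8 * (√(L : ℝ) * √(L : ℝ)) / (L : ℝ) := by ring
      _ = 41.182 := by
        rw [hss]
        field_simp
        norm_num
  have h11 : 41.182 / √(L : ℝ) ≤ 1.303 := by
    rw [div_le_iff₀ hs]
    have c3 : 31.62 ≤ √(L : ℝ) := by
      apply Real.le_sqrt_of_sq_le
      norm_num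
      linarith
    linarith
  nlinarith

/-- the case `N ≤ L` of the termwise inequality, with `σ ≥ 0.68` -/
theorem tn73_case (L m N p : ℕ) (hL : 1000 ≤ L) (hp : L ≤ p) (hp2 : p ≤ L + 14) (hm : 2 * L ≤ m)
    (hN : N ≤ L) (th : ℝ) (h1 : 1 + 3 / (2 * ((L : ℝ) + 2)) ≤ th)
    (h2 : th ≤ 1 + 3 / (2 * (L : ℝ))) (σ : ℝ) (hσ : 0.68 ≤ σ) :
    (1 - thL L * th) * (E * (((m : ℝ) + 1) * rn (L + 1) (m + 1 - p)) * th ^ (m + 1 - p)) *
      (∑ k ∈ range N, th ^ k * PowerSeries.coeff k (FF L * FF (L + 1))) ≤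
    σ * (2 - (E * (((m : ℝ) + 1) * rn (L + 1) (m + 1 - p)) * th ^ (m + 1 - p)) / th) *
      (PowerSeries.coeff N (FF L * FF (L + 1)) * th ^ (N + 1)) := by
  have hLr : (1000 : ℝ) ≤ L := by exact_mod_cast hL
  have hE := E_pos
  have hE2 : E < 2.7182818286 := Real.exp_one_lt_d9
  have hs : 0 < √(L : ℝ) := Real.sqrt_pos.mpr (by linarith)
  have hth : 1 ≤ th := by
    have : 0 < 3 / (2 * ((L : ℝ) + 2)) := by positivity
    linarith
  have hkap := tn73_kap L p m hL hp hp2 hm th hth h2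
  have hkap0 : 0 ≤ E * (((m : ℝ) + 1) * rn (L + 1) (m + 1 - p)) * th ^ (m + 1 - p) := by
    have h3 : 0 ≤ rn (L + 1) (m + 1 - p) := by
      have := rn_nonneg (L + 1) (m + 1 - p - 1)
      have e : m + 1 - p - 1 + 1 = m + 1 - p := by omega
      rwa [e] at this
    have h4 : 0 ≤ th ^ (m + 1 - p) := pow_nonneg (by linarith) _
    positivity
  obtain ⟨kap, hkd⟩ : ∃ kap : ℝ,
    kap = E * (((m : ℝ) + 1) * rn (L + 1) (m + 1 - p)) * th ^ (m + 1 - p) := ⟨_, rfl⟩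
  rw [← hkd] at hkap hkap0 ⊢
  have hS := tn73_S L N hL hN th hth h2
  have hS0 : 0 ≤ ∑ k ∈ range N, th ^ k * PowerSeries.coeff k (FF L * FF (L + 1)) := by
    apply Finset.sum_nonneg
    intro k hk
    have hk' := mem_range.mp hk
    rw [tn73_coeff L k (by omega)]
    exact mul_nonneg (pow_nonneg (by linarith) _) (TQ_pos k).le
  obtain ⟨S, hSd⟩ : ∃ S : ℝ, S = ∑ k ∈ range N, th ^ k * PowerSeries.coeff k (FF L * FF (L + 1)) :=
    ⟨_, rfl⟩
  rw [← hSd] at hS hS0 ⊢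
  rw [tn73_coeff L N hN]
  have hS2 : S ≤ 8.8 := hS
  have hone := tn73_one_sub L hL th h1
  -- left side
  have hl : (1 - thL L * th) * kap * S ≤ 1.007 / (L : ℝ) * (3.68 / √(L : ℝ)) * 8.8 := by
    have a1 : (1 - thL L * th) * (kap * S) ≤ 1.007 / (L : ℝ) * (kap * S) :=
      mul_le_mul_of_nonneg_right hone (mul_nonneg hkap0 hS0)
    have a2 : kap * S ≤ 3.68 / √(L : ℝ) * 8.8 := mul_le_mul hkap hS2 hS0 (by positivity)
    have a3 : 1.007 / (L : ℝ) * (kap * S) ≤ 1.007 / (L : ℝ) * (3.68 / √(L : ℝ) * 8.8) :=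
      mul_le_mul_of_nonneg_left a2 (by positivity)
    calc (1 - thL L * th) * kap * S = (1 - thL L * th) * (kap * S) := by ring
      _ ≤ _ := a1
      _ ≤ _ := a3
      _ = _ := by ring
  -- right side
  have hT : 4.4 * (5.86 / ((L : ℝ) * √(L : ℝ))) ≤ TQ N * th ^ (N + 1) := by
    have b1 := tn73_TQ_pow L (by omega) (L - N) N (by omega)
    have b2 := tn73_pow_ge L hL
    have b3 := tn73_TQ_low L hL
    have b4 : (0 : ℝ) < 1 + 3 / (2 * ((L : ℝ) + 2)) := by positivity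
    have b5 : (1 + 3 / (2 * ((L : ℝ) + 2))) ^ (N + 1) ≤ th ^ (N + 1) := pow_le_pow_left₀ b4.le h1 _
    have hTN := (TQ_pos N).le
    have hTL := (TQ_pos L).le
    calc 4.4 * (5.86 / ((L : ℝ) * √(L : ℝ))) ≤ (1 + 3 / (2 * ((L : ℝ) + 2))) ^ (L + 1) * TQ L :=
          mul_le_mul b2 b3 (by positivity) (by positivity)
      _ = (1 + 3 / (2 * ((L : ℝ) + 2))) * ((1 + 3 / (2 * ((L : ℝ) + 2))) ^ L * TQ L) := by
          rw [pow_succ]; ring
      _ ≤ (1 + 3 / (2 * ((L : ℝ) + 2))) * ((1 + 3 / (2 * ((L : ℝ) + 2))) ^ N * TQ N) :=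
          mul_le_mul_of_nonneg_left b1 b4.le
      _ = TQ N * (1 + 3 / (2 * ((L : ℝ) + 2))) ^ (N + 1) := by rw [pow_succ]; ring
      _ ≤ _ := mul_le_mul_of_nonneg_left b5 hTN
  have hk2 : kap / th ≤ 0.1164 := by
    have c1 : kap / th ≤ kap := div_le_self hkap0 hth
    have c2 : 3.68 / √(L : ℝ) ≤ 0.1164 := by
      rw [div_le_iff₀ hs]
      have c3 : 31.62 ≤ √(L : ℝ) := by
        apply Real.le_sqrt_of_sq_le
        norm_num
        linarith
      linarith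
    linarith
  have hr : 0.68 * (2 - 0.1164) * (4.4 * (5.86 / ((L : ℝ) * √(L : ℝ)))) ≤
      σ * (2 - kap / th) * (TQ N * th ^ (N + 1)) := by
    have d1 : 0.68 * (2 - 0.1164) ≤ σ * (2 - kap / th) := by
      apply mul_le_mul hσ _ (by norm_num) (by linarith)
      linarith
    exact mul_le_mul d1 hT (by positivity) (le_trans (by norm_num) d1)
  refine hl.trans (le_trans ?_ hr)
  have e1 : 1.007 / (L : ℝ) * (3.68 / √(L : ℝ)) * 8.8 = (1.007 * 3.68 * 8.8) / ((L : ℝ) * √(L : ℝ)) := by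
    field_simp
  have e2 : 0.68 * (2 - 0.1164) * (4.4 * (5.86 / ((L : ℝ) * √(L : ℝ)))) =
      (0.68 * (2 - 0.1164) * (4.4 * 5.86)) / ((L : ℝ) * √(L : ℝ)) := by
    ring
  rw [e1, e2]
  exact div_le_div_of_nonneg_right (by norm_num) (by positivity)

end Pool.Agent.MP_9da1e3_co
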