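import Mathlib

/-! Weighted form of the lemma (M) and the crude bound of the weighted sum of the second
differences, for abstract sequences. -/

namespace Pool.Agent.MP_9da1e3_co

open Finset

/-- the kernel decays at the rate `th`: iterated form -/
lemma rate_pow (K : ℕ → ℝ) (th : ℝ) (hth : 0 ≤ th) (hK : ∀ x, th * K (x + 1) ≤ K x) (x d : ℕ) :
    th ^ d * K (x + d) ≤ K x := by
  induction d with
  | zero => simp
  | succ d ih =>
    have h1 := mul_le_mul_of_nonneg_left (hK (x + d)) (pow_nonneg hth d)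
    have e : th ^ (d + 1) * K (x + (d + 1)) = th ^ d * (th * K (x + d + 1)) := by
      rw [pow_succ]
      ring_nf
    rw [e]
    exact h1.trans ih

/-- weighted (M): the signs of `B` are `-` before `nu` and `+` on `[nu, n]` -/
theorem m_theta (K B : ℕ → ℝ) (th : ℝ) (hth : 0 < th) (hK0 : ∀ x, 0 ≤ K x)
    (hK : ∀ x, th * K (x + 1) ≤ K x) (nu n1 n : ℕ) (h1 : nu ≤ n1) (h2 : n1 ≤ n)
    (hneg : ∀ j, j < nu → B j ≤ 0) (hpos : ∀ j, nu ≤ j → j ≤ n → 0 ≤ B j) :
    K (n - nu) * ∑ j ∈ range (n1 + 1), th ^ j * B j ≤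
      th ^ nu * ∑ j ∈ range (n + 1), K (n - j) * B j := by
  have hmain : ∀ j ∈ range (n + 1), K (n - nu) * (th ^ j * B j) ≤ th ^ nu * (K (n - j) * B j) := by
    intro j hj
    have hj' : j ≤ n := by have := mem_range.mp hj; omega
    rcases Nat.lt_or_ge j nu with h | h
    · have hB := hneg j h
      have e : n - j = (n - nu) + (nu - j) := by omega
      have h3 := rate_pow K th hth.le hK (n - nu) (nu - j)
      rw [← e] at h3
      have h4 : th ^ nu * K (n - j) ≤ th ^ j * K (n - nu) := by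
        have h5 := mul_le_mul_of_nonneg_left h3 (pow_nonneg hth.le j)
        have e2 : th ^ nu = th ^ j * th ^ (nu - j) := by
          rw [← pow_add]
          congr 1
          omega
        rw [e2]
        linarith
      have h6 := mul_le_mul_of_nonpos_right h4 hB
      linarith
    · have hB := hpos j h hj'
      have e : n - nu = (n - j) + (j - nu) := by omega
      have h3 := rate_pow K th hth.le hK (n - j) (j - nu)
      rw [← e] at h3
      have h4 : th ^ j * K (n - nu) ≤ th ^ nu * K (n - j) := by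
        have h5 := mul_le_mul_of_nonneg_left h3 (pow_nonneg hth.le nu)
        have e2 : th ^ j = th ^ nu * th ^ (j - nu) := by
          rw [← pow_add]
          congr 1
          omega
        rw [e2]
        linarith
      have h6 := mul_le_mul_of_nonneg_right h4 hB
      linarith
  have hsum := Finset.sum_le_sum hmain
  rw [← Finset.mul_sum, ← Finset.mul_sum] at hsum
  refine le_trans ?_ hsum
  apply mul_le_mul_of_nonneg_left _ (hK0 _)
  apply Finset.sum_le_sum_of_subset_of_nonneg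
  · exact Finset.range_mono (by omega)
  · intro j hj hj2
    have h3 : j ≤ n := by have := mem_range.mp hj; omega
    have h4 : n1 + 1 ≤ j := by
      by_contra hc
      exact hj2 (mem_range.mpr (by omega))
    exact mul_nonneg (pow_nonneg hth.le j) (hpos j (by omega) h3)

/-- the form with a lower bound for the weighted sum -/
theorem m_theta' (K B : ℕ → ℝ) (th W : ℝ) (hth : 0 < th) (hK0 : ∀ x, 0 ≤ K x)
    (hK : ∀ x, th * K (x + 1) ≤ K x) (nu n1 n : ℕ) (h1 : nu ≤ n1) (h2 : n1 ≤ n)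
    (hneg : ∀ j, j < nu → B j ≤ 0) (hpos : ∀ j, nu ≤ j → j ≤ n → 0 ≤ B j)
    (hW : -(th ^ nu * W) ≤ ∑ j ∈ range (n1 + 1), th ^ j * B j) :
    -(K (n - nu) * W) ≤ ∑ j ∈ range (n + 1), K (n - j) * B j := by
  have h := m_theta K B th hth hK0 hK nu n1 n h1 h2 hneg hpos
  have h3 := mul_le_mul_of_nonneg_left hW (hK0 (n - nu))
  have h4 : th ^ nu * -(K (n - nu) * W) ≤ th ^ nu * ∑ j ∈ range (n + 1), K (n - j) * B j := by
    linarith
  exact le_of_mul_le_mul_left h4 (pow_pos hth nu)

/-- crude bound of the weighted sum of the second differences, from the comparison of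
neighbouring levels only -/
theorem wth_bound (q p : ℕ → ℝ) (th thP : ℝ) (L n1 : ℕ) (hL : L < n1) (hth : 0 ≤ th)
    (hp0 : 0 ≤ p (L + 1)) (hpq : ∀ j, L < j → j < n1 → thP * q j ≤ p (j + 1)) :
    ∑ j ∈ Ico (L + 1) (n1 + 1), th ^ j * (q j - p j) ≤
      (1 - thP * th) * ∑ j ∈ Ico (L + 1) n1, th ^ j * q j + th ^ n1 * q n1 := by
  have e1 : ∑ j ∈ Ico (L + 1) (n1 + 1), th ^ j * (q j - p j) =
      ∑ j ∈ Ico (L + 1) (n1 + 1), th ^ j * q j - ∑ j ∈ Ico (L + 1) (n1 + 1), th ^ j * p j := by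
    rw [← Finset.sum_sub_distrib]
    exact Finset.sum_congr rfl fun j _ => by ring
  have e2 : ∑ j ∈ Ico (L + 1) (n1 + 1), th ^ j * q j =
      ∑ j ∈ Ico (L + 1) n1, th ^ j * q j + th ^ n1 * q n1 :=
    Finset.sum_Ico_succ_top (by omega) _
  have e3 : ∑ j ∈ Ico (L + 1) (n1 + 1), th ^ j * p j =
      th ^ (L + 1) * p (L + 1) + ∑ j ∈ Ico (L + 1) n1, th ^ (j + 1) * p (j + 1) := by
    rw [Finset.sum_eq_sum_Ico_succ_bot (by omega)]
    congr 1
    rw [← Finset.sum_Ico_add' (fun j => th ^ j * p j) (L + 1) n1 1]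
  have h4 : ∑ j ∈ Ico (L + 1) n1, thP * th * (th ^ j * q j) ≤
      ∑ j ∈ Ico (L + 1) n1, th ^ (j + 1) * p (j + 1) := by
    apply Finset.sum_le_sum
    intro j hj
    have hj' := Finset.mem_Ico.mp hj
    have h5 := mul_le_mul_of_nonneg_left (hpq j (by omega) hj'.2) (pow_nonneg hth (j + 1))
    have e : thP * th * (th ^ j * q j) = th ^ (j + 1) * (thP * q j) := by
      rw [pow_succ]
      ring
    rw [e]
    exact h5
  rw [← Finset.mul_sum] at h4
  have h6 : 0 ≤ th ^ (L + 1) * p (L + 1) := mul_nonneg (pow_nonneg hth _) hp0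
  rw [e1, e2, e3]
  linarith

/-- the same with the sum over a full range, `B = p - q`, `q = p = 0` up to `L` -/
theorem wth_range (q p B : ℕ → ℝ) (th thP : ℝ) (L n1 : ℕ) (hL : L < n1) (hth : 0 ≤ th)
    (hB : ∀ j, B j = p j - q j) (hz : ∀ j, j ≤ L → B j = 0)
    (hp0 : 0 ≤ p (L + 1)) (hpq : ∀ j, L < j → j < n1 → thP * q j ≤ p (j + 1)) :
    -((1 - thP * th) * ∑ j ∈ Ico (L + 1) n1, th ^ j * q j + th ^ n1 * q n1) ≤
      ∑ j ∈ range (n1 + 1), th ^ j * B j := by
  have h := wth_bound q p th thP L n1 hL hth hp0 hpq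
  have e : ∑ j ∈ range (n1 + 1), th ^ j * B j = ∑ j ∈ Ico (L + 1) (n1 + 1), th ^ j * B j := by
    rw [Finset.range_eq_Ico, ← Finset.sum_Ico_consecutive _ (Nat.zero_le (L + 1)) (by omega)]
    rw [Finset.sum_eq_zero, zero_add]
    intro j hj
    have hj' := Finset.mem_Ico.mp hj
    rw [hz j (by omega), mul_zero]
  have e2 : ∑ j ∈ Ico (L + 1) (n1 + 1), th ^ j * B j =
      -∑ j ∈ Ico (L + 1) (n1 + 1), th ^ j * (q j - p j) := by
    rw [← Finset.sum_neg_distrib]
    exact Finset.sum_congr rfl fun j _ => by rw [hB]; ring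
  rw [e, e2]
  linarith

end Pool.Agent.MP_9da1e3_co
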