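import Pool.Agent.Lib.MP_9da1e3_co.Lin46
import Pool.Agent.Lib.MP_9da1e3_co.V2_Wth
import Pool.Agent.Lib.MP_9da1e3_co.NR2

/-! The far range `n ≤ 2 L + 2`: reduction of the induction step to one explicit inequality. The
unknown mass of the sequence `rho` cancels. -/

namespace Pool.Agent.MP_9da1e3_co

open Finset

lemma zb_swap (f g : ℕ → ℝ) (N : ℕ) :
    ∑ j ∈ range N, ∑ i ∈ range (j + 1), f i * g (j - i) =
      ∑ i ∈ range N, f i * ∑ k ∈ range (N - i), g k := by
  have h1 : ∑ j ∈ range N, ∑ i ∈ range (j + 1), f i * g (j - i) =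
      ∑ i ∈ range N, ∑ j ∈ Ico i N, f i * g (j - i) := by
    apply Finset.sum_comm'
    intro x y
    simp only [mem_range, mem_Ico]
    omega
  rw [h1]
  apply Finset.sum_congr rfl
  intro i _
  rw [← Finset.mul_sum, Finset.sum_Ico_eq_sum_range]
  congr 1
  apply Finset.sum_congr rfl
  intro k _
  congr 1
  omega

lemma zb_swap_le (f g : ℕ → ℝ) (N K a : ℕ) (hf : ∀ i, 0 ≤ f i) (hg : ∀ i, 0 ≤ g i)
    (hz : ∀ i, i < a → f i = 0) (hK : N ≤ K + a) :
    ∑ j ∈ range N, ∑ i ∈ range (j + 1), f i * g (j - i) ≤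
      (∑ i ∈ range N, f i) * ∑ k ∈ range K, g k := by
  rw [zb_swap, Finset.sum_mul]
  apply Finset.sum_le_sum
  intro i hi
  rcases Nat.lt_or_ge i a with h | h
  · rw [hz i h]
    simp
  · apply mul_le_mul_of_nonneg_left _ (hf i)
    apply Finset.sum_le_sum_of_subset_of_nonneg
    · exact Finset.range_mono (by omega)
    · intro j _ _
      exact hg j

/-- weighted partial sums of a convolution square -/
lemma zb_sq (t : ℕ → ℝ) (ht : ∀ i, 0 ≤ t i) (th : ℝ) (hth : 0 ≤ th) (K : ℕ) :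
    ∑ k ∈ range K, th ^ k * ∑ i ∈ range (k + 1), t i * t (k - i) ≤
      (∑ k ∈ range K, th ^ k * t k) ^ 2 := by
  have e : ∑ k ∈ range K, th ^ k * ∑ i ∈ range (k + 1), t i * t (k - i) =
      ∑ k ∈ range K, ∑ i ∈ range (k + 1), (th ^ i * t i) * (th ^ (k - i) * t (k - i)) := by
    apply Finset.sum_congr rfl
    intro k _
    rw [Finset.mul_sum]
    apply Finset.sum_congr rfl
    intro i hi
    have hi' := mem_range.mp hi
    have e1 : th ^ k = th ^ i * th ^ (k - i) := by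
      rw [← pow_add]
      congr 1
      omega
    rw [e1]
    ring
  rw [e, pow_two]
  exact zb_swap_le (fun i => th ^ i * t i) (fun i => th ^ i * t i) K K 0
    (fun i => mul_nonneg (pow_nonneg hth i) (ht i)) (fun i => mul_nonneg (pow_nonneg hth i) (ht i))
    (fun i hi => absurd hi (Nat.not_lt_zero i)) (by omega)

/-- lower bound of `A_L` by the weighted mass of `rho` -/
lemma zb_low (L m : ℕ) (hm2 : 2 ≤ m) (hm : m ≤ L + 2) (th : ℝ) (hth : 0 ≤ th)
    (T2 rho A : ℕ → ℝ) (hrho0 : ∀ j, 0 ≤ rho j) (hrhoz : ∀ j, j ≤ L → rho j = 0)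
    (hA : A (L + m - 1) = ∑ j ∈ range (L + m), rho j * T2 (L + m - 1 - j))
    (hT0 : ∀ k, 0 ≤ T2 k) (hT : ∀ k, k + 1 ≤ L → th * T2 (k + 1) ≤ T2 k) :
    T2 (m - 2) * ∑ j ∈ Ico (L + 1) (L + m), rho j * th ^ (j - (L + 1)) ≤ A (L + m - 1) := by
  have hK : ∀ x, th * (if x + 1 ≤ L then T2 (x + 1) else 0) ≤ (if x ≤ L then T2 x else 0) := by
    intro x
    by_cases h1 : x + 1 ≤ L
    · rw [if_pos h1, if_pos (by omega)]
      exact hT x h1
    · rw [if_neg h1, mul_zero]
      split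
      · exact hT0 x
      · exact le_rfl
  have e : ∑ j ∈ range (L + m), rho j * T2 (L + m - 1 - j) =
      ∑ j ∈ Ico (L + 1) (L + m), rho j * T2 (L + m - 1 - j) := by
    rw [Finset.range_eq_Ico, ← Finset.sum_Ico_consecutive _ (Nat.zero_le (L + 1)) (by omega)]
    rw [Finset.sum_eq_zero, zero_add]
    intro j hj
    have hj' := Finset.mem_Ico.mp hj
    rw [hrhoz j (by omega), zero_mul]
  rw [hA, e, Finset.mul_sum]
  apply Finset.sum_le_sum
  intro j hj
  have hj' := Finset.mem_Ico.mp hj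
  have h1 := rate_pow (fun x => if x ≤ L then T2 x else 0) th hth hK (L + m - 1 - j) (j - (L + 1))
  have e1 : L + m - 1 - j + (j - (L + 1)) = m - 2 := by omega
  simp only [e1] at h1
  rw [if_pos (by omega), if_pos (by omega)] at h1
  have h2 := mul_le_mul_of_nonneg_left h1 (hrho0 j)
  linarith

/-- upper bound of the weighted mass of `A_L` by that of `rho` -/
lemma zb_up (L m : ℕ) (hm2 : 2 ≤ m) (th : ℝ) (hth : 0 ≤ th)
    (T2 rho A : ℕ → ℝ) (hrho0 : ∀ j, 0 ≤ rho j) (hrhoz : ∀ j, j ≤ L → rho j = 0)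
    (hA : ∀ n, n < L + m - 1 → A n = ∑ j ∈ range (n + 1), rho j * T2 (n - j))
    (hT0 : ∀ k, 0 ≤ T2 k) (Z : ℝ) (hZ : ∑ k ∈ range (m - 1), th ^ k * T2 k ≤ Z) :
    ∑ j ∈ Ico (L + 1) (L + m - 1), th ^ j * A j ≤
      th ^ (L + 1) * (∑ j ∈ Ico (L + 1) (L + m), rho j * th ^ (j - (L + 1))) * Z := by
  have hA0 : ∀ j, j < L + m - 1 → 0 ≤ A j := by
    intro j hj
    rw [hA j hj]
    exact Finset.sum_nonneg fun i _ => mul_nonneg (hrho0 i) (hT0 _)
  have h1 : ∑ j ∈ Ico (L + 1) (L + m - 1), th ^ j * A j ≤ ∑ j ∈ range (L + m - 1), th ^ j * A j := by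
    apply Finset.sum_le_sum_of_subset_of_nonneg
    · intro j hj
      have := Finset.mem_Ico.mp hj
      exact mem_range.mpr this.2
    · intro j hj _
      exact mul_nonneg (pow_nonneg hth j) (hA0 j (mem_range.mp hj))
  have h2 : ∑ j ∈ range (L + m - 1), th ^ j * A j =
      ∑ j ∈ range (L + m - 1), ∑ i ∈ range (j + 1), (th ^ i * rho i) * (th ^ (j - i) * T2 (j - i)) := by
    apply Finset.sum_congr rfl
    intro j hj
    rw [hA j (mem_range.mp hj), Finset.mul_sum]
    apply Finset.sum_congr rfl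
    intro i hi
    have hi' := mem_range.mp hi
    have e1 : th ^ j = th ^ i * th ^ (j - i) := by
      rw [← pow_add]
      congr 1
      omega
    rw [e1]
    ring
  have h3 := zb_swap_le (fun i => th ^ i * rho i) (fun k => th ^ k * T2 k) (L + m - 1) (m - 1) (L + 1)
    (fun i => mul_nonneg (pow_nonneg hth i) (hrho0 i))
    (fun i => mul_nonneg (pow_nonneg hth i) (hT0 i))
    (fun i hi => by
      show th ^ i * rho i = 0
      rw [hrhoz i (by omega), mul_zero]) (by omega)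
  have h4 : 0 ≤ ∑ i ∈ range (L + m - 1), th ^ i * rho i :=
    Finset.sum_nonneg fun i _ => mul_nonneg (pow_nonneg hth i) (hrho0 i)
  have h5 : ∑ i ∈ range (L + m - 1), th ^ i * rho i ≤
      th ^ (L + 1) * ∑ j ∈ Ico (L + 1) (L + m), rho j * th ^ (j - (L + 1)) := by
    have e : ∑ i ∈ range (L + m - 1), th ^ i * rho i ≤ ∑ i ∈ range (L + m), th ^ i * rho i := by
      apply Finset.sum_le_sum_of_subset_of_nonneg
      · exact Finset.range_mono (by omega)
      · intro j _ _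
        exact mul_nonneg (pow_nonneg hth j) (hrho0 j)
    have e2 : ∑ i ∈ range (L + m), th ^ i * rho i = ∑ i ∈ Ico (L + 1) (L + m), th ^ i * rho i := by
      rw [Finset.range_eq_Ico, ← Finset.sum_Ico_consecutive _ (Nat.zero_le (L + 1)) (by omega)]
      rw [Finset.sum_eq_zero, zero_add]
      intro j hj
      have hj' := Finset.mem_Ico.mp hj
      rw [hrhoz j (by omega), mul_zero]
    have e3 : ∑ i ∈ Ico (L + 1) (L + m), th ^ i * rho i =
        th ^ (L + 1) * ∑ j ∈ Ico (L + 1) (L + m), rho j * th ^ (j - (L + 1)) := by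
      rw [Finset.mul_sum]
      apply Finset.sum_congr rfl
      intro j hj
      have hj' := Finset.mem_Ico.mp hj
      have e1 : th ^ j = th ^ (L + 1) * th ^ (j - (L + 1)) := by
        rw [← pow_add]
        congr 1
        omega
      rw [e1]
      ring
    rw [← e3, ← e2]
    exact e
  have h6 : 0 ≤ ∑ k ∈ range (m - 1), th ^ k * T2 k :=
    Finset.sum_nonneg fun i _ => mul_nonneg (pow_nonneg hth i) (hT0 i)
  calc ∑ j ∈ Ico (L + 1) (L + m - 1), th ^ j * A j ≤ ∑ j ∈ range (L + m - 1), th ^ j * A j := h1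
    _ ≤ (∑ i ∈ range (L + m - 1), th ^ i * rho i) * ∑ k ∈ range (m - 1), th ^ k * T2 k := by
        rw [h2]; exact h3
    _ ≤ (th ^ (L + 1) * ∑ j ∈ Ico (L + 1) (L + m), rho j * th ^ (j - (L + 1))) *
          ∑ k ∈ range (m - 1), th ^ k * T2 k := mul_le_mul_of_nonneg_right h5 h6
    _ ≤ (th ^ (L + 1) * ∑ j ∈ Ico (L + 1) (L + m), rho j * th ^ (j - (L + 1))) * Z :=
        mul_le_mul_of_nonneg_left hZ (h4.trans h5)

/-- the step of the induction, from the explicit inequality `hZB` -/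
theorem zb_core (L m0 m : ℕ) (hm1 : m0 + 2 ≤ m) (hm : m ≤ L + 2) (th : ℝ) (hth : 1 ≤ th)
    (T2 r rho : ℕ → ℝ) (hrho0 : ∀ j, 0 ≤ rho j) (hrhoz : ∀ j, j ≤ L → rho j = 0)
    (hA : ∀ n, n ≤ 2 * L + 1 → An L n = ∑ j ∈ range (n + 1), rho j * T2 (n - j))
    (hTp : ∀ k, 0 < T2 k) (hT : ∀ k, k + 1 ≤ L → th * T2 (k + 1) ≤ T2 k)
    (hr0 : ∀ k, 0 ≤ r (k + 1)) (hr : ∀ k, k + 2 ≤ L + 1 → th * r (k + 2) ≤ r (k + 1))
    (hR : 2 * An L (L + m - 1) + E * ((L : ℝ) + m) * ∑ j ∈ range (L + m), r (L + m - j) * Bn L j ≤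
      E * ((L : ℝ) + m) * Bn L (L + m))
    (hneg : ∀ j, j < L + m0 + 1 → Bn L j ≤ 0)
    (hpos : ∀ j, L + m0 + 1 ≤ j → j < L + m → 0 ≤ Bn L j)
    (q Z : ℝ) (hq : q = E * ((L : ℝ) + m) * r (m - m0 - 1))
    (hZ : ∑ k ∈ range (m - 1), th ^ k * T2 k ≤ Z) (hth1 : 0 ≤ 1 - thL L * th)
    (hZB : q * ((1 - thL L * th) * Z / th ^ m0 + th ^ (m - m0 - 2) * T2 (m - 2)) ≤ 2 * T2 (m - 2)) :
    0 ≤ Bn L (L + m) := by
  have hE := E_pos
  have hT0 : ∀ k, 0 ≤ T2 k := fun k => (hTp k).le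
  have hth0 : (0 : ℝ) < th := by linarith
  set S : ℝ := ∑ j ∈ Ico (L + 1) (L + m), rho j * th ^ (j - (L + 1)) with hS
  have hS0 : 0 ≤ S := Finset.sum_nonneg fun j _ => mul_nonneg (hrho0 j) (pow_nonneg hth0.le _)
  have hn : (0 : ℝ) < (L : ℝ) + m := by
    have : (0 : ℝ) < (m : ℝ) := by exact_mod_cast (by omega : 0 < m)
    have h2 : (0 : ℝ) ≤ (L : ℝ) := Nat.cast_nonneg L
    linarith
  have hrd : 0 ≤ r (m - m0 - 1) := by
    have e : m - m0 - 1 = (m - m0 - 2) + 1 := by omega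
    rw [e]
    exact hr0 _
  have hq0 : 0 ≤ q := by
    rw [hq]
    exact mul_nonneg (mul_nonneg hE.le hn.le) hrd
  have hlow : T2 (m - 2) * S ≤ An L (L + m - 1) :=
    zb_low L m (by omega) hm th hth0.le T2 rho (An L) hrho0 hrhoz
      (by
        have h := hA (L + m - 1) (by omega)
        have e : L + m - 1 + 1 = L + m := by omega
        rw [e] at h
        exact h) hT0 hT
  have hup := zb_up L m (by omega) th hth0.le T2 rho (An L) hrho0 hrhoz
    (fun n hn => hA n (by omega)) hT0 Z hZ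
  rw [← hS] at hup
  -- the weighted sum of B
  have hB0 : ∀ j, j ≤ L → Bn L j = 0 := fun j hj => by
    unfold Bn
    rw [An_zero L j hj, An_zero (L + 1) j (by omega)]
    ring
  have hw := wth_range (An L) (An (L + 1)) (Bn L) th (thL L) L (L + m - 1) (by omega) hth0.le
    (fun j => rfl) hB0 (An_nonneg _ _) (fun j hj1 hj2 => by
      have h := gg_succ_ge L (j - L) (by omega)
      unfold gg at h
      have e1 : L + (j - L) = j := by omega
      have e2 : L + 1 + (j - L) = j + 1 := by omega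
      rw [e1, e2] at h
      exact h)
  have e0 : L + m - 1 + 1 = L + m := by omega
  rw [e0] at hw
  -- the kernel
  have hK0 : ∀ x, 0 ≤ (if x ≤ L then r (x + 1) else 0) := by
    intro x
    split
    · exact hr0 x
    · exact le_rfl
  have hK : ∀ x, th * (if x + 1 ≤ L then r (x + 1 + 1) else 0) ≤ (if x ≤ L then r (x + 1) else 0) := by
    intro x
    by_cases h1 : x + 1 ≤ L
    · rw [if_pos h1, if_pos (by omega)]
      exact hr x (by omega)
    · rw [if_neg h1, mul_zero]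
      split
      · exact hr0 x
      · exact le_rfl
  have hm' := m_theta (fun x => if x ≤ L then r (x + 1) else 0) (Bn L) th hth0 hK0 hK (L + m0 + 1)
    (L + m - 1) (L + m - 1) (by omega) le_rfl (fun j hj => hneg j hj)
    (fun j hj1 hj2 => hpos j hj1 (by omega))
  simp only [e0] at hm'
  have e3 : L + m - 1 - (L + m0 + 1) = m - m0 - 2 := by omega
  have e4 : m - m0 - 2 + 1 = m - m0 - 1 := by omega
  rw [e3, if_pos (by omega), e4] at hm'
  have e5 : ∑ j ∈ range (L + m), (if L + m - 1 - j ≤ L then r (L + m - 1 - j + 1) else 0) * Bn L j =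
      ∑ j ∈ range (L + m), r (L + m - j) * Bn L j := by
    apply Finset.sum_congr rfl
    intro j hj
    have hj' := mem_range.mp hj
    rcases Nat.lt_or_ge L j with h | h
    · rw [if_pos (by omega)]
      congr 2
      omega
    · rw [hB0 j h, mul_zero, mul_zero]
  rw [e5] at hm'
  set SB : ℝ := ∑ j ∈ range (L + m), r (L + m - j) * Bn L j with hSB
  set W : ℝ := ∑ j ∈ range (L + m), th ^ j * Bn L j with hW
  set G : ℝ := ∑ j ∈ Ico (L + 1) (L + m - 1), th ^ j * An L j with hG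
  set A : ℝ := An L (L + m - 1) with hAdef
  -- hw : -((1 - thL L * th) * G + th ^ (L + m - 1) * A) ≤ W
  -- hm' : r (m - m0 - 1) * W ≤ th ^ (L + m0 + 1) * SB
  have hp1 : (0 : ℝ) < th ^ (L + m0 + 1) := pow_pos hth0 _
  have e6 : th ^ (L + 1) = th ^ (L + m0 + 1) / th ^ m0 := by
    have e : th ^ (L + m0 + 1) = th ^ (L + 1) * th ^ m0 := by
      rw [← pow_add]
      congr 1
      omega
    rw [e, mul_div_assoc, div_self (pow_pos hth0 _).ne', mul_one]
  have e7 : th ^ (L + m - 1) = th ^ (L + m0 + 1) * th ^ (m - m0 - 2) := by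
    rw [← pow_add]
    congr 1
    omega
  have hGle : G ≤ th ^ (L + m0 + 1) * (S * Z / th ^ m0) := by
    refine hup.trans (le_of_eq ?_)
    rw [e6]
    ring
  have hW1 : -(th ^ (L + m0 + 1) * ((1 - thL L * th) * (S * Z / th ^ m0) +
      th ^ (m - m0 - 2) * A)) ≤ W := by
    refine le_trans ?_ hw
    have h1 := mul_le_mul_of_nonneg_left hGle hth1
    rw [e7]
    nlinarith
  have hSB1 : -(r (m - m0 - 1) * ((1 - thL L * th) * (S * Z / th ^ m0) +
      th ^ (m - m0 - 2) * A)) ≤ SB := by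
    have h1 := mul_le_mul_of_nonneg_left hW1 hrd
    have h2 := h1.trans hm'
    have h3 : th ^ (L + m0 + 1) * -(r (m - m0 - 1) * ((1 - thL L * th) * (S * Z / th ^ m0) +
        th ^ (m - m0 - 2) * A)) ≤ th ^ (L + m0 + 1) * SB := by
      refine le_trans (le_of_eq ?_) h2
      ring
    exact le_of_mul_le_mul_left h3 hp1
  have hfin : 0 ≤ 2 * A + E * ((L : ℝ) + m) * SB := by
    have h1 := mul_le_mul_of_nonneg_left hSB1 (mul_nonneg hE.le hn.le)
    have h2 : -(q * ((1 - thL L * th) * (S * Z / th ^ m0) + th ^ (m - m0 - 2) * A)) ≤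
        E * ((L : ℝ) + m) * SB := by
      refine le_trans (le_of_eq ?_) h1
      rw [hq]
      ring
    have hTq : 0 < T2 (m - 2) := hTp (m - 2)
    have hZ0 : 0 ≤ Z := le_trans (Finset.sum_nonneg fun i _ =>
      mul_nonneg (pow_nonneg hth0.le i) (hT0 i)) hZ
    have hc : q * th ^ (m - m0 - 2) ≤ 2 := by
      have h3 : 0 ≤ q * ((1 - thL L * th) * Z / th ^ m0) :=
        mul_nonneg hq0 (div_nonneg (mul_nonneg hth1 hZ0) (pow_pos hth0 _).le)
      have h4 : (q * th ^ (m - m0 - 2)) * T2 (m - 2) ≤ 2 * T2 (m - 2) := by nlinarith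
      exact le_of_mul_le_mul_right h4 hTq
    have h5 : (2 - q * th ^ (m - m0 - 2)) * (T2 (m - 2) * S) ≤
        (2 - q * th ^ (m - m0 - 2)) * A := mul_le_mul_of_nonneg_left hlow (by linarith)
    have h6 := mul_le_mul_of_nonneg_right hZB hS0
    have e8 : (1 - thL L * th) * (S * Z / th ^ m0) = (1 - thL L * th) * Z / th ^ m0 * S := by ring
    rw [e8] at h2
    nlinarith
  have h7 : 0 ≤ E * ((L : ℝ) + m) * Bn L (L + m) := hfin.trans hR
  exact (mul_nonneg_iff_of_pos_left (mul_pos hE hn)).mp h7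

end Pool.Agent.MP_9da1e3_co
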