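import Pool.Agent.Lib.MP_9da1e3_co.Wn4

namespace Pool.Agent.MP_9da1e3_co

open Finset

lemma qq_le (p : ℕ) (hp : 1 ≤ p) : qq p ≤ 1 - 1 / (2 * (p : ℝ) + 3) := by
  have hp1 : (1 : ℝ) ≤ p := by exact_mod_cast hp
  have hp0 : (0 : ℝ) < p := by linarith
  have hE := E_pos
  unfold qq
  rw [div_le_iff₀ hE]
  have h1 : E = Real.exp (1 / (p : ℝ)) ^ p := by
    rw [← Real.exp_nat_mul, E]
    congr 1
    field_simp
  have h2 : 1 + 1 / (p : ℝ) + (1 / (p : ℝ)) ^ 2 / 2 ≤ Real.exp (1 / (p : ℝ)) :=
    Real.quadratic_le_exp_of_nonneg (by positivity)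
  have h3 : 1 + 1 / (p : ℝ) + (1 / (p : ℝ)) ^ 2 / 2 =
      (1 + 1 / (p : ℝ)) * (1 + 1 / (2 * p * (p + 1))) := by
    field_simp
  have h4 : (1 + 1 / (p : ℝ)) ^ p * (1 + 1 / (2 * ((p : ℝ) + 1))) ≤ E := by
    rw [h1]
    refine le_trans ?_ (pow_le_pow_left₀ (by positivity) h2 p)
    rw [h3, mul_pow]
    apply mul_le_mul_of_nonneg_left _ (by positivity)
    have h5 := one_add_mul_le_pow (show (-2 : ℝ) ≤ 1 / (2 * p * (p + 1)) by
      have : (0 : ℝ) ≤ 1 / (2 * p * (p + 1)) := by positivity
      linarith) p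
    refine le_trans (le_of_eq ?_) h5
    field_simp
  have h6 : (1 - 1 / (2 * (p : ℝ) + 3)) * (1 + 1 / (2 * ((p : ℝ) + 1))) = 1 := by
    field_simp
    ring
  calc (1 + 1 / (p : ℝ)) ^ p = (1 - 1 / (2 * (p : ℝ) + 3)) *
        ((1 + 1 / (p : ℝ)) ^ p * (1 + 1 / (2 * ((p : ℝ) + 1)))) := by
        rw [mul_comm ((1 + 1 / (p : ℝ)) ^ p), ← mul_assoc, h6, one_mul]
    _ ≤ (1 - 1 / (2 * (p : ℝ) + 3)) * E := by
        apply mul_le_mul_of_nonneg_left h4
        rw [sub_nonneg, div_le_one (by positivity)]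
        linarith

/-- strict decrease of `ww` -/
lemma ww_dec (m : ℕ) : ww (m + 1) ≤ ww m * (1 - 1 / (2 * (m : ℝ) + 5)) := by
  have h1 := cE_succ_eq m
  have h2 := qq_le (m + 1) (by omega)
  have h3 := cE_pos m
  have hE := E_pos
  have e1 := E_ww' m
  have e2 := E_ww' (m + 1)
  have h4 : E * ww (m + 1) ≤ E * (ww m * (1 - 1 / (2 * (m : ℝ) + 5))) := by
    rw [e2, h1, ← mul_assoc, e1]
    apply mul_le_mul_of_nonneg_left _ h3.le
    refine h2.trans (le_of_eq ?_)
    push_cast
    congr 2
    ring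
  exact le_of_mul_le_mul_left h4 hE

/-- bounds for the third differences -/
noncomputable def Dd (L : ℕ) : ℕ → ℝ
  | 0 => ww 0
  | k + 1 => ww (k + 1) - ww k + 200 / (L : ℝ) * ww k

lemma Dd_zero (L : ℕ) : Dd L 0 = ww 0 := rfl

lemma Dd_succ (L k : ℕ) : Dd L (k + 1) = ww (k + 1) - ww k + 200 / (L : ℝ) * ww k := rfl

lemma Dd_neg (L k : ℕ) (hL : 0 < L) (h : 200 * (2 * k + 5) ≤ L) : Dd L (k + 1) ≤ 0 := by
  have hL0 : (0 : ℝ) < L := by exact_mod_cast hL
  have hr : 200 * (2 * (k : ℝ) + 5) ≤ L := by exact_mod_cast h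
  have h1 := ww_dec k
  have h2 := ww_pos k
  rw [Dd_succ]
  have h3 : 200 / (L : ℝ) ≤ 1 / (2 * (k : ℝ) + 5) := by
    rw [div_le_div_iff₀ hL0 (by positivity)]
    linarith
  have h4 := mul_le_mul_of_nonneg_right h3 h2.le
  linarith

lemma sum_Dd (L p : ℕ) : ∑ k ∈ range (p + 1), Dd L k = ww p + 200 / (L : ℝ) * WW p := by
  induction p with
  | zero => simp [Dd_zero, WW]
  | succ p ih =>
    rw [Finset.sum_range_succ, ih, Dd_succ]
    have e : WW (p + 1) = WW p + ww p := by unfold WW; rw [Finset.sum_range_succ]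
    rw [e]
    ring

lemma sum_tDd (L p : ℕ) : ∑ k ∈ range (p + 1), tn (p - k) * Dd L k =
    ((p : ℝ) + 1) * tn (p + 1) - (1 - 200 / (L : ℝ)) * (p * tn p) := by
  have h1 := sum_tww (p + 1)
  have h2 := sum_tww p
  rw [Finset.sum_range_succ'] at h1 ⊢
  have e1 : ∑ k ∈ range p, tn (p - (k + 1)) * Dd L (k + 1) =
      ∑ k ∈ range p, tn (p + 1 - 1 - (k + 1)) * ww (k + 1) -
      (1 - 200 / (L : ℝ)) * ∑ k ∈ range p, tn (p - 1 - k) * ww k := by
    rw [Finset.mul_sum, ← Finset.sum_sub_distrib]
    apply Finset.sum_congr rfl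
    intro k _
    have q1 : p - (k + 1) = p - 1 - k := by omega
    have q2 : p + 1 - 1 - (k + 1) = p - 1 - k := by omega
    rw [q1, q2, Dd_succ]
    ring
  rw [e1, h2, Dd_zero]
  have q3 : p + 1 - 1 - 0 = p - 0 := by omega
  have q4 : ((p + 1 : ℕ) : ℝ) = (p : ℝ) + 1 := by push_cast; ring
  rw [q4, q3] at h1
  linarith

/-- the numeric inequality of region A -/
lemma keyA (p : ℕ) : cE p * ww p + ((p : ℝ) + 2) * (cE p - cE (p + 1)) ≤
    198 * tn p + 0.6 * (p * tn p) := by
  have ht := tn_pos p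
  have hw := ww_pos p
  have hwl := ww_le p
  have hE := E_ge
  have hp0 : (0 : ℝ) ≤ p := Nat.cast_nonneg p
  obtain ⟨s, hs⟩ : ∃ s : ℝ, s = sq p := ⟨_, rfl⟩
  have hs0 : 0 < s := by rw [hs]; exact sq_pos p
  have hss : s * s = (p : ℝ) + 1 := by
    rw [hs]
    unfold sq
    exact Real.mul_self_sqrt (by positivity)
  have hs1 : 1 ≤ s := by nlinarith
  rw [← hs] at hwl
  have hw2 : ww p ≤ 0.41 / s := by
    refine hwl.trans ?_
    rw [div_le_div_iff₀ (by positivity) hs0]
    nlinarith
  have h1 : cE p * ww p ≤ 0.41 * (s * tn p) := by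
    have h2 : cE p * ww p ≤ cE p * (0.41 / s) := mul_le_mul_of_nonneg_left hw2 (cE_pos p).le
    have h3 : cE p * (0.41 / s) = 0.41 * (s * tn p) := by
      unfold cE
      rw [← hss]
      field_simp
    linarith
  rcases le_or_gt 100 p with hp | hp
  · have h2 := cE_low p hp
    have h3 : ((p : ℝ) + 2) * (cE p - cE (p + 1)) ≤ 0.55 * cE p := by
      have h4 : cE p - cE (p + 1) ≤ cE p * (0.55 / ((p : ℝ) + 2)) := by
        have : cE p * (1 - 0.55 / ((p : ℝ) + 2)) = cE p - cE p * (0.55 / ((p : ℝ) + 2)) := by ring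
        linarith
      have h5 := mul_le_mul_of_nonneg_left h4 (show (0 : ℝ) ≤ (p : ℝ) + 2 by positivity)
      have h6 : ((p : ℝ) + 2) * (cE p * (0.55 / ((p : ℝ) + 2))) = 0.55 * cE p := by
        field_simp
      linarith
    have h4 : cE p = (s * s) * tn p := by rw [hss]; rfl
    have h5 : (p : ℝ) = s * s - 1 := by linarith
    rw [h4] at h3
    have h6 : 0 ≤ (0.05 * (s * s) - 0.41 * s + 197.4) * tn p := by
      apply mul_nonneg _ ht.le
      nlinarith [sq_nonneg (s - 4.1)]
    have h7 : 198 * tn p + 0.6 * (p * tn p) - 0.55 * (s * s * tn p) - 0.41 * (s * tn p) =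
        (0.05 * (s * s) - 0.41 * s + 197.4) * tn p := by
      rw [h5]
      ring
    rw [h4] at h1
    rw [h4]
    linarith
  · have h2 := cE_ge p
    have h3 : ((p : ℝ) + 2) * (cE p - cE (p + 1)) ≤ cE p := by
      have h4 : cE p - cE (p + 1) ≤ cE p * (1 / ((p : ℝ) + 2)) := by
        have : cE p * (1 - 1 / ((p : ℝ) + 2)) = cE p - cE p * (1 / ((p : ℝ) + 2)) := by ring
        linarith
      have h5 := mul_le_mul_of_nonneg_left h4 (show (0 : ℝ) ≤ (p : ℝ) + 2 by positivity)
      have h6 : ((p : ℝ) + 2) * (cE p * (1 / ((p : ℝ) + 2))) = cE p := by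
        field_simp
      linarith
    have h4 : cE p = (s * s) * tn p := by rw [hss]; rfl
    have hp' : (p : ℝ) + 1 ≤ 100 := by exact_mod_cast (by omega : p + 1 ≤ 100)
    have h5 : s ≤ 10 := by nlinarith
    have h6 : cE p ≤ 100 * tn p := by
      unfold cE
      exact mul_le_mul_of_nonneg_right hp' ht.le
    have h7 : s * tn p ≤ 10 * tn p := mul_le_mul_of_nonneg_right h5 ht.le
    have h8 : 0 ≤ p * tn p := by positivity
    linarith

/-- region A: upper bound for the third difference -/
lemma c3_regA (L : ℕ) (hL : 10000000000000 ≤ L) : ∀ p : ℕ, 10000000000000 * (p + 2) ≤ L →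
    7.4 * (((p : ℝ) + 2) * √((p : ℝ) + 2)) ≤ L →
    c3 L (p + 2) ≤ tn L / L * Dd L (p + 1) := by
  have hLr : (10000000000000 : ℝ) ≤ L := by exact_mod_cast hL
  have hL0 : (0 : ℝ) < L := by linarith
  have ht := tn_pos L
  have hE := E_ge3
  have hE' := E_le
  intro p
  induction p using Nat.strong_induction_on with
  | _ p ih =>
    intro hp hw
    obtain ⟨c, hc⟩ : ∃ c : ℝ, c = tn L / L := ⟨_, rfl⟩
    have hc0 : 0 < c := by rw [hc]; positivity
    have hcL : tn L = c * L := by rw [hc]; field_simp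
    rw [← hc]
    have hp0 : (0 : ℝ) ≤ p := Nat.cast_nonneg p
    have hpL : 10000000000000 * ((p : ℝ) + 2) ≤ L := by exact_mod_cast hp
    have htp := tn_pos p
    have htp1 := tn_pos (p + 1)
    have hrec := c3_eq L (p + 1) (by omega) (by omega)
    -- induction bound
    have hI : ∀ k ∈ range (p + 1), c3 L (k + 1) ≤ c * Dd L k := by
      intro k hk
      have hk' := mem_range.mp hk
      rcases k with _ | k
      · rw [c3_succ, bb_zero, zero_sub, Dd_zero, zero_add]
        have h1 := bb_ge_ww L (by omega) 0 (by omega)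
        rw [← hc, zero_add] at h1
        linarith
      · have h1 := ih k (by omega) (by omega) (le_trans (mul_le_mul_of_nonneg_left (mul_sqrt_mono
          (by positivity) (by
            have : (k : ℝ) ≤ p := by exact_mod_cast (by omega : k ≤ p)
            linarith)) (by norm_num)) hw)
        rw [← hc] at h1
        exact h1
    have hI2 : ∀ k ∈ range p, c3 L (k + 1 + 1) ≤ 0 := by
      intro k hk
      have hk' := mem_range.mp hk
      have h1 := hI (k + 1) (mem_range.mpr (by omega))
      have h2 := Dd_neg L k (by omega) (by omega)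
      have h3 : c * Dd L (k + 1) ≤ 0 := mul_nonpos_of_nonneg_of_nonpos hc0.le h2
      linarith
    -- main sum
    have hsum : ∑ r ∈ range (p + 1 + 1), AA L (p + 1) r * c3 L r ≤
        c * (L * (((p : ℝ) + 1) * tn (p + 1) - (1 - 200 / (L : ℝ)) * (p * tn p)) +
          cE p * (ww p + 200 / (L : ℝ) * WW p)) := by
      rw [Finset.sum_range_succ', c3_zero, mul_zero, add_zero]
      have e1 : ∑ k ∈ range (p + 1), AA L (p + 1) (k + 1) * c3 L (k + 1) =
          L * ∑ k ∈ range (p + 1), tn (p - k) * c3 L (k + 1) +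
          ∑ k ∈ range (p + 1), cE (p - k) * c3 L (k + 1) := by
        rw [Finset.mul_sum, ← Finset.sum_add_distrib]
        apply Finset.sum_congr rfl
        intro k _
        unfold AA cE
        have q : p + 1 - (k + 1) = p - k := by omega
        rw [q]
        ring
      rw [e1]
      have h1 : ∑ k ∈ range (p + 1), tn (p - k) * c3 L (k + 1) ≤
          c * (((p : ℝ) + 1) * tn (p + 1) - (1 - 200 / (L : ℝ)) * (p * tn p)) := by
        rw [← sum_tDd, Finset.mul_sum]
        apply Finset.sum_le_sum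
        intro k hk
        have h2 := mul_le_mul_of_nonneg_left (hI k hk) (tn_pos (p - k)).le
        have e : tn (p - k) * (c * Dd L k) = c * (tn (p - k) * Dd L k) := by ring
        linarith
      have h2 : ∑ k ∈ range (p + 1), cE (p - k) * c3 L (k + 1) ≤
          cE p * (c * (ww p + 200 / (L : ℝ) * WW p)) := by
        have h3 : ∑ k ∈ range (p + 1), cE (p - k) * c3 L (k + 1) ≤
            ∑ k ∈ range (p + 1), cE p * c3 L (k + 1) := by
          rw [Finset.sum_range_succ', Finset.sum_range_succ' (fun k => cE p * c3 L (k + 1))]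
          apply add_le_add
          · apply Finset.sum_le_sum
            intro k hk
            have hk' := mem_range.mp hk
            exact mul_le_mul_of_nonpos_right (cE_le_of_le (by omega : p - (k + 1) ≤ p)) (hI2 k hk)
          · exact le_of_eq (by rw [Nat.sub_zero])
        refine h3.trans ?_
        rw [← Finset.mul_sum]
        apply mul_le_mul_of_nonneg_left _ (cE_pos p).le
        rw [← sum_Dd, Finset.mul_sum]
        exact Finset.sum_le_sum hI
      have h3 := mul_le_mul_of_nonneg_left h1 hL0.le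
      have e : c * (L * (((p : ℝ) + 1) * tn (p + 1) - (1 - 200 / (L : ℝ)) * (p * tn p)) +
          cE p * (ww p + 200 / (L : ℝ) * WW p)) =
          L * (c * (((p : ℝ) + 1) * tn (p + 1) - (1 - 200 / (L : ℝ)) * (p * tn p))) +
          cE p * (c * (ww p + 200 / (L : ℝ) * WW p)) := by ring
      rw [e]
      linarith
    -- neighbouring `L`
    have htL := tn_succ_sharp L (by omega)
    have htL2 : c * (L - 1.66) ≤ tn (L + 1) := by
      refine le_trans (le_of_eq ?_) htL
      rw [hcL]
      field_simp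
    -- the second differences at `L + 1`
    have hB : ∀ i ∈ range p, bb (L + 1) (i + 1) ≤ -(0.2 * c * ww i) := by
      intro i hi
      have hi' := mem_range.mp hi
      have h1 := bb_up (L + 1) (by omega) i (by omega)
      have hLs : ((L + 1 : ℕ) : ℝ) = L + 1 := by push_cast; ring
      rw [hLs] at h1
      have hwi := ww_pos i
      have hcEi := le_cE i
      rw [← E_ww'] at hcEi
      have hi0 : (0 : ℝ) ≤ i := Nat.cast_nonneg i
      obtain ⟨s, hs⟩ : ∃ s : ℝ, s = √((i : ℝ) + 1) := ⟨_, rfl⟩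
      have hs0 : 0 < s := by rw [hs]; exact Real.sqrt_pos.mpr (by positivity)
      have hsq : sq i = s := by rw [hs]; rfl
      rw [hsq, div_le_iff₀ hs0] at hcEi
      have h2 : ((i : ℝ) + 1) * s ≤ ((p : ℝ) + 2) * √((p : ℝ) + 2) := by
        rw [hs]
        apply mul_sqrt_mono (by positivity)
        have : (i : ℝ) ≤ p := by exact_mod_cast hi'.le
        linarith
      have h3 : 2 * ((i : ℝ) + 1) / (L + 1) ≤ 0.79 * ww i := by
        rw [div_le_iff₀ (by positivity)]
        -- 2 (i+1) ≤ 2 (i+1) s E w ≤ 5.4366 z w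
        have h4 : (i : ℝ) + 1 ≤ ((i : ℝ) + 1) * (E * ww i * s) := by
          have := mul_le_mul_of_nonneg_left hcEi (show (0 : ℝ) ≤ (i : ℝ) + 1 by positivity)
          linarith
        have h5 : ((i : ℝ) + 1) * (E * ww i * s) = E * ww i * (((i : ℝ) + 1) * s) := by ring
        have h6 : E * ww i ≤ 2.7183 * ww i := mul_le_mul_of_nonneg_right hE' hwi.le
        have h7 : 7.4 * (((i : ℝ) + 1) * s) ≤ L := by linarith
        have h8 : E * ww i * (((i : ℝ) + 1) * s) ≤ 2.7183 * ww i * (L / 7.4) := by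
          apply mul_le_mul h6 _ (by positivity) (by positivity)
          rw [le_div_iff₀ (by norm_num)]
          linarith
        have h9 : 0 < ww i * L := by positivity
        have h10 : (i : ℝ) + 1 ≤ 2.7183 * ww i * (L / 7.4) := by
          rw [h5] at h4
          exact h4.trans h8
        have h11 : 2.7183 * ww i * (L / 7.4) = 2.7183 / 7.4 * (ww i * L) := by ring
        rw [h11] at h10
        have h12 : 0.79 * ww i * (L + 1) = 0.79 * (ww i * L) + 0.79 * ww i := by ring
        rw [h12]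
        linarith
      have h4 : bb (L + 1) (i + 1) ≤ tn (L + 1) / (L + 1) * (-(0.21 * ww i)) := by
        refine h1.trans ?_
        have : 0 < tn (L + 1) := tn_pos _
        apply mul_le_mul_of_nonneg_left _ (by positivity)
        linarith
      have h5 : 0.96 * c ≤ tn (L + 1) / (L + 1) := by
        rw [le_div_iff₀ (by positivity)]
        refine le_trans ?_ htL2
        nlinarith
      have h6 : 0.96 * c * (0.21 * ww i) ≤ tn (L + 1) / (L + 1) * (0.21 * ww i) :=
        mul_le_mul_of_nonneg_right h5 (by positivity)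
      have h7 : 0 < c * ww i := by positivity
      nlinarith
    have hthird : 3 * ∑ i ∈ range (p + 1), tn (p + 1 - 1 - i) * bb (L + 1) i ≤
        -(0.6 * c * (p * tn p)) := by
      rw [Finset.sum_range_succ', bb_zero, mul_zero, add_zero]
      have h1 : ∑ k ∈ range p, tn (p + 1 - 1 - (k + 1)) * bb (L + 1) (k + 1) ≤
          ∑ k ∈ range p, -(0.2 * c) * (tn (p - 1 - k) * ww k) := by
        apply Finset.sum_le_sum
        intro k hk
        have q : p + 1 - 1 - (k + 1) = p - 1 - k := by omega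
        rw [q]
        have h2 := mul_le_mul_of_nonneg_left (hB k hk) (tn_pos (p - 1 - k)).le
        linarith
      rw [← Finset.mul_sum, sum_tww] at h1
      linarith
    -- conclusion
    have hWW : WW p ≤ (p : ℝ) + 2 := by
      have h1 := WW_le p
      have h2 : √(p : ℝ) ≤ (p : ℝ) + 2 := by
        apply Real.sqrt_le_iff.mpr
        constructor
        · positivity
        · nlinarith
      linarith
    have hk := keyA p
    have hcEp : cE p = ((p : ℝ) + 1) * tn p := rfl
    have hcEp1 : cE (p + 1) = ((p : ℝ) + 2) * tn (p + 1) := by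
      unfold cE
      push_cast
      ring
    have hcE0 := cE_pos p
    have key : E * (((L : ℝ) + ((p : ℝ) + 2)) * c3 L (p + 2)) ≤
        E * (((L : ℝ) + ((p : ℝ) + 2)) * (c * Dd L (p + 1))) := by
      have e1 : E * (((L : ℝ) + ((p : ℝ) + 2)) * c3 L (p + 2)) =
          E * (((L : ℝ) + (((p + 1 : ℕ) : ℝ) + 1)) * c3 L (p + 1 + 1)) := by
        push_cast
        ring_nf
      rw [e1, hrec]
      have e2 : E * (((L : ℝ) + ((p : ℝ) + 2)) * (c * Dd L (p + 1))) =
          c * ((L + ((p : ℝ) + 2)) * (cE (p + 1) - cE p + 200 / (L : ℝ) * cE p)) := by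
        rw [Dd_succ, ← E_ww', ← E_ww']
        ring
      rw [e2, Nat.add_sub_cancel]
      rw [Nat.add_sub_cancel] at hthird
      have h1 : -(tn p * tn (L + 1)) + tn (p + 1) * tn L ≤
          c * (L * (tn (p + 1) - tn p) + 1.66 * tn p) := by
        have h2 := mul_le_mul_of_nonneg_left htL2 htp.le
        rw [hcL]
        linarith
      have h2 : c * (L * (((p : ℝ) + 1) * tn (p + 1) - (1 - 200 / (L : ℝ)) * (p * tn p)) +
          cE p * (ww p + 200 / (L : ℝ) * WW p)) + -(0.6 * c * (p * tn p)) +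
          c * (L * (tn (p + 1) - tn p) + 1.66 * tn p) ≤
          c * ((L + ((p : ℝ) + 2)) * (cE (p + 1) - cE p + 200 / (L : ℝ) * cE p)) := by
        have e3 : c * (L * (((p : ℝ) + 1) * tn (p + 1) - (1 - 200 / (L : ℝ)) * (p * tn p)) +
          cE p * (ww p + 200 / (L : ℝ) * WW p)) + -(0.6 * c * (p * tn p)) +
          c * (L * (tn (p + 1) - tn p) + 1.66 * tn p) =
          c * (L * (cE (p + 1) - cE p) + 200 * (p * tn p) + cE p * ww p +
            200 / (L : ℝ) * (cE p * WW p) - 0.6 * (p * tn p) + 1.66 * tn p) := by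
          rw [hcEp1, hcEp]
          field_simp
          ring
        rw [e3]
        apply mul_le_mul_of_nonneg_left _ hc0.le
        have h3 : 200 / (L : ℝ) * (cE p * WW p) ≤ 200 / (L : ℝ) * (cE p * ((p : ℝ) + 2)) := by
          apply mul_le_mul_of_nonneg_left _ (by positivity)
          exact mul_le_mul_of_nonneg_left hWW hcE0.le
        have e4 : (L + ((p : ℝ) + 2)) * (cE (p + 1) - cE p + 200 / (L : ℝ) * cE p) =
            L * (cE (p + 1) - cE p) - ((p : ℝ) + 2) * (cE p - cE (p + 1)) + 200 * cE p +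
            200 / (L : ℝ) * (cE p * ((p : ℝ) + 2)) := by
          field_simp
          ring
        rw [e4]
        have h5 : 200 * cE p = 200 * (p * tn p) + 200 * tn p := by
          rw [hcEp]
          ring
        linarith
      linarith
    have hN : (0 : ℝ) < (L : ℝ) + ((p : ℝ) + 2) := by positivity
    exact le_of_mul_le_mul_left (le_of_mul_le_mul_left key (by linarith)) hN

end Pool.Agent.MP_9da1e3_co
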