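import Pool.Agent.Lib.MP_9da1e3_co.V2_ZB1
import Pool.Agent.Lib.MP_9da1e3_co.Ct1
import Pool.Agent.Lib.MP_9da1e3_co.Wn5

/-! Ingredients of the explicit inequality of `V2_ZB1`: ratios, the weight `th`, exponential sums. -/

namespace Pool.Agent.MP_9da1e3_co

open Finset

/-- the convolution square of `tn` -/
noncomputable def zT (k : ℕ) : ℝ := ∑ i ∈ range (k + 1), tn i * tn (k - i)

/-- the weight -/
noncomputable def zth (L : ℕ) : ℝ := 1 + 1.5 / ((L : ℝ) + 4)

lemma zth_ge (L : ℕ) : 1 ≤ zth L := by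
  unfold zth
  have : (0 : ℝ) ≤ 1.5 / ((L : ℝ) + 4) := by positivity
  linarith

lemma zb_abel (k : ℕ) : ∑ i ∈ range (k + 1), tn i * ((((k - i : ℕ) : ℝ) + 1) * tn (k - i)) =
    E * (((k : ℝ) + 1) * tn (k + 1)) := by
  have h := abel_tc k
  have hE := E_pos
  have e : ∑ i ∈ range (k + 1), tn i * ((((k - i : ℕ) : ℝ) + 1) * tn (k - i)) =
      (∑ i ∈ range (k + 1), tt i * cc (k - i)) / E ^ k := by
    rw [Finset.sum_div]
    apply Finset.sum_congr rfl
    intro i hi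
    have hi' := mem_range.mp hi
    have e1 : E ^ k = E ^ i * E ^ (k - i) := by
      rw [← pow_add]
      congr 1
      omega
    rw [e1, cc_eq]
    unfold tn
    have h1 : E ^ i ≠ 0 := (pow_pos hE i).ne'
    have h2 : E ^ (k - i) ≠ 0 := (pow_pos hE _).ne'
    field_simp
  rw [e, h]
  unfold tn
  rw [pow_succ]
  have h1 : E ^ k ≠ 0 := (pow_pos hE k).ne'
  field_simp

lemma zT_eq (k : ℕ) : ((k : ℝ) + 2) * zT k = 2 * E * (((k : ℝ) + 1) * tn (k + 1)) := by
  have h := zb_abel k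
  have h2 := sum_rev (fun i => tn i * ((((k - i : ℕ) : ℝ) + 1) * tn (k - i))) k
  beta_reduce at h2
  rw [h] at h2
  have e : ∑ i ∈ range (k + 1), tn (k - i) * ((((k - (k - i) : ℕ) : ℝ) + 1) * tn (k - (k - i))) =
      ∑ i ∈ range (k + 1), tn i * tn (k - i) * ((i : ℝ) + 1) := by
    apply Finset.sum_congr rfl
    intro i hi
    have hi' := mem_range.mp hi
    have e1 : k - (k - i) = i := by omega
    rw [e1]
    ring
  rw [e] at h2
  have e3 : ((k : ℝ) + 2) * zT k = ∑ i ∈ range (k + 1), tn i * ((((k - i : ℕ) : ℝ) + 1) * tn (k - i)) +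
      ∑ i ∈ range (k + 1), tn i * tn (k - i) * ((i : ℝ) + 1) := by
    unfold zT
    rw [← Finset.sum_add_distrib, Finset.mul_sum]
    apply Finset.sum_congr rfl
    intro i hi
    have hi' : i ≤ k := by have := mem_range.mp hi; omega
    rw [Nat.cast_sub hi']
    ring
  rw [e3, h, h2]
  ring

lemma zT_pos (k : ℕ) : 0 < zT k := by
  unfold zT
  exact Finset.sum_pos (fun i _ => mul_pos (tn_pos i) (tn_pos _)) ⟨0, by simp⟩

lemma zb_tn_succ_qq (k : ℕ) : ((k : ℝ) + 2) * tn (k + 1) = ((k : ℝ) + 1) * tn k * qq (k + 1) := by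
  have h := cE_succ_eq k
  unfold cE at h
  push_cast at h
  have e : ((k : ℝ) + 2) = (k : ℝ) + 1 + 1 := by ring
  rw [e]
  exact h

lemma zb_qq_pos (p : ℕ) : 0 < qq p := by
  unfold qq
  have := E_pos
  positivity

lemma zT_ratio (L k : ℕ) (hk : k + 1 ≤ L) : zth L * zT (k + 1) ≤ zT k := by
  have hx : (0 : ℝ) ≤ (k : ℝ) := Nat.cast_nonneg k
  have hLx : (k : ℝ) + 1 ≤ L := by exact_mod_cast hk
  have ht := tn_pos (k + 1)
  have hE := E_pos
  have h1 := zT_eq k
  have h2 := zT_eq (k + 1)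
  have h3 := zb_tn_succ_qq (k + 1)
  have h4 := qq_le (k + 2) (by omega)
  push_cast at h2 h3 h4
  have e1 : ((k : ℝ) + 2) * (zT k) = 2 * E * (((k : ℝ) + 1) * tn (k + 1)) := h1
  set x : ℝ := (k : ℝ) with hxdef
  set t : ℝ := tn (k + 1) with ht'
  set Q : ℝ := qq (k + 2) with hQ
  have hQ0 : 0 < Q := zb_qq_pos _
  have hQ1 : Q ≤ (2 * x + 6) / (2 * x + 7) := by
    refine h4.trans (le_of_eq ?_)
    field_simp
    ring
  have ez0 : zT k = 2 * E * ((x + 1) * t) / (x + 2) := by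
    field_simp
    linarith
  have etn : tn (k + 1 + 1) = (x + 2) * t * Q / (x + 3) := by
    field_simp
    have e : (x + 1 + 2) * tn (k + 1 + 1) = (x + 1 + 1) * t * Q := h3
    nlinarith
  have ez1 : zT (k + 1) = 2 * E * ((x + 2) * ((x + 2) * t * Q / (x + 3))) / (x + 3) := by
    rw [eq_div_iff (by positivity), ← etn]
    have e : (x + 1 + 2) * zT (k + 1) = 2 * E * ((x + 1 + 1) * tn (k + 1 + 1)) := h2
    nlinarith
  have hth : zth L ≤ (x + 6.5) / (x + 5) := by
    unfold zth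
    have h5 : (1.5 : ℝ) / ((L : ℝ) + 4) ≤ 1.5 / (x + 5) :=
      div_le_div_of_nonneg_left (by norm_num) (by linarith) (by linarith)
    have e : (x + 6.5) / (x + 5) = 1 + 1.5 / (x + 5) := by field_simp; ring
    rw [e]
    linarith
  have hzp : 0 ≤ zT (k + 1) := (zT_pos _).le
  calc zth L * zT (k + 1) ≤ (x + 6.5) / (x + 5) * zT (k + 1) := mul_le_mul_of_nonneg_right hth hzp
    _ = (x + 6.5) / (x + 5) * (2 * E * t * ((x + 2) ^ 2 / (x + 3) ^ 2)) * Q := by
        rw [ez1]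
        field_simp
    _ ≤ (x + 6.5) / (x + 5) * (2 * E * t * ((x + 2) ^ 2 / (x + 3) ^ 2)) *
          ((2 * x + 6) / (2 * x + 7)) := by
        apply mul_le_mul_of_nonneg_left hQ1
        positivity
    _ = 2 * E * t * ((x + 6.5) * (x + 2) ^ 2 * (2 * x + 6) / ((x + 5) * (x + 3) ^ 2 * (2 * x + 7))) := by
        field_simp
    _ ≤ 2 * E * t * ((x + 1) / (x + 2)) := by
        apply mul_le_mul_of_nonneg_left _ (by positivity)
        rw [div_le_div_iff₀ (by positivity) (by positivity)]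
        have e : (x + 1) * ((x + 5) * (x + 3) ^ 2 * (2 * x + 7)) -
            (x + 6.5) * (x + 2) ^ 2 * (2 * x + 6) * (x + 2) = 7 * x ^ 3 + 40 * x ^ 2 + 58 * x + 3 := by
          ring
        have e2 : 0 ≤ 7 * x ^ 3 + 40 * x ^ 2 + 58 * x + 3 := by positivity
        linarith
    _ = zT k := by
        rw [ez0]
        field_simp

lemma zb_rn_eq (L j : ℕ) (hj : j + 2 ≤ L) : rn L (j + 2) = ww j / (E * ((j : ℝ) + 2)) := by
  have hE := E_pos
  rw [rn_explicit L (j + 1) (by omega)]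
  unfold ww cc
  rw [Nat.factorial_succ (j + 1), Nat.factorial_succ j]
  push_cast
  have h1 : ((j.factorial : ℕ) : ℝ) ≠ 0 := by exact_mod_cast (Nat.factorial_pos j).ne'
  have h2 : E ^ (j + 1) ≠ 0 := (pow_pos hE _).ne'
  have h3 : ((j : ℝ) + 1) ≠ 0 := by positivity
  have h4 : ((j : ℝ) + 2) ≠ 0 := by positivity
  have e1 : ((j : ℝ) + 1 + 1) = (j : ℝ) + 2 := by ring
  rw [e1, pow_succ ((j : ℝ) + 1) j, pow_succ E (j + 1)]
  field_simp

lemma zb_r_ratio (L k : ℕ) (hk : k + 2 ≤ L + 1) : zth L * rn (L + 1) (k + 2) ≤ rn (L + 1) (k + 1) := by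
  have hE := E_ge
  rcases Nat.eq_zero_or_pos k with rfl | hk0
  · have h1 : rn (L + 1) (0 + 2) = 1 / (2 * E ^ 2) := by
      rw [rn_explicit (L + 1) 1 (by omega)]
      norm_num
      field_simp
    have h2 : rn (L + 1) (0 + 1) = 1 / E := by
      rw [rn_explicit (L + 1) 0 (by omega)]
      norm_num
    rw [h1, h2]
    have hth : zth L ≤ 2 := by
      unfold zth
      have h5 : (1.5 : ℝ) / ((L : ℝ) + 4) ≤ 1 := by
        rw [div_le_one (by positivity)]
        have : (0 : ℝ) ≤ L := Nat.cast_nonneg L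
        linarith
      linarith
    have h6 : (0 : ℝ) < E := by linarith
    calc zth L * (1 / (2 * E ^ 2)) ≤ 2 * (1 / (2 * E ^ 2)) :=
          mul_le_mul_of_nonneg_right hth (by positivity)
      _ = 1 / E * (1 / E) := by field_simp
      _ ≤ 1 / E * 1 := by
          apply mul_le_mul_of_nonneg_left _ (by positivity)
          rw [div_le_one h6]
          linarith
      _ = 1 / E := by ring
  · obtain ⟨j, rfl⟩ : ∃ j, k = j + 1 := ⟨k - 1, by omega⟩
    have hE0 := E_pos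
    have h1 : rn (L + 1) (j + 1 + 2) = ww (j + 1) / (E * ((j : ℝ) + 3)) := by
      have h := zb_rn_eq (L + 1) (j + 1) (by omega)
      push_cast at h
      have e : (j : ℝ) + 1 + 2 = (j : ℝ) + 3 := by ring
      rw [e] at h
      exact h
    have h2 : rn (L + 1) (j + 1 + 1) = ww j / (E * ((j : ℝ) + 2)) := zb_rn_eq (L + 1) j (by omega)
    have h3 : ww (j + 1) = ww j * qq (j + 1) := by
      have e1 := E_ww' (j + 1)
      have e2 := E_ww' j
      have e3 := cE_succ_eq j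
      have e4 : E * ww (j + 1) = E * (ww j * qq (j + 1)) := by
        rw [e1, e3, ← e2]
        ring
      exact mul_left_cancel₀ hE0.ne' e4
    have h4 := qq_le (j + 1) (by omega)
    push_cast at h4
    rw [h1, h2, h3]
    have hw := ww_pos j
    have hx : (0 : ℝ) ≤ (j : ℝ) := Nat.cast_nonneg j
    have hLx : (j : ℝ) + 2 ≤ L := by exact_mod_cast (by omega : j + 2 ≤ L)
    set x : ℝ := (j : ℝ)
    have hQ1 : qq (j + 1) ≤ (2 * x + 4) / (2 * x + 5) := by
      refine h4.trans (le_of_eq ?_)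
      field_simp
      ring
    have hQ0 := zb_qq_pos (j + 1)
    have hth : zth L ≤ (x + 7.5) / (x + 6) := by
      unfold zth
      have h5 : (1.5 : ℝ) / ((L : ℝ) + 4) ≤ 1.5 / (x + 6) :=
        div_le_div_of_nonneg_left (by norm_num) (by linarith) (by linarith)
      have e : (x + 7.5) / (x + 6) = 1 + 1.5 / (x + 6) := by field_simp; ring
      rw [e]
      linarith
    have hth0 : 0 ≤ zth L := by linarith [zth_ge L]
    calc zth L * (ww j * qq (j + 1) / (E * (x + 3)))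
        ≤ (x + 7.5) / (x + 6) * (ww j * ((2 * x + 4) / (2 * x + 5)) / (E * (x + 3))) := by
          apply mul_le_mul hth _ (by positivity) (by positivity)
          apply div_le_div_of_nonneg_right _ (by positivity)
          exact mul_le_mul_of_nonneg_left hQ1 hw.le
      _ = ww j / E * ((x + 7.5) * (2 * x + 4) / ((x + 6) * (2 * x + 5) * (x + 3))) := by
          field_simp
      _ ≤ ww j / E * (1 / (x + 2)) := by
          apply mul_le_mul_of_nonneg_left _ (by positivity)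
          rw [div_le_div_iff₀ (by positivity) (by positivity)]
          nlinarith
      _ = ww j / (E * (x + 2)) := by field_simp

/-- `log (1 + x) ≥ 2 x / (2 + x)` -/
lemma zb_qq_ge (p : ℕ) (hp : 1 ≤ p) : 1 - 1 / (2 * (p : ℝ) + 1) ≤ qq p := by
  have hp1 : (1 : ℝ) ≤ p := by exact_mod_cast hp
  have hp0 : (0 : ℝ) < p := by linarith
  rw [qq_eq p hp]
  have h1 : 2 * (1 / (p : ℝ)) / (1 / (p : ℝ) + 2) ≤ Real.log (1 + 1 / (p : ℝ)) :=
    Real.le_log_one_add_of_nonneg (by positivity)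
  have h2 : (p : ℝ) * (2 * (1 / (p : ℝ)) / (1 / (p : ℝ) + 2)) = 2 * p / (2 * p + 1) := by
    field_simp
    ring
  have h3 : 2 * (p : ℝ) / (2 * p + 1) ≤ (p : ℝ) * Real.log (1 + 1 / (p : ℝ)) := by
    rw [← h2]
    exact mul_le_mul_of_nonneg_left h1 hp0.le
  have h4 : 2 * (p : ℝ) / (2 * p + 1) = 1 - 1 / (2 * p + 1) := by
    field_simp
    ring
  have h5 := Real.add_one_le_exp ((p : ℝ) * Real.log (1 + 1 / (p : ℝ)) - 1)
  linarith

lemma zb_thL_ge (L : ℕ) (hL : 1000 ≤ L) : 1 - 1.004 / (L : ℝ) ≤ thL L * zth L := by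
  have hL1 : (1000 : ℝ) ≤ L := by exact_mod_cast hL
  have hL0 : (0 : ℝ) < L := by linarith
  have h1 := zb_tn_succ_qq L
  have h2 := zb_qq_ge (L + 1) (by omega)
  push_cast at h2
  have ht := tn_pos L
  have e : thL L = ((L : ℝ) + 1) ^ 2 / ((L : ℝ) + 2) ^ 2 * qq (L + 1) := by
    unfold thL
    have h3 : tn (L + 1) = ((L : ℝ) + 1) * tn L * qq (L + 1) / ((L : ℝ) + 2) := by
      field_simp
      linarith
    rw [h3]
    field_simp
  rw [e]
  have h3 : (2 * (L : ℝ) + 2) / (2 * L + 3) ≤ qq (L + 1) := by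
    refine le_trans (le_of_eq ?_) h2
    field_simp
    ring
  have h4 : zth L = ((L : ℝ) + 5.5) / ((L : ℝ) + 4) := by
    unfold zth
    field_simp
    ring
  rw [h4]
  calc 1 - 1.004 / (L : ℝ) ≤ ((L : ℝ) + 1) ^ 2 / ((L : ℝ) + 2) ^ 2 * ((2 * (L : ℝ) + 2) / (2 * L + 3)) *
        (((L : ℝ) + 5.5) / ((L : ℝ) + 4)) := by
        rw [div_mul_div_comm, div_mul_div_comm]
        have e1 : 1 - 1.004 / (L : ℝ) = ((L : ℝ) - 1.004) / L := by field_simp
        rw [e1, div_le_div_iff₀ hL0 (by positivity)]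
        obtain ⟨y, hy⟩ : ∃ y : ℝ, (L : ℝ) = 1000 + y := ⟨L - 1000, by ring⟩
        have hy0 : 0 ≤ y := by linarith
        rw [hy]
        have : 0 ≤ (1000 + y + 1) ^ 2 * (2 * (1000 + y) + 2) * (1000 + y + 5.5) * (1000 + y) -
            (1000 + y - 1.004) * ((1000 + y + 2) ^ 2 * (2 * (1000 + y) + 3) * (1000 + y + 4)) := by
          ring_nf
          positivity
        linarith
    _ ≤ ((L : ℝ) + 1) ^ 2 / ((L : ℝ) + 2) ^ 2 * qq (L + 1) * (((L : ℝ) + 5.5) / ((L : ℝ) + 4)) := by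
        apply mul_le_mul_of_nonneg_right _ (by positivity)
        exact mul_le_mul_of_nonneg_left h3 (by positivity)

lemma zb_thL_le (L : ℕ) : 0 ≤ 1 - thL L * zth L := by
  have hL0 : (0 : ℝ) ≤ L := Nat.cast_nonneg L
  have h1 := zb_tn_succ_qq L
  have h2 := qq_le (L + 1) (by omega)
  push_cast at h2
  have ht := tn_pos L
  have hq0 := zb_qq_pos (L + 1)
  have hq1 : qq (L + 1) ≤ 1 := by
    have : (0 : ℝ) ≤ 1 / (2 * ((L : ℝ) + 1) + 3) := by positivity
    linarith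
  have e : thL L = ((L : ℝ) + 1) ^ 2 / ((L : ℝ) + 2) ^ 2 * qq (L + 1) := by
    unfold thL
    have h3 : tn (L + 1) = ((L : ℝ) + 1) * tn L * qq (L + 1) / ((L : ℝ) + 2) := by
      field_simp
      linarith
    rw [h3]
    field_simp
  have h4 : zth L = ((L : ℝ) + 5.5) / ((L : ℝ) + 4) := by
    unfold zth
    field_simp
    ring
  rw [e, h4]
  have h5 : ((L : ℝ) + 1) ^ 2 / ((L : ℝ) + 2) ^ 2 * qq (L + 1) * (((L : ℝ) + 5.5) / ((L : ℝ) + 4)) ≤
      ((L : ℝ) + 1) ^ 2 / ((L : ℝ) + 2) ^ 2 * 1 * (((L : ℝ) + 5.5) / ((L : ℝ) + 4)) := by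
    apply mul_le_mul_of_nonneg_right _ (by positivity)
    exact mul_le_mul_of_nonneg_left hq1 (by positivity)
  have h6 : ((L : ℝ) + 1) ^ 2 / ((L : ℝ) + 2) ^ 2 * 1 * (((L : ℝ) + 5.5) / ((L : ℝ) + 4)) ≤ 1 := by
    rw [mul_one, div_mul_div_comm, div_le_one (by positivity)]
    nlinarith [mul_nonneg hL0 hL0]
  linarith

/-- chord of the exponential -/
lemma zb_chord {y y0 c : ℝ} (h0 : 0 ≤ y) (h1 : y ≤ y0) (hy0 : 0 < y0)
    (hc : Real.exp y0 ≤ 1 + c * y0) : Real.exp y ≤ 1 + c * y := by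
  have hl0 : 0 ≤ y / y0 := div_nonneg h0 hy0.le
  have hl1 : y / y0 ≤ 1 := (div_le_one hy0).mpr h1
  have h := convexOn_exp.2 (Set.mem_univ (0 : ℝ)) (Set.mem_univ y0) (by linarith : 0 ≤ 1 - y / y0) hl0
    (by ring)
  simp only [smul_eq_mul, mul_zero, zero_add, Real.exp_zero, mul_one] at h
  have e : y / y0 * y0 = y := by field_simp
  rw [e] at h
  have h3 := mul_le_mul_of_nonneg_left hc hl0
  have e2 : y / y0 * (1 + c * y0) = y / y0 + c * y := by
    have : y / y0 * (c * y0) = c * y := by field_simp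
    rw [mul_add, this, mul_one]
  linarith

lemma zb_exp3 : Real.exp 3 ≤ 20.0856 := by
  have h := Real.exp_one_lt_d9
  have e : Real.exp 3 = Real.exp 1 ^ 3 := by rw [← Real.exp_nat_mul]; norm_num
  rw [e]
  have h0 := Real.exp_pos 1
  calc Real.exp 1 ^ 3 ≤ 2.7182818286 ^ 3 := pow_le_pow_left₀ h0.le h.le 3
    _ ≤ 20.0856 := by norm_num

lemma zb_exp15 : Real.exp 1.5 ≤ 4.4818 := by
  have e : Real.exp 1.5 ^ 2 = Real.exp 3 := by rw [← Real.exp_nat_mul]; norm_num
  have h := zb_exp3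
  by_contra hc
  push Not at hc
  have h2 : (4.4818 : ℝ) ^ 2 < Real.exp 1.5 ^ 2 := pow_lt_pow_left₀ hc (by norm_num) (by norm_num)
  rw [e] at h2
  norm_num at h2
  linarith

lemma zb_exp06 : Real.exp 0.6 ≤ 1.8222 := by
  have e : Real.exp 0.6 ^ 5 = Real.exp 3 := by rw [← Real.exp_nat_mul]; norm_num
  have h := zb_exp3
  by_contra hc
  push Not at hc
  have h2 : (1.8222 : ℝ) ^ 5 < Real.exp 0.6 ^ 5 := pow_lt_pow_left₀ hc (by norm_num) (by norm_num)
  rw [e] at h2
  norm_num at h2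
  linarith

lemma zb_exp075 : Real.exp 0.75 ≤ 2.1171 := by
  have e : Real.exp 0.75 ^ 4 = Real.exp 3 := by rw [← Real.exp_nat_mul]; norm_num
  have h := zb_exp3
  by_contra hc
  push Not at hc
  have h2 : (2.1171 : ℝ) ^ 4 < Real.exp 0.75 ^ 4 := pow_lt_pow_left₀ hc (by norm_num) (by norm_num)
  rw [e] at h2
  norm_num at h2
  linarith

lemma zth_pow_le (L k : ℕ) : zth L ^ k ≤ Real.exp (1.5 / ((L : ℝ) + 4) * k) := by
  have h := Real.add_one_le_exp (1.5 / ((L : ℝ) + 4))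
  have h1 : zth L ≤ Real.exp (1.5 / ((L : ℝ) + 4)) := by
    unfold zth
    linarith
  have h2 := pow_le_pow_left₀ (by linarith [zth_ge L]) h1 k
  rw [← Real.exp_nat_mul] at h2
  refine h2.trans (le_of_eq ?_)
  congr 1
  ring

/-- exponential sums of `tn` -/
lemma zb_sum (L K : ℕ) (y0 c : ℝ) (hy0 : 0 < y0) (hc0 : 0 ≤ c) (hc : Real.exp y0 ≤ 1 + c * y0)
    (hK : 1.5 * (K : ℝ) ≤ y0 * ((L : ℝ) + 4)) :
    ∑ k ∈ range K, zth L ^ k * tn k ≤ E - 2 * cA / sq K + 3 * c * cA * √(K : ℝ) / ((L : ℝ) + 4) := by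
  have hL4 : (0 : ℝ) < (L : ℝ) + 4 := by positivity
  have h1 : ∀ k ∈ range K, zth L ^ k * tn k ≤ tn k + (1.5 * c * cA / ((L : ℝ) + 4)) * (1 / sq k) := by
    intro k hk
    have hk' : (k : ℝ) ≤ K := by exact_mod_cast (mem_range.mp hk).le
    have ht := tn_pos k
    have hy : 1.5 / ((L : ℝ) + 4) * k ≤ y0 := by
      rw [div_mul_eq_mul_div, div_le_iff₀ hL4]
      linarith
    have h2 := (zth_pow_le L k).trans (zb_chord (by positivity) hy hy0 hc)
    have h3 := mul_le_mul_of_nonneg_right h2 ht.le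
    have h4 := tn_le_cA k
    have hsq := sq_pos k
    have h5 : (k : ℝ) * tn k ≤ cA / sq k := by
      have h6 : (k : ℝ) * tn k ≤ ((k : ℝ) + 1) * tn k := mul_le_mul_of_nonneg_right (by linarith) ht.le
      refine h6.trans ?_
      calc ((k : ℝ) + 1) * tn k ≤ ((k : ℝ) + 1) * (cA / (((k : ℝ) + 1) * sq k)) :=
            mul_le_mul_of_nonneg_left h4 (by positivity)
        _ = cA / sq k := by field_simp
    have h7 : (1 + c * (1.5 / ((L : ℝ) + 4) * k)) * tn k = tn k + (1.5 * c / ((L : ℝ) + 4)) * (k * tn k) := by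
      field_simp
    rw [h7] at h3
    refine h3.trans ?_
    have h8 := mul_le_mul_of_nonneg_left h5 (by positivity : 0 ≤ 1.5 * c / ((L : ℝ) + 4))
    have e : 1.5 * c / ((L : ℝ) + 4) * (cA / sq k) = (1.5 * c * cA / ((L : ℝ) + 4)) * (1 / sq k) := by
      field_simp
    linarith
  have h2 := Finset.sum_le_sum h1
  rw [Finset.sum_add_distrib, ← Finset.mul_sum] at h2
  have h3 := sum_inv_sq K
  have hcA := cA_pos
  have h4 := mul_le_mul_of_nonneg_left h3 (by positivity : 0 ≤ 1.5 * c * cA / ((L : ℝ) + 4))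
  have h5 := le_E_sub_sum K
  have e : 1.5 * c * cA / ((L : ℝ) + 4) * (2 * √(K : ℝ)) = 3 * c * cA * √(K : ℝ) / ((L : ℝ) + 4) := by
    field_simp
    ring
  linarith

end Pool.Agent.MP_9da1e3_co
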