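import Pool.Agent.Lib.MP_9da1e3_co.V2_ZB2
import Pool.Agent.Lib.MP_9da1e3_co.V2_A12

/-! The far range `L / 2 < m`, `m ≤ L + 1`: the induction step of `bb_L(m) ≥ 0`. -/

namespace Pool.Agent.MP_9da1e3_co

open Finset

lemma zb_zT_TS2 (k : ℕ) : zT k = TS2 k := (TS2_eq_sum k).symm

lemma zb_ww_le (k : ℕ) : ww k ≤ U / sq k := by
  have h := cc_le k
  have hp := pow_pos E_pos (k + 1)
  unfold ww
  rw [div_le_iff₀ hp]
  refine h.trans (le_of_eq ?_)
  ring

lemma zb_Zbound (L K : ℕ) (hL : 1000 ≤ L) (hK : K ≤ L) :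
    ∑ k ∈ range K, zth L ^ k * zT k ≤ 8.35 := by
  have hL1 : (1000 : ℝ) ≤ L := by exact_mod_cast hL
  have hK1 : (K : ℝ) ≤ L := by exact_mod_cast hK
  have h := zb_sum L K 1.5 2.3214 (by norm_num) (by norm_num)
    (by have := zb_exp15; norm_num at this ⊢; linarith) (by linarith)
  have hsq := zb_sq tn (fun i => (tn_pos i).le) (zth L) (by linarith [zth_ge L]) K
  have e : ∑ k ∈ range K, zth L ^ k * zT k =
      ∑ k ∈ range K, zth L ^ k * ∑ i ∈ range (k + 1), tn i * tn (k - i) := rfl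
  rw [e]
  refine hsq.trans ?_
  have h0 : 0 ≤ ∑ k ∈ range K, zth L ^ k * tn k :=
    Finset.sum_nonneg fun i _ => mul_nonneg (pow_nonneg (by linarith [zth_ge L]) i) (tn_pos i).le
  have hv := sq_pos K
  have hvv := sq_sq K
  have hcA := cA_lt
  have hcA0 := cA_pos
  have hE := E_le
  have hL4 : (0 : ℝ) < (L : ℝ) + 4 := by linarith
  have hKv : √(K : ℝ) ≤ sq K := by
    unfold sq
    exact Real.sqrt_le_sqrt (by linarith)
  set v : ℝ := sq K with hvdef
  have h1 : v / ((L : ℝ) + 4) ≤ 1 / v := by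
    rw [div_le_div_iff₀ hL4 hv]
    nlinarith
  have h2 : v / ((L : ℝ) + 4) ≤ 0.03157 := by
    rw [div_le_iff₀ hL4]
    by_contra hc
    push Not at hc
    have h3 : (0.03157 * ((L : ℝ) + 4)) ^ 2 < v ^ 2 := pow_lt_pow_left₀ hc (by positivity) (by norm_num)
    nlinarith
  have h3 : 3 * 2.3214 * cA * √(K : ℝ) / ((L : ℝ) + 4) ≤ 3 * 2.3214 * cA * (v / ((L : ℝ) + 4)) := by
    rw [mul_div_assoc]
    apply mul_le_mul_of_nonneg_left _ (by positivity)
    exact div_le_div_of_nonneg_right hKv hL4.le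
  have h4 : 2 * cA * (v / ((L : ℝ) + 4)) ≤ 2 * cA / v := by
    have := mul_le_mul_of_nonneg_left h1 (by positivity : 0 ≤ 2 * cA)
    refine this.trans (le_of_eq ?_)
    ring
  have h5 : ∑ k ∈ range K, zth L ^ k * tn k ≤ 2.8896 := by
    have h6 : 4.9642 * cA * (v / ((L : ℝ) + 4)) ≤ 4.9642 * 1.08444 * 0.03157 := by
      apply mul_le_mul _ h2 (by positivity) (by norm_num)
      nlinarith
    have h7 : 3 * 2.3214 * cA * (v / ((L : ℝ) + 4)) - 2 * cA * (v / ((L : ℝ) + 4)) =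
        4.9642 * cA * (v / ((L : ℝ) + 4)) := by ring
    norm_num at h6 h7 hE ⊢
    linarith
  have h8 := pow_le_pow_left₀ h0 h5 2
  norm_num at h8 ⊢
  linarith

lemma zb_zT_low (k : ℕ) (hk : 498 ≤ k) :
    14.74 * U / (((k : ℝ) + 2) * sq (k + 1)) ≤ zT k := by
  have hx : (498 : ℝ) ≤ k := by exact_mod_cast hk
  have h1 := zT_eq k
  have h2 := le_tn_cA (k + 1)
  have hs := sq_pos (k + 1)
  have hU := U_pos
  have hE : (2.7182 : ℝ) ≤ E := E_ge3
  have hE0 := E_pos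
  push_cast at h2
  have e2 : (k : ℝ) + 1 + 1 = (k : ℝ) + 2 := by ring
  rw [e2] at h2
  set x : ℝ := (k : ℝ) with hxdef
  set s : ℝ := sq (k + 1) with hsdef
  have h3 : zT k = 2 * E * ((x + 1) * tn (k + 1)) / (x + 2) := by
    field_simp
    linarith
  rw [h3]
  have h4 : 0.9998 * cA / ((x + 2) * s) ≤ tn (k + 1) := by
    refine le_trans ?_ h2
    apply div_le_div_of_nonneg_right _ (by positivity)
    have h5 : (1 : ℝ) / (12 * (x + 2)) ≤ 0.0002 := by
      rw [div_le_iff₀ (by positivity)]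
      linarith
    have hcA := cA_pos
    nlinarith
  have h5 : 0.9979 ≤ (x + 1) / (x + 2) := by
    rw [le_div_iff₀ (by positivity)]
    linarith
  have h6 : 2 * E * ((x + 1) * tn (k + 1)) / (x + 2) = 2 * E * ((x + 1) / (x + 2)) * tn (k + 1) := by
    ring
  rw [h6]
  have hE2 : (7.3886 : ℝ) ≤ E * E := by nlinarith
  calc 14.74 * U / ((x + 2) * s) ≤ (2 * 0.9979 * 0.9998 * (E * E)) * (U / ((x + 2) * s)) := by
        rw [mul_div_assoc]
        apply mul_le_mul_of_nonneg_right _ (by positivity)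
        nlinarith
    _ = 2 * E * 0.9979 * (0.9998 * cA / ((x + 2) * s)) := by
        unfold cA
        ring
    _ ≤ 2 * E * ((x + 1) / (x + 2)) * tn (k + 1) := by
        apply mul_le_mul _ h4 _ (by positivity)
        · apply mul_le_mul_of_nonneg_left h5 (by positivity)
        · have := cA_pos
          positivity

/-- the step with the explicit inequality as hypothesis, in the language of `bb` -/
lemma zb_step (L m0 d : ℕ) (hL : 1 ≤ L) (hd : 1 ≤ d) (hmL : m0 + d ≤ L)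
    (hneg : ∀ r, r ≤ m0 → bb L r ≤ 0) (hpos : ∀ r, m0 < r → r ≤ m0 + d → 0 ≤ bb L r)
    (Z : ℝ) (hZ : ∑ k ∈ range (m0 + d), zth L ^ k * zT k ≤ Z)
    (hZB : (E * ((L : ℝ) + ((m0 + d + 1 : ℕ) : ℝ)) * rn (L + 1) d) *
      ((1 - thL L * zth L) * Z / zth L ^ m0 + zth L ^ (d - 1) * zT (m0 + d - 1)) ≤
        2 * zT (m0 + d - 1)) :
    0 ≤ bb L (m0 + d + 1) := by
  have e0 : bb L (m0 + d + 1) = Bn L (L + (m0 + d + 1)) := bb_eq_Bn' L (m0 + d)
  rw [e0]
  have q1 : m0 + d + 1 - m0 - 1 = d := by omega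
  have q2 : m0 + d + 1 - m0 - 2 = d - 1 := by omega
  have q3 : m0 + d + 1 - 2 = m0 + d - 1 := by omega
  have q4 : m0 + d + 1 - 1 = m0 + d := by omega
  refine zb_core L m0 (m0 + d + 1) (by omega) (by omega) (zth L) (zth_ge L) zT (rn (L + 1)) (rhoL L)
    (rhoL_nonneg L hL) (fun j hj => rhoL_zero L j hj) ?_ zT_pos (fun k hk => zT_ratio L k hk)
    (fun k => rn_nonneg (L + 1) k) (fun k hk => zb_r_ratio L k hk) ?_ ?_ ?_
    (E * ((L : ℝ) + ((m0 + d + 1 : ℕ) : ℝ)) * rn (L + 1) d) Z ?_ ?_ (zb_thL_le L) ?_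
  · intro n hn
    rw [An_eq_TS2 L n hn]
    apply Finset.sum_congr rfl
    intro j _
    rw [zb_zT_TS2]
  · have h := Bn_rj L (L + (m0 + d)) (by omega) (by omega)
    have hB : 0 ≤ Bn L (L + (m0 + d)) := by
      have h2 := hpos (m0 + d) (by omega) le_rfl
      obtain ⟨q, hq⟩ : ∃ q, m0 + d = q + 1 := ⟨m0 + d - 1, by omega⟩
      rw [hq] at h2 ⊢
      rw [bb_eq_Bn' L q] at h2
      exact h2
    have e1 : L + (m0 + d + 1) = L + (m0 + d) + 1 := by ring
    have e2 : L + (m0 + d + 1) - 1 = L + (m0 + d) := by omega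
    have e3 : (L : ℝ) + ((m0 + d + 1 : ℕ) : ℝ) = ((L + (m0 + d) : ℕ) : ℝ) + 1 := by
      push_cast
      ring
    have e4 : ∑ j ∈ range (L + (m0 + d + 1)), rn (L + 1) (L + (m0 + d + 1) - j) * Bn L j =
        ∑ j ∈ range (L + (m0 + d) + 1), Bn L j * rn (L + 1) (L + (m0 + d) + 1 - j) := by
      rw [e1]
      apply Finset.sum_congr rfl
      intro j _
      ring
    rw [e4, e2, e3, e1]
    have h3 : 0 ≤ ((L : ℝ) + 2) * Bn L (L + (m0 + d)) := mul_nonneg (by positivity) hB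
    nlinarith
  · intro j hj
    rcases Nat.lt_or_ge L j with h | h
    · obtain ⟨q, rfl⟩ : ∃ q, j = L + q + 1 := ⟨j - L - 1, by omega⟩
      rw [← bb_eq_Bn' L q]
      exact hneg (q + 1) (by omega)
    · rw [Bn_zero' L j h]
  · intro j hj1 hj2
    obtain ⟨q, rfl⟩ : ∃ q, j = L + q + 1 := ⟨j - L - 1, by omega⟩
    rw [← bb_eq_Bn' L q]
    exact hpos (q + 1) (by omega) (by omega)
  · rw [q1]
  · rw [q4]
    exact hZ
  · rw [q2, q3]
    exact hZB

end Pool.Agent.MP_9da1e3_co
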