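import Pool.Agent.Lib.MP_9da1e3_co.Lf1
import Pool.Agent.Lib.MP_9da1e3_co.Ct1

namespace Pool.Agent.MP_9da1e3_co

open Finset

/-! An exact summation identity for `HH` and the resulting bound of `∑ HH`. -/

noncomputable def yT (k : ℕ) : ℝ := ∑ j ∈ range k, tn j

noncomputable def yC (k : ℕ) : ℝ := ∑ j ∈ range k, cE j

lemma yT_succ (k : ℕ) : yT (k + 1) = yT k + tn k := by
  unfold yT; rw [Finset.sum_range_succ]

lemma yC_succ (k : ℕ) : yC (k + 1) = yC k + cE k := by
  unfold yC; rw [Finset.sum_range_succ]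

lemma yT_zero : yT 0 = 0 := by simp [yT]

lemma yC_zero : yC 0 = 0 := by simp [yC]

lemma yC_eq (k : ℕ) : yC k = E * WW k := by
  unfold yC WW
  rw [Finset.mul_sum]
  apply Finset.sum_congr rfl
  intro j _
  rw [E_ww]
  rfl

/-- the exact convolution `t * C` -/
lemma conv_tC (y : ℕ) : ∑ j ∈ range y, tn j * yC (y - 1 - j) = E * (yC y - yT y) := by
  have hE := E_pos
  have h := WW_eq y
  have e1 : ∑ j ∈ range y, tn j / E * (1 + WW (y - 1 - j)) =
      (∑ j ∈ range y, tn j * (1 + WW (y - 1 - j))) / E := by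
    rw [Finset.sum_div]
    apply Finset.sum_congr rfl
    intro j _
    ring
  rw [e1] at h
  have h2 : E * WW y = ∑ j ∈ range y, tn j * (1 + WW (y - 1 - j)) := by
    rw [h]
    field_simp
  have h3 : ∑ j ∈ range y, tn j * (1 + WW (y - 1 - j)) = yT y + ∑ j ∈ range y, tn j * WW (y - 1 - j) := by
    unfold yT
    rw [← Finset.sum_add_distrib]
    apply Finset.sum_congr rfl
    intro j _
    ring
  have h4 : ∑ j ∈ range y, tn j * yC (y - 1 - j) = E * ∑ j ∈ range y, tn j * WW (y - 1 - j) := by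
    rw [Finset.mul_sum]
    apply Finset.sum_congr rfl
    intro j _
    rw [yC_eq]
    ring
  rw [h4, yC_eq y, h2, h3]
  ring

/-- exchange of a double sum -/
lemma exch1 (a t : ℕ → ℝ) (M : ℕ) : ∑ m ∈ range M, ∑ i ∈ range (M - (m + 1)), a i * t (m + 1 + i) =
    ∑ k ∈ range M, t k * ∑ i ∈ range k, a i := by
  induction M with
  | zero => simp
  | succ M ih =>
    rw [Finset.sum_range_succ, Finset.sum_range_succ (fun k => t k * ∑ i ∈ range k, a i) M, ← ih]
    have e0 : M + 1 - (M + 1) = 0 := by omega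
    rw [e0, Finset.sum_range_zero, add_zero]
    have e1 : ∀ m ∈ range M, ∑ i ∈ range (M + 1 - (m + 1)), a i * t (m + 1 + i) =
        ∑ i ∈ range (M - (m + 1)), a i * t (m + 1 + i) + a (M - 1 - m) * t M := by
      intro m hm
      have hm' := mem_range.mp hm
      have e2 : M + 1 - (m + 1) = (M - (m + 1)) + 1 := by omega
      rw [e2, Finset.sum_range_succ]
      have e3 : m + 1 + (M - (m + 1)) = M := by omega
      have e4 : M - (m + 1) = M - 1 - m := by omega
      rw [e3, ← e4]
    rw [Finset.sum_congr rfl e1, Finset.sum_add_distrib, ← Finset.sum_mul,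
      Finset.sum_range_reflect a M]
    ring

/-- exchange of a convolution sum -/
lemma exch2 (w u : ℕ → ℝ) (M : ℕ) : ∑ m ∈ range M, ∑ j ∈ range (m + 1), w j * u (m - j) =
    ∑ i ∈ range M, u i * ∑ j ∈ range (M - i), w j := by
  induction M with
  | zero => simp
  | succ M ih =>
    rw [Finset.sum_range_succ, ih, Finset.sum_range_succ (fun i => u i * ∑ j ∈ range (M + 1 - i), w j) M]
    have e1 : ∀ i ∈ range M, u i * ∑ j ∈ range (M + 1 - i), w j =
        u i * ∑ j ∈ range (M - i), w j + u i * w (M - i) := by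
      intro i hi
      have hi' := mem_range.mp hi
      have e2 : M + 1 - i = (M - i) + 1 := by omega
      rw [e2, Finset.sum_range_succ]
      ring
    rw [Finset.sum_congr rfl e1, Finset.sum_add_distrib]
    have e3 : M + 1 - M = 1 := by omega
    rw [e3, Finset.sum_range_one]
    have e4 := sum_rev (fun i => u i * w (M - i)) M
    have e5 : ∑ k ∈ range (M + 1), u (M - k) * w (M - (M - k)) = ∑ j ∈ range (M + 1), w j * u (M - j) := by
      apply Finset.sum_congr rfl
      intro j hj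
      have hj' := mem_range.mp hj
      have e6 : M - (M - j) = j := by omega
      rw [e6]
      ring
    rw [← e5, e4, Finset.sum_range_succ, Nat.sub_self]
    ring

lemma sum_cE_top (L k : ℕ) (hk : k ≤ L) : ∑ i ∈ range k, cE (L - 1 - i) = yC L - yC (L - k) := by
  induction k with
  | zero => simp
  | succ k ih =>
    rw [Finset.sum_range_succ, ih (by omega)]
    have e1 : L - k = (L - (k + 1)) + 1 := by omega
    have e2 : L - 1 - k = L - (k + 1) := by omega
    rw [e1, e2, yC_succ]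
    have e3 : L - (k + 1) + 1 - (k + 1) = L - (k + 1) + 1 - (k + 1) := rfl
    ring

/-- the exact sum of the `MM` -/
lemma sum_MM (L : ℕ) (hL : 1 ≤ L) : ∑ m ∈ range L, MM L (m + 1) =
    yC L * yT L - E * yC (L + 1) + E * yT (L + 1) := by
  unfold MM
  rw [exch1 (fun i => cE (L - 1 - i)) tn L]
  have e1 : ∀ k ∈ range L, tn k * ∑ i ∈ range k, cE (L - 1 - i) = yC L * tn k - tn k * yC (L - k) := by
    intro k hk
    have hk' := mem_range.mp hk
    rw [sum_cE_top L k hk'.le]
    ring
  rw [Finset.sum_congr rfl e1, Finset.sum_sub_distrib, ← Finset.mul_sum]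
  have h := conv_tC (L + 1)
  rw [Finset.sum_range_succ] at h
  have e2 : L + 1 - 1 - L = 0 := by omega
  rw [e2, yC_zero, mul_zero, add_zero] at h
  have e3 : ∑ k ∈ range L, tn k * yC (L + 1 - 1 - k) = ∑ k ∈ range L, tn k * yC (L - k) := by
    apply Finset.sum_congr rfl
    intro k _
    rw [Nat.add_sub_cancel]
  rw [e3] at h
  rw [h]
  unfold yT
  ring

/-- THE EXACT IDENTITY -/
theorem sum_HH_id (L : ℕ) (hL : 1 ≤ L) :
    ∑ i ∈ range L, HH L i * (E * ((L : ℝ) + i) - ((L : ℝ) + 1) * yT (L - i) - yC (L - i)) +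
      2 * E * L * HH L L = E * yT L - yC L * (E - yT L) := by
  have h1 : ∑ m ∈ range L, E * (((L : ℝ) + ((m : ℝ) + 1)) * HH L (m + 1)) =
      ∑ m ∈ range L, (∑ j ∈ range (m + 1), (((L : ℝ) + j + 2) * tn j) * HH L (m - j)) +
      ∑ m ∈ range L, MM L (m + 1) := by
    rw [← Finset.sum_add_distrib]
    apply Finset.sum_congr rfl
    intro m hm
    have hm' := mem_range.mp hm
    rw [HH_rec L m (by omega)]
    congr 1
    apply Finset.sum_congr rfl
    intro j _
    ring
  rw [exch2 (fun j => ((L : ℝ) + j + 2) * tn j) (HH L) L, sum_MM L hL] at h1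
  have h2 : ∑ m ∈ range L, E * (((L : ℝ) + ((m : ℝ) + 1)) * HH L (m + 1)) =
      ∑ i ∈ range L, E * (((L : ℝ) + i) * HH L i) + 2 * E * L * HH L L - E * L * tn L := by
    have h3 := Finset.sum_range_succ' (fun i : ℕ => E * (((L : ℝ) + i) * HH L i)) L
    have h4 := Finset.sum_range_succ (fun i : ℕ => E * (((L : ℝ) + i) * HH L i)) L
    rw [h4] at h3
    simp only [Nat.cast_add, Nat.cast_one, Nat.cast_zero] at h3
    rw [HH_zero] at h3
    linarith
  have h5 : ∀ i ∈ range L, HH L i * ∑ j ∈ range (L - i), (((L : ℝ) + j + 2) * tn j) =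
      HH L i * (((L : ℝ) + 1) * yT (L - i) + yC (L - i)) := by
    intro i _
    congr 1
    unfold yT yC cE
    rw [Finset.mul_sum, ← Finset.sum_add_distrib]
    apply Finset.sum_congr rfl
    intro j _
    ring
  rw [Finset.sum_congr rfl h5, h2] at h1
  have h6 : ∑ i ∈ range L, HH L i * (E * ((L : ℝ) + i) - ((L : ℝ) + 1) * yT (L - i) - yC (L - i)) =
      ∑ i ∈ range L, E * (((L : ℝ) + i) * HH L i) -
      ∑ i ∈ range L, HH L i * (((L : ℝ) + 1) * yT (L - i) + yC (L - i)) := by
    rw [← Finset.sum_sub_distrib]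
    apply Finset.sum_congr rfl
    intro i _
    ring
  rw [h6]
  rw [yC_succ, yT_succ] at h1
  have h7 : cE L = ((L : ℝ) + 1) * tn L := rfl
  rw [h7] at h1
  linarith

/-- the tail is at least twice `(k + 1) t_k` -/
lemma yh_tail_ge_two (k : ℕ) : 2 * cE k ≤ E - yT k := by
  have h1 := le_E_sub_sum k
  have h2 := tn_le_cA k
  have hs : 0 < sq k := sq_pos k
  have hk : (0 : ℝ) < (k : ℝ) + 1 := by positivity
  have h3 : cE k ≤ cA / sq k := by
    unfold cE
    calc ((k : ℝ) + 1) * tn k ≤ ((k : ℝ) + 1) * (cA / (((k : ℝ) + 1) * sq k)) :=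
          mul_le_mul_of_nonneg_left h2 hk.le
      _ = cA / sq k := by field_simp
  have h4 : 2 * cA / sq k = 2 * (cA / sq k) := by ring
  rw [h4] at h1
  unfold yT
  linarith

/-- `C_k ≤ k * tail_k` -/
lemma yC_le (k : ℕ) : yC k ≤ (k : ℝ) * (E - yT k) := by
  induction k with
  | zero => simp [yC_zero]
  | succ k ih =>
    have h := yh_tail_ge_two k
    have h7 : cE k = ((k : ℝ) + 1) * tn k := rfl
    rw [yC_succ, yT_succ]
    push_cast
    rw [h7] at h ⊢
    linarith

lemma yT_le (k : ℕ) : yT k ≤ E := sum_tn_le k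

lemma HH_le_tn (L i : ℕ) : HH L i ≤ tn L := by
  unfold HH
  have h := Fn_le_of_le (L + 1) (show L ≤ L + i by omega)
  rwa [Fn_eq_tn (L + 1) L (by omega)] at h

/-- the first moment of `HH` -/
theorem moment_HH (L : ℕ) (hL : 1 ≤ L) :
    E * ∑ i ∈ range L, HH L i * ((i : ℝ) - 1) + 2 * E * L * HH L L ≤
      E * yT L - yC L * (E - yT L) := by
  rw [← sum_HH_id L hL]
  have h : E * ∑ i ∈ range L, HH L i * ((i : ℝ) - 1) ≤
      ∑ i ∈ range L, HH L i * (E * ((L : ℝ) + i) - ((L : ℝ) + 1) * yT (L - i) - yC (L - i)) := by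
    rw [Finset.mul_sum]
    apply Finset.sum_le_sum
    intro i hi
    have hi' := mem_range.mp hi
    have h1 := yC_le (L - i)
    have h2 := yT_le (L - i)
    have h3 := HH_nonneg L i
    have e1 : ((L - i : ℕ) : ℝ) = (L : ℝ) - i := by rw [Nat.cast_sub hi'.le]
    rw [e1] at h1
    have hi0 : (0 : ℝ) ≤ i := Nat.cast_nonneg i
    have h4 : E * ((i : ℝ) - 1) ≤ E * ((L : ℝ) + i) - ((L : ℝ) + 1) * yT (L - i) - yC (L - i) := by
      have h5 : 0 ≤ (i : ℝ) * (E - yT (L - i)) := mul_nonneg hi0 (by linarith)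
      linarith
    have h6 := mul_le_mul_of_nonneg_left h4 h3
    linarith
  linarith

/-- linear programming bound of the sum -/
theorem sum_HH_le_z (L z : ℕ) (hL : 1 ≤ L) (hz : 1 ≤ z) :
    ∑ i ∈ range L, HH L i ≤ tn L * ((z : ℝ) / 2 + 3 / 2 + 1 / (z : ℝ)) +
      (E * yT L - yC L * (E - yT L)) / (E * z) := by
  have hE := E_pos
  have hz0 : (0 : ℝ) < z := by exact_mod_cast hz
  have h1 := moment_HH L hL
  have h0 : 0 ≤ 2 * E * L * HH L L := by
    have := HH_nonneg L L
    positivity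
  have hT := tn_pos L
  -- termwise
  have h2 : ∀ i ∈ range L, HH L i ≤ tn L * max 0 (1 - ((i : ℝ) - 1) / z) + HH L i * ((i : ℝ) - 1) / z := by
    intro i _
    have h3 := HH_nonneg L i
    have h4 := HH_le_tn L i
    have h5 : HH L i * (1 - ((i : ℝ) - 1) / z) ≤ tn L * max 0 (1 - ((i : ℝ) - 1) / z) := by
      calc HH L i * (1 - ((i : ℝ) - 1) / z) ≤ HH L i * max 0 (1 - ((i : ℝ) - 1) / z) :=
            mul_le_mul_of_nonneg_left (le_max_right _ _) h3
        _ ≤ _ := mul_le_mul_of_nonneg_right h4 (le_max_left _ _)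
    have h6 : HH L i * (1 - ((i : ℝ) - 1) / z) = HH L i - HH L i * ((i : ℝ) - 1) / z := by ring
    linarith
  have h3 := Finset.sum_le_sum h2
  rw [Finset.sum_add_distrib, ← Finset.mul_sum, ← Finset.sum_div] at h3
  have h4 : (∑ i ∈ range L, HH L i * ((i : ℝ) - 1)) / z ≤ (E * yT L - yC L * (E - yT L)) / (E * z) := by
    rw [div_le_div_iff₀ hz0 (by positivity)]
    have h5 : E * (∑ i ∈ range L, HH L i * ((i : ℝ) - 1)) ≤ E * yT L - yC L * (E - yT L) := by linarith
    have h6 := mul_le_mul_of_nonneg_right h5 hz0.le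
    linarith
  have h7 : ∑ i ∈ range L, max 0 (1 - ((i : ℝ) - 1) / z) ≤ (z : ℝ) / 2 + 3 / 2 + 1 / (z : ℝ) := by
    have h8 : ∀ M : ℕ, ∑ j ∈ range M, max (0 : ℝ) (1 - (j : ℝ) / z) ≤ ((z : ℝ) + 1) / 2 := by
      intro M
      have h9 : ∑ j ∈ range M, max (0 : ℝ) (1 - (j : ℝ) / z) ≤ ∑ j ∈ range (M + z), max (0 : ℝ) (1 - (j : ℝ) / z) := by
        apply Finset.sum_le_sum_of_subset_of_nonneg
        · intro x hx
          have := mem_range.mp hx
          exact mem_range.mpr (by omega)
        · intro x _ _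
          exact le_max_left _ _
      refine h9.trans ?_
      rw [add_comm M z, Finset.sum_range_add]
      have h10 : ∑ x ∈ range M, max (0 : ℝ) (1 - ((z + x : ℕ) : ℝ) / z) = 0 := by
        apply Finset.sum_eq_zero
        intro x _
        apply max_eq_left
        rw [sub_nonpos, le_div_iff₀ hz0]
        push_cast
        have : (0 : ℝ) ≤ x := Nat.cast_nonneg x
        linarith
      rw [h10, add_zero]
      have h11 : ∀ j ∈ range z, max (0 : ℝ) (1 - (j : ℝ) / z) = 1 - (j : ℝ) / z := by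
        intro j hj
        have hj' := mem_range.mp hj
        apply max_eq_right
        rw [sub_nonneg, div_le_one hz0]
        exact_mod_cast hj'.le
      rw [Finset.sum_congr rfl h11, Finset.sum_sub_distrib, ← Finset.sum_div]
      have h12 : ∑ j ∈ range z, (j : ℝ) = (z : ℝ) * ((z : ℝ) - 1) / 2 := by
        have : ∀ n : ℕ, ∑ j ∈ range n, (j : ℝ) = (n : ℝ) * ((n : ℝ) - 1) / 2 := by
          intro n
          induction n with
          | zero => simp
          | succ n ih => rw [Finset.sum_range_succ, ih]; push_cast; ring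
        exact this z
      rw [h12]
      simp only [Finset.sum_const, Finset.card_range, nsmul_eq_mul, mul_one]
      have h13 : (z : ℝ) - (z : ℝ) * ((z : ℝ) - 1) / 2 / z = ((z : ℝ) + 1) / 2 := by
        field_simp
        ring
      rw [h13]
    obtain ⟨p, rfl⟩ : ∃ p, L = p + 1 := ⟨L - 1, by omega⟩
    rw [Finset.sum_range_succ']
    have h9 := h8 p
    have h10 : ∑ k ∈ range p, max (0 : ℝ) (1 - (((k + 1 : ℕ) : ℝ) - 1) / z) =
        ∑ j ∈ range p, max (0 : ℝ) (1 - (j : ℝ) / z) := by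
      apply Finset.sum_congr rfl
      intro j _
      push_cast
      rw [add_sub_cancel_right]
    rw [h10]
    have h11 : max (0 : ℝ) (1 - (((0 : ℕ) : ℝ) - 1) / z) = 1 + 1 / (z : ℝ) := by
      rw [max_eq_right]
      · push_cast
        ring
      · push_cast
        have : (0 : ℝ) ≤ 1 / z := by positivity
        have e : (1 : ℝ) - (0 - 1) / z = 1 + 1 / z := by ring
        rw [e]
        linarith
    rw [h11]
    linarith
  have h8 := mul_le_mul_of_nonneg_left h7 hT.le
  linarith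

end Pool.Agent.MP_9da1e3_co
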