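import Pool.Agent.Lib.MP_9da1e3_co.V2_C
import Pool.Agent.Lib.MP_9da1e3_co.YH1
import Pool.Agent.Lib.MP_9da1e3_co.C9b
import Pool.Agent.Lib.MP_9da1e3_co.V2_R5F

/-! Row r5m: the mass of `rhoL` in the places `L+14 .. 5L/3` against its mass in `L+1 .. L+13`. -/

namespace Pool.Agent.MP_9da1e3_co

open Finset

/-- the first moment controls `HH` at `j`, by the decay rate -/
lemma vm_mom (K : ℕ) (hK : 1000 ≤ K + 1) (th : ℝ) (hth : th = 1 + 3 / (2 * ((K : ℝ) + 1))) :
    ∀ j : ℕ, (th ^ j - 1 - j * (th - 1)) * HH K j ≤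
      (th - 1) ^ 2 * ∑ i ∈ range j, (i : ℝ) * HH K (i + 1) := by
  have h1 : 1 ≤ th := by
    rw [hth]
    have : 0 < 3 / (2 * ((K : ℝ) + 1)) := by positivity
    linarith
  intro j
  induction j with
  | zero => simp
  | succ j ih =>
    rw [Finset.sum_range_succ]
    have h2 : th * HH K (j + 1) ≤ HH K j := by
      have h3 := F_rate (K + 1) hK (K + j)
      unfold HH
      rw [hth]
      push_cast at h3
      exact h3
    have h4 : 0 ≤ th ^ j - 1 - j * (th - 1) := by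
      have h5 := one_add_mul_le_pow (show (-2 : ℝ) ≤ th - 1 by linarith) j
      have e : (1 : ℝ) + (th - 1) = th := by ring
      rw [e] at h5
      linarith
    have h6 := mul_le_mul_of_nonneg_left h2 h4
    have e2 : (th ^ (j + 1) - 1 - ((j + 1 : ℕ) : ℝ) * (th - 1)) * HH K (j + 1) =
        (th ^ j - 1 - j * (th - 1)) * (th * HH K (j + 1)) +
          (th - 1) ^ 2 * ((j : ℝ) * HH K (j + 1)) := by
      push_cast
      ring
    rw [e2, mul_add]
    have h7 := h6.trans ih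
    linarith

/-- the first moment, shifted -/
lemma vm_mom2 (K j : ℕ) (hK : 1 ≤ K) (hj : j + 1 ≤ K) :
    E * ∑ i ∈ range j, (i : ℝ) * HH K (i + 1) ≤
      E * yT K - yC K * (E - yT K) + E * tn K := by
  have h1 := moment_HH K hK
  have hE := E_pos
  have h2 : 0 ≤ 2 * E * K * HH K K := by
    have := HH_nonneg K K
    positivity
  obtain ⟨K', rfl⟩ : ∃ K', K = K' + 1 := ⟨K - 1, by omega⟩
  rw [Finset.sum_range_succ'] at h1
  have h3 : ∑ i ∈ range j, (i : ℝ) * HH (K' + 1) (i + 1) ≤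
      ∑ k ∈ range K', HH (K' + 1) (k + 1) * (((k + 1 : ℕ) : ℝ) - 1) := by
    refine le_trans (Finset.sum_le_sum_of_subset_of_nonneg (Finset.range_mono
      (show j ≤ K' by omega)) ?_) (le_of_eq ?_)
    · intro i _ _
      exact mul_nonneg (Nat.cast_nonneg i) (HH_nonneg _ _)
    · apply Finset.sum_congr rfl
      intro i _
      push_cast
      ring
  rw [HH_zero] at h1
  have h4 := mul_le_mul_of_nonneg_left h3 hE.le
  push_cast at h1 h2 h4 ⊢
  rw [mul_add] at h1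
  linarith

lemma vm_sqrt_gap (K : ℕ) (hK : 999 ≤ K) :
    √((K : ℝ) + 1) - 0.008 ≤ √((K : ℝ) + 0.76) := by
  have hKr : (999 : ℝ) ≤ K := by exact_mod_cast hK
  obtain ⟨s, hs⟩ : ∃ s : ℝ, s = √((K : ℝ) + 1) := ⟨_, rfl⟩
  have hs2 : s ^ 2 = (K : ℝ) + 1 := by
    rw [hs]
    exact Real.sq_sqrt (by positivity)
  have hs0 : 31.6 ≤ s := by
    rw [hs]
    apply Real.le_sqrt_of_sq_le
    nlinarith
  rw [← hs]
  apply Real.le_sqrt_of_sq_le
  nlinarith

/-- the constant: the first moment is at most `2.69 / E` -/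
lemma vm_const (K : ℕ) (hK : 999 ≤ K) : E * yT K - yC K * (E - yT K) ≤ 2.69 := by
  have hKr : (999 : ℝ) ≤ K := by exact_mod_cast hK
  have hE1 : (2.718281 : ℝ) ≤ E := by
    unfold E
    have := Real.exp_one_gt_d9
    linarith
  have hE2 : E ≤ 2.718282 := by
    unfold E
    have := Real.exp_one_lt_d9
    linarith
  have hE := E_pos
  have hc1 := lt_cA
  have hc2 := cA_lt
  -- the tail
  have h1 : 2 * cA / √((K : ℝ) + 1) ≤ E - yT K := le_E_sub_sum K
  -- yC
  have h2 : E * (2 * U * (√((K : ℝ) + 0.76) - √(0.76))) ≤ yC K := by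
    rw [yC_eq]
    apply mul_le_mul_of_nonneg_left _ hE.le
    have h3 := le_WW_sub (Nat.zero_le K) 0.76 (by norm_num)
    have e : WW 0 = 0 := by simp [WW]
    rw [e] at h3
    simpa using h3
  have h3 : √(0.76 : ℝ) ≤ 0.8718 := by
    apply Real.sqrt_le_iff.mpr
    norm_num
  have h4 := vm_sqrt_gap K hK
  obtain ⟨s, hs⟩ : ∃ s : ℝ, s = √((K : ℝ) + 1) := ⟨_, rfl⟩
  rw [← hs] at h1 h4
  have hs0 : 31.6 ≤ s := by
    rw [hs]
    apply Real.le_sqrt_of_sq_le
    nlinarith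
  have hsp : 0 < s := by linarith
  have h5 : 2 * cA * (s - 0.8798) ≤ yC K := by
    refine le_trans ?_ h2
    have hU := U_pos
    have e : E * (2 * U * (√((K : ℝ) + 0.76) - √(0.76))) =
        2 * cA * (√((K : ℝ) + 0.76) - √(0.76)) := by
      unfold cA
      ring
    rw [e]
    apply mul_le_mul_of_nonneg_left _ (by linarith)
    linarith
  have h6 : 2 * cA * s ≤ E + yC K := by nlinarith
  have h7 : 0 ≤ E - yT K := by
    have := yT_le K
    linarith
  have h8 : 4.7 ≤ (E + yC K) * (E - yT K) := by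
    calc (4.7 : ℝ) ≤ (2 * cA) * (2 * cA) := by nlinarith
      _ = (2 * cA * s) * (2 * cA / s) := by field_simp
      _ ≤ (E + yC K) * (E - yT K) := by
          apply mul_le_mul h6 h1 (by positivity)
          have : 0 < 2 * cA * s := by positivity
          linarith
  nlinarith

/-- `L² t_L ≥ 34.2` -/
lemma vm_tn (L : ℕ) (hL : 1000 ≤ L) : 34.2 ≤ (L : ℝ) ^ 2 * tn L := by
  have hLr : (1000 : ℝ) ≤ L := by exact_mod_cast hL
  have h1 := le_tn_cA L
  have hc1 := lt_cA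
  obtain ⟨s, hs⟩ : ∃ s : ℝ, s = √((L : ℝ) + 1) := ⟨_, rfl⟩
  have e0 : sq L = s := by rw [hs]; rfl
  rw [e0] at h1
  have hs2 : s ^ 2 = (L : ℝ) + 1 := by
    rw [hs]
    exact Real.sq_sqrt (by positivity)
  have hs0 : 31.63 ≤ s := by
    rw [hs]
    apply Real.le_sqrt_of_sq_le
    nlinarith
  have hsp : 0 < s := by linarith
  have h2 : 1.0843 ≤ cA * (1 - 1 / (12 * ((L : ℝ) + 1))) := by
    have h3 : 1 / (12 * ((L : ℝ) + 1)) ≤ 0.0001 := by
      rw [div_le_iff₀ (by positivity)]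
      nlinarith
    nlinarith
  have h3 : 1.0843 / (((L : ℝ) + 1) * s) ≤ tn L :=
    le_trans (div_le_div_of_nonneg_right h2 (by positivity)) h1
  have h4 : (34.2 : ℝ) ≤ (L : ℝ) ^ 2 * (1.0843 / (((L : ℝ) + 1) * s)) := by
    rw [← mul_div_assoc, le_div_iff₀ (by positivity), ← hs2]
    have e : (L : ℝ) = s ^ 2 - 1 := by linarith
    rw [e]
    -- 34.2 s^3 ≤ 1.0843 (s^2-1)^2
    nlinarith [mul_pos hsp hsp, mul_pos (mul_pos hsp hsp) hsp,
      mul_nonneg (mul_pos (mul_pos hsp hsp) hsp).le (sub_nonneg.mpr hs0)]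
  exact h4.trans (mul_le_mul_of_nonneg_left h3 (by positivity))

/-- `1/(1 - n a)` bounds `(1+a)^n` -/
lemma vm_pow_le (a : ℝ) (ha : 0 ≤ a) (n : ℕ) (c : ℝ) (hc : (n : ℝ) * a ≤ c) (hc1 : c < 1) :
    (1 + a) ^ n ≤ 1 / (1 - c) := by
  have h1 : (1 + a) ^ n ≤ Real.exp ((n : ℝ) * a) := by
    rw [Real.exp_nat_mul]
    apply pow_le_pow_left₀ (by linarith)
    have := Real.add_one_le_exp a
    linarith
  have h2 : Real.exp ((n : ℝ) * a) ≤ Real.exp c := Real.exp_le_exp.mpr hc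
  have h3 : Real.exp c ≤ 1 / (1 - c) := by
    rw [le_div_iff₀ (by linarith)]
    have h4 := Real.add_one_le_exp (-c)
    have h5 : Real.exp c * (1 - c) ≤ Real.exp c * Real.exp (-c) :=
      mul_le_mul_of_nonneg_left (by linarith) (Real.exp_pos c).le
    rw [← Real.exp_add, add_neg_cancel, Real.exp_zero] at h5
    exact h5
  exact h1.trans (h2.trans h3)

/-- `(1 + 3/(2L))^j ≥ 2.714` for `3 j ≥ 2 L` -/
lemma vm_pow_ge (L j : ℕ) (hL : 1000 ≤ L) (hj : 2 * L ≤ 3 * j) (th : ℝ)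
    (hth : th = 1 + 3 / (2 * (L : ℝ))) : 2.714 ≤ th ^ j := by
  have hLr : (1000 : ℝ) ≤ L := by exact_mod_cast hL
  have hLp : (0 : ℝ) < L := by linarith
  have hj' : 2 * (L : ℝ) ≤ 3 * (j : ℝ) := by exact_mod_cast hj
  -- 1 + x ≥ exp (x/(1+x)), x = 3/(2L): x/(1+x) = 3/(2L+3)
  have h1 : Real.exp (3 / (2 * (L : ℝ) + 3)) ≤ th := by
    have h2 := Real.add_one_le_exp (-(3 / (2 * (L : ℝ) + 3)))
    have h3 : -(3 / (2 * (L : ℝ) + 3)) + 1 = 1 / th := by
      rw [hth]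
      field_simp
      ring
    rw [h3, Real.exp_neg] at h2
    have hthp : 0 < th := by rw [hth]; positivity
    rw [← one_div] at h2
    exact (one_div_le_one_div hthp (Real.exp_pos _)).mp h2
  have h2 : Real.exp ((j : ℝ) * (3 / (2 * (L : ℝ) + 3))) ≤ th ^ j := by
    rw [Real.exp_nat_mul]
    exact pow_le_pow_left₀ (Real.exp_pos _).le h1 j
  refine le_trans ?_ h2
  have h3 : (0.9985 : ℝ) ≤ (j : ℝ) * (3 / (2 * (L : ℝ) + 3)) := by
    rw [← mul_div_assoc, le_div_iff₀ (by positivity)]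
    nlinarith
  refine le_trans ?_ (Real.exp_le_exp.mpr h3)
  have h4 : Real.exp (0.9985 : ℝ) = Real.exp 1 * Real.exp (-0.0015) := by
    rw [← Real.exp_add]
    norm_num
  rw [h4]
  have h5 := Real.add_one_le_exp (-0.0015 : ℝ)
  have h6 := Real.exp_one_gt_d9
  nlinarith

/-- `θ^j F_L(L-1+j) ≤ 0.2485 t_L` at `j` just above `2L/3` -/
lemma vm_far (K j : ℕ) (hK : 999 ≤ K) (hj : 2 * (K + 1) ≤ 3 * j) (hj2 : 3 * j ≤ 2 * (K + 1) + 3)
    (th : ℝ) (hth : th = 1 + 3 / (2 * ((K : ℝ) + 1))) :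
    th ^ j * HH K j ≤ 0.2485 * tn (K + 1) := by
  have hKr : (999 : ℝ) ≤ K := by exact_mod_cast hK
  have h1 := vm_mom K (by omega) th hth j
  have h2 := vm_mom2 K j (by omega) (by omega)
  have h3 := vm_const K hK
  have hE1 : (2.718281 : ℝ) ≤ E := by
    unfold E
    have := Real.exp_one_gt_d9
    linarith
  have hE := E_pos
  have h4 := vm_tn (K + 1) (by omega)
  push_cast at h4
  have h5 : tn K ≤ 0.0001 := by
    have h6 := L_tn_le (K + 1) (by omega)
    have h7 : tn K ≤ 2 * tn (K + 1) := by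
      have h8 := r5f_hi K (by omega)
      have h9 := tn_pos (K + 1)
      have h10 : tn K ≤ (1 + 3 / (2 * (K : ℝ))) * tn (K + 1) := by
        rwa [div_le_iff₀ h9] at h8
      have h11 : 3 / (2 * (K : ℝ)) ≤ 1 := by
        rw [div_le_one (by linarith)]
        linarith
      nlinarith
    push_cast at h6
    have := tn_pos (K + 1)
    nlinarith
  obtain ⟨M, hM⟩ : ∃ M : ℝ, M = ∑ i ∈ range j, (i : ℝ) * HH K (i + 1) := ⟨_, rfl⟩
  rw [← hM] at h1 h2
  have h6 : M ≤ 0.9898 := by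
    have h7 : E * M ≤ 2.69 + E * 0.0001 := by
      have := mul_le_mul_of_nonneg_left h5 hE.le
      linarith
    by_contra hc
    push Not at hc
    have h8 := mul_lt_mul_of_pos_left hc hE
    nlinarith
  obtain ⟨x, hx⟩ : ∃ x : ℝ, x = (K : ℝ) + 1 := ⟨_, rfl⟩
  rw [← hx] at hth h4
  have hx0 : 1000 ≤ x := by rw [hx]; linarith
  have h7 := vm_pow_ge (K + 1) j (by omega) hj th (by rw [hth, hx]; push_cast; ring)
  have h8 : (j : ℝ) * (th - 1) ≤ 1.0015 := by
    have h9 : 3 * (j : ℝ) ≤ 2 * x + 3 := by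
      rw [hx]
      exact_mod_cast hj2
    have e : (j : ℝ) * (th - 1) = (3 * (j : ℝ)) / (2 * x) := by
      rw [hth]
      field_simp
      ring
    rw [e, div_le_iff₀ (by linarith)]
    nlinarith
  have h9 : 0 ≤ HH K j := HH_nonneg K j
  -- (th^j - 1 - j (th-1)) ≥ 0.2625 th^j
  have h10 : 0.2625 * th ^ j ≤ th ^ j - 1 - j * (th - 1) := by nlinarith
  have h11 : 0.2625 * (th ^ j * HH K j) ≤ (th - 1) ^ 2 * M := by
    refine le_trans ?_ h1
    have := mul_le_mul_of_nonneg_right h10 h9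
    linarith
  have h12 : (th - 1) ^ 2 * M ≤ 0.2625 * (0.2485 * tn (K + 1)) := by
    have h13 : (th - 1) ^ 2 = 9 / 4 / x ^ 2 := by
      rw [hth]
      field_simp
      ring
    have h14 : (th - 1) ^ 2 * M ≤ 9 / 4 / x ^ 2 * 0.9898 := by
      rw [h13]
      exact mul_le_mul_of_nonneg_left h6 (by positivity)
    refine h14.trans ?_
    rw [div_mul_eq_mul_div, div_le_iff₀ (by positivity)]
    nlinarith
  linarith

lemma vm_n1 (K : ℝ) (h : 999 ≤ K) : 1 / K ≤ 0.00101 := by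
  rw [div_le_iff₀ (by linarith)]
  linarith

lemma vm_n2 (K : ℝ) (h : 999 ≤ K) : 3 / (2 * K) ≤ 0.00151 := by
  rw [div_le_iff₀ (by linarith)]
  linarith

lemma vm_n3 (K : ℝ) (h : 999 ≤ K) : 9 / (2 * (K * (K + 3))) ≤ 1 := by
  have h1 : 0 < K * (K + 3) := by positivity
  rw [div_le_one (by linarith)]
  nlinarith

lemma vm_n4 (K : ℝ) (h : 999 ≤ K) : 3 * (K + 1) / (K * (K + 3)) ≤ 0.0031 := by
  have h1 : 0 < K * (K + 3) := by positivity
  rw [div_le_iff₀ h1]
  nlinarith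

lemma vm_E2 : 1.19 * E ^ 2 ≤ 8.79299 := by
  have hE2 : E ≤ 2.7182819 := by
    unfold E
    have := Real.exp_one_lt_d9
    linarith
  have hE := E_pos
  nlinarith

/-- **the mass of `rhoL` on `L+1 .. 5L/3` is at least `0.085 t_L`** -/
theorem vm_total (L : ℕ) (hL : 1000 ≤ L) (th : ℝ) (hlo : 1 + 3 / (2 * ((L : ℝ) + 2)) ≤ th)
    (hhi : th ≤ 1 + 3 / (2 * (L : ℝ))) :
    0.085 * tn L ≤ ∑ i ∈ range (2 * L / 3), th ^ i * rhoL L (L + 1 + i) := by
  obtain ⟨K, rfl⟩ : ∃ K, L = K + 1 := ⟨L - 1, by omega⟩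
  obtain ⟨d, hd⟩ : ∃ d, d = 2 * (K + 1) / 3 := ⟨_, rfl⟩
  rw [← hd]
  have hd1 : 3 * d ≤ 2 * (K + 1) := by omega
  have hd2 : 2 * (K + 1) ≤ 3 * d + 2 := by omega
  have hK : 999 ≤ K := by omega
  have hKr : (999 : ℝ) ≤ K := by exact_mod_cast hK
  have hKp : (0 : ℝ) < K := by linarith
  have hd1r : 3 * (d : ℝ) ≤ 2 * ((K : ℝ) + 1) := by exact_mod_cast hd1
  have hd0 : (0 : ℝ) ≤ d := Nat.cast_nonneg d
  push_cast at hlo hhi
  have hth1 : 1 ≤ th := by
    have : 0 < 3 / (2 * ((K : ℝ) + 1 + 2)) := by positivity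
    linarith
  have t := tn_pos (K + 1)
  obtain ⟨T, hT⟩ : ∃ T : ℝ, T = tht K := ⟨_, rfl⟩
  have hT0 : 0 < T := by rw [hT]; exact tht_pos K
  have hThi : T ≤ 1 + 3 / (2 * (K : ℝ)) := by rw [hT]; exact r5f_hi K (by omega)
  have hTlo : 1 ≤ T := by
    have h := r5f_lo' K
    have : 0 < 3 / (2 * ((K : ℝ) + 2)) := by positivity
    rw [hT]
    unfold tht
    linarith
  -- the far term
  have h1 := vm_far K (d + 1) hK (by omega) (by omega) (1 + 3 / (2 * ((K : ℝ) + 1))) rfl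
  obtain ⟨th1, hth1'⟩ : ∃ th1 : ℝ, th1 = 1 + 3 / (2 * ((K : ℝ) + 1)) := ⟨_, rfl⟩
  rw [← hth1'] at h1
  have hp1 : 1 ≤ th1 := by
    rw [hth1']
    have : 0 < 3 / (2 * ((K : ℝ) + 1)) := by positivity
    linarith
  obtain ⟨a, ha⟩ : ∃ a : ℝ, a = 3 / (2 * ((K : ℝ) * (K + 1))) := ⟨_, rfl⟩
  have ha0 : 0 ≤ a := by rw [ha]; positivity
  have h2 : T ≤ (1 + a) * th1 := by
    refine hThi.trans ?_
    have e1 : 3 / (2 * (K : ℝ)) = 3 / (2 * ((K : ℝ) + 1)) + a := by
      rw [ha]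
      field_simp
    have e2 : 0 ≤ a * (th1 - 1) := mul_nonneg ha0 (by linarith)
    have e3 : (1 + a) * th1 = th1 + a + a * (th1 - 1) := by ring
    linarith
  have h3 : (1 + a) ^ d ≤ 1 / (1 - 0.00101) := by
    apply vm_pow_le a ha0 d _ _ (by norm_num)
    calc (d : ℝ) * a ≤ (2 * ((K : ℝ) + 1) / 3) * a := mul_le_mul_of_nonneg_right (by linarith) ha0
      _ = 1 / K := by rw [ha]; field_simp
      _ ≤ _ := vm_n1 _ hKr
  have h4 : T ^ d * Fn (K + 1) (K + 1 + d) ≤ 0.2488 * tn (K + 1) := by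
    have e1 : Fn (K + 1) (K + 1 + d) = HH K (d + 1) := by
      unfold HH
      congr 1
      omega
    rw [e1]
    have h5 := HH_nonneg K (d + 1)
    calc T ^ d * HH K (d + 1) ≤ ((1 + a) * th1) ^ d * HH K (d + 1) :=
          mul_le_mul_of_nonneg_right (pow_le_pow_left₀ hT0.le h2 d) h5
      _ = (1 + a) ^ d * (th1 ^ d * HH K (d + 1)) := by rw [mul_pow]; ring
      _ ≤ (1 + a) ^ d * (th1 ^ (d + 1) * HH K (d + 1)) := by
          apply mul_le_mul_of_nonneg_left _ (by positivity)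
          apply mul_le_mul_of_nonneg_right _ h5
          exact pow_le_pow_right₀ hp1 (by omega)
      _ ≤ (1 / (1 - 0.00101)) * (0.2485 * tn (K + 1)) :=
          mul_le_mul h3 h1 (mul_nonneg (by positivity) h5) (by norm_num)
      _ ≤ _ := by
          rw [← mul_assoc]
          apply mul_le_mul_of_nonneg_right _ t.le
          norm_num
  -- the telescope
  have h5 := An_tel K d (by omega) (tht K) le_rfl
  rw [← hT] at h5
  have h6 : 0.75 * tn (K + 1) ≤ ∑ i ∈ range d, T ^ i * An (K + 1) (K + 1 + 1 + i) := by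
    refine le_trans ?_ h5
    rw [le_div_iff₀ hT0]
    have h7 : T ≤ 1.00151 := by
      have := vm_n2 _ hKr
      linarith
    have h8 := mul_le_mul_of_nonneg_left h7 t.le
    linarith
  -- change of weights
  obtain ⟨b, hb⟩ : ∃ b : ℝ, b = 9 / (2 * ((K : ℝ) * (K + 3))) := ⟨_, rfl⟩
  have hb0 : 0 ≤ b := by rw [hb]; positivity
  have hb1 : b ≤ 1 := by
    rw [hb]
    exact vm_n3 _ hKr
  have h7 : (1 - b) * T ≤ th := by
    refine le_trans ?_ hlo
    have e1 : 3 / (2 * (K : ℝ)) = 3 / (2 * ((K : ℝ) + 1 + 2)) + b := by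
      rw [hb]
      field_simp
      ring
    have h8 := mul_le_mul_of_nonneg_left hThi (show (0 : ℝ) ≤ 1 - b by linarith)
    have h9 : 0 ≤ b * (3 / (2 * (K : ℝ))) := mul_nonneg hb0 (by positivity)
    have e2 : (1 - b) * (1 + 3 / (2 * (K : ℝ))) = 1 + 3 / (2 * (K : ℝ)) - b - b * (3 / (2 * (K : ℝ))) := by
      ring
    linarith
  have h8 : ∀ i ∈ range d, 0.9969 * (T ^ i * An (K + 1) (K + 1 + 1 + i)) ≤
      th ^ i * An (K + 1) (K + 1 + 1 + i) := by
    intro i hi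
    have hi' := mem_range.mp hi
    have h9 := one_add_mul_le_pow (show (-2 : ℝ) ≤ -b by linarith) i
    have h10 : (i : ℝ) * b ≤ 0.0031 := by
      have hid : (i : ℝ) ≤ d := by exact_mod_cast hi'.le
      calc (i : ℝ) * b ≤ (2 * ((K : ℝ) + 1) / 3) * b :=
            mul_le_mul_of_nonneg_right (by linarith) hb0
        _ = 3 * ((K : ℝ) + 1) / (K * (K + 3)) := by rw [hb]; field_simp; norm_num
        _ ≤ _ := vm_n4 _ hKr
    have e : (1 : ℝ) + -b = 1 - b := by ring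
    rw [e] at h9
    have h11 : 0.9969 ≤ (1 - b) ^ i := by linarith
    have h12 : (1 - b) ^ i * T ^ i ≤ th ^ i := by
      rw [← mul_pow]
      exact pow_le_pow_left₀ (mul_nonneg (by linarith) hT0.le) h7 i
    have h13 := An_nonneg (K + 1) (K + 1 + 1 + i)
    have h14 : 0.9969 * T ^ i ≤ th ^ i :=
      le_trans (mul_le_mul_of_nonneg_right h11 (pow_nonneg hT0.le i)) h12
    have := mul_le_mul_of_nonneg_right h14 h13
    linarith
  have h9 := Finset.sum_le_sum h8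
  rw [← Finset.mul_sum] at h9
  have h10 := ps_mass (K + 1) d (by omega) th (1.19 * E ^ 2) (by linarith)
    (ps_sum_numG0 (K + 1) (by omega) th hth1 (by push_cast; exact hhi) d (by omega))
  have h11 := vm_E2
  have h12 : 0 ≤ ∑ i ∈ range d, th ^ i * rhoL (K + 1) (K + 1 + 1 + i) :=
    Finset.sum_nonneg fun i _ => mul_nonneg (pow_nonneg (by linarith) i)
      (rhoL_nonneg (K + 1) (by omega) _)
  have h13 := mul_le_mul_of_nonneg_right h11 h12
  linarith

/-- **row r5m**: the head `L+1 .. L+13` against the places `L+14 .. L + 2L/3`, given the plain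
mass `H t_L/L` of the head -/
theorem vm_row (L : ℕ) (hL : 1000 ≤ L) (th : ℝ) (hlo : 1 + 3 / (2 * ((L : ℝ) + 2)) ≤ th)
    (hhi : th ≤ 1 + 3 / (2 * (L : ℝ))) (H eps : ℝ) (hH : 0 ≤ H) (heps : 0 ≤ eps)
    (hnum : 1.0184 * H * (1 + eps) ≤ 85 * eps)
    (head : ∑ j ∈ range 13, rhoL L (L + 1 + j) ≤ H * (tn L / L)) :
    ∑ i ∈ range (L + 14), th ^ i * rhoL L i ≤
      eps * ∑ i ∈ Ico (L + 14) (L + 1 + 2 * L / 3), th ^ i * rhoL L i := by
  have hLr : (1000 : ℝ) ≤ L := by exact_mod_cast hL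
  have hLp : (0 : ℝ) < L := by linarith
  have hth1 : 1 ≤ th := by
    have : 0 < 3 / (2 * ((L : ℝ) + 2)) := by positivity
    linarith
  have hth0 : 0 ≤ th := by linarith
  have t := tn_pos L
  have hrn := fun i => rhoL_nonneg L (by omega) i
  have h1 := vm_total L hL th hlo hhi
  obtain ⟨d, hd⟩ : ∃ d, d = 2 * L / 3 := ⟨_, rfl⟩
  rw [← hd] at h1 ⊢
  have hd13 : 13 ≤ d := by omega
  obtain ⟨w, hw⟩ : ∃ w : ℕ → ℝ, w = fun i => th ^ i * rhoL L (L + 1 + i) := ⟨_, rfl⟩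
  -- everything in terms of the window
  have e1 : ∑ i ∈ range (L + 14), th ^ i * rhoL L i = th ^ (L + 1) * ∑ i ∈ range 13, w i := by
    have e : L + 14 = (L + 1) + 13 := by omega
    rw [e, Finset.sum_range_add]
    have z : ∑ i ∈ range (L + 1), th ^ i * rhoL L i = 0 := by
      apply Finset.sum_eq_zero
      intro i hi
      rw [rhoL_zero L i (by have := mem_range.mp hi; omega), mul_zero]
    rw [z, zero_add, Finset.mul_sum]
    apply Finset.sum_congr rfl
    intro i _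
    rw [hw, pow_add]
    ring
  have e2 : ∑ i ∈ Ico (L + 14) (L + 1 + d), th ^ i * rhoL L i =
      th ^ (L + 1) * (∑ i ∈ range d, w i - ∑ i ∈ range 13, w i) := by
    rw [Finset.sum_Ico_eq_sub _ (show L + 14 ≤ L + 1 + d by omega), e1, Finset.sum_range_add]
    have z : ∑ i ∈ range (L + 1), th ^ i * rhoL L i = 0 := by
      apply Finset.sum_eq_zero
      intro i hi
      rw [rhoL_zero L i (by have := mem_range.mp hi; omega), mul_zero]
    have e5 : ∑ x ∈ range d, th ^ (L + 1 + x) * rhoL L (L + 1 + x) =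
        th ^ (L + 1) * ∑ i ∈ range d, w i := by
      rw [Finset.mul_sum]
      apply Finset.sum_congr rfl
      intro i _
      rw [hw, pow_add]
      ring
    rw [z, zero_add, mul_sub, e5]
  have h2 : th ^ 12 ≤ 1.0184 := by
    have h3 := vm_pow_le (th - 1) (by linarith) 12 0.018 (by
      have h4 : 3 / (2 * (L : ℝ)) ≤ 0.0015 := by
        rw [div_le_iff₀ (by positivity)]
        nlinarith
      push_cast
      linarith) (by norm_num)
    have e : (1 : ℝ) + (th - 1) = th := by ring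
    rw [e] at h3
    refine h3.trans ?_
    norm_num
  have h3 : ∑ i ∈ range 13, w i ≤ 1.0184 * (H * (tn L / L)) := by
    have h4 : ∑ i ∈ range 13, w i ≤ ∑ i ∈ range 13, 1.0184 * rhoL L (L + 1 + i) := by
      apply Finset.sum_le_sum
      intro i hi
      have hi' := mem_range.mp hi
      rw [hw]
      apply mul_le_mul_of_nonneg_right _ (hrn _)
      exact (pow_le_pow_right₀ hth1 (by omega)).trans h2
    rw [← Finset.mul_sum] at h4
    linarith [mul_le_mul_of_nonneg_left head (show (0 : ℝ) ≤ 1.0184 by norm_num)]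
  have h4 : tn L / L ≤ tn L / 1000 := div_le_div_of_nonneg_left t.le (by norm_num) hLr
  have h5 : 0.085 * tn L ≤ ∑ i ∈ range d, w i := by
    rw [hw]
    exact h1
  rw [e1, e2]
  have hq : 0 ≤ th ^ (L + 1) := pow_nonneg hth0 _
  have h6 : ∑ i ∈ range 13, w i ≤ eps * (∑ i ∈ range d, w i - ∑ i ∈ range 13, w i) := by
    have h7 : ∑ i ∈ range 13, w i ≤ 1.0184 * (H * (tn L / 1000)) :=
      h3.trans (mul_le_mul_of_nonneg_left (mul_le_mul_of_nonneg_left h4 hH) (by norm_num))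
    have h8 := mul_le_mul_of_nonneg_left h5 heps
    have h9 := mul_le_mul_of_nonneg_right h7 (show 0 ≤ 1 + eps by linarith)
    have h10 := mul_le_mul_of_nonneg_right hnum (show 0 ≤ tn L / 1000 by positivity)
    have e3 : 85 * eps * (tn L / 1000) = eps * (0.085 * tn L) := by ring
    have e4 : 1.0184 * H * (1 + eps) * (tn L / 1000) = 1.0184 * (H * (tn L / 1000)) * (1 + eps) := by
      ring
    linarith
  have h7 := mul_le_mul_of_nonneg_left h6 hq
  linarith

end Pool.Agent.MP_9da1e3_co
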