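import Pool.Agent.Lib.MP_9da1e3_co.Lin46
import Pool.Agent.Lib.MP_9da1e3_co.V2_gam

/-! The mass of `rhoL` from the mass of `An`. -/

namespace Pool.Agent.MP_9da1e3_co

open Finset

/-- `A_L(L+1+i) = sum_{j ≤ i} rho_L(L+1+j) (F_L F_{L+1})(i-j)` -/
lemma An_rho_win (L i : ℕ) : An L (L + 1 + i) = ∑ j ∈ range (i + 1), rhoL L (L + 1 + j) *
    PowerSeries.coeff (i - j) (FF L * FF (L + 1)) := by
  rw [An_eq_rho]
  have e : L + 1 + i + 1 = (L + 1) + (i + 1) := by omega
  rw [e, Finset.sum_range_add]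
  have z : ∑ j ∈ range (L + 1), rhoL L j *
      PowerSeries.coeff (L + 1 + i - j) (FF L * FF (L + 1)) = 0 := by
    apply Finset.sum_eq_zero
    intro j hj
    rw [rhoL_zero L j (by have := mem_range.mp hj; omega), zero_mul]
  rw [z, zero_add]
  apply Finset.sum_congr rfl
  intro j hj
  have e3 : L + 1 + i - (L + 1 + j) = i - j := by omega
  rw [e3]

lemma coeff_FFFF_le (L i : ℕ) : PowerSeries.coeff i (FF L * FF (L + 1)) ≤
    ∑ k ∈ range (i + 1), tn k * tn (i - k) := by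
  rw [lin_coeff_mul_range]
  apply Finset.sum_le_sum
  intro k _
  rw [coeff_FF, coeff_FF]
  exact mul_le_mul (Fn_le_tn _ _) (Fn_le_tn _ _) (Fn_nonneg _ _) (tn_pos _).le

lemma coeff_FFFF_nonneg (L i : ℕ) : 0 ≤ PowerSeries.coeff i (FF L * FF (L + 1)) := by
  rw [lin_coeff_mul_range]
  apply Finset.sum_nonneg
  intro k _
  rw [coeff_FF, coeff_FF]
  exact mul_nonneg (Fn_nonneg _ _) (Fn_nonneg _ _)

/-- a truncated convolution square -/
lemma conv_sq_le (x : ℕ → ℝ) (hx : ∀ i, 0 ≤ x i) (N : ℕ) :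
    ∑ m ∈ range N, ∑ k ∈ range (m + 1), x k * x (m - k) ≤ (∑ i ∈ range N, x i) ^ 2 := by
  have h0 := Finset.sum_range_diag_flip N (fun a b => x a * x b)
  rw [h0, pow_two, Finset.sum_mul]
  apply Finset.sum_le_sum
  intro a _
  rw [← Finset.mul_sum]
  apply mul_le_mul_of_nonneg_left _ (hx a)
  apply Finset.sum_le_sum_of_subset_of_nonneg
  · exact Finset.range_subset_range.mpr (by omega)
  · intro i _ _
    exact hx i

/-- **mass of `rho` from the mass of `A`** (weights `θ^i`) -/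
theorem rho_mass (L d : ℕ) (hL : 1 ≤ L) (θ : ℝ) (hθ : 0 ≤ θ) :
    ∑ i ∈ range d, θ ^ i * An L (L + 1 + i) ≤
      (∑ i ∈ range d, θ ^ i * tn i) ^ 2 * ∑ i ∈ range d, θ ^ i * rhoL L (L + 1 + i) := by
  have h1 : ∑ i ∈ range d, θ ^ i * An L (L + 1 + i) = ∑ m ∈ range d, ∑ k ∈ range (m + 1),
      (fun a b => (θ ^ a * rhoL L (L + 1 + a)) *
        (θ ^ b * PowerSeries.coeff b (FF L * FF (L + 1)))) k (m - k) := by
    apply Finset.sum_congr rfl
    intro m _
    rw [An_rho_win, Finset.mul_sum]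
    apply Finset.sum_congr rfl
    intro k hk
    have hk' := mem_range.mp hk
    have e : θ ^ m = θ ^ k * θ ^ (m - k) := by
      rw [← pow_add]
      congr 1
      omega
    simp only [e]
    ring
  have h0 := Finset.sum_range_diag_flip d (fun a b => (θ ^ a * rhoL L (L + 1 + a)) *
        (θ ^ b * PowerSeries.coeff b (FF L * FF (L + 1))))
  rw [h1.trans h0]
  have hD : ∑ i ∈ range d, θ ^ i * PowerSeries.coeff i (FF L * FF (L + 1)) ≤
      (∑ i ∈ range d, θ ^ i * tn i) ^ 2 := by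
    refine le_trans ?_ (conv_sq_le (fun i => θ ^ i * tn i)
      (fun i => mul_nonneg (pow_nonneg hθ i) (tn_pos i).le) d)
    apply Finset.sum_le_sum
    intro m _
    have h2 := mul_le_mul_of_nonneg_left (coeff_FFFF_le L m) (pow_nonneg hθ m)
    refine h2.trans (le_of_eq ?_)
    rw [Finset.mul_sum]
    apply Finset.sum_congr rfl
    intro k hk
    have hk' := mem_range.mp hk
    have e : θ ^ m = θ ^ k * θ ^ (m - k) := by
      rw [← pow_add]
      congr 1
      omega
    simp only [e]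
    ring
  calc ∑ m ∈ range d, ∑ k ∈ range (d - m), (θ ^ m * rhoL L (L + 1 + m)) *
        (θ ^ k * PowerSeries.coeff k (FF L * FF (L + 1)))
      ≤ ∑ m ∈ range d, (θ ^ m * rhoL L (L + 1 + m)) * (∑ i ∈ range d, θ ^ i * tn i) ^ 2 := by
        apply Finset.sum_le_sum
        intro m _
        rw [← Finset.mul_sum]
        apply mul_le_mul_of_nonneg_left _
          (mul_nonneg (pow_nonneg hθ m) (rhoL_nonneg L hL _))
        refine le_trans ?_ hD
        apply Finset.sum_le_sum_of_subset_of_nonneg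
        · exact Finset.range_subset_range.mpr (by omega)
        · intro i _ _
          exact mul_nonneg (pow_nonneg hθ i) (coeff_FFFF_nonneg L i)
    _ = _ := by
        rw [← Finset.sum_mul]
        ring

/-- the telescoped sum of `A`: `θ_L := tn (L-1) / tn L` -/
theorem An_tel (K d : ℕ) (hd : d ≤ K) (θ : ℝ) (hθ : tht K ≤ θ) :
    (tn (K + 1) - tht K ^ d * Fn (K + 1) (K + 1 + d)) / tht K ≤
      ∑ i ∈ range d, θ ^ i * An (K + 1) (K + 1 + 1 + i) := by
  have h1 := gam_ge K 1 d (by omega)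
  have ht := tht_pos K
  have e1 : HH K 1 = tn (K + 1) := by
    unfold HH
    exact Fn_eq_tn _ _ le_rfl
  have e2 : HH K (1 + d) = Fn (K + 1) (K + 1 + d) := by
    unfold HH
    congr 1
    omega
  rw [e1, e2] at h1
  refine h1.trans ?_
  apply Finset.sum_le_sum
  intro i _
  have e3 : gg (K + 1) (1 + i) = An (K + 1) (K + 1 + 1 + i) := by
    unfold gg
    congr 1
    omega
  rw [e3]
  exact mul_le_mul_of_nonneg_right (pow_le_pow_left₀ ht.le hθ i) (An_nonneg _ _)

/-- **the weighted mass of `rho` is at least `(t_L - θ^d F_L(L+d)) / (θ C²)`**, `C = sum θ^i t_i` -/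
theorem rho_tel (K d : ℕ) (hd : d ≤ K) (θ : ℝ) (hθ : tht K ≤ θ) :
    (tn (K + 1) - tht K ^ d * Fn (K + 1) (K + 1 + d)) / tht K ≤
      (∑ i ∈ range d, θ ^ i * tn i) ^ 2 *
        ∑ i ∈ range d, θ ^ i * rhoL (K + 1) (K + 1 + 1 + i) :=
  (An_tel K d hd θ hθ).trans (rho_mass (K + 1) d (by omega) θ ((tht_pos K).le.trans hθ))

end Pool.Agent.MP_9da1e3_co
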