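import Pool.Agent.Lib.MP_9da1e3_co.Sh8

namespace Pool.Agent.MP_9da1e3_co

open Finset

lemma ygg_le (L m : ℕ) (hL : 36000000 ≤ L) (hmL : 2 * (m + 1) ≤ L) :
    E * (((m : ℝ) + 1) * gg L (m + 1)) ≤ 6000000000 * SS L m := by
  have hLr : (36000000 : ℝ) ≤ L := by exact_mod_cast hL
  have hL0 : (0 : ℝ) < L := by linarith
  have hl : 0 < √(L : ℝ) := Real.sqrt_pos.mpr hL0
  have hm0 : (0 : ℝ) ≤ m := Nat.cast_nonneg m
  obtain ⟨y, hy⟩ : ∃ y : ℝ, y = (m : ℝ) + 1 := ⟨_, rfl⟩
  have hy1 : 1 ≤ y := by rw [hy]; linarith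
  have hy0 : 0 < y := by linarith
  have hs : 0 < √y := Real.sqrt_pos.mpr hy0
  have hym : ((m + 1 : ℕ) : ℝ) = y := by rw [hy]; push_cast; ring
  have h1 := HH_ge L (by omega) m (by omega)
  have h2 := HH_le_SS L m
  have h3 : (m : ℝ) * √(m : ℝ) ≤ y * √y := mul_sqrt_mono hm0 (by rw [hy]; linarith)
  have hE' := E_le
  have hE0 := E_pos
  have hgn := gg_nonneg L (m + 1)
  rw [← hy]
  have hms : 0 ≤ √(m : ℝ) := Real.sqrt_nonneg _
  rcases le_or_gt (y * √y) L with hc | hc
  · have h4 : 0.02 / (√(L : ℝ) * L) ≤ SS L m := by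
      refine le_trans ?_ (h1.trans h2)
      rw [div_le_div_iff₀ (by positivity) (by positivity)]
      have h5 : √(L : ℝ) * ((L : ℝ) + m * √(m : ℝ)) ≤ √(L : ℝ) * (2 * L) :=
        mul_le_mul_of_nonneg_left (by linarith) hl.le
      linarith
    have h5 := gg_le_small L (m + 1) (by omega) (by omega)
    rw [hym] at h5
    have h6 : y * gg L (m + 1) ≤ 1.8 / (√(L : ℝ) * L) := by
      calc y * gg L (m + 1) ≤ y * (1.8 * √y / ((L : ℝ) * L * √(L : ℝ))) :=
            mul_le_mul_of_nonneg_left h5 hy0.le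
        _ = 1.8 * (y * √y) / ((L : ℝ) * L * √(L : ℝ)) := by ring
        _ ≤ 1.8 * L / ((L : ℝ) * L * √(L : ℝ)) := by
            apply div_le_div_of_nonneg_right _ (by positivity)
            linarith
        _ = _ := by field_simp
    have h7 : E * (y * gg L (m + 1)) ≤ 2.7183 * (1.8 / (√(L : ℝ) * L)) :=
      mul_le_mul hE' h6 (by positivity) (by norm_num)
    refine h7.trans ?_
    have h8 := mul_le_mul_of_nonneg_left h4 (by norm_num : (0 : ℝ) ≤ 6000000000)
    refine le_trans ?_ h8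
    have e1 : 2.7183 * (1.8 / (√(L : ℝ) * L)) = 4.89294 * (1 / (√(L : ℝ) * L)) := by ring
    have e2 : 6000000000 * (0.02 / (√(L : ℝ) * L)) = 120000000 * (1 / (√(L : ℝ) * L)) := by ring
    rw [e1, e2]
    apply mul_le_mul_of_nonneg_right (by norm_num) (by positivity)
  · have h4 : 0.02 / (√(L : ℝ) * (y * √y)) ≤ SS L m := by
      refine le_trans ?_ (h1.trans h2)
      rw [div_le_div_iff₀ (by positivity) (by positivity)]
      have h5 : √(L : ℝ) * ((L : ℝ) + m * √(m : ℝ)) ≤ √(L : ℝ) * (2 * (y * √y)) :=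
        mul_le_mul_of_nonneg_left (by linarith) hl.le
      linarith
    have h5 := gg_le_big L (m + 1) hL (by omega)
    rw [hym] at h5
    have h6 : y * gg L (m + 1) ≤ 40000000 / (√(L : ℝ) * (y * √y)) := by
      calc y * gg L (m + 1) ≤ y * (40000000 * (1 / (y * y * √y * √(L : ℝ)))) :=
            mul_le_mul_of_nonneg_left h5 hy0.le
        _ = _ := by field_simp
    have h7 : E * (y * gg L (m + 1)) ≤ 2.7183 * (40000000 / (√(L : ℝ) * (y * √y))) :=
      mul_le_mul hE' h6 (by positivity) (by norm_num)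
    refine h7.trans ?_
    have h8 := mul_le_mul_of_nonneg_left h4 (by norm_num : (0 : ℝ) ≤ 6000000000)
    refine le_trans ?_ h8
    have e1 : 2.7183 * (40000000 / (√(L : ℝ) * (y * √y))) = 108732000 * (1 / (√(L : ℝ) * (y * √y))) := by
      ring
    have e2 : 6000000000 * (0.02 / (√(L : ℝ) * (y * √y))) = 120000000 * (1 / (√(L : ℝ) * (y * √y))) := by
      ring
    rw [e1, e2]
    apply mul_le_mul_of_nonneg_right (by norm_num) (by positivity)

/-- upper comparison of neighbouring `L` -/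
lemma gg_ratio_up (L : ℕ) (hL : 1000000000000 ≤ L) : ∀ y : ℕ, 2 * y ≤ L →
    gg (L + 1) y ≤ (1 + 10000000000 / (L : ℝ)) * gg L y := by
  have hLr : (1000000000000 : ℝ) ≤ L := by exact_mod_cast hL
  have hL0 : (0 : ℝ) < L := by linarith
  have hE := E_ge
  intro y
  induction y using Nat.strong_induction_on with
  | _ y ih =>
    intro hy
    rcases Nat.eq_zero_or_pos y with rfl | hy0
    · rw [gg_zero, gg_zero]
      simp
    · obtain ⟨m, rfl⟩ : ∃ m, y = m + 1 := ⟨y - 1, by omega⟩
      obtain ⟨θ, hθ⟩ : ∃ θ : ℝ, θ = 1 + 10000000000 / (L : ℝ) := ⟨_, rfl⟩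
      have hθ0 : 0 ≤ θ := by rw [hθ]; positivity
      rw [← hθ]
      have r1 := gg_rec L m (by omega)
      have r2 := gg_rec (L + 1) m (by omega)
      have x1 := ygg_le L m (by omega) hy
      have s0 := SS_nonneg L m
      have s1 : SS (L + 1) m ≤ (1 + 2000 / (L : ℝ)) * SS L m := by
        unfold SS
        rw [Finset.mul_sum]
        apply Finset.sum_le_sum
        intro j hj
        have hj' : j ≤ m := by have := mem_range.mp hj; omega
        have h3 := HH_ratio_up L (by omega) (m - j) (by omega)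
        have ht := tn_pos j
        calc tn j * HH (L + 1) (m - j) ≤ tn j * ((1 + 2000 / (L : ℝ)) * HH L (m - j)) :=
              mul_le_mul_of_nonneg_left h3 ht.le
          _ = _ := by ring
      obtain ⟨V, hV⟩ : ∃ V : ℝ, V = ∑ j ∈ range (m + 1), tn j * gg L (m - j) := ⟨_, rfl⟩
      obtain ⟨Y, hY⟩ : ∃ Y : ℝ, Y = ∑ j ∈ range (m + 1), ((j : ℝ) + 1) * (tn j * gg L (m - j)) := ⟨_, rfl⟩
      have hY0 : 0 ≤ Y := by
        rw [hY]
        exact Finset.sum_nonneg fun j _ => by
          have h1 := tn_pos j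
          have h2 := gg_nonneg L (m - j)
          positivity
      have e1 : ∑ j ∈ range (m + 1), ((L : ℝ) + j + 1) * (tn j * gg L (m - j)) = L * V + Y := by
        rw [hV, hY, Finset.mul_sum, ← Finset.sum_add_distrib]
        apply Finset.sum_congr rfl
        intro j _
        ring
      have e2 : ∑ j ∈ range (m + 1), (((L + 1 : ℕ) : ℝ) + j + 1) * (tn j * gg (L + 1) (m - j)) ≤
          θ * (L * V + Y + V) := by
        rw [← e1, hV, ← Finset.sum_add_distrib, Finset.mul_sum]
        apply Finset.sum_le_sum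
        intro j hj
        have hj' : j ≤ m := by have := mem_range.mp hj; omega
        have h3 := ih (m - j) (by omega) (by omega)
        rw [← hθ] at h3
        have ht := tn_pos j
        have hj0 : (0 : ℝ) ≤ j := Nat.cast_nonneg j
        push_cast
        calc ((L : ℝ) + 1 + j + 1) * (tn j * gg (L + 1) (m - j))
            ≤ ((L : ℝ) + 1 + j + 1) * (tn j * (θ * gg L (m - j))) := by
              apply mul_le_mul_of_nonneg_left _ (by positivity)
              exact mul_le_mul_of_nonneg_left h3 ht.le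
          _ = θ * (((L : ℝ) + j + 1) * (tn j * gg L (m - j)) + tn j * gg L (m - j)) := by ring
      rw [e1] at r1
      obtain ⟨H, hH⟩ : ∃ H : ℝ, H = gg L (m + 1) := ⟨_, rfl⟩
      have hH0 : 0 ≤ H := by rw [hH]; exact gg_nonneg _ _
      rw [← hH] at r1 x1 ⊢
      have hm0 : (0 : ℝ) ≤ (m : ℝ) + 1 := by positivity
      have h5 : V - E * H ≤ 6000000000 / (L : ℝ) * SS L m := by
        have h6 : L * (V - E * H) = E * (((m : ℝ) + 1) * H) - Y - SS L m := by linarith
        have h8 : L * (V - E * H) ≤ 6000000000 * SS L m := by rw [h6]; linarith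
        have h9 : 6000000000 / (L : ℝ) * SS L m = (6000000000 * SS L m) / L := by ring
        rw [h9, le_div_iff₀ hL0]
        linarith
      have h6 : SS (L + 1) m + θ * (6000000000 / (L : ℝ) * SS L m) ≤ θ * SS L m := by
        have h7 : (1 + 2000 / (L : ℝ)) + θ * (6000000000 / (L : ℝ)) ≤ θ := by
          rw [hθ]
          obtain ⟨r, hr⟩ : ∃ r : ℝ, r = 1 / (L : ℝ) := ⟨_, rfl⟩
          have hr0 : 0 < r := by rw [hr]; positivity
          have hr1 : r ≤ 1 / 1000000000000 := by
            rw [hr]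
            exact one_div_le_one_div_of_le (by norm_num) hLr
          have q1 : 2000 / (L : ℝ) = 2000 * r := by rw [hr]; ring
          have q2 : 10000000000 / (L : ℝ) = 10000000000 * r := by rw [hr]; ring
          have q3 : 6000000000 / (L : ℝ) = 6000000000 * r := by rw [hr]; ring
          rw [q1, q2, q3]
          nlinarith
        have h8 := mul_le_mul_of_nonneg_right h7 s0
        linarith
      have h7 := mul_le_mul_of_nonneg_left h5 hθ0
      have hfin : E * ((((L + 1 : ℕ) : ℝ) + (m + 1)) * gg (L + 1) (m + 1)) ≤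
          E * ((((L + 1 : ℕ) : ℝ) + (m + 1)) * (θ * H)) := by
        rw [r2]
        have e5 : E * ((((L + 1 : ℕ) : ℝ) + (m + 1)) * (θ * H)) =
            θ * (E * (((L : ℝ) + (m + 1)) * H)) + θ * (E * H) := by
          push_cast
          ring
        rw [e5, r1]
        linarith
      have hN : (0 : ℝ) < (((L + 1 : ℕ) : ℝ) + (m + 1)) := by positivity
      exact le_of_mul_le_mul_left (le_of_mul_le_mul_left hfin (by linarith)) hN

/-- upper bound of `gg` through `WW` -/
lemma gg_le_WW (L : ℕ) (hL : 1000000000000 ≤ L) : ∀ m : ℕ, 40000000000 * m ≤ L →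
    gg L m ≤ (1 + 20000000000 * (m : ℝ) / L) * (tn L / L * WW m) := by
  have hLr : (1000000000000 : ℝ) ≤ L := by exact_mod_cast hL
  have hL0 : (0 : ℝ) < L := by linarith
  have ht := tn_pos L
  intro m
  induction m with
  | zero =>
    intro _
    rw [gg_zero]
    have : 0 ≤ WW 0 := WW_nonneg 0
    positivity
  | succ m ih =>
    intro hm
    have h1 := ih (by omega)
    have h2 := bb_ge_ww L (by omega) m (by omega)
    rw [bb_succ] at h2
    have h3 := gg_ratio_up L hL m (by omega)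
    have hW := WW_nonneg m
    have hw := ww_pos m
    have hmr : 40000000000 * ((m : ℝ) + 1) ≤ L := by exact_mod_cast hm
    have hm0 : (0 : ℝ) ≤ m := Nat.cast_nonneg m
    have eW : WW (m + 1) = WW m + ww m := by unfold WW; rw [Finset.sum_range_succ]
    obtain ⟨c, hc⟩ : ∃ c : ℝ, c = tn L / L := ⟨_, rfl⟩
    have hc0 : 0 < c := by rw [hc]; positivity
    rw [← hc] at h1 h2 ⊢
    rw [eW]
    push_cast
    obtain ⟨r, hr⟩ : ∃ r : ℝ, r = 1 / (L : ℝ) := ⟨_, rfl⟩
    have hr0 : 0 < r := by rw [hr]; positivity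
    have hmr2 : 40000000000 * ((m : ℝ) + 1) * r ≤ 1 := by
      rw [hr, mul_one_div, div_le_one hL0]
      exact hmr
    have q1 : 20000000000 * (m : ℝ) / L = 20000000000 * m * r := by rw [hr]; ring
    have q2 : 10000000000 / (L : ℝ) = 10000000000 * r := by rw [hr]; ring
    have q3 : 20000000000 * ((m : ℝ) + 1) / L = 20000000000 * (m + 1) * r := by rw [hr]; ring
    rw [q1] at h1
    rw [q2] at h3
    rw [q3]
    have h4 : (1 + 10000000000 * r) * gg L m ≤
        (1 + 10000000000 * r) * ((1 + 20000000000 * m * r) * (c * WW m)) :=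
      mul_le_mul_of_nonneg_left h1 (by positivity)
    have hcW : 0 ≤ c * WW m := by positivity
    have h5 : (1 + 10000000000 * r) * (1 + 20000000000 * m * r) ≤ 1 + 20000000000 * (m + 1) * r := by
      have : (10000000000 * r) * (20000000000 * m * r) ≤ (10000000000 * r) * 1 := by
        apply mul_le_mul_of_nonneg_left _ (by positivity)
        nlinarith
      nlinarith
    have h6 := mul_le_mul_of_nonneg_right h5 hcW
    have h7 : c * ww m ≤ (1 + 20000000000 * (m + 1) * r) * (c * ww m) := by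
      have h8 : 0 ≤ 20000000000 * ((m : ℝ) + 1) * r := by positivity
      have h9 : 0 ≤ c * ww m := by positivity
      nlinarith
    nlinarith

lemma sum_AA (L m : ℕ) (g : ℕ → ℝ) : ∑ j ∈ range (m + 1), ((L : ℝ) + j + 1) * (tn j * g (m - j)) =
    ∑ r ∈ range (m + 1), AA L m r * g r := by
  rw [← sum_rev (fun j => ((L : ℝ) + (j : ℝ) + 1) * (tn j * g (m - j))) m]
  apply Finset.sum_congr rfl
  intro r hr
  have hr' := mem_range.mp hr
  have e : m - (m - r) = r := by omega
  rw [e]
  unfold AA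
  ring

lemma bb_eq (L m : ℕ) (h : m + 1 ≤ L) : E * (((L : ℝ) + (m + 1)) * bb L (m + 1)) =
    ∑ r ∈ range (m + 1), AA L m r * bb L r +
      2 * ∑ i ∈ range m, tn (m - 1 - i) * gg (L + 1) i - tn m * tn L := by
  have r1 := gg_rec L m h
  rw [← sum_AA]
  rcases Nat.eq_zero_or_pos m with rfl | hm
  · rw [bb_succ, gg_zero]
    simp only [zero_add, Finset.sum_range_one, Nat.sub_zero, gg_zero, bb_zero, mul_zero,
      Finset.sum_range_zero] at r1 ⊢
    have hS : SS L 0 = tn 0 * tn L := by
      unfold SS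
      simp only [zero_add, Finset.sum_range_one, Nat.sub_zero, HH_zero]
    rw [hS] at r1
    rw [zero_sub]
    linarith
  · obtain ⟨p, rfl⟩ : ∃ p, m = p + 1 := ⟨m - 1, by omega⟩
    have r2 := gg_rec (L + 1) p (by omega)
    rw [bb_succ]
    have eS : SS (L + 1) p - SS L (p + 1) = ∑ j ∈ range (p + 1), tn j * gg (L + 1) (p - j) -
        tn (p + 1) * tn L := by
      unfold SS
      rw [Finset.sum_range_succ (fun j => tn j * HH L (p + 1 - j)) (p + 1), Nat.sub_self, HH_zero]
      have e1 : ∑ j ∈ range (p + 1), tn j * HH (L + 1) (p - j) =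
          ∑ j ∈ range (p + 1), tn j * HH L (p + 1 - j) +
          ∑ j ∈ range (p + 1), tn j * gg (L + 1) (p - j) := by
        rw [← Finset.sum_add_distrib]
        apply Finset.sum_congr rfl
        intro j hj
        have hj' := mem_range.mp hj
        rw [HH_diff L (p - j)]
        have e2 : p - j + 1 = p + 1 - j := by omega
        rw [e2]
        ring
      rw [e1]
      ring
    have eB : ∑ j ∈ range (p + 1 + 1), ((L : ℝ) + j + 1) * (tn j * bb L (p + 1 - j)) =
        ∑ j ∈ range (p + 1), ((L : ℝ) + j + 1) * (tn j * gg (L + 1) (p - j)) -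
        ∑ j ∈ range (p + 1 + 1), ((L : ℝ) + j + 1) * (tn j * gg L (p + 1 - j)) := by
      rw [Finset.sum_range_succ _ (p + 1), Finset.sum_range_succ (fun j => ((L : ℝ) + j + 1) *
        (tn j * gg L (p + 1 - j))) (p + 1), Nat.sub_self, bb_zero, gg_zero, mul_zero, mul_zero,
        add_zero, add_zero, ← Finset.sum_sub_distrib]
      apply Finset.sum_congr rfl
      intro j hj
      have hj' := mem_range.mp hj
      have e2 : p + 1 - j = (p - j) + 1 := by omega
      rw [e2, bb_succ]
      ring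
    have eG : ∑ j ∈ range (p + 1), (((L + 1 : ℕ) : ℝ) + j + 1) * (tn j * gg (L + 1) (p - j)) =
        ∑ j ∈ range (p + 1), ((L : ℝ) + j + 1) * (tn j * gg (L + 1) (p - j)) +
        ∑ j ∈ range (p + 1), tn j * gg (L + 1) (p - j) := by
      rw [← Finset.sum_add_distrib]
      apply Finset.sum_congr rfl
      intro j _
      push_cast
      ring
    rw [eG] at r2
    have eR : ∑ i ∈ range (p + 1), tn (p + 1 - 1 - i) * gg (L + 1) i =
        ∑ j ∈ range (p + 1), tn j * gg (L + 1) (p - j) := by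
      rw [← sum_rev (fun j => tn j * gg (L + 1) (p - j)) p]
      apply Finset.sum_congr rfl
      intro i hi
      have hi' := mem_range.mp hi
      have e2 : p - (p - i) = i := by omega
      rw [e2, Nat.add_sub_cancel]
    have e3 : E * (((L : ℝ) + (((p + 1 : ℕ) : ℝ) + 1)) * (gg (L + 1) (p + 1) - gg L (p + 1 + 1))) =
        E * ((((L + 1 : ℕ) : ℝ) + (p + 1)) * gg (L + 1) (p + 1)) -
        E * (((L : ℝ) + (((p + 1 : ℕ) : ℝ) + 1)) * gg L (p + 1 + 1)) := by
      push_cast
      ring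
    rw [e3, r1, r2, eB, eR]
    linarith

/-- third differences along `L + y = n` -/
noncomputable def c3 (L : ℕ) : ℕ → ℝ
  | 0 => 0
  | m + 1 => bb (L + 1) m - bb L (m + 1)

lemma c3_zero (L : ℕ) : c3 L 0 = 0 := rfl

lemma c3_succ (L m : ℕ) : c3 L (m + 1) = bb (L + 1) m - bb L (m + 1) := rfl

lemma c3_eq (L m : ℕ) (hm : 1 ≤ m) (h : m + 1 ≤ L) :
    E * (((L : ℝ) + (m + 1)) * c3 L (m + 1)) =
    ∑ r ∈ range (m + 1), AA L m r * c3 L r +
      3 * ∑ i ∈ range m, tn (m - 1 - i) * bb (L + 1) i - tn (m - 1) * tn (L + 1) + tn m * tn L := by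
  obtain ⟨p, rfl⟩ : ∃ p, m = p + 1 := ⟨m - 1, by omega⟩
  have hA := bb_eq L (p + 1) h
  have hB := bb_eq (L + 1) p (by omega)
  rw [c3_succ]
  have e1 : ∑ r ∈ range (p + 1 + 1), AA L (p + 1) r * c3 L r =
      ∑ r ∈ range (p + 1), AA L (p + 1) (r + 1) * (bb (L + 1) r - bb L (r + 1)) := by
    rw [Finset.sum_range_succ', c3_zero, mul_zero, add_zero]
    rfl
  have e2 : ∑ r ∈ range (p + 1 + 1), AA L (p + 1) r * bb L r =
      ∑ r ∈ range (p + 1), AA L (p + 1) (r + 1) * bb L (r + 1) := by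
    rw [Finset.sum_range_succ', bb_zero, mul_zero, add_zero]
  have e3 : ∑ r ∈ range (p + 1), AA (L + 1) p r * bb (L + 1) r =
      ∑ r ∈ range (p + 1), AA L (p + 1) (r + 1) * bb (L + 1) r +
      ∑ r ∈ range (p + 1), tn (p - r) * bb (L + 1) r := by
    rw [← Finset.sum_add_distrib]
    apply Finset.sum_congr rfl
    intro r _
    unfold AA
    have e : p + 1 - (r + 1) = p - r := by omega
    rw [e]
    push_cast
    ring
  have e4 : ∑ i ∈ range p, tn (p - 1 - i) * gg (L + 1 + 1) i -
      ∑ i ∈ range (p + 1), tn (p + 1 - 1 - i) * gg (L + 1) i =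
      ∑ r ∈ range (p + 1), tn (p - r) * bb (L + 1) r := by
    rw [Finset.sum_range_succ' (fun i => tn (p + 1 - 1 - i) * gg (L + 1) i), gg_zero, mul_zero, add_zero,
      Finset.sum_range_succ' (fun r => tn (p - r) * bb (L + 1) r), bb_zero, mul_zero, add_zero,
      ← Finset.sum_sub_distrib]
    apply Finset.sum_congr rfl
    intro i _
    have q1 : p + 1 - 1 - (i + 1) = p - (i + 1) := by omega
    have q2 : p - 1 - i = p - (i + 1) := by omega
    rw [q1, q2, bb_succ]
    ring
  have e5 : ∑ i ∈ range (p + 1), tn (p + 1 - 1 - i) * bb (L + 1) i =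
      ∑ r ∈ range (p + 1), tn (p - r) * bb (L + 1) r := by
    apply Finset.sum_congr rfl
    intro i _
    rw [Nat.add_sub_cancel]
  have e6 : ∑ r ∈ range (p + 1), AA L (p + 1) (r + 1) * (bb (L + 1) r - bb L (r + 1)) =
      ∑ r ∈ range (p + 1), AA L (p + 1) (r + 1) * bb (L + 1) r -
      ∑ r ∈ range (p + 1), AA L (p + 1) (r + 1) * bb L (r + 1) := by
    rw [← Finset.sum_sub_distrib]
    apply Finset.sum_congr rfl
    intro r _
    ring
  have e7 : E * (((L : ℝ) + (((p + 1 : ℕ) : ℝ) + 1)) * (bb (L + 1) (p + 1) - bb L (p + 1 + 1))) =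
      E * ((((L + 1 : ℕ) : ℝ) + (p + 1)) * bb (L + 1) (p + 1)) -
      E * (((L : ℝ) + (((p + 1 : ℕ) : ℝ) + 1)) * bb L (p + 1 + 1)) := by
    push_cast
    ring
  rw [e7, hA, hB, e1, e2, e3, e5, e6, Nat.add_sub_cancel]
  rw [Nat.add_sub_cancel] at e4
  linarith

end Pool.Agent.MP_9da1e3_co
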