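import Pool.Agent.Lib.MP_9da1e3_co.Wn1

namespace Pool.Agent.MP_9da1e3_co

open Finset

lemma E_ge3 : (2.7182 : ℝ) ≤ E := by
  have := Real.exp_one_gt_d9
  unfold E
  linarith

lemma E_ww' (m : ℕ) : E * ww m = cE m := E_ww m

/-- lower bound for one dyadic block of the tail -/
lemma block_ge (k : ℕ) (hk : 1 ≤ k) :
    (k : ℝ) / ((2 * k) * √((2 * k : ℕ) : ℝ)) ≤ ∑ i ∈ range k, tn (k + i) := by
  have hkr : (1 : ℝ) ≤ k := by exact_mod_cast hk
  have hs : 0 < √((2 * k : ℕ) : ℝ) := Real.sqrt_pos.mpr (by push_cast; linarith)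
  have h1 : ∑ _i ∈ range k, 1 / ((2 * (k : ℝ)) * √((2 * k : ℕ) : ℝ)) ≤ ∑ i ∈ range k, tn (k + i) := by
    apply Finset.sum_le_sum
    intro i hi
    have hi' := mem_range.mp hi
    refine le_trans ?_ (le_tn (k + i))
    have h2 : ((k + i : ℕ) : ℝ) + 1 ≤ ((2 * k : ℕ) : ℝ) := by exact_mod_cast (by omega : k + i + 1 ≤ 2 * k)
    have h3 : sq (k + i) ≤ √((2 * k : ℕ) : ℝ) := by
      unfold sq
      exact Real.sqrt_le_sqrt h2
    have h4 := sq_pos (k + i)
    apply one_div_le_one_div_of_le (by positivity)
    apply mul_le_mul _ h3 h4.le (by positivity)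
    push_cast at h2 ⊢
    linarith
  rw [Finset.sum_const, card_range, nsmul_eq_mul] at h1
  refine le_trans (le_of_eq ?_) h1
  ring

lemma tail_ge (y : ℕ) (hy : 1 ≤ y) : 0.78 / √(y : ℝ) ≤ E - ∑ j ∈ range y, tn j := by
  have hyr : (1 : ℝ) ≤ y := by exact_mod_cast hy
  have hy0 : (0 : ℝ) < y := by linarith
  have hs : 0 < √(y : ℝ) := Real.sqrt_pos.mpr hy0
  have h0 := sum_tn_le (y + y + 2 * y + 4 * y)
  rw [Finset.sum_range_add, Finset.sum_range_add, Finset.sum_range_add] at h0
  have b1 := block_ge y hy
  have b2 := block_ge (2 * y) (by omega)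
  have b3 := block_ge (4 * y) (by omega)
  have e2 : ∑ x ∈ range (2 * y), tn (y + y + x) = ∑ i ∈ range (2 * y), tn (2 * y + i) := by
    apply Finset.sum_congr rfl
    intro i _
    congr 1
    ring
  have e3 : ∑ x ∈ range (4 * y), tn (y + y + 2 * y + x) = ∑ i ∈ range (4 * y), tn (4 * y + i) := by
    apply Finset.sum_congr rfl
    intro i _
    congr 1
    ring
  rw [e2, e3] at h0
  have s2 : √((2 * y : ℕ) : ℝ) ≤ 1.41422 * √(y : ℝ) := by
    apply Real.sqrt_le_iff.mpr
    constructor
    · positivity
    · rw [mul_pow, Real.sq_sqrt hy0.le]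
      push_cast
      linarith
  have s4 : √((2 * (2 * y) : ℕ) : ℝ) ≤ 2 * √(y : ℝ) := by
    apply Real.sqrt_le_iff.mpr
    constructor
    · positivity
    · rw [mul_pow, Real.sq_sqrt hy0.le]
      push_cast
      linarith
  have s8 : √((2 * (4 * y) : ℕ) : ℝ) ≤ 2.82844 * √(y : ℝ) := by
    apply Real.sqrt_le_iff.mpr
    constructor
    · positivity
    · rw [mul_pow, Real.sq_sqrt hy0.le]
      push_cast
      linarith
  have p2 : 0 < √((2 * y : ℕ) : ℝ) := Real.sqrt_pos.mpr (by push_cast; linarith)
  have p4 : 0 < √((2 * (2 * y) : ℕ) : ℝ) := Real.sqrt_pos.mpr (by push_cast; linarith)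
  have p8 : 0 < √((2 * (4 * y) : ℕ) : ℝ) := Real.sqrt_pos.mpr (by push_cast; linarith)
  have c1 : 0.3535 / √(y : ℝ) ≤ (y : ℝ) / ((2 * y) * √((2 * y : ℕ) : ℝ)) := by
    rw [div_le_div_iff₀ hs (by positivity)]
    have := mul_le_mul_of_nonneg_left s2 hy0.le
    nlinarith
  have c2 : 0.25 / √(y : ℝ) ≤ ((2 * y : ℕ) : ℝ) / ((2 * ((2 * y : ℕ) : ℝ)) * √((2 * (2 * y) : ℕ) : ℝ)) := by
    rw [div_le_div_iff₀ hs (by positivity)]
    have h1 := mul_le_mul_of_nonneg_left s4 hy0.le
    push_cast at h1 ⊢
    nlinarith
  have c3 : 0.17665 / √(y : ℝ) ≤ ((4 * y : ℕ) : ℝ) / ((2 * ((4 * y : ℕ) : ℝ)) * √((2 * (4 * y) : ℕ) : ℝ)) := by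
    rw [div_le_div_iff₀ hs (by positivity)]
    have h1 := mul_le_mul_of_nonneg_left s8 hy0.le
    push_cast at h1 ⊢
    nlinarith
  have e : 0.78 / √(y : ℝ) ≤ 0.3535 / √(y : ℝ) + 0.25 / √(y : ℝ) + 0.17665 / √(y : ℝ) := by
    rw [← add_div, ← add_div]
    apply div_le_div_of_nonneg_right (by norm_num) hs.le
  linarith

lemma sum_cE_ge (y : ℕ) : 2 * √((y : ℝ) + 1) - 2 ≤ ∑ j ∈ range y, cE j := by
  induction y with
  | zero => simp
  | succ y ih =>
    rw [Finset.sum_range_succ]
    have h1 := le_cE y
    have hs := sq_pos y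
    have hss := sq_sq y
    have h2 : √(((y + 1 : ℕ) : ℝ) + 1) ≤ sq y + 1 / (2 * sq y) := by
      apply Real.sqrt_le_iff.mpr
      constructor
      · positivity
      · have e : (sq y + 1 / (2 * sq y)) ^ 2 = sq y * sq y + 1 + (1 / (2 * sq y)) ^ 2 := by
          field_simp
          ring
        rw [e, hss]
        push_cast
        have : 0 ≤ (1 / (2 * sq y)) ^ 2 := by positivity
        linarith
    have e : 1 / sq y = 2 * (1 / (2 * sq y)) := by field_simp
    have e2 : √((y : ℝ) + 1) = sq y := rfl
    rw [e2] at ih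
    linarith

lemma TW_le (m : ℕ) (hm : 1 ≤ m) : ∑ i ∈ range m, tn (m - 1 - i) * WW i ≤ 1.1 * (2 * √(m : ℝ) - 2) := by
  induction m, hm using Nat.le_induction with
  | base => simp [WW]
  | succ m hm ih =>
    have hmr : (1 : ℝ) ≤ m := by exact_mod_cast hm
    have e1 : ∑ i ∈ range (m + 1), tn (m + 1 - 1 - i) * WW i =
        ∑ i ∈ range m, tn (m - 1 - i) * WW i + ∑ i ∈ range m, tn (m - 1 - i) * ww i := by
      rw [Finset.sum_range_succ']
      have : WW 0 = 0 := by simp [WW]
      rw [this, mul_zero, add_zero, ← Finset.sum_add_distrib]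
      apply Finset.sum_congr rfl
      intro i _
      have q : m + 1 - 1 - (i + 1) = m - 1 - i := by omega
      have eW : WW (i + 1) = WW i + ww i := by unfold WW; rw [Finset.sum_range_succ]
      rw [q, eW]
      ring
    have e2 : ∑ i ∈ range m, tn (m - 1 - i) * ww i = (m : ℝ) * tn m := by
      rw [← sum_tn_ww m]
      obtain ⟨p, rfl⟩ : ∃ p, m = p + 1 := ⟨m - 1, by omega⟩
      rw [← sum_rev (fun i => tn (p + 1 - 1 - i) * ww i) p]
      apply Finset.sum_congr rfl
      intro i hi
      have hi' := mem_range.mp hi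
      have q1 : p + 1 - 1 - (p - i) = i := by omega
      have q2 : p + 1 - 1 - i = p - i := by omega
      rw [q1, q2]
    rw [e1, e2]
    have h1 := succ_tn_le m
    have ht := tn_pos m
    have hs := sq_pos m
    have hss := sq_sq m
    have h2 : (m : ℝ) * tn m ≤ 1.1 / sq m := by nlinarith
    have h3 : 1 / sq m ≤ 2 * √((m + 1 : ℕ) : ℝ) - 2 * √(m : ℝ) := by
      have e3 : √((m + 1 : ℕ) : ℝ) = sq m := by unfold sq; push_cast; rfl
      rw [e3]
      have h4 : √(m : ℝ) ≤ sq m - 1 / (2 * sq m) := by
        apply Real.sqrt_le_iff.mpr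
        constructor
        · rw [sub_nonneg, div_le_iff₀ (by positivity)]
          nlinarith
        · have e : (sq m - 1 / (2 * sq m)) ^ 2 = sq m * sq m - 1 + (1 / (2 * sq m)) ^ 2 := by
            field_simp
            ring
          rw [e, hss]
          have : 0 ≤ (1 / (2 * sq m)) ^ 2 := by positivity
          linarith
      have e : 1 / sq m = 2 * (1 / (2 * sq m)) := by field_simp
      linarith
    have e4 : 1.1 / sq m = 1.1 * (1 / sq m) := by ring
    rw [e4] at h2
    linarith

lemma sum_tww (m : ℕ) : ∑ r ∈ range m, tn (m - 1 - r) * ww r = (m : ℝ) * tn m := by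
  rw [← sum_tn_ww m]
  rcases Nat.eq_zero_or_pos m with rfl | hm
  · simp
  · obtain ⟨p, rfl⟩ : ∃ p, m = p + 1 := ⟨m - 1, by omega⟩
    rw [← sum_rev (fun i => tn (p + 1 - 1 - i) * ww i) p]
    apply Finset.sum_congr rfl
    intro i hi
    have hi' := mem_range.mp hi
    have q1 : p + 1 - 1 - (p - i) = i := by omega
    have q2 : p + 1 - 1 - i = p - i := by omega
    rw [q1, q2]

/-- upper bound of the second difference -/
lemma bb_up (L : ℕ) (hL : 1000000000000 ≤ L) : ∀ m : ℕ, 10000000000000 * (m + 1) ≤ L →
    bb L (m + 1) ≤ tn L / L * (-ww m + 2 * ((m : ℝ) + 1) / L) := by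
  have hLr : (1000000000000 : ℝ) ≤ L := by exact_mod_cast hL
  have hL0 : (0 : ℝ) < L := by linarith
  have ht := tn_pos L
  have hE := E_ge
  have hE' := E_le
  intro m
  induction m using Nat.strong_induction_on with
  | _ m ih =>
    intro hm
    obtain ⟨c, hc⟩ : ∃ c : ℝ, c = tn L / L := ⟨_, rfl⟩
    have hc0 : 0 < c := by rw [hc]; positivity
    have hcL : tn L = c * L := by rw [hc]; field_simp
    rw [← hc]
    have hm0 : (0 : ℝ) ≤ m := Nat.cast_nonneg m
    obtain ⟨y, hy⟩ : ∃ y : ℝ, y = (m : ℝ) + 1 := ⟨_, rfl⟩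
    have hy1 : 1 ≤ y := by rw [hy]; linarith
    have hy0 : 0 < y := by linarith
    have hyL : 10000000000000 * y ≤ L := by rw [hy]; exact_mod_cast hm
    have hs : 0 < √y := Real.sqrt_pos.mpr hy0
    have hss : √y * √y = y := Real.mul_self_sqrt hy0.le
    have hrec := bb_eq L m (by omega)
    rw [← hy] at hrec ⊢
    have hEw : E * ww m = y * tn m := by rw [hy]; exact E_ww m
    have hwm := ww_pos m
    have htm := tn_pos m
    rcases Nat.eq_zero_or_pos m with hm00 | hmpos
    · -- m = 0
      have hy1' : y = 1 := by rw [hy, hm00]; simp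
      rw [hm00] at hrec hEw ⊢
      simp only [zero_add, Finset.sum_range_one, bb_zero, mul_zero, Finset.sum_range_zero, zero_sub,
        tn_zero, one_mul] at hrec
      rw [hy1'] at hrec hEw ⊢
      rw [tn_zero, mul_one] at hEw
      have e : E * (((L : ℝ) + 1) * (c * (-ww 0 + 2 * 1 / L))) =
          -(c * L) + (-c + 2 * E * c * (1 + 1 / L)) := by
        have : E * (((L : ℝ) + 1) * (c * (-ww 0 + 2 * 1 / L))) =
            -(c * (L + 1)) * (E * ww 0) + 2 * E * c * (1 + 1 / L) := by
          field_simp
        rw [this, hEw]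
        ring
      have h1 : 0 ≤ -c + 2 * E * c * (1 + 1 / L) := by
        have h2 : 0 < 1 / (L : ℝ) := by positivity
        have h3 : c * 5.4 ≤ 2 * E * c := by nlinarith
        have h4 : 0 ≤ 2 * E * c * (1 / L) := by positivity
        nlinarith
      have hfin : E * (((L : ℝ) + 1) * bb L (0 + 1)) ≤ E * (((L : ℝ) + 1) * (c * (-ww 0 + 2 * 1 / L))) := by
        rw [e]
        have : E * (((L : ℝ) + 1) * bb L (0 + 1)) = -tn L := by
          rw [zero_add]
          exact hrec
        rw [this, hcL]
        linarith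
      have hN : (0 : ℝ) < (L : ℝ) + 1 := by positivity
      exact le_of_mul_le_mul_left (le_of_mul_le_mul_left hfin (by linarith)) hN
    · -- m ≥ 1
      obtain ⟨T, hT⟩ : ∃ T : ℝ, T = ∑ j ∈ range (m + 1), tn j := ⟨_, rfl⟩
      obtain ⟨C, hC⟩ : ∃ C : ℝ, C = ∑ j ∈ range (m + 1), cE j := ⟨_, rfl⟩
      -- the linear part
      have hsum : ∑ r ∈ range (m + 1), AA L m r * bb L r ≤
          c * (-(L * (m * tn m)) + 2 * (y * T - C) + 4.4 * (y * √y) / L) := by
        have h1 : ∑ r ∈ range (m + 1), AA L m r * bb L r ≤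
            ∑ r ∈ range m, AA L m (r + 1) * (c * (-ww r + 2 * ((r : ℝ) + 1) / L)) := by
          rw [Finset.sum_range_succ', bb_zero, mul_zero, add_zero]
          apply Finset.sum_le_sum
          intro r hr
          have hr' := mem_range.mp hr
          have h3 := ih r hr' (by omega)
          rw [← hc] at h3
          exact mul_le_mul_of_nonneg_left h3 (AA_nonneg _ _ _)
        refine h1.trans ?_
        have e1 : ∑ r ∈ range m, AA L m (r + 1) * (c * (-ww r + 2 * ((r : ℝ) + 1) / L)) =
            c * (-(∑ r ∈ range m, AA L m (r + 1) * ww r) +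
              2 / L * ∑ r ∈ range m, AA L m (r + 1) * ((r : ℝ) + 1)) := by
          rw [Finset.mul_sum, ← Finset.sum_neg_distrib, ← Finset.sum_add_distrib, Finset.mul_sum]
          apply Finset.sum_congr rfl
          intro r _
          ring
        rw [e1]
        apply mul_le_mul_of_nonneg_left _ hc0.le
        have h2 : L * (m * tn m) ≤ ∑ r ∈ range m, AA L m (r + 1) * ww r := by
          rw [← sum_tww m, Finset.mul_sum]
          apply Finset.sum_le_sum
          intro r hr
          have hr' := mem_range.mp hr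
          unfold AA
          have q : m - (r + 1) = m - 1 - r := by omega
          rw [q]
          have h3 := tn_pos (m - 1 - r)
          have h4 := ww_pos r
          have h5 : (0 : ℝ) ≤ ((m - 1 - r : ℕ) : ℝ) := Nat.cast_nonneg _
          have h6 : 0 < tn (m - 1 - r) * ww r := by positivity
          nlinarith
        have h3 : ∑ r ∈ range m, AA L m (r + 1) * ((r : ℝ) + 1) ≤
            L * (y * T - C) + 2.2 * (y * √y) := by
          have e2 : ∑ r ∈ range m, AA L m (r + 1) * ((r : ℝ) + 1) =
              ∑ j ∈ range (m + 1), ((L : ℝ) + j + 1) * (tn j * ((m - j : ℕ) : ℝ)) := by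
            rw [sum_AA L m (fun k => (k : ℝ)), Finset.sum_range_succ']
            simp only [Nat.cast_zero, mul_zero, add_zero]
            apply Finset.sum_congr rfl
            intro r _
            push_cast
            ring
          rw [e2]
          have e3 : L * (y * T - C) + 2.2 * (y * √y) = L * ∑ j ∈ range (m + 1), tn j * (y - (j + 1)) +
              2.2 * (y * √y) := by
            congr 2
            rw [hT, hC, Finset.mul_sum, ← Finset.sum_sub_distrib]
            apply Finset.sum_congr rfl
            intro j _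
            unfold cE
            ring
          rw [e3]
          have h4 : ∑ j ∈ range (m + 1), ((L : ℝ) + j + 1) * (tn j * ((m - j : ℕ) : ℝ)) ≤
              L * ∑ j ∈ range (m + 1), tn j * (y - (j + 1)) +
              y * ∑ j ∈ range (m + 1), ((j : ℝ) + 1) * tn j := by
            rw [Finset.mul_sum, Finset.mul_sum, ← Finset.sum_add_distrib]
            apply Finset.sum_le_sum
            intro j hj
            have hj' : j ≤ m := by have := mem_range.mp hj; omega
            have q : ((m - j : ℕ) : ℝ) = y - ((j : ℝ) + 1) := by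
              rw [Nat.cast_sub hj', hy]
              ring
            rw [q]
            have h5 := tn_pos j
            have h6 : (0 : ℝ) ≤ (j : ℝ) + 1 := by positivity
            have h7 : 0 ≤ ((j : ℝ) + 1) * tn j * ((j : ℝ) + 1) := by positivity
            nlinarith
          have h5 := sum_succ_tn_le (m + 1)
          have q : ((m + 1 : ℕ) : ℝ) = y := by rw [hy]; push_cast; ring
          rw [q] at h5
          have h6 := mul_le_mul_of_nonneg_left h5 hy0.le
          nlinarith
        have h4 : 2 / L * ∑ r ∈ range m, AA L m (r + 1) * ((r : ℝ) + 1) ≤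
            2 / L * (L * (y * T - C) + 2.2 * (y * √y)) :=
          mul_le_mul_of_nonneg_left h3 (by positivity)
        have e4 : 2 / L * (L * (y * T - C) + 2.2 * (y * √y)) = 2 * (y * T - C) + 4.4 * (y * √y) / L := by
          field_simp
          ring
        rw [e4] at h4
        linarith
      -- the source
      have hsrc : 2 * ∑ i ∈ range m, tn (m - 1 - i) * gg (L + 1) i ≤
          c * (2.02 * (1.1 * (2 * √(m : ℝ) - 2))) := by
        have h1 : ∑ i ∈ range m, tn (m - 1 - i) * gg (L + 1) i ≤
            ∑ i ∈ range m, 1.01 * c * (tn (m - 1 - i) * WW i) := by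
          apply Finset.sum_le_sum
          intro i hi
          have hi' := mem_range.mp hi
          have h3 := gg_ratio_up L hL i (by omega)
          have h4 := gg_le_WW L hL i (by omega)
          rw [← hc] at h4
          have h5 := tn_pos (m - 1 - i)
          have hW := WW_nonneg i
          have hir : (i : ℝ) ≤ y := by
            rw [hy]
            have : (i : ℝ) ≤ m := by exact_mod_cast hi'.le
            linarith
          have hi0 : (0 : ℝ) ≤ i := Nat.cast_nonneg i
          have h6 : 20000000000 * (i : ℝ) / L ≤ 0.002 := by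
            rw [div_le_iff₀ hL0]
            linarith
          have h7 : 10000000000 / (L : ℝ) ≤ 0.001 := by
            rw [div_le_iff₀ hL0]
            linarith
          have h8 : gg (L + 1) i ≤ 1.01 * (c * WW i) := by
            have h9 : 0 ≤ c * WW i := by positivity
            have h10 : (1 + 20000000000 * (i : ℝ) / L) * (c * WW i) ≤ 1.002 * (c * WW i) :=
              mul_le_mul_of_nonneg_right (by linarith) h9
            have h11 : gg L i ≤ 1.002 * (c * WW i) := h4.trans h10
            have h12 : (1 + 10000000000 / (L : ℝ)) * gg L i ≤ 1.001 * (1.002 * (c * WW i)) :=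
              mul_le_mul (by linarith) h11 (gg_nonneg _ _) (by norm_num)
            linarith
          calc tn (m - 1 - i) * gg (L + 1) i ≤ tn (m - 1 - i) * (1.01 * (c * WW i)) :=
                mul_le_mul_of_nonneg_left h8 h5.le
            _ = _ := by ring
        rw [← Finset.mul_sum] at h1
        have h2 := TW_le m hmpos
        have h3 : 1.01 * c * ∑ i ∈ range m, tn (m - 1 - i) * WW i ≤
            1.01 * c * (1.1 * (2 * √(m : ℝ) - 2)) := mul_le_mul_of_nonneg_left h2 (by positivity)
        linarith
      have htail := tail_ge (m + 1) (by omega)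
      have hcE := sum_cE_ge (m + 1)
      have q : ((m + 1 : ℕ) : ℝ) = y := by rw [hy]; push_cast; ring
      rw [q, ← hT] at htail
      rw [q, ← hC] at hcE
      have hcm := cE_le m
      have hsqm : sq m = √y := by unfold sq; rw [hy]
      rw [hsqm] at hcm
      have hcEm : cE m = y * tn m := by unfold cE; rw [hy]
      rw [hcEm] at hcm
      -- numeric inequality
      have hsm : √(m : ℝ) ≤ √y := Real.sqrt_le_sqrt (by rw [hy]; linarith)
      have hsy1 : √y ≤ √(y + 1) := Real.sqrt_le_sqrt (by linarith)
      have n1 : y * (y * tn m) ≤ 1.1 * √y := by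
        have h1 : y * (y * tn m) ≤ y * (1.1 / √y) := mul_le_mul_of_nonneg_left hcm hy0.le
        have h2 : y * (1.1 / √y) = 1.1 * √y := by
          rw [mul_div_assoc', div_eq_iff hs.ne']
          rw [mul_assoc, hss]
          ring
        linarith
      have n2 : 0.78 * √y ≤ y * (E - T) := by
        have h1 : y * (0.78 / √y) ≤ y * (E - T) := mul_le_mul_of_nonneg_left htail hy0.le
        have h2 : y * (0.78 / √y) = 0.78 * √y := by
          rw [mul_div_assoc', div_eq_iff hs.ne']
          rw [mul_assoc, hss]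
          ring
        linarith
      have n3 : 4.4 * (y * √y) / L ≤ 2 * E * (y * y) / L := by
        apply div_le_div_of_nonneg_right _ hL0.le
        have h1 : √y ≤ y := by nlinarith [Real.one_le_sqrt.mpr hy1]
        have h2 : y * √y ≤ y * y := mul_le_mul_of_nonneg_left h1 hy0.le
        have h3 : 5.4 * (y * y) ≤ 2 * E * (y * y) := mul_le_mul_of_nonneg_right (by linarith) (by positivity)
        have h4 : 0 < y * y := by positivity
        linarith
      have key : E * (((L : ℝ) + y) * bb L (m + 1)) ≤
          E * (((L : ℝ) + y) * (c * (-ww m + 2 * y / L))) := by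
        rw [hrec, hcL]
        have e : E * (((L : ℝ) + y) * (c * (-ww m + 2 * y / L))) =
            c * (-(L * (y * tn m)) - y * (y * tn m) + 2 * E * y + 2 * E * (y * y) / L) := by
          have e1 : E * (((L : ℝ) + y) * (c * (-ww m + 2 * y / L))) =
              c * (-((L + y) * (E * ww m)) + 2 * E * y + 2 * E * (y * y) / L) := by
            field_simp
            ring
          rw [e1, hEw]
          ring
        rw [e]
        have e2 : c * (-(L * (m * tn m)) + 2 * (y * T - C) + 4.4 * (y * √y) / L) +
            c * (2.02 * (1.1 * (2 * √(m : ℝ) - 2))) - tn m * (c * L) =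
            c * (-(L * (y * tn m)) + 2 * (y * T - C) + 4.4 * (y * √y) / L + 4.444 * √(m : ℝ) - 4.444) := by
          rw [hy]
          ring
        have h1 : c * (-(L * (y * tn m)) + 2 * (y * T - C) + 4.4 * (y * √y) / L + 4.444 * √(m : ℝ) - 4.444) ≤
            c * (-(L * (y * tn m)) - y * (y * tn m) + 2 * E * y + 2 * E * (y * y) / L) := by
          apply mul_le_mul_of_nonneg_left _ hc0.le
          nlinarith
        linarith
      have hN : (0 : ℝ) < (L : ℝ) + y := by positivity
      exact le_of_mul_le_mul_left (le_of_mul_le_mul_left key (by linarith)) hN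

end Pool.Agent.MP_9da1e3_co
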