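import Pool.Agent.Lib.MP_9da1e3_co.Wn2

namespace Pool.Agent.MP_9da1e3_co

open Finset

/-- two-sided bound of the second difference -/
lemma bb_abs (L : ℕ) (hL : 1000000000000 ≤ L) (m : ℕ) (hm : 10000000000000 * (m + 1) ≤ L) :
    |bb L (m + 1)| ≤ tn L / L * (ww m + 2 * ((m : ℝ) + 1) / L) := by
  have hLr : (1000000000000 : ℝ) ≤ L := by exact_mod_cast hL
  have hL0 : (0 : ℝ) < L := by linarith
  have h1 := bb_up L hL m hm
  have h2 := bb_ge_ww L (by omega) m (by omega)
  have ht := tn_pos L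
  have hw := ww_pos m
  obtain ⟨c, hc⟩ : ∃ c : ℝ, c = tn L / L := ⟨_, rfl⟩
  have hc0 : 0 < c := by rw [hc]; positivity
  rw [← hc] at h1 h2 ⊢
  have h3 : 0 ≤ 2 * ((m : ℝ) + 1) / L := by positivity
  have h4 : 0 < c * ww m := by positivity
  have h5 : 0 ≤ c * (2 * ((m : ℝ) + 1) / L) := by positivity
  rw [abs_le]
  constructor <;> nlinarith

lemma le_sum_cE (y : ℕ) : √(y : ℝ) ≤ ∑ j ∈ range y, cE j := by
  rcases Nat.eq_zero_or_pos y with rfl | hy
  · simp
  · have hyr : (1 : ℝ) ≤ y := by exact_mod_cast hy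
    have hy0 : (0 : ℝ) < y := by linarith
    have hs : 0 < √(y : ℝ) := Real.sqrt_pos.mpr hy0
    have h1 : ∑ _j ∈ range y, 1 / √(y : ℝ) ≤ ∑ j ∈ range y, cE j := by
      apply Finset.sum_le_sum
      intro j hj
      have hj' := mem_range.mp hj
      refine le_trans ?_ (le_cE j)
      apply one_div_le_one_div_of_le (sq_pos j)
      unfold sq
      apply Real.sqrt_le_sqrt
      exact_mod_cast hj'
    rw [Finset.sum_const, card_range, nsmul_eq_mul] at h1
    refine le_trans (le_of_eq ?_) h1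
    rw [mul_one_div, eq_div_iff hs.ne']
    exact Real.mul_self_sqrt hy0.le

/-- `X = ∑ t b - E b` -/
lemma X_abs (L : ℕ) (hL : 1000000000000 ≤ L) (m : ℕ) (hm : 10000000000000 * (m + 1) ≤ L) (y : ℝ)
    (hy : y = (m : ℝ) + 1) :
    |∑ r ∈ range (m + 1), tn (m - r) * bb L r - E * bb L (m + 1)| ≤
      tn L / L / L * (7 * √y + 10 * (y * y) / L + L * tn m) := by
  have hLr : (1000000000000 : ℝ) ≤ L := by exact_mod_cast hL
  have hL0 : (0 : ℝ) < L := by linarith
  have ht := tn_pos L
  have hE := E_ge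
  have hE' := E_le
  obtain ⟨c, hc⟩ : ∃ c : ℝ, c = tn L / L := ⟨_, rfl⟩
  have hc0 : 0 < c := by rw [hc]; positivity
  have hcL : tn L = c * L := by rw [hc]; field_simp
  have hm0 : (0 : ℝ) ≤ m := Nat.cast_nonneg m
  have hy1 : 1 ≤ y := by rw [hy]; linarith
  have hy0 : 0 < y := by linarith
  have hyL : 10000000000000 * y ≤ L := by rw [hy]; exact_mod_cast hm
  have hs : 0 < √y := Real.sqrt_pos.mpr hy0
  have hss : √y * √y = y := Real.mul_self_sqrt hy0.le
  have hrec := bb_eq L m (by omega)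
  rw [← hy] at hrec
  have htm := tn_pos m
  have hsqm : sq m = √y := by unfold sq; rw [hy]
  have hcEm : cE m = y * tn m := by unfold cE; rw [hy]
  have hcm := cE_le m
  rw [hsqm, hcEm] at hcm
  have n1 : y * (y * tn m) ≤ 1.1 * √y := by
    have h1 : y * (y * tn m) ≤ y * (1.1 / √y) := mul_le_mul_of_nonneg_left hcm hy0.le
    have h2 : y * (1.1 / √y) = 1.1 * √y := by
      rw [mul_div_assoc', div_eq_iff hs.ne']
      rw [mul_assoc, hss]
      ring
    linarith
  -- decomposition
  have eA : ∑ r ∈ range (m + 1), AA L m r * bb L r = L * ∑ r ∈ range (m + 1), tn (m - r) * bb L r +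
      ∑ r ∈ range (m + 1), (((m - r : ℕ) : ℝ) + 1) * (tn (m - r) * bb L r) := by
    rw [Finset.mul_sum, ← Finset.sum_add_distrib]
    apply Finset.sum_congr rfl
    intro r _
    unfold AA
    ring
  obtain ⟨Y, hY⟩ : ∃ Y : ℝ, Y = ∑ r ∈ range (m + 1), (((m - r : ℕ) : ℝ) + 1) * (tn (m - r) * bb L r) := ⟨_, rfl⟩
  obtain ⟨G, hG⟩ : ∃ G : ℝ, G = ∑ i ∈ range m, tn (m - 1 - i) * gg (L + 1) i := ⟨_, rfl⟩
  rw [eA, ← hY, ← hG] at hrec
  have eX : ∑ r ∈ range (m + 1), tn (m - r) * bb L r - E * bb L (m + 1) =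
      (E * (y * bb L (m + 1)) - Y - 2 * G + tn m * tn L) / L := by
    rw [eq_div_iff hL0.ne']
    linarith
  rw [eX, abs_div, abs_of_pos hL0, div_le_iff₀ hL0]
  have eR : tn L / L / L * (7 * √y + 10 * (y * y) / L + L * tn m) * L =
      c * (7 * √y + 10 * (y * y) / L + L * tn m) := by
    rw [← hc]
    field_simp
  rw [eR]
  -- the four terms
  have hb := bb_abs L hL m hm
  rw [← hc, ← hy] at hb
  have t1 : |E * (y * bb L (m + 1))| ≤ c * (1.1 * √y + 5.5 * (y * y) / L) := by
    have hEp : 0 < E := by linarith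
    rw [abs_mul, abs_mul, abs_of_pos hEp, abs_of_pos hy0]
    have h1 : E * (y * |bb L (m + 1)|) ≤ E * (y * (c * (ww m + 2 * y / L))) := by
      apply mul_le_mul_of_nonneg_left _ hEp.le
      exact mul_le_mul_of_nonneg_left hb hy0.le
    refine h1.trans ?_
    have hEw : E * ww m = y * tn m := by rw [hy]; exact E_ww m
    have e1 : E * (y * (c * (ww m + 2 * y / L))) = c * (y * (E * ww m) + 2 * E * (y * y) / L) := by
      field_simp
    rw [e1, hEw]
    apply mul_le_mul_of_nonneg_left _ hc0.le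
    have h2 : 2 * E * (y * y) / L ≤ 5.5 * (y * y) / L := by
      apply div_le_div_of_nonneg_right _ hL0.le
      apply mul_le_mul_of_nonneg_right _ (by positivity)
      linarith
    linarith
  have t2 : |Y| ≤ c * (1.1 * √y + 4.4 * (y * y) / L) := by
    rw [hY, Finset.sum_range_succ', bb_zero, mul_zero, mul_zero, add_zero]
    refine (Finset.abs_sum_le_sum_abs _ _).trans ?_
    have h1 : ∀ r ∈ range m, |(((m - (r + 1) : ℕ) : ℝ) + 1) * (tn (m - (r + 1)) * bb L (r + 1))| ≤
        c * (y * (tn (m - 1 - r) * ww r)) + c * (2 / L) * y * ((((m - 1 - r : ℕ) : ℝ) + 1) * tn (m - 1 - r)) := by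
      intro r hr
      have hr' := mem_range.mp hr
      have q : m - (r + 1) = m - 1 - r := by omega
      rw [q]
      have h2 := bb_abs L hL r (by omega)
      rw [← hc] at h2
      have h3 := tn_pos (m - 1 - r)
      have h4 : (0 : ℝ) ≤ ((m - 1 - r : ℕ) : ℝ) := Nat.cast_nonneg _
      have h5 : ((m - 1 - r : ℕ) : ℝ) + 1 ≤ y := by
        rw [hy]
        exact_mod_cast (by omega : m - 1 - r + 1 ≤ m + 1)
      have h6 : (r : ℝ) + 1 ≤ y := by
        rw [hy]
        exact_mod_cast (by omega : r + 1 ≤ m + 1)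
      have hw := ww_pos r
      have hr0 : (0 : ℝ) ≤ r := Nat.cast_nonneg r
      rw [abs_mul, abs_mul, abs_of_pos h3, abs_of_nonneg (by positivity : (0 : ℝ) ≤ ((m - 1 - r : ℕ) : ℝ) + 1)]
      have h7 : (((m - 1 - r : ℕ) : ℝ) + 1) * (tn (m - 1 - r) * |bb L (r + 1)|) ≤
          (((m - 1 - r : ℕ) : ℝ) + 1) * (tn (m - 1 - r) * (c * (ww r + 2 * ((r : ℝ) + 1) / L))) := by
        apply mul_le_mul_of_nonneg_left _ (by positivity)
        exact mul_le_mul_of_nonneg_left h2 h3.le
      refine h7.trans ?_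
      have e1 : (((m - 1 - r : ℕ) : ℝ) + 1) * (tn (m - 1 - r) * (c * (ww r + 2 * ((r : ℝ) + 1) / L))) =
          (((m - 1 - r : ℕ) : ℝ) + 1) * (c * (tn (m - 1 - r) * ww r)) +
          ((r : ℝ) + 1) * (c * (2 / L) * ((((m - 1 - r : ℕ) : ℝ) + 1) * tn (m - 1 - r))) := by
        field_simp
      rw [e1]
      have h8 : (((m - 1 - r : ℕ) : ℝ) + 1) * (c * (tn (m - 1 - r) * ww r)) ≤
          y * (c * (tn (m - 1 - r) * ww r)) := mul_le_mul_of_nonneg_right h5 (by positivity)
      have h9 : ((r : ℝ) + 1) * (c * (2 / L) * ((((m - 1 - r : ℕ) : ℝ) + 1) * tn (m - 1 - r))) ≤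
          y * (c * (2 / L) * ((((m - 1 - r : ℕ) : ℝ) + 1) * tn (m - 1 - r))) :=
        mul_le_mul_of_nonneg_right h6 (by positivity)
      linarith
    refine (Finset.sum_le_sum h1).trans ?_
    rw [Finset.sum_add_distrib, ← Finset.mul_sum, ← Finset.mul_sum, ← Finset.mul_sum, sum_tww]
    have h2 : ∑ r ∈ range m, (((m - 1 - r : ℕ) : ℝ) + 1) * tn (m - 1 - r) ≤ 2.2 * √y := by
      have h3 := sum_succ_tn_le m
      have e : ∑ r ∈ range m, (((m - 1 - r : ℕ) : ℝ) + 1) * tn (m - 1 - r) =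
          ∑ j ∈ range m, ((j : ℝ) + 1) * tn j :=
        Finset.sum_range_reflect (fun j => ((j : ℝ) + 1) * tn j) m
      rw [e]
      have h4 : √(m : ℝ) ≤ √y := Real.sqrt_le_sqrt (by rw [hy]; linarith)
      linarith
    have h3 : c * (2 / L) * y * ∑ r ∈ range m, (((m - 1 - r : ℕ) : ℝ) + 1) * tn (m - 1 - r) ≤
        c * (2 / L) * y * (2.2 * √y) := mul_le_mul_of_nonneg_left h2 (by positivity)
    have h4 : c * (2 / L) * y * (2.2 * √y) ≤ c * (4.4 * (y * y) / L) := by
      have e : c * (2 / L) * y * (2.2 * √y) = c * (4.4 * (y * √y) / L) := by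
        field_simp
        ring
      rw [e]
      apply mul_le_mul_of_nonneg_left _ hc0.le
      apply div_le_div_of_nonneg_right _ hL0.le
      have h1 : √y ≤ y := by nlinarith [Real.one_le_sqrt.mpr hy1]
      have h2 : y * √y ≤ y * y := mul_le_mul_of_nonneg_left h1 hy0.le
      linarith
    have h5 : c * (y * ((m : ℝ) * tn m)) ≤ c * (1.1 * √y) := by
      apply mul_le_mul_of_nonneg_left _ hc0.le
      have : y * ((m : ℝ) * tn m) ≤ y * (y * tn m) := by
        apply mul_le_mul_of_nonneg_left _ hy0.le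
        apply mul_le_mul_of_nonneg_right _ htm.le
        rw [hy]
        linarith
      linarith
    have e6 : c * (1.1 * √y + 4.4 * (y * y) / L) = c * (1.1 * √y) + c * (4.4 * (y * y) / L) := by ring
    rw [e6]
    linarith
  have hG0 : 0 ≤ G := by
    rw [hG]
    exact Finset.sum_nonneg fun i _ => mul_nonneg (tn_pos _).le (gg_nonneg _ _)
  have t3 : 2 * G ≤ c * (4.6 * √y) := by
    have h1 : G ≤ ∑ i ∈ range m, 1.01 * c * (tn (m - 1 - i) * WW i) := by
      rw [hG]
      apply Finset.sum_le_sum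
      intro i hi
      have hi' := mem_range.mp hi
      have h3 := gg_ratio_up L hL i (by omega)
      have h4 := gg_le_WW L hL i (by omega)
      rw [← hc] at h4
      have h5 := tn_pos (m - 1 - i)
      have hW := WW_nonneg i
      have hir : (i : ℝ) ≤ y := by
        rw [hy]
        have : (i : ℝ) ≤ m := by exact_mod_cast hi'.le
        linarith
      have h6 : 20000000000 * (i : ℝ) / L ≤ 0.002 := by
        rw [div_le_iff₀ hL0]
        linarith
      have h7 : 10000000000 / (L : ℝ) ≤ 0.001 := by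
        rw [div_le_iff₀ hL0]
        linarith
      have h8 : gg (L + 1) i ≤ 1.01 * (c * WW i) := by
        have h9 : 0 ≤ c * WW i := by positivity
        have h10 : (1 + 20000000000 * (i : ℝ) / L) * (c * WW i) ≤ 1.002 * (c * WW i) :=
          mul_le_mul_of_nonneg_right (by linarith) h9
        have h11 : gg L i ≤ 1.002 * (c * WW i) := h4.trans h10
        have h12 : (1 + 10000000000 / (L : ℝ)) * gg L i ≤ 1.001 * (1.002 * (c * WW i)) :=
          mul_le_mul (by linarith) h11 (gg_nonneg _ _) (by norm_num)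
        linarith
      calc tn (m - 1 - i) * gg (L + 1) i ≤ tn (m - 1 - i) * (1.01 * (c * WW i)) :=
            mul_le_mul_of_nonneg_left h8 h5.le
        _ = _ := by ring
    rw [← Finset.mul_sum] at h1
    rcases Nat.eq_zero_or_pos m with hm00 | hmpos
    · rw [hm00, Finset.sum_range_zero, mul_zero] at h1
      have : 0 ≤ c * (4.6 * √y) := by positivity
      linarith
    · have h2 := TW_le m hmpos
      have h3 : 1.01 * c * ∑ i ∈ range m, tn (m - 1 - i) * WW i ≤
          1.01 * c * (1.1 * (2 * √(m : ℝ) - 2)) := mul_le_mul_of_nonneg_left h2 (by positivity)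
      have h4 : √(m : ℝ) ≤ √y := Real.sqrt_le_sqrt (by rw [hy]; linarith)
      have h5 : 1.01 * c * (1.1 * (2 * √(m : ℝ) - 2)) ≤ c * (2.3 * √y) := by
        have e : 1.01 * c * (1.1 * (2 * √(m : ℝ) - 2)) = c * (2.222 * √(m : ℝ) - 2.222) := by ring
        rw [e]
        apply mul_le_mul_of_nonneg_left _ hc0.le
        linarith
      linarith
  have t4 : tn m * tn L = c * (L * tn m) := by rw [hcL]; ring
  have h1 := abs_le.mp t1
  have h2 := abs_le.mp t2
  have hpos : 0 < c * (L * tn m) := by positivity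
  have e7 : c * (7 * √y + 10 * (y * y) / L + L * tn m) =
      c * (1.1 * √y + 5.5 * (y * y) / L) + c * (1.1 * √y + 4.4 * (y * y) / L) + c * (4.6 * √y) +
      c * (L * tn m) + c * (0.2 * √y + 0.1 * (y * y) / L) := by
    field_simp
    ring
  have h3 : 0 ≤ c * (0.2 * √y + 0.1 * (y * y) / L) := by positivity
  rw [abs_le, e7, t4]
  constructor
  · linarith [h1.1, h2.2]
  · linarith [h1.2, h2.1]

end Pool.Agent.MP_9da1e3_co
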