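import Pool.Agent.Lib.MP_9da1e3_co.Wn3

namespace Pool.Agent.MP_9da1e3_co

open Finset

/-- the barrier for the dependence of `bb` on `L` -/
noncomputable def Psi2 (L : ℕ) : ℕ → ℝ
  | 0 => 0
  | m + 1 => tn L / L / L * (3 * ww m + 2 * 10 ^ 36 * ((m : ℝ) + 1) / L)

lemma Psi2_zero (L : ℕ) : Psi2 L 0 = 0 := rfl

lemma Psi2_succ (L m : ℕ) : Psi2 L (m + 1) =
    tn L / L / L * (3 * ww m + 2 * 10 ^ 36 * ((m : ℝ) + 1) / L) := rfl

lemma Psi2_nonneg (L m : ℕ) : 0 ≤ Psi2 L m := by
  rcases m with _ | m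
  · exact le_of_eq (Psi2_zero L).symm
  · rw [Psi2_succ]
    have := tn_pos L
    have := ww_pos m
    positivity

/-- the barrier is a supersolution -/
lemma Psi2_super (L : ℕ) (hL : 1 ≤ L) (m : ℕ) (y : ℝ) (hy : y = (m : ℝ) + 1) :
    ∑ r ∈ range (m + 1), AA (L + 1) m r * Psi2 L r +
      tn L / L / L * (3 * (L * tn m) + 2 * 10 ^ 36 * √y) ≤
    E * (((L : ℝ) + 1 + y) * Psi2 L (m + 1)) := by
  have hLr : (1 : ℝ) ≤ L := by exact_mod_cast hL
  have hL0 : (0 : ℝ) < L := by linarith
  have ht := tn_pos L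
  have htm := tn_pos m
  have hE := E_ge
  obtain ⟨κ, hκ⟩ : ∃ κ : ℝ, κ = tn L / L / L := ⟨_, rfl⟩
  have hκ0 : 0 < κ := by rw [hκ]; positivity
  obtain ⟨A, hA⟩ : ∃ A : ℝ, A = 2 * 10 ^ 36 := ⟨_, rfl⟩
  have hA0 : 0 < A := by rw [hA]; positivity
  have hm0 : (0 : ℝ) ≤ m := Nat.cast_nonneg m
  have hy1 : 1 ≤ y := by rw [hy]; linarith
  have hy0 : 0 < y := by linarith
  have e0 : ∑ r ∈ range (m + 1), AA (L + 1) m r * Psi2 L r =
      κ * (3 * ∑ r ∈ range m, AA (L + 1) m (r + 1) * ww r +
        A / L * ∑ r ∈ range m, AA (L + 1) m (r + 1) * ((r : ℝ) + 1)) := by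
    rw [Finset.sum_range_succ', Psi2_zero, mul_zero, add_zero, Finset.mul_sum, Finset.mul_sum,
      ← Finset.sum_add_distrib, Finset.mul_sum]
    apply Finset.sum_congr rfl
    intro r _
    rw [Psi2_succ, ← hκ, ← hA]
    ring
  rw [e0, Psi2_succ, ← hκ, ← hA, ← hy]
  have hEw : E * ww m = y * tn m := by rw [hy]; exact E_ww m
  -- first part
  have h1 : ∑ r ∈ range m, AA (L + 1) m (r + 1) * ww r ≤ ((L : ℝ) + 1 + y) * (m * tn m) := by
    rw [← sum_tww m, Finset.mul_sum]
    apply Finset.sum_le_sum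
    intro r hr
    have hr' := mem_range.mp hr
    unfold AA
    have q : m - (r + 1) = m - 1 - r := by omega
    rw [q]
    have h3 := tn_pos (m - 1 - r)
    have h4 := ww_pos r
    have h5 : ((m - 1 - r : ℕ) : ℝ) + 1 ≤ y := by
      rw [hy]
      exact_mod_cast (by omega : m - 1 - r + 1 ≤ m + 1)
    have h6 : 0 < tn (m - 1 - r) * ww r := by positivity
    push_cast
    nlinarith
  -- second part
  obtain ⟨T, hT⟩ : ∃ T : ℝ, T = ∑ j ∈ range (m + 1), tn j := ⟨_, rfl⟩
  obtain ⟨C, hC⟩ : ∃ C : ℝ, C = ∑ j ∈ range (m + 1), cE j := ⟨_, rfl⟩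
  have hTE : T ≤ E := by rw [hT]; exact sum_tn_le _
  have hC1 : √y ≤ C := by
    rw [hC]
    have h3 := le_sum_cE (m + 1)
    have q : ((m + 1 : ℕ) : ℝ) = y := by rw [hy]; push_cast; ring
    rw [q] at h3
    exact h3
  have hC0 : 0 ≤ C := (Real.sqrt_nonneg _).trans hC1
  have h2 : ∑ r ∈ range m, AA (L + 1) m (r + 1) * ((r : ℝ) + 1) ≤
      ((L : ℝ) + 1 + y) * (y * T - C) := by
    have e2 : ∑ r ∈ range m, AA (L + 1) m (r + 1) * ((r : ℝ) + 1) =
        ∑ j ∈ range (m + 1), (((L + 1 : ℕ) : ℝ) + j + 1) * (tn j * ((m - j : ℕ) : ℝ)) := by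
      rw [sum_AA (L + 1) m (fun k => (k : ℝ)), Finset.sum_range_succ']
      simp only [Nat.cast_zero, mul_zero, add_zero]
      apply Finset.sum_congr rfl
      intro r _
      push_cast
      ring
    rw [e2]
    have e3 : y * T - C = ∑ j ∈ range (m + 1), tn j * (y - (j + 1)) := by
      rw [hT, hC, Finset.mul_sum, ← Finset.sum_sub_distrib]
      apply Finset.sum_congr rfl
      intro j _
      unfold cE
      ring
    rw [e3, Finset.mul_sum]
    apply Finset.sum_le_sum
    intro j hj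
    have hj' : j ≤ m := by have := mem_range.mp hj; omega
    have q : ((m - j : ℕ) : ℝ) = y - ((j : ℝ) + 1) := by
      rw [Nat.cast_sub hj', hy]
      ring
    rw [q]
    have h5 := tn_pos j
    have hjm : (j : ℝ) ≤ m := by exact_mod_cast hj'
    apply mul_le_mul_of_nonneg_right
    · push_cast
      linarith
    · apply mul_nonneg h5.le
      rw [hy]
      linarith
  have h3 : A / L * ∑ r ∈ range m, AA (L + 1) m (r + 1) * ((r : ℝ) + 1) ≤
      A / L * (((L : ℝ) + 1 + y) * (y * T - C)) := mul_le_mul_of_nonneg_left h2 (by positivity)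
  have h4 : A / L * (((L : ℝ) + 1 + y) * (y * T - C)) ≤ A / L * (((L : ℝ) + 1 + y) * (E * y)) - A * √y := by
    have h5 : ((L : ℝ) + 1 + y) * (y * T) ≤ ((L : ℝ) + 1 + y) * (E * y) := by
      apply mul_le_mul_of_nonneg_left _ (by positivity)
      rw [mul_comm E y]
      exact mul_le_mul_of_nonneg_left hTE hy0.le
    have h6 : L * √y ≤ ((L : ℝ) + 1 + y) * C := by
      apply mul_le_mul (by linarith) hC1 (Real.sqrt_nonneg _) (by positivity)
    have h7 : ((L : ℝ) + 1 + y) * (y * T - C) ≤ ((L : ℝ) + 1 + y) * (E * y) - L * √y := by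
      have e : ((L : ℝ) + 1 + y) * (y * T - C) = ((L : ℝ) + 1 + y) * (y * T) - ((L : ℝ) + 1 + y) * C := by
        ring
      rw [e]
      linarith
    have h8 := mul_le_mul_of_nonneg_left h7 (show 0 ≤ A / L by positivity)
    have e : A / L * (((L : ℝ) + 1 + y) * (E * y) - L * √y) = A / L * (((L : ℝ) + 1 + y) * (E * y)) - A * √y := by
      field_simp
    rw [e] at h8
    exact h8
  have e9 : E * (((L : ℝ) + 1 + y) * (κ * (3 * ww m + A * y / L))) =
      κ * (3 * (((L : ℝ) + 1 + y) * (E * ww m)) + A / L * (((L : ℝ) + 1 + y) * (E * y))) := by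
    field_simp
  rw [e9, hEw]
  have e10 : κ * (3 * ∑ r ∈ range m, AA (L + 1) m (r + 1) * ww r +
        A / L * ∑ r ∈ range m, AA (L + 1) m (r + 1) * ((r : ℝ) + 1)) + κ * (3 * (L * tn m) + A * √y) =
      κ * (3 * ∑ r ∈ range m, AA (L + 1) m (r + 1) * ww r +
        A / L * ∑ r ∈ range m, AA (L + 1) m (r + 1) * ((r : ℝ) + 1) + 3 * (L * tn m) + A * √y) := by
    ring
  rw [e10]
  apply mul_le_mul_of_nonneg_left _ hκ0.le
  have h11 : ((L : ℝ) + 1 + y) * (y * tn m) = ((L : ℝ) + 1 + y) * (m * tn m) + ((L : ℝ) + 1 + y) * tn m := by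
    rw [hy]
    ring
  rw [h11]
  have h12 : 0 ≤ (1 + y) * tn m := by positivity
  nlinarith

/-- the dependence of `bb` on `L` -/
lemma db_abs (L : ℕ) (hL : 1000000000000 ≤ L) : ∀ m : ℕ, 10000000000000 * (m + 1) ≤ L →
    ((m : ℝ) + 1) * √((m : ℝ) + 1) ≤ 10 ^ 35 * L →
    |bb (L + 1) (m + 1) - bb L (m + 1)| ≤ Psi2 L (m + 1) := by
  have hLr : (1000000000000 : ℝ) ≤ L := by exact_mod_cast hL
  have hL0 : (0 : ℝ) < L := by linarith
  have ht := tn_pos L
  have hE := E_ge
  intro m
  induction m using Nat.strong_induction_on with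
  | _ m ih =>
    intro hm hw
    obtain ⟨c, hc⟩ : ∃ c : ℝ, c = tn L / L := ⟨_, rfl⟩
    have hc0 : 0 < c := by rw [hc]; positivity
    have hcL : tn L = c * L := by rw [hc]; field_simp
    have hm0 : (0 : ℝ) ≤ m := Nat.cast_nonneg m
    obtain ⟨y, hy⟩ : ∃ y : ℝ, y = (m : ℝ) + 1 := ⟨_, rfl⟩
    have hy1 : 1 ≤ y := by rw [hy]; linarith
    have hy0 : 0 < y := by linarith
    have hyL : 10000000000000 * y ≤ L := by rw [hy]; exact_mod_cast hm
    rw [← hy] at hw
    have hs : 0 < √y := Real.sqrt_pos.mpr hy0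
    have hss : √y * √y = y := Real.mul_self_sqrt hy0.le
    have htm := tn_pos m
    have r1 := bb_eq L m (by omega)
    have r2 := bb_eq (L + 1) m (by omega)
    rw [← hy] at r1 r2
    have hX := X_abs L hL m hm y hy
    rw [← hc] at hX
    have hsup := Psi2_super L (by omega) m y hy
    rw [← hc] at hsup
    -- the difference of the recursions
    have eAA : ∑ r ∈ range (m + 1), AA (L + 1) m r * bb (L + 1) r =
        ∑ r ∈ range (m + 1), AA (L + 1) m r * (bb (L + 1) r - bb L r) +
        ∑ r ∈ range (m + 1), AA L m r * bb L r + ∑ r ∈ range (m + 1), tn (m - r) * bb L r := by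
      rw [← Finset.sum_add_distrib, ← Finset.sum_add_distrib]
      apply Finset.sum_congr rfl
      intro r _
      unfold AA
      push_cast
      ring
    obtain ⟨X, hXd⟩ : ∃ X : ℝ, X = ∑ r ∈ range (m + 1), tn (m - r) * bb L r - E * bb L (m + 1) := ⟨_, rfl⟩
    rw [← hXd] at hX
    have hdiff : E * (((L : ℝ) + 1 + y) * (bb (L + 1) (m + 1) - bb L (m + 1))) =
        ∑ r ∈ range (m + 1), AA (L + 1) m r * (bb (L + 1) r - bb L r) + X +
        2 * ∑ i ∈ range m, tn (m - 1 - i) * (gg (L + 1 + 1) i - gg (L + 1) i) +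
        tn m * (tn L - tn (L + 1)) := by
      have e1 : ∑ i ∈ range m, tn (m - 1 - i) * (gg (L + 1 + 1) i - gg (L + 1) i) =
          ∑ i ∈ range m, tn (m - 1 - i) * gg (L + 1 + 1) i - ∑ i ∈ range m, tn (m - 1 - i) * gg (L + 1) i := by
        rw [← Finset.sum_sub_distrib]
        apply Finset.sum_congr rfl
        intro i _
        ring
      rw [e1, hXd]
      rw [eAA] at r2
      push_cast at r2
      linarith
    -- bound of the first sum
    have hS : |∑ r ∈ range (m + 1), AA (L + 1) m r * (bb (L + 1) r - bb L r)| ≤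
        ∑ r ∈ range (m + 1), AA (L + 1) m r * Psi2 L r := by
      refine (Finset.abs_sum_le_sum_abs _ _).trans ?_
      apply Finset.sum_le_sum
      intro r hr
      have hr' := mem_range.mp hr
      rw [abs_mul, abs_of_nonneg (AA_nonneg _ _ _)]
      apply mul_le_mul_of_nonneg_left _ (AA_nonneg _ _ _)
      rcases r with _ | r
      · rw [bb_zero, bb_zero, sub_zero, abs_zero, Psi2_zero]
      · apply ih r (by omega) (by omega)
        refine le_trans (mul_sqrt_mono (by positivity) ?_) hw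
        rw [hy]
        have : (r : ℝ) ≤ m := by exact_mod_cast (by omega : r ≤ m)
        linarith
    -- bound of the third sum
    have hG : |2 * ∑ i ∈ range m, tn (m - 1 - i) * (gg (L + 1 + 1) i - gg (L + 1) i)| ≤
        c / L * (10 ^ 12 * √y) := by
      rw [abs_mul, abs_of_pos (by norm_num : (0 : ℝ) < 2)]
      have h1 : |∑ i ∈ range m, tn (m - 1 - i) * (gg (L + 1 + 1) i - gg (L + 1) i)| ≤
          ∑ i ∈ range m, 200000000000 / L * (1.01 * c) * (tn (m - 1 - i) * WW i) := by
        refine (Finset.abs_sum_le_sum_abs _ _).trans ?_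
        apply Finset.sum_le_sum
        intro i hi
        have hi' := mem_range.mp hi
        have h5 := tn_pos (m - 1 - i)
        rw [abs_mul, abs_of_pos h5]
        have h3 := gg_ratio_up L hL i (by omega)
        have h4 := gg_le_WW L hL i (by omega)
        rw [← hc] at h4
        have hW := WW_nonneg i
        have hir : (i : ℝ) ≤ y := by
          rw [hy]
          have : (i : ℝ) ≤ m := by exact_mod_cast hi'.le
          linarith
        have h6 : 20000000000 * (i : ℝ) / L ≤ 0.002 := by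
          rw [div_le_iff₀ hL0]
          linarith
        have h7 : 10000000000 / (L : ℝ) ≤ 0.001 := by
          rw [div_le_iff₀ hL0]
          linarith
        have h8 : gg (L + 1) i ≤ 1.01 * (c * WW i) := by
          have h9 : 0 ≤ c * WW i := by positivity
          have h10 : (1 + 20000000000 * (i : ℝ) / L) * (c * WW i) ≤ 1.002 * (c * WW i) :=
            mul_le_mul_of_nonneg_right (by linarith) h9
          have h11 : gg L i ≤ 1.002 * (c * WW i) := h4.trans h10
          have h12 : (1 + 10000000000 / (L : ℝ)) * gg L i ≤ 1.001 * (1.002 * (c * WW i)) :=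
            mul_le_mul (by linarith) h11 (gg_nonneg _ _) (by norm_num)
          linarith
        have hg0 := gg_nonneg (L + 1) i
        have h9 := gg_ratio_up (L + 1) (by omega) i (by omega)
        have h10 := gg_ratio (L + 1) (by omega) i (by omega)
        have hLs : ((L + 1 : ℕ) : ℝ) = L + 1 := by push_cast; ring
        rw [hLs] at h9 h10
        have h11 : 10000000000 / ((L : ℝ) + 1) ≤ 200000000000 / L := by
          rw [div_le_div_iff₀ (by positivity) hL0]
          linarith
        have h12 : 200000000000 / ((L : ℝ) + 1) ≤ 200000000000 / L := by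
          apply div_le_div_of_nonneg_left (by norm_num) hL0
          linarith
        have h13 : |gg (L + 1 + 1) i - gg (L + 1) i| ≤ 200000000000 / L * gg (L + 1) i := by
          have h14 := mul_le_mul_of_nonneg_right h11 hg0
          have h15 := mul_le_mul_of_nonneg_right h12 hg0
          rw [abs_le]
          constructor
          · linarith
          · linarith
        have h14 : 200000000000 / L * gg (L + 1) i ≤ 200000000000 / L * (1.01 * (c * WW i)) :=
          mul_le_mul_of_nonneg_left h8 (by positivity)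
        calc tn (m - 1 - i) * |gg (L + 1 + 1) i - gg (L + 1) i| ≤
              tn (m - 1 - i) * (200000000000 / L * (1.01 * (c * WW i))) :=
              mul_le_mul_of_nonneg_left (h13.trans h14) h5.le
          _ = _ := by ring
      rw [← Finset.mul_sum] at h1
      have h2 : ∑ i ∈ range m, tn (m - 1 - i) * WW i ≤ 2.2 * √y := by
        rcases Nat.eq_zero_or_pos m with hm00 | hmpos
        · rw [hm00, Finset.sum_range_zero]
          positivity
        · have h3 := TW_le m hmpos
          have h4 : √(m : ℝ) ≤ √y := Real.sqrt_le_sqrt (by rw [hy]; linarith)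
          linarith
      have h3 : 200000000000 / L * (1.01 * c) * ∑ i ∈ range m, tn (m - 1 - i) * WW i ≤
          200000000000 / L * (1.01 * c) * (2.2 * √y) := mul_le_mul_of_nonneg_left h2 (by positivity)
      have h4 : 2 * (200000000000 / L * (1.01 * c) * (2.2 * √y)) ≤ c / L * (10 ^ 12 * √y) := by
        have e : 2 * (200000000000 / L * (1.01 * c) * (2.2 * √y)) = c / L * (888800000000 * √y) := by
          field_simp
          norm_num
        rw [e]
        apply mul_le_mul_of_nonneg_left _ (by positivity)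
        apply mul_le_mul_of_nonneg_right (by norm_num) hs.le
      linarith
    have hT : |tn m * (tn L - tn (L + 1))| ≤ c / L * (1.66 * (L * tn m)) := by
      have h1 := tn_anti L
      have h2 := tn_succ_sharp L (by omega)
      rw [abs_of_nonneg (mul_nonneg htm.le (by linarith))]
      have h3 : tn L - tn (L + 1) ≤ 1.66 / L * tn L := by linarith
      calc tn m * (tn L - tn (L + 1)) ≤ tn m * (1.66 / L * tn L) := mul_le_mul_of_nonneg_left h3 htm.le
        _ = _ := by rw [hcL]; field_simp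
    have hw2 : 10 * (y * y) / L ≤ 10 ^ 36 * √y := by
      rw [div_le_iff₀ hL0]
      have h1 : (y * √y) * √y ≤ (10 ^ 35 * L) * √y := mul_le_mul_of_nonneg_right hw hs.le
      have e : (y * √y) * √y = y * y := by rw [mul_assoc, hss]
      rw [e] at h1
      have e36 : (10 : ℝ) ^ 36 = 10 * 10 ^ 35 := by norm_num
      rw [e36]
      linarith
    have htot : |X + 2 * ∑ i ∈ range m, tn (m - 1 - i) * (gg (L + 1 + 1) i - gg (L + 1) i) +
        tn m * (tn L - tn (L + 1))| ≤ c / L * (3 * (L * tn m) + 2 * 10 ^ 36 * √y) := by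
      have h1 := abs_add_le (X + 2 * ∑ i ∈ range m, tn (m - 1 - i) * (gg (L + 1 + 1) i - gg (L + 1) i))
        (tn m * (tn L - tn (L + 1)))
      have h2 := abs_add_le X (2 * ∑ i ∈ range m, tn (m - 1 - i) * (gg (L + 1 + 1) i - gg (L + 1) i))
      have h3 : c / L * (7 * √y + 10 * (y * y) / L + L * tn m) + c / L * (10 ^ 12 * √y) +
          c / L * (1.66 * (L * tn m)) ≤ c / L * (3 * (L * tn m) + 2 * 10 ^ 36 * √y) := by
        rw [← mul_add, ← mul_add]
        apply mul_le_mul_of_nonneg_left _ (by positivity)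
        have h4 : 0 < (L : ℝ) * tn m := by positivity
        have e36 : (10 : ℝ) ^ 36 = 1000000000000000000000000000000000000 := by norm_num
        have e12 : (10 : ℝ) ^ 12 = 1000000000000 := by norm_num
        rw [e36] at hw2 ⊢
        rw [e12]
        linarith
      linarith
    -- conclusion
    obtain ⟨D, hD⟩ : ∃ D : ℝ, D = bb (L + 1) (m + 1) - bb L (m + 1) := ⟨_, rfl⟩
    rw [← hD] at hdiff ⊢
    have hN : 0 < E * ((L : ℝ) + 1 + y) := by
      have : 0 < E := by linarith
      positivity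
    have h1 : |E * (((L : ℝ) + 1 + y) * D)| ≤ E * (((L : ℝ) + 1 + y) * Psi2 L (m + 1)) := by
      rw [hdiff]
      have h2 := abs_add_le (∑ r ∈ range (m + 1), AA (L + 1) m r * (bb (L + 1) r - bb L r))
        (X + 2 * ∑ i ∈ range m, tn (m - 1 - i) * (gg (L + 1 + 1) i - gg (L + 1) i) +
        tn m * (tn L - tn (L + 1)))
      have e : ∑ r ∈ range (m + 1), AA (L + 1) m r * (bb (L + 1) r - bb L r) +
        (X + 2 * ∑ i ∈ range m, tn (m - 1 - i) * (gg (L + 1 + 1) i - gg (L + 1) i) +
        tn m * (tn L - tn (L + 1))) =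
        ∑ r ∈ range (m + 1), AA (L + 1) m r * (bb (L + 1) r - bb L r) + X +
        2 * ∑ i ∈ range m, tn (m - 1 - i) * (gg (L + 1 + 1) i - gg (L + 1) i) +
        tn m * (tn L - tn (L + 1)) := by ring
      rw [e] at h2
      linarith
    rw [← mul_assoc, ← mul_assoc, abs_mul, abs_of_pos hN] at h1
    exact le_of_mul_le_mul_left h1 hN

/-- the accumulated dependence of `bb` on `L` -/
lemma V_abs (L : ℕ) (hL : 1000000000000 ≤ L) (r : ℕ) (hr : 10000000000000 * r ≤ L)
    (hw : (r : ℝ) * √(r : ℝ) ≤ 10 ^ 35 * L) :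
    |∑ i ∈ range r, (bb (L + 1) i - bb L i)| ≤ tn L / L / L * (10 ^ 72 * √(r : ℝ)) := by
  have hLr : (1000000000000 : ℝ) ≤ L := by exact_mod_cast hL
  have hL0 : (0 : ℝ) < L := by linarith
  have ht := tn_pos L
  obtain ⟨κ, hκ⟩ : ∃ κ : ℝ, κ = tn L / L / L := ⟨_, rfl⟩
  have hκ0 : 0 < κ := by rw [hκ]; positivity
  rw [← hκ]
  rcases Nat.eq_zero_or_pos r with rfl | hrpos
  · simp
  · obtain ⟨p, rfl⟩ : ∃ p, r = p + 1 := ⟨r - 1, by omega⟩
    rw [Finset.sum_range_succ', bb_zero, bb_zero, sub_zero, add_zero]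
    refine (Finset.abs_sum_le_sum_abs _ _).trans ?_
    have hp0 : (0 : ℝ) ≤ p := Nat.cast_nonneg p
    have hsp : 0 < √((p + 1 : ℕ) : ℝ) := Real.sqrt_pos.mpr (by positivity)
    have hss : √((p + 1 : ℕ) : ℝ) * √((p + 1 : ℕ) : ℝ) = ((p + 1 : ℕ) : ℝ) :=
      Real.mul_self_sqrt (Nat.cast_nonneg _)
    obtain ⟨z, hz⟩ : ∃ z : ℝ, z = ((p + 1 : ℕ) : ℝ) := ⟨_, rfl⟩
    rw [← hz] at hw hsp hss ⊢
    have hz1 : 1 ≤ z := by rw [hz]; push_cast; linarith
    have h1 : ∀ i ∈ range p, |bb (L + 1) (i + 1) - bb L (i + 1)| ≤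
        κ * (3 * ww i + 2 * 10 ^ 36 * z / L) := by
      intro i hi
      have hi' := mem_range.mp hi
      have hir : (i : ℝ) + 1 ≤ z := by
        rw [hz]
        exact_mod_cast (by omega : i + 1 ≤ p + 1)
      have h2 := db_abs L hL i (by omega) (le_trans (mul_sqrt_mono (by positivity) hir) hw)
      refine h2.trans ?_
      rw [Psi2_succ, ← hκ]
      apply mul_le_mul_of_nonneg_left _ hκ0.le
      have h3 : 2 * 10 ^ 36 * ((i : ℝ) + 1) / L ≤ 2 * 10 ^ 36 * z / L := by
        apply div_le_div_of_nonneg_right _ hL0.le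
        apply mul_le_mul_of_nonneg_left hir (by positivity)
      linarith
    refine (Finset.sum_le_sum h1).trans ?_
    rw [← Finset.mul_sum, Finset.sum_add_distrib, ← Finset.mul_sum, Finset.sum_const, card_range,
      nsmul_eq_mul]
    apply mul_le_mul_of_nonneg_left _ hκ0.le
    have h2 : ∑ i ∈ range p, ww i ≤ √z := by
      have h3 := WW_le p
      unfold WW at h3
      refine h3.trans ?_
      apply Real.sqrt_le_sqrt
      rw [hz]
      push_cast
      linarith
    have hpz : (p : ℝ) ≤ z := by rw [hz]; push_cast; linarith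
    have h3 : (p : ℝ) * (2 * 10 ^ 36 * z / L) ≤ 2 * 10 ^ 71 * √z := by
      have h4 : (z * √z) * √z ≤ (10 ^ 35 * L) * √z := mul_le_mul_of_nonneg_right hw hsp.le
      have e : (z * √z) * √z = z * z := by rw [mul_assoc, hss]
      rw [e] at h4
      have h5 : (p : ℝ) * (2 * 10 ^ 36 * z / L) ≤ z * (2 * 10 ^ 36 * z / L) := by
        apply mul_le_mul_of_nonneg_right hpz
        positivity
      refine h5.trans ?_
      rw [mul_div_assoc', div_le_iff₀ hL0]
      have e2 : z * (2 * 10 ^ 36 * z) = 2 * 10 ^ 36 * (z * z) := by ring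
      have e3 : 2 * 10 ^ 71 * √z * L = 2 * 10 ^ 36 * ((10 ^ 35 * L) * √z) := by ring
      rw [e2, e3]
      exact mul_le_mul_of_nonneg_left h4 (by positivity)
    have e72 : (10 : ℝ) ^ 72 = 10 * 10 ^ 71 := by norm_num
    have h4 : (1 : ℝ) ≤ 10 ^ 71 := one_le_pow₀ (by norm_num)
    rw [e72]
    have h5 : 1 * √z ≤ 10 ^ 71 * √z := mul_le_mul_of_nonneg_right h4 hsp.le
    linarith

end Pool.Agent.MP_9da1e3_co
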