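import Pool.Agent.Lib.MP_9da1e3_co.Wn5

namespace Pool.Agent.MP_9da1e3_co

open Finset

lemma sum_tn_low (y : ℕ) (hy : 1 ≤ y) : E - 8 / √(y : ℝ) ≤ ∑ j ∈ range y, tn j := by
  have h1 := le_sum_tn y
  have h2 := le_WW y
  have hE := E_ge
  have hE' := E_le
  have hyr : (1 : ℝ) ≤ y := by exact_mod_cast hy
  have hs : 0 < √(y : ℝ) := Real.sqrt_pos.mpr (by linarith)
  refine le_trans ?_ h1
  have h3 : 0 < WW y := lt_of_lt_of_le (by positivity) h2
  have h4 : 1 / (1 + WW y) ≤ E / √(y : ℝ) := by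
    rw [div_le_div_iff₀ (by positivity) hs]
    rw [div_le_iff₀ (by linarith)] at h2
    nlinarith
  have h5 : E * (1 / (1 + WW y)) ≤ 8 / √(y : ℝ) := by
    have h6 := mul_le_mul_of_nonneg_left h4 (show 0 ≤ E by linarith)
    refine h6.trans ?_
    rw [mul_div_assoc', div_le_div_iff₀ hs hs]
    apply mul_le_mul_of_nonneg_right _ hs.le
    nlinarith
  have e : E * (1 - 1 / (1 + WW y)) = E - E * (1 / (1 + WW y)) := by ring
  rw [e]
  linarith

lemma sum_c3 (L r : ℕ) : ∑ i ∈ range (r + 1), c3 L i =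
    -bb L r + ∑ i ∈ range r, (bb (L + 1) i - bb L i) := by
  induction r with
  | zero => simp [c3_zero, bb_zero]
  | succ r ih =>
    rw [Finset.sum_range_succ, ih, Finset.sum_range_succ _ r, c3_succ]
    ring

lemma win_le (L m : ℕ) (hL : (10 : ℝ) ^ 1000 ≤ L)
    (hw : ((m : ℝ) + 1) * √((m : ℝ) + 1) ≤ 10 ^ 35 * L) : 10 ^ 250 * ((m : ℝ) + 1) ≤ L := by
  by_contra hcon
  push Not at hcon
  obtain ⟨y, hy⟩ : ∃ y : ℝ, y = (m : ℝ) + 1 := ⟨_, rfl⟩
  rw [← hy] at hw hcon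
  have hL0 : (0 : ℝ) < L := lt_of_lt_of_le (by positivity) hL
  have hy1 : (10 : ℝ) ^ 750 ≤ y := by
    have h1 : (10 : ℝ) ^ 1000 = 10 ^ 250 * 10 ^ 750 := by rw [← pow_add]
    have h2 : (10 : ℝ) ^ 250 * 10 ^ 750 ≤ 10 ^ 250 * y := by rw [← h1]; exact hL.trans hcon.le
    exact le_of_mul_le_mul_left h2 (by positivity)
  clear hL
  have hs : (10 : ℝ) ^ 375 ≤ √y := by
    apply Real.le_sqrt_of_sq_le
    rw [← pow_mul]
    exact hy1
  clear hy1
  have hy0 : 0 ≤ y := by rw [hy]; positivity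
  have h1 : y * 10 ^ 375 ≤ y * √y := mul_le_mul_of_nonneg_left hs hy0
  have h2 : y * 10 ^ 375 = 10 ^ 125 * (10 ^ 250 * y) := by
    have : (10 : ℝ) ^ 375 = 10 ^ 125 * 10 ^ 250 := by rw [← pow_add]
    rw [this]
    ring
  have h3 : (10 : ℝ) ^ 125 * L < 10 ^ 125 * (10 ^ 250 * y) :=
    mul_lt_mul_of_pos_left hcon (by positivity)
  have h4 : (10 : ℝ) ^ 35 * L ≤ 10 ^ 125 * L := by
    apply mul_le_mul_of_nonneg_right _ hL0.le
    exact pow_le_pow_right₀ (by norm_num) (by norm_num)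
  have h5 : (10 : ℝ) ^ 125 * L < 10 ^ 125 * L := by
    calc (10 : ℝ) ^ 125 * L < 10 ^ 125 * (10 ^ 250 * y) := h3
      _ = y * 10 ^ 375 := h2.symm
      _ ≤ y * √y := h1
      _ ≤ 10 ^ 35 * L := hw
      _ ≤ 10 ^ 125 * L := h4
  exact lt_irrefl _ h5

lemma nat13 (L m : ℕ) (h : 10 ^ 250 * ((m : ℝ) + 1) ≤ L) : 10000000000000 * (m + 1) ≤ L := by
  have h1 : (10000000000000 : ℝ) * ((m : ℝ) + 1) ≤ 10 ^ 250 * ((m : ℝ) + 1) := by
    apply mul_le_mul_of_nonneg_right _ (by positivity)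
    norm_num
  have h2 : (((10000000000000 * (m + 1) : ℕ)) : ℝ) ≤ L := by
    push_cast
    linarith
  exact_mod_cast h2

lemma S_anti (L m : ℕ) (hx : ∀ r, 2 ≤ r → r ≤ m → c3 L r ≤ 0) (r : ℕ) (h1 : 1 ≤ r) (h2 : r ≤ m) :
    ∑ i ∈ range (m + 1), c3 L i ≤ ∑ i ∈ range (r + 1), c3 L i := by
  obtain ⟨d, rfl⟩ : ∃ d, m = r + d := ⟨m - r, by omega⟩
  have e : r + d + 1 = (r + 1) + d := by omega
  rw [e, Finset.sum_range_add]
  have : ∑ x ∈ range d, c3 L (r + 1 + x) ≤ 0 :=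
    Finset.sum_nonpos (fun x hx' => hx _ (by omega) (by have := mem_range.mp hx'; omega))
  linarith

lemma main_le (L m R : ℕ) (hx : ∀ r, 2 ≤ r → r ≤ m → c3 L r ≤ 0) (hR : R + 1 ≤ m) :
    ∑ r ∈ range (m + 1), AA L m r * c3 L r ≤ AA L m 1 * ∑ i ∈ range (m + 1), c3 L i -
      (AA L m (R + 1) - AA L m 1) *
      (∑ i ∈ range (R + 1), c3 L i - ∑ i ∈ range (m + 1), c3 L i) := by
  obtain ⟨d, hd⟩ : ∃ d, m + 1 = (R + 1) + d := ⟨m - R, by omega⟩
  have e0 := Finset.sum_range_add (fun r => AA L m r * c3 L r) (R + 1) d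
  have e1 := Finset.sum_range_add (fun i => c3 L i) (R + 1) d
  rw [hd, e0, e1]
  have h1 : ∑ r ∈ range (R + 1), AA L m r * c3 L r ≤ AA L m 1 * ∑ i ∈ range (R + 1), c3 L i := by
    rw [Finset.mul_sum]
    apply Finset.sum_le_sum
    intro r hr
    have hr' := mem_range.mp hr
    rcases Nat.eq_zero_or_pos r with rfl | hr1
    · rw [c3_zero, mul_zero, mul_zero]
    · rcases Nat.lt_or_ge r 2 with h | h
      · have : r = 1 := by omega
        rw [this]
      · exact mul_le_mul_of_nonpos_right (AA_mono L m hr1 (by omega)) (hx r h (by omega))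
  have h2 : ∑ x ∈ range d, AA L m (R + 1 + x) * c3 L (R + 1 + x) ≤
      AA L m (R + 1) * ∑ x ∈ range d, c3 L (R + 1 + x) := by
    rw [Finset.mul_sum]
    apply Finset.sum_le_sum
    intro x hx1
    have hx' := mem_range.mp hx1
    rcases Nat.eq_zero_or_pos R with rfl | hR1
    · rcases Nat.eq_zero_or_pos x with rfl | hx1
      · exact le_rfl
      · exact mul_le_mul_of_nonpos_right (AA_mono L m (by omega) (by omega)) (hx _ (by omega) (by omega))
    · exact mul_le_mul_of_nonpos_right (AA_mono L m (by omega) (by omega)) (hx _ (by omega) (by omega))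
  have e : AA L m 1 * (∑ i ∈ range (R + 1), c3 L i + ∑ x ∈ range d, c3 L (R + 1 + x)) -
      (AA L m (R + 1) - AA L m 1) * (∑ i ∈ range (R + 1), c3 L i -
      (∑ i ∈ range (R + 1), c3 L i + ∑ x ∈ range d, c3 L (R + 1 + x))) =
      AA L m 1 * ∑ i ∈ range (R + 1), c3 L i + AA L m (R + 1) * ∑ x ∈ range d, c3 L (R + 1 + x) := by
    ring
  rw [e]
  linarith

lemma AA_gain (L m R : ℕ) (hR : R + 1 ≤ m) :
    (R : ℝ) * ((L : ℝ) * (tn m / ((m : ℝ) + 1))) ≤ AA L m (R + 1) - AA L m 1 := by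
  induction R with
  | zero => simp
  | succ R ih =>
    have h1 := ih (by omega)
    have h2 := AA_step L m (R + 1) (by omega)
    push_cast
    linarith

/-- the neighbouring source terms -/
lemma fourth_le (L m : ℕ) (hm : 101 ≤ m) (hL : 100 ≤ L) (h : 2 * ((m : ℝ) + 1) ≤ L) :
    tn m * tn L ≤ tn (m - 1) * tn (L + 1) := by
  obtain ⟨k, rfl⟩ : ∃ k, m = k + 1 := ⟨m - 1, by omega⟩
  rw [Nat.add_sub_cancel]
  have h1 := tn_sharp k (by omega)
  have h2 := tn_succ_sharp L hL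
  have h3 := tn_pos k
  have h4 := tn_pos L
  have hL0 : (0 : ℝ) < L := by
    have : (100 : ℝ) ≤ L := by exact_mod_cast hL
    linarith
  push_cast at h
  have h5 : tn (k + 1) ≤ (1 - 1.44 / ((k : ℝ) + 2)) * tn k := by
    have : (1 - 1.44 / ((k : ℝ) + 2)) * tn k = tn k - 1.44 * (tn k / ((k : ℝ) + 2)) := by ring
    linarith
  have h6 : 1.66 / (L : ℝ) ≤ 1.44 / ((k : ℝ) + 2) := by
    rw [div_le_div_iff₀ hL0 (by positivity)]
    linarith
  calc tn (k + 1) * tn L ≤ (1 - 1.44 / ((k : ℝ) + 2)) * tn k * tn L := mul_le_mul_of_nonneg_right h5 h4.le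
    _ ≤ (1 - 1.66 / (L : ℝ)) * tn k * tn L := by
        apply mul_le_mul_of_nonneg_right _ h4.le
        exact mul_le_mul_of_nonneg_right (by linarith) h3.le
    _ = tn k * ((1 - 1.66 / (L : ℝ)) * tn L) := by ring
    _ ≤ _ := mul_le_mul_of_nonneg_left h2 h3.le

/-- the coefficient at the far end -/
lemma A1_le (L m : ℕ) (y : ℝ) (hy : y = (m : ℝ) + 1) (hbig : (10 : ℝ) ^ 100 ≤ √y)
    (h1 : 10 ^ 250 * y ≤ L) (h2 : (L : ℝ) ≤ 7.4 * (y * √y)) : AA L m 1 ≤ 8.15 := by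
  have hb : (10000000000 : ℝ) ≤ √y := le_trans (by norm_num) hbig
  have hs0 : 0 < √y := by linarith
  have hy0 : 0 < y := Real.sqrt_pos.mp hs0
  have hss : √y * √y = y := Real.mul_self_sqrt hy0.le
  have hy2 : (100000000000000000000 : ℝ) ≤ y := by nlinarith
  have hm1 : 1 ≤ m := by
    by_contra h
    have : m = 0 := by omega
    rw [this] at hy
    norm_num at hy
    linarith
  have h1' : 1000000 * y ≤ L := by
    refine le_trans ?_ h1
    apply mul_le_mul_of_nonneg_right _ hy0.le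
    norm_num
  have hL0 : (0 : ℝ) < L := by linarith
  clear hbig h1
  obtain ⟨k, rfl⟩ : ∃ k, m = k + 1 := ⟨m - 1, by omega⟩
  unfold AA
  rw [Nat.add_sub_cancel]
  have h3 := tn_le k
  have hk : (k : ℝ) + 1 = y - 1 := by rw [hy]; push_cast; ring
  obtain ⟨w, hw⟩ : ∃ w : ℝ, w = sq k := ⟨_, rfl⟩
  have hw0 : 0 < w := by rw [hw]; exact sq_pos k
  have hww : w * w = y - 1 := by
    rw [hw]
    unfold sq
    rw [Real.mul_self_sqrt (by positivity), hk]
  rw [← hw, hk, le_div_iff₀ (by nlinarith)] at h3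
  have hsw : √y ≤ 1.00001 * w := by
    apply Real.sqrt_le_iff.mpr
    constructor
    · positivity
    · have : (1.00001 * w) ^ 2 = 1.0000200001 * (w * w) := by ring
      rw [this, hww]
      linarith
  have hyw : y * √y ≤ 1.0001 * ((y - 1) * w) := by
    have e1 : y ≤ 1.00001 * (y - 1) := by linarith
    have e2 : y * √y ≤ (1.00001 * (y - 1)) * (1.00001 * w) :=
      mul_le_mul e1 hsw hs0.le (by linarith)
    have e3 : 0 ≤ (y - 1) * w := mul_nonneg (by linarith) hw0.le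
    nlinarith
  have ht := tn_pos k
  have e4 : ((L : ℝ) + k + 1) ≤ 1.00001 * L := by linarith
  have e5 : ((L : ℝ) + k + 1) * tn k ≤ 1.00001 * L * tn k := mul_le_mul_of_nonneg_right e4 ht.le
  have e6 : 1.00001 * L * tn k ≤ 1.00001 * (7.4 * (1.0001 * ((y - 1) * w))) * tn k := by
    apply mul_le_mul_of_nonneg_right _ ht.le
    linarith
  have e7 : 1.00001 * (7.4 * (1.0001 * ((y - 1) * w))) * tn k =
      1.00001 * 7.4 * 1.0001 * (tn k * ((y - 1) * w)) := by ring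
  rw [e7] at e6
  have e8 : 1.00001 * 7.4 * 1.0001 * (tn k * ((y - 1) * w)) ≤ 1.00001 * 7.4 * 1.0001 * 1.1 :=
    mul_le_mul_of_nonneg_left h3 (by norm_num)
  have e9 : (1.00001 * 7.4 * 1.0001 * 1.1 : ℝ) ≤ 8.15 := by norm_num
  linarith

end Pool.Agent.MP_9da1e3_co
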