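import Pool.Agent.Lib.MP_9da1e3_co.Wn6

namespace Pool.Agent.MP_9da1e3_co

open Finset

lemma third_le (L m : ℕ) (hm : 2 ≤ m) (d : ℝ)
    (hb : ∀ i, 1 ≤ i → i < m → bb (L + 1) i ≤ -d) :
    ∑ i ∈ range m, tn (m - 1 - i) * bb (L + 1) i ≤ -(d * ∑ j ∈ range (m - 1), tn j) := by
  obtain ⟨q, rfl⟩ : ∃ q, m = q + 2 := ⟨m - 2, by omega⟩
  have q1 : q + 2 = q + 1 + 1 := by omega
  have q2 : q + 2 - 1 = q + 1 := by omega
  rw [q2, q1, Finset.sum_range_succ', bb_zero, mul_zero, add_zero]
  have h1 : ∑ k ∈ range (q + 1), tn (q + 1 - (k + 1)) * bb (L + 1) (k + 1) ≤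
      ∑ k ∈ range (q + 1), (-d) * tn (q + 1 - 1 - k) := by
    apply Finset.sum_le_sum
    intro k hk
    have hk' := mem_range.mp hk
    have q3 : q + 1 - (k + 1) = q + 1 - 1 - k := by omega
    rw [q3]
    have h2 := mul_le_mul_of_nonneg_left (hb (k + 1) (by omega) (by omega)) (tn_pos (q + 1 - 1 - k)).le
    linarith
  rw [← Finset.mul_sum, Finset.sum_range_reflect (fun j => tn j) (q + 1)] at h1
  linarith

/-- the lower bound of the partial sums of `c3` -/
lemma S_ge (L R : ℕ) (hL : 1000000000000 ≤ L) (hR : 1 ≤ R) (h13 : 10000000000000 * R ≤ L)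
    (hRR : 10000000000 * ((R : ℝ) * √(R : ℝ)) ≤ L) : tn L / L * (0.3 / √(R : ℝ)) ≤ -bb L R := by
  obtain ⟨k, rfl⟩ : ∃ k, R = k + 1 := ⟨R - 1, by omega⟩
  have h1 := bb_up L hL k h13
  have hLr : (1000000000000 : ℝ) ≤ L := by exact_mod_cast hL
  have hL0 : (0 : ℝ) < L := by linarith
  have hk0 : (0 : ℝ) ≤ k := Nat.cast_nonneg k
  have e : ((k + 1 : ℕ) : ℝ) = (k : ℝ) + 1 := by push_cast; ring
  rw [e] at hRR ⊢
  obtain ⟨s, hs⟩ : ∃ s : ℝ, s = √((k : ℝ) + 1) := ⟨_, rfl⟩
  have hs0 : 0 < s := by rw [hs]; exact Real.sqrt_pos.mpr (by positivity)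
  have h2 := le_ww k
  have hsq : sq k = s := by rw [hs]; rfl
  rw [hsq] at h2
  rw [← hs] at hRR ⊢
  have hE := E_ge
  have hE' := E_le
  have h3 : 0.36 / s ≤ ww k := by
    refine le_trans ?_ h2
    rw [div_le_div_iff₀ hs0 (by positivity)]
    nlinarith
  have h4 : 2 * ((k : ℝ) + 1) / L ≤ 0.01 / s := by
    rw [div_le_div_iff₀ hL0 hs0]
    nlinarith
  have h5 : 0 < tn L / L := by
    have := tn_pos L
    positivity
  have h6 : tn L / L * (0.3 / s) ≤ tn L / L * (ww k - 2 * ((k : ℝ) + 1) / L) := by
    apply mul_le_mul_of_nonneg_left _ h5.le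
    have : 0.36 / s = 0.3 / s + 0.06 / s := by ring
    have h7 : 0.01 / s ≤ 0.06 / s := div_le_div_of_nonneg_right (by norm_num) hs0.le
    linarith
  have h7 : tn L / L * (ww k - 2 * ((k : ℝ) + 1) / L) =
      -(tn L / L * (-ww k + 2 * ((k : ℝ) + 1) / L)) := by ring
  linarith

theorem c3_neg (L : ℕ) (hL : (10 : ℝ) ^ 1000 ≤ L) : ∀ m : ℕ, 1 ≤ m →
    ((m : ℝ) + 1) * √((m : ℝ) + 1) ≤ 10 ^ 35 * L →
    (∀ i, i < m → bb (L + 1) i ≤ 0) → c3 L (m + 1) ≤ 0 := by
  intro m
  induction m using Nat.strong_induction_on with
  | _ m ih =>
    intro hm1 hw hneg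
    have hwin := win_le L m hL hw
    have h13 := nat13 L m hwin
    have hL13 : 10000000000000 ≤ L := by omega
    have hx : ∀ r, 2 ≤ r → r ≤ m → c3 L r ≤ 0 := by
      intro r hr1 hr2
      obtain ⟨k, rfl⟩ : ∃ k, r = k + 1 := ⟨r - 1, by omega⟩
      apply ih k (by omega) (by omega)
      · refine le_trans (mul_sqrt_mono (by positivity) ?_) hw
        have : (k : ℝ) ≤ m := by exact_mod_cast (by omega : k ≤ m)
        linarith
      · intro i hi
        exact hneg i (by omega)
    clear ih hL
    obtain ⟨y, hy⟩ : ∃ y : ℝ, y = (m : ℝ) + 1 := ⟨_, rfl⟩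
    rcases le_or_gt (7.4 * (((m : ℝ) + 1) * √((m : ℝ) + 1))) L with hA | hB
    · -- region A
      obtain ⟨p, rfl⟩ : ∃ p, m = p + 1 := ⟨m - 1, by omega⟩
      have e : ((p + 1 : ℕ) : ℝ) + 1 = (p : ℝ) + 2 := by push_cast; ring
      rw [e] at hA
      have h1 := c3_regA L hL13 p (by omega) hA
      have h2 := Dd_neg L p (by omega) (by omega)
      have h3 : tn L / L * Dd L (p + 1) ≤ 0 :=
        mul_nonpos_of_nonneg_of_nonpos (by have := tn_pos L; positivity) h2
      exact h1.trans h3
    · -- region B
      rw [← hy] at hw hwin hB
      have hy0 : 0 < y := by rw [hy]; positivity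
      obtain ⟨s, hs⟩ : ∃ s : ℝ, s = √y := ⟨_, rfl⟩
      have hs0 : 0 < s := by rw [hs]; exact Real.sqrt_pos.mpr hy0
      have hss : s * s = y := by rw [hs]; exact Real.mul_self_sqrt hy0.le
      have hLr : (10000000000000 : ℝ) ≤ L := by exact_mod_cast hL13
      have hL0 : (0 : ℝ) < L := by linarith
      rw [← hs] at hw hB
      have hbig : (10 : ℝ) ^ 249 ≤ s := by
        have h1 : 10 ^ 250 * y < 7.4 * s * y := by
          calc 10 ^ 250 * y ≤ L := hwin
            _ < 7.4 * (y * s) := hB
            _ = _ := by ring
        have h2 : (10 : ℝ) ^ 250 < 7.4 * s := lt_of_mul_lt_mul_right h1 hy0.le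
        have h3 : (10 : ℝ) ^ 250 = 10 * 10 ^ 249 := by norm_num
        rw [h3] at h2
        linarith
      have hbig100 : (10 : ℝ) ^ 100 ≤ √y := by
        rw [← hs]
        refine le_trans ?_ hbig
        exact pow_le_pow_right₀ (by norm_num) (by norm_num)
      have hs100 : (1000000000000000000000000000000000000000000000 : ℝ) ≤ s :=
        le_trans (by norm_num) hbig
      have hA1 := A1_le L m y hy hbig100 hwin (by rw [← hs]; exact hB.le)
      have hyL : 1000000 * y ≤ L := by
        refine le_trans ?_ hwin
        apply mul_le_mul_of_nonneg_right _ hy0.le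
        norm_num
      have hyb : (1000000000000000000000000000000000000000000000 : ℝ) ≤ y := by nlinarith
      have hmb : 100000000000000000000000000000000000000000000 ≤ m := by
        have h1 : (100000000000000000000000000000000000000000000 : ℝ) ≤ m := by linarith
        exact_mod_cast h1
      obtain ⟨c, hc⟩ : ∃ c : ℝ, c = tn L / L := ⟨_, rfl⟩
      have htL := tn_pos L
      have hc0 : 0 < c := by rw [hc]; positivity
      obtain ⟨v, hv⟩ : ∃ v : ℝ, v = c / L * (10 ^ 72 * s) := ⟨_, rfl⟩
      have hv0 : 0 < v := by rw [hv]; positivity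
      have hV : ∀ r, r ≤ m → |∑ i ∈ range r, (bb (L + 1) i - bb L i)| ≤ v := by
        intro r hr
        have hrr : (r : ℝ) ≤ y := by
          rw [hy]
          have : (r : ℝ) ≤ m := by exact_mod_cast hr
          linarith
        have h1 := V_abs L (by omega) r (by omega) (by
          refine le_trans (mul_sqrt_mono (by positivity) hrr) ?_
          rw [← hs]
          exact hw)
        rw [← hc] at h1
        refine h1.trans ?_
        rw [hv]
        apply mul_le_mul_of_nonneg_left _ (by positivity)
        apply mul_le_mul_of_nonneg_left _ (by positivity)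
        rw [hs]
        exact Real.sqrt_le_sqrt hrr
      have hvg : 10 ^ 100 * v ≤ c / s := by
        rw [hv, le_div_iff₀ hs0]
        have e : 10 ^ 100 * (c / L * (10 ^ 72 * s)) * s = c * ((10 ^ 100 * 10 ^ 72 * y) / L) := by
          rw [← hss]
          ring
        rw [e]
        have h1 : (10 ^ 100 * 10 ^ 72 * y) / L ≤ 1 := by
          rw [div_le_one hL0]
          refine le_trans ?_ hwin
          apply mul_le_mul_of_nonneg_right _ hy0.le
          rw [← pow_add]
          exact pow_le_pow_right₀ (by norm_num) (by norm_num)
        calc c * ((10 ^ 100 * 10 ^ 72 * y) / L) ≤ c * 1 := mul_le_mul_of_nonneg_left h1 hc0.le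
          _ = c := by ring
      have hrec := c3_eq L m hm1 (by omega)
      have h4th := fourth_le L m (by omega) (by omega) (by rw [← hy]; linarith)
      obtain ⟨σ, hσ⟩ : ∃ σ : ℝ, σ = ∑ i ∈ range (m + 1), c3 L i := ⟨_, rfl⟩
      have hthird0 : ∑ i ∈ range m, tn (m - 1 - i) * bb (L + 1) i ≤ 0 := by
        apply Finset.sum_nonpos
        intro i hi
        exact mul_nonpos_of_nonneg_of_nonpos (tn_pos _).le (hneg i (mem_range.mp hi))
      have hA1n := AA_nonneg L m 1
      have hstep : AA L m 1 ≤ AA L m (1 + 1) := AA_mono L m (by omega) (by omega)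
      have hmain1 := main_le L m 1 hx (by omega)
      have hS1 := S_anti L m hx 1 le_rfl hm1
      rw [← hσ] at hmain1 hS1
      have hmain : ∑ r ∈ range (m + 1), AA L m r * c3 L r ≤ AA L m 1 * σ := by
        have h1 : 0 ≤ (AA L m (1 + 1) - AA L m 1) * (∑ i ∈ range (1 + 1), c3 L i - σ) :=
          mul_nonneg (by linarith) (by linarith)
        linarith
      have hE0 := E_pos
      have hE3 := E_ge3
      suffices h : ∑ r ∈ range (m + 1), AA L m r * c3 L r +
          3 * ∑ i ∈ range m, tn (m - 1 - i) * bb (L + 1) i ≤ 0 by
        by_contra hcon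
        push Not at hcon
        have h1 : 0 < E * (((L : ℝ) + ((m : ℝ) + 1)) * c3 L (m + 1)) := by positivity
        rw [hrec] at h1
        linarith
      rcases le_or_gt σ 0 with hσ0 | hσ0
      · have h1 : AA L m 1 * σ ≤ 0 := mul_nonpos_of_nonneg_of_nonpos hA1n hσ0
        linarith
      · have hA1σ : AA L m 1 * σ ≤ 8.15 * σ := mul_le_mul_of_nonneg_right hA1 hσ0.le
        rcases le_or_gt (10000 * v) σ with hc1 | hc1
        · -- large partial sum
          have hb : ∀ i, 1 ≤ i → i < m → bb (L + 1) i ≤ -(σ - v) := by
            intro i hi1 hi2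
            have h1 := hx (i + 1) (by omega) (by omega)
            rw [c3_succ] at h1
            have h2 := S_anti L m hx (i + 1) (by omega) (by omega)
            rw [← hσ, sum_c3] at h2
            have h3 := (abs_le.mp (hV (i + 1) (by omega))).2
            linarith
          have h1 := third_le L m (by omega) (σ - v) hb
          have h2 := sum_tn_low (m - 1) (by omega)
          have h3 : 8 / √((m - 1 : ℕ) : ℝ) ≤ 0.0001 := by
            have h4 : (100000 : ℝ) ≤ √((m - 1 : ℕ) : ℝ) := by
              apply Real.le_sqrt_of_sq_le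
              have : (10000000000 : ℝ) ≤ ((m - 1 : ℕ) : ℝ) := by
                exact_mod_cast (by omega : 10000000000 ≤ m - 1)
              linarith
            rw [div_le_iff₀ (by linarith)]
            linarith
          have h5 : 2.7181 ≤ ∑ j ∈ range (m - 1), tn j := by linarith
          have h6 : (σ - v) * 2.7181 ≤ (σ - v) * ∑ j ∈ range (m - 1), tn j :=
            mul_le_mul_of_nonneg_left h5 (by linarith)
          linarith
        · -- small partial sum
          obtain ⟨R, hR⟩ : ∃ R : ℕ, R = m / 1000000000000000000000000000000 := ⟨_, rfl⟩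
          have hR1 : 1 ≤ R := by omega
          have hR2 : R + 1 ≤ m := by omega
          have hR3 : R * 1000000000000000000000000000000 ≤ m := by omega
          have hR4 : m < (R + 1) * 1000000000000000000000000000000 := by omega
          have hRu : (R : ℝ) * 1000000000000000000000000000000 ≤ y := by
            have : (R : ℝ) * 1000000000000000000000000000000 ≤ m := by exact_mod_cast hR3
            linarith
          have hRl : y ≤ 10000000000000000000000000000000 * (R : ℝ) := by
            have : (m : ℝ) < ((R : ℝ) + 1) * 1000000000000000000000000000000 := by exact_mod_cast hR4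
            linarith
          have hRp : (1 : ℝ) ≤ R := by exact_mod_cast hR1
          obtain ⟨t, ht⟩ : ∃ t : ℝ, t = √(R : ℝ) := ⟨_, rfl⟩
          have ht0 : 0 < t := by rw [ht]; exact Real.sqrt_pos.mpr (by linarith)
          have htt : t * t = R := by rw [ht]; exact Real.mul_self_sqrt (by linarith)
          have hts : 1000000000000000 * t ≤ s := by
            apply le_of_sq_le_sq _ hs0.le
            have : (1000000000000000 * t) ^ 2 = 1000000000000000000000000000000 * (t * t) := by ring
            rw [this, htt]
            have : s ^ 2 = y := by rw [← hss]; ring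
            rw [this]
            linarith
          have hRR : 10000000000 * ((R : ℝ) * √(R : ℝ)) ≤ L := by
            rw [← ht]
            have h1 : (R * 1000000000000000000000000000000) * (1000000000000000 * t) ≤ y * s :=
              mul_le_mul hRu hts (by positivity) hy0.le
            have h2 : (R * 1000000000000000000000000000000) * (1000000000000000 * t) =
                10 ^ 35 * (10000000000 * ((R : ℝ) * t)) := by ring
            rw [h2] at h1
            have h3 := h1.trans hw
            exact le_of_mul_le_mul_left h3 (by positivity)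
          have hSg := S_ge L R (by omega) hR1 (by omega) hRR
          rw [← hc, ← ht] at hSg
          have hSR : 100000000000000 * (c / s) ≤ ∑ i ∈ range (R + 1), c3 L i - σ := by
            rw [sum_c3]
            have h1 := (abs_le.mp (hV R (by omega))).1
            have h2 : 300000000000000 * (c / s) ≤ c * (0.3 / t) := by
              have e : 300000000000000 * (c / s) = c * (300000000000000 / s) := by ring
              rw [e]
              apply mul_le_mul_of_nonneg_left _ hc0.le
              rw [div_le_div_iff₀ hs0 ht0]
              linarith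
            have h3 : 20000 * v ≤ c / s := by
              refine le_trans ?_ hvg
              apply mul_le_mul_of_nonneg_right _ hv0.le
              norm_num
            have h4 : 0 < c / s := by positivity
            linarith
          have hG := AA_gain L m R hR2
          rw [← hy] at hG
          have hG2 : 1 / 10 ^ 66 ≤ AA L m (R + 1) - AA L m 1 := by
            refine le_trans ?_ hG
            have h1 := le_tn m
            have hsq : sq m = s := by rw [hs, hy]; rfl
            rw [hsq, ← hy] at h1
            have h2 : (y / 10000000000000000000000000000000) * (L * ((1 / (y * s)) / y)) ≤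
                R * (L * (tn m / y)) := by
              apply mul_le_mul
              · linarith
              · apply mul_le_mul_of_nonneg_left _ hL0.le
                exact div_le_div_of_nonneg_right h1 hy0.le
              · positivity
              · linarith
            refine le_trans ?_ h2
            have e : (y / 10000000000000000000000000000000) * (L * ((1 / (y * s)) / y)) =
                L / (10000000000000000000000000000000 * (y * s)) := by
              field_simp
            rw [e, div_le_div_iff₀ (by positivity) (by positivity)]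
            have h3 := mul_le_mul_of_nonneg_left hw
              (show (0 : ℝ) ≤ 10000000000000000000000000000000 by norm_num)
            have h4 : (10000000000000000000000000000000 : ℝ) * (10 ^ 35 * L) = L * 10 ^ 66 := by
              ring
            linarith
          have hmainR := main_le L m R hx hR2
          rw [← hσ] at hmainR
          have hgain : 1 / 10 ^ 66 * (100000000000000 * (c / s)) ≤
              (AA L m (R + 1) - AA L m 1) * (∑ i ∈ range (R + 1), c3 L i - σ) := by
            apply mul_le_mul hG2 hSR (by positivity)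
            have : (0 : ℝ) < 1 / 10 ^ 66 := by positivity
            linarith
          have hfin : 8.15 * σ ≤ 1 / 10 ^ 66 * (100000000000000 * (c / s)) := by
            have h1 : 8.15 * σ ≤ 81500 * v := by linarith
            have h2 : 81500 * v ≤ 1 / 10 ^ 66 * (10 ^ 100 * v) := by
              have e : 1 / 10 ^ 66 * (10 ^ 100 * v) = 10 ^ 34 * v := by
                have : (10 : ℝ) ^ 100 = 10 ^ 66 * 10 ^ 34 := by rw [← pow_add]
                rw [this]
                field_simp
              rw [e]
              apply mul_le_mul_of_nonneg_right _ hv0.le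
              norm_num
            have h3 : 1 / 10 ^ 66 * (10 ^ 100 * v) ≤ 1 / 10 ^ 66 * (100000000000000 * (c / s)) := by
              apply mul_le_mul_of_nonneg_left _ (by positivity)
              have h4 : 0 < c / s := by positivity
              linarith
            linarith
          linarith

end Pool.Agent.MP_9da1e3_co
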