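import Pool.Agent.Lib.MP_9da1e3_co.Wn7

namespace Pool.Agent.MP_9da1e3_co

open Finset

/-- the source term of the recursion of `bb` -/
noncomputable def sr (L m : ℕ) : ℝ :=
  2 * ∑ i ∈ range m, tn (m - 1 - i) * gg (L + 1) i - tn m * tn L

lemma bb_eq2 (L m : ℕ) (h : m + 1 ≤ L) : E * (((L : ℝ) + (m + 1)) * bb L (m + 1)) =
    ∑ r ∈ range (m + 1), AA L m r * bb L r + sr L m := by
  rw [bb_eq L m h]
  unfold sr
  ring

lemma AA_scale (L m d r : ℕ) (hr : r ≤ m) (h : 100 * (m + d + 1) ≤ L) :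
    AA L (m + d) r ≤ (1 - 0.99 * ((d : ℝ) / ((m : ℝ) + d + 1))) * AA L m r := by
  obtain ⟨k, hk⟩ : ∃ k, m = r + k := ⟨m - r, by omega⟩
  have q1 : m + d - r = k + d := by omega
  have q2 : m - r = k := by omega
  unfold AA
  rw [q1, q2]
  have h1 := cE_le_of_le (by omega : k ≤ k + d)
  unfold cE at h1
  have ht := tn_pos k
  have ht2 := tn_pos (k + d)
  have hL : 100 * ((m : ℝ) + d + 1) ≤ L := by exact_mod_cast h
  have hkm : (k : ℝ) ≤ m := by exact_mod_cast (by omega : k ≤ m)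
  have hk0 : (0 : ℝ) ≤ k := Nat.cast_nonneg k
  have hd0 : (0 : ℝ) ≤ d := Nat.cast_nonneg d
  obtain ⟨Y, hY⟩ : ∃ Y : ℝ, Y = (m : ℝ) + d + 1 := ⟨_, rfl⟩
  rw [← hY] at hL ⊢
  have hY0 : 0 < Y := by rw [hY]; positivity
  push_cast at h1 ⊢
  have h2 : tn (k + d) ≤ (1 - d / Y) * tn k := by
    have h3 : (1 - d / Y) * tn k = ((Y - d) * tn k) / Y := by field_simp
    have h4 : tn (k + d) ≤ ((k : ℝ) + 1) * tn k / ((k : ℝ) + d + 1) := by
      rw [le_div_iff₀ (by positivity)]
      linarith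
    refine h4.trans ?_
    rw [h3, div_le_div_iff₀ (by positivity) hY0]
    have h5 : ((k : ℝ) + 1) * Y ≤ (Y - d) * ((k : ℝ) + d + 1) := by
      have : 0 ≤ (d : ℝ) * (Y - (k + d + 1)) := mul_nonneg hd0 (by rw [hY]; linarith)
      nlinarith
    have := mul_le_mul_of_nonneg_right h5 ht.le
    linarith
  have h6 : ((L : ℝ) + (k + d) + 1) * tn (k + d) ≤ ((L : ℝ) + (k + d) + 1) * ((1 - d / Y) * tn k) :=
    mul_le_mul_of_nonneg_left h2 (by positivity)
  refine h6.trans ?_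
  have h7 : ((L : ℝ) + (k + d) + 1) * (1 - d / Y) ≤ (1 - 0.99 * (d / Y)) * ((L : ℝ) + k + 1) := by
    obtain ⟨a, ha⟩ : ∃ a : ℝ, a = d / Y := ⟨_, rfl⟩
    have ha0 : 0 ≤ a := by rw [ha]; positivity
    have hda : (d : ℝ) = a * Y := by rw [ha]; field_simp
    rw [← ha, hda]
    have g1 : a * (100 * Y) ≤ a * L := mul_le_mul_of_nonneg_left hL ha0
    have g2 : 0 ≤ a * a * Y := by positivity
    have g3 : 0 ≤ a * k := by positivity
    nlinarith
  have h8 := mul_le_mul_of_nonneg_right h7 ht.le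
  linarith

lemma sum_bb (L p : ℕ) : ∑ r ∈ range (p + 1), bb L r =
    -gg L p + ∑ k ∈ range p, (gg (L + 1) k - gg L k) := by
  induction p with
  | zero => simp [bb_zero, gg_zero]
  | succ p ih =>
    rw [Finset.sum_range_succ, ih, Finset.sum_range_succ _ p, bb_succ]
    ring

lemma block_le (f : ℕ → ℝ) (y1 d a : ℕ) (ha : a ≤ y1) (h1 : ∀ r, r < y1 → f r ≤ 0)
    (h2 : ∀ r, y1 ≤ r → r < y1 + d → 0 ≤ f r) :
    ∑ x ∈ range d, f (a + x) ≤ ∑ x ∈ range d, f (y1 + x) := by
  have e1 : ∑ x ∈ range d, f (a + x) = ∑ k ∈ Ico a (a + d), f k := by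
    rw [Finset.sum_Ico_eq_sum_range, Nat.add_sub_cancel_left]
  have e2 : ∑ x ∈ range d, f (y1 + x) = ∑ k ∈ Ico y1 (y1 + d), f k := by
    rw [Finset.sum_Ico_eq_sum_range, Nat.add_sub_cancel_left]
  rw [e1, e2]
  have h3 : ∑ k ∈ Ico a (a + d), f k ≤ ∑ k ∈ Ico a (a + d), max 0 (f k) :=
    Finset.sum_le_sum fun k _ => le_max_right _ _
  have h4 : ∑ k ∈ Ico a (a + d), max 0 (f k) ≤ ∑ k ∈ Ico a (y1 + d), max 0 (f k) :=
    Finset.sum_le_sum_of_subset_of_nonneg (Finset.Ico_subset_Ico_right (by omega))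
      fun k _ _ => le_max_left _ _
  have h5 : ∑ k ∈ Ico a (y1 + d), max 0 (f k) =
      ∑ k ∈ Ico a y1, max 0 (f k) + ∑ k ∈ Ico y1 (y1 + d), max 0 (f k) :=
    (Finset.sum_Ico_consecutive _ ha (by omega)).symm
  have h6 : ∑ k ∈ Ico a y1, max 0 (f k) = 0 :=
    Finset.sum_eq_zero fun k hk => max_eq_left (h1 k (Finset.mem_Ico.mp hk).2)
  have h7 : ∑ k ∈ Ico y1 (y1 + d), max 0 (f k) = ∑ k ∈ Ico y1 (y1 + d), f k :=
    Finset.sum_congr rfl fun k hk =>
      max_eq_right (h2 k (Finset.mem_Ico.mp hk).1 (Finset.mem_Ico.mp hk).2)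
  linarith

lemma gg_drop (L i : ℕ) (hL : (10 : ℝ) ^ 100 ≤ L) (G : ℝ) : ∀ d : ℕ,
    (10 : ℝ) ^ 24 * ((i + d : ℕ) : ℝ) ≤ L → (∀ k, k ≤ i + d → gg L k ≤ G) →
    gg (L + 1) i - gg (L + 1) (i + d) ≤
      ∑ x ∈ range d, bb L (i + 1 + x) + 2.72 / (L : ℝ) * G * d := by
  have hL0 : (0 : ℝ) < L := lt_of_lt_of_le (by positivity) hL
  intro d
  induction d with
  | zero =>
    intro _ _
    simp
  | succ d ih =>
    intro h1 h2
    have h3 := ih (le_trans (by
      apply mul_le_mul_of_nonneg_left _ (by positivity)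
      exact_mod_cast (by omega : i + d ≤ i + (d + 1))) h1) (fun k hk => h2 k (by omega))
    have h4 := gg_ratio_sharp L hL (i + (d + 1)) h1
    have h5 := h2 (i + (d + 1)) le_rfl
    rw [Finset.sum_range_succ]
    have q : i + 1 + d = (i + d) + 1 := by omega
    have q2 : i + (d + 1) = (i + d) + 1 := by omega
    rw [q, bb_succ]
    rw [q2] at h4 h5 ⊢
    have h6 : 2.72 / (L : ℝ) * gg L (i + d + 1) ≤ 2.72 / (L : ℝ) * G :=
      mul_le_mul_of_nonneg_left h5 (by positivity)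
    push_cast
    linarith

lemma sr_diff (L m d : ℕ) (X : ℝ) (hX : 0 ≤ X)
    (h : ∀ i, i < m → gg (L + 1) i - gg (L + 1) (i + d) ≤ X) :
    sr L m - sr L (m + d) ≤ 2 * E * X := by
  unfold sr
  have h1 : ∑ i ∈ range m, tn (m - 1 - i) * gg (L + 1) (i + d) ≤
      ∑ i ∈ range (m + d), tn (m + d - 1 - i) * gg (L + 1) i := by
    rw [add_comm m d, Finset.sum_range_add]
    have h0 : 0 ≤ ∑ x ∈ range d, tn (d + m - 1 - x) * gg (L + 1) x :=
      Finset.sum_nonneg fun x _ => mul_nonneg (tn_pos _).le (gg_nonneg _ _)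
    have e : ∑ x ∈ range m, tn (d + m - 1 - (d + x)) * gg (L + 1) (d + x) =
        ∑ i ∈ range m, tn (m - 1 - i) * gg (L + 1) (i + d) := by
      apply Finset.sum_congr rfl
      intro x hx
      have := mem_range.mp hx
      have q : d + m - 1 - (d + x) = m - 1 - x := by omega
      rw [q, add_comm d x]
    linarith
  have h2 : ∑ i ∈ range m, tn (m - 1 - i) * gg (L + 1) i -
      ∑ i ∈ range m, tn (m - 1 - i) * gg (L + 1) (i + d) ≤ E * X := by
    rw [← Finset.sum_sub_distrib]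
    calc ∑ i ∈ range m, (tn (m - 1 - i) * gg (L + 1) i - tn (m - 1 - i) * gg (L + 1) (i + d)) ≤
          ∑ i ∈ range m, tn (m - 1 - i) * X := by
          apply Finset.sum_le_sum
          intro i hi
          have h3 := mul_le_mul_of_nonneg_left (h i (mem_range.mp hi)) (tn_pos (m - 1 - i)).le
          linarith
      _ = (∑ i ∈ range m, tn (m - 1 - i)) * X := by rw [Finset.sum_mul]
      _ = (∑ j ∈ range m, tn j) * X := by rw [Finset.sum_range_reflect (fun j => tn j) m]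
      _ ≤ E * X := mul_le_mul_of_nonneg_right (sum_tn_le m) hX
  have h3 : tn (m + d) * tn L ≤ tn m * tn L :=
    mul_le_mul_of_nonneg_right (tn_le_of_le (by omega)) (tn_pos L).le
  linarith

/-- first inequality at a return to negative values -/
lemma first_ineq (L m d : ℕ) (hL : (10 : ℝ) ^ 100 ≤ L) (hd : 1 ≤ d) (h100 : 100 * (m + d + 1) ≤ L)
    (h24 : (10 : ℝ) ^ 24 * ((m : ℝ) + d + 1) ≤ L)
    (h1 : ∀ r, r < m + 1 → bb L r ≤ 0) (h2 : ∀ r, m + 1 ≤ r → r < m + 1 + d → 0 ≤ bb L r)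
    (h3 : bb L (m + 1 + d) < 0) (G : ℝ) (hG : ∀ k, k ≤ m + d → gg L k ≤ G) (B : ℝ)
    (hB : B = ∑ x ∈ range d, bb L (m + 1 + x)) :
    AA L (m + d) (m + 1) * B + 0.99 * ((d : ℝ) / ((m : ℝ) + d + 1)) * sr L m <
      2 * E * (B + 2.72 / (L : ℝ) * G * d) := by
  have hL0 : (0 : ℝ) < L := lt_of_lt_of_le (by positivity) hL
  have hE := E_pos
  have r1 := bb_eq2 L m (by omega)
  have r2 := bb_eq2 L (m + d) (by omega)
  have hb1 := h2 (m + 1) le_rfl (by omega)
  have hP1 : 0 ≤ ∑ r ∈ range (m + 1), AA L m r * bb L r + sr L m := by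
    rw [← r1]
    positivity
  have q0 : m + 1 + d = m + d + 1 := by omega
  have hP2 : ∑ r ∈ range (m + d + 1), AA L (m + d) r * bb L r + sr L (m + d) < 0 := by
    rw [← r2]
    rw [q0] at h3
    have : 0 < E * ((L : ℝ) + (((m + d : ℕ) : ℝ) + 1)) := by positivity
    have h4 := mul_neg_of_pos_of_neg this h3
    linarith
  have hB0 : 0 ≤ B := by
    rw [hB]
    apply Finset.sum_nonneg
    intro x hx
    have := mem_range.mp hx
    exact h2 _ (by omega) (by omega)
  have hG0 : 0 ≤ G := by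
    have := hG 0 (by omega)
    rw [gg_zero] at this
    exact this
  obtain ⟨q, hq⟩ : ∃ q : ℝ, q = 1 - 0.99 * ((d : ℝ) / ((m : ℝ) + d + 1)) := ⟨_, rfl⟩
  have hq0 : 0 ≤ q := by
    rw [hq]
    have h4 : (d : ℝ) / ((m : ℝ) + d + 1) ≤ 1 := by
      rw [div_le_one (by positivity)]
      have : (0 : ℝ) ≤ m := Nat.cast_nonneg m
      linarith
    linarith
  have hsplit : ∑ r ∈ range (m + d + 1), AA L (m + d) r * bb L r =
      ∑ r ∈ range (m + 1), AA L (m + d) r * bb L r +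
      ∑ x ∈ range d, AA L (m + d) (m + 1 + x) * bb L (m + 1 + x) := by
    rw [← q0, Finset.sum_range_add]
  have hPa : q * ∑ r ∈ range (m + 1), AA L m r * bb L r ≤
      ∑ r ∈ range (m + 1), AA L (m + d) r * bb L r := by
    rw [Finset.mul_sum]
    apply Finset.sum_le_sum
    intro r hr
    have hr' := mem_range.mp hr
    have h4 := AA_scale L m d r (by omega) h100
    rw [← hq] at h4
    have h5 := mul_le_mul_of_nonpos_right h4 (h1 r hr')
    linarith
  have hPb : AA L (m + d) (m + 1) * B ≤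
      ∑ x ∈ range d, AA L (m + d) (m + 1 + x) * bb L (m + 1 + x) := by
    rw [hB, Finset.mul_sum]
    apply Finset.sum_le_sum
    intro x hx
    have hx' := mem_range.mp hx
    exact mul_le_mul_of_nonneg_right (AA_mono L (m + d) (by omega) (by omega))
      (h2 _ (by omega) (by omega))
  have hX : 0 ≤ B + 2.72 / (L : ℝ) * G * d := by positivity
  have hsr := sr_diff L m d (B + 2.72 / (L : ℝ) * G * d) hX (by
    intro i hi
    have h4 := gg_drop L i hL G d (by
      refine le_trans ?_ h24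
      apply mul_le_mul_of_nonneg_left _ (by positivity)
      have : ((i + d : ℕ) : ℝ) ≤ ((m + d + 1 : ℕ) : ℝ) := by exact_mod_cast (by omega)
      push_cast at this ⊢
      linarith) (fun k hk => hG k (by omega))
    have h5 := block_le (bb L) (m + 1) d (i + 1) (by omega) h1 h2
    rw [← hB] at h5
    linarith)
  have h6 := mul_nonneg hq0 hP1
  have h7 : 0.99 * ((d : ℝ) / ((m : ℝ) + d + 1)) = 1 - q := by rw [hq]; ring
  rw [h7]
  rw [hsplit] at hP2
  nlinarith

/-- second inequality at a return to negative values -/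
lemma second_ineq (L m d : ℕ) (hL : (10 : ℝ) ^ 100 ≤ L) (hd : 1 ≤ d) (h100 : 100 * (m + d + 1) ≤ L)
    (h24 : (10 : ℝ) ^ 24 * ((m : ℝ) + d + 1) ≤ L)
    (h1 : ∀ r, r < m + 1 → bb L r ≤ 0) (h2 : ∀ r, m + 1 ≤ r → r < m + 1 + d → 0 ≤ bb L r)
    (h3 : bb L (m + 1 + d) < 0) :
    sr L (m + d) < AA L (m + d) (m + 1) * (gg L (m + d) + 2.78 * (tn L / L)) := by
  have hL0 : (0 : ℝ) < L := lt_of_lt_of_le (by positivity) hL
  have hE := E_pos
  have r2 := bb_eq2 L (m + d) (by omega)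
  have q0 : m + 1 + d = m + d + 1 := by omega
  have hP2 : ∑ r ∈ range (m + d + 1), AA L (m + d) r * bb L r + sr L (m + d) < 0 := by
    rw [← r2]
    rw [q0] at h3
    have : 0 < E * ((L : ℝ) + (((m + d : ℕ) : ℝ) + 1)) := by positivity
    have h4 := mul_neg_of_pos_of_neg this h3
    linarith
  have hA0 := AA_nonneg L (m + d) (m + 1)
  have hP : AA L (m + d) (m + 1) * ∑ r ∈ range (m + d + 1), bb L r ≤
      ∑ r ∈ range (m + d + 1), AA L (m + d) r * bb L r := by
    rw [Finset.mul_sum]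
    apply Finset.sum_le_sum
    intro r hr
    have hr' := mem_range.mp hr
    rcases Nat.lt_or_ge r (m + 1) with hc | hc
    · exact mul_le_mul_of_nonpos_right (AA_mono L (m + d) hc.le (by omega)) (h1 r hc)
    · exact mul_le_mul_of_nonneg_right (AA_mono L (m + d) hc (by omega)) (h2 r hc (by omega))
  have h4 : -(gg L (m + d) + 2.78 * (tn L / L)) ≤ ∑ r ∈ range (m + d + 1), bb L r := by
    rw [sum_bb]
    have h24' : (10 : ℝ) ^ 24 * ((m + d : ℕ) : ℝ) ≤ L := by
      refine le_trans ?_ h24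
      apply mul_le_mul_of_nonneg_left _ (by positivity)
      push_cast
      linarith
    have h5 := sum_gg_up L (m + d) hL h24'
    have h6 : -(2.72 / (L : ℝ) * ∑ k ∈ range (m + d), gg L k) ≤
        ∑ k ∈ range (m + d), (gg (L + 1) k - gg L k) := by
      rw [Finset.mul_sum, ← Finset.sum_neg_distrib]
      apply Finset.sum_le_sum
      intro k hk
      have hk' := mem_range.mp hk
      have h7 := gg_ratio_sharp L hL k (le_trans (by
        apply mul_le_mul_of_nonneg_left _ (by positivity)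
        exact_mod_cast hk'.le) h24')
      linarith
    have h7 : 2.72 / (L : ℝ) * ∑ k ∈ range (m + d), gg L k ≤ 2.72 / (L : ℝ) * (1.02 * tn L) :=
      mul_le_mul_of_nonneg_left h5 (by positivity)
    have h8 : 2.72 / (L : ℝ) * (1.02 * tn L) = 2.7744 * (tn L / L) := by ring
    have h9 : 0 ≤ tn L / L := by
      have := tn_pos L
      positivity
    linarith
  have h5 := mul_le_mul_of_nonneg_left h4 hA0
  linarith

lemma gg_chain (L m d : ℕ) (hL : 1000000000000 ≤ L) (hm : 2 * (m + d + 1) ≤ L)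
    (h2 : ∀ r, m + 1 ≤ r → r < m + 1 + d → 0 ≤ bb L r) : ∀ h : ℕ, h < d →
    (1 - 10000000000 * (h : ℝ) / L) * gg L (m + d) ≤ gg (L + 1) (m + d - 1 - h) := by
  have hLr : (1000000000000 : ℝ) ≤ L := by exact_mod_cast hL
  have hL0 : (0 : ℝ) < L := by linarith
  intro h
  induction h with
  | zero =>
    intro hd
    have h3 := h2 (m + d) (by omega) (by omega)
    obtain ⟨j, hj⟩ : ∃ j, m + d = j + 1 := ⟨m + d - 1, by omega⟩
    rw [hj, bb_succ] at h3
    have q : m + d - 1 - 0 = j := by omega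
    rw [q, hj]
    simp only [Nat.cast_zero, mul_zero, zero_div, sub_zero, one_mul]
    linarith
  | succ h ih =>
    intro hd
    have h3 := ih (by omega)
    obtain ⟨j, hj⟩ : ∃ j, m + d - 1 - h = j + 1 := ⟨m + d - 1 - h - 1, by omega⟩
    have q : m + d - 1 - (h + 1) = j := by omega
    rw [q]
    rw [hj] at h3
    have h4 := h2 (j + 1) (by omega) (by omega)
    rw [bb_succ] at h4
    have h5 := gg_ratio_up L hL (j + 1) (by omega)
    have hg := gg_nonneg L (m + d)
    have hg2 := gg_nonneg L (j + 1)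
    obtain ⟨x, hx⟩ : ∃ x : ℝ, x = 10000000000 / (L : ℝ) := ⟨_, rfl⟩
    have hx0 : 0 < x := by rw [hx]; positivity
    have hx1 : x ≤ 1 := by
      rw [hx, div_le_one hL0]
      linarith
    have e1 : 10000000000 * (h : ℝ) / L = h * x := by rw [hx]; ring
    have e2 : 10000000000 * ((h + 1 : ℕ) : ℝ) / L = (h + 1) * x := by rw [hx]; push_cast; ring
    rw [e1] at h3
    rw [e2]
    rw [← hx] at h5
    have hh0 : (0 : ℝ) ≤ h := Nat.cast_nonneg h
    have h6 : (1 - x) * ((1 - h * x) * gg L (m + d)) ≤ (1 - x) * ((1 + x) * gg L (j + 1)) :=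
      mul_le_mul_of_nonneg_left (h3.trans h5) (by linarith)
    have h7 : (1 - x) * ((1 + x) * gg L (j + 1)) ≤ gg L (j + 1) := by
      have : 0 ≤ x * x * gg L (j + 1) := by positivity
      nlinarith
    have h8 : (1 - (h + 1) * x) * gg L (m + d) ≤ (1 - x) * ((1 - h * x) * gg L (m + d)) := by
      have : 0 ≤ h * x * x * gg L (m + d) := by positivity
      nlinarith
    linarith

lemma sr_low2 (L m d : ℕ) (hL : 1000000000000 ≤ L) (hm : 2 * (m + d + 1) ≤ L)
    (h2 : ∀ r, m + 1 ≤ r → r < m + 1 + d → 0 ≤ bb L r) :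
    2 * ((1 - 10000000000 * (d : ℝ) / L) * gg L (m + d) * ∑ h ∈ range d, tn h) -
      tn (m + d) * tn L ≤ sr L (m + d) := by
  have hLr : (1000000000000 : ℝ) ≤ L := by exact_mod_cast hL
  have hL0 : (0 : ℝ) < L := by linarith
  unfold sr
  have e1 : ∑ i ∈ range (m + d), tn (m + d - 1 - i) * gg (L + 1) i =
      ∑ h ∈ range (m + d), tn h * gg (L + 1) (m + d - 1 - h) := by
    rw [← Finset.sum_range_reflect (fun h => tn h * gg (L + 1) (m + d - 1 - h)) (m + d)]
    apply Finset.sum_congr rfl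
    intro i hi
    have hi' := mem_range.mp hi
    have q : m + d - 1 - (m + d - 1 - i) = i := by omega
    simp only [q]
  have h3 : ∑ h ∈ range d, tn h * gg (L + 1) (m + d - 1 - h) ≤
      ∑ h ∈ range (m + d), tn h * gg (L + 1) (m + d - 1 - h) :=
    Finset.sum_le_sum_of_subset_of_nonneg (range_subset_range.mpr (by omega))
      fun h _ _ => mul_nonneg (tn_pos _).le (gg_nonneg _ _)
  have h4 : (1 - 10000000000 * (d : ℝ) / L) * gg L (m + d) * ∑ h ∈ range d, tn h ≤
      ∑ h ∈ range d, tn h * gg (L + 1) (m + d - 1 - h) := by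
    rw [Finset.mul_sum]
    apply Finset.sum_le_sum
    intro h hh
    have hh' := mem_range.mp hh
    have h5 := gg_chain L m d hL hm h2 h hh'
    have hg := gg_nonneg L (m + d)
    have h6 : (1 - 10000000000 * (d : ℝ) / L) * gg L (m + d) ≤
        (1 - 10000000000 * (h : ℝ) / L) * gg L (m + d) := by
      apply mul_le_mul_of_nonneg_right _ hg
      have h7 : (h : ℝ) ≤ d := by exact_mod_cast hh'.le
      have h8 : 10000000000 * (h : ℝ) / L ≤ 10000000000 * (d : ℝ) / L := by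
        apply div_le_div_of_nonneg_right _ hL0.le
        linarith
      linarith
    have h7 := mul_le_mul_of_nonneg_left (h6.trans h5) (tn_pos h).le
    linarith
  rw [e1]
  linarith

/-- lower bound of the source at the first nonnegative place -/
lemma sr_low1 (L m R : ℕ) (hL : 1000000000000 ≤ L) (h13 : 10000000000000 * (m + 1) ≤ L)
    (h1 : ∀ r, r < m + 1 → bb L r ≤ 0) (hb : 0 ≤ bb L (m + 1)) (hR1 : 1 ≤ R)
    (hRR : 10000000000 * ((R : ℝ) * √(R : ℝ)) ≤ L) (hRm : R ≤ m) :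
    (L : ℝ) / (((m : ℝ) + 1) * √((m : ℝ) + 1)) * (tn L / L * (0.3 * √(R : ℝ))) ≤ sr L m := by
  have hLr : (1000000000000 : ℝ) ≤ L := by exact_mod_cast hL
  have hL0 : (0 : ℝ) < L := by linarith
  have hE := E_pos
  have r1 := bb_eq2 L m (by omega)
  have hP1 : 0 ≤ ∑ r ∈ range (m + 1), AA L m r * bb L r + sr L m := by
    rw [← r1]
    positivity
  obtain ⟨c, hc⟩ : ∃ c : ℝ, c = tn L / L := ⟨_, rfl⟩
  have htL := tn_pos L
  have hc0 : 0 < c := by rw [hc]; positivity
  rw [← hc]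
  have hRr : (1 : ℝ) ≤ R := by exact_mod_cast hR1
  have hsR : 0 < √(R : ℝ) := Real.sqrt_pos.mpr (by linarith)
  have hssR : √(R : ℝ) * √(R : ℝ) = R := Real.mul_self_sqrt (by linarith)
  have hP : ∑ r ∈ range (m + 1), AA L m r * bb L r ≤
      -((L : ℝ) / (((m : ℝ) + 1) * √((m : ℝ) + 1)) * (c * (0.3 * √(R : ℝ)))) := by
    have h2 : ∑ r ∈ range (m + 1), AA L m r * bb L r ≤ ∑ r ∈ range (R + 1), AA L m r * bb L r := by
      obtain ⟨d, hd⟩ : ∃ d, m + 1 = R + 1 + d := ⟨m - R, by omega⟩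
      have e := Finset.sum_range_add (fun r => AA L m r * bb L r) (R + 1) d
      rw [hd, e]
      have : ∑ x ∈ range d, AA L m (R + 1 + x) * bb L (R + 1 + x) ≤ 0 := by
        apply Finset.sum_nonpos
        intro x hx
        have := mem_range.mp hx
        exact mul_nonpos_of_nonneg_of_nonpos (AA_nonneg _ _ _) (h1 _ (by omega))
      linarith
    refine h2.trans ?_
    rw [Finset.sum_range_succ', bb_zero, mul_zero, add_zero]
    have hA : (L : ℝ) / (((m : ℝ) + 1) * √((m : ℝ) + 1)) ≤ AA L m 0 := by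
      unfold AA
      rw [Nat.sub_zero]
      have h3 := le_tn m
      have hsq : sq m = √((m : ℝ) + 1) := rfl
      rw [hsq] at h3
      have h4 := mul_le_mul_of_nonneg_left h3 hL0.le
      have h5 := tn_pos m
      have h6 : 0 ≤ ((m : ℝ) + 1) * tn m := by positivity
      have e : (L : ℝ) / (((m : ℝ) + 1) * √((m : ℝ) + 1)) =
          L * (1 / (((m : ℝ) + 1) * √((m : ℝ) + 1))) := by ring
      rw [e]
      linarith
    have h3 : ∀ k ∈ range R, AA L m (k + 1) * bb L (k + 1) ≤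
        -((L : ℝ) / (((m : ℝ) + 1) * √((m : ℝ) + 1)) * (c * (0.3 / √(R : ℝ)))) := by
      intro k hk
      have hk' := mem_range.mp hk
      have hkR : ((k + 1 : ℕ) : ℝ) ≤ R := by exact_mod_cast hk'
      have h4 := S_ge L (k + 1) hL (by omega) (by omega) (le_trans (by
        apply mul_le_mul_of_nonneg_left _ (by norm_num)
        exact mul_sqrt_mono (Nat.cast_nonneg _) hkR) hRR)
      rw [← hc] at h4
      have hsk : 0 < √((k + 1 : ℕ) : ℝ) := Real.sqrt_pos.mpr (by push_cast; positivity)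
      have h5 : 0.3 / √(R : ℝ) ≤ 0.3 / √((k + 1 : ℕ) : ℝ) :=
        div_le_div_of_nonneg_left (by norm_num) hsk (Real.sqrt_le_sqrt hkR)
      have h6 : c * (0.3 / √(R : ℝ)) ≤ -bb L (k + 1) :=
        le_trans (mul_le_mul_of_nonneg_left h5 hc0.le) h4
      have h7 : (L : ℝ) / (((m : ℝ) + 1) * √((m : ℝ) + 1)) ≤ AA L m (k + 1) :=
        hA.trans (AA_mono L m (by omega) (by omega))
      have h8 : (L : ℝ) / (((m : ℝ) + 1) * √((m : ℝ) + 1)) * (c * (0.3 / √(R : ℝ))) ≤
          AA L m (k + 1) * (-bb L (k + 1)) :=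
        mul_le_mul h7 h6 (by positivity) (AA_nonneg _ _ _)
      linarith
    refine (Finset.sum_le_sum h3).trans ?_
    rw [Finset.sum_const, card_range, nsmul_eq_mul]
    apply le_of_eq
    have e : (R : ℝ) * (0.3 / √(R : ℝ)) = 0.3 * √(R : ℝ) := by
      rw [mul_div_assoc', div_eq_iff hsR.ne', mul_assoc, hssR]
      ring
    calc (R : ℝ) * -((L : ℝ) / (((m : ℝ) + 1) * √((m : ℝ) + 1)) * (c * (0.3 / √(R : ℝ)))) =
        -((L : ℝ) / (((m : ℝ) + 1) * √((m : ℝ) + 1)) * (c * ((R : ℝ) * (0.3 / √(R : ℝ))))) := by ring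
      _ = _ := by rw [e]
  linarith

end Pool.Agent.MP_9da1e3_co
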