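import Pool.Agent.Lib.MP_9da1e3_co.Wn8

namespace Pool.Agent.MP_9da1e3_co

open Finset

/-- lower bound of `gg` in the window -/
lemma g_low (L p : ℕ) (hL : 36000000 ≤ L) (hp : 1 ≤ p) (hpL : p ≤ L)
    (hw : (p : ℝ) * √(p : ℝ) ≤ 10 ^ 35 * L) :
    tn L / L * √(p : ℝ) / 10 ^ 77 ≤ gg L p := by
  have hLr : (36000000 : ℝ) ≤ L := by exact_mod_cast hL
  have hL0 : (0 : ℝ) < L := by linarith
  have hp1 : (1 : ℝ) ≤ p := by exact_mod_cast hp
  have hp0 : (0 : ℝ) < p := by linarith
  have hpLr : (p : ℝ) ≤ L := by exact_mod_cast hpL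
  have htL := tn_pos L
  have h1 := low_large (L + p) L hL (by omega) (by omega)
  obtain ⟨t, ht⟩ : ∃ t : ℝ, t = √(p : ℝ) := ⟨_, rfl⟩
  have ht0 : 0 < t := by rw [ht]; exact Real.sqrt_pos.mpr hp0
  have htt : t * t = p := by rw [ht]; exact Real.mul_self_sqrt hp0.le
  have en : (((L + p : ℕ) : ℝ) - L) = p := by push_cast; ring
  have hn0 : (0 : ℝ) < ((L + p : ℕ) : ℝ) := by push_cast; linarith
  have hn2 : ((L + p : ℕ) : ℝ) ≤ 2 * L := by push_cast; linarith
  have hn1 : (L : ℝ) ≤ ((L + p : ℕ) : ℝ) := by push_cast; linarith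
  have hmin : t / (10 ^ 70 * L) ≤ min (p1 (L + p) L) (p2 (L + p) L) := by
    apply le_min
    · unfold p1
      rw [en, ← ht]
      apply div_le_div_of_nonneg_left ht0.le hn0
      refine hn2.trans ?_
      apply mul_le_mul_of_nonneg_right _ hL0.le
      norm_num
    · unfold p2
      rw [en, ← ht, div_le_div_iff₀ (by positivity) (by positivity)]
      have h2 : (p * t) * (p * t) ≤ (10 ^ 35 * L) * (10 ^ 35 * L) := by
        rw [← ht] at hw
        exact mul_le_mul hw hw (by positivity) (by positivity)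
      have e1 : t * ((p : ℝ) ^ 2 * t) = (p * t) * (p * t) := by ring
      have e2 : (10 ^ 35 * L) * (10 ^ 35 * L) = L * (10 ^ 70 * (L : ℝ)) := by ring
      rw [e1]
      refine h2.trans ?_
      rw [e2]
      exact mul_le_mul_of_nonneg_right hn1 (by positivity)
  have htn := tn_pos (L + p)
  have h2 : 1 / 220000 * (t / (10 ^ 70 * L)) ≤ RR (L + p) L :=
    le_trans (mul_le_mul_of_nonneg_left hmin (by norm_num)) h1
  have h3 : RR (L + p) L * tn (L + p) = gg L p := by
    unfold RR gg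
    field_simp
  have h4 := tn_le_sq (by omega : L ≤ L + p)
  have h5 : tn L / 4 ≤ tn (L + p) := by
    have h6 : (((L + p : ℕ) : ℝ) + 1) ^ 2 ≤ (2 * ((L : ℝ) + 1)) ^ 2 := by
      apply pow_le_pow_left₀ (by positivity)
      linarith
    have h7 : ((L : ℝ) + 1) ^ 2 * tn L ≤ ((L : ℝ) + 1) ^ 2 * (4 * tn (L + p)) := by
      refine h4.trans ?_
      have h8 := mul_le_mul_of_nonneg_right h6 htn.le
      refine h8.trans (le_of_eq ?_)
      ring
    have h8 := le_of_mul_le_mul_left h7 (by positivity)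
    linarith
  rw [← h3, ← ht]
  have h6 : (1 / 220000 * (t / (10 ^ 70 * L))) * (tn L / 4) ≤ RR (L + p) L * tn (L + p) :=
    mul_le_mul h2 h5 (by positivity) (RR_nonneg _ _)
  refine le_trans ?_ h6
  have e3 : (1 / 220000 * (t / (10 ^ 70 * L))) * (tn L / 4) = tn L / L * t / (880000 * 10 ^ 70) := by
    field_simp
    ring
  rw [e3]
  apply div_le_div_of_nonneg_left (by positivity) (by positivity)
  norm_num

/-- upper bound of a block sum of `bb` -/
lemma B_up (L m d : ℕ) (hL : 1000000000000 ≤ L) (h13 : 10000000000000 * (m + d + 1) ≤ L) :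
    ∑ x ∈ range d, bb L (m + 1 + x) ≤
      tn L / L * (2 * (((m : ℝ) + d + 1) * ((m : ℝ) + d + 1)) / L) := by
  have hLr : (1000000000000 : ℝ) ≤ L := by exact_mod_cast hL
  have hL0 : (0 : ℝ) < L := by linarith
  obtain ⟨c, hc⟩ : ∃ c : ℝ, c = tn L / L := ⟨_, rfl⟩
  have htL := tn_pos L
  have hc0 : 0 < c := by rw [hc]; positivity
  rw [← hc]
  obtain ⟨Y, hY⟩ : ∃ Y : ℝ, Y = (m : ℝ) + d + 1 := ⟨_, rfl⟩
  rw [← hY]
  have hY0 : 0 < Y := by rw [hY]; positivity
  have h1 : ∀ x ∈ range d, bb L (m + 1 + x) ≤ c * (2 * Y / L) := by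
    intro x hx
    have hx' := mem_range.mp hx
    have q : m + 1 + x = (m + x) + 1 := by omega
    have h2 := bb_up L hL (m + x) (by omega)
    rw [← hc] at h2
    rw [q]
    refine h2.trans ?_
    apply mul_le_mul_of_nonneg_left _ hc0.le
    have h3 := ww_pos (m + x)
    have h4 : 2 * (((m + x : ℕ) : ℝ) + 1) / L ≤ 2 * Y / L := by
      apply div_le_div_of_nonneg_right _ hL0.le
      have : ((m + x : ℕ) : ℝ) ≤ ((m + d : ℕ) : ℝ) := by exact_mod_cast (by omega)
      push_cast at this ⊢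
      rw [hY]
      linarith
    linarith
  refine (Finset.sum_le_sum h1).trans ?_
  rw [Finset.sum_const, card_range, nsmul_eq_mul]
  have h2 : (d : ℝ) ≤ Y := by
    rw [hY]
    have : (0 : ℝ) ≤ m := Nat.cast_nonneg m
    linarith
  calc (d : ℝ) * (c * (2 * Y / L)) ≤ Y * (c * (2 * Y / L)) :=
        mul_le_mul_of_nonneg_right h2 (by positivity)
    _ = _ := by ring

/-- in the window `bb L` does not return to negative values -/
theorem no_return (L m d : ℕ) (hL : (10 : ℝ) ^ 1000 ≤ L) (hd : 1 ≤ d)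
    (hw : ((m : ℝ) + d + 1) * √((m : ℝ) + d + 1) ≤ 10 ^ 35 * L)
    (h1 : ∀ r, r < m + 1 → bb L r ≤ 0) (h2 : ∀ r, m + 1 ≤ r → r < m + 1 + d → 0 ≤ bb L r)
    (h3 : bb L (m + 1 + d) < 0) : False := by
  have e0 : (((m + d : ℕ) : ℝ) + 1) = (m : ℝ) + d + 1 := by push_cast; ring
  have hwin := win_le L (m + d) hL (by rw [e0]; exact hw)
  have h13 := nat13 L (m + d) hwin
  rw [e0] at hwin
  have hL100 : (10 : ℝ) ^ 100 ≤ L := le_trans (pow_le_pow_right₀ (by norm_num) (by norm_num)) hL
  clear hL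
  have hLr : (1000000000000 : ℝ) ≤ L := le_trans (by norm_num) hL100
  have hL0 : (0 : ℝ) < L := by linarith
  have hL12 : 1000000000000 ≤ L := by exact_mod_cast hLr
  have hE0 := E_pos
  have hE := E_ge3
  have hE' := E_le
  obtain ⟨Y, hY⟩ : ∃ Y : ℝ, Y = (m : ℝ) + d + 1 := ⟨_, rfl⟩
  have hm0 : (0 : ℝ) ≤ m := Nat.cast_nonneg m
  have hd1 : (1 : ℝ) ≤ d := by exact_mod_cast hd
  have hY0 : 0 < Y := by rw [hY]; positivity
  obtain ⟨S, hS⟩ : ∃ S : ℝ, S = √Y := ⟨_, rfl⟩
  have hS0 : 0 < S := by rw [hS]; exact Real.sqrt_pos.mpr hY0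
  have hSS : S * S = Y := by rw [hS]; exact Real.mul_self_sqrt hY0.le
  rw [← hY, ← hS] at hw
  rw [← hY] at hwin
  obtain ⟨c, hc⟩ : ∃ c : ℝ, c = tn L / L := ⟨_, rfl⟩
  have htL := tn_pos L
  have hc0 : 0 < c := by rw [hc]; positivity
  have hcL : tn L = c * L := by rw [hc]; field_simp
  have hb1 := h2 (m + 1) le_rfl (by omega)
  -- the first nonnegative place is far away
  have hfar : ∀ R : ℕ, 1 ≤ R → R ≤ m + d → 10000000000 * ((R : ℝ) * √(R : ℝ)) ≤ L → R ≤ m := by
    intro R hR1 hR2 hRR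
    by_contra hcon
    have h4 : ((m + 1 : ℕ) : ℝ) ≤ R := by exact_mod_cast (by omega : m + 1 ≤ R)
    have h5 := S_ge L (m + 1) hL12 (by omega) (by omega) (le_trans (by
      apply mul_le_mul_of_nonneg_left _ (by norm_num)
      exact mul_sqrt_mono (Nat.cast_nonneg _) h4) hRR)
    have h6 : 0 < tn L / L * (0.3 / √((m + 1 : ℕ) : ℝ)) := by
      have : 0 < √((m + 1 : ℕ) : ℝ) := Real.sqrt_pos.mpr (by push_cast; positivity)
      positivity
    linarith
  -- Y is large
  have hSbig : (10 : ℝ) ^ 200 ≤ S := by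
    by_contra hcon
    push Not at hcon
    have h4 : 10000000000 * (((m + 1 : ℕ) : ℝ) * √((m + 1 : ℕ) : ℝ)) ≤ L := by
      have h5 : ((m + 1 : ℕ) : ℝ) ≤ Y := by rw [hY]; push_cast; linarith
      have h6 := mul_sqrt_mono (Nat.cast_nonneg (m + 1)) h5
      rw [← hS] at h6
      have h7 : Y * S ≤ Y * 10 ^ 200 := mul_le_mul_of_nonneg_left hcon.le hY0.le
      have h8 : 10000000000 * (Y * 10 ^ 200) ≤ 10 ^ 250 * Y := by
        have : 10000000000 * (Y * 10 ^ 200) = 10 ^ 210 * Y := by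
          have : (10 : ℝ) ^ 210 = 10000000000 * 10 ^ 200 := by norm_num
          rw [this]
          ring
        rw [this]
        apply mul_le_mul_of_nonneg_right _ hY0.le
        exact pow_le_pow_right₀ (by norm_num) (by norm_num)
      linarith
    have h5 := hfar (m + 1) (by omega) (by omega) h4
    omega
  have hYbig : (10 : ℝ) ^ 200 ≤ Y := by
    have h4 : (1 : ℝ) ≤ 10 ^ 200 := one_le_pow₀ (by norm_num)
    have h5 : 1 ≤ S := h4.trans hSbig
    rw [← hSS]
    nlinarith
  -- lower bound of sr L m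
  have hsr1 : c * S / 10 ^ 52 ≤ sr L m := by
    obtain ⟨R, hR⟩ : ∃ R : ℕ, R = (m + d + 1) / 1000000000000000000000000000000 := ⟨_, rfl⟩
    have hYn : 10000000000000000000000000000000 ≤ m + d + 1 := by
      have h4 : (10000000000000000000000000000000 : ℝ) ≤ Y := le_trans (by norm_num) hYbig
      rw [hY] at h4
      exact_mod_cast h4
    have hR1 : 1 ≤ R := by omega
    have hR3 : R * 1000000000000000000000000000000 ≤ m + d + 1 := by omega
    have hR4 : m + d + 1 < (R + 1) * 1000000000000000000000000000000 := by omega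
    have hRu : (R : ℝ) * 1000000000000000000000000000000 ≤ Y := by
      rw [hY]
      exact_mod_cast hR3
    have hRp : (1 : ℝ) ≤ R := by exact_mod_cast hR1
    have hRl : Y ≤ 10000000000000000000000000000000 * (R : ℝ) := by
      have : (m : ℝ) + d + 1 < ((R : ℝ) + 1) * 1000000000000000000000000000000 := by
        exact_mod_cast hR4
      rw [hY]
      linarith
    obtain ⟨t, ht⟩ : ∃ t : ℝ, t = √(R : ℝ) := ⟨_, rfl⟩
    have ht0 : 0 < t := by rw [ht]; exact Real.sqrt_pos.mpr (by linarith)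
    have htt : t * t = R := by rw [ht]; exact Real.mul_self_sqrt (by linarith)
    have hts : 1000000000000000 * t ≤ S := by
      apply le_of_sq_le_sq _ hS0.le
      have : (1000000000000000 * t) ^ 2 = 1000000000000000000000000000000 * (t * t) := by ring
      rw [this, htt]
      have : S ^ 2 = Y := by rw [← hSS]; ring
      rw [this]
      linarith
    have hst : S ≤ 10000000000000000 * t := by
      apply le_of_sq_le_sq _ (by positivity)
      have : (10000000000000000 * t) ^ 2 = 100000000000000000000000000000000 * (t * t) := by ring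
      rw [this, htt]
      have : S ^ 2 = Y := by rw [← hSS]; ring
      rw [this]
      linarith
    have hRR : 10000000000 * ((R : ℝ) * √(R : ℝ)) ≤ L := by
      rw [← ht]
      have h4 : (R * 1000000000000000000000000000000) * (1000000000000000 * t) ≤ Y * S :=
        mul_le_mul hRu hts (by positivity) hY0.le
      have h5 : (R * 1000000000000000000000000000000) * (1000000000000000 * t) =
          10 ^ 35 * (10000000000 * ((R : ℝ) * t)) := by ring
      rw [h5] at h4
      exact le_of_mul_le_mul_left (h4.trans hw) (by positivity)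
    have hRm := hfar R hR1 (by omega) hRR
    have h4 := sr_low1 L m R hL12 (by omega) h1 hb1 hR1 hRR hRm
    rw [← hc, ← ht] at h4
    refine le_trans ?_ h4
    have h5 : ((m : ℝ) + 1) * √((m : ℝ) + 1) ≤ 10 ^ 35 * L := by
      refine le_trans (mul_sqrt_mono (by positivity) (by rw [hY]; linarith : (m : ℝ) + 1 ≤ Y)) ?_
      rw [← hS]
      exact hw
    have hz0 : 0 < ((m : ℝ) + 1) * √((m : ℝ) + 1) := by
      have : 0 < √((m : ℝ) + 1) := Real.sqrt_pos.mpr (by positivity)
      positivity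
    have h6 : 1 / 10 ^ 35 ≤ (L : ℝ) / (((m : ℝ) + 1) * √((m : ℝ) + 1)) := by
      rw [div_le_div_iff₀ (by positivity) hz0]
      linarith
    have h7 : 1 / 10 ^ 35 * (c * (0.3 * t)) ≤
        (L : ℝ) / (((m : ℝ) + 1) * √((m : ℝ) + 1)) * (c * (0.3 * t)) :=
      mul_le_mul_of_nonneg_right h6 (by positivity)
    refine le_trans ?_ h7
    have h8 : c * S / 10 ^ 52 ≤ c * (10000000000000000 * t) / 10 ^ 52 := by
      apply div_le_div_of_nonneg_right _ (by positivity)
      exact mul_le_mul_of_nonneg_left hst hc0.le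
    refine h8.trans ?_
    have e : 1 / 10 ^ 35 * (c * (0.3 * t)) = c * (30000000000000000 * t) / 10 ^ 52 := by
      have : (10 : ℝ) ^ 52 = 100000000000000000 * 10 ^ 35 := by norm_num
      rw [this]
      field_simp
      norm_num
    rw [e]
    apply div_le_div_of_nonneg_right _ (by positivity)
    apply mul_le_mul_of_nonneg_left _ hc0.le
    linarith
  have hsr0 : 0 < sr L m := lt_of_lt_of_le (by positivity) hsr1
  -- first inequality
  obtain ⟨B, hB⟩ : ∃ B : ℝ, B = ∑ x ∈ range d, bb L (m + 1 + x) := ⟨_, rfl⟩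
  have hB0 : 0 ≤ B := by
    rw [hB]
    apply Finset.sum_nonneg
    intro x hx
    have := mem_range.mp hx
    exact h2 _ (by omega) (by omega)
  have h24 : (10 : ℝ) ^ 24 * Y ≤ L := by
    refine le_trans ?_ hwin
    apply mul_le_mul_of_nonneg_right _ hY0.le
    exact pow_le_pow_right₀ (by norm_num) (by norm_num)
  have hG : ∀ k, k ≤ m + d → gg L k ≤ 1.01 * c * S := by
    intro k hk
    have h4 := gg_le_WW L hL12 k (by omega)
    rw [← hc] at h4
    refine h4.trans ?_
    have hkY : (k : ℝ) ≤ Y := by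
      rw [hY]
      have : (k : ℝ) ≤ ((m + d : ℕ) : ℝ) := by exact_mod_cast hk
      push_cast at this
      linarith
    have h5 : WW k ≤ S := by
      refine (WW_le k).trans ?_
      rw [hS]
      exact Real.sqrt_le_sqrt hkY
    have h6 : 1 + 20000000000 * (k : ℝ) / L ≤ 1.01 := by
      have : 20000000000 * (k : ℝ) / L ≤ 0.01 := by
        rw [div_le_iff₀ hL0]
        have h7 : (10000000000000 : ℝ) * Y ≤ L := by
          refine le_trans ?_ h24
          apply mul_le_mul_of_nonneg_right _ hY0.le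
          norm_num
        linarith
      linarith
    calc (1 + 20000000000 * (k : ℝ) / L) * (c * WW k) ≤ 1.01 * (c * S) := by
          apply mul_le_mul h6 _ _ (by norm_num)
          · exact mul_le_mul_of_nonneg_left h5 hc0.le
          · have := WW_nonneg k
            positivity
      _ = _ := by ring
  have f1 := first_ineq L m d hL100 hd (by omega) (by rw [← hY]; exact h24) h1 h2 h3
    (1.01 * c * S) hG B hB
  have f2 := second_ineq L m d hL100 hd (by omega) (by rw [← hY]; exact h24) h1 h2 h3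
  rw [← hc] at f2
  rw [← hY] at f1
  obtain ⟨A, hA⟩ : ∃ A : ℝ, A = AA L (m + d) (m + 1) := ⟨_, rfl⟩
  have hA0 : 0 ≤ A := by rw [hA]; exact AA_nonneg _ _ _
  rw [← hA] at f1 f2
  obtain ⟨κ, hκ⟩ : ∃ κ : ℝ, κ = (d : ℝ) / Y * sr L m := ⟨_, rfl⟩
  have hκ0 : 0 < κ := by rw [hκ]; positivity
  have f1' : A * B + 0.5 * κ < 2 * E * B := by
    have h4 : 2 * E * (2.72 / (L : ℝ) * (1.01 * c * S) * d) ≤ 0.49 * κ := by
      have h5 : (d : ℝ) / Y * (c * S / 10 ^ 52) ≤ κ := by
        rw [hκ]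
        exact mul_le_mul_of_nonneg_left hsr1 (by positivity)
      have h6 : 2 * E * (2.72 / (L : ℝ) * (1.01 * c * S) * d) ≤ 15 * (c * S * d) / L := by
        have e : 2 * E * (2.72 / (L : ℝ) * (1.01 * c * S) * d) = E * 5.4944 * (c * S * d) / L := by
          field_simp
          norm_num
        rw [e]
        apply div_le_div_of_nonneg_right _ hL0.le
        apply mul_le_mul_of_nonneg_right _ (by positivity)
        linarith
      have h7 : 15 * (c * S * d) / L ≤ 0.49 * ((d : ℝ) / Y * (c * S / 10 ^ 52)) := by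
        have e : 0.49 * ((d : ℝ) / Y * (c * S / 10 ^ 52)) = 0.49 * (c * S * d) / (Y * 10 ^ 52) := by
          field_simp
        rw [e, div_le_div_iff₀ hL0 (by positivity)]
        have h8 : 15 * (Y * 10 ^ 52) ≤ 0.49 * L := by
          have h9 : (10 : ℝ) ^ 54 * Y ≤ L := by
            refine le_trans ?_ hwin
            apply mul_le_mul_of_nonneg_right _ hY0.le
            exact pow_le_pow_right₀ (by norm_num) (by norm_num)
          have e54 : (10 : ℝ) ^ 54 = 100 * 10 ^ 52 := by norm_num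
          rw [e54] at h9
          have h10 : 0 < Y * 10 ^ 52 := by positivity
          linarith
        have h9 := mul_le_mul_of_nonneg_left h8 (show 0 ≤ c * S * d by positivity)
        linarith
      linarith
    have h5 : 0.99 * ((d : ℝ) / Y) * sr L m = 0.99 * κ := by rw [hκ]; ring
    rw [h5] at f1
    have h6 : 2 * E * (B + 2.72 / (L : ℝ) * (1.01 * c * S) * d) =
        2 * E * B + 2 * E * (2.72 / (L : ℝ) * (1.01 * c * S) * d) := by ring
    rw [h6] at f1
    linarith
  have hA2 : A < 2 * E := by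
    by_contra hcon
    push Not at hcon
    have := mul_le_mul_of_nonneg_right hcon hB0
    linarith
  -- d is large
  have hAL : (L : ℝ) * tn (d - 1) ≤ A := by
    rw [hA]
    unfold AA
    have q : m + d - (m + 1) = d - 1 := by omega
    rw [q]
    have h4 := tn_pos (d - 1)
    have h5 : (0 : ℝ) ≤ ((d - 1 : ℕ) : ℝ) := Nat.cast_nonneg _
    have h6 : 0 ≤ (((d - 1 : ℕ) : ℝ) + 1) * tn (d - 1) := by positivity
    linarith
  obtain ⟨D, hD⟩ : ∃ D : ℝ, D = √(d : ℝ) := ⟨_, rfl⟩
  have hD0 : 0 < D := by rw [hD]; exact Real.sqrt_pos.mpr (by linarith)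
  have hDD : D * D = d := by rw [hD]; exact Real.mul_self_sqrt (by linarith)
  have hLd : (L : ℝ) < 5.5 * (d * D) := by
    have h4 := le_tn (d - 1)
    have q : ((d - 1 : ℕ) : ℝ) + 1 = d := by
      rw [Nat.cast_sub hd]
      push_cast
      ring
    have hsq : sq (d - 1) = D := by
      unfold sq
      rw [q, hD]
    rw [q, hsq] at h4
    have h5 := mul_le_mul_of_nonneg_left h4 hL0.le
    have h6 : (L : ℝ) * (1 / (d * D)) < 5.5 := by linarith
    have h7 : (L : ℝ) * (1 / (d * D)) = L / (d * D) := by ring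
    rw [h7, div_lt_iff₀ (by positivity)] at h6
    exact h6
  have hdY : (d : ℝ) ≤ Y := by rw [hY]; linarith
  have hDbig : (10 : ℝ) ^ 249 ≤ D := by
    have h4 : 10 ^ 250 * (d : ℝ) < 5.5 * D * d := by
      calc 10 ^ 250 * (d : ℝ) ≤ 10 ^ 250 * Y := mul_le_mul_of_nonneg_left hdY (by positivity)
        _ ≤ L := hwin
        _ < 5.5 * (d * D) := hLd
        _ = _ := by ring
    have h5 : (10 : ℝ) ^ 250 < 5.5 * D := lt_of_mul_lt_mul_right h4 (by linarith)
    have h6 : (10 : ℝ) ^ 250 = 10 * 10 ^ 249 := by norm_num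
    rw [h6] at h5
    linarith
  have hYd : Y ≤ 10 ^ 24 * d := by
    by_contra hcon
    push Not at hcon
    have h4 : 10 ^ 12 * D ≤ S := by
      apply le_of_sq_le_sq _ hS0.le
      have e1 : (10 ^ 12 * D) ^ 2 = 10 ^ 24 * (D * D) := by ring
      have e2 : S ^ 2 = Y := by rw [← hSS]; ring
      rw [e1, hDD, e2]
      exact hcon.le
    have h5 : (10 ^ 24 * (d : ℝ)) * (10 ^ 12 * D) ≤ Y * S :=
      mul_le_mul hcon.le h4 (by positivity) hY0.le
    have h6 : (10 : ℝ) ^ 35 * L < 10 ^ 35 * (5.5 * (d * D)) := mul_lt_mul_of_pos_left hLd (by positivity)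
    have h7 : (10 ^ 24 * (d : ℝ)) * (10 ^ 12 * D) = 10 ^ 35 * (10 * (d * D)) := by ring
    have h8 : (10 : ℝ) ^ 35 * (5.5 * (d * D)) ≤ 10 ^ 35 * (10 * (d * D)) := by
      apply mul_le_mul_of_nonneg_left _ (by positivity)
      have : 0 < (d : ℝ) * D := by positivity
      linarith
    linarith
  -- quantitative gap
  have hBup : B ≤ 2 * 10 ^ 35 * (c * S) := by
    have h4 := B_up L m d hL12 (by omega)
    rw [← hB, ← hc, ← hY] at h4
    refine h4.trans ?_
    have h5 : Y * Y ≤ 10 ^ 35 * L * S := by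
      have e : Y * Y = (Y * S) * S := by rw [mul_assoc, hSS]
      rw [e]
      exact mul_le_mul_of_nonneg_right hw hS0.le
    have h6 : 2 * (Y * Y) / L ≤ 2 * 10 ^ 35 * S := by
      rw [div_le_iff₀ hL0]
      linarith
    have h7 := mul_le_mul_of_nonneg_left h6 hc0.le
    linarith
  have hκl : c * S / 10 ^ 76 ≤ κ := by
    rw [hκ]
    have h4 : 1 / 10 ^ 24 ≤ (d : ℝ) / Y := by
      rw [div_le_div_iff₀ (by positivity) hY0]
      linarith
    have h5 : 1 / 10 ^ 24 * (c * S / 10 ^ 52) ≤ (d : ℝ) / Y * sr L m :=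
      mul_le_mul h4 hsr1 (by positivity) (by positivity)
    refine le_trans (le_of_eq ?_) h5
    have : (10 : ℝ) ^ 76 = 10 ^ 24 * 10 ^ 52 := by rw [← pow_add]
    rw [this]
    field_simp
  have hgap : A + 1 / 10 ^ 112 ≤ 2 * E := by
    have h4 : 0.5 * κ < (2 * E - A) * B := by linarith
    have h5 : (2 * E - A) * B ≤ (2 * E - A) * (2 * 10 ^ 35 * (c * S)) :=
      mul_le_mul_of_nonneg_left hBup (by linarith)
    have h6 : 0.5 * (c * S / 10 ^ 76) < (2 * E - A) * (2 * 10 ^ 35 * (c * S)) := by linarith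
    have hcS : 0 < c * S := by positivity
    have h7 : (0.5 / 10 ^ 76) * (c * S) < ((2 * E - A) * (2 * 10 ^ 35)) * (c * S) := by
      have e1 : (0.5 / 10 ^ 76) * (c * S) = 0.5 * (c * S / 10 ^ 76) := by ring
      have e2 : ((2 * E - A) * (2 * 10 ^ 35)) * (c * S) = (2 * E - A) * (2 * 10 ^ 35 * (c * S)) := by ring
      rw [e1, e2]
      exact h6
    have h8 := lt_of_mul_lt_mul_right h7 hcS.le
    have h9 : (1 / 10 ^ 112 : ℝ) * (2 * 10 ^ 35) ≤ 0.5 / 10 ^ 76 := by norm_num
    have h10 : (1 / 10 ^ 112 : ℝ) * (2 * 10 ^ 35) < (2 * E - A) * (2 * 10 ^ 35) := lt_of_le_of_lt h9 h8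
    have h11 := lt_of_mul_lt_mul_right h10 (by positivity)
    linarith
  -- final contradiction
  obtain ⟨g, hg⟩ : ∃ g : ℝ, g = gg L (m + d) := ⟨_, rfl⟩
  have hg0 : 0 ≤ g := by rw [hg]; exact gg_nonneg _ _
  have f3 := sr_low2 L m d hL12 (by omega) h2
  rw [← hg] at f2 f3
  obtain ⟨T, hT⟩ : ∃ T : ℝ, T = ∑ h ∈ range d, tn h := ⟨_, rfl⟩
  have hTl := sum_tn_low d hd
  have hTu := sum_tn_le d
  rw [← hT] at f3 hTl hTu
  rw [← hD] at hTl
  have h8D : 8 / D ≤ 1 / 10 ^ 120 := by
    rw [div_le_div_iff₀ hD0 (by positivity)]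
    have h4 : (8 : ℝ) * 10 ^ 120 ≤ 10 ^ 249 := by norm_num
    linarith
  have hθ : 10000000000 * (d : ℝ) / L ≤ 1 / 10 ^ 120 := by
    rw [div_le_div_iff₀ hL0 (by positivity)]
    have h4 : (10 : ℝ) ^ 130 * (d : ℝ) ≤ L := by
      calc (10 : ℝ) ^ 130 * (d : ℝ) ≤ 10 ^ 250 * Y := by
            apply mul_le_mul _ hdY (by linarith) (by positivity)
            exact pow_le_pow_right₀ (by norm_num) (by norm_num)
        _ ≤ (L : ℝ) := hwin
    have e : (10 : ℝ) ^ 130 = 10000000000 * 10 ^ 120 := by norm_num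
    rw [e] at h4
    linarith
  have htt2 : tn (m + d) * tn L ≤ 5.5 * c := by
    have h4 : tn (m + d) ≤ tn (d - 1) := tn_le_of_le (by omega)
    have h5 : tn (m + d) * tn L ≤ tn (d - 1) * tn L := mul_le_mul_of_nonneg_right h4 htL.le
    have h6 : tn (d - 1) * tn L = c * (L * tn (d - 1)) := by rw [hcL]; ring
    have h7 : c * (L * tn (d - 1)) ≤ c * 5.5 := mul_le_mul_of_nonneg_left (by linarith) hc0.le
    linarith
  have hglow : c * 10 ^ 150 ≤ g := by
    have h4 := g_low L (m + d) (by omega) (by omega) (by omega) (by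
      have h5 : ((m + d : ℕ) : ℝ) ≤ Y := by rw [hY]; push_cast; linarith
      refine le_trans (mul_sqrt_mono (Nat.cast_nonneg _) h5) ?_
      rw [← hS]
      exact hw)
    rw [← hc, ← hg] at h4
    refine le_trans ?_ h4
    have h5 : D ≤ √((m + d : ℕ) : ℝ) := by
      rw [hD]
      apply Real.sqrt_le_sqrt
      push_cast
      linarith
    rw [le_div_iff₀ (by positivity), mul_assoc]
    apply mul_le_mul_of_nonneg_left _ hc0.le
    refine le_trans ?_ (hDbig.trans h5)
    rw [← pow_add]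
    exact pow_le_pow_right₀ (by norm_num) (by norm_num)
  obtain ⟨θ, hθd⟩ : ∃ θ : ℝ, θ = 10000000000 * (d : ℝ) / L := ⟨_, rfl⟩
  have hθ0 : 0 ≤ θ := by rw [hθd]; positivity
  rw [← hθd] at hθ f3
  have hsmall : (1 / 10 ^ 120 : ℝ) = 1 / 100000000 * (1 / 10 ^ 112) := by norm_num
  obtain ⟨ε, hε⟩ : ∃ ε : ℝ, ε = 1 / 10 ^ 112 := ⟨_, rfl⟩
  have hε0 : 0 < ε := by rw [hε]; positivity
  rw [← hε] at hgap hsmall
  rw [hsmall] at hθ h8D
  -- 2 (1 - θ) g T ≥ 2 g (E - small)
  have hε1 : ε ≤ 1 := by rw [hε]; norm_num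
  have f4 : (E - 10 / 100000000 * ε) * g ≤ (1 - θ) * g * T := by
    have h4 : E - 10 / 100000000 * ε ≤ (1 - θ) * T := by
      have h5 : θ * T ≤ 1 / 100000000 * ε * 2.7183 := by
        apply mul_le_mul hθ (by linarith) _ (by positivity)
        have : 0 ≤ T := by
          rw [hT]
          exact Finset.sum_nonneg fun j _ => (tn_pos j).le
        exact this
      have e : (1 - θ) * T = T - θ * T := by ring
      rw [e]
      linarith
    have h5 := mul_le_mul_of_nonneg_right h4 hg0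
    linarith
  have f5 : A * (g + 2.78 * c) ≤ (2 * E - ε) * g + 15.2 * c := by
    have h4 : A * g ≤ (2 * E - ε) * g := mul_le_mul_of_nonneg_right (by linarith) hg0
    have h5 : A * (2.78 * c) ≤ 5.4366 * (2.78 * c) := mul_le_mul_of_nonneg_right (by linarith) (by positivity)
    linarith
  have f6 : 0.5 * (ε * g) < 21 * c := by
    have hεg : 0 ≤ ε * g := by positivity
    linarith
  have f7 : ε * (c * 10 ^ 150) ≤ ε * g := mul_le_mul_of_nonneg_left hglow hε0.le
  have f8 : ε * (c * 10 ^ 150) = 10 ^ 38 * c := by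
    rw [hε]
    have : (10 : ℝ) ^ 150 = 10 ^ 112 * 10 ^ 38 := by rw [← pow_add]
    rw [this]
    field_simp
  have f9 : (42 : ℝ) * c < 10 ^ 38 * c := by
    apply mul_lt_mul_of_pos_right _ hc0
    norm_num
  linarith

end Pool.Agent.MP_9da1e3_co
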