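import Pool.Agent.Lib.MP_9da1e3_co.YH1

namespace Pool.Agent.MP_9da1e3_co

open Finset

/-! Exact summation identities for `bb` and `gg`. -/

noncomputable def yB (L r : ℕ) : ℝ := E * ((L : ℝ) + r) - (L : ℝ) * yT (L - r) - yC (L - r)

lemma yB_top (L : ℕ) : yB L L = 2 * E * L := by
  unfold yB
  rw [Nat.sub_self, yT_zero, yC_zero]
  ring

lemma yB_ge (L r : ℕ) (h : r ≤ L) : (r : ℝ) * (E + (E - yT (L - r))) ≤ yB L r := by
  have h1 := yC_le (L - r)
  rw [Nat.cast_sub h] at h1
  unfold yB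
  linarith

lemma yB_nonneg (L r : ℕ) (h : r ≤ L) : 0 ≤ yB L r := by
  have h1 := yB_ge L r h
  have h2 := yT_le (L - r)
  have h3 := E_pos
  have h4 : 0 ≤ (r : ℝ) * (E + (E - yT (L - r))) := mul_nonneg (Nat.cast_nonneg r) (by linarith)
  linarith

/-- sum of the kernel part -/
lemma sum_AA_id (L : ℕ) (g : ℕ → ℝ) : ∑ m ∈ range L, ∑ r ∈ range (m + 1), AA L m r * g r =
    ∑ r ∈ range L, g r * ((L : ℝ) * yT (L - r) + yC (L - r)) := by
  have h1 : ∀ m ∈ range L, ∑ r ∈ range (m + 1), AA L m r * g r =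
      ∑ j ∈ range (m + 1), (((L : ℝ) + j + 1) * tn j) * g (m - j) := by
    intro m _
    rw [← sum_AA]
    apply Finset.sum_congr rfl
    intro j _
    ring
  rw [Finset.sum_congr rfl h1, exch2 (fun j => ((L : ℝ) + j + 1) * tn j) g L]
  apply Finset.sum_congr rfl
  intro r _
  congr 1
  unfold yT yC cE
  rw [Finset.mul_sum, ← Finset.sum_add_distrib]
  apply Finset.sum_congr rfl
  intro j _
  ring

/-- exact first moment identity for `bb` -/
theorem sum_bb_id (L : ℕ) (hL : 1 ≤ L) :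
    ∑ r ∈ range (L + 1), yB L r * bb L r =
      2 * ∑ i ∈ range (L - 1), gg (L + 1) i * yT (L - 1 - i) - tn L * yT L := by
  have h1 : ∑ m ∈ range L, E * (((L : ℝ) + (m + 1)) * bb L (m + 1)) =
      ∑ m ∈ range L, ∑ r ∈ range (m + 1), AA L m r * bb L r +
      2 * ∑ m ∈ range L, ∑ i ∈ range m, tn (m - 1 - i) * gg (L + 1) i - tn L * yT L := by
    have h2 : ∀ m ∈ range L, E * (((L : ℝ) + (m + 1)) * bb L (m + 1)) =
        ∑ r ∈ range (m + 1), AA L m r * bb L r +
        2 * ∑ i ∈ range m, tn (m - 1 - i) * gg (L + 1) i - tn m * tn L := by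
      intro m hm
      exact bb_eq L m (by have := mem_range.mp hm; omega)
    rw [Finset.sum_congr rfl h2, Finset.sum_sub_distrib, Finset.sum_add_distrib, ← Finset.mul_sum,
      ← Finset.sum_mul]
    unfold yT
    ring
  rw [sum_AA_id] at h1
  have h3 : ∑ m ∈ range L, ∑ i ∈ range m, tn (m - 1 - i) * gg (L + 1) i =
      ∑ i ∈ range (L - 1), gg (L + 1) i * yT (L - 1 - i) := by
    obtain ⟨p, rfl⟩ : ∃ p, L = p + 1 := ⟨L - 1, by omega⟩
    rw [Finset.sum_range_succ', Finset.sum_range_zero, add_zero, Nat.add_sub_cancel]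
    have h4 : ∀ m ∈ range p, ∑ i ∈ range (m + 1), tn (m + 1 - 1 - i) * gg (p + 1 + 1) i =
        ∑ j ∈ range (m + 1), tn j * gg (p + 1 + 1) (m - j) := by
      intro m _
      rw [← sum_rev (fun j => tn j * gg (p + 1 + 1) (m - j)) m]
      apply Finset.sum_congr rfl
      intro i hi
      have hi' := mem_range.mp hi
      have e2 : m - (m - i) = i := by omega
      rw [e2, Nat.add_sub_cancel]
    rw [Finset.sum_congr rfl h4, exch2 tn (gg (p + 1 + 1)) p]
    rfl
  have h5 : ∑ m ∈ range L, E * (((L : ℝ) + ((m : ℝ) + 1)) * bb L (m + 1)) =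
      ∑ r ∈ range L, E * (((L : ℝ) + r) * bb L r) + 2 * E * L * bb L L := by
    have h6 := Finset.sum_range_succ' (fun r : ℕ => E * (((L : ℝ) + r) * bb L r)) L
    have h7 := Finset.sum_range_succ (fun r : ℕ => E * (((L : ℝ) + r) * bb L r)) L
    rw [h7] at h6
    simp only [Nat.cast_add, Nat.cast_one, Nat.cast_zero, bb_zero, mul_zero, add_zero] at h6
    linarith
  rw [h3, h5] at h1
  rw [Finset.sum_range_succ, yB_top]
  have h8 : ∑ r ∈ range L, yB L r * bb L r = ∑ r ∈ range L, E * (((L : ℝ) + r) * bb L r) -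
      ∑ r ∈ range L, bb L r * ((L : ℝ) * yT (L - r) + yC (L - r)) := by
    rw [← Finset.sum_sub_distrib]
    apply Finset.sum_congr rfl
    intro r _
    unfold yB
    ring
  rw [h8]
  linarith

/-- exact first moment identity for `gg` -/
theorem sum_gg_id (L : ℕ) :
    ∑ r ∈ range (L + 1), yB L r * gg L r = ∑ i ∈ range L, HH L i * yT (L - i) := by
  have h1 : ∑ m ∈ range L, E * (((L : ℝ) + (m + 1)) * gg L (m + 1)) =
      ∑ m ∈ range L, ∑ r ∈ range (m + 1), AA L m r * gg L r + ∑ m ∈ range L, SS L m := by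
    rw [← Finset.sum_add_distrib]
    apply Finset.sum_congr rfl
    intro m hm
    have hm' := mem_range.mp hm
    rw [gg_rec L m (by omega), ← sum_AA]
  rw [sum_AA_id] at h1
  have h3 : ∑ m ∈ range L, SS L m = ∑ i ∈ range L, HH L i * yT (L - i) := by
    unfold SS
    rw [exch2 tn (HH L) L]
    rfl
  have h5 : ∑ m ∈ range L, E * (((L : ℝ) + ((m : ℝ) + 1)) * gg L (m + 1)) =
      ∑ r ∈ range L, E * (((L : ℝ) + r) * gg L r) + 2 * E * L * gg L L := by
    have h6 := Finset.sum_range_succ' (fun r : ℕ => E * (((L : ℝ) + r) * gg L r)) L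
    have h7 := Finset.sum_range_succ (fun r : ℕ => E * (((L : ℝ) + r) * gg L r)) L
    rw [h7] at h6
    simp only [Nat.cast_add, Nat.cast_one, Nat.cast_zero, gg_zero, mul_zero, add_zero] at h6
    linarith
  rw [h3, h5] at h1
  rw [Finset.sum_range_succ, yB_top]
  have h8 : ∑ r ∈ range L, yB L r * gg L r = ∑ r ∈ range L, E * (((L : ℝ) + r) * gg L r) -
      ∑ r ∈ range L, gg L r * ((L : ℝ) * yT (L - r) + yC (L - r)) := by
    rw [← Finset.sum_sub_distrib]
    apply Finset.sum_congr rfl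
    intro r _
    unfold yB
    ring
  rw [h8]
  linarith

/-- first moment of `gg` bounded by the sum of `HH` -/
theorem moment_gg (L : ℕ) : ∑ r ∈ range (L + 1), (r : ℝ) * gg L r ≤ ∑ i ∈ range L, HH L i := by
  have hE := E_pos
  have h1 : E * ∑ r ∈ range (L + 1), (r : ℝ) * gg L r ≤ ∑ r ∈ range (L + 1), yB L r * gg L r := by
    rw [Finset.mul_sum]
    apply Finset.sum_le_sum
    intro r hr
    have hr' : r ≤ L := by have := mem_range.mp hr; omega
    have h2 := yB_ge L r hr'
    have h3 := yT_le (L - r)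
    have h4 := gg_nonneg L r
    have h5 : E * (r : ℝ) ≤ yB L r := by
      have h6 : 0 ≤ (r : ℝ) * (E - yT (L - r)) := mul_nonneg (Nat.cast_nonneg r) (by linarith)
      linarith
    have h7 := mul_le_mul_of_nonneg_right h5 h4
    linarith
  have h2 : ∑ i ∈ range L, HH L i * yT (L - i) ≤ E * ∑ i ∈ range L, HH L i := by
    rw [Finset.mul_sum]
    apply Finset.sum_le_sum
    intro i _
    have h3 := mul_le_mul_of_nonneg_left (yT_le (L - i)) (HH_nonneg L i)
    linarith
  rw [sum_gg_id] at h1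
  exact le_of_mul_le_mul_left (h1.trans h2) hE

/-- lower bound for the sum of `gg` -/
theorem sum_gg_eq (L m : ℕ) : ∑ i ∈ range m, gg (L + 1) i =
    ∑ i ∈ range m, HH (L + 1) i - ∑ i ∈ range m, HH L i + tn L - HH L m := by
  have h1 : ∑ i ∈ range m, HH (L + 1) i = ∑ i ∈ range m, HH L (i + 1) + ∑ i ∈ range m, gg (L + 1) i := by
    rw [← Finset.sum_add_distrib]
    exact Finset.sum_congr rfl fun i _ => HH_diff L i
  have h2 := Finset.sum_range_succ' (HH L) m
  rw [Finset.sum_range_succ, HH_zero] at h2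
  linarith

end Pool.Agent.MP_9da1e3_co
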