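import Pool.Agent.Lib.MP_9da1e3_co.YH2
import Pool.Agent.Lib.MP_9da1e3_co.V2_Drate
import Pool.Agent.Lib.MP_9da1e3_co.NR2

namespace Pool.Agent.MP_9da1e3_co

open Finset

/-! The weighted sum of `bb` (row r5b). -/

lemma y3_f_le (K : ℕ) : (K : ℝ) * (E - yT K) - yC K ≤ E := by
  have hE := E_pos
  rcases Nat.eq_zero_or_pos K with rfl | hK
  · rw [yT_zero, yC_zero]
    push_cast
    linarith
  · obtain ⟨k, rfl⟩ : ∃ k, K = k + 1 := ⟨K - 1, by omega⟩
    have key : ∀ k : ℕ, ((k + 1 : ℕ) : ℝ) * (E - yT (k + 1)) - yC (k + 1) + 2 * cE k ≤ E := by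
      intro k
      induction k with
      | zero =>
        rw [yT_succ, yC_succ, yT_zero, yC_zero]
        unfold cE
        rw [tn_zero]
        push_cast
        linarith
      | succ k ih =>
        have h1 := one_sub_sum_le k
        have h2 : E - yT (k + 1) ≤ 2 * cE k := by
          have e1 : E * ww k = cE k := E_ww k
          have h3 := mul_le_mul_of_nonneg_left h1 hE.le
          have e2 : E * (1 - (∑ i ∈ range (k + 1), tn i) / E) = E - yT (k + 1) := by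
            unfold yT
            field_simp
          rw [e2] at h3
          linarith
        rw [yT_succ (k + 1), yC_succ (k + 1)]
        have e3 : cE (k + 1) = (((k + 1 : ℕ) : ℝ) + 1) * tn (k + 1) := rfl
        have e4 : ((k + 1 + 1 : ℕ) : ℝ) = ((k + 1 : ℕ) : ℝ) + 1 := by push_cast; ring
        rw [e4]
        rw [e3]
        linarith
    have h := key k
    have h2 := (cE_pos k).le
    linarith

lemma yB_le (L r : ℕ) (h : r ≤ L) : yB L r ≤ E * r + r * (E - yT (L - r)) + E := by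
  have h1 := y3_f_le (L - r)
  rw [Nat.cast_sub h] at h1
  unfold yB
  linarith

lemma yB_ge' (L r : ℕ) (h : r ≤ L) : E * r ≤ yB L r := by
  have h1 := yB_ge L r h
  have h2 := yT_le (L - r)
  have h3 : 0 ≤ (r : ℝ) * (E - yT (L - r)) := mul_nonneg (Nat.cast_nonneg r) (by linarith)
  linarith

lemma y3_pow_ge (x : ℝ) (hx : 0 ≤ x) (r : ℕ) :
    1 + (r : ℝ) * x + (r : ℝ) * ((r : ℝ) - 1) / 2 * x ^ 2 ≤ (1 + x) ^ r := by
  induction r with
  | zero => simp
  | succ r ih =>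
    have e0 : (1 + x) ^ (r + 1) = (1 + x) ^ r * (1 + x) := pow_succ _ _
    rw [e0]
    have h1 := mul_le_mul_of_nonneg_right ih (show (0 : ℝ) ≤ 1 + x by linarith)
    have h2 : 0 ≤ (r : ℝ) * ((r : ℝ) - 1) / 2 * x ^ 2 * x := by
      have h3 : 0 ≤ (r : ℝ) * ((r : ℝ) - 1) := by
        rcases Nat.eq_zero_or_pos r with rfl | h
        · simp
        · have : (1 : ℝ) ≤ r := by exact_mod_cast h
          exact mul_nonneg (by linarith) (by linarith)
      positivity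
    push_cast
    have h4 : 1 + ((r : ℝ) + 1) * x + ((r : ℝ) + 1) * ((r : ℝ) + 1 - 1) / 2 * x ^ 2 +
        (r : ℝ) * ((r : ℝ) - 1) / 2 * x ^ 2 * x =
        (1 + (r : ℝ) * x + (r : ℝ) * ((r : ℝ) - 1) / 2 * x ^ 2) * (1 + x) := by ring
    linarith

lemma y3_pow_le (y : ℝ) (hy : 0 ≤ y) (r : ℕ) (h : (r : ℝ) * y ≤ 0.14) :
    (1 + y) ^ r ≤ 1 + (r : ℝ) * y + 0.55 * ((r : ℝ) * y) ^ 2 := by
  induction r with
  | zero => simp
  | succ r ih =>
    have hr0 : (0 : ℝ) ≤ r := Nat.cast_nonneg r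
    push_cast at h
    have h1 : (r : ℝ) * y ≤ 0.14 := by nlinarith
    have h2 := mul_le_mul_of_nonneg_right (ih h1) (show (0 : ℝ) ≤ 1 + y by linarith)
    rw [pow_succ]
    refine h2.trans ?_
    push_cast
    have h3 : 0.55 * ((r : ℝ) * y) ^ 2 * y ≤ 0.077 * ((r : ℝ) * y) * y := by
      have h4 : 0.55 * ((r : ℝ) * y) ^ 2 ≤ 0.077 * ((r : ℝ) * y) := by
        have h5 : 0 ≤ (r : ℝ) * y := mul_nonneg hr0 hy
        nlinarith
      exact mul_le_mul_of_nonneg_right h4 hy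
    have h6 : 0 ≤ (r : ℝ) * (y * y) := mul_nonneg hr0 (mul_nonneg hy hy)
    have h7 : 0 ≤ y * y := mul_nonneg hy hy
    nlinarith

/-- lower and upper bounds of the ratio -/
lemma y3_th_ge (L : ℕ) : 1 + 1.5 / ((L : ℝ) + 1) ≤ tn L / tn (L + 1) := by
  have h := tn_ratio_step L
  rw [le_div_iff₀ (tn_pos _)]
  have e : (1.5 : ℝ) / ((L : ℝ) + 1) = 3 / (2 * ((L : ℝ) + 1)) := by
    rw [div_eq_div_iff (by positivity) (by positivity)]
    ring
  rw [e]
  exact h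

lemma y3_th_le (L : ℕ) (hL : 1 ≤ L) : tn L / tn (L + 1) ≤ 1 + 1.5 / (L : ℝ) := by
  have h := aa_mono (show L ≤ L + 1 by omega)
  have hLr : (1 : ℝ) ≤ L := by exact_mod_cast hL
  have hL0 : (0 : ℝ) < L := by linarith
  unfold aa sq at h
  have hp := tn_pos (L + 1)
  have hp0 := tn_pos L
  rw [div_le_iff₀ hp]
  push_cast at h
  obtain ⟨s, hs⟩ : ∃ s : ℝ, s = 1 / ((L : ℝ) + 1) := ⟨_, rfl⟩
  have hs0 : 0 < s := by rw [hs]; positivity
  have hs1 : ((L : ℝ) + 1) * s = 1 := by rw [hs]; field_simp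
  have h0 : 0 < √((L : ℝ) + 1) := Real.sqrt_pos.mpr (by linarith)
  -- sqrt(L+2) ≤ sqrt(L+1) (1 + s/2)
  have h1 : √((L : ℝ) + 1 + 1) ≤ √((L : ℝ) + 1) * (1 + s / 2) := by
    apply Real.sqrt_le_iff.mpr
    constructor
    · positivity
    · rw [mul_pow, Real.sq_sqrt (by linarith)]
      have : ((L : ℝ) + 1) * (1 + s / 2) ^ 2 = ((L : ℝ) + 1) + ((L : ℝ) + 1) * s + ((L : ℝ) + 1) * s * s / 4 := by ring
      rw [this, hs1]
      have : 0 ≤ 1 * s / 4 := by positivity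
      linarith
  have h2 : ((L : ℝ) + 1) * tn L * √((L : ℝ) + 1) ≤
      ((L : ℝ) + 1 + 1) * tn (L + 1) * (√((L : ℝ) + 1) * (1 + s / 2)) :=
    h.trans (mul_le_mul_of_nonneg_left h1 (by positivity))
  have h3 : ((L : ℝ) + 1) * tn L ≤ ((L : ℝ) + 1 + 1) * tn (L + 1) * (1 + s / 2) := by
    have e : ((L : ℝ) + 1 + 1) * tn (L + 1) * (√((L : ℝ) + 1) * (1 + s / 2)) =
        ((L : ℝ) + 1 + 1) * tn (L + 1) * (1 + s / 2) * √((L : ℝ) + 1) := by ring
    rw [e] at h2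
    exact le_of_mul_le_mul_right h2 h0
  have h4 : tn L ≤ (1 + s) * (1 + s / 2) * tn (L + 1) := by
    have h5 := mul_le_mul_of_nonneg_left h3 hs0.le
    have e1 : s * (((L : ℝ) + 1) * tn L) = (((L : ℝ) + 1) * s) * tn L := by ring
    have e2 : s * (((L : ℝ) + 1 + 1) * tn (L + 1) * (1 + s / 2)) =
        (((L : ℝ) + 1) * s + s) * (1 + s / 2) * tn (L + 1) := by ring
    rw [e1, e2, hs1] at h5
    linarith
  refine h4.trans (mul_le_mul_of_nonneg_right ?_ hp.le)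
  have h6 : 1.5 * s + 1.5 * s ^ 2 ≤ 1.5 / (L : ℝ) := by
    rw [le_div_iff₀ hL0]
    have e : (1.5 * s + 1.5 * s ^ 2) * L = 1.5 * (((L : ℝ) + 1) * s) + 1.5 * (((L : ℝ) + 1) * s) * s - 1.5 * s - 1.5 * s ^ 2 := by ring
    rw [e, hs1]
    have : 0 ≤ 1.5 * s ^ 2 := by positivity
    linarith
  nlinarith

lemma thL_ge (L : ℕ) : 1 - 2.5 / ((L : ℝ) + 2) ≤ thL L := by
  have h1 := tn_pos L
  have h2 := tn_pos (L + 1)
  unfold thL
  have hL0 : (0 : ℝ) ≤ L := Nat.cast_nonneg L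
  have hk : 1 - 1.5 / ((L : ℝ) + 2) ≤ tn (L + 1) / tn L := by
    have h := aa_mono (show L ≤ L + 1 by omega)
    unfold aa sq at h
    push_cast at h
    rw [le_div_iff₀ h1]
    obtain ⟨s, hs⟩ : ∃ s : ℝ, s = 1 / ((L : ℝ) + 2) := ⟨_, rfl⟩
    have hs0 : 0 < s := by rw [hs]; positivity
    have hs1 : ((L : ℝ) + 2) * s = 1 := by rw [hs]; field_simp
    have hsle : s ≤ 1 / 2 := by
      rw [hs, div_le_div_iff₀ (by positivity) (by norm_num)]
      linarith
    have h0 : 0 < √((L : ℝ) + 1 + 1) := Real.sqrt_pos.mpr (by linarith)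
    have e15 : (1.5 : ℝ) / ((L : ℝ) + 2) = 1.5 * s := by rw [hs]; ring
    rw [e15]
    -- sqrt(L+1) ≥ sqrt(L+2) (1 - s/2 - s^2/2)
    have hq : √((L : ℝ) + 1 + 1) * (1 - s / 2 - s ^ 2 / 2) ≤ √((L : ℝ) + 1) := by
      apply Real.le_sqrt_of_sq_le
      rw [mul_pow, Real.sq_sqrt (by linarith)]
      have e : ((L : ℝ) + 1 + 1) = (L : ℝ) + 2 := by ring
      rw [e]
      have e2 : (L : ℝ) + 1 = ((L : ℝ) + 2) * (1 - s) := by linarith
      rw [e2]
      apply mul_le_mul_of_nonneg_left _ (by linarith)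
      have e3 : (1 - s / 2 - s ^ 2 / 2) ^ 2 = 1 - s - s ^ 2 * (3 / 4 - s / 2 - s ^ 2 / 4) := by ring
      rw [e3]
      have e4 : 0 ≤ 3 / 4 - s / 2 - s ^ 2 / 4 := by nlinarith
      have e5 : 0 ≤ s ^ 2 * (3 / 4 - s / 2 - s ^ 2 / 4) := mul_nonneg (sq_nonneg s) e4
      linarith
    have h3 : ((L : ℝ) + 1) * tn L * (√((L : ℝ) + 1 + 1) * (1 - s / 2 - s ^ 2 / 2)) ≤
        ((L : ℝ) + 1 + 1) * tn (L + 1) * √((L : ℝ) + 1 + 1) :=
      (mul_le_mul_of_nonneg_left hq (by positivity)).trans h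
    have h4 : ((L : ℝ) + 1) * tn L * (1 - s / 2 - s ^ 2 / 2) ≤ ((L : ℝ) + 1 + 1) * tn (L + 1) := by
      have e : ((L : ℝ) + 1) * tn L * (√((L : ℝ) + 1 + 1) * (1 - s / 2 - s ^ 2 / 2)) =
          ((L : ℝ) + 1) * tn L * (1 - s / 2 - s ^ 2 / 2) * √((L : ℝ) + 1 + 1) := by ring
      rw [e] at h3
      exact le_of_mul_le_mul_right h3 h0
    have h5 := mul_le_mul_of_nonneg_left h4 hs0.le
    have e6 : s * (((L : ℝ) + 1) * tn L * (1 - s / 2 - s ^ 2 / 2)) =
        (((L : ℝ) + 2) * s - s) * (1 - s / 2 - s ^ 2 / 2) * tn L := by ring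
    have e7 : s * (((L : ℝ) + 1 + 1) * tn (L + 1)) = (((L : ℝ) + 2) * s) * tn (L + 1) := by ring
    rw [e6, e7, hs1] at h5
    have h6 : (1 - 1.5 * s) * tn L ≤ (1 - s) * (1 - s / 2 - s ^ 2 / 2) * tn L := by
      apply mul_le_mul_of_nonneg_right _ h1.le
      have : 0 ≤ s ^ 3 := by positivity
      nlinarith
    linarith
  have h3 : 1 - 1 / ((L : ℝ) + 2) ≤ ((L : ℝ) + 1) / ((L : ℝ) + 2) := by
    apply le_of_eq
    field_simp
    ring
  have h15 : 1.5 / ((L : ℝ) + 2) ≤ 0.75 := by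
    rw [div_le_iff₀ (by positivity)]
    linarith
  have h10 : 0 ≤ 1 - 1 / ((L : ℝ) + 2) := by
    have : 1 / ((L : ℝ) + 2) ≤ 1 / 2 := by
      rw [div_le_div_iff₀ (by positivity) (by norm_num)]
      linarith
    linarith
  calc 1 - 2.5 / ((L : ℝ) + 2) ≤ (1 - 1.5 / ((L : ℝ) + 2)) * (1 - 1 / ((L : ℝ) + 2)) := by
        have : 0 ≤ 1.5 / ((L : ℝ) + 2) * (1 / ((L : ℝ) + 2)) := by positivity
        have e : (1 - 1.5 / ((L : ℝ) + 2)) * (1 - 1 / ((L : ℝ) + 2)) =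
            1 - 2.5 / ((L : ℝ) + 2) + 1.5 / ((L : ℝ) + 2) * (1 / ((L : ℝ) + 2)) := by ring
        linarith
    _ ≤ (tn (L + 1) / tn L) * (1 - 1 / ((L : ℝ) + 2)) := mul_le_mul_of_nonneg_right hk h10
    _ ≤ _ := mul_le_mul_of_nonneg_left h3 (by positivity)

/-- `tail_K ≤ 0.8 E / √K` -/
lemma y3_tail_le (K : ℕ) (hK : 1 ≤ K) : E - yT K ≤ 0.798 * E / √(K : ℝ) := by
  have h := E_sub_sum_le hK
  have h2 := two_cA_lt
  have hE := E_ge3
  have hs : 0 < √(K : ℝ) := Real.sqrt_pos.mpr (by exact_mod_cast hK)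
  unfold yT
  refine h.trans ?_
  apply div_le_div_of_nonneg_right _ hs.le
  linarith

/-- the comparison weight lies below the powers of `θ`, places `r ≤ L - 24` -/
lemma y3_omega_le (L r : ℕ) (hL : 1000 ≤ L) (hr : 1 ≤ r) (hrL : r + 24 ≤ L) :
    (1 - 1.6 * (1.5 / ((L : ℝ) + 2))) + 1.5 / ((L : ℝ) + 2) / E * yB L r ≤
      (1 + 1.5 / ((L : ℝ) + 2)) ^ r := by
  have hE := E_pos
  have hLr : (1000 : ℝ) ≤ L := by exact_mod_cast hL
  have hL0 : (0 : ℝ) < L := by linarith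
  obtain ⟨x, hx⟩ : ∃ x : ℝ, x = 1.5 / ((L : ℝ) + 2) := ⟨_, rfl⟩
  have hx0 : 0 < x := by rw [hx]; positivity
  have hxL : ((L : ℝ) + 2) * x = 1.5 := by rw [hx]; field_simp
  rw [← hx]
  have hr1 : (1 : ℝ) ≤ r := by exact_mod_cast hr
  have hrL' : (r : ℝ) + 24 ≤ L := by exact_mod_cast hrL
  have hKn : 1 ≤ L - r := by omega
  have hKr : ((L - r : ℕ) : ℝ) = (L : ℝ) - r := by rw [Nat.cast_sub (by omega)]
  have h1 := yB_le L r (by omega)
  have h2 := y3_tail_le (L - r) hKn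
  rw [hKr] at h2
  have h3 := y3_pow_ge x hx0.le r
  obtain ⟨τ, hτ⟩ : ∃ τ : ℝ, τ = 0.798 / √((L : ℝ) - r) := ⟨_, rfl⟩
  have hK0 : (0 : ℝ) < (L : ℝ) - r := by linarith
  have hsK : 0 < √((L : ℝ) - r) := Real.sqrt_pos.mpr hK0
  have hτ0 : 0 < τ := by rw [hτ]; positivity
  have h2' : E - yT (L - r) ≤ E * τ := by
    refine h2.trans (le_of_eq ?_)
    rw [hτ]
    ring
  -- reduce
  have h4 : x / E * yB L r ≤ x * (r + r * τ + 1) := by
    have h5 : yB L r ≤ E * (r + r * τ + 1) := by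
      have h6 := mul_le_mul_of_nonneg_left h2' (show (0 : ℝ) ≤ r by linarith)
      have e : E * ((r : ℝ) + r * τ + 1) = E * r + r * (E * τ) + E := by ring
      linarith
    have h7 := mul_le_mul_of_nonneg_left h5 (div_pos hx0 hE).le
    have e : x / E * (E * (r + r * τ + 1)) = x * (r + r * τ + 1) := by field_simp
    linarith
  have key : (r : ℝ) * τ ≤ 0.6 + (r : ℝ) * ((r : ℝ) - 1) / 2 * x := by
    rcases Nat.lt_or_ge (2 * r) L with h | h
    · -- r < L / 2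
      have hh : (2 : ℝ) * r ≤ L := by exact_mod_cast h.le
      -- τ ≤ 1.13 / √L
      have h5 : τ ≤ 1.13 / √(L : ℝ) := by
        rw [hτ, div_le_div_iff₀ hsK (Real.sqrt_pos.mpr hL0)]
        have h6 : √(L : ℝ) ≤ 1.415 * √((L : ℝ) - r) := by
          apply Real.sqrt_le_iff.mpr
          constructor
          · positivity
          · rw [mul_pow, Real.sq_sqrt hK0.le]
            nlinarith
        nlinarith
      obtain ⟨S, hS⟩ : ∃ S : ℝ, S = √(L : ℝ) := ⟨_, rfl⟩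
      have hS0 : 0 < S := by rw [hS]; exact Real.sqrt_pos.mpr hL0
      have hSS : S * S = L := by rw [hS]; exact Real.mul_self_sqrt hL0.le
      rw [← hS] at h5
      obtain ⟨s, hs⟩ : ∃ s : ℝ, s = r / S := ⟨_, rfl⟩
      have hs0 : 0 < s := by rw [hs]; exact div_pos (by linarith) hS0
      have hrs : (r : ℝ) = s * S := by rw [hs]; field_simp
      have h7 : (r : ℝ) * τ ≤ 1.13 * s := by
        have h8 := mul_le_mul_of_nonneg_left h5 (show (0 : ℝ) ≤ r by linarith)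
        have e : (r : ℝ) * (1.13 / S) = 1.13 * s := by rw [hs]; ring
        linarith
      have h9 : (r : ℝ) * ((r : ℝ) - 1) / 2 * x = (s * s * (L * x) - s * (S * x)) / 2 := by
        rw [← hSS, hrs]
        ring
      have h10 : 1.497 ≤ L * x := by nlinarith
      have hS31 : 31 ≤ S := by
        rw [hS]
        apply Real.le_sqrt_of_sq_le
        linarith
      have h11 : S * x ≤ 0.05 := by
        have h12 : S * (S * x) ≤ 1.5 := by
          have : S * (S * x) = L * x := by rw [← mul_assoc, hSS]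
          rw [this]
          nlinarith
        nlinarith [mul_nonneg hS0.le hx0.le]
      rw [h9]
      have h12 : s * s * 1.497 ≤ s * s * (L * x) := mul_le_mul_of_nonneg_left h10 (by positivity)
      have h13 : s * (S * x) ≤ s * 0.05 := mul_le_mul_of_nonneg_left h11 hs0.le
      nlinarith [sq_nonneg (s - 0.77)]
    · -- r ≥ L / 2
      have hh : (L : ℝ) ≤ 2 * r := by exact_mod_cast h
      have h5 : τ ≤ 0.164 := by
        rw [hτ, div_le_iff₀ hsK]
        have h6 : 4.89 ≤ √((L : ℝ) - r) := by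
          apply Real.le_sqrt_of_sq_le
          linarith
        linarith
      have h6 : 0.164 ≤ ((r : ℝ) - 1) / 2 * x := by
        have h7 : 0.4989 * ((L : ℝ) + 2) ≤ (r : ℝ) + 1 := by linarith
        have h8 : (r : ℝ) - 1 = ((r : ℝ) + 1) - 2 := by ring
        have h9 := mul_le_mul_of_nonneg_right h7 hx0.le
        have h10 : 0.4989 * ((L : ℝ) + 2) * x = 0.4989 * 1.5 := by rw [mul_assoc, hxL]
        have h11 : x ≤ 0.0015 := by nlinarith
        rw [h10] at h9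
        have h12 : ((r : ℝ) - 1) / 2 * x = (((r : ℝ) + 1) * x) / 2 - x := by ring
        rw [h12]
        linarith
      have h7 : (r : ℝ) * τ ≤ r * (((r : ℝ) - 1) / 2 * x) :=
        mul_le_mul_of_nonneg_left (h5.trans h6) (by linarith)
      have e : (r : ℝ) * (((r : ℝ) - 1) / 2 * x) = (r : ℝ) * ((r : ℝ) - 1) / 2 * x := by ring
      linarith
  have h5 := mul_le_mul_of_nonneg_left key hx0.le
  have e1 : x * (0.6 + (r : ℝ) * ((r : ℝ) - 1) / 2 * x) = 0.6 * x + (r : ℝ) * ((r : ℝ) - 1) / 2 * x ^ 2 := by ring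
  rw [e1] at h5
  have e2 : x * ((r : ℝ) + r * τ + 1) = r * x + x * (r * τ) + x := by ring
  rw [e2] at h4
  linarith

/-- the pure `yB` weight lies below the powers of `θ`, all places -/
lemma y3_omega_le' (L r : ℕ) (hL : 1000 ≤ L) (hrL : r ≤ L) :
    1.5 / ((L : ℝ) + 2) / E * yB L r ≤ (1 + 1.5 / ((L : ℝ) + 2)) ^ r := by
  have hE := E_pos
  have hLr : (1000 : ℝ) ≤ L := by exact_mod_cast hL
  have hL0 : (0 : ℝ) < L := by linarith
  obtain ⟨x, hx⟩ : ∃ x : ℝ, x = 1.5 / ((L : ℝ) + 2) := ⟨_, rfl⟩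
  have hx0 : 0 < x := by rw [hx]; positivity
  have hxL : ((L : ℝ) + 2) * x = 1.5 := by rw [hx]; field_simp
  rw [← hx]
  have hr0 : (0 : ℝ) ≤ r := Nat.cast_nonneg r
  have hrL' : (r : ℝ) ≤ L := by exact_mod_cast hrL
  have h1 := yB_le L r hrL
  have h2 : 0 ≤ yT (L - r) := Finset.sum_nonneg fun j _ => (tn_pos j).le
  have h3 := y3_pow_ge x hx0.le r
  have h4 : x / E * yB L r ≤ x * (r + r + 1) := by
    have h5 : yB L r ≤ E * (r + r + 1) := by
      have h6 := mul_nonneg hr0 h2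
      nlinarith
    have h7 := mul_le_mul_of_nonneg_left h5 (div_pos hx0 hE).le
    have e : x / E * (E * (r + r + 1)) = x * (r + r + 1) := by field_simp
    linarith
  have h11 : x ≤ 0.0015 := by nlinarith
  obtain ⟨y, hy⟩ : ∃ y : ℝ, y = (r : ℝ) * x := ⟨_, rfl⟩
  have hy0 : 0 ≤ y := by rw [hy]; positivity
  have hy1 : y ≤ 1.5 := by
    rw [hy]
    have := mul_le_mul_of_nonneg_right hrL' hx0.le
    nlinarith
  have h5 : (r : ℝ) * ((r : ℝ) - 1) / 2 * x ^ 2 = (y * y - y * x) / 2 := by rw [hy]; ring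
  rw [h5] at h3
  have h6 : x * ((r : ℝ) + r + 1) = 2 * y + x := by rw [hy]; ring
  rw [h6] at h4
  have h7 : (r : ℝ) * x = y := hy.symm
  rw [h7] at h3
  nlinarith [sq_nonneg (y - 1)]

end Pool.Agent.MP_9da1e3_co
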