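import Pool.Agent.Lib.MP_9da1e3_co.YH3

namespace Pool.Agent.MP_9da1e3_co

open Finset

/-- error of the comparison at the places where `bb` is negative -/
lemma y4_err (L m0 r : ℕ) (hL : 1000 ≤ L) (hm0 : ((m0 : ℝ)) ^ 3 ≤ (0.8 * L) ^ 2) (hr : 1 ≤ r) (hrm : r ≤ m0)
    (th : ℝ) (h1 : 0 ≤ th) (h2 : th ≤ 1 + 1.5 / (L : ℝ)) :
    th ^ r - ((1 - 1.6 * (1.5 / ((L : ℝ) + 2))) + 1.5 / ((L : ℝ) + 2) / E * yB L r) ≤
      1.2375 * ((r : ℝ) / L) ^ 2 + 2.66 / L := by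
  have hE := E_pos
  have hLr : (1000 : ℝ) ≤ L := by exact_mod_cast hL
  have hL0 : (0 : ℝ) < L := by linarith
  have hm1 : (m0 : ℝ) ≤ 0.0862 * L := by
    by_contra hc
    push Not at hc
    have h3 : (0.0862 * (L : ℝ)) ^ 3 < (m0 : ℝ) ^ 3 := pow_lt_pow_left₀ hc (by positivity) (by norm_num)
    nlinarith [sq_nonneg (L : ℝ), mul_pos hL0 hL0]
  have hrm' : (r : ℝ) ≤ m0 := by exact_mod_cast hrm
  have hr0 : (0 : ℝ) ≤ r := Nat.cast_nonneg r
  have hrL : r ≤ L := by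
    have : (r : ℝ) ≤ L := by linarith
    exact_mod_cast this
  have h3 : th ^ r ≤ (1 + 1.5 / (L : ℝ)) ^ r := pow_le_pow_left₀ h1 h2 r
  have h4 := y3_pow_le (1.5 / (L : ℝ)) (by positivity) r (by
    rw [mul_div_assoc', div_le_iff₀ hL0]
    linarith)
  have h5 := yB_ge' L r hrL
  have h6 : 1.5 / ((L : ℝ) + 2) * r ≤ 1.5 / ((L : ℝ) + 2) / E * yB L r := by
    have h7 := mul_le_mul_of_nonneg_left h5 (show 0 ≤ 1.5 / ((L : ℝ) + 2) / E by positivity)
    have e : 1.5 / ((L : ℝ) + 2) / E * (E * r) = 1.5 / ((L : ℝ) + 2) * r := by field_simp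
    linarith
  have h7 : (r : ℝ) * (1.5 / (L : ℝ)) - 1.5 / ((L : ℝ) + 2) * r ≤ 0.26 / L := by
    have e : (r : ℝ) * (1.5 / (L : ℝ)) - 1.5 / ((L : ℝ) + 2) * r = (3 * r / ((L : ℝ) + 2)) / L := by
      field_simp
      ring
    rw [e]
    apply div_le_div_of_nonneg_right _ hL0.le
    rw [div_le_iff₀ (by positivity)]
    nlinarith
  have h8 : 1.6 * (1.5 / ((L : ℝ) + 2)) ≤ 2.4 / L := by
    have e : 1.6 * (1.5 / ((L : ℝ) + 2)) = 2.4 / ((L : ℝ) + 2) := by ring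
    rw [e]
    apply div_le_div_of_nonneg_left (by norm_num) hL0 (by linarith)
  have h9 : 0.55 * ((r : ℝ) * (1.5 / (L : ℝ))) ^ 2 = 1.2375 * ((r : ℝ) / L) ^ 2 := by ring
  have h10 : (2.66 : ℝ) / L = 0.26 / L + 2.4 / L := by ring
  linarith

/-- the total error -/
lemma y4_err_sum (L m0 : ℕ) (hL : 1000 ≤ L) (hm0 : ((m0 : ℝ)) ^ 3 ≤ (0.8 * L) ^ 2) :
    ∑ r ∈ range m0, (1.2375 * (((r + 1 : ℕ) : ℝ) / L) ^ 2 + 2.66 / L) * (tn L / L * ww r) ≤
      0.059 * (tn L / L) := by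
  have hLr : (1000 : ℝ) ≤ L := by exact_mod_cast hL
  have hL0 : (0 : ℝ) < L := by linarith
  have ht : 0 < tn L / L := div_pos (tn_pos L) hL0
  have hm1 : (m0 : ℝ) ≤ 0.0862 * L := by
    by_contra hc
    push Not at hc
    have h3 : (0.0862 * (L : ℝ)) ^ 3 < (m0 : ℝ) ^ 3 := pow_lt_pow_left₀ hc (by positivity) (by norm_num)
    nlinarith [sq_nonneg (L : ℝ), mul_pos hL0 hL0]
  have hm00 : (0 : ℝ) ≤ m0 := Nat.cast_nonneg m0
  -- m0 √m0 ≤ 0.8 L
  have hms : (m0 : ℝ) * √(m0 : ℝ) ≤ 0.8 * L := by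
    have h1 : ((m0 : ℝ) * √(m0 : ℝ)) ^ 2 ≤ (0.8 * L) ^ 2 := by
      rw [mul_pow, Real.sq_sqrt hm00]
      calc (m0 : ℝ) ^ 2 * m0 = (m0 : ℝ) ^ 3 := by ring
        _ ≤ _ := hm0
    exact (abs_le_of_sq_le_sq' h1 (by positivity)).2
  -- first part
  have hA : ∑ r ∈ range m0, ((((r + 1 : ℕ) : ℝ)) ^ 2) * ww r ≤ 0.39895 * (m0 * (0.8 * L)) := by
    have h1 : ∀ r ∈ range m0, ((((r + 1 : ℕ) : ℝ)) ^ 2) * ww r ≤ 0.39895 * (0.8 * L) := by
      intro r hr
      have hr' := mem_range.mp hr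
      have h2 := ww_mul_sq_le_num r
      have e1 : (((r + 1 : ℕ) : ℝ)) = (r : ℝ) + 1 := by push_cast; ring
      rw [e1]
      have hr0 : (0 : ℝ) < (r : ℝ) + 1 := by positivity
      have hrm : (r : ℝ) + 1 ≤ m0 := by
        have : ((r + 1 : ℕ) : ℝ) ≤ m0 := by exact_mod_cast hr'
        push_cast at this
        exact this
      have hsq : sq r * sq r = (r : ℝ) + 1 := by
        unfold sq
        exact Real.mul_self_sqrt hr0.le
      have hsqp : 0 < sq r := sq_pos r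
      have h3 : ((r : ℝ) + 1) * sq r ≤ 0.8 * L := by
        refine le_trans ?_ hms
        apply mul_le_mul hrm _ hsqp.le hm00
        unfold sq
        exact Real.sqrt_le_sqrt hrm
      have h4 : ((r : ℝ) + 1) ^ 2 * ww r = (((r : ℝ) + 1) * sq r) * (ww r * sq r) := by
        have : ((r : ℝ) + 1) ^ 2 = ((r : ℝ) + 1) * (sq r * sq r) := by rw [hsq]; ring
        rw [this]
        ring
      rw [h4]
      have h5 : 0 ≤ ww r * sq r := mul_nonneg (ww_pos r).le hsqp.le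
      calc (((r : ℝ) + 1) * sq r) * (ww r * sq r) ≤ (0.8 * L) * (ww r * sq r) :=
            mul_le_mul_of_nonneg_right h3 h5
        _ ≤ (0.8 * L) * 0.39895 := mul_le_mul_of_nonneg_left h2 (by positivity)
        _ = _ := by ring
    have h2 := Finset.sum_le_sum h1
    rw [Finset.sum_const, Finset.card_range, nsmul_eq_mul] at h2
    linarith
  have hB : ∑ r ∈ range m0, ww r ≤ √(m0 : ℝ) := WW_le m0
  have hC : √(m0 : ℝ) ≤ 0.0093 * L := by
    apply Real.sqrt_le_iff.mpr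
    constructor
    · positivity
    · nlinarith
  have e : ∑ r ∈ range m0, (1.2375 * (((r + 1 : ℕ) : ℝ) / L) ^ 2 + 2.66 / L) * (tn L / L * ww r) =
      (tn L / L) * (1.2375 / (L : ℝ) ^ 2 * ∑ r ∈ range m0, ((((r + 1 : ℕ) : ℝ)) ^ 2) * ww r +
        2.66 / L * ∑ r ∈ range m0, ww r) := by
    rw [Finset.mul_sum, Finset.mul_sum, ← Finset.sum_add_distrib, Finset.mul_sum]
    apply Finset.sum_congr rfl
    intro r _
    ring
  rw [e, mul_comm 0.059]
  apply mul_le_mul_of_nonneg_left _ ht.le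
  have h1 : 1.2375 / (L : ℝ) ^ 2 * ∑ r ∈ range m0, ((((r + 1 : ℕ) : ℝ)) ^ 2) * ww r ≤ 0.0341 := by
    rw [div_mul_eq_mul_div, div_le_iff₀ (by positivity)]
    nlinarith
  have h2 : 2.66 / (L : ℝ) * ∑ r ∈ range m0, ww r ≤ 0.0248 := by
    rw [div_mul_eq_mul_div, div_le_iff₀ hL0]
    linarith
  linarith

lemma y4_term (L m0 M r : ℕ) (hL : 1000 ≤ L) (hm0 : ((m0 : ℝ)) ^ 3 ≤ (0.8 * L) ^ 2)
    (hM0 : m0 ≤ M) (hM : M + 24 ≤ L) (hr' : r ≤ L)
    (hneg : ∀ r, 1 ≤ r → r ≤ m0 → bb L r ≤ 0) (hpos : ∀ r, m0 < r → r ≤ L → 0 ≤ bb L r)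
    (th : ℝ) (h1 : 1 + 1.5 / ((L : ℝ) + 2) ≤ th) (h2 : th ≤ 1 + 1.5 / (L : ℝ)) :
    -(th ^ r * bb L r) ≤
      -(((if r ≤ M then (1 - 1.6 * (1.5 / ((L : ℝ) + 2))) else 0) +
        1.5 / ((L : ℝ) + 2) / E * yB L r) * bb L r) +
      (if 1 ≤ r ∧ r ≤ m0 then (1.2375 * ((r : ℝ) / L) ^ 2 + 2.66 / L) * (tn L / L * ww (r - 1)) else 0) := by
  have hx0 : 0 < 1.5 / ((L : ℝ) + 2) := by positivity
  have hth0 : 0 ≤ th := by linarith
  rcases Nat.eq_zero_or_pos r with rfl | hr1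
  · rw [bb_zero]
    simp
  · rcases Nat.lt_or_ge m0 r with hc | hc
    · have h3 := hpos r hc hr'
      have h4 : (if r ≤ M then (1 - 1.6 * (1.5 / ((L : ℝ) + 2))) else 0) +
          1.5 / ((L : ℝ) + 2) / E * yB L r ≤ th ^ r := by
        have h5 : (1 + 1.5 / ((L : ℝ) + 2)) ^ r ≤ th ^ r := pow_le_pow_left₀ (by linarith) h1 r
        refine le_trans ?_ h5
        split_ifs with h6
        · exact y3_omega_le L r hL hr1 (by omega)
        · rw [zero_add]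
          exact y3_omega_le' L r hL hr'
      have h5 := mul_le_mul_of_nonneg_right h4 h3
      rw [if_neg (show ¬ (1 ≤ r ∧ r ≤ m0) by omega)]
      linarith
    · have h3 := hneg r hr1 hc
      rw [if_pos (show 1 ≤ r ∧ r ≤ m0 from ⟨hr1, hc⟩), if_pos (show r ≤ M by omega)]
      have h4 := y4_err L m0 r hL hm0 hr1 hc th hth0 h2
      have h5 : -(tn L / L * ww (r - 1)) ≤ bb L r := by
        obtain ⟨p, rfl⟩ : ∃ p, r = p + 1 := ⟨r - 1, by omega⟩
        rw [Nat.add_sub_cancel]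
        exact bb_ge_ww L (by omega) p (by omega)
      obtain ⟨e, he⟩ : ∃ e : ℝ, e = 1.2375 * ((r : ℝ) / L) ^ 2 + 2.66 / L := ⟨_, rfl⟩
      obtain ⟨o, ho⟩ : ∃ o : ℝ, o = (1 - 1.6 * (1.5 / ((L : ℝ) + 2))) + 1.5 / ((L : ℝ) + 2) / E * yB L r := ⟨_, rfl⟩
      rw [← he, ← ho] at h4
      rw [← he, ← ho]
      have he0 : 0 ≤ e := by rw [he]; positivity
      have h7 : (th ^ r - o) * (-bb L r) ≤ e * (-bb L r) :=
        mul_le_mul_of_nonneg_right h4 (by linarith)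
      have h8 : e * (-bb L r) ≤ e * (tn L / L * ww (r - 1)) :=
        mul_le_mul_of_nonneg_left (by linarith) he0
      have h9 : (th ^ r - o) * (-bb L r) = -(th ^ r * bb L r) + o * bb L r := by ring
      linarith

lemma y4_coef1 {E x g T t c : ℝ} (hE : 0 < E) (hx : 0 < x) (hg : 0 ≤ g) (ht : 0.9975 ≤ t)
    (hT : c * E ≤ T) (hc : 0 ≤ c) : x * (2 * (0.9975 * c)) * g ≤ x / E * (2 * (t * g * T)) := by
  have h7 : 0.9975 * (c * E) ≤ t * T := mul_le_mul ht hT (by positivity) (by linarith)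
  have h10 : (x / E * 2 * g) * (0.9975 * (c * E)) ≤ (x / E * 2 * g) * (t * T) :=
    mul_le_mul_of_nonneg_left h7 (by positivity)
  have h11 : (x / E * 2 * g) * (0.9975 * (c * E)) = x * (2 * (0.9975 * c)) * g := by
    field_simp
  have h9 : x / E * (2 * (t * g * T)) = (x / E * 2 * g) * (t * T) := by ring
  rw [h9]
  linarith

lemma y4_thL (L : ℕ) (hL : 1000 ≤ L) : 0.9975 ≤ thL L := by
  have hLr : (1000 : ℝ) ≤ L := by exact_mod_cast hL
  have h3 := thL_ge L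
  have h4 : 2.5 / ((L : ℝ) + 2) ≤ 0.0025 := by
    rw [div_le_iff₀ (by positivity)]
    linarith
  linarith

lemma y4_coef (L M i : ℕ) (hL : 1000 ≤ L) (hi' : i < M) (hM : M + 24 ≤ L) :
    2.5 / ((L : ℝ) + 2) * gg L i - 1.5 / ((L : ℝ) + 2) / E * (2 * (thL L * gg L i * yT (L - 1 - i))) ≤
      (if i < L / 2 then -(0.38 / L * gg L i) else 0) := by
  have hE := E_pos
  have hLr : (1000 : ℝ) ≤ L := by exact_mod_cast hL
  have hL0 : (0 : ℝ) < L := by linarith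
  obtain ⟨x, hx⟩ : ∃ x : ℝ, x = 1.5 / ((L : ℝ) + 2) := ⟨_, rfl⟩
  have hx0 : 0 < x := by rw [hx]; positivity
  have hxL : (L : ℝ) * x + 2 * x = 1.5 := by rw [hx]; field_simp
  have hx1 : x ≤ 0.0015 := by
    rw [hx, div_le_iff₀ (by positivity)]
    linarith
  have hg := gg_nonneg L i
  have hK : 1 ≤ L - 1 - i := by omega
  have h3 := y3_tail_le (L - 1 - i) hK
  have e1 : ((L - 1 - i : ℕ) : ℝ) = (L : ℝ) - 1 - i := by
    rw [Nat.cast_sub (by omega), Nat.cast_sub (by omega)]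
    simp
  rw [e1] at h3
  have e25 : 2.5 / ((L : ℝ) + 2) = 5 / 3 * x := by rw [hx]; ring
  rw [e25, ← hx]
  have hiM : (i : ℝ) + 25 ≤ L := by
    have : ((i + 25 : ℕ) : ℝ) ≤ L := by exact_mod_cast (by omega : i + 25 ≤ L)
    push_cast at this
    exact this
  split_ifs with hc
  · have h4 : (22.3 : ℝ) ≤ √((L : ℝ) - 1 - i) := by
      apply Real.le_sqrt_of_sq_le
      have h5 : (i : ℝ) + 1 ≤ L / 2 := by
        have h6 : 2 * (i + 1) ≤ L := by omega
        have h7 : (2 : ℝ) * (i + 1) ≤ L := by exact_mod_cast h6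
        linarith
      linarith
    have h5 : E - yT (L - 1 - i) ≤ 0.0358 * E := by
      refine h3.trans ?_
      rw [div_le_iff₀ (by linarith)]
      have := mul_le_mul_of_nonneg_left h4 hE.le
      linarith
    have h8 := y4_coef1 hE hx0 hg (y4_thL L hL) (show 0.9642 * E ≤ yT (L - 1 - i) by linarith) (by norm_num)
    have h9 : 0.38 / (L : ℝ) ≤ x * (2 * (0.9975 * 0.9642) - 5 / 3) := by
      rw [div_le_iff₀ hL0]
      linarith
    have h10 := mul_le_mul_of_nonneg_right h9 hg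
    linarith
  · have h4 : (4.898 : ℝ) ≤ √((L : ℝ) - 1 - i) := by
      apply Real.le_sqrt_of_sq_le
      linarith
    have h5 : E - yT (L - 1 - i) ≤ 0.163 * E := by
      refine h3.trans ?_
      rw [div_le_iff₀ (by linarith)]
      have := mul_le_mul_of_nonneg_left h4 hE.le
      linarith
    have h8 := y4_coef1 hE hx0 hg (y4_thL L hL) (show 0.837 * E ≤ yT (L - 1 - i) by linarith) (by norm_num)
    have h9 : 0 ≤ x * (2 * (0.9975 * 0.837) - 5 / 3) := by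
      apply mul_nonneg hx0.le
      norm_num
    have h10 := mul_nonneg h9 hg
    linarith

lemma y4_V (L M : ℕ) (hM : M + 24 ≤ L) : -∑ r ∈ range (M + 1), bb L r ≤
    gg L M + 2.5 / ((L : ℝ) + 2) * ∑ i ∈ range M, gg L i := by
  rw [sum_bb, Finset.mul_sum]
  have h3 : ∑ k ∈ range M, (gg (L + 1) k - gg L k) ≥ ∑ k ∈ range M, -(2.5 / ((L : ℝ) + 2) * gg L k) := by
    apply Finset.sum_le_sum
    intro k hk
    have hk' := mem_range.mp hk
    have h4 := gg_succ_ge L k (by omega)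
    have h5 := mul_le_mul_of_nonneg_right (thL_ge L) (gg_nonneg L k)
    linarith
  rw [Finset.sum_neg_distrib] at h3
  linarith

lemma y4_S2 (L M : ℕ) (hL : 1000 ≤ L) (hM : M + 24 ≤ L) :
    2 * ∑ i ∈ range M, thL L * gg L i * yT (L - 1 - i) - tn L * yT L ≤
      ∑ r ∈ range (L + 1), yB L r * bb L r := by
  rw [sum_bb_id L (by omega)]
  have h3 : ∑ i ∈ range M, thL L * gg L i * yT (L - 1 - i) ≤ ∑ i ∈ range (L - 1), gg (L + 1) i * yT (L - 1 - i) := by
    refine le_trans (Finset.sum_le_sum (g := fun i => gg (L + 1) i * yT (L - 1 - i)) ?_) ?_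
    · intro i hi
      have hi' := mem_range.mp hi
      exact mul_le_mul_of_nonneg_right (gg_succ_ge L i (by omega))
        (Finset.sum_nonneg fun j _ => (tn_pos j).le)
    · apply Finset.sum_le_sum_of_subset_of_nonneg
      · intro i hi
        have := mem_range.mp hi
        exact mem_range.mpr (by omega)
      · intro i _ _
        exact mul_nonneg (gg_nonneg _ _) (Finset.sum_nonneg fun j _ => (tn_pos j).le)
  linarith

lemma y4_main (L M : ℕ) (lam μ : ℝ) (hM : M + 24 ≤ L) :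
    ∑ r ∈ range (L + 1), ((if r ≤ M then lam else 0) + μ * yB L r) * bb L r =
      lam * ∑ r ∈ range (M + 1), bb L r + μ * ∑ r ∈ range (L + 1), yB L r * bb L r := by
  have e1 : ∀ r ∈ range (L + 1), ((if r ≤ M then lam else 0) + μ * yB L r) * bb L r =
      (if r ≤ M then lam * bb L r else 0) + μ * (yB L r * bb L r) := by
    intro r _
    split_ifs <;> ring
  rw [Finset.sum_congr rfl e1, Finset.sum_add_distrib, ← Finset.mul_sum, ← Finset.sum_filter]
  congr 1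
  have e2 : (range (L + 1)).filter (fun r => r ≤ M) = range (M + 1) := by
    ext a
    simp only [mem_filter, mem_range]
    omega
  rw [e2, Finset.mul_sum]

lemma y4_errsum (L m0 : ℕ) (hL : 1000 ≤ L) (hm0 : ((m0 : ℝ)) ^ 3 ≤ (0.8 * L) ^ 2) (hm : m0 ≤ L) :
    ∑ r ∈ range (L + 1), (if 1 ≤ r ∧ r ≤ m0 then
      (1.2375 * ((r : ℝ) / L) ^ 2 + 2.66 / L) * (tn L / L * ww (r - 1)) else 0) ≤ 0.059 * (tn L / L) := by
  refine le_trans (le_of_eq ?_) (y4_err_sum L m0 hL hm0)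
  rw [← Finset.sum_filter]
  have e1 : (range (L + 1)).filter (fun r => 1 ≤ r ∧ r ≤ m0) = (range m0).image (fun r => r + 1) := by
    ext a
    simp only [mem_filter, mem_range, mem_image]
    constructor
    · rintro ⟨h3, h4, h5⟩
      exact ⟨a - 1, by omega, by omega⟩
    · rintro ⟨b, h3, rfl⟩
      omega
  rw [e1, Finset.sum_image (by intro a _ b _ h; simpa using h)]
  apply Finset.sum_congr rfl
  intro r _
  rw [Nat.add_sub_cancel]

lemma y4_fin {lam μ V S B1 G1 t U : ℝ} (hl0 : 0 ≤ lam) (hl1 : lam ≤ 1) (hμ : 0 ≤ μ)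
    (hV : -V ≤ B1) (hB : 0 ≤ B1) (hS : 2 * U - t ≤ S) (_hG : 0 ≤ G1) :
    -(lam * V + μ * S) ≤ B1 - μ * (2 * U) + μ * t := by
  have h3 := mul_le_mul_of_nonneg_left hV hl0
  have h4 := mul_le_mul_of_nonneg_left hS hμ
  have h6 := mul_le_mul_of_nonneg_right hl1 hB
  linarith

/-- ROW r5b, general form -/
theorem W0_le_G (L m0 M : ℕ) (hL : 1000 ≤ L) (hm0 : ((m0 : ℝ)) ^ 3 ≤ (0.8 * L) ^ 2)
    (hM0 : m0 ≤ M) (hM2 : L ≤ 2 * M) (hM : M + 24 ≤ L)
    (hneg : ∀ r, 1 ≤ r → r ≤ m0 → bb L r ≤ 0) (hpos : ∀ r, m0 < r → r ≤ L → 0 ≤ bb L r)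
    (th : ℝ) (h1 : 1 + 1.5 / ((L : ℝ) + 2) ≤ th) (h2 : th ≤ 1 + 1.5 / (L : ℝ)) :
    -∑ r ∈ range (L + 1), th ^ r * bb L r ≤
      1.559 * (tn L / L) + gg L M - 0.38 / L * ∑ i ∈ range (L / 2), gg L i := by
  have hE := E_pos
  have hLr : (1000 : ℝ) ≤ L := by exact_mod_cast hL
  have hL0 : (0 : ℝ) < L := by linarith
  have hsum := Finset.sum_le_sum (s := range (L + 1)) (fun r hr =>
    y4_term L m0 M r hL hm0 hM0 hM (by have := mem_range.mp hr; omega) hneg hpos th h1 h2)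
  rw [Finset.sum_neg_distrib, Finset.sum_add_distrib, Finset.sum_neg_distrib, y4_main L M _ _ hM] at hsum
  have herr := y4_errsum L m0 hL hm0 (by omega)
  obtain ⟨x, hx⟩ : ∃ x : ℝ, x = 1.5 / ((L : ℝ) + 2) := ⟨_, rfl⟩
  have hx0 : 0 < x := by rw [hx]; positivity
  have hx1 : x ≤ 0.0015 := by
    rw [hx, div_le_iff₀ (by positivity)]
    linarith
  have hμ : 0 < x / E := div_pos hx0 hE
  have hg0 : 0 ≤ ∑ i ∈ range M, gg L i := Finset.sum_nonneg fun i _ => gg_nonneg L i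
  have hB : 0 ≤ gg L M + 2.5 / ((L : ℝ) + 2) * ∑ i ∈ range M, gg L i := by
    have h6 := gg_nonneg L M
    positivity
  have hfin := y4_fin (lam := 1 - 1.6 * x) (μ := x / E) (by linarith) (by linarith) hμ.le
    (y4_V L M hM) hB (y4_S2 L M hL hM) hg0
  have hsumc := Finset.sum_le_sum (s := range M) (fun i hi =>
    y4_coef L M i hL (mem_range.mp hi) hM)
  rw [← hx] at hsum hsumc
  have e3 : ∑ i ∈ range M, (2.5 / ((L : ℝ) + 2) * gg L i - x / E * (2 * (thL L * gg L i * yT (L - 1 - i)))) =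
      2.5 / ((L : ℝ) + 2) * ∑ i ∈ range M, gg L i -
      x / E * (2 * ∑ i ∈ range M, thL L * gg L i * yT (L - 1 - i)) := by
    rw [Finset.sum_sub_distrib, Finset.mul_sum, Finset.mul_sum, Finset.mul_sum]
  rw [e3] at hsumc
  have e4 : ∑ i ∈ range M, (if i < L / 2 then -(0.38 / L * gg L i) else 0) =
      -(0.38 / L * ∑ i ∈ range (L / 2), gg L i) := by
    rw [← Finset.sum_filter]
    have e5 : (range M).filter (fun i => i < L / 2) = range (L / 2) := by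
      ext a
      simp only [mem_filter, mem_range]
      omega
    rw [e5, Finset.sum_neg_distrib, Finset.mul_sum]
  rw [e4] at hsumc
  have hT : x / E * (tn L * yT L) ≤ 1.5 * (tn L / L) := by
    have h3 := yT_le L
    have h4 := mul_le_mul_of_nonneg_left h3 (tn_pos L).le
    have h5 := mul_le_mul_of_nonneg_left h4 hμ.le
    have e5 : x / E * (tn L * E) = x * tn L := by field_simp
    rw [e5] at h5
    have h6 : x ≤ 1.5 / L := by
      rw [hx]
      exact div_le_div_of_nonneg_left (by norm_num) hL0 (by linarith)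
    have h7 := mul_le_mul_of_nonneg_right h6 (tn_pos L).le
    have e6 : 1.5 / (L : ℝ) * tn L = 1.5 * (tn L / L) := by ring
    linarith
  linarith

end Pool.Agent.MP_9da1e3_co
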