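import Pool.Agent.Lib.MP_9da1e3_co.YH4

namespace Pool.Agent.MP_9da1e3_co

open Finset

/-- `tn (K + 1) ≥ (1 - 1.5 / (K + 2)) tn K` -/
lemma y3_th_le' (K : ℕ) : (1 - 1.5 / ((K : ℝ) + 2)) * tn K ≤ tn (K + 1) := by
  have h := aa_mono (show K ≤ K + 1 by omega)
  have h1 := tn_pos K
  have hL0 : (0 : ℝ) ≤ K := Nat.cast_nonneg K
  unfold aa sq at h
  push_cast at h
  obtain ⟨s, hs⟩ : ∃ s : ℝ, s = 1 / ((K : ℝ) + 2) := ⟨_, rfl⟩
  have hs0 : 0 < s := by rw [hs]; positivity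
  have hs1 : ((K : ℝ) + 2) * s = 1 := by rw [hs]; field_simp
  have hsle : s ≤ 1 / 2 := by
    rw [hs, div_le_div_iff₀ (by positivity) (by norm_num)]
    linarith
  have h0 : 0 < √((K : ℝ) + 1 + 1) := Real.sqrt_pos.mpr (by linarith)
  have e15 : (1.5 : ℝ) / ((K : ℝ) + 2) = 1.5 * s := by rw [hs]; ring
  rw [e15]
  have hq : √((K : ℝ) + 1 + 1) * (1 - s / 2 - s ^ 2 / 2) ≤ √((K : ℝ) + 1) := by
    apply Real.le_sqrt_of_sq_le
    rw [mul_pow, Real.sq_sqrt (by linarith)]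
    have e : ((K : ℝ) + 1 + 1) = (K : ℝ) + 2 := by ring
    rw [e]
    have e2 : (K : ℝ) + 1 = ((K : ℝ) + 2) * (1 - s) := by linarith
    rw [e2]
    apply mul_le_mul_of_nonneg_left _ (by linarith)
    have e3 : (1 - s / 2 - s ^ 2 / 2) ^ 2 = 1 - s - s ^ 2 * (3 / 4 - s / 2 - s ^ 2 / 4) := by ring
    rw [e3]
    have e4 : 0 ≤ 3 / 4 - s / 2 - s ^ 2 / 4 := by nlinarith
    have e5 : 0 ≤ s ^ 2 * (3 / 4 - s / 2 - s ^ 2 / 4) := mul_nonneg (sq_nonneg s) e4
    linarith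
  have h3 : ((K : ℝ) + 1) * tn K * (√((K : ℝ) + 1 + 1) * (1 - s / 2 - s ^ 2 / 2)) ≤
      ((K : ℝ) + 1 + 1) * tn (K + 1) * √((K : ℝ) + 1 + 1) :=
    (mul_le_mul_of_nonneg_left hq (by positivity)).trans h
  have h4 : ((K : ℝ) + 1) * tn K * (1 - s / 2 - s ^ 2 / 2) ≤ ((K : ℝ) + 1 + 1) * tn (K + 1) := by
    have e : ((K : ℝ) + 1) * tn K * (√((K : ℝ) + 1 + 1) * (1 - s / 2 - s ^ 2 / 2)) =
        ((K : ℝ) + 1) * tn K * (1 - s / 2 - s ^ 2 / 2) * √((K : ℝ) + 1 + 1) := by ring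
    rw [e] at h3
    exact le_of_mul_le_mul_right h3 h0
  have h5 := mul_le_mul_of_nonneg_left h4 hs0.le
  have e6 : s * (((K : ℝ) + 1) * tn K * (1 - s / 2 - s ^ 2 / 2)) =
      (((K : ℝ) + 2) * s - s) * (1 - s / 2 - s ^ 2 / 2) * tn K := by ring
  have e7 : s * (((K : ℝ) + 1 + 1) * tn (K + 1)) = (((K : ℝ) + 2) * s) * tn (K + 1) := by ring
  rw [e6, e7, hs1] at h5
  have h6 : (1 - 1.5 * s) * tn K ≤ (1 - s) * (1 - s / 2 - s ^ 2 / 2) * tn K := by
    apply mul_le_mul_of_nonneg_right _ h1.le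
    have : 0 ≤ s ^ 3 := by positivity
    nlinarith
  linarith

lemma y5_rhs (L : ℕ) : E * yT L - yC L * (E - yT L) ≤ 3.061 := by
  have h1 := le_E_sub_sum L
  have h2 := lt_two_cA
  have h3 := sum_cE_ge L
  have hE := E_pos
  have hE1 := E_ge3
  have hE2 : E ≤ 2.71829 := by
    have h := Real.exp_one_lt_d9
    have e : E = Real.exp 1 := rfl
    rw [e]
    linarith
  obtain ⟨s, hs⟩ : ∃ s : ℝ, s = sq L := ⟨_, rfl⟩
  have hs0 : 0 < s := by rw [hs]; exact sq_pos L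
  have hs1 : √((L : ℝ) + 1) = s := by rw [hs]; rfl
  rw [← hs] at h1
  rw [hs1] at h3
  have h4 : 2.16886 / s ≤ E - yT L := by
    unfold yT
    refine le_trans ?_ h1
    exact div_le_div_of_nonneg_right h2.le hs0.le
  have h5 : 2 * s - 2 ≤ yC L := h3
  have hs2 : 1 ≤ s := by
    rw [← hs1]
    apply Real.le_sqrt_of_sq_le
    have : (0 : ℝ) ≤ L := Nat.cast_nonneg L
    linarith
  obtain ⟨τ, hτ⟩ : ∃ τ : ℝ, τ = E - yT L := ⟨_, rfl⟩
  have h6 : yT L = E - τ := by rw [hτ]; ring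
  rw [← hτ] at h4
  rw [h6]
  have e1 : E - (E - τ) = τ := by ring
  rw [e1]
  have hτ0 : 0 ≤ τ := le_trans (by positivity) h4
  have h7 : (2 * s - 2) * τ ≤ yC L * τ := mul_le_mul_of_nonneg_right h5 hτ0
  have h8 : 2.16886 ≤ τ * s := by
    rw [div_le_iff₀ hs0] at h4
    exact h4
  have h9 : E * (E - τ) - (2 * s - 2) * τ = E * E - 2 * (τ * s) - (E - 2) * τ := by ring
  have h10 : 0 ≤ (E - 2) * τ := mul_nonneg (by linarith) hτ0
  nlinarith

lemma y5_X (L : ℕ) (hL : 999 ≤ L) : (E * yT L - yC L * (E - yT L)) / E ≤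
    1.043 * (((L : ℝ) + 1) * √((L : ℝ) + 1)) * tn L := by
  have h1 := y5_rhs L
  have hE := E_pos
  have hE1 := E_ge3
  have h2 := tn_eq_aa L
  have h3 := le_aa_twenty (k := L) (by omega)
  have hL0 : (0 : ℝ) < (L : ℝ) + 1 := by positivity
  have hs : 0 < √((L : ℝ) + 1) := Real.sqrt_pos.mpr hL0
  have h4 : ((L : ℝ) + 1) * √((L : ℝ) + 1) * tn L = aa L := by
    rw [h2]
    unfold sq
    field_simp
  have h5 : 1.043 * (((L : ℝ) + 1) * √((L : ℝ) + 1)) * tn L = 1.043 * aa L := by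
    rw [← h4]
    ring
  rw [h5, div_le_iff₀ hE]
  nlinarith

lemma HH_anti (L : ℕ) {a b : ℕ} (h : a ≤ b) : HH L b ≤ HH L a := by
  unfold HH
  exact Fn_le_of_le (L + 1) (by omega)

lemma y5_HH_mid (L m : ℕ) (hL : 1 ≤ L) (hm : m < L) :
    HH L m * ((m : ℝ) * ((m : ℝ) - 1) / 2) ≤ (E * yT L - yC L * (E - yT L)) / E + tn L := by
  have hE := E_pos
  have h1 := moment_HH L hL
  have h0 : 0 ≤ 2 * E * L * HH L L := by
    have := HH_nonneg L L
    positivity
  have h2 : ∑ i ∈ range L, HH L i * ((i : ℝ) - 1) ≤ (E * yT L - yC L * (E - yT L)) / E := by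
    rw [le_div_iff₀ hE]
    linarith
  have h3 : ∑ i ∈ range (m + 1), HH L i * ((i : ℝ) - 1) ≤ ∑ i ∈ range L, HH L i * ((i : ℝ) - 1) := by
    rw [← Finset.sum_range_add_sum_Ico _ (show m + 1 ≤ L by omega)]
    have : 0 ≤ ∑ k ∈ Ico (m + 1) L, HH L k * ((k : ℝ) - 1) := by
      apply Finset.sum_nonneg
      intro k hk
      have hk' := (mem_Ico.mp hk).1
      have : (1 : ℝ) ≤ k := by exact_mod_cast (by omega : 1 ≤ k)
      exact mul_nonneg (HH_nonneg L k) (by linarith)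
    linarith
  rw [Finset.sum_range_succ'] at h3
  have h4 : ∑ k ∈ range m, HH L m * (k : ℝ) ≤ ∑ k ∈ range m, HH L (k + 1) * (((k + 1 : ℕ) : ℝ) - 1) := by
    apply Finset.sum_le_sum
    intro k hk
    have hk' := mem_range.mp hk
    push_cast
    rw [add_sub_cancel_right]
    exact mul_le_mul_of_nonneg_right (HH_anti L (by omega)) (Nat.cast_nonneg k)
  have h5 : ∑ k ∈ range m, HH L m * (k : ℝ) = HH L m * ((m : ℝ) * ((m : ℝ) - 1) / 2) := by
    rw [← Finset.mul_sum]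
    congr 1
    have : ∀ n : ℕ, ∑ j ∈ range n, (j : ℝ) = (n : ℝ) * ((n : ℝ) - 1) / 2 := by
      intro n
      induction n with
      | zero => simp
      | succ n ih => rw [Finset.sum_range_succ, ih]; push_cast; ring
    exact this m
  rw [h5] at h4
  rw [HH_zero] at h3
  push_cast at h3 h4
  linarith

/-- lower bound for the sum of `gg` up to `L / 2` -/
theorem y5_G (L : ℕ) (hL : 1000 ≤ L) : 0.345 * tn L ≤ ∑ i ∈ range (L / 2), gg L i := by
  obtain ⟨K, rfl⟩ : ∃ K, L = K + 1 := ⟨L - 1, by omega⟩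
  have hK : 999 ≤ K := by omega
  obtain ⟨m, hm⟩ : ∃ m : ℕ, m = (K + 1) / 2 := ⟨_, rfl⟩
  obtain ⟨z, hz⟩ : ∃ z : ℕ, z = (K + 1) / 4 := ⟨_, rfl⟩
  rw [← hm]
  rw [sum_gg_eq]
  have ht := tn_pos K
  have hX := y5_X K hK
  obtain ⟨X, hXd⟩ : ∃ X : ℝ, X = (E * yT K - yC K * (E - yT K)) / E := ⟨_, rfl⟩
  rw [← hXd] at hX
  have h1 := y5_HH_mid K m (by omega) (by omega)
  rw [← hXd] at h1
  have h2 := sum_HH_le_z K z (by omega) (by omega)
  have hE := E_pos
  have e1 : (E * yT K - yC K * (E - yT K)) / (E * z) = X / z := by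
    rw [hXd, div_div]
  rw [e1] at h2
  obtain ⟨l, hl⟩ : ∃ l : ℝ, l = (K : ℝ) + 1 := ⟨_, rfl⟩
  obtain ⟨S, hS⟩ : ∃ S : ℝ, S = √((K : ℝ) + 1) := ⟨_, rfl⟩
  rw [← hS] at hX
  rw [← hl] at hX hS
  have hl1 : 1000 ≤ l := by
    rw [hl]
    have : (999 : ℝ) ≤ K := by exact_mod_cast hK
    linarith
  have hS0 : 0 < S := by rw [hS]; exact Real.sqrt_pos.mpr (by linarith)
  have hSS : S * S = l := by rw [hS]; exact Real.mul_self_sqrt (by linarith)
  have hS31 : 31.62 ≤ S := by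
    rw [hS]
    apply Real.le_sqrt_of_sq_le
    linarith
  have hSl : 31.62 * S ≤ l := by
    rw [← hSS]
    exact mul_le_mul_of_nonneg_right hS31 hS0.le
  have hll : 1000 * l ≤ l * l := mul_le_mul_of_nonneg_right hl1 (by linarith)
  have hm1 : (l - 1) / 2 ≤ m := by
    have h3 : K ≤ 2 * m := by omega
    have h4 : (K : ℝ) ≤ 2 * m := by exact_mod_cast h3
    rw [hl]
    linarith
  have hz1 : (l - 3) / 4 ≤ z := by
    have h3 : K + 1 ≤ 4 * z + 3 := by omega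
    have h4 : (K : ℝ) + 1 ≤ 4 * z + 3 := by exact_mod_cast h3
    rw [hl]
    linarith
  have hz2 : (z : ℝ) ≤ l / 4 := by
    have h3 : 4 * z ≤ K + 1 := by omega
    have h4 : 4 * (z : ℝ) ≤ (K : ℝ) + 1 := by exact_mod_cast h3
    rw [hl]
    linarith
  have hz0 : (0 : ℝ) < z := by linarith
  -- HH K m ≤ 0.2655 tn K
  have h3 : HH K m ≤ 0.2656 * tn K := by
    have h4 : (l - 1) * (l - 3) / 8 ≤ (m : ℝ) * ((m : ℝ) - 1) / 2 := by
      have h5 : (l - 1) / 2 * ((l - 3) / 2) ≤ (m : ℝ) * ((m : ℝ) - 1) :=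
        mul_le_mul hm1 (by linarith) (by linarith) (by linarith)
      have e : (l - 1) * (l - 3) / 8 = ((l - 1) / 2 * ((l - 3) / 2)) / 2 := by ring
      rw [e]
      exact div_le_div_of_nonneg_right h5 (by norm_num)
    have h5 : HH K m * ((l - 1) * (l - 3) / 8) ≤ X + tn K :=
      le_trans (mul_le_mul_of_nonneg_left h4 (HH_nonneg K m)) h1
    have h6 : X + tn K ≤ 0.2656 * tn K * ((l - 1) * (l - 3) / 8) := by
      have h7 : X + tn K ≤ (1.043 * (l * S) + 1) * tn K := by linarith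
      refine h7.trans ?_
      have h8 : 1.043 * (l * S) + 1 ≤ 0.2656 * ((l - 1) * (l - 3) / 8) := by
        have h9 : l * S ≤ l * (l / 31.62) := by
          apply mul_le_mul_of_nonneg_left _ (by linarith)
          rw [le_div_iff₀ (by norm_num)]
          linarith
        have h10 : 1.043 * (l * (l / 31.62)) ≤ 0.032986 * (l * l) := by
          have e : 1.043 * (l * (l / 31.62)) = (1.043 / 31.62) * (l * l) := by ring
          rw [e]
          exact mul_le_mul_of_nonneg_right (by norm_num) (by positivity)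
        have e : 0.2656 * ((l - 1) * (l - 3) / 8) = 0.0332 * (l * l) - 0.1328 * l + 0.0996 := by ring
        rw [e]
        linarith
      have h9 := mul_le_mul_of_nonneg_right h8 ht.le
      linarith
    have h7 := h5.trans h6
    exact le_of_mul_le_mul_right h7 (div_pos (mul_pos (by linarith) (by linarith)) (by norm_num))
  -- the sum
  have h4 : ∑ i ∈ range K, HH K i ≤ 0.2592 * l * tn K := by
    refine h2.trans ?_
    have h5 : X / z ≤ 0.1325 * l * tn K := by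
      rw [div_le_iff₀ hz0]
      have h6 : 1.043 * (l * S) ≤ 0.1325 * l * ((l - 3) / 4) := by
        have h7 : 1.043 * S ≤ 0.1325 * ((l - 3) / 4) := by linarith
        have h8 := mul_le_mul_of_nonneg_left h7 (show 0 ≤ l by linarith)
        linarith
      have h7 : 0.1325 * l * ((l - 3) / 4) ≤ 0.1325 * l * z :=
        mul_le_mul_of_nonneg_left hz1 (by positivity)
      have h8 := mul_le_mul_of_nonneg_right (h6.trans h7) ht.le
      linarith
    have h6 : (z : ℝ) / 2 + 3 / 2 + 1 / (z : ℝ) ≤ 0.1266 * l := by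
      have h7 : 1 / (z : ℝ) ≤ 0.0045 := by
        rw [div_le_iff₀ hz0]
        linarith
      linarith
    have h7 := mul_le_mul_of_nonneg_right h6 ht.le
    have h8 : 0 ≤ l * tn K := mul_nonneg (by linarith) ht.le
    linarith
  have h5 : ∑ i ∈ range m, HH K i ≤ 0.2592 * l * tn K := by
    refine le_trans ?_ h4
    apply Finset.sum_le_sum_of_subset_of_nonneg
    · intro i hi
      have := mem_range.mp hi
      exact mem_range.mpr (by omega)
    · intro i _ _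
      exact HH_nonneg K i
  -- the ratio
  have h6 : (1 - 1.5 / (l + 1)) * ∑ i ∈ range m, HH K i ≤ ∑ i ∈ range m, HH (K + 1) i := by
    rw [Finset.mul_sum]
    apply Finset.sum_le_sum
    intro i hi
    have hi' := mem_range.mp hi
    have h7 := HH_succ_ge' K i (by omega)
    refine le_trans (mul_le_mul_of_nonneg_right ?_ (HH_nonneg K i)) h7
    rw [le_div_iff₀ ht]
    have h8 := y3_th_le' K
    rw [hl]
    have e : (K : ℝ) + 1 + 1 = (K : ℝ) + 2 := by ring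
    rw [e]
    exact h8
  have h7 : 1.5 / (l + 1) * ∑ i ∈ range m, HH K i ≤ 0.3888 * tn K := by
    have h8 := mul_le_mul_of_nonneg_left h5 (show 0 ≤ 1.5 / (l + 1) by positivity)
    refine h8.trans ?_
    have e : 1.5 / (l + 1) * (0.2592 * l * tn K) = (0.3888 * l / (l + 1)) * tn K := by ring
    rw [e]
    apply mul_le_mul_of_nonneg_right _ ht.le
    rw [div_le_iff₀ (by linarith)]
    linarith
  have h8 : tn (K + 1) ≤ tn K := tn_anti K
  linarith

/-- ROW r5b -/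
theorem W0_le (L m0 M : ℕ) (hL : 1000 ≤ L) (hm0 : ((m0 : ℝ)) ^ 3 ≤ (0.8 * L) ^ 2)
    (hM0 : m0 ≤ M) (hM2 : L ≤ 2 * M) (hM : M + 24 ≤ L)
    (hneg : ∀ r, 1 ≤ r → r ≤ m0 → bb L r ≤ 0) (hpos : ∀ r, m0 < r → r ≤ L → 0 ≤ bb L r)
    (th : ℝ) (h1 : 1 + 1.5 / ((L : ℝ) + 2) ≤ th) (h2 : th ≤ 1 + 1.5 / (L : ℝ)) :
    -∑ r ∈ range (L + 1), th ^ r * bb L r ≤ 1.43 * (tn L / L) + gg L M := by
  have h := W0_le_G L m0 M hL hm0 hM0 hM2 hM hneg hpos th h1 h2
  have hG := y5_G L hL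
  have hLr : (1000 : ℝ) ≤ L := by exact_mod_cast hL
  have hL0 : (0 : ℝ) < L := by linarith
  have h3 := mul_le_mul_of_nonneg_left hG (show 0 ≤ 0.38 / (L : ℝ) by positivity)
  have e : 0.38 / (L : ℝ) * (0.345 * tn L) = 0.1311 * (tn L / L) := by ring
  rw [e] at h3
  have h4 : 0 < tn L / L := div_pos (tn_pos L) hL0
  linarith

end Pool.Agent.MP_9da1e3_co
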