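import Pool.Agent.Lib.MP_9da1e3_co.Lin46

/-!
The linearised second difference `z = B_L / F_(L+1)`, `B_L = F_(L+2) - 2 F_(L+1) + F_L`: its equation
has a source with nonnegative coefficients, for all `n`.
-/

namespace Pool.Agent.MP_9da1e3_co

open Finset

/-- the algebra behind the equation for `z` -/
lemma Z_alg (e l : ℝ) (F0 F1 F2 u Q0 Q1 P0 P1 P2 : PowerSeries ℝ)
    (h0 : PowerSeries.C e * PowerSeries.derivative ℝ F0 = (PowerSeries.C l * F0 - P0) * F0)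
    (h1 : PowerSeries.C e * PowerSeries.derivative ℝ F1 = (PowerSeries.C (l + 1) * F1 - P1) * F1)
    (h2 : PowerSeries.C e * PowerSeries.derivative ℝ F2 = (PowerSeries.C (l + 2) * F2 - P2) * F2)
    (hu : F1 * u = 1) (hP1 : P1 = P0 + Q0) (hP2 : P2 = P1 + Q1) :
    PowerSeries.C e * PowerSeries.derivative ℝ ((F2 - F1 - (F1 - F0)) * u)
      = PowerSeries.C (l + 2) * (F2 - F1 - (F1 - F0)) + 2 * (F1 - F0)
        + (PowerSeries.C (l + 2) * ((F2 - F1) * ((F2 - F1) * u))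
          + PowerSeries.C l * ((F1 - F0) * ((F1 - F0) * u))
          + (F1 - Q1) * ((F2 - F1) * u) + (F1 - Q0) * ((F1 - F0) * u)) - (Q1 - Q0) := by
  have hD : PowerSeries.derivative ℝ (F1 * u) = 0 := by rw [hu]; exact PowerSeries.derivative_one
  rw [Derivation.leibniz, smul_eq_mul, smul_eq_mul] at hD
  have hDu : PowerSeries.C e * PowerSeries.derivative ℝ u = P1 * u - PowerSeries.C (l + 1) := by
    have h3 : PowerSeries.C e * PowerSeries.derivative ℝ u =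
        PowerSeries.C e * PowerSeries.derivative ℝ u * (F1 * u) := by rw [hu, mul_one]
    rw [h3]
    linear_combination (PowerSeries.C e * u) * hD - u * u * h1 -
      (PowerSeries.C (l + 1) * (F1 * u + 1) - P1 * u) * hu
  rw [Derivation.leibniz, map_sub, map_sub, map_sub, smul_eq_mul, smul_eq_mul]
  have e1 : (PowerSeries.C (l + 1) : PowerSeries ℝ) = PowerSeries.C l + 1 := by
    rw [map_add, map_one]
  have e2 : (PowerSeries.C (l + 2) : PowerSeries ℝ) = PowerSeries.C l + 2 := by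
    rw [map_add, show (2 : ℝ) = 1 + 1 by norm_num, map_add, map_one]
    norm_num
  rw [e1] at h1 hDu
  rw [e2] at h2 ⊢
  rw [hP2] at h2
  rw [hP1] at h1 h2 hDu
  linear_combination u * h2 - 2 * u * h1 + u * h0 + (F2 - 2 * F1 + F0) * hDu +
    (3 * F2 + 2 * F2 * PowerSeries.C l - 4 * F1 - 4 * F1 * PowerSeries.C l + F0 +
      2 * F0 * PowerSeries.C l + Q0 - Q1) * hu

/-- `A_L / F_L` -/
noncomputable def z1_psi (L : ℕ) : PowerSeries ℝ := (FF (L + 1) - FF L) * (FF L)⁻¹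

/-- `A_L / F_(L+1)` -/
noncomputable def z1_chi (L : ℕ) : PowerSeries ℝ := (FF (L + 1) - FF L) * (FF (L + 1))⁻¹

lemma z1_psi_eq (L : ℕ) : z1_psi L = FF (L + 1) * ((FF L)⁻¹ - (FF (L + 1))⁻¹) := by
  have h0 := FF_mul_inv L
  have h1 := FF_mul_inv (L + 1)
  unfold z1_psi
  linear_combination h1 - h0

lemma z1_chi_eq (L : ℕ) : z1_chi L = FF L * ((FF L)⁻¹ - (FF (L + 1))⁻¹) := by
  have h0 := FF_mul_inv L
  have h1 := FF_mul_inv (L + 1)
  unfold z1_chi
  linear_combination h1 - h0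

lemma z1_cmul_nonneg (A B : PowerSeries ℝ) (hA : ∀ n, 0 ≤ PowerSeries.coeff n A)
    (hB : ∀ n, 0 ≤ PowerSeries.coeff n B) (n : ℕ) : 0 ≤ PowerSeries.coeff n (A * B) := by
  rw [lin_coeff_mul_range]
  exact Finset.sum_nonneg fun k _ => mul_nonneg (hA k) (hB _)

lemma z1_coeff_FF_nonneg (L n : ℕ) : 0 ≤ PowerSeries.coeff n (FF L) := by
  rw [coeff_FF]
  exact Fn_nonneg L n

lemma z1_coeff_FD_nonneg (L n : ℕ) : 0 ≤ PowerSeries.coeff n (FF (L + 1) - FF L) := by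
  rw [coeff_A]
  exact An_nonneg L n

lemma z1_psi_nonneg (L : ℕ) (hL : 1 ≤ L) (n : ℕ) : 0 ≤ PowerSeries.coeff n (z1_psi L) := by
  rw [z1_psi_eq]
  exact z1_cmul_nonneg _ _ (z1_coeff_FF_nonneg _) (fun k => by rw [coeff_rho]; exact rhoL_nonneg L hL k) n

lemma z1_chi_nonneg (L : ℕ) (hL : 1 ≤ L) (n : ℕ) : 0 ≤ PowerSeries.coeff n (z1_chi L) := by
  rw [z1_chi_eq]
  exact z1_cmul_nonneg _ _ (z1_coeff_FF_nonneg _) (fun k => by rw [coeff_rho]; exact rhoL_nonneg L hL k) n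

/-- the series of the second difference -/
noncomputable def z1_BB (L : ℕ) : PowerSeries ℝ :=
  FF (L + 1 + 1) - FF (L + 1) - (FF (L + 1) - FF L)

lemma z1_coeff_BB (L n : ℕ) : PowerSeries.coeff n (z1_BB L) = Bn L n := by
  unfold z1_BB
  rw [map_sub, coeff_A, coeff_A]
  rfl

lemma z1_FQ_nonneg (L M : ℕ) (h : M ≤ L) (n : ℕ) :
    0 ≤ PowerSeries.coeff n (FF (L + 1) - QQ (M + 1)) := by
  rw [map_sub, coeff_FF, coeff_QQ]
  split_ifs with h1
  · rw [Fn_eq_tn (L + 1) n (by omega), sub_self]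
  · rw [sub_zero]
    exact Fn_nonneg _ _

lemma z1_FQ_nonneg_b (L : ℕ) (n : ℕ) :
    0 ≤ PowerSeries.coeff n (FF (L + 1) - QQ L) := by
  rw [map_sub, coeff_FF, coeff_QQ]
  split_ifs with h1
  · rw [Fn_eq_tn (L + 1) n (by omega), sub_self]
  · rw [sub_zero]
    exact Fn_nonneg _ _

/-- the equation for `z = B_L / F_(L+1)` -/
theorem Z_eq (L : ℕ) : PowerSeries.C E * PowerSeries.derivative ℝ (z1_BB L * (FF (L + 1))⁻¹)
      = PowerSeries.C ((L : ℝ) + 2) * z1_BB L + 2 * (FF (L + 1) - FF L)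
        + (PowerSeries.C ((L : ℝ) + 2) * ((FF (L + 1 + 1) - FF (L + 1)) * z1_psi (L + 1))
          + PowerSeries.C (L : ℝ) * ((FF (L + 1) - FF L) * z1_chi L)
          + (FF (L + 1) - QQ (L + 1)) * z1_psi (L + 1) + (FF (L + 1) - QQ L) * z1_chi L)
        - (QQ (L + 1) - QQ L) := by
  have h0 := FF_ode L
  have h1 := FF_ode (L + 1)
  have h2 := FF_ode (L + 1 + 1)
  have c1 : (((L + 1 : ℕ)) : ℝ) = (L : ℝ) + 1 := by push_cast; ring
  have c2 : (((L + 1 + 1 : ℕ)) : ℝ) = (L : ℝ) + 2 := by push_cast; ring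
  rw [c1] at h1
  rw [c2] at h2
  exact Z_alg E L (FF L) (FF (L + 1)) (FF (L + 1 + 1)) (FF (L + 1))⁻¹ (QQ L) (QQ (L + 1)) (linPP L)
    (linPP (L + 1)) (linPP (L + 1 + 1)) h0 h1 h2 (FF_mul_inv (L + 1)) (linPP_succ L) (linPP_succ (L + 1))

/-- the coefficients of `z` -/
lemma z1_coeff_z (L n : ℕ) : PowerSeries.coeff (n + 1) (z1_BB L * (FF (L + 1))⁻¹) =
    Bn L (n + 1) - ∑ j ∈ range (n + 1), Bn L j * rn (L + 1) (n + 1 - j) := by
  rw [lin_coeff_mul_range, Finset.sum_range_succ, Nat.sub_self, z1_coeff_BB]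
  have h0 := rn_zero (L + 1)
  have h1 : PowerSeries.coeff 0 (FF (L + 1))⁻¹ = 1 := by
    unfold rn at h0
    linarith
  rw [h1, mul_one]
  have e : ∑ k ∈ range (n + 1), PowerSeries.coeff k (z1_BB L) *
      PowerSeries.coeff (n + 1 - k) (FF (L + 1))⁻¹ =
      - ∑ j ∈ range (n + 1), Bn L j * rn (L + 1) (n + 1 - j) := by
    rw [← Finset.sum_neg_distrib]
    apply Finset.sum_congr rfl
    intro k _
    rw [z1_coeff_BB]
    unfold rn
    ring
  rw [e]
  ring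

/-- the basic inequality, valid for all `n > L` -/
theorem R_ineq (L n : ℕ) (hL : 1 ≤ L) (hn : L + 1 ≤ n) :
    ((L : ℝ) + 2) * Bn L n + 2 * An L n ≤
      E * (((n : ℝ) + 1) * (Bn L (n + 1) -
        ∑ j ∈ range (n + 1), Bn L j * rn (L + 1) (n + 1 - j))) := by
  have h := congrArg (PowerSeries.coeff n) (Z_eq L)
  rw [PowerSeries.coeff_C_mul, PowerSeries.coeff_derivative, z1_coeff_z] at h
  obtain ⟨c, hc⟩ : ∃ c : ℝ, c = (L : ℝ) + 2 := ⟨_, rfl⟩
  obtain ⟨d, hd⟩ : ∃ d : ℝ, d = 2 := ⟨_, rfl⟩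
  have e2 : (2 : PowerSeries ℝ) = PowerSeries.C d := by
    rw [hd, show (2 : ℝ) = 1 + 1 by norm_num, map_add, map_one]
    norm_num
  rw [← hc, e2] at h
  rw [map_sub (PowerSeries.coeff n) (PowerSeries.C c * z1_BB L +
      PowerSeries.C d * (FF (L + 1) - FF L) + (PowerSeries.C c *
        ((FF (L + 1 + 1) - FF (L + 1)) * z1_psi (L + 1)) +
        PowerSeries.C (L : ℝ) * ((FF (L + 1) - FF L) * z1_chi L) +
      (FF (L + 1) - QQ (L + 1)) * z1_psi (L + 1) + (FF (L + 1) - QQ L) * z1_chi L))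
      (QQ (L + 1) - QQ L), map_add, map_add, map_add, map_add, map_add, 
    map_sub (PowerSeries.coeff n) (QQ (L + 1)) (QQ L),
    PowerSeries.coeff_C_mul, PowerSeries.coeff_C_mul, PowerSeries.coeff_C_mul,
    PowerSeries.coeff_C_mul, z1_coeff_BB, coeff_A, coeff_QQ, coeff_QQ, if_neg (by omega),
    if_neg (by omega), hc, hd] at h
  have p1 := z1_cmul_nonneg _ _ (z1_coeff_FD_nonneg (L + 1)) (z1_psi_nonneg (L + 1) (by omega)) n
  have p2 := z1_cmul_nonneg _ _ (z1_coeff_FD_nonneg L) (z1_chi_nonneg L hL) n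
  have p3 := z1_cmul_nonneg _ _ (z1_FQ_nonneg L L le_rfl) (z1_psi_nonneg (L + 1) (by omega)) n
  have p4 := z1_cmul_nonneg _ _ (z1_FQ_nonneg_b L) (z1_chi_nonneg L hL) n
  have q1 : 0 ≤ ((L : ℝ) + 2) *
      PowerSeries.coeff n ((FF (L + 1 + 1) - FF (L + 1)) * z1_psi (L + 1)) :=
    mul_nonneg (by positivity) p1
  have q2 : 0 ≤ (L : ℝ) * PowerSeries.coeff n ((FF (L + 1) - FF L) * z1_chi L) :=
    mul_nonneg (by positivity) p2
  have e3 : E * (((n : ℝ) + 1) * (Bn L (n + 1) -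
        ∑ j ∈ range (n + 1), Bn L j * rn (L + 1) (n + 1 - j))) =
      E * ((Bn L (n + 1) - ∑ j ∈ range (n + 1), Bn L j * rn (L + 1) (n + 1 - j)) *
        ((n : ℝ) + 1)) := by ring
  rw [e3, h]
  linarith

end Pool.Agent.MP_9da1e3_co
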