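import Pool.Agent.Lib.MP_9da1e3_co.Z1
import Pool.Agent.Lib.MP_9da1e3_co.Rj23

/-!
The rate of `rn (L+1)` for all indices, and the sign step for `B_L` for all `n`.
-/

namespace Pool.Agent.MP_9da1e3_co

open Finset

lemma z_rn_eq_rj (M k : ℕ) (hk : k + 1 ≤ M) : rn M (k + 1) = rj k := by
  rw [rn_explicit M k hk]
  rfl

/-- `theta * r (k+1) ≤ r k` for all `k ≥ 1`, sharper beyond `M`: `theta * (k+1) r (k+1) ≤ k r k` -/
theorem z_rn_rate (M : ℕ) (hM : 2 ≤ M) (θ : ℝ)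
    (hθ : θ ≤ 1 + 3 / (2 * ((M : ℝ) - 1))) :
    ∀ k, 1 ≤ k → θ * rn M (k + 1) ≤ rn M k ∧
      (M ≤ k → θ * (((k : ℝ) + 1) * rn M (k + 1)) ≤ (k : ℝ) * rn M k) := by
  have hMr : (2 : ℝ) ≤ M := by exact_mod_cast hM
  intro k
  induction k using Nat.strong_induction_on with
  | _ k ih =>
    intro hk
    rcases Nat.lt_or_ge k M with h | h
    · refine ⟨?_, fun hh => by omega⟩
      obtain ⟨j, rfl⟩ : ∃ j, k = j + 1 := ⟨k - 1, by omega⟩
      rw [z_rn_eq_rj M (j + 1) (by omega), z_rn_eq_rj M j (by omega)]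
      have h1 := rj_ratio j
      have h2 := (rj_pos (j + 1)).le
      have h3 : θ ≤ 1 + 3 / (2 * ((j : ℝ) + 1)) := by
        refine hθ.trans ?_
        have h4 : (j : ℝ) + 1 + 1 ≤ M := by exact_mod_cast h
        have h5 : (3 : ℝ) / (2 * ((M : ℝ) - 1)) ≤ 3 / (2 * ((j : ℝ) + 1)) := by
          apply div_le_div_of_nonneg_left (by norm_num) (by positivity)
          linarith
        linarith
      exact (mul_le_mul_of_nonneg_right h3 h2).trans h1
    · have hr1 := rn_rec M k hk (by omega)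
      have hr2 := rn_rec M (k - 1) (by omega) (by omega)
      have ek : k - 1 + 1 = k := by omega
      rw [ek] at hr2
      have ek2 : (((k - 1 : ℕ)) : ℝ) + 1 = k := by
        rw [Nat.cast_sub hk]
        push_cast
        ring
      rw [ek2] at hr2
      have key : θ * (E * (((k : ℝ) + 1) * rn M (k + 1))) ≤ E * ((k : ℝ) * rn M k) := by
        rw [hr1, hr2, Finset.mul_sum]
        apply Finset.sum_le_sum
        intro i hi
        have hi' := mem_range.mp hi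
        have hi2 : (i : ℝ) + 1 ≤ M := by exact_mod_cast hi'
        rcases Nat.lt_or_ge (i + 1) M with h1 | h1
        · have h2 := (ih (k - 1 - i) (by omega) (by omega)).1
          have e2 : k - 1 - i + 1 = k - i := by omega
          rw [e2] at h2
          have h3 : 0 ≤ ((M : ℝ) - 1 - i) * tn i := mul_nonneg (by linarith) (tn_pos i).le
          calc θ * (((M : ℝ) - 1 - i) * tn i * rn M (k - i))
              = (((M : ℝ) - 1 - i) * tn i) * (θ * rn M (k - i)) := by ring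
            _ ≤ (((M : ℝ) - 1 - i) * tn i) * rn M (k - 1 - i) :=
                mul_le_mul_of_nonneg_left h2 h3
            _ = _ := by ring
        · have h2 : (M : ℝ) - 1 - i = 0 := by
            have h3 : i + 1 = M := by omega
            have h4 : (i : ℝ) + 1 = M := by exact_mod_cast h3
            linarith
          rw [h2]
          simp
      have hE := E_pos
      have k2 : θ * (((k : ℝ) + 1) * rn M (k + 1)) ≤ (k : ℝ) * rn M k := by
        have : E * (θ * (((k : ℝ) + 1) * rn M (k + 1))) ≤ E * ((k : ℝ) * rn M k) := by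
          calc E * (θ * (((k : ℝ) + 1) * rn M (k + 1)))
              = θ * (E * (((k : ℝ) + 1) * rn M (k + 1))) := by ring
            _ ≤ _ := key
        exact le_of_mul_le_mul_left this hE
      refine ⟨?_, fun _ => k2⟩
      have hk0 : (0 : ℝ) < (k : ℝ) + 1 := by positivity
      have hrk : 0 ≤ rn M k := by
        have := rn_nonneg M (k - 1)
        rwa [ek] at this
      have k3 : ((k : ℝ) + 1) * (θ * rn M (k + 1)) ≤ ((k : ℝ) + 1) * rn M k := by
        calc ((k : ℝ) + 1) * (θ * rn M (k + 1)) = θ * (((k : ℝ) + 1) * rn M (k + 1)) := by ring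
          _ ≤ (k : ℝ) * rn M k := k2
          _ ≤ ((k : ℝ) + 1) * rn M k := by nlinarith
      exact le_of_mul_le_mul_left k3 hk0

/-- the rate of `rn (L+1)`: `(1 + 3/(2L)) r (k+1) ≤ r k`, all `k ≥ 1` -/
theorem z_rate (L : ℕ) (hL : 1 ≤ L) (k : ℕ) (hk : 1 ≤ k) :
    (1 + 3 / (2 * (L : ℝ))) * rn (L + 1) (k + 1) ≤ rn (L + 1) k := by
  have h := (z_rn_rate (L + 1) (by omega) (1 + 3 / (2 * (L : ℝ)))
    (by push_cast; rw [add_sub_cancel_right]) k hk).1
  exact h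

/-- the same in the shape of `m_theta` -/
theorem z_rate' (L : ℕ) (hL : 1 ≤ L) (x : ℕ) :
    (1 + 3 / (2 * (L : ℝ))) * rn (L + 1) (x + 1 + 1) ≤ rn (L + 1) (x + 1) :=
  z_rate L hL (x + 1) (by omega)

/-- beyond `L`: `theta (k+1) r (k+1) ≤ k r k` -/
theorem z_rate_far (L : ℕ) (hL : 1 ≤ L) (k : ℕ) (hk : L + 1 ≤ k) :
    (1 + 3 / (2 * (L : ℝ))) * (((k : ℝ) + 1) * rn (L + 1) (k + 1)) ≤ (k : ℝ) * rn (L + 1) k := by
  have h := (z_rn_rate (L + 1) (by omega) (1 + 3 / (2 * (L : ℝ)))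
    (by push_cast; rw [add_sub_cancel_right]) k (by omega)).2 (by omega)
  exact h

/-- iterated rate -/
lemma z_rate_pow (L : ℕ) (hL : 1 ≤ L) (k : ℕ) (hk : 1 ≤ k) (d : ℕ) :
    (1 + 3 / (2 * (L : ℝ))) ^ d * rn (L + 1) (k + d) ≤ rn (L + 1) k := by
  have hθ : (0 : ℝ) ≤ 1 + 3 / (2 * (L : ℝ)) := by positivity
  induction d with
  | zero => simp
  | succ d ih =>
    have h := z_rate L hL (k + d) (by omega)
    have hp : (0 : ℝ) ≤ (1 + 3 / (2 * (L : ℝ))) ^ d := pow_nonneg hθ d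
    calc (1 + 3 / (2 * (L : ℝ))) ^ (d + 1) * rn (L + 1) (k + (d + 1))
        = (1 + 3 / (2 * (L : ℝ))) ^ d * ((1 + 3 / (2 * (L : ℝ))) * rn (L + 1) (k + d + 1)) := by
          rw [pow_succ, ← Nat.add_assoc]; ring
      _ ≤ (1 + 3 / (2 * (L : ℝ))) ^ d * rn (L + 1) (k + d) := mul_le_mul_of_nonneg_left h hp
      _ ≤ _ := ih

/-- lemma (M) with weights, for `r` indexed from `1` -/
lemma z_M (L ν n n1 : ℕ) (hL : 1 ≤ L) (b : ℕ → ℝ) (h1 : ν ≤ n1 + 1) (h2 : n1 ≤ n) (h3 : ν ≤ n)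
    (hneg : ∀ j, j < ν → b j ≤ 0) (hpos : ∀ j, ν ≤ j → j ≤ n → 0 ≤ b j) :
    rn (L + 1) (n + 1 - ν) * ∑ j ∈ range (n1 + 1), (1 + 3 / (2 * (L : ℝ))) ^ j * b j ≤
      (1 + 3 / (2 * (L : ℝ))) ^ ν * ∑ j ∈ range (n + 1), b j * rn (L + 1) (n + 1 - j) := by
  obtain ⟨θ, hθd⟩ : ∃ θ : ℝ, θ = 1 + 3 / (2 * (L : ℝ)) := ⟨_, rfl⟩
  have hθ : 0 < θ := by rw [hθd]; positivity
  have rpow : ∀ k d, 1 ≤ k → θ ^ d * rn (L + 1) (k + d) ≤ rn (L + 1) k := by
    intro k d hk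
    rw [hθd]
    exact z_rate_pow L hL k hk d
  have rnn : ∀ k, 1 ≤ k → 0 ≤ rn (L + 1) k := by
    intro k hk
    have := rn_nonneg (L + 1) (k - 1)
    have e : k - 1 + 1 = k := by omega
    rwa [e] at this
  rw [← hθd, Finset.mul_sum, Finset.mul_sum]
  have term : ∀ j, j ≤ n → rn (L + 1) (n + 1 - ν) * (θ ^ j * b j) ≤
      θ ^ ν * (b j * rn (L + 1) (n + 1 - j)) := by
    intro j hj
    rcases Nat.lt_or_ge j ν with h | h
    · have hb := hneg j h
      have h4 := rpow (n + 1 - ν) (ν - j) (by omega)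
      have e4 : n + 1 - ν + (ν - j) = n + 1 - j := by omega
      rw [e4] at h4
      have e5 : θ ^ ν = θ ^ j * θ ^ (ν - j) := by rw [← pow_add]; congr 1; omega
      have h6 : 0 ≤ θ ^ j * (-b j) := mul_nonneg (pow_nonneg hθ.le _) (by linarith)
      have h7 := mul_le_mul_of_nonneg_left h4 h6
      rw [e5]
      nlinarith [h7]
    · have hb := hpos j h hj
      have h4 := rpow (n + 1 - j) (j - ν) (by omega)
      have e4 : n + 1 - j + (j - ν) = n + 1 - ν := by omega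
      rw [e4] at h4
      have e5 : θ ^ j = θ ^ ν * θ ^ (j - ν) := by rw [← pow_add]; congr 1; omega
      have h6 : 0 ≤ θ ^ ν * b j := mul_nonneg (pow_nonneg hθ.le _) hb
      have h7 := mul_le_mul_of_nonneg_left h4 h6
      rw [e5]
      nlinarith [h7]
  calc ∑ j ∈ range (n1 + 1), rn (L + 1) (n + 1 - ν) * (θ ^ j * b j)
      ≤ ∑ j ∈ range (n1 + 1), θ ^ ν * (b j * rn (L + 1) (n + 1 - j)) :=
        Finset.sum_le_sum fun j hj => term j (by have := mem_range.mp hj; omega)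
    _ ≤ ∑ j ∈ range (n + 1), θ ^ ν * (b j * rn (L + 1) (n + 1 - j)) := by
        apply Finset.sum_le_sum_of_subset_of_nonneg
        · exact Finset.range_subset_range.mpr (by omega)
        · intro j hj hj2
          have hj3 : j ≤ n := by have := mem_range.mp hj; omega
          have hj4 : n1 + 1 ≤ j := by
            by_contra hc
            exact hj2 (mem_range.mpr (by omega))
          exact mul_nonneg (pow_nonneg hθ.le _) (mul_nonneg (hpos j (by omega) hj3)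
            (rnn _ (by omega)))

/-- the sign step, all `n ≥ L + 1`: with `W` such that `- theta^ν W ≤ SUM_{j ≤ n1} theta^j B(j)`,
`E (n+1) r(n+1-ν) W ≤ 2 A(n)` gives `B(n+1) ≥ 0` -/
theorem z_step (L ν n n1 : ℕ) (W : ℝ) (hL : 1 ≤ L) (hn : L + 1 ≤ n) (h1 : ν ≤ n1 + 1)
    (h2 : n1 ≤ n) (h3 : ν ≤ n) (hneg : ∀ j, j < ν → Bn L j ≤ 0)
    (hpos : ∀ j, ν ≤ j → j ≤ n → 0 ≤ Bn L j)
    (hW : -((1 + 3 / (2 * (L : ℝ))) ^ ν * W) ≤
      ∑ j ∈ range (n1 + 1), (1 + 3 / (2 * (L : ℝ))) ^ j * Bn L j)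
    (h : E * (((n : ℝ) + 1) * (rn (L + 1) (n + 1 - ν) * W)) ≤ 2 * An L n) :
    0 ≤ Bn L (n + 1) := by
  obtain ⟨θ, hθd⟩ : ∃ θ : ℝ, θ = 1 + 3 / (2 * (L : ℝ)) := ⟨_, rfl⟩
  have hθ : 0 < θ := by rw [hθd]; positivity
  have hR := R_ineq L n hL hn
  have hM := z_M L ν n n1 hL (Bn L) h1 h2 h3 hneg hpos
  rw [← hθd] at hM hW
  have hr : 0 ≤ rn (L + 1) (n + 1 - ν) := by
    have := rn_nonneg (L + 1) (n - ν)
    have e : n - ν + 1 = n + 1 - ν := by omega
    rwa [e] at this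
  have hp : 0 < θ ^ ν := pow_pos hθ ν
  have h5 : -(rn (L + 1) (n + 1 - ν) * W) ≤
      ∑ j ∈ range (n + 1), Bn L j * rn (L + 1) (n + 1 - j) := by
    have h6 : θ ^ ν * -(rn (L + 1) (n + 1 - ν) * W) ≤
        θ ^ ν * ∑ j ∈ range (n + 1), Bn L j * rn (L + 1) (n + 1 - j) := by
      refine le_trans ?_ hM
      have := mul_le_mul_of_nonneg_left hW hr
      calc θ ^ ν * -(rn (L + 1) (n + 1 - ν) * W)
          = rn (L + 1) (n + 1 - ν) * -(θ ^ ν * W) := by ring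
        _ ≤ _ := this
    exact le_of_mul_le_mul_left h6 hp
  have hB : 0 ≤ Bn L n := hpos n h3 le_rfl
  have hE := E_pos
  have hn0 : (0 : ℝ) < (n : ℝ) + 1 := by positivity
  have hL0 : (0 : ℝ) ≤ (L : ℝ) + 2 := by positivity
  have h7 : 0 ≤ E * (((n : ℝ) + 1) * Bn L (n + 1)) := by
    have h8 : E * (((n : ℝ) + 1) * (-(rn (L + 1) (n + 1 - ν) * W))) ≤
        E * (((n : ℝ) + 1) * ∑ j ∈ range (n + 1), Bn L j * rn (L + 1) (n + 1 - j)) :=
      mul_le_mul_of_nonneg_left (mul_le_mul_of_nonneg_left h5 hn0.le) hE.le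
    have h9 : 0 ≤ ((L : ℝ) + 2) * Bn L n := mul_nonneg hL0 hB
    have h10 : E * (((n : ℝ) + 1) * (Bn L (n + 1) -
        ∑ j ∈ range (n + 1), Bn L j * rn (L + 1) (n + 1 - j))) =
        E * (((n : ℝ) + 1) * Bn L (n + 1)) -
        E * (((n : ℝ) + 1) * ∑ j ∈ range (n + 1), Bn L j * rn (L + 1) (n + 1 - j)) := by ring
    rw [h10] at hR
    linarith
  exact (mul_nonneg_iff_of_pos_left hn0).mp ((mul_nonneg_iff_of_pos_left hE).mp h7)

/-- all the way: if the inequality of `z_step` holds for all `n ≥ n0` then `B ≥ 0` from `ν` on -/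
theorem z_all (L ν n0 n1 : ℕ) (W : ℝ) (hL : 1 ≤ L) (hn : L + 1 ≤ n0) (h1 : ν ≤ n1 + 1)
    (h2 : n1 ≤ n0) (h3 : ν ≤ n0) (hneg : ∀ j, j < ν → Bn L j ≤ 0)
    (hbase : ∀ j, ν ≤ j → j ≤ n0 → 0 ≤ Bn L j)
    (hW : -((1 + 3 / (2 * (L : ℝ))) ^ ν * W) ≤
      ∑ j ∈ range (n1 + 1), (1 + 3 / (2 * (L : ℝ))) ^ j * Bn L j)
    (h : ∀ n, n0 ≤ n → E * (((n : ℝ) + 1) * (rn (L + 1) (n + 1 - ν) * W)) ≤ 2 * An L n) :
    ∀ j, ν ≤ j → 0 ≤ Bn L j := by
  intro j
  induction j using Nat.strong_induction_on with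
  | _ j ih =>
    intro hj
    rcases Nat.lt_or_ge n0 j with h4 | h4
    · obtain ⟨m, rfl⟩ : ∃ m, j = m + 1 := ⟨j - 1, by omega⟩
      exact z_step L ν m n1 W hL (by omega) h1 (by omega) (by omega) hneg
        (fun i hi hi2 => ih i (by omega) hi) hW (h m (by omega))
    · exact hbase j hj h4

end Pool.Agent.MP_9da1e3_co
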